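import Pool.Agent.H419R2.B7

/-! The `L`-value side for a general quadratic character. -/

namespace Pool.Agent.V5helper47.EV

open Finset Filter Topology Polynomial H419R2

/-- the properties of a quadratic character that are used -/
structure Psi (D : ℕ) (ψ : ℕ → ℤ) : Prop where
  zero : ψ 0 = 0
  one : ψ 1 = 1
  abs : ∀ n, |ψ n| ≤ 1
  mul : ∀ a b, ψ (a * b) = ψ a * ψ b
  per : ∀ n, ψ (n + D) = ψ n
  tw : ∀ q : ℕ, 0 < q → q.Coprime D → ∃ c : ℕ, c ≡ 1 [MOD q] ∧ c.Coprime (q * D) ∧ ψ c = -1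

/-- `∑_{b ∣ n} ψ b` -/
def rp (ψ : ℕ → ℤ) (n : ℕ) : ℤ := ∑ b ∈ n.divisors, ψ b

variable {D : ℕ} {ψ : ℕ → ℤ} (H : Psi D ψ)

include H

theorem rp_one : rp ψ 1 = 1 := by
  simp [rp, H.one]

theorem rp_rec {l n : ℕ} (hl : l.Prime) (hn : n ≠ 0) :
    rp ψ (l * n) = (1 + ψ l) * rp ψ n - ψ l * (if l ∣ n then rp ψ (n / l) else 0) := by
  unfold rp
  rw [divisors_prime_mul hl hn]
  have h1 := Finset.sum_union_inter (s₁ := n.divisors)
    (s₂ := n.divisors.image (fun b => l * b)) (f := fun b : ℕ => ψ b)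
  have himg : ∀ s : Finset ℕ, ∑ b ∈ s.image (fun b => l * b), ψ b = ψ l * ∑ b ∈ s, ψ b := by
    intro s
    rw [Finset.sum_image (by
      intro a _ b _ h
      exact Nat.eq_of_mul_eq_mul_left hl.pos h), Finset.mul_sum]
    apply Finset.sum_congr rfl
    intro b _
    rw [H.mul]
  have hinter : ∑ b ∈ n.divisors ∩ n.divisors.image (fun b => l * b), ψ b
      = ψ l * (if l ∣ n then ∑ b ∈ (n / l).divisors, ψ b else 0) := by
    split_ifs with h
    · obtain ⟨k, rfl⟩ := h
      rw [Nat.mul_div_cancel_left _ hl.pos, ← himg]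
      apply Finset.sum_congr _ (fun _ _ => rfl)
      have hk : k ≠ 0 := by rintro rfl; simp at hn
      ext b
      simp only [Nat.mem_divisors, Finset.mem_inter, Finset.mem_image]
      constructor
      · rintro ⟨⟨h1, _⟩, ⟨c, ⟨h2, _⟩, rfl⟩⟩
        exact ⟨c, ⟨Nat.dvd_of_mul_dvd_mul_left hl.pos h1, hk⟩, rfl⟩
      · rintro ⟨c, ⟨h2, _⟩, rfl⟩
        exact ⟨⟨Nat.mul_dvd_mul_left l h2, hn⟩, ⟨c, ⟨h2.mul_left l, hn⟩, rfl⟩⟩
    · rw [mul_zero]
      apply Finset.sum_eq_zero
      intro b hb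
      exfalso
      simp only [Nat.mem_divisors, Finset.mem_inter, Finset.mem_image] at hb
      obtain ⟨⟨h1, _⟩, ⟨c, _, rfl⟩⟩ := hb
      exact h ((Dvd.intro _ rfl).trans h1)
  rw [himg, hinter] at h1
  linarith

theorem Psi.absR (n : ℕ) : |(ψ n : ℝ)| ≤ 1 := by
  have := H.abs n
  have h2 : ((|ψ n| : ℤ) : ℝ) ≤ 1 := by exact_mod_cast this
  rwa [Int.cast_abs] at h2

theorem summable_pairs {f : ℕ → ℝ} (hf0 : f 0 = 0) {Φ : ℝ}
    (hΦ : ∀ j, |f j| ≤ Φ) {t : ℝ} (ht : 0 < t) :
    Summable (fun x : ℕ × ℕ => (ψ x.1 : ℝ) * (f (x.2 * x.1) *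
      Real.exp (-(t * (x.2 * x.1 : ℕ))))) := by
  have hΦ0 : 0 ≤ Φ := (abs_nonneg _).trans (hΦ 0)
  set ρ := Real.exp (-(t / 2)) with hρ
  have hρ0 : 0 < ρ := Real.exp_pos _
  have hρ1 : ρ < 1 := by rw [hρ, Real.exp_lt_one_iff]; linarith
  have hg : Summable (fun x : ℕ × ℕ => ρ ^ x.1 * ρ ^ x.2) :=
    (summable_geometric_of_lt_one hρ0.le hρ1).mul_of_nonneg
      (summable_geometric_of_lt_one hρ0.le hρ1) (fun n => by positivity) (fun n => by positivity)
  apply Summable.of_norm_bounded (hg.mul_left Φ)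
  rintro ⟨b, a⟩
  simp only
  rw [Real.norm_eq_abs]
  by_cases hb : b = 0
  · subst hb
    rw [H.zero]
    simp only [Int.cast_zero, zero_mul, abs_zero]
    positivity
  by_cases ha : a = 0
  · subst ha
    simp only [zero_mul, hf0, mul_zero, abs_zero]
    positivity
  rw [abs_mul, abs_mul, abs_of_pos (Real.exp_pos _)]
  have hab : ((a : ℝ) + b) / 2 ≤ (a * b : ℕ) := by
    have ha1 : (1 : ℝ) ≤ a := by exact_mod_cast Nat.one_le_iff_ne_zero.mpr ha
    have hb1 : (1 : ℝ) ≤ b := by exact_mod_cast Nat.one_le_iff_ne_zero.mpr hb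
    push_cast
    nlinarith
  have he : Real.exp (-(t * (a * b : ℕ))) ≤ ρ ^ b * ρ ^ a := by
    rw [hρ, ← Real.exp_nat_mul, ← Real.exp_nat_mul, ← Real.exp_add]
    apply Real.exp_le_exp.mpr
    nlinarith
  calc |(ψ b : ℝ)| * (|f (a * b)| * Real.exp (-(t * (a * b : ℕ))))
      ≤ 1 * (Φ * (ρ ^ b * ρ ^ a)) := by
        gcongr
        · exact H.absR _
        · exact hΦ _
    _ = Φ * (ρ ^ b * ρ ^ a) := by ring

theorem Lside_hasSum {f : ℕ → ℝ} (hf0 : f 0 = 0) {Φ : ℝ}
    (hΦ : ∀ j, |f j| ≤ Φ) {t : ℝ} (ht : 0 < t) :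
    HasSum (fun n : ℕ => f n * Real.exp (-(t * n)) * (rp ψ n : ℝ))
      (∑' b : ℕ, (ψ b : ℝ) * ∑' a : ℕ, f (a * b) * Real.exp (-(t * (a * b : ℕ)))) := by
  have hs := summable_pairs H hf0 hΦ ht
  have h1 := hs.hasSum.tsum_fiberwise (fun x : ℕ × ℕ => x.2 * x.1)
  have h2 : ∑' x : ℕ × ℕ, (ψ x.1 : ℝ) * (f (x.2 * x.1) *
      Real.exp (-(t * (x.2 * x.1 : ℕ)))) =
      ∑' b : ℕ, (ψ b : ℝ) * ∑' a : ℕ, f (a * b) * Real.exp (-(t * (a * b : ℕ))) := by
    rw [hs.tsum_prod]
    apply tsum_congr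
    intro b
    simp only
    exact tsum_mul_left
  rw [h2] at h1
  have heq : (fun n : ℕ => f n * Real.exp (-(t * n)) * (rp ψ n : ℝ)) =
      (fun c => ∑' (x : ↑((fun x : ℕ × ℕ => x.2 * x.1) ⁻¹' {c})),
        (ψ x.1.1 : ℝ) * (f (x.1.2 * x.1.1) * Real.exp (-(t * (x.1.2 * x.1.1 : ℕ))))) := by
    funext n
    have h3 : ∀ x : ↑((fun x : ℕ × ℕ => x.2 * x.1) ⁻¹' {n}),
        (ψ x.1.1 : ℝ) * (f (x.1.2 * x.1.1) * Real.exp (-(t * (x.1.2 * x.1.1 : ℕ)))) =
        (f n * Real.exp (-(t * n))) * (ψ x.1.1 : ℝ) := by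
      rintro ⟨x, hx⟩
      have hx' : x.2 * x.1 = n := hx
      simp only [hx']
      ring
    rw [tsum_congr h3, tsum_mul_left]
    by_cases hn : n = 0
    · subst hn
      rw [hf0]; simp
    · congr 1
      have h4 : ((fun x : ℕ × ℕ => x.2 * x.1) ⁻¹' {n}) = (n.divisorsAntidiagonal : Set (ℕ × ℕ)) := by
        ext x
        simp only [Set.mem_preimage, Set.mem_singleton_iff, Finset.mem_coe,
          Nat.mem_divisorsAntidiagonal]
        constructor
        · intro h; exact ⟨by rw [mul_comm]; exact h, hn⟩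
        · intro h; rw [mul_comm]; exact h.1
      rw [h4, Finset.tsum_subtype' n.divisorsAntidiagonal (fun x : ℕ × ℕ => (ψ x.1 : ℝ))]
      unfold rp
      push_cast
      exact (Nat.sum_divisorsAntidiagonal (fun x _ => (ψ x : ℝ))).symm
  rw [heq]
  exact h1

omit H in
/-- twisted coefficient -/
noncomputable def twp (ψ : ℕ → ℤ) (q β : ℕ) (b : ℕ) : ℝ := if b % q = β then (ψ b : ℝ) else 0

theorem tw_abs (q β b : ℕ) : |twp ψ q β b| ≤ 1 := by
  unfold twp
  split_ifs
  · exact H.absR _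
  · simp

theorem Psi.per' (q b : ℕ) : ψ (b + q * D) = ψ b := by
  induction q with
  | zero => simp
  | succ q ih => rw [show b + (q + 1) * D = (b + q * D) + D by ring, H.per, ih]

theorem tw_periodic (q β b : ℕ) : twp ψ q β (b + q * D) = twp ψ q β b := by
  unfold twp
  have h1 : (b + q * D) % q = b % q := Nat.add_mul_mod_self_left _ _ _
  rw [h1, H.per']

theorem tw_mean {q : ℕ} (hq : 0 < q) (hD : 1 < D) (hcop : q.Coprime D) (β : ℕ) :
    ∑ l ∈ range (q * D), twp ψ q β l = 0 := by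
  have hQ : 0 < q * D := by positivity
  have : NeZero (q * D) := ⟨hQ.ne'⟩
  obtain ⟨c, hc1, hcQ, hcψ⟩ := H.tw q hq hcop
  rw [sum_range_zmod]
  set u := ZMod.unitOfCoprime c hcQ with hu
  have h1 : ∑ x : ZMod (q * D), twp ψ q β x.val = ∑ x : ZMod (q * D), twp ψ q β ((u : ZMod (q * D)) * x).val :=
    (Equiv.sum_comp (Units.mulLeft u) (fun x : ZMod (q * D) => twp ψ q β x.val)).symm
  have hper : ∀ n : ℕ, twp ψ q β (n % (q * D)) = twp ψ q β n := by
    intro n
    have h3 : ∀ k m : ℕ, twp ψ q β (m + (q * D) * k) = twp ψ q β m := by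
      intro k
      induction k with
      | zero => intro m; simp
      | succ k ih => intro m; rw [Nat.mul_succ, ← add_assoc, tw_periodic H, ih]
    conv_rhs => rw [← Nat.mod_add_div n (q * D), h3]
  have h2 : ∀ x : ZMod (q * D), twp ψ q β ((u : ZMod (q * D)) * x).val = - twp ψ q β x.val := by
    intro x
    have h4 : ((u : ZMod (q * D)) * x).val = (c * x.val) % (q * D) := by
      rw [hu, ZMod.coe_unitOfCoprime, ZMod.val_mul, ZMod.val_natCast, Nat.mod_mul_mod]
    rw [h4, hper]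
    unfold twp
    have h5 : (c * x.val) % q = x.val % q := by
      have : c * x.val ≡ 1 * x.val [MOD q] := hc1.mul_right _
      rw [one_mul] at this
      exact this
    have h6 : ψ (c * x.val) = - ψ x.val := by
      rw [H.mul, hcψ]; ring
    rw [h5, h6]
    split_ifs <;> simp
  simp only [h2, Finset.sum_neg_distrib] at h1
  linarith

theorem Lside_limit {q : ℕ} [NeZero q] (hD : 1 < D) (hcop : q.Coprime D)
    {F : ZMod q → ℝ} (hodd : ∀ x, F (-x) = -F x) :
    Tendsto (fun t : ℝ => ∑' b : ℕ, (ψ b : ℝ) *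
      ∑' a : ℕ, F ((a * b : ℕ)) * Real.exp (-(t * (a * b : ℕ)))) (𝓝[>] 0)
      (𝓝 ((∑ l ∈ range (q * D), ∑ a ∈ range q, (l : ℝ) * a * ψ l * F ((a * l : ℕ)))
        / (q * (q * D)))) := by
  have hq : 0 < q := Nat.pos_of_ne_zero (NeZero.ne q)
  have hQ : 0 < q * D := by positivity
  have hq' : (q : ℝ) ≠ 0 := by positivity
  have hD' : (D : ℝ) ≠ 0 := by positivity
  have hF0 : F 0 = 0 := by
    have := hodd 0
    rw [neg_zero] at this
    linarith
  set Φ : ℝ := ∑ x : ZMod q, |F x| with hΦdef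
  have hΦ : ∀ x, |F x| ≤ Φ := fun x =>
    Finset.single_le_sum (f := fun x => |F x|) (fun _ _ => abs_nonneg _) (Finset.mem_univ x)
  set φ : ℕ → ℕ → ℝ := fun β a => F (a * β) with hφ
  have hφper : ∀ β j, φ β (j + q) = φ β j := by
    intro β j
    simp [hφ]
  have hφmean : ∀ β, ∑ i ∈ range q, φ β i = 0 := fun β => sum_odd_zero hodd (β : ZMod q)
  have hφ0 : ∀ β, φ β 0 = 0 := by intro β; simp [hφ, hF0]
  have hB := denp_ge hq
  have htw0 : ∀ β, wM (q * D) (twp ψ q β) = 0 := by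
    intro β
    unfold wM
    rw [tw_mean H hq hD hcop, zero_div]
  have hlim : Tendsto (fun t : ℝ => ∑ β ∈ range q, ∑' b : ℕ, twp ψ q β b *
      qf (nump q (φ β)) (denp q) 1 (t * b)) (𝓝[>] 0)
      (𝓝 (∑ β ∈ range q, -(wA (q * D) (twp ψ q β) 0 * qf (nump q (φ β)) (denp q) 1 0))) := by
    apply tendsto_finsetSum
    intro β _
    exact twisted_limit hQ (tw_periodic H q β) (tw_abs H q β) (htw0 β)
      (X_dvd_nump q (hφ0 β)) hB
  have hval : (∑ β ∈ range q, -(wA (q * D) (twp ψ q β) 0 * qf (nump q (φ β)) (denp q) 1 0)) =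
      (∑ l ∈ range (q * D), ∑ a ∈ range q, (l : ℝ) * a * ψ l * F ((a * l : ℕ)))
        / (q * (q * D)) := by
    have h1 : ∀ β ∈ range q, -(wA (q * D) (twp ψ q β) 0 * qf (nump q (φ β)) (denp q) 1 0) =
        (∑ l ∈ range (q * D), (l : ℝ) * twp ψ q β l * ∑ a ∈ range q, a * φ β a)
          / (q * (q * D)) := by
      intro β _
      rw [qf_zero hq (hφmean β)]
      have h2 : wA (q * D) (twp ψ q β) 0 = (∑ l ∈ range (q * D), (l : ℝ) * twp ψ q β l) / (q * D) := by
        unfold wA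
        have h3 : ∀ l ∈ range (q * D), twp ψ q β (0 + l) * ((l : ℝ) / (q * D : ℕ) - 1 / 2) =
            ((l : ℝ) * twp ψ q β l) / (q * D) - (1 / 2) * twp ψ q β l := by
          intro l _
          rw [zero_add]; push_cast; ring
        rw [Finset.sum_congr rfl h3, Finset.sum_sub_distrib, ← Finset.mul_sum,
          tw_mean H hq hD hcop, ← Finset.sum_div]
        ring
      rw [h2, ← Finset.sum_mul]
      field_simp
    rw [Finset.sum_congr rfl h1, ← Finset.sum_div, Finset.sum_comm]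
    congr 1
    apply Finset.sum_congr rfl
    intro l _
    rw [Finset.sum_eq_single (l % q)]
    · have : twp ψ q (l % q) l = ψ l := by unfold twp; simp
      rw [this, Finset.mul_sum]
      apply Finset.sum_congr rfl
      intro a _
      simp only [hφ]
      have h5 : ((l % q : ℕ) : ZMod q) = (l : ZMod q) := ZMod.natCast_mod l q
      rw [h5]
      push_cast
      ring
    · intro β _ hne
      have : twp ψ q β l = 0 := by
        unfold twp; rw [if_neg (fun h => hne h.symm)]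
      rw [this]; simp
    · intro h
      exact absurd (Finset.mem_range.mpr (Nat.mod_lt l hq)) h
  rw [← hval]
  refine hlim.congr' ?_
  filter_upwards [self_mem_nhdsWithin] with t ht
  have ht' : (0 : ℝ) < t := ht
  rw [← Summable.tsum_finsetSum]
  · apply tsum_congr
    intro b
    rcases Nat.eq_zero_or_pos b with hb | hb
    · subst hb
      have hz : (ψ 0 : ℝ) = 0 := by
        rw [H.zero]; simp
      rw [hz, zero_mul]
      apply Finset.sum_eq_zero
      intro β _
      have : twp ψ q β 0 = 0 := by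
        unfold twp
        rw [hz, ite_self]
      rw [this, zero_mul]
    · rw [Finset.sum_eq_single (b % q)]
      · have h1 : twp ψ q (b % q) b = ψ b := by unfold twp; simp
        rw [h1]
        congr 1
        have hb' : (0 : ℝ) < t * b := by
          have : (0 : ℝ) < b := by exact_mod_cast hb
          positivity
        rw [← tsum_periodic hq (hφper _) (hφmean _) (fun j => hΦ _) hb']
        apply tsum_congr
        intro a
        simp only [hφ]
        have h5 : ((b % q : ℕ) : ZMod q) = (b : ZMod q) := ZMod.natCast_mod b q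
        rw [h5]
        push_cast
        congr 2
        ring
      · intro β _ hne
        have : twp ψ q β b = 0 := by
          unfold twp; rw [if_neg (fun h => hne h.symm)]
        rw [this]; simp
      · intro h
        exact absurd (Finset.mem_range.mpr (Nat.mod_lt b hq)) h
  · intro β _
    exact twisted_summable (tw_abs H q β) (X_dvd_nump q (hφ0 β)) hB ht'

end Pool.Agent.V5helper47.EV
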