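import Pool.Agent.V5helper47.EV.E1

/-! The character of `ℚ(√d)` for `d ≡ 2, 3 (mod 4)`. -/

namespace Pool.Agent.V5helper47.EV

open Finset H419R2

/-- the character of `ℚ(√d)`, for `d ≡ 2, 3 (mod 4)` -/
def kr (d : ℕ) (n : ℕ) : ℤ := if n % 2 = 0 then 0 else jacobiSym d n

theorem kr_even {d n : ℕ} (h : n % 2 = 0) : kr d n = 0 := if_pos h

theorem kr_odd {d n : ℕ} (h : n % 2 = 1) : kr d n = jacobiSym d n := if_neg (by omega)

theorem kr_tw {d q : ℕ} (hd : d % 4 = 2 ∨ d % 4 = 3) (hq : 0 < q) (hcop : q.Coprime (4 * d)) :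
    ∃ c : ℕ, c ≡ 1 [MOD q] ∧ c.Coprime (q * (4 * d)) ∧ kr d c = -1 := by
  have hd0 : 0 < d := by omega
  have hqd : q.Coprime d := Nat.Coprime.coprime_mul_left_right hcop
  have hq4 : q.Coprime 4 := Nat.Coprime.coprime_mul_right_right hcop
  rcases hd with hd | hd
  · obtain ⟨e, rfl⟩ : ∃ e, d = 2 * e := ⟨d / 2, by omega⟩
    have he : e % 2 = 1 := by omega
    have hqe : q.Coprime e := Nat.Coprime.coprime_mul_left_right hqd
    have h8 : Nat.Coprime (q * e) 8 := by
      have h2 : Nat.Coprime e 2 := by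
        rw [Nat.coprime_comm, Nat.Prime.coprime_iff_not_dvd Nat.prime_two]; omega
      have h2' : Nat.Coprime q 2 := Nat.Coprime.coprime_dvd_right (by norm_num) hq4
      have : (8 : ℕ) = 2 ^ 3 := by norm_num
      rw [this]
      exact Nat.Coprime.pow_right 3 (Nat.Coprime.mul_left h2' h2)
    obtain ⟨c, hc1, hc2⟩ := Nat.chineseRemainder h8 1 5
    have hcq : c ≡ 1 [MOD q] := hc1.of_mul_right e
    have hce : c ≡ 1 [MOD e] := hc1.of_mul_left q
    have h8' : c % 8 = 5 := hc2
    have hodd : c % 2 = 1 := by omega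
    refine ⟨c, hcq, ?_, ?_⟩
    · have k1 : c.Coprime q := by
        have := hcq.gcd_eq
        rw [Nat.gcd_one_left] at this
        exact this
      have k2 : c.Coprime e := by
        have := hce.gcd_eq
        rw [Nat.gcd_one_left] at this
        exact this
      have k3 : c.Coprime 2 := by
        rw [Nat.coprime_comm, Nat.Prime.coprime_iff_not_dvd Nat.prime_two]; omega
      have k4 : c.Coprime 4 := by
        have : (4 : ℕ) = 2 ^ 2 := by norm_num
        rw [this]
        exact Nat.Coprime.pow_right 2 k3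
      exact Nat.Coprime.mul_right k1 (Nat.Coprime.mul_right k4 (Nat.Coprime.mul_right k3 k2))
    · rw [kr_odd hodd]
      push_cast
      rw [jacobiSym.mul_left, jacobiSym.at_two (Nat.odd_iff.mpr hodd),
        ZMod.χ₈_nat_eq_if_mod_eight, ← jacobiSym.quadratic_reciprocity_one_mod_four (by omega)
          (Nat.odd_iff.mpr he)]
      have : jacobiSym (c : ℤ) e = 1 := by
        rw [jacobiSym.mod_left' (b := e) (a₁ := (c : ℤ)) (a₂ := 1) (by exact_mod_cast hce),
          jacobiSym.one_left]
      rw [this]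
      simp [h8']
      omega
  · have h4 : Nat.Coprime (q * d) 4 := by
      have h2 : Nat.Coprime d 4 := by
        have h2 : Nat.Coprime d 2 := by
          rw [Nat.coprime_comm, Nat.Prime.coprime_iff_not_dvd Nat.prime_two]; omega
        have : (4 : ℕ) = 2 ^ 2 := by norm_num
        rw [this]
        exact Nat.Coprime.pow_right 2 h2
      exact Nat.Coprime.mul_left hq4 h2
    obtain ⟨c, hc1, hc2⟩ := Nat.chineseRemainder h4 1 3
    have hcq : c ≡ 1 [MOD q] := hc1.of_mul_right d
    have hcd : c ≡ 1 [MOD d] := hc1.of_mul_left q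
    have h4' : c % 4 = 3 := hc2
    have hodd : c % 2 = 1 := by omega
    refine ⟨c, hcq, ?_, ?_⟩
    · have k1 : c.Coprime q := by
        have := hcq.gcd_eq
        rw [Nat.gcd_one_left] at this
        exact this
      have k2 : c.Coprime d := by
        have := hcd.gcd_eq
        rw [Nat.gcd_one_left] at this
        exact this
      have k3 : c.Coprime 2 := by
        rw [Nat.coprime_comm, Nat.Prime.coprime_iff_not_dvd Nat.prime_two]; omega
      have k4 : c.Coprime 4 := by
        have : (4 : ℕ) = 2 ^ 2 := by norm_num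
        rw [this]
        exact Nat.Coprime.pow_right 2 k3
      exact Nat.Coprime.mul_right k1 (Nat.Coprime.mul_right k4 k2)
    · rw [kr_odd hodd, jacobiSym.quadratic_reciprocity_three_mod_four hd h4']
      have : jacobiSym (c : ℤ) d = 1 := by
        rw [jacobiSym.mod_left' (b := d) (a₁ := (c : ℤ)) (a₂ := 1) (by exact_mod_cast hcd),
          jacobiSym.one_left]
      rw [this]

theorem kr_psi {d : ℕ} (hd : d % 4 = 2 ∨ d % 4 = 3) : Psi (4 * d) (kr d) := by
  refine ⟨kr_even rfl, ?_, ?_, ?_, ?_, fun q hq hcop => kr_tw hd hq hcop⟩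
  · rw [kr_odd (by norm_num), jacobiSym.one_right]
  · intro n
    unfold kr
    split_ifs with h
    · simp
    · rcases jacobiSym.trichotomy (d : ℤ) n with h | h | h <;> rw [h] <;> simp
  · intro a b
    rcases Nat.mod_two_eq_zero_or_one a with ha | ha
    · rw [kr_even ha, kr_even (by rw [Nat.mul_mod, ha]; simp), zero_mul]
    · rcases Nat.mod_two_eq_zero_or_one b with hb | hb
      · rw [kr_even hb, kr_even (by rw [Nat.mul_mod, hb]; simp), mul_zero]
      · have ha0 : NeZero a := ⟨by rintro rfl; simp at ha⟩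
        have hb0 : NeZero b := ⟨by rintro rfl; simp at hb⟩
        rw [kr_odd ha, kr_odd hb, kr_odd (by rw [Nat.mul_mod, ha, hb]), jacobiSym.mul_right]
  · intro n
    have hp : (n + 4 * d) % 2 = n % 2 := by omega
    rcases Nat.mod_two_eq_zero_or_one n with hn | hn
    · rw [kr_even hn, kr_even (by omega)]
    · rw [kr_odd hn, kr_odd (by omega), jacobiSym.mod_right (d : ℤ) (Nat.odd_iff.mpr hn),
        jacobiSym.mod_right (d : ℤ) (b := n + 4 * d) (Nat.odd_iff.mpr (by omega)), Int.natAbs_natCast,
        Nat.add_mod_right]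

end Pool.Agent.V5helper47.EV
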