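import Pool.Agent.V5helper47.EV.E2
import Pool.Agent.N156.EP.A5

/-! The main identity for even discriminants. -/

namespace Pool.Agent.V5helper47.EV

open QuadraticAlgebra Module Finset Filter Topology H419R2 Pool.Agent.N911 Pool.Agent.N156.EP

section

variable {R m : ℤ} {d : ℕ}

variable [IsDomain (QA R m)] [IsPrincipalIdealRing (QA R m)]

theorem cnt_recE (hd : d % 4 = 2 ∨ d % 4 = 3) (hD : ((4 * d : ℕ) : ℤ) = m ^ 2 + 4 * R)
    {l : ℕ} (hl : l.Prime) (n : ℕ) :
    (cnt R m (l * n) : ℤ) = (1 + kr d l) * cnt R m n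
      - kr d l * (if l ∣ n then (cnt R m (n / l) : ℤ) else 0) := by
  have hm : m % 2 = 0 := by
    rcases Int.emod_two_eq_zero_or_one m with h | h
    · exact h
    · exfalso
      obtain ⟨k, hk⟩ : ∃ k, m = 2 * k + 1 := ⟨m / 2, by omega⟩
      rw [hk] at hD
      have : (2 * k + 1) ^ 2 = 4 * (k * k + k) + 1 := by ring
      rw [this] at hD
      push_cast at hD
      omega
  by_cases h2 : l = 2
  · subst h2
    rw [kr_even rfl]
    obtain ⟨p, hp⟩ := exists_norm_prime (R := R) (m := m) (w0 := R) hl (by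
      obtain ⟨k, hk⟩ : ∃ k, m = 2 * k := ⟨m / 2, by omega⟩
      rw [hk]
      have h1 : (R ^ 2 - R) % 2 = 0 := by
        rcases Int.emod_two_eq_zero_or_one R with h | h
        · obtain ⟨j, hj⟩ : ∃ j, R = 2 * j := ⟨R / 2, by omega⟩
          rw [hj]
          have : (2 * j) ^ 2 - 2 * j = 2 * (2 * (j * j) - j) := by ring
          omega
        · obtain ⟨j, hj⟩ : ∃ j, R = 2 * j + 1 := ⟨R / 2, by omega⟩
          rw [hj]
          have : (2 * j + 1) ^ 2 - (2 * j + 1) = 2 * (2 * (j * j) + j) := by ring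
          omega
      have h3 : R ^ 2 + 2 * k * R - R = (R ^ 2 - R) + 2 * (k * R) := by ring
      rw [h3]
      exact Int.dvd_of_emod_eq_zero (by push_cast; omega))
    rw [cnt_ramified hl hp (span_eq_of_dvd hp hD hl (by
      push_cast
      exact ⟨2 * d, by ring⟩))]
    simp
  · have hodd : l % 2 = 1 := Nat.odd_iff.mp (hl.odd_of_ne_two h2)
    haveI := Fact.mk hl
    have h2l : ((2 : ℕ) : ZMod l) ≠ 0 := by
      intro h
      rw [ZMod.natCast_eq_zero_iff] at h
      exact h2 ((Nat.prime_dvd_prime_iff_eq hl Nat.prime_two).mp h)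
    have hz4 : ((((4 * d : ℕ) : ℤ)) : ZMod l) = ((2 : ℕ) : ZMod l) ^ 2 * ((d : ℤ) : ZMod l) := by
      push_cast; ring
    have hj : kr d l = legendreSym l (((4 * d : ℕ) : ℤ)) := by
      rw [kr_odd hodd, ← jacobiSym.legendreSym.to_jacobiSym]
      have h4 : (((4 * d : ℕ) : ℤ)) = (2 : ℤ) ^ 2 * (d : ℤ) := by push_cast; ring
      rw [h4, legendreSym.mul, legendreSym.sq_one', one_mul]
      push_cast at h2l ⊢
      exact h2l
    rw [hj]
    by_cases hz : ((((4 * d : ℕ) : ℤ)) : ZMod l) = 0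
    · rw [(legendreSym.eq_zero_iff l _).mpr hz]
      obtain ⟨w0, hw0⟩ := root_of_square (R := R) (m := m) hl h2 hD (by rw [hz]; exact ⟨0, by simp⟩)
      obtain ⟨p, hp⟩ := exists_norm_prime hl hw0
      have hlD : (l : ℤ) ∣ ((4 * d : ℕ) : ℤ) := (ZMod.intCast_zmod_eq_zero_iff_dvd _ l).mp hz
      rw [cnt_ramified hl hp (span_eq_of_dvd hp hD hl hlD)]
      simp
    · by_cases hs : IsSquare ((((4 * d : ℕ) : ℤ)) : ZMod l)
      · rw [(legendreSym.eq_one_iff l hz).mpr hs]
        obtain ⟨w0, hw0⟩ := root_of_square (R := R) (m := m) hl h2 hD hs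
        obtain ⟨p, hp⟩ := exists_norm_prime hl hw0
        have hlD : ¬ (l : ℤ) ∣ ((4 * d : ℕ) : ℤ) := by
          intro h
          exact hz ((ZMod.intCast_zmod_eq_zero_iff_dvd _ l).mpr h)
        have h3 := cnt_split hl hp (span_ne_of_not_dvd hp hD hl h2 hlD) n
        split_ifs at h3 ⊢ <;> push_cast [← h3] <;> linarith
      · rw [(legendreSym.eq_neg_one_iff l).mpr hs]
        rw [cnt_inert hl (inert_of_not_square hl h2 hD hs)]
        split_ifs <;> simp

theorem cnt_eq_rp (hd : d % 4 = 2 ∨ d % 4 = 3) (hD : ((4 * d : ℕ) : ℤ) = m ^ 2 + 4 * R)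
    (n : ℕ) (hn : n ≠ 0) : (cnt R m n : ℤ) = rp (kr d) n := by
  have H := kr_psi hd
  induction n using Nat.strong_induction_on with
  | _ n ih =>
    by_cases h1 : n = 1
    · subst h1
      rw [cnt_one, rp_one H]; simp
    · obtain ⟨l, hl, k, hk⟩ := Nat.exists_prime_and_dvd h1
      have hk0 : k ≠ 0 := by rintro rfl; simp at hk; exact hn hk
      have hkn : k < n := by
        rw [hk]
        have := hl.two_le
        have : 0 < k := Nat.pos_of_ne_zero hk0
        nlinarith
      rw [hk, cnt_recE hd hD hl, rp_rec H hl hk0, ih k hkn hk0]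
      congr 2
      split_ifs with h
      · obtain ⟨j, hj⟩ := h
        have hj0 : j ≠ 0 := by rintro rfl; simp at hj; exact hk0 hj
        have : k / l = j := by rw [hj]; exact Nat.mul_div_cancel_left _ hl.pos
        rw [this]
        apply ih j _ hj0
        have : j ≤ k := by rw [hj]; exact Nat.le_mul_of_pos_left _ hl.pos
        omega
      · rfl

/-- analytic comparison -/
theorem compareE {P : Type*} (gen : P → QA R m)
    (hφ : Function.Injective (fun p => Ideal.span {gen p}))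
    (hr : ∀ I : Ideal (QA R m), I ≠ ⊥ ↔ I ∈ Set.range (fun p => Ideal.span {gen p}))
    {q : ℕ} [NeZero q] (hd : d % 4 = 2 ∨ d % 4 = 3) (hD : ((4 * d : ℕ) : ℤ) = m ^ 2 + 4 * R)
    (hcop : q.Coprime (4 * d)) {F : ZMod q → ℝ} (hodd : ∀ x, F (-x) = -F x) {W : ℝ → ℝ} {c0 : ℝ}
    (hW : ∀ᶠ t in 𝓝[>] (0 : ℝ), HasSum (fun p => F (((QuadraticAlgebra.norm (gen p)).natAbs : ℕ)) *
      Real.exp (-(t * (QuadraticAlgebra.norm (gen p)).natAbs))) (W t))
    (hexp : HasExp W c0) :
    (∑ l ∈ range (q * (4 * d)), ∑ a ∈ range q, (l : ℝ) * a * kr d l * F ((a * l : ℕ)))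
        / (q * (q * ((4 * d : ℕ) : ℝ))) = c0 := by
  have H := kr_psi hd
  have hD1 : 1 < 4 * d := by omega
  have hlim := Lside_limit H hD1 hcop hodd
  refine (hexp.congr ?_).unique hlim
  have hF0 : F 0 = 0 := by
    have := hodd 0
    rw [neg_zero] at this
    linarith
  filter_upwards [hW, self_mem_nhdsWithin] with t hWt ht
  have ht' : (0 : ℝ) < t := ht
  have hN : ∀ p, F (((QuadraticAlgebra.norm (gen p)).natAbs : ℕ)) *
      Real.exp (-(t * (QuadraticAlgebra.norm (gen p)).natAbs)) =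
      (fun n : ℕ => F n * Real.exp (-(t * n))) (Ideal.absNorm (Ideal.span {gen p})) := by
    intro p; rw [absNorm_span]
  rw [funext hN] at hWt
  have h1 := tsum_ideals (fun p => Ideal.span {gen p}) hφ hr
    (fun n : ℕ => F n * Real.exp (-(t * n))) (by simp [hF0]) hWt.summable
  have h2 := Lside_hasSum H (f := fun n : ℕ => F n) (by simp [hF0])
    (Φ := ∑ x : ZMod q, |F x|)
    (fun j => Finset.single_le_sum (f := fun x => |F x|) (fun _ _ => abs_nonneg _)
      (Finset.mem_univ _)) ht'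
  have h3 : (fun n : ℕ => F n * Real.exp (-(t * n)) * (cnt R m n : ℝ)) =
      (fun n : ℕ => F n * Real.exp (-(t * n)) * (rp (kr d) n : ℝ)) := by
    funext n
    by_cases hn : n = 0
    · subst hn; simp [hF0]
    · have h4 := cnt_eq_rp hd hD n hn
      have h5 : (cnt R m n : ℝ) = (rp (kr d) n : ℝ) := by
        rw [← h4]; push_cast; rfl
      rw [h5]
  rw [h3] at h1
  have h6 := h1.unique h2
  rw [hWt.tsum_eq] at h6
  exact h6

end

/-- The main identity. -/
theorem main_identityE {R m : ℤ} (C : ECyc R m) [IsDomain (QA R m)] [IsPrincipalIdealRing (QA R m)]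
    {d N : ℕ} [NeZero N] (hd : d % 4 = 2 ∨ d % 4 = 3) (hD : ((4 * d : ℕ) : ℤ) = m ^ 2 + 4 * R)
    (hcop : N.Coprime (4 * d)) {F : ZMod N → ℝ} (hodd : ∀ x, F (-x) = -F x) :
    (∑ l ∈ range (N * (4 * d)), ∑ a ∈ range N, (l : ℝ) * a * kr d l * F ((a * l : ℕ)))
        / (N * (N * ((4 * d : ℕ) : ℝ))) = 2 * ∑ n ∈ range (2 * C.h), C.HH F n := by
  rw [← C.sum_C0' hodd]
  have hΦ : ∀ x, |F x| ≤ ∑ x : ZMod N, |F x| := fun x =>
    Finset.single_le_sum (f := fun x => |F x|) (fun _ _ => abs_nonneg _) (Finset.mem_univ x)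
  rw [← Fin.sum_univ_eq_sum_range
    (fun n => (C.wd n).C0 N (fun u w => F (C.fz N n u w))) (2 * C.h)]
  have hfz : ∀ n, (fun (u w : ℕ) => F (C.fz N n u w)) = (fun u w : ℕ => F ((C.q n : ZMod N) * (u : ZMod N) ^ 2 +
      (C.b n : ZMod N) * u * w + ((-C.q (n + 1) : ℤ) : ZMod N) * (w : ZMod N) ^ 2)) := by
    intro n
    funext u w
    congr 1
    unfold ECyc.fz
    push_cast; ring
  have hexpf : ∀ n, HasExp ((C.wd n).WS (fun u w => F (C.fz N n u w)))
      ((C.wd n).C0 N (fun u w => F (C.fz N n u w))) := by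
    intro n
    have h := (C.wd n).hasExp F (C.q n) (C.b n) (-C.q (n + 1))
    rw [hfz n]
    exact h
  refine compareE C.gen ?_ ?_ hd hD hcop hodd
    (W := fun t => ∑ j : Fin (2 * C.h), (C.wd (j : ℕ)).WS (fun u w => F (C.fz N (j : ℕ) u w)) t)
    ?_ ?_
  · intro p p' h
    exact C.gen_inj (C.inj (C.gen_dom p) (C.gen_dom p') h)
  · intro I
    constructor
    · intro hI
      obtain ⟨z, rfl⟩ := exists_gen I
      have hz : z ≠ 0 := by
        rintro rfl; simp at hI
      obtain ⟨z', h1, h2⟩ := C.surj hz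
      obtain ⟨p, rfl⟩ := (C.dom_iff z').mp h1
      exact ⟨p, h2⟩
    · rintro ⟨p, rfl⟩
      simp only [ne_eq, Ideal.span_singleton_eq_bot]
      intro h
      have h1 := (C.gen_dom p).types
      rw [h] at h1
      rcases h1 with h1 | h1
      · have := h1.1
        simp at this
      · have := h1.1
        simp at this
  · have hsm : ∀ᶠ t in 𝓝[>] (0 : ℝ), ∀ j : Fin (2 * C.h), 0 < t ∧ t * (C.wd (j : ℕ)).Γ ≤ 1 := by
      rw [Filter.eventually_all]
      intro j
      exact (C.wd (j : ℕ)).small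
    filter_upwards [hsm] with t ht
    apply hasSum_sigma_fin
    intro j
    have := (C.wd (j : ℕ)).hasSum_int hΦ (a := C.q j) (b := C.b j)
      (d := -C.q (j + 1)) rfl rfl rfl (ht j).1 (ht j).2
    rw [hfz]
    refine (congrArg (fun g : Idx (C.κ (j : ℕ)) → ℝ => HasSum g _) (funext fun p => ?_)).mpr this
    have e : (QuadraticAlgebra.norm (C.gen ⟨j, p⟩)).natAbs =
        (C.q j * (p.1 : ℤ) ^ 2 + C.b j * p.1 * ((p.2 : ℕ) : ℤ) +
          -C.q (j + 1) * ((p.2 : ℕ) : ℤ) ^ 2).natAbs := by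
      unfold ECyc.gen
      rw [C.norm_lc', Int.natAbs_mul, Int.natAbs_pow]
      simp only [Int.reduceNeg, Int.natAbs_neg, Int.natAbs_one, one_pow, one_mul]
      unfold fv
      congr 1
      ring
    rw [e]
  · have : ∀ s : Finset (Fin (2 * C.h)), HasExp
        (fun t => ∑ j ∈ s, (C.wd (j : ℕ)).WS (fun u w => F (C.fz N (j : ℕ) u w)) t)
        (∑ j ∈ s, (C.wd (j : ℕ)).C0 N (fun u w => F (C.fz N (j : ℕ) u w))) := by
      classical
      intro s
      induction s using Finset.induction_on with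
      | empty =>
        refine ⟨0, 0, 0, ?_⟩
        filter_upwards with t
        simp
      | insert j s hj ih =>
        have h1 := HasExp.add (hexpf (j : ℕ)) ih
        simp only [Finset.sum_insert hj]
        exact h1
    exact this Finset.univ

end Pool.Agent.V5helper47.EV
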