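import Pool.Agent.V5helper47.EV.E3
import Pool.Agent.N911.V3

/-! The relation for a symmetric period, even discriminant. -/

namespace Pool.Agent.V5helper47.EV

open H419R2 QuadraticAlgebra Module Finset Pool.Agent.N911
open Pool.Agent.N156.EP (ECyc)

/-- consequence of class number one, even discriminant -/
structure GoodV (v : WL) (t P : ℤ) (d : ℕ) : Prop extends SplitE v t P (4 * d) where
  rel : ∀ (N : ℕ) [NeZero N], N.Coprime (4 * d) → ∀ f : ZMod N → ℤ, (∀ x, f (-x) = -f x) →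
    ((4 * d : ℕ) : ℤ) * RelE f v t P =
    6 * ∑ l ∈ range (N * (4 * d)), ∑ a ∈ range N, (l : ℤ) * a * kr d l * f ((a * l : ℕ))

theorem rel_intV {N d : ℕ} [NeZero N] (hd : 0 < d) {v : WL} {t : ℕ} {P : ℤ} {f : ZMod N → ℤ}
    (h : (∑ l ∈ range (N * (4 * d)), ∑ a ∈ range N, (l : ℝ) * a * kr d l *
      ((f ((a * l : ℕ)) : ℤ) : ℝ)) / (N * (N * ((4 * d : ℕ) : ℝ))) =
      RSEr (fun x => ((f x : ℤ) : ℝ)) v (f0 t P) + t * yF (fun x => ((f x : ℤ) : ℝ)) (f0 t P)) :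
    ((4 * d : ℕ) : ℤ) * RelE f v t P =
    6 * ∑ l ∈ range (N * (4 * d)), ∑ a ∈ range N, (l : ℤ) * a * kr d l * f ((a * l : ℕ)) := by
  have hq := qpos (q := N)
  have hD' : (0 : ℝ) < d := by exact_mod_cast hd
  have e2 : ((∑ l ∈ range (N * (4 * d)), ∑ a ∈ range N, (l : ℤ) * a * kr d l *
      f ((a * l : ℕ)) : ℤ) : ℝ) = ∑ l ∈ range (N * (4 * d)), ∑ a ∈ range N, (l : ℝ) * a *
      kr d l * ((f ((a * l : ℕ)) : ℤ) : ℝ) := by
    push_cast
    rfl
  have e3 : ((((4 * d : ℕ) : ℤ) * RelE f v t P : ℤ) : ℝ) =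
    ((6 * ∑ l ∈ range (N * (4 * d)), ∑ a ∈ range N, (l : ℤ) * a * kr d l *
      f ((a * l : ℕ)) : ℤ) : ℝ) := by
    rw [Int.cast_mul, RelE_real, Int.cast_mul 6, e2, ← h]
    push_cast
    field_simp
  exact_mod_cast e3

/-- Relation modulo a prime. -/
theorem GoodV.rel_mod {v : WL} {t P : ℤ} {d : ℕ} (G : GoodV v t P d)
    {p : ℕ} (hp : p.Prime) (hp2 : p ≠ 2)
    (hpD : ¬ (p : ℤ) ∣ ((4 * d : ℕ) : ℤ)) {N : ℕ} [NeZero N] (hcop : N.Coprime (4 * d))
    (χ : ZMod N → ZMod p)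
    (hmul : ∀ x y, χ (x * y) = χ x * χ y) (hodd : ∀ x, χ (-x) = -χ x)
    (hB : ∑ a ∈ range N, (a : ZMod p) * χ a = 0) :
    RelE χ v t P = 0 := by
  have hF := Fact.mk hp
  have h2 : (2 : ZMod p) ≠ 0 := by
    intro h
    have : ((2 : ℕ) : ZMod p) = 0 := by exact_mod_cast h
    rw [ZMod.natCast_eq_zero_iff] at this
    exact hp2 ((Nat.prime_dvd_prime_iff_eq hp Nat.prime_two).mp this)
  have hD0 : ((((4 * d : ℕ) : ℤ)) : ZMod p) ≠ 0 := by
    intro h
    exact hpD ((ZMod.intCast_zmod_eq_zero_iff_dvd _ p).mp h)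
  have h := G.rel N hcop (fun x => ((χ x).val : ℤ) - ((χ (-x)).val : ℤ)) (fun x => by
    rw [neg_neg]; ring)
  have hf : ∀ x, ((((χ x).val : ℤ) - ((χ (-x)).val : ℤ) : ℤ) : ZMod p) = 2 * χ x := by
    intro x
    push_cast
    rw [ZMod.natCast_zmod_val, ZMod.natCast_zmod_val, hodd]
    ring
  have h' := congrArg (fun z : ℤ => (z : ZMod p)) h
  rw [Int.cast_mul, Int.cast_mul, Int.cast_sum] at h'
  have hR : ∑ l ∈ range (N * (4 * d)), ((∑ a ∈ range N, (l : ℤ) * a * kr d l *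
      (((χ ((a * l : ℕ))).val : ℤ) - ((χ (-((a * l : ℕ) : ZMod N))).val : ℤ)) : ℤ) : ZMod p) = 0 := by
    apply Finset.sum_eq_zero
    intro l _
    rw [Int.cast_sum]
    have e : ∀ a ∈ range N, (((l : ℤ) * a * kr d l *
      (((χ ((a * l : ℕ))).val : ℤ) - ((χ (-((a * l : ℕ) : ZMod N))).val : ℤ)) : ℤ) : ZMod p) =
      ((l : ZMod p) * (kr d l : ZMod p) * 2 * χ l) * ((a : ZMod p) * χ a) := by
      intro a _
      rw [Int.cast_mul, hf, Nat.cast_mul, hmul]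
      push_cast
      ring
    rw [Finset.sum_congr rfl e, ← Finset.mul_sum, hB, mul_zero]
  rw [hR, mul_zero] at h'
  rcases mul_eq_zero.mp h' with h3 | h3
  · exact absurd h3 hD0
  · have e := RelE_map (Int.castRingHom (ZMod p))
      (fun x => ((χ x).val : ℤ) - ((χ (-x)).val : ℤ)) v t P
    simp only [eq_intCast] at e
    rw [h3] at e
    have e2 : RelE (fun x => ((((χ x).val : ℤ) - ((χ (-x)).val : ℤ) : ℤ) : ZMod p)) v t P =
        2 * RelE χ v t P := by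
      rw [← RelE_smul]
      congr 1
      funext x
      exact hf x
    rw [e2] at e
    rcases mul_eq_zero.mp e.symm with h4 | h4
    · exact absurd h4 h2
    · exact h4

/-- the passage from class number one to `GoodV` -/
theorem goodV_of_word {w : WL} {t : ℕ} {P : ℤ} (hv : w.Pos) (h0 : 0 < w.len) (ht : 0 < t)
    (hsym : bs w t P w.len = bs w t P (w.len - 1))
    (hq : ∀ n ≤ w.len, 0 < qs w t P n) (hq1 : ∀ n, 1 ≤ n → n ≤ w.len → qs w t P n ≠ 1)
    {d : ℕ} (hd : d % 4 = 2 ∨ d % 4 = 3) (hD : ((4 * d : ℕ) : ℤ) = (t : ℤ) ^ 2 + 4 * P)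
    (i1 : IsDomain (QA P (t : ℤ))) (i2 : IsPrincipalIdealRing (QA P (t : ℤ))) :
    GoodV w t P d := by
  have S := splitE_of_word hv h0 ht hsym hq hq1 hD i1 i2
  refine ⟨S, ?_⟩
  set C := ecycW w t P hv h0 ht hsym hq hq1 with hC
  intro N hN hcop f hf
  apply rel_intV (by omega)
  have h := main_identityE C (F := fun x => ((f x : ℤ) : ℝ)) hd hD hcop
    (fun x => by rw [hf]; push_cast; ring)
  rw [h]
  exact relE (fun x => by rw [hf]; push_cast; ring)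

end Pool.Agent.V5helper47.EV
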