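import Pool.Agent.V5helper47.EV.S2

/-! Search, part of the half words. -/

set_option maxRecDepth 1000000

namespace Pool.Agent.V5helper47.EV

open H419R2 Pool.Agent.N911 Pool.Agent.V5helper47.CN

theorem x042_0 : fam (wl [1,1,1,9,19,3]) 1564 2050 = true := by decide +kernel
theorem x042_1 : fam (wl [1,3,5,1,2,2,1,1,1,2]) 1592 2422 = true := by decide +kernel
theorem x042_2 : fam (wl [4,5,1,2,2,1,1,1,1,1]) 97 47 = true := by decide +kernel
theorem x042_3 : fam (wl [2,1,9,19,2,1]) 125 87 = true := by decide +kernel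
theorem x042_4 : fam (wl [1,14,1,1,3,7,2]) 614 1150 = true := by decide +kernel
theorem x042_5 : fam (wl [15,1,1,3,7,1,1]) 1081 139 = true := by decide +kernel
theorem x042_6 : fam (wl [1,1,2,4,2,1,1,1,2,3]) 1455 1722 = true := by decide +kernel
theorem x042_7 : fam (wl [2,2,4,2,1,1,1,2,2,1]) 240 197 = true := by decide +kernel
theorem x042_8 : fam (wl [2,1,13,6,1,5]) 1526 1042 = true := by decide +kernel
theorem x042_9 : fam (wl [1,1,1,13,6,1,4,1]) 171 227 = true := by decide +kernel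
theorem x042_10 : fam (wl [1,1,5,1,2,1,2,2,1,3]) 420 454 = true := by decide +kernel
theorem x042_11 : fam (wl [1,3,1,5,11,1,1,2]) 1665 2642 = true := by decide +kernel
theorem x042_12 : fam (wl [4,1,5,11,1,1,1,1]) 40 17 = true := by decide +kernel
theorem x042_13 : fam (wl [2,5,1,2,1,2,2,1,2,1]) 1285 1183 = true := by decide +kernel
theorem x042_14 : fam (wl [4,10,5,8]) 381 186 = true := by decide +kernel
theorem x042_15 : fam (wl [2,2,1,2,1,2,1,2,1,4]) 570 482 = true := by decide +kernel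
theorem x042_16 : fam (wl [1,1,2,1,2,1,2,1,2,1,3,1]) 1141 1319 = true := by decide +kernel
theorem x042_17 : fam (wl [1,3,10,5,7,1]) 1330 2013 = true := by decide +kernel
theorem x042_18 : fam (wl [2,1,2,4,1,1,1,2,5]) 1503 1118 = true := by decide +kernel
theorem x042_19 : fam (wl [1,1,1,2,4,1,1,1,2,4,1]) 216 273 = true := by decide +kernel
theorem x042_20 : fam (wl [9,1,3,1,1,19]) 792 162 = true := by decide +kernel
theorem x042_21 : fam (wl [1,8,1,3,1,1,18,1]) 927 1667 = true := by decide +kernel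
theorem x042_22 : fam (wl [1,1,1,1,1,2,2,2,4,3]) 1008 1250 = true := by decide +kernel
theorem x042_23 : fam (wl [2,1,1,1,2,2,2,4,2,1]) 713 543 = true := by decide +kernel
theorem x042_24 : fam (wl [5,8,4,10]) 384 150 = true := by decide +kernel
theorem x042_25 : fam (wl [1,6,4,8,3,2]) 191 330 = true := by decide +kernel
theorem x042_26 : fam (wl [7,4,8,3,1,1]) 1538 425 = true := by decide +kernel
theorem x042_27 : fam (wl [1,4,8,4,9,1]) 1345 2167 = true := by decide +kernel
/-- words with first entry from 1691 to 1735 -/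
def L042 : List (List ℕ × ℕ × ℕ) := [([1,1,1,9,19,3],1564,2050), ([1,3,5,1,2,2,1,1,1,2],1592,2422), ([4,5,1,2,2,1,1,1,1,1],97,47), ([2,1,9,19,2,1],125,87), ([1,14,1,1,3,7,2],614,1150), ([15,1,1,3,7,1,1],1081,139), ([1,1,2,4,2,1,1,1,2,3],1455,1722), ([2,2,4,2,1,1,1,2,2,1],240,197), ([2,1,13,6,1,5],1526,1042), ([1,1,1,13,6,1,4,1],171,227), ([1,1,5,1,2,1,2,2,1,3],420,454), ([1,3,1,5,11,1,1,2],1665,2642), ([4,1,5,11,1,1,1,1],40,17), ([2,5,1,2,1,2,2,1,2,1],1285,1183), ([4,10,5,8],381,186), ([2,2,1,2,1,2,1,2,1,4],570,482), ([1,1,2,1,2,1,2,1,2,1,3,1],1141,1319), ([1,3,10,5,7,1],1330,2013), ([2,1,2,4,1,1,1,2,5],1503,1118), ([1,1,1,2,4,1,1,1,2,4,1],216,273), ([9,1,3,1,1,19],792,162), ([1,8,1,3,1,1,18,1],927,1667), ([1,1,1,1,1,2,2,2,4,3],1008,1250), ([2,1,1,1,2,2,2,4,2,1],713,543), ([5,8,4,10],384,150), ([1,6,4,8,3,2],191,330), ([7,4,8,3,1,1],1538,425), ([1,4,8,4,9,1],1345,2167)]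
theorem r042 : rgV L042 1691 23 = true := by decide +kernel
theorem f042 : ∀ p ∈ L042, fam (wl p.1) p.2.1 p.2.2 = true := by
  intro p hp
  simp only [L042, List.mem_cons, List.not_mem_nil, or_false] at hp
  rcases hp with rfl | rfl | rfl | rfl | rfl | rfl | rfl | rfl | rfl | rfl | rfl | rfl | rfl | rfl | rfl | rfl | rfl | rfl | rfl | rfl | rfl | rfl | rfl | rfl | rfl | rfl | rfl | rfl
  · exact x042_0
  · exact x042_1
  · exact x042_2
  · exact x042_3
  · exact x042_4
  · exact x042_5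
  · exact x042_6
  · exact x042_7
  · exact x042_8
  · exact x042_9
  · exact x042_10
  · exact x042_11
  · exact x042_12
  · exact x042_13
  · exact x042_14
  · exact x042_15
  · exact x042_16
  · exact x042_17
  · exact x042_18
  · exact x042_19
  · exact x042_20
  · exact x042_21
  · exact x042_22
  · exact x042_23
  · exact x042_24
  · exact x042_25
  · exact x042_26
  · exact x042_27

end Pool.Agent.V5helper47.EV
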