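import Pool.Agent.V5helper47.EV.S2

/-! Search, part of the half words. -/

set_option maxRecDepth 1000000

namespace Pool.Agent.V5helper47.EV

open H419R2 Pool.Agent.N911 Pool.Agent.V5helper47.CN

theorem x043_0 : fam (wl [2,6,2,4,3,4]) 670 622 = true := by decide +kernel
theorem x043_1 : fam (wl [1,2,5,2,1,10,1,2]) 584 802 = true := by decide +kernel
theorem x043_2 : fam (wl [3,5,2,1,10,1,1,1]) 1151 723 = true := by decide +kernel
theorem x043_3 : fam (wl [1,1,6,2,4,3,3,1]) 1065 1143 = true := by decide +kernel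
theorem x043_4 : fam (wl [1,2,2,1,1,1,3,5,1,2]) 751 1058 = true := by decide +kernel
theorem x043_5 : fam (wl [3,2,1,1,1,3,5,1,1,1]) 994 589 = true := by decide +kernel
theorem x043_6 : fam (wl [7,5,1,2,14]) 1428 398 = true := by decide +kernel
theorem x043_7 : fam (wl [1,1,3,3,1,7,1,1,3]) 704 798 = true := by decide +kernel
theorem x043_8 : fam (wl [2,3,3,1,7,1,1,2,1]) 1045 907 = true := by decide +kernel
theorem x043_9 : fam (wl [1,6,5,1,2,13,1]) 321 555 = true := by decide +kernel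
theorem x043_10 : fam (wl [1,1,1,1,2,1,1,3,1,3,3]) 380 466 = true := by decide +kernel
theorem x043_11 : fam (wl [2,1,1,2,1,1,3,1,3,2,1]) 1371 1063 = true := by decide +kernel
theorem x043_12 : fam (wl [1,4,1,6,3,2,2,2]) 131 218 = true := by decide +kernel
theorem x043_13 : fam (wl [5,1,6,3,2,2,1,1]) 1620 553 = true := by decide +kernel
theorem x043_14 : fam (wl [2,7,2,2,1,3,4]) 1398 1310 = true := by decide +kernel
theorem x043_15 : fam (wl [1,1,7,2,2,1,3,3,1]) 359 383 = true := by decide +kernel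
theorem x043_16 : fam (wl [4,1,1,1,2,1,3,9]) 746 322 = true := by decide +kernel
theorem x043_17 : fam (wl [2,4,1,1,2,3,2,4]) 623 562 = true := by decide +kernel
theorem x043_18 : fam (wl [1,1,4,1,1,2,3,2,3,1]) 1136 1249 = true := by decide +kernel
theorem x043_19 : fam (wl [1,3,1,1,1,2,1,3,8,1]) 1013 1591 = true := by decide +kernel
theorem x043_20 : fam (wl [2,4,3,6,2,4]) 1158 1038 = true := by decide +kernel
theorem x043_21 : fam (wl [1,4,1,1,3,1,1,3,2,2]) 330 542 = true := by decide +kernel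
theorem x043_22 : fam (wl [5,1,1,3,1,1,3,2,1,1]) 1431 515 = true := by decide +kernel
theorem x043_23 : fam (wl [1,1,4,3,6,2,3,1]) 603 667 = true := by decide +kernel
theorem x043_24 : fam (wl [1,5,6,1,2,1,1,2,2]) 285 478 = true := by decide +kernel
theorem x043_25 : fam (wl [6,6,1,2,1,1,2,1,1]) 1490 485 = true := by decide +kernel
theorem x043_26 : fam (wl [1,23,2,1,11,2]) 1277 2450 = true := by decide +kernel
theorem x043_27 : fam (wl [24,2,1,11,1,1]) 498 41 = true := by decide +kernel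
/-- words with first entry from 1737 to 1777 -/
def L043 : List (List ℕ × ℕ × ℕ) := [([2,6,2,4,3,4],670,622), ([1,2,5,2,1,10,1,2],584,802), ([3,5,2,1,10,1,1,1],1151,723), ([1,1,6,2,4,3,3,1],1065,1143), ([1,2,2,1,1,1,3,5,1,2],751,1058), ([3,2,1,1,1,3,5,1,1,1],994,589), ([7,5,1,2,14],1428,398), ([1,1,3,3,1,7,1,1,3],704,798), ([2,3,3,1,7,1,1,2,1],1045,907), ([1,6,5,1,2,13,1],321,555), ([1,1,1,1,2,1,1,3,1,3,3],380,466), ([2,1,1,2,1,1,3,1,3,2,1],1371,1063), ([1,4,1,6,3,2,2,2],131,218), ([5,1,6,3,2,2,1,1],1620,553), ([2,7,2,2,1,3,4],1398,1310), ([1,1,7,2,2,1,3,3,1],359,383), ([4,1,1,1,2,1,3,9],746,322), ([2,4,1,1,2,3,2,4],623,562), ([1,1,4,1,1,2,3,2,3,1],1136,1249), ([1,3,1,1,1,2,1,3,8,1],1013,1591), ([2,4,3,6,2,4],1158,1038), ([1,4,1,1,3,1,1,3,2,2],330,542), ([5,1,1,3,1,1,3,2,1,1],1431,515), ([1,1,4,3,6,2,3,1],603,667), ([1,5,6,1,2,1,1,2,2],285,478), ([6,6,1,2,1,1,2,1,1],1490,485), ([1,23,2,1,11,2],1277,2450), ([24,2,1,11,1,1],498,41)]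
theorem r043 : rgV L043 1737 21 = true := by decide +kernel
theorem f043 : ∀ p ∈ L043, fam (wl p.1) p.2.1 p.2.2 = true := by
  intro p hp
  simp only [L043, List.mem_cons, List.not_mem_nil, or_false] at hp
  rcases hp with rfl | rfl | rfl | rfl | rfl | rfl | rfl | rfl | rfl | rfl | rfl | rfl | rfl | rfl | rfl | rfl | rfl | rfl | rfl | rfl | rfl | rfl | rfl | rfl | rfl | rfl | rfl | rfl
  · exact x043_0
  · exact x043_1
  · exact x043_2
  · exact x043_3
  · exact x043_4
  · exact x043_5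
  · exact x043_6
  · exact x043_7
  · exact x043_8
  · exact x043_9
  · exact x043_10
  · exact x043_11
  · exact x043_12
  · exact x043_13
  · exact x043_14
  · exact x043_15
  · exact x043_16
  · exact x043_17
  · exact x043_18
  · exact x043_19
  · exact x043_20
  · exact x043_21
  · exact x043_22
  · exact x043_23
  · exact x043_24
  · exact x043_25
  · exact x043_26
  · exact x043_27

end Pool.Agent.V5helper47.EV
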