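import Pool.Agent.V5helper47.EV.S2

/-! Search, part of the half words. -/

set_option maxRecDepth 1000000

namespace Pool.Agent.V5helper47.EV

open H419R2 Pool.Agent.N911 Pool.Agent.V5helper47.CN

theorem x044_0 : fam (wl [6,1,5,2,1,13]) 691 202 = true := by decide +kernel
theorem x044_1 : fam (wl [1,1,11,1,2,5,1,3]) 1285 1338 = true := by decide +kernel
theorem x044_2 : fam (wl [2,11,1,2,5,1,2,1]) 492 473 = true := by decide +kernel
theorem x044_3 : fam (wl [1,5,1,5,2,1,12,1]) 1086 1857 = true := by decide +kernel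
theorem x044_4 : fam (wl [11,3,1,1,22]) 1230 218 = true := by decide +kernel
theorem x044_5 : fam (wl [1,10,3,1,1,21,1]) 551 1007 = true := by decide +kernel
theorem x044_6 : fam (wl [1,2,1,5,2,1,2,2,1,2]) 1569 2322 = true := by decide +kernel
theorem x044_7 : fam (wl [3,1,5,2,1,2,2,1,1,1]) 216 113 = true := by decide +kernel
theorem x044_8 : fam (wl [5,4,1,2,2,10]) 297 114 = true := by decide +kernel
theorem x044_9 : fam (wl [1,1,6,1,1,3,1,2,1,3]) 1436 1538 = true := by decide +kernel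
theorem x044_10 : fam (wl [2,6,1,1,3,1,2,1,2,1]) 355 331 = true := by decide +kernel
theorem x044_11 : fam (wl [1,4,4,1,2,2,9,1]) 1494 2417 = true := by decide +kernel
theorem x044_12 : fam (wl [29,1,59]) 1769 118 = true := by decide +kernel
theorem x044_13 : fam (wl [1,1,1,1,7,1,3,3,3]) 924 1118 = true := by decide +kernel
theorem x044_14 : fam (wl [2,1,1,7,1,3,3,2,1]) 873 691 = true := by decide +kernel
theorem x044_15 : fam (wl [1,28,1,58,1]) 28 57 = true := by decide +kernel
theorem x044_16 : fam (wl [1,1,4,1,1,1,4,1,1,1,3]) 1201 1318 = true := by decide +kernel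
theorem x044_17 : fam (wl [2,4,1,1,1,4,1,1,1,2,1]) 598 541 = true := by decide +kernel
theorem x044_18 : fam (wl [30,60]) 30 2 = true := by decide +kernel
theorem x044_19 : fam (wl [1,29,59,1]) 1769 3423 = true := by decide +kernel
theorem x044_20 : fam (wl [17,2,1,34]) 156 18 = true := by decide +kernel
theorem x044_21 : fam (wl [1,2,1,1,1,2,5,3,1,2]) 556 806 = true := by decide +kernel
theorem x044_22 : fam (wl [3,1,1,1,2,5,3,1,1,1]) 1245 687 = true := by decide +kernel
theorem x044_23 : fam (wl [1,16,2,1,33,1]) 1645 3103 = true := by decide +kernel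
theorem x044_24 : fam (wl [7,3,2,1,1,14]) 299 82 = true := by decide +kernel
theorem x044_25 : fam (wl [1,7,5,2,1,1,3,2]) 1673 2938 = true := by decide +kernel
theorem x044_26 : fam (wl [8,5,2,1,1,3,1,1]) 134 33 = true := by decide +kernel
theorem x044_27 : fam (wl [1,6,3,2,1,1,13,1]) 1508 2605 = true := by decide +kernel
theorem x044_28 : fam (wl [1,3,1,2,1,2,6,1,1,2]) 1751 2762 = true := by decide +kernel
theorem x044_29 : fam (wl [4,1,2,1,2,6,1,1,1,1]) 58 25 = true := by decide +kernel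
/-- words with first entry from 1779 to 1815 -/
def L044 : List (List ℕ × ℕ × ℕ) := [([6,1,5,2,1,13],691,202), ([1,1,11,1,2,5,1,3],1285,1338), ([2,11,1,2,5,1,2,1],492,473), ([1,5,1,5,2,1,12,1],1086,1857), ([11,3,1,1,22],1230,218), ([1,10,3,1,1,21,1],551,1007), ([1,2,1,5,2,1,2,2,1,2],1569,2322), ([3,1,5,2,1,2,2,1,1,1],216,113), ([5,4,1,2,2,10],297,114), ([1,1,6,1,1,3,1,2,1,3],1436,1538), ([2,6,1,1,3,1,2,1,2,1],355,331), ([1,4,4,1,2,2,9,1],1494,2417), ([29,1,59],1769,118), ([1,1,1,1,7,1,3,3,3],924,1118), ([2,1,1,7,1,3,3,2,1],873,691), ([1,28,1,58,1],28,57), ([1,1,4,1,1,1,4,1,1,1,3],1201,1318), ([2,4,1,1,1,4,1,1,1,2,1],598,541), ([30,60],30,2), ([1,29,59,1],1769,3423), ([17,2,1,34],156,18), ([1,2,1,1,1,2,5,3,1,2],556,806), ([3,1,1,1,2,5,3,1,1,1],1245,687), ([1,16,2,1,33,1],1645,3103), ([7,3,2,1,1,14],299,82), ([1,7,5,2,1,1,3,2],1673,2938), ([8,5,2,1,1,3,1,1],134,33), ([1,6,3,2,1,1,13,1],1508,2605), ([1,3,1,2,1,2,6,1,1,2],1751,2762), ([4,1,2,1,2,6,1,1,1,1],58,25)]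
theorem r044 : rgV L044 1779 19 = true := by decide +kernel
theorem f044 : ∀ p ∈ L044, fam (wl p.1) p.2.1 p.2.2 = true := by
  intro p hp
  simp only [L044, List.mem_cons, List.not_mem_nil, or_false] at hp
  rcases hp with rfl | rfl | rfl | rfl | rfl | rfl | rfl | rfl | rfl | rfl | rfl | rfl | rfl | rfl | rfl | rfl | rfl | rfl | rfl | rfl | rfl | rfl | rfl | rfl | rfl | rfl | rfl | rfl | rfl | rfl
  · exact x044_0
  · exact x044_1
  · exact x044_2
  · exact x044_3
  · exact x044_4
  · exact x044_5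
  · exact x044_6
  · exact x044_7
  · exact x044_8
  · exact x044_9
  · exact x044_10
  · exact x044_11
  · exact x044_12
  · exact x044_13
  · exact x044_14
  · exact x044_15
  · exact x044_16
  · exact x044_17
  · exact x044_18
  · exact x044_19
  · exact x044_20
  · exact x044_21
  · exact x044_22
  · exact x044_23
  · exact x044_24
  · exact x044_25
  · exact x044_26
  · exact x044_27
  · exact x044_28
  · exact x044_29

end Pool.Agent.V5helper47.EV
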