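import Pool.Agent.V5helper47.EV.S2

/-! Search, part of the half words. -/

set_option maxRecDepth 1000000

namespace Pool.Agent.V5helper47.EV

open H419R2 Pool.Agent.N911 Pool.Agent.V5helper47.CN

theorem x045_0 : fam (wl [4,1,2,2,2,2,9]) 1172 498 = true := by decide +kernel
theorem x045_1 : fam (wl [1,2,1,9,1,4,2,1,2]) 1568 2334 = true := by decide +kernel
theorem x045_2 : fam (wl [3,1,9,1,4,2,1,1,1]) 247 127 = true := by decide +kernel
theorem x045_3 : fam (wl [1,3,1,2,2,2,2,8,1]) 643 1015 = true := by decide +kernel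
theorem x045_4 : fam (wl [1,1,1,2,2,1,2,1,5,3]) 1306 1646 = true := by decide +kernel
theorem x045_5 : fam (wl [1,6,2,2,1,4,3,2]) 1161 2010 = true := by decide +kernel
theorem x045_6 : fam (wl [7,2,2,1,4,3,1,1]) 656 177 = true := by decide +kernel
theorem x045_7 : fam (wl [2,1,2,2,1,2,1,5,2,1]) 511 379 = true := by decide +kernel
theorem x045_8 : fam (wl [1,1,7,1,1,3,3,1,3]) 1399 1486 = true := by decide +kernel
theorem x045_9 : fam (wl [2,7,1,1,3,3,1,2,1]) 422 397 = true := by decide +kernel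
theorem x045_10 : fam (wl [3,13,1,6,6]) 390 254 = true := by decide +kernel
theorem x045_11 : fam (wl [1,2,13,1,6,5,1]) 1439 1943 = true := by decide +kernel
theorem x045_12 : fam (wl [4,2,2,1,5,1,8]) 1270 574 = true := by decide +kernel
theorem x045_13 : fam (wl [1,1,20,1,9,1,3]) 631 646 = true := by decide +kernel
theorem x045_14 : fam (wl [2,20,1,9,1,2,1]) 1208 1181 = true := by decide +kernel
theorem x045_15 : fam (wl [1,3,2,2,1,5,1,7,1]) 569 883 = true := by decide +kernel
theorem x045_16 : fam (wl [1,3,1,1,4,2,3,1,1,2]) 1585 2474 = true := by decide +kernel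
theorem x045_17 : fam (wl [1,9,2,2,2,1,4,2]) 629 1138 = true := by decide +kernel
theorem x045_18 : fam (wl [10,2,2,2,1,4,1,1]) 1212 233 = true := by decide +kernel
theorem x045_19 : fam (wl [4,1,1,4,2,3,1,1,1,1]) 256 113 = true := by decide +kernel
theorem x045_20 : fam (wl [1,41,1,20,2]) 1395 2726 = true := by decide +kernel
theorem x045_21 : fam (wl [42,1,20,1,1]) 450 21 = true := by decide +kernel
theorem x045_22 : fam (wl [1,1,3,4,8,1,1,3]) 312 354 = true := by decide +kernel
theorem x045_23 : fam (wl [2,3,4,8,1,1,2,1]) 1535 1331 = true := by decide +kernel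
theorem x045_24 : fam (wl [3,4,2,4,2,6]) 1480 918 = true := by decide +kernel
theorem x045_25 : fam (wl [1,42,21,2]) 451 882 = true := by decide +kernel
theorem x045_26 : fam (wl [43,21,1,1]) 1398 65 = true := by decide +kernel
theorem x045_27 : fam (wl [1,2,4,2,4,2,5,1]) 369 511 = true := by decide +kernel
/-- words with first entry from 1817 to 1855 -/
def L045 : List (List ℕ × ℕ × ℕ) := [([4,1,2,2,2,2,9],1172,498), ([1,2,1,9,1,4,2,1,2],1568,2334), ([3,1,9,1,4,2,1,1,1],247,127), ([1,3,1,2,2,2,2,8,1],643,1015), ([1,1,1,2,2,1,2,1,5,3],1306,1646), ([1,6,2,2,1,4,3,2],1161,2010), ([7,2,2,1,4,3,1,1],656,177), ([2,1,2,2,1,2,1,5,2,1],511,379), ([1,1,7,1,1,3,3,1,3],1399,1486), ([2,7,1,1,3,3,1,2,1],422,397), ([3,13,1,6,6],390,254), ([1,2,13,1,6,5,1],1439,1943), ([4,2,2,1,5,1,8],1270,574), ([1,1,20,1,9,1,3],631,646), ([2,20,1,9,1,2,1],1208,1181), ([1,3,2,2,1,5,1,7,1],569,883), ([1,3,1,1,4,2,3,1,1,2],1585,2474), ([1,9,2,2,2,1,4,2],629,1138), ([10,2,2,2,1,4,1,1],1212,233), ([4,1,1,4,2,3,1,1,1,1],256,113),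 ([1,41,1,20,2],1395,2726), ([42,1,20,1,1],450,21), ([1,1,3,4,8,1,1,3],312,354), ([2,3,4,8,1,1,2,1],1535,1331), ([3,4,2,4,2,6],1480,918), ([1,42,21,2],451,882), ([43,21,1,1],1398,65), ([1,2,4,2,4,2,5,1],369,511)]
theorem r045 : rgV L045 1817 20 = true := by decide +kernel
theorem f045 : ∀ p ∈ L045, fam (wl p.1) p.2.1 p.2.2 = true := by
  intro p hp
  simp only [L045, List.mem_cons, List.not_mem_nil, or_false] at hp
  rcases hp with rfl | rfl | rfl | rfl | rfl | rfl | rfl | rfl | rfl | rfl | rfl | rfl | rfl | rfl | rfl | rfl | rfl | rfl | rfl | rfl | rfl | rfl | rfl | rfl | rfl | rfl | rfl | rfl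
  · exact x045_0
  · exact x045_1
  · exact x045_2
  · exact x045_3
  · exact x045_4
  · exact x045_5
  · exact x045_6
  · exact x045_7
  · exact x045_8
  · exact x045_9
  · exact x045_10
  · exact x045_11
  · exact x045_12
  · exact x045_13
  · exact x045_14
  · exact x045_15
  · exact x045_16
  · exact x045_17
  · exact x045_18
  · exact x045_19
  · exact x045_20
  · exact x045_21
  · exact x045_22
  · exact x045_23
  · exact x045_24
  · exact x045_25
  · exact x045_26
  · exact x045_27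

end Pool.Agent.V5helper47.EV
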