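import Pool.Agent.V5helper47.EV.S2

/-! Search, part of the half words. -/

set_option maxRecDepth 1000000

namespace Pool.Agent.V5helper47.EV

open H419R2 Pool.Agent.N911 Pool.Agent.V5helper47.CN

theorem x046_0 : fam (wl [1,1,21,10,1,3]) 291 298 = true := by decide +kernel
theorem x046_1 : fam (wl [1,4,1,1,1,1,3,3,2,2]) 1152 1894 = true := by decide +kernel
theorem x046_2 : fam (wl [5,1,1,1,1,3,3,2,1,1]) 703 251 = true := by decide +kernel
theorem x046_3 : fam (wl [2,21,10,1,2,1]) 1564 1529 = true := by decide +kernel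
theorem x046_4 : fam (wl [3,14,7,6]) 224 146 = true := by decide +kernel
theorem x046_5 : fam (wl [1,2,14,7,5,1]) 1641 2215 = true := by decide +kernel
theorem x046_6 : fam (wl [2,1,1,1,1,2,2,4,5]) 1471 1126 = true := by decide +kernel
theorem x046_7 : fam (wl [1,1,1,1,1,1,2,2,4,4,1]) 398 493 = true := by decide +kernel
theorem x046_8 : fam (wl [3,2,3,1,7,1,6]) 988 574 = true := by decide +kernel
theorem x046_9 : fam (wl [1,2,2,3,1,7,1,5,1]) 883 1255 = true := by decide +kernel
theorem x046_10 : fam (wl [17,1,2,35]) 159 18 = true := by decide +kernel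
theorem x046_11 : fam (wl [1,16,1,2,34,1]) 1712 3233 = true := by decide +kernel
theorem x046_12 : fam (wl [6,2,1,1,3,1,12]) 377 118 = true := by decide +kernel
theorem x046_13 : fam (wl [1,5,2,1,1,3,1,11,1]) 1500 2533 = true := by decide +kernel
theorem x046_14 : fam (wl [10,4,2,20]) 828 162 = true := by decide +kernel
theorem x046_15 : fam (wl [2,1,7,1,2,3,1,5]) 1099 762 = true := by decide +kernel
theorem x046_16 : fam (wl [1,2,1,10,5,2,1,2]) 1667 2482 = true := by decide +kernel
theorem x046_17 : fam (wl [1,4,3,2,1,6,2,2]) 166 270 = true := by decide +kernel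
theorem x046_18 : fam (wl [5,3,2,1,6,2,1,1]) 1713 647 = true := by decide +kernel
theorem x046_19 : fam (wl [3,1,10,5,2,1,1,1]) 212 109 = true := by decide +kernel
theorem x046_20 : fam (wl [1,1,1,7,1,2,3,1,4,1]) 780 1021 = true := by decide +kernel
theorem x046_21 : fam (wl [1,9,4,2,19,1]) 1051 1899 = true := by decide +kernel
theorem x046_22 : fam (wl [1,15,2,2,1,7,2]) 1617 3038 = true := by decide +kernel
theorem x046_23 : fam (wl [16,2,2,1,7,1,1]) 270 33 = true := by decide +kernel
theorem x046_24 : fam (wl [1,5,1,1,1,2,4,1,2,2]) 241 410 = true := by decide +kernel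
theorem x046_25 : fam (wl [6,1,1,1,2,4,1,2,1,1]) 1646 497 = true := by decide +kernel
theorem x046_26 : fam (wl [1,1,1,1,1,4,1,1,1,4,3]) 1625 2022 = true := by decide +kernel
theorem x046_27 : fam (wl [1,4,5,1,11,2,2]) 348 562 = true := by decide +kernel
theorem x046_28 : fam (wl [5,5,1,11,2,1,1]) 1547 599 = true := by decide +kernel
theorem x046_29 : fam (wl [2,1,1,1,4,1,1,1,4,2,1]) 270 205 = true := by decide +kernel
/-- words with first entry from 1857 to 1897 -/
def L046 : List (List ℕ × ℕ × ℕ) := [([1,1,21,10,1,3],291,298), ([1,4,1,1,1,1,3,3,2,2],1152,1894), ([5,1,1,1,1,3,3,2,1,1],703,251), ([2,21,10,1,2,1],1564,1529), ([3,14,7,6],224,146), ([1,2,14,7,5,1],1641,2215), ([2,1,1,1,1,2,2,4,5],1471,1126), ([1,1,1,1,1,1,2,2,4,4,1],398,493), ([3,2,3,1,7,1,6],988,574), ([1,2,2,3,1,7,1,5,1],883,1255), ([17,1,2,35],159,18), ([1,16,1,2,34,1],1712,3233), ([6,2,1,1,3,1,12],377,118), ([1,5,2,1,1,3,1,11,1],1500,2533), ([10,4,2,20],828,162), ([2,1,7,1,2,3,1,5],1099,762), ([1,2,1,10,5,2,1,2],1667,2482),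 ([1,4,3,2,1,6,2,2],166,270), ([5,3,2,1,6,2,1,1],1713,647), ([3,1,10,5,2,1,1,1],212,109), ([1,1,1,7,1,2,3,1,4,1],780,1021), ([1,9,4,2,19,1],1051,1899), ([1,15,2,2,1,7,2],1617,3038), ([16,2,2,1,7,1,1],270,33), ([1,5,1,1,1,2,4,1,2,2],241,410), ([6,1,1,1,2,4,1,2,1,1],1646,497), ([1,1,1,1,1,4,1,1,1,4,3],1625,2022), ([1,4,5,1,11,2,2],348,562), ([5,5,1,11,2,1,1],1547,599), ([2,1,1,1,4,1,1,1,4,2,1],270,205)]
theorem r046 : rgV L046 1857 21 = true := by decide +kernel
theorem f046 : ∀ p ∈ L046, fam (wl p.1) p.2.1 p.2.2 = true := by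
  intro p hp
  simp only [L046, List.mem_cons, List.not_mem_nil, or_false] at hp
  rcases hp with rfl | rfl | rfl | rfl | rfl | rfl | rfl | rfl | rfl | rfl | rfl | rfl | rfl | rfl | rfl | rfl | rfl | rfl | rfl | rfl | rfl | rfl | rfl | rfl | rfl | rfl | rfl | rfl | rfl | rfl
  · exact x046_0
  · exact x046_1
  · exact x046_2
  · exact x046_3
  · exact x046_4
  · exact x046_5
  · exact x046_6
  · exact x046_7
  · exact x046_8
  · exact x046_9
  · exact x046_10
  · exact x046_11
  · exact x046_12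
  · exact x046_13
  · exact x046_14
  · exact x046_15
  · exact x046_16
  · exact x046_17
  · exact x046_18
  · exact x046_19
  · exact x046_20
  · exact x046_21
  · exact x046_22
  · exact x046_23
  · exact x046_24
  · exact x046_25
  · exact x046_26
  · exact x046_27
  · exact x046_28
  · exact x046_29

end Pool.Agent.V5helper47.EV
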