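import Pool.Agent.V5helper47.EV.S2

/-! Search, part of the half words. -/

set_option maxRecDepth 1000000

namespace Pool.Agent.V5helper47.EV

open H419R2 Pool.Agent.N911 Pool.Agent.V5helper47.CN

theorem x047_0 : fam (wl [1,1,1,1,8,4,3,3]) 1682 2034 = true := by decide +kernel
theorem x047_1 : fam (wl [1,4,1,3,2,1,1,2,2,2]) 533 882 = true := by decide +kernel
theorem x047_2 : fam (wl [5,1,3,2,1,1,2,2,1,1]) 1364 473 = true := by decide +kernel
theorem x047_3 : fam (wl [2,1,1,8,4,3,2,1]) 215 171 = true := by decide +kernel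
theorem x047_4 : fam (wl [1,13,1,1,3,1,6,2]) 181 338 = true := by decide +kernel
theorem x047_5 : fam (wl [14,1,1,3,1,6,1,1]) 1724 237 = true := by decide +kernel
theorem x047_6 : fam (wl [1,2,9,1,19,1,2]) 565 766 = true := by decide +kernel
theorem x047_7 : fam (wl [3,9,1,19,1,1,1]) 1346 869 = true := by decide +kernel
theorem x047_8 : fam (wl [2,1,3,1,2,1,2,1,1,5]) 103 74 = true := by decide +kernel
theorem x047_9 : fam (wl [1,1,1,3,1,2,1,2,1,1,4,1]) 1808 2321 = true := by decide +kernel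
theorem x047_10 : fam (wl [30,1,61]) 1890 122 = true := by decide +kernel
theorem x047_11 : fam (wl [11,1,2,2,23]) 1347 230 = true := by decide +kernel
theorem x047_12 : fam (wl [1,10,1,2,2,22,1]) 572 1049 = true := by decide +kernel
theorem x047_13 : fam (wl [1,29,1,60,1]) 29 59 = true := by decide +kernel
theorem x047_14 : fam (wl [2,1,2,1,2,5,2,5]) 1225 898 = true := by decide +kernel
theorem x047_15 : fam (wl [1,5,7,3,1,1,2,2]) 1291 2162 = true := by decide +kernel
theorem x047_16 : fam (wl [6,7,3,1,1,2,1,1]) 628 205 = true := by decide +kernel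
theorem x047_17 : fam (wl [1,1,1,2,1,2,5,2,4,1]) 694 881 = true := by decide +kernel
theorem x047_18 : fam (wl [31,62]) 31 2 = true := by decide +kernel
theorem x047_19 : fam (wl [1,1,1,2,1,3,1,1,6,3]) 1464 1858 = true := by decide +kernel
theorem x047_20 : fam (wl [2,1,2,1,3,1,1,6,2,1]) 457 335 = true := by decide +kernel
theorem x047_21 : fam (wl [1,30,61,1]) 1890 3661 = true := by decide +kernel
theorem x047_22 : fam (wl [1,2,2,5,1,2,4,1,2]) 1703 2422 = true := by decide +kernel
theorem x047_23 : fam (wl [1,9,1,1,1,4,1,4,2]) 1250 2266 = true := by decide +kernel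
theorem x047_24 : fam (wl [10,1,1,1,4,1,4,1,1]) 675 127 = true := by decide +kernel
theorem x047_25 : fam (wl [3,2,5,1,2,4,1,1,1]) 222 129 = true := by decide +kernel
theorem x047_26 : fam (wl [9,2,1,2,1,18]) 1133 242 = true := by decide +kernel
theorem x047_27 : fam (wl [1,3,2,2,2,2,2,1,1,2]) 275 426 = true := by decide +kernel
theorem x047_28 : fam (wl [4,2,2,2,2,2,1,1,1,1]) 1652 749 = true := by decide +kernel
theorem x047_29 : fam (wl [1,8,2,1,2,1,17,1]) 794 1421 = true := by decide +kernel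
/-- words with first entry from 1899 to 1929 -/
def L047 : List (List ℕ × ℕ × ℕ) := [([1,1,1,1,8,4,3,3],1682,2034), ([1,4,1,3,2,1,1,2,2,2],533,882), ([5,1,3,2,1,1,2,2,1,1],1364,473), ([2,1,1,8,4,3,2,1],215,171), ([1,13,1,1,3,1,6,2],181,338), ([14,1,1,3,1,6,1,1],1724,237), ([1,2,9,1,19,1,2],565,766), ([3,9,1,19,1,1,1],1346,869), ([2,1,3,1,2,1,2,1,1,5],103,74), ([1,1,1,3,1,2,1,2,1,1,4,1],1808,2321), ([30,1,61],1890,122), ([11,1,2,2,23],1347,230), ([1,10,1,2,2,22,1],572,1049), ([1,29,1,60,1],29,59), ([2,1,2,1,2,5,2,5],1225,898), ([1,5,7,3,1,1,2,2],1291,2162), ([6,7,3,1,1,2,1,1],628,205), ([1,1,1,2,1,2,5,2,4,1],694,881), ([31,62],31,2), ([1,1,1,2,1,3,1,1,6,3],1464,1858), ([2,1,2,1,3,1,1,6,2,1],457,335), ([1,30,61,1],1890,3661), ([1,2,2,5,1,2,4,1,2],1703,2422), ([1,9,1,1,1,4,1,4,2],1250,2266), ([10,1,1,1,4,1,4,1,1],675,127), ([3,2,5,1,2,4,1,1,1],222,129), ([9,2,1,2,1,18],1133,242), ([1,3,2,2,2,2,2,1,1,2],275,426), ([4,2,2,2,2,2,1,1,1,1],1652,749), ([1,8,2,1,2,1,17,1],794,1421)]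
theorem r047 : rgV L047 1899 16 = true := by decide +kernel
theorem f047 : ∀ p ∈ L047, fam (wl p.1) p.2.1 p.2.2 = true := by
  intro p hp
  simp only [L047, List.mem_cons, List.not_mem_nil, or_false] at hp
  rcases hp with rfl | rfl | rfl | rfl | rfl | rfl | rfl | rfl | rfl | rfl | rfl | rfl | rfl | rfl | rfl | rfl | rfl | rfl | rfl | rfl | rfl | rfl | rfl | rfl | rfl | rfl | rfl | rfl | rfl | rfl
  · exact x047_0
  · exact x047_1
  · exact x047_2
  · exact x047_3
  · exact x047_4
  · exact x047_5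
  · exact x047_6
  · exact x047_7
  · exact x047_8
  · exact x047_9
  · exact x047_10
  · exact x047_11
  · exact x047_12
  · exact x047_13
  · exact x047_14
  · exact x047_15
  · exact x047_16
  · exact x047_17
  · exact x047_18
  · exact x047_19
  · exact x047_20
  · exact x047_21
  · exact x047_22
  · exact x047_23
  · exact x047_24
  · exact x047_25
  · exact x047_26
  · exact x047_27
  · exact x047_28
  · exact x047_29

end Pool.Agent.V5helper47.EV
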