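import Pool.Agent.V5helper47.EV.S2

/-! Search, part of the half words. -/

set_option maxRecDepth 1000000

namespace Pool.Agent.V5helper47.EV

open H419R2 Pool.Agent.N911 Pool.Agent.V5helper47.CN

theorem x048_0 : fam (wl [1,2,10,20,1,2]) 72 98 = true := by decide +kernel
theorem x048_1 : fam (wl [3,10,20,1,1,1]) 1857 1199 = true := by decide +kernel
theorem x048_2 : fam (wl [7,6,3,14]) 637 178 = true := by decide +kernel
theorem x048_3 : fam (wl [1,1,1,5,2,1,11,3]) 1075 1394 = true := by decide +kernel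
theorem x048_4 : fam (wl [1,2,5,1,2,11,1,2]) 1087 1490 = true := by decide +kernel
theorem x048_5 : fam (wl [1,4,6,12,2,2]) 420 678 = true := by decide +kernel
theorem x048_6 : fam (wl [5,6,12,2,1,1]) 1525 591 = true := by decide +kernel
theorem x048_7 : fam (wl [3,5,1,2,11,1,1,1]) 858 541 = true := by decide +kernel
theorem x048_8 : fam (wl [2,1,5,2,1,11,2,1]) 870 613 = true := by decide +kernel
theorem x048_9 : fam (wl [1,6,6,3,13,1]) 1308 2253 = true := by decide +kernel
theorem x048_10 : fam (wl [1,2,1,3,2,2,1,1,2,1,2]) 635 934 = true := by decide +kernel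
theorem x048_11 : fam (wl [3,1,3,2,2,1,1,2,1,1,1]) 1314 697 = true := by decide +kernel
theorem x048_12 : fam (wl [4,1,1,2,1,6,9]) 1697 742 = true := by decide +kernel
theorem x048_13 : fam (wl [1,1,1,3,3,1,1,7,3]) 1915 2446 = true := by decide +kernel
theorem x048_14 : fam (wl [2,1,3,3,1,1,7,2,1]) 50 37 = true := by decide +kernel
theorem x048_15 : fam (wl [1,3,1,1,2,1,6,8,1]) 268 421 = true := by decide +kernel
theorem x048_16 : fam (wl [1,1,2,2,3,1,1,2,2,3]) 1150 1346 = true := by decide +kernel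
theorem x048_17 : fam (wl [1,3,3,2,4,1,1,1,1,2]) 27 42 = true := by decide +kernel
theorem x048_18 : fam (wl [4,3,2,4,1,1,1,1,1,1]) 1940 905 = true := by decide +kernel
theorem x048_19 : fam (wl [2,2,2,3,1,1,2,2,2,1]) 817 679 = true := by decide +kernel
theorem x048_20 : fam (wl [3,2,4,8,1,6]) 86 50 = true := by decide +kernel
theorem x048_21 : fam (wl [1,1,2,2,1,1,3,2,2,3]) 813 954 = true := by decide +kernel
theorem x048_22 : fam (wl [2,2,2,1,1,3,2,2,2,1]) 1156 957 = true := by decide +kernel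
theorem x048_23 : fam (wl [1,2,2,4,8,1,5,1]) 1883 2675 = true := by decide +kernel
theorem x048_24 : fam (wl [2,1,2,5,2,1,2,5]) 991 738 = true := by decide +kernel
theorem x048_25 : fam (wl [1,24,1,2,12,2]) 1424 2738 = true := by decide +kernel
theorem x048_26 : fam (wl [25,1,2,12,1,1]) 551 43 = true := by decide +kernel
theorem x048_27 : fam (wl [1,1,1,2,5,2,1,2,4,1]) 984 1237 = true := by decide +kernel
theorem x048_28 : fam (wl [1,1,12,2,1,5,1,3]) 687 714 = true := by decide +kernel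
theorem x048_29 : fam (wl [2,12,2,1,5,1,2,1]) 1290 1241 = true := by decide +kernel
/-- words with first entry from 1931 to 1985 -/
def L048 : List (List ℕ × ℕ × ℕ) := [([1,2,10,20,1,2],72,98), ([3,10,20,1,1,1],1857,1199), ([7,6,3,14],637,178), ([1,1,1,5,2,1,11,3],1075,1394), ([1,2,5,1,2,11,1,2],1087,1490), ([1,4,6,12,2,2],420,678), ([5,6,12,2,1,1],1525,591), ([3,5,1,2,11,1,1,1],858,541), ([2,1,5,2,1,11,2,1],870,613), ([1,6,6,3,13,1],1308,2253), ([1,2,1,3,2,2,1,1,2,1,2],635,934), ([3,1,3,2,2,1,1,2,1,1,1],1314,697), ([4,1,1,2,1,6,9],1697,742), ([1,1,1,3,3,1,1,7,3],1915,2446), ([2,1,3,3,1,1,7,2,1],50,37), ([1,3,1,1,2,1,6,8,1],268,421), ([1,1,2,2,3,1,1,2,2,3],1150,1346), ([1,3,3,2,4,1,1,1,1,2],27,42), ([4,3,2,4,1,1,1,1,1,1],1940,905), ([2,2,2,3,1,1,2,2,2,1],817,679), ([3,2,4,8,1,6],86,50), ([1,1,2,2,1,1,3,2,2,3],813,954), ([2,2,2,1,1,3,2,2,2,1],1156,957), ([1,2,2,4,8,1,5,1],1883,2675), ([2,1,2,5,2,1,2,5],991,738), ([1,24,1,2,12,2],1424,2738), ([25,1,2,12,1,1],551,43),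 ([1,1,1,2,5,2,1,2,4,1],984,1237), ([1,1,12,2,1,5,1,3],687,714), ([2,12,2,1,5,1,2,1],1290,1241)]
theorem r048 : rgV L048 1931 28 = true := by decide +kernel
theorem f048 : ∀ p ∈ L048, fam (wl p.1) p.2.1 p.2.2 = true := by
  intro p hp
  simp only [L048, List.mem_cons, List.not_mem_nil, or_false] at hp
  rcases hp with rfl | rfl | rfl | rfl | rfl | rfl | rfl | rfl | rfl | rfl | rfl | rfl | rfl | rfl | rfl | rfl | rfl | rfl | rfl | rfl | rfl | rfl | rfl | rfl | rfl | rfl | rfl | rfl | rfl | rfl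
  · exact x048_0
  · exact x048_1
  · exact x048_2
  · exact x048_3
  · exact x048_4
  · exact x048_5
  · exact x048_6
  · exact x048_7
  · exact x048_8
  · exact x048_9
  · exact x048_10
  · exact x048_11
  · exact x048_12
  · exact x048_13
  · exact x048_14
  · exact x048_15
  · exact x048_16
  · exact x048_17
  · exact x048_18
  · exact x048_19
  · exact x048_20
  · exact x048_21
  · exact x048_22
  · exact x048_23
  · exact x048_24
  · exact x048_25
  · exact x048_26
  · exact x048_27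
  · exact x048_28
  · exact x048_29

end Pool.Agent.V5helper47.EV
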