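import Pool.Agent.V5helper47.EV.S2

/-! Search, part of the half words. -/

set_option maxRecDepth 1000000

namespace Pool.Agent.V5helper47.EV

open H419R2 Pool.Agent.N911 Pool.Agent.V5helper47.CN

theorem x049_0 : fam (wl [3,1,5,1,2,2,1,7]) 1390 722 = true := by decide +kernel
theorem x049_1 : fam (wl [1,2,1,5,1,2,2,1,6,1]) 595 883 = true := by decide +kernel
theorem x049_2 : fam (wl [1,3,10,1,4,1,1,1,2]) 38 58 = true := by decide +kernel
theorem x049_3 : fam (wl [4,10,1,4,1,1,1,1,1]) 1953 955 = true := by decide +kernel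
theorem x049_4 : fam (wl [4,1,4,2,1,1,1,9]) 929 386 = true := by decide +kernel
theorem x049_5 : fam (wl [1,3,1,4,2,1,1,1,8,1]) 1062 1685 = true := by decide +kernel
theorem x049_6 : fam (wl [3,1,1,3,1,8,7]) 1789 1006 = true := by decide +kernel
theorem x049_7 : fam (wl [1,2,1,1,3,1,8,6,1]) 208 301 = true := by decide +kernel
theorem x049_8 : fam (wl [4,2,3,6,1,8]) 1511 682 = true := by decide +kernel
theorem x049_9 : fam (wl [1,3,2,3,6,1,7,1]) 490 761 = true := by decide +kernel
theorem x049_10 : fam (wl [6,1,1,1,1,4,13]) 522 158 = true := by decide +kernel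
theorem x049_11 : fam (wl [3,2,1,3,1,1,2,1,6]) 1515 902 = true := by decide +kernel
theorem x049_12 : fam (wl [1,2,2,1,3,1,1,2,1,5,1]) 492 693 = true := by decide +kernel
theorem x049_13 : fam (wl [1,5,1,1,1,1,4,12,1]) 1485 2523 = true := by decide +kernel
theorem x049_14 : fam (wl [1,1,3,1,4,2,2,1,1,3]) 636 710 = true := by decide +kernel
theorem x049_15 : fam (wl [2,3,1,4,2,2,1,1,2,1]) 1373 1215 = true := by decide +kernel
theorem x049_16 : fam (wl [2,21,1,10,4]) 190 186 = true := by decide +kernel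
theorem x049_17 : fam (wl [1,1,21,1,10,3,1]) 1825 1867 = true := by decide +kernel
theorem x049_18 : fam (wl [18,2,1,36]) 165 18 = true := by decide +kernel
theorem x049_19 : fam (wl [1,17,2,1,35,1]) 1850 3501 = true := by decide +kernel
theorem x049_20 : fam (wl [7,1,2,2,2,15]) 208 54 = true := by decide +kernel
theorem x049_21 : fam (wl [1,1,6,3,1,1,1,2,1,3]) 240 258 = true := by decide +kernel
theorem x049_22 : fam (wl [2,6,3,1,1,1,2,1,2,1]) 1777 1647 = true := by decide +kernel
theorem x049_23 : fam (wl [1,6,1,2,2,2,14,1]) 1809 3151 = true := by decide +kernel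
theorem x049_24 : fam (wl [2,2,5,1,11,1,4]) 145 118 = true := by decide +kernel
theorem x049_25 : fam (wl [1,43,1,21,2]) 516 1010 = true := by decide +kernel
theorem x049_26 : fam (wl [44,1,21,1,1]) 1505 67 = true := by decide +kernel
theorem x049_27 : fam (wl [1,1,2,5,1,11,1,3,1]) 1876 2229 = true := by decide +kernel
theorem x049_28 : fam (wl [1,44,22,2]) 1508 2950 = true := by decide +kernel
theorem x049_29 : fam (wl [45,22,1,1]) 517 23 = true := by decide +kernel
/-- words with first entry from 1987 to 2031 -/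
def L049 : List (List ℕ × ℕ × ℕ) := [([3,1,5,1,2,2,1,7],1390,722), ([1,2,1,5,1,2,2,1,6,1],595,883), ([1,3,10,1,4,1,1,1,2],38,58), ([4,10,1,4,1,1,1,1,1],1953,955), ([4,1,4,2,1,1,1,9],929,386), ([1,3,1,4,2,1,1,1,8,1],1062,1685), ([3,1,1,3,1,8,7],1789,1006), ([1,2,1,1,3,1,8,6,1],208,301), ([4,2,3,6,1,8],1511,682), ([1,3,2,3,6,1,7,1],490,761), ([6,1,1,1,1,4,13],522,158), ([3,2,1,3,1,1,2,1,6],1515,902), ([1,2,2,1,3,1,1,2,1,5,1],492,693), ([1,5,1,1,1,1,4,12,1],1485,2523), ([1,1,3,1,4,2,2,1,1,3],636,710), ([2,3,1,4,2,2,1,1,2,1],1373,1215), ([2,21,1,10,4],190,186), ([1,1,21,1,10,3,1],1825,1867), ([18,2,1,36],165,18), ([1,17,2,1,35,1],1850,3501), ([7,1,2,2,2,15],208,54), ([1,1,6,3,1,1,1,2,1,3],240,258), ([2,6,3,1,1,1,2,1,2,1],1777,1647), ([1,6,1,2,2,2,14,1],1809,3151), ([2,2,5,1,11,1,4],145,118), ([1,43,1,21,2],516,1010), ([44,1,21,1,1],1505,67), ([1,1,2,5,1,11,1,3,1],1876,2229), ([1,44,22,2],1508,2950), ([45,22,1,1],517,23)]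
theorem r049 : rgV L049 1987 23 = true := by decide +kernel
theorem f049 : ∀ p ∈ L049, fam (wl p.1) p.2.1 p.2.2 = true := by
  intro p hp
  simp only [L049, List.mem_cons, List.not_mem_nil, or_false] at hp
  rcases hp with rfl | rfl | rfl | rfl | rfl | rfl | rfl | rfl | rfl | rfl | rfl | rfl | rfl | rfl | rfl | rfl | rfl | rfl | rfl | rfl | rfl | rfl | rfl | rfl | rfl | rfl | rfl | rfl | rfl | rfl
  · exact x049_0
  · exact x049_1
  · exact x049_2
  · exact x049_3
  · exact x049_4
  · exact x049_5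
  · exact x049_6
  · exact x049_7
  · exact x049_8
  · exact x049_9
  · exact x049_10
  · exact x049_11
  · exact x049_12
  · exact x049_13
  · exact x049_14
  · exact x049_15
  · exact x049_16
  · exact x049_17
  · exact x049_18
  · exact x049_19
  · exact x049_20
  · exact x049_21
  · exact x049_22
  · exact x049_23
  · exact x049_24
  · exact x049_25
  · exact x049_26
  · exact x049_27
  · exact x049_28
  · exact x049_29

end Pool.Agent.V5helper47.EV
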