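import Pool.Agent.V5helper47.EV.S2

/-! Search, part of the half words. -/

set_option maxRecDepth 1000000

namespace Pool.Agent.V5helper47.EV

open H419R2 Pool.Agent.N911 Pool.Agent.V5helper47.CN

theorem x050_0 : fam (wl [2,22,11,4]) 824 806 = true := by decide +kernel
theorem x050_1 : fam (wl [1,1,3,2,2,1,4,1,1,3]) 76 86 = true := by decide +kernel
theorem x050_2 : fam (wl [2,3,2,2,1,4,1,1,2,1]) 1955 1707 = true := by decide +kernel
theorem x050_3 : fam (wl [1,1,22,11,3,1]) 1207 1235 = true := by decide +kernel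
theorem x050_4 : fam (wl [1,1,1,9,1,20,3]) 1964 2578 = true := by decide +kernel
theorem x050_5 : fam (wl [2,1,9,1,20,2,1]) 73 51 = true := by decide +kernel
theorem x050_6 : fam (wl [9,1,1,1,3,19]) 1166 242 = true := by decide +kernel
theorem x050_7 : fam (wl [1,1,4,1,2,5,1,1,1,3]) 308 338 = true := by decide +kernel
theorem x050_8 : fam (wl [2,4,1,2,5,1,1,1,2,1]) 1733 1567 = true := by decide +kernel
theorem x050_9 : fam (wl [1,8,1,1,1,3,18,1]) 875 1571 = true := by decide +kernel
theorem x050_10 : fam (wl [31,1,63]) 2015 126 = true := by decide +kernel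
theorem x050_11 : fam (wl [1,1,4,4,1,1,1,1,1,1,3]) 931 1030 = true := by decide +kernel
theorem x050_12 : fam (wl [2,4,4,1,1,1,1,1,1,2,1]) 1114 997 = true := by decide +kernel
theorem x050_13 : fam (wl [1,30,1,62,1]) 30 61 = true := by decide +kernel
theorem x050_14 : fam (wl [32,64]) 32 2 = true := by decide +kernel
theorem x050_15 : fam (wl [1,2,3,4,2,6,1,2]) 259 362 = true := by decide +kernel
theorem x050_16 : fam (wl [3,3,4,2,6,1,1,1]) 1788 1081 = true := by decide +kernel
theorem x050_17 : fam (wl [1,31,63,1]) 2015 3907 = true := by decide +kernel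
theorem x050_18 : fam (wl [1,1,1,10,21,3]) 760 998 = true := by decide +kernel
theorem x050_19 : fam (wl [1,3,11,5,1,1,1,2]) 1502 2270 = true := by decide +kernel
theorem x050_20 : fam (wl [4,11,5,1,1,1,1,1]) 553 271 = true := by decide +kernel
theorem x050_21 : fam (wl [2,1,10,21,2,1]) 1295 891 = true := by decide +kernel
theorem x050_22 : fam (wl [1,2,3,1,2,2,7,1,2]) 1047 1454 = true := by decide +kernel
theorem x050_23 : fam (wl [3,3,1,2,2,7,1,1,1]) 1014 621 = true := by decide +kernel
theorem x050_24 : fam (wl [2,2,6,12,1,4]) 1509 1226 = true := by decide +kernel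
theorem x050_25 : fam (wl [1,12,1,2,1,2,6,2]) 102 190 = true := by decide +kernel
theorem x050_26 : fam (wl [13,1,2,1,2,6,1,1]) 1969 287 = true := by decide +kernel
theorem x050_27 : fam (wl [1,1,2,6,12,1,3,1]) 562 669 = true := by decide +kernel
/-- words with first entry from 2033 to 2079 -/
def L050 : List (List ℕ × ℕ × ℕ) := [([2,22,11,4],824,806), ([1,1,3,2,2,1,4,1,1,3],76,86), ([2,3,2,2,1,4,1,1,2,1],1955,1707), ([1,1,22,11,3,1],1207,1235), ([1,1,1,9,1,20,3],1964,2578), ([2,1,9,1,20,2,1],73,51), ([9,1,1,1,3,19],1166,242), ([1,1,4,1,2,5,1,1,1,3],308,338), ([2,4,1,2,5,1,1,1,2,1],1733,1567), ([1,8,1,1,1,3,18,1],875,1571), ([31,1,63],2015,126), ([1,1,4,4,1,1,1,1,1,1,3],931,1030), ([2,4,4,1,1,1,1,1,1,2,1],1114,997), ([1,30,1,62,1],30,61), ([32,64],32,2), ([1,2,3,4,2,6,1,2],259,362), ([3,3,4,2,6,1,1,1],1788,1081), ([1,31,63,1],2015,3907), ([1,1,1,10,21,3],760,998), ([1,3,11,5,1,1,1,2],1502,2270), ([4,11,5,1,1,1,1,1],553,271), ([2,1,10,21,2,1],1295,891), ([1,2,3,1,2,2,7,1,2],1047,1454),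 ([3,3,1,2,2,7,1,1,1],1014,621), ([2,2,6,12,1,4],1509,1226), ([1,12,1,2,1,2,6,2],102,190), ([13,1,2,1,2,6,1,1],1969,287), ([1,1,2,6,12,1,3,1],562,669)]
theorem r050 : rgV L050 2033 24 = true := by decide +kernel
theorem f050 : ∀ p ∈ L050, fam (wl p.1) p.2.1 p.2.2 = true := by
  intro p hp
  simp only [L050, List.mem_cons, List.not_mem_nil, or_false] at hp
  rcases hp with rfl | rfl | rfl | rfl | rfl | rfl | rfl | rfl | rfl | rfl | rfl | rfl | rfl | rfl | rfl | rfl | rfl | rfl | rfl | rfl | rfl | rfl | rfl | rfl | rfl | rfl | rfl | rfl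
  · exact x050_0
  · exact x050_1
  · exact x050_2
  · exact x050_3
  · exact x050_4
  · exact x050_5
  · exact x050_6
  · exact x050_7
  · exact x050_8
  · exact x050_9
  · exact x050_10
  · exact x050_11
  · exact x050_12
  · exact x050_13
  · exact x050_14
  · exact x050_15
  · exact x050_16
  · exact x050_17
  · exact x050_18
  · exact x050_19
  · exact x050_20
  · exact x050_21
  · exact x050_22
  · exact x050_23
  · exact x050_24
  · exact x050_25
  · exact x050_26
  · exact x050_27

end Pool.Agent.V5helper47.EV
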