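import Pool.Agent.V5helper47.EV.S2

/-! Search, part of the half words. -/

set_option maxRecDepth 1000000

namespace Pool.Agent.V5helper47.EV

open H419R2 Pool.Agent.N911 Pool.Agent.V5helper47.CN

theorem x051_0 : fam (wl [7,1,4,1,1,1,15]) 1901 486 = true := by decide +kernel
theorem x051_1 : fam (wl [1,6,1,4,1,1,1,14,1]) 178 313 = true := by decide +kernel
theorem x051_2 : fam (wl [1,25,2,1,12,2]) 460 886 = true := by decide +kernel
theorem x051_3 : fam (wl [26,2,1,12,1,1]) 1619 123 = true := by decide +kernel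
theorem x051_4 : fam (wl [2,12,1,2,6,4]) 2010 1934 = true := by decide +kernel
theorem x051_5 : fam (wl [1,1,12,1,2,6,3,1]) 71 75 = true := by decide +kernel
theorem x051_6 : fam (wl [3,1,3,1,1,3,1,1,7]) 722 382 = true := by decide +kernel
theorem x051_7 : fam (wl [1,2,1,3,1,1,3,1,1,6,1]) 1363 2007 = true := by decide +kernel
theorem x051_8 : fam (wl [3,5,2,2,1,2,6]) 1729 1086 = true := by decide +kernel
theorem x051_9 : fam (wl [1,2,5,2,2,1,2,5,1]) 358 493 = true := by decide +kernel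
theorem x051_10 : fam (wl [4,3,1,1,3,1,1,8]) 1374 642 = true := by decide +kernel
theorem x051_11 : fam (wl [1,3,3,1,1,3,1,1,7,1]) 713 1095 = true := by decide +kernel
theorem x051_12 : fam (wl [18,1,2,37]) 168 18 = true := by decide +kernel
theorem x051_13 : fam (wl [10,1,3,1,1,21]) 873 162 = true := by decide +kernel
theorem x051_14 : fam (wl [1,1,1,1,2,2,4,1,3,3]) 993 1218 = true := by decide +kernel
theorem x051_15 : fam (wl [1,3,6,2,1,2,1,1,1,2]) 2034 3090 = true := by decide +kernel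
theorem x051_16 : fam (wl [4,6,2,1,2,1,1,1,1,1]) 55 27 = true := by decide +kernel
theorem x051_17 : fam (wl [2,1,1,2,2,4,1,3,2,1]) 1096 849 = true := by decide +kernel
theorem x051_18 : fam (wl [1,9,1,3,1,1,20,1]) 1216 2209 = true := by decide +kernel
theorem x051_19 : fam (wl [1,17,1,2,36,1]) 1921 3639 = true := by decide +kernel
theorem x051_20 : fam (wl [3,1,1,4,9,7]) 1418 798 = true := by decide +kernel
theorem x051_21 : fam (wl [1,1,1,1,4,1,2,2,3,3]) 1170 1422 = true := by decide +kernel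
theorem x051_22 : fam (wl [2,1,1,4,1,2,2,3,2,1]) 925 727 = true := by decide +kernel
theorem x051_23 : fam (wl [1,2,1,1,4,9,6,1]) 677 975 = true := by decide +kernel
theorem x051_24 : fam (wl [2,2,3,2,1,6,1,4]) 723 594 = true := by decide +kernel
theorem x051_25 : fam (wl [1,1,2,3,2,1,6,1,3,1]) 1374 1621 = true := by decide +kernel
theorem x051_26 : fam (wl [2,2,1,5,1,2,2,1,4]) 792 674 = true := by decide +kernel
theorem x051_27 : fam (wl [1,1,2,1,5,1,2,2,1,3,1]) 1317 1515 = true := by decide +kernel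
/-- words with first entry from 2081 to 2111 -/
def L051 : List (List ℕ × ℕ × ℕ) := [([7,1,4,1,1,1,15],1901,486), ([1,6,1,4,1,1,1,14,1],178,313), ([1,25,2,1,12,2],460,886), ([26,2,1,12,1,1],1619,123), ([2,12,1,2,6,4],2010,1934), ([1,1,12,1,2,6,3,1],71,75), ([3,1,3,1,1,3,1,1,7],722,382), ([1,2,1,3,1,1,3,1,1,6,1],1363,2007), ([3,5,2,2,1,2,6],1729,1086), ([1,2,5,2,2,1,2,5,1],358,493), ([4,3,1,1,3,1,1,8],1374,642), ([1,3,3,1,1,3,1,1,7,1],713,1095), ([18,1,2,37],168,18), ([10,1,3,1,1,21],873,162), ([1,1,1,1,2,2,4,1,3,3],993,1218), ([1,3,6,2,1,2,1,1,1,2],2034,3090), ([4,6,2,1,2,1,1,1,1,1],55,27), ([2,1,1,2,2,4,1,3,2,1],1096,849), ([1,9,1,3,1,1,20,1],1216,2209), ([1,17,1,2,36,1],1921,3639), ([3,1,1,4,9,7],1418,798), ([1,1,1,1,4,1,2,2,3,3],1170,1422), ([2,1,1,4,1,2,2,3,2,1],925,727), ([1,2,1,1,4,9,6,1],677,975), ([2,2,3,2,1,6,1,4],723,594), ([1,1,2,3,2,1,6,1,3,1],1374,1621), ([2,2,1,5,1,2,2,1,4],792,674), ([1,1,2,1,5,1,2,2,1,3,1],1317,1515)]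
theorem r051 : rgV L051 2081 16 = true := by decide +kernel
theorem f051 : ∀ p ∈ L051, fam (wl p.1) p.2.1 p.2.2 = true := by
  intro p hp
  simp only [L051, List.mem_cons, List.not_mem_nil, or_false] at hp
  rcases hp with rfl | rfl | rfl | rfl | rfl | rfl | rfl | rfl | rfl | rfl | rfl | rfl | rfl | rfl | rfl | rfl | rfl | rfl | rfl | rfl | rfl | rfl | rfl | rfl | rfl | rfl | rfl | rfl
  · exact x051_0
  · exact x051_1
  · exact x051_2
  · exact x051_3
  · exact x051_4
  · exact x051_5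
  · exact x051_6
  · exact x051_7
  · exact x051_8
  · exact x051_9
  · exact x051_10
  · exact x051_11
  · exact x051_12
  · exact x051_13
  · exact x051_14
  · exact x051_15
  · exact x051_16
  · exact x051_17
  · exact x051_18
  · exact x051_19
  · exact x051_20
  · exact x051_21
  · exact x051_22
  · exact x051_23
  · exact x051_24
  · exact x051_25
  · exact x051_26
  · exact x051_27

end Pool.Agent.V5helper47.EV
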