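import Pool.Agent.V5helper47.EV.S2

/-! Search, part of the half words. -/

set_option maxRecDepth 1000000

namespace Pool.Agent.V5helper47.EV

open H419R2 Pool.Agent.N911 Pool.Agent.V5helper47.CN

theorem x052_0 : fam (wl [12,3,1,1,24]) 1511 246 = true := by decide +kernel
theorem x052_1 : fam (wl [1,11,3,1,1,23,1]) 600 1105 = true := by decide +kernel
theorem x052_2 : fam (wl [1,2,2,3,2,1,1,4,1,2]) 475 674 = true := by decide +kernel
theorem x052_3 : fam (wl [3,2,3,2,1,1,4,1,1,1]) 1636 953 = true := by decide +kernel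
theorem x052_4 : fam (wl [2,1,1,1,2,1,2,1,3,5]) 92 70 = true := by decide +kernel
theorem x052_5 : fam (wl [1,2,2,6,3,4,1,2]) 2065 2938 = true := by decide +kernel
theorem x052_6 : fam (wl [3,2,6,3,4,1,1,1]) 56 33 = true := by decide +kernel
theorem x052_7 : fam (wl [1,1,1,1,1,2,1,2,1,3,4,1]) 2029 2519 = true := by decide +kernel
theorem x052_8 : fam (wl [1,1,2,1,3,1,8,2,3]) 769 886 = true := by decide +kernel
theorem x052_9 : fam (wl [2,2,1,3,1,8,2,2,1]) 1358 1153 = true := by decide +kernel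
theorem x052_10 : fam (wl [4,1,1,3,7,9]) 1238 542 = true := by decide +kernel
theorem x052_11 : fam (wl [1,3,1,1,3,7,8,1]) 889 1391 = true := by decide +kernel
theorem x052_12 : fam (wl [1,2,1,2,1,2,1,2,1,2,1,2]) 1 2 = true := by decide +kernel
theorem x052_13 : fam (wl [3,1,2,1,2,1,2,1,2,1,1,1]) 2128 1141 = true := by decide +kernel
theorem x052_14 : fam (wl [5,1,6,1,2,1,11]) 769 262 = true := by decide +kernel
theorem x052_15 : fam (wl [1,4,1,6,1,2,1,10,1]) 1366 2269 = true := by decide +kernel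
theorem x052_16 : fam (wl [2,2,1,1,3,1,1,3,1,4]) 246 206 = true := by decide +kernel
theorem x052_17 : fam (wl [1,1,2,1,1,3,1,1,3,1,3,1]) 1889 2199 = true := by decide +kernel
theorem x052_18 : fam (wl [1,1,1,1,1,1,1,1,4,4,3]) 1403 1734 = true := by decide +kernel
theorem x052_19 : fam (wl [2,1,1,1,1,1,1,4,4,2,1]) 738 565 = true := by decide +kernel
theorem x052_20 : fam (wl [3,3,2,2,2,1,1,6]) 69 42 = true := by decide +kernel
theorem x052_21 : fam (wl [1,14,2,4,7,2]) 223 418 = true := by decide +kernel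
theorem x052_22 : fam (wl [15,2,4,7,1,1]) 1922 249 = true := by decide +kernel
theorem x052_23 : fam (wl [1,2,3,2,2,2,1,1,5,1]) 2076 2893 = true := by decide +kernel
theorem x052_24 : fam (wl [2,1,1,5,1,12,5]) 241 190 = true := by decide +kernel
theorem x052_25 : fam (wl [1,1,1,1,5,1,12,4,1]) 1910 2317 = true := by decide +kernel
theorem x052_26 : fam (wl [1,1,1,1,1,5,2,1,4,3]) 1653 2058 = true := by decide +kernel
theorem x052_27 : fam (wl [2,1,1,1,5,2,1,4,2,1]) 498 377 = true := by decide +kernel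
/-- words with first entry from 2113 to 2157 -/
def L052 : List (List ℕ × ℕ × ℕ) := [([12,3,1,1,24],1511,246), ([1,11,3,1,1,23,1],600,1105), ([1,2,2,3,2,1,1,4,1,2],475,674), ([3,2,3,2,1,1,4,1,1,1],1636,953), ([2,1,1,1,2,1,2,1,3,5],92,70), ([1,2,2,6,3,4,1,2],2065,2938), ([3,2,6,3,4,1,1,1],56,33), ([1,1,1,1,1,2,1,2,1,3,4,1],2029,2519), ([1,1,2,1,3,1,8,2,3],769,886), ([2,2,1,3,1,8,2,2,1],1358,1153), ([4,1,1,3,7,9],1238,542), ([1,3,1,1,3,7,8,1],889,1391), ([1,2,1,2,1,2,1,2,1,2,1,2],1,2), ([3,1,2,1,2,1,2,1,2,1,1,1],2128,1141), ([5,1,6,1,2,1,11],769,262), ([1,4,1,6,1,2,1,10,1],1366,2269), ([2,2,1,1,3,1,1,3,1,4],246,206), ([1,1,2,1,1,3,1,1,3,1,3,1],1889,2199), ([1,1,1,1,1,1,1,1,4,4,3],1403,1734), ([2,1,1,1,1,1,1,4,4,2,1],738,565), ([3,3,2,2,2,1,1,6],69,42), ([1,14,2,4,7,2],223,418), ([15,2,4,7,1,1],1922,249), ([1,2,3,2,2,2,1,1,5,1],2076,2893), ([2,1,1,5,1,12,5],241,190), ([1,1,1,1,5,1,12,4,1],1910,2317), ([1,1,1,1,1,5,2,1,4,3],1653,2058), ([2,1,1,1,5,2,1,4,2,1],498,377)]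
theorem r052 : rgV L052 2113 23 = true := by decide +kernel
theorem f052 : ∀ p ∈ L052, fam (wl p.1) p.2.1 p.2.2 = true := by
  intro p hp
  simp only [L052, List.mem_cons, List.not_mem_nil, or_false] at hp
  rcases hp with rfl | rfl | rfl | rfl | rfl | rfl | rfl | rfl | rfl | rfl | rfl | rfl | rfl | rfl | rfl | rfl | rfl | rfl | rfl | rfl | rfl | rfl | rfl | rfl | rfl | rfl | rfl | rfl
  · exact x052_0
  · exact x052_1
  · exact x052_2
  · exact x052_3
  · exact x052_4
  · exact x052_5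
  · exact x052_6
  · exact x052_7
  · exact x052_8
  · exact x052_9
  · exact x052_10
  · exact x052_11
  · exact x052_12
  · exact x052_13
  · exact x052_14
  · exact x052_15
  · exact x052_16
  · exact x052_17
  · exact x052_18
  · exact x052_19
  · exact x052_20
  · exact x052_21
  · exact x052_22
  · exact x052_23
  · exact x052_24
  · exact x052_25
  · exact x052_26
  · exact x052_27

end Pool.Agent.V5helper47.EV
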