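import Pool.Agent.V5helper47.EV.S2

/-! Search, part of the half words. -/

set_option maxRecDepth 1000000

namespace Pool.Agent.V5helper47.EV

open H419R2 Pool.Agent.N911 Pool.Agent.V5helper47.CN

theorem x053_0 : fam (wl [1,1,2,8,1,3,1,2,3]) 2016 2402 = true := by decide +kernel
theorem x053_1 : fam (wl [1,4,2,3,1,1,4,2,2]) 1307 2134 = true := by decide +kernel
theorem x053_2 : fam (wl [5,2,3,1,1,4,2,1,1]) 850 313 = true := by decide +kernel
theorem x053_3 : fam (wl [2,2,8,1,3,1,2,2,1]) 141 115 = true := by decide +kernel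
theorem x053_4 : fam (wl [1,16,1,1,3,8,2]) 1835 3462 = true := by decide +kernel
theorem x053_5 : fam (wl [17,1,1,3,8,1,1]) 324 37 = true := by decide +kernel
theorem x053_6 : fam (wl [1,1,1,2,1,1,1,3,6,3]) 115 146 = true := by decide +kernel
theorem x053_7 : fam (wl [2,1,2,1,1,1,3,6,2,1]) 2044 1501 = true := by decide +kernel
theorem x053_8 : fam (wl [1,1,1,5,1,2,12,3]) 716 930 = true := by decide +kernel
theorem x053_9 : fam (wl [1,9,1,2,5,1,4,2]) 1746 3166 = true := by decide +kernel
theorem x053_10 : fam (wl [10,1,2,5,1,4,1,1]) 421 79 = true := by decide +kernel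
theorem x053_11 : fam (wl [2,1,5,1,2,12,2,1]) 1451 1019 = true := by decide +kernel
theorem x053_12 : fam (wl [32,1,65]) 2144 130 = true := by decide +kernel
theorem x053_13 : fam (wl [3,1,10,1,4,1,7]) 2032 1038 = true := by decide +kernel
theorem x053_14 : fam (wl [1,2,1,10,1,4,1,6,1]) 143 215 = true := by decide +kernel
theorem x053_15 : fam (wl [1,31,1,64,1]) 31 63 = true := by decide +kernel
theorem x053_16 : fam (wl [33,66]) 33 2 = true := by decide +kernel
theorem x053_17 : fam (wl [1,32,65,1]) 2144 4161 = true := by decide +kernel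
theorem x053_18 : fam (wl [4,3,3,1,1,1,1,8]) 1864 866 = true := by decide +kernel
theorem x053_19 : fam (wl [1,3,3,3,1,1,1,1,7,1]) 321 495 = true := by decide +kernel
theorem x053_20 : fam (wl [2,1,14,1,6,1,5]) 831 566 = true := by decide +kernel
theorem x053_21 : fam (wl [1,10,2,1,5,5,2]) 1367 2494 = true := by decide +kernel
theorem x053_22 : fam (wl [11,2,1,5,5,1,1]) 822 145 = true := by decide +kernel
theorem x053_23 : fam (wl [1,1,1,14,1,6,1,4,1]) 1358 1793 = true := by decide +kernel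
/-- words with first entry from 2159 to 2191 -/
def L053 : List (List ℕ × ℕ × ℕ) := [([1,1,2,8,1,3,1,2,3],2016,2402), ([1,4,2,3,1,1,4,2,2],1307,2134), ([5,2,3,1,1,4,2,1,1],850,313), ([2,2,8,1,3,1,2,2,1],141,115), ([1,16,1,1,3,8,2],1835,3462), ([17,1,1,3,8,1,1],324,37), ([1,1,1,2,1,1,1,3,6,3],115,146), ([2,1,2,1,1,1,3,6,2,1],2044,1501), ([1,1,1,5,1,2,12,3],716,930), ([1,9,1,2,5,1,4,2],1746,3166), ([10,1,2,5,1,4,1,1],421,79), ([2,1,5,1,2,12,2,1],1451,1019), ([32,1,65],2144,130), ([3,1,10,1,4,1,7],2032,1038), ([1,2,1,10,1,4,1,6,1],143,215), ([1,31,1,64,1],31,63), ([33,66],33,2), ([1,32,65,1],2144,4161), ([4,3,3,1,1,1,1,8],1864,866), ([1,3,3,3,1,1,1,1,7,1],321,495), ([2,1,14,1,6,1,5],831,566), ([1,10,2,1,5,5,2],1367,2494), ([11,2,1,5,5,1,1],822,145), ([1,1,1,14,1,6,1,4,1],1358,1793)]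
theorem r053 : rgV L053 2159 17 = true := by decide +kernel
theorem f053 : ∀ p ∈ L053, fam (wl p.1) p.2.1 p.2.2 = true := by
  intro p hp
  simp only [L053, List.mem_cons, List.not_mem_nil, or_false] at hp
  rcases hp with rfl | rfl | rfl | rfl | rfl | rfl | rfl | rfl | rfl | rfl | rfl | rfl | rfl | rfl | rfl | rfl | rfl | rfl | rfl | rfl | rfl | rfl | rfl | rfl
  · exact x053_0
  · exact x053_1
  · exact x053_2
  · exact x053_3
  · exact x053_4
  · exact x053_5
  · exact x053_6
  · exact x053_7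
  · exact x053_8
  · exact x053_9
  · exact x053_10
  · exact x053_11
  · exact x053_12
  · exact x053_13
  · exact x053_14
  · exact x053_15
  · exact x053_16
  · exact x053_17
  · exact x053_18
  · exact x053_19
  · exact x053_20
  · exact x053_21
  · exact x053_22
  · exact x053_23

end Pool.Agent.V5helper47.EV
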