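import Pool.Agent.V5helper47.EV.S2

/-! Search, part of the half words. -/

set_option maxRecDepth 1000000

namespace Pool.Agent.V5helper47.EV

open H419R2 Pool.Agent.N911 Pool.Agent.V5helper47.CN

theorem x054_0 : fam (wl [4,2,1,1,2,3,1,8]) 1092 498 = true := by decide +kernel
theorem x054_1 : fam (wl [3,8,1,2,4,6]) 302 194 = true := by decide +kernel
theorem x054_2 : fam (wl [2,1,8,2,1,3,1,5]) 1403 970 = true := by decide +kernel
theorem x054_3 : fam (wl [2,3,1,1,2,1,3,1,1,4]) 613 538 = true := by decide +kernel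
theorem x054_4 : fam (wl [1,1,3,1,1,2,1,3,1,1,3,1]) 1578 1773 = true := by decide +kernel
theorem x054_5 : fam (wl [1,1,1,8,2,1,3,1,4,1]) 788 1033 = true := by decide +kernel
theorem x054_6 : fam (wl [1,2,8,1,2,4,5,1]) 1889 2567 = true := by decide +kernel
theorem x054_7 : fam (wl [1,3,2,1,1,2,3,1,7,1]) 1099 1699 = true := by decide +kernel
theorem x054_8 : fam (wl [1,1,22,1,10,1,3]) 1580 1614 = true := by decide +kernel
theorem x054_9 : fam (wl [1,8,1,3,1,1,2,4,2]) 1843 3310 = true := by decide +kernel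
theorem x054_10 : fam (wl [9,1,3,1,1,2,4,1,1]) 356 73 = true := by decide +kernel
theorem x054_11 : fam (wl [2,22,1,10,1,2,1]) 619 607 = true := by decide +kernel
theorem x054_12 : fam (wl [2,1,1,6,13,5]) 1515 1194 = true := by decide +kernel
theorem x054_13 : fam (wl [1,1,1,1,6,13,4,1]) 686 833 = true := by decide +kernel
theorem x054_14 : fam (wl [1,45,1,22,2]) 1666 3262 = true := by decide +kernel
theorem x054_15 : fam (wl [46,1,22,1,1]) 539 23 = true := by decide +kernel
theorem x054_16 : fam (wl [1,3,1,1,1,2,2,4,1,1,2]) 1789 2806 = true := by decide +kernel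
theorem x054_17 : fam (wl [4,1,1,1,2,2,4,1,1,1,1]) 418 181 = true := by decide +kernel
theorem x054_18 : fam (wl [5,1,3,1,2,1,1,11]) 1881 650 = true := by decide +kernel
theorem x054_19 : fam (wl [2,1,4,1,1,3,1,1,1,5]) 1424 1010 = true := by decide +kernel
theorem x054_20 : fam (wl [1,5,4,2,1,1,1,1,2,2]) 2126 3570 = true := by decide +kernel
theorem x054_21 : fam (wl [1,46,23,2]) 540 1058 = true := by decide +kernel
theorem x054_22 : fam (wl [47,23,1,1]) 1669 71 = true := by decide +kernel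
theorem x054_23 : fam (wl [6,4,2,1,1,1,1,2,1,1]) 83 27 = true := by decide +kernel
theorem x054_24 : fam (wl [1,1,1,4,1,1,3,1,1,1,4,1]) 785 1015 = true := by decide +kernel
theorem x054_25 : fam (wl [1,4,1,3,1,2,1,1,10,1]) 328 545 = true := by decide +kernel
theorem x054_26 : fam (wl [6,2,2,4,1,12]) 237 74 = true := by decide +kernel
theorem x054_27 : fam (wl [1,1,23,11,1,3]) 1733 1770 = true := by decide +kernel
theorem x054_28 : fam (wl [2,23,11,1,2,1]) 482 473 = true := by decide +kernel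
theorem x054_29 : fam (wl [1,5,2,2,4,1,11,1]) 1978 3341 = true := by decide +kernel
/-- words with first entry from 2193 to 2225 -/
def L054 : List (List ℕ × ℕ × ℕ) := [([4,2,1,1,2,3,1,8],1092,498), ([3,8,1,2,4,6],302,194), ([2,1,8,2,1,3,1,5],1403,970), ([2,3,1,1,2,1,3,1,1,4],613,538), ([1,1,3,1,1,2,1,3,1,1,3,1],1578,1773), ([1,1,1,8,2,1,3,1,4,1],788,1033), ([1,2,8,1,2,4,5,1],1889,2567), ([1,3,2,1,1,2,3,1,7,1],1099,1699), ([1,1,22,1,10,1,3],1580,1614), ([1,8,1,3,1,1,2,4,2],1843,3310), ([9,1,3,1,1,2,4,1,1],356,73), ([2,22,1,10,1,2,1],619,607), ([2,1,1,6,13,5],1515,1194), ([1,1,1,1,6,13,4,1],686,833), ([1,45,1,22,2],1666,3262), ([46,1,22,1,1],539,23), ([1,3,1,1,1,2,2,4,1,1,2],1789,2806), ([4,1,1,1,2,2,4,1,1,1,1],418,181), ([5,1,3,1,2,1,1,11],1881,650), ([2,1,4,1,1,3,1,1,1,5],1424,1010), ([1,5,4,2,1,1,1,1,2,2],2126,3570), ([1,46,23,2],540,1058), ([47,23,1,1],1669,71), ([6,4,2,1,1,1,1,2,1,1],83,27), ([1,1,1,4,1,1,3,1,1,1,4,1],785,1015), ([1,4,1,3,1,2,1,1,10,1],328,545),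 ([6,2,2,4,1,12],237,74), ([1,1,23,11,1,3],1733,1770), ([2,23,11,1,2,1],482,473), ([1,5,2,2,4,1,11,1],1978,3341)]
theorem r054 : rgV L054 2193 17 = true := by decide +kernel
theorem f054 : ∀ p ∈ L054, fam (wl p.1) p.2.1 p.2.2 = true := by
  intro p hp
  simp only [L054, List.mem_cons, List.not_mem_nil, or_false] at hp
  rcases hp with rfl | rfl | rfl | rfl | rfl | rfl | rfl | rfl | rfl | rfl | rfl | rfl | rfl | rfl | rfl | rfl | rfl | rfl | rfl | rfl | rfl | rfl | rfl | rfl | rfl | rfl | rfl | rfl | rfl | rfl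
  · exact x054_0
  · exact x054_1
  · exact x054_2
  · exact x054_3
  · exact x054_4
  · exact x054_5
  · exact x054_6
  · exact x054_7
  · exact x054_8
  · exact x054_9
  · exact x054_10
  · exact x054_11
  · exact x054_12
  · exact x054_13
  · exact x054_14
  · exact x054_15
  · exact x054_16
  · exact x054_17
  · exact x054_18
  · exact x054_19
  · exact x054_20
  · exact x054_21
  · exact x054_22
  · exact x054_23
  · exact x054_24
  · exact x054_25
  · exact x054_26
  · exact x054_27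
  · exact x054_28
  · exact x054_29

end Pool.Agent.V5helper47.EV
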