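import Pool.Agent.V5helper47.EV.S2

/-! Search, part of the half words. -/

set_option maxRecDepth 1000000

namespace Pool.Agent.V5helper47.EV

open H419R2 Pool.Agent.N911 Pool.Agent.V5helper47.CN

theorem x056_0 : fam (wl [8,5,1,2,16]) 2183 534 = true := by decide +kernel
theorem x056_1 : fam (wl [1,7,5,1,2,15,1]) 88 157 = true := by decide +kernel
theorem x056_2 : fam (wl [1,1,7,2,4,3,1,3]) 679 722 = true := by decide +kernel
theorem x056_3 : fam (wl [2,7,2,4,3,1,2,1]) 1592 1493 = true := by decide +kernel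
theorem x056_4 : fam (wl [1,3,2,1,1,1,4,2,1,1,2]) 102 158 = true := by decide +kernel
theorem x056_5 : fam (wl [4,2,1,1,1,4,2,1,1,1,1]) 2177 995 = true := by decide +kernel
theorem x056_6 : fam (wl [5,1,7,3,1,11]) 1840 626 = true := by decide +kernel
theorem x056_7 : fam (wl [1,4,1,7,3,1,10,1]) 439 731 = true := by decide +kernel
theorem x056_8 : fam (wl [2,2,1,1,1,1,3,3,1,4]) 393 330 = true := by decide +kernel
theorem x056_9 : fam (wl [1,10,1,1,2,3,5,2]) 874 1598 = true := by decide +kernel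
theorem x056_10 : fam (wl [11,1,1,2,3,5,1,1]) 1407 243 = true := by decide +kernel
theorem x056_11 : fam (wl [1,1,2,1,1,1,1,3,3,1,3,1]) 1888 2193 = true := by decide +kernel
theorem x056_12 : fam (wl [1,3,1,5,1,12,1,1,2]) 1701 2702 = true := by decide +kernel
theorem x056_13 : fam (wl [4,1,5,1,12,1,1,1,1]) 584 241 = true := by decide +kernel
theorem x056_14 : fam (wl [5,3,2,2,1,1,10]) 291 110 = true := by decide +kernel
theorem x056_15 : fam (wl [1,4,3,2,2,1,1,9,1]) 2004 3253 = true := by decide +kernel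
theorem x056_16 : fam (wl [1,26,1,2,13,2]) 511 986 = true := by decide +kernel
theorem x056_17 : fam (wl [27,1,2,13,1,1]) 1784 129 = true := by decide +kernel
theorem x056_18 : fam (wl [2,6,1,2,1,2,3,4]) 2172 2022 = true := by decide +kernel
theorem x056_19 : fam (wl [2,13,2,1,6,4]) 782 754 = true := by decide +kernel
theorem x056_20 : fam (wl [1,1,13,2,1,6,3,1]) 1515 1571 = true := by decide +kernel
theorem x056_21 : fam (wl [1,1,6,1,2,1,2,3,3,1]) 125 135 = true := by decide +kernel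
theorem x056_22 : fam (wl [2,8,1,1,3,4,4]) 675 638 = true := by decide +kernel
theorem x056_23 : fam (wl [1,2,10,1,21,1,2]) 1704 2306 = true := by decide +kernel
theorem x056_24 : fam (wl [3,10,1,21,1,1,1]) 597 387 = true := by decide +kernel
theorem x056_25 : fam (wl [1,1,8,1,1,3,4,3,1]) 1626 1717 = true := by decide +kernel
theorem x056_26 : fam (wl [4,6,1,2,3,8]) 170 82 = true := by decide +kernel
theorem x056_27 : fam (wl [2,2,1,6,3,2,1,4]) 1111 946 = true := by decide +kernel
theorem x056_28 : fam (wl [1,1,2,1,6,3,2,1,3,1]) 1194 1373 = true := by decide +kernel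
theorem x056_29 : fam (wl [1,3,6,1,2,3,7,1]) 2135 3243 = true := by decide +kernel
/-- words with first entry from 2273 to 2309 -/
def L056 : List (List ℕ × ℕ × ℕ) := [([8,5,1,2,16],2183,534), ([1,7,5,1,2,15,1],88,157), ([1,1,7,2,4,3,1,3],679,722), ([2,7,2,4,3,1,2,1],1592,1493), ([1,3,2,1,1,1,4,2,1,1,2],102,158), ([4,2,1,1,1,4,2,1,1,1,1],2177,995), ([5,1,7,3,1,11],1840,626), ([1,4,1,7,3,1,10,1],439,731), ([2,2,1,1,1,1,3,3,1,4],393,330), ([1,10,1,1,2,3,5,2],874,1598), ([11,1,1,2,3,5,1,1],1407,243), ([1,1,2,1,1,1,1,3,3,1,3,1],1888,2193), ([1,3,1,5,1,12,1,1,2],1701,2702), ([4,1,5,1,12,1,1,1,1],584,241), ([5,3,2,2,1,1,10],291,110), ([1,4,3,2,2,1,1,9,1],2004,3253), ([1,26,1,2,13,2],511,986), ([27,1,2,13,1,1],1784,129), ([2,6,1,2,1,2,3,4],2172,2022), ([2,13,2,1,6,4],782,754), ([1,1,13,2,1,6,3,1],1515,1571), ([1,1,6,1,2,1,2,3,3,1],125,135), ([2,8,1,1,3,4,4],675,638), ([1,2,10,1,21,1,2],1704,2306), ([3,10,1,21,1,1,1],597,387), ([1,1,8,1,1,3,4,3,1],1626,1717), ([4,6,1,2,3,8],170,82),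 ([2,2,1,6,3,2,1,4],1111,946), ([1,1,2,1,6,3,2,1,3,1],1194,1373), ([1,3,6,1,2,3,7,1],2135,3243)]
theorem r056 : rgV L056 2273 19 = true := by decide +kernel
theorem f056 : ∀ p ∈ L056, fam (wl p.1) p.2.1 p.2.2 = true := by
  intro p hp
  simp only [L056, List.mem_cons, List.not_mem_nil, or_false] at hp
  rcases hp with rfl | rfl | rfl | rfl | rfl | rfl | rfl | rfl | rfl | rfl | rfl | rfl | rfl | rfl | rfl | rfl | rfl | rfl | rfl | rfl | rfl | rfl | rfl | rfl | rfl | rfl | rfl | rfl | rfl | rfl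
  · exact x056_0
  · exact x056_1
  · exact x056_2
  · exact x056_3
  · exact x056_4
  · exact x056_5
  · exact x056_6
  · exact x056_7
  · exact x056_8
  · exact x056_9
  · exact x056_10
  · exact x056_11
  · exact x056_12
  · exact x056_13
  · exact x056_14
  · exact x056_15
  · exact x056_16
  · exact x056_17
  · exact x056_18
  · exact x056_19
  · exact x056_20
  · exact x056_21
  · exact x056_22
  · exact x056_23
  · exact x056_24
  · exact x056_25
  · exact x056_26
  · exact x056_27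
  · exact x056_28
  · exact x056_29

end Pool.Agent.V5helper47.EV
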