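import Pool.Agent.V5helper47.EV.S2

/-! Search, part of the half words. -/

set_option maxRecDepth 1000000

namespace Pool.Agent.V5helper47.EV

open H419R2 Pool.Agent.N911 Pool.Agent.V5helper47.CN

theorem x057_0 : fam (wl [33,1,67]) 2277 134 = true := by decide +kernel
theorem x057_1 : fam (wl [1,32,1,66,1]) 32 65 = true := by decide +kernel
theorem x057_2 : fam (wl [34,68]) 34 2 = true := by decide +kernel
theorem x057_3 : fam (wl [5,5,2,1,2,10]) 337 130 = true := by decide +kernel
theorem x057_4 : fam (wl [1,4,5,2,1,2,9,1]) 1974 3189 = true := by decide +kernel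
theorem x057_5 : fam (wl [1,33,67,1]) 2277 4423 = true := by decide +kernel
theorem x057_6 : fam (wl [19,1,2,39]) 177 18 = true := by decide +kernel
theorem x057_7 : fam (wl [1,2,11,22,1,2]) 1376 1862 = true := by decide +kernel
theorem x057_8 : fam (wl [3,11,22,1,1,1]) 943 611 = true := by decide +kernel
theorem x057_9 : fam (wl [1,18,1,2,38,1]) 2142 4069 = true := by decide +kernel
theorem x057_10 : fam (wl [6,7,1,3,12]) 1097 358 = true := by decide +kernel
theorem x057_11 : fam (wl [1,1,5,2,1,5,2,1,3]) 2150 2334 = true := by decide +kernel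
theorem x057_12 : fam (wl [2,5,2,1,5,2,1,2,1]) 177 163 = true := by decide +kernel
theorem x057_13 : fam (wl [1,5,7,1,3,11,1]) 1230 2061 = true := by decide +kernel
theorem x057_14 : fam (wl [2,1,1,3,2,1,7,5]) 1172 914 = true := by decide +kernel
theorem x057_15 : fam (wl [2,3,3,1,2,1,1,1,1,4]) 1132 982 = true := by decide +kernel
theorem x057_16 : fam (wl [1,1,3,3,1,2,1,1,1,1,3,1]) 1195 1355 = true := by decide +kernel
theorem x057_17 : fam (wl [1,1,1,1,3,2,1,7,4,1]) 1155 1411 = true := by decide +kernel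
theorem x057_18 : fam (wl [7,1,5,2,1,15]) 494 126 = true := by decide +kernel
theorem x057_19 : fam (wl [2,7,1,1,3,1,3,4]) 616 578 = true := by decide +kernel
theorem x057_20 : fam (wl [1,3,1,6,13,1,1,2]) 1532 2434 = true := by decide +kernel
theorem x057_21 : fam (wl [1,6,2,1,2,5,3,2]) 681 1178 = true := by decide +kernel
theorem x057_22 : fam (wl [7,2,1,2,5,3,1,1]) 1654 449 = true := by decide +kernel
theorem x057_23 : fam (wl [4,1,6,13,1,1,1,1]) 803 331 = true := by decide +kernel
theorem x057_24 : fam (wl [1,1,7,1,1,3,1,3,3,1]) 1719 1827 = true := by decide +kernel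
theorem x057_25 : fam (wl [1,6,1,5,2,1,14,1]) 1841 3215 = true := by decide +kernel
theorem x057_26 : fam (wl [8,3,2,1,1,16]) 58 14 = true := by decide +kernel
theorem x057_27 : fam (wl [1,7,3,2,1,1,15,1]) 2279 4011 = true := by decide +kernel
theorem x057_28 : fam (wl [6,1,1,2,5,13]) 112 34 = true := by decide +kernel
theorem x057_29 : fam (wl [1,5,1,1,2,5,12,1]) 2233 3791 = true := by decide +kernel
/-- words with first entry from 2311 to 2349 -/
def L057 : List (List ℕ × ℕ × ℕ) := [([33,1,67],2277,134), ([1,32,1,66,1],32,65), ([34,68],34,2), ([5,5,2,1,2,10],337,130), ([1,4,5,2,1,2,9,1],1974,3189), ([1,33,67,1],2277,4423), ([19,1,2,39],177,18), ([1,2,11,22,1,2],1376,1862), ([3,11,22,1,1,1],943,611), ([1,18,1,2,38,1],2142,4069), ([6,7,1,3,12],1097,358), ([1,1,5,2,1,5,2,1,3],2150,2334), ([2,5,2,1,5,2,1,2,1],177,163), ([1,5,7,1,3,11,1],1230,2061), ([2,1,1,3,2,1,7,5],1172,914), ([2,3,3,1,2,1,1,1,1,4],1132,982), ([1,1,3,3,1,2,1,1,1,1,3,1],1195,1355), ([1,1,1,1,3,2,1,7,4,1],1155,1411),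 ([7,1,5,2,1,15],494,126), ([2,7,1,1,3,1,3,4],616,578), ([1,3,1,6,13,1,1,2],1532,2434), ([1,6,2,1,2,5,3,2],681,1178), ([7,2,1,2,5,3,1,1],1654,449), ([4,1,6,13,1,1,1,1],803,331), ([1,1,7,1,1,3,1,3,3,1],1719,1827), ([1,6,1,5,2,1,14,1],1841,3215), ([8,3,2,1,1,16],58,14), ([1,7,3,2,1,1,15,1],2279,4011), ([6,1,1,2,5,13],112,34), ([1,5,1,1,2,5,12,1],2233,3791)]
theorem r057 : rgV L057 2311 20 = true := by decide +kernel
theorem f057 : ∀ p ∈ L057, fam (wl p.1) p.2.1 p.2.2 = true := by
  intro p hp
  simp only [L057, List.mem_cons, List.not_mem_nil, or_false] at hp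
  rcases hp with rfl | rfl | rfl | rfl | rfl | rfl | rfl | rfl | rfl | rfl | rfl | rfl | rfl | rfl | rfl | rfl | rfl | rfl | rfl | rfl | rfl | rfl | rfl | rfl | rfl | rfl | rfl | rfl | rfl | rfl
  · exact x057_0
  · exact x057_1
  · exact x057_2
  · exact x057_3
  · exact x057_4
  · exact x057_5
  · exact x057_6
  · exact x057_7
  · exact x057_8
  · exact x057_9
  · exact x057_10
  · exact x057_11
  · exact x057_12
  · exact x057_13
  · exact x057_14
  · exact x057_15
  · exact x057_16
  · exact x057_17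
  · exact x057_18
  · exact x057_19
  · exact x057_20
  · exact x057_21
  · exact x057_22
  · exact x057_23
  · exact x057_24
  · exact x057_25
  · exact x057_26
  · exact x057_27
  · exact x057_28
  · exact x057_29

end Pool.Agent.V5helper47.EV
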