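import Pool.Agent.V5helper47.EV.S2

/-! Search, part of the half words. -/

set_option maxRecDepth 1000000

namespace Pool.Agent.V5helper47.EV

open H419R2 Pool.Agent.N911 Pool.Agent.V5helper47.CN

theorem x058_0 : fam (wl [4,1,8,1,3,1,9]) 2346 958 = true := by decide +kernel
theorem x058_1 : fam (wl [1,3,1,8,1,3,1,8,1]) 3 7 = true := by decide +kernel
theorem x058_2 : fam (wl [3,1,1,1,3,1,1,3,7]) 1831 1006 = true := by decide +kernel
theorem x058_3 : fam (wl [1,6,1,1,2,2,3,3,2]) 238 414 = true := by decide +kernel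
theorem x058_4 : fam (wl [7,1,1,2,2,3,3,1,1]) 2119 559 = true := by decide +kernel
theorem x058_5 : fam (wl [1,2,1,1,1,3,1,1,3,6,1]) 526 765 = true := by decide +kernel
theorem x058_6 : fam (wl [5,2,1,2,1,2,1,10]) 1937 722 = true := by decide +kernel
theorem x058_7 : fam (wl [1,5,1,4,9,1,2,2]) 887 1514 = true := by decide +kernel
theorem x058_8 : fam (wl [6,1,4,9,1,2,1,1]) 1472 433 = true := by decide +kernel
theorem x058_9 : fam (wl [1,4,2,1,2,1,2,1,9,1]) 422 689 = true := by decide +kernel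
theorem x058_10 : fam (wl [10,2,1,2,1,20]) 1254 242 = true := by decide +kernel
theorem x058_11 : fam (wl [1,5,2,3,1,1,2,1,2,2]) 86 146 = true := by decide +kernel
theorem x058_12 : fam (wl [6,2,3,1,1,2,1,2,1,1]) 2275 707 = true := by decide +kernel
theorem x058_13 : fam (wl [1,9,2,1,2,1,19,1]) 1107 2003 = true := by decide +kernel
theorem x058_14 : fam (wl [4,11,1,5,8]) 731 358 = true := by decide +kernel
theorem x058_15 : fam (wl [1,7,1,2,1,6,1,3,2]) 1507 2670 = true := by decide +kernel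
theorem x058_16 : fam (wl [8,1,2,1,6,1,3,1,1]) 860 197 = true := by decide +kernel
theorem x058_17 : fam (wl [1,3,11,1,5,7,1]) 1636 2473 = true := by decide +kernel
theorem x058_18 : fam (wl [1,1,4,5,2,1,1,1,1,3]) 1028 1138 = true := by decide +kernel
theorem x058_19 : fam (wl [2,4,5,2,1,1,1,1,2,1]) 1341 1199 = true := by decide +kernel
theorem x058_20 : fam (wl [1,17,2,2,1,8,2]) 819 1550 = true := by decide +kernel
theorem x058_21 : fam (wl [18,2,2,1,8,1,1]) 1556 169 = true := by decide +kernel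
theorem x058_22 : fam (wl [2,5,2,2,2,1,2,4]) 2344 2146 = true := by decide +kernel
theorem x058_23 : fam (wl [1,1,5,2,2,2,1,2,3,1]) 31 35 = true := by decide +kernel
theorem x058_24 : fam (wl [3,15,1,7,6]) 640 418 = true := by decide +kernel
theorem x058_25 : fam (wl [1,2,15,1,7,5,1]) 1741 2347 = true := by decide +kernel
theorem x058_26 : fam (wl [2,23,1,11,4]) 1721 1686 = true := by decide +kernel
theorem x058_27 : fam (wl [1,1,23,1,11,3,1]) 670 685 = true := by decide +kernel
theorem x058_28 : fam (wl [2,3,1,3,7,1,1,4]) 981 866 = true := by decide +kernel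
theorem x058_29 : fam (wl [1,1,3,1,3,7,1,1,3,1]) 1410 1577 = true := by decide +kernel
/-- words with first entry from 2351 to 2397 -/
def L058 : List (List ℕ × ℕ × ℕ) := [([4,1,8,1,3,1,9],2346,958), ([1,3,1,8,1,3,1,8,1],3,7), ([3,1,1,1,3,1,1,3,7],1831,1006), ([1,6,1,1,2,2,3,3,2],238,414), ([7,1,1,2,2,3,3,1,1],2119,559), ([1,2,1,1,1,3,1,1,3,6,1],526,765), ([5,2,1,2,1,2,1,10],1937,722), ([1,5,1,4,9,1,2,2],887,1514), ([6,1,4,9,1,2,1,1],1472,433), ([1,4,2,1,2,1,2,1,9,1],422,689), ([10,2,1,2,1,20],1254,242), ([1,5,2,3,1,1,2,1,2,2],86,146), ([6,2,3,1,1,2,1,2,1,1],2275,707), ([1,9,2,1,2,1,19,1],1107,2003), ([4,11,1,5,8],731,358), ([1,7,1,2,1,6,1,3,2],1507,2670), ([8,1,2,1,6,1,3,1,1],860,197), ([1,3,11,1,5,7,1],1636,2473), ([1,1,4,5,2,1,1,1,1,3],1028,1138), ([2,4,5,2,1,1,1,1,2,1],1341,1199), ([1,17,2,2,1,8,2],819,1550), ([18,2,2,1,8,1,1],1556,169), ([2,5,2,2,2,1,2,4],2344,2146), ([1,1,5,2,2,2,1,2,3,1],31,35), ([3,15,1,7,6],640,418), ([1,2,15,1,7,5,1],1741,2347),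 ([2,23,1,11,4],1721,1686), ([1,1,23,1,11,3,1],670,685), ([2,3,1,3,7,1,1,4],981,866), ([1,1,3,1,3,7,1,1,3,1],1410,1577)]
theorem r058 : rgV L058 2351 24 = true := by decide +kernel
theorem f058 : ∀ p ∈ L058, fam (wl p.1) p.2.1 p.2.2 = true := by
  intro p hp
  simp only [L058, List.mem_cons, List.not_mem_nil, or_false] at hp
  rcases hp with rfl | rfl | rfl | rfl | rfl | rfl | rfl | rfl | rfl | rfl | rfl | rfl | rfl | rfl | rfl | rfl | rfl | rfl | rfl | rfl | rfl | rfl | rfl | rfl | rfl | rfl | rfl | rfl | rfl | rfl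
  · exact x058_0
  · exact x058_1
  · exact x058_2
  · exact x058_3
  · exact x058_4
  · exact x058_5
  · exact x058_6
  · exact x058_7
  · exact x058_8
  · exact x058_9
  · exact x058_10
  · exact x058_11
  · exact x058_12
  · exact x058_13
  · exact x058_14
  · exact x058_15
  · exact x058_16
  · exact x058_17
  · exact x058_18
  · exact x058_19
  · exact x058_20
  · exact x058_21
  · exact x058_22
  · exact x058_23
  · exact x058_24
  · exact x058_25
  · exact x058_26
  · exact x058_27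
  · exact x058_28
  · exact x058_29

end Pool.Agent.V5helper47.EV
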