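import Pool.Agent.V5helper47.EV.S2

/-! Search, part of the half words. -/

set_option maxRecDepth 1000000

namespace Pool.Agent.V5helper47.EV

open H419R2 Pool.Agent.N911 Pool.Agent.V5helper47.CN

theorem x059_0 : fam (wl [1,47,1,23,2]) 611 1198 = true := by decide +kernel
theorem x059_1 : fam (wl [48,1,23,1,1]) 1786 73 = true := by decide +kernel
theorem x059_2 : fam (wl [1,9,4,1,1,1,1,4,2]) 750 1354 = true := by decide +kernel
theorem x059_3 : fam (wl [10,4,1,1,1,1,4,1,1]) 1649 323 = true := by decide +kernel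
theorem x059_4 : fam (wl [1,2,6,2,1,12,1,2]) 1608 2198 = true := by decide +kernel
theorem x059_5 : fam (wl [1,48,24,2]) 1789 3506 = true := by decide +kernel
theorem x059_6 : fam (wl [49,24,1,1]) 612 25 = true := by decide +kernel
theorem x059_7 : fam (wl [3,6,2,1,12,1,1,1]) 793 503 = true := by decide +kernel
theorem x059_8 : fam (wl [3,2,1,4,2,2,1,6]) 2278 1358 = true := by decide +kernel
theorem x059_9 : fam (wl [2,24,12,4]) 1880 1842 = true := by decide +kernel
theorem x059_10 : fam (wl [1,5,2,1,1,3,2,1,2,2]) 1063 1794 = true := by decide +kernel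
theorem x059_11 : fam (wl [1,27,2,1,13,2]) 1742 3362 = true := by decide +kernel
theorem x059_12 : fam (wl [28,2,1,13,1,1]) 665 47 = true := by decide +kernel
theorem x059_13 : fam (wl [6,2,1,1,3,2,1,2,1,1]) 1344 421 = true := by decide +kernel
theorem x059_14 : fam (wl [1,1,24,12,3,1]) 527 539 = true := by decide +kernel
theorem x059_15 : fam (wl [1,2,2,1,4,2,2,1,5,1]) 129 183 = true := by decide +kernel
theorem x059_16 : fam (wl [1,1,13,1,2,6,1,3]) 1439 1490 = true := by decide +kernel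
theorem x059_17 : fam (wl [2,13,1,2,6,1,2,1]) 970 937 = true := by decide +kernel
theorem x059_18 : fam (wl [1,1,1,3,1,2,2,8,3]) 1545 1982 = true := by decide +kernel
theorem x059_19 : fam (wl [2,1,3,1,2,2,8,2,1]) 870 625 = true := by decide +kernel
theorem x059_20 : fam (wl [2,1,4,3,1,1,1,1,1,5]) 531 378 = true := by decide +kernel
theorem x059_21 : fam (wl [1,1,1,4,3,1,1,1,1,1,4,1]) 1884 2429 = true := by decide +kernel
theorem x059_22 : fam (wl [3,1,6,2,1,2,1,7]) 1163 602 = true := by decide +kernel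
theorem x059_23 : fam (wl [3,16,8,6]) 156 102 = true := by decide +kernel
theorem x059_24 : fam (wl [1,2,16,8,5,1]) 2261 3047 = true := by decide +kernel
theorem x059_25 : fam (wl [1,2,1,6,2,1,2,1,6,1]) 1254 1861 = true := by decide +kernel
theorem x059_26 : fam (wl [3,3,1,1,1,4,1,1,6]) 1804 1102 = true := by decide +kernel
theorem x059_27 : fam (wl [1,2,3,1,1,1,4,1,1,5,1]) 617 859 = true := by decide +kernel
/-- words with first entry from 2399 to 2425 -/
def L059 : List (List ℕ × ℕ × ℕ) := [([1,47,1,23,2],611,1198), ([48,1,23,1,1],1786,73), ([1,9,4,1,1,1,1,4,2],750,1354), ([10,4,1,1,1,1,4,1,1],1649,323), ([1,2,6,2,1,12,1,2],1608,2198), ([1,48,24,2],1789,3506), ([49,24,1,1],612,25), ([3,6,2,1,12,1,1,1],793,503), ([3,2,1,4,2,2,1,6],2278,1358), ([2,24,12,4],1880,1842), ([1,5,2,1,1,3,2,1,2,2],1063,1794), ([1,27,2,1,13,2],1742,3362), ([28,2,1,13,1,1],665,47), ([6,2,1,1,3,2,1,2,1,1],1344,421), ([1,1,24,12,3,1],527,539), ([1,2,2,1,4,2,2,1,5,1],129,183), ([1,1,13,1,2,6,1,3],1439,1490),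 ([2,13,1,2,6,1,2,1],970,937), ([1,1,1,3,1,2,2,8,3],1545,1982), ([2,1,3,1,2,2,8,2,1],870,625), ([2,1,4,3,1,1,1,1,1,5],531,378), ([1,1,1,4,3,1,1,1,1,1,4,1],1884,2429), ([3,1,6,2,1,2,1,7],1163,602), ([3,16,8,6],156,102), ([1,2,16,8,5,1],2261,3047), ([1,2,1,6,2,1,2,1,6,1],1254,1861), ([3,3,1,1,1,4,1,1,6],1804,1102), ([1,2,3,1,1,1,4,1,1,5,1],617,859)]
theorem r059 : rgV L059 2399 14 = true := by decide +kernel
theorem f059 : ∀ p ∈ L059, fam (wl p.1) p.2.1 p.2.2 = true := by
  intro p hp
  simp only [L059, List.mem_cons, List.not_mem_nil, or_false] at hp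
  rcases hp with rfl | rfl | rfl | rfl | rfl | rfl | rfl | rfl | rfl | rfl | rfl | rfl | rfl | rfl | rfl | rfl | rfl | rfl | rfl | rfl | rfl | rfl | rfl | rfl | rfl | rfl | rfl | rfl
  · exact x059_0
  · exact x059_1
  · exact x059_2
  · exact x059_3
  · exact x059_4
  · exact x059_5
  · exact x059_6
  · exact x059_7
  · exact x059_8
  · exact x059_9
  · exact x059_10
  · exact x059_11
  · exact x059_12
  · exact x059_13
  · exact x059_14
  · exact x059_15
  · exact x059_16
  · exact x059_17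
  · exact x059_18
  · exact x059_19
  · exact x059_20
  · exact x059_21
  · exact x059_22
  · exact x059_23
  · exact x059_24
  · exact x059_25
  · exact x059_26
  · exact x059_27

end Pool.Agent.V5helper47.EV
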