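import Pool.Agent.V5helper47.EV.S2

/-! Search, part of the half words. -/

set_option maxRecDepth 1000000

namespace Pool.Agent.V5helper47.EV

open H419R2 Pool.Agent.N911 Pool.Agent.V5helper47.CN

theorem x060_0 : fam (wl [4,1,1,1,1,2,4,9]) 429 186 = true := by decide +kernel
theorem x060_1 : fam (wl [1,7,1,1,2,1,3,1,3,2]) 698 1234 = true := by decide +kernel
theorem x060_2 : fam (wl [8,1,1,2,1,3,1,3,1,1]) 1727 403 = true := by decide +kernel
theorem x060_3 : fam (wl [1,3,1,1,1,1,2,4,8,1]) 1996 3129 = true := by decide +kernel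
theorem x060_4 : fam (wl [4,12,6,8]) 2290 1122 = true := by decide +kernel
theorem x060_5 : fam (wl [1,10,3,6,5,2]) 2019 3682 = true := by decide +kernel
theorem x060_6 : fam (wl [11,3,6,5,1,1]) 412 73 = true := by decide +kernel
theorem x060_7 : fam (wl [1,3,12,6,7,1]) 141 215 = true := by decide +kernel
theorem x060_8 : fam (wl [1,1,1,10,1,22,3]) 2080 2734 = true := by decide +kernel
theorem x060_9 : fam (wl [2,1,10,1,22,2,1]) 359 247 = true := by decide +kernel
theorem x060_10 : fam (wl [2,2,1,3,2,1,1,2,1,4]) 937 794 = true := by decide +kernel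
theorem x060_11 : fam (wl [1,1,2,1,3,2,1,1,2,1,3,1]) 1502 1733 = true := by decide +kernel
theorem x060_12 : fam (wl [1,3,4,2,2,1,1,1,1,1,2]) 2089 3190 = true := by decide +kernel
theorem x060_13 : fam (wl [4,4,2,2,1,1,1,1,1,1,1]) 356 169 = true := by decide +kernel
theorem x060_14 : fam (wl [34,1,69]) 2414 138 = true := by decide +kernel
theorem x060_15 : fam (wl [2,1,5,1,1,3,2,1,5]) 1193 838 = true := by decide +kernel
theorem x060_16 : fam (wl [1,1,1,5,1,1,3,2,1,4,1]) 1254 1629 = true := by decide +kernel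
theorem x060_17 : fam (wl [1,33,1,68,1]) 33 67 = true := by decide +kernel
theorem x060_18 : fam (wl [35,70]) 35 2 = true := by decide +kernel
theorem x060_19 : fam (wl [4,1,9,4,1,9]) 495 202 = true := by decide +kernel
theorem x060_20 : fam (wl [1,1,1,3,4,2,7,3]) 509 650 = true := by decide +kernel
theorem x060_21 : fam (wl [1,6,1,2,1,2,1,2,3,2]) 1039 1810 = true := by decide +kernel
theorem x060_22 : fam (wl [7,1,2,1,2,1,2,3,1,1]) 1410 365 = true := by decide +kernel
theorem x060_23 : fam (wl [2,1,3,4,2,7,2,1]) 1940 1405 = true := by decide +kernel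
theorem x060_24 : fam (wl [1,3,1,9,4,1,8,1]) 1954 3113 = true := by decide +kernel
theorem x060_25 : fam (wl [1,34,69,1]) 2414 4693 = true := by decide +kernel
theorem x060_26 : fam (wl [1,1,1,11,23,3]) 1182 1554 = true := by decide +kernel
theorem x060_27 : fam (wl [2,1,11,23,2,1]) 1275 875 = true := by decide +kernel
theorem x060_28 : fam (wl [1,15,1,1,3,1,7,2]) 1514 2846 = true := by decide +kernel
theorem x060_29 : fam (wl [16,1,1,3,1,7,1,1]) 951 115 = true := by decide +kernel
/-- words with first entry from 2427 to 2469 -/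
def L060 : List (List ℕ × ℕ × ℕ) := [([4,1,1,1,1,2,4,9],429,186), ([1,7,1,1,2,1,3,1,3,2],698,1234), ([8,1,1,2,1,3,1,3,1,1],1727,403), ([1,3,1,1,1,1,2,4,8,1],1996,3129), ([4,12,6,8],2290,1122), ([1,10,3,6,5,2],2019,3682), ([11,3,6,5,1,1],412,73), ([1,3,12,6,7,1],141,215), ([1,1,1,10,1,22,3],2080,2734), ([2,1,10,1,22,2,1],359,247), ([2,2,1,3,2,1,1,2,1,4],937,794), ([1,1,2,1,3,2,1,1,2,1,3,1],1502,1733), ([1,3,4,2,2,1,1,1,1,1,2],2089,3190), ([4,4,2,2,1,1,1,1,1,1,1],356,169), ([34,1,69],2414,138), ([2,1,5,1,1,3,2,1,5],1193,838), ([1,1,1,5,1,1,3,2,1,4,1],1254,1629), ([1,33,1,68,1],33,67), ([35,70],35,2), ([4,1,9,4,1,9],495,202), ([1,1,1,3,4,2,7,3],509,650), ([1,6,1,2,1,2,1,2,3,2],1039,1810), ([7,1,2,1,2,1,2,3,1,1],1410,365), ([2,1,3,4,2,7,2,1],1940,1405), ([1,3,1,9,4,1,8,1],1954,3113), ([1,34,69,1],2414,4693), ([1,1,1,11,23,3],1182,1554), ([2,1,11,23,2,1],1275,875), ([1,15,1,1,3,1,7,2],1514,2846), ([16,1,1,3,1,7,1,1],951,115)]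
theorem r060 : rgV L060 2427 22 = true := by decide +kernel
theorem f060 : ∀ p ∈ L060, fam (wl p.1) p.2.1 p.2.2 = true := by
  intro p hp
  simp only [L060, List.mem_cons, List.not_mem_nil, or_false] at hp
  rcases hp with rfl | rfl | rfl | rfl | rfl | rfl | rfl | rfl | rfl | rfl | rfl | rfl | rfl | rfl | rfl | rfl | rfl | rfl | rfl | rfl | rfl | rfl | rfl | rfl | rfl | rfl | rfl | rfl | rfl | rfl
  · exact x060_0
  · exact x060_1
  · exact x060_2
  · exact x060_3
  · exact x060_4
  · exact x060_5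
  · exact x060_6
  · exact x060_7
  · exact x060_8
  · exact x060_9
  · exact x060_10
  · exact x060_11
  · exact x060_12
  · exact x060_13
  · exact x060_14
  · exact x060_15
  · exact x060_16
  · exact x060_17
  · exact x060_18
  · exact x060_19
  · exact x060_20
  · exact x060_21
  · exact x060_22
  · exact x060_23
  · exact x060_24
  · exact x060_25
  · exact x060_26
  · exact x060_27
  · exact x060_28
  · exact x060_29

end Pool.Agent.V5helper47.EV
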