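import Pool.Agent.V5helper47.EV.S2

/-! Search, part of the half words. -/

set_option maxRecDepth 1000000

namespace Pool.Agent.V5helper47.EV

open H419R2 Pool.Agent.N911 Pool.Agent.V5helper47.CN

theorem x061_0 : fam (wl [13,3,1,1,26]) 1820 274 = true := by decide +kernel
theorem x061_1 : fam (wl [2,1,3,2,1,5,1,1,5]) 2324 1678 = true := by decide +kernel
theorem x061_2 : fam (wl [1,1,1,3,2,1,5,1,1,4,1]) 145 187 = true := by decide +kernel
theorem x061_3 : fam (wl [1,12,3,1,1,25,1]) 649 1203 = true := by decide +kernel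
theorem x061_4 : fam (wl [1,1,1,2,5,1,2,5,3]) 457 574 = true := by decide +kernel
theorem x061_5 : fam (wl [2,1,2,5,1,2,5,2,1]) 2014 1501 = true := by decide +kernel
theorem x061_6 : fam (wl [6,8,4,12]) 1720 562 = true := by decide +kernel
theorem x061_7 : fam (wl [1,5,8,4,11,1]) 751 1259 = true := by decide +kernel
theorem x061_8 : fam (wl [20,2,1,40]) 183 18 = true := by decide +kernel
theorem x061_9 : fam (wl [1,1,1,1,1,1,2,5,4,3]) 92 114 = true := by decide +kernel
theorem x061_10 : fam (wl [2,1,1,1,1,2,5,4,2,1]) 2387 1827 = true := by decide +kernel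
theorem x061_11 : fam (wl [1,19,2,1,39,1]) 2296 4369 = true := by decide +kernel
theorem x061_12 : fam (wl [10,1,1,1,3,21]) 1287 242 = true := by decide +kernel
theorem x061_13 : fam (wl [2,2,3,1,2,7,1,4]) 2052 1682 = true := by decide +kernel
theorem x061_14 : fam (wl [1,1,2,3,1,2,7,1,3,1]) 435 515 = true := by decide +kernel
theorem x061_15 : fam (wl [1,9,1,1,1,3,20,1]) 1200 2177 = true := by decide +kernel
theorem x061_16 : fam (wl [11,1,3,1,1,23]) 954 162 = true := by decide +kernel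
theorem x061_17 : fam (wl [3,1,1,2,2,1,5,7]) 1295 722 = true := by decide +kernel
theorem x061_18 : fam (wl [1,2,1,1,2,2,1,5,6,1]) 1200 1733 = true := by decide +kernel
theorem x061_19 : fam (wl [1,10,1,3,1,1,22,1]) 1541 2823 = true := by decide +kernel
theorem x061_20 : fam (wl [2,3,6,1,2,1,1,1,4]) 1833 1582 = true := by decide +kernel
theorem x061_21 : fam (wl [1,1,3,6,1,2,1,1,1,3,1]) 668 761 = true := by decide +kernel
theorem x061_22 : fam (wl [7,2,1,1,3,1,14]) 1116 302 = true := by decide +kernel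
theorem x061_23 : fam (wl [2,3,2,2,2,2,1,1,4]) 2217 1934 = true := by decide +kernel
theorem x061_24 : fam (wl [1,1,3,2,2,2,2,1,1,3,1]) 294 333 = true := by decide +kernel
theorem x061_25 : fam (wl [1,6,2,1,1,3,1,13,1]) 1395 2415 = true := by decide +kernel
theorem x061_26 : fam (wl [2,2,2,3,1,1,4,1,4]) 2475 2054 = true := by decide +kernel
theorem x061_27 : fam (wl [1,1,2,2,3,1,1,4,1,3,1]) 44 53 = true := by decide +kernel
theorem x061_28 : fam (wl [1,1,5,1,1,2,3,2,1,3]) 2079 2250 = true := by decide +kernel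
theorem x061_29 : fam (wl [2,5,1,1,2,3,2,1,2,1]) 440 405 = true := by decide +kernel
/-- words with first entry from 2471 to 2527 -/
def L061 : List (List ℕ × ℕ × ℕ) := [([13,3,1,1,26],1820,274), ([2,1,3,2,1,5,1,1,5],2324,1678), ([1,1,1,3,2,1,5,1,1,4,1],145,187), ([1,12,3,1,1,25,1],649,1203), ([1,1,1,2,5,1,2,5,3],457,574), ([2,1,2,5,1,2,5,2,1],2014,1501), ([6,8,4,12],1720,562), ([1,5,8,4,11,1],751,1259), ([20,2,1,40],183,18), ([1,1,1,1,1,1,2,5,4,3],92,114), ([2,1,1,1,1,2,5,4,2,1],2387,1827), ([1,19,2,1,39,1],2296,4369), ([10,1,1,1,3,21],1287,242), ([2,2,3,1,2,7,1,4],2052,1682), ([1,1,2,3,1,2,7,1,3,1],435,515), ([1,9,1,1,1,3,20,1],1200,2177), ([11,1,3,1,1,23],954,162), ([3,1,1,2,2,1,5,7],1295,722), ([1,2,1,1,2,2,1,5,6,1],1200,1733), ([1,10,1,3,1,1,22,1],1541,2823), ([2,3,6,1,2,1,1,1,4],1833,1582), ([1,1,3,6,1,2,1,1,1,3,1],668,761), ([7,2,1,1,3,1,14],1116,302), ([2,3,2,2,2,2,1,1,4],2217,1934), ([1,1,3,2,2,2,2,1,1,3,1],294,333), ([1,6,2,1,1,3,1,13,1],1395,2415),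 ([2,2,2,3,1,1,4,1,4],2475,2054), ([1,1,2,2,3,1,1,4,1,3,1],44,53), ([1,1,5,1,1,2,3,2,1,3],2079,2250), ([2,5,1,1,2,3,2,1,2,1],440,405)]
theorem r061 : rgV L061 2471 29 = true := by decide +kernel
theorem f061 : ∀ p ∈ L061, fam (wl p.1) p.2.1 p.2.2 = true := by
  intro p hp
  simp only [L061, List.mem_cons, List.not_mem_nil, or_false] at hp
  rcases hp with rfl | rfl | rfl | rfl | rfl | rfl | rfl | rfl | rfl | rfl | rfl | rfl | rfl | rfl | rfl | rfl | rfl | rfl | rfl | rfl | rfl | rfl | rfl | rfl | rfl | rfl | rfl | rfl | rfl | rfl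
  · exact x061_0
  · exact x061_1
  · exact x061_2
  · exact x061_3
  · exact x061_4
  · exact x061_5
  · exact x061_6
  · exact x061_7
  · exact x061_8
  · exact x061_9
  · exact x061_10
  · exact x061_11
  · exact x061_12
  · exact x061_13
  · exact x061_14
  · exact x061_15
  · exact x061_16
  · exact x061_17
  · exact x061_18
  · exact x061_19
  · exact x061_20
  · exact x061_21
  · exact x061_22
  · exact x061_23
  · exact x061_24
  · exact x061_25
  · exact x061_26
  · exact x061_27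
  · exact x061_28
  · exact x061_29

end Pool.Agent.V5helper47.EV
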