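import Pool.Agent.V5helper47.EV.S2

/-! Search, part of the half words. -/

set_option maxRecDepth 1000000

namespace Pool.Agent.V5helper47.EV

open H419R2 Pool.Agent.N911 Pool.Agent.V5helper47.CN

theorem x062_0 : fam (wl [8,6,3,16]) 416 102 = true := by decide +kernel
theorem x062_1 : fam (wl [3,9,2,1,4,6]) 208 134 = true := by decide +kernel
theorem x062_2 : fam (wl [1,2,9,2,1,4,5,1]) 2319 3147 = true := by decide +kernel
theorem x062_3 : fam (wl [1,7,6,3,15,1]) 2111 3707 = true := by decide +kernel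
theorem x062_4 : fam (wl [1,7,1,3,7,1,3,2]) 2044 3622 = true := by decide +kernel
theorem x062_5 : fam (wl [8,1,3,7,1,3,1,1]) 485 111 = true := by decide +kernel
theorem x062_6 : fam (wl [3,1,3,2,4,1,1,7]) 1997 1058 = true := by decide +kernel
theorem x062_7 : fam (wl [3,4,1,2,1,2,2,6]) 382 238 = true := by decide +kernel
theorem x062_8 : fam (wl [1,2,4,1,2,1,2,2,5,1]) 2153 2967 = true := by decide +kernel
theorem x062_9 : fam (wl [1,2,1,3,2,4,1,1,6,1]) 538 793 = true := by decide +kernel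
theorem x062_10 : fam (wl [4,1,2,1,1,3,2,9]) 99 42 = true := by decide +kernel
theorem x062_11 : fam (wl [1,3,1,2,1,1,3,2,8,1]) 2438 3845 = true := by decide +kernel
theorem x062_12 : fam (wl [1,6,4,1,9,3,2]) 2416 4162 = true := by decide +kernel
theorem x062_13 : fam (wl [7,4,1,9,3,1,1]) 125 35 = true := by decide +kernel
theorem x062_14 : fam (wl [6,4,1,2,2,12]) 1671 538 = true := by decide +kernel
theorem x062_15 : fam (wl [2,1,1,1,1,3,1,1,4,5]) 2111 1618 = true := by decide +kernel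
theorem x062_16 : fam (wl [1,1,1,1,1,1,3,1,1,4,4,1]) 434 537 = true := by decide +kernel
theorem x062_17 : fam (wl [1,5,4,1,2,2,11,1]) 874 1469 = true := by decide +kernel
theorem x062_18 : fam (wl [5,9,1,4,10]) 505 198 = true := by decide +kernel
theorem x062_19 : fam (wl [1,4,9,1,4,9,1]) 2044 3289 = true := by decide +kernel
theorem x062_20 : fam (wl [20,1,2,41]) 186 18 = true := by decide +kernel
theorem x062_21 : fam (wl [1,3,2,5,2,1,2,1,1,2]) 37 58 = true := by decide +kernel
theorem x062_22 : fam (wl [4,2,5,2,1,2,1,1,1,1]) 2524 1133 = true := by decide +kernel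
theorem x062_23 : fam (wl [1,19,1,2,40,1]) 2375 4523 = true := by decide +kernel
theorem x062_24 : fam (wl [2,4,1,3,1,1,2,2,4]) 1217 1102 = true := by decide +kernel
theorem x062_25 : fam (wl [1,4,6,1,13,2,2]) 1190 1918 = true := by decide +kernel
theorem x062_26 : fam (wl [5,6,1,13,2,1,1]) 1375 535 = true := by decide +kernel
theorem x062_27 : fam (wl [1,1,4,1,3,1,1,2,2,3,1]) 1348 1477 = true := by decide +kernel
/-- words with first entry from 2529 to 2567 -/
def L062 : List (List ℕ × ℕ × ℕ) := [([8,6,3,16],416,102), ([3,9,2,1,4,6],208,134), ([1,2,9,2,1,4,5,1],2319,3147), ([1,7,6,3,15,1],2111,3707), ([1,7,1,3,7,1,3,2],2044,3622), ([8,1,3,7,1,3,1,1],485,111), ([3,1,3,2,4,1,1,7],1997,1058), ([3,4,1,2,1,2,2,6],382,238), ([1,2,4,1,2,1,2,2,5,1],2153,2967), ([1,2,1,3,2,4,1,1,6,1],538,793), ([4,1,2,1,1,3,2,9],99,42), ([1,3,1,2,1,1,3,2,8,1],2438,3845), ([1,6,4,1,9,3,2],2416,4162), ([7,4,1,9,3,1,1],125,35), ([6,4,1,2,2,12],1671,538), ([2,1,1,1,1,3,1,1,4,5],2111,1618),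 ([1,1,1,1,1,1,3,1,1,4,4,1],434,537), ([1,5,4,1,2,2,11,1],874,1469), ([5,9,1,4,10],505,198), ([1,4,9,1,4,9,1],2044,3289), ([20,1,2,41],186,18), ([1,3,2,5,2,1,2,1,1,2],37,58), ([4,2,5,2,1,2,1,1,1,1],2524,1133), ([1,19,1,2,40,1],2375,4523), ([2,4,1,3,1,1,2,2,4],1217,1102), ([1,4,6,1,13,2,2],1190,1918), ([5,6,1,13,2,1,1],1375,535), ([1,1,4,1,3,1,1,2,2,3,1],1348,1477)]
theorem r062 : rgV L062 2529 20 = true := by decide +kernel
theorem f062 : ∀ p ∈ L062, fam (wl p.1) p.2.1 p.2.2 = true := by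
  intro p hp
  simp only [L062, List.mem_cons, List.not_mem_nil, or_false] at hp
  rcases hp with rfl | rfl | rfl | rfl | rfl | rfl | rfl | rfl | rfl | rfl | rfl | rfl | rfl | rfl | rfl | rfl | rfl | rfl | rfl | rfl | rfl | rfl | rfl | rfl | rfl | rfl | rfl | rfl
  · exact x062_0
  · exact x062_1
  · exact x062_2
  · exact x062_3
  · exact x062_4
  · exact x062_5
  · exact x062_6
  · exact x062_7
  · exact x062_8
  · exact x062_9
  · exact x062_10
  · exact x062_11
  · exact x062_12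
  · exact x062_13
  · exact x062_14
  · exact x062_15
  · exact x062_16
  · exact x062_17
  · exact x062_18
  · exact x062_19
  · exact x062_20
  · exact x062_21
  · exact x062_22
  · exact x062_23
  · exact x062_24
  · exact x062_25
  · exact x062_26
  · exact x062_27

end Pool.Agent.V5helper47.EV
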