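import Pool.Agent.V5helper47.EV.S2

/-! Search, part of the half words. -/

set_option maxRecDepth 1000000

namespace Pool.Agent.V5helper47.EV

open H419R2 Pool.Agent.N911 Pool.Agent.V5helper47.CN

theorem x063_0 : fam (wl [2,5,1,1,1,4,1,2,4]) 1957 1798 = true := by decide +kernel
theorem x063_1 : fam (wl [1,2,1,11,1,5,2,1,2]) 1013 1510 = true := by decide +kernel
theorem x063_2 : fam (wl [3,1,11,1,5,2,1,1,1]) 1554 793 = true := by decide +kernel
theorem x063_3 : fam (wl [1,1,5,1,1,1,4,1,2,3,1]) 610 661 = true := by decide +kernel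
theorem x063_4 : fam (wl [1,1,5,3,6,2,1,3]) 2300 2498 = true := by decide +kernel
theorem x063_5 : fam (wl [1,3,1,3,2,1,7,1,1,2]) 841 1330 = true := by decide +kernel
theorem x063_6 : fam (wl [4,1,3,2,1,7,1,1,1,1]) 1728 725 = true := by decide +kernel
theorem x063_7 : fam (wl [2,5,3,6,2,1,2,1]) 269 247 = true := by decide +kernel
theorem x063_8 : fam (wl [8,1,2,2,2,17]) 2516 578 = true := by decide +kernel
theorem x063_9 : fam (wl [1,3,1,1,2,1,2,1,3,1,1,2]) 1370 2142 = true := by decide +kernel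
theorem x063_10 : fam (wl [4,1,1,2,1,2,1,3,1,1,1,1]) 1205 527 = true := by decide +kernel
theorem x063_11 : fam (wl [1,7,1,2,2,2,16,1]) 59 107 = true := by decide +kernel
theorem x063_12 : fam (wl [1,1,3,2,1,2,5,1,1,3]) 44 50 = true := by decide +kernel
theorem x063_13 : fam (wl [2,3,2,1,2,5,1,1,2,1]) 2533 2207 = true := by decide +kernel
theorem x063_14 : fam (wl [35,1,71]) 2555 142 = true := by decide +kernel
theorem x063_15 : fam (wl [1,34,1,70,1]) 34 69 = true := by decide +kernel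
theorem x063_16 : fam (wl [1,1,24,1,11,1,3]) 241 246 = true := by decide +kernel
theorem x063_17 : fam (wl [2,24,1,11,1,2,1]) 2350 2305 = true := by decide +kernel
theorem x063_18 : fam (wl [36,72]) 36 2 = true := by decide +kernel
theorem x063_19 : fam (wl [1,35,71,1]) 2555 4971 = true := by decide +kernel
theorem x063_20 : fam (wl [4,4,1,1,3,2,8]) 907 430 = true := by decide +kernel
theorem x063_21 : fam (wl [1,49,1,24,2]) 1961 3846 = true := by decide +kernel
theorem x063_22 : fam (wl [50,1,24,1,1]) 636 25 = true := by decide +kernel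
theorem x063_23 : fam (wl [1,3,4,1,1,3,2,7,1]) 1690 2581 = true := by decide +kernel
theorem x063_24 : fam (wl [4,1,2,3,1,1,2,9]) 737 314 = true := by decide +kernel
theorem x063_25 : fam (wl [1,8,1,4,2,2,4,2]) 161 290 = true := by decide +kernel
theorem x063_26 : fam (wl [9,1,4,2,2,4,1,1]) 2438 497 = true := by decide +kernel
theorem x063_27 : fam (wl [1,3,1,2,3,1,1,2,8,1]) 1862 2933 = true := by decide +kernel
/-- words with first entry from 2569 to 2601 -/
def L063 : List (List ℕ × ℕ × ℕ) := [([2,5,1,1,1,4,1,2,4],1957,1798), ([1,2,1,11,1,5,2,1,2],1013,1510), ([3,1,11,1,5,2,1,1,1],1554,793), ([1,1,5,1,1,1,4,1,2,3,1],610,661), ([1,1,5,3,6,2,1,3],2300,2498), ([1,3,1,3,2,1,7,1,1,2],841,1330), ([4,1,3,2,1,7,1,1,1,1],1728,725), ([2,5,3,6,2,1,2,1],269,247), ([8,1,2,2,2,17],2516,578), ([1,3,1,1,2,1,2,1,3,1,1,2],1370,2142), ([4,1,1,2,1,2,1,3,1,1,1,1],1205,527), ([1,7,1,2,2,2,16,1],59,107), ([1,1,3,2,1,2,5,1,1,3],44,50), ([2,3,2,1,2,5,1,1,2,1],2533,2207), ([35,1,71],2555,142),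 ([1,34,1,70,1],34,69), ([1,1,24,1,11,1,3],241,246), ([2,24,1,11,1,2,1],2350,2305), ([36,72],36,2), ([1,35,71,1],2555,4971), ([4,4,1,1,3,2,8],907,430), ([1,49,1,24,2],1961,3846), ([50,1,24,1,1],636,25), ([1,3,4,1,1,3,2,7,1],1690,2581), ([4,1,2,3,1,1,2,9],737,314), ([1,8,1,4,2,2,4,2],161,290), ([9,1,4,2,2,4,1,1],2438,497), ([1,3,1,2,3,1,1,2,8,1],1862,2933)]
theorem r063 : rgV L063 2569 17 = true := by decide +kernel
theorem f063 : ∀ p ∈ L063, fam (wl p.1) p.2.1 p.2.2 = true := by
  intro p hp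
  simp only [L063, List.mem_cons, List.not_mem_nil, or_false] at hp
  rcases hp with rfl | rfl | rfl | rfl | rfl | rfl | rfl | rfl | rfl | rfl | rfl | rfl | rfl | rfl | rfl | rfl | rfl | rfl | rfl | rfl | rfl | rfl | rfl | rfl | rfl | rfl | rfl | rfl
  · exact x063_0
  · exact x063_1
  · exact x063_2
  · exact x063_3
  · exact x063_4
  · exact x063_5
  · exact x063_6
  · exact x063_7
  · exact x063_8
  · exact x063_9
  · exact x063_10
  · exact x063_11
  · exact x063_12
  · exact x063_13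
  · exact x063_14
  · exact x063_15
  · exact x063_16
  · exact x063_17
  · exact x063_18
  · exact x063_19
  · exact x063_20
  · exact x063_21
  · exact x063_22
  · exact x063_23
  · exact x063_24
  · exact x063_25
  · exact x063_26
  · exact x063_27

end Pool.Agent.V5helper47.EV
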