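import Pool.Agent.V5helper47.EV.S2

/-! Search, part of the half words. -/

set_option maxRecDepth 1000000

namespace Pool.Agent.V5helper47.EV

open H419R2 Pool.Agent.N911 Pool.Agent.V5helper47.CN

theorem x064_0 : fam (wl [5,1,1,1,2,1,3,11]) 1662 590 = true := by decide +kernel
theorem x064_1 : fam (wl [1,50,25,2]) 637 1250 = true := by decide +kernel
theorem x064_2 : fam (wl [51,25,1,1]) 1964 77 = true := by decide +kernel
theorem x064_3 : fam (wl [1,4,1,1,1,2,1,3,10,1]) 939 1547 = true := by decide +kernel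
theorem x064_4 : fam (wl [3,3,4,1,1,1,1,1,6]) 76 46 = true := by decide +kernel
theorem x064_5 : fam (wl [1,2,3,4,1,1,1,1,1,5,1]) 2531 3535 = true := by decide +kernel
theorem x064_6 : fam (wl [1,1,25,12,1,3]) 1061 1082 = true := by decide +kernel
theorem x064_7 : fam (wl [2,25,12,1,2,1]) 1546 1517 = true := by decide +kernel
theorem x064_8 : fam (wl [1,2,1,2,2,1,5,1,2,1,2]) 1700 2482 = true := by decide +kernel
theorem x064_9 : fam (wl [3,1,2,2,1,5,1,2,1,1,1]) 915 495 = true := by decide +kernel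
theorem x064_10 : fam (wl [1,4,7,14,2,2]) 2449 3946 = true := by decide +kernel
theorem x064_11 : fam (wl [5,7,14,2,1,1]) 166 65 = true := by decide +kernel
theorem x064_12 : fam (wl [1,3,2,1,2,5,2,1,1,2]) 1090 1682 = true := by decide +kernel
theorem x064_13 : fam (wl [1,11,2,2,2,1,5,2]) 2376 4370 = true := by decide +kernel
theorem x064_14 : fam (wl [12,2,2,2,1,5,1,1]) 241 39 = true := by decide +kernel
theorem x064_15 : fam (wl [4,2,1,2,5,2,1,1,1,1]) 1527 699 = true := by decide +kernel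
theorem x064_16 : fam (wl [13,1,2,2,27]) 1961 286 = true := by decide +kernel
theorem x064_17 : fam (wl [1,12,1,2,2,26,1]) 670 1245 = true := by decide +kernel
theorem x064_18 : fam (wl [1,2,1,12,6,2,1,2]) 935 1394 = true := by decide +kernel
theorem x064_19 : fam (wl [3,1,12,6,2,1,1,1]) 1696 865 = true := by decide +kernel
theorem x064_20 : fam (wl [1,6,5,10,3,2]) 1262 2174 = true := by decide +kernel
theorem x064_21 : fam (wl [1,28,1,2,14,2]) 1913 3698 = true := by decide +kernel
theorem x064_22 : fam (wl [29,1,2,14,1,1]) 726 49 = true := by decide +kernel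
theorem x064_23 : fam (wl [7,5,10,3,1,1]) 1377 383 = true := by decide +kernel
theorem x064_24 : fam (wl [1,1,14,2,1,6,1,3]) 586 606 = true := by decide +kernel
theorem x064_25 : fam (wl [1,4,2,4,2,4,2,2]) 1762 2878 = true := by decide +kernel
theorem x064_26 : fam (wl [5,2,4,2,4,2,1,1]) 879 323 = true := by decide +kernel
theorem x064_27 : fam (wl [2,14,2,1,6,1,2,1]) 2055 1987 = true := by decide +kernel
theorem x064_28 : fam (wl [8,1,4,1,1,1,17]) 97 22 = true := by decide +kernel
theorem x064_29 : fam (wl [1,7,1,4,1,1,1,16,1]) 2548 4521 = true := by decide +kernel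
/-- words with first entry from 2603 to 2647 -/
def L064 : List (List ℕ × ℕ × ℕ) := [([5,1,1,1,2,1,3,11],1662,590), ([1,50,25,2],637,1250), ([51,25,1,1],1964,77), ([1,4,1,1,1,2,1,3,10,1],939,1547), ([3,3,4,1,1,1,1,1,6],76,46), ([1,2,3,4,1,1,1,1,1,5,1],2531,3535), ([1,1,25,12,1,3],1061,1082), ([2,25,12,1,2,1],1546,1517), ([1,2,1,2,2,1,5,1,2,1,2],1700,2482), ([3,1,2,2,1,5,1,2,1,1,1],915,495), ([1,4,7,14,2,2],2449,3946), ([5,7,14,2,1,1],166,65), ([1,3,2,1,2,5,2,1,1,2],1090,1682), ([1,11,2,2,2,1,5,2],2376,4370), ([12,2,2,2,1,5,1,1],241,39), ([4,2,1,2,5,2,1,1,1,1],1527,699), ([13,1,2,2,27],1961,286), ([1,12,1,2,2,26,1],670,1245), ([1,2,1,12,6,2,1,2],935,1394), ([3,1,12,6,2,1,1,1],1696,865), ([1,6,5,10,3,2],1262,2174), ([1,28,1,2,14,2],1913,3698), ([29,1,2,14,1,1],726,49), ([7,5,10,3,1,1],1377,383), ([1,1,14,2,1,6,1,3],586,606), ([1,4,2,4,2,4,2,2],1762,2878), ([5,2,4,2,4,2,1,1],879,323), ([2,14,2,1,6,1,2,1],2055,1987), ([8,1,4,1,1,1,17],97,22), ([1,7,1,4,1,1,1,16,1],2548,4521)]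
theorem r064 : rgV L064 2603 23 = true := by decide +kernel
theorem f064 : ∀ p ∈ L064, fam (wl p.1) p.2.1 p.2.2 = true := by
  intro p hp
  simp only [L064, List.mem_cons, List.not_mem_nil, or_false] at hp
  rcases hp with rfl | rfl | rfl | rfl | rfl | rfl | rfl | rfl | rfl | rfl | rfl | rfl | rfl | rfl | rfl | rfl | rfl | rfl | rfl | rfl | rfl | rfl | rfl | rfl | rfl | rfl | rfl | rfl | rfl | rfl
  · exact x064_0
  · exact x064_1
  · exact x064_2
  · exact x064_3
  · exact x064_4
  · exact x064_5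
  · exact x064_6
  · exact x064_7
  · exact x064_8
  · exact x064_9
  · exact x064_10
  · exact x064_11
  · exact x064_12
  · exact x064_13
  · exact x064_14
  · exact x064_15
  · exact x064_16
  · exact x064_17
  · exact x064_18
  · exact x064_19
  · exact x064_20
  · exact x064_21
  · exact x064_22
  · exact x064_23
  · exact x064_24
  · exact x064_25
  · exact x064_26
  · exact x064_27
  · exact x064_28
  · exact x064_29

end Pool.Agent.V5helper47.EV
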