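import Pool.Agent.V5helper47.EV.S2

/-! Search, part of the half words. -/

set_option maxRecDepth 1000000

namespace Pool.Agent.V5helper47.EV

open H419R2 Pool.Agent.N911 Pool.Agent.V5helper47.CN

theorem x065_0 : fam (wl [1,1,1,6,2,1,13,3]) 1464 1906 = true := by decide +kernel
theorem x065_1 : fam (wl [1,2,6,1,2,13,1,2]) 1478 2018 = true := by decide +kernel
theorem x065_2 : fam (wl [3,6,1,2,13,1,1,1]) 1169 743 = true := by decide +kernel
theorem x065_3 : fam (wl [2,1,6,2,1,13,2,1]) 1183 827 = true := by decide +kernel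
theorem x065_4 : fam (wl [5,10,5,10]) 5 2 = true := by decide +kernel
theorem x065_5 : fam (wl [1,2,1,6,1,2,3,2,1,2]) 837 1242 = true := by decide +kernel
theorem x065_6 : fam (wl [3,1,6,1,2,3,2,1,1,1]) 1812 937 = true := by decide +kernel
theorem x065_7 : fam (wl [1,4,10,5,9,1]) 2644 4253 = true := by decide +kernel
theorem x065_8 : fam (wl [1,8,3,1,7,4,2]) 1559 2782 = true := by decide +kernel
theorem x065_9 : fam (wl [9,3,1,7,4,1,1]) 1096 237 = true := by decide +kernel
theorem x065_10 : fam (wl [1,1,1,1,5,2,1,2,3,3]) 898 1090 = true := by decide +kernel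
theorem x065_11 : fam (wl [2,1,1,5,2,1,2,3,2,1]) 1757 1383 = true := by decide +kernel
theorem x065_12 : fam (wl [2,7,3,1,1,1,3,4]) 190 178 = true := by decide +kernel
theorem x065_13 : fam (wl [1,1,7,3,1,1,1,3,3,1]) 2467 2627 = true := by decide +kernel
theorem x065_14 : fam (wl [7,1,1,1,1,4,15]) 1301 342 = true := by decide +kernel
theorem x065_15 : fam (wl [1,6,1,1,1,1,4,14,1]) 1360 2365 = true := by decide +kernel
theorem x065_16 : fam (wl [5,1,2,2,2,2,11]) 1090 382 = true := by decide +kernel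
theorem x065_17 : fam (wl [1,4,1,2,2,2,2,10,1]) 1579 2607 = true := by decide +kernel
theorem x065_18 : fam (wl [1,2,1,1,3,1,2,1,1,3,1,2]) 1147 1650 = true := by decide +kernel
theorem x065_19 : fam (wl [1,2,1,3,1,1,3,1,1,2,1,2]) 2364 3478 = true := by decide +kernel
theorem x065_20 : fam (wl [3,1,3,1,1,3,1,1,2,1,1,1]) 307 163 = true := by decide +kernel
theorem x065_21 : fam (wl [3,1,1,3,1,2,1,1,3,1,1,1]) 1524 857 = true := by decide +kernel
theorem x065_22 : fam (wl [2,1,1,1,5,1,2,3,5]) 2551 1926 = true := by decide +kernel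
theorem x065_23 : fam (wl [1,18,1,1,3,9,2]) 909 1726 = true := by decide +kernel
theorem x065_24 : fam (wl [19,1,1,3,9,1,1]) 1770 181 = true := by decide +kernel
theorem x065_25 : fam (wl [1,1,1,1,1,5,1,2,3,4,1]) 128 161 = true := by decide +kernel
theorem x065_26 : fam (wl [1,1,1,2,3,2,1,1,5,3]) 103 130 = true := by decide +kernel
theorem x065_27 : fam (wl [2,1,2,3,2,1,1,5,2,1]) 2578 1913 = true := by decide +kernel
theorem x065_28 : fam (wl [1,2,4,3,1,1,8,1,2]) 1666 2302 = true := by decide +kernel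
theorem x065_29 : fam (wl [3,4,3,1,1,8,1,1,1]) 1019 631 = true := by decide +kernel
/-- words with first entry from 2649 to 2687 -/
def L065 : List (List ℕ × ℕ × ℕ) := [([1,1,1,6,2,1,13,3],1464,1906), ([1,2,6,1,2,13,1,2],1478,2018), ([3,6,1,2,13,1,1,1],1169,743), ([2,1,6,2,1,13,2,1],1183,827), ([5,10,5,10],5,2), ([1,2,1,6,1,2,3,2,1,2],837,1242), ([3,1,6,1,2,3,2,1,1,1],1812,937), ([1,4,10,5,9,1],2644,4253), ([1,8,3,1,7,4,2],1559,2782), ([9,3,1,7,4,1,1],1096,237), ([1,1,1,1,5,2,1,2,3,3],898,1090), ([2,1,1,5,2,1,2,3,2,1],1757,1383), ([2,7,3,1,1,1,3,4],190,178), ([1,1,7,3,1,1,1,3,3,1],2467,2627), ([7,1,1,1,1,4,15],1301,342), ([1,6,1,1,1,1,4,14,1],1360,2365), ([5,1,2,2,2,2,11],1090,382), ([1,4,1,2,2,2,2,10,1],1579,2607), ([1,2,1,1,3,1,2,1,1,3,1,2],1147,1650), ([1,2,1,3,1,1,3,1,1,2,1,2],2364,3478), ([3,1,3,1,1,3,1,1,2,1,1,1],307,163), ([3,1,1,3,1,2,1,1,3,1,1,1],1524,857), ([2,1,1,1,5,1,2,3,5],2551,1926), ([1,18,1,1,3,9,2],909,1726), ([19,1,1,3,9,1,1],1770,181),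 ([1,1,1,1,1,5,1,2,3,4,1],128,161), ([1,1,1,2,3,2,1,1,5,3],103,130), ([2,1,2,3,2,1,1,5,2,1],2578,1913), ([1,2,4,3,1,1,8,1,2],1666,2302), ([3,4,3,1,1,8,1,1,1],1019,631)]
theorem r065 : rgV L065 2649 20 = true := by decide +kernel
theorem f065 : ∀ p ∈ L065, fam (wl p.1) p.2.1 p.2.2 = true := by
  intro p hp
  simp only [L065, List.mem_cons, List.not_mem_nil, or_false] at hp
  rcases hp with rfl | rfl | rfl | rfl | rfl | rfl | rfl | rfl | rfl | rfl | rfl | rfl | rfl | rfl | rfl | rfl | rfl | rfl | rfl | rfl | rfl | rfl | rfl | rfl | rfl | rfl | rfl | rfl | rfl | rfl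
  · exact x065_0
  · exact x065_1
  · exact x065_2
  · exact x065_3
  · exact x065_4
  · exact x065_5
  · exact x065_6
  · exact x065_7
  · exact x065_8
  · exact x065_9
  · exact x065_10
  · exact x065_11
  · exact x065_12
  · exact x065_13
  · exact x065_14
  · exact x065_15
  · exact x065_16
  · exact x065_17
  · exact x065_18
  · exact x065_19
  · exact x065_20
  · exact x065_21
  · exact x065_22
  · exact x065_23
  · exact x065_24
  · exact x065_25
  · exact x065_26
  · exact x065_27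
  · exact x065_28
  · exact x065_29

end Pool.Agent.V5helper47.EV
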