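import Pool.Agent.V5helper47.EV.S2

/-! Search, part of the half words. -/

set_option maxRecDepth 1000000

namespace Pool.Agent.V5helper47.EV

open H419R2 Pool.Agent.N911 Pool.Agent.V5helper47.CN

theorem x066_0 : fam (wl [1,1,3,4,1,9,1,1,3]) 368 418 = true := by decide +kernel
theorem x066_1 : fam (wl [2,3,4,1,9,1,1,2,1]) 2319 2007 = true := by decide +kernel
theorem x066_2 : fam (wl [12,4,2,24]) 990 162 = true := by decide +kernel
theorem x066_3 : fam (wl [1,11,4,2,23,1]) 1697 3119 = true := by decide +kernel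
theorem x066_4 : fam (wl [2,3,7,3,1,1,1,4]) 336 290 = true := by decide +kernel
theorem x066_5 : fam (wl [1,1,3,7,3,1,1,1,3,1]) 2361 2687 = true := by decide +kernel
theorem x066_6 : fam (wl [1,2,3,2,1,2,1,6,1,2]) 2355 3282 = true := by decide +kernel
theorem x066_7 : fam (wl [3,3,2,1,2,1,6,1,1,1]) 350 213 = true := by decide +kernel
theorem x066_8 : fam (wl [1,2,1,1,6,1,2,1,3,1,2]) 266 382 = true := by decide +kernel
theorem x066_9 : fam (wl [3,1,1,6,1,2,1,3,1,1,1]) 2443 1383 = true := by decide +kernel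
theorem x066_10 : fam (wl [2,2,6,1,13,1,4]) 2148 1742 = true := by decide +kernel
theorem x066_11 : fam (wl [1,1,2,6,1,13,1,3,1]) 563 671 = true := by decide +kernel
theorem x066_12 : fam (wl [2,1,3,3,6,1,1,5]) 2627 1898 = true := by decide +kernel
theorem x066_13 : fam (wl [1,1,1,3,3,6,1,1,4,1]) 84 109 = true := by decide +kernel
theorem x066_14 : fam (wl [1,11,1,1,1,4,1,5,2]) 233 430 = true := by decide +kernel
theorem x066_15 : fam (wl [12,1,1,1,4,1,5,1,1]) 2484 393 = true := by decide +kernel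
theorem x066_16 : fam (wl [3,1,2,2,2,2,2,7]) 960 518 = true := by decide +kernel
theorem x066_17 : fam (wl [1,14,1,2,1,2,7,2]) 1564 2930 = true := by decide +kernel
theorem x066_18 : fam (wl [15,1,2,1,2,7,1,1]) 1155 147 = true := by decide +kernel
theorem x066_19 : fam (wl [1,2,1,2,2,2,2,2,6,1]) 1759 2571 = true := by decide +kernel
theorem x066_20 : fam (wl [1,2,11,1,23,1,2]) 1413 1910 = true := by decide +kernel
theorem x066_21 : fam (wl [3,11,1,23,1,1,1]) 1314 853 = true := by decide +kernel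
theorem x066_22 : fam (wl [1,1,1,2,6,3,5,3]) 1200 1506 = true := by decide +kernel
theorem x066_23 : fam (wl [2,1,2,6,3,5,2,1]) 1527 1139 = true := by decide +kernel
theorem x066_24 : fam (wl [21,2,1,42]) 192 18 = true := by decide +kernel
theorem x066_25 : fam (wl [1,20,2,1,41,1]) 2537 4839 = true := by decide +kernel
/-- words with first entry from 2689 to 2735 -/
def L066 : List (List ℕ × ℕ × ℕ) := [([1,1,3,4,1,9,1,1,3],368,418), ([2,3,4,1,9,1,1,2,1],2319,2007), ([12,4,2,24],990,162), ([1,11,4,2,23,1],1697,3119), ([2,3,7,3,1,1,1,4],336,290), ([1,1,3,7,3,1,1,1,3,1],2361,2687), ([1,2,3,2,1,2,1,6,1,2],2355,3282), ([3,3,2,1,2,1,6,1,1,1],350,213), ([1,2,1,1,6,1,2,1,3,1,2],266,382), ([3,1,1,6,1,2,1,3,1,1,1],2443,1383), ([2,2,6,1,13,1,4],2148,1742), ([1,1,2,6,1,13,1,3,1],563,671), ([2,1,3,3,6,1,1,5],2627,1898), ([1,1,1,3,3,6,1,1,4,1],84,109), ([1,11,1,1,1,4,1,5,2],233,430), ([12,1,1,1,4,1,5,1,1],2484,393), ([3,1,2,2,2,2,2,7],960,518), ([1,14,1,2,1,2,7,2],1564,2930),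 ([15,1,2,1,2,7,1,1],1155,147), ([1,2,1,2,2,2,2,2,6,1],1759,2571), ([1,2,11,1,23,1,2],1413,1910), ([3,11,1,23,1,1,1],1314,853), ([1,1,1,2,6,3,5,3],1200,1506), ([2,1,2,6,3,5,2,1],1527,1139), ([21,2,1,42],192,18), ([1,20,2,1,41,1],2537,4839)]
theorem r066 : rgV L066 2689 24 = true := by decide +kernel
theorem f066 : ∀ p ∈ L066, fam (wl p.1) p.2.1 p.2.2 = true := by
  intro p hp
  simp only [L066, List.mem_cons, List.not_mem_nil, or_false] at hp
  rcases hp with rfl | rfl | rfl | rfl | rfl | rfl | rfl | rfl | rfl | rfl | rfl | rfl | rfl | rfl | rfl | rfl | rfl | rfl | rfl | rfl | rfl | rfl | rfl | rfl | rfl | rfl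
  · exact x066_0
  · exact x066_1
  · exact x066_2
  · exact x066_3
  · exact x066_4
  · exact x066_5
  · exact x066_6
  · exact x066_7
  · exact x066_8
  · exact x066_9
  · exact x066_10
  · exact x066_11
  · exact x066_12
  · exact x066_13
  · exact x066_14
  · exact x066_15
  · exact x066_16
  · exact x066_17
  · exact x066_18
  · exact x066_19
  · exact x066_20
  · exact x066_21
  · exact x066_22
  · exact x066_23
  · exact x066_24
  · exact x066_25

end Pool.Agent.V5helper47.EV
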