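import Pool.Agent.V5helper47.EV.S2

/-! Search, part of the half words. -/

set_option maxRecDepth 1000000

namespace Pool.Agent.V5helper47.EV

open H419R2 Pool.Agent.N911 Pool.Agent.V5helper47.CN

theorem x067_0 : fam (wl [36,1,73]) 2700 146 = true := by decide +kernel
theorem x067_1 : fam (wl [1,1,3,1,1,2,2,3,1,1,3]) 169 190 = true := by decide +kernel
theorem x067_2 : fam (wl [1,1,2,1,1,3,1,1,3,2,3]) 947 1102 = true := by decide +kernel
theorem x067_3 : fam (wl [1,4,1,7,1,3,2,2,2]) 1656 2750 = true := by decide +kernel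
theorem x067_4 : fam (wl [5,1,7,1,3,2,2,1,1]) 1079 367 = true := by decide +kernel
theorem x067_5 : fam (wl [2,2,1,1,3,1,1,3,2,2,1]) 1788 1497 = true := by decide +kernel
theorem x067_6 : fam (wl [2,3,1,1,2,2,3,1,1,2,1]) 2566 2253 = true := by decide +kernel
theorem x067_7 : fam (wl [1,35,1,72,1]) 35 71 = true := by decide +kernel
theorem x067_8 : fam (wl [37,74]) 37 2 = true := by decide +kernel
theorem x067_9 : fam (wl [2,1,1,3,1,2,8,5]) 2255 1762 = true := by decide +kernel
theorem x067_10 : fam (wl [1,2,3,1,3,1,1,7,1,2]) 1558 2162 = true := by decide +kernel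
theorem x067_11 : fam (wl [1,16,2,4,8,2]) 1700 3206 = true := by decide +kernel
theorem x067_12 : fam (wl [17,2,4,8,1,1]) 1037 119 = true := by decide +kernel
theorem x067_13 : fam (wl [3,3,1,3,1,1,7,1,1,1]) 1179 723 = true := by decide +kernel
theorem x067_14 : fam (wl [1,1,1,1,3,1,2,8,4,1]) 482 589 = true := by decide +kernel
theorem x067_15 : fam (wl [1,36,73,1]) 2700 5257 = true := by decide +kernel
theorem x067_16 : fam (wl [1,1,2,1,2,2,1,5,2,3]) 1842 2130 = true := by decide +kernel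
theorem x067_17 : fam (wl [1,2,12,24,1,2]) 2239 3026 = true := by decide +kernel
theorem x067_18 : fam (wl [3,12,24,1,1,1]) 506 329 = true := by decide +kernel
theorem x067_19 : fam (wl [2,2,1,2,2,1,5,2,2,1]) 903 763 = true := by decide +kernel
theorem x067_20 : fam (wl [1,1,2,3,1,1,3,1,1,2,3]) 1978 2334 = true := by decide +kernel
theorem x067_21 : fam (wl [2,2,3,1,1,3,1,1,2,2,1]) 773 635 = true := by decide +kernel
theorem x067_22 : fam (wl [2,1,1,1,1,1,1,3,4,5]) 1112 850 = true := by decide +kernel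
theorem x067_23 : fam (wl [1,1,1,1,1,1,1,1,3,4,4,1]) 1639 2027 = true := by decide +kernel
theorem x067_24 : fam (wl [2,9,2,2,1,4,4]) 461 438 = true := by decide +kernel
theorem x067_25 : fam (wl [1,1,1,1,9,1,4,3,3]) 369 446 = true := by decide +kernel
theorem x067_26 : fam (wl [2,1,1,9,1,4,3,2,1]) 2388 1893 = true := by decide +kernel
theorem x067_27 : fam (wl [1,1,9,2,2,1,4,3,1]) 2296 2413 = true := by decide +kernel
/-- words with first entry from 2737 to 2759 -/
def L067 : List (List ℕ × ℕ × ℕ) := [([36,1,73],2700,146), ([1,1,3,1,1,2,2,3,1,1,3],169,190), ([1,1,2,1,1,3,1,1,3,2,3],947,1102), ([1,4,1,7,1,3,2,2,2],1656,2750), ([5,1,7,1,3,2,2,1,1],1079,367), ([2,2,1,1,3,1,1,3,2,2,1],1788,1497), ([2,3,1,1,2,2,3,1,1,2,1],2566,2253), ([1,35,1,72,1],35,71), ([37,74],37,2), ([2,1,1,3,1,2,8,5],2255,1762), ([1,2,3,1,3,1,1,7,1,2],1558,2162), ([1,16,2,4,8,2],1700,3206), ([17,2,4,8,1,1],1037,119), ([3,3,1,3,1,1,7,1,1,1],1179,723), ([1,1,1,1,3,1,2,8,4,1],482,589),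 ([1,36,73,1],2700,5257), ([1,1,2,1,2,2,1,5,2,3],1842,2130), ([1,2,12,24,1,2],2239,3026), ([3,12,24,1,1,1],506,329), ([2,2,1,2,2,1,5,2,2,1],903,763), ([1,1,2,3,1,1,3,1,1,2,3],1978,2334), ([2,2,3,1,1,3,1,1,2,2,1],773,635), ([2,1,1,1,1,1,1,3,4,5],1112,850), ([1,1,1,1,1,1,1,1,3,4,4,1],1639,2027), ([2,9,2,2,1,4,4],461,438), ([1,1,1,1,9,1,4,3,3],369,446), ([2,1,1,9,1,4,3,2,1],2388,1893), ([1,1,9,2,2,1,4,3,1],2296,2413)]
theorem r067 : rgV L067 2737 12 = true := by decide +kernel
theorem f067 : ∀ p ∈ L067, fam (wl p.1) p.2.1 p.2.2 = true := by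
  intro p hp
  simp only [L067, List.mem_cons, List.not_mem_nil, or_false] at hp
  rcases hp with rfl | rfl | rfl | rfl | rfl | rfl | rfl | rfl | rfl | rfl | rfl | rfl | rfl | rfl | rfl | rfl | rfl | rfl | rfl | rfl | rfl | rfl | rfl | rfl | rfl | rfl | rfl | rfl
  · exact x067_0
  · exact x067_1
  · exact x067_2
  · exact x067_3
  · exact x067_4
  · exact x067_5
  · exact x067_6
  · exact x067_7
  · exact x067_8
  · exact x067_9
  · exact x067_10
  · exact x067_11
  · exact x067_12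
  · exact x067_13
  · exact x067_14
  · exact x067_15
  · exact x067_16
  · exact x067_17
  · exact x067_18
  · exact x067_19
  · exact x067_20
  · exact x067_21
  · exact x067_22
  · exact x067_23
  · exact x067_24
  · exact x067_25
  · exact x067_26
  · exact x067_27

end Pool.Agent.V5helper47.EV
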