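import Pool.Agent.V5helper47.EV.S2

/-! Search, part of the half words. -/

set_option maxRecDepth 1000000

namespace Pool.Agent.V5helper47.EV

open H419R2 Pool.Agent.N911 Pool.Agent.V5helper47.CN

theorem x068_0 : fam (wl [3,3,1,2,5,1,1,6]) 1979 1210 = true := by decide +kernel
theorem x068_1 : fam (wl [1,29,2,1,14,2]) 621 1202 = true := by decide +kernel
theorem x068_2 : fam (wl [30,2,1,14,1,1]) 2138 141 = true := by decide +kernel
theorem x068_3 : fam (wl [1,2,3,1,2,5,1,1,5,1]) 780 1085 = true := by decide +kernel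
theorem x068_4 : fam (wl [2,2,7,14,1,4]) 22 18 = true := by decide +kernel
theorem x068_5 : fam (wl [2,14,1,2,7,4]) 250 242 = true := by decide +kernel
theorem x068_6 : fam (wl [1,1,14,1,2,7,3,1]) 2511 2595 = true := by decide +kernel
theorem x068_7 : fam (wl [1,1,2,7,14,1,3,1]) 2739 3259 = true := by decide +kernel
theorem x068_8 : fam (wl [5,2,2,1,5,1,10]) 1850 682 = true := by decide +kernel
theorem x068_9 : fam (wl [1,4,2,2,1,5,1,9,1]) 915 1495 = true := by decide +kernel
theorem x068_10 : fam (wl [4,7,2,1,3,8]) 2196 1062 = true := by decide +kernel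
theorem x068_11 : fam (wl [2,1,3,1,1,2,3,1,1,5]) 470 338 = true := by decide +kernel
theorem x068_12 : fam (wl [1,1,1,3,1,1,2,3,1,1,4,1]) 2299 2947 = true := by decide +kernel
theorem x068_13 : fam (wl [1,3,7,2,1,3,7,1]) 573 871 = true := by decide +kernel
theorem x068_14 : fam (wl [1,3,12,1,5,1,1,1,2]) 1355 2046 = true := by decide +kernel
theorem x068_15 : fam (wl [4,12,1,5,1,1,1,1,1]) 1420 697 = true := by decide +kernel
theorem x068_16 : fam (wl [1,1,2,5,1,2,2,1,2,3]) 271 322 = true := by decide +kernel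
theorem x068_17 : fam (wl [2,2,5,1,2,2,1,2,2,1]) 2504 2037 = true := by decide +kernel
theorem x068_18 : fam (wl [1,1,3,5,10,1,1,3]) 1210 1374 = true := by decide +kernel
theorem x068_19 : fam (wl [1,3,3,1,2,1,2,1,1,1,1,2]) 2195 3362 = true := by decide +kernel
theorem x068_20 : fam (wl [4,3,1,2,1,2,1,1,1,1,1,1]) 590 277 = true := by decide +kernel
theorem x068_21 : fam (wl [2,3,5,10,1,1,2,1]) 1575 1363 = true := by decide +kernel
theorem x068_22 : fam (wl [2,1,16,1,7,1,5]) 1834 1246 = true := by decide +kernel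
theorem x068_23 : fam (wl [1,1,1,16,1,7,1,4,1]) 955 1263 = true := by decide +kernel
theorem x068_24 : fam (wl [2,25,1,12,4]) 964 946 = true := by decide +kernel
theorem x068_25 : fam (wl [1,1,25,1,12,3,1]) 1835 1871 = true := by decide +kernel
theorem x068_26 : fam (wl [1,9,5,2,1,1,4,2]) 1644 2966 = true := by decide +kernel
theorem x068_27 : fam (wl [10,5,2,1,1,4,1,1]) 1155 227 = true := by decide +kernel
theorem x068_28 : fam (wl [1,7,3,1,2,1,1,1,3,2]) 28 50 = true := by decide +kernel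
theorem x068_29 : fam (wl [8,3,1,2,1,1,1,3,1,1]) 2773 671 = true := by decide +kernel
/-- words with first entry from 2761 to 2805 -/
def L068 : List (List ℕ × ℕ × ℕ) := [([3,3,1,2,5,1,1,6],1979,1210), ([1,29,2,1,14,2],621,1202), ([30,2,1,14,1,1],2138,141), ([1,2,3,1,2,5,1,1,5,1],780,1085), ([2,2,7,14,1,4],22,18), ([2,14,1,2,7,4],250,242), ([1,1,14,1,2,7,3,1],2511,2595), ([1,1,2,7,14,1,3,1],2739,3259), ([5,2,2,1,5,1,10],1850,682), ([1,4,2,2,1,5,1,9,1],915,1495), ([4,7,2,1,3,8],2196,1062), ([2,1,3,1,1,2,3,1,1,5],470,338), ([1,1,1,3,1,1,2,3,1,1,4,1],2299,2947), ([1,3,7,2,1,3,7,1],573,871), ([1,3,12,1,5,1,1,1,2],1355,2046), ([4,12,1,5,1,1,1,1,1],1420,697), ([1,1,2,5,1,2,2,1,2,3],271,322), ([2,2,5,1,2,2,1,2,2,1],2504,2037), ([1,1,3,5,10,1,1,3],1210,1374), ([1,3,3,1,2,1,2,1,1,1,1,2],2195,3362), ([4,3,1,2,1,2,1,1,1,1,1,1],590,277), ([2,3,5,10,1,1,2,1],1575,1363), ([2,1,16,1,7,1,5],1834,1246), ([1,1,1,16,1,7,1,4,1],955,1263), ([2,25,1,12,4],964,946), ([1,1,25,1,12,3,1],1835,1871),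 ([1,9,5,2,1,1,4,2],1644,2966), ([10,5,2,1,1,4,1,1],1155,227), ([1,7,3,1,2,1,1,1,3,2],28,50), ([8,3,1,2,1,1,1,3,1,1],2773,671)]
theorem r068 : rgV L068 2761 23 = true := by decide +kernel
theorem f068 : ∀ p ∈ L068, fam (wl p.1) p.2.1 p.2.2 = true := by
  intro p hp
  simp only [L068, List.mem_cons, List.not_mem_nil, or_false] at hp
  rcases hp with rfl | rfl | rfl | rfl | rfl | rfl | rfl | rfl | rfl | rfl | rfl | rfl | rfl | rfl | rfl | rfl | rfl | rfl | rfl | rfl | rfl | rfl | rfl | rfl | rfl | rfl | rfl | rfl | rfl | rfl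
  · exact x068_0
  · exact x068_1
  · exact x068_2
  · exact x068_3
  · exact x068_4
  · exact x068_5
  · exact x068_6
  · exact x068_7
  · exact x068_8
  · exact x068_9
  · exact x068_10
  · exact x068_11
  · exact x068_12
  · exact x068_13
  · exact x068_14
  · exact x068_15
  · exact x068_16
  · exact x068_17
  · exact x068_18
  · exact x068_19
  · exact x068_20
  · exact x068_21
  · exact x068_22
  · exact x068_23
  · exact x068_24
  · exact x068_25
  · exact x068_26
  · exact x068_27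
  · exact x068_28
  · exact x068_29

end Pool.Agent.V5helper47.EV
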