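import Pool.Agent.V5helper47.EV.S2

/-! Search, part of the half words. -/

set_option maxRecDepth 1000000

namespace Pool.Agent.V5helper47.EV

open H419R2 Pool.Agent.N911 Pool.Agent.V5helper47.CN

theorem x069_0 : fam (wl [2,4,3,1,7,2,4]) 373 334 = true := by decide +kernel
theorem x069_1 : fam (wl [1,51,1,25,2]) 714 1402 = true := by decide +kernel
theorem x069_2 : fam (wl [52,1,25,1,1]) 2091 79 = true := by decide +kernel
theorem x069_3 : fam (wl [1,1,4,3,1,7,2,3,1]) 2432 2689 = true := by decide +kernel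
theorem x069_4 : fam (wl [3,5,1,1,3,1,2,6]) 2407 1514 = true := by decide +kernel
theorem x069_5 : fam (wl [1,52,26,2]) 2094 4110 = true := by decide +kernel
theorem x069_6 : fam (wl [53,26,1,1]) 715 27 = true := by decide +kernel
theorem x069_7 : fam (wl [1,2,5,1,1,3,1,2,5,1]) 402 553 = true := by decide +kernel
theorem x069_8 : fam (wl [21,1,2,43]) 195 18 = true := by decide +kernel
theorem x069_9 : fam (wl [2,26,13,4]) 438 430 = true := by decide +kernel
theorem x069_10 : fam (wl [1,1,26,13,3,1]) 2377 2423 = true := by decide +kernel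
theorem x069_11 : fam (wl [1,20,1,2,42,1]) 2620 5001 = true := by decide +kernel
theorem x069_12 : fam (wl [1,8,4,8,4,2]) 2416 4310 = true := by decide +kernel
theorem x069_13 : fam (wl [9,4,8,4,1,1]) 401 87 = true := by decide +kernel
theorem x069_14 : fam (wl [2,1,17,8,1,5]) 1911 1298 = true := by decide +kernel
theorem x069_15 : fam (wl [1,2,2,1,2,2,2,5,1,2]) 2191 3082 = true := by decide +kernel
theorem x069_16 : fam (wl [3,2,1,2,2,2,5,1,1,1]) 634 377 = true := by decide +kernel
theorem x069_17 : fam (wl [1,1,1,17,8,1,4,1]) 914 1209 = true := by decide +kernel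
theorem x069_18 : fam (wl [1,1,1,1,3,2,2,1,1,3,3]) 785 958 = true := by decide +kernel
theorem x069_19 : fam (wl [2,1,1,3,2,2,1,1,3,2,1]) 2046 1597 = true := by decide +kernel
theorem x069_20 : fam (wl [3,2,2,1,2,5,1,6]) 1933 1130 = true := by decide +kernel
theorem x069_21 : fam (wl [1,2,2,2,1,2,5,1,5,1]) 898 1273 = true := by decide +kernel
theorem x069_22 : fam (wl [3,2,4,1,9,1,6]) 2193 1270 = true := by decide +kernel
theorem x069_23 : fam (wl [1,1,9,1,1,3,4,1,3]) 1122 1178 = true := by decide +kernel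
theorem x069_24 : fam (wl [2,9,1,1,3,4,1,2,1]) 1715 1631 = true := by decide +kernel
theorem x069_25 : fam (wl [1,2,2,4,1,9,1,5,1]) 644 917 = true := by decide +kernel
theorem x069_26 : fam (wl [11,2,1,2,1,22]) 1375 242 = true := by decide +kernel
theorem x069_27 : fam (wl [1,3,13,6,1,1,1,2]) 743 1122 = true := by decide +kernel
theorem x069_28 : fam (wl [4,13,6,1,1,1,1,1]) 2096 1029 = true := by decide +kernel
theorem x069_29 : fam (wl [1,10,2,1,2,1,21,1]) 1464 2673 = true := by decide +kernel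
/-- words with first entry from 2807 to 2841 -/
def L069 : List (List ℕ × ℕ × ℕ) := [([2,4,3,1,7,2,4],373,334), ([1,51,1,25,2],714,1402), ([52,1,25,1,1],2091,79), ([1,1,4,3,1,7,2,3,1],2432,2689), ([3,5,1,1,3,1,2,6],2407,1514), ([1,52,26,2],2094,4110), ([53,26,1,1],715,27), ([1,2,5,1,1,3,1,2,5,1],402,553), ([21,1,2,43],195,18), ([2,26,13,4],438,430), ([1,1,26,13,3,1],2377,2423), ([1,20,1,2,42,1],2620,5001), ([1,8,4,8,4,2],2416,4310), ([9,4,8,4,1,1],401,87), ([2,1,17,8,1,5],1911,1298), ([1,2,2,1,2,2,2,5,1,2],2191,3082), ([3,2,1,2,2,2,5,1,1,1],634,377), ([1,1,1,17,8,1,4,1],914,1209), ([1,1,1,1,3,2,2,1,1,3,3],785,958), ([2,1,1,3,2,2,1,1,3,2,1],2046,1597), ([3,2,2,1,2,5,1,6],1933,1130), ([1,2,2,2,1,2,5,1,5,1],898,1273), ([3,2,4,1,9,1,6],2193,1270), ([1,1,9,1,1,3,4,1,3],1122,1178), ([2,9,1,1,3,4,1,2,1],1715,1631), ([1,2,2,4,1,9,1,5,1],644,917), ([11,2,1,2,1,22],1375,242), ([1,3,13,6,1,1,1,2],743,1122), ([4,13,6,1,1,1,1,1],2096,1029), ([1,10,2,1,2,1,21,1],1464,2673)]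
theorem r069 : rgV L069 2807 18 = true := by decide +kernel
theorem f069 : ∀ p ∈ L069, fam (wl p.1) p.2.1 p.2.2 = true := by
  intro p hp
  simp only [L069, List.mem_cons, List.not_mem_nil, or_false] at hp
  rcases hp with rfl | rfl | rfl | rfl | rfl | rfl | rfl | rfl | rfl | rfl | rfl | rfl | rfl | rfl | rfl | rfl | rfl | rfl | rfl | rfl | rfl | rfl | rfl | rfl | rfl | rfl | rfl | rfl | rfl | rfl
  · exact x069_0
  · exact x069_1
  · exact x069_2
  · exact x069_3
  · exact x069_4
  · exact x069_5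
  · exact x069_6
  · exact x069_7
  · exact x069_8
  · exact x069_9
  · exact x069_10
  · exact x069_11
  · exact x069_12
  · exact x069_13
  · exact x069_14
  · exact x069_15
  · exact x069_16
  · exact x069_17
  · exact x069_18
  · exact x069_19
  · exact x069_20
  · exact x069_21
  · exact x069_22
  · exact x069_23
  · exact x069_24
  · exact x069_25
  · exact x069_26
  · exact x069_27
  · exact x069_28
  · exact x069_29

end Pool.Agent.V5helper47.EV
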