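import Pool.Agent.V5helper47.EV.S2

/-! Search, part of the half words. -/

set_option maxRecDepth 1000000

namespace Pool.Agent.V5helper47.EV

open H419R2 Pool.Agent.N911 Pool.Agent.V5helper47.CN

theorem x071_0 : fam (wl [1,6,1,5,1,2,2,3,2]) 2162 3774 = true := by decide +kernel
theorem x071_1 : fam (wl [7,1,5,1,2,2,3,1,1]) 733 187 = true := by decide +kernel
theorem x071_2 : fam (wl [1,1,1,12,25,3]) 749 986 = true := by decide +kernel
theorem x071_3 : fam (wl [2,1,12,25,2,1]) 2146 1469 = true := by decide +kernel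
theorem x071_4 : fam (wl [1,7,2,2,2,2,1,3,2]) 1358 2394 = true := by decide +kernel
theorem x071_5 : fam (wl [8,2,2,2,2,1,3,1,1]) 1543 367 = true := by decide +kernel
theorem x071_6 : fam (wl [5,1,4,2,1,1,1,11]) 2029 698 = true := by decide +kernel
theorem x071_7 : fam (wl [2,5,1,2,5,1,2,4]) 1586 1458 = true := by decide +kernel
theorem x071_8 : fam (wl [1,1,1,6,1,2,14,3]) 2899 3778 = true := by decide +kernel
theorem x071_9 : fam (wl [1,2,1,1,7,3,1,3,1,2]) 2205 3162 = true := by decide +kernel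
theorem x071_10 : fam (wl [3,1,1,7,3,1,3,1,1,1]) 700 397 = true := by decide +kernel
theorem x071_11 : fam (wl [2,1,6,1,2,14,2,1]) 6 5 = true := by decide +kernel
theorem x071_12 : fam (wl [1,1,5,1,2,5,1,2,3,1]) 1319 1427 = true := by decide +kernel
theorem x071_13 : fam (wl [1,4,1,4,2,1,1,1,10,1]) 876 1453 = true := by decide +kernel
theorem x071_14 : fam (wl [2,1,1,2,3,1,1,5,5]) 308 238 = true := by decide +kernel
theorem x071_15 : fam (wl [1,4,1,2,1,1,3,1,2,2,2]) 408 674 = true := by decide +kernel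
theorem x071_16 : fam (wl [5,1,2,1,1,3,1,2,2,1,1]) 2501 875 = true := by decide +kernel
theorem x071_17 : fam (wl [1,1,1,1,2,3,1,1,5,4,1]) 2601 3195 = true := by decide +kernel
theorem x071_18 : fam (wl [2,1,1,7,15,5]) 2353 1858 = true := by decide +kernel
theorem x071_19 : fam (wl [1,15,3,1,1,1,7,2]) 235 442 = true := by decide +kernel
theorem x071_20 : fam (wl [16,3,1,1,1,7,1,1]) 2676 329 = true := by decide +kernel
theorem x071_21 : fam (wl [1,1,1,1,7,15,4,1]) 558 677 = true := by decide +kernel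
theorem x071_22 : fam (wl [5,1,1,2,1,6,11]) 2291 822 = true := by decide +kernel
theorem x071_23 : fam (wl [1,19,2,2,1,9,2]) 2440 4642 = true := by decide +kernel
theorem x071_24 : fam (wl [20,2,2,1,9,1,1]) 479 47 = true := by decide +kernel
theorem x071_25 : fam (wl [1,4,1,1,2,1,6,10,1]) 628 1033 = true := by decide +kernel
theorem x071_26 : fam (wl [6,1,6,1,2,1,13]) 2178 634 = true := by decide +kernel
theorem x071_27 : fam (wl [1,5,1,6,1,2,1,12,1]) 747 1279 = true := by decide +kernel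
/-- words with first entry from 2897 to 2929 -/
def L071 : List (List ℕ × ℕ × ℕ) := [([1,6,1,5,1,2,2,3,2],2162,3774), ([7,1,5,1,2,2,3,1,1],733,187), ([1,1,1,12,25,3],749,986), ([2,1,12,25,2,1],2146,1469), ([1,7,2,2,2,2,1,3,2],1358,2394), ([8,2,2,2,2,1,3,1,1],1543,367), ([5,1,4,2,1,1,1,11],2029,698), ([2,5,1,2,5,1,2,4],1586,1458), ([1,1,1,6,1,2,14,3],2899,3778), ([1,2,1,1,7,3,1,3,1,2],2205,3162), ([3,1,1,7,3,1,3,1,1,1],700,397), ([2,1,6,1,2,14,2,1],6,5), ([1,1,5,1,2,5,1,2,3,1],1319,1427), ([1,4,1,4,2,1,1,1,10,1],876,1453), ([2,1,1,2,3,1,1,5,5],308,238), ([1,4,1,2,1,1,3,1,2,2,2],408,674), ([5,1,2,1,1,3,1,2,2,1,1],2501,875), ([1,1,1,1,2,3,1,1,5,4,1],2601,3195), ([2,1,1,7,15,5],2353,1858), ([1,15,3,1,1,1,7,2],235,442), ([16,3,1,1,1,7,1,1],2676,329), ([1,1,1,1,7,15,4,1],558,677), ([5,1,1,2,1,6,11],2291,822), ([1,19,2,2,1,9,2],2440,4642), ([20,2,2,1,9,1,1],479,47), ([1,4,1,1,2,1,6,10,1],628,1033), ([6,1,6,1,2,1,13],2178,634), ([1,5,1,6,1,2,1,12,1],747,1279)]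
theorem r071 : rgV L071 2897 17 = true := by decide +kernel
theorem f071 : ∀ p ∈ L071, fam (wl p.1) p.2.1 p.2.2 = true := by
  intro p hp
  simp only [L071, List.mem_cons, List.not_mem_nil, or_false] at hp
  rcases hp with rfl | rfl | rfl | rfl | rfl | rfl | rfl | rfl | rfl | rfl | rfl | rfl | rfl | rfl | rfl | rfl | rfl | rfl | rfl | rfl | rfl | rfl | rfl | rfl | rfl | rfl | rfl | rfl
  · exact x071_0
  · exact x071_1
  · exact x071_2
  · exact x071_3
  · exact x071_4
  · exact x071_5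
  · exact x071_6
  · exact x071_7
  · exact x071_8
  · exact x071_9
  · exact x071_10
  · exact x071_11
  · exact x071_12
  · exact x071_13
  · exact x071_14
  · exact x071_15
  · exact x071_16
  · exact x071_17
  · exact x071_18
  · exact x071_19
  · exact x071_20
  · exact x071_21
  · exact x071_22
  · exact x071_23
  · exact x071_24
  · exact x071_25
  · exact x071_26
  · exact x071_27

end Pool.Agent.V5helper47.EV
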