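import Pool.Agent.V5helper47.EV.S2

/-! Search, part of the half words. -/

set_option maxRecDepth 1000000

namespace Pool.Agent.V5helper47.EV

open H419R2 Pool.Agent.N911 Pool.Agent.V5helper47.CN

theorem x072_0 : fam (wl [2,3,1,1,1,2,4,1,1,4]) 530 466 = true := by decide +kernel
theorem x072_1 : fam (wl [1,8,2,2,1,4,4,2]) 1097 1962 = true := by decide +kernel
theorem x072_2 : fam (wl [9,2,2,1,4,4,1,1]) 1832 389 = true := by decide +kernel
theorem x072_3 : fam (wl [1,1,3,1,1,1,2,4,1,1,3,1]) 2399 2691 = true := by decide +kernel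
theorem x072_4 : fam (wl [9,3,2,1,1,18]) 2686 578 = true := by decide +kernel
theorem x072_5 : fam (wl [3,2,5,10,1,6]) 2346 1358 = true := by decide +kernel
theorem x072_6 : fam (wl [2,1,1,1,6,3,3,5]) 1243 938 = true := by decide +kernel
theorem x072_7 : fam (wl [1,1,3,1,2,1,2,1,2,1,1,3]) 903 1010 = true := by decide +kernel
theorem x072_8 : fam (wl [2,3,1,2,1,2,1,2,1,1,2,1]) 2032 1793 = true := by decide +kernel
theorem x072_9 : fam (wl [1,1,1,1,1,6,3,3,4,1]) 1692 2109 = true := by decide +kernel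
theorem x072_10 : fam (wl [1,2,2,5,10,1,5,1]) 589 839 = true := by decide +kernel
theorem x072_11 : fam (wl [1,8,3,2,1,1,17,1]) 249 447 = true := by decide +kernel
theorem x072_12 : fam (wl [12,1,3,1,1,25]) 1035 162 = true := by decide +kernel
theorem x072_13 : fam (wl [1,11,1,3,1,1,24,1]) 1902 3509 = true := by decide +kernel
theorem x072_14 : fam (wl [1,5,8,1,3,1,1,2,2]) 2894 4842 = true := by decide +kernel
theorem x072_15 : fam (wl [6,8,1,3,1,1,2,1,1]) 57 19 = true := by decide +kernel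
theorem x072_16 : fam (wl [1,1,8,1,1,3,1,3,1,3]) 1245 1314 = true := by decide +kernel
theorem x072_17 : fam (wl [2,8,1,1,3,1,3,1,2,1]) 1706 1613 = true := by decide +kernel
theorem x072_18 : fam (wl [7,2,2,4,1,14]) 2437 658 = true := by decide +kernel
theorem x072_19 : fam (wl [1,6,2,2,4,1,13,1]) 524 909 = true := by decide +kernel
theorem x072_20 : fam (wl [1,4,2,1,2,2,5,2,2]) 136 222 = true := by decide +kernel
theorem x072_21 : fam (wl [5,2,1,2,2,5,2,1,1]) 2831 1055 = true := by decide +kernel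
theorem x072_22 : fam (wl [2,4,4,8,2,4]) 1254 1122 = true := by decide +kernel
theorem x072_23 : fam (wl [1,1,4,4,8,2,3,1]) 1713 1895 = true := by decide +kernel
theorem x072_24 : fam (wl [8,1,5,2,1,17]) 221 50 = true := by decide +kernel
theorem x072_25 : fam (wl [1,7,1,5,2,1,16,1]) 2748 4877 = true := by decide +kernel
theorem x072_26 : fam (wl [11,1,1,1,3,23]) 1408 242 = true := by decide +kernel
theorem x072_27 : fam (wl [1,1,7,1,2,1,2,3,1,3]) 341 362 = true := by decide +kernel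
theorem x072_28 : fam (wl [2,7,1,2,1,2,3,1,2,1]) 2636 2477 = true := by decide +kernel
theorem x072_29 : fam (wl [1,10,1,1,1,3,22,1]) 1569 2871 = true := by decide +kernel
/-- words with first entry from 2931 to 2991 -/
def L072 : List (List ℕ × ℕ × ℕ) := [([2,3,1,1,1,2,4,1,1,4],530,466), ([1,8,2,2,1,4,4,2],1097,1962), ([9,2,2,1,4,4,1,1],1832,389), ([1,1,3,1,1,1,2,4,1,1,3,1],2399,2691), ([9,3,2,1,1,18],2686,578), ([3,2,5,10,1,6],2346,1358), ([2,1,1,1,6,3,3,5],1243,938), ([1,1,3,1,2,1,2,1,2,1,1,3],903,1010), ([2,3,1,2,1,2,1,2,1,1,2,1],2032,1793), ([1,1,1,1,1,6,3,3,4,1],1692,2109), ([1,2,2,5,10,1,5,1],589,839), ([1,8,3,2,1,1,17,1],249,447), ([12,1,3,1,1,25],1035,162), ([1,11,1,3,1,1,24,1],1902,3509), ([1,5,8,1,3,1,1,2,2],2894,4842), ([6,8,1,3,1,1,2,1,1],57,19), ([1,1,8,1,1,3,1,3,1,3],1245,1314), ([2,8,1,1,3,1,3,1,2,1],1706,1613), ([7,2,2,4,1,14],2437,658), ([1,6,2,2,4,1,13,1],524,909), ([1,4,2,1,2,2,5,2,2],136,222), ([5,2,1,2,2,5,2,1,1],2831,1055), ([2,4,4,8,2,4],1254,1122),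 ([1,1,4,4,8,2,3,1],1713,1895), ([8,1,5,2,1,17],221,50), ([1,7,1,5,2,1,16,1],2748,4877), ([11,1,1,1,3,23],1408,242), ([1,1,7,1,2,1,2,3,1,3],341,362), ([2,7,1,2,1,2,3,1,2,1],2636,2477), ([1,10,1,1,1,3,22,1],1569,2871)]
theorem r072 : rgV L072 2931 31 = true := by decide +kernel
theorem f072 : ∀ p ∈ L072, fam (wl p.1) p.2.1 p.2.2 = true := by
  intro p hp
  simp only [L072, List.mem_cons, List.not_mem_nil, or_false] at hp
  rcases hp with rfl | rfl | rfl | rfl | rfl | rfl | rfl | rfl | rfl | rfl | rfl | rfl | rfl | rfl | rfl | rfl | rfl | rfl | rfl | rfl | rfl | rfl | rfl | rfl | rfl | rfl | rfl | rfl | rfl | rfl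
  · exact x072_0
  · exact x072_1
  · exact x072_2
  · exact x072_3
  · exact x072_4
  · exact x072_5
  · exact x072_6
  · exact x072_7
  · exact x072_8
  · exact x072_9
  · exact x072_10
  · exact x072_11
  · exact x072_12
  · exact x072_13
  · exact x072_14
  · exact x072_15
  · exact x072_16
  · exact x072_17
  · exact x072_18
  · exact x072_19
  · exact x072_20
  · exact x072_21
  · exact x072_22
  · exact x072_23
  · exact x072_24
  · exact x072_25
  · exact x072_26
  · exact x072_27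
  · exact x072_28
  · exact x072_29

end Pool.Agent.V5helper47.EV
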