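import Pool.Agent.V5helper47.EV.S2

/-! Search, part of the half words. -/

set_option maxRecDepth 1000000

namespace Pool.Agent.V5helper47.EV

open H419R2 Pool.Agent.N911 Pool.Agent.V5helper47.CN

theorem x073_0 : fam (wl [3,1,12,1,5,1,7]) 1952 994 = true := by decide +kernel
theorem x073_1 : fam (wl [3,1,1,4,1,10,7]) 663 374 = true := by decide +kernel
theorem x073_2 : fam (wl [1,2,1,1,4,1,10,6,1]) 2328 3345 = true := by decide +kernel
theorem x073_3 : fam (wl [1,2,1,12,1,5,1,6,1]) 1039 1551 = true := by decide +kernel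
theorem x073_4 : fam (wl [22,2,1,44]) 201 18 = true := by decide +kernel
theorem x073_5 : fam (wl [1,3,1,1,1,3,1,1,4,1,1,2]) 781 1226 = true := by decide +kernel
theorem x073_6 : fam (wl [4,1,1,1,3,1,1,4,1,1,1,1]) 2210 953 = true := by decide +kernel
theorem x073_7 : fam (wl [1,21,2,1,43,1]) 2790 5333 = true := by decide +kernel
theorem x073_8 : fam (wl [3,1,4,2,2,1,1,1,7]) 1507 790 = true := by decide +kernel
theorem x073_9 : fam (wl [1,2,1,4,2,2,1,1,1,6,1]) 1490 2201 = true := by decide +kernel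
theorem x073_10 : fam (wl [3,6,1,1,3,3,6]) 148 94 = true := by decide +kernel
theorem x073_11 : fam (wl [1,2,6,1,1,3,3,5,1]) 2851 3895 = true := by decide +kernel
theorem x073_12 : fam (wl [1,3,1,3,1,2,8,1,1,2]) 1222 1934 = true := by decide +kernel
theorem x073_13 : fam (wl [4,1,3,1,2,8,1,1,1,1]) 1777 743 = true := by decide +kernel
theorem x073_14 : fam (wl [3,17,1,8,6]) 1977 1294 = true := by decide +kernel
theorem x073_15 : fam (wl [2,5,4,1,1,1,1,2,4]) 1786 1630 = true := by decide +kernel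
theorem x073_16 : fam (wl [1,1,5,4,1,1,1,1,2,3,1]) 1219 1327 = true := by decide +kernel
theorem x073_17 : fam (wl [1,2,17,1,8,5,1]) 1028 1385 = true := by decide +kernel
theorem x073_18 : fam (wl [5,2,3,6,1,10]) 2091 770 = true := by decide +kernel
theorem x073_19 : fam (wl [3,3,5,2,1,1,1,6]) 2018 1218 = true := by decide +kernel
theorem x073_20 : fam (wl [1,5,1,2,2,1,5,1,2,2]) 753 1282 = true := by decide +kernel
theorem x073_21 : fam (wl [1,30,1,2,15,2]) 680 1318 = true := by decide +kernel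
theorem x073_22 : fam (wl [31,1,2,15,1,1]) 2327 147 = true := by decide +kernel
theorem x073_23 : fam (wl [6,1,2,2,1,5,1,2,1,1]) 2254 673 = true := by decide +kernel
theorem x073_24 : fam (wl [1,2,3,5,2,1,1,1,5,1]) 989 1383 = true := by decide +kernel
theorem x073_25 : fam (wl [1,4,2,3,6,1,9,1]) 916 1497 = true := by decide +kernel
theorem x073_26 : fam (wl [2,15,2,1,7,4]) 1402 1358 = true := by decide +kernel
theorem x073_27 : fam (wl [1,1,15,2,1,7,3,1]) 1607 1659 = true := by decide +kernel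
/-- words with first entry from 2993 to 3015 -/
def L073 : List (List ℕ × ℕ × ℕ) := [([3,1,12,1,5,1,7],1952,994), ([3,1,1,4,1,10,7],663,374), ([1,2,1,1,4,1,10,6,1],2328,3345), ([1,2,1,12,1,5,1,6,1],1039,1551), ([22,2,1,44],201,18), ([1,3,1,1,1,3,1,1,4,1,1,2],781,1226), ([4,1,1,1,3,1,1,4,1,1,1,1],2210,953), ([1,21,2,1,43,1],2790,5333), ([3,1,4,2,2,1,1,1,7],1507,790), ([1,2,1,4,2,2,1,1,1,6,1],1490,2201), ([3,6,1,1,3,3,6],148,94), ([1,2,6,1,1,3,3,5,1],2851,3895), ([1,3,1,3,1,2,8,1,1,2],1222,1934), ([4,1,3,1,2,8,1,1,1,1],1777,743), ([3,17,1,8,6],1977,1294), ([2,5,4,1,1,1,1,2,4],1786,1630), ([1,1,5,4,1,1,1,1,2,3,1],1219,1327), ([1,2,17,1,8,5,1],1028,1385), ([5,2,3,6,1,10],2091,770), ([3,3,5,2,1,1,1,6],2018,1218), ([1,5,1,2,2,1,5,1,2,2],753,1282), ([1,30,1,2,15,2],680,1318), ([31,1,2,15,1,1],2327,147), ([6,1,2,2,1,5,1,2,1,1],2254,673), ([1,2,3,5,2,1,1,1,5,1],989,1383), ([1,4,2,3,6,1,9,1],916,1497), ([2,15,2,1,7,4],1402,1358), ([1,1,15,2,1,7,3,1],1607,1659)]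
theorem r073 : rgV L073 2993 12 = true := by decide +kernel
theorem f073 : ∀ p ∈ L073, fam (wl p.1) p.2.1 p.2.2 = true := by
  intro p hp
  simp only [L073, List.mem_cons, List.not_mem_nil, or_false] at hp
  rcases hp with rfl | rfl | rfl | rfl | rfl | rfl | rfl | rfl | rfl | rfl | rfl | rfl | rfl | rfl | rfl | rfl | rfl | rfl | rfl | rfl | rfl | rfl | rfl | rfl | rfl | rfl | rfl | rfl
  · exact x073_0
  · exact x073_1
  · exact x073_2
  · exact x073_3
  · exact x073_4
  · exact x073_5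
  · exact x073_6
  · exact x073_7
  · exact x073_8
  · exact x073_9
  · exact x073_10
  · exact x073_11
  · exact x073_12
  · exact x073_13
  · exact x073_14
  · exact x073_15
  · exact x073_16
  · exact x073_17
  · exact x073_18
  · exact x073_19
  · exact x073_20
  · exact x073_21
  · exact x073_22
  · exact x073_23
  · exact x073_24
  · exact x073_25
  · exact x073_26
  · exact x073_27

end Pool.Agent.V5helper47.EV
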