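import Pool.Agent.V5helper47.EV.S2

/-! Search, part of the half words. -/

set_option maxRecDepth 1000000

namespace Pool.Agent.V5helper47.EV

open H419R2 Pool.Agent.N911 Pool.Agent.V5helper47.CN

theorem x074_0 : fam (wl [1,1,26,1,12,1,3]) 1412 1438 = true := by decide +kernel
theorem x074_1 : fam (wl [1,3,1,6,1,14,1,1,2]) 796 1266 = true := by decide +kernel
theorem x074_2 : fam (wl [4,1,6,1,14,1,1,1,1]) 2219 911 = true := by decide +kernel
theorem x074_3 : fam (wl [2,26,1,12,1,2,1]) 1603 1575 = true := by decide +kernel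
theorem x074_4 : fam (wl [1,3,7,1,2,3,1,1,1,2]) 1616 2450 = true := by decide +kernel
theorem x074_5 : fam (wl [4,7,1,2,3,1,1,1,1,1]) 1401 679 = true := by decide +kernel
theorem x074_6 : fam (wl [1,53,1,26,2]) 2280 4478 = true := by decide +kernel
theorem x074_7 : fam (wl [54,1,26,1,1]) 741 27 = true := by decide +kernel
theorem x074_8 : fam (wl [2,1,5,2,4,2,1,5]) 2620 1842 = true := by decide +kernel
theorem x074_9 : fam (wl [1,54,27,2]) 742 1458 = true := by decide +kernel
theorem x074_10 : fam (wl [55,27,1,1]) 2283 83 = true := by decide +kernel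
theorem x074_11 : fam (wl [1,1,1,5,2,4,2,1,4,1]) 405 527 = true := by decide +kernel
theorem x074_12 : fam (wl [14,1,2,2,29]) 2310 314 = true := by decide +kernel
theorem x074_13 : fam (wl [1,12,2,1,5,6,2]) 206 382 = true := by decide +kernel
theorem x074_14 : fam (wl [13,2,1,5,6,1,1]) 2823 423 = true := by decide +kernel
theorem x074_15 : fam (wl [1,13,1,2,2,28,1]) 719 1343 = true := by decide +kernel
theorem x074_16 : fam (wl [1,1,27,13,1,3]) 96 98 = true := by decide +kernel
theorem x074_17 : fam (wl [1,2,1,2,1,1,2,3,1,2,1,2]) 1631 2386 = true := by decide +kernel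
theorem x074_18 : fam (wl [3,1,2,1,1,2,3,1,2,1,1,1]) 1400 753 = true := by decide +kernel
theorem x074_19 : fam (wl [2,27,13,1,2,1]) 2935 2883 = true := by decide +kernel
theorem x074_20 : fam (wl [38,1,77]) 3002 154 = true := by decide +kernel
theorem x074_21 : fam (wl [1,37,1,76,1]) 37 75 = true := by decide +kernel
theorem x074_22 : fam (wl [6,1,3,1,2,1,1,13]) 1310 386 = true := by decide +kernel
theorem x074_23 : fam (wl [1,5,1,3,1,2,1,1,12,1]) 1729 2951 = true := by decide +kernel
theorem x074_24 : fam (wl [39,78]) 39 2 = true := by decide +kernel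
theorem x074_25 : fam (wl [3,18,9,6]) 2056 1346 = true := by decide +kernel
theorem x074_26 : fam (wl [1,2,18,9,5,1]) 985 1327 = true := by decide +kernel
theorem x074_27 : fam (wl [1,38,77,1]) 3002 5853 = true := by decide +kernel
/-- words with first entry from 3017 to 3047 -/
def L074 : List (List ℕ × ℕ × ℕ) := [([1,1,26,1,12,1,3],1412,1438), ([1,3,1,6,1,14,1,1,2],796,1266), ([4,1,6,1,14,1,1,1,1],2219,911), ([2,26,1,12,1,2,1],1603,1575), ([1,3,7,1,2,3,1,1,1,2],1616,2450), ([4,7,1,2,3,1,1,1,1,1],1401,679), ([1,53,1,26,2],2280,4478), ([54,1,26,1,1],741,27), ([2,1,5,2,4,2,1,5],2620,1842), ([1,54,27,2],742,1458), ([55,27,1,1],2283,83), ([1,1,1,5,2,4,2,1,4,1],405,527), ([14,1,2,2,29],2310,314), ([1,12,2,1,5,6,2],206,382), ([13,2,1,5,6,1,1],2823,423), ([1,13,1,2,2,28,1],719,1343), ([1,1,27,13,1,3],96,98), ([1,2,1,2,1,1,2,3,1,2,1,2],1631,2386), ([3,1,2,1,1,2,3,1,2,1,1,1],1400,753), ([2,27,13,1,2,1],2935,2883), ([38,1,77],3002,154), ([1,37,1,76,1],37,75), ([6,1,3,1,2,1,1,13],1310,386), ([1,5,1,3,1,2,1,1,12,1],1729,2951),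 ([39,78],39,2), ([3,18,9,6],2056,1346), ([1,2,18,9,5,1],985,1327), ([1,38,77,1],3002,5853)]
theorem r074 : rgV L074 3017 16 = true := by decide +kernel
theorem f074 : ∀ p ∈ L074, fam (wl p.1) p.2.1 p.2.2 = true := by
  intro p hp
  simp only [L074, List.mem_cons, List.not_mem_nil, or_false] at hp
  rcases hp with rfl | rfl | rfl | rfl | rfl | rfl | rfl | rfl | rfl | rfl | rfl | rfl | rfl | rfl | rfl | rfl | rfl | rfl | rfl | rfl | rfl | rfl | rfl | rfl | rfl | rfl | rfl | rfl
  · exact x074_0
  · exact x074_1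
  · exact x074_2
  · exact x074_3
  · exact x074_4
  · exact x074_5
  · exact x074_6
  · exact x074_7
  · exact x074_8
  · exact x074_9
  · exact x074_10
  · exact x074_11
  · exact x074_12
  · exact x074_13
  · exact x074_14
  · exact x074_15
  · exact x074_16
  · exact x074_17
  · exact x074_18
  · exact x074_19
  · exact x074_20
  · exact x074_21
  · exact x074_22
  · exact x074_23
  · exact x074_24
  · exact x074_25
  · exact x074_26
  · exact x074_27

end Pool.Agent.V5helper47.EV
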