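import Pool.Agent.V5helper47.EV.S2

/-! Search, part of the half words. -/

set_option maxRecDepth 1000000

namespace Pool.Agent.V5helper47.EV

open H419R2 Pool.Agent.N911 Pool.Agent.V5helper47.CN

theorem x075_0 : fam (wl [1,2,2,1,4,1,1,1,5,1,2]) 1366 1918 = true := by decide +kernel
theorem x075_1 : fam (wl [3,2,1,4,1,1,1,5,1,1,1]) 1681 1003 = true := by decide +kernel
theorem x075_2 : fam (wl [1,1,1,1,2,1,2,1,2,1,3,3]) 2217 2714 = true := by decide +kernel
theorem x075_3 : fam (wl [2,1,1,2,1,2,1,2,1,3,2,1]) 830 645 = true := by decide +kernel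
theorem x075_4 : fam (wl [2,1,1,1,3,2,1,1,3,5]) 1491 1130 = true := by decide +kernel
theorem x075_5 : fam (wl [2,4,1,4,2,2,2,4]) 2713 2458 = true := by decide +kernel
theorem x075_6 : fam (wl [1,1,4,1,4,2,2,2,3,1]) 336 369 = true := by decide +kernel
theorem x075_7 : fam (wl [1,1,1,1,1,3,2,1,1,3,4,1]) 1558 1937 = true := by decide +kernel
theorem x075_8 : fam (wl [3,1,13,6,1,7]) 1827 930 = true := by decide +kernel
theorem x075_9 : fam (wl [1,11,1,2,5,1,5,2]) 1147 2114 = true := by decide +kernel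
theorem x075_10 : fam (wl [12,1,2,5,1,5,1,1]) 1908 301 = true := by decide +kernel
theorem x075_11 : fam (wl [1,2,1,13,6,1,6,1]) 1228 1833 = true := by decide +kernel
theorem x075_12 : fam (wl [1,3,1,7,15,1,1,2]) 416 662 = true := by decide +kernel
theorem x075_13 : fam (wl [4,1,7,15,1,1,1,1]) 2649 1087 = true := by decide +kernel
theorem x075_14 : fam (wl [1,2,2,2,1,1,3,1,4,1,2]) 3026 4282 = true := by decide +kernel
theorem x075_15 : fam (wl [1,2,1,1,2,2,2,2,3,1,2]) 2805 4046 = true := by decide +kernel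
theorem x075_16 : fam (wl [3,1,1,2,2,2,2,3,1,1,1]) 266 149 = true := by decide +kernel
theorem x075_17 : fam (wl [3,2,2,1,1,3,1,4,1,1,1]) 45 27 = true := by decide +kernel
theorem x075_18 : fam (wl [1,2,1,1,1,2,1,6,3,1,2]) 2382 3454 = true := by decide +kernel
theorem x075_19 : fam (wl [3,1,1,1,2,1,6,3,1,1,1]) 695 383 = true := by decide +kernel
theorem x075_20 : fam (wl [22,1,2,45]) 204 18 = true := by decide +kernel
theorem x075_21 : fam (wl [1,21,1,2,44,1]) 2877 5503 = true := by decide +kernel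
theorem x075_22 : fam (wl [1,1,1,4,3,1,1,9,3]) 1628 2098 = true := by decide +kernel
theorem x075_23 : fam (wl [2,1,4,3,1,1,9,2,1]) 1459 1039 = true := by decide +kernel
theorem x075_24 : fam (wl [1,4,1,1,2,2,2,3,2,2]) 985 1618 = true := by decide +kernel
theorem x075_25 : fam (wl [5,1,1,2,2,2,3,2,1,1]) 2102 753 = true := by decide +kernel
theorem x075_26 : fam (wl [3,1,1,5,11,7]) 1081 610 = true := by decide +kernel
theorem x075_27 : fam (wl [1,4,4,2,1,8,2,2]) 2622 4242 = true := by decide +kernel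
theorem x075_28 : fam (wl [5,4,2,1,8,2,1,1]) 467 179 = true := by decide +kernel
theorem x075_29 : fam (wl [1,2,1,1,5,11,6,1]) 2008 2885 = true := by decide +kernel
/-- words with first entry from 3049 to 3095 -/
def L075 : List (List ℕ × ℕ × ℕ) := [([1,2,2,1,4,1,1,1,5,1,2],1366,1918), ([3,2,1,4,1,1,1,5,1,1,1],1681,1003), ([1,1,1,1,2,1,2,1,2,1,3,3],2217,2714), ([2,1,1,2,1,2,1,2,1,3,2,1],830,645), ([2,1,1,1,3,2,1,1,3,5],1491,1130), ([2,4,1,4,2,2,2,4],2713,2458), ([1,1,4,1,4,2,2,2,3,1],336,369), ([1,1,1,1,1,3,2,1,1,3,4,1],1558,1937), ([3,1,13,6,1,7],1827,930), ([1,11,1,2,5,1,5,2],1147,2114), ([12,1,2,5,1,5,1,1],1908,301), ([1,2,1,13,6,1,6,1],1228,1833), ([1,3,1,7,15,1,1,2],416,662), ([4,1,7,15,1,1,1,1],2649,1087), ([1,2,2,2,1,1,3,1,4,1,2],3026,4282), ([1,2,1,1,2,2,2,2,3,1,2],2805,4046), ([3,1,1,2,2,2,2,3,1,1,1],266,149), ([3,2,2,1,1,3,1,4,1,1,1],45,27), ([1,2,1,1,1,2,1,6,3,1,2],2382,3454), ([3,1,1,1,2,1,6,3,1,1,1],695,383), ([22,1,2,45],204,18),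 ([1,21,1,2,44,1],2877,5503), ([1,1,1,4,3,1,1,9,3],1628,2098), ([2,1,4,3,1,1,9,2,1],1459,1039), ([1,4,1,1,2,2,2,3,2,2],985,1618), ([5,1,1,2,2,2,3,2,1,1],2102,753), ([3,1,1,5,11,7],1081,610), ([1,4,4,2,1,8,2,2],2622,4242), ([5,4,2,1,8,2,1,1],467,179), ([1,2,1,1,5,11,6,1],2008,2885)]
theorem r075 : rgV L075 3049 24 = true := by decide +kernel
theorem f075 : ∀ p ∈ L075, fam (wl p.1) p.2.1 p.2.2 = true := by
  intro p hp
  simp only [L075, List.mem_cons, List.not_mem_nil, or_false] at hp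
  rcases hp with rfl | rfl | rfl | rfl | rfl | rfl | rfl | rfl | rfl | rfl | rfl | rfl | rfl | rfl | rfl | rfl | rfl | rfl | rfl | rfl | rfl | rfl | rfl | rfl | rfl | rfl | rfl | rfl | rfl | rfl
  · exact x075_0
  · exact x075_1
  · exact x075_2
  · exact x075_3
  · exact x075_4
  · exact x075_5
  · exact x075_6
  · exact x075_7
  · exact x075_8
  · exact x075_9
  · exact x075_10
  · exact x075_11
  · exact x075_12
  · exact x075_13
  · exact x075_14
  · exact x075_15
  · exact x075_16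
  · exact x075_17
  · exact x075_18
  · exact x075_19
  · exact x075_20
  · exact x075_21
  · exact x075_22
  · exact x075_23
  · exact x075_24
  · exact x075_25
  · exact x075_26
  · exact x075_27
  · exact x075_28
  · exact x075_29

end Pool.Agent.V5helper47.EV
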