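import Pool.Agent.V5helper47.EV.S2

/-! Search, part of the half words. -/

set_option maxRecDepth 1000000

namespace Pool.Agent.V5helper47.EV

open H419R2 Pool.Agent.N911 Pool.Agent.V5helper47.CN

theorem x076_0 : fam (wl [2,2,2,4,2,4,1,4]) 1346 1118 = true := by decide +kernel
theorem x076_1 : fam (wl [1,5,9,4,1,1,2,2]) 2641 4418 = true := by decide +kernel
theorem x076_2 : fam (wl [6,9,4,1,1,2,1,1]) 454 149 = true := by decide +kernel
theorem x076_3 : fam (wl [1,1,2,2,4,2,4,1,3,1]) 1749 2047 = true := by decide +kernel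
theorem x076_4 : fam (wl [3,1,1,2,1,2,6,7]) 2809 1570 = true := by decide +kernel
theorem x076_5 : fam (wl [1,17,1,1,3,1,8,2]) 398 754 = true := by decide +kernel
theorem x076_6 : fam (wl [18,1,1,3,1,8,1,1]) 2699 291 = true := by decide +kernel
theorem x076_7 : fam (wl [1,2,1,1,2,1,2,6,6,1]) 288 417 = true := by decide +kernel
theorem x076_8 : fam (wl [7,1,1,2,5,15]) 2422 638 = true := by decide +kernel
theorem x076_9 : fam (wl [3,5,3,1,1,1,2,6]) 3065 1922 = true := by decide +kernel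
theorem x076_10 : fam (wl [1,2,5,3,1,1,1,2,5,1]) 46 65 = true := by decide +kernel
theorem x076_11 : fam (wl [1,6,1,1,2,5,14,1]) 689 1199 = true := by decide +kernel
theorem x076_12 : fam (wl [4,2,3,1,7,1,8]) 342 154 = true := by decide +kernel
theorem x076_13 : fam (wl [1,3,2,3,1,7,1,7,1]) 2775 4303 = true := by decide +kernel
theorem x076_14 : fam (wl [1,7,6,1,2,1,1,3,2]) 598 1050 = true := by decide +kernel
theorem x076_15 : fam (wl [8,6,1,2,1,1,3,1,1]) 2521 619 = true := by decide +kernel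
theorem x076_16 : fam (wl [1,2,3,1,1,1,3,7,1,2]) 1671 2322 = true := by decide +kernel
theorem x076_17 : fam (wl [3,3,1,1,1,3,7,1,1,1]) 1448 885 = true := by decide +kernel
theorem x076_18 : fam (wl [6,1,7,3,1,13]) 1245 362 = true := by decide +kernel
theorem x076_19 : fam (wl [2,1,2,1,1,2,1,3,2,5]) 2440 1794 = true := by decide +kernel
theorem x076_20 : fam (wl [1,1,1,2,1,1,2,1,3,2,4,1]) 681 863 = true := by decide +kernel
theorem x076_21 : fam (wl [1,5,1,7,3,1,12,1]) 1876 3209 = true := by decide +kernel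
theorem x076_22 : fam (wl [3,1,2,1,1,1,4,2,7]) 2619 1406 = true := by decide +kernel
theorem x076_23 : fam (wl [1,2,1,2,1,1,1,4,2,6,1]) 516 757 = true := by decide +kernel
theorem x076_24 : fam (wl [1,31,2,1,15,2]) 2279 4418 = true := by decide +kernel
theorem x076_25 : fam (wl [32,2,1,15,1,1]) 856 53 = true := by decide +kernel
theorem x076_26 : fam (wl [1,1,15,1,2,7,1,3]) 1480 1526 = true := by decide +kernel
theorem x076_27 : fam (wl [1,12,1,1,2,3,6,2]) 2941 5450 = true := by decide +kernel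
theorem x076_28 : fam (wl [13,1,1,2,3,6,1,1]) 196 29 = true := by decide +kernel
theorem x076_29 : fam (wl [2,15,1,2,7,1,2,1]) 1657 1607 = true := by decide +kernel
/-- words with first entry from 3097 to 3141 -/
def L076 : List (List ℕ × ℕ × ℕ) := [([2,2,2,4,2,4,1,4],1346,1118), ([1,5,9,4,1,1,2,2],2641,4418), ([6,9,4,1,1,2,1,1],454,149), ([1,1,2,2,4,2,4,1,3,1],1749,2047), ([3,1,1,2,1,2,6,7],2809,1570), ([1,17,1,1,3,1,8,2],398,754), ([18,1,1,3,1,8,1,1],2699,291), ([1,2,1,1,2,1,2,6,6,1],288,417), ([7,1,1,2,5,15],2422,638), ([3,5,3,1,1,1,2,6],3065,1922), ([1,2,5,3,1,1,1,2,5,1],46,65), ([1,6,1,1,2,5,14,1],689,1199), ([4,2,3,1,7,1,8],342,154), ([1,3,2,3,1,7,1,7,1],2775,4303), ([1,7,6,1,2,1,1,3,2],598,1050), ([8,6,1,2,1,1,3,1,1],2521,619), ([1,2,3,1,1,1,3,7,1,2],1671,2322), ([3,3,1,1,1,3,7,1,1,1],1448,885), ([6,1,7,3,1,13],1245,362), ([2,1,2,1,1,2,1,3,2,5],2440,1794), ([1,1,1,2,1,1,2,1,3,2,4,1],681,863), ([1,5,1,7,3,1,12,1],1876,3209), ([3,1,2,1,1,1,4,2,7],2619,1406),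 ([1,2,1,2,1,1,1,4,2,6,1],516,757), ([1,31,2,1,15,2],2279,4418), ([32,2,1,15,1,1],856,53), ([1,1,15,1,2,7,1,3],1480,1526), ([1,12,1,1,2,3,6,2],2941,5450), ([13,1,1,2,3,6,1,1],196,29), ([2,15,1,2,7,1,2,1],1657,1607)]
theorem r076 : rgV L076 3097 23 = true := by decide +kernel
theorem f076 : ∀ p ∈ L076, fam (wl p.1) p.2.1 p.2.2 = true := by
  intro p hp
  simp only [L076, List.mem_cons, List.not_mem_nil, or_false] at hp
  rcases hp with rfl | rfl | rfl | rfl | rfl | rfl | rfl | rfl | rfl | rfl | rfl | rfl | rfl | rfl | rfl | rfl | rfl | rfl | rfl | rfl | rfl | rfl | rfl | rfl | rfl | rfl | rfl | rfl | rfl | rfl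
  · exact x076_0
  · exact x076_1
  · exact x076_2
  · exact x076_3
  · exact x076_4
  · exact x076_5
  · exact x076_6
  · exact x076_7
  · exact x076_8
  · exact x076_9
  · exact x076_10
  · exact x076_11
  · exact x076_12
  · exact x076_13
  · exact x076_14
  · exact x076_15
  · exact x076_16
  · exact x076_17
  · exact x076_18
  · exact x076_19
  · exact x076_20
  · exact x076_21
  · exact x076_22
  · exact x076_23
  · exact x076_24
  · exact x076_25
  · exact x076_26
  · exact x076_27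
  · exact x076_28
  · exact x076_29

end Pool.Agent.V5helper47.EV
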