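import Pool.Agent.V5helper47.EV.S2

/-! Search, part of the half words. -/

set_option maxRecDepth 1000000

namespace Pool.Agent.V5helper47.EV

open H419R2 Pool.Agent.N911 Pool.Agent.V5helper47.CN

theorem x077_0 : fam (wl [3,2,1,1,2,2,3,1,6]) 2435 1438 = true := by decide +kernel
theorem x077_1 : fam (wl [1,5,1,1,3,1,1,3,1,2,2]) 1669 2830 = true := by decide +kernel
theorem x077_2 : fam (wl [6,1,1,3,1,1,3,1,2,1,1]) 1472 449 = true := by decide +kernel
theorem x077_3 : fam (wl [1,2,2,1,1,2,2,3,1,5,1]) 706 997 = true := by decide +kernel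
theorem x077_4 : fam (wl [13,4,2,26]) 1071 162 = true := by decide +kernel
theorem x077_5 : fam (wl [1,2,1,7,2,1,3,2,1,2]) 2469 3666 = true := by decide +kernel
theorem x077_6 : fam (wl [3,1,7,2,1,3,2,1,1,1]) 676 349 = true := by decide +kernel
theorem x077_7 : fam (wl [1,12,4,2,25,1]) 2074 3837 = true := by decide +kernel
theorem x077_8 : fam (wl [7,7,1,3,14]) 2602 730 = true := by decide +kernel
theorem x077_9 : fam (wl [1,1,2,1,4,1,10,2,3]) 624 718 = true := by decide +kernel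
theorem x077_10 : fam (wl [2,2,1,4,1,10,2,2,1]) 2525 2147 = true := by decide +kernel
theorem x077_11 : fam (wl [1,6,7,1,3,13,1]) 547 943 = true := by decide +kernel
theorem x077_12 : fam (wl [4,1,5,1,2,2,1,9]) 2857 1178 = true := by decide +kernel
theorem x077_13 : fam (wl [1,6,1,6,3,2,3,2]) 404 706 = true := by decide +kernel
theorem x077_14 : fam (wl [7,1,6,3,2,3,1,1]) 2747 699 = true := by decide +kernel
theorem x077_15 : fam (wl [1,3,1,5,1,2,2,1,8,1]) 294 469 = true := by decide +kernel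
theorem x077_16 : fam (wl [5,1,1,3,7,11]) 1832 658 = true := by decide +kernel
theorem x077_17 : fam (wl [1,4,1,1,3,7,10,1]) 1329 2183 = true := by decide +kernel
theorem x077_18 : fam (wl [1,2,1,4,1,1,3,2,2,1,2]) 1426 2106 = true := by decide +kernel
theorem x077_19 : fam (wl [3,1,4,1,1,3,2,2,1,1,1]) 1739 911 = true := by decide +kernel
theorem x077_20 : fam (wl [2,1,6,2,2,1,2,1,5]) 1017 710 = true := by decide +kernel
theorem x077_21 : fam (wl [1,1,1,6,2,2,1,2,1,4,1]) 2150 2801 = true := by decide +kernel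
theorem x077_22 : fam (wl [2,3,4,2,1,1,1,1,1,4]) 926 802 = true := by decide +kernel
theorem x077_23 : fam (wl [1,1,3,4,2,1,1,1,1,1,3,1]) 2241 2543 = true := by decide +kernel
theorem x077_24 : fam (wl [4,4,2,4,2,8]) 1694 802 = true := by decide +kernel
theorem x077_25 : fam (wl [1,2,7,2,1,14,1,2]) 7 10 = true := by decide +kernel
theorem x077_26 : fam (wl [3,7,2,1,14,1,1,1]) 3168 2021 = true := by decide +kernel
theorem x077_27 : fam (wl [1,3,4,2,4,2,7,1]) 1481 2263 = true := by decide +kernel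
/-- words with first entry from 3143 to 3177 -/
def L077 : List (List ℕ × ℕ × ℕ) := [([3,2,1,1,2,2,3,1,6],2435,1438), ([1,5,1,1,3,1,1,3,1,2,2],1669,2830), ([6,1,1,3,1,1,3,1,2,1,1],1472,449), ([1,2,2,1,1,2,2,3,1,5,1],706,997), ([13,4,2,26],1071,162), ([1,2,1,7,2,1,3,2,1,2],2469,3666), ([3,1,7,2,1,3,2,1,1,1],676,349), ([1,12,4,2,25,1],2074,3837), ([7,7,1,3,14],2602,730), ([1,1,2,1,4,1,10,2,3],624,718), ([2,2,1,4,1,10,2,2,1],2525,2147), ([1,6,7,1,3,13,1],547,943), ([4,1,5,1,2,2,1,9],2857,1178), ([1,6,1,6,3,2,3,2],404,706), ([7,1,6,3,2,3,1,1],2747,699), ([1,3,1,5,1,2,2,1,8,1],294,469), ([5,1,1,3,7,11],1832,658), ([1,4,1,1,3,7,10,1],1329,2183), ([1,2,1,4,1,1,3,2,2,1,2],1426,2106), ([3,1,4,1,1,3,2,2,1,1,1],1739,911), ([2,1,6,2,2,1,2,1,5],1017,710), ([1,1,1,6,2,2,1,2,1,4,1],2150,2801), ([2,3,4,2,1,1,1,1,1,4],926,802), ([1,1,3,4,2,1,1,1,1,1,3,1],2241,2543), ([4,4,2,4,2,8],1694,802), ([1,2,7,2,1,14,1,2],7,10), ([3,7,2,1,14,1,1,1],3168,2021), ([1,3,4,2,4,2,7,1],1481,2263)]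
theorem r077 : rgV L077 3143 18 = true := by decide +kernel
theorem f077 : ∀ p ∈ L077, fam (wl p.1) p.2.1 p.2.2 = true := by
  intro p hp
  simp only [L077, List.mem_cons, List.not_mem_nil, or_false] at hp
  rcases hp with rfl | rfl | rfl | rfl | rfl | rfl | rfl | rfl | rfl | rfl | rfl | rfl | rfl | rfl | rfl | rfl | rfl | rfl | rfl | rfl | rfl | rfl | rfl | rfl | rfl | rfl | rfl | rfl
  · exact x077_0
  · exact x077_1
  · exact x077_2
  · exact x077_3
  · exact x077_4
  · exact x077_5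
  · exact x077_6
  · exact x077_7
  · exact x077_8
  · exact x077_9
  · exact x077_10
  · exact x077_11
  · exact x077_12
  · exact x077_13
  · exact x077_14
  · exact x077_15
  · exact x077_16
  · exact x077_17
  · exact x077_18
  · exact x077_19
  · exact x077_20
  · exact x077_21
  · exact x077_22
  · exact x077_23
  · exact x077_24
  · exact x077_25
  · exact x077_26
  · exact x077_27

end Pool.Agent.V5helper47.EV
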