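import Pool.Agent.V5helper47.EV.S2

/-! Search, part of the half words. -/

set_option maxRecDepth 1000000

namespace Pool.Agent.V5helper47.EV

open H419R2 Pool.Agent.N911 Pool.Agent.V5helper47.CN

theorem x078_0 : fam (wl [5,3,1,1,3,1,1,10]) 1262 478 = true := by decide +kernel
theorem x078_1 : fam (wl [2,1,2,3,1,2,1,1,2,5]) 2050 1522 = true := by decide +kernel
theorem x078_2 : fam (wl [1,1,1,2,3,1,2,1,1,2,4,1]) 1127 1419 = true := by decide +kernel
theorem x078_3 : fam (wl [1,4,3,1,1,3,1,1,9,1]) 1915 3107 = true := by decide +kernel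
theorem x078_4 : fam (wl [9,6,3,18]) 119 26 = true := by decide +kernel
theorem x078_5 : fam (wl [1,8,6,3,17,1]) 3066 5465 = true := by decide +kernel
theorem x078_6 : fam (wl [1,2,12,1,25,1,2]) 2007 2710 = true := by decide +kernel
theorem x078_7 : fam (wl [3,12,1,25,1,1,1]) 1182 769 = true := by decide +kernel
theorem x078_8 : fam (wl [2,6,2,1,5,3,4]) 1620 1502 = true := by decide +kernel
theorem x078_9 : fam (wl [1,10,1,3,1,1,2,5,2]) 759 1390 = true := by decide +kernel
theorem x078_10 : fam (wl [11,1,3,1,1,2,5,1,1]) 2432 413 = true := by decide +kernel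
theorem x078_11 : fam (wl [1,1,6,2,1,5,3,3,1]) 1571 1687 = true := by decide +kernel
theorem x078_12 : fam (wl [39,1,79]) 3159 158 = true := by decide +kernel
theorem x078_13 : fam (wl [1,1,2,10,1,4,1,2,3]) 1004 1198 = true := by decide +kernel
theorem x078_14 : fam (wl [2,2,10,1,4,1,2,2,1]) 2193 1771 = true := by decide +kernel
theorem x078_15 : fam (wl [1,38,1,78,1]) 38 77 = true := by decide +kernel
theorem x078_16 : fam (wl [40,80]) 40 2 = true := by decide +kernel
theorem x078_17 : fam (wl [2,4,2,2,1,4,2,4]) 1765 1586 = true := by decide +kernel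
theorem x078_18 : fam (wl [1,1,1,3,1,3,1,1,8,3]) 1382 1774 = true := by decide +kernel
theorem x078_19 : fam (wl [1,7,1,1,1,2,4,1,3,2]) 12 22 = true := by decide +kernel
theorem x078_20 : fam (wl [8,1,1,1,2,4,1,3,1,1]) 3187 739 = true := by decide +kernel
theorem x078_21 : fam (wl [2,1,3,1,3,1,1,8,2,1]) 1817 1303 = true := by decide +kernel
theorem x078_22 : fam (wl [1,1,4,2,2,1,4,2,3,1]) 1434 1581 = true := by decide +kernel
theorem x078_23 : fam (wl [1,39,79,1]) 3159 6163 = true := by decide +kernel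
theorem x078_24 : fam (wl [9,1,2,2,2,19]) 2805 578 = true := by decide +kernel
theorem x078_25 : fam (wl [1,8,1,2,2,2,18,1]) 396 713 = true := by decide +kernel
theorem x078_26 : fam (wl [1,2,4,1,2,2,9,1,2]) 3062 4218 = true := by decide +kernel
theorem x078_27 : fam (wl [3,4,1,2,2,9,1,1,1]) 145 91 = true := by decide +kernel
theorem x078_28 : fam (wl [1,2,13,26,1,2]) 2259 3050 = true := by decide +kernel
theorem x078_29 : fam (wl [3,13,26,1,1,1]) 948 617 = true := by decide +kernel
/-- words with first entry from 3179 to 3215 -/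
def L078 : List (List ℕ × ℕ × ℕ) := [([5,3,1,1,3,1,1,10],1262,478), ([2,1,2,3,1,2,1,1,2,5],2050,1522), ([1,1,1,2,3,1,2,1,1,2,4,1],1127,1419), ([1,4,3,1,1,3,1,1,9,1],1915,3107), ([9,6,3,18],119,26), ([1,8,6,3,17,1],3066,5465), ([1,2,12,1,25,1,2],2007,2710), ([3,12,1,25,1,1,1],1182,769), ([2,6,2,1,5,3,4],1620,1502), ([1,10,1,3,1,1,2,5,2],759,1390), ([11,1,3,1,1,2,5,1,1],2432,413), ([1,1,6,2,1,5,3,3,1],1571,1687), ([39,1,79],3159,158), ([1,1,2,10,1,4,1,2,3],1004,1198), ([2,2,10,1,4,1,2,2,1],2193,1771), ([1,38,1,78,1],38,77), ([40,80],40,2), ([2,4,2,2,1,4,2,4],1765,1586), ([1,1,1,3,1,3,1,1,8,3],1382,1774), ([1,7,1,1,1,2,4,1,3,2],12,22), ([8,1,1,1,2,4,1,3,1,1],3187,739), ([2,1,3,1,3,1,1,8,2,1],1817,1303), ([1,1,4,2,2,1,4,2,3,1],1434,1581), ([1,39,79,1],3159,6163), ([9,1,2,2,2,19],2805,578), ([1,8,1,2,2,2,18,1],396,713), ([1,2,4,1,2,2,9,1,2],3062,4218), ([3,4,1,2,2,9,1,1,1],145,91), ([1,2,13,26,1,2],2259,3050), ([3,13,26,1,1,1],948,617)]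
theorem r078 : rgV L078 3179 19 = true := by decide +kernel
theorem f078 : ∀ p ∈ L078, fam (wl p.1) p.2.1 p.2.2 = true := by
  intro p hp
  simp only [L078, List.mem_cons, List.not_mem_nil, or_false] at hp
  rcases hp with rfl | rfl | rfl | rfl | rfl | rfl | rfl | rfl | rfl | rfl | rfl | rfl | rfl | rfl | rfl | rfl | rfl | rfl | rfl | rfl | rfl | rfl | rfl | rfl | rfl | rfl | rfl | rfl | rfl | rfl
  · exact x078_0
  · exact x078_1
  · exact x078_2
  · exact x078_3
  · exact x078_4
  · exact x078_5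
  · exact x078_6
  · exact x078_7
  · exact x078_8
  · exact x078_9
  · exact x078_10
  · exact x078_11
  · exact x078_12
  · exact x078_13
  · exact x078_14
  · exact x078_15
  · exact x078_16
  · exact x078_17
  · exact x078_18
  · exact x078_19
  · exact x078_20
  · exact x078_21
  · exact x078_22
  · exact x078_23
  · exact x078_24
  · exact x078_25
  · exact x078_26
  · exact x078_27
  · exact x078_28
  · exact x078_29

end Pool.Agent.V5helper47.EV
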