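import Pool.Agent.V5helper47.EV.S2

/-! Search, part of the half words. -/

set_option maxRecDepth 1000000

namespace Pool.Agent.V5helper47.EV

open H419R2 Pool.Agent.N911 Pool.Agent.V5helper47.CN

theorem x079_0 : fam (wl [4,13,1,6,8]) 289 142 = true := by decide +kernel
theorem x079_1 : fam (wl [1,3,13,1,6,7,1]) 2926 4417 = true := by decide +kernel
theorem x079_2 : fam (wl [1,1,1,3,2,1,2,1,7,3]) 3043 3890 = true := by decide +kernel
theorem x079_3 : fam (wl [2,1,3,2,1,2,1,7,2,1]) 172 125 = true := by decide +kernel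
theorem x079_4 : fam (wl [8,2,1,1,3,1,16]) 2039 486 = true := by decide +kernel
theorem x079_5 : fam (wl [3,1,2,4,1,1,1,2,7]) 2822 1530 = true := by decide +kernel
theorem x079_6 : fam (wl [1,2,1,2,4,1,1,1,2,6,1]) 415 607 = true := by decide +kernel
theorem x079_7 : fam (wl [1,7,2,1,1,3,1,15,1]) 1198 2113 = true := by decide +kernel
theorem x079_8 : fam (wl [2,1,2,1,2,1,6,2,5]) 959 702 = true := by decide +kernel
theorem x079_9 : fam (wl [2,27,1,13,4]) 3141 3086 = true := by decide +kernel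
theorem x079_10 : fam (wl [1,1,27,1,13,3,1]) 98 101 = true := by decide +kernel
theorem x079_11 : fam (wl [1,1,1,2,1,2,1,6,2,4,1]) 2280 2893 = true := by decide +kernel
theorem x079_12 : fam (wl [6,3,2,2,1,1,12]) 2410 766 = true := by decide +kernel
theorem x079_13 : fam (wl [1,55,1,27,2]) 825 1622 = true := by decide +kernel
theorem x079_14 : fam (wl [56,1,27,1,1]) 2420 85 = true := by decide +kernel
theorem x079_15 : fam (wl [1,5,3,2,2,1,1,11,1]) 835 1407 = true := by decide +kernel
theorem x079_16 : fam (wl [1,1,6,2,2,2,1,2,1,3]) 632 678 = true := by decide +kernel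
theorem x079_17 : fam (wl [1,1,2,1,5,11,2,3]) 1212 1394 = true := by decide +kernel
theorem x079_18 : fam (wl [2,2,1,5,11,2,2,1]) 2035 1731 = true := by decide +kernel
theorem x079_19 : fam (wl [2,6,2,2,2,1,2,1,2,1]) 2615 2427 = true := by decide +kernel
theorem x079_20 : fam (wl [1,56,28,2]) 2423 4762 = true := by decide +kernel
theorem x079_21 : fam (wl [57,28,1,1]) 826 29 = true := by decide +kernel
theorem x079_22 : fam (wl [1,20,1,1,3,10,2]) 2706 5162 = true := by decide +kernel
theorem x079_23 : fam (wl [21,1,1,3,10,1,1]) 549 51 = true := by decide +kernel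
theorem x079_24 : fam (wl [2,28,14,4]) 1728 1698 = true := by decide +kernel
theorem x079_25 : fam (wl [1,1,28,14,3,1]) 1527 1555 = true := by decide +kernel
theorem x079_26 : fam (wl [1,6,1,1,3,1,1,3,3,2]) 1190 2066 = true := by decide +kernel
theorem x079_27 : fam (wl [7,1,1,3,1,1,3,3,1,1]) 2067 547 = true := by decide +kernel
/-- words with first entry from 3217 to 3265 -/
def L079 : List (List ℕ × ℕ × ℕ) := [([4,13,1,6,8],289,142), ([1,3,13,1,6,7,1],2926,4417), ([1,1,1,3,2,1,2,1,7,3],3043,3890), ([2,1,3,2,1,2,1,7,2,1],172,125), ([8,2,1,1,3,1,16],2039,486), ([3,1,2,4,1,1,1,2,7],2822,1530), ([1,2,1,2,4,1,1,1,2,6,1],415,607), ([1,7,2,1,1,3,1,15,1],1198,2113), ([2,1,2,1,2,1,6,2,5],959,702), ([2,27,1,13,4],3141,3086), ([1,1,27,1,13,3,1],98,101), ([1,1,1,2,1,2,1,6,2,4,1],2280,2893), ([6,3,2,2,1,1,12],2410,766), ([1,55,1,27,2],825,1622), ([56,1,27,1,1],2420,85), ([1,5,3,2,2,1,1,11,1],835,1407), ([1,1,6,2,2,2,1,2,1,3],632,678), ([1,1,2,1,5,11,2,3],1212,1394), ([2,2,1,5,11,2,2,1],2035,1731),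 ([2,6,2,2,2,1,2,1,2,1],2615,2427), ([1,56,28,2],2423,4762), ([57,28,1,1],826,29), ([1,20,1,1,3,10,2],2706,5162), ([21,1,1,3,10,1,1],549,51), ([2,28,14,4],1728,1698), ([1,1,28,14,3,1],1527,1555), ([1,6,1,1,3,1,1,3,3,2],1190,2066), ([7,1,1,3,1,1,3,3,1,1],2067,547)]
theorem r079 : rgV L079 3217 25 = true := by decide +kernel
theorem f079 : ∀ p ∈ L079, fam (wl p.1) p.2.1 p.2.2 = true := by
  intro p hp
  simp only [L079, List.mem_cons, List.not_mem_nil, or_false] at hp
  rcases hp with rfl | rfl | rfl | rfl | rfl | rfl | rfl | rfl | rfl | rfl | rfl | rfl | rfl | rfl | rfl | rfl | rfl | rfl | rfl | rfl | rfl | rfl | rfl | rfl | rfl | rfl | rfl | rfl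
  · exact x079_0
  · exact x079_1
  · exact x079_2
  · exact x079_3
  · exact x079_4
  · exact x079_5
  · exact x079_6
  · exact x079_7
  · exact x079_8
  · exact x079_9
  · exact x079_10
  · exact x079_11
  · exact x079_12
  · exact x079_13
  · exact x079_14
  · exact x079_15
  · exact x079_16
  · exact x079_17
  · exact x079_18
  · exact x079_19
  · exact x079_20
  · exact x079_21
  · exact x079_22
  · exact x079_23
  · exact x079_24
  · exact x079_25
  · exact x079_26
  · exact x079_27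

end Pool.Agent.V5helper47.EV
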