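import Pool.Agent.V5helper47.EV.S2

/-! Search, part of the half words. -/

set_option maxRecDepth 1000000

namespace Pool.Agent.V5helper47.EV

open H419R2 Pool.Agent.N911 Pool.Agent.V5helper47.CN

theorem x080_0 : fam (wl [23,2,1,46]) 210 18 = true := by decide +kernel
theorem x080_1 : fam (wl [1,3,1,1,1,1,1,3,4,1,1,2]) 3176 4978 = true := by decide +kernel
theorem x080_2 : fam (wl [4,1,1,1,1,1,3,4,1,1,1,1]) 89 39 = true := by decide +kernel
theorem x080_3 : fam (wl [1,22,2,1,45,1]) 3055 5851 = true := by decide +kernel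
theorem x080_4 : fam (wl [15,3,1,1,30]) 2522 330 = true := by decide +kernel
theorem x080_5 : fam (wl [1,14,3,1,1,29,1]) 747 1399 = true := by decide +kernel
theorem x080_6 : fam (wl [3,10,1,2,5,6]) 2088 1350 = true := by decide +kernel
theorem x080_7 : fam (wl [2,1,10,2,1,4,1,5]) 457 314 = true := by decide +kernel
theorem x080_8 : fam (wl [1,1,1,10,2,1,4,1,4,1]) 2814 3697 = true := by decide +kernel
theorem x080_9 : fam (wl [1,2,10,1,2,5,5,1]) 1183 1603 = true := by decide +kernel
theorem x080_10 : fam (wl [9,1,4,1,1,1,19]) 442 90 = true := by decide +kernel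
theorem x080_11 : fam (wl [4,1,1,3,1,8,9]) 1089 478 = true := by decide +kernel
theorem x080_12 : fam (wl [1,3,1,1,3,1,8,8,1]) 2190 3421 = true := by decide +kernel
theorem x080_13 : fam (wl [1,8,1,4,1,1,1,18,1]) 2837 5099 = true := by decide +kernel
theorem x080_14 : fam (wl [4,2,4,8,1,8]) 1098 494 = true := by decide +kernel
theorem x080_15 : fam (wl [4,14,7,8]) 525 258 = true := by decide +kernel
theorem x080_16 : fam (wl [1,3,14,7,7,1]) 2754 4157 = true := by decide +kernel
theorem x080_17 : fam (wl [1,3,2,4,8,1,7,1]) 2181 3383 = true := by decide +kernel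
theorem x080_18 : fam (wl [6,5,2,1,2,12]) 1565 506 = true := by decide +kernel
theorem x080_19 : fam (wl [1,4,1,4,1,2,2,2,2,2]) 1930 3198 = true := by decide +kernel
theorem x080_20 : fam (wl [5,1,4,1,2,2,2,2,1,1]) 1359 467 = true := by decide +kernel
theorem x080_21 : fam (wl [1,5,5,2,1,2,11,1]) 1724 2893 = true := by decide +kernel
theorem x080_22 : fam (wl [1,1,2,11,5,1,2,3]) 283 338 = true := by decide +kernel
theorem x080_23 : fam (wl [2,2,11,5,1,2,2,1]) 3014 2433 = true := by decide +kernel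
theorem x080_24 : fam (wl [5,2,1,1,2,3,1,10]) 964 358 = true := by decide +kernel
theorem x080_25 : fam (wl [1,4,2,1,1,2,3,1,9,1]) 2341 3815 = true := by decide +kernel
theorem x080_26 : fam (wl [1,5,1,4,1,10,1,2,2]) 2810 4798 = true := by decide +kernel
theorem x080_27 : fam (wl [6,1,4,1,10,1,2,1,1]) 501 147 = true := by decide +kernel
theorem x080_28 : fam (wl [1,1,2,1,1,4,2,3,2,3]) 785 914 = true := by decide +kernel
theorem x080_29 : fam (wl [2,2,1,1,4,2,3,2,2,1]) 2526 2113 = true := by decide +kernel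
/-- words with first entry from 3267 to 3317 -/
def L080 : List (List ℕ × ℕ × ℕ) := [([23,2,1,46],210,18), ([1,3,1,1,1,1,1,3,4,1,1,2],3176,4978), ([4,1,1,1,1,1,3,4,1,1,1,1],89,39), ([1,22,2,1,45,1],3055,5851), ([15,3,1,1,30],2522,330), ([1,14,3,1,1,29,1],747,1399), ([3,10,1,2,5,6],2088,1350), ([2,1,10,2,1,4,1,5],457,314), ([1,1,1,10,2,1,4,1,4,1],2814,3697), ([1,2,10,1,2,5,5,1],1183,1603), ([9,1,4,1,1,1,19],442,90), ([4,1,1,3,1,8,9],1089,478), ([1,3,1,1,3,1,8,8,1],2190,3421), ([1,8,1,4,1,1,1,18,1],2837,5099), ([4,2,4,8,1,8],1098,494), ([4,14,7,8],525,258), ([1,3,14,7,7,1],2754,4157), ([1,3,2,4,8,1,7,1],2181,3383), ([6,5,2,1,2,12],1565,506), ([1,4,1,4,1,2,2,2,2,2],1930,3198), ([5,1,4,1,2,2,2,2,1,1],1359,467), ([1,5,5,2,1,2,11,1],1724,2893), ([1,1,2,11,5,1,2,3],283,338), ([2,2,11,5,1,2,2,1],3014,2433), ([5,2,1,1,2,3,1,10],964,358), ([1,4,2,1,1,2,3,1,9,1],2341,3815), ([1,5,1,4,1,10,1,2,2],2810,4798), ([6,1,4,1,10,1,2,1,1],501,147), ([1,1,2,1,1,4,2,3,2,3],785,914), ([2,2,1,1,4,2,3,2,2,1],2526,2113)]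
theorem r080 : rgV L080 3267 26 = true := by decide +kernel
theorem f080 : ∀ p ∈ L080, fam (wl p.1) p.2.1 p.2.2 = true := by
  intro p hp
  simp only [L080, List.mem_cons, List.not_mem_nil, or_false] at hp
  rcases hp with rfl | rfl | rfl | rfl | rfl | rfl | rfl | rfl | rfl | rfl | rfl | rfl | rfl | rfl | rfl | rfl | rfl | rfl | rfl | rfl | rfl | rfl | rfl | rfl | rfl | rfl | rfl | rfl | rfl | rfl
  · exact x080_0
  · exact x080_1
  · exact x080_2
  · exact x080_3
  · exact x080_4
  · exact x080_5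
  · exact x080_6
  · exact x080_7
  · exact x080_8
  · exact x080_9
  · exact x080_10
  · exact x080_11
  · exact x080_12
  · exact x080_13
  · exact x080_14
  · exact x080_15
  · exact x080_16
  · exact x080_17
  · exact x080_18
  · exact x080_19
  · exact x080_20
  · exact x080_21
  · exact x080_22
  · exact x080_23
  · exact x080_24
  · exact x080_25
  · exact x080_26
  · exact x080_27
  · exact x080_28
  · exact x080_29

end Pool.Agent.V5helper47.EV
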