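import Pool.Agent.V5helper47.EV.S2

/-! Search, part of the half words. -/

set_option maxRecDepth 1000000

namespace Pool.Agent.V5helper47.EV

open H419R2 Pool.Agent.N911 Pool.Agent.V5helper47.CN

theorem x081_0 : fam (wl [1,3,1,1,5,1,2,3,1,1,2]) 2040 3182 = true := by decide +kernel
theorem x081_1 : fam (wl [4,1,1,5,1,2,3,1,1,1,1]) 1277 563 = true := by decide +kernel
theorem x081_2 : fam (wl [5,3,3,1,1,1,1,10]) 1862 702 = true := by decide +kernel
theorem x081_3 : fam (wl [1,2,1,1,1,3,7,3,1,2]) 1656 2402 = true := by decide +kernel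
theorem x081_4 : fam (wl [3,1,1,1,3,7,3,1,1,1]) 1663 915 = true := by decide +kernel
theorem x081_5 : fam (wl [1,4,3,3,1,1,1,1,9,1]) 1457 2367 = true := by decide +kernel
theorem x081_6 : fam (wl [6,2,1,2,1,2,1,12]) 732 230 = true := by decide +kernel
theorem x081_7 : fam (wl [1,5,2,1,2,1,2,1,11,1]) 2589 4367 = true := by decide +kernel
theorem x081_8 : fam (wl [1,3,1,2,3,1,1,5,1,1,2]) 964 1518 = true := by decide +kernel
theorem x081_9 : fam (wl [4,1,2,3,1,1,5,1,1,1,1]) 2363 1007 = true := by decide +kernel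
theorem x081_10 : fam (wl [1,3,4,1,1,3,1,1,1,1,1,2]) 2229 3402 = true := by decide +kernel
theorem x081_11 : fam (wl [4,4,1,1,3,1,1,1,1,1,1,1]) 1098 521 = true := by decide +kernel
theorem x081_12 : fam (wl [1,1,2,3,2,4,1,1,2,3]) 2308 2722 = true := by decide +kernel
theorem x081_13 : fam (wl [2,2,3,2,4,1,1,2,2,1]) 1021 839 = true := by decide +kernel
theorem x081_14 : fam (wl [4,1,3,1,1,3,1,1,9]) 1219 510 = true := by decide +kernel
theorem x081_15 : fam (wl [1,4,7,1,15,2,2]) 3149 5070 = true := by decide +kernel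
theorem x081_16 : fam (wl [5,7,1,15,2,1,1]) 186 73 = true := by decide +kernel
theorem x081_17 : fam (wl [1,3,1,3,1,1,3,1,1,8,1]) 2116 3349 = true := by decide +kernel
theorem x081_18 : fam (wl [1,1,10,2,2,1,4,1,3]) 1742 1822 = true := by decide +kernel
theorem x081_19 : fam (wl [2,10,2,2,1,4,1,2,1]) 1599 1527 = true := by decide +kernel
theorem x081_20 : fam (wl [7,8,4,14]) 1061 298 = true := by decide +kernel
theorem x081_21 : fam (wl [1,6,8,4,13,1]) 2284 3929 = true := by decide +kernel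
theorem x081_22 : fam (wl [2,1,2,6,1,2,1,2,5]) 1907 1422 = true := by decide +kernel
theorem x081_23 : fam (wl [1,1,1,12,1,26,3]) 2112 2782 = true := by decide +kernel
theorem x081_24 : fam (wl [2,1,12,1,26,2,1]) 1239 847 = true := by decide +kernel
theorem x081_25 : fam (wl [1,1,1,2,6,1,2,1,2,4,1]) 1444 1813 = true := by decide +kernel
theorem x081_26 : fam (wl [3,4,2,1,5,2,6]) 255 158 = true := by decide +kernel
theorem x081_27 : fam (wl [1,2,4,2,1,5,2,5,1]) 3102 4285 = true := by decide +kernel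
/-- words with first entry from 3319 to 3359 -/
def L081 : List (List ℕ × ℕ × ℕ) := [([1,3,1,1,5,1,2,3,1,1,2],2040,3182), ([4,1,1,5,1,2,3,1,1,1,1],1277,563), ([5,3,3,1,1,1,1,10],1862,702), ([1,2,1,1,1,3,7,3,1,2],1656,2402), ([3,1,1,1,3,7,3,1,1,1],1663,915), ([1,4,3,3,1,1,1,1,9,1],1457,2367), ([6,2,1,2,1,2,1,12],732,230), ([1,5,2,1,2,1,2,1,11,1],2589,4367), ([1,3,1,2,3,1,1,5,1,1,2],964,1518), ([4,1,2,3,1,1,5,1,1,1,1],2363,1007), ([1,3,4,1,1,3,1,1,1,1,1,2],2229,3402), ([4,4,1,1,3,1,1,1,1,1,1,1],1098,521), ([1,1,2,3,2,4,1,1,2,3],2308,2722), ([2,2,3,2,4,1,1,2,2,1],1021,839), ([4,1,3,1,1,3,1,1,9],1219,510), ([1,4,7,1,15,2,2],3149,5070), ([5,7,1,15,2,1,1],186,73), ([1,3,1,3,1,1,3,1,1,8,1],2116,3349), ([1,1,10,2,2,1,4,1,3],1742,1822), ([2,10,2,2,1,4,1,2,1],1599,1527), ([7,8,4,14],1061,298), ([1,6,8,4,13,1],2284,3929), ([2,1,2,6,1,2,1,2,5],1907,1422), ([1,1,1,12,1,26,3],2112,2782), ([2,1,12,1,26,2,1],1239,847), ([1,1,1,2,6,1,2,1,2,4,1],1444,1813), ([3,4,2,1,5,2,6],255,158),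 ([1,2,4,2,1,5,2,5,1],3102,4285)]
theorem r081 : rgV L081 3319 21 = true := by decide +kernel
theorem f081 : ∀ p ∈ L081, fam (wl p.1) p.2.1 p.2.2 = true := by
  intro p hp
  simp only [L081, List.mem_cons, List.not_mem_nil, or_false] at hp
  rcases hp with rfl | rfl | rfl | rfl | rfl | rfl | rfl | rfl | rfl | rfl | rfl | rfl | rfl | rfl | rfl | rfl | rfl | rfl | rfl | rfl | rfl | rfl | rfl | rfl | rfl | rfl | rfl | rfl
  · exact x081_0
  · exact x081_1
  · exact x081_2
  · exact x081_3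
  · exact x081_4
  · exact x081_5
  · exact x081_6
  · exact x081_7
  · exact x081_8
  · exact x081_9
  · exact x081_10
  · exact x081_11
  · exact x081_12
  · exact x081_13
  · exact x081_14
  · exact x081_15
  · exact x081_16
  · exact x081_17
  · exact x081_18
  · exact x081_19
  · exact x081_20
  · exact x081_21
  · exact x081_22
  · exact x081_23
  · exact x081_24
  · exact x081_25
  · exact x081_26
  · exact x081_27

end Pool.Agent.V5helper47.EV
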