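import Pool.Agent.V5helper47.EV.S2

/-! Search, part of the half words. -/

set_option maxRecDepth 1000000

namespace Pool.Agent.V5helper47.EV

open H419R2 Pool.Agent.N911 Pool.Agent.V5helper47.CN

theorem x082_0 : fam (wl [40,1,81]) 3320 162 = true := by decide +kernel
theorem x082_1 : fam (wl [1,39,1,80,1]) 39 79 = true := by decide +kernel
theorem x082_2 : fam (wl [23,1,2,47]) 213 18 = true := by decide +kernel
theorem x082_3 : fam (wl [1,22,1,2,46,1]) 3146 6029 = true := by decide +kernel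
theorem x082_4 : fam (wl [41,82]) 41 2 = true := by decide +kernel
theorem x082_5 : fam (wl [12,2,1,2,1,24]) 1496 242 = true := by decide +kernel
theorem x082_6 : fam (wl [1,1,2,2,2,2,2,2,2,3]) 3361 3938 = true := by decide +kernel
theorem x082_7 : fam (wl [1,2,4,4,2,8,1,2]) 1535 2122 = true := by decide +kernel
theorem x082_8 : fam (wl [3,4,4,2,8,1,1,1]) 1826 1129 = true := by decide +kernel
theorem x082_9 : fam (wl [2,2,2,2,2,2,2,2,2,1]) 3363 2787 = true := by decide +kernel
theorem x082_10 : fam (wl [1,11,2,1,2,1,23,1]) 1865 3431 = true := by decide +kernel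
theorem x082_11 : fam (wl [1,40,81,1]) 3320 6481 = true := by decide +kernel
theorem x082_12 : fam (wl [2,2,4,2,1,8,1,4]) 1295 1058 = true := by decide +kernel
theorem x082_13 : fam (wl [1,12,3,6,6,2]) 1324 2450 = true := by decide +kernel
theorem x082_14 : fam (wl [13,3,6,6,1,1]) 2043 307 = true := by decide +kernel
theorem x082_15 : fam (wl [1,1,2,4,2,1,8,1,3,1]) 2072 2453 = true := by decide +kernel
theorem x082_16 : fam (wl [1,1,1,13,27,3]) 2370 3122 = true := by decide +kernel
theorem x082_17 : fam (wl [2,1,13,27,2,1]) 999 683 = true := by decide +kernel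
theorem x082_18 : fam (wl [1,1,2,1,2,1,2,6,2,3]) 1851 2138 = true := by decide +kernel
theorem x082_19 : fam (wl [1,7,7,3,1,1,3,2]) 2306 4046 = true := by decide +kernel
theorem x082_20 : fam (wl [8,7,3,1,1,3,1,1]) 1069 263 = true := by decide +kernel
theorem x082_21 : fam (wl [2,2,1,2,1,2,6,2,2,1]) 1524 1289 = true := by decide +kernel
theorem x082_22 : fam (wl [4,2,1,3,1,1,2,1,8]) 2681 1230 = true := by decide +kernel
theorem x082_23 : fam (wl [1,2,2,7,1,3,4,1,2]) 3370 4798 = true := by decide +kernel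
theorem x082_24 : fam (wl [3,2,7,1,3,4,1,1,1]) 11 7 = true := by decide +kernel
theorem x082_25 : fam (wl [1,3,2,1,3,1,1,2,1,7,1]) 700 1081 = true := by decide +kernel
theorem x082_26 : fam (wl [1,1,8,3,1,1,1,3,1,3]) 3347 3538 = true := by decide +kernel
theorem x082_27 : fam (wl [1,4,8,16,2,2]) 1544 2486 = true := by decide +kernel
theorem x082_28 : fam (wl [5,8,16,2,1,1]) 1841 719 = true := by decide +kernel
theorem x082_29 : fam (wl [2,8,3,1,1,1,3,1,2,1]) 38 37 = true := by decide +kernel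
/-- words with first entry from 3361 to 3389 -/
def L082 : List (List ℕ × ℕ × ℕ) := [([40,1,81],3320,162), ([1,39,1,80,1],39,79), ([23,1,2,47],213,18), ([1,22,1,2,46,1],3146,6029), ([41,82],41,2), ([12,2,1,2,1,24],1496,242), ([1,1,2,2,2,2,2,2,2,3],3361,3938), ([1,2,4,4,2,8,1,2],1535,2122), ([3,4,4,2,8,1,1,1],1826,1129), ([2,2,2,2,2,2,2,2,2,1],3363,2787), ([1,11,2,1,2,1,23,1],1865,3431), ([1,40,81,1],3320,6481), ([2,2,4,2,1,8,1,4],1295,1058), ([1,12,3,6,6,2],1324,2450), ([13,3,6,6,1,1],2043,307), ([1,1,2,4,2,1,8,1,3,1],2072,2453), ([1,1,1,13,27,3],2370,3122), ([2,1,13,27,2,1],999,683), ([1,1,2,1,2,1,2,6,2,3],1851,2138), ([1,7,7,3,1,1,3,2],2306,4046), ([8,7,3,1,1,3,1,1],1069,263), ([2,2,1,2,1,2,6,2,2,1],1524,1289), ([4,2,1,3,1,1,2,1,8],2681,1230), ([1,2,2,7,1,3,4,1,2],3370,4798), ([3,2,7,1,3,4,1,1,1],11,7), ([1,3,2,1,3,1,1,2,1,7,1],700,1081), ([1,1,8,3,1,1,1,3,1,3],3347,3538), ([1,4,8,16,2,2],1544,2486), ([5,8,16,2,1,1],1841,719), ([2,8,3,1,1,1,3,1,2,1],38,37)]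
theorem r082 : rgV L082 3361 15 = true := by decide +kernel
theorem f082 : ∀ p ∈ L082, fam (wl p.1) p.2.1 p.2.2 = true := by
  intro p hp
  simp only [L082, List.mem_cons, List.not_mem_nil, or_false] at hp
  rcases hp with rfl | rfl | rfl | rfl | rfl | rfl | rfl | rfl | rfl | rfl | rfl | rfl | rfl | rfl | rfl | rfl | rfl | rfl | rfl | rfl | rfl | rfl | rfl | rfl | rfl | rfl | rfl | rfl | rfl | rfl
  · exact x082_0
  · exact x082_1
  · exact x082_2
  · exact x082_3
  · exact x082_4
  · exact x082_5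
  · exact x082_6
  · exact x082_7
  · exact x082_8
  · exact x082_9
  · exact x082_10
  · exact x082_11
  · exact x082_12
  · exact x082_13
  · exact x082_14
  · exact x082_15
  · exact x082_16
  · exact x082_17
  · exact x082_18
  · exact x082_19
  · exact x082_20
  · exact x082_21
  · exact x082_22
  · exact x082_23
  · exact x082_24
  · exact x082_25
  · exact x082_26
  · exact x082_27
  · exact x082_28
  · exact x082_29

end Pool.Agent.V5helper47.EV
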