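import Pool.Agent.V5helper47.EV.T7
import Pool.Agent.V5helper47.EV.W042
import Pool.Agent.V5helper47.EV.W043
import Pool.Agent.V5helper47.EV.W044
import Pool.Agent.V5helper47.EV.W045
import Pool.Agent.V5helper47.EV.W046
import Pool.Agent.V5helper47.EV.W047
import Pool.Agent.V5helper47.EV.W048
import Pool.Agent.V5helper47.EV.W049
import Pool.Agent.V5helper47.EV.W050
import Pool.Agent.V5helper47.EV.W051
import Pool.Agent.V5helper47.EV.W052
import Pool.Agent.V5helper47.EV.W053
import Pool.Agent.V5helper47.EV.W054
import Pool.Agent.V5helper47.EV.W055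
import Pool.Agent.V5helper47.EV.W056
import Pool.Agent.V5helper47.EV.W057
import Pool.Agent.V5helper47.EV.W058
import Pool.Agent.V5helper47.EV.W059
import Pool.Agent.V5helper47.EV.W060
import Pool.Agent.V5helper47.EV.W061
import Pool.Agent.V5helper47.EV.W062
import Pool.Agent.V5helper47.EV.W063
import Pool.Agent.V5helper47.EV.W064
import Pool.Agent.V5helper47.EV.W065
import Pool.Agent.V5helper47.EV.W066
import Pool.Agent.V5helper47.EV.W067
import Pool.Agent.V5helper47.EV.W068
import Pool.Agent.V5helper47.EV.W069
import Pool.Agent.V5helper47.EV.W070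
import Pool.Agent.V5helper47.EV.W071
import Pool.Agent.V5helper47.EV.W072
import Pool.Agent.V5helper47.EV.W073
import Pool.Agent.V5helper47.EV.W074
import Pool.Agent.V5helper47.EV.W075
import Pool.Agent.V5helper47.EV.W076
import Pool.Agent.V5helper47.EV.W077
import Pool.Agent.V5helper47.EV.W078
import Pool.Agent.V5helper47.EV.W079
import Pool.Agent.V5helper47.EV.W080
import Pool.Agent.V5helper47.EV.W081
import Pool.Agent.V5helper47.EV.W082

/-! Half words, part of the range. -/

set_option maxRecDepth 1000000

namespace Pool.Agent.V5helper47.EV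

open H419R2 Pool.Agent.N911 Pool.Agent.V5helper47.CN

theorem full_2 {w : WL} (hw : w.Pos) (h0 : 1691 ≤ (mat w).1) (hB : (mat w).1 ≤ 3390)
    (hodd : (mat w).1 % 2 = 1)
    (hval : ∃ b m, b * (mat w).1 + 2 * (mat w).2.1 = m * (mat w).1 + (mat w).2.2.1) :
    ∃ b0 P0, fam w b0 P0 = true := by
  by_cases g0 : (mat w).1 ≤ 1736
  · exact fam_of_range r042 f042 hw (by norm_num) (by norm_num) (by omega) (by omega) hodd hval
  by_cases g1 : (mat w).1 ≤ 1778
  · exact fam_of_range r043 f043 hw (by norm_num) (by norm_num) (by omega) (by omega) hodd hval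
  by_cases g2 : (mat w).1 ≤ 1816
  · exact fam_of_range r044 f044 hw (by norm_num) (by norm_num) (by omega) (by omega) hodd hval
  by_cases g3 : (mat w).1 ≤ 1856
  · exact fam_of_range r045 f045 hw (by norm_num) (by norm_num) (by omega) (by omega) hodd hval
  by_cases g4 : (mat w).1 ≤ 1898
  · exact fam_of_range r046 f046 hw (by norm_num) (by norm_num) (by omega) (by omega) hodd hval
  by_cases g5 : (mat w).1 ≤ 1930
  · exact fam_of_range r047 f047 hw (by norm_num) (by norm_num) (by omega) (by omega) hodd hval
  by_cases g6 : (mat w).1 ≤ 1986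
  · exact fam_of_range r048 f048 hw (by norm_num) (by norm_num) (by omega) (by omega) hodd hval
  by_cases g7 : (mat w).1 ≤ 2032
  · exact fam_of_range r049 f049 hw (by norm_num) (by norm_num) (by omega) (by omega) hodd hval
  by_cases g8 : (mat w).1 ≤ 2080
  · exact fam_of_range r050 f050 hw (by norm_num) (by norm_num) (by omega) (by omega) hodd hval
  by_cases g9 : (mat w).1 ≤ 2112
  · exact fam_of_range r051 f051 hw (by norm_num) (by norm_num) (by omega) (by omega) hodd hval
  by_cases g10 : (mat w).1 ≤ 2158
  · exact fam_of_range r052 f052 hw (by norm_num) (by norm_num) (by omega) (by omega) hodd hval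
  by_cases g11 : (mat w).1 ≤ 2192
  · exact fam_of_range r053 f053 hw (by norm_num) (by norm_num) (by omega) (by omega) hodd hval
  by_cases g12 : (mat w).1 ≤ 2226
  · exact fam_of_range r054 f054 hw (by norm_num) (by norm_num) (by omega) (by omega) hodd hval
  by_cases g13 : (mat w).1 ≤ 2272
  · exact fam_of_range r055 f055 hw (by norm_num) (by norm_num) (by omega) (by omega) hodd hval
  by_cases g14 : (mat w).1 ≤ 2310
  · exact fam_of_range r056 f056 hw (by norm_num) (by norm_num) (by omega) (by omega) hodd hval
  by_cases g15 : (mat w).1 ≤ 2350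
  · exact fam_of_range r057 f057 hw (by norm_num) (by norm_num) (by omega) (by omega) hodd hval
  by_cases g16 : (mat w).1 ≤ 2398
  · exact fam_of_range r058 f058 hw (by norm_num) (by norm_num) (by omega) (by omega) hodd hval
  by_cases g17 : (mat w).1 ≤ 2426
  · exact fam_of_range r059 f059 hw (by norm_num) (by norm_num) (by omega) (by omega) hodd hval
  by_cases g18 : (mat w).1 ≤ 2470
  · exact fam_of_range r060 f060 hw (by norm_num) (by norm_num) (by omega) (by omega) hodd hval
  by_cases g19 : (mat w).1 ≤ 2528
  · exact fam_of_range r061 f061 hw (by norm_num) (by norm_num) (by omega) (by omega) hodd hval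
  by_cases g20 : (mat w).1 ≤ 2568
  · exact fam_of_range r062 f062 hw (by norm_num) (by norm_num) (by omega) (by omega) hodd hval
  by_cases g21 : (mat w).1 ≤ 2602
  · exact fam_of_range r063 f063 hw (by norm_num) (by norm_num) (by omega) (by omega) hodd hval
  by_cases g22 : (mat w).1 ≤ 2648
  · exact fam_of_range r064 f064 hw (by norm_num) (by norm_num) (by omega) (by omega) hodd hval
  by_cases g23 : (mat w).1 ≤ 2688
  · exact fam_of_range r065 f065 hw (by norm_num) (by norm_num) (by omega) (by omega) hodd hval
  by_cases g24 : (mat w).1 ≤ 2736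
  · exact fam_of_range r066 f066 hw (by norm_num) (by norm_num) (by omega) (by omega) hodd hval
  by_cases g25 : (mat w).1 ≤ 2760
  · exact fam_of_range r067 f067 hw (by norm_num) (by norm_num) (by omega) (by omega) hodd hval
  by_cases g26 : (mat w).1 ≤ 2806
  · exact fam_of_range r068 f068 hw (by norm_num) (by norm_num) (by omega) (by omega) hodd hval
  by_cases g27 : (mat w).1 ≤ 2842
  · exact fam_of_range r069 f069 hw (by norm_num) (by norm_num) (by omega) (by omega) hodd hval
  by_cases g28 : (mat w).1 ≤ 2896
  · exact fam_of_range r070 f070 hw (by norm_num) (by norm_num) (by omega) (by omega) hodd hval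
  by_cases g29 : (mat w).1 ≤ 2930
  · exact fam_of_range r071 f071 hw (by norm_num) (by norm_num) (by omega) (by omega) hodd hval
  by_cases g30 : (mat w).1 ≤ 2992
  · exact fam_of_range r072 f072 hw (by norm_num) (by norm_num) (by omega) (by omega) hodd hval
  by_cases g31 : (mat w).1 ≤ 3016
  · exact fam_of_range r073 f073 hw (by norm_num) (by norm_num) (by omega) (by omega) hodd hval
  by_cases g32 : (mat w).1 ≤ 3048
  · exact fam_of_range r074 f074 hw (by norm_num) (by norm_num) (by omega) (by omega) hodd hval
  by_cases g33 : (mat w).1 ≤ 3096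
  · exact fam_of_range r075 f075 hw (by norm_num) (by norm_num) (by omega) (by omega) hodd hval
  by_cases g34 : (mat w).1 ≤ 3142
  · exact fam_of_range r076 f076 hw (by norm_num) (by norm_num) (by omega) (by omega) hodd hval
  by_cases g35 : (mat w).1 ≤ 3178
  · exact fam_of_range r077 f077 hw (by norm_num) (by norm_num) (by omega) (by omega) hodd hval
  by_cases g36 : (mat w).1 ≤ 3216
  · exact fam_of_range r078 f078 hw (by norm_num) (by norm_num) (by omega) (by omega) hodd hval
  by_cases g37 : (mat w).1 ≤ 3266
  · exact fam_of_range r079 f079 hw (by norm_num) (by norm_num) (by omega) (by omega) hodd hval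
  by_cases g38 : (mat w).1 ≤ 3318
  · exact fam_of_range r080 f080 hw (by norm_num) (by norm_num) (by omega) (by omega) hodd hval
  by_cases g39 : (mat w).1 ≤ 3360
  · exact fam_of_range r081 f081 hw (by norm_num) (by norm_num) (by omega) (by omega) hodd hval
  exact fam_of_range r082 f082 hw (by norm_num) (by norm_num) (by omega) (by omega) hodd hval

end Pool.Agent.V5helper47.EV
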