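import Pool.Agent.V5helper47.EV.S2

/-! Search, part of the half words. -/

set_option maxRecDepth 1000000

namespace Pool.Agent.V5helper47.EV

open H419R2 Pool.Agent.N911 Pool.Agent.V5helper47.CN

theorem x083_0 : fam (wl [2,2,2,1,2,2,5,1,4]) 1160 958 = true := by decide +kernel
theorem x083_1 : fam (wl [1,1,2,2,1,2,2,5,1,3,1]) 2229 2619 = true := by decide +kernel
theorem x083_2 : fam (wl [1,1,4,1,1,2,1,3,1,1,1,3]) 3002 3298 = true := by decide +kernel
theorem x083_3 : fam (wl [1,32,1,2,16,2]) 2474 4802 = true := by decide +kernel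
theorem x083_4 : fam (wl [33,1,2,16,1,1]) 925 55 = true := by decide +kernel
theorem x083_5 : fam (wl [2,4,1,1,2,1,3,1,1,1,2,1]) 397 359 = true := by decide +kernel
theorem x083_6 : fam (wl [1,1,16,2,1,7,1,3]) 328 338 = true := by decide +kernel
theorem x083_7 : fam (wl [1,18,2,4,9,2]) 456 866 = true := by decide +kernel
theorem x083_8 : fam (wl [19,2,4,9,1,1]) 2945 303 = true := by decide +kernel
theorem x083_9 : fam (wl [2,16,2,1,7,1,2,1]) 3073 2983 = true := by decide +kernel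
theorem x083_10 : fam (wl [1,1,4,1,2,1,6,1,1,1,3]) 217 238 = true := by decide +kernel
theorem x083_11 : fam (wl [2,4,1,2,1,6,1,1,1,2,1]) 3188 2885 = true := by decide +kernel
theorem x083_12 : fam (wl [8,1,1,1,1,4,17]) 2264 526 = true := by decide +kernel
theorem x083_13 : fam (wl [5,1,8,1,3,1,11]) 2884 978 = true := by decide +kernel
theorem x083_14 : fam (wl [1,4,1,8,1,3,1,10,1]) 523 871 = true := by decide +kernel
theorem x083_15 : fam (wl [1,7,1,1,1,1,4,16,1]) 1143 2023 = true := by decide +kernel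
theorem x083_16 : fam (wl [3,1,7,1,2,3,1,7]) 1853 954 = true := by decide +kernel
theorem x083_17 : fam (wl [1,5,1,5,11,1,2,2]) 1978 3378 = true := by decide +kernel
theorem x083_18 : fam (wl [6,1,5,11,1,2,1,1]) 1431 419 = true := by decide +kernel
theorem x083_19 : fam (wl [1,2,1,7,1,2,3,1,6,1]) 1556 2313 = true := by decide +kernel
theorem x083_20 : fam (wl [13,1,3,1,1,27]) 1116 162 = true := by decide +kernel
theorem x083_21 : fam (wl [2,6,1,1,2,3,3,4]) 2541 2362 = true := by decide +kernel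
theorem x083_22 : fam (wl [1,1,2,6,2,1,2,1,2,3]) 402 478 = true := by decide +kernel
theorem x083_23 : fam (wl [1,6,1,1,1,1,3,3,3,2]) 2773 4818 = true := by decide +kernel
theorem x083_24 : fam (wl [7,1,1,1,1,3,3,3,1,1]) 642 169 = true := by decide +kernel
theorem x083_25 : fam (wl [2,2,6,2,1,2,1,2,2,1]) 3013 2447 = true := by decide +kernel
theorem x083_26 : fam (wl [1,1,6,1,1,2,3,3,3,1]) 874 937 = true := by decide +kernel
theorem x083_27 : fam (wl [1,12,1,3,1,1,26,1]) 2299 4267 = true := by decide +kernel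
/-- words with first entry from 3391 to 3429 -/
def L083 : List (List ℕ × ℕ × ℕ) := [([2,2,2,1,2,2,5,1,4],1160,958), ([1,1,2,2,1,2,2,5,1,3,1],2229,2619), ([1,1,4,1,1,2,1,3,1,1,1,3],3002,3298), ([1,32,1,2,16,2],2474,4802), ([33,1,2,16,1,1],925,55), ([2,4,1,1,2,1,3,1,1,1,2,1],397,359), ([1,1,16,2,1,7,1,3],328,338), ([1,18,2,4,9,2],456,866), ([19,2,4,9,1,1],2945,303), ([2,16,2,1,7,1,2,1],3073,2983), ([1,1,4,1,2,1,6,1,1,1,3],217,238), ([2,4,1,2,1,6,1,1,1,2,1],3188,2885), ([8,1,1,1,1,4,17],2264,526), ([5,1,8,1,3,1,11],2884,978), ([1,4,1,8,1,3,1,10,1],523,871), ([1,7,1,1,1,1,4,16,1],1143,2023), ([3,1,7,1,2,3,1,7],1853,954), ([1,5,1,5,11,1,2,2],1978,3378), ([6,1,5,11,1,2,1,1],1431,419), ([1,2,1,7,1,2,3,1,6,1],1556,2313), ([13,1,3,1,1,27],1116,162), ([2,6,1,1,2,3,3,4],2541,2362), ([1,1,2,6,2,1,2,1,2,3],402,478), ([1,6,1,1,1,1,3,3,3,2],2773,4818), ([7,1,1,1,1,3,3,3,1,1],642,169), ([2,2,6,2,1,2,1,2,2,1],3013,2447), ([1,1,6,1,1,2,3,3,3,1],874,937), ([1,12,1,3,1,1,26,1],2299,4267)]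
theorem r083 : rgV L083 3391 20 = true := by decide +kernel
theorem f083 : ∀ p ∈ L083, fam (wl p.1) p.2.1 p.2.2 = true := by
  intro p hp
  simp only [L083, List.mem_cons, List.not_mem_nil, or_false] at hp
  rcases hp with rfl | rfl | rfl | rfl | rfl | rfl | rfl | rfl | rfl | rfl | rfl | rfl | rfl | rfl | rfl | rfl | rfl | rfl | rfl | rfl | rfl | rfl | rfl | rfl | rfl | rfl | rfl | rfl
  · exact x083_0
  · exact x083_1
  · exact x083_2
  · exact x083_3
  · exact x083_4
  · exact x083_5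
  · exact x083_6
  · exact x083_7
  · exact x083_8
  · exact x083_9
  · exact x083_10
  · exact x083_11
  · exact x083_12
  · exact x083_13
  · exact x083_14
  · exact x083_15
  · exact x083_16
  · exact x083_17
  · exact x083_18
  · exact x083_19
  · exact x083_20
  · exact x083_21
  · exact x083_22
  · exact x083_23
  · exact x083_24
  · exact x083_25
  · exact x083_26
  · exact x083_27

end Pool.Agent.V5helper47.EV
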