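import Pool.Agent.V5helper47.EV.S2

/-! Search, part of the half words. -/

set_option maxRecDepth 1000000

namespace Pool.Agent.V5helper47.EV

open H419R2 Pool.Agent.N911 Pool.Agent.V5helper47.CN

theorem x084_0 : fam (wl [4,1,10,1,4,1,9]) 2669 1086 = true := by decide +kernel
theorem x084_1 : fam (wl [2,10,1,1,3,5,4]) 2285 2182 = true := by decide +kernel
theorem x084_2 : fam (wl [1,1,10,1,1,3,5,3,1]) 1144 1197 = true := by decide +kernel
theorem x084_3 : fam (wl [1,3,1,10,1,4,1,8,1]) 760 1213 = true := by decide +kernel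
theorem x084_4 : fam (wl [1,11,4,1,1,1,1,5,2]) 2473 4542 = true := by decide +kernel
theorem x084_5 : fam (wl [12,4,1,1,1,1,5,1,1]) 958 157 = true := by decide +kernel
theorem x084_6 : fam (wl [7,4,1,2,2,14]) 988 274 = true := by decide +kernel
theorem x084_7 : fam (wl [1,6,4,1,2,2,13,1]) 2443 4211 = true := by decide +kernel
theorem x084_8 : fam (wl [4,1,1,4,9,9]) 387 170 = true := by decide +kernel
theorem x084_9 : fam (wl [1,6,1,3,2,1,1,2,3,2]) 1433 2498 = true := by decide +kernel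
theorem x084_10 : fam (wl [7,1,3,2,1,1,2,3,1,1]) 2008 517 = true := by decide +kernel
theorem x084_11 : fam (wl [1,3,1,1,4,9,8,1]) 3054 4769 = true := by decide +kernel
theorem x084_12 : fam (wl [1,2,1,13,1,6,2,1,2]) 1468 2190 = true := by decide +kernel
theorem x084_13 : fam (wl [3,1,13,1,6,2,1,1,1]) 1979 1007 = true := by decide +kernel
theorem x084_14 : fam (wl [1,2,2,1,5,2,1,5,1,2]) 2937 4122 = true := by decide +kernel
theorem x084_15 : fam (wl [3,2,1,5,2,1,5,1,1,1]) 510 305 = true := by decide +kernel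
theorem x084_16 : fam (wl [15,1,2,2,31]) 2687 342 = true := by decide +kernel
theorem x084_17 : fam (wl [1,14,1,2,2,30,1]) 768 1441 = true := by decide +kernel
theorem x084_18 : fam (wl [1,16,1,2,1,2,8,2]) 327 618 = true := by decide +kernel
theorem x084_19 : fam (wl [17,1,2,1,2,8,1,1]) 3128 353 = true := by decide +kernel
theorem x084_20 : fam (wl [1,1,1,7,2,1,15,3]) 1913 2498 = true := by decide +kernel
theorem x084_21 : fam (wl [1,2,7,1,2,15,1,2]) 1929 2626 = true := by decide +kernel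
theorem x084_22 : fam (wl [3,7,1,2,15,1,1,1]) 1528 977 = true := by decide +kernel
theorem x084_23 : fam (wl [2,1,7,2,1,15,2,1]) 1544 1073 = true := by decide +kernel
theorem x084_24 : fam (wl [2,1,18,1,8,1,5]) 929 630 = true := by decide +kernel
theorem x084_25 : fam (wl [1,1,1,18,1,8,1,4,1]) 2532 3349 = true := by decide +kernel
theorem x084_26 : fam (wl [3,2,1,2,1,2,1,2,1,6]) 2521 1498 = true := by decide +kernel
theorem x084_27 : fam (wl [1,2,2,1,2,1,2,1,2,1,5,1]) 944 1329 = true := by decide +kernel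
/-- words with first entry from 3431 to 3471 -/
def L084 : List (List ℕ × ℕ × ℕ) := [([4,1,10,1,4,1,9],2669,1086), ([2,10,1,1,3,5,4],2285,2182), ([1,1,10,1,1,3,5,3,1],1144,1197), ([1,3,1,10,1,4,1,8,1],760,1213), ([1,11,4,1,1,1,1,5,2],2473,4542), ([12,4,1,1,1,1,5,1,1],958,157), ([7,4,1,2,2,14],988,274), ([1,6,4,1,2,2,13,1],2443,4211), ([4,1,1,4,9,9],387,170), ([1,6,1,3,2,1,1,2,3,2],1433,2498), ([7,1,3,2,1,1,2,3,1,1],2008,517), ([1,3,1,1,4,9,8,1],3054,4769), ([1,2,1,13,1,6,2,1,2],1468,2190), ([3,1,13,1,6,2,1,1,1],1979,1007), ([1,2,2,1,5,2,1,5,1,2],2937,4122), ([3,2,1,5,2,1,5,1,1,1],510,305), ([15,1,2,2,31],2687,342), ([1,14,1,2,2,30,1],768,1441), ([1,16,1,2,1,2,8,2],327,618), ([17,1,2,1,2,8,1,1],3128,353), ([1,1,1,7,2,1,15,3],1913,2498), ([1,2,7,1,2,15,1,2],1929,2626), ([3,7,1,2,15,1,1,1],1528,977), ([2,1,7,2,1,15,2,1],1544,1073), ([2,1,18,1,8,1,5],929,630), ([1,1,1,18,1,8,1,4,1],2532,3349), ([3,2,1,2,1,2,1,2,1,6],2521,1498), ([1,2,2,1,2,1,2,1,2,1,5,1],944,1329)]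
theorem r084 : rgV L084 3431 21 = true := by decide +kernel
theorem f084 : ∀ p ∈ L084, fam (wl p.1) p.2.1 p.2.2 = true := by
  intro p hp
  simp only [L084, List.mem_cons, List.not_mem_nil, or_false] at hp
  rcases hp with rfl | rfl | rfl | rfl | rfl | rfl | rfl | rfl | rfl | rfl | rfl | rfl | rfl | rfl | rfl | rfl | rfl | rfl | rfl | rfl | rfl | rfl | rfl | rfl | rfl | rfl | rfl | rfl
  · exact x084_0
  · exact x084_1
  · exact x084_2
  · exact x084_3
  · exact x084_4
  · exact x084_5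
  · exact x084_6
  · exact x084_7
  · exact x084_8
  · exact x084_9
  · exact x084_10
  · exact x084_11
  · exact x084_12
  · exact x084_13
  · exact x084_14
  · exact x084_15
  · exact x084_16
  · exact x084_17
  · exact x084_18
  · exact x084_19
  · exact x084_20
  · exact x084_21
  · exact x084_22
  · exact x084_23
  · exact x084_24
  · exact x084_25
  · exact x084_26
  · exact x084_27

end Pool.Agent.V5helper47.EV
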