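import Pool.Agent.V5helper47.EV.S2

/-! Search, part of the half words. -/

set_option maxRecDepth 1000000

namespace Pool.Agent.V5helper47.EV

open H419R2 Pool.Agent.N911 Pool.Agent.V5helper47.CN

theorem x085_0 : fam (wl [1,1,28,1,13,1,3]) 2928 2978 = true := by decide +kernel
theorem x085_1 : fam (wl [1,1,6,1,1,1,4,1,2,1,3]) 196 210 = true := by decide +kernel
theorem x085_2 : fam (wl [2,6,1,1,1,4,1,2,1,2,1]) 3275 3047 = true := by decide +kernel
theorem x085_3 : fam (wl [2,28,1,13,1,2,1]) 543 535 = true := by decide +kernel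
theorem x085_4 : fam (wl [1,4,1,1,4,1,1,1,3,2,2]) 2926 4798 = true := by decide +kernel
theorem x085_5 : fam (wl [1,57,1,28,2]) 2623 5158 = true := by decide +kernel
theorem x085_6 : fam (wl [58,1,28,1,1]) 854 29 = true := by decide +kernel
theorem x085_7 : fam (wl [5,1,1,4,1,1,1,3,2,1,1]) 551 199 = true := by decide +kernel
theorem x085_8 : fam (wl [1,1,1,2,1,2,2,2,6,3]) 1696 2150 = true := by decide +kernel
theorem x085_9 : fam (wl [2,1,2,1,2,2,2,6,2,1]) 1783 1307 = true := by decide +kernel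
theorem x085_10 : fam (wl [2,1,2,1,3,7,2,5]) 2135 1562 = true := by decide +kernel
theorem x085_11 : fam (wl [1,58,29,2]) 855 1682 = true := by decide +kernel
theorem x085_12 : fam (wl [59,29,1,1]) 2626 89 = true := by decide +kernel
theorem x085_13 : fam (wl [1,1,1,2,1,3,7,2,4,1]) 1346 1709 = true := by decide +kernel
theorem x085_14 : fam (wl [1,1,29,14,1,3]) 2291 2330 = true := by decide +kernel
theorem x085_15 : fam (wl [1,4,1,2,2,4,1,2,2,2]) 1972 3254 = true := by decide +kernel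
theorem x085_16 : fam (wl [5,1,2,2,4,1,2,2,1,1]) 1515 531 = true := by decide +kernel
theorem x085_17 : fam (wl [2,29,14,1,2,1]) 1196 1177 = true := by decide +kernel
theorem x085_18 : fam (wl [2,5,5,2,1,1,2,4]) 2686 2450 = true := by decide +kernel
theorem x085_19 : fam (wl [1,1,5,5,2,1,1,2,3,1]) 803 875 = true := by decide +kernel
theorem x085_20 : fam (wl [2,1,19,9,1,5]) 227 154 = true := by decide +kernel
theorem x085_21 : fam (wl [1,1,1,19,9,1,4,1]) 3270 4325 = true := by decide +kernel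
theorem x085_22 : fam (wl [2,1,2,2,2,2,2,2,5]) 3002 2218 = true := by decide +kernel
theorem x085_23 : fam (wl [2,2,7,1,15,1,4]) 3194 2586 = true := by decide +kernel
theorem x085_24 : fam (wl [1,1,2,7,1,15,1,3,1]) 307 367 = true := by decide +kernel
theorem x085_25 : fam (wl [1,1,1,2,2,2,2,2,2,4,1]) 499 631 = true := by decide +kernel
theorem x085_26 : fam (wl [1,5,3,1,1,3,1,1,1,2,2]) 1026 1726 = true := by decide +kernel
theorem x085_27 : fam (wl [6,3,1,1,3,1,1,1,2,1,1]) 2483 791 = true := by decide +kernel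
/-- words with first entry from 3473 to 3511 -/
def L085 : List (List ℕ × ℕ × ℕ) := [([1,1,28,1,13,1,3],2928,2978), ([1,1,6,1,1,1,4,1,2,1,3],196,210), ([2,6,1,1,1,4,1,2,1,2,1],3275,3047), ([2,28,1,13,1,2,1],543,535), ([1,4,1,1,4,1,1,1,3,2,2],2926,4798), ([1,57,1,28,2],2623,5158), ([58,1,28,1,1],854,29), ([5,1,1,4,1,1,1,3,2,1,1],551,199), ([1,1,1,2,1,2,2,2,6,3],1696,2150), ([2,1,2,1,2,2,2,6,2,1],1783,1307), ([2,1,2,1,3,7,2,5],2135,1562), ([1,58,29,2],855,1682), ([59,29,1,1],2626,89), ([1,1,1,2,1,3,7,2,4,1],1346,1709), ([1,1,29,14,1,3],2291,2330), ([1,4,1,2,2,4,1,2,2,2],1972,3254), ([5,1,2,2,4,1,2,2,1,1],1515,531), ([2,29,14,1,2,1],1196,1177), ([2,5,5,2,1,1,2,4],2686,2450), ([1,1,5,5,2,1,1,2,3,1],803,875), ([2,1,19,9,1,5],227,154), ([1,1,1,19,9,1,4,1],3270,4325), ([2,1,2,2,2,2,2,2,5],3002,2218), ([2,2,7,1,15,1,4],3194,2586), ([1,1,2,7,1,15,1,3,1],307,367), ([1,1,1,2,2,2,2,2,2,4,1],499,631), ([1,5,3,1,1,3,1,1,1,2,2],1026,1726), ([6,3,1,1,3,1,1,1,2,1,1],2483,791)]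
theorem r085 : rgV L085 3473 20 = true := by decide +kernel
theorem f085 : ∀ p ∈ L085, fam (wl p.1) p.2.1 p.2.2 = true := by
  intro p hp
  simp only [L085, List.mem_cons, List.not_mem_nil, or_false] at hp
  rcases hp with rfl | rfl | rfl | rfl | rfl | rfl | rfl | rfl | rfl | rfl | rfl | rfl | rfl | rfl | rfl | rfl | rfl | rfl | rfl | rfl | rfl | rfl | rfl | rfl | rfl | rfl | rfl | rfl
  · exact x085_0
  · exact x085_1
  · exact x085_2
  · exact x085_3
  · exact x085_4
  · exact x085_5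
  · exact x085_6
  · exact x085_7
  · exact x085_8
  · exact x085_9
  · exact x085_10
  · exact x085_11
  · exact x085_12
  · exact x085_13
  · exact x085_14
  · exact x085_15
  · exact x085_16
  · exact x085_17
  · exact x085_18
  · exact x085_19
  · exact x085_20
  · exact x085_21
  · exact x085_22
  · exact x085_23
  · exact x085_24
  · exact x085_25
  · exact x085_26
  · exact x085_27

end Pool.Agent.V5helper47.EV
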