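import Pool.Agent.V5helper47.EV.S2

/-! Search, part of the half words. -/

set_option maxRecDepth 1000000

namespace Pool.Agent.V5helper47.EV

open H419R2 Pool.Agent.N911 Pool.Agent.V5helper47.CN

theorem x086_0 : fam (wl [12,1,1,1,3,25]) 1529 242 = true := by decide +kernel
theorem x086_1 : fam (wl [1,2,1,14,7,2,1,2]) 1138 1698 = true := by decide +kernel
theorem x086_2 : fam (wl [3,1,14,7,2,1,1,1]) 2373 1207 = true := by decide +kernel
theorem x086_3 : fam (wl [1,11,1,1,1,3,24,1]) 1982 3653 = true := by decide +kernel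
theorem x086_4 : fam (wl [10,5,1,2,20]) 580 114 = true := by decide +kernel
theorem x086_5 : fam (wl [1,21,2,2,1,10,2]) 1154 2206 = true := by decide +kernel
theorem x086_6 : fam (wl [22,2,2,1,10,1,1]) 2365 211 = true := by decide +kernel
theorem x086_7 : fam (wl [1,9,5,1,2,19,1]) 2939 5303 = true := by decide +kernel
theorem x086_8 : fam (wl [41,1,83]) 3485 166 = true := by decide +kernel
theorem x086_9 : fam (wl [1,40,1,82,1]) 40 81 = true := by decide +kernel
theorem x086_10 : fam (wl [1,3,3,2,1,5,1,1,1,1,2]) 1265 1942 = true := by decide +kernel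
theorem x086_11 : fam (wl [4,3,2,1,5,1,1,1,1,1,1]) 2262 1053 = true := by decide +kernel
theorem x086_12 : fam (wl [42,84]) 42 2 = true := by decide +kernel
theorem x086_13 : fam (wl [1,41,83,1]) 3485 6807 = true := by decide +kernel
theorem x086_14 : fam (wl [4,1,11,5,1,9]) 1490 606 = true := by decide +kernel
theorem x086_15 : fam (wl [3,1,3,1,2,1,2,1,1,7]) 822 434 = true := by decide +kernel
theorem x086_16 : fam (wl [2,6,3,6,3,4]) 2825 2618 = true := by decide +kernel
theorem x086_17 : fam (wl [1,13,2,2,2,1,6,2]) 1606 2990 = true := by decide +kernel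
theorem x086_18 : fam (wl [14,2,2,2,1,6,1,1]) 1923 267 = true := by decide +kernel
theorem x086_19 : fam (wl [1,1,6,3,6,3,3,1]) 704 757 = true := by decide +kernel
theorem x086_20 : fam (wl [1,2,1,3,1,2,1,2,1,1,6,1]) 2707 3987 = true := by decide +kernel
theorem x086_21 : fam (wl [1,3,1,11,5,1,8,1]) 2039 3251 = true := by decide +kernel
theorem x086_22 : fam (wl [2,3,2,3,1,1,2,1,1,4]) 1963 1714 = true := by decide +kernel
theorem x086_23 : fam (wl [1,33,2,1,16,2]) 806 1566 = true := by decide +kernel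
theorem x086_24 : fam (wl [34,2,1,16,1,1]) 2729 159 = true := by decide +kernel
theorem x086_25 : fam (wl [1,1,3,2,3,1,1,2,1,1,3,1]) 1572 1773 = true := by decide +kernel
theorem x086_26 : fam (wl [2,16,1,2,8,4]) 764 742 = true := by decide +kernel
theorem x086_27 : fam (wl [1,1,16,1,2,8,3,1]) 2773 2855 = true := by decide +kernel
theorem x086_28 : fam (wl [1,3,8,2,1,3,1,1,1,2]) 236 358 = true := by decide +kernel
theorem x086_29 : fam (wl [4,8,2,1,3,1,1,1,1,1]) 3309 1607 = true := by decide +kernel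
/-- words with first entry from 3513 to 3551 -/
def L086 : List (List ℕ × ℕ × ℕ) := [([12,1,1,1,3,25],1529,242), ([1,2,1,14,7,2,1,2],1138,1698), ([3,1,14,7,2,1,1,1],2373,1207), ([1,11,1,1,1,3,24,1],1982,3653), ([10,5,1,2,20],580,114), ([1,21,2,2,1,10,2],1154,2206), ([22,2,2,1,10,1,1],2365,211), ([1,9,5,1,2,19,1],2939,5303), ([41,1,83],3485,166), ([1,40,1,82,1],40,81), ([1,3,3,2,1,5,1,1,1,1,2],1265,1942), ([4,3,2,1,5,1,1,1,1,1,1],2262,1053), ([42,84],42,2), ([1,41,83,1],3485,6807), ([4,1,11,5,1,9],1490,606), ([3,1,3,1,2,1,2,1,1,7],822,434), ([2,6,3,6,3,4],2825,2618), ([1,13,2,2,2,1,6,2],1606,2990), ([14,2,2,2,1,6,1,1],1923,267), ([1,1,6,3,6,3,3,1],704,757), ([1,2,1,3,1,2,1,2,1,1,6,1],2707,3987), ([1,3,1,11,5,1,8,1],2039,3251), ([2,3,2,3,1,1,2,1,1,4],1963,1714), ([1,33,2,1,16,2],806,1566), ([34,2,1,16,1,1],2729,159), ([1,1,3,2,3,1,1,2,1,1,3,1],1572,1773), ([2,16,1,2,8,4],764,742), ([1,1,16,1,2,8,3,1],2773,2855), ([1,3,8,2,1,3,1,1,1,2],236,358), ([4,8,2,1,3,1,1,1,1,1],3309,1607)]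
theorem r086 : rgV L086 3513 20 = true := by decide +kernel
theorem f086 : ∀ p ∈ L086, fam (wl p.1) p.2.1 p.2.2 = true := by
  intro p hp
  simp only [L086, List.mem_cons, List.not_mem_nil, or_false] at hp
  rcases hp with rfl | rfl | rfl | rfl | rfl | rfl | rfl | rfl | rfl | rfl | rfl | rfl | rfl | rfl | rfl | rfl | rfl | rfl | rfl | rfl | rfl | rfl | rfl | rfl | rfl | rfl | rfl | rfl | rfl | rfl
  · exact x086_0
  · exact x086_1
  · exact x086_2
  · exact x086_3
  · exact x086_4
  · exact x086_5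
  · exact x086_6
  · exact x086_7
  · exact x086_8
  · exact x086_9
  · exact x086_10
  · exact x086_11
  · exact x086_12
  · exact x086_13
  · exact x086_14
  · exact x086_15
  · exact x086_16
  · exact x086_17
  · exact x086_18
  · exact x086_19
  · exact x086_20
  · exact x086_21
  · exact x086_22
  · exact x086_23
  · exact x086_24
  · exact x086_25
  · exact x086_26
  · exact x086_27
  · exact x086_28
  · exact x086_29

end Pool.Agent.V5helper47.EV
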