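import Pool.Agent.V5helper47.EV.S2

/-! Search, part of the half words. -/

set_option maxRecDepth 1000000

namespace Pool.Agent.V5helper47.EV

open H419R2 Pool.Agent.N911 Pool.Agent.V5helper47.CN

theorem x087_0 : fam (wl [24,2,1,48]) 219 18 = true := by decide +kernel
theorem x087_1 : fam (wl [5,1,9,4,1,11]) 1139 386 = true := by decide +kernel
theorem x087_2 : fam (wl [5,6,1,2,3,10]) 1797 698 = true := by decide +kernel
theorem x087_3 : fam (wl [2,2,8,16,1,4]) 3155 2554 = true := by decide +kernel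
theorem x087_4 : fam (wl [1,1,2,8,16,1,3,1]) 396 473 = true := by decide +kernel
theorem x087_5 : fam (wl [1,4,6,1,2,3,9,1]) 1754 2829 = true := by decide +kernel
theorem x087_6 : fam (wl [1,4,1,9,4,1,10,1]) 2412 4009 = true := by decide +kernel
theorem x087_7 : fam (wl [1,23,2,1,47,1]) 3332 6393 = true := by decide +kernel
theorem x087_8 : fam (wl [1,1,3,1,5,1,2,2,1,1,3]) 3069 3422 = true := by decide +kernel
theorem x087_9 : fam (wl [2,3,1,5,1,2,2,1,1,2,1]) 488 433 = true := by decide +kernel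
theorem x087_10 : fam (wl [1,1,9,2,4,4,1,3]) 3277 3442 = true := by decide +kernel
theorem x087_11 : fam (wl [1,4,4,1,2,9,2,2]) 3448 5574 = true := by decide +kernel
theorem x087_12 : fam (wl [5,4,1,2,9,2,1,1]) 111 43 = true := by decide +kernel
theorem x087_13 : fam (wl [2,9,2,4,4,1,2,1]) 282 269 = true := by decide +kernel
theorem x087_14 : fam (wl [1,2,1,1,4,2,1,1,1,3,1,2]) 2952 4242 = true := by decide +kernel
theorem x087_15 : fam (wl [1,6,3,2,1,6,3,2]) 1623 2802 = true := by decide +kernel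
theorem x087_16 : fam (wl [7,3,2,1,6,3,1,1]) 1944 533 = true := by decide +kernel
theorem x087_17 : fam (wl [3,1,1,4,2,1,1,1,3,1,1,1]) 615 347 = true := by decide +kernel
theorem x087_18 : fam (wl [2,3,2,1,1,3,2,1,1,4]) 3059 2666 = true := by decide +kernel
theorem x087_19 : fam (wl [1,1,3,2,1,1,3,2,1,1,3,1]) 510 577 = true := by decide +kernel
theorem x087_20 : fam (wl [3,1,1,1,1,2,2,4,7]) 148 82 = true := by decide +kernel
theorem x087_21 : fam (wl [1,9,1,2,1,6,1,4,2]) 3474 6302 = true := by decide +kernel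
theorem x087_22 : fam (wl [10,1,2,1,6,1,4,1,1]) 101 19 = true := by decide +kernel
theorem x087_23 : fam (wl [1,2,1,1,1,1,2,2,4,6,1]) 3427 4959 = true := by decide +kernel
theorem x087_24 : fam (wl [1,1,1,1,1,3,1,2,1,1,4,3]) 2486 3090 = true := by decide +kernel
theorem x087_25 : fam (wl [1,2,2,8,4,4,1,2]) 3080 4386 = true := by decide +kernel
theorem x087_26 : fam (wl [3,2,8,4,4,1,1,1]) 497 287 = true := by decide +kernel
theorem x087_27 : fam (wl [2,1,1,1,3,1,2,1,1,4,2,1]) 1091 827 = true := by decide +kernel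
theorem x087_28 : fam (wl [1,2,2,1,1,1,1,4,5,1,2]) 3144 4430 = true := by decide +kernel
theorem x087_29 : fam (wl [3,2,1,1,1,1,4,5,1,1,1]) 437 259 = true := by decide +kernel
/-- words with first entry from 3553 to 3585 -/
def L087 : List (List ℕ × ℕ × ℕ) := [([24,2,1,48],219,18), ([5,1,9,4,1,11],1139,386), ([5,6,1,2,3,10],1797,698), ([2,2,8,16,1,4],3155,2554), ([1,1,2,8,16,1,3,1],396,473), ([1,4,6,1,2,3,9,1],1754,2829), ([1,4,1,9,4,1,10,1],2412,4009), ([1,23,2,1,47,1],3332,6393), ([1,1,3,1,5,1,2,2,1,1,3],3069,3422), ([2,3,1,5,1,2,2,1,1,2,1],488,433), ([1,1,9,2,4,4,1,3],3277,3442), ([1,4,4,1,2,9,2,2],3448,5574), ([5,4,1,2,9,2,1,1],111,43), ([2,9,2,4,4,1,2,1],282,269), ([1,2,1,1,4,2,1,1,1,3,1,2],2952,4242), ([1,6,3,2,1,6,3,2],1623,2802), ([7,3,2,1,6,3,1,1],1944,533), ([3,1,1,4,2,1,1,1,3,1,1,1],615,347), ([2,3,2,1,1,3,2,1,1,4],3059,2666), ([1,1,3,2,1,1,3,2,1,1,3,1],510,577), ([3,1,1,1,1,2,2,4,7],148,82), ([1,9,1,2,1,6,1,4,2],3474,6302), ([10,1,2,1,6,1,4,1,1],101,19),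 ([1,2,1,1,1,1,2,2,4,6,1],3427,4959), ([1,1,1,1,1,3,1,2,1,1,4,3],2486,3090), ([1,2,2,8,4,4,1,2],3080,4386), ([3,2,8,4,4,1,1,1],497,287), ([2,1,1,1,3,1,2,1,1,4,2,1],1091,827), ([1,2,2,1,1,1,1,4,5,1,2],3144,4430), ([3,2,1,1,1,1,4,5,1,1,1],437,259)]
theorem r087 : rgV L087 3553 17 = true := by decide +kernel
theorem f087 : ∀ p ∈ L087, fam (wl p.1) p.2.1 p.2.2 = true := by
  intro p hp
  simp only [L087, List.mem_cons, List.not_mem_nil, or_false] at hp
  rcases hp with rfl | rfl | rfl | rfl | rfl | rfl | rfl | rfl | rfl | rfl | rfl | rfl | rfl | rfl | rfl | rfl | rfl | rfl | rfl | rfl | rfl | rfl | rfl | rfl | rfl | rfl | rfl | rfl | rfl | rfl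
  · exact x087_0
  · exact x087_1
  · exact x087_2
  · exact x087_3
  · exact x087_4
  · exact x087_5
  · exact x087_6
  · exact x087_7
  · exact x087_8
  · exact x087_9
  · exact x087_10
  · exact x087_11
  · exact x087_12
  · exact x087_13
  · exact x087_14
  · exact x087_15
  · exact x087_16
  · exact x087_17
  · exact x087_18
  · exact x087_19
  · exact x087_20
  · exact x087_21
  · exact x087_22
  · exact x087_23
  · exact x087_24
  · exact x087_25
  · exact x087_26
  · exact x087_27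
  · exact x087_28
  · exact x087_29

end Pool.Agent.V5helper47.EV
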