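import Pool.Agent.V5helper47.EV.S2

/-! Search, part of the half words. -/

set_option maxRecDepth 1000000

namespace Pool.Agent.V5helper47.EV

open H419R2 Pool.Agent.N911 Pool.Agent.V5helper47.CN

theorem x088_0 : fam (wl [3,1,2,1,2,5,2,7]) 1070 574 = true := by decide +kernel
theorem x088_1 : fam (wl [2,1,1,2,4,2,5,5]) 1827 1410 = true := by decide +kernel
theorem x088_2 : fam (wl [1,1,1,1,2,4,2,5,4,1]) 1758 2161 = true := by decide +kernel
theorem x088_3 : fam (wl [1,2,1,2,1,2,5,2,6,1]) 2515 3683 = true := by decide +kernel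
theorem x088_4 : fam (wl [1,1,1,1,1,6,1,2,1,4,3]) 3331 4150 = true := by decide +kernel
theorem x088_5 : fam (wl [2,1,1,1,6,1,2,1,4,2,1]) 260 197 = true := by decide +kernel
theorem x088_6 : fam (wl [5,1,1,1,1,2,4,11]) 275 98 = true := by decide +kernel
theorem x088_7 : fam (wl [1,4,1,1,1,1,2,4,10,1]) 3316 5453 = true := by decide +kernel
theorem x088_8 : fam (wl [10,3,2,1,1,20]) 2975 578 = true := by decide +kernel
theorem x088_9 : fam (wl [1,3,4,3,1,1,1,1,1,1,1,2]) 1373 2098 = true := by decide +kernel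
theorem x088_10 : fam (wl [4,4,3,1,1,1,1,1,1,1,1,1]) 2228 1053 = true := by decide +kernel
theorem x088_11 : fam (wl [1,9,3,2,1,1,19,1]) 626 1133 = true := by decide +kernel
theorem x088_12 : fam (wl [4,5,2,2,1,2,8]) 2498 1194 = true := by decide +kernel
theorem x088_13 : fam (wl [1,3,5,2,2,1,2,7,1]) 1107 1687 = true := by decide +kernel
theorem x088_14 : fam (wl [6,1,1,1,2,1,3,13]) 325 98 = true := by decide +kernel
theorem x088_15 : fam (wl [2,1,2,7,3,1,2,5]) 2909 2170 = true := by decide +kernel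
theorem x088_16 : fam (wl [1,1,1,2,7,3,1,2,4,1]) 698 877 = true := by decide +kernel
theorem x088_17 : fam (wl [1,5,1,1,1,2,1,3,12,1]) 3282 5577 = true := by decide +kernel
theorem x088_18 : fam (wl [2,3,1,3,1,8,1,1,4]) 79 70 = true := by decide +kernel
theorem x088_19 : fam (wl [1,1,3,1,3,1,8,1,1,3,1]) 3536 3949 = true := by decide +kernel
theorem x088_20 : fam (wl [1,4,2,2,1,2,1,4,2,2]) 2095 3418 = true := by decide +kernel
theorem x088_21 : fam (wl [5,2,2,1,2,1,4,2,1,1]) 1520 561 = true := by decide +kernel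
theorem x088_22 : fam (wl [2,2,1,7,1,3,2,1,4]) 3245 2766 = true := by decide +kernel
theorem x088_23 : fam (wl [1,1,2,1,7,1,3,2,1,3,1]) 376 433 = true := by decide +kernel
theorem x088_24 : fam (wl [1,1,5,1,3,1,1,2,2,1,3]) 813 878 = true := by decide +kernel
theorem x088_25 : fam (wl [2,5,1,3,1,1,2,2,1,2,1]) 2816 2593 = true := by decide +kernel
theorem x088_26 : fam (wl [14,4,2,28]) 1152 162 = true := by decide +kernel
theorem x088_27 : fam (wl [2,9,1,1,3,1,4,4]) 2338 2222 = true := by decide +kernel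
theorem x088_28 : fam (wl [1,1,9,1,1,3,1,4,3,1]) 1301 1367 = true := by decide +kernel
theorem x088_29 : fam (wl [1,13,4,2,27,1]) 2487 4627 = true := by decide +kernel
/-- words with first entry from 3587 to 3641 -/
def L088 : List (List ℕ × ℕ × ℕ) := [([3,1,2,1,2,5,2,7],1070,574), ([2,1,1,2,4,2,5,5],1827,1410), ([1,1,1,1,2,4,2,5,4,1],1758,2161), ([1,2,1,2,1,2,5,2,6,1],2515,3683), ([1,1,1,1,1,6,1,2,1,4,3],3331,4150), ([2,1,1,1,6,1,2,1,4,2,1],260,197), ([5,1,1,1,1,2,4,11],275,98), ([1,4,1,1,1,1,2,4,10,1],3316,5453), ([10,3,2,1,1,20],2975,578), ([1,3,4,3,1,1,1,1,1,1,1,2],1373,2098), ([4,4,3,1,1,1,1,1,1,1,1,1],2228,1053), ([1,9,3,2,1,1,19,1],626,1133), ([4,5,2,2,1,2,8],2498,1194), ([1,3,5,2,2,1,2,7,1],1107,1687), ([6,1,1,1,2,1,3,13],325,98), ([2,1,2,7,3,1,2,5],2909,2170), ([1,1,1,2,7,3,1,2,4,1],698,877), ([1,5,1,1,1,2,1,3,12,1],3282,5577), ([2,3,1,3,1,8,1,1,4],79,70), ([1,1,3,1,3,1,8,1,1,3,1],3536,3949), ([1,4,2,2,1,2,1,4,2,2],2095,3418), ([5,2,2,1,2,1,4,2,1,1],1520,561),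 ([2,2,1,7,1,3,2,1,4],3245,2766), ([1,1,2,1,7,1,3,2,1,3,1],376,433), ([1,1,5,1,3,1,1,2,2,1,3],813,878), ([2,5,1,3,1,1,2,2,1,2,1],2816,2593), ([14,4,2,28],1152,162), ([2,9,1,1,3,1,4,4],2338,2222), ([1,1,9,1,1,3,1,4,3,1],1301,1367), ([1,13,4,2,27,1],2487,4627)]
theorem r088 : rgV L088 3587 28 = true := by decide +kernel
theorem f088 : ∀ p ∈ L088, fam (wl p.1) p.2.1 p.2.2 = true := by
  intro p hp
  simp only [L088, List.mem_cons, List.not_mem_nil, or_false] at hp
  rcases hp with rfl | rfl | rfl | rfl | rfl | rfl | rfl | rfl | rfl | rfl | rfl | rfl | rfl | rfl | rfl | rfl | rfl | rfl | rfl | rfl | rfl | rfl | rfl | rfl | rfl | rfl | rfl | rfl | rfl | rfl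
  · exact x088_0
  · exact x088_1
  · exact x088_2
  · exact x088_3
  · exact x088_4
  · exact x088_5
  · exact x088_6
  · exact x088_7
  · exact x088_8
  · exact x088_9
  · exact x088_10
  · exact x088_11
  · exact x088_12
  · exact x088_13
  · exact x088_14
  · exact x088_15
  · exact x088_16
  · exact x088_17
  · exact x088_18
  · exact x088_19
  · exact x088_20
  · exact x088_21
  · exact x088_22
  · exact x088_23
  · exact x088_24
  · exact x088_25
  · exact x088_26
  · exact x088_27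
  · exact x088_28
  · exact x088_29

end Pool.Agent.V5helper47.EV
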