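import Pool.Agent.V5helper47.EV.S2

/-! Search, part of the half words. -/

set_option maxRecDepth 1000000

namespace Pool.Agent.V5helper47.EV

open H419R2 Pool.Agent.N911 Pool.Agent.V5helper47.CN

theorem x089_0 : fam (wl [1,3,1,1,6,3,3,1,1,2]) 1807 2818 = true := by decide +kernel
theorem x089_1 : fam (wl [4,1,1,6,3,3,1,1,1,1]) 1834 809 = true := by decide +kernel
theorem x089_2 : fam (wl [1,1,1,4,1,2,2,10,3]) 704 910 = true := by decide +kernel
theorem x089_3 : fam (wl [1,13,1,1,1,4,1,6,2]) 1969 3670 = true := by decide +kernel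
theorem x089_4 : fam (wl [14,1,1,1,4,1,6,1,1]) 1676 229 = true := by decide +kernel
theorem x089_5 : fam (wl [2,1,4,1,2,2,10,2,1]) 2941 2083 = true := by decide +kernel
theorem x089_6 : fam (wl [6,9,1,4,12]) 3594 1178 = true := by decide +kernel
theorem x089_7 : fam (wl [1,6,5,1,11,3,2]) 2648 4558 = true := by decide +kernel
theorem x089_8 : fam (wl [7,5,1,11,3,1,1]) 999 279 = true := by decide +kernel
theorem x089_9 : fam (wl [1,5,9,1,4,11,1]) 53 91 = true := by decide +kernel
theorem x089_10 : fam (wl [4,3,2,2,2,1,1,8]) 1936 902 = true := by decide +kernel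
theorem x089_11 : fam (wl [1,1,4,1,3,7,1,1,1,3]) 2752 3014 = true := by decide +kernel
theorem x089_12 : fam (wl [2,4,1,3,7,1,1,1,2,1]) 895 811 = true := by decide +kernel
theorem x089_13 : fam (wl [1,3,3,2,2,2,1,1,7,1]) 1711 2627 = true := by decide +kernel
theorem x089_14 : fam (wl [24,1,2,49]) 222 18 = true := by decide +kernel
theorem x089_15 : fam (wl [1,2,2,2,2,4,1,4,1,2]) 3061 4330 = true := by decide +kernel
theorem x089_16 : fam (wl [3,2,2,2,4,1,4,1,1,1]) 588 345 = true := by decide +kernel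
theorem x089_17 : fam (wl [1,23,1,2,48,1]) 3427 6579 = true := by decide +kernel
theorem x089_18 : fam (wl [2,1,1,4,2,1,9,5]) 232 182 = true := by decide +kernel
theorem x089_19 : fam (wl [1,1,1,1,4,2,1,9,4,1]) 3425 4167 = true := by decide +kernel
theorem x089_20 : fam (wl [1,1,1,3,1,1,1,3,8,3]) 1028 1318 = true := by decide +kernel
theorem x089_21 : fam (wl [1,5,1,2,1,2,6,1,2,2]) 2714 4622 = true := by decide +kernel
theorem x089_22 : fam (wl [6,1,2,1,2,6,1,2,1,1]) 951 283 = true := by decide +kernel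
theorem x089_23 : fam (wl [2,1,3,1,1,1,3,8,2,1]) 2637 1895 = true := by decide +kernel
theorem x089_24 : fam (wl [5,11,1,5,10]) 66 26 = true := by decide +kernel
theorem x089_25 : fam (wl [1,4,11,1,5,9,1]) 3603 5791 = true := by decide +kernel
theorem x089_26 : fam (wl [2,1,1,7,1,16,5]) 999 790 = true := by decide +kernel
theorem x089_27 : fam (wl [1,1,1,1,7,1,16,4,1]) 2672 3233 = true := by decide +kernel
theorem x089_28 : fam (wl [1,17,3,1,1,1,8,2]) 2201 4162 = true := by decide +kernel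
theorem x089_29 : fam (wl [18,3,1,1,1,8,1,1]) 1470 161 = true := by decide +kernel
/-- words with first entry from 3643 to 3679 -/
def L089 : List (List ℕ × ℕ × ℕ) := [([1,3,1,1,6,3,3,1,1,2],1807,2818), ([4,1,1,6,3,3,1,1,1,1],1834,809), ([1,1,1,4,1,2,2,10,3],704,910), ([1,13,1,1,1,4,1,6,2],1969,3670), ([14,1,1,1,4,1,6,1,1],1676,229), ([2,1,4,1,2,2,10,2,1],2941,2083), ([6,9,1,4,12],3594,1178), ([1,6,5,1,11,3,2],2648,4558), ([7,5,1,11,3,1,1],999,279), ([1,5,9,1,4,11,1],53,91), ([4,3,2,2,2,1,1,8],1936,902), ([1,1,4,1,3,7,1,1,1,3],2752,3014), ([2,4,1,3,7,1,1,1,2,1],895,811), ([1,3,3,2,2,2,1,1,7,1],1711,2627), ([24,1,2,49],222,18), ([1,2,2,2,2,4,1,4,1,2],3061,4330), ([3,2,2,2,4,1,4,1,1,1],588,345), ([1,23,1,2,48,1],3427,6579), ([2,1,1,4,2,1,9,5],232,182), ([1,1,1,1,4,2,1,9,4,1],3425,4167), ([1,1,1,3,1,1,1,3,8,3],1028,1318), ([1,5,1,2,1,2,6,1,2,2],2714,4622), ([6,1,2,1,2,6,1,2,1,1],951,283), ([2,1,3,1,1,1,3,8,2,1],2637,1895), ([5,11,1,5,10],66,26), ([1,4,11,1,5,9,1],3603,5791),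 ([2,1,1,7,1,16,5],999,790), ([1,1,1,1,7,1,16,4,1],2672,3233), ([1,17,3,1,1,1,8,2],2201,4162), ([18,3,1,1,1,8,1,1],1470,161)]
theorem r089 : rgV L089 3643 19 = true := by decide +kernel
theorem f089 : ∀ p ∈ L089, fam (wl p.1) p.2.1 p.2.2 = true := by
  intro p hp
  simp only [L089, List.mem_cons, List.not_mem_nil, or_false] at hp
  rcases hp with rfl | rfl | rfl | rfl | rfl | rfl | rfl | rfl | rfl | rfl | rfl | rfl | rfl | rfl | rfl | rfl | rfl | rfl | rfl | rfl | rfl | rfl | rfl | rfl | rfl | rfl | rfl | rfl | rfl | rfl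
  · exact x089_0
  · exact x089_1
  · exact x089_2
  · exact x089_3
  · exact x089_4
  · exact x089_5
  · exact x089_6
  · exact x089_7
  · exact x089_8
  · exact x089_9
  · exact x089_10
  · exact x089_11
  · exact x089_12
  · exact x089_13
  · exact x089_14
  · exact x089_15
  · exact x089_16
  · exact x089_17
  · exact x089_18
  · exact x089_19
  · exact x089_20
  · exact x089_21
  · exact x089_22
  · exact x089_23
  · exact x089_24
  · exact x089_25
  · exact x089_26
  · exact x089_27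
  · exact x089_28
  · exact x089_29

end Pool.Agent.V5helper47.EV
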