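import Pool.Agent.V5helper47.EV.S2

/-! Search, part of the half words. -/

set_option maxRecDepth 1000000

namespace Pool.Agent.V5helper47.EV

open H419R2 Pool.Agent.N911 Pool.Agent.V5helper47.CN

theorem x090_0 : fam (wl [9,1,5,2,1,19]) 3553 722 = true := by decide +kernel
theorem x090_1 : fam (wl [3,11,2,1,5,6]) 917 594 = true := by decide +kernel
theorem x090_2 : fam (wl [1,2,11,2,1,5,5,1]) 2762 3737 = true := by decide +kernel
theorem x090_3 : fam (wl [1,8,1,5,2,1,18,1]) 126 229 = true := by decide +kernel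
theorem x090_4 : fam (wl [6,1,2,2,2,2,13]) 3481 1038 = true := by decide +kernel
theorem x090_5 : fam (wl [2,2,1,2,1,1,3,1,2,1,4]) 1939 1638 = true := by decide +kernel
theorem x090_6 : fam (wl [1,2,13,1,27,1,2]) 271 366 = true := by decide +kernel
theorem x090_7 : fam (wl [1,3,14,1,6,1,1,1,2]) 1685 2542 = true := by decide +kernel
theorem x090_8 : fam (wl [4,14,1,6,1,1,1,1,1]) 2002 985 = true := by decide +kernel
theorem x090_9 : fam (wl [3,13,1,27,1,1,1]) 3416 2225 = true := by decide +kernel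
theorem x090_10 : fam (wl [1,1,2,1,2,1,1,3,1,2,1,3,1]) 1748 2021 = true := by decide +kernel
theorem x090_11 : fam (wl [1,5,1,2,2,2,2,12,1]) 206 353 = true := by decide +kernel
theorem x090_12 : fam (wl [1,9,1,1,2,1,3,1,4,2]) 3579 6482 = true := by decide +kernel
theorem x090_13 : fam (wl [10,1,1,2,1,3,1,4,1,1]) 110 21 = true := by decide +kernel
theorem x090_14 : fam (wl [42,1,85]) 3654 170 = true := by decide +kernel
theorem x090_15 : fam (wl [1,41,1,84,1]) 41 83 = true := by decide +kernel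
theorem x090_16 : fam (wl [3,4,3,6,2,6]) 1425 882 = true := by decide +kernel
theorem x090_17 : fam (wl [1,2,4,3,6,2,5,1]) 2270 3137 = true := by decide +kernel
theorem x090_18 : fam (wl [43,86]) 43 2 = true := by decide +kernel
theorem x090_19 : fam (wl [1,5,5,1,2,2,1,1,2,2]) 1194 2002 = true := by decide +kernel
theorem x090_20 : fam (wl [6,5,1,2,2,1,1,2,1,1]) 2503 811 = true := by decide +kernel
theorem x090_21 : fam (wl [1,42,85,1]) 3654 7141 = true := by decide +kernel
theorem x090_22 : fam (wl [3,19,1,9,6]) 1406 922 = true := by decide +kernel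
theorem x090_23 : fam (wl [1,1,1,1,2,2,1,5,1,3,3]) 650 798 = true := by decide +kernel
theorem x090_24 : fam (wl [2,1,1,2,2,1,5,1,3,2,1]) 3051 2359 = true := by decide +kernel
theorem x090_25 : fam (wl [1,2,19,1,9,5,1]) 2295 3087 = true := by decide +kernel
theorem x090_26 : fam (wl [3,4,1,1,2,3,2,6]) 3015 1874 = true := by decide +kernel
theorem x090_27 : fam (wl [1,2,14,28,1,2]) 962 1298 = true := by decide +kernel
theorem x090_28 : fam (wl [3,14,28,1,1,1]) 2743 1787 = true := by decide +kernel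
theorem x090_29 : fam (wl [1,2,4,1,1,2,3,2,5,1]) 690 953 = true := by decide +kernel
/-- words with first entry from 3681 to 3711 -/
def L090 : List (List ℕ × ℕ × ℕ) := [([9,1,5,2,1,19],3553,722), ([3,11,2,1,5,6],917,594), ([1,2,11,2,1,5,5,1],2762,3737), ([1,8,1,5,2,1,18,1],126,229), ([6,1,2,2,2,2,13],3481,1038), ([2,2,1,2,1,1,3,1,2,1,4],1939,1638), ([1,2,13,1,27,1,2],271,366), ([1,3,14,1,6,1,1,1,2],1685,2542), ([4,14,1,6,1,1,1,1,1],2002,985), ([3,13,1,27,1,1,1],3416,2225), ([1,1,2,1,2,1,1,3,1,2,1,3,1],1748,2021), ([1,5,1,2,2,2,2,12,1],206,353), ([1,9,1,1,2,1,3,1,4,2],3579,6482), ([10,1,1,2,1,3,1,4,1,1],110,21), ([42,1,85],3654,170), ([1,41,1,84,1],41,83), ([3,4,3,6,2,6],1425,882), ([1,2,4,3,6,2,5,1],2270,3137), ([43,86],43,2), ([1,5,5,1,2,2,1,1,2,2],1194,2002), ([6,5,1,2,2,1,1,2,1,1],2503,811), ([1,42,85,1],3654,7141), ([3,19,1,9,6],1406,922), ([1,1,1,1,2,2,1,5,1,3,3],650,798), ([2,1,1,2,2,1,5,1,3,2,1],3051,2359), ([1,2,19,1,9,5,1],2295,3087), ([3,4,1,1,2,3,2,6],3015,1874),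 ([1,2,14,28,1,2],962,1298), ([3,14,28,1,1,1],2743,1787), ([1,2,4,1,1,2,3,2,5,1],690,953)]
theorem r090 : rgV L090 3681 16 = true := by decide +kernel
theorem f090 : ∀ p ∈ L090, fam (wl p.1) p.2.1 p.2.2 = true := by
  intro p hp
  simp only [L090, List.mem_cons, List.not_mem_nil, or_false] at hp
  rcases hp with rfl | rfl | rfl | rfl | rfl | rfl | rfl | rfl | rfl | rfl | rfl | rfl | rfl | rfl | rfl | rfl | rfl | rfl | rfl | rfl | rfl | rfl | rfl | rfl | rfl | rfl | rfl | rfl | rfl | rfl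
  · exact x090_0
  · exact x090_1
  · exact x090_2
  · exact x090_3
  · exact x090_4
  · exact x090_5
  · exact x090_6
  · exact x090_7
  · exact x090_8
  · exact x090_9
  · exact x090_10
  · exact x090_11
  · exact x090_12
  · exact x090_13
  · exact x090_14
  · exact x090_15
  · exact x090_16
  · exact x090_17
  · exact x090_18
  · exact x090_19
  · exact x090_20
  · exact x090_21
  · exact x090_22
  · exact x090_23
  · exact x090_24
  · exact x090_25
  · exact x090_26
  · exact x090_27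
  · exact x090_28
  · exact x090_29

end Pool.Agent.V5helper47.EV
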