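import Pool.Agent.V5helper47.EV.S2

/-! Search, part of the half words. -/

set_option maxRecDepth 1000000

namespace Pool.Agent.V5helper47.EV

open H419R2 Pool.Agent.N911 Pool.Agent.V5helper47.CN

theorem x091_0 : fam (wl [16,3,1,1,32]) 2915 358 = true := by decide +kernel
theorem x091_1 : fam (wl [2,29,1,14,4]) 2206 2170 = true := by decide +kernel
theorem x091_2 : fam (wl [1,1,29,1,14,3,1]) 1505 1531 = true := by decide +kernel
theorem x091_3 : fam (wl [1,15,3,1,1,31,1]) 796 1497 = true := by decide +kernel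
theorem x091_4 : fam (wl [1,59,1,29,2]) 944 1858 = true := by decide +kernel
theorem x091_5 : fam (wl [60,1,29,1,1]) 2773 91 = true := by decide +kernel
theorem x091_6 : fam (wl [3,1,2,5,2,1,2,7]) 2171 1178 = true := by decide +kernel
theorem x091_7 : fam (wl [3,6,2,4,3,6]) 2363 1498 = true := by decide +kernel
theorem x091_8 : fam (wl [2,1,1,8,17,5]) 1965 1554 = true := by decide +kernel
theorem x091_9 : fam (wl [1,60,30,2]) 2776 5462 = true := by decide +kernel
theorem x091_10 : fam (wl [61,30,1,1]) 945 31 = true := by decide +kernel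
theorem x091_11 : fam (wl [1,1,1,1,8,17,4,1]) 1756 2125 = true := by decide +kernel
theorem x091_12 : fam (wl [1,2,6,2,4,3,5,1]) 1358 1857 = true := by decide +kernel
theorem x091_13 : fam (wl [1,2,1,2,5,2,1,2,6,1]) 1550 2261 = true := by decide +kernel
theorem x091_14 : fam (wl [1,1,1,2,1,4,1,1,1,6,3]) 2320 2946 = true := by decide +kernel
theorem x091_15 : fam (wl [2,1,2,1,4,1,1,1,6,2,1]) 1405 1027 = true := by decide +kernel
theorem x091_16 : fam (wl [5,1,2,1,1,3,2,11]) 3666 1282 = true := by decide +kernel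
theorem x091_17 : fam (wl [2,30,15,4]) 3377 3322 = true := by decide +kernel
theorem x091_18 : fam (wl [1,1,4,3,1,2,1,1,1,1,1,3]) 617 682 = true := by decide +kernel
theorem x091_19 : fam (wl [1,3,1,1,3,2,1,1,3,1,1,2]) 3525 5506 = true := by decide +kernel
theorem x091_20 : fam (wl [4,1,1,3,2,1,1,3,1,1,1,1]) 202 89 = true := by decide +kernel
theorem x091_21 : fam (wl [2,4,3,1,2,1,1,1,1,1,2,1]) 3110 2785 = true := by decide +kernel
theorem x091_22 : fam (wl [1,1,30,15,3,1]) 350 357 = true := by decide +kernel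
theorem x091_23 : fam (wl [1,4,1,2,1,1,3,2,10,1]) 61 103 = true := by decide +kernel
theorem x091_24 : fam (wl [3,20,10,6]) 3565 2338 = true := by decide +kernel
theorem x091_25 : fam (wl [1,2,20,10,5,1]) 172 233 = true := by decide +kernel
theorem x091_26 : fam (wl [2,8,1,2,1,2,4,4]) 281 266 = true := by decide +kernel
theorem x091_27 : fam (wl [1,6,6,12,3,2]) 2632 4530 = true := by decide +kernel
theorem x091_28 : fam (wl [7,6,12,3,1,1]) 1113 311 = true := by decide +kernel
theorem x091_29 : fam (wl [1,1,8,1,2,1,2,4,3,1]) 3464 3653 = true := by decide +kernel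
/-- words with first entry from 3713 to 3751 -/
def L091 : List (List ℕ × ℕ × ℕ) := [([16,3,1,1,32],2915,358), ([2,29,1,14,4],2206,2170), ([1,1,29,1,14,3,1],1505,1531), ([1,15,3,1,1,31,1],796,1497), ([1,59,1,29,2],944,1858), ([60,1,29,1,1],2773,91), ([3,1,2,5,2,1,2,7],2171,1178), ([3,6,2,4,3,6],2363,1498), ([2,1,1,8,17,5],1965,1554), ([1,60,30,2],2776,5462), ([61,30,1,1],945,31), ([1,1,1,1,8,17,4,1],1756,2125), ([1,2,6,2,4,3,5,1],1358,1857), ([1,2,1,2,5,2,1,2,6,1],1550,2261), ([1,1,1,2,1,4,1,1,1,6,3],2320,2946), ([2,1,2,1,4,1,1,1,6,2,1],1405,1027), ([5,1,2,1,1,3,2,11],3666,1282), ([2,30,15,4],3377,3322), ([1,1,4,3,1,2,1,1,1,1,1,3],617,682), ([1,3,1,1,3,2,1,1,3,1,1,2],3525,5506), ([4,1,1,3,2,1,1,3,1,1,1,1],202,89), ([2,4,3,1,2,1,1,1,1,1,2,1],3110,2785), ([1,1,30,15,3,1],350,357), ([1,4,1,2,1,1,3,2,10,1],61,103), ([3,20,10,6],3565,2338), ([1,2,20,10,5,1],172,233), ([2,8,1,2,1,2,4,4],281,266), ([1,6,6,12,3,2],2632,4530), ([7,6,12,3,1,1],1113,311), ([1,1,8,1,2,1,2,4,3,1],3464,3653)]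
theorem r091 : rgV L091 3713 20 = true := by decide +kernel
theorem f091 : ∀ p ∈ L091, fam (wl p.1) p.2.1 p.2.2 = true := by
  intro p hp
  simp only [L091, List.mem_cons, List.not_mem_nil, or_false] at hp
  rcases hp with rfl | rfl | rfl | rfl | rfl | rfl | rfl | rfl | rfl | rfl | rfl | rfl | rfl | rfl | rfl | rfl | rfl | rfl | rfl | rfl | rfl | rfl | rfl | rfl | rfl | rfl | rfl | rfl | rfl | rfl
  · exact x091_0
  · exact x091_1
  · exact x091_2
  · exact x091_3
  · exact x091_4
  · exact x091_5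
  · exact x091_6
  · exact x091_7
  · exact x091_8
  · exact x091_9
  · exact x091_10
  · exact x091_11
  · exact x091_12
  · exact x091_13
  · exact x091_14
  · exact x091_15
  · exact x091_16
  · exact x091_17
  · exact x091_18
  · exact x091_19
  · exact x091_20
  · exact x091_21
  · exact x091_22
  · exact x091_23
  · exact x091_24
  · exact x091_25
  · exact x091_26
  · exact x091_27
  · exact x091_28
  · exact x091_29

end Pool.Agent.V5helper47.EV
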