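import Pool.Agent.V5helper47.EV.S2

/-! Search, part of the half words. -/

set_option maxRecDepth 1000000

namespace Pool.Agent.V5helper47.EV

open H419R2 Pool.Agent.N911 Pool.Agent.V5helper47.CN

theorem x092_0 : fam (wl [1,1,1,7,1,2,16,3]) 2493 3258 = true := by decide +kernel
theorem x092_1 : fam (wl [1,3,15,7,1,1,1,2]) 1099 1658 = true := by decide +kernel
theorem x092_2 : fam (wl [4,15,7,1,1,1,1,1]) 2652 1305 = true := by decide +kernel
theorem x092_3 : fam (wl [2,1,7,1,2,16,2,1]) 1258 873 = true := by decide +kernel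
theorem x092_4 : fam (wl [1,4,1,1,1,1,1,4,3,2,2]) 2037 3350 = true := by decide +kernel
theorem x092_5 : fam (wl [5,1,1,1,1,1,4,3,2,1,1]) 1722 613 = true := by decide +kernel
theorem x092_6 : fam (wl [1,1,3,1,1,3,1,1,3,1,1,3]) 1882 2114 = true := by decide +kernel
theorem x092_7 : fam (wl [2,3,1,1,3,1,1,3,1,1,2,1]) 1877 1647 = true := by decide +kernel
theorem x092_8 : fam (wl [1,8,1,1,2,2,3,4,2]) 1202 2154 = true := by decide +kernel
theorem x092_9 : fam (wl [9,1,1,2,2,3,4,1,1]) 2563 535 = true := by decide +kernel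
theorem x092_10 : fam (wl [1,2,3,5,1,2,6,1,2]) 445 622 = true := by decide +kernel
theorem x092_11 : fam (wl [3,3,5,1,2,6,1,1,1]) 3322 2005 = true := by decide +kernel
theorem x092_12 : fam (wl [1,10,1,4,2,2,5,2]) 2557 4682 = true := by decide +kernel
theorem x092_13 : fam (wl [11,1,4,2,2,5,1,1]) 1210 205 = true := by decide +kernel
theorem x092_14 : fam (wl [5,12,6,10]) 686 270 = true := by decide +kernel
theorem x092_15 : fam (wl [2,2,1,1,2,2,2,3,1,4]) 1291 1082 = true := by decide +kernel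
theorem x092_16 : fam (wl [1,1,2,1,1,2,2,2,3,1,3,1]) 2478 2881 = true := by decide +kernel
theorem x092_17 : fam (wl [1,4,12,6,9,1]) 3083 4955 = true := by decide +kernel
theorem x092_18 : fam (wl [4,2,2,2,1,4,1,8]) 3746 1698 = true := by decide +kernel
theorem x092_19 : fam (wl [1,8,2,1,2,5,4,2]) 388 694 = true := by decide +kernel
theorem x092_20 : fam (wl [9,2,1,2,5,4,1,1]) 3387 723 = true := by decide +kernel
theorem x092_21 : fam (wl [1,3,2,2,2,1,4,1,7,1]) 29 47 = true := by decide +kernel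
theorem x092_22 : fam (wl [2,3,1,4,9,1,1,4]) 2016 1782 = true := by decide +kernel
theorem x092_23 : fam (wl [1,1,3,1,4,9,1,1,3,1]) 1761 1967 = true := by decide +kernel
theorem x092_24 : fam (wl [1,3,5,1,1,3,2,1,1,1,2]) 2764 4206 = true := by decide +kernel
theorem x092_25 : fam (wl [1,7,1,3,1,8,1,3,2]) 540 958 = true := by decide +kernel
theorem x092_26 : fam (wl [8,1,3,1,8,1,3,1,1]) 3249 739 = true := by decide +kernel
theorem x092_27 : fam (wl [4,5,1,1,3,2,1,1,1,1,1]) 1025 491 = true := by decide +kernel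
/-- words with first entry from 3753 to 3791 -/
def L092 : List (List ℕ × ℕ × ℕ) := [([1,1,1,7,1,2,16,3],2493,3258), ([1,3,15,7,1,1,1,2],1099,1658), ([4,15,7,1,1,1,1,1],2652,1305), ([2,1,7,1,2,16,2,1],1258,873), ([1,4,1,1,1,1,1,4,3,2,2],2037,3350), ([5,1,1,1,1,1,4,3,2,1,1],1722,613), ([1,1,3,1,1,3,1,1,3,1,1,3],1882,2114), ([2,3,1,1,3,1,1,3,1,1,2,1],1877,1647), ([1,8,1,1,2,2,3,4,2],1202,2154), ([9,1,1,2,2,3,4,1,1],2563,535), ([1,2,3,5,1,2,6,1,2],445,622), ([3,3,5,1,2,6,1,1,1],3322,2005), ([1,10,1,4,2,2,5,2],2557,4682), ([11,1,4,2,2,5,1,1],1210,205), ([5,12,6,10],686,270), ([2,2,1,1,2,2,2,3,1,4],1291,1082), ([1,1,2,1,1,2,2,2,3,1,3,1],2478,2881), ([1,4,12,6,9,1],3083,4955), ([4,2,2,2,1,4,1,8],3746,1698), ([1,8,2,1,2,5,4,2],388,694), ([9,2,1,2,5,4,1,1],3387,723), ([1,3,2,2,2,1,4,1,7,1],29,47), ([2,3,1,4,9,1,1,4],2016,1782), ([1,1,3,1,4,9,1,1,3,1],1761,1967), ([1,3,5,1,1,3,2,1,1,1,2],2764,4206), ([1,7,1,3,1,8,1,3,2],540,958), ([8,1,3,1,8,1,3,1,1],3249,739),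 ([4,5,1,1,3,2,1,1,1,1,1],1025,491)]
theorem r092 : rgV L092 3753 20 = true := by decide +kernel
theorem f092 : ∀ p ∈ L092, fam (wl p.1) p.2.1 p.2.2 = true := by
  intro p hp
  simp only [L092, List.mem_cons, List.not_mem_nil, or_false] at hp
  rcases hp with rfl | rfl | rfl | rfl | rfl | rfl | rfl | rfl | rfl | rfl | rfl | rfl | rfl | rfl | rfl | rfl | rfl | rfl | rfl | rfl | rfl | rfl | rfl | rfl | rfl | rfl | rfl | rfl
  · exact x092_0
  · exact x092_1
  · exact x092_2
  · exact x092_3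
  · exact x092_4
  · exact x092_5
  · exact x092_6
  · exact x092_7
  · exact x092_8
  · exact x092_9
  · exact x092_10
  · exact x092_11
  · exact x092_12
  · exact x092_13
  · exact x092_14
  · exact x092_15
  · exact x092_16
  · exact x092_17
  · exact x092_18
  · exact x092_19
  · exact x092_20
  · exact x092_21
  · exact x092_22
  · exact x092_23
  · exact x092_24
  · exact x092_25
  · exact x092_26
  · exact x092_27

end Pool.Agent.V5helper47.EV
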