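import Pool.Agent.V5helper47.EV.S2

/-! Search, part of the half words. -/

set_option maxRecDepth 1000000

namespace Pool.Agent.V5helper47.EV

open H419R2 Pool.Agent.N911 Pool.Agent.V5helper47.CN

theorem x093_0 : fam (wl [3,7,2,2,1,3,6]) 818 522 = true := by decide +kernel
theorem x093_1 : fam (wl [1,2,7,2,2,1,3,5,1]) 2973 4051 = true := by decide +kernel
theorem x093_2 : fam (wl [6,10,5,12]) 689 226 = true := by decide +kernel
theorem x093_3 : fam (wl [1,5,10,5,11,1]) 3102 5189 = true := by decide +kernel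
theorem x093_4 : fam (wl [1,19,1,1,3,1,9,2]) 2435 4634 = true := by decide +kernel
theorem x093_5 : fam (wl [20,1,1,3,1,9,1,1]) 1366 133 = true := by decide +kernel
theorem x093_6 : fam (wl [8,2,2,4,1,16]) 2312 550 = true := by decide +kernel
theorem x093_7 : fam (wl [1,34,1,2,17,2]) 873 1698 = true := by decide +kernel
theorem x093_8 : fam (wl [35,1,2,17,1,1]) 2942 165 = true := by decide +kernel
theorem x093_9 : fam (wl [1,7,2,2,4,1,15,1]) 1503 2651 = true := by decide +kernel
theorem x093_10 : fam (wl [2,2,1,8,4,2,1,4]) 3671 3130 = true := by decide +kernel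
theorem x093_11 : fam (wl [2,17,2,1,8,4]) 2257 2194 = true := by decide +kernel
theorem x093_12 : fam (wl [1,5,1,1,4,2,3,1,2,2]) 3258 5522 = true := by decide +kernel
theorem x093_13 : fam (wl [1,9,1,3,7,1,4,2]) 1844 3346 = true := by decide +kernel
theorem x093_14 : fam (wl [10,1,3,7,1,4,1,1]) 1973 367 = true := by decide +kernel
theorem x093_15 : fam (wl [6,1,1,4,2,3,1,2,1,1]) 559 171 = true := by decide +kernel
theorem x093_16 : fam (wl [1,1,17,2,1,8,3,1]) 1560 1605 = true := by decide +kernel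
theorem x093_17 : fam (wl [1,1,2,1,8,4,2,1,3,1]) 146 169 = true := by decide +kernel
theorem x093_18 : fam (wl [1,1,3,5,1,11,1,1,3]) 2786 3166 = true := by decide +kernel
theorem x093_19 : fam (wl [2,3,5,1,11,1,1,2,1]) 1035 895 = true := by decide +kernel
theorem x093_20 : fam (wl [5,1,2,3,1,1,2,11]) 689 242 = true := by decide +kernel
theorem x093_21 : fam (wl [4,8,1,2,4,8]) 2794 1358 = true := by decide +kernel
theorem x093_22 : fam (wl [1,3,8,1,2,4,7,1]) 1031 1563 = true := by decide +kernel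
theorem x093_23 : fam (wl [1,4,1,2,3,1,1,2,10,1]) 3136 5173 = true := by decide +kernel
theorem x093_24 : fam (wl [4,1,1,1,3,1,1,3,9]) 1573 678 = true := by decide +kernel
theorem x093_25 : fam (wl [1,3,1,1,1,3,1,1,3,8,1]) 2258 3545 = true := by decide +kernel
theorem x093_26 : fam (wl [4,1,6,2,1,2,1,9]) 1250 514 = true := by decide +kernel
theorem x093_27 : fam (wl [1,3,1,6,2,1,2,1,8,1]) 2581 4103 = true := by decide +kernel
/-- words with first entry from 3793 to 3839 -/
def L093 : List (List ℕ × ℕ × ℕ) := [([3,7,2,2,1,3,6],818,522), ([1,2,7,2,2,1,3,5,1],2973,4051), ([6,10,5,12],689,226), ([1,5,10,5,11,1],3102,5189), ([1,19,1,1,3,1,9,2],2435,4634), ([20,1,1,3,1,9,1,1],1366,133), ([8,2,2,4,1,16],2312,550), ([1,34,1,2,17,2],873,1698), ([35,1,2,17,1,1],2942,165), ([1,7,2,2,4,1,15,1],1503,2651), ([2,2,1,8,4,2,1,4],3671,3130), ([2,17,2,1,8,4],2257,2194), ([1,5,1,1,4,2,3,1,2,2],3258,5522), ([1,9,1,3,7,1,4,2],1844,3346), ([10,1,3,7,1,4,1,1],1973,367), ([6,1,1,4,2,3,1,2,1,1],559,171),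 ([1,1,17,2,1,8,3,1],1560,1605), ([1,1,2,1,8,4,2,1,3,1],146,169), ([1,1,3,5,1,11,1,1,3],2786,3166), ([2,3,5,1,11,1,1,2,1],1035,895), ([5,1,2,3,1,1,2,11],689,242), ([4,8,1,2,4,8],2794,1358), ([1,3,8,1,2,4,7,1],1031,1563), ([1,4,1,2,3,1,1,2,10,1],3136,5173), ([4,1,1,1,3,1,1,3,9],1573,678), ([1,3,1,1,1,3,1,1,3,8,1],2258,3545), ([4,1,6,2,1,2,1,9],1250,514), ([1,3,1,6,2,1,2,1,8,1],2581,4103)]
theorem r093 : rgV L093 3793 24 = true := by decide +kernel
theorem f093 : ∀ p ∈ L093, fam (wl p.1) p.2.1 p.2.2 = true := by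
  intro p hp
  simp only [L093, List.mem_cons, List.not_mem_nil, or_false] at hp
  rcases hp with rfl | rfl | rfl | rfl | rfl | rfl | rfl | rfl | rfl | rfl | rfl | rfl | rfl | rfl | rfl | rfl | rfl | rfl | rfl | rfl | rfl | rfl | rfl | rfl | rfl | rfl | rfl | rfl
  · exact x093_0
  · exact x093_1
  · exact x093_2
  · exact x093_3
  · exact x093_4
  · exact x093_5
  · exact x093_6
  · exact x093_7
  · exact x093_8
  · exact x093_9
  · exact x093_10
  · exact x093_11
  · exact x093_12
  · exact x093_13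
  · exact x093_14
  · exact x093_15
  · exact x093_16
  · exact x093_17
  · exact x093_18
  · exact x093_19
  · exact x093_20
  · exact x093_21
  · exact x093_22
  · exact x093_23
  · exact x093_24
  · exact x093_25
  · exact x093_26
  · exact x093_27

end Pool.Agent.V5helper47.EV
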