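import Pool.Agent.V5helper47.EV.S2

/-! Search, part of the half words. -/

set_option maxRecDepth 1000000

namespace Pool.Agent.V5helper47.EV

open H419R2 Pool.Agent.N911 Pool.Agent.V5helper47.CN

theorem x094_0 : fam (wl [7,1,6,1,2,1,15]) 118 30 = true := by decide +kernel
theorem x094_1 : fam (wl [2,1,1,2,1,2,2,6,5]) 3632 2818 = true := by decide +kernel
theorem x094_2 : fam (wl [1,1,1,1,2,1,2,2,6,4,1]) 207 255 = true := by decide +kernel
theorem x094_3 : fam (wl [1,6,1,6,1,2,1,14,1]) 3721 6499 = true := by decide +kernel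
theorem x094_4 : fam (wl [1,3,1,7,1,16,1,1,2]) 3785 6022 = true := by decide +kernel
theorem x094_5 : fam (wl [4,1,7,1,16,1,1,1,1]) 60 25 = true := by decide +kernel
theorem x094_6 : fam (wl [1,1,1,1,1,7,3,1,4,3]) 2685 3346 = true := by decide +kernel
theorem x094_7 : fam (wl [1,2,2,4,1,2,2,4,1,2]) 3301 4690 = true := by decide +kernel
theorem x094_8 : fam (wl [3,2,4,1,2,2,4,1,1,1]) 546 317 = true := by decide +kernel
theorem x094_9 : fam (wl [2,1,1,1,7,3,1,4,2,1]) 1162 877 = true := by decide +kernel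
theorem x094_10 : fam (wl [25,2,1,50]) 228 18 = true := by decide +kernel
theorem x094_11 : fam (wl [1,24,2,1,49,1]) 3621 6959 = true := by decide +kernel
theorem x094_12 : fam (wl [2,2,4,1,2,9,1,4]) 1792 1462 = true := by decide +kernel
theorem x094_13 : fam (wl [1,7,4,2,1,1,1,1,3,2]) 69 122 = true := by decide +kernel
theorem x094_14 : fam (wl [8,4,2,1,1,1,1,3,1,1]) 3788 921 = true := by decide +kernel
theorem x094_15 : fam (wl [1,1,2,4,1,2,9,1,3,1]) 2065 2447 = true := by decide +kernel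
theorem x094_16 : fam (wl [1,1,1,13,1,28,3]) 2004 2642 = true := by decide +kernel
theorem x094_17 : fam (wl [2,1,13,1,28,2,1]) 1857 1267 = true := by decide +kernel
theorem x094_18 : fam (wl [1,1,3,3,2,1,6,1,1,3]) 461 522 = true := by decide +kernel
theorem x094_19 : fam (wl [1,3,3,3,6,1,1,1,1,2]) 397 610 = true := by decide +kernel
theorem x094_20 : fam (wl [4,3,3,6,1,1,1,1,1,1]) 3468 1613 = true := by decide +kernel
theorem x094_21 : fam (wl [2,3,3,2,1,6,1,1,2,1]) 3404 2957 = true := by decide +kernel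
theorem x094_22 : fam (wl [43,1,87]) 3827 174 = true := by decide +kernel
theorem x094_23 : fam (wl [1,1,1,2,2,1,1,3,1,5,3]) 2473 3118 = true := by decide +kernel
theorem x094_24 : fam (wl [2,1,2,2,1,1,3,1,5,2,1]) 1396 1033 = true := by decide +kernel
theorem x094_25 : fam (wl [1,42,1,86,1]) 42 85 = true := by decide +kernel
theorem x094_26 : fam (wl [44,88]) 44 2 = true := by decide +kernel
theorem x094_27 : fam (wl [1,1,1,4,4,2,9,3]) 2107 2714 = true := by decide +kernel
theorem x094_28 : fam (wl [2,1,4,4,2,9,2,1]) 1764 1257 = true := by decide +kernel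
theorem x094_29 : fam (wl [1,43,87,1]) 3827 7483 = true := by decide +kernel
/-- words with first entry from 3841 to 3879 -/
def L094 : List (List ℕ × ℕ × ℕ) := [([7,1,6,1,2,1,15],118,30), ([2,1,1,2,1,2,2,6,5],3632,2818), ([1,1,1,1,2,1,2,2,6,4,1],207,255), ([1,6,1,6,1,2,1,14,1],3721,6499), ([1,3,1,7,1,16,1,1,2],3785,6022), ([4,1,7,1,16,1,1,1,1],60,25), ([1,1,1,1,1,7,3,1,4,3],2685,3346), ([1,2,2,4,1,2,2,4,1,2],3301,4690), ([3,2,4,1,2,2,4,1,1,1],546,317), ([2,1,1,1,7,3,1,4,2,1],1162,877), ([25,2,1,50],228,18), ([1,24,2,1,49,1],3621,6959), ([2,2,4,1,2,9,1,4],1792,1462), ([1,7,4,2,1,1,1,1,3,2],69,122), ([8,4,2,1,1,1,1,3,1,1],3788,921), ([1,1,2,4,1,2,9,1,3,1],2065,2447), ([1,1,1,13,1,28,3],2004,2642), ([2,1,13,1,28,2,1],1857,1267), ([1,1,3,3,2,1,6,1,1,3],461,522), ([1,3,3,3,6,1,1,1,1,2],397,610), ([4,3,3,6,1,1,1,1,1,1],3468,1613), ([2,3,3,2,1,6,1,1,2,1],3404,2957), ([43,1,87],3827,174), ([1,1,1,2,2,1,1,3,1,5,3],2473,3118), ([2,1,2,2,1,1,3,1,5,2,1],1396,1033),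 ([1,42,1,86,1],42,85), ([44,88],44,2), ([1,1,1,4,4,2,9,3],2107,2714), ([2,1,4,4,2,9,2,1],1764,1257), ([1,43,87,1],3827,7483)]
theorem r094 : rgV L094 3841 20 = true := by decide +kernel
theorem f094 : ∀ p ∈ L094, fam (wl p.1) p.2.1 p.2.2 = true := by
  intro p hp
  simp only [L094, List.mem_cons, List.not_mem_nil, or_false] at hp
  rcases hp with rfl | rfl | rfl | rfl | rfl | rfl | rfl | rfl | rfl | rfl | rfl | rfl | rfl | rfl | rfl | rfl | rfl | rfl | rfl | rfl | rfl | rfl | rfl | rfl | rfl | rfl | rfl | rfl | rfl | rfl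
  · exact x094_0
  · exact x094_1
  · exact x094_2
  · exact x094_3
  · exact x094_4
  · exact x094_5
  · exact x094_6
  · exact x094_7
  · exact x094_8
  · exact x094_9
  · exact x094_10
  · exact x094_11
  · exact x094_12
  · exact x094_13
  · exact x094_14
  · exact x094_15
  · exact x094_16
  · exact x094_17
  · exact x094_18
  · exact x094_19
  · exact x094_20
  · exact x094_21
  · exact x094_22
  · exact x094_23
  · exact x094_24
  · exact x094_25
  · exact x094_26
  · exact x094_27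
  · exact x094_28
  · exact x094_29

end Pool.Agent.V5helper47.EV
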