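import Pool.Agent.V5helper47.EV.S2

/-! Search, part of the half words. -/

set_option maxRecDepth 1000000

namespace Pool.Agent.V5helper47.EV

open H419R2 Pool.Agent.N911 Pool.Agent.V5helper47.CN

theorem x095_0 : fam (wl [6,2,2,1,5,1,12]) 1330 414 = true := by decide +kernel
theorem x095_1 : fam (wl [1,5,2,2,1,5,1,11,1]) 2549 4307 = true := by decide +kernel
theorem x095_2 : fam (wl [1,1,1,14,29,3]) 3160 4166 = true := by decide +kernel
theorem x095_3 : fam (wl [2,1,14,29,2,1]) 719 491 = true := by decide +kernel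
theorem x095_4 : fam (wl [1,1,3,1,6,3,2,1,1,3]) 102 114 = true := by decide +kernel
theorem x095_5 : fam (wl [1,8,1,2,1,2,1,2,4,2]) 763 1370 = true := by decide +kernel
theorem x095_6 : fam (wl [9,1,2,1,2,1,2,4,1,1]) 3118 641 = true := by decide +kernel
theorem x095_7 : fam (wl [2,3,1,6,3,2,1,1,2,1]) 3779 3347 = true := by decide +kernel
theorem x095_8 : fam (wl [1,22,1,1,3,11,2]) 1260 2414 = true := by decide +kernel
theorem x095_9 : fam (wl [23,1,1,3,11,1,1]) 2627 223 = true := by decide +kernel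
theorem x095_10 : fam (wl [1,2,1,4,2,4,2,2,1,2]) 2955 4362 = true := by decide +kernel
theorem x095_11 : fam (wl [3,1,4,2,4,2,2,1,1,1]) 932 489 = true := by decide +kernel
theorem x095_12 : fam (wl [1,1,1,1,3,1,1,3,1,1,3,3]) 1458 1778 = true := by decide +kernel
theorem x095_13 : fam (wl [1,2,1,1,1,1,1,2,4,3,1,2]) 2864 4146 = true := by decide +kernel
theorem x095_14 : fam (wl [3,1,1,1,1,1,2,4,3,1,1,1]) 1025 567 = true := by decide +kernel
theorem x095_15 : fam (wl [2,1,1,3,1,1,3,1,1,3,2,1]) 2431 1899 = true := by decide +kernel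
theorem x095_16 : fam (wl [10,1,2,2,2,21]) 3094 578 = true := by decide +kernel
theorem x095_17 : fam (wl [1,3,1,8,17,1,1,2]) 1620 2578 = true := by decide +kernel
theorem x095_18 : fam (wl [4,1,8,17,1,1,1,1]) 2275 931 = true := by decide +kernel
theorem x095_19 : fam (wl [1,9,1,2,2,2,20,1]) 801 1455 = true := by decide +kernel
theorem x095_20 : fam (wl [1,1,1,1,1,1,1,2,1,3,4,3]) 3766 4658 = true := by decide +kernel
theorem x095_21 : fam (wl [2,1,1,1,1,1,2,1,3,4,2,1]) 139 107 = true := by decide +kernel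
theorem x095_22 : fam (wl [16,1,2,2,33]) 3092 370 = true := by decide +kernel
theorem x095_23 : fam (wl [1,15,1,2,2,32,1]) 817 1539 = true := by decide +kernel
theorem x095_24 : fam (wl [1,1,1,1,11,1,5,3,3]) 3738 4510 = true := by decide +kernel
theorem x095_25 : fam (wl [2,1,1,11,1,5,3,2,1]) 179 143 = true := by decide +kernel
theorem x095_26 : fam (wl [10,6,3,20]) 3667 722 = true := by decide +kernel
theorem x095_27 : fam (wl [1,1,3,6,12,1,1,3]) 3303 3754 = true := by decide +kernel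
theorem x095_28 : fam (wl [2,3,6,12,1,1,2,1]) 616 533 = true := by decide +kernel
theorem x095_29 : fam (wl [1,9,6,3,19,1]) 252 457 = true := by decide +kernel
/-- words with first entry from 3881 to 3921 -/
def L095 : List (List ℕ × ℕ × ℕ) := [([6,2,2,1,5,1,12],1330,414), ([1,5,2,2,1,5,1,11,1],2549,4307), ([1,1,1,14,29,3],3160,4166), ([2,1,14,29,2,1],719,491), ([1,1,3,1,6,3,2,1,1,3],102,114), ([1,8,1,2,1,2,1,2,4,2],763,1370), ([9,1,2,1,2,1,2,4,1,1],3118,641), ([2,3,1,6,3,2,1,1,2,1],3779,3347), ([1,22,1,1,3,11,2],1260,2414), ([23,1,1,3,11,1,1],2627,223), ([1,2,1,4,2,4,2,2,1,2],2955,4362), ([3,1,4,2,4,2,2,1,1,1],932,489), ([1,1,1,1,3,1,1,3,1,1,3,3],1458,1778), ([1,2,1,1,1,1,1,2,4,3,1,2],2864,4146), ([3,1,1,1,1,1,2,4,3,1,1,1],1025,567), ([2,1,1,3,1,1,3,1,1,3,2,1],2431,1899), ([10,1,2,2,2,21],3094,578), ([1,3,1,8,17,1,1,2],1620,2578), ([4,1,8,17,1,1,1,1],2275,931), ([1,9,1,2,2,2,20,1],801,1455), ([1,1,1,1,1,1,1,2,1,3,4,3],3766,4658), ([2,1,1,1,1,1,2,1,3,4,2,1],139,107),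 ([16,1,2,2,33],3092,370), ([1,15,1,2,2,32,1],817,1539), ([1,1,1,1,11,1,5,3,3],3738,4510), ([2,1,1,11,1,5,3,2,1],179,143), ([10,6,3,20],3667,722), ([1,1,3,6,12,1,1,3],3303,3754), ([2,3,6,12,1,1,2,1],616,533), ([1,9,6,3,19,1],252,457)]
theorem r095 : rgV L095 3881 21 = true := by decide +kernel
theorem f095 : ∀ p ∈ L095, fam (wl p.1) p.2.1 p.2.2 = true := by
  intro p hp
  simp only [L095, List.mem_cons, List.not_mem_nil, or_false] at hp
  rcases hp with rfl | rfl | rfl | rfl | rfl | rfl | rfl | rfl | rfl | rfl | rfl | rfl | rfl | rfl | rfl | rfl | rfl | rfl | rfl | rfl | rfl | rfl | rfl | rfl | rfl | rfl | rfl | rfl | rfl | rfl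
  · exact x095_0
  · exact x095_1
  · exact x095_2
  · exact x095_3
  · exact x095_4
  · exact x095_5
  · exact x095_6
  · exact x095_7
  · exact x095_8
  · exact x095_9
  · exact x095_10
  · exact x095_11
  · exact x095_12
  · exact x095_13
  · exact x095_14
  · exact x095_15
  · exact x095_16
  · exact x095_17
  · exact x095_18
  · exact x095_19
  · exact x095_20
  · exact x095_21
  · exact x095_22
  · exact x095_23
  · exact x095_24
  · exact x095_25
  · exact x095_26
  · exact x095_27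
  · exact x095_28
  · exact x095_29

end Pool.Agent.V5helper47.EV
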