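import Pool.Agent.V5helper47.EV.S2

/-! Search, part of the half words. -/

set_option maxRecDepth 1000000

namespace Pool.Agent.V5helper47.EV

open H419R2 Pool.Agent.N911 Pool.Agent.V5helper47.CN

theorem x097_0 : fam (wl [1,1,17,1,2,8,1,3]) 1372 1410 = true := by decide +kernel
theorem x097_1 : fam (wl [1,4,1,1,5,2,1,3,2,2]) 1709 2802 = true := by decide +kernel
theorem x097_2 : fam (wl [5,1,1,5,2,1,3,2,1,1]) 2252 813 = true := by decide +kernel
theorem x097_3 : fam (wl [2,17,1,2,8,1,2,1]) 2589 2519 = true := by decide +kernel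
theorem x097_4 : fam (wl [1,61,1,30,2]) 2990 5886 = true := by decide +kernel
theorem x097_5 : fam (wl [62,1,30,1,1]) 975 31 = true := by decide +kernel
theorem x097_6 : fam (wl [3,1,8,2,1,3,1,7]) 3274 1682 = true := by decide +kernel
theorem x097_7 : fam (wl [1,62,31,2]) 976 1922 = true := by decide +kernel
theorem x097_8 : fam (wl [63,31,1,1]) 2993 95 = true := by decide +kernel
theorem x097_9 : fam (wl [1,2,1,8,2,1,3,1,6,1]) 695 1035 = true := by decide +kernel
theorem x097_10 : fam (wl [5,4,1,1,3,2,10]) 26 10 = true := by decide +kernel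
theorem x097_11 : fam (wl [1,2,5,3,1,1,10,1,2]) 1589 2182 = true := by decide +kernel
theorem x097_12 : fam (wl [3,5,3,1,1,10,1,1,1]) 2386 1497 = true := by decide +kernel
theorem x097_13 : fam (wl [1,4,4,1,1,3,2,9,1]) 3949 6387 = true := by decide +kernel
theorem x097_14 : fam (wl [1,1,31,15,1,3]) 1120 1138 = true := by decide +kernel
theorem x097_15 : fam (wl [1,1,1,1,6,1,2,3,3,3]) 2776 3362 = true := by decide +kernel
theorem x097_16 : fam (wl [2,1,1,6,1,2,3,3,2,1]) 1199 947 = true := by decide +kernel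
theorem x097_17 : fam (wl [2,31,15,1,2,1]) 2855 2811 = true := by decide +kernel
theorem x097_18 : fam (wl [10,1,4,1,1,1,21]) 855 158 = true := by decide +kernel
theorem x097_19 : fam (wl [2,11,2,2,1,5,4]) 2152 2062 = true := by decide +kernel
theorem x097_20 : fam (wl [1,1,11,2,2,1,5,3,1]) 1829 1907 = true := by decide +kernel
theorem x097_21 : fam (wl [1,9,1,4,1,1,1,20,1]) 3126 5677 = true := by decide +kernel
theorem x097_22 : fam (wl [8,1,1,2,5,17]) 2277 530 = true := by decide +kernel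
theorem x097_23 : fam (wl [1,1,3,1,1,1,1,3,3,1,1,3]) 3261 3658 = true := by decide +kernel
theorem x097_24 : fam (wl [2,3,1,1,1,1,3,3,1,1,2,1]) 724 637 = true := by decide +kernel
theorem x097_25 : fam (wl [1,7,1,1,2,5,16,1]) 1708 3021 = true := by decide +kernel
theorem x097_26 : fam (wl [6,1,4,2,1,1,1,13]) 620 182 = true := by decide +kernel
theorem x097_27 : fam (wl [1,4,2,1,3,1,1,5,2,2]) 1063 1730 = true := by decide +kernel
theorem x097_28 : fam (wl [5,2,1,3,1,1,5,2,1,1]) 2928 1093 = true := by decide +kernel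
theorem x097_29 : fam (wl [1,5,1,4,2,1,1,1,12,1]) 3371 5755 = true := by decide +kernel
/-- words with first entry from 3963 to 3999 -/
def L097 : List (List ℕ × ℕ × ℕ) := [([1,1,17,1,2,8,1,3],1372,1410), ([1,4,1,1,5,2,1,3,2,2],1709,2802), ([5,1,1,5,2,1,3,2,1,1],2252,813), ([2,17,1,2,8,1,2,1],2589,2519), ([1,61,1,30,2],2990,5886), ([62,1,30,1,1],975,31), ([3,1,8,2,1,3,1,7],3274,1682), ([1,62,31,2],976,1922), ([63,31,1,1],2993,95), ([1,2,1,8,2,1,3,1,6,1],695,1035), ([5,4,1,1,3,2,10],26,10), ([1,2,5,3,1,1,10,1,2],1589,2182), ([3,5,3,1,1,10,1,1,1],2386,1497), ([1,4,4,1,1,3,2,9,1],3949,6387), ([1,1,31,15,1,3],1120,1138), ([1,1,1,1,6,1,2,3,3,3],2776,3362), ([2,1,1,6,1,2,3,3,2,1],1199,947), ([2,31,15,1,2,1],2855,2811), ([10,1,4,1,1,1,21],855,158), ([2,11,2,2,1,5,4],2152,2062), ([1,1,11,2,2,1,5,3,1],1829,1907), ([1,9,1,4,1,1,1,20,1],3126,5677), ([8,1,1,2,5,17],2277,530), ([1,1,3,1,1,1,1,3,3,1,1,3],3261,3658), ([2,3,1,1,1,1,3,3,1,1,2,1],724,637), ([1,7,1,1,2,5,16,1],1708,3021),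 ([6,1,4,2,1,1,1,13],620,182), ([1,4,2,1,3,1,1,5,2,2],1063,1730), ([5,2,1,3,1,1,5,2,1,1],2928,1093), ([1,5,1,4,2,1,1,1,12,1],3371,5755)]
theorem r097 : rgV L097 3963 19 = true := by decide +kernel
theorem f097 : ∀ p ∈ L097, fam (wl p.1) p.2.1 p.2.2 = true := by
  intro p hp
  simp only [L097, List.mem_cons, List.not_mem_nil, or_false] at hp
  rcases hp with rfl | rfl | rfl | rfl | rfl | rfl | rfl | rfl | rfl | rfl | rfl | rfl | rfl | rfl | rfl | rfl | rfl | rfl | rfl | rfl | rfl | rfl | rfl | rfl | rfl | rfl | rfl | rfl | rfl | rfl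
  · exact x097_0
  · exact x097_1
  · exact x097_2
  · exact x097_3
  · exact x097_4
  · exact x097_5
  · exact x097_6
  · exact x097_7
  · exact x097_8
  · exact x097_9
  · exact x097_10
  · exact x097_11
  · exact x097_12
  · exact x097_13
  · exact x097_14
  · exact x097_15
  · exact x097_16
  · exact x097_17
  · exact x097_18
  · exact x097_19
  · exact x097_20
  · exact x097_21
  · exact x097_22
  · exact x097_23
  · exact x097_24
  · exact x097_25
  · exact x097_26
  · exact x097_27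
  · exact x097_28
  · exact x097_29

end Pool.Agent.V5helper47.EV
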