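import Pool.Agent.V5helper47.EV.S2

/-! Search, part of the half words. -/

set_option maxRecDepth 1000000

namespace Pool.Agent.V5helper47.EV

open H419R2 Pool.Agent.N911 Pool.Agent.V5helper47.CN

theorem x098_0 : fam (wl [3,2,5,1,11,1,6]) 3499 2022 = true := by decide +kernel
theorem x098_1 : fam (wl [1,2,2,5,1,11,1,5,1]) 500 713 = true := by decide +kernel
theorem x098_2 : fam (wl [3,1,15,7,1,7]) 1516 770 = true := by decide +kernel
theorem x098_3 : fam (wl [1,2,1,15,7,1,6,1]) 2483 3707 = true := by decide +kernel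
theorem x098_4 : fam (wl [7,1,3,1,2,1,1,15]) 475 122 = true := by decide +kernel
theorem x098_5 : fam (wl [1,6,1,3,1,2,1,1,14,1]) 3526 6149 = true := by decide +kernel
theorem x098_6 : fam (wl [1,14,2,1,5,7,2]) 2110 3946 = true := by decide +kernel
theorem x098_7 : fam (wl [15,2,1,5,7,1,1]) 1895 247 = true := by decide +kernel
theorem x098_8 : fam (wl [1,3,3,1,1,2,3,1,1,1,1,2]) 3822 5858 = true := by decide +kernel
theorem x098_9 : fam (wl [1,11,5,2,1,1,5,2]) 785 1442 = true := by decide +kernel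
theorem x098_10 : fam (wl [12,5,2,1,1,5,1,1]) 3222 529 = true := by decide +kernel
theorem x098_11 : fam (wl [4,3,1,1,2,3,1,1,1,1,1,1]) 185 87 = true := by decide +kernel
theorem x098_12 : fam (wl [1,1,1,1,12,6,3,3]) 1792 2162 = true := by decide +kernel
theorem x098_13 : fam (wl [2,1,1,12,6,3,2,1]) 2225 1767 = true := by decide +kernel
theorem x098_14 : fam (wl [1,2,3,3,2,1,1,6,1,2]) 1309 1826 = true := by decide +kernel
theorem x098_15 : fam (wl [3,3,3,2,1,1,6,1,1,1]) 2716 1645 = true := by decide +kernel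
theorem x098_16 : fam (wl [1,1,2,1,1,1,2,2,4,2,3]) 574 666 = true := by decide +kernel
theorem x098_17 : fam (wl [1,6,2,3,1,1,4,3,2]) 821 1422 = true := by decide +kernel
theorem x098_18 : fam (wl [7,2,3,1,1,4,3,1,1]) 3216 865 = true := by decide +kernel
theorem x098_19 : fam (wl [2,2,1,1,1,2,2,4,2,2,1]) 3463 2911 = true := by decide +kernel
theorem x098_20 : fam (wl [3,1,1,1,2,1,2,1,3,7]) 207 114 = true := by decide +kernel
theorem x098_21 : fam (wl [1,1,1,1,2,3,6,1,3,3]) 2087 2562 = true := by decide +kernel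
theorem x098_22 : fam (wl [2,1,1,2,3,6,1,3,2,1]) 1952 1509 = true := by decide +kernel
theorem x098_23 : fam (wl [1,2,1,1,1,2,1,2,1,3,6,1]) 3832 5557 = true := by decide +kernel
theorem x098_24 : fam (wl [44,1,89]) 4004 178 = true := by decide +kernel
theorem x098_25 : fam (wl [1,43,1,88,1]) 43 87 = true := by decide +kernel
theorem x098_26 : fam (wl [2,1,5,1,2,1,2,2,1,5]) 2683 1882 = true := by decide +kernel
theorem x098_27 : fam (wl [1,1,1,5,1,2,1,2,2,1,4,1]) 1364 1773 = true := by decide +kernel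
theorem x098_28 : fam (wl [45,90]) 45 2 = true := by decide +kernel
theorem x098_29 : fam (wl [1,44,89,1]) 4004 7833 = true := by decide +kernel
/-- words with first entry from 4001 to 4055 -/
def L098 : List (List ℕ × ℕ × ℕ) := [([3,2,5,1,11,1,6],3499,2022), ([1,2,2,5,1,11,1,5,1],500,713), ([3,1,15,7,1,7],1516,770), ([1,2,1,15,7,1,6,1],2483,3707), ([7,1,3,1,2,1,1,15],475,122), ([1,6,1,3,1,2,1,1,14,1],3526,6149), ([1,14,2,1,5,7,2],2110,3946), ([15,2,1,5,7,1,1],1895,247), ([1,3,3,1,1,2,3,1,1,1,1,2],3822,5858), ([1,11,5,2,1,1,5,2],785,1442), ([12,5,2,1,1,5,1,1],3222,529), ([4,3,1,1,2,3,1,1,1,1,1,1],185,87), ([1,1,1,1,12,6,3,3],1792,2162), ([2,1,1,12,6,3,2,1],2225,1767), ([1,2,3,3,2,1,1,6,1,2],1309,1826), ([3,3,3,2,1,1,6,1,1,1],2716,1645), ([1,1,2,1,1,1,2,2,4,2,3],574,666), ([1,6,2,3,1,1,4,3,2],821,1422), ([7,2,3,1,1,4,3,1,1],3216,865), ([2,2,1,1,1,2,2,4,2,2,1],3463,2911), ([3,1,1,1,2,1,2,1,3,7],207,114), ([1,1,1,1,2,3,6,1,3,3],2087,2562), ([2,1,1,2,3,6,1,3,2,1],1952,1509),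 ([1,2,1,1,1,2,1,2,1,3,6,1],3832,5557), ([44,1,89],4004,178), ([1,43,1,88,1],43,87), ([2,1,5,1,2,1,2,2,1,5],2683,1882), ([1,1,1,5,1,2,1,2,2,1,4,1],1364,1773), ([45,90],45,2), ([1,44,89,1],4004,7833)]
theorem r098 : rgV L098 4001 28 = true := by decide +kernel
theorem f098 : ∀ p ∈ L098, fam (wl p.1) p.2.1 p.2.2 = true := by
  intro p hp
  simp only [L098, List.mem_cons, List.not_mem_nil, or_false] at hp
  rcases hp with rfl | rfl | rfl | rfl | rfl | rfl | rfl | rfl | rfl | rfl | rfl | rfl | rfl | rfl | rfl | rfl | rfl | rfl | rfl | rfl | rfl | rfl | rfl | rfl | rfl | rfl | rfl | rfl | rfl | rfl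
  · exact x098_0
  · exact x098_1
  · exact x098_2
  · exact x098_3
  · exact x098_4
  · exact x098_5
  · exact x098_6
  · exact x098_7
  · exact x098_8
  · exact x098_9
  · exact x098_10
  · exact x098_11
  · exact x098_12
  · exact x098_13
  · exact x098_14
  · exact x098_15
  · exact x098_16
  · exact x098_17
  · exact x098_18
  · exact x098_19
  · exact x098_20
  · exact x098_21
  · exact x098_22
  · exact x098_23
  · exact x098_24
  · exact x098_25
  · exact x098_26
  · exact x098_27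
  · exact x098_28
  · exact x098_29

end Pool.Agent.V5helper47.EV
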