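import Pool.Agent.V5helper47.EV.S2

/-! Search, part of the half words. -/

set_option maxRecDepth 1000000

namespace Pool.Agent.V5helper47.EV

open H419R2 Pool.Agent.N911 Pool.Agent.V5helper47.CN

theorem x099_0 : fam (wl [9,2,1,1,3,1,18]) 3146 670 = true := by decide +kernel
theorem x099_1 : fam (wl [1,8,2,1,1,3,1,17,1]) 909 1627 = true := by decide +kernel
theorem x099_2 : fam (wl [3,1,4,1,1,3,1,1,1,7]) 783 410 = true := by decide +kernel
theorem x099_3 : fam (wl [1,2,1,4,1,1,3,1,1,1,6,1]) 3272 4833 = true := by decide +kernel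
theorem x099_4 : fam (wl [4,1,3,2,4,1,1,9]) 1294 542 = true := by decide +kernel
theorem x099_5 : fam (wl [4,2,1,4,2,2,1,8]) 1154 530 = true := by decide +kernel
theorem x099_6 : fam (wl [1,2,8,2,1,16,1,2]) 1361 1850 = true := by decide +kernel
theorem x099_7 : fam (wl [1,7,2,3,1,1,2,1,3,2]) 248 438 = true := by decide +kernel
theorem x099_8 : fam (wl [8,2,3,1,1,2,1,3,1,1]) 3809 903 = true := by decide +kernel
theorem x099_9 : fam (wl [3,8,2,1,16,1,1,1]) 2696 1729 = true := by decide +kernel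
theorem x099_10 : fam (wl [1,3,2,1,4,2,2,1,7,1]) 2903 4475 = true := by decide +kernel
theorem x099_11 : fam (wl [1,3,1,3,2,4,1,1,8,1]) 2763 4371 = true := by decide +kernel
theorem x099_12 : fam (wl [6,1,1,2,1,6,13]) 1729 526 = true := by decide +kernel
theorem x099_13 : fam (wl [1,1,4,6,1,2,1,1,1,1,3]) 2024 2242 = true := by decide +kernel
theorem x099_14 : fam (wl [2,4,6,1,2,1,1,1,1,2,1]) 2037 1819 = true := by decide +kernel
theorem x099_15 : fam (wl [1,5,1,1,2,1,6,12,1]) 2332 3957 = true := by decide +kernel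
theorem x099_16 : fam (wl [1,1,2,4,2,2,1,1,1,2,3]) 238 282 = true := by decide +kernel
theorem x099_17 : fam (wl [2,2,4,2,2,1,1,1,2,2,1]) 3833 3131 = true := by decide +kernel
theorem x099_18 : fam (wl [1,5,2,2,2,2,2,1,2,2]) 1593 2690 = true := by decide +kernel
theorem x099_19 : fam (wl [6,2,2,2,2,2,1,2,1,1]) 2478 773 = true := by decide +kernel
theorem x099_20 : fam (wl [1,1,11,1,1,3,5,1,3]) 90 94 = true := by decide +kernel
theorem x099_21 : fam (wl [2,11,1,1,3,5,1,2,1]) 3987 3823 = true := by decide +kernel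
theorem x099_22 : fam (wl [4,1,1,2,2,1,5,9]) 2335 1018 = true := by decide +kernel
theorem x099_23 : fam (wl [2,4,2,1,2,5,2,4]) 840 754 = true := by decide +kernel
theorem x099_24 : fam (wl [1,1,4,2,1,2,5,2,3,1]) 3241 3575 = true := by decide +kernel
theorem x099_25 : fam (wl [1,3,1,1,2,2,1,5,8,1]) 1746 2733 = true := by decide +kernel
theorem x099_26 : fam (wl [13,1,1,1,3,27]) 1650 242 = true := by decide +kernel
theorem x099_27 : fam (wl [1,12,1,1,1,3,26,1]) 2439 4523 = true := by decide +kernel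
/-- words with first entry from 4057 to 4095 -/
def L099 : List (List ℕ × ℕ × ℕ) := [([9,2,1,1,3,1,18],3146,670), ([1,8,2,1,1,3,1,17,1],909,1627), ([3,1,4,1,1,3,1,1,1,7],783,410), ([1,2,1,4,1,1,3,1,1,1,6,1],3272,4833), ([4,1,3,2,4,1,1,9],1294,542), ([4,2,1,4,2,2,1,8],1154,530), ([1,2,8,2,1,16,1,2],1361,1850), ([1,7,2,3,1,1,2,1,3,2],248,438), ([8,2,3,1,1,2,1,3,1,1],3809,903), ([3,8,2,1,16,1,1,1],2696,1729), ([1,3,2,1,4,2,2,1,7,1],2903,4475), ([1,3,1,3,2,4,1,1,8,1],2763,4371), ([6,1,1,2,1,6,13],1729,526), ([1,1,4,6,1,2,1,1,1,1,3],2024,2242), ([2,4,6,1,2,1,1,1,1,2,1],2037,1819), ([1,5,1,1,2,1,6,12,1],2332,3957), ([1,1,2,4,2,2,1,1,1,2,3],238,282), ([2,2,4,2,2,1,1,1,2,2,1],3833,3131), ([1,5,2,2,2,2,2,1,2,2],1593,2690), ([6,2,2,2,2,2,1,2,1,1],2478,773), ([1,1,11,1,1,3,5,1,3],90,94), ([2,11,1,1,3,5,1,2,1],3987,3823), ([4,1,1,2,2,1,5,9],2335,1018), ([2,4,2,1,2,5,2,4],840,754), ([1,1,4,2,1,2,5,2,3,1],3241,3575), ([1,3,1,1,2,2,1,5,8,1],1746,2733), ([13,1,1,1,3,27],1650,242),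 ([1,12,1,1,1,3,26,1],2439,4523)]
theorem r099 : rgV L099 4057 20 = true := by decide +kernel
theorem f099 : ∀ p ∈ L099, fam (wl p.1) p.2.1 p.2.2 = true := by
  intro p hp
  simp only [L099, List.mem_cons, List.not_mem_nil, or_false] at hp
  rcases hp with rfl | rfl | rfl | rfl | rfl | rfl | rfl | rfl | rfl | rfl | rfl | rfl | rfl | rfl | rfl | rfl | rfl | rfl | rfl | rfl | rfl | rfl | rfl | rfl | rfl | rfl | rfl | rfl
  · exact x099_0
  · exact x099_1
  · exact x099_2
  · exact x099_3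
  · exact x099_4
  · exact x099_5
  · exact x099_6
  · exact x099_7
  · exact x099_8
  · exact x099_9
  · exact x099_10
  · exact x099_11
  · exact x099_12
  · exact x099_13
  · exact x099_14
  · exact x099_15
  · exact x099_16
  · exact x099_17
  · exact x099_18
  · exact x099_19
  · exact x099_20
  · exact x099_21
  · exact x099_22
  · exact x099_23
  · exact x099_24
  · exact x099_25
  · exact x099_26
  · exact x099_27

end Pool.Agent.V5helper47.EV
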