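import Pool.Agent.V5helper47.EV.S2

/-! Search, part of the half words. -/

set_option maxRecDepth 1000000

namespace Pool.Agent.V5helper47.EV

open H419R2 Pool.Agent.N911 Pool.Agent.V5helper47.CN

theorem x100_0 : fam (wl [8,7,1,3,16]) 382 94 = true := by decide +kernel
theorem x100_1 : fam (wl [2,1,3,1,3,1,1,2,1,1,5]) 3614 2590 = true := by decide +kernel
theorem x100_2 : fam (wl [1,1,1,3,1,3,1,1,2,1,1,4,1]) 481 619 = true := by decide +kernel
theorem x100_3 : fam (wl [1,7,7,1,3,15,1]) 3713 6515 = true := by decide +kernel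
theorem x100_4 : fam (wl [7,1,7,3,1,15]) 386 98 = true := by decide +kernel
theorem x100_5 : fam (wl [1,13,1,2,5,1,6,2]) 3795 7074 = true := by decide +kernel
theorem x100_6 : fam (wl [14,1,2,5,1,6,1,1]) 300 41 = true := by decide +kernel
theorem x100_7 : fam (wl [1,6,1,7,3,1,14,1]) 3709 6479 = true := by decide +kernel
theorem x100_8 : fam (wl [3,2,6,12,1,6]) 2856 1650 = true := by decide +kernel
theorem x100_9 : fam (wl [1,2,2,6,12,1,5,1]) 1241 1767 = true := by decide +kernel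
theorem x100_10 : fam (wl [1,1,5,3,1,7,2,1,3]) 296 322 = true := by decide +kernel
theorem x100_11 : fam (wl [2,5,3,1,7,2,1,2,1]) 3813 3483 = true := by decide +kernel
theorem x100_12 : fam (wl [2,1,11,1,2,5,1,5]) 1031 706 = true := by decide +kernel
theorem x100_13 : fam (wl [1,3,1,2,4,2,5,1,1,2]) 3214 5058 = true := by decide +kernel
theorem x100_14 : fam (wl [4,1,2,4,2,5,1,1,1,1]) 897 383 = true := by decide +kernel
theorem x100_15 : fam (wl [1,1,1,11,1,2,5,1,4,1]) 3080 4053 = true := by decide +kernel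
theorem x100_16 : fam (wl [2,3,8,1,3,1,1,1,4]) 2054 1770 = true := by decide +kernel
theorem x100_17 : fam (wl [1,1,3,8,1,3,1,1,1,3,1]) 2071 2359 = true := by decide +kernel
theorem x100_18 : fam (wl [4,3,1,1,1,4,1,1,8]) 3227 1510 = true := by decide +kernel
theorem x100_19 : fam (wl [1,3,3,1,1,1,4,1,1,7,1]) 900 1381 = true := by decide +kernel
theorem x100_20 : fam (wl [1,1,1,1,3,3,1,1,1,1,3,3]) 2754 3362 = true := by decide +kernel
theorem x100_21 : fam (wl [2,1,1,3,3,1,1,1,1,3,2,1]) 1373 1071 = true := by decide +kernel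
theorem x100_22 : fam (wl [1,4,1,5,2,1,2,2,2,2]) 300 498 = true := by decide +kernel
theorem x100_23 : fam (wl [1,14,1,1,2,3,7,2]) 1971 3690 = true := by decide +kernel
theorem x100_24 : fam (wl [15,1,1,2,3,7,1,1]) 2158 277 = true := by decide +kernel
theorem x100_25 : fam (wl [5,1,5,2,1,2,2,2,1,1]) 3829 1311 = true := by decide +kernel
theorem x100_26 : fam (wl [1,20,2,4,10,2]) 2669 5090 = true := by decide +kernel
theorem x100_27 : fam (wl [21,2,4,10,1,1]) 1468 137 = true := by decide +kernel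
/-- words with first entry from 4097 to 4149 -/
def L100 : List (List ℕ × ℕ × ℕ) := [([8,7,1,3,16],382,94), ([2,1,3,1,3,1,1,2,1,1,5],3614,2590), ([1,1,1,3,1,3,1,1,2,1,1,4,1],481,619), ([1,7,7,1,3,15,1],3713,6515), ([7,1,7,3,1,15],386,98), ([1,13,1,2,5,1,6,2],3795,7074), ([14,1,2,5,1,6,1,1],300,41), ([1,6,1,7,3,1,14,1],3709,6479), ([3,2,6,12,1,6],2856,1650), ([1,2,2,6,12,1,5,1],1241,1767), ([1,1,5,3,1,7,2,1,3],296,322), ([2,5,3,1,7,2,1,2,1],3813,3483), ([2,1,11,1,2,5,1,5],1031,706), ([1,3,1,2,4,2,5,1,1,2],3214,5058), ([4,1,2,4,2,5,1,1,1,1],897,383), ([1,1,1,11,1,2,5,1,4,1],3080,4053), ([2,3,8,1,3,1,1,1,4],2054,1770), ([1,1,3,8,1,3,1,1,1,3,1],2071,2359), ([4,3,1,1,1,4,1,1,8],3227,1510), ([1,3,3,1,1,1,4,1,1,7,1],900,1381), ([1,1,1,1,3,3,1,1,1,1,3,3],2754,3362), ([2,1,1,3,3,1,1,1,1,3,2,1],1373,1071), ([1,4,1,5,2,1,2,2,2,2],300,498), ([1,14,1,1,2,3,7,2],1971,3690), ([15,1,1,2,3,7,1,1],2158,277), ([5,1,5,2,1,2,2,2,1,1],3829,1311), ([1,20,2,4,10,2],2669,5090),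 ([21,2,4,10,1,1],1468,137)]
theorem r100 : rgV L100 4097 27 = true := by decide +kernel
theorem f100 : ∀ p ∈ L100, fam (wl p.1) p.2.1 p.2.2 = true := by
  intro p hp
  simp only [L100, List.mem_cons, List.not_mem_nil, or_false] at hp
  rcases hp with rfl | rfl | rfl | rfl | rfl | rfl | rfl | rfl | rfl | rfl | rfl | rfl | rfl | rfl | rfl | rfl | rfl | rfl | rfl | rfl | rfl | rfl | rfl | rfl | rfl | rfl | rfl | rfl
  · exact x100_0
  · exact x100_1
  · exact x100_2
  · exact x100_3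
  · exact x100_4
  · exact x100_5
  · exact x100_6
  · exact x100_7
  · exact x100_8
  · exact x100_9
  · exact x100_10
  · exact x100_11
  · exact x100_12
  · exact x100_13
  · exact x100_14
  · exact x100_15
  · exact x100_16
  · exact x100_17
  · exact x100_18
  · exact x100_19
  · exact x100_20
  · exact x100_21
  · exact x100_22
  · exact x100_23
  · exact x100_24
  · exact x100_25
  · exact x100_26
  · exact x100_27

end Pool.Agent.V5helper47.EV
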