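import Pool.Agent.V5helper47.EV.S2

/-! Search, part of the half words. -/

set_option maxRecDepth 1000000

namespace Pool.Agent.V5helper47.EV

open H419R2 Pool.Agent.N911 Pool.Agent.V5helper47.CN

theorem x101_0 : fam (wl [1,1,6,4,1,1,1,1,2,1,3]) 426 458 = true := by decide +kernel
theorem x101_1 : fam (wl [1,8,4,1,9,4,2]) 335 598 = true := by decide +kernel
theorem x101_2 : fam (wl [9,4,1,9,4,1,1]) 3814 829 = true := by decide +kernel
theorem x101_3 : fam (wl [2,6,4,1,1,1,1,2,1,2,1]) 3723 3447 = true := by decide +kernel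
theorem x101_4 : fam (wl [1,4,1,9,1,4,2,2,2]) 3263 5422 = true := by decide +kernel
theorem x101_5 : fam (wl [5,1,9,1,4,2,2,1,1]) 888 301 = true := by decide +kernel
theorem x101_6 : fam (wl [1,7,2,1,1,3,2,1,3,2]) 2042 3598 = true := by decide +kernel
theorem x101_7 : fam (wl [8,2,1,1,3,2,1,3,1,1]) 2109 503 = true := by decide +kernel
theorem x101_8 : fam (wl [1,1,1,1,1,2,2,2,2,4,3]) 1521 1886 = true := by decide +kernel
theorem x101_9 : fam (wl [2,1,1,1,2,2,2,2,4,2,1]) 2636 2005 = true := by decide +kernel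
theorem x101_10 : fam (wl [26,2,1,52]) 237 18 = true := by decide +kernel
theorem x101_11 : fam (wl [1,1,3,1,3,2,1,1,2,1,1,3]) 997 1114 = true := by decide +kernel
theorem x101_12 : fam (wl [1,2,2,1,1,2,5,5,1,2]) 3935 5546 = true := by decide +kernel
theorem x101_13 : fam (wl [1,3,2,3,1,2,1,1,2,1,1,2]) 3625 5618 = true := by decide +kernel
theorem x101_14 : fam (wl [4,2,3,1,2,1,1,2,1,1,1,1]) 534 241 = true := by decide +kernel
theorem x101_15 : fam (wl [3,2,1,1,2,5,5,1,1,1]) 224 133 = true := by decide +kernel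
theorem x101_16 : fam (wl [2,3,1,3,2,1,1,2,1,1,2,1]) 3162 2793 = true := by decide +kernel
theorem x101_17 : fam (wl [1,25,2,1,51,1]) 3922 7549 = true := by decide +kernel
theorem x101_18 : fam (wl [2,1,1,4,1,2,10,5]) 4100 3218 = true := by decide +kernel
theorem x101_19 : fam (wl [1,2,3,6,3,6,1,2]) 757 1058 = true := by decide +kernel
theorem x101_20 : fam (wl [3,3,6,3,6,1,1,1]) 3410 2057 = true := by decide +kernel
theorem x101_21 : fam (wl [1,1,1,1,4,1,2,10,4,1]) 67 83 = true := by decide +kernel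
theorem x101_22 : fam (wl [15,4,2,30]) 1233 162 = true := by decide +kernel
theorem x101_23 : fam (wl [1,10,4,8,5,2]) 2152 3922 = true := by decide +kernel
theorem x101_24 : fam (wl [11,4,8,5,1,1]) 2017 359 = true := by decide +kernel
theorem x101_25 : fam (wl [1,14,4,2,29,1]) 2936 5489 = true := by decide +kernel
theorem x101_26 : fam (wl [1,23,2,2,1,11,2]) 3431 6582 = true := by decide +kernel
theorem x101_27 : fam (wl [24,2,2,1,11,1,1]) 744 61 = true := by decide +kernel
theorem x101_28 : fam (wl [3,2,3,2,1,6,1,6]) 3191 1858 = true := by decide +kernel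
theorem x101_29 : fam (wl [1,2,2,3,2,1,6,1,5,1]) 984 1397 = true := by decide +kernel
/-- words with first entry from 4151 to 4181 -/
def L101 : List (List ℕ × ℕ × ℕ) := [([1,1,6,4,1,1,1,1,2,1,3],426,458), ([1,8,4,1,9,4,2],335,598), ([9,4,1,9,4,1,1],3814,829), ([2,6,4,1,1,1,1,2,1,2,1],3723,3447), ([1,4,1,9,1,4,2,2,2],3263,5422), ([5,1,9,1,4,2,2,1,1],888,301), ([1,7,2,1,1,3,2,1,3,2],2042,3598), ([8,2,1,1,3,2,1,3,1,1],2109,503), ([1,1,1,1,1,2,2,2,2,4,3],1521,1886), ([2,1,1,1,2,2,2,2,4,2,1],2636,2005), ([26,2,1,52],237,18), ([1,1,3,1,3,2,1,1,2,1,1,3],997,1114), ([1,2,2,1,1,2,5,5,1,2],3935,5546), ([1,3,2,3,1,2,1,1,2,1,1,2],3625,5618), ([4,2,3,1,2,1,1,2,1,1,1,1],534,241), ([3,2,1,1,2,5,5,1,1,1],224,133), ([2,3,1,3,2,1,1,2,1,1,2,1],3162,2793), ([1,25,2,1,51,1],3922,7549), ([2,1,1,4,1,2,10,5],4100,3218), ([1,2,3,6,3,6,1,2],757,1058), ([3,3,6,3,6,1,1,1],3410,2057), ([1,1,1,1,4,1,2,10,4,1],67,83), ([15,4,2,30],1233,162), ([1,10,4,8,5,2],2152,3922), ([11,4,8,5,1,1],2017,359),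 ([1,14,4,2,29,1],2936,5489), ([1,23,2,2,1,11,2],3431,6582), ([24,2,2,1,11,1,1],744,61), ([3,2,3,2,1,6,1,6],3191,1858), ([1,2,2,3,2,1,6,1,5,1],984,1397)]
theorem r101 : rgV L101 4151 16 = true := by decide +kernel
theorem f101 : ∀ p ∈ L101, fam (wl p.1) p.2.1 p.2.2 = true := by
  intro p hp
  simp only [L101, List.mem_cons, List.not_mem_nil, or_false] at hp
  rcases hp with rfl | rfl | rfl | rfl | rfl | rfl | rfl | rfl | rfl | rfl | rfl | rfl | rfl | rfl | rfl | rfl | rfl | rfl | rfl | rfl | rfl | rfl | rfl | rfl | rfl | rfl | rfl | rfl | rfl | rfl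
  · exact x101_0
  · exact x101_1
  · exact x101_2
  · exact x101_3
  · exact x101_4
  · exact x101_5
  · exact x101_6
  · exact x101_7
  · exact x101_8
  · exact x101_9
  · exact x101_10
  · exact x101_11
  · exact x101_12
  · exact x101_13
  · exact x101_14
  · exact x101_15
  · exact x101_16
  · exact x101_17
  · exact x101_18
  · exact x101_19
  · exact x101_20
  · exact x101_21
  · exact x101_22
  · exact x101_23
  · exact x101_24
  · exact x101_25
  · exact x101_26
  · exact x101_27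
  · exact x101_28
  · exact x101_29

end Pool.Agent.V5helper47.EV
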