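import Pool.Agent.V5helper47.EV.S2

/-! Search, part of the half words. -/

set_option maxRecDepth 1000000

namespace Pool.Agent.V5helper47.EV

open H419R2 Pool.Agent.N911 Pool.Agent.V5helper47.CN

theorem x102_0 : fam (wl [17,3,1,1,34]) 3336 386 = true := by decide +kernel
theorem x102_1 : fam (wl [3,1,1,5,1,12,7]) 1695 958 = true := by decide +kernel
theorem x102_2 : fam (wl [1,2,1,1,5,1,12,6,1]) 2486 3569 = true := by decide +kernel
theorem x102_3 : fam (wl [1,16,3,1,1,33,1]) 845 1595 = true := by decide +kernel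
theorem x102_4 : fam (wl [4,15,1,7,8]) 1556 766 = true := by decide +kernel
theorem x102_5 : fam (wl [1,1,7,2,1,5,3,1,3]) 1299 1382 = true := by decide +kernel
theorem x102_6 : fam (wl [2,7,2,1,5,3,1,2,1]) 2892 2709 = true := by decide +kernel
theorem x102_7 : fam (wl [1,3,15,1,7,7,1]) 2635 3975 = true := by decide +kernel
theorem x102_8 : fam (wl [2,2,1,1,4,1,1,1,3,1,4]) 1251 1046 = true := by decide +kernel
theorem x102_9 : fam (wl [1,1,2,1,1,4,1,1,1,3,1,3,1]) 2948 3433 = true := by decide +kernel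
theorem x102_10 : fam (wl [2,1,2,1,1,1,2,4,2,5]) 3942 2894 = true := by decide +kernel
theorem x102_11 : fam (wl [1,1,1,2,1,1,1,2,4,2,4,1]) 257 327 = true := by decide +kernel
theorem x102_12 : fam (wl [2,2,2,2,1,2,1,4,1,4]) 3409 2826 = true := by decide +kernel
theorem x102_13 : fam (wl [2,9,3,1,1,1,4,4]) 845 802 = true := by decide +kernel
theorem x102_14 : fam (wl [1,1,9,3,1,1,1,4,3,1]) 3356 3529 = true := by decide +kernel
theorem x102_15 : fam (wl [1,1,2,2,2,1,2,1,4,1,3,1]) 792 929 = true := by decide +kernel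
theorem x102_16 : fam (wl [2,1,20,1,9,1,5]) 895 606 = true := by decide +kernel
theorem x102_17 : fam (wl [1,4,8,1,17,2,2]) 2624 4222 = true := by decide +kernel
theorem x102_18 : fam (wl [5,8,1,17,2,1,1]) 1581 619 = true := by decide +kernel
theorem x102_19 : fam (wl [1,1,1,20,1,9,1,4,1]) 3310 4381 = true := by decide +kernel
theorem x102_20 : fam (wl [1,1,1,2,1,5,2,1,6,3]) 2354 2990 = true := by decide +kernel
theorem x102_21 : fam (wl [2,1,2,1,5,2,1,6,2,1]) 1855 1355 = true := by decide +kernel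
theorem x102_22 : fam (wl [2,31,1,15,4]) 924 910 = true := by decide +kernel
theorem x102_23 : fam (wl [1,1,31,1,15,3,1]) 3291 3343 = true := by decide +kernel
theorem x102_24 : fam (wl [1,3,2,1,1,2,1,3,2,1,1,2]) 1151 1778 = true := by decide +kernel
theorem x102_25 : fam (wl [4,2,1,1,2,1,3,2,1,1,1,1]) 3064 1397 = true := by decide +kernel
theorem x102_26 : fam (wl [6,2,3,6,1,12]) 4071 1266 = true := by decide +kernel
theorem x102_27 : fam (wl [1,5,2,3,6,1,11,1]) 146 249 = true := by decide +kernel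
/-- words with first entry from 4183 to 4221 -/
def L102 : List (List ℕ × ℕ × ℕ) := [([17,3,1,1,34],3336,386), ([3,1,1,5,1,12,7],1695,958), ([1,2,1,1,5,1,12,6,1],2486,3569), ([1,16,3,1,1,33,1],845,1595), ([4,15,1,7,8],1556,766), ([1,1,7,2,1,5,3,1,3],1299,1382), ([2,7,2,1,5,3,1,2,1],2892,2709), ([1,3,15,1,7,7,1],2635,3975), ([2,2,1,1,4,1,1,1,3,1,4],1251,1046), ([1,1,2,1,1,4,1,1,1,3,1,3,1],2948,3433), ([2,1,2,1,1,1,2,4,2,5],3942,2894), ([1,1,1,2,1,1,1,2,4,2,4,1],257,327), ([2,2,2,2,1,2,1,4,1,4],3409,2826), ([2,9,3,1,1,1,4,4],845,802), ([1,1,9,3,1,1,1,4,3,1],3356,3529), ([1,1,2,2,2,1,2,1,4,1,3,1],792,929), ([2,1,20,1,9,1,5],895,606), ([1,4,8,1,17,2,2],2624,4222), ([5,8,1,17,2,1,1],1581,619), ([1,1,1,20,1,9,1,4,1],3310,4381), ([1,1,1,2,1,5,2,1,6,3],2354,2990), ([2,1,2,1,5,2,1,6,2,1],1855,1355), ([2,31,1,15,4],924,910), ([1,1,31,1,15,3,1],3291,3343), ([1,3,2,1,1,2,1,3,2,1,1,2],1151,1778), ([4,2,1,1,2,1,3,2,1,1,1,1],3064,1397), ([6,2,3,6,1,12],4071,1266), ([1,5,2,3,6,1,11,1],146,249)]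
theorem r102 : rgV L102 4183 20 = true := by decide +kernel
theorem f102 : ∀ p ∈ L102, fam (wl p.1) p.2.1 p.2.2 = true := by
  intro p hp
  simp only [L102, List.mem_cons, List.not_mem_nil, or_false] at hp
  rcases hp with rfl | rfl | rfl | rfl | rfl | rfl | rfl | rfl | rfl | rfl | rfl | rfl | rfl | rfl | rfl | rfl | rfl | rfl | rfl | rfl | rfl | rfl | rfl | rfl | rfl | rfl | rfl | rfl
  · exact x102_0
  · exact x102_1
  · exact x102_2
  · exact x102_3
  · exact x102_4
  · exact x102_5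
  · exact x102_6
  · exact x102_7
  · exact x102_8
  · exact x102_9
  · exact x102_10
  · exact x102_11
  · exact x102_12
  · exact x102_13
  · exact x102_14
  · exact x102_15
  · exact x102_16
  · exact x102_17
  · exact x102_18
  · exact x102_19
  · exact x102_20
  · exact x102_21
  · exact x102_22
  · exact x102_23
  · exact x102_24
  · exact x102_25
  · exact x102_26
  · exact x102_27

end Pool.Agent.V5helper47.EV
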