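import Pool.Agent.V5helper47.EV.S2

/-! Search, part of the half words. -/

set_option maxRecDepth 1000000

namespace Pool.Agent.V5helper47.EV

open H419R2 Pool.Agent.N911 Pool.Agent.V5helper47.CN

theorem x103_0 : fam (wl [1,2,14,1,29,1,2]) 3595 4846 = true := by decide +kernel
theorem x103_1 : fam (wl [1,63,1,31,2]) 1071 2110 = true := by decide +kernel
theorem x103_2 : fam (wl [64,1,31,1,1]) 3150 97 = true := by decide +kernel
theorem x103_3 : fam (wl [3,14,1,29,1,1,1]) 626 409 = true := by decide +kernel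
theorem x103_4 : fam (wl [2,1,6,1,1,3,1,2,1,5]) 3421 2386 = true := by decide +kernel
theorem x103_5 : fam (wl [1,64,32,2]) 3153 6210 = true := by decide +kernel
theorem x103_6 : fam (wl [65,32,1,1]) 1072 33 = true := by decide +kernel
theorem x103_7 : fam (wl [1,1,1,6,1,1,3,1,2,1,4,1]) 804 1049 = true := by decide +kernel
theorem x103_8 : fam (wl [45,1,91]) 4185 182 = true := by decide +kernel
theorem x103_9 : fam (wl [1,44,1,90,1]) 44 89 = true := by decide +kernel
theorem x103_10 : fam (wl [46,92]) 46 2 = true := by decide +kernel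
theorem x103_11 : fam (wl [2,32,16,4]) 1188 1170 = true := by decide +kernel
theorem x103_12 : fam (wl [1,2,4,1,3,1,1,9,1,2]) 986 1358 = true := by decide +kernel
theorem x103_13 : fam (wl [1,5,3,2,4,1,1,1,2,2]) 2103 3538 = true := by decide +kernel
theorem x103_14 : fam (wl [6,3,2,4,1,1,1,2,1,1]) 2128 677 = true := by decide +kernel
theorem x103_15 : fam (wl [3,4,1,3,1,1,9,1,1,1]) 3245 2023 = true := by decide +kernel
theorem x103_16 : fam (wl [1,1,32,16,3,1]) 3043 3091 = true := by decide +kernel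
theorem x103_17 : fam (wl [1,45,91,1]) 4185 8191 = true := by decide +kernel
theorem x103_18 : fam (wl [2,4,1,1,2,2,3,2,4]) 3582 3230 = true := by decide +kernel
theorem x103_19 : fam (wl [1,1,4,1,1,2,2,3,2,3,1]) 657 723 = true := by decide +kernel
theorem x103_20 : fam (wl [1,2,15,30,1,2]) 2043 2754 = true := by decide +kernel
theorem x103_21 : fam (wl [3,15,30,1,1,1]) 2196 1433 = true := by decide +kernel
theorem x103_22 : fam (wl [2,1,21,10,1,5]) 511 346 = true := by decide +kernel
theorem x103_23 : fam (wl [1,1,1,21,10,1,4,1]) 3730 4937 = true := by decide +kernel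
theorem x103_24 : fam (wl [11,5,1,2,22]) 1017 182 = true := by decide +kernel
theorem x103_25 : fam (wl [9,1,1,1,1,4,19]) 3411 710 = true := by decide +kernel
theorem x103_26 : fam (wl [1,8,1,1,1,1,4,18,1]) 834 1497 = true := by decide +kernel
theorem x103_27 : fam (wl [1,10,5,1,2,21,1]) 3228 5881 = true := by decide +kernel
/-- words with first entry from 4223 to 4247 -/
def L103 : List (List ℕ × ℕ × ℕ) := [([1,2,14,1,29,1,2],3595,4846), ([1,63,1,31,2],1071,2110), ([64,1,31,1,1],3150,97), ([3,14,1,29,1,1,1],626,409), ([2,1,6,1,1,3,1,2,1,5],3421,2386), ([1,64,32,2],3153,6210), ([65,32,1,1],1072,33), ([1,1,1,6,1,1,3,1,2,1,4,1],804,1049), ([45,1,91],4185,182), ([1,44,1,90,1],44,89), ([46,92],46,2), ([2,32,16,4],1188,1170), ([1,2,4,1,3,1,1,9,1,2],986,1358), ([1,5,3,2,4,1,1,1,2,2],2103,3538), ([6,3,2,4,1,1,1,2,1,1],2128,677), ([3,4,1,3,1,1,9,1,1,1],3245,2023), ([1,1,32,16,3,1],3043,3091), ([1,45,91,1],4185,8191), ([2,4,1,1,2,2,3,2,4],3582,3230), ([1,1,4,1,1,2,2,3,2,3,1],657,723), ([1,2,15,30,1,2],2043,2754),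 ([3,15,30,1,1,1],2196,1433), ([2,1,21,10,1,5],511,346), ([1,1,1,21,10,1,4,1],3730,4937), ([11,5,1,2,22],1017,182), ([9,1,1,1,1,4,19],3411,710), ([1,8,1,1,1,1,4,18,1],834,1497), ([1,10,5,1,2,21,1],3228,5881)]
theorem r103 : rgV L103 4223 13 = true := by decide +kernel
theorem f103 : ∀ p ∈ L103, fam (wl p.1) p.2.1 p.2.2 = true := by
  intro p hp
  simp only [L103, List.mem_cons, List.not_mem_nil, or_false] at hp
  rcases hp with rfl | rfl | rfl | rfl | rfl | rfl | rfl | rfl | rfl | rfl | rfl | rfl | rfl | rfl | rfl | rfl | rfl | rfl | rfl | rfl | rfl | rfl | rfl | rfl | rfl | rfl | rfl | rfl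
  · exact x103_0
  · exact x103_1
  · exact x103_2
  · exact x103_3
  · exact x103_4
  · exact x103_5
  · exact x103_6
  · exact x103_7
  · exact x103_8
  · exact x103_9
  · exact x103_10
  · exact x103_11
  · exact x103_12
  · exact x103_13
  · exact x103_14
  · exact x103_15
  · exact x103_16
  · exact x103_17
  · exact x103_18
  · exact x103_19
  · exact x103_20
  · exact x103_21
  · exact x103_22
  · exact x103_23
  · exact x103_24
  · exact x103_25
  · exact x103_26
  · exact x103_27

end Pool.Agent.V5helper47.EV
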