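import Pool.Agent.V5helper47.EV.S2

/-! Search, part of the half words. -/

set_option maxRecDepth 1000000

namespace Pool.Agent.V5helper47.EV

open H419R2 Pool.Agent.N911 Pool.Agent.V5helper47.CN

theorem x104_0 : fam (wl [1,1,1,1,1,1,2,1,6,4,3]) 1651 2038 = true := by decide +kernel
theorem x104_1 : fam (wl [1,4,3,3,1,1,6,2,2]) 1556 2526 = true := by decide +kernel
theorem x104_2 : fam (wl [5,3,3,1,1,6,2,1,1]) 2691 1015 = true := by decide +kernel
theorem x104_3 : fam (wl [2,1,1,1,1,2,1,6,4,2,1]) 2596 1989 = true := by decide +kernel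
theorem x104_4 : fam (wl [4,16,8,8]) 3741 1842 = true := by decide +kernel
theorem x104_5 : fam (wl [2,7,2,2,2,1,3,4]) 1586 1486 = true := by decide +kernel
theorem x104_6 : fam (wl [1,4,9,18,2,2]) 3303 5314 = true := by decide +kernel
theorem x104_7 : fam (wl [1,36,1,2,18,2]) 3107 6050 = true := by decide +kernel
theorem x104_8 : fam (wl [37,1,2,18,1,1]) 1148 61 = true := by decide +kernel
theorem x104_9 : fam (wl [5,9,18,2,1,1]) 952 373 = true := by decide +kernel
theorem x104_10 : fam (wl [1,1,7,2,2,2,1,3,3,1]) 2669 2839 = true := by decide +kernel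
theorem x104_11 : fam (wl [1,3,16,8,7,1]) 514 777 = true := by decide +kernel
theorem x104_12 : fam (wl [1,1,18,2,1,8,1,3]) 4136 4246 = true := by decide +kernel
theorem x104_13 : fam (wl [2,18,2,1,8,1,2,1]) 121 119 = true := by decide +kernel
theorem x104_14 : fam (wl [26,1,2,53]) 240 18 = true := by decide +kernel
theorem x104_15 : fam (wl [1,2,1,8,1,2,4,2,1,2]) 948 1410 = true := by decide +kernel
theorem x104_16 : fam (wl [3,1,8,1,2,4,2,1,1,1]) 3317 1703 = true := by decide +kernel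
theorem x104_17 : fam (wl [1,25,1,2,52,1]) 4025 7751 = true := by decide +kernel
theorem x104_18 : fam (wl [1,2,1,5,2,2,1,2,2,1,2]) 2323 3438 = true := by decide +kernel
theorem x104_19 : fam (wl [3,1,5,2,2,1,2,2,1,1,1]) 1946 1013 = true := by decide +kernel
theorem x104_20 : fam (wl [2,1,7,1,1,3,3,1,5]) 1848 1282 = true := by decide +kernel
theorem x104_21 : fam (wl [1,1,1,7,1,1,3,3,1,4,1]) 2423 3167 = true := by decide +kernel
theorem x104_22 : fam (wl [5,7,2,1,3,10]) 3785 1474 = true := by decide +kernel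
theorem x104_23 : fam (wl [1,4,7,2,1,3,9,1]) 486 785 = true := by decide +kernel
theorem x104_24 : fam (wl [3,1,1,6,13,7]) 711 402 = true := by decide +kernel
theorem x104_25 : fam (wl [1,18,1,2,1,2,9,2]) 2613 4962 = true := by decide +kernel
theorem x104_26 : fam (wl [19,1,2,1,2,9,1,1]) 1666 169 = true := by decide +kernel
theorem x104_27 : fam (wl [1,2,1,1,6,13,6,1]) 3568 5121 = true := by decide +kernel
theorem x104_28 : fam (wl [1,6,3,1,2,7,3,2]) 4133 7130 = true := by decide +kernel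
theorem x104_29 : fam (wl [7,3,1,2,7,3,1,1]) 148 41 = true := by decide +kernel
/-- words with first entry from 4249 to 4287 -/
def L104 : List (List ℕ × ℕ × ℕ) := [([1,1,1,1,1,1,2,1,6,4,3],1651,2038), ([1,4,3,3,1,1,6,2,2],1556,2526), ([5,3,3,1,1,6,2,1,1],2691,1015), ([2,1,1,1,1,2,1,6,4,2,1],2596,1989), ([4,16,8,8],3741,1842), ([2,7,2,2,2,1,3,4],1586,1486), ([1,4,9,18,2,2],3303,5314), ([1,36,1,2,18,2],3107,6050), ([37,1,2,18,1,1],1148,61), ([5,9,18,2,1,1],952,373), ([1,1,7,2,2,2,1,3,3,1],2669,2839), ([1,3,16,8,7,1],514,777), ([1,1,18,2,1,8,1,3],4136,4246), ([2,18,2,1,8,1,2,1],121,119), ([26,1,2,53],240,18), ([1,2,1,8,1,2,4,2,1,2],948,1410), ([3,1,8,1,2,4,2,1,1,1],3317,1703), ([1,25,1,2,52,1],4025,7751), ([1,2,1,5,2,2,1,2,2,1,2],2323,3438), ([3,1,5,2,2,1,2,2,1,1,1],1946,1013), ([2,1,7,1,1,3,3,1,5],1848,1282), ([1,1,1,7,1,1,3,3,1,4,1],2423,3167), ([5,7,2,1,3,10],3785,1474), ([1,4,7,2,1,3,9,1],486,785), ([3,1,1,6,13,7],711,402), ([1,18,1,2,1,2,9,2],2613,4962), ([19,1,2,1,2,9,1,1],1666,169),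 ([1,2,1,1,6,13,6,1],3568,5121), ([1,6,3,1,2,7,3,2],4133,7130), ([7,3,1,2,7,3,1,1],148,41)]
theorem r104 : rgV L104 4249 20 = true := by decide +kernel
theorem f104 : ∀ p ∈ L104, fam (wl p.1) p.2.1 p.2.2 = true := by
  intro p hp
  simp only [L104, List.mem_cons, List.not_mem_nil, or_false] at hp
  rcases hp with rfl | rfl | rfl | rfl | rfl | rfl | rfl | rfl | rfl | rfl | rfl | rfl | rfl | rfl | rfl | rfl | rfl | rfl | rfl | rfl | rfl | rfl | rfl | rfl | rfl | rfl | rfl | rfl | rfl | rfl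
  · exact x104_0
  · exact x104_1
  · exact x104_2
  · exact x104_3
  · exact x104_4
  · exact x104_5
  · exact x104_6
  · exact x104_7
  · exact x104_8
  · exact x104_9
  · exact x104_10
  · exact x104_11
  · exact x104_12
  · exact x104_13
  · exact x104_14
  · exact x104_15
  · exact x104_16
  · exact x104_17
  · exact x104_18
  · exact x104_19
  · exact x104_20
  · exact x104_21
  · exact x104_22
  · exact x104_23
  · exact x104_24
  · exact x104_25
  · exact x104_26
  · exact x104_27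
  · exact x104_28
  · exact x104_29

end Pool.Agent.V5helper47.EV
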