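import Pool.Agent.V5helper47.EV.S2

/-! Search, part of the half words. -/

set_option maxRecDepth 1000000

namespace Pool.Agent.V5helper47.EV

open H419R2 Pool.Agent.N911 Pool.Agent.V5helper47.CN

theorem x105_0 : fam (wl [3,2,1,5,1,2,2,1,6]) 2141 1278 = true := by decide +kernel
theorem x105_1 : fam (wl [1,2,2,1,5,1,2,2,1,5,1]) 2146 3013 = true := by decide +kernel
theorem x105_2 : fam (wl [2,2,1,4,1,2,2,2,1,4]) 859 730 = true := by decide +kernel
theorem x105_3 : fam (wl [1,1,2,1,4,1,2,2,2,1,3,1]) 3428 3945 = true := by decide +kernel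
theorem x105_4 : fam (wl [2,1,3,3,1,7,1,1,5]) 810 586 = true := by decide +kernel
theorem x105_5 : fam (wl [1,1,1,3,3,1,7,1,1,4,1]) 3485 4451 = true := by decide +kernel
theorem x105_6 : fam (wl [1,4,1,10,5,2,2,2]) 203 338 = true := by decide +kernel
theorem x105_7 : fam (wl [5,1,10,5,2,2,1,1]) 4092 1385 = true := by decide +kernel
theorem x105_8 : fam (wl [3,2,1,1,3,1,1,3,1,6]) 2485 1466 = true := by decide +kernel
theorem x105_9 : fam (wl [2,1,2,4,2,1,1,1,2,5]) 858 638 = true := by decide +kernel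
theorem x105_10 : fam (wl [1,1,1,2,4,2,1,1,1,2,4,1]) 3439 4323 = true := by decide +kernel
theorem x105_11 : fam (wl [1,2,2,1,1,3,1,1,3,1,5,1]) 1812 2557 = true := by decide +kernel
theorem x105_12 : fam (wl [1,1,5,1,4,2,2,2,1,3]) 691 746 = true := by decide +kernel
theorem x105_13 : fam (wl [1,10,2,2,1,4,5,2]) 119 218 = true := by decide +kernel
theorem x105_14 : fam (wl [11,2,2,1,4,5,1,1]) 4186 733 = true := by decide +kernel
theorem x105_15 : fam (wl [2,5,1,4,2,2,2,1,2,1]) 3614 3329 = true := by decide +kernel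
theorem x105_16 : fam (wl [2,10,2,4,5,4]) 618 590 = true := by decide +kernel
theorem x105_17 : fam (wl [1,8,5,10,4,2]) 1567 2794 = true := by decide +kernel
theorem x105_18 : fam (wl [9,5,10,4,1,1]) 2744 597 = true := by decide +kernel
theorem x105_19 : fam (wl [1,1,10,2,4,5,3,1]) 3693 3863 = true := by decide +kernel
theorem x105_20 : fam (wl [2,1,4,1,1,1,4,1,1,1,5]) 4316 3058 = true := by decide +kernel
theorem x105_21 : fam (wl [1,3,1,2,1,2,2,6,1,1,2]) 1941 3062 = true := by decide +kernel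
theorem x105_22 : fam (wl [4,1,2,1,2,2,6,1,1,1,1]) 2376 1005 = true := by decide +kernel
theorem x105_23 : fam (wl [1,1,1,4,1,1,1,4,1,1,1,4,1]) 1 3 = true := by decide +kernel
/-- words with first entry from 4289 to 4321 -/
def L105 : List (List ℕ × ℕ × ℕ) := [([3,2,1,5,1,2,2,1,6],2141,1278), ([1,2,2,1,5,1,2,2,1,5,1],2146,3013), ([2,2,1,4,1,2,2,2,1,4],859,730), ([1,1,2,1,4,1,2,2,2,1,3,1],3428,3945), ([2,1,3,3,1,7,1,1,5],810,586), ([1,1,1,3,3,1,7,1,1,4,1],3485,4451), ([1,4,1,10,5,2,2,2],203,338), ([5,1,10,5,2,2,1,1],4092,1385), ([3,2,1,1,3,1,1,3,1,6],2485,1466), ([2,1,2,4,2,1,1,1,2,5],858,638), ([1,1,1,2,4,2,1,1,1,2,4,1],3439,4323), ([1,2,2,1,1,3,1,1,3,1,5,1],1812,2557), ([1,1,5,1,4,2,2,2,1,3],691,746), ([1,10,2,2,1,4,5,2],119,218), ([11,2,2,1,4,5,1,1],4186,733), ([2,5,1,4,2,2,2,1,2,1],3614,3329), ([2,10,2,4,5,4],618,590), ([1,8,5,10,4,2],1567,2794), ([9,5,10,4,1,1],2744,597), ([1,1,10,2,4,5,3,1],3693,3863), ([2,1,4,1,1,1,4,1,1,1,5],4316,3058),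 ([1,3,1,2,1,2,2,6,1,1,2],1941,3062), ([4,1,2,1,2,2,6,1,1,1,1],2376,1005), ([1,1,1,4,1,1,1,4,1,1,1,4,1],1,3)]
theorem r105 : rgV L105 4289 17 = true := by decide +kernel
theorem f105 : ∀ p ∈ L105, fam (wl p.1) p.2.1 p.2.2 = true := by
  intro p hp
  simp only [L105, List.mem_cons, List.not_mem_nil, or_false] at hp
  rcases hp with rfl | rfl | rfl | rfl | rfl | rfl | rfl | rfl | rfl | rfl | rfl | rfl | rfl | rfl | rfl | rfl | rfl | rfl | rfl | rfl | rfl | rfl | rfl | rfl
  · exact x105_0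
  · exact x105_1
  · exact x105_2
  · exact x105_3
  · exact x105_4
  · exact x105_5
  · exact x105_6
  · exact x105_7
  · exact x105_8
  · exact x105_9
  · exact x105_10
  · exact x105_11
  · exact x105_12
  · exact x105_13
  · exact x105_14
  · exact x105_15
  · exact x105_16
  · exact x105_17
  · exact x105_18
  · exact x105_19
  · exact x105_20
  · exact x105_21
  · exact x105_22
  · exact x105_23

end Pool.Agent.V5helper47.EV
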