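import Pool.Agent.V5helper47.EV.S2

/-! Search, part of the half words. -/

set_option maxRecDepth 1000000

namespace Pool.Agent.V5helper47.EV

open H419R2 Pool.Agent.N911 Pool.Agent.V5helper47.CN

theorem x106_0 : fam (wl [2,3,9,4,1,1,1,4]) 1553 1338 = true := by decide +kernel
theorem x106_1 : fam (wl [1,1,1,1,2,1,1,2,3,1,3,3]) 1660 2034 = true := by decide +kernel
theorem x106_2 : fam (wl [1,2,1,1,2,1,1,3,2,3,1,2]) 3142 4530 = true := by decide +kernel
theorem x106_3 : fam (wl [1,9,3,1,2,1,1,1,4,2]) 3249 5866 = true := by decide +kernel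
theorem x106_4 : fam (wl [10,3,1,2,1,1,1,4,1,1]) 1072 209 = true := by decide +kernel
theorem x106_5 : fam (wl [3,1,1,2,1,1,3,2,3,1,1,1]) 1179 659 = true := by decide +kernel
theorem x106_6 : fam (wl [2,1,1,2,1,1,2,3,1,3,2,1]) 2661 2063 = true := by decide +kernel
theorem x106_7 : fam (wl [1,1,3,9,4,1,1,1,3,1]) 2768 3153 = true := by decide +kernel
theorem x106_8 : fam (wl [1,3,2,6,1,2,1,2,1,1,2]) 1725 2678 = true := by decide +kernel
theorem x106_9 : fam (wl [4,2,6,1,2,1,2,1,1,1,1]) 2600 1165 = true := by decide +kernel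
theorem x106_10 : fam (wl [2,4,4,1,9,2,4]) 1112 994 = true := by decide +kernel
theorem x106_11 : fam (wl [1,1,4,4,1,9,2,3,1]) 3223 3567 = true := by decide +kernel
theorem x106_12 : fam (wl [11,3,2,1,1,22]) 3264 578 = true := by decide +kernel
theorem x106_13 : fam (wl [1,10,3,2,1,1,21,1]) 1071 1955 = true := by decide +kernel
theorem x106_14 : fam (wl [1,4,1,1,1,2,5,3,2,2]) 711 1170 = true := by decide +kernel
theorem x106_15 : fam (wl [5,1,1,1,2,5,3,2,1,1]) 3626 1289 = true := by decide +kernel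
theorem x106_16 : fam (wl [8,8,4,16]) 138 34 = true := by decide +kernel
theorem x106_17 : fam (wl [1,1,5,4,8,2,1,3]) 3247 3530 = true := by decide +kernel
theorem x106_18 : fam (wl [2,5,4,8,2,1,2,1]) 1104 1009 = true := by decide +kernel
theorem x106_19 : fam (wl [1,7,8,4,15,1]) 4213 7391 = true := by decide +kernel
theorem x106_20 : fam (wl [7,3,2,2,1,1,14]) 824 226 = true := by decide +kernel
theorem x106_21 : fam (wl [1,1,1,2,7,1,3,5,3]) 1590 1994 = true := by decide +kernel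
theorem x106_22 : fam (wl [2,1,2,7,1,3,5,2,1]) 2769 2067 = true := by decide +kernel
theorem x106_23 : fam (wl [1,6,3,2,2,1,1,13,1]) 3535 6103 = true := by decide +kernel
theorem x106_24 : fam (wl [4,4,1,2,1,2,2,8]) 2632 1250 = true := by decide +kernel
theorem x106_25 : fam (wl [1,3,4,1,2,1,2,2,7,1]) 1729 2639 = true := by decide +kernel
/-- words with first entry from 4323 to 4367 -/
def L106 : List (List ℕ × ℕ × ℕ) := [([2,3,9,4,1,1,1,4],1553,1338), ([1,1,1,1,2,1,1,2,3,1,3,3],1660,2034), ([1,2,1,1,2,1,1,3,2,3,1,2],3142,4530), ([1,9,3,1,2,1,1,1,4,2],3249,5866), ([10,3,1,2,1,1,1,4,1,1],1072,209), ([3,1,1,2,1,1,3,2,3,1,1,1],1179,659), ([2,1,1,2,1,1,2,3,1,3,2,1],2661,2063), ([1,1,3,9,4,1,1,1,3,1],2768,3153), ([1,3,2,6,1,2,1,2,1,1,2],1725,2678), ([4,2,6,1,2,1,2,1,1,1,1],2600,1165), ([2,4,4,1,9,2,4],1112,994), ([1,1,4,4,1,9,2,3,1],3223,3567), ([11,3,2,1,1,22],3264,578), ([1,10,3,2,1,1,21,1],1071,1955), ([1,4,1,1,1,2,5,3,2,2],711,1170), ([5,1,1,1,2,5,3,2,1,1],3626,1289),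 ([8,8,4,16],138,34), ([1,1,5,4,8,2,1,3],3247,3530), ([2,5,4,8,2,1,2,1],1104,1009), ([1,7,8,4,15,1],4213,7391), ([7,3,2,2,1,1,14],824,226), ([1,1,1,2,7,1,3,5,3],1590,1994), ([2,1,2,7,1,3,5,2,1],2769,2067), ([1,6,3,2,2,1,1,13,1],3535,6103), ([4,4,1,2,1,2,2,8],2632,1250), ([1,3,4,1,2,1,2,2,7,1],1729,2639)]
theorem r106 : rgV L106 4323 23 = true := by decide +kernel
theorem f106 : ∀ p ∈ L106, fam (wl p.1) p.2.1 p.2.2 = true := by
  intro p hp
  simp only [L106, List.mem_cons, List.not_mem_nil, or_false] at hp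
  rcases hp with rfl | rfl | rfl | rfl | rfl | rfl | rfl | rfl | rfl | rfl | rfl | rfl | rfl | rfl | rfl | rfl | rfl | rfl | rfl | rfl | rfl | rfl | rfl | rfl | rfl | rfl
  · exact x106_0
  · exact x106_1
  · exact x106_2
  · exact x106_3
  · exact x106_4
  · exact x106_5
  · exact x106_6
  · exact x106_7
  · exact x106_8
  · exact x106_9
  · exact x106_10
  · exact x106_11
  · exact x106_12
  · exact x106_13
  · exact x106_14
  · exact x106_15
  · exact x106_16
  · exact x106_17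
  · exact x106_18
  · exact x106_19
  · exact x106_20
  · exact x106_21
  · exact x106_22
  · exact x106_23
  · exact x106_24
  · exact x106_25

end Pool.Agent.V5helper47.EV
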