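import Pool.Agent.V5helper47.EV.S2

/-! Search, part of the half words. -/

set_option maxRecDepth 1000000

namespace Pool.Agent.V5helper47.EV

open H419R2 Pool.Agent.N911 Pool.Agent.V5helper47.CN

theorem x107_0 : fam (wl [1,1,2,1,5,1,12,2,3]) 3897 4478 = true := by decide +kernel
theorem x107_1 : fam (wl [1,12,1,3,1,1,2,6,2]) 2914 5406 = true := by decide +kernel
theorem x107_2 : fam (wl [13,1,3,1,1,2,6,1,1]) 1453 211 = true := by decide +kernel
theorem x107_3 : fam (wl [2,2,1,5,1,12,2,2,1]) 470 401 = true := by decide +kernel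
theorem x107_4 : fam (wl [1,2,4,2,1,2,1,8,1,2]) 1357 1874 = true := by decide +kernel
theorem x107_5 : fam (wl [1,2,1,1,2,3,1,1,2,3,1,2]) 622 898 = true := by decide +kernel
theorem x107_6 : fam (wl [3,1,1,2,3,1,1,2,3,1,1,1]) 3745 2087 = true := by decide +kernel
theorem x107_7 : fam (wl [3,4,2,1,2,1,8,1,1,1]) 3010 1865 = true := by decide +kernel
theorem x107_8 : fam (wl [1,1,1,8,2,1,17,3]) 2422 3170 = true := by decide +kernel
theorem x107_9 : fam (wl [1,2,8,1,2,17,1,2]) 2440 3314 = true := by decide +kernel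
theorem x107_10 : fam (wl [3,8,1,2,17,1,1,1]) 1935 1243 = true := by decide +kernel
theorem x107_11 : fam (wl [2,1,8,2,1,17,2,1]) 1953 1351 = true := by decide +kernel
theorem x107_12 : fam (wl [4,1,2,2,2,2,2,9]) 2264 962 = true := by decide +kernel
theorem x107_13 : fam (wl [1,1,4,7,3,1,1,1,1,3]) 1713 1898 = true := by decide +kernel
theorem x107_14 : fam (wl [2,4,7,3,1,1,1,1,2,1]) 2672 2385 = true := by decide +kernel
theorem x107_15 : fam (wl [1,3,1,2,2,2,2,2,8,1]) 2121 3343 = true := by decide +kernel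
theorem x107_16 : fam (wl [1,2,1,1,8,1,3,1,3,1,2]) 1193 1710 = true := by decide +kernel
theorem x107_17 : fam (wl [3,1,1,8,1,3,1,3,1,1,1]) 3196 1813 = true := by decide +kernel
theorem x107_18 : fam (wl [17,1,2,2,35]) 3525 398 = true := by decide +kernel
theorem x107_19 : fam (wl [2,2,8,1,17,1,4]) 1897 1534 = true := by decide +kernel
theorem x107_20 : fam (wl [1,1,2,8,1,17,1,3,1]) 2494 2973 = true := by decide +kernel
theorem x107_21 : fam (wl [1,16,1,2,2,34,1]) 866 1637 = true := by decide +kernel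
theorem x107_22 : fam (wl [6,1,1,3,7,13]) 3882 1182 = true := by decide +kernel
theorem x107_23 : fam (wl [1,1,10,1,1,3,1,4,1,3]) 193 202 = true := by decide +kernel
theorem x107_24 : fam (wl [2,10,1,1,3,1,4,1,2,1]) 4206 4017 = true := by decide +kernel
theorem x107_25 : fam (wl [1,5,1,1,3,7,12,1]) 517 879 = true := by decide +kernel
theorem x107_26 : fam (wl [1,1,1,14,1,30,3]) 3267 4310 = true := by decide +kernel
theorem x107_27 : fam (wl [2,1,14,1,30,2,1]) 1140 777 = true := by decide +kernel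
theorem x107_28 : fam (wl [1,37,2,1,18,2]) 1015 1978 = true := by decide +kernel
theorem x107_29 : fam (wl [38,2,1,18,1,1]) 3392 177 = true := by decide +kernel
/-- words with first entry from 4369 to 4409 -/
def L107 : List (List ℕ × ℕ × ℕ) := [([1,1,2,1,5,1,12,2,3],3897,4478), ([1,12,1,3,1,1,2,6,2],2914,5406), ([13,1,3,1,1,2,6,1,1],1453,211), ([2,2,1,5,1,12,2,2,1],470,401), ([1,2,4,2,1,2,1,8,1,2],1357,1874), ([1,2,1,1,2,3,1,1,2,3,1,2],622,898), ([3,1,1,2,3,1,1,2,3,1,1,1],3745,2087), ([3,4,2,1,2,1,8,1,1,1],3010,1865), ([1,1,1,8,2,1,17,3],2422,3170), ([1,2,8,1,2,17,1,2],2440,3314), ([3,8,1,2,17,1,1,1],1935,1243), ([2,1,8,2,1,17,2,1],1953,1351), ([4,1,2,2,2,2,2,9],2264,962), ([1,1,4,7,3,1,1,1,1,3],1713,1898), ([2,4,7,3,1,1,1,1,2,1],2672,2385), ([1,3,1,2,2,2,2,2,8,1],2121,3343), ([1,2,1,1,8,1,3,1,3,1,2],1193,1710), ([3,1,1,8,1,3,1,3,1,1,1],3196,1813), ([17,1,2,2,35],3525,398), ([2,2,8,1,17,1,4],1897,1534), ([1,1,2,8,1,17,1,3,1],2494,2973), ([1,16,1,2,2,34,1],866,1637),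 ([6,1,1,3,7,13],3882,1182), ([1,1,10,1,1,3,1,4,1,3],193,202), ([2,10,1,1,3,1,4,1,2,1],4206,4017), ([1,5,1,1,3,7,12,1],517,879), ([1,1,1,14,1,30,3],3267,4310), ([2,1,14,1,30,2,1],1140,777), ([1,37,2,1,18,2],1015,1978), ([38,2,1,18,1,1],3392,177)]
theorem r107 : rgV L107 4369 21 = true := by decide +kernel
theorem f107 : ∀ p ∈ L107, fam (wl p.1) p.2.1 p.2.2 = true := by
  intro p hp
  simp only [L107, List.mem_cons, List.not_mem_nil, or_false] at hp
  rcases hp with rfl | rfl | rfl | rfl | rfl | rfl | rfl | rfl | rfl | rfl | rfl | rfl | rfl | rfl | rfl | rfl | rfl | rfl | rfl | rfl | rfl | rfl | rfl | rfl | rfl | rfl | rfl | rfl | rfl | rfl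
  · exact x107_0
  · exact x107_1
  · exact x107_2
  · exact x107_3
  · exact x107_4
  · exact x107_5
  · exact x107_6
  · exact x107_7
  · exact x107_8
  · exact x107_9
  · exact x107_10
  · exact x107_11
  · exact x107_12
  · exact x107_13
  · exact x107_14
  · exact x107_15
  · exact x107_16
  · exact x107_17
  · exact x107_18
  · exact x107_19
  · exact x107_20
  · exact x107_21
  · exact x107_22
  · exact x107_23
  · exact x107_24
  · exact x107_25
  · exact x107_26
  · exact x107_27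
  · exact x107_28
  · exact x107_29

end Pool.Agent.V5helper47.EV
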