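import Pool.Agent.V5helper47.EV.S2

/-! Search, part of the half words. -/

set_option maxRecDepth 1000000

namespace Pool.Agent.V5helper47.EV

open H419R2 Pool.Agent.N911 Pool.Agent.V5helper47.CN

theorem x108_0 : fam (wl [2,2,1,2,2,4,1,2,1,4]) 4181 3530 = true := by decide +kernel
theorem x108_1 : fam (wl [2,18,1,2,9,4]) 1505 1466 = true := by decide +kernel
theorem x108_2 : fam (wl [1,1,18,1,2,9,3,1]) 2904 2981 = true := by decide +kernel
theorem x108_3 : fam (wl [1,1,2,1,2,2,4,1,2,1,3,1]) 228 265 = true := by decide +kernel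
theorem x108_4 : fam (wl [46,1,93]) 4370 186 = true := by decide +kernel
theorem x108_5 : fam (wl [1,5,10,1,4,1,1,2,2]) 587 982 = true := by decide +kernel
theorem x108_6 : fam (wl [6,10,1,4,1,1,2,1,1]) 3828 1257 = true := by decide +kernel
theorem x108_7 : fam (wl [1,45,1,92,1]) 45 91 = true := by decide +kernel
theorem x108_8 : fam (wl [47,94]) 47 2 = true := by decide +kernel
theorem x108_9 : fam (wl [4,9,2,1,4,8]) 4193 2042 = true := by decide +kernel
theorem x108_10 : fam (wl [1,3,9,2,1,4,7,1]) 224 341 = true := by decide +kernel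
theorem x108_11 : fam (wl [1,46,93,1]) 4370 8557 = true := by decide +kernel
theorem x108_12 : fam (wl [4,3,4,1,1,1,1,1,8]) 875 406 = true := by decide +kernel
theorem x108_13 : fam (wl [1,3,3,4,1,1,1,1,1,7,1]) 3546 5449 = true := by decide +kernel
theorem x108_14 : fam (wl [1,1,1,15,31,3]) 2621 3458 = true := by decide +kernel
theorem x108_15 : fam (wl [1,4,2,1,1,1,3,5,2,2]) 615 1002 = true := by decide +kernel
theorem x108_16 : fam (wl [5,2,1,1,1,3,5,2,1,1]) 3810 1417 = true := by decide +kernel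
theorem x108_17 : fam (wl [2,1,15,31,2,1]) 1804 1229 = true := by decide +kernel
theorem x108_18 : fam (wl [1,1,2,12,1,5,1,2,3]) 3968 4738 = true := by decide +kernel
theorem x108_19 : fam (wl [1,3,2,1,2,1,6,2,1,1,2]) 2642 4074 = true := by decide +kernel
theorem x108_20 : fam (wl [4,2,1,2,1,6,2,1,1,1,1]) 1795 823 = true := by decide +kernel
theorem x108_21 : fam (wl [2,2,12,1,5,1,2,2,1]) 469 379 = true := by decide +kernel
theorem x108_22 : fam (wl [1,1,1,2,1,1,1,1,4,6,3]) 3317 4198 = true := by decide +kernel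
theorem x108_23 : fam (wl [2,1,2,1,1,1,1,4,6,2,1]) 1122 825 = true := by decide +kernel
theorem x108_24 : fam (wl [7,5,2,1,2,14]) 4405 1226 = true := by decide +kernel
theorem x108_25 : fam (wl [1,6,5,2,1,2,13,1]) 34 61 = true := by decide +kernel
theorem x108_26 : fam (wl [3,1,4,3,1,1,1,1,1,7]) 339 178 = true := by decide +kernel
theorem x108_27 : fam (wl [2,2,9,18,1,4]) 1635 1322 = true := by decide +kernel
theorem x108_28 : fam (wl [1,1,2,9,18,1,3,1]) 2806 3345 = true := by decide +kernel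
theorem x108_29 : fam (wl [1,2,1,4,3,1,1,1,1,1,6,1]) 4102 6053 = true := by decide +kernel
/-- words with first entry from 4411 to 4445 -/
def L108 : List (List ℕ × ℕ × ℕ) := [([2,2,1,2,2,4,1,2,1,4],4181,3530), ([2,18,1,2,9,4],1505,1466), ([1,1,18,1,2,9,3,1],2904,2981), ([1,1,2,1,2,2,4,1,2,1,3,1],228,265), ([46,1,93],4370,186), ([1,5,10,1,4,1,1,2,2],587,982), ([6,10,1,4,1,1,2,1,1],3828,1257), ([1,45,1,92,1],45,91), ([47,94],47,2), ([4,9,2,1,4,8],4193,2042), ([1,3,9,2,1,4,7,1],224,341), ([1,46,93,1],4370,8557), ([4,3,4,1,1,1,1,1,8],875,406), ([1,3,3,4,1,1,1,1,1,7,1],3546,5449), ([1,1,1,15,31,3],2621,3458), ([1,4,2,1,1,1,3,5,2,2],615,1002), ([5,2,1,1,1,3,5,2,1,1],3810,1417), ([2,1,15,31,2,1],1804,1229), ([1,1,2,12,1,5,1,2,3],3968,4738), ([1,3,2,1,2,1,6,2,1,1,2],2642,4074), ([4,2,1,2,1,6,2,1,1,1,1],1795,823), ([2,2,12,1,5,1,2,2,1],469,379), ([1,1,1,2,1,1,1,1,4,6,3],3317,4198), ([2,1,2,1,1,1,1,4,6,2,1],1122,825), ([7,5,2,1,2,14],4405,1226), ([1,6,5,2,1,2,13,1],34,61),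 ([3,1,4,3,1,1,1,1,1,7],339,178), ([2,2,9,18,1,4],1635,1322), ([1,1,2,9,18,1,3,1],2806,3345), ([1,2,1,4,3,1,1,1,1,1,6,1],4102,6053)]
theorem r108 : rgV L108 4411 18 = true := by decide +kernel
theorem f108 : ∀ p ∈ L108, fam (wl p.1) p.2.1 p.2.2 = true := by
  intro p hp
  simp only [L108, List.mem_cons, List.not_mem_nil, or_false] at hp
  rcases hp with rfl | rfl | rfl | rfl | rfl | rfl | rfl | rfl | rfl | rfl | rfl | rfl | rfl | rfl | rfl | rfl | rfl | rfl | rfl | rfl | rfl | rfl | rfl | rfl | rfl | rfl | rfl | rfl | rfl | rfl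
  · exact x108_0
  · exact x108_1
  · exact x108_2
  · exact x108_3
  · exact x108_4
  · exact x108_5
  · exact x108_6
  · exact x108_7
  · exact x108_8
  · exact x108_9
  · exact x108_10
  · exact x108_11
  · exact x108_12
  · exact x108_13
  · exact x108_14
  · exact x108_15
  · exact x108_16
  · exact x108_17
  · exact x108_18
  · exact x108_19
  · exact x108_20
  · exact x108_21
  · exact x108_22
  · exact x108_23
  · exact x108_24
  · exact x108_25
  · exact x108_26
  · exact x108_27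
  · exact x108_28
  · exact x108_29

end Pool.Agent.V5helper47.EV
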