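import Pool.Agent.V5helper47.EV.S2

/-! Search, part of the half words. -/

set_option maxRecDepth 1000000

namespace Pool.Agent.V5helper47.EV

open H419R2 Pool.Agent.N911 Pool.Agent.V5helper47.CN

theorem x109_0 : fam (wl [1,9,2,2,2,2,1,4,2]) 3264 5902 = true := by decide +kernel
theorem x109_1 : fam (wl [10,2,2,2,2,1,4,1,1]) 1181 227 = true := by decide +kernel
theorem x109_2 : fam (wl [7,2,1,2,1,2,1,14]) 3484 946 = true := by decide +kernel
theorem x109_3 : fam (wl [1,1,7,1,1,2,3,3,1,3]) 1953 2074 = true := by decide +kernel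
theorem x109_4 : fam (wl [2,7,1,1,2,3,3,1,2,1]) 2494 2341 = true := by decide +kernel
theorem x109_5 : fam (wl [1,6,2,1,2,1,2,1,13,1]) 963 1667 = true := by decide +kernel
theorem x109_6 : fam (wl [8,4,1,2,2,16]) 41 10 = true := by decide +kernel
theorem x109_7 : fam (wl [1,7,4,1,2,2,15,1]) 4408 7745 = true := by decide +kernel
theorem x109_8 : fam (wl [1,2,1,15,1,7,2,1,2]) 4265 6366 = true := by decide +kernel
theorem x109_9 : fam (wl [3,1,15,1,7,2,1,1,1]) 190 97 = true := by decide +kernel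
theorem x109_10 : fam (wl [1,14,3,6,7,2]) 4188 7830 = true := by decide +kernel
theorem x109_11 : fam (wl [15,3,6,7,1,1]) 267 35 = true := by decide +kernel
theorem x109_12 : fam (wl [1,1,1,5,3,1,1,11,3]) 1850 2398 = true := by decide +kernel
theorem x109_13 : fam (wl [2,1,5,3,1,1,11,2,1]) 2611 1839 = true := by decide +kernel
theorem x109_14 : fam (wl [10,1,5,2,1,21]) 3914 722 = true := by decide +kernel
theorem x109_15 : fam (wl [1,1,2,1,6,13,2,3]) 3034 3486 = true := by decide +kernel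
theorem x109_16 : fam (wl [2,2,1,6,13,2,2,1]) 1431 1219 = true := by decide +kernel
theorem x109_17 : fam (wl [1,9,1,5,2,1,20,1]) 551 1003 = true := by decide +kernel
theorem x109_18 : fam (wl [3,1,5,1,1,3,2,1,7]) 1689 878 = true := by decide +kernel
theorem x109_19 : fam (wl [3,21,1,10,6]) 1946 1278 = true := by decide +kernel
theorem x109_20 : fam (wl [1,2,21,1,10,5,1]) 2523 3391 = true := by decide +kernel
theorem x109_21 : fam (wl [1,2,1,5,1,1,3,2,1,6,1]) 2780 4117 = true := by decide +kernel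
theorem x109_22 : fam (wl [1,1,32,1,15,1,3]) 2658 2698 = true := by decide +kernel
theorem x109_23 : fam (wl [2,32,1,15,1,2,1]) 1821 1795 = true := by decide +kernel
theorem x109_24 : fam (wl [15,1,3,1,1,31]) 1278 162 = true := by decide +kernel
theorem x109_25 : fam (wl [1,14,1,3,1,1,30,1]) 3201 5999 = true := by decide +kernel
theorem x109_26 : fam (wl [27,2,1,54]) 246 18 = true := by decide +kernel
theorem x109_27 : fam (wl [1,26,2,1,53,1]) 4235 8163 = true := by decide +kernel
/-- words with first entry from 4447 to 4485 -/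
def L109 : List (List ℕ × ℕ × ℕ) := [([1,9,2,2,2,2,1,4,2],3264,5902), ([10,2,2,2,2,1,4,1,1],1181,227), ([7,2,1,2,1,2,1,14],3484,946), ([1,1,7,1,1,2,3,3,1,3],1953,2074), ([2,7,1,1,2,3,3,1,2,1],2494,2341), ([1,6,2,1,2,1,2,1,13,1],963,1667), ([8,4,1,2,2,16],41,10), ([1,7,4,1,2,2,15,1],4408,7745), ([1,2,1,15,1,7,2,1,2],4265,6366), ([3,1,15,1,7,2,1,1,1],190,97), ([1,14,3,6,7,2],4188,7830), ([15,3,6,7,1,1],267,35), ([1,1,1,5,3,1,1,11,3],1850,2398), ([2,1,5,3,1,1,11,2,1],2611,1839), ([10,1,5,2,1,21],3914,722), ([1,1,2,1,6,13,2,3],3034,3486), ([2,2,1,6,13,2,2,1],1431,1219), ([1,9,1,5,2,1,20,1],551,1003), ([3,1,5,1,1,3,2,1,7],1689,878), ([3,21,1,10,6],1946,1278), ([1,2,21,1,10,5,1],2523,3391), ([1,2,1,5,1,1,3,2,1,6,1],2780,4117), ([1,1,32,1,15,1,3],2658,2698), ([2,32,1,15,1,2,1],1821,1795), ([15,1,3,1,1,31],1278,162), ([1,14,1,3,1,1,30,1],3201,5999), ([27,2,1,54],246,18), ([1,26,2,1,53,1],4235,8163)]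
theorem r109 : rgV L109 4447 20 = true := by decide +kernel
theorem f109 : ∀ p ∈ L109, fam (wl p.1) p.2.1 p.2.2 = true := by
  intro p hp
  simp only [L109, List.mem_cons, List.not_mem_nil, or_false] at hp
  rcases hp with rfl | rfl | rfl | rfl | rfl | rfl | rfl | rfl | rfl | rfl | rfl | rfl | rfl | rfl | rfl | rfl | rfl | rfl | rfl | rfl | rfl | rfl | rfl | rfl | rfl | rfl | rfl | rfl
  · exact x109_0
  · exact x109_1
  · exact x109_2
  · exact x109_3
  · exact x109_4
  · exact x109_5
  · exact x109_6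
  · exact x109_7
  · exact x109_8
  · exact x109_9
  · exact x109_10
  · exact x109_11
  · exact x109_12
  · exact x109_13
  · exact x109_14
  · exact x109_15
  · exact x109_16
  · exact x109_17
  · exact x109_18
  · exact x109_19
  · exact x109_20
  · exact x109_21
  · exact x109_22
  · exact x109_23
  · exact x109_24
  · exact x109_25
  · exact x109_26
  · exact x109_27

end Pool.Agent.V5helper47.EV
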