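import Pool.Agent.V5helper47.EV.S2

/-! Search, part of the half words. -/

set_option maxRecDepth 1000000

namespace Pool.Agent.V5helper47.EV

open H419R2 Pool.Agent.N911 Pool.Agent.V5helper47.CN

theorem x110_0 : fam (wl [1,2,1,2,3,1,7,1,2,1,2]) 97 142 = true := by decide +kernel
theorem x110_1 : fam (wl [1,65,1,32,2]) 3381 6662 = true := by decide +kernel
theorem x110_2 : fam (wl [66,1,32,1,1]) 1104 33 = true := by decide +kernel
theorem x110_3 : fam (wl [3,1,2,3,1,7,1,2,1,1,1]) 4388 2377 = true := by decide +kernel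
theorem x110_4 : fam (wl [2,4,1,2,1,2,1,2,2,4]) 3518 3182 = true := by decide +kernel
theorem x110_5 : fam (wl [1,1,4,1,2,1,2,1,2,2,3,1]) 969 1063 = true := by decide +kernel
theorem x110_6 : fam (wl [1,3,1,4,1,2,10,1,1,2]) 1111 1762 = true := by decide +kernel
theorem x110_7 : fam (wl [1,66,33,2]) 1105 2178 = true := by decide +kernel
theorem x110_8 : fam (wl [67,33,1,1]) 3384 101 = true := by decide +kernel
theorem x110_9 : fam (wl [4,1,4,1,2,10,1,1,1,1]) 3378 1401 = true := by decide +kernel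
theorem x110_10 : fam (wl [6,3,1,1,3,1,1,12]) 2418 770 = true := by decide +kernel
theorem x110_11 : fam (wl [1,1,33,16,1,3]) 4077 4138 = true := by decide +kernel
theorem x110_12 : fam (wl [2,33,16,1,2,1]) 418 413 = true := by decide +kernel
theorem x110_13 : fam (wl [1,5,3,1,1,3,1,1,11,1]) 2077 3495 = true := by decide +kernel
theorem x110_14 : fam (wl [3,1,1,3,2,1,7,7]) 3711 2082 = true := by decide +kernel
theorem x110_15 : fam (wl [2,4,5,10,2,4]) 1345 1202 = true := by decide +kernel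
theorem x110_16 : fam (wl [1,1,4,5,10,2,3,1]) 3152 3489 = true := by decide +kernel
theorem x110_17 : fam (wl [1,2,1,1,3,2,1,7,6,1]) 786 1133 = true := by decide +kernel
theorem x110_18 : fam (wl [3,22,11,6]) 4047 2658 = true := by decide +kernel
theorem x110_19 : fam (wl [1,2,22,11,5,1]) 458 617 = true := by decide +kernel
theorem x110_20 : fam (wl [2,7,1,1,1,4,1,3,4]) 1698 1594 = true := by decide +kernel
theorem x110_21 : fam (wl [1,1,7,1,1,1,4,1,3,3,1]) 2813 2987 = true := by decide +kernel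
theorem x110_22 : fam (wl [1,1,2,2,5,2,1,2,2,3]) 1524 1782 = true := by decide +kernel
theorem x110_23 : fam (wl [2,2,2,5,2,1,2,2,2,1]) 2987 2483 = true := by decide +kernel
theorem x110_24 : fam (wl [1,1,1,3,5,1,2,7,3]) 4307 5494 = true := by decide +kernel
theorem x110_25 : fam (wl [2,1,3,5,1,2,7,2,1]) 210 153 = true := by decide +kernel
/-- words with first entry from 4487 to 4519 -/
def L110 : List (List ℕ × ℕ × ℕ) := [([1,2,1,2,3,1,7,1,2,1,2],97,142), ([1,65,1,32,2],3381,6662), ([66,1,32,1,1],1104,33), ([3,1,2,3,1,7,1,2,1,1,1],4388,2377), ([2,4,1,2,1,2,1,2,2,4],3518,3182), ([1,1,4,1,2,1,2,1,2,2,3,1],969,1063), ([1,3,1,4,1,2,10,1,1,2],1111,1762), ([1,66,33,2],1105,2178), ([67,33,1,1],3384,101), ([4,1,4,1,2,10,1,1,1,1],3378,1401), ([6,3,1,1,3,1,1,12],2418,770), ([1,1,33,16,1,3],4077,4138), ([2,33,16,1,2,1],418,413), ([1,5,3,1,1,3,1,1,11,1],2077,3495), ([3,1,1,3,2,1,7,7],3711,2082), ([2,4,5,10,2,4],1345,1202), ([1,1,4,5,10,2,3,1],3152,3489), ([1,2,1,1,3,2,1,7,6,1],786,1133),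 ([3,22,11,6],4047,2658), ([1,2,22,11,5,1],458,617), ([2,7,1,1,1,4,1,3,4],1698,1594), ([1,1,7,1,1,1,4,1,3,3,1],2813,2987), ([1,1,2,2,5,2,1,2,2,3],1524,1782), ([2,2,2,5,2,1,2,2,2,1],2987,2483), ([1,1,1,3,5,1,2,7,3],4307,5494), ([2,1,3,5,1,2,7,2,1],210,153)]
theorem r110 : rgV L110 4487 17 = true := by decide +kernel
theorem f110 : ∀ p ∈ L110, fam (wl p.1) p.2.1 p.2.2 = true := by
  intro p hp
  simp only [L110, List.mem_cons, List.not_mem_nil, or_false] at hp
  rcases hp with rfl | rfl | rfl | rfl | rfl | rfl | rfl | rfl | rfl | rfl | rfl | rfl | rfl | rfl | rfl | rfl | rfl | rfl | rfl | rfl | rfl | rfl | rfl | rfl | rfl | rfl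
  · exact x110_0
  · exact x110_1
  · exact x110_2
  · exact x110_3
  · exact x110_4
  · exact x110_5
  · exact x110_6
  · exact x110_7
  · exact x110_8
  · exact x110_9
  · exact x110_10
  · exact x110_11
  · exact x110_12
  · exact x110_13
  · exact x110_14
  · exact x110_15
  · exact x110_16
  · exact x110_17
  · exact x110_18
  · exact x110_19
  · exact x110_20
  · exact x110_21
  · exact x110_22
  · exact x110_23
  · exact x110_24
  · exact x110_25

end Pool.Agent.V5helper47.EV
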