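import Pool.Agent.V5helper47.EV.S2

/-! Search, part of the half words. -/

set_option maxRecDepth 1000000

namespace Pool.Agent.V5helper47.EV

open H419R2 Pool.Agent.N911 Pool.Agent.V5helper47.CN

theorem x112_0 : fam (wl [1,8,1,5,1,2,2,4,2]) 4299 7726 = true := by decide +kernel
theorem x112_1 : fam (wl [9,1,5,1,2,2,4,1,1]) 260 53 = true := by decide +kernel
theorem x112_2 : fam (wl [1,5,11,5,1,1,2,2]) 3193 5338 = true := by decide +kernel
theorem x112_3 : fam (wl [6,11,5,1,1,2,1,1]) 1366 449 = true := by decide +kernel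
theorem x112_4 : fam (wl [1,4,1,3,2,2,1,1,2,2,2]) 3114 5150 = true := by decide +kernel
theorem x112_5 : fam (wl [5,1,3,2,2,1,1,2,2,1,1]) 1451 503 = true := by decide +kernel
theorem x112_6 : fam (wl [3,12,1,2,6,6]) 631 410 = true := by decide +kernel
theorem x112_7 : fam (wl [2,1,12,2,1,5,1,5]) 2922 1998 = true := by decide +kernel
theorem x112_8 : fam (wl [1,1,1,12,2,1,5,1,4,1]) 1645 2167 = true := by decide +kernel
theorem x112_9 : fam (wl [1,2,12,1,2,6,5,1]) 3936 5317 = true := by decide +kernel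
theorem x112_10 : fam (wl [3,1,3,2,1,5,1,1,7]) 2967 1574 = true := by decide +kernel
theorem x112_11 : fam (wl [1,24,1,1,3,12,2]) 3745 7198 = true := by decide +kernel
theorem x112_12 : fam (wl [25,1,1,3,12,1,1]) 830 65 = true := by decide +kernel
theorem x112_13 : fam (wl [1,2,1,3,2,1,5,1,1,6,1]) 1608 2365 = true := by decide +kernel
theorem x112_14 : fam (wl [1,15,2,2,2,1,7,2]) 4537 8522 = true := by decide +kernel
theorem x112_15 : fam (wl [1,21,1,1,3,1,10,2]) 687 1314 = true := by decide +kernel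
theorem x112_16 : fam (wl [22,1,1,3,1,10,1,1]) 3890 345 = true := by decide +kernel
theorem x112_17 : fam (wl [16,2,2,2,1,7,1,1]) 40 5 = true := by decide +kernel
theorem x112_18 : fam (wl [2,1,1,8,1,18,5]) 4363 3454 = true := by decide +kernel
theorem x112_19 : fam (wl [1,1,1,1,8,1,18,4,1]) 218 265 = true := by decide +kernel
theorem x112_20 : fam (wl [5,1,5,1,2,2,1,11]) 3329 1138 = true := by decide +kernel
theorem x112_21 : fam (wl [1,1,1,1,1,1,3,7,4,3]) 1392 1718 = true := by decide +kernel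
theorem x112_22 : fam (wl [1,2,1,1,9,4,1,3,1,2]) 2684 3846 = true := by decide +kernel
theorem x112_23 : fam (wl [1,5,6,2,1,2,1,1,2,2]) 3838 6430 = true := by decide +kernel
theorem x112_24 : fam (wl [6,6,2,1,2,1,1,2,1,1]) 747 243 = true := by decide +kernel
theorem x112_25 : fam (wl [3,1,1,9,4,1,3,1,1,1]) 1901 1079 = true := by decide +kernel
theorem x112_26 : fam (wl [2,1,1,1,1,3,7,4,2,1]) 3193 2447 = true := by decide +kernel
theorem x112_27 : fam (wl [1,4,1,5,1,2,2,1,10,1]) 1256 2085 = true := by decide +kernel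
theorem x112_28 : fam (wl [1,2,1,2,1,3,1,1,2,1,2,1,2]) 1230 1802 = true := by decide +kernel
theorem x112_29 : fam (wl [3,1,2,1,3,1,1,2,1,2,1,1,1]) 3359 1799 = true := by decide +kernel
/-- words with first entry from 4561 to 4591 -/
def L112 : List (List ℕ × ℕ × ℕ) := [([1,8,1,5,1,2,2,4,2],4299,7726), ([9,1,5,1,2,2,4,1,1],260,53), ([1,5,11,5,1,1,2,2],3193,5338), ([6,11,5,1,1,2,1,1],1366,449), ([1,4,1,3,2,2,1,1,2,2,2],3114,5150), ([5,1,3,2,2,1,1,2,2,1,1],1451,503), ([3,12,1,2,6,6],631,410), ([2,1,12,2,1,5,1,5],2922,1998), ([1,1,1,12,2,1,5,1,4,1],1645,2167), ([1,2,12,1,2,6,5,1],3936,5317), ([3,1,3,2,1,5,1,1,7],2967,1574), ([1,24,1,1,3,12,2],3745,7198), ([25,1,1,3,12,1,1],830,65), ([1,2,1,3,2,1,5,1,1,6,1],1608,2365), ([1,15,2,2,2,1,7,2],4537,8522), ([1,21,1,1,3,1,10,2],687,1314), ([22,1,1,3,1,10,1,1],3890,345), ([16,2,2,2,1,7,1,1],40,5), ([2,1,1,8,1,18,5],4363,3454), ([1,1,1,1,8,1,18,4,1],218,265), ([5,1,5,1,2,2,1,11],3329,1138), ([1,1,1,1,1,1,3,7,4,3],1392,1718),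 ([1,2,1,1,9,4,1,3,1,2],2684,3846), ([1,5,6,2,1,2,1,1,2,2],3838,6430), ([6,6,2,1,2,1,1,2,1,1],747,243), ([3,1,1,9,4,1,3,1,1,1],1901,1079), ([2,1,1,1,1,3,7,4,2,1],3193,2447), ([1,4,1,5,1,2,2,1,10,1],1256,2085), ([1,2,1,2,1,3,1,1,2,1,2,1,2],1230,1802), ([3,1,2,1,3,1,1,2,1,2,1,1,1],3359,1799)]
theorem r112 : rgV L112 4561 16 = true := by decide +kernel
theorem f112 : ∀ p ∈ L112, fam (wl p.1) p.2.1 p.2.2 = true := by
  intro p hp
  simp only [L112, List.mem_cons, List.not_mem_nil, or_false] at hp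
  rcases hp with rfl | rfl | rfl | rfl | rfl | rfl | rfl | rfl | rfl | rfl | rfl | rfl | rfl | rfl | rfl | rfl | rfl | rfl | rfl | rfl | rfl | rfl | rfl | rfl | rfl | rfl | rfl | rfl | rfl | rfl
  · exact x112_0
  · exact x112_1
  · exact x112_2
  · exact x112_3
  · exact x112_4
  · exact x112_5
  · exact x112_6
  · exact x112_7
  · exact x112_8
  · exact x112_9
  · exact x112_10
  · exact x112_11
  · exact x112_12
  · exact x112_13
  · exact x112_14
  · exact x112_15
  · exact x112_16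
  · exact x112_17
  · exact x112_18
  · exact x112_19
  · exact x112_20
  · exact x112_21
  · exact x112_22
  · exact x112_23
  · exact x112_24
  · exact x112_25
  · exact x112_26
  · exact x112_27
  · exact x112_28
  · exact x112_29

end Pool.Agent.V5helper47.EV
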