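import Pool.Agent.V5helper47.EV.S2

/-! Search, part of the half words. -/

set_option maxRecDepth 1000000

namespace Pool.Agent.V5helper47.EV

open H419R2 Pool.Agent.N911 Pool.Agent.V5helper47.CN

theorem x113_0 : fam (wl [27,1,2,55]) 249 18 = true := by decide +kernel
theorem x113_1 : fam (wl [1,1,1,2,2,2,4,1,5,3]) 3833 4834 = true := by decide +kernel
theorem x113_2 : fam (wl [2,1,2,2,2,4,1,5,2,1]) 758 561 = true := by decide +kernel
theorem x113_3 : fam (wl [1,26,1,2,54,1]) 4342 8373 = true := by decide +kernel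
theorem x113_4 : fam (wl [3,2,1,1,1,1,3,3,1,6]) 3251 1922 = true := by decide +kernel
theorem x113_5 : fam (wl [1,4,5,2,1,10,2,2]) 38 62 = true := by decide +kernel
theorem x113_6 : fam (wl [5,5,2,1,10,2,1,1]) 4561 1759 = true := by decide +kernel
theorem x113_7 : fam (wl [1,2,2,1,1,1,1,3,3,1,5,1]) 1348 1901 = true := by decide +kernel
theorem x113_8 : fam (wl [1,1,9,1,2,1,2,4,1,3]) 4536 4758 = true := by decide +kernel
theorem x113_9 : fam (wl [2,9,1,2,1,2,4,1,2,1]) 65 63 = true := by decide +kernel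
theorem x113_10 : fam (wl [47,1,95]) 4559 190 = true := by decide +kernel
theorem x113_11 : fam (wl [1,2,5,1,2,2,11,1,2]) 3379 4630 = true := by decide +kernel
theorem x113_12 : fam (wl [3,5,1,2,2,11,1,1,1]) 1226 773 = true := by decide +kernel
theorem x113_13 : fam (wl [1,46,1,94,1]) 46 93 = true := by decide +kernel
theorem x113_14 : fam (wl [48,96]) 48 2 = true := by decide +kernel
theorem x113_15 : fam (wl [1,1,3,3,1,2,7,1,1,3]) 1114 1262 = true := by decide +kernel
theorem x113_16 : fam (wl [2,3,3,1,2,7,1,1,2,1]) 3493 3031 = true := by decide +kernel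
theorem x113_17 : fam (wl [1,47,95,1]) 4559 8931 = true := by decide +kernel
theorem x113_18 : fam (wl [4,1,1,1,4,2,3,9]) 2392 1030 = true := by decide +kernel
theorem x113_19 : fam (wl [1,1,1,2,8,4,5,3]) 1201 1506 = true := by decide +kernel
theorem x113_20 : fam (wl [2,1,2,8,4,5,2,1]) 3414 2549 = true := by decide +kernel
theorem x113_21 : fam (wl [1,3,1,1,1,4,2,3,8,1]) 2223 3491 = true := by decide +kernel
theorem x113_22 : fam (wl [3,3,1,2,1,6,1,1,6]) 3669 2246 = true := by decide +kernel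
theorem x113_23 : fam (wl [2,1,1,1,7,1,3,3,5]) 29 22 = true := by decide +kernel
theorem x113_24 : fam (wl [1,1,1,1,1,7,1,3,3,4,1]) 4602 5737 = true := by decide +kernel
theorem x113_25 : fam (wl [1,2,3,1,2,1,6,1,1,5,1]) 962 1337 = true := by decide +kernel
theorem x113_26 : fam (wl [2,1,1,9,19,5]) 3928 3110 = true := by decide +kernel
theorem x113_27 : fam (wl [1,1,5,2,2,1,4,2,1,3]) 2864 3106 = true := by decide +kernel
theorem x113_28 : fam (wl [2,5,2,2,1,4,2,1,2,1]) 1767 1619 = true := by decide +kernel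
theorem x113_29 : fam (wl [1,1,1,1,9,19,4,1]) 703 851 = true := by decide +kernel
/-- words with first entry from 4593 to 4637 -/
def L113 : List (List ℕ × ℕ × ℕ) := [([27,1,2,55],249,18), ([1,1,1,2,2,2,4,1,5,3],3833,4834), ([2,1,2,2,2,4,1,5,2,1],758,561), ([1,26,1,2,54,1],4342,8373), ([3,2,1,1,1,1,3,3,1,6],3251,1922), ([1,4,5,2,1,10,2,2],38,62), ([5,5,2,1,10,2,1,1],4561,1759), ([1,2,2,1,1,1,1,3,3,1,5,1],1348,1901), ([1,1,9,1,2,1,2,4,1,3],4536,4758), ([2,9,1,2,1,2,4,1,2,1],65,63), ([47,1,95],4559,190), ([1,2,5,1,2,2,11,1,2],3379,4630), ([3,5,1,2,2,11,1,1,1],1226,773), ([1,46,1,94,1],46,93), ([48,96],48,2), ([1,1,3,3,1,2,7,1,1,3],1114,1262), ([2,3,3,1,2,7,1,1,2,1],3493,3031), ([1,47,95,1],4559,8931), ([4,1,1,1,4,2,3,9],2392,1030), ([1,1,1,2,8,4,5,3],1201,1506), ([2,1,2,8,4,5,2,1],3414,2549), ([1,3,1,1,1,4,2,3,8,1],2223,3491), ([3,3,1,2,1,6,1,1,6],3669,2246), ([2,1,1,1,7,1,3,3,5],29,22), ([1,1,1,1,1,7,1,3,3,4,1],4602,5737), ([1,2,3,1,2,1,6,1,1,5,1],962,1337),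 ([2,1,1,9,19,5],3928,3110), ([1,1,5,2,2,1,4,2,1,3],2864,3106), ([2,5,2,2,1,4,2,1,2,1],1767,1619), ([1,1,1,1,9,19,4,1],703,851)]
theorem r113 : rgV L113 4593 23 = true := by decide +kernel
theorem f113 : ∀ p ∈ L113, fam (wl p.1) p.2.1 p.2.2 = true := by
  intro p hp
  simp only [L113, List.mem_cons, List.not_mem_nil, or_false] at hp
  rcases hp with rfl | rfl | rfl | rfl | rfl | rfl | rfl | rfl | rfl | rfl | rfl | rfl | rfl | rfl | rfl | rfl | rfl | rfl | rfl | rfl | rfl | rfl | rfl | rfl | rfl | rfl | rfl | rfl | rfl | rfl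
  · exact x113_0
  · exact x113_1
  · exact x113_2
  · exact x113_3
  · exact x113_4
  · exact x113_5
  · exact x113_6
  · exact x113_7
  · exact x113_8
  · exact x113_9
  · exact x113_10
  · exact x113_11
  · exact x113_12
  · exact x113_13
  · exact x113_14
  · exact x113_15
  · exact x113_16
  · exact x113_17
  · exact x113_18
  · exact x113_19
  · exact x113_20
  · exact x113_21
  · exact x113_22
  · exact x113_23
  · exact x113_24
  · exact x113_25
  · exact x113_26
  · exact x113_27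
  · exact x113_28
  · exact x113_29

end Pool.Agent.V5helper47.EV
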