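import Pool.Agent.V5helper47.EV.S2

/-! Search, part of the half words. -/

set_option maxRecDepth 1000000

namespace Pool.Agent.V5helper47.EV

open H419R2 Pool.Agent.N911 Pool.Agent.V5helper47.CN

theorem x114_0 : fam (wl [2,2,1,1,1,1,1,4,3,1,4]) 588 494 = true := by decide +kernel
theorem x114_1 : fam (wl [1,1,2,1,1,1,1,1,4,3,1,3,1]) 4049 4699 = true := by decide +kernel
theorem x114_2 : fam (wl [1,1,7,3,6,3,1,3]) 3513 3738 = true := by decide +kernel
theorem x114_3 : fam (wl [2,7,3,6,3,1,2,1]) 1128 1057 = true := by decide +kernel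
theorem x114_4 : fam (wl [1,13,4,1,1,1,1,6,2]) 717 1334 = true := by decide +kernel
theorem x114_5 : fam (wl [14,4,1,1,1,1,6,1,1]) 3930 553 = true := by decide +kernel
theorem x114_6 : fam (wl [6,2,1,1,2,3,1,12]) 2152 674 = true := by decide +kernel
theorem x114_7 : fam (wl [1,5,2,1,1,2,3,1,11,1]) 2495 4211 = true := by decide +kernel
theorem x114_8 : fam (wl [1,3,2,7,3,1,2,1,1,2]) 3312 5142 = true := by decide +kernel
theorem x114_9 : fam (wl [4,2,7,3,1,2,1,1,1,1]) 1337 599 = true := by decide +kernel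
theorem x114_10 : fam (wl [1,3,2,2,2,2,2,2,1,1,2]) 1330 2058 = true := by decide +kernel
theorem x114_11 : fam (wl [4,2,2,2,2,2,2,1,1,1,1]) 3325 1507 = true := by decide +kernel
theorem x114_12 : fam (wl [1,5,1,6,13,1,2,2]) 2986 5102 = true := by decide +kernel
theorem x114_13 : fam (wl [6,1,6,13,1,2,1,1]) 1669 487 = true := by decide +kernel
theorem x114_14 : fam (wl [11,1,2,2,2,23]) 3383 578 = true := by decide +kernel
theorem x114_15 : fam (wl [1,1,2,1,1,2,1,2,1,3,2,3]) 3346 3890 = true := by decide +kernel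
theorem x114_16 : fam (wl [2,2,1,1,2,1,2,1,3,2,2,1]) 1311 1099 = true := by decide +kernel
theorem x114_17 : fam (wl [1,10,1,2,2,2,22,1]) 1274 2333 = true := by decide +kernel
theorem x114_18 : fam (wl [6,1,8,1,3,1,13]) 2090 606 = true := by decide +kernel
theorem x114_19 : fam (wl [1,5,1,8,1,3,1,12,1]) 2571 4399 = true := by decide +kernel
theorem x114_20 : fam (wl [1,1,1,1,4,1,1,3,2,3,3]) 3539 4302 = true := by decide +kernel
theorem x114_21 : fam (wl [2,1,1,4,1,1,3,2,3,2,1]) 1132 889 = true := by decide +kernel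
theorem x114_22 : fam (wl [1,3,5,2,4,2,1,1,1,2]) 3712 5650 = true := by decide +kernel
theorem x114_23 : fam (wl [4,5,2,4,2,1,1,1,1,1]) 959 459 = true := by decide +kernel
theorem x114_24 : fam (wl [1,1,12,2,2,1,5,1,3]) 691 718 = true := by decide +kernel
theorem x114_25 : fam (wl [2,12,2,2,1,5,1,2,1]) 3986 3833 = true := by decide +kernel
theorem x114_26 : fam (wl [18,3,1,1,36]) 3785 414 = true := by decide +kernel
theorem x114_27 : fam (wl [5,2,3,1,7,1,10]) 3478 1278 = true := by decide +kernel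
theorem x114_28 : fam (wl [1,4,2,3,1,7,1,9,1]) 1201 1963 = true := by decide +kernel
theorem x114_29 : fam (wl [1,17,3,1,1,35,1]) 894 1693 = true := by decide +kernel
/-- words with first entry from 4639 to 4687 -/
def L114 : List (List ℕ × ℕ × ℕ) := [([2,2,1,1,1,1,1,4,3,1,4],588,494), ([1,1,2,1,1,1,1,1,4,3,1,3,1],4049,4699), ([1,1,7,3,6,3,1,3],3513,3738), ([2,7,3,6,3,1,2,1],1128,1057), ([1,13,4,1,1,1,1,6,2],717,1334), ([14,4,1,1,1,1,6,1,1],3930,553), ([6,2,1,1,2,3,1,12],2152,674), ([1,5,2,1,1,2,3,1,11,1],2495,4211), ([1,3,2,7,3,1,2,1,1,2],3312,5142), ([4,2,7,3,1,2,1,1,1,1],1337,599), ([1,3,2,2,2,2,2,2,1,1,2],1330,2058), ([4,2,2,2,2,2,2,1,1,1,1],3325,1507), ([1,5,1,6,13,1,2,2],2986,5102), ([6,1,6,13,1,2,1,1],1669,487), ([11,1,2,2,2,23],3383,578), ([1,1,2,1,1,2,1,2,1,3,2,3],3346,3890), ([2,2,1,1,2,1,2,1,3,2,2,1],1311,1099), ([1,10,1,2,2,2,22,1],1274,2333), ([6,1,8,1,3,1,13],2090,606), ([1,5,1,8,1,3,1,12,1],2571,4399), ([1,1,1,1,4,1,1,3,2,3,3],3539,4302),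 ([2,1,1,4,1,1,3,2,3,2,1],1132,889), ([1,3,5,2,4,2,1,1,1,2],3712,5650), ([4,5,2,4,2,1,1,1,1,1],959,459), ([1,1,12,2,2,1,5,1,3],691,718), ([2,12,2,2,1,5,1,2,1],3986,3833), ([18,3,1,1,36],3785,414), ([5,2,3,1,7,1,10],3478,1278), ([1,4,2,3,1,7,1,9,1],1201,1963), ([1,17,3,1,1,35,1],894,1693)]
theorem r114 : rgV L114 4639 25 = true := by decide +kernel
theorem f114 : ∀ p ∈ L114, fam (wl p.1) p.2.1 p.2.2 = true := by
  intro p hp
  simp only [L114, List.mem_cons, List.not_mem_nil, or_false] at hp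
  rcases hp with rfl | rfl | rfl | rfl | rfl | rfl | rfl | rfl | rfl | rfl | rfl | rfl | rfl | rfl | rfl | rfl | rfl | rfl | rfl | rfl | rfl | rfl | rfl | rfl | rfl | rfl | rfl | rfl | rfl | rfl
  · exact x114_0
  · exact x114_1
  · exact x114_2
  · exact x114_3
  · exact x114_4
  · exact x114_5
  · exact x114_6
  · exact x114_7
  · exact x114_8
  · exact x114_9
  · exact x114_10
  · exact x114_11
  · exact x114_12
  · exact x114_13
  · exact x114_14
  · exact x114_15
  · exact x114_16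
  · exact x114_17
  · exact x114_18
  · exact x114_19
  · exact x114_20
  · exact x114_21
  · exact x114_22
  · exact x114_23
  · exact x114_24
  · exact x114_25
  · exact x114_26
  · exact x114_27
  · exact x114_28
  · exact x114_29

end Pool.Agent.V5helper47.EV
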