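import Pool.Agent.V5helper47.EV.S2

/-! Search, part of the half words. -/

set_option maxRecDepth 1000000

namespace Pool.Agent.V5helper47.EV

open H419R2 Pool.Agent.N911 Pool.Agent.V5helper47.CN

theorem x115_0 : fam (wl [3,2,1,6,3,2,1,6]) 941 562 = true := by decide +kernel
theorem x115_1 : fam (wl [1,1,2,3,1,2,1,2,1,1,2,3]) 679 802 = true := by decide +kernel
theorem x115_2 : fam (wl [2,2,3,1,2,1,2,1,1,2,2,1]) 4008 3285 = true := by decide +kernel
theorem x115_3 : fam (wl [1,2,2,1,6,3,2,1,5,1]) 3746 5257 = true := by decide +kernel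
theorem x115_4 : fam (wl [6,3,3,1,1,1,1,12]) 3184 1010 = true := by decide +kernel
theorem x115_5 : fam (wl [1,5,3,3,1,1,1,1,11,1]) 1505 2535 = true := by decide +kernel
theorem x115_6 : fam (wl [1,5,2,4,1,1,1,2,1,2,2]) 2957 4998 = true := by decide +kernel
theorem x115_7 : fam (wl [6,2,4,1,1,1,2,1,2,1,1]) 1744 541 = true := by decide +kernel
theorem x115_8 : fam (wl [4,3,1,2,5,1,1,8]) 474 222 = true := by decide +kernel
theorem x115_9 : fam (wl [1,1,1,8,1,2,18,3]) 1559 2042 = true := by decide +kernel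
theorem x115_10 : fam (wl [2,1,8,1,2,18,2,1]) 3146 2173 = true := by decide +kernel
theorem x115_11 : fam (wl [1,3,3,1,2,5,1,1,7,1]) 4231 6483 = true := by decide +kernel
theorem x115_12 : fam (wl [4,1,12,1,5,1,9]) 744 302 = true := by decide +kernel
theorem x115_13 : fam (wl [1,15,1,1,1,4,1,7,2]) 24 46 = true := by decide +kernel
theorem x115_14 : fam (wl [16,1,1,1,4,1,7,1,1]) 4685 563 = true := by decide +kernel
theorem x115_15 : fam (wl [1,3,1,12,1,5,1,8,1]) 3965 6323 = true := by decide +kernel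
theorem x115_16 : fam (wl [14,1,1,1,3,29]) 1771 242 = true := by decide +kernel
theorem x115_17 : fam (wl [1,2,1,3,2,2,2,1,1,2,1,2]) 3865 5682 = true := by decide +kernel
theorem x115_18 : fam (wl [3,1,3,2,2,2,1,1,2,1,1,1]) 846 449 = true := by decide +kernel
theorem x115_19 : fam (wl [1,13,1,1,1,3,28,1]) 2940 5481 = true := by decide +kernel
theorem x115_20 : fam (wl [4,2,4,1,9,1,8]) 3024 1358 = true := by decide +kernel
theorem x115_21 : fam (wl [1,3,2,4,1,9,1,7,1]) 1695 2631 = true := by decide +kernel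
theorem x115_22 : fam (wl [1,38,1,2,19,2]) 1090 2126 = true := by decide +kernel
theorem x115_23 : fam (wl [39,1,2,19,1,1]) 3629 183 = true := by decide +kernel
theorem x115_24 : fam (wl [2,19,2,1,9,4]) 3383 3298 = true := by decide +kernel
theorem x115_25 : fam (wl [1,1,19,2,1,9,3,1]) 1338 1373 = true := by decide +kernel
theorem x115_26 : fam (wl [1,3,16,1,7,1,1,1,2]) 4377 6598 = true := by decide +kernel
theorem x115_27 : fam (wl [4,16,1,7,1,1,1,1,1]) 350 173 = true := by decide +kernel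
theorem x115_28 : fam (wl [1,2,1,2,4,8,1,2,1,2]) 1186 1730 = true := by decide +kernel
theorem x115_29 : fam (wl [3,1,2,4,8,1,2,1,1,1]) 3541 1919 = true := by decide +kernel
/-- words with first entry from 4689 to 4729 -/
def L115 : List (List ℕ × ℕ × ℕ) := [([3,2,1,6,3,2,1,6],941,562), ([1,1,2,3,1,2,1,2,1,1,2,3],679,802), ([2,2,3,1,2,1,2,1,1,2,2,1],4008,3285), ([1,2,2,1,6,3,2,1,5,1],3746,5257), ([6,3,3,1,1,1,1,12],3184,1010), ([1,5,3,3,1,1,1,1,11,1],1505,2535), ([1,5,2,4,1,1,1,2,1,2,2],2957,4998), ([6,2,4,1,1,1,2,1,2,1,1],1744,541), ([4,3,1,2,5,1,1,8],474,222), ([1,1,1,8,1,2,18,3],1559,2042), ([2,1,8,1,2,18,2,1],3146,2173), ([1,3,3,1,2,5,1,1,7,1],4231,6483), ([4,1,12,1,5,1,9],744,302), ([1,15,1,1,1,4,1,7,2],24,46), ([16,1,1,1,4,1,7,1,1],4685,563), ([1,3,1,12,1,5,1,8,1],3965,6323), ([14,1,1,1,3,29],1771,242), ([1,2,1,3,2,2,2,1,1,2,1,2],3865,5682), ([3,1,3,2,2,2,1,1,2,1,1,1],846,449), ([1,13,1,1,1,3,28,1],2940,5481), ([4,2,4,1,9,1,8],3024,1358), ([1,3,2,4,1,9,1,7,1],1695,2631),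 ([1,38,1,2,19,2],1090,2126), ([39,1,2,19,1,1],3629,183), ([2,19,2,1,9,4],3383,3298), ([1,1,19,2,1,9,3,1],1338,1373), ([1,3,16,1,7,1,1,1,2],4377,6598), ([4,16,1,7,1,1,1,1,1],350,173), ([1,2,1,2,4,8,1,2,1,2],1186,1730), ([3,1,2,4,8,1,2,1,1,1],3541,1919)]
theorem r115 : rgV L115 4689 21 = true := by decide +kernel
theorem f115 : ∀ p ∈ L115, fam (wl p.1) p.2.1 p.2.2 = true := by
  intro p hp
  simp only [L115, List.mem_cons, List.not_mem_nil, or_false] at hp
  rcases hp with rfl | rfl | rfl | rfl | rfl | rfl | rfl | rfl | rfl | rfl | rfl | rfl | rfl | rfl | rfl | rfl | rfl | rfl | rfl | rfl | rfl | rfl | rfl | rfl | rfl | rfl | rfl | rfl | rfl | rfl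
  · exact x115_0
  · exact x115_1
  · exact x115_2
  · exact x115_3
  · exact x115_4
  · exact x115_5
  · exact x115_6
  · exact x115_7
  · exact x115_8
  · exact x115_9
  · exact x115_10
  · exact x115_11
  · exact x115_12
  · exact x115_13
  · exact x115_14
  · exact x115_15
  · exact x115_16
  · exact x115_17
  · exact x115_18
  · exact x115_19
  · exact x115_20
  · exact x115_21
  · exact x115_22
  · exact x115_23
  · exact x115_24
  · exact x115_25
  · exact x115_26
  · exact x115_27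
  · exact x115_28
  · exact x115_29

end Pool.Agent.V5helper47.EV
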