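import Pool.Agent.V5helper47.EV.S2

/-! Search, part of the half words. -/

set_option maxRecDepth 1000000

namespace Pool.Agent.V5helper47.EV

open H419R2 Pool.Agent.N911 Pool.Agent.V5helper47.CN

theorem x116_0 : fam (wl [11,6,3,22]) 4028 722 = true := by decide +kernel
theorem x116_1 : fam (wl [4,2,2,1,2,5,1,8]) 3232 1462 = true := by decide +kernel
theorem x116_2 : fam (wl [2,3,1,2,2,1,5,1,1,4]) 447 394 = true := by decide +kernel
theorem x116_3 : fam (wl [1,3,9,1,2,4,1,1,1,2]) 2976 4502 = true := by decide +kernel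
theorem x116_4 : fam (wl [4,9,1,2,4,1,1,1,1,1]) 1753 855 = true := by decide +kernel
theorem x116_5 : fam (wl [1,1,3,1,2,2,1,5,1,1,3,1]) 4282 4793 = true := by decide +kernel
theorem x116_6 : fam (wl [1,3,2,2,1,2,5,1,7,1]) 1497 2319 = true := by decide +kernel
theorem x116_7 : fam (wl [1,10,6,3,21,1]) 701 1279 = true := by decide +kernel
theorem x116_8 : fam (wl [16,4,2,32]) 1314 162 = true := by decide +kernel
theorem x116_9 : fam (wl [1,1,1,1,7,2,1,3,3,3]) 1317 1594 = true := by decide +kernel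
theorem x116_10 : fam (wl [2,1,1,7,2,1,3,3,2,1]) 3418 2701 = true := by decide +kernel
theorem x116_11 : fam (wl [1,15,4,2,31,1]) 3421 6423 = true := by decide +kernel
theorem x116_12 : fam (wl [2,2,3,3,1,1,6,1,4]) 2957 2430 = true := by decide +kernel
theorem x116_13 : fam (wl [1,1,2,3,3,1,1,6,1,3,1]) 1792 2113 = true := by decide +kernel
theorem x116_14 : fam (wl [11,1,4,1,1,1,23]) 1336 226 = true := by decide +kernel
theorem x116_15 : fam (wl [2,33,1,16,4]) 4012 3954 = true := by decide +kernel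
theorem x116_16 : fam (wl [1,1,33,1,16,3,1]) 739 751 = true := by decide +kernel
theorem x116_17 : fam (wl [1,10,1,4,1,1,1,22,1]) 3415 6255 = true := by decide +kernel
theorem x116_18 : fam (wl [1,67,1,33,2]) 1206 2378 = true := by decide +kernel
theorem x116_19 : fam (wl [68,1,33,1,1]) 3551 103 = true := by decide +kernel
theorem x116_20 : fam (wl [1,1,1,1,1,4,2,1,1,1,4,3]) 1783 2218 = true := by decide +kernel
theorem x116_21 : fam (wl [1,68,34,2]) 3554 7006 = true := by decide +kernel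
theorem x116_22 : fam (wl [69,34,1,1]) 1207 35 = true := by decide +kernel
theorem x116_23 : fam (wl [2,1,1,1,4,2,1,1,1,4,2,1]) 2978 2253 = true := by decide +kernel
theorem x116_24 : fam (wl [2,1,6,3,1,1,1,2,1,5]) 3953 2762 = true := by decide +kernel
theorem x116_25 : fam (wl [2,34,17,4]) 3127 3082 = true := by decide +kernel
theorem x116_26 : fam (wl [1,1,34,17,3,1]) 1640 1665 = true := by decide +kernel
theorem x116_27 : fam (wl [1,1,1,6,3,1,1,1,2,1,4,1]) 814 1061 = true := by decide +kernel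
/-- words with first entry from 4731 to 4775 -/
def L116 : List (List ℕ × ℕ × ℕ) := [([11,6,3,22],4028,722), ([4,2,2,1,2,5,1,8],3232,1462), ([2,3,1,2,2,1,5,1,1,4],447,394), ([1,3,9,1,2,4,1,1,1,2],2976,4502), ([4,9,1,2,4,1,1,1,1,1],1753,855), ([1,1,3,1,2,2,1,5,1,1,3,1],4282,4793), ([1,3,2,2,1,2,5,1,7,1],1497,2319), ([1,10,6,3,21,1],701,1279), ([16,4,2,32],1314,162), ([1,1,1,1,7,2,1,3,3,3],1317,1594), ([2,1,1,7,2,1,3,3,2,1],3418,2701), ([1,15,4,2,31,1],3421,6423), ([2,2,3,3,1,1,6,1,4],2957,2430), ([1,1,2,3,3,1,1,6,1,3,1],1792,2113), ([11,1,4,1,1,1,23],1336,226), ([2,33,1,16,4],4012,3954), ([1,1,33,1,16,3,1],739,751), ([1,10,1,4,1,1,1,22,1],3415,6255), ([1,67,1,33,2],1206,2378), ([68,1,33,1,1],3551,103), ([1,1,1,1,1,4,2,1,1,1,4,3],1783,2218), ([1,68,34,2],3554,7006), ([69,34,1,1],1207,35), ([2,1,1,1,4,2,1,1,1,4,2,1],2978,2253), ([2,1,6,3,1,1,1,2,1,5],3953,2762), ([2,34,17,4],3127,3082), ([1,1,34,17,3,1],1640,1665), ([1,1,1,6,3,1,1,1,2,1,4,1],814,1061)]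
theorem r116 : rgV L116 4731 23 = true := by decide +kernel
theorem f116 : ∀ p ∈ L116, fam (wl p.1) p.2.1 p.2.2 = true := by
  intro p hp
  simp only [L116, List.mem_cons, List.not_mem_nil, or_false] at hp
  rcases hp with rfl | rfl | rfl | rfl | rfl | rfl | rfl | rfl | rfl | rfl | rfl | rfl | rfl | rfl | rfl | rfl | rfl | rfl | rfl | rfl | rfl | rfl | rfl | rfl | rfl | rfl | rfl | rfl
  · exact x116_0
  · exact x116_1
  · exact x116_2
  · exact x116_3
  · exact x116_4
  · exact x116_5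
  · exact x116_6
  · exact x116_7
  · exact x116_8
  · exact x116_9
  · exact x116_10
  · exact x116_11
  · exact x116_12
  · exact x116_13
  · exact x116_14
  · exact x116_15
  · exact x116_16
  · exact x116_17
  · exact x116_18
  · exact x116_19
  · exact x116_20
  · exact x116_21
  · exact x116_22
  · exact x116_23
  · exact x116_24
  · exact x116_25
  · exact x116_26
  · exact x116_27

end Pool.Agent.V5helper47.EV
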