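import Pool.Agent.V5helper47.EV.S2

/-! Search, part of the half words. -/

set_option maxRecDepth 1000000

namespace Pool.Agent.V5helper47.EV

open H419R2 Pool.Agent.N911 Pool.Agent.V5helper47.CN

theorem x117_0 : fam (wl [4,1,4,2,2,1,1,1,9]) 1459 606 = true := by decide +kernel
theorem x117_1 : fam (wl [1,3,1,8,1,18,1,1,2]) 4318 6874 = true := by decide +kernel
theorem x117_2 : fam (wl [4,1,8,1,18,1,1,1,1]) 457 187 = true := by decide +kernel
theorem x117_3 : fam (wl [1,3,1,4,2,2,1,1,1,8,1]) 3316 5257 = true := by decide +kernel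
theorem x117_4 : fam (wl [2,2,1,1,5,2,1,3,1,4]) 567 474 = true := by decide +kernel
theorem x117_5 : fam (wl [1,3,2,1,3,7,2,1,1,2]) 4137 6378 = true := by decide +kernel
theorem x117_6 : fam (wl [4,2,1,3,7,2,1,1,1,1]) 638 293 = true := by decide +kernel
theorem x117_7 : fam (wl [1,1,2,1,1,5,2,1,3,1,3,1]) 4208 4901 = true := by decide +kernel
theorem x117_8 : fam (wl [9,2,2,4,1,18]) 2079 442 = true := by decide +kernel
theorem x117_9 : fam (wl [7,1,1,1,2,1,3,15]) 3275 858 = true := by decide +kernel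
theorem x117_10 : fam (wl [1,6,1,1,1,2,1,3,14,1]) 1502 2613 = true := by decide +kernel
theorem x117_11 : fam (wl [1,8,2,2,4,1,17,1]) 2698 4825 = true := by decide +kernel
theorem x117_12 : fam (wl [2,12,1,1,3,6,4]) 189 182 = true := by decide +kernel
theorem x117_13 : fam (wl [1,1,12,1,1,3,6,3,1]) 4592 4769 = true := by decide +kernel
theorem x117_14 : fam (wl [3,3,3,1,2,1,1,1,1,6]) 585 354 = true := by decide +kernel
theorem x117_15 : fam (wl [1,2,3,3,1,2,1,1,1,1,5,1]) 4200 5861 = true := by decide +kernel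
theorem x117_16 : fam (wl [1,2,15,1,31,1,2]) 4613 6214 = true := by decide +kernel
theorem x117_17 : fam (wl [3,15,1,31,1,1,1]) 178 117 = true := by decide +kernel
theorem x117_18 : fam (wl [1,3,17,8,1,1,1,2]) 3950 5954 = true := by decide +kernel
theorem x117_19 : fam (wl [4,17,8,1,1,1,1,1]) 841 415 = true := by decide +kernel
theorem x117_20 : fam (wl [1,4,2,5,1,2,4,2,2]) 586 958 = true := by decide +kernel
theorem x117_21 : fam (wl [5,2,5,1,2,4,2,1,1]) 4211 1543 = true := by decide +kernel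
theorem x117_22 : fam (wl [48,1,97]) 4752 194 = true := by decide +kernel
theorem x117_23 : fam (wl [1,47,1,96,1]) 47 95 = true := by decide +kernel
theorem x117_24 : fam (wl [1,1,1,3,3,2,1,1,7,3]) 2895 3698 = true := by decide +kernel
theorem x117_25 : fam (wl [2,1,3,3,2,1,1,7,2,1]) 1904 1377 = true := by decide +kernel
theorem x117_26 : fam (wl [49,98]) 49 2 = true := by decide +kernel
theorem x117_27 : fam (wl [1,1,1,4,1,3,1,1,10,3]) 484 626 = true := by decide +kernel
theorem x117_28 : fam (wl [2,1,4,1,3,1,1,10,2,1]) 4317 3055 = true := by decide +kernel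
theorem x117_29 : fam (wl [1,48,97,1]) 4752 9313 = true := by decide +kernel
/-- words with first entry from 4777 to 4809 -/
def L117 : List (List ℕ × ℕ × ℕ) := [([4,1,4,2,2,1,1,1,9],1459,606), ([1,3,1,8,1,18,1,1,2],4318,6874), ([4,1,8,1,18,1,1,1,1],457,187), ([1,3,1,4,2,2,1,1,1,8,1],3316,5257), ([2,2,1,1,5,2,1,3,1,4],567,474), ([1,3,2,1,3,7,2,1,1,2],4137,6378), ([4,2,1,3,7,2,1,1,1,1],638,293), ([1,1,2,1,1,5,2,1,3,1,3,1],4208,4901), ([9,2,2,4,1,18],2079,442), ([7,1,1,1,2,1,3,15],3275,858), ([1,6,1,1,1,2,1,3,14,1],1502,2613), ([1,8,2,2,4,1,17,1],2698,4825), ([2,12,1,1,3,6,4],189,182), ([1,1,12,1,1,3,6,3,1],4592,4769), ([3,3,3,1,2,1,1,1,1,6],585,354), ([1,2,3,3,1,2,1,1,1,1,5,1],4200,5861), ([1,2,15,1,31,1,2],4613,6214), ([3,15,1,31,1,1,1],178,117), ([1,3,17,8,1,1,1,2],3950,5954), ([4,17,8,1,1,1,1,1],841,415), ([1,4,2,5,1,2,4,2,2],586,958), ([5,2,5,1,2,4,2,1,1],4211,1543), ([48,1,97],4752,194), ([1,47,1,96,1],47,95), ([1,1,1,3,3,2,1,1,7,3],2895,3698), ([2,1,3,3,2,1,1,7,2,1],1904,1377),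 ([49,98],49,2), ([1,1,1,4,1,3,1,1,10,3],484,626), ([2,1,4,1,3,1,1,10,2,1],4317,3055), ([1,48,97,1],4752,9313)]
theorem r117 : rgV L117 4777 17 = true := by decide +kernel
theorem f117 : ∀ p ∈ L117, fam (wl p.1) p.2.1 p.2.2 = true := by
  intro p hp
  simp only [L117, List.mem_cons, List.not_mem_nil, or_false] at hp
  rcases hp with rfl | rfl | rfl | rfl | rfl | rfl | rfl | rfl | rfl | rfl | rfl | rfl | rfl | rfl | rfl | rfl | rfl | rfl | rfl | rfl | rfl | rfl | rfl | rfl | rfl | rfl | rfl | rfl | rfl | rfl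
  · exact x117_0
  · exact x117_1
  · exact x117_2
  · exact x117_3
  · exact x117_4
  · exact x117_5
  · exact x117_6
  · exact x117_7
  · exact x117_8
  · exact x117_9
  · exact x117_10
  · exact x117_11
  · exact x117_12
  · exact x117_13
  · exact x117_14
  · exact x117_15
  · exact x117_16
  · exact x117_17
  · exact x117_18
  · exact x117_19
  · exact x117_20
  · exact x117_21
  · exact x117_22
  · exact x117_23
  · exact x117_24
  · exact x117_25
  · exact x117_26
  · exact x117_27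
  · exact x117_28
  · exact x117_29

end Pool.Agent.V5helper47.EV
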