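import Pool.Agent.V5helper47.EV.S2

/-! Search, part of the half words. -/

set_option maxRecDepth 1000000

namespace Pool.Agent.V5helper47.EV

open H419R2 Pool.Agent.N911 Pool.Agent.V5helper47.CN

theorem x118_0 : fam (wl [4,1,13,6,1,9]) 202 82 = true := by decide +kernel
theorem x118_1 : fam (wl [1,2,16,32,1,2]) 1783 2402 = true := by decide +kernel
theorem x118_2 : fam (wl [3,16,32,1,1,1]) 3026 1977 = true := by decide +kernel
theorem x118_3 : fam (wl [1,3,1,13,6,1,8,1]) 4607 7347 = true := by decide +kernel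
theorem x118_4 : fam (wl [2,3,1,1,3,1,1,3,1,1,4]) 2406 2110 = true := by decide +kernel
theorem x118_5 : fam (wl [1,1,3,1,1,3,1,1,3,1,1,3,1]) 2409 2707 = true := by decide +kernel
theorem x118_6 : fam (wl [28,2,1,56]) 255 18 = true := by decide +kernel
theorem x118_7 : fam (wl [1,27,2,1,55,1]) 4560 8801 = true := by decide +kernel
theorem x118_8 : fam (wl [1,1,6,5,2,1,1,2,1,3]) 1360 1462 = true := by decide +kernel
theorem x118_9 : fam (wl [1,3,1,9,19,1,1,2]) 2393 3810 = true := by decide +kernel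
theorem x118_10 : fam (wl [4,1,9,19,1,1,1,1]) 2432 993 = true := by decide +kernel
theorem x118_11 : fam (wl [2,6,5,2,1,1,2,1,2,1]) 3465 3207 = true := by decide +kernel
theorem x118_12 : fam (wl [2,5,1,2,1,6,1,2,4]) 2337 2150 = true := by decide +kernel
theorem x118_13 : fam (wl [1,1,5,1,2,1,6,1,2,3,1]) 2492 2693 = true := by decide +kernel
theorem x118_14 : fam (wl [2,1,1,2,2,1,2,1,5,5]) 3697 2858 = true := by decide +kernel
theorem x118_15 : fam (wl [1,1,2,1,3,2,1,7,2,3]) 2156 2486 = true := by decide +kernel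
theorem x118_16 : fam (wl [2,2,1,3,2,1,7,2,2,1]) 2675 2267 = true := by decide +kernel
theorem x118_17 : fam (wl [1,1,1,1,2,2,1,2,1,5,4,1]) 1134 1393 = true := by decide +kernel
theorem x118_18 : fam (wl [1,5,2,1,1,1,4,2,1,2,2]) 2005 3382 = true := by decide +kernel
theorem x118_19 : fam (wl [1,9,6,1,2,1,1,4,2]) 1973 3558 = true := by decide +kernel
theorem x118_20 : fam (wl [10,6,1,2,1,1,4,1,1]) 2866 565 = true := by decide +kernel
theorem x118_21 : fam (wl [6,2,1,1,1,4,2,1,2,1,1]) 2834 889 = true := by decide +kernel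
theorem x118_22 : fam (wl [4,5,1,1,3,1,2,8]) 3047 1458 = true := by decide +kernel
theorem x118_23 : fam (wl [1,9,1,1,1,2,4,1,4,2]) 3586 6498 = true := by decide +kernel
theorem x118_24 : fam (wl [10,1,1,1,2,4,1,4,1,1]) 1269 239 = true := by decide +kernel
theorem x118_25 : fam (wl [1,3,5,1,1,3,1,2,7,1]) 1808 2753 = true := by decide +kernel
theorem x118_26 : fam (wl [6,1,9,4,1,13]) 3375 978 = true := by decide +kernel
theorem x118_27 : fam (wl [5,4,2,4,2,10]) 2513 962 = true := by decide +kernel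
theorem x118_28 : fam (wl [1,4,4,2,4,2,9,1]) 2344 3793 = true := by decide +kernel
theorem x118_29 : fam (wl [1,5,1,9,4,1,12,1]) 1482 2537 = true := by decide +kernel
/-- words with first entry from 4811 to 4869 -/
def L118 : List (List ℕ × ℕ × ℕ) := [([4,1,13,6,1,9],202,82), ([1,2,16,32,1,2],1783,2402), ([3,16,32,1,1,1],3026,1977), ([1,3,1,13,6,1,8,1],4607,7347), ([2,3,1,1,3,1,1,3,1,1,4],2406,2110), ([1,1,3,1,1,3,1,1,3,1,1,3,1],2409,2707), ([28,2,1,56],255,18), ([1,27,2,1,55,1],4560,8801), ([1,1,6,5,2,1,1,2,1,3],1360,1462), ([1,3,1,9,19,1,1,2],2393,3810), ([4,1,9,19,1,1,1,1],2432,993), ([2,6,5,2,1,1,2,1,2,1],3465,3207), ([2,5,1,2,1,6,1,2,4],2337,2150), ([1,1,5,1,2,1,6,1,2,3,1],2492,2693), ([2,1,1,2,2,1,2,1,5,5],3697,2858), ([1,1,2,1,3,2,1,7,2,3],2156,2486), ([2,2,1,3,2,1,7,2,2,1],2675,2267), ([1,1,1,1,2,2,1,2,1,5,4,1],1134,1393), ([1,5,2,1,1,1,4,2,1,2,2],2005,3382), ([1,9,6,1,2,1,1,4,2],1973,3558), ([10,6,1,2,1,1,4,1,1],2866,565), ([6,2,1,1,1,4,2,1,2,1,1],2834,889),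 ([4,5,1,1,3,1,2,8],3047,1458), ([1,9,1,1,1,2,4,1,4,2],3586,6498), ([10,1,1,1,2,4,1,4,1,1],1269,239), ([1,3,5,1,1,3,1,2,7,1],1808,2753), ([6,1,9,4,1,13],3375,978), ([5,4,2,4,2,10],2513,962), ([1,4,4,2,4,2,9,1],2344,3793), ([1,5,1,9,4,1,12,1],1482,2537)]
theorem r118 : rgV L118 4811 30 = true := by decide +kernel
theorem f118 : ∀ p ∈ L118, fam (wl p.1) p.2.1 p.2.2 = true := by
  intro p hp
  simp only [L118, List.mem_cons, List.not_mem_nil, or_false] at hp
  rcases hp with rfl | rfl | rfl | rfl | rfl | rfl | rfl | rfl | rfl | rfl | rfl | rfl | rfl | rfl | rfl | rfl | rfl | rfl | rfl | rfl | rfl | rfl | rfl | rfl | rfl | rfl | rfl | rfl | rfl | rfl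
  · exact x118_0
  · exact x118_1
  · exact x118_2
  · exact x118_3
  · exact x118_4
  · exact x118_5
  · exact x118_6
  · exact x118_7
  · exact x118_8
  · exact x118_9
  · exact x118_10
  · exact x118_11
  · exact x118_12
  · exact x118_13
  · exact x118_14
  · exact x118_15
  · exact x118_16
  · exact x118_17
  · exact x118_18
  · exact x118_19
  · exact x118_20
  · exact x118_21
  · exact x118_22
  · exact x118_23
  · exact x118_24
  · exact x118_25
  · exact x118_26
  · exact x118_27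
  · exact x118_28
  · exact x118_29

end Pool.Agent.V5helper47.EV
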