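import Pool.Agent.V5helper47.EV.S2

/-! Search, part of the half words. -/

set_option maxRecDepth 1000000

namespace Pool.Agent.V5helper47.EV

open H419R2 Pool.Agent.N911 Pool.Agent.V5helper47.CN

theorem x119_0 : fam (wl [7,1,2,2,2,2,15]) 1657 430 = true := by decide +kernel
theorem x119_1 : fam (wl [1,6,1,2,2,2,2,14,1]) 3212 5593 = true := by decide +kernel
theorem x119_2 : fam (wl [3,1,1,1,1,3,1,1,4,7]) 4400 2438 = true := by decide +kernel
theorem x119_3 : fam (wl [2,5,1,1,2,1,3,1,2,4]) 3393 3114 = true := by decide +kernel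
theorem x119_4 : fam (wl [1,1,5,1,1,2,1,3,1,2,3,1]) 1478 1601 = true := by decide +kernel
theorem x119_5 : fam (wl [1,2,1,1,1,1,3,1,1,4,6,1]) 471 683 = true := by decide +kernel
theorem x119_6 : fam (wl [8,1,6,1,2,1,17]) 1233 278 = true := by decide +kernel
theorem x119_7 : fam (wl [5,1,3,1,1,3,1,1,11]) 3347 1158 = true := by decide +kernel
theorem x119_8 : fam (wl [5,1,1,3,1,8,11]) 4351 1566 = true := by decide +kernel
theorem x119_9 : fam (wl [2,6,1,3,1,1,2,3,4]) 4052 3774 = true := by decide +kernel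
theorem x119_10 : fam (wl [1,1,6,1,3,1,1,2,3,3,1]) 825 883 = true := by decide +kernel
theorem x119_11 : fam (wl [1,4,1,1,3,1,8,10,1]) 526 865 = true := by decide +kernel
theorem x119_12 : fam (wl [1,4,1,3,1,1,3,1,1,10,1]) 1530 2533 = true := by decide +kernel
theorem x119_13 : fam (wl [1,7,1,6,1,2,1,16,1]) 3644 6469 = true := by decide +kernel
theorem x119_14 : fam (wl [2,1,3,1,4,2,2,1,1,5]) 226 162 = true := by decide +kernel
theorem x119_15 : fam (wl [1,39,2,1,19,2]) 3569 6962 = true := by decide +kernel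
theorem x119_16 : fam (wl [40,2,1,19,1,1]) 1310 65 = true := by decide +kernel
theorem x119_17 : fam (wl [1,1,1,3,1,4,2,2,1,1,4,1]) 4653 5975 = true := by decide +kernel
theorem x119_18 : fam (wl [4,2,5,10,1,8]) 3925 1762 = true := by decide +kernel
theorem x119_19 : fam (wl [1,1,19,1,2,9,1,3]) 1079 1106 = true := by decide +kernel
theorem x119_20 : fam (wl [2,19,1,2,9,1,2,1]) 3802 3709 = true := by decide +kernel
theorem x119_21 : fam (wl [1,3,2,5,10,1,7,1]) 956 1485 = true := by decide +kernel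
theorem x119_22 : fam (wl [1,25,2,2,1,12,2]) 1545 2974 = true := by decide +kernel
theorem x119_23 : fam (wl [26,2,2,1,12,1,1]) 3342 253 = true := by decide +kernel
theorem x119_24 : fam (wl [2,1,1,1,8,4,3,5]) 1802 1358 = true := by decide +kernel
theorem x119_25 : fam (wl [1,1,1,1,1,8,4,3,4,1]) 3085 3847 = true := by decide +kernel
theorem x119_26 : fam (wl [1,2,4,1,1,1,3,9,1,2]) 4776 6582 = true := by decide +kernel
theorem x119_27 : fam (wl [1,2,1,9,2,1,4,2,1,2]) 934 1390 = true := by decide +kernel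
theorem x119_28 : fam (wl [3,1,9,2,1,4,2,1,1,1]) 3955 2027 = true := by decide +kernel
theorem x119_29 : fam (wl [3,4,1,1,1,3,9,1,1,1]) 113 71 = true := by decide +kernel
/-- words with first entry from 4871 to 4895 -/
def L119 : List (List ℕ × ℕ × ℕ) := [([7,1,2,2,2,2,15],1657,430), ([1,6,1,2,2,2,2,14,1],3212,5593), ([3,1,1,1,1,3,1,1,4,7],4400,2438), ([2,5,1,1,2,1,3,1,2,4],3393,3114), ([1,1,5,1,1,2,1,3,1,2,3,1],1478,1601), ([1,2,1,1,1,1,3,1,1,4,6,1],471,683), ([8,1,6,1,2,1,17],1233,278), ([5,1,3,1,1,3,1,1,11],3347,1158), ([5,1,1,3,1,8,11],4351,1566), ([2,6,1,3,1,1,2,3,4],4052,3774), ([1,1,6,1,3,1,1,2,3,3,1],825,883), ([1,4,1,1,3,1,8,10,1],526,865), ([1,4,1,3,1,1,3,1,1,10,1],1530,2533), ([1,7,1,6,1,2,1,16,1],3644,6469), ([2,1,3,1,4,2,2,1,1,5],226,162), ([1,39,2,1,19,2],3569,6962), ([40,2,1,19,1,1],1310,65), ([1,1,1,3,1,4,2,2,1,1,4,1],4653,5975), ([4,2,5,10,1,8],3925,1762), ([1,1,19,1,2,9,1,3],1079,1106), ([2,19,1,2,9,1,2,1],3802,3709), ([1,3,2,5,10,1,7,1],956,1485),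 ([1,25,2,2,1,12,2],1545,2974), ([26,2,2,1,12,1,1],3342,253), ([2,1,1,1,8,4,3,5],1802,1358), ([1,1,1,1,1,8,4,3,4,1],3085,3847), ([1,2,4,1,1,1,3,9,1,2],4776,6582), ([1,2,1,9,2,1,4,2,1,2],934,1390), ([3,1,9,2,1,4,2,1,1,1],3955,2027), ([3,4,1,1,1,3,9,1,1,1],113,71)]
theorem r119 : rgV L119 4871 13 = true := by decide +kernel
theorem f119 : ∀ p ∈ L119, fam (wl p.1) p.2.1 p.2.2 = true := by
  intro p hp
  simp only [L119, List.mem_cons, List.not_mem_nil, or_false] at hp
  rcases hp with rfl | rfl | rfl | rfl | rfl | rfl | rfl | rfl | rfl | rfl | rfl | rfl | rfl | rfl | rfl | rfl | rfl | rfl | rfl | rfl | rfl | rfl | rfl | rfl | rfl | rfl | rfl | rfl | rfl | rfl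
  · exact x119_0
  · exact x119_1
  · exact x119_2
  · exact x119_3
  · exact x119_4
  · exact x119_5
  · exact x119_6
  · exact x119_7
  · exact x119_8
  · exact x119_9
  · exact x119_10
  · exact x119_11
  · exact x119_12
  · exact x119_13
  · exact x119_14
  · exact x119_15
  · exact x119_16
  · exact x119_17
  · exact x119_18
  · exact x119_19
  · exact x119_20
  · exact x119_21
  · exact x119_22
  · exact x119_23
  · exact x119_24
  · exact x119_25
  · exact x119_26
  · exact x119_27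
  · exact x119_28
  · exact x119_29

end Pool.Agent.V5helper47.EV
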