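import Pool.Agent.V5helper47.EV.S2

/-! Search, part of the half words. -/

set_option maxRecDepth 1000000

namespace Pool.Agent.V5helper47.EV

open H419R2 Pool.Agent.N911 Pool.Agent.V5helper47.CN

theorem x120_0 : fam (wl [2,1,4,1,2,5,1,1,1,5]) 1731 1226 = true := by decide +kernel
theorem x120_1 : fam (wl [1,1,2,7,1,2,3,1,2,3]) 4690 5582 = true := by decide +kernel
theorem x120_2 : fam (wl [2,2,7,1,2,3,1,2,2,1]) 205 167 = true := by decide +kernel
theorem x120_3 : fam (wl [1,1,1,4,1,2,5,1,1,1,4,1]) 3164 4089 = true := by decide +kernel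
theorem x120_4 : fam (wl [18,1,2,2,37]) 3986 426 = true := by decide +kernel
theorem x120_5 : fam (wl [1,17,1,2,2,36,1]) 915 1735 = true := by decide +kernel
theorem x120_6 : fam (wl [1,6,1,7,1,3,2,3,2]) 1249 2182 = true := by decide +kernel
theorem x120_7 : fam (wl [7,1,7,1,3,2,3,1,1]) 3662 929 = true := by decide +kernel
theorem x120_8 : fam (wl [1,2,2,5,2,1,2,4,1,2]) 153 218 = true := by decide +kernel
theorem x120_9 : fam (wl [3,2,5,2,1,2,4,1,1,1]) 4758 2753 = true := by decide +kernel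
theorem x120_10 : fam (wl [4,1,1,4,1,10,9]) 4487 1974 = true := by decide +kernel
theorem x120_11 : fam (wl [1,3,1,1,4,1,10,8,1]) 430 673 = true := by decide +kernel
theorem x120_12 : fam (wl [5,2,4,8,1,10]) 3055 1122 = true := by decide +kernel
theorem x120_13 : fam (wl [1,1,1,2,4,1,2,2,5,3]) 4574 5746 = true := by decide +kernel
theorem x120_14 : fam (wl [2,1,2,4,1,2,2,5,2,1]) 347 259 = true := by decide +kernel
theorem x120_15 : fam (wl [1,4,2,4,8,1,9,1]) 1866 3049 = true := by decide +kernel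
theorem x120_16 : fam (wl [28,1,2,57]) 258 18 = true := by decide +kernel
theorem x120_17 : fam (wl [1,27,1,2,56,1]) 4671 9019 = true := by decide +kernel
theorem x120_18 : fam (wl [2,1,4,4,1,1,1,1,1,1,5]) 1345 958 = true := by decide +kernel
theorem x120_19 : fam (wl [1,1,1,4,4,1,1,1,1,1,1,4,1]) 3590 4625 = true := by decide +kernel
theorem x120_20 : fam (wl [3,6,1,2,1,2,3,6]) 2673 1698 = true := by decide +kernel
theorem x120_21 : fam (wl [1,2,6,1,2,1,2,3,5,1]) 2262 3089 = true := by decide +kernel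
theorem x120_22 : fam (wl [2,2,5,2,1,10,1,4]) 1108 902 = true := by decide +kernel
theorem x120_23 : fam (wl [1,6,2,4,2,4,3,2]) 1299 2250 = true := by decide +kernel
theorem x120_24 : fam (wl [7,2,4,2,4,3,1,1]) 3638 977 = true := by decide +kernel
theorem x120_25 : fam (wl [1,1,2,5,2,1,10,1,3,1]) 3829 4543 = true := by decide +kernel
theorem x120_26 : fam (wl [7,9,1,4,14]) 2720 766 = true := by decide +kernel
theorem x120_27 : fam (wl [1,6,9,1,4,13,1]) 2221 3819 = true := by decide +kernel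
/-- words with first entry from 4897 to 4945 -/
def L120 : List (List ℕ × ℕ × ℕ) := [([2,1,4,1,2,5,1,1,1,5],1731,1226), ([1,1,2,7,1,2,3,1,2,3],4690,5582), ([2,2,7,1,2,3,1,2,2,1],205,167), ([1,1,1,4,1,2,5,1,1,1,4,1],3164,4089), ([18,1,2,2,37],3986,426), ([1,17,1,2,2,36,1],915,1735), ([1,6,1,7,1,3,2,3,2],1249,2182), ([7,1,7,1,3,2,3,1,1],3662,929), ([1,2,2,5,2,1,2,4,1,2],153,218), ([3,2,5,2,1,2,4,1,1,1],4758,2753), ([4,1,1,4,1,10,9],4487,1974), ([1,3,1,1,4,1,10,8,1],430,673), ([5,2,4,8,1,10],3055,1122), ([1,1,1,2,4,1,2,2,5,3],4574,5746), ([2,1,2,4,1,2,2,5,2,1],347,259), ([1,4,2,4,8,1,9,1],1866,3049), ([28,1,2,57],258,18), ([1,27,1,2,56,1],4671,9019), ([2,1,4,4,1,1,1,1,1,1,5],1345,958), ([1,1,1,4,4,1,1,1,1,1,1,4,1],3590,4625), ([3,6,1,2,1,2,3,6],2673,1698), ([1,2,6,1,2,1,2,3,5,1],2262,3089), ([2,2,5,2,1,10,1,4],1108,902), ([1,6,2,4,2,4,3,2],1299,2250), ([7,2,4,2,4,3,1,1],3638,977), ([1,1,2,5,2,1,10,1,3,1],3829,4543), ([7,9,1,4,14],2720,766), ([1,6,9,1,4,13,1],2221,3819)]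
theorem r120 : rgV L120 4897 25 = true := by decide +kernel
theorem f120 : ∀ p ∈ L120, fam (wl p.1) p.2.1 p.2.2 = true := by
  intro p hp
  simp only [L120, List.mem_cons, List.not_mem_nil, or_false] at hp
  rcases hp with rfl | rfl | rfl | rfl | rfl | rfl | rfl | rfl | rfl | rfl | rfl | rfl | rfl | rfl | rfl | rfl | rfl | rfl | rfl | rfl | rfl | rfl | rfl | rfl | rfl | rfl | rfl | rfl
  · exact x120_0
  · exact x120_1
  · exact x120_2
  · exact x120_3
  · exact x120_4
  · exact x120_5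
  · exact x120_6
  · exact x120_7
  · exact x120_8
  · exact x120_9
  · exact x120_10
  · exact x120_11
  · exact x120_12
  · exact x120_13
  · exact x120_14
  · exact x120_15
  · exact x120_16
  · exact x120_17
  · exact x120_18
  · exact x120_19
  · exact x120_20
  · exact x120_21
  · exact x120_22
  · exact x120_23
  · exact x120_24
  · exact x120_25
  · exact x120_26
  · exact x120_27

end Pool.Agent.V5helper47.EV
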