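import Pool.Agent.V5helper47.EV.S2

/-! Search, part of the half words. -/

set_option maxRecDepth 1000000

namespace Pool.Agent.V5helper47.EV

open H419R2 Pool.Agent.N911 Pool.Agent.V5helper47.CN

theorem x121_0 : fam (wl [3,2,3,1,2,7,1,6]) 1861 1082 = true := by decide +kernel
theorem x121_1 : fam (wl [3,2,1,3,2,1,1,2,1,6]) 2880 1714 = true := by decide +kernel
theorem x121_2 : fam (wl [2,1,2,2,3,1,1,2,2,5]) 967 714 = true := by decide +kernel
theorem x121_3 : fam (wl [1,22,2,4,11,2]) 761 1458 = true := by decide +kernel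
theorem x121_4 : fam (wl [23,2,4,11,1,1]) 4184 357 = true := by decide +kernel
theorem x121_5 : fam (wl [1,1,1,2,2,3,1,1,2,2,4,1]) 3978 5021 = true := by decide +kernel
theorem x121_6 : fam (wl [1,2,2,1,3,2,1,1,2,1,5,1]) 2065 2903 = true := by decide +kernel
theorem x121_7 : fam (wl [1,2,2,3,1,2,7,1,5,1]) 3084 4377 = true := by decide +kernel
theorem x121_8 : fam (wl [1,6,6,1,13,3,2]) 3189 5486 = true := by decide +kernel
theorem x121_9 : fam (wl [7,6,1,13,3,1,1]) 1760 493 = true := by decide +kernel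
theorem x121_10 : fam (wl [2,1,2,2,1,1,3,2,2,5]) 3281 2426 = true := by decide +kernel
theorem x121_11 : fam (wl [1,8,1,6,3,2,4,2]) 4748 8534 = true := by decide +kernel
theorem x121_12 : fam (wl [9,1,6,3,2,4,1,1]) 211 43 = true := by decide +kernel
theorem x121_13 : fam (wl [1,1,1,2,2,1,1,3,2,2,4,1]) 1678 2117 = true := by decide +kernel
theorem x121_14 : fam (wl [10,2,1,1,3,1,20]) 4437 854 = true := by decide +kernel
theorem x121_15 : fam (wl [1,9,2,1,1,3,1,19,1]) 528 957 = true := by decide +kernel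
theorem x121_16 : fam (wl [5,1,10,1,4,1,11]) 4963 1678 = true := by decide +kernel
theorem x121_17 : fam (wl [1,4,1,10,1,4,1,10,1]) 4 9 = true := by decide +kernel
theorem x121_18 : fam (wl [9,1,1,2,5,19]) 2024 422 = true := by decide +kernel
theorem x121_19 : fam (wl [1,8,1,1,2,5,18,1]) 2943 5275 = true := by decide +kernel
theorem x121_20 : fam (wl [3,3,1,3,7,1,1,6]) 3328 2038 = true := by decide +kernel
theorem x121_21 : fam (wl [2,1,3,2,2,1,4,1,1,5]) 1090 786 = true := by decide +kernel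
theorem x121_22 : fam (wl [1,1,1,3,2,2,1,4,1,1,4,1]) 3879 4963 = true := by decide +kernel
theorem x121_23 : fam (wl [1,2,3,1,3,7,1,1,5,1]) 1641 2279 = true := by decide +kernel
theorem x121_24 : fam (wl [6,1,1,1,1,2,4,13]) 1541 466 = true := by decide +kernel
theorem x121_25 : fam (wl [1,5,1,1,1,1,2,4,12,1]) 3444 5849 = true := by decide +kernel
/-- words with first entry from 4947 to 4989 -/
def L121 : List (List ℕ × ℕ × ℕ) := [([3,2,3,1,2,7,1,6],1861,1082), ([3,2,1,3,2,1,1,2,1,6],2880,1714), ([2,1,2,2,3,1,1,2,2,5],967,714), ([1,22,2,4,11,2],761,1458), ([23,2,4,11,1,1],4184,357), ([1,1,1,2,2,3,1,1,2,2,4,1],3978,5021), ([1,2,2,1,3,2,1,1,2,1,5,1],2065,2903), ([1,2,2,3,1,2,7,1,5,1],3084,4377), ([1,6,6,1,13,3,2],3189,5486), ([7,6,1,13,3,1,1],1760,493), ([2,1,2,2,1,1,3,2,2,5],3281,2426), ([1,8,1,6,3,2,4,2],4748,8534), ([9,1,6,3,2,4,1,1],211,43), ([1,1,1,2,2,1,1,3,2,2,4,1],1678,2117), ([10,2,1,1,3,1,20],4437,854), ([1,9,2,1,1,3,1,19,1],528,957), ([5,1,10,1,4,1,11],4963,1678),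 ([1,4,1,10,1,4,1,10,1],4,9), ([9,1,1,2,5,19],2024,422), ([1,8,1,1,2,5,18,1],2943,5275), ([3,3,1,3,7,1,1,6],3328,2038), ([2,1,3,2,2,1,4,1,1,5],1090,786), ([1,1,1,3,2,2,1,4,1,1,4,1],3879,4963), ([1,2,3,1,3,7,1,1,5,1],1641,2279), ([6,1,1,1,1,2,4,13],1541,466), ([1,5,1,1,1,1,2,4,12,1],3444,5849)]
theorem r121 : rgV L121 4947 22 = true := by decide +kernel
theorem f121 : ∀ p ∈ L121, fam (wl p.1) p.2.1 p.2.2 = true := by
  intro p hp
  simp only [L121, List.mem_cons, List.not_mem_nil, or_false] at hp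
  rcases hp with rfl | rfl | rfl | rfl | rfl | rfl | rfl | rfl | rfl | rfl | rfl | rfl | rfl | rfl | rfl | rfl | rfl | rfl | rfl | rfl | rfl | rfl | rfl | rfl | rfl | rfl
  · exact x121_0
  · exact x121_1
  · exact x121_2
  · exact x121_3
  · exact x121_4
  · exact x121_5
  · exact x121_6
  · exact x121_7
  · exact x121_8
  · exact x121_9
  · exact x121_10
  · exact x121_11
  · exact x121_12
  · exact x121_13
  · exact x121_14
  · exact x121_15
  · exact x121_16
  · exact x121_17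
  · exact x121_18
  · exact x121_19
  · exact x121_20
  · exact x121_21
  · exact x121_22
  · exact x121_23
  · exact x121_24
  · exact x121_25

end Pool.Agent.V5helper47.EV
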