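import Pool.Agent.V5helper47.EV.S2

/-! Search, part of the half words. -/

set_option maxRecDepth 1000000

namespace Pool.Agent.V5helper47.EV

open H419R2 Pool.Agent.N911 Pool.Agent.V5helper47.CN

theorem x122_0 : fam (wl [5,13,1,6,10]) 2186 862 = true := by decide +kernel
theorem x122_1 : fam (wl [2,1,1,1,1,4,1,1,1,4,5]) 3142 2410 = true := by decide +kernel
theorem x122_2 : fam (wl [1,1,1,15,1,32,3]) 1480 1954 = true := by decide +kernel
theorem x122_3 : fam (wl [1,3,6,2,2,1,2,1,1,1,2]) 3172 4818 = true := by decide +kernel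
theorem x122_4 : fam (wl [4,6,2,2,1,2,1,1,1,1,1]) 1817 875 = true := by decide +kernel
theorem x122_5 : fam (wl [2,1,15,1,32,2,1]) 3509 2387 = true := by decide +kernel
theorem x122_6 : fam (wl [1,1,1,1,1,1,4,1,1,1,4,4,1]) 1847 2279 = true := by decide +kernel
theorem x122_7 : fam (wl [1,4,13,1,6,9,1]) 2803 4503 = true := by decide +kernel
theorem x122_8 : fam (wl [3,8,1,1,3,4,6]) 3849 2470 = true := by decide +kernel
theorem x122_9 : fam (wl [1,2,8,1,1,3,4,5,1]) 1142 1553 = true := by decide +kernel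
theorem x122_10 : fam (wl [1,2,3,1,2,2,2,7,1,2]) 2718 3774 = true := by decide +kernel
theorem x122_11 : fam (wl [3,3,1,2,2,2,7,1,1,1]) 2273 1391 = true := by decide +kernel
theorem x122_12 : fam (wl [49,1,99]) 4949 198 = true := by decide +kernel
theorem x122_13 : fam (wl [1,48,1,98,1]) 48 97 = true := by decide +kernel
theorem x122_14 : fam (wl [50,100]) 50 2 = true := by decide +kernel
theorem x122_15 : fam (wl [1,2,5,4,2,10,1,2]) 3939 5410 = true := by decide +kernel
theorem x122_16 : fam (wl [3,5,4,2,10,1,1,1]) 1060 665 = true := by decide +kernel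
theorem x122_17 : fam (wl [1,49,99,1]) 4949 9703 = true := by decide +kernel
theorem x122_18 : fam (wl [1,1,1,3,6,3,7,3]) 1143 1458 = true := by decide +kernel
theorem x122_19 : fam (wl [2,1,3,6,3,7,2,1]) 3858 2797 = true := by decide +kernel
theorem x122_20 : fam (wl [3,1,16,1,7,1,7]) 2954 1498 = true := by decide +kernel
theorem x122_21 : fam (wl [1,2,1,16,1,7,1,6,1]) 2053 3067 = true := by decide +kernel
theorem x122_22 : fam (wl [1,1,1,16,33,3]) 183 242 = true := by decide +kernel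
theorem x122_23 : fam (wl [2,1,16,33,2,1]) 4824 3281 = true := by decide +kernel
theorem x122_24 : fam (wl [1,1,1,4,2,1,2,1,9,3]) 2530 3262 = true := by decide +kernel
theorem x122_25 : fam (wl [2,1,4,2,1,2,1,9,2,1]) 2479 1763 = true := by decide +kernel
theorem x122_26 : fam (wl [2,1,22,1,10,1,5]) 2464 1666 = true := by decide +kernel
theorem x122_27 : fam (wl [1,1,1,22,1,10,1,4,1]) 2557 3387 = true := by decide +kernel
/-- words with first entry from 4991 to 5025 -/
def L122 : List (List ℕ × ℕ × ℕ) := [([5,13,1,6,10],2186,862), ([2,1,1,1,1,4,1,1,1,4,5],3142,2410), ([1,1,1,15,1,32,3],1480,1954), ([1,3,6,2,2,1,2,1,1,1,2],3172,4818), ([4,6,2,2,1,2,1,1,1,1,1],1817,875), ([2,1,15,1,32,2,1],3509,2387), ([1,1,1,1,1,1,4,1,1,1,4,4,1],1847,2279), ([1,4,13,1,6,9,1],2803,4503), ([3,8,1,1,3,4,6],3849,2470), ([1,2,8,1,1,3,4,5,1],1142,1553), ([1,2,3,1,2,2,2,7,1,2],2718,3774), ([3,3,1,2,2,2,7,1,1,1],2273,1391), ([49,1,99],4949,198), ([1,48,1,98,1],48,97), ([50,100],50,2), ([1,2,5,4,2,10,1,2],3939,5410),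 ([3,5,4,2,10,1,1,1],1060,665), ([1,49,99,1],4949,9703), ([1,1,1,3,6,3,7,3],1143,1458), ([2,1,3,6,3,7,2,1],3858,2797), ([3,1,16,1,7,1,7],2954,1498), ([1,2,1,16,1,7,1,6,1],2053,3067), ([1,1,1,16,33,3],183,242), ([2,1,16,33,2,1],4824,3281), ([1,1,1,4,2,1,2,1,9,3],2530,3262), ([2,1,4,2,1,2,1,9,2,1],2479,1763), ([2,1,22,1,10,1,5],2464,1666), ([1,1,1,22,1,10,1,4,1],2557,3387)]
theorem r122 : rgV L122 4991 18 = true := by decide +kernel
theorem f122 : ∀ p ∈ L122, fam (wl p.1) p.2.1 p.2.2 = true := by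
  intro p hp
  simp only [L122, List.mem_cons, List.not_mem_nil, or_false] at hp
  rcases hp with rfl | rfl | rfl | rfl | rfl | rfl | rfl | rfl | rfl | rfl | rfl | rfl | rfl | rfl | rfl | rfl | rfl | rfl | rfl | rfl | rfl | rfl | rfl | rfl | rfl | rfl | rfl | rfl
  · exact x122_0
  · exact x122_1
  · exact x122_2
  · exact x122_3
  · exact x122_4
  · exact x122_5
  · exact x122_6
  · exact x122_7
  · exact x122_8
  · exact x122_9
  · exact x122_10
  · exact x122_11
  · exact x122_12
  · exact x122_13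
  · exact x122_14
  · exact x122_15
  · exact x122_16
  · exact x122_17
  · exact x122_18
  · exact x122_19
  · exact x122_20
  · exact x122_21
  · exact x122_22
  · exact x122_23
  · exact x122_24
  · exact x122_25
  · exact x122_26
  · exact x122_27

end Pool.Agent.V5helper47.EV
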