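import Pool.Agent.V5helper47.EV.S2

/-! Search, part of the half words. -/

set_option maxRecDepth 1000000

namespace Pool.Agent.V5helper47.EV

open H419R2 Pool.Agent.N911 Pool.Agent.V5helper47.CN

theorem x123_0 : fam (wl [3,1,3,3,6,1,1,7]) 2438 1294 = true := by decide +kernel
theorem x123_1 : fam (wl [1,4,1,2,1,2,1,2,1,2,2,2]) 386 638 = true := by decide +kernel
theorem x123_2 : fam (wl [5,1,2,1,2,1,2,1,2,2,1,1]) 4639 1619 = true := by decide +kernel
theorem x123_3 : fam (wl [1,2,1,3,3,6,1,1,6,1]) 2587 3803 = true := by decide +kernel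
theorem x123_4 : fam (wl [1,1,34,1,16,1,3]) 4873 4942 = true := by decide +kernel
theorem x123_5 : fam (wl [1,11,1,2,1,6,1,5,2]) 1802 3322 = true := by decide +kernel
theorem x123_6 : fam (wl [12,1,2,1,6,1,5,1,1]) 3229 507 = true := by decide +kernel
theorem x123_7 : fam (wl [2,34,1,16,1,2,1]) 158 157 = true := by decide +kernel
theorem x123_8 : fam (wl [1,69,1,34,2]) 3796 7486 = true := by decide +kernel
theorem x123_9 : fam (wl [70,1,34,1,1]) 1241 35 = true := by decide +kernel
theorem x123_10 : fam (wl [12,5,1,2,24]) 1522 250 = true := by decide +kernel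
theorem x123_11 : fam (wl [1,11,5,1,2,23,1]) 3517 6459 = true := by decide +kernel
theorem x123_12 : fam (wl [3,7,1,1,3,1,3,6]) 122 78 = true := by decide +kernel
theorem x123_13 : fam (wl [1,70,35,2]) 1242 2450 = true := by decide +kernel
theorem x123_14 : fam (wl [71,35,1,1]) 3799 107 = true := by decide +kernel
theorem x123_15 : fam (wl [1,2,7,1,1,3,1,3,5,1]) 4919 6699 = true := by decide +kernel
theorem x123_16 : fam (wl [4,1,2,1,1,1,4,2,9]) 222 94 = true := by decide +kernel
theorem x123_17 : fam (wl [3,2,2,3,1,1,4,1,6]) 924 542 = true := by decide +kernel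
theorem x123_18 : fam (wl [1,2,2,2,3,1,1,4,1,5,1]) 4121 5827 = true := by decide +kernel
theorem x123_19 : fam (wl [1,3,1,2,1,1,1,4,2,8,1]) 4823 7607 = true := by decide +kernel
theorem x123_20 : fam (wl [3,13,2,1,6,6]) 2100 1366 = true := by decide +kernel
theorem x123_21 : fam (wl [1,1,35,17,1,3]) 2684 2722 = true := by decide +kernel
theorem x123_22 : fam (wl [1,2,9,2,1,18,1,2]) 3375 4578 = true := by decide +kernel
theorem x123_23 : fam (wl [1,6,7,14,3,2]) 3959 6810 = true := by decide +kernel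
theorem x123_24 : fam (wl [7,7,14,3,1,1]) 1088 305 = true := by decide +kernel
theorem x123_25 : fam (wl [3,9,2,1,18,1,1,1]) 1672 1077 = true := by decide +kernel
theorem x123_26 : fam (wl [2,35,17,1,2,1]) 2363 2331 = true := by decide +kernel
theorem x123_27 : fam (wl [1,2,13,2,1,6,5,1]) 2947 3979 = true := by decide +kernel
theorem x123_28 : fam (wl [3,5,2,2,2,1,2,6]) 468 294 = true := by decide +kernel
theorem x123_29 : fam (wl [1,2,5,2,2,2,1,2,5,1]) 4581 6287 = true := by decide +kernel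
/-- words with first entry from 5027 to 5057 -/
def L123 : List (List ℕ × ℕ × ℕ) := [([3,1,3,3,6,1,1,7],2438,1294), ([1,4,1,2,1,2,1,2,1,2,2,2],386,638), ([5,1,2,1,2,1,2,1,2,2,1,1],4639,1619), ([1,2,1,3,3,6,1,1,6,1],2587,3803), ([1,1,34,1,16,1,3],4873,4942), ([1,11,1,2,1,6,1,5,2],1802,3322), ([12,1,2,1,6,1,5,1,1],3229,507), ([2,34,1,16,1,2,1],158,157), ([1,69,1,34,2],3796,7486), ([70,1,34,1,1],1241,35), ([12,5,1,2,24],1522,250), ([1,11,5,1,2,23,1],3517,6459), ([3,7,1,1,3,1,3,6],122,78), ([1,70,35,2],1242,2450), ([71,35,1,1],3799,107), ([1,2,7,1,1,3,1,3,5,1],4919,6699), ([4,1,2,1,1,1,4,2,9],222,94), ([3,2,2,3,1,1,4,1,6],924,542), ([1,2,2,2,3,1,1,4,1,5,1],4121,5827), ([1,3,1,2,1,1,1,4,2,8,1],4823,7607), ([3,13,2,1,6,6],2100,1366), ([1,1,35,17,1,3],2684,2722), ([1,2,9,2,1,18,1,2],3375,4578), ([1,6,7,14,3,2],3959,6810), ([7,7,14,3,1,1],1088,305), ([3,9,2,1,18,1,1,1],1672,1077), ([2,35,17,1,2,1],2363,2331), ([1,2,13,2,1,6,5,1],2947,3979), ([3,5,2,2,2,1,2,6],468,294), ([1,2,5,2,2,2,1,2,5,1],4581,6287)]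
theorem r123 : rgV L123 5027 16 = true := by decide +kernel
theorem f123 : ∀ p ∈ L123, fam (wl p.1) p.2.1 p.2.2 = true := by
  intro p hp
  simp only [L123, List.mem_cons, List.not_mem_nil, or_false] at hp
  rcases hp with rfl | rfl | rfl | rfl | rfl | rfl | rfl | rfl | rfl | rfl | rfl | rfl | rfl | rfl | rfl | rfl | rfl | rfl | rfl | rfl | rfl | rfl | rfl | rfl | rfl | rfl | rfl | rfl | rfl | rfl
  · exact x123_0
  · exact x123_1
  · exact x123_2
  · exact x123_3
  · exact x123_4
  · exact x123_5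
  · exact x123_6
  · exact x123_7
  · exact x123_8
  · exact x123_9
  · exact x123_10
  · exact x123_11
  · exact x123_12
  · exact x123_13
  · exact x123_14
  · exact x123_15
  · exact x123_16
  · exact x123_17
  · exact x123_18
  · exact x123_19
  · exact x123_20
  · exact x123_21
  · exact x123_22
  · exact x123_23
  · exact x123_24
  · exact x123_25
  · exact x123_26
  · exact x123_27
  · exact x123_28
  · exact x123_29

end Pool.Agent.V5helper47.EV
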