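import Pool.Agent.V5helper47.EV.T7
import Pool.Agent.V5helper47.EV.W083
import Pool.Agent.V5helper47.EV.W084
import Pool.Agent.V5helper47.EV.W085
import Pool.Agent.V5helper47.EV.W086
import Pool.Agent.V5helper47.EV.W087
import Pool.Agent.V5helper47.EV.W088
import Pool.Agent.V5helper47.EV.W089
import Pool.Agent.V5helper47.EV.W090
import Pool.Agent.V5helper47.EV.W091
import Pool.Agent.V5helper47.EV.W092
import Pool.Agent.V5helper47.EV.W093
import Pool.Agent.V5helper47.EV.W094
import Pool.Agent.V5helper47.EV.W095
import Pool.Agent.V5helper47.EV.W096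
import Pool.Agent.V5helper47.EV.W097
import Pool.Agent.V5helper47.EV.W098
import Pool.Agent.V5helper47.EV.W099
import Pool.Agent.V5helper47.EV.W100
import Pool.Agent.V5helper47.EV.W101
import Pool.Agent.V5helper47.EV.W102
import Pool.Agent.V5helper47.EV.W103
import Pool.Agent.V5helper47.EV.W104
import Pool.Agent.V5helper47.EV.W105
import Pool.Agent.V5helper47.EV.W106
import Pool.Agent.V5helper47.EV.W107
import Pool.Agent.V5helper47.EV.W108
import Pool.Agent.V5helper47.EV.W109
import Pool.Agent.V5helper47.EV.W110
import Pool.Agent.V5helper47.EV.W111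
import Pool.Agent.V5helper47.EV.W112
import Pool.Agent.V5helper47.EV.W113
import Pool.Agent.V5helper47.EV.W114
import Pool.Agent.V5helper47.EV.W115
import Pool.Agent.V5helper47.EV.W116
import Pool.Agent.V5helper47.EV.W117
import Pool.Agent.V5helper47.EV.W118
import Pool.Agent.V5helper47.EV.W119
import Pool.Agent.V5helper47.EV.W120
import Pool.Agent.V5helper47.EV.W121
import Pool.Agent.V5helper47.EV.W122
import Pool.Agent.V5helper47.EV.W123

/-! Half words, part of the range. -/

set_option maxRecDepth 1000000

namespace Pool.Agent.V5helper47.EV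

open H419R2 Pool.Agent.N911 Pool.Agent.V5helper47.CN

theorem full_3 {w : WL} (hw : w.Pos) (h0 : 3391 ≤ (mat w).1) (hB : (mat w).1 ≤ 5058)
    (hodd : (mat w).1 % 2 = 1)
    (hval : ∃ b m, b * (mat w).1 + 2 * (mat w).2.1 = m * (mat w).1 + (mat w).2.2.1) :
    ∃ b0 P0, fam w b0 P0 = true := by
  by_cases g0 : (mat w).1 ≤ 3430
  · exact fam_of_range r083 f083 hw (by norm_num) (by norm_num) (by omega) (by omega) hodd hval
  by_cases g1 : (mat w).1 ≤ 3472
  · exact fam_of_range r084 f084 hw (by norm_num) (by norm_num) (by omega) (by omega) hodd hval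
  by_cases g2 : (mat w).1 ≤ 3512
  · exact fam_of_range r085 f085 hw (by norm_num) (by norm_num) (by omega) (by omega) hodd hval
  by_cases g3 : (mat w).1 ≤ 3552
  · exact fam_of_range r086 f086 hw (by norm_num) (by norm_num) (by omega) (by omega) hodd hval
  by_cases g4 : (mat w).1 ≤ 3586
  · exact fam_of_range r087 f087 hw (by norm_num) (by norm_num) (by omega) (by omega) hodd hval
  by_cases g5 : (mat w).1 ≤ 3642
  · exact fam_of_range r088 f088 hw (by norm_num) (by norm_num) (by omega) (by omega) hodd hval
  by_cases g6 : (mat w).1 ≤ 3680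
  · exact fam_of_range r089 f089 hw (by norm_num) (by norm_num) (by omega) (by omega) hodd hval
  by_cases g7 : (mat w).1 ≤ 3712
  · exact fam_of_range r090 f090 hw (by norm_num) (by norm_num) (by omega) (by omega) hodd hval
  by_cases g8 : (mat w).1 ≤ 3752
  · exact fam_of_range r091 f091 hw (by norm_num) (by norm_num) (by omega) (by omega) hodd hval
  by_cases g9 : (mat w).1 ≤ 3792
  · exact fam_of_range r092 f092 hw (by norm_num) (by norm_num) (by omega) (by omega) hodd hval
  by_cases g10 : (mat w).1 ≤ 3840
  · exact fam_of_range r093 f093 hw (by norm_num) (by norm_num) (by omega) (by omega) hodd hval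
  by_cases g11 : (mat w).1 ≤ 3880
  · exact fam_of_range r094 f094 hw (by norm_num) (by norm_num) (by omega) (by omega) hodd hval
  by_cases g12 : (mat w).1 ≤ 3922
  · exact fam_of_range r095 f095 hw (by norm_num) (by norm_num) (by omega) (by omega) hodd hval
  by_cases g13 : (mat w).1 ≤ 3962
  · exact fam_of_range r096 f096 hw (by norm_num) (by norm_num) (by omega) (by omega) hodd hval
  by_cases g14 : (mat w).1 ≤ 4000
  · exact fam_of_range r097 f097 hw (by norm_num) (by norm_num) (by omega) (by omega) hodd hval
  by_cases g15 : (mat w).1 ≤ 4056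
  · exact fam_of_range r098 f098 hw (by norm_num) (by norm_num) (by omega) (by omega) hodd hval
  by_cases g16 : (mat w).1 ≤ 4096
  · exact fam_of_range r099 f099 hw (by norm_num) (by norm_num) (by omega) (by omega) hodd hval
  by_cases g17 : (mat w).1 ≤ 4150
  · exact fam_of_range r100 f100 hw (by norm_num) (by norm_num) (by omega) (by omega) hodd hval
  by_cases g18 : (mat w).1 ≤ 4182
  · exact fam_of_range r101 f101 hw (by norm_num) (by norm_num) (by omega) (by omega) hodd hval
  by_cases g19 : (mat w).1 ≤ 4222
  · exact fam_of_range r102 f102 hw (by norm_num) (by norm_num) (by omega) (by omega) hodd hval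
  by_cases g20 : (mat w).1 ≤ 4248
  · exact fam_of_range r103 f103 hw (by norm_num) (by norm_num) (by omega) (by omega) hodd hval
  by_cases g21 : (mat w).1 ≤ 4288
  · exact fam_of_range r104 f104 hw (by norm_num) (by norm_num) (by omega) (by omega) hodd hval
  by_cases g22 : (mat w).1 ≤ 4322
  · exact fam_of_range r105 f105 hw (by norm_num) (by norm_num) (by omega) (by omega) hodd hval
  by_cases g23 : (mat w).1 ≤ 4368
  · exact fam_of_range r106 f106 hw (by norm_num) (by norm_num) (by omega) (by omega) hodd hval
  by_cases g24 : (mat w).1 ≤ 4410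
  · exact fam_of_range r107 f107 hw (by norm_num) (by norm_num) (by omega) (by omega) hodd hval
  by_cases g25 : (mat w).1 ≤ 4446
  · exact fam_of_range r108 f108 hw (by norm_num) (by norm_num) (by omega) (by omega) hodd hval
  by_cases g26 : (mat w).1 ≤ 4486
  · exact fam_of_range r109 f109 hw (by norm_num) (by norm_num) (by omega) (by omega) hodd hval
  by_cases g27 : (mat w).1 ≤ 4520
  · exact fam_of_range r110 f110 hw (by norm_num) (by norm_num) (by omega) (by omega) hodd hval
  by_cases g28 : (mat w).1 ≤ 4560
  · exact fam_of_range r111 f111 hw (by norm_num) (by norm_num) (by omega) (by omega) hodd hval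
  by_cases g29 : (mat w).1 ≤ 4592
  · exact fam_of_range r112 f112 hw (by norm_num) (by norm_num) (by omega) (by omega) hodd hval
  by_cases g30 : (mat w).1 ≤ 4638
  · exact fam_of_range r113 f113 hw (by norm_num) (by norm_num) (by omega) (by omega) hodd hval
  by_cases g31 : (mat w).1 ≤ 4688
  · exact fam_of_range r114 f114 hw (by norm_num) (by norm_num) (by omega) (by omega) hodd hval
  by_cases g32 : (mat w).1 ≤ 4730
  · exact fam_of_range r115 f115 hw (by norm_num) (by norm_num) (by omega) (by omega) hodd hval
  by_cases g33 : (mat w).1 ≤ 4776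
  · exact fam_of_range r116 f116 hw (by norm_num) (by norm_num) (by omega) (by omega) hodd hval
  by_cases g34 : (mat w).1 ≤ 4810
  · exact fam_of_range r117 f117 hw (by norm_num) (by norm_num) (by omega) (by omega) hodd hval
  by_cases g35 : (mat w).1 ≤ 4870
  · exact fam_of_range r118 f118 hw (by norm_num) (by norm_num) (by omega) (by omega) hodd hval
  by_cases g36 : (mat w).1 ≤ 4896
  · exact fam_of_range r119 f119 hw (by norm_num) (by norm_num) (by omega) (by omega) hodd hval
  by_cases g37 : (mat w).1 ≤ 4946
  · exact fam_of_range r120 f120 hw (by norm_num) (by norm_num) (by omega) (by omega) hodd hval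
  by_cases g38 : (mat w).1 ≤ 4990
  · exact fam_of_range r121 f121 hw (by norm_num) (by norm_num) (by omega) (by omega) hodd hval
  by_cases g39 : (mat w).1 ≤ 5026
  · exact fam_of_range r122 f122 hw (by norm_num) (by norm_num) (by omega) (by omega) hodd hval
  exact fam_of_range r123 f123 hw (by norm_num) (by norm_num) (by omega) (by omega) hodd hval

end Pool.Agent.V5helper47.EV
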