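import Pool.Agent.V5helper47.EV.S2

/-! Search, part of the half words. -/

set_option maxRecDepth 1000000

namespace Pool.Agent.V5helper47.EV

open H419R2 Pool.Agent.N911 Pool.Agent.V5helper47.CN

theorem x124_0 : fam (wl [2,1,23,11,1,5]) 4263 2882 = true := by decide +kernel
theorem x124_1 : fam (wl [1,1,1,23,11,1,4,1]) 794 1053 = true := by decide +kernel
theorem x124_2 : fam (wl [16,1,3,1,1,33]) 1359 162 = true := by decide +kernel
theorem x124_3 : fam (wl [6,6,1,2,3,12]) 2269 738 = true := by decide +kernel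
theorem x124_4 : fam (wl [1,5,6,1,2,3,11,1]) 2796 4685 = true := by decide +kernel
theorem x124_5 : fam (wl [1,15,1,3,1,1,32,1]) 3706 6973 = true := by decide +kernel
theorem x124_6 : fam (wl [4,1,1,2,1,2,6,9]) 1085 474 = true := by decide +kernel
theorem x124_7 : fam (wl [3,1,17,8,1,7]) 3349 1698 = true := by decide +kernel
theorem x124_8 : fam (wl [2,2,2,1,1,1,3,5,1,4]) 2287 1890 = true := by decide +kernel
theorem x124_9 : fam (wl [1,7,1,2,2,1,5,1,3,2]) 1648 2918 = true := by decide +kernel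
theorem x124_10 : fam (wl [8,1,2,2,1,5,1,3,1,1]) 3423 787 = true := by decide +kernel
theorem x124_11 : fam (wl [1,1,2,2,1,1,1,3,5,1,3,1]) 2784 3269 = true := by decide +kernel
theorem x124_12 : fam (wl [1,2,1,17,8,1,6,1]) 1722 2573 = true := by decide +kernel
theorem x124_13 : fam (wl [1,3,1,1,2,1,2,6,8,1]) 3986 6233 = true := by decide +kernel
theorem x124_14 : fam (wl [1,2,1,1,1,3,1,8,3,1,2]) 194 282 = true := by decide +kernel
theorem x124_15 : fam (wl [3,1,1,1,3,1,8,3,1,1,1]) 4885 2683 = true := by decide +kernel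
theorem x124_16 : fam (wl [4,1,1,5,11,9]) 2704 1190 = true := by decide +kernel
theorem x124_17 : fam (wl [1,3,1,1,5,11,8,1]) 2375 3707 = true := by decide +kernel
theorem x124_18 : fam (wl [3,1,1,1,5,1,2,3,7]) 4222 2314 = true := by decide +kernel
theorem x124_19 : fam (wl [1,2,1,1,1,5,1,2,3,6,1]) 863 1255 = true := by decide +kernel
theorem x124_20 : fam (wl [2,3,3,1,1,3,1,1,1,1,4]) 440 382 = true := by decide +kernel
theorem x124_21 : fam (wl [1,2,2,3,2,2,1,1,4,1,2]) 3090 4382 = true := by decide +kernel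
theorem x124_22 : fam (wl [3,2,3,2,2,1,1,4,1,1,1]) 1997 1163 = true := by decide +kernel
theorem x124_23 : fam (wl [1,1,3,3,1,1,3,1,1,1,1,3,1]) 4647 5263 = true := by decide +kernel
theorem x124_24 : fam (wl [5,14,7,10]) 3879 1530 = true := by decide +kernel
theorem x124_25 : fam (wl [2,7,1,2,5,1,3,4]) 3474 3262 = true := by decide +kernel
theorem x124_26 : fam (wl [1,1,7,1,2,5,1,3,3,1]) 1615 1715 = true := by decide +kernel
theorem x124_27 : fam (wl [1,4,14,7,9,1]) 1210 1945 = true := by decide +kernel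
/-- words with first entry from 5059 to 5095 -/
def L124 : List (List ℕ × ℕ × ℕ) := [([2,1,23,11,1,5],4263,2882), ([1,1,1,23,11,1,4,1],794,1053), ([16,1,3,1,1,33],1359,162), ([6,6,1,2,3,12],2269,738), ([1,5,6,1,2,3,11,1],2796,4685), ([1,15,1,3,1,1,32,1],3706,6973), ([4,1,1,2,1,2,6,9],1085,474), ([3,1,17,8,1,7],3349,1698), ([2,2,2,1,1,1,3,5,1,4],2287,1890), ([1,7,1,2,2,1,5,1,3,2],1648,2918), ([8,1,2,2,1,5,1,3,1,1],3423,787), ([1,1,2,2,1,1,1,3,5,1,3,1],2784,3269), ([1,2,1,17,8,1,6,1],1722,2573), ([1,3,1,1,2,1,2,6,8,1],3986,6233), ([1,2,1,1,1,3,1,8,3,1,2],194,282), ([3,1,1,1,3,1,8,3,1,1,1],4885,2683), ([4,1,1,5,11,9],2704,1190), ([1,3,1,1,5,11,8,1],2375,3707), ([3,1,1,1,5,1,2,3,7],4222,2314), ([1,2,1,1,1,5,1,2,3,6,1],863,1255), ([2,3,3,1,1,3,1,1,1,1,4],440,382), ([1,2,2,3,2,2,1,1,4,1,2],3090,4382), ([3,2,3,2,2,1,1,4,1,1,1],1997,1163), ([1,1,3,3,1,1,3,1,1,1,1,3,1],4647,5263), ([5,14,7,10],3879,1530), ([2,7,1,2,5,1,3,4],3474,3262), ([1,1,7,1,2,5,1,3,3,1],1615,1715),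 ([1,4,14,7,9,1],1210,1945)]
theorem r124 : rgV L124 5059 19 = true := by decide +kernel
theorem f124 : ∀ p ∈ L124, fam (wl p.1) p.2.1 p.2.2 = true := by
  intro p hp
  simp only [L124, List.mem_cons, List.not_mem_nil, or_false] at hp
  rcases hp with rfl | rfl | rfl | rfl | rfl | rfl | rfl | rfl | rfl | rfl | rfl | rfl | rfl | rfl | rfl | rfl | rfl | rfl | rfl | rfl | rfl | rfl | rfl | rfl | rfl | rfl | rfl | rfl
  · exact x124_0
  · exact x124_1
  · exact x124_2
  · exact x124_3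
  · exact x124_4
  · exact x124_5
  · exact x124_6
  · exact x124_7
  · exact x124_8
  · exact x124_9
  · exact x124_10
  · exact x124_11
  · exact x124_12
  · exact x124_13
  · exact x124_14
  · exact x124_15
  · exact x124_16
  · exact x124_17
  · exact x124_18
  · exact x124_19
  · exact x124_20
  · exact x124_21
  · exact x124_22
  · exact x124_23
  · exact x124_24
  · exact x124_25
  · exact x124_26
  · exact x124_27

end Pool.Agent.V5helper47.EV
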