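import Pool.Agent.V5helper47.EV.S2

/-! Search, part of the half words. -/

set_option maxRecDepth 1000000

namespace Pool.Agent.V5helper47.EV

open H419R2 Pool.Agent.N911 Pool.Agent.V5helper47.CN

theorem x125_0 : fam (wl [8,1,3,1,2,1,1,17]) 4473 1018 = true := by decide +kernel
theorem x125_1 : fam (wl [1,1,4,4,2,1,1,1,1,1,1,3]) 1756 1942 = true := by decide +kernel
theorem x125_2 : fam (wl [2,4,4,2,1,1,1,1,1,1,2,1]) 3339 2987 = true := by decide +kernel
theorem x125_3 : fam (wl [1,7,1,3,1,2,1,1,16,1]) 622 1105 = true := by decide +kernel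
theorem x125_4 : fam (wl [4,3,5,2,1,1,1,8]) 4482 2078 = true := by decide +kernel
theorem x125_5 : fam (wl [1,3,3,5,2,1,1,1,7,1]) 615 947 = true := by decide +kernel
theorem x125_6 : fam (wl [1,1,10,3,1,1,1,4,1,3]) 4390 4594 = true := by decide +kernel
theorem x125_7 : fam (wl [2,10,3,1,1,1,4,1,2,1]) 715 683 = true := by decide +kernel
theorem x125_8 : fam (wl [5,2,1,3,1,1,2,1,10]) 3564 1330 = true := by decide +kernel
theorem x125_9 : fam (wl [1,4,2,1,3,1,1,2,1,9,1]) 1547 2519 = true := by decide +kernel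
theorem x125_10 : fam (wl [5,1,11,5,1,11]) 858 290 = true := by decide +kernel
theorem x125_11 : fam (wl [1,4,1,11,5,1,10,1]) 4253 7071 = true := by decide +kernel
theorem x125_12 : fam (wl [1,16,2,1,5,8,2]) 5092 9598 = true := by decide +kernel
theorem x125_13 : fam (wl [17,2,1,5,8,1,1]) 25 3 = true := by decide +kernel
theorem x125_14 : fam (wl [5,1,1,4,9,11]) 2416 870 = true := by decide +kernel
theorem x125_15 : fam (wl [3,1,3,1,1,2,3,1,1,7]) 3400 1798 = true := by decide +kernel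
theorem x125_16 : fam (wl [1,2,1,3,1,1,2,3,1,1,6,1]) 1719 2531 = true := by decide +kernel
theorem x125_17 : fam (wl [1,4,1,1,4,9,10,1]) 2703 4435 = true := by decide +kernel
theorem x125_18 : fam (wl [3,3,6,1,2,1,1,1,6]) 4535 2734 = true := by decide +kernel
theorem x125_19 : fam (wl [1,1,1,5,1,2,2,12,3]) 414 538 = true := by decide +kernel
theorem x125_20 : fam (wl [2,1,5,1,2,2,12,2,1]) 4713 3307 = true := by decide +kernel
theorem x125_21 : fam (wl [1,2,3,6,1,2,1,1,1,5,1]) 592 829 = true := by decide +kernel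
theorem x125_22 : fam (wl [2,1,1,2,1,3,1,1,6,5]) 564 438 = true := by decide +kernel
theorem x125_23 : fam (wl [1,1,11,2,4,5,1,3]) 2789 2906 = true := by decide +kernel
theorem x125_24 : fam (wl [2,11,2,4,5,1,2,1]) 2346 2249 = true := by decide +kernel
theorem x125_25 : fam (wl [1,1,1,1,2,1,3,1,1,6,4,1]) 4571 5595 = true := by decide +kernel
theorem x125_26 : fam (wl [12,3,2,1,1,24]) 3553 578 = true := by decide +kernel
theorem x125_27 : fam (wl [7,10,5,14]) 3045 858 = true := by decide +kernel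
theorem x125_28 : fam (wl [1,6,10,5,13,1]) 2092 3597 = true := by decide +kernel
theorem x125_29 : fam (wl [1,11,3,2,1,1,23,1]) 1584 2913 = true := by decide +kernel
/-- words with first entry from 5097 to 5145 -/
def L125 : List (List ℕ × ℕ × ℕ) := [([8,1,3,1,2,1,1,17],4473,1018), ([1,1,4,4,2,1,1,1,1,1,1,3],1756,1942), ([2,4,4,2,1,1,1,1,1,1,2,1],3339,2987), ([1,7,1,3,1,2,1,1,16,1],622,1105), ([4,3,5,2,1,1,1,8],4482,2078), ([1,3,3,5,2,1,1,1,7,1],615,947), ([1,1,10,3,1,1,1,4,1,3],4390,4594), ([2,10,3,1,1,1,4,1,2,1],715,683), ([5,2,1,3,1,1,2,1,10],3564,1330), ([1,4,2,1,3,1,1,2,1,9,1],1547,2519), ([5,1,11,5,1,11],858,290), ([1,4,1,11,5,1,10,1],4253,7071), ([1,16,2,1,5,8,2],5092,9598), ([17,2,1,5,8,1,1],25,3), ([5,1,1,4,9,11],2416,870), ([3,1,3,1,1,2,3,1,1,7],3400,1798), ([1,2,1,3,1,1,2,3,1,1,6,1],1719,2531), ([1,4,1,1,4,9,10,1],2703,4435), ([3,3,6,1,2,1,1,1,6],4535,2734), ([1,1,1,5,1,2,2,12,3],414,538), ([2,1,5,1,2,2,12,2,1],4713,3307), ([1,2,3,6,1,2,1,1,1,5,1],592,829),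 ([2,1,1,2,1,3,1,1,6,5],564,438), ([1,1,11,2,4,5,1,3],2789,2906), ([2,11,2,4,5,1,2,1],2346,2249), ([1,1,1,1,2,1,3,1,1,6,4,1],4571,5595), ([12,3,2,1,1,24],3553,578), ([7,10,5,14],3045,858), ([1,6,10,5,13,1],2092,3597), ([1,11,3,2,1,1,23,1],1584,2913)]
theorem r125 : rgV L125 5097 25 = true := by decide +kernel
theorem f125 : ∀ p ∈ L125, fam (wl p.1) p.2.1 p.2.2 = true := by
  intro p hp
  simp only [L125, List.mem_cons, List.not_mem_nil, or_false] at hp
  rcases hp with rfl | rfl | rfl | rfl | rfl | rfl | rfl | rfl | rfl | rfl | rfl | rfl | rfl | rfl | rfl | rfl | rfl | rfl | rfl | rfl | rfl | rfl | rfl | rfl | rfl | rfl | rfl | rfl | rfl | rfl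
  · exact x125_0
  · exact x125_1
  · exact x125_2
  · exact x125_3
  · exact x125_4
  · exact x125_5
  · exact x125_6
  · exact x125_7
  · exact x125_8
  · exact x125_9
  · exact x125_10
  · exact x125_11
  · exact x125_12
  · exact x125_13
  · exact x125_14
  · exact x125_15
  · exact x125_16
  · exact x125_17
  · exact x125_18
  · exact x125_19
  · exact x125_20
  · exact x125_21
  · exact x125_22
  · exact x125_23
  · exact x125_24
  · exact x125_25
  · exact x125_26
  · exact x125_27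
  · exact x125_28
  · exact x125_29

end Pool.Agent.V5helper47.EV
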