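import Pool.Agent.V5helper47.EV.S2

/-! Search, part of the half words. -/

set_option maxRecDepth 1000000

namespace Pool.Agent.V5helper47.EV

open H419R2 Pool.Agent.N911 Pool.Agent.V5helper47.CN

theorem x126_0 : fam (wl [6,1,2,1,1,3,2,13]) 1243 370 = true := by decide +kernel
theorem x126_1 : fam (wl [1,5,1,2,1,1,3,2,12,1]) 3902 6645 = true := by decide +kernel
theorem x126_2 : fam (wl [1,1,3,6,1,13,1,1,3]) 916 1042 = true := by decide +kernel
theorem x126_3 : fam (wl [2,3,6,1,13,1,1,2,1]) 4235 3655 = true := by decide +kernel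
theorem x126_4 : fam (wl [1,12,1,4,2,2,6,2]) 1346 2498 = true := by decide +kernel
theorem x126_5 : fam (wl [13,1,4,2,2,6,1,1]) 3805 551 = true := by decide +kernel
theorem x126_6 : fam (wl [29,2,1,58]) 264 18 = true := by decide +kernel
theorem x126_7 : fam (wl [1,1,1,2,1,1,2,5,6,3]) 3751 4746 = true := by decide +kernel
theorem x126_8 : fam (wl [2,1,2,1,1,2,5,6,2,1]) 1410 1037 = true := by decide +kernel
theorem x126_9 : fam (wl [1,28,2,1,57,1]) 4897 9463 = true := by decide +kernel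
theorem x126_10 : fam (wl [9,7,1,3,18]) 1561 342 = true := by decide +kernel
theorem x126_11 : fam (wl [1,8,7,1,3,17,1]) 3604 6421 = true := by decide +kernel
theorem x126_12 : fam (wl [2,5,1,3,7,1,2,4]) 4258 3918 = true := by decide +kernel
theorem x126_13 : fam (wl [1,6,1,8,4,2,3,2]) 3207 5602 = true := by decide +kernel
theorem x126_14 : fam (wl [7,1,8,4,2,3,1,1]) 1960 497 = true := by decide +kernel
theorem x126_15 : fam (wl [1,1,5,1,3,7,1,2,3,1]) 909 983 = true := by decide +kernel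
theorem x126_16 : fam (wl [1,4,5,1,2,11,2,2]) 4800 7746 = true := by decide +kernel
theorem x126_17 : fam (wl [5,5,1,2,11,2,1,1]) 369 143 = true := by decide +kernel
theorem x126_18 : fam (wl [10,1,1,1,1,4,21]) 4742 894 = true := by decide +kernel
theorem x126_19 : fam (wl [1,4,9,1,19,2,2]) 2608 4194 = true := by decide +kernel
theorem x126_20 : fam (wl [5,9,1,19,2,1,1]) 2567 1007 = true := by decide +kernel
theorem x126_21 : fam (wl [1,9,1,1,1,1,4,20,1]) 433 787 = true := by decide +kernel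
theorem x126_22 : fam (wl [1,5,1,3,2,1,7,1,2,2]) 2988 5094 = true := by decide +kernel
theorem x126_23 : fam (wl [6,1,3,2,1,7,1,2,1,1]) 2189 647 = true := by decide +kernel
theorem x126_24 : fam (wl [7,2,2,1,5,1,14]) 4329 1166 = true := by decide +kernel
theorem x126_25 : fam (wl [3,3,2,2,2,2,1,1,6]) 3678 2234 = true := by decide +kernel
theorem x126_26 : fam (wl [1,2,3,2,2,2,2,1,1,5,1]) 1503 2095 = true := by decide +kernel
theorem x126_27 : fam (wl [1,6,2,2,1,5,1,13,1]) 852 1477 = true := by decide +kernel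
/-- words with first entry from 5147 to 5191 -/
def L126 : List (List ℕ × ℕ × ℕ) := [([6,1,2,1,1,3,2,13],1243,370), ([1,5,1,2,1,1,3,2,12,1],3902,6645), ([1,1,3,6,1,13,1,1,3],916,1042), ([2,3,6,1,13,1,1,2,1],4235,3655), ([1,12,1,4,2,2,6,2],1346,2498), ([13,1,4,2,2,6,1,1],3805,551), ([29,2,1,58],264,18), ([1,1,1,2,1,1,2,5,6,3],3751,4746), ([2,1,2,1,1,2,5,6,2,1],1410,1037), ([1,28,2,1,57,1],4897,9463), ([9,7,1,3,18],1561,342), ([1,8,7,1,3,17,1],3604,6421), ([2,5,1,3,7,1,2,4],4258,3918), ([1,6,1,8,4,2,3,2],3207,5602), ([7,1,8,4,2,3,1,1],1960,497), ([1,1,5,1,3,7,1,2,3,1],909,983), ([1,4,5,1,2,11,2,2],4800,7746), ([5,5,1,2,11,2,1,1],369,143), ([10,1,1,1,1,4,21],4742,894), ([1,4,9,1,19,2,2],2608,4194), ([5,9,1,19,2,1,1],2567,1007), ([1,9,1,1,1,1,4,20,1],433,787), ([1,5,1,3,2,1,7,1,2,2],2988,5094), ([6,1,3,2,1,7,1,2,1,1],2189,647), ([7,2,2,1,5,1,14],4329,1166), ([3,3,2,2,2,2,1,1,6],3678,2234), ([1,2,3,2,2,2,2,1,1,5,1],1503,2095), ([1,6,2,2,1,5,1,13,1],852,1477)]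
theorem r126 : rgV L126 5147 23 = true := by decide +kernel
theorem f126 : ∀ p ∈ L126, fam (wl p.1) p.2.1 p.2.2 = true := by
  intro p hp
  simp only [L126, List.mem_cons, List.not_mem_nil, or_false] at hp
  rcases hp with rfl | rfl | rfl | rfl | rfl | rfl | rfl | rfl | rfl | rfl | rfl | rfl | rfl | rfl | rfl | rfl | rfl | rfl | rfl | rfl | rfl | rfl | rfl | rfl | rfl | rfl | rfl | rfl
  · exact x126_0
  · exact x126_1
  · exact x126_2
  · exact x126_3
  · exact x126_4
  · exact x126_5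
  · exact x126_6
  · exact x126_7
  · exact x126_8
  · exact x126_9
  · exact x126_10
  · exact x126_11
  · exact x126_12
  · exact x126_13
  · exact x126_14
  · exact x126_15
  · exact x126_16
  · exact x126_17
  · exact x126_18
  · exact x126_19
  · exact x126_20
  · exact x126_21
  · exact x126_22
  · exact x126_23
  · exact x126_24
  · exact x126_25
  · exact x126_26
  · exact x126_27

end Pool.Agent.V5helper47.EV
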