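import Pool.Agent.V5helper47.EV.S2

/-! Search, part of the half words. -/

set_option maxRecDepth 1000000

namespace Pool.Agent.V5helper47.EV

open H419R2 Pool.Agent.N911 Pool.Agent.V5helper47.CN

theorem x127_0 : fam (wl [15,2,1,2,1,30]) 1859 242 = true := by decide +kernel
theorem x127_1 : fam (wl [1,20,1,2,1,2,10,2]) 640 1222 = true := by decide +kernel
theorem x127_2 : fam (wl [21,1,2,1,2,10,1,1]) 4551 419 = true := by decide +kernel
theorem x127_3 : fam (wl [1,14,2,1,2,1,29,1]) 3332 6233 = true := by decide +kernel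
theorem x127_4 : fam (wl [50,1,101]) 5150 202 = true := by decide +kernel
theorem x127_5 : fam (wl [1,7,8,1,3,1,1,3,2]) 3557 6238 = true := by decide +kernel
theorem x127_6 : fam (wl [8,8,1,3,1,1,3,1,1]) 1642 405 = true := by decide +kernel
theorem x127_7 : fam (wl [1,49,1,100,1]) 49 99 = true := by decide +kernel
theorem x127_8 : fam (wl [51,102]) 51 2 = true := by decide +kernel
theorem x127_9 : fam (wl [8,1,7,3,1,17]) 4466 1006 = true := by decide +kernel
theorem x127_10 : fam (wl [1,7,1,7,3,1,16,1]) 735 1307 = true := by decide +kernel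
theorem x127_11 : fam (wl [1,50,101,1]) 5150 10101 = true := by decide +kernel
theorem x127_12 : fam (wl [19,3,1,1,38]) 4262 442 = true := by decide +kernel
theorem x127_13 : fam (wl [4,6,1,1,3,3,8]) 4256 2050 = true := by decide +kernel
theorem x127_14 : fam (wl [1,3,6,1,1,3,3,7,1]) 949 1443 = true := by decide +kernel
theorem x127_15 : fam (wl [1,18,3,1,1,37,1]) 943 1791 = true := by decide +kernel
theorem x127_16 : fam (wl [2,1,8,2,2,1,3,1,5]) 1386 958 = true := by decide +kernel
theorem x127_17 : fam (wl [1,1,1,8,2,2,1,3,1,4,1]) 3821 5003 = true := by decide +kernel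
theorem x127_18 : fam (wl [1,40,1,2,20,2]) 3812 7442 = true := by decide +kernel
theorem x127_19 : fam (wl [41,1,2,20,1,1]) 1395 67 = true := by decide +kernel
theorem x127_20 : fam (wl [1,1,20,2,1,9,1,3]) 4408 4514 = true := by decide +kernel
theorem x127_21 : fam (wl [1,8,1,1,3,1,1,3,4,2]) 1352 2422 = true := by decide +kernel
theorem x127_22 : fam (wl [9,1,1,3,1,1,3,4,1,1]) 3857 807 = true := by decide +kernel
theorem x127_23 : fam (wl [2,20,2,1,9,1,2,1]) 801 783 = true := by decide +kernel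
theorem x127_24 : fam (wl [3,1,9,1,2,4,1,7]) 4629 2370 = true := by decide +kernel
theorem x127_25 : fam (wl [1,11,1,1,2,1,3,1,5,2]) 3099 5706 = true := by decide +kernel
theorem x127_26 : fam (wl [12,1,1,2,1,3,1,5,1,1]) 2118 337 = true := by decide +kernel
theorem x127_27 : fam (wl [1,2,1,9,1,2,4,1,6,1]) 588 877 = true := by decide +kernel
theorem x127_28 : fam (wl [1,4,10,20,2,2]) 4683 7530 = true := by decide +kernel
theorem x127_29 : fam (wl [5,10,20,2,1,1]) 542 213 = true := by decide +kernel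
/-- words with first entry from 5193 to 5229 -/
def L127 : List (List ℕ × ℕ × ℕ) := [([15,2,1,2,1,30],1859,242), ([1,20,1,2,1,2,10,2],640,1222), ([21,1,2,1,2,10,1,1],4551,419), ([1,14,2,1,2,1,29,1],3332,6233), ([50,1,101],5150,202), ([1,7,8,1,3,1,1,3,2],3557,6238), ([8,8,1,3,1,1,3,1,1],1642,405), ([1,49,1,100,1],49,99), ([51,102],51,2), ([8,1,7,3,1,17],4466,1006), ([1,7,1,7,3,1,16,1],735,1307), ([1,50,101,1],5150,10101), ([19,3,1,1,38],4262,442), ([4,6,1,1,3,3,8],4256,2050), ([1,3,6,1,1,3,3,7,1],949,1443), ([1,18,3,1,1,37,1],943,1791), ([2,1,8,2,2,1,3,1,5],1386,958), ([1,1,1,8,2,2,1,3,1,4,1],3821,5003), ([1,40,1,2,20,2],3812,7442), ([41,1,2,20,1,1],1395,67), ([1,1,20,2,1,9,1,3],4408,4514), ([1,8,1,1,3,1,1,3,4,2],1352,2422), ([9,1,1,3,1,1,3,4,1,1],3857,807), ([2,20,2,1,9,1,2,1],801,783), ([3,1,9,1,2,4,1,7],4629,2370), ([1,11,1,1,2,1,3,1,5,2],3099,5706), ([12,1,1,2,1,3,1,5,1,1],2118,337), ([1,2,1,9,1,2,4,1,6,1],588,877), ([1,4,10,20,2,2],4683,7530), ([5,10,20,2,1,1],542,213)]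
theorem r127 : rgV L127 5193 19 = true := by decide +kernel
theorem f127 : ∀ p ∈ L127, fam (wl p.1) p.2.1 p.2.2 = true := by
  intro p hp
  simp only [L127, List.mem_cons, List.not_mem_nil, or_false] at hp
  rcases hp with rfl | rfl | rfl | rfl | rfl | rfl | rfl | rfl | rfl | rfl | rfl | rfl | rfl | rfl | rfl | rfl | rfl | rfl | rfl | rfl | rfl | rfl | rfl | rfl | rfl | rfl | rfl | rfl | rfl | rfl
  · exact x127_0
  · exact x127_1
  · exact x127_2
  · exact x127_3
  · exact x127_4
  · exact x127_5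
  · exact x127_6
  · exact x127_7
  · exact x127_8
  · exact x127_9
  · exact x127_10
  · exact x127_11
  · exact x127_12
  · exact x127_13
  · exact x127_14
  · exact x127_15
  · exact x127_16
  · exact x127_17
  · exact x127_18
  · exact x127_19
  · exact x127_20
  · exact x127_21
  · exact x127_22
  · exact x127_23
  · exact x127_24
  · exact x127_25
  · exact x127_26
  · exact x127_27
  · exact x127_28
  · exact x127_29

end Pool.Agent.V5helper47.EV
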