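import Pool.Agent.V5helper47.EV.S2

/-! Search, part of the half words. -/

set_option maxRecDepth 1000000

namespace Pool.Agent.V5helper47.EV

open H419R2 Pool.Agent.N911 Pool.Agent.V5helper47.CN

theorem x128_0 : fam (wl [1,2,2,9,1,4,4,1,2]) 2062 2938 = true := by decide +kernel
theorem x128_1 : fam (wl [3,2,9,1,4,4,1,1,1]) 3167 1823 = true := by decide +kernel
theorem x128_2 : fam (wl [4,1,2,4,1,1,1,2,9]) 1627 694 = true := by decide +kernel
theorem x128_3 : fam (wl [1,3,1,2,4,1,1,1,2,8,1]) 3604 5673 = true := by decide +kernel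
theorem x128_4 : fam (wl [2,11,1,1,3,1,5,4]) 102 98 = true := by decide +kernel
theorem x128_5 : fam (wl [1,1,11,1,1,3,1,5,3,1]) 5129 5343 = true := by decide +kernel
theorem x128_6 : fam (wl [2,3,5,1,2,2,1,1,1,4]) 3243 2802 = true := by decide +kernel
theorem x128_7 : fam (wl [1,9,7,3,1,1,4,2]) 2579 4650 = true := by decide +kernel
theorem x128_8 : fam (wl [10,7,3,1,1,4,1,1]) 2660 525 = true := by decide +kernel
theorem x128_9 : fam (wl [1,1,3,5,1,2,2,1,1,1,3,1]) 1996 2269 = true := by decide +kernel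
theorem x128_10 : fam (wl [7,1,4,2,1,1,1,15]) 3946 1010 = true := by decide +kernel
theorem x128_11 : fam (wl [1,1,3,7,14,1,1,3]) 2066 2350 = true := by decide +kernel
theorem x128_12 : fam (wl [2,3,7,14,1,1,2,1]) 3183 2747 = true := by decide +kernel
theorem x128_13 : fam (wl [1,6,1,4,2,1,1,1,14,1]) 1303 2275 = true := by decide +kernel
theorem x128_14 : fam (wl [6,11,1,5,12]) 870 286 = true := by decide +kernel
theorem x128_15 : fam (wl [1,2,1,3,1,1,1,4,1,1,2,1,2]) 2586 3806 = true := by decide +kernel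
theorem x128_16 : fam (wl [3,1,3,1,1,1,4,1,1,2,1,1,1]) 2669 1411 = true := by decide +kernel
theorem x128_17 : fam (wl [1,5,11,1,5,11,1]) 4385 7331 = true := by decide +kernel
theorem x128_18 : fam (wl [3,1,1,1,1,1,1,3,4,7]) 4134 2286 = true := by decide +kernel
theorem x128_19 : fam (wl [1,16,1,1,2,3,8,2]) 43 82 = true := by decide +kernel
theorem x128_20 : fam (wl [17,1,1,2,3,8,1,1]) 5214 593 = true := by decide +kernel
theorem x128_21 : fam (wl [1,2,1,1,1,1,1,1,3,4,6,1]) 1123 1627 = true := by decide +kernel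
theorem x128_22 : fam (wl [4,2,1,1,2,2,3,1,8]) 2031 926 = true := by decide +kernel
theorem x128_23 : fam (wl [1,3,2,1,1,2,2,3,1,7,1]) 3240 5005 = true := by decide +kernel
theorem x128_24 : fam (wl [1,4,3,4,2,6,2,2]) 4988 8098 = true := by decide +kernel
theorem x128_25 : fam (wl [5,3,4,2,6,2,1,1]) 283 107 = true := by decide +kernel
theorem x128_26 : fam (wl [1,1,1,1,13,1,6,3,3]) 5141 6198 = true := by decide +kernel
theorem x128_27 : fam (wl [2,1,1,13,1,6,3,2,1]) 136 109 = true := by decide +kernel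
/-- words with first entry from 5231 to 5279 -/
def L128 : List (List ℕ × ℕ × ℕ) := [([1,2,2,9,1,4,4,1,2],2062,2938), ([3,2,9,1,4,4,1,1,1],3167,1823), ([4,1,2,4,1,1,1,2,9],1627,694), ([1,3,1,2,4,1,1,1,2,8,1],3604,5673), ([2,11,1,1,3,1,5,4],102,98), ([1,1,11,1,1,3,1,5,3,1],5129,5343), ([2,3,5,1,2,2,1,1,1,4],3243,2802), ([1,9,7,3,1,1,4,2],2579,4650), ([10,7,3,1,1,4,1,1],2660,525), ([1,1,3,5,1,2,2,1,1,1,3,1],1996,2269), ([7,1,4,2,1,1,1,15],3946,1010), ([1,1,3,7,14,1,1,3],2066,2350), ([2,3,7,14,1,1,2,1],3183,2747), ([1,6,1,4,2,1,1,1,14,1],1303,2275), ([6,11,1,5,12],870,286), ([1,2,1,3,1,1,1,4,1,1,2,1,2],2586,3806), ([3,1,3,1,1,1,4,1,1,2,1,1,1],2669,1411), ([1,5,11,1,5,11,1],4385,7331), ([3,1,1,1,1,1,1,3,4,7],4134,2286), ([1,16,1,1,2,3,8,2],43,82), ([17,1,1,2,3,8,1,1],5214,593), ([1,2,1,1,1,1,1,1,3,4,6,1],1123,1627), ([4,2,1,1,2,2,3,1,8],2031,926), ([1,3,2,1,1,2,2,3,1,7,1],3240,5005), ([1,4,3,4,2,6,2,2],4988,8098), ([5,3,4,2,6,2,1,1],283,107), ([1,1,1,1,13,1,6,3,3],5141,6198),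 ([2,1,1,13,1,6,3,2,1],136,109)]
theorem r128 : rgV L128 5231 25 = true := by decide +kernel
theorem f128 : ∀ p ∈ L128, fam (wl p.1) p.2.1 p.2.2 = true := by
  intro p hp
  simp only [L128, List.mem_cons, List.not_mem_nil, or_false] at hp
  rcases hp with rfl | rfl | rfl | rfl | rfl | rfl | rfl | rfl | rfl | rfl | rfl | rfl | rfl | rfl | rfl | rfl | rfl | rfl | rfl | rfl | rfl | rfl | rfl | rfl | rfl | rfl | rfl | rfl
  · exact x128_0
  · exact x128_1
  · exact x128_2
  · exact x128_3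
  · exact x128_4
  · exact x128_5
  · exact x128_6
  · exact x128_7
  · exact x128_8
  · exact x128_9
  · exact x128_10
  · exact x128_11
  · exact x128_12
  · exact x128_13
  · exact x128_14
  · exact x128_15
  · exact x128_16
  · exact x128_17
  · exact x128_18
  · exact x128_19
  · exact x128_20
  · exact x128_21
  · exact x128_22
  · exact x128_23
  · exact x128_24
  · exact x128_25
  · exact x128_26
  · exact x128_27

end Pool.Agent.V5helper47.EV
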