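import Pool.Agent.V5helper47.EV.S2

/-! Search, part of the half words. -/

set_option maxRecDepth 1000000

namespace Pool.Agent.V5helper47.EV

open H419R2 Pool.Agent.N911 Pool.Agent.V5helper47.CN

theorem x129_0 : fam (wl [2,1,1,3,3,1,1,7,5]) 4570 3562 = true := by decide +kernel
theorem x129_1 : fam (wl [1,1,1,1,3,3,1,1,7,4,1]) 709 867 = true := by decide +kernel
theorem x129_2 : fam (wl [29,1,2,59]) 267 18 = true := by decide +kernel
theorem x129_3 : fam (wl [1,28,1,2,58,1]) 5012 9689 = true := by decide +kernel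
theorem x129_4 : fam (wl [1,2,1,4,1,2,1,2,2,2,1,2]) 835 1234 = true := by decide +kernel
theorem x129_5 : fam (wl [1,4,2,6,3,4,2,2]) 794 1298 = true := by decide +kernel
theorem x129_6 : fam (wl [5,2,6,3,4,2,1,1]) 4487 1643 = true := by decide +kernel
theorem x129_7 : fam (wl [3,1,4,1,2,1,2,2,2,1,1,1]) 4446 2325 = true := by decide +kernel
theorem x129_8 : fam (wl [2,1,2,1,3,1,8,2,5]) 2657 1942 = true := by decide +kernel
theorem x129_9 : fam (wl [1,2,3,1,4,1,1,1,7,1,2]) 1824 2530 = true := by decide +kernel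
theorem x129_10 : fam (wl [3,3,1,4,1,1,1,7,1,1,1]) 3461 2123 = true := by decide +kernel
theorem x129_11 : fam (wl [1,1,1,2,1,3,1,8,2,4,1]) 2628 3337 = true := by decide +kernel
theorem x129_12 : fam (wl [6,1,2,3,1,1,2,13]) 2149 642 = true := by decide +kernel
theorem x129_13 : fam (wl [2,1,1,5,2,1,11,5]) 2240 1762 = true := by decide +kernel
theorem x129_14 : fam (wl [1,4,2,3,2,1,1,4,2,2]) 2736 4466 = true := by decide +kernel
theorem x129_15 : fam (wl [1,15,1,2,5,1,7,2]) 2460 4626 = true := by decide +kernel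
theorem x129_16 : fam (wl [16,1,2,5,1,7,1,1]) 2827 339 = true := by decide +kernel
theorem x129_17 : fam (wl [5,2,3,2,1,1,4,2,1,1]) 2551 939 = true := by decide +kernel
theorem x129_18 : fam (wl [1,1,1,1,5,2,1,11,4,1]) 3047 3699 = true := by decide +kernel
theorem x129_19 : fam (wl [1,5,1,2,3,1,1,2,12,1]) 3138 5341 = true := by decide +kernel
theorem x129_20 : fam (wl [4,17,1,8,8]) 807 398 = true := by decide +kernel
theorem x129_21 : fam (wl [1,3,17,1,8,7,1]) 4488 6765 = true := by decide +kernel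
theorem x129_22 : fam (wl [3,1,1,3,1,2,8,7]) 1883 1058 = true := by decide +kernel
theorem x129_23 : fam (wl [1,2,1,1,3,1,2,8,6,1]) 3412 4909 = true := by decide +kernel
theorem x129_24 : fam (wl [1,6,1,2,1,1,3,1,2,3,2]) 3353 5838 = true := by decide +kernel
theorem x129_25 : fam (wl [7,1,2,1,1,3,1,2,3,1,1]) 1948 505 = true := by decide +kernel
theorem x129_26 : fam (wl [3,23,1,11,6]) 4377 2878 = true := by decide +kernel
theorem x129_27 : fam (wl [1,5,4,2,2,1,1,1,1,2,2]) 3987 6694 = true := by decide +kernel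
theorem x129_28 : fam (wl [6,4,2,2,1,1,1,1,2,1,1]) 1322 425 = true := by decide +kernel
theorem x129_29 : fam (wl [1,2,23,1,11,5,1]) 932 1253 = true := by decide +kernel
/-- words with first entry from 5281 to 5319 -/
def L129 : List (List ℕ × ℕ × ℕ) := [([2,1,1,3,3,1,1,7,5],4570,3562), ([1,1,1,1,3,3,1,1,7,4,1],709,867), ([29,1,2,59],267,18), ([1,28,1,2,58,1],5012,9689), ([1,2,1,4,1,2,1,2,2,2,1,2],835,1234), ([1,4,2,6,3,4,2,2],794,1298), ([5,2,6,3,4,2,1,1],4487,1643), ([3,1,4,1,2,1,2,2,2,1,1,1],4446,2325), ([2,1,2,1,3,1,8,2,5],2657,1942), ([1,2,3,1,4,1,1,1,7,1,2],1824,2530), ([3,3,1,4,1,1,1,7,1,1,1],3461,2123), ([1,1,1,2,1,3,1,8,2,4,1],2628,3337), ([6,1,2,3,1,1,2,13],2149,642), ([2,1,1,5,2,1,11,5],2240,1762), ([1,4,2,3,2,1,1,4,2,2],2736,4466), ([1,15,1,2,5,1,7,2],2460,4626), ([16,1,2,5,1,7,1,1],2827,339), ([5,2,3,2,1,1,4,2,1,1],2551,939), ([1,1,1,1,5,2,1,11,4,1],3047,3699), ([1,5,1,2,3,1,1,2,12,1],3138,5341), ([4,17,1,8,8],807,398), ([1,3,17,1,8,7,1],4488,6765),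 ([3,1,1,3,1,2,8,7],1883,1058), ([1,2,1,1,3,1,2,8,6,1],3412,4909), ([1,6,1,2,1,1,3,1,2,3,2],3353,5838), ([7,1,2,1,1,3,1,2,3,1,1],1948,505), ([3,23,1,11,6],4377,2878), ([1,5,4,2,2,1,1,1,1,2,2],3987,6694), ([6,4,2,2,1,1,1,1,2,1,1],1322,425), ([1,2,23,1,11,5,1],932,1253)]
theorem r129 : rgV L129 5281 20 = true := by decide +kernel
theorem f129 : ∀ p ∈ L129, fam (wl p.1) p.2.1 p.2.2 = true := by
  intro p hp
  simp only [L129, List.mem_cons, List.not_mem_nil, or_false] at hp
  rcases hp with rfl | rfl | rfl | rfl | rfl | rfl | rfl | rfl | rfl | rfl | rfl | rfl | rfl | rfl | rfl | rfl | rfl | rfl | rfl | rfl | rfl | rfl | rfl | rfl | rfl | rfl | rfl | rfl | rfl | rfl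
  · exact x129_0
  · exact x129_1
  · exact x129_2
  · exact x129_3
  · exact x129_4
  · exact x129_5
  · exact x129_6
  · exact x129_7
  · exact x129_8
  · exact x129_9
  · exact x129_10
  · exact x129_11
  · exact x129_12
  · exact x129_13
  · exact x129_14
  · exact x129_15
  · exact x129_16
  · exact x129_17
  · exact x129_18
  · exact x129_19
  · exact x129_20
  · exact x129_21
  · exact x129_22
  · exact x129_23
  · exact x129_24
  · exact x129_25
  · exact x129_26
  · exact x129_27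
  · exact x129_28
  · exact x129_29

end Pool.Agent.V5helper47.EV
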