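import Pool.Agent.V5helper47.EV.S2

/-! Search, part of the half words. -/

set_option maxRecDepth 1000000

namespace Pool.Agent.V5helper47.EV

open H419R2 Pool.Agent.N911 Pool.Agent.V5helper47.CN

theorem x130_0 : fam (wl [2,35,1,17,4]) 2496 2462 = true := by decide +kernel
theorem x130_1 : fam (wl [1,26,1,1,3,13,2]) 1667 3214 = true := by decide +kernel
theorem x130_2 : fam (wl [27,1,1,3,13,1,1]) 3652 265 = true := by decide +kernel
theorem x130_3 : fam (wl [1,1,35,1,17,3,1]) 2823 2863 = true := by decide +kernel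
theorem x130_4 : fam (wl [1,2,1,2,2,2,1,4,1,2,1,2]) 839 1226 = true := by decide +kernel
theorem x130_5 : fam (wl [1,5,1,1,2,1,2,1,3,1,2,2]) 397 674 = true := by decide +kernel
theorem x130_6 : fam (wl [6,1,1,2,1,2,1,3,1,2,1,1]) 4922 1497 = true := by decide +kernel
theorem x130_7 : fam (wl [3,1,2,2,2,1,4,1,2,1,1,1]) 4480 2417 = true := by decide +kernel
theorem x130_8 : fam (wl [1,2,1,1,1,4,9,3,1,2]) 1247 1810 = true := by decide +kernel
theorem x130_9 : fam (wl [3,1,1,1,4,9,3,1,1,1]) 4074 2237 = true := by decide +kernel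
theorem x130_10 : fam (wl [2,3,1,4,1,10,1,1,4]) 4194 3710 = true := by decide +kernel
theorem x130_11 : fam (wl [1,71,1,35,2]) 1349 2662 = true := by decide +kernel
theorem x130_12 : fam (wl [72,1,35,1,1]) 3976 109 = true := by decide +kernel
theorem x130_13 : fam (wl [1,1,3,1,4,1,10,1,1,3,1]) 1131 1263 = true := by decide +kernel
theorem x130_14 : fam (wl [2,8,2,1,5,4,4]) 659 622 = true := by decide +kernel
theorem x130_15 : fam (wl [1,1,8,2,1,5,4,3,1]) 4668 4933 = true := by decide +kernel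
theorem x130_16 : fam (wl [11,1,5,2,1,23]) 4275 722 = true := by decide +kernel
theorem x130_17 : fam (wl [1,10,1,5,2,1,22,1]) 1052 1929 = true := by decide +kernel
theorem x130_18 : fam (wl [2,1,7,2,4,3,1,5]) 3720 2582 = true := by decide +kernel
theorem x130_19 : fam (wl [1,72,36,2]) 3979 7850 = true := by decide +kernel
theorem x130_20 : fam (wl [73,36,1,1]) 1350 37 = true := by decide +kernel
theorem x130_21 : fam (wl [1,1,1,7,2,4,3,1,4,1]) 1609 2103 = true := by decide +kernel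
theorem x130_22 : fam (wl [2,36,18,4]) 164 162 = true := by decide +kernel
theorem x130_23 : fam (wl [1,1,1,1,1,1,1,1,2,4,4,3]) 4513 5578 = true := by decide +kernel
theorem x130_24 : fam (wl [2,1,1,1,1,1,1,2,4,4,2,1]) 822 629 = true := by decide +kernel
theorem x130_25 : fam (wl [1,1,36,18,3,1]) 5171 5243 = true := by decide +kernel
theorem x130_26 : fam (wl [17,4,2,34]) 1395 162 = true := by decide +kernel
theorem x130_27 : fam (wl [1,3,1,1,1,2,2,2,4,1,1,2]) 1636 2566 = true := by decide +kernel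
theorem x130_28 : fam (wl [4,1,1,1,2,2,2,4,1,1,1,1]) 3701 1599 = true := by decide +kernel
theorem x130_29 : fam (wl [1,16,4,2,33,1]) 3942 7429 = true := by decide +kernel
/-- words with first entry from 5321 to 5345 -/
def L130 : List (List ℕ × ℕ × ℕ) := [([2,35,1,17,4],2496,2462), ([1,26,1,1,3,13,2],1667,3214), ([27,1,1,3,13,1,1],3652,265), ([1,1,35,1,17,3,1],2823,2863), ([1,2,1,2,2,2,1,4,1,2,1,2],839,1226), ([1,5,1,1,2,1,2,1,3,1,2,2],397,674), ([6,1,1,2,1,2,1,3,1,2,1,1],4922,1497), ([3,1,2,2,2,1,4,1,2,1,1,1],4480,2417), ([1,2,1,1,1,4,9,3,1,2],1247,1810), ([3,1,1,1,4,9,3,1,1,1],4074,2237), ([2,3,1,4,1,10,1,1,4],4194,3710), ([1,71,1,35,2],1349,2662), ([72,1,35,1,1],3976,109), ([1,1,3,1,4,1,10,1,1,3,1],1131,1263), ([2,8,2,1,5,4,4],659,622), ([1,1,8,2,1,5,4,3,1],4668,4933), ([11,1,5,2,1,23],4275,722), ([1,10,1,5,2,1,22,1],1052,1929), ([2,1,7,2,4,3,1,5],3720,2582), ([1,72,36,2],3979,7850), ([73,36,1,1],1350,37), ([1,1,1,7,2,4,3,1,4,1],1609,2103), ([2,36,18,4],164,162),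 ([1,1,1,1,1,1,1,1,2,4,4,3],4513,5578), ([2,1,1,1,1,1,1,2,4,4,2,1],822,629), ([1,1,36,18,3,1],5171,5243), ([17,4,2,34],1395,162), ([1,3,1,1,1,2,2,2,4,1,1,2],1636,2566), ([4,1,1,1,2,2,2,4,1,1,1,1],3701,1599), ([1,16,4,2,33,1],3942,7429)]
theorem r130 : rgV L130 5321 13 = true := by decide +kernel
theorem f130 : ∀ p ∈ L130, fam (wl p.1) p.2.1 p.2.2 = true := by
  intro p hp
  simp only [L130, List.mem_cons, List.not_mem_nil, or_false] at hp
  rcases hp with rfl | rfl | rfl | rfl | rfl | rfl | rfl | rfl | rfl | rfl | rfl | rfl | rfl | rfl | rfl | rfl | rfl | rfl | rfl | rfl | rfl | rfl | rfl | rfl | rfl | rfl | rfl | rfl | rfl | rfl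
  · exact x130_0
  · exact x130_1
  · exact x130_2
  · exact x130_3
  · exact x130_4
  · exact x130_5
  · exact x130_6
  · exact x130_7
  · exact x130_8
  · exact x130_9
  · exact x130_10
  · exact x130_11
  · exact x130_12
  · exact x130_13
  · exact x130_14
  · exact x130_15
  · exact x130_16
  · exact x130_17
  · exact x130_18
  · exact x130_19
  · exact x130_20
  · exact x130_21
  · exact x130_22
  · exact x130_23
  · exact x130_24
  · exact x130_25
  · exact x130_26
  · exact x130_27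
  · exact x130_28
  · exact x130_29

end Pool.Agent.V5helper47.EV
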