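import Pool.Agent.V5helper47.EV.S2

/-! Search, part of the half words. -/

set_option maxRecDepth 1000000

namespace Pool.Agent.V5helper47.EV

open H419R2 Pool.Agent.N911 Pool.Agent.V5helper47.CN

theorem x131_0 : fam (wl [3,24,12,6]) 2722 1790 = true := by decide +kernel
theorem x131_1 : fam (wl [1,2,24,12,5,1]) 2623 3523 = true := by decide +kernel
theorem x131_2 : fam (wl [1,7,1,1,3,1,1,3,1,3,2]) 2041 3606 = true := by decide +kernel
theorem x131_3 : fam (wl [8,1,1,3,1,1,3,1,3,1,1]) 3308 773 = true := by decide +kernel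
theorem x131_4 : fam (wl [3,2,6,1,13,1,6]) 4468 2578 = true := by decide +kernel
theorem x131_5 : fam (wl [1,4,3,1,2,2,7,2,2]) 2178 3530 = true := by decide +kernel
theorem x131_6 : fam (wl [5,3,1,2,2,7,2,1,1]) 3179 1207 = true := by decide +kernel
theorem x131_7 : fam (wl [1,2,2,6,1,13,1,5,1]) 889 1267 = true := by decide +kernel
theorem x131_8 : fam (wl [4,18,9,8]) 523 258 = true := by decide +kernel
theorem x131_9 : fam (wl [2,2,1,1,1,2,5,3,1,4]) 1859 1562 = true := by decide +kernel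
theorem x131_10 : fam (wl [1,1,2,1,1,1,2,5,3,1,3,1]) 3500 4061 = true := by decide +kernel
theorem x131_11 : fam (wl [1,3,18,9,7,1]) 4836 7289 = true := by decide +kernel
theorem x131_12 : fam (wl [4,5,3,1,1,1,2,8]) 1395 666 = true := by decide +kernel
theorem x131_13 : fam (wl [1,11,1,3,7,1,5,2]) 554 1022 = true := by decide +kernel
theorem x131_14 : fam (wl [12,1,3,7,1,5,1,1]) 4815 755 = true := by decide +kernel
theorem x131_15 : fam (wl [1,3,5,3,1,1,1,2,7,1]) 3974 6053 = true := by decide +kernel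
theorem x131_16 : fam (wl [1,2,2,2,1,2,1,2,1,4,1,2]) 3889 5506 = true := by decide +kernel
theorem x131_17 : fam (wl [1,41,2,1,20,2]) 1248 2438 = true := by decide +kernel
theorem x131_18 : fam (wl [42,2,1,20,1,1]) 4127 195 = true := by decide +kernel
theorem x131_19 : fam (wl [3,2,2,1,2,1,2,1,4,1,1,1]) 1486 869 = true := by decide +kernel
theorem x131_20 : fam (wl [15,1,1,1,3,31]) 1892 242 = true := by decide +kernel
theorem x131_21 : fam (wl [2,20,1,2,10,4]) 2509 2450 = true := by decide +kernel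
theorem x131_22 : fam (wl [1,1,1,1,14,7,3,3]) 2291 2762 = true := by decide +kernel
theorem x131_23 : fam (wl [1,5,2,5,2,1,2,1,2,2]) 4064 6870 = true := by decide +kernel
theorem x131_24 : fam (wl [6,2,5,2,1,2,1,2,1,1]) 1313 407 = true := by decide +kernel
theorem x131_25 : fam (wl [2,1,1,14,7,3,2,1]) 3086 2453 = true := by decide +kernel
theorem x131_26 : fam (wl [1,1,20,1,2,10,3,1]) 2868 2937 = true := by decide +kernel
theorem x131_27 : fam (wl [1,14,1,1,1,3,30,1]) 3485 6527 = true := by decide +kernel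
/-- words with first entry from 5347 to 5381 -/
def L131 : List (List ℕ × ℕ × ℕ) := [([3,24,12,6],2722,1790), ([1,2,24,12,5,1],2623,3523), ([1,7,1,1,3,1,1,3,1,3,2],2041,3606), ([8,1,1,3,1,1,3,1,3,1,1],3308,773), ([3,2,6,1,13,1,6],4468,2578), ([1,4,3,1,2,2,7,2,2],2178,3530), ([5,3,1,2,2,7,2,1,1],3179,1207), ([1,2,2,6,1,13,1,5,1],889,1267), ([4,18,9,8],523,258), ([2,2,1,1,1,2,5,3,1,4],1859,1562), ([1,1,2,1,1,1,2,5,3,1,3,1],3500,4061), ([1,3,18,9,7,1],4836,7289), ([4,5,3,1,1,1,2,8],1395,666), ([1,11,1,3,7,1,5,2],554,1022), ([12,1,3,7,1,5,1,1],4815,755), ([1,3,5,3,1,1,1,2,7,1],3974,6053), ([1,2,2,2,1,2,1,2,1,4,1,2],3889,5506), ([1,41,2,1,20,2],1248,2438), ([42,2,1,20,1,1],4127,195), ([3,2,2,1,2,1,2,1,4,1,1,1],1486,869), ([15,1,1,1,3,31],1892,242), ([2,20,1,2,10,4],2509,2450), ([1,1,1,1,14,7,3,3],2291,2762), ([1,5,2,5,2,1,2,1,2,2],4064,6870), ([6,2,5,2,1,2,1,2,1,1],1313,407), ([2,1,1,14,7,3,2,1],3086,2453), ([1,1,20,1,2,10,3,1],2868,2937), ([1,14,1,1,1,3,30,1],3485,6527)]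
theorem r131 : rgV L131 5347 18 = true := by decide +kernel
theorem f131 : ∀ p ∈ L131, fam (wl p.1) p.2.1 p.2.2 = true := by
  intro p hp
  simp only [L131, List.mem_cons, List.not_mem_nil, or_false] at hp
  rcases hp with rfl | rfl | rfl | rfl | rfl | rfl | rfl | rfl | rfl | rfl | rfl | rfl | rfl | rfl | rfl | rfl | rfl | rfl | rfl | rfl | rfl | rfl | rfl | rfl | rfl | rfl | rfl | rfl
  · exact x131_0
  · exact x131_1
  · exact x131_2
  · exact x131_3
  · exact x131_4
  · exact x131_5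
  · exact x131_6
  · exact x131_7
  · exact x131_8
  · exact x131_9
  · exact x131_10
  · exact x131_11
  · exact x131_12
  · exact x131_13
  · exact x131_14
  · exact x131_15
  · exact x131_16
  · exact x131_17
  · exact x131_18
  · exact x131_19
  · exact x131_20
  · exact x131_21
  · exact x131_22
  · exact x131_23
  · exact x131_24
  · exact x131_25
  · exact x131_26
  · exact x131_27

end Pool.Agent.V5helper47.EV
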