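import Pool.Agent.V5helper47.EV.S2

/-! Search, part of the half words. -/

set_option maxRecDepth 1000000

namespace Pool.Agent.V5helper47.EV

open H419R2 Pool.Agent.N911 Pool.Agent.V5helper47.CN

theorem x132_0 : fam (wl [2,2,9,1,19,1,4]) 1894 1530 = true := by decide +kernel
theorem x132_1 : fam (wl [2,4,1,5,1,2,2,2,4]) 3598 3262 = true := by decide +kernel
theorem x132_2 : fam (wl [1,1,4,1,5,1,2,2,2,3,1]) 1783 1951 = true := by decide +kernel
theorem x132_3 : fam (wl [1,1,2,9,1,19,1,3,1]) 3487 4159 = true := by decide +kernel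
theorem x132_4 : fam (wl [1,3,10,2,1,4,1,1,1,2]) 3557 5378 = true := by decide +kernel
theorem x132_5 : fam (wl [4,10,2,1,4,1,1,1,1,1]) 1828 893 = true := by decide +kernel
theorem x132_6 : fam (wl [7,1,1,2,1,6,15]) 4840 1278 = true := by decide +kernel
theorem x132_7 : fam (wl [1,6,1,1,2,1,6,14,1]) 551 959 = true := by decide +kernel
theorem x132_8 : fam (wl [4,1,7,1,2,3,1,9]) 3053 1250 = true := by decide +kernel
theorem x132_9 : fam (wl [1,3,1,7,1,2,3,1,8,1]) 2338 3721 = true := by decide +kernel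
theorem x132_10 : fam (wl [1,2,16,1,33,1,2]) 2197 2958 = true := by decide +kernel
theorem x132_11 : fam (wl [3,16,1,33,1,1,1]) 3200 2093 = true := by decide +kernel
theorem x132_12 : fam (wl [6,12,6,12]) 6 2 = true := by decide +kernel
theorem x132_13 : fam (wl [1,1,8,2,2,2,1,3,1,3]) 4380 4626 = true := by decide +kernel
theorem x132_14 : fam (wl [2,8,2,2,2,1,3,1,2,1]) 1019 963 = true := by decide +kernel
theorem x132_15 : fam (wl [1,5,12,6,11,1]) 5393 9015 = true := by decide +kernel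
theorem x132_16 : fam (wl [1,1,1,9,2,1,19,3]) 2991 3922 = true := by decide +kernel
theorem x132_17 : fam (wl [1,2,9,1,2,19,1,2]) 3011 4082 = true := by decide +kernel
theorem x132_18 : fam (wl [3,9,1,2,19,1,1,1]) 2390 1541 = true := by decide +kernel
theorem x132_19 : fam (wl [2,1,9,2,1,19,2,1]) 2410 1661 = true := by decide +kernel
theorem x132_20 : fam (wl [51,1,103]) 5355 206 = true := by decide +kernel
theorem x132_21 : fam (wl [1,50,1,102,1]) 50 101 = true := by decide +kernel
theorem x132_22 : fam (wl [52,104]) 52 2 = true := by decide +kernel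
theorem x132_23 : fam (wl [2,2,1,5,2,1,2,2,1,4]) 5223 4442 = true := by decide +kernel
theorem x132_24 : fam (wl [1,1,2,1,5,2,1,2,2,1,3,1]) 184 213 = true := by decide +kernel
theorem x132_25 : fam (wl [1,51,103,1]) 5355 10507 = true := by decide +kernel
theorem x132_26 : fam (wl [3,4,1,3,1,1,2,2,6]) 125 78 = true := by decide +kernel
theorem x132_27 : fam (wl [1,2,4,1,3,1,1,2,2,5,1]) 5290 7285 = true := by decide +kernel
theorem x132_28 : fam (wl [1,2,17,34,1,2]) 5017 6754 = true := by decide +kernel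
theorem x132_29 : fam (wl [3,17,34,1,1,1]) 398 261 = true := by decide +kernel
/-- words with first entry from 5383 to 5417 -/
def L132 : List (List ℕ × ℕ × ℕ) := [([2,2,9,1,19,1,4],1894,1530), ([2,4,1,5,1,2,2,2,4],3598,3262), ([1,1,4,1,5,1,2,2,2,3,1],1783,1951), ([1,1,2,9,1,19,1,3,1],3487,4159), ([1,3,10,2,1,4,1,1,1,2],3557,5378), ([4,10,2,1,4,1,1,1,1,1],1828,893), ([7,1,1,2,1,6,15],4840,1278), ([1,6,1,1,2,1,6,14,1],551,959), ([4,1,7,1,2,3,1,9],3053,1250), ([1,3,1,7,1,2,3,1,8,1],2338,3721), ([1,2,16,1,33,1,2],2197,2958), ([3,16,1,33,1,1,1],3200,2093), ([6,12,6,12],6,2), ([1,1,8,2,2,2,1,3,1,3],4380,4626), ([2,8,2,2,2,1,3,1,2,1],1019,963), ([1,5,12,6,11,1],5393,9015), ([1,1,1,9,2,1,19,3],2991,3922), ([1,2,9,1,2,19,1,2],3011,4082), ([3,9,1,2,19,1,1,1],2390,1541), ([2,1,9,2,1,19,2,1],2410,1661), ([51,1,103],5355,206), ([1,50,1,102,1],50,101), ([52,104],52,2), ([2,2,1,5,2,1,2,2,1,4],5223,4442), ([1,1,2,1,5,2,1,2,2,1,3,1],184,213), ([1,51,103,1],5355,10507), ([3,4,1,3,1,1,2,2,6],125,78),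 ([1,2,4,1,3,1,1,2,2,5,1],5290,7285), ([1,2,17,34,1,2],5017,6754), ([3,17,34,1,1,1],398,261)]
theorem r132 : rgV L132 5383 18 = true := by decide +kernel
theorem f132 : ∀ p ∈ L132, fam (wl p.1) p.2.1 p.2.2 = true := by
  intro p hp
  simp only [L132, List.mem_cons, List.not_mem_nil, or_false] at hp
  rcases hp with rfl | rfl | rfl | rfl | rfl | rfl | rfl | rfl | rfl | rfl | rfl | rfl | rfl | rfl | rfl | rfl | rfl | rfl | rfl | rfl | rfl | rfl | rfl | rfl | rfl | rfl | rfl | rfl | rfl | rfl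
  · exact x132_0
  · exact x132_1
  · exact x132_2
  · exact x132_3
  · exact x132_4
  · exact x132_5
  · exact x132_6
  · exact x132_7
  · exact x132_8
  · exact x132_9
  · exact x132_10
  · exact x132_11
  · exact x132_12
  · exact x132_13
  · exact x132_14
  · exact x132_15
  · exact x132_16
  · exact x132_17
  · exact x132_18
  · exact x132_19
  · exact x132_20
  · exact x132_21
  · exact x132_22
  · exact x132_23
  · exact x132_24
  · exact x132_25
  · exact x132_26
  · exact x132_27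
  · exact x132_28
  · exact x132_29

end Pool.Agent.V5helper47.EV
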