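import Pool.Agent.V5helper47.EV.S2

/-! Search, part of the half words. -/

set_option maxRecDepth 1000000

namespace Pool.Agent.V5helper47.EV

open H419R2 Pool.Agent.N911 Pool.Agent.V5helper47.CN

theorem x133_0 : fam (wl [2,1,1,1,4,1,2,2,3,5]) 701 530 = true := by decide +kernel
theorem x133_1 : fam (wl [1,1,1,1,1,4,1,2,2,3,4,1]) 4716 5869 = true := by decide +kernel
theorem x133_2 : fam (wl [1,2,2,10,5,4,1,2]) 2511 3578 = true := by decide +kernel
theorem x133_3 : fam (wl [1,23,1,1,3,1,11,2]) 3572 6854 = true := by decide +kernel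
theorem x133_4 : fam (wl [24,1,1,3,1,11,1,1]) 1853 151 = true := by decide +kernel
theorem x133_5 : fam (wl [3,2,10,5,4,1,1,1]) 2914 1677 = true := by decide +kernel
theorem x133_6 : fam (wl [2,13,2,2,1,6,4]) 4964 4786 = true := by decide +kernel
theorem x133_7 : fam (wl [1,1,13,2,2,1,6,3,1]) 465 483 = true := by decide +kernel
theorem x133_8 : fam (wl [2,2,10,20,1,4]) 2434 1966 = true := by decide +kernel
theorem x133_9 : fam (wl [1,13,5,2,1,1,6,2]) 4205 7818 = true := by decide +kernel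
theorem x133_10 : fam (wl [14,5,2,1,1,6,1,1]) 1226 173 = true := by decide +kernel
theorem x133_11 : fam (wl [1,1,2,10,20,1,3,1]) 2997 3575 = true := by decide +kernel
theorem x133_12 : fam (wl [19,1,2,2,39]) 4475 454 = true := by decide +kernel
theorem x133_13 : fam (wl [1,18,1,2,2,38,1]) 964 1833 = true := by decide +kernel
theorem x133_14 : fam (wl [2,1,1,1,2,2,4,1,3,5]) 3728 2834 = true := by decide +kernel
theorem x133_15 : fam (wl [1,1,1,1,1,2,2,4,1,3,4,1]) 1711 2123 = true := by decide +kernel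
theorem x133_16 : fam (wl [1,8,1,3,2,1,1,2,4,2]) 1587 2850 = true := by decide +kernel
theorem x133_17 : fam (wl [9,1,3,2,1,1,2,4,1,1]) 3854 789 = true := by decide +kernel
theorem x133_18 : fam (wl [1,12,3,1,7,6,2]) 1822 3370 = true := by decide +kernel
theorem x133_19 : fam (wl [13,3,1,7,6,1,1]) 3625 547 = true := by decide +kernel
theorem x133_20 : fam (wl [1,8,1,1,1,1,3,3,4,2]) 3896 6982 = true := by decide +kernel
theorem x133_21 : fam (wl [9,1,1,1,1,3,3,4,1,1]) 1551 323 = true := by decide +kernel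
theorem x133_22 : fam (wl [3,2,7,14,1,6]) 4025 2322 = true := by decide +kernel
theorem x133_23 : fam (wl [2,5,3,1,2,1,1,1,2,4]) 5021 4586 = true := by decide +kernel
theorem x133_24 : fam (wl [1,7,9,4,1,1,3,2]) 1041 1826 = true := by decide +kernel
theorem x133_25 : fam (wl [1,21,3,1,1,1,10,2]) 3418 6530 = true := by decide +kernel
theorem x133_26 : fam (wl [22,3,1,1,1,10,1,1]) 2037 183 = true := by decide +kernel
theorem x133_27 : fam (wl [8,9,4,1,1,3,1,1]) 4414 1089 = true := by decide +kernel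
theorem x133_28 : fam (wl [1,1,5,3,1,2,1,1,1,2,3,1]) 434 473 = true := by decide +kernel
theorem x133_29 : fam (wl [1,2,2,7,14,1,5,1]) 1430 2037 = true := by decide +kernel
/-- words with first entry from 5419 to 5469 -/
def L133 : List (List ℕ × ℕ × ℕ) := [([2,1,1,1,4,1,2,2,3,5],701,530), ([1,1,1,1,1,4,1,2,2,3,4,1],4716,5869), ([1,2,2,10,5,4,1,2],2511,3578), ([1,23,1,1,3,1,11,2],3572,6854), ([24,1,1,3,1,11,1,1],1853,151), ([3,2,10,5,4,1,1,1],2914,1677), ([2,13,2,2,1,6,4],4964,4786), ([1,1,13,2,2,1,6,3,1],465,483), ([2,2,10,20,1,4],2434,1966), ([1,13,5,2,1,1,6,2],4205,7818), ([14,5,2,1,1,6,1,1],1226,173), ([1,1,2,10,20,1,3,1],2997,3575), ([19,1,2,2,39],4475,454), ([1,18,1,2,2,38,1],964,1833), ([2,1,1,1,2,2,4,1,3,5],3728,2834), ([1,1,1,1,1,2,2,4,1,3,4,1],1711,2123), ([1,8,1,3,2,1,1,2,4,2],1587,2850), ([9,1,3,2,1,1,2,4,1,1],3854,789), ([1,12,3,1,7,6,2],1822,3370), ([13,3,1,7,6,1,1],3625,547), ([1,8,1,1,1,1,3,3,4,2],3896,6982), ([9,1,1,1,1,3,3,4,1,1],1551,323),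 ([3,2,7,14,1,6],4025,2322), ([2,5,3,1,2,1,1,1,2,4],5021,4586), ([1,7,9,4,1,1,3,2],1041,1826), ([1,21,3,1,1,1,10,2],3418,6530), ([22,3,1,1,1,10,1,1],2037,183), ([8,9,4,1,1,3,1,1],4414,1089), ([1,1,5,3,1,2,1,1,1,2,3,1],434,473), ([1,2,2,7,14,1,5,1],1430,2037)]
theorem r133 : rgV L133 5419 26 = true := by decide +kernel
theorem f133 : ∀ p ∈ L133, fam (wl p.1) p.2.1 p.2.2 = true := by
  intro p hp
  simp only [L133, List.mem_cons, List.not_mem_nil, or_false] at hp
  rcases hp with rfl | rfl | rfl | rfl | rfl | rfl | rfl | rfl | rfl | rfl | rfl | rfl | rfl | rfl | rfl | rfl | rfl | rfl | rfl | rfl | rfl | rfl | rfl | rfl | rfl | rfl | rfl | rfl | rfl | rfl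
  · exact x133_0
  · exact x133_1
  · exact x133_2
  · exact x133_3
  · exact x133_4
  · exact x133_5
  · exact x133_6
  · exact x133_7
  · exact x133_8
  · exact x133_9
  · exact x133_10
  · exact x133_11
  · exact x133_12
  · exact x133_13
  · exact x133_14
  · exact x133_15
  · exact x133_16
  · exact x133_17
  · exact x133_18
  · exact x133_19
  · exact x133_20
  · exact x133_21
  · exact x133_22
  · exact x133_23
  · exact x133_24
  · exact x133_25
  · exact x133_26
  · exact x133_27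
  · exact x133_28
  · exact x133_29

end Pool.Agent.V5helper47.EV
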