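import Pool.Agent.V5helper47.EV.S2

/-! Search, part of the half words. -/

set_option maxRecDepth 1000000

namespace Pool.Agent.V5helper47.EV

open H419R2 Pool.Agent.N911 Pool.Agent.V5helper47.CN

theorem x134_0 : fam (wl [3,5,1,1,1,4,1,2,6]) 1922 1210 = true := by decide +kernel
theorem x134_1 : fam (wl [1,2,5,1,1,1,4,1,2,5,1]) 3547 4863 = true := by decide +kernel
theorem x134_2 : fam (wl [2,7,4,1,1,1,1,3,4]) 5220 4882 = true := by decide +kernel
theorem x134_3 : fam (wl [1,1,7,4,1,1,1,1,3,3,1]) 257 275 = true := by decide +kernel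
theorem x134_4 : fam (wl [1,1,2,1,1,1,3,1,1,4,2,3]) 4991 5786 = true := by decide +kernel
theorem x134_5 : fam (wl [2,2,1,1,1,3,1,1,4,2,2,1]) 490 413 = true := by decide +kernel
theorem x134_6 : fam (wl [12,1,2,2,2,25]) 3672 578 = true := by decide +kernel
theorem x134_7 : fam (wl [2,3,1,5,11,1,1,4]) 4216 3730 = true := by decide +kernel
theorem x134_8 : fam (wl [1,1,3,1,5,11,1,1,3,1]) 1271 1419 = true := by decide +kernel
theorem x134_9 : fam (wl [1,11,1,2,2,2,24,1]) 1815 3347 = true := by decide +kernel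
theorem x134_10 : fam (wl [9,8,4,18]) 4442 974 = true := by decide +kernel
theorem x134_11 : fam (wl [1,2,1,2,1,4,2,2,1,2,1,2]) 2554 3742 = true := by decide +kernel
theorem x134_12 : fam (wl [3,1,2,1,4,2,2,1,2,1,1,1]) 2935 1571 = true := by decide +kernel
theorem x134_13 : fam (wl [1,8,8,4,17,1]) 1047 1867 = true := by decide +kernel
theorem x134_14 : fam (wl [2,1,2,8,1,3,1,2,5]) 2826 2110 = true := by decide +kernel
theorem x134_15 : fam (wl [1,1,4,1,3,1,8,1,1,1,3]) 4530 4958 = true := by decide +kernel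
theorem x134_16 : fam (wl [2,4,1,3,1,8,1,1,1,2,1]) 965 875 = true := by decide +kernel
theorem x134_17 : fam (wl [1,1,1,2,8,1,3,1,2,4,1]) 2669 3347 = true := by decide +kernel
theorem x134_18 : fam (wl [1,10,1,1,2,2,3,5,2]) 3492 6382 = true := by decide +kernel
theorem x134_19 : fam (wl [11,1,1,2,2,3,5,1,1]) 2009 347 = true := by decide +kernel
theorem x134_20 : fam (wl [1,3,1,2,2,1,2,1,5,1,1,2]) 72 114 = true := by decide +kernel
theorem x134_21 : fam (wl [4,1,2,2,1,2,1,5,1,1,1,1]) 5433 2311 = true := by decide +kernel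
theorem x134_22 : fam (wl [1,2,6,3,1,1,12,1,2]) 2825 3862 = true := by decide +kernel
theorem x134_23 : fam (wl [3,6,3,1,1,12,1,1,1]) 2692 1705 = true := by decide +kernel
theorem x134_24 : fam (wl [1,3,1,1,2,1,1,3,1,3,1,1,2]) 3314 5182 = true := by decide +kernel
theorem x134_25 : fam (wl [4,1,1,2,1,1,3,1,3,1,1,1,1]) 2205 963 = true := by decide +kernel
theorem x134_26 : fam (wl [30,2,1,60]) 273 18 = true := by decide +kernel
theorem x134_27 : fam (wl [1,29,2,1,59,1]) 5246 10149 = true := by decide +kernel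
theorem x134_28 : fam (wl [2,2,1,9,1,4,2,1,4]) 3879 3310 = true := by decide +kernel
theorem x134_29 : fam (wl [1,1,2,1,9,1,4,2,1,3,1]) 1646 1889 = true := by decide +kernel
/-- words with first entry from 5471 to 5527 -/
def L134 : List (List ℕ × ℕ × ℕ) := [([3,5,1,1,1,4,1,2,6],1922,1210), ([1,2,5,1,1,1,4,1,2,5,1],3547,4863), ([2,7,4,1,1,1,1,3,4],5220,4882), ([1,1,7,4,1,1,1,1,3,3,1],257,275), ([1,1,2,1,1,1,3,1,1,4,2,3],4991,5786), ([2,2,1,1,1,3,1,1,4,2,2,1],490,413), ([12,1,2,2,2,25],3672,578), ([2,3,1,5,11,1,1,4],4216,3730), ([1,1,3,1,5,11,1,1,3,1],1271,1419), ([1,11,1,2,2,2,24,1],1815,3347), ([9,8,4,18],4442,974), ([1,2,1,2,1,4,2,2,1,2,1,2],2554,3742), ([3,1,2,1,4,2,2,1,2,1,1,1],2935,1571), ([1,8,8,4,17,1],1047,1867), ([2,1,2,8,1,3,1,2,5],2826,2110), ([1,1,4,1,3,1,8,1,1,1,3],4530,4958), ([2,4,1,3,1,8,1,1,1,2,1],965,875), ([1,1,1,2,8,1,3,1,2,4,1],2669,3347), ([1,10,1,1,2,2,3,5,2],3492,6382), ([11,1,1,2,2,3,5,1,1],2009,347), ([1,3,1,2,2,1,2,1,5,1,1,2],72,114),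 ([4,1,2,2,1,2,1,5,1,1,1,1],5433,2311), ([1,2,6,3,1,1,12,1,2],2825,3862), ([3,6,3,1,1,12,1,1,1],2692,1705), ([1,3,1,1,2,1,1,3,1,3,1,1,2],3314,5182), ([4,1,1,2,1,1,3,1,3,1,1,1,1],2205,963), ([30,2,1,60],273,18), ([1,29,2,1,59,1],5246,10149), ([2,2,1,9,1,4,2,1,4],3879,3310), ([1,1,2,1,9,1,4,2,1,3,1],1646,1889)]
theorem r134 : rgV L134 5471 29 = true := by decide +kernel
theorem f134 : ∀ p ∈ L134, fam (wl p.1) p.2.1 p.2.2 = true := by
  intro p hp
  simp only [L134, List.mem_cons, List.not_mem_nil, or_false] at hp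
  rcases hp with rfl | rfl | rfl | rfl | rfl | rfl | rfl | rfl | rfl | rfl | rfl | rfl | rfl | rfl | rfl | rfl | rfl | rfl | rfl | rfl | rfl | rfl | rfl | rfl | rfl | rfl | rfl | rfl | rfl | rfl
  · exact x134_0
  · exact x134_1
  · exact x134_2
  · exact x134_3
  · exact x134_4
  · exact x134_5
  · exact x134_6
  · exact x134_7
  · exact x134_8
  · exact x134_9
  · exact x134_10
  · exact x134_11
  · exact x134_12
  · exact x134_13
  · exact x134_14
  · exact x134_15
  · exact x134_16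
  · exact x134_17
  · exact x134_18
  · exact x134_19
  · exact x134_20
  · exact x134_21
  · exact x134_22
  · exact x134_23
  · exact x134_24
  · exact x134_25
  · exact x134_26
  · exact x134_27
  · exact x134_28
  · exact x134_29

end Pool.Agent.V5helper47.EV
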