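import Pool.Agent.V5helper47.EV.S2

/-! Search, part of the half words. -/

set_option maxRecDepth 1000000

namespace Pool.Agent.V5helper47.EV

open H419R2 Pool.Agent.N911 Pool.Agent.V5helper47.CN

theorem x135_0 : fam (wl [3,1,5,2,4,2,1,7]) 1757 914 = true := by decide +kernel
theorem x135_1 : fam (wl [3,3,7,3,1,1,1,6]) 4510 2718 = true := by decide +kernel
theorem x135_2 : fam (wl [2,1,2,1,4,9,2,5]) 2247 1642 = true := by decide +kernel
theorem x135_3 : fam (wl [2,2,5,1,2,11,1,4]) 5000 4066 = true := by decide +kernel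
theorem x135_4 : fam (wl [1,1,2,5,1,2,11,1,3,1]) 527 627 = true := by decide +kernel
theorem x135_5 : fam (wl [1,1,1,2,1,4,9,2,4,1]) 3280 4165 = true := by decide +kernel
theorem x135_6 : fam (wl [1,2,3,7,3,1,1,1,5,1]) 1017 1423 = true := by decide +kernel
theorem x135_7 : fam (wl [1,2,1,5,2,4,2,1,6,1]) 3770 5581 = true := by decide +kernel
theorem x135_8 : fam (wl [1,1,2,4,1,1,3,1,1,1,2,3]) 4387 5194 = true := by decide +kernel
theorem x135_9 : fam (wl [2,2,4,1,1,3,1,1,1,2,2,1]) 1142 933 = true := by decide +kernel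
theorem x135_10 : fam (wl [5,5,2,2,1,2,10]) 368 142 = true := by decide +kernel
theorem x135_11 : fam (wl [1,7,1,4,1,10,1,3,2]) 4207 7462 = true := by decide +kernel
theorem x135_12 : fam (wl [8,1,4,1,10,1,3,1,1]) 1328 301 = true := by decide +kernel
theorem x135_13 : fam (wl [1,4,5,2,2,1,2,9,1]) 5167 8343 = true := by decide +kernel
theorem x135_14 : fam (wl [2,1,5,2,1,5,2,1,5]) 3698 2602 = true := by decide +kernel
theorem x135_15 : fam (wl [1,1,13,1,1,3,6,1,3]) 3594 3722 = true := by decide +kernel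
theorem x135_16 : fam (wl [2,13,1,1,3,6,1,2,1]) 1947 1879 = true := by decide +kernel
theorem x135_17 : fam (wl [1,1,1,5,2,1,5,2,1,4,1]) 1843 2391 = true := by decide +kernel
theorem x135_18 : fam (wl [5,3,2,2,2,1,1,10]) 1953 738 = true := by decide +kernel
theorem x135_19 : fam (wl [2,10,1,2,1,2,5,4]) 1128 1078 = true := by decide +kernel
theorem x135_20 : fam (wl [1,1,10,1,2,1,2,5,3,1]) 4417 4615 = true := by decide +kernel
theorem x135_21 : fam (wl [1,4,3,2,2,2,1,1,9,1]) 3592 5829 = true := by decide +kernel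
theorem x135_22 : fam (wl [2,1,13,1,2,6,1,5]) 466 318 = true := by decide +kernel
theorem x135_23 : fam (wl [1,1,3,2,4,2,4,1,1,3]) 740 834 = true := by decide +kernel
theorem x135_24 : fam (wl [2,3,2,4,2,4,1,1,2,1]) 4811 4203 = true := by decide +kernel
theorem x135_25 : fam (wl [1,1,1,13,1,2,6,1,4,1]) 5085 6703 = true := by decide +kernel
theorem x135_26 : fam (wl [1,1,4,2,3,1,1,2,1,1,1,3]) 481 530 = true := by decide +kernel
theorem x135_27 : fam (wl [1,10,2,1,2,5,5,2]) 4474 8162 = true := by decide +kernel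
theorem x135_28 : fam (wl [11,2,1,2,5,5,1,1]) 1085 191 = true := by decide +kernel
theorem x135_29 : fam (wl [2,4,2,3,1,1,2,1,1,1,2,1]) 5078 4565 = true := by decide +kernel
/-- words with first entry from 5529 to 5561 -/
def L135 : List (List ℕ × ℕ × ℕ) := [([3,1,5,2,4,2,1,7],1757,914), ([3,3,7,3,1,1,1,6],4510,2718), ([2,1,2,1,4,9,2,5],2247,1642), ([2,2,5,1,2,11,1,4],5000,4066), ([1,1,2,5,1,2,11,1,3,1],527,627), ([1,1,1,2,1,4,9,2,4,1],3280,4165), ([1,2,3,7,3,1,1,1,5,1],1017,1423), ([1,2,1,5,2,4,2,1,6,1],3770,5581), ([1,1,2,4,1,1,3,1,1,1,2,3],4387,5194), ([2,2,4,1,1,3,1,1,1,2,2,1],1142,933), ([5,5,2,2,1,2,10],368,142), ([1,7,1,4,1,10,1,3,2],4207,7462), ([8,1,4,1,10,1,3,1,1],1328,301), ([1,4,5,2,2,1,2,9,1],5167,8343), ([2,1,5,2,1,5,2,1,5],3698,2602), ([1,1,13,1,1,3,6,1,3],3594,3722), ([2,13,1,1,3,6,1,2,1],1947,1879), ([1,1,1,5,2,1,5,2,1,4,1],1843,2391), ([5,3,2,2,2,1,1,10],1953,738), ([2,10,1,2,1,2,5,4],1128,1078), ([1,1,10,1,2,1,2,5,3,1],4417,4615),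 ([1,4,3,2,2,2,1,1,9,1],3592,5829), ([2,1,13,1,2,6,1,5],466,318), ([1,1,3,2,4,2,4,1,1,3],740,834), ([2,3,2,4,2,4,1,1,2,1],4811,4203), ([1,1,1,13,1,2,6,1,4,1],5085,6703), ([1,1,4,2,3,1,1,2,1,1,1,3],481,530), ([1,10,2,1,2,5,5,2],4474,8162), ([11,2,1,2,5,5,1,1],1085,191), ([2,4,2,3,1,1,2,1,1,1,2,1],5078,4565)]
theorem r135 : rgV L135 5529 17 = true := by decide +kernel
theorem f135 : ∀ p ∈ L135, fam (wl p.1) p.2.1 p.2.2 = true := by
  intro p hp
  simp only [L135, List.mem_cons, List.not_mem_nil, or_false] at hp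
  rcases hp with rfl | rfl | rfl | rfl | rfl | rfl | rfl | rfl | rfl | rfl | rfl | rfl | rfl | rfl | rfl | rfl | rfl | rfl | rfl | rfl | rfl | rfl | rfl | rfl | rfl | rfl | rfl | rfl | rfl | rfl
  · exact x135_0
  · exact x135_1
  · exact x135_2
  · exact x135_3
  · exact x135_4
  · exact x135_5
  · exact x135_6
  · exact x135_7
  · exact x135_8
  · exact x135_9
  · exact x135_10
  · exact x135_11
  · exact x135_12
  · exact x135_13
  · exact x135_14
  · exact x135_15
  · exact x135_16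
  · exact x135_17
  · exact x135_18
  · exact x135_19
  · exact x135_20
  · exact x135_21
  · exact x135_22
  · exact x135_23
  · exact x135_24
  · exact x135_25
  · exact x135_26
  · exact x135_27
  · exact x135_28
  · exact x135_29

end Pool.Agent.V5helper47.EV
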