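import Pool.Agent.V5helper47.EV.S2

/-! Search, part of the half words. -/

set_option maxRecDepth 1000000

namespace Pool.Agent.V5helper47.EV

open H419R2 Pool.Agent.N911 Pool.Agent.V5helper47.CN

theorem x136_0 : fam (wl [1,5,2,1,2,5,2,1,2,2]) 2086 3518 = true := by decide +kernel
theorem x136_1 : fam (wl [6,2,1,2,5,2,1,2,1,1]) 3475 1091 = true := by decide +kernel
theorem x136_2 : fam (wl [3,1,1,6,1,14,7]) 2484 1406 = true := by decide +kernel
theorem x136_3 : fam (wl [1,2,1,1,6,1,14,6,1]) 3083 4423 = true := by decide +kernel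
theorem x136_4 : fam (wl [1,1,1,4,1,1,1,3,10,3]) 4672 6034 = true := by decide +kernel
theorem x136_5 : fam (wl [2,1,4,1,1,1,3,10,2,1]) 895 635 = true := by decide +kernel
theorem x136_6 : fam (wl [5,1,6,2,1,2,1,11]) 5049 1722 = true := by decide +kernel
theorem x136_7 : fam (wl [3,1,1,1,6,3,3,7]) 3479 1906 = true := by decide +kernel
theorem x136_8 : fam (wl [1,2,1,1,1,6,3,3,6,1]) 2090 3037 = true := by decide +kernel
theorem x136_9 : fam (wl [1,4,1,6,2,1,2,1,10,1]) 520 865 = true := by decide +kernel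
theorem x136_10 : fam (wl [12,1,4,1,1,1,25]) 1885 294 = true := by decide +kernel
theorem x136_11 : fam (wl [1,11,1,4,1,1,1,24,1]) 3704 6833 = true := by decide +kernel
theorem x136_12 : fam (wl [3,1,1,2,3,1,1,5,7]) 4340 2418 = true := by decide +kernel
theorem x136_13 : fam (wl [2,1,1,9,1,20,5]) 179 142 = true := by decide +kernel
theorem x136_14 : fam (wl [1,2,1,17,1,8,2,1,2]) 5527 8254 = true := by decide +kernel
theorem x136_15 : fam (wl [1,6,2,1,2,2,5,3,2]) 1366 2362 = true := by decide +kernel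
theorem x136_16 : fam (wl [7,2,1,2,2,5,3,1,1]) 4225 1147 = true := by decide +kernel
theorem x136_17 : fam (wl [3,1,17,1,8,2,1,1,1]) 64 33 = true := by decide +kernel
theorem x136_18 : fam (wl [1,1,1,1,9,1,20,4,1]) 5412 6537 = true := by decide +kernel
theorem x136_19 : fam (wl [1,2,1,1,2,3,1,1,5,6,1]) 1251 1807 = true := by decide +kernel
theorem x136_20 : fam (wl [9,4,1,2,2,18]) 4431 962 = true := by decide +kernel
theorem x136_21 : fam (wl [1,3,2,4,2,1,1,1,2,1,1,2]) 1941 3010 = true := by decide +kernel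
theorem x136_22 : fam (wl [4,2,4,2,1,1,1,2,1,1,1,1]) 3658 1645 = true := by decide +kernel
theorem x136_23 : fam (wl [1,8,4,1,2,2,17,1]) 1168 2085 = true := by decide +kernel
theorem x136_24 : fam (wl [2,1,1,1,1,1,1,1,4,4,5]) 5072 3874 = true := by decide +kernel
theorem x136_25 : fam (wl [1,1,1,16,1,34,3]) 1040 1374 = true := by decide +kernel
theorem x136_26 : fam (wl [2,1,16,1,34,2,1]) 4567 3103 = true := by decide +kernel
theorem x136_27 : fam (wl [1,1,1,1,1,1,1,1,1,4,4,4,1]) 535 663 = true := by decide +kernel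
/-- words with first entry from 5563 to 5615 -/
def L136 : List (List ℕ × ℕ × ℕ) := [([1,5,2,1,2,5,2,1,2,2],2086,3518), ([6,2,1,2,5,2,1,2,1,1],3475,1091), ([3,1,1,6,1,14,7],2484,1406), ([1,2,1,1,6,1,14,6,1],3083,4423), ([1,1,1,4,1,1,1,3,10,3],4672,6034), ([2,1,4,1,1,1,3,10,2,1],895,635), ([5,1,6,2,1,2,1,11],5049,1722), ([3,1,1,1,6,3,3,7],3479,1906), ([1,2,1,1,1,6,3,3,6,1],2090,3037), ([1,4,1,6,2,1,2,1,10,1],520,865), ([12,1,4,1,1,1,25],1885,294), ([1,11,1,4,1,1,1,24,1],3704,6833), ([3,1,1,2,3,1,1,5,7],4340,2418), ([2,1,1,9,1,20,5],179,142), ([1,2,1,17,1,8,2,1,2],5527,8254), ([1,6,2,1,2,2,5,3,2],1366,2362), ([7,2,1,2,2,5,3,1,1],4225,1147), ([3,1,17,1,8,2,1,1,1],64,33), ([1,1,1,1,9,1,20,4,1],5412,6537), ([1,2,1,1,2,3,1,1,5,6,1],1251,1807), ([9,4,1,2,2,18],4431,962), ([1,3,2,4,2,1,1,1,2,1,1,2],1941,3010), ([4,2,4,2,1,1,1,2,1,1,1,1],3658,1645), ([1,8,4,1,2,2,17,1],1168,2085), ([2,1,1,1,1,1,1,1,4,4,5],5072,3874), ([1,1,1,16,1,34,3],1040,1374), ([2,1,16,1,34,2,1],4567,3103),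 ([1,1,1,1,1,1,1,1,1,4,4,4,1],535,663)]
theorem r136 : rgV L136 5563 27 = true := by decide +kernel
theorem f136 : ∀ p ∈ L136, fam (wl p.1) p.2.1 p.2.2 = true := by
  intro p hp
  simp only [L136, List.mem_cons, List.not_mem_nil, or_false] at hp
  rcases hp with rfl | rfl | rfl | rfl | rfl | rfl | rfl | rfl | rfl | rfl | rfl | rfl | rfl | rfl | rfl | rfl | rfl | rfl | rfl | rfl | rfl | rfl | rfl | rfl | rfl | rfl | rfl | rfl
  · exact x136_0
  · exact x136_1
  · exact x136_2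
  · exact x136_3
  · exact x136_4
  · exact x136_5
  · exact x136_6
  · exact x136_7
  · exact x136_8
  · exact x136_9
  · exact x136_10
  · exact x136_11
  · exact x136_12
  · exact x136_13
  · exact x136_14
  · exact x136_15
  · exact x136_16
  · exact x136_17
  · exact x136_18
  · exact x136_19
  · exact x136_20
  · exact x136_21
  · exact x136_22
  · exact x136_23
  · exact x136_24
  · exact x136_25
  · exact x136_26
  · exact x136_27

end Pool.Agent.V5helper47.EV
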