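import Pool.Agent.V5helper47.EV.S2

/-! Search, part of the half words. -/

set_option maxRecDepth 1000000

namespace Pool.Agent.V5helper47.EV

open H419R2 Pool.Agent.N911 Pool.Agent.V5helper47.CN

theorem x138_0 : fam (wl [30,1,2,61]) 276 18 = true := by decide +kernel
theorem x138_1 : fam (wl [2,1,1,10,21,5]) 4333 3434 = true := by decide +kernel
theorem x138_2 : fam (wl [1,1,4,2,1,1,3,2,1,1,1,3]) 887 978 = true := by decide +kernel
theorem x138_3 : fam (wl [1,10,1,2,1,2,1,2,5,2]) 4944 9046 = true := by decide +kernel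
theorem x138_4 : fam (wl [11,1,2,1,2,1,2,5,1,1]) 697 119 = true := by decide +kernel
theorem x138_5 : fam (wl [2,4,2,1,1,3,2,1,1,1,2,1]) 4754 4269 = true := by decide +kernel
theorem x138_6 : fam (wl [1,1,1,1,10,21,4,1]) 1308 1581 = true := by decide +kernel
theorem x138_7 : fam (wl [1,29,1,2,60,1]) 5365 10383 = true := by decide +kernel
theorem x138_8 : fam (wl [6,4,1,1,3,2,12]) 740 238 = true := by decide +kernel
theorem x138_9 : fam (wl [1,5,4,1,1,3,2,11,1]) 4905 8235 = true := by decide +kernel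
theorem x138_10 : fam (wl [1,3,1,5,2,1,11,1,1,2]) 4563 7242 = true := by decide +kernel
theorem x138_11 : fam (wl [4,1,5,2,1,11,1,1,1,1]) 1086 449 = true := by decide +kernel
theorem x138_12 : fam (wl [1,27,2,2,1,13,2]) 4590 8858 = true := by decide +kernel
theorem x138_13 : fam (wl [28,2,2,1,13,1,1]) 1065 75 = true := by decide +kernel
theorem x138_14 : fam (wl [1,2,1,18,9,2,1,2]) 4308 6434 = true := by decide +kernel
theorem x138_15 : fam (wl [3,1,18,9,2,1,1,1]) 1347 683 = true := by decide +kernel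
theorem x138_16 : fam (wl [1,1,2,1,3,1,2,8,2,3]) 2640 3042 = true := by decide +kernel
theorem x138_17 : fam (wl [2,2,1,3,1,2,8,2,2,1]) 3017 2559 = true := by decide +kernel
theorem x138_18 : fam (wl [5,1,1,1,3,1,1,3,11]) 626 222 = true := by decide +kernel
theorem x138_19 : fam (wl [2,6,3,1,7,3,4]) 2706 2506 = true := by decide +kernel
theorem x138_20 : fam (wl [1,1,6,3,1,7,3,3,1]) 2955 3175 = true := by decide +kernel
theorem x138_21 : fam (wl [1,4,1,1,1,3,1,1,3,10,1]) 5035 8287 = true := by decide +kernel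
theorem x138_22 : fam (wl [3,1,1,7,15,7]) 710 402 = true := by decide +kernel
theorem x138_23 : fam (wl [2,1,1,1,1,5,2,1,4,5]) 5586 4286 = true := by decide +kernel
theorem x138_24 : fam (wl [1,1,1,1,1,1,5,2,1,4,4,1]) 79 99 = true := by decide +kernel
theorem x138_25 : fam (wl [1,2,1,1,7,15,6,1]) 4955 7107 = true := by decide +kernel
theorem x138_26 : fam (wl [5,2,2,2,1,4,1,10]) 5461 2018 = true := by decide +kernel
theorem x138_27 : fam (wl [1,4,2,2,2,1,4,1,9,1]) 220 361 = true := by decide +kernel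
/-- words with first entry from 5643 to 5687 -/
def L138 : List (List ℕ × ℕ × ℕ) := [([30,1,2,61],276,18), ([2,1,1,10,21,5],4333,3434), ([1,1,4,2,1,1,3,2,1,1,1,3],887,978), ([1,10,1,2,1,2,1,2,5,2],4944,9046), ([11,1,2,1,2,1,2,5,1,1],697,119), ([2,4,2,1,1,3,2,1,1,1,2,1],4754,4269), ([1,1,1,1,10,21,4,1],1308,1581), ([1,29,1,2,60,1],5365,10383), ([6,4,1,1,3,2,12],740,238), ([1,5,4,1,1,3,2,11,1],4905,8235), ([1,3,1,5,2,1,11,1,1,2],4563,7242), ([4,1,5,2,1,11,1,1,1,1],1086,449), ([1,27,2,2,1,13,2],4590,8858), ([28,2,2,1,13,1,1],1065,75), ([1,2,1,18,9,2,1,2],4308,6434), ([3,1,18,9,2,1,1,1],1347,683), ([1,1,2,1,3,1,2,8,2,3],2640,3042), ([2,2,1,3,1,2,8,2,2,1],3017,2559), ([5,1,1,1,3,1,1,3,11],626,222), ([2,6,3,1,7,3,4],2706,2506), ([1,1,6,3,1,7,3,3,1],2955,3175), ([1,4,1,1,1,3,1,1,3,10,1],5035,8287), ([3,1,1,7,15,7],710,402), ([2,1,1,1,1,5,2,1,4,5],5586,4286), ([1,1,1,1,1,1,5,2,1,4,4,1],79,99), ([1,2,1,1,7,15,6,1],4955,7107), ([5,2,2,2,1,4,1,10],5461,2018), ([1,4,2,2,2,1,4,1,9,1],220,361)]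
theorem r138 : rgV L138 5643 23 = true := by decide +kernel
theorem f138 : ∀ p ∈ L138, fam (wl p.1) p.2.1 p.2.2 = true := by
  intro p hp
  simp only [L138, List.mem_cons, List.not_mem_nil, or_false] at hp
  rcases hp with rfl | rfl | rfl | rfl | rfl | rfl | rfl | rfl | rfl | rfl | rfl | rfl | rfl | rfl | rfl | rfl | rfl | rfl | rfl | rfl | rfl | rfl | rfl | rfl | rfl | rfl | rfl | rfl
  · exact x138_0
  · exact x138_1
  · exact x138_2
  · exact x138_3
  · exact x138_4
  · exact x138_5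
  · exact x138_6
  · exact x138_7
  · exact x138_8
  · exact x138_9
  · exact x138_10
  · exact x138_11
  · exact x138_12
  · exact x138_13
  · exact x138_14
  · exact x138_15
  · exact x138_16
  · exact x138_17
  · exact x138_18
  · exact x138_19
  · exact x138_20
  · exact x138_21
  · exact x138_22
  · exact x138_23
  · exact x138_24
  · exact x138_25
  · exact x138_26
  · exact x138_27

end Pool.Agent.V5helper47.EV
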