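import Pool.Agent.V5helper47.EV.S2

/-! Search, part of the half words. -/

set_option maxRecDepth 1000000

namespace Pool.Agent.V5helper47.EV

open H419R2 Pool.Agent.N911 Pool.Agent.V5helper47.CN

theorem x139_0 : fam (wl [1,1,8,1,1,1,4,1,3,1,3]) 2501 2638 = true := by decide +kernel
theorem x139_1 : fam (wl [2,8,1,1,1,4,1,3,1,2,1]) 3186 3013 = true := by decide +kernel
theorem x139_2 : fam (wl [17,1,3,1,1,35]) 1440 162 = true := by decide +kernel
theorem x139_3 : fam (wl [1,16,1,3,1,1,34,1]) 4247 8019 = true := by decide +kernel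
theorem x139_4 : fam (wl [1,6,1,1,2,2,2,3,3,2]) 5624 9766 = true := by decide +kernel
theorem x139_5 : fam (wl [1,16,3,6,8,2]) 2709 5106 = true := by decide +kernel
theorem x139_6 : fam (wl [17,3,6,8,1,1]) 2986 345 = true := by decide +kernel
theorem x139_7 : fam (wl [7,1,1,2,2,2,3,3,1,1]) 71 19 = true := by decide +kernel
theorem x139_8 : fam (wl [1,3,2,1,1,1,2,4,2,1,1,2]) 4557 7034 = true := by decide +kernel
theorem x139_9 : fam (wl [1,7,1,5,11,1,3,2]) 3900 6918 = true := by decide +kernel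
theorem x139_10 : fam (wl [8,1,5,11,1,3,1,1]) 1797 407 = true := by decide +kernel
theorem x139_11 : fam (wl [4,2,1,1,1,2,4,2,1,1,1,1]) 1140 521 = true := by decide +kernel
theorem x139_12 : fam (wl [1,9,1,3,1,8,1,4,2]) 2196 3986 = true := by decide +kernel
theorem x139_13 : fam (wl [10,1,3,1,8,1,4,1,1]) 3513 651 = true := by decide +kernel
theorem x139_14 : fam (wl [2,1,4,5,2,1,1,1,1,5]) 3753 2674 = true := by decide +kernel
theorem x139_15 : fam (wl [1,42,1,2,21,2]) 1331 2602 = true := by decide +kernel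
theorem x139_16 : fam (wl [43,1,2,21,1,1]) 4388 201 = true := by decide +kernel
theorem x139_17 : fam (wl [1,1,1,4,5,2,1,1,1,1,4,1]) 1966 2533 = true := by decide +kernel
theorem x139_18 : fam (wl [2,2,1,10,5,2,1,4]) 888 758 = true := by decide +kernel
theorem x139_19 : fam (wl [2,21,2,1,10,4]) 4816 4706 = true := by decide +kernel
theorem x139_20 : fam (wl [1,1,21,2,1,10,3,1]) 905 927 = true := by decide +kernel
theorem x139_21 : fam (wl [1,1,2,1,10,5,2,1,3,1]) 4833 5543 = true := by decide +kernel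
theorem x139_22 : fam (wl [1,2,2,1,6,1,2,1,5,1,2]) 5174 7258 = true := by decide +kernel
theorem x139_23 : fam (wl [1,14,1,3,1,1,2,7,2]) 654 1226 = true := by decide +kernel
theorem x139_24 : fam (wl [15,1,3,1,1,2,7,1,1]) 5073 643 = true := by decide +kernel
theorem x139_25 : fam (wl [3,2,1,6,1,2,1,5,1,1,1]) 553 331 = true := by decide +kernel
theorem x139_26 : fam (wl [3,7,3,1,1,1,3,6]) 2149 1370 = true := by decide +kernel
theorem x139_27 : fam (wl [1,2,1,5,1,1,3,1,2,2,1,2]) 3460 5122 = true := by decide +kernel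
theorem x139_28 : fam (wl [3,1,5,1,1,3,1,2,2,1,1,1]) 2267 1179 = true := by decide +kernel
theorem x139_29 : fam (wl [1,2,7,3,1,1,1,3,5,1]) 3578 4877 = true := by decide +kernel
/-- words with first entry from 5689 to 5729 -/
def L139 : List (List ℕ × ℕ × ℕ) := [([1,1,8,1,1,1,4,1,3,1,3],2501,2638), ([2,8,1,1,1,4,1,3,1,2,1],3186,3013), ([17,1,3,1,1,35],1440,162), ([1,16,1,3,1,1,34,1],4247,8019), ([1,6,1,1,2,2,2,3,3,2],5624,9766), ([1,16,3,6,8,2],2709,5106), ([17,3,6,8,1,1],2986,345), ([7,1,1,2,2,2,3,3,1,1],71,19), ([1,3,2,1,1,1,2,4,2,1,1,2],4557,7034), ([1,7,1,5,11,1,3,2],3900,6918), ([8,1,5,11,1,3,1,1],1797,407), ([4,2,1,1,1,2,4,2,1,1,1,1],1140,521), ([1,9,1,3,1,8,1,4,2],2196,3986), ([10,1,3,1,8,1,4,1,1],3513,651), ([2,1,4,5,2,1,1,1,1,5],3753,2674), ([1,42,1,2,21,2],1331,2602), ([43,1,2,21,1,1],4388,201), ([1,1,1,4,5,2,1,1,1,1,4,1],1966,2533), ([2,2,1,10,5,2,1,4],888,758), ([2,21,2,1,10,4],4816,4706), ([1,1,21,2,1,10,3,1],905,927), ([1,1,2,1,10,5,2,1,3,1],4833,5543),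 ([1,2,2,1,6,1,2,1,5,1,2],5174,7258), ([1,14,1,3,1,1,2,7,2],654,1226), ([15,1,3,1,1,2,7,1,1],5073,643), ([3,2,1,6,1,2,1,5,1,1,1],553,331), ([3,7,3,1,1,1,3,6],2149,1370), ([1,2,1,5,1,1,3,1,2,2,1,2],3460,5122), ([3,1,5,1,1,3,1,2,2,1,1,1],2267,1179), ([1,2,7,3,1,1,1,3,5,1],3578,4877)]
theorem r139 : rgV L139 5689 21 = true := by decide +kernel
theorem f139 : ∀ p ∈ L139, fam (wl p.1) p.2.1 p.2.2 = true := by
  intro p hp
  simp only [L139, List.mem_cons, List.not_mem_nil, or_false] at hp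
  rcases hp with rfl | rfl | rfl | rfl | rfl | rfl | rfl | rfl | rfl | rfl | rfl | rfl | rfl | rfl | rfl | rfl | rfl | rfl | rfl | rfl | rfl | rfl | rfl | rfl | rfl | rfl | rfl | rfl | rfl | rfl
  · exact x139_0
  · exact x139_1
  · exact x139_2
  · exact x139_3
  · exact x139_4
  · exact x139_5
  · exact x139_6
  · exact x139_7
  · exact x139_8
  · exact x139_9
  · exact x139_10
  · exact x139_11
  · exact x139_12
  · exact x139_13
  · exact x139_14
  · exact x139_15
  · exact x139_16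
  · exact x139_17
  · exact x139_18
  · exact x139_19
  · exact x139_20
  · exact x139_21
  · exact x139_22
  · exact x139_23
  · exact x139_24
  · exact x139_25
  · exact x139_26
  · exact x139_27
  · exact x139_28
  · exact x139_29

end Pool.Agent.V5helper47.EV
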