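import Pool.Agent.V5helper47.EV.S2

/-! Search, part of the half words. -/

set_option maxRecDepth 1000000

namespace Pool.Agent.V5helper47.EV

open H419R2 Pool.Agent.N911 Pool.Agent.V5helper47.CN

theorem x140_0 : fam (wl [4,10,1,2,5,8]) 5080 2482 = true := by decide +kernel
theorem x140_1 : fam (wl [1,1,1,1,4,2,4,2,3,3]) 5127 6234 = true := by decide +kernel
theorem x140_2 : fam (wl [2,1,1,4,2,4,2,3,2,1]) 602 473 = true := by decide +kernel
theorem x140_3 : fam (wl [1,3,10,1,2,5,7,1]) 649 983 = true := by decide +kernel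
theorem x140_4 : fam (wl [2,5,2,2,2,2,1,2,4]) 2593 2374 = true := by decide +kernel
theorem x140_5 : fam (wl [1,1,5,2,2,2,2,1,2,3,1]) 3142 3409 = true := by decide +kernel
theorem x140_6 : fam (wl [1,1,2,8,2,1,3,1,2,3]) 4462 5314 = true := by decide +kernel
theorem x140_7 : fam (wl [2,2,8,2,1,3,1,2,2,1]) 1273 1031 = true := by decide +kernel
theorem x140_8 : fam (wl [8,2,1,2,1,2,1,16]) 2585 618 = true := by decide +kernel
theorem x140_9 : fam (wl [1,1,4,1,4,9,1,1,1,3]) 5704 6242 = true := by decide +kernel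
theorem x140_10 : fam (wl [2,4,1,4,9,1,1,1,2,1]) 33 31 = true := by decide +kernel
theorem x140_11 : fam (wl [1,7,2,1,2,1,2,1,15,1]) 3152 5553 = true := by decide +kernel
theorem x140_12 : fam (wl [1,2,3,2,1,1,3,1,6,1,2]) 5098 7102 = true := by decide +kernel
theorem x140_13 : fam (wl [3,3,2,1,1,3,1,6,1,1,1]) 643 391 = true := by decide +kernel
theorem x140_14 : fam (wl [2,1,2,9,4,1,2,5]) 4952 3698 = true := by decide +kernel
theorem x140_15 : fam (wl [1,2,1,1,5,1,2,2,1,3,1,2]) 1941 2786 = true := by decide +kernel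
theorem x140_16 : fam (wl [3,1,1,5,1,2,2,1,3,1,1,1]) 3810 2153 = true := by decide +kernel
theorem x140_17 : fam (wl [1,1,1,2,9,4,1,2,4,1]) 799 1003 = true := by decide +kernel
theorem x140_18 : fam (wl [20,3,1,1,40]) 4767 470 = true := by decide +kernel
theorem x140_19 : fam (wl [4,4,2,1,5,2,8]) 5579 2638 = true := by decide +kernel
theorem x140_20 : fam (wl [1,3,4,2,1,5,2,7,1]) 180 277 = true := by decide +kernel
theorem x140_21 : fam (wl [1,19,3,1,1,39,1]) 992 1889 = true := by decide +kernel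
theorem x140_22 : fam (wl [8,5,2,1,2,16]) 3610 882 = true := by decide +kernel
theorem x140_23 : fam (wl [2,1,1,2,1,1,1,3,6,5]) 5332 4134 = true := by decide +kernel
theorem x140_24 : fam (wl [1,3,1,2,1,3,1,1,6,1,1,2]) 1048 1654 = true := by decide +kernel
theorem x140_25 : fam (wl [1,17,2,2,2,1,8,2]) 2991 5658 = true := by decide +kernel
theorem x140_26 : fam (wl [18,2,2,2,1,8,1,1]) 2770 301 = true := by decide +kernel
theorem x140_27 : fam (wl [4,1,2,1,3,1,1,6,1,1,1,1]) 4713 1991 = true := by decide +kernel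
theorem x140_28 : fam (wl [1,1,1,1,2,1,1,1,3,6,4,1]) 429 527 = true := by decide +kernel
theorem x140_29 : fam (wl [1,7,5,2,1,2,15,1]) 2151 3779 = true := by decide +kernel
/-- words with first entry from 5731 to 5765 -/
def L140 : List (List ℕ × ℕ × ℕ) := [([4,10,1,2,5,8],5080,2482), ([1,1,1,1,4,2,4,2,3,3],5127,6234), ([2,1,1,4,2,4,2,3,2,1],602,473), ([1,3,10,1,2,5,7,1],649,983), ([2,5,2,2,2,2,1,2,4],2593,2374), ([1,1,5,2,2,2,2,1,2,3,1],3142,3409), ([1,1,2,8,2,1,3,1,2,3],4462,5314), ([2,2,8,2,1,3,1,2,2,1],1273,1031), ([8,2,1,2,1,2,1,16],2585,618), ([1,1,4,1,4,9,1,1,1,3],5704,6242), ([2,4,1,4,9,1,1,1,2,1],33,31), ([1,7,2,1,2,1,2,1,15,1],3152,5553), ([1,2,3,2,1,1,3,1,6,1,2],5098,7102), ([3,3,2,1,1,3,1,6,1,1,1],643,391), ([2,1,2,9,4,1,2,5],4952,3698), ([1,2,1,1,5,1,2,2,1,3,1,2],1941,2786), ([3,1,1,5,1,2,2,1,3,1,1,1],3810,2153), ([1,1,1,2,9,4,1,2,4,1],799,1003), ([20,3,1,1,40],4767,470), ([4,4,2,1,5,2,8],5579,2638), ([1,3,4,2,1,5,2,7,1],180,277),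 ([1,19,3,1,1,39,1],992,1889), ([8,5,2,1,2,16],3610,882), ([2,1,1,2,1,1,1,3,6,5],5332,4134), ([1,3,1,2,1,3,1,1,6,1,1,2],1048,1654), ([1,17,2,2,2,1,8,2],2991,5658), ([18,2,2,2,1,8,1,1],2770,301), ([4,1,2,1,3,1,1,6,1,1,1,1],4713,1991), ([1,1,1,1,2,1,1,1,3,6,4,1],429,527), ([1,7,5,2,1,2,15,1],2151,3779)]
theorem r140 : rgV L140 5731 18 = true := by decide +kernel
theorem f140 : ∀ p ∈ L140, fam (wl p.1) p.2.1 p.2.2 = true := by
  intro p hp
  simp only [L140, List.mem_cons, List.not_mem_nil, or_false] at hp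
  rcases hp with rfl | rfl | rfl | rfl | rfl | rfl | rfl | rfl | rfl | rfl | rfl | rfl | rfl | rfl | rfl | rfl | rfl | rfl | rfl | rfl | rfl | rfl | rfl | rfl | rfl | rfl | rfl | rfl | rfl | rfl
  · exact x140_0
  · exact x140_1
  · exact x140_2
  · exact x140_3
  · exact x140_4
  · exact x140_5
  · exact x140_6
  · exact x140_7
  · exact x140_8
  · exact x140_9
  · exact x140_10
  · exact x140_11
  · exact x140_12
  · exact x140_13
  · exact x140_14
  · exact x140_15
  · exact x140_16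
  · exact x140_17
  · exact x140_18
  · exact x140_19
  · exact x140_20
  · exact x140_21
  · exact x140_22
  · exact x140_23
  · exact x140_24
  · exact x140_25
  · exact x140_26
  · exact x140_27
  · exact x140_28
  · exact x140_29

end Pool.Agent.V5helper47.EV
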