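import Pool.Agent.V5helper47.EV.S2

/-! Search, part of the half words. -/

set_option maxRecDepth 1000000

namespace Pool.Agent.V5helper47.EV

open H419R2 Pool.Agent.N911 Pool.Agent.V5helper47.CN

theorem x141_0 : fam (wl [3,1,6,2,2,1,2,1,7]) 197 102 = true := by decide +kernel
theorem x141_1 : fam (wl [1,3,1,1,7,1,3,3,1,1,2]) 4364 6802 = true := by decide +kernel
theorem x141_2 : fam (wl [4,1,1,7,1,3,3,1,1,1,1]) 1401 619 = true := by decide +kernel
theorem x141_3 : fam (wl [1,2,1,6,2,2,1,2,1,6,1]) 5568 8257 = true := by decide +kernel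
theorem x141_4 : fam (wl [4,1,2,1,2,5,2,9]) 3693 1562 = true := by decide +kernel
theorem x141_5 : fam (wl [1,1,1,9,1,2,20,3]) 5758 7554 = true := by decide +kernel
theorem x141_6 : fam (wl [2,1,9,1,2,20,2,1]) 9 7 = true := by decide +kernel
theorem x141_7 : fam (wl [1,3,1,2,1,2,5,2,8,1]) 2074 3273 = true := by decide +kernel
theorem x141_8 : fam (wl [2,6,1,4,2,2,3,4]) 208 194 = true := by decide +kernel
theorem x141_9 : fam (wl [1,1,6,1,4,2,2,3,3,1]) 5569 5951 = true := by decide +kernel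
theorem x141_10 : fam (wl [1,1,2,1,6,1,14,2,3]) 2562 2942 = true := by decide +kernel
theorem x141_11 : fam (wl [2,2,1,6,1,14,2,2,1]) 3219 2743 = true := by decide +kernel
theorem x141_12 : fam (wl [1,2,2,1,3,1,2,1,1,5,1,2]) 377 530 = true := by decide +kernel
theorem x141_13 : fam (wl [1,12,4,8,6,2]) 734 1358 = true := by decide +kernel
theorem x141_14 : fam (wl [13,4,8,6,1,1]) 5051 763 = true := by decide +kernel
theorem x141_15 : fam (wl [3,2,1,3,1,2,1,1,5,1,1,1]) 5408 3221 = true := by decide +kernel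
theorem x141_16 : fam (wl [1,2,1,3,4,1,1,1,1,1,2,1,2]) 5348 7854 = true := by decide +kernel
theorem x141_17 : fam (wl [3,1,3,4,1,1,1,1,1,2,1,1,1]) 441 235 = true := by decide +kernel
theorem x141_18 : fam (wl [2,3,1,2,1,2,6,1,1,4]) 619 546 = true := by decide +kernel
theorem x141_19 : fam (wl [1,8,3,2,1,6,4,2]) 2598 4638 = true := by decide +kernel
theorem x141_20 : fam (wl [9,3,2,1,6,4,1,1]) 3193 687 = true := by decide +kernel
theorem x141_21 : fam (wl [1,1,3,1,2,1,2,6,1,1,3,1]) 5172 5785 = true := by decide +kernel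
theorem x141_22 : fam (wl [1,1,1,1,1,8,1,3,1,4,3]) 4336 5406 = true := by decide +kernel
theorem x141_23 : fam (wl [2,1,1,1,8,1,3,1,4,2,1]) 1463 1103 = true := by decide +kernel
theorem x141_24 : fam (wl [3,1,1,1,3,2,1,1,3,7]) 513 282 = true := by decide +kernel
theorem x141_25 : fam (wl [1,2,1,1,1,3,2,1,1,3,6,1]) 5286 7669 = true := by decide +kernel
theorem x141_26 : fam (wl [1,3,1,9,1,20,1,1,2]) 139 222 = true := by decide +kernel
theorem x141_27 : fam (wl [4,1,9,1,20,1,1,1,1]) 5666 2309 = true := by decide +kernel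
theorem x141_28 : fam (wl [1,24,2,4,12,2]) 3854 7406 = true := by decide +kernel
theorem x141_29 : fam (wl [25,2,4,12,1,1]) 1971 155 = true := by decide +kernel
/-- words with first entry from 5767 to 5829 -/
def L141 : List (List ℕ × ℕ × ℕ) := [([3,1,6,2,2,1,2,1,7],197,102), ([1,3,1,1,7,1,3,3,1,1,2],4364,6802), ([4,1,1,7,1,3,3,1,1,1,1],1401,619), ([1,2,1,6,2,2,1,2,1,6,1],5568,8257), ([4,1,2,1,2,5,2,9],3693,1562), ([1,1,1,9,1,2,20,3],5758,7554), ([2,1,9,1,2,20,2,1],9,7), ([1,3,1,2,1,2,5,2,8,1],2074,3273), ([2,6,1,4,2,2,3,4],208,194), ([1,1,6,1,4,2,2,3,3,1],5569,5951), ([1,1,2,1,6,1,14,2,3],2562,2942), ([2,2,1,6,1,14,2,2,1],3219,2743), ([1,2,2,1,3,1,2,1,1,5,1,2],377,530), ([1,12,4,8,6,2],734,1358), ([13,4,8,6,1,1],5051,763), ([3,2,1,3,1,2,1,1,5,1,1,1],5408,3221), ([1,2,1,3,4,1,1,1,1,1,2,1,2],5348,7854), ([3,1,3,4,1,1,1,1,1,2,1,1,1],441,235), ([2,3,1,2,1,2,6,1,1,4],619,546), ([1,8,3,2,1,6,4,2],2598,4638), ([9,3,2,1,6,4,1,1],3193,687), ([1,1,3,1,2,1,2,6,1,1,3,1],5172,5785),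 ([1,1,1,1,1,8,1,3,1,4,3],4336,5406), ([2,1,1,1,8,1,3,1,4,2,1],1463,1103), ([3,1,1,1,3,2,1,1,3,7],513,282), ([1,2,1,1,1,3,2,1,1,3,6,1],5286,7669), ([1,3,1,9,1,20,1,1,2],139,222), ([4,1,9,1,20,1,1,1,1],5666,2309), ([1,24,2,4,12,2],3854,7406), ([25,2,4,12,1,1],1971,155)]
theorem r141 : rgV L141 5767 32 = true := by decide +kernel
theorem f141 : ∀ p ∈ L141, fam (wl p.1) p.2.1 p.2.2 = true := by
  intro p hp
  simp only [L141, List.mem_cons, List.not_mem_nil, or_false] at hp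
  rcases hp with rfl | rfl | rfl | rfl | rfl | rfl | rfl | rfl | rfl | rfl | rfl | rfl | rfl | rfl | rfl | rfl | rfl | rfl | rfl | rfl | rfl | rfl | rfl | rfl | rfl | rfl | rfl | rfl | rfl | rfl
  · exact x141_0
  · exact x141_1
  · exact x141_2
  · exact x141_3
  · exact x141_4
  · exact x141_5
  · exact x141_6
  · exact x141_7
  · exact x141_8
  · exact x141_9
  · exact x141_10
  · exact x141_11
  · exact x141_12
  · exact x141_13
  · exact x141_14
  · exact x141_15
  · exact x141_16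
  · exact x141_17
  · exact x141_18
  · exact x141_19
  · exact x141_20
  · exact x141_21
  · exact x141_22
  · exact x141_23
  · exact x141_24
  · exact x141_25
  · exact x141_26
  · exact x141_27
  · exact x141_28
  · exact x141_29

end Pool.Agent.V5helper47.EV
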