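import Pool.Agent.V5helper47.EV.S2

/-! Search, part of the half words. -/

set_option maxRecDepth 1000000

namespace Pool.Agent.V5helper47.EV

open H419R2 Pool.Agent.N911 Pool.Agent.V5helper47.CN

theorem x142_0 : fam (wl [53,1,107]) 5777 214 = true := by decide +kernel
theorem x142_1 : fam (wl [4,1,1,1,1,2,2,4,9]) 881 382 = true := by decide +kernel
theorem x142_2 : fam (wl [1,3,1,1,1,1,2,2,4,8,1]) 4948 7753 = true := by decide +kernel
theorem x142_3 : fam (wl [1,52,1,106,1]) 52 105 = true := by decide +kernel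
theorem x142_4 : fam (wl [54,108]) 54 2 = true := by decide +kernel
theorem x142_5 : fam (wl [4,2,1,2,1,2,1,2,1,8]) 3043 1394 = true := by decide +kernel
theorem x142_6 : fam (wl [1,3,2,1,2,1,2,1,2,1,7,1]) 2788 4301 = true := by decide +kernel
theorem x142_7 : fam (wl [1,53,107,1]) 5777 11343 = true := by decide +kernel
theorem x142_8 : fam (wl [1,3,1,3,3,1,1,7,1,1,2]) 4258 6730 = true := by decide +kernel
theorem x142_9 : fam (wl [4,1,3,3,1,1,7,1,1,1,1]) 1579 663 = true := by decide +kernel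
theorem x142_10 : fam (wl [3,1,2,1,1,2,1,3,2,7]) 2087 1122 = true := by decide +kernel
theorem x142_11 : fam (wl [2,3,1,1,4,2,3,1,1,4]) 5478 4802 = true := by decide +kernel
theorem x142_12 : fam (wl [2,4,1,1,3,1,1,3,2,4]) 3535 3186 = true := by decide +kernel
theorem x142_13 : fam (wl [1,1,1,1,1,2,1,1,3,2,4,3]) 1085 1346 = true := by decide +kernel
theorem x142_14 : fam (wl [2,1,1,1,2,1,1,3,2,4,2,1]) 4754 3613 = true := by decide +kernel
theorem x142_15 : fam (wl [1,1,4,1,1,3,1,1,3,2,3,1]) 2304 2533 = true := by decide +kernel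
theorem x142_16 : fam (wl [1,1,3,1,1,4,2,3,1,1,3,1]) 361 407 = true := by decide +kernel
theorem x142_17 : fam (wl [1,2,1,2,1,1,2,1,3,2,6,1]) 3752 5489 = true := by decide +kernel
theorem x142_18 : fam (wl [7,1,1,3,7,15]) 2157 570 = true := by decide +kernel
theorem x142_19 : fam (wl [1,6,1,1,3,7,14,1]) 3684 6397 = true := by decide +kernel
theorem x142_20 : fam (wl [1,3,1,1,1,4,1,1,1,4,1,1,2]) 1948 3058 = true := by decide +kernel
theorem x142_21 : fam (wl [4,1,1,1,4,1,1,1,4,1,1,1,1]) 3899 1679 = true := by decide +kernel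
theorem x142_22 : fam (wl [10,2,2,4,1,20]) 1738 334 = true := by decide +kernel
theorem x142_23 : fam (wl [1,9,2,2,4,1,19,1]) 4109 7431 = true := by decide +kernel
theorem x142_24 : fam (wl [1,1,1,3,1,2,2,2,8,3]) 4193 5378 = true := by decide +kernel
theorem x142_25 : fam (wl [2,1,3,1,2,2,2,8,2,1]) 1656 1189 = true := by decide +kernel
theorem x142_26 : fam (wl [1,4,1,11,1,5,2,2,2]) 1755 2918 = true := by decide +kernel
theorem x142_27 : fam (wl [5,1,11,1,5,2,2,1,1]) 4100 1385 = true := by decide +kernel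
theorem x142_28 : fam (wl [1,3,1,10,21,1,1,2]) 2201 3506 = true := by decide +kernel
theorem x142_29 : fam (wl [4,1,10,21,1,1,1,1]) 3654 1489 = true := by decide +kernel
/-- words with first entry from 5831 to 5865 -/
def L142 : List (List ℕ × ℕ × ℕ) := [([53,1,107],5777,214), ([4,1,1,1,1,2,2,4,9],881,382), ([1,3,1,1,1,1,2,2,4,8,1],4948,7753), ([1,52,1,106,1],52,105), ([54,108],54,2), ([4,2,1,2,1,2,1,2,1,8],3043,1394), ([1,3,2,1,2,1,2,1,2,1,7,1],2788,4301), ([1,53,107,1],5777,11343), ([1,3,1,3,3,1,1,7,1,1,2],4258,6730), ([4,1,3,3,1,1,7,1,1,1,1],1579,663), ([3,1,2,1,1,2,1,3,2,7],2087,1122), ([2,3,1,1,4,2,3,1,1,4],5478,4802), ([2,4,1,1,3,1,1,3,2,4],3535,3186), ([1,1,1,1,1,2,1,1,3,2,4,3],1085,1346), ([2,1,1,1,2,1,1,3,2,4,2,1],4754,3613), ([1,1,4,1,1,3,1,1,3,2,3,1],2304,2533), ([1,1,3,1,1,4,2,3,1,1,3,1],361,407), ([1,2,1,2,1,1,2,1,3,2,6,1],3752,5489), ([7,1,1,3,7,15],2157,570), ([1,6,1,1,3,7,14,1],3684,6397), ([1,3,1,1,1,4,1,1,1,4,1,1,2],1948,3058),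 ([4,1,1,1,4,1,1,1,4,1,1,1,1],3899,1679), ([10,2,2,4,1,20],1738,334), ([1,9,2,2,4,1,19,1],4109,7431), ([1,1,1,3,1,2,2,2,8,3],4193,5378), ([2,1,3,1,2,2,2,8,2,1],1656,1189), ([1,4,1,11,1,5,2,2,2],1755,2918), ([5,1,11,1,5,2,2,1,1],4100,1385), ([1,3,1,10,21,1,1,2],2201,3506), ([4,1,10,21,1,1,1,1],3654,1489)]
theorem r142 : rgV L142 5831 18 = true := by decide +kernel
theorem f142 : ∀ p ∈ L142, fam (wl p.1) p.2.1 p.2.2 = true := by
  intro p hp
  simp only [L142, List.mem_cons, List.not_mem_nil, or_false] at hp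
  rcases hp with rfl | rfl | rfl | rfl | rfl | rfl | rfl | rfl | rfl | rfl | rfl | rfl | rfl | rfl | rfl | rfl | rfl | rfl | rfl | rfl | rfl | rfl | rfl | rfl | rfl | rfl | rfl | rfl | rfl | rfl
  · exact x142_0
  · exact x142_1
  · exact x142_2
  · exact x142_3
  · exact x142_4
  · exact x142_5
  · exact x142_6
  · exact x142_7
  · exact x142_8
  · exact x142_9
  · exact x142_10
  · exact x142_11
  · exact x142_12
  · exact x142_13
  · exact x142_14
  · exact x142_15
  · exact x142_16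
  · exact x142_17
  · exact x142_18
  · exact x142_19
  · exact x142_20
  · exact x142_21
  · exact x142_22
  · exact x142_23
  · exact x142_24
  · exact x142_25
  · exact x142_26
  · exact x142_27
  · exact x142_28
  · exact x142_29

end Pool.Agent.V5helper47.EV
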