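import Pool.Agent.V5helper47.EV.S2

/-! Search, part of the half words. -/

set_option maxRecDepth 1000000

namespace Pool.Agent.V5helper47.EV

open H419R2 Pool.Agent.N911 Pool.Agent.V5helper47.CN

theorem x143_0 : fam (wl [2,4,1,6,3,2,2,4]) 4078 3698 = true := by decide +kernel
theorem x143_1 : fam (wl [1,1,4,1,6,3,2,2,3,1]) 1787 1955 = true := by decide +kernel
theorem x143_2 : fam (wl [2,2,1,3,2,2,1,1,2,1,4]) 2188 1854 = true := by decide +kernel
theorem x143_3 : fam (wl [1,2,1,1,3,1,1,3,1,1,3,1,2]) 4403 6334 = true := by decide +kernel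
theorem x143_4 : fam (wl [3,1,1,3,1,1,3,1,1,3,1,1,1]) 1468 825 = true := by decide +kernel
theorem x143_5 : fam (wl [1,1,2,1,3,2,2,1,1,2,1,3,1]) 3683 4247 = true := by decide +kernel
theorem x143_6 : fam (wl [1,1,2,14,1,6,1,2,3]) 3962 4734 = true := by decide +kernel
theorem x143_7 : fam (wl [2,2,14,1,6,1,2,2,1]) 1915 1543 = true := by decide +kernel
theorem x143_8 : fam (wl [3,4,3,1,7,2,6]) 3335 2062 = true := by decide +kernel
theorem x143_9 : fam (wl [1,2,4,3,1,7,2,5,1]) 2544 3517 = true := by decide +kernel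
theorem x143_10 : fam (wl [1,1,2,1,7,15,2,3]) 754 866 = true := by decide +kernel
theorem x143_11 : fam (wl [2,2,1,7,15,2,2,1]) 5125 4367 = true := by decide +kernel
theorem x143_12 : fam (wl [31,2,1,62]) 282 18 = true := by decide +kernel
theorem x143_13 : fam (wl [16,2,1,2,1,32]) 1980 242 = true := by decide +kernel
theorem x143_14 : fam (wl [1,15,2,1,2,1,31,1]) 3909 7343 = true := by decide +kernel
theorem x143_15 : fam (wl [1,30,2,1,61,1]) 5607 10859 = true := by decide +kernel
theorem x143_16 : fam (wl [1,3,18,1,8,1,1,1,2]) 5274 7946 = true := by decide +kernel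
theorem x143_17 : fam (wl [4,18,1,8,1,1,1,1,1]) 621 307 = true := by decide +kernel
theorem x143_18 : fam (wl [1,43,2,1,21,2]) 4322 8450 = true := by decide +kernel
theorem x143_19 : fam (wl [44,2,1,21,1,1]) 1573 71 = true := by decide +kernel
theorem x143_20 : fam (wl [2,1,1,5,1,2,12,5]) 5566 4382 = true := by decide +kernel
theorem x143_21 : fam (wl [1,1,21,1,2,10,1,3]) 565 578 = true := by decide +kernel
theorem x143_22 : fam (wl [2,21,1,2,10,1,2,1]) 5332 5213 = true := by decide +kernel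
theorem x143_23 : fam (wl [1,1,1,1,5,1,2,12,4,1]) 331 403 = true := by decide +kernel
theorem x143_24 : fam (wl [13,5,1,2,26]) 2095 318 = true := by decide +kernel
theorem x143_25 : fam (wl [1,12,5,1,2,25,1]) 3806 7037 = true := by decide +kernel
/-- words with first entry from 5867 to 5905 -/
def L143 : List (List ℕ × ℕ × ℕ) := [([2,4,1,6,3,2,2,4],4078,3698), ([1,1,4,1,6,3,2,2,3,1],1787,1955), ([2,2,1,3,2,2,1,1,2,1,4],2188,1854), ([1,2,1,1,3,1,1,3,1,1,3,1,2],4403,6334), ([3,1,1,3,1,1,3,1,1,3,1,1,1],1468,825), ([1,1,2,1,3,2,2,1,1,2,1,3,1],3683,4247), ([1,1,2,14,1,6,1,2,3],3962,4734), ([2,2,14,1,6,1,2,2,1],1915,1543), ([3,4,3,1,7,2,6],3335,2062), ([1,2,4,3,1,7,2,5,1],2544,3517), ([1,1,2,1,7,15,2,3],754,866), ([2,2,1,7,15,2,2,1],5125,4367), ([31,2,1,62],282,18), ([16,2,1,2,1,32],1980,242), ([1,15,2,1,2,1,31,1],3909,7343), ([1,30,2,1,61,1],5607,10859), ([1,3,18,1,8,1,1,1,2],5274,7946), ([4,18,1,8,1,1,1,1,1],621,307), ([1,43,2,1,21,2],4322,8450), ([44,2,1,21,1,1],1573,71),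 ([2,1,1,5,1,2,12,5],5566,4382), ([1,1,21,1,2,10,1,3],565,578), ([2,21,1,2,10,1,2,1],5332,5213), ([1,1,1,1,5,1,2,12,4,1],331,403), ([13,5,1,2,26],2095,318), ([1,12,5,1,2,25,1],3806,7037)]
theorem r143 : rgV L143 5867 20 = true := by decide +kernel
theorem f143 : ∀ p ∈ L143, fam (wl p.1) p.2.1 p.2.2 = true := by
  intro p hp
  simp only [L143, List.mem_cons, List.not_mem_nil, or_false] at hp
  rcases hp with rfl | rfl | rfl | rfl | rfl | rfl | rfl | rfl | rfl | rfl | rfl | rfl | rfl | rfl | rfl | rfl | rfl | rfl | rfl | rfl | rfl | rfl | rfl | rfl | rfl | rfl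
  · exact x143_0
  · exact x143_1
  · exact x143_2
  · exact x143_3
  · exact x143_4
  · exact x143_5
  · exact x143_6
  · exact x143_7
  · exact x143_8
  · exact x143_9
  · exact x143_10
  · exact x143_11
  · exact x143_12
  · exact x143_13
  · exact x143_14
  · exact x143_15
  · exact x143_16
  · exact x143_17
  · exact x143_18
  · exact x143_19
  · exact x143_20
  · exact x143_21
  · exact x143_22
  · exact x143_23
  · exact x143_24
  · exact x143_25

end Pool.Agent.V5helper47.EV
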