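import Pool.Agent.V5helper47.EV.S2

/-! Search, part of the half words. -/

set_option maxRecDepth 1000000

namespace Pool.Agent.V5helper47.EV

open H419R2 Pool.Agent.N911 Pool.Agent.V5helper47.CN

theorem x144_0 : fam (wl [3,1,10,2,1,4,1,7]) 3947 2018 = true := by decide +kernel
theorem x144_1 : fam (wl [2,2,3,4,2,6,1,4]) 3272 2690 = true := by decide +kernel
theorem x144_2 : fam (wl [2,8,3,6,4,4]) 5523 5210 = true := by decide +kernel
theorem x144_3 : fam (wl [1,6,4,2,1,8,3,2]) 4977 8578 = true := by decide +kernel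
theorem x144_4 : fam (wl [7,4,2,1,8,3,1,1]) 928 257 = true := by decide +kernel
theorem x144_5 : fam (wl [1,1,8,3,6,4,3,1]) 382 405 = true := by decide +kernel
theorem x144_6 : fam (wl [1,1,2,3,4,2,6,1,3,1]) 2633 3103 = true := by decide +kernel
theorem x144_7 : fam (wl [1,2,1,10,2,1,4,1,6,1]) 1958 2917 = true := by decide +kernel
theorem x144_8 : fam (wl [2,1,24,1,11,1,5]) 601 406 = true := by decide +kernel
theorem x144_9 : fam (wl [1,17,1,1,1,4,1,8,2]) 2824 5346 = true := by decide +kernel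
theorem x144_10 : fam (wl [18,1,1,1,4,1,8,1,1]) 3085 331 = true := by decide +kernel
theorem x144_11 : fam (wl [1,1,1,24,1,11,1,4,1]) 5308 7033 = true := by decide +kernel
theorem x144_12 : fam (wl [5,8,1,2,4,10]) 271 106 = true := by decide +kernel
theorem x144_13 : fam (wl [1,3,4,2,2,2,1,1,1,1,1,2]) 3970 6062 = true := by decide +kernel
theorem x144_14 : fam (wl [4,4,2,2,2,1,1,1,1,1,1,1]) 1941 919 = true := by decide +kernel
theorem x144_15 : fam (wl [1,4,8,1,2,4,9,1]) 5640 9077 = true := by decide +kernel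
theorem x144_16 : fam (wl [2,2,3,1,2,2,7,1,4]) 1081 886 = true := by decide +kernel
theorem x144_17 : fam (wl [2,37,1,18,4]) 557 550 = true := by decide +kernel
theorem x144_18 : fam (wl [1,1,37,1,18,3,1]) 5362 5433 = true := by decide +kernel
theorem x144_19 : fam (wl [1,1,2,3,1,2,2,7,1,3,1]) 4838 5713 = true := by decide +kernel
theorem x144_20 : fam (wl [1,1,1,1,1,2,3,1,1,2,4,3]) 1499 1858 = true := by decide +kernel
theorem x144_21 : fam (wl [2,1,1,1,2,3,1,1,2,4,2,1]) 4422 3365 = true := by decide +kernel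
theorem x144_22 : fam (wl [1,75,1,37,2]) 1500 2962 = true := by decide +kernel
theorem x144_23 : fam (wl [76,1,37,1,1]) 4425 115 = true := by decide +kernel
theorem x144_24 : fam (wl [1,1,5,2,1,2,5,2,1,3]) 4941 5362 = true := by decide +kernel
theorem x144_25 : fam (wl [1,76,38,2]) 4428 8742 = true := by decide +kernel
theorem x144_26 : fam (wl [77,38,1,1]) 1501 39 = true := by decide +kernel
theorem x144_27 : fam (wl [2,5,2,1,2,5,2,1,2,1]) 988 905 = true := by decide +kernel
/-- words with first entry from 5907 to 5935 -/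
def L144 : List (List ℕ × ℕ × ℕ) := [([3,1,10,2,1,4,1,7],3947,2018), ([2,2,3,4,2,6,1,4],3272,2690), ([2,8,3,6,4,4],5523,5210), ([1,6,4,2,1,8,3,2],4977,8578), ([7,4,2,1,8,3,1,1],928,257), ([1,1,8,3,6,4,3,1],382,405), ([1,1,2,3,4,2,6,1,3,1],2633,3103), ([1,2,1,10,2,1,4,1,6,1],1958,2917), ([2,1,24,1,11,1,5],601,406), ([1,17,1,1,1,4,1,8,2],2824,5346), ([18,1,1,1,4,1,8,1,1],3085,331), ([1,1,1,24,1,11,1,4,1],5308,7033), ([5,8,1,2,4,10],271,106), ([1,3,4,2,2,2,1,1,1,1,1,2],3970,6062), ([4,4,2,2,2,1,1,1,1,1,1,1],1941,919), ([1,4,8,1,2,4,9,1],5640,9077), ([2,2,3,1,2,2,7,1,4],1081,886), ([2,37,1,18,4],557,550), ([1,1,37,1,18,3,1],5362,5433), ([1,1,2,3,1,2,2,7,1,3,1],4838,5713), ([1,1,1,1,1,2,3,1,1,2,4,3],1499,1858), ([2,1,1,1,2,3,1,1,2,4,2,1],4422,3365), ([1,75,1,37,2],1500,2962), ([76,1,37,1,1],4425,115), ([1,1,5,2,1,2,5,2,1,3],4941,5362), ([1,76,38,2],4428,8742), ([77,38,1,1],1501,39), ([2,5,2,1,2,5,2,1,2,1],988,905)]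
theorem r144 : rgV L144 5907 15 = true := by decide +kernel
theorem f144 : ∀ p ∈ L144, fam (wl p.1) p.2.1 p.2.2 = true := by
  intro p hp
  simp only [L144, List.mem_cons, List.not_mem_nil, or_false] at hp
  rcases hp with rfl | rfl | rfl | rfl | rfl | rfl | rfl | rfl | rfl | rfl | rfl | rfl | rfl | rfl | rfl | rfl | rfl | rfl | rfl | rfl | rfl | rfl | rfl | rfl | rfl | rfl | rfl | rfl
  · exact x144_0
  · exact x144_1
  · exact x144_2
  · exact x144_3
  · exact x144_4
  · exact x144_5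
  · exact x144_6
  · exact x144_7
  · exact x144_8
  · exact x144_9
  · exact x144_10
  · exact x144_11
  · exact x144_12
  · exact x144_13
  · exact x144_14
  · exact x144_15
  · exact x144_16
  · exact x144_17
  · exact x144_18
  · exact x144_19
  · exact x144_20
  · exact x144_21
  · exact x144_22
  · exact x144_23
  · exact x144_24
  · exact x144_25
  · exact x144_26
  · exact x144_27

end Pool.Agent.V5helper47.EV
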