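import Pool.Agent.V5helper47.EV.S2

/-! Search, part of the half words. -/

set_option maxRecDepth 1000000

namespace Pool.Agent.V5helper47.EV

open H419R2 Pool.Agent.N911 Pool.Agent.V5helper47.CN

theorem x145_0 : fam (wl [5,1,3,2,4,1,1,11]) 4187 1450 = true := by decide +kernel
theorem x145_1 : fam (wl [2,38,19,4]) 2409 2378 = true := by decide +kernel
theorem x145_2 : fam (wl [1,1,38,19,3,1]) 3526 3573 = true := by decide +kernel
theorem x145_3 : fam (wl [1,4,1,3,2,4,1,1,10,1]) 1748 2893 = true := by decide +kernel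
theorem x145_4 : fam (wl [1,6,1,4,1,2,2,2,3,2]) 895 1562 = true := by decide +kernel
theorem x145_5 : fam (wl [7,1,4,1,2,2,2,3,1,1]) 5042 1289 = true := by decide +kernel
theorem x145_6 : fam (wl [2,1,25,12,1,5]) 1377 930 = true := by decide +kernel
theorem x145_7 : fam (wl [1,12,2,2,1,4,6,2]) 3778 6994 = true := by decide +kernel
theorem x145_8 : fam (wl [13,2,2,1,4,6,1,1]) 2167 323 = true := by decide +kernel
theorem x145_9 : fam (wl [1,1,1,25,12,1,4,1]) 4568 6053 = true := by decide +kernel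
theorem x145_10 : fam (wl [1,1,2,1,1,5,1,2,3,2,3]) 1585 1846 = true := by decide +kernel
theorem x145_11 : fam (wl [2,2,1,1,5,1,2,3,2,2,1]) 4366 3649 = true := by decide +kernel
theorem x145_12 : fam (wl [1,9,1,4,9,1,4,2]) 415 754 = true := by decide +kernel
theorem x145_13 : fam (wl [10,1,4,9,1,4,1,1]) 5536 1025 = true := by decide +kernel
theorem x145_14 : fam (wl [1,1,2,1,1,1,1,1,3,4,2,3]) 5497 6378 = true := by decide +kernel
theorem x145_15 : fam (wl [1,3,19,9,1,1,1,2]) 5099 7682 = true := by decide +kernel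
theorem x145_16 : fam (wl [4,19,9,1,1,1,1,1]) 860 425 = true := by decide +kernel
theorem x145_17 : fam (wl [2,2,1,1,1,1,1,3,4,2,2,1]) 462 389 = true := by decide +kernel
theorem x145_18 : fam (wl [1,2,3,1,5,2,1,7,1,2]) 4363 6050 = true := by decide +kernel
theorem x145_19 : fam (wl [1,9,4,2,1,1,1,1,4,2]) 5108 9218 = true := by decide +kernel
theorem x145_20 : fam (wl [10,4,2,1,1,1,1,4,1,1]) 853 167 = true := by decide +kernel
theorem x145_21 : fam (wl [3,3,1,5,2,1,7,1,1,1]) 1598 981 = true := by decide +kernel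
theorem x145_22 : fam (wl [11,2,1,1,3,1,22]) 5912 1038 = true := by decide +kernel
theorem x145_23 : fam (wl [1,8,5,1,11,4,2]) 4093 7294 = true := by decide +kernel
theorem x145_24 : fam (wl [9,5,1,11,4,1,1]) 1874 409 = true := by decide +kernel
theorem x145_25 : fam (wl [1,10,2,1,1,3,1,21,1]) 55 103 = true := by decide +kernel
theorem x145_26 : fam (wl [18,4,2,36]) 1476 162 = true := by decide +kernel
theorem x145_27 : fam (wl [3,1,2,3,1,2,1,1,2,7]) 3838 2078 = true := by decide +kernel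
theorem x145_28 : fam (wl [1,2,1,2,3,1,2,1,1,2,6,1]) 2137 3119 = true := by decide +kernel
theorem x145_29 : fam (wl [1,17,4,2,35,1]) 4499 8507 = true := by decide +kernel
/-- words with first entry from 5937 to 5977 -/
def L145 : List (List ℕ × ℕ × ℕ) := [([5,1,3,2,4,1,1,11],4187,1450), ([2,38,19,4],2409,2378), ([1,1,38,19,3,1],3526,3573), ([1,4,1,3,2,4,1,1,10,1],1748,2893), ([1,6,1,4,1,2,2,2,3,2],895,1562), ([7,1,4,1,2,2,2,3,1,1],5042,1289), ([2,1,25,12,1,5],1377,930), ([1,12,2,2,1,4,6,2],3778,6994), ([13,2,2,1,4,6,1,1],2167,323), ([1,1,1,25,12,1,4,1],4568,6053), ([1,1,2,1,1,5,1,2,3,2,3],1585,1846), ([2,2,1,1,5,1,2,3,2,2,1],4366,3649), ([1,9,1,4,9,1,4,2],415,754), ([10,1,4,9,1,4,1,1],5536,1025), ([1,1,2,1,1,1,1,1,3,4,2,3],5497,6378), ([1,3,19,9,1,1,1,2],5099,7682), ([4,19,9,1,1,1,1,1],860,425), ([2,2,1,1,1,1,1,3,4,2,2,1],462,389), ([1,2,3,1,5,2,1,7,1,2],4363,6050), ([1,9,4,2,1,1,1,1,4,2],5108,9218), ([10,4,2,1,1,1,1,4,1,1],853,167), ([3,3,1,5,2,1,7,1,1,1],1598,981),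 ([11,2,1,1,3,1,22],5912,1038), ([1,8,5,1,11,4,2],4093,7294), ([9,5,1,11,4,1,1],1874,409), ([1,10,2,1,1,3,1,21,1],55,103), ([18,4,2,36],1476,162), ([3,1,2,3,1,2,1,1,2,7],3838,2078), ([1,2,1,2,3,1,2,1,1,2,6,1],2137,3119), ([1,17,4,2,35,1],4499,8507)]
theorem r145 : rgV L145 5937 21 = true := by decide +kernel
theorem f145 : ∀ p ∈ L145, fam (wl p.1) p.2.1 p.2.2 = true := by
  intro p hp
  simp only [L145, List.mem_cons, List.not_mem_nil, or_false] at hp
  rcases hp with rfl | rfl | rfl | rfl | rfl | rfl | rfl | rfl | rfl | rfl | rfl | rfl | rfl | rfl | rfl | rfl | rfl | rfl | rfl | rfl | rfl | rfl | rfl | rfl | rfl | rfl | rfl | rfl | rfl | rfl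
  · exact x145_0
  · exact x145_1
  · exact x145_2
  · exact x145_3
  · exact x145_4
  · exact x145_5
  · exact x145_6
  · exact x145_7
  · exact x145_8
  · exact x145_9
  · exact x145_10
  · exact x145_11
  · exact x145_12
  · exact x145_13
  · exact x145_14
  · exact x145_15
  · exact x145_16
  · exact x145_17
  · exact x145_18
  · exact x145_19
  · exact x145_20
  · exact x145_21
  · exact x145_22
  · exact x145_23
  · exact x145_24
  · exact x145_25
  · exact x145_26
  · exact x145_27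
  · exact x145_28
  · exact x145_29

end Pool.Agent.V5helper47.EV
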