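import Pool.Agent.V5helper47.EV.S2

/-! Search, part of the half words. -/

set_option maxRecDepth 1000000

namespace Pool.Agent.V5helper47.EV

open H419R2 Pool.Agent.N911 Pool.Agent.V5helper47.CN

theorem x146_0 : fam (wl [1,1,2,15,7,1,2,3]) 4340 5186 = true := by decide +kernel
theorem x146_1 : fam (wl [1,2,1,3,1,2,5,1,1,2,1,2]) 4295 6322 = true := by decide +kernel
theorem x146_2 : fam (wl [3,1,3,1,2,5,1,1,2,1,1,1]) 1682 889 = true := by decide +kernel
theorem x146_3 : fam (wl [2,2,15,7,1,2,2,1]) 1637 1319 = true := by decide +kernel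
theorem x146_4 : fam (wl [1,1,2,3,2,1,5,1,1,2,3]) 5024 5922 = true := by decide +kernel
theorem x146_5 : fam (wl [1,3,3,1,3,1,1,2,1,1,1,1,2]) 223 342 = true := by decide +kernel
theorem x146_6 : fam (wl [4,3,1,3,1,1,2,1,1,1,1,1,1]) 5758 2701 = true := by decide +kernel
theorem x146_7 : fam (wl [2,2,3,2,1,5,1,1,2,2,1]) 957 787 = true := by decide +kernel
theorem x146_8 : fam (wl [2,1,5,1,1,2,3,2,1,5]) 4651 3266 = true := by decide +kernel
theorem x146_9 : fam (wl [1,1,1,5,1,1,2,3,2,1,4,1]) 1334 1733 = true := by decide +kernel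
theorem x146_10 : fam (wl [2,5,6,1,2,1,1,2,4]) 217 198 = true := by decide +kernel
theorem x146_11 : fam (wl [1,2,1,6,1,1,3,3,2,1,2]) 4012 5950 = true := by decide +kernel
theorem x146_12 : fam (wl [3,1,6,1,1,3,3,2,1,1,1]) 1985 1027 = true := by decide +kernel
theorem x146_13 : fam (wl [1,1,5,6,1,2,1,1,2,3,1]) 5780 6293 = true := by decide +kernel
theorem x146_14 : fam (wl [3,9,2,2,1,4,6]) 5625 3622 = true := by decide +kernel
theorem x146_15 : fam (wl [1,5,1,6,1,14,1,2,2]) 5213 8910 = true := by decide +kernel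
theorem x146_16 : fam (wl [6,1,6,1,14,1,2,1,1]) 786 229 = true := by decide +kernel
theorem x146_17 : fam (wl [1,2,9,2,2,1,4,5,1]) 374 509 = true := by decide +kernel
theorem x146_18 : fam (wl [2,6,4,8,3,4]) 4979 4610 = true := by decide +kernel
theorem x146_19 : fam (wl [1,4,1,12,6,2,2,2]) 3201 5322 = true := by decide +kernel
theorem x146_20 : fam (wl [5,1,12,6,2,2,1,1]) 2798 945 = true := by decide +kernel
theorem x146_21 : fam (wl [1,1,6,4,8,3,3,1]) 1020 1097 = true := by decide +kernel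
theorem x146_22 : fam (wl [20,1,2,2,41]) 4992 482 = true := by decide +kernel
theorem x146_23 : fam (wl [1,19,1,2,2,40,1]) 1013 1931 = true := by decide +kernel
theorem x146_24 : fam (wl [13,3,2,1,1,26]) 3842 578 = true := by decide +kernel
theorem x146_25 : fam (wl [1,1,2,4,3,1,1,1,1,1,2,3]) 4837 5722 = true := by decide +kernel
theorem x146_26 : fam (wl [2,2,4,3,1,1,1,1,1,2,2,1]) 1170 957 = true := by decide +kernel
theorem x146_27 : fam (wl [1,12,3,2,1,1,25,1]) 2165 4007 = true := by decide +kernel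
theorem x146_28 : fam (wl [1,5,3,1,2,1,2,1,1,1,2,2]) 886 1490 = true := by decide +kernel
theorem x146_29 : fam (wl [6,3,1,2,1,2,1,1,1,2,1,1]) 5123 1635 = true := by decide +kernel
/-- words with first entry from 5979 to 6015 -/
def L146 : List (List ℕ × ℕ × ℕ) := [([1,1,2,15,7,1,2,3],4340,5186), ([1,2,1,3,1,2,5,1,1,2,1,2],4295,6322), ([3,1,3,1,2,5,1,1,2,1,1,1],1682,889), ([2,2,15,7,1,2,2,1],1637,1319), ([1,1,2,3,2,1,5,1,1,2,3],5024,5922), ([1,3,3,1,3,1,1,2,1,1,1,1,2],223,342), ([4,3,1,3,1,1,2,1,1,1,1,1,1],5758,2701), ([2,2,3,2,1,5,1,1,2,2,1],957,787), ([2,1,5,1,1,2,3,2,1,5],4651,3266), ([1,1,1,5,1,1,2,3,2,1,4,1],1334,1733), ([2,5,6,1,2,1,1,2,4],217,198), ([1,2,1,6,1,1,3,3,2,1,2],4012,5950), ([3,1,6,1,1,3,3,2,1,1,1],1985,1027), ([1,1,5,6,1,2,1,1,2,3,1],5780,6293), ([3,9,2,2,1,4,6],5625,3622), ([1,5,1,6,1,14,1,2,2],5213,8910), ([6,1,6,1,14,1,2,1,1],786,229), ([1,2,9,2,2,1,4,5,1],374,509), ([2,6,4,8,3,4],4979,4610), ([1,4,1,12,6,2,2,2],3201,5322),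 ([5,1,12,6,2,2,1,1],2798,945), ([1,1,6,4,8,3,3,1],1020,1097), ([20,1,2,2,41],4992,482), ([1,19,1,2,2,40,1],1013,1931), ([13,3,2,1,1,26],3842,578), ([1,1,2,4,3,1,1,1,1,1,2,3],4837,5722), ([2,2,4,3,1,1,1,1,1,2,2,1],1170,957), ([1,12,3,2,1,1,25,1],2165,4007), ([1,5,3,1,2,1,2,1,1,1,2,2],886,1490), ([6,3,1,2,1,2,1,1,1,2,1,1],5123,1635)]
theorem r146 : rgV L146 5979 19 = true := by decide +kernel
theorem f146 : ∀ p ∈ L146, fam (wl p.1) p.2.1 p.2.2 = true := by
  intro p hp
  simp only [L146, List.mem_cons, List.not_mem_nil, or_false] at hp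
  rcases hp with rfl | rfl | rfl | rfl | rfl | rfl | rfl | rfl | rfl | rfl | rfl | rfl | rfl | rfl | rfl | rfl | rfl | rfl | rfl | rfl | rfl | rfl | rfl | rfl | rfl | rfl | rfl | rfl | rfl | rfl
  · exact x146_0
  · exact x146_1
  · exact x146_2
  · exact x146_3
  · exact x146_4
  · exact x146_5
  · exact x146_6
  · exact x146_7
  · exact x146_8
  · exact x146_9
  · exact x146_10
  · exact x146_11
  · exact x146_12
  · exact x146_13
  · exact x146_14
  · exact x146_15
  · exact x146_16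
  · exact x146_17
  · exact x146_18
  · exact x146_19
  · exact x146_20
  · exact x146_21
  · exact x146_22
  · exact x146_23
  · exact x146_24
  · exact x146_25
  · exact x146_26
  · exact x146_27
  · exact x146_28
  · exact x146_29

end Pool.Agent.V5helper47.EV
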