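import Pool.Agent.V5helper47.EV.S2

/-! Search, part of the half words. -/

set_option maxRecDepth 1000000

namespace Pool.Agent.V5helper47.EV

open H419R2 Pool.Agent.N911 Pool.Agent.V5helper47.CN

theorem x147_0 : fam (wl [31,1,2,63]) 285 18 = true := by decide +kernel
theorem x147_1 : fam (wl [4,1,2,5,2,1,2,9]) 3716 1586 = true := by decide +kernel
theorem x147_2 : fam (wl [1,3,1,2,5,2,1,2,8,1]) 2299 3619 = true := by decide +kernel
theorem x147_3 : fam (wl [1,30,1,2,62,1]) 5730 11101 = true := by decide +kernel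
theorem x147_4 : fam (wl [2,12,2,4,6,4]) 3139 3018 = true := by decide +kernel
theorem x147_5 : fam (wl [1,5,1,3,1,2,8,1,2,2]) 5574 9506 = true := by decide +kernel
theorem x147_6 : fam (wl [6,1,3,1,2,8,1,2,1,1]) 457 135 = true := by decide +kernel
theorem x147_7 : fam (wl [1,1,12,2,4,6,3,1]) 2892 3005 = true := by decide +kernel
theorem x147_8 : fam (wl [9,1,6,1,2,1,19]) 2596 526 = true := by decide +kernel
theorem x147_9 : fam (wl [1,2,17,1,35,1,2]) 1116 1502 = true := by decide +kernel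
theorem x147_10 : fam (wl [3,17,1,35,1,1,1]) 4923 3223 = true := by decide +kernel
theorem x147_11 : fam (wl [1,8,1,6,1,2,1,18,1]) 3443 6191 = true := by decide +kernel
theorem x147_12 : fam (wl [7,3,1,1,3,1,1,14]) 5526 1518 = true := by decide +kernel
theorem x147_13 : fam (wl [1,6,3,1,1,3,1,1,13,1]) 515 891 = true := by decide +kernel
theorem x147_14 : fam (wl [3,1,2,1,2,1,6,2,7]) 5640 3022 = true := by decide +kernel
theorem x147_15 : fam (wl [1,2,1,2,1,2,1,6,2,6,1]) 405 595 = true := by decide +kernel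
theorem x147_16 : fam (wl [54,1,109]) 5994 218 = true := by decide +kernel
theorem x147_17 : fam (wl [1,15,4,1,1,1,1,7,2]) 3656 6862 = true := by decide +kernel
theorem x147_18 : fam (wl [16,4,1,1,1,1,7,1,1]) 2391 295 = true := by decide +kernel
theorem x147_19 : fam (wl [1,53,1,108,1]) 53 107 = true := by decide +kernel
theorem x147_20 : fam (wl [55,110]) 55 2 = true := by decide +kernel
theorem x147_21 : fam (wl [1,2,5,1,3,1,1,11,1,2]) 5433 7442 = true := by decide +kernel
theorem x147_22 : fam (wl [3,5,1,3,1,1,11,1,1,1]) 616 389 = true := by decide +kernel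
theorem x147_23 : fam (wl [1,54,109,1]) 5994 11773 = true := by decide +kernel
theorem x147_24 : fam (wl [5,1,1,2,2,1,5,11]) 4118 1474 = true := by decide +kernel
theorem x147_25 : fam (wl [1,1,1,1,1,9,4,1,4,3]) 5314 6626 = true := by decide +kernel
theorem x147_26 : fam (wl [2,1,1,1,9,4,1,4,2,1]) 741 559 = true := by decide +kernel
theorem x147_27 : fam (wl [1,4,1,1,2,2,1,5,10,1]) 1937 3183 = true := by decide +kernel
/-- words with first entry from 6017 to 6057 -/
def L147 : List (List ℕ × ℕ × ℕ) := [([31,1,2,63],285,18), ([4,1,2,5,2,1,2,9],3716,1586), ([1,3,1,2,5,2,1,2,8,1],2299,3619), ([1,30,1,2,62,1],5730,11101), ([2,12,2,4,6,4],3139,3018), ([1,5,1,3,1,2,8,1,2,2],5574,9506), ([6,1,3,1,2,8,1,2,1,1],457,135), ([1,1,12,2,4,6,3,1],2892,3005), ([9,1,6,1,2,1,19],2596,526), ([1,2,17,1,35,1,2],1116,1502), ([3,17,1,35,1,1,1],4923,3223), ([1,8,1,6,1,2,1,18,1],3443,6191), ([7,3,1,1,3,1,1,14],5526,1518), ([1,6,3,1,1,3,1,1,13,1],515,891), ([3,1,2,1,2,1,6,2,7],5640,3022), ([1,2,1,2,1,2,1,6,2,6,1],405,595),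 ([54,1,109],5994,218), ([1,15,4,1,1,1,1,7,2],3656,6862), ([16,4,1,1,1,1,7,1,1],2391,295), ([1,53,1,108,1],53,107), ([55,110],55,2), ([1,2,5,1,3,1,1,11,1,2],5433,7442), ([3,5,1,3,1,1,11,1,1,1],616,389), ([1,54,109,1],5994,11773), ([5,1,1,2,2,1,5,11],4118,1474), ([1,1,1,1,1,9,4,1,4,3],5314,6626), ([2,1,1,1,9,4,1,4,2,1],741,559), ([1,4,1,1,2,2,1,5,10,1],1937,3183)]
theorem r147 : rgV L147 6017 21 = true := by decide +kernel
theorem f147 : ∀ p ∈ L147, fam (wl p.1) p.2.1 p.2.2 = true := by
  intro p hp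
  simp only [L147, List.mem_cons, List.not_mem_nil, or_false] at hp
  rcases hp with rfl | rfl | rfl | rfl | rfl | rfl | rfl | rfl | rfl | rfl | rfl | rfl | rfl | rfl | rfl | rfl | rfl | rfl | rfl | rfl | rfl | rfl | rfl | rfl | rfl | rfl | rfl | rfl
  · exact x147_0
  · exact x147_1
  · exact x147_2
  · exact x147_3
  · exact x147_4
  · exact x147_5
  · exact x147_6
  · exact x147_7
  · exact x147_8
  · exact x147_9
  · exact x147_10
  · exact x147_11
  · exact x147_12
  · exact x147_13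
  · exact x147_14
  · exact x147_15
  · exact x147_16
  · exact x147_17
  · exact x147_18
  · exact x147_19
  · exact x147_20
  · exact x147_21
  · exact x147_22
  · exact x147_23
  · exact x147_24
  · exact x147_25
  · exact x147_26
  · exact x147_27

end Pool.Agent.V5helper47.EV
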