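import Pool.Agent.V5helper47.EV.S2

/-! Search, part of the half words. -/

set_option maxRecDepth 1000000

namespace Pool.Agent.V5helper47.EV

open H419R2 Pool.Agent.N911 Pool.Agent.V5helper47.CN

theorem x148_0 : fam (wl [10,1,1,2,5,21]) 1663 314 = true := by decide +kernel
theorem x148_1 : fam (wl [1,2,18,36,1,2]) 899 1210 = true := by decide +kernel
theorem x148_2 : fam (wl [3,18,36,1,1,1]) 5158 3377 = true := by decide +kernel
theorem x148_3 : fam (wl [1,9,1,1,2,5,20,1]) 4394 7961 = true := by decide +kernel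
theorem x148_4 : fam (wl [2,3,2,2,2,2,2,1,1,4]) 4996 4358 = true := by decide +kernel
theorem x148_5 : fam (wl [1,1,3,2,2,2,2,2,1,1,3,1]) 1069 1207 = true := by decide +kernel
theorem x148_6 : fam (wl [1,1,5,1,1,2,2,3,2,1,3]) 2966 3210 = true := by decide +kernel
theorem x148_7 : fam (wl [2,5,1,1,2,2,3,2,1,2,1]) 3105 2851 = true := by decide +kernel
theorem x148_8 : fam (wl [3,3,1,1,1,2,4,1,1,6]) 1202 734 = true := by decide +kernel
theorem x148_9 : fam (wl [1,2,3,1,1,1,2,4,1,1,5,1]) 4869 6767 = true := by decide +kernel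
theorem x148_10 : fam (wl [1,1,3,1,7,1,3,2,1,1,3]) 2278 2538 = true := by decide +kernel
theorem x148_11 : fam (wl [2,3,1,7,1,3,2,1,1,2,1]) 3799 3367 = true := by decide +kernel
theorem x148_12 : fam (wl [3,14,1,2,7,6]) 3881 2530 = true := by decide +kernel
theorem x148_13 : fam (wl [2,1,14,2,1,6,1,5]) 848 578 = true := by decide +kernel
theorem x148_14 : fam (wl [1,1,1,14,2,1,6,1,4,1]) 5231 6899 = true := by decide +kernel
theorem x148_15 : fam (wl [1,2,14,1,2,7,5,1]) 2198 2965 = true := by decide +kernel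
theorem x148_16 : fam (wl [1,1,1,6,3,1,1,13,3]) 3871 5038 = true := by decide +kernel
theorem x148_17 : fam (wl [2,1,6,3,1,1,13,2,1]) 2216 1549 = true := by decide +kernel
theorem x148_18 : fam (wl [16,1,1,1,3,33]) 2013 242 = true := by decide +kernel
theorem x148_19 : fam (wl [1,15,1,1,1,3,32,1]) 4074 7661 = true := by decide +kernel
theorem x148_20 : fam (wl [1,3,1,1,8,4,3,1,1,2]) 2157 3362 = true := by decide +kernel
theorem x148_21 : fam (wl [4,1,1,8,4,3,1,1,1,1]) 3932 1737 = true := by decide +kernel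
theorem x148_22 : fam (wl [6,7,2,1,3,12]) 3663 1194 = true := by decide +kernel
theorem x148_23 : fam (wl [2,11,3,1,1,1,5,4]) 2007 1922 = true := by decide +kernel
theorem x148_24 : fam (wl [1,4,1,6,1,2,3,2,2,2]) 4340 7202 = true := by decide +kernel
theorem x148_25 : fam (wl [1,5,1,7,15,1,2,2]) 3413 5834 = true := by decide +kernel
theorem x148_26 : fam (wl [6,1,7,15,1,2,1,1]) 2684 781 = true := by decide +kernel
theorem x148_27 : fam (wl [5,1,6,1,2,3,2,2,1,1]) 1757 599 = true := by decide +kernel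
theorem x148_28 : fam (wl [1,1,11,3,1,1,1,5,3,1]) 4090 4265 = true := by decide +kernel
theorem x148_29 : fam (wl [1,5,7,2,1,3,11,1]) 2434 4077 = true := by decide +kernel
/-- words with first entry from 6059 to 6101 -/
def L148 : List (List ℕ × ℕ × ℕ) := [([10,1,1,2,5,21],1663,314), ([1,2,18,36,1,2],899,1210), ([3,18,36,1,1,1],5158,3377), ([1,9,1,1,2,5,20,1],4394,7961), ([2,3,2,2,2,2,2,1,1,4],4996,4358), ([1,1,3,2,2,2,2,2,1,1,3,1],1069,1207), ([1,1,5,1,1,2,2,3,2,1,3],2966,3210), ([2,5,1,1,2,2,3,2,1,2,1],3105,2851), ([3,3,1,1,1,2,4,1,1,6],1202,734), ([1,2,3,1,1,1,2,4,1,1,5,1],4869,6767), ([1,1,3,1,7,1,3,2,1,1,3],2278,2538), ([2,3,1,7,1,3,2,1,1,2,1],3799,3367), ([3,14,1,2,7,6],3881,2530), ([2,1,14,2,1,6,1,5],848,578), ([1,1,1,14,2,1,6,1,4,1],5231,6899), ([1,2,14,1,2,7,5,1],2198,2965), ([1,1,1,6,3,1,1,13,3],3871,5038), ([2,1,6,3,1,1,13,2,1],2216,1549), ([16,1,1,1,3,33],2013,242), ([1,15,1,1,1,3,32,1],4074,7661), ([1,3,1,1,8,4,3,1,1,2],2157,3362), ([4,1,1,8,4,3,1,1,1,1],3932,1737),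 ([6,7,2,1,3,12],3663,1194), ([2,11,3,1,1,1,5,4],2007,1922), ([1,4,1,6,1,2,3,2,2,2],4340,7202), ([1,5,1,7,15,1,2,2],3413,5834), ([6,1,7,15,1,2,1,1],2684,781), ([5,1,6,1,2,3,2,2,1,1],1757,599), ([1,1,11,3,1,1,1,5,3,1],4090,4265), ([1,5,7,2,1,3,11,1],2434,4077)]
theorem r148 : rgV L148 6059 22 = true := by decide +kernel
theorem f148 : ∀ p ∈ L148, fam (wl p.1) p.2.1 p.2.2 = true := by
  intro p hp
  simp only [L148, List.mem_cons, List.not_mem_nil, or_false] at hp
  rcases hp with rfl | rfl | rfl | rfl | rfl | rfl | rfl | rfl | rfl | rfl | rfl | rfl | rfl | rfl | rfl | rfl | rfl | rfl | rfl | rfl | rfl | rfl | rfl | rfl | rfl | rfl | rfl | rfl | rfl | rfl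
  · exact x148_0
  · exact x148_1
  · exact x148_2
  · exact x148_3
  · exact x148_4
  · exact x148_5
  · exact x148_6
  · exact x148_7
  · exact x148_8
  · exact x148_9
  · exact x148_10
  · exact x148_11
  · exact x148_12
  · exact x148_13
  · exact x148_14
  · exact x148_15
  · exact x148_16
  · exact x148_17
  · exact x148_18
  · exact x148_19
  · exact x148_20
  · exact x148_21
  · exact x148_22
  · exact x148_23
  · exact x148_24
  · exact x148_25
  · exact x148_26
  · exact x148_27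
  · exact x148_28
  · exact x148_29

end Pool.Agent.V5helper47.EV
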