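import Pool.Agent.V5helper47.EV.S2

/-! Search, part of the half words. -/

set_option maxRecDepth 1000000

namespace Pool.Agent.V5helper47.EV

open H419R2 Pool.Agent.N911 Pool.Agent.V5helper47.CN

theorem x149_0 : fam (wl [1,3,3,3,1,7,1,1,1,1,2]) 2116 3250 = true := by decide +kernel
theorem x149_1 : fam (wl [1,7,3,1,1,3,1,1,1,3,2]) 5717 10054 = true := by decide +kernel
theorem x149_2 : fam (wl [8,3,1,1,3,1,1,1,3,1,1]) 384 93 = true := by decide +kernel
theorem x149_3 : fam (wl [4,3,3,1,7,1,1,1,1,1,1]) 3985 1851 = true := by decide +kernel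
theorem x149_4 : fam (wl [7,1,8,1,3,1,15]) 5489 1390 = true := by decide +kernel
theorem x149_5 : fam (wl [1,6,1,8,1,3,1,14,1]) 622 1089 = true := by decide +kernel
theorem x149_6 : fam (wl [8,1,1,1,2,1,3,17]) 2288 530 = true := by decide +kernel
theorem x149_7 : fam (wl [1,7,1,1,1,2,1,3,16,1]) 3823 6763 = true := by decide +kernel
theorem x149_8 : fam (wl [1,28,1,1,3,14,2]) 4952 9570 = true := by decide +kernel
theorem x149_9 : fam (wl [29,1,1,3,14,1,1]) 1167 79 = true := by decide +kernel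
theorem x149_10 : fam (wl [2,1,5,3,6,2,1,5]) 4197 2954 = true := by decide +kernel
theorem x149_11 : fam (wl [1,1,1,5,3,6,2,1,4,1]) 1922 2493 = true := by decide +kernel
theorem x149_12 : fam (wl [1,2,2,1,7,3,1,5,1,2]) 2431 3410 = true := by decide +kernel
theorem x149_13 : fam (wl [1,5,1,1,1,3,1,1,4,1,2,2]) 102 174 = true := by decide +kernel
theorem x149_14 : fam (wl [6,1,1,1,3,1,1,4,1,2,1,1]) 6025 1815 = true := by decide +kernel
theorem x149_15 : fam (wl [3,2,1,7,3,1,5,1,1,1]) 3696 2209 = true := by decide +kernel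
theorem x149_16 : fam (wl [1,8,6,12,4,2]) 4650 8286 = true := by decide +kernel
theorem x149_17 : fam (wl [9,6,12,4,1,1]) 1479 323 = true := by decide +kernel
theorem x149_18 : fam (wl [5,2,1,4,2,2,1,10]) 6078 2270 = true := by decide +kernel
theorem x149_19 : fam (wl [1,1,12,1,1,3,1,5,1,3]) 4093 4250 = true := by decide +kernel
theorem x149_20 : fam (wl [2,12,1,1,3,1,5,1,2,1]) 2042 1965 = true := by decide +kernel
theorem x149_21 : fam (wl [1,4,2,1,4,2,2,1,9,1]) 57 95 = true := by decide +kernel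
theorem x149_22 : fam (wl [2,3,10,1,4,1,1,1,4]) 3371 2902 = true := by decide +kernel
theorem x149_23 : fam (wl [1,1,3,10,1,4,1,1,1,3,1]) 2770 3157 = true := by decide +kernel
theorem x149_24 : fam (wl [2,3,3,2,4,1,1,1,1,4]) 4011 3482 = true := by decide +kernel
theorem x149_25 : fam (wl [1,2,10,2,1,20,1,2]) 10 14 = true := by decide +kernel
theorem x149_26 : fam (wl [3,10,2,1,20,1,1,1]) 6135 3963 = true := by decide +kernel
theorem x149_27 : fam (wl [1,1,3,3,2,4,1,1,1,1,3,1]) 2134 2417 = true := by decide +kernel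
theorem x149_28 : fam (wl [1,10,4,1,9,5,2]) 2111 3846 = true := by decide +kernel
theorem x149_29 : fam (wl [11,4,1,9,5,1,1]) 4038 721 = true := by decide +kernel
/-- words with first entry from 6103 to 6161 -/
def L149 : List (List ℕ × ℕ × ℕ) := [([1,3,3,3,1,7,1,1,1,1,2],2116,3250), ([1,7,3,1,1,3,1,1,1,3,2],5717,10054), ([8,3,1,1,3,1,1,1,3,1,1],384,93), ([4,3,3,1,7,1,1,1,1,1,1],3985,1851), ([7,1,8,1,3,1,15],5489,1390), ([1,6,1,8,1,3,1,14,1],622,1089), ([8,1,1,1,2,1,3,17],2288,530), ([1,7,1,1,1,2,1,3,16,1],3823,6763), ([1,28,1,1,3,14,2],4952,9570), ([29,1,1,3,14,1,1],1167,79), ([2,1,5,3,6,2,1,5],4197,2954), ([1,1,1,5,3,6,2,1,4,1],1922,2493), ([1,2,2,1,7,3,1,5,1,2],2431,3410), ([1,5,1,1,1,3,1,1,4,1,2,2],102,174), ([6,1,1,1,3,1,1,4,1,2,1,1],6025,1815), ([3,2,1,7,3,1,5,1,1,1],3696,2209), ([1,8,6,12,4,2],4650,8286), ([9,6,12,4,1,1],1479,323), ([5,2,1,4,2,2,1,10],6078,2270), ([1,1,12,1,1,3,1,5,1,3],4093,4250), ([2,12,1,1,3,1,5,1,2,1],2042,1965),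 ([1,4,2,1,4,2,2,1,9,1],57,95), ([2,3,10,1,4,1,1,1,4],3371,2902), ([1,1,3,10,1,4,1,1,1,3,1],2770,3157), ([2,3,3,2,4,1,1,1,1,4],4011,3482), ([1,2,10,2,1,20,1,2],10,14), ([3,10,2,1,20,1,1,1],6135,3963), ([1,1,3,3,2,4,1,1,1,1,3,1],2134,2417), ([1,10,4,1,9,5,2],2111,3846), ([11,4,1,9,5,1,1],4038,721)]
theorem r149 : rgV L149 6103 30 = true := by decide +kernel
theorem f149 : ∀ p ∈ L149, fam (wl p.1) p.2.1 p.2.2 = true := by
  intro p hp
  simp only [L149, List.mem_cons, List.not_mem_nil, or_false] at hp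
  rcases hp with rfl | rfl | rfl | rfl | rfl | rfl | rfl | rfl | rfl | rfl | rfl | rfl | rfl | rfl | rfl | rfl | rfl | rfl | rfl | rfl | rfl | rfl | rfl | rfl | rfl | rfl | rfl | rfl | rfl | rfl
  · exact x149_0
  · exact x149_1
  · exact x149_2
  · exact x149_3
  · exact x149_4
  · exact x149_5
  · exact x149_6
  · exact x149_7
  · exact x149_8
  · exact x149_9
  · exact x149_10
  · exact x149_11
  · exact x149_12
  · exact x149_13
  · exact x149_14
  · exact x149_15
  · exact x149_16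
  · exact x149_17
  · exact x149_18
  · exact x149_19
  · exact x149_20
  · exact x149_21
  · exact x149_22
  · exact x149_23
  · exact x149_24
  · exact x149_25
  · exact x149_26
  · exact x149_27
  · exact x149_28
  · exact x149_29

end Pool.Agent.V5helper47.EV
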