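import Pool.Agent.V5helper47.EV.S2

/-! Search, part of the half words. -/

set_option maxRecDepth 1000000

namespace Pool.Agent.V5helper47.EV

open H419R2 Pool.Agent.N911 Pool.Agent.V5helper47.CN

theorem x150_0 : fam (wl [2,4,1,1,1,1,3,3,2,4]) 2547 2298 = true := by decide +kernel
theorem x150_1 : fam (wl [1,1,4,1,1,1,1,3,3,2,3,1]) 3614 3969 = true := by decide +kernel
theorem x150_2 : fam (wl [1,1,3,2,1,2,2,5,1,1,3]) 3023 3414 = true := by decide +kernel
theorem x150_3 : fam (wl [1,1,2,1,2,3,1,1,5,2,3]) 5660 6546 = true := by decide +kernel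
theorem x150_4 : fam (wl [2,2,1,2,3,1,1,5,2,2,1]) 505 427 = true := by decide +kernel
theorem x150_5 : fam (wl [2,3,2,1,2,2,5,1,1,2,1]) 3142 2737 = true := by decide +kernel
theorem x150_6 : fam (wl [1,1,1,3,1,4,1,1,1,8,3]) 372 478 = true := by decide +kernel
theorem x150_7 : fam (wl [1,5,12,1,5,1,1,2,2]) 3819 6382 = true := by decide +kernel
theorem x150_8 : fam (wl [6,12,1,5,1,1,2,1,1]) 2348 773 = true := by decide +kernel
theorem x150_9 : fam (wl [2,1,3,1,4,1,1,1,8,2,1]) 5795 4151 = true := by decide +kernel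
theorem x150_10 : fam (wl [2,2,2,3,2,1,1,4,1,4]) 870 722 = true := by decide +kernel
theorem x150_11 : fam (wl [2,4,3,2,1,6,2,4]) 3860 3458 = true := by decide +kernel
theorem x150_12 : fam (wl [1,7,1,2,1,2,6,1,3,2]) 5738 10162 = true := by decide +kernel
theorem x150_13 : fam (wl [1,11,3,1,2,1,1,1,5,2]) 2557 4698 = true := by decide +kernel
theorem x150_14 : fam (wl [12,3,1,2,1,1,1,5,1,1]) 3612 589 = true := by decide +kernel
theorem x150_15 : fam (wl [8,1,2,1,2,6,1,3,1,1]) 431 99 = true := by decide +kernel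
theorem x150_16 : fam (wl [1,1,4,3,2,1,6,2,3,1]) 2309 2551 = true := by decide +kernel
theorem x150_17 : fam (wl [1,1,2,2,3,2,1,1,4,1,3,1]) 5299 6203 = true := by decide +kernel
theorem x150_18 : fam (wl [4,1,14,1,6,1,9]) 854 346 = true := by decide +kernel
theorem x150_19 : fam (wl [2,4,5,1,11,2,4]) 1664 1486 = true := by decide +kernel
theorem x150_20 : fam (wl [1,1,4,5,1,11,2,3,1]) 4525 5011 = true := by decide +kernel
theorem x150_21 : fam (wl [1,3,1,14,1,6,1,8,1]) 5335 8511 = true := by decide +kernel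
theorem x150_22 : fam (wl [3,5,1,2,5,1,2,6]) 2061 1298 = true := by decide +kernel
theorem x150_23 : fam (wl [1,22,1,2,1,2,11,2]) 3926 7522 = true := by decide +kernel
theorem x150_24 : fam (wl [23,1,2,1,2,11,1,1]) 2265 191 = true := by decide +kernel
theorem x150_25 : fam (wl [1,2,5,1,2,5,1,2,5,1]) 4130 5661 = true := by decide +kernel
theorem x150_26 : fam (wl [11,1,1,1,1,4,23]) 58 10 = true := by decide +kernel
theorem x150_27 : fam (wl [1,10,1,1,1,1,4,22,1]) 6139 11223 = true := by decide +kernel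
theorem x150_28 : fam (wl [3,2,2,4,2,4,1,6]) 1053 618 = true := by decide +kernel
theorem x150_29 : fam (wl [1,2,2,2,4,2,4,1,5,1]) 5148 7277 = true := by decide +kernel
/-- words with first entry from 6163 to 6207 -/
def L150 : List (List ℕ × ℕ × ℕ) := [([2,4,1,1,1,1,3,3,2,4],2547,2298), ([1,1,4,1,1,1,1,3,3,2,3,1],3614,3969), ([1,1,3,2,1,2,2,5,1,1,3],3023,3414), ([1,1,2,1,2,3,1,1,5,2,3],5660,6546), ([2,2,1,2,3,1,1,5,2,2,1],505,427), ([2,3,2,1,2,2,5,1,1,2,1],3142,2737), ([1,1,1,3,1,4,1,1,1,8,3],372,478), ([1,5,12,1,5,1,1,2,2],3819,6382), ([6,12,1,5,1,1,2,1,1],2348,773), ([2,1,3,1,4,1,1,1,8,2,1],5795,4151), ([2,2,2,3,2,1,1,4,1,4],870,722), ([2,4,3,2,1,6,2,4],3860,3458), ([1,7,1,2,1,2,6,1,3,2],5738,10162), ([1,11,3,1,2,1,1,1,5,2],2557,4698), ([12,3,1,2,1,1,1,5,1,1],3612,589), ([8,1,2,1,2,6,1,3,1,1],431,99), ([1,1,4,3,2,1,6,2,3,1],2309,2551), ([1,1,2,2,3,2,1,1,4,1,3,1],5299,6203), ([4,1,14,1,6,1,9],854,346), ([2,4,5,1,11,2,4],1664,1486), ([1,1,4,5,1,11,2,3,1],4525,5011),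 ([1,3,1,14,1,6,1,8,1],5335,8511), ([3,5,1,2,5,1,2,6],2061,1298), ([1,22,1,2,1,2,11,2],3926,7522), ([23,1,2,1,2,11,1,1],2265,191), ([1,2,5,1,2,5,1,2,5,1],4130,5661), ([11,1,1,1,1,4,23],58,10), ([1,10,1,1,1,1,4,22,1],6139,11223), ([3,2,2,4,2,4,1,6],1053,618), ([1,2,2,2,4,2,4,1,5,1],5148,7277)]
theorem r150 : rgV L150 6163 23 = true := by decide +kernel
theorem f150 : ∀ p ∈ L150, fam (wl p.1) p.2.1 p.2.2 = true := by
  intro p hp
  simp only [L150, List.mem_cons, List.not_mem_nil, or_false] at hp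
  rcases hp with rfl | rfl | rfl | rfl | rfl | rfl | rfl | rfl | rfl | rfl | rfl | rfl | rfl | rfl | rfl | rfl | rfl | rfl | rfl | rfl | rfl | rfl | rfl | rfl | rfl | rfl | rfl | rfl | rfl | rfl
  · exact x150_0
  · exact x150_1
  · exact x150_2
  · exact x150_3
  · exact x150_4
  · exact x150_5
  · exact x150_6
  · exact x150_7
  · exact x150_8
  · exact x150_9
  · exact x150_10
  · exact x150_11
  · exact x150_12
  · exact x150_13
  · exact x150_14
  · exact x150_15
  · exact x150_16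
  · exact x150_17
  · exact x150_18
  · exact x150_19
  · exact x150_20
  · exact x150_21
  · exact x150_22
  · exact x150_23
  · exact x150_24
  · exact x150_25
  · exact x150_26
  · exact x150_27
  · exact x150_28
  · exact x150_29

end Pool.Agent.V5helper47.EV
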