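import Pool.Agent.V5helper47.EV.S2

/-! Search, part of the half words. -/

set_option maxRecDepth 1000000

namespace Pool.Agent.V5helper47.EV

open H419R2 Pool.Agent.N911 Pool.Agent.V5helper47.CN

theorem x151_0 : fam (wl [3,1,18,1,8,1,7]) 5020 2542 = true := by decide +kernel
theorem x151_1 : fam (wl [1,4,1,2,2,1,5,1,2,2,2]) 3879 6398 = true := by decide +kernel
theorem x151_2 : fam (wl [5,1,2,2,1,5,1,2,2,1,1]) 2328 817 = true := by decide +kernel
theorem x151_3 : fam (wl [1,2,1,18,1,8,1,6,1]) 1187 1775 = true := by decide +kernel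
theorem x151_4 : fam (wl [1,9,2,3,1,1,2,1,4,2]) 5495 9938 = true := by decide +kernel
theorem x151_5 : fam (wl [10,2,3,1,1,2,1,4,1,1]) 714 137 = true := by decide +kernel
theorem x151_6 : fam (wl [8,1,2,2,2,2,17]) 4014 922 = true := by decide +kernel
theorem x151_7 : fam (wl [1,7,1,2,2,2,2,16,1]) 2201 3899 = true := by decide +kernel
theorem x151_8 : fam (wl [2,2,2,6,3,4,1,4]) 3717 3090 = true := by decide +kernel
theorem x151_9 : fam (wl [1,1,2,2,6,3,4,1,3,1]) 2498 2921 = true := by decide +kernel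
theorem x151_10 : fam (wl [7,2,1,1,2,3,1,14]) 5340 1446 = true := by decide +kernel
theorem x151_11 : fam (wl [3,4,4,8,2,6]) 5562 3438 = true := by decide +kernel
theorem x151_12 : fam (wl [1,2,4,4,8,2,5,1]) 655 907 = true := by decide +kernel
theorem x151_13 : fam (wl [1,6,2,1,1,2,3,1,13,1]) 877 1519 = true := by decide +kernel
theorem x151_14 : fam (wl [3,25,1,12,6]) 3400 2238 = true := by decide +kernel
theorem x151_15 : fam (wl [1,2,4,5,1,2,8,1,2]) 85 118 = true := by decide +kernel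
theorem x151_16 : fam (wl [3,4,5,1,2,8,1,1,1]) 6136 3789 = true := by decide +kernel
theorem x151_17 : fam (wl [1,2,25,1,12,5,1]) 2821 3787 = true := by decide +kernel
theorem x151_18 : fam (wl [1,1,38,1,18,1,3]) 4477 4534 = true := by decide +kernel
theorem x151_19 : fam (wl [1,1,2,5,1,1,3,2,1,2,3]) 3605 4278 = true := by decide +kernel
theorem x151_20 : fam (wl [2,2,5,1,1,3,2,1,2,2,1]) 2626 2137 = true := by decide +kernel
theorem x151_21 : fam (wl [2,38,1,18,1,2,1]) 1754 1733 = true := by decide +kernel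
theorem x151_22 : fam (wl [1,1,14,2,2,1,6,1,3]) 4828 4990 = true := by decide +kernel
theorem x151_23 : fam (wl [1,77,1,38,2]) 4698 9278 = true := by decide +kernel
theorem x151_24 : fam (wl [78,1,38,1,1]) 1539 39 = true := by decide +kernel
theorem x151_25 : fam (wl [2,14,2,2,1,6,1,2,1]) 1409 1363 = true := by decide +kernel
theorem x151_26 : fam (wl [1,2,1,1,1,1,3,1,1,3,3,1,2]) 2654 3838 = true := by decide +kernel
theorem x151_27 : fam (wl [3,1,1,1,1,3,1,1,3,3,1,1,1]) 3585 1987 = true := by decide +kernel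
/-- words with first entry from 6209 to 6241 -/
def L151 : List (List ℕ × ℕ × ℕ) := [([3,1,18,1,8,1,7],5020,2542), ([1,4,1,2,2,1,5,1,2,2,2],3879,6398), ([5,1,2,2,1,5,1,2,2,1,1],2328,817), ([1,2,1,18,1,8,1,6,1],1187,1775), ([1,9,2,3,1,1,2,1,4,2],5495,9938), ([10,2,3,1,1,2,1,4,1,1],714,137), ([8,1,2,2,2,2,17],4014,922), ([1,7,1,2,2,2,2,16,1],2201,3899), ([2,2,2,6,3,4,1,4],3717,3090), ([1,1,2,2,6,3,4,1,3,1],2498,2921), ([7,2,1,1,2,3,1,14],5340,1446), ([3,4,4,8,2,6],5562,3438), ([1,2,4,4,8,2,5,1],655,907), ([1,6,2,1,1,2,3,1,13,1],877,1519), ([3,25,1,12,6],3400,2238), ([1,2,4,5,1,2,8,1,2],85,118), ([3,4,5,1,2,8,1,1,1],6136,3789), ([1,2,25,1,12,5,1],2821,3787), ([1,1,38,1,18,1,3],4477,4534), ([1,1,2,5,1,1,3,2,1,2,3],3605,4278), ([2,2,5,1,1,3,2,1,2,2,1],2626,2137), ([2,38,1,18,1,2,1],1754,1733), ([1,1,14,2,2,1,6,1,3],4828,4990), ([1,77,1,38,2],4698,9278), ([78,1,38,1,1],1539,39), ([2,14,2,2,1,6,1,2,1],1409,1363), ([1,2,1,1,1,1,3,1,1,3,3,1,2],2654,3838), ([3,1,1,1,1,3,1,1,3,3,1,1,1],3585,1987)]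
theorem r151 : rgV L151 6209 17 = true := by decide +kernel
theorem f151 : ∀ p ∈ L151, fam (wl p.1) p.2.1 p.2.2 = true := by
  intro p hp
  simp only [L151, List.mem_cons, List.not_mem_nil, or_false] at hp
  rcases hp with rfl | rfl | rfl | rfl | rfl | rfl | rfl | rfl | rfl | rfl | rfl | rfl | rfl | rfl | rfl | rfl | rfl | rfl | rfl | rfl | rfl | rfl | rfl | rfl | rfl | rfl | rfl | rfl
  · exact x151_0
  · exact x151_1
  · exact x151_2
  · exact x151_3
  · exact x151_4
  · exact x151_5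
  · exact x151_6
  · exact x151_7
  · exact x151_8
  · exact x151_9
  · exact x151_10
  · exact x151_11
  · exact x151_12
  · exact x151_13
  · exact x151_14
  · exact x151_15
  · exact x151_16
  · exact x151_17
  · exact x151_18
  · exact x151_19
  · exact x151_20
  · exact x151_21
  · exact x151_22
  · exact x151_23
  · exact x151_24
  · exact x151_25
  · exact x151_26
  · exact x151_27

end Pool.Agent.V5helper47.EV
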