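import Pool.Agent.V5helper47.EV.S2

/-! Search, part of the half words. -/

set_option maxRecDepth 1000000

namespace Pool.Agent.V5helper47.EV

open H419R2 Pool.Agent.N911 Pool.Agent.V5helper47.CN

theorem x153_0 : fam (wl [56,112]) 56 2 = true := by decide +kernel
theorem x153_1 : fam (wl [32,2,1,64]) 291 18 = true := by decide +kernel
theorem x153_2 : fam (wl [4,1,8,2,1,3,1,9]) 2422 990 = true := by decide +kernel
theorem x153_3 : fam (wl [3,1,19,9,1,7]) 2769 1402 = true := by decide +kernel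
theorem x153_4 : fam (wl [1,2,1,19,9,1,6,1]) 3502 5233 = true := by decide +kernel
theorem x153_5 : fam (wl [1,3,1,8,2,1,3,1,8,1]) 3849 6127 = true := by decide +kernel
theorem x153_6 : fam (wl [1,31,2,1,63,1]) 5980 11593 = true := by decide +kernel
theorem x153_7 : fam (wl [1,55,111,1]) 6215 12211 = true := by decide +kernel
theorem x153_8 : fam (wl [1,1,1,18,37,3]) 5813 7682 = true := by decide +kernel
theorem x153_9 : fam (wl [1,3,1,5,1,2,12,1,1,2]) 3062 4862 = true := by decide +kernel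
theorem x153_10 : fam (wl [4,1,5,1,2,12,1,1,1,1]) 3217 1327 = true := by decide +kernel
theorem x153_11 : fam (wl [2,1,18,37,2,1]) 466 317 = true := by decide +kernel
theorem x153_12 : fam (wl [5,3,1,1,1,4,1,1,10]) 1809 686 = true := by decide +kernel
theorem x153_13 : fam (wl [1,4,3,1,1,1,4,1,1,9,1]) 4476 7257 = true := by decide +kernel
theorem x153_14 : fam (wl [6,1,5,1,2,2,1,13]) 5597 1634 = true := by decide +kernel
theorem x153_15 : fam (wl [1,1,3,4,2,1,8,1,1,3]) 3959 4490 = true := by decide +kernel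
theorem x153_16 : fam (wl [2,3,4,2,1,8,1,1,2,1]) 2328 2017 = true := by decide +kernel
theorem x153_17 : fam (wl [1,5,1,5,1,2,2,1,12,1]) 690 1181 = true := by decide +kernel
theorem x153_18 : fam (wl [4,1,15,7,1,9]) 390 158 = true := by decide +kernel
theorem x153_19 : fam (wl [1,3,5,1,2,1,2,2,1,1,1,2]) 3967 6034 = true := by decide +kernel
theorem x153_20 : fam (wl [4,5,1,2,1,2,2,1,1,1,1,1]) 2322 1113 = true := by decide +kernel
theorem x153_21 : fam (wl [1,3,1,15,7,1,8,1]) 5899 9411 = true := by decide +kernel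
theorem x153_22 : fam (wl [7,3,3,1,1,1,1,14]) 241 66 = true := by decide +kernel
theorem x153_23 : fam (wl [1,4,11,22,2,2]) 5138 8258 = true := by decide +kernel
theorem x153_24 : fam (wl [5,11,22,2,1,1]) 1157 455 = true := by decide +kernel
theorem x153_25 : fam (wl [1,6,3,3,1,1,1,1,13,1]) 6054 10453 = true := by decide +kernel
theorem x153_26 : fam (wl [1,1,1,2,5,2,1,2,5,3]) 3146 3950 = true := by decide +kernel
theorem x153_27 : fam (wl [2,1,2,5,2,1,2,5,2,1]) 3151 2347 = true := by decide +kernel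
theorem x153_28 : fam (wl [1,1,7,1,3,1,1,2,3,1,3]) 5445 5774 = true := by decide +kernel
theorem x153_29 : fam (wl [2,7,1,3,1,1,2,3,1,2,1]) 864 813 = true := by decide +kernel
/-- words with first entry from 6273 to 6311 -/
def L153 : List (List ℕ × ℕ × ℕ) := [([56,112],56,2), ([32,2,1,64],291,18), ([4,1,8,2,1,3,1,9],2422,990), ([3,1,19,9,1,7],2769,1402), ([1,2,1,19,9,1,6,1],3502,5233), ([1,3,1,8,2,1,3,1,8,1],3849,6127), ([1,31,2,1,63,1],5980,11593), ([1,55,111,1],6215,12211), ([1,1,1,18,37,3],5813,7682), ([1,3,1,5,1,2,12,1,1,2],3062,4862), ([4,1,5,1,2,12,1,1,1,1],3217,1327), ([2,1,18,37,2,1],466,317), ([5,3,1,1,1,4,1,1,10],1809,686), ([1,4,3,1,1,1,4,1,1,9,1],4476,7257), ([6,1,5,1,2,2,1,13],5597,1634), ([1,1,3,4,2,1,8,1,1,3],3959,4490), ([2,3,4,2,1,8,1,1,2,1],2328,2017), ([1,5,1,5,1,2,2,1,12,1],690,1181), ([4,1,15,7,1,9],390,158), ([1,3,5,1,2,1,2,2,1,1,1,2],3967,6034), ([4,5,1,2,1,2,2,1,1,1,1,1],2322,1113), ([1,3,1,15,7,1,8,1],5899,9411), ([7,3,3,1,1,1,1,14],241,66),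 ([1,4,11,22,2,2],5138,8258), ([5,11,22,2,1,1],1157,455), ([1,6,3,3,1,1,1,1,13,1],6054,10453), ([1,1,1,2,5,2,1,2,5,3],3146,3950), ([2,1,2,5,2,1,2,5,2,1],3151,2347), ([1,1,7,1,3,1,1,2,3,1,3],5445,5774), ([2,7,1,3,1,1,2,3,1,2,1],864,813)]
theorem r153 : rgV L153 6273 20 = true := by decide +kernel
theorem f153 : ∀ p ∈ L153, fam (wl p.1) p.2.1 p.2.2 = true := by
  intro p hp
  simp only [L153, List.mem_cons, List.not_mem_nil, or_false] at hp
  rcases hp with rfl | rfl | rfl | rfl | rfl | rfl | rfl | rfl | rfl | rfl | rfl | rfl | rfl | rfl | rfl | rfl | rfl | rfl | rfl | rfl | rfl | rfl | rfl | rfl | rfl | rfl | rfl | rfl | rfl | rfl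
  · exact x153_0
  · exact x153_1
  · exact x153_2
  · exact x153_3
  · exact x153_4
  · exact x153_5
  · exact x153_6
  · exact x153_7
  · exact x153_8
  · exact x153_9
  · exact x153_10
  · exact x153_11
  · exact x153_12
  · exact x153_13
  · exact x153_14
  · exact x153_15
  · exact x153_16
  · exact x153_17
  · exact x153_18
  · exact x153_19
  · exact x153_20
  · exact x153_21
  · exact x153_22
  · exact x153_23
  · exact x153_24
  · exact x153_25
  · exact x153_26
  · exact x153_27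
  · exact x153_28
  · exact x153_29

end Pool.Agent.V5helper47.EV
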