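import Pool.Agent.V5helper47.EV.S2

/-! Search, part of the half words. -/

set_option maxRecDepth 1000000

namespace Pool.Agent.V5helper47.EV

open H419R2 Pool.Agent.N911 Pool.Agent.V5helper47.CN

theorem x154_0 : fam (wl [2,1,3,2,1,2,5,1,1,5]) 967 698 = true := by decide +kernel
theorem x154_1 : fam (wl [1,5,13,6,1,1,2,2]) 1351 2258 = true := by decide +kernel
theorem x154_2 : fam (wl [6,13,6,1,1,2,1,1]) 4960 1633 = true := by decide +kernel
theorem x154_3 : fam (wl [1,1,1,3,2,1,2,5,1,1,4,1]) 5344 6833 = true := by decide +kernel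
theorem x154_4 : fam (wl [3,1,2,6,1,2,1,2,7]) 2294 1246 = true := by decide +kernel
theorem x154_5 : fam (wl [1,11,2,2,2,2,1,5,2]) 477 878 = true := by decide +kernel
theorem x154_6 : fam (wl [12,2,2,2,2,1,5,1,1]) 5840 941 = true := by decide +kernel
theorem x154_7 : fam (wl [1,2,1,2,6,1,2,1,2,6,1]) 4023 5863 = true := by decide +kernel
theorem x154_8 : fam (wl [9,1,3,1,2,1,1,19]) 4336 886 = true := by decide +kernel
theorem x154_9 : fam (wl [1,8,1,3,1,2,1,1,18,1]) 1985 3567 = true := by decide +kernel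
theorem x154_10 : fam (wl [1,1,1,1,2,3,1,7,1,3,3]) 4744 5826 = true := by decide +kernel
theorem x154_11 : fam (wl [2,1,1,2,3,1,7,1,3,2,1]) 1583 1223 = true := by decide +kernel
theorem x154_12 : fam (wl [2,6,2,2,1,4,3,4]) 6055 5618 = true := by decide +kernel
theorem x154_13 : fam (wl [1,1,6,2,2,1,4,3,3,1]) 272 293 = true := by decide +kernel
theorem x154_14 : fam (wl [1,1,3,1,2,1,1,3,1,2,1,1,3]) 5634 6302 = true := by decide +kernel
theorem x154_15 : fam (wl [2,3,1,2,1,1,3,1,2,1,1,2,1]) 701 619 = true := by decide +kernel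
theorem x154_16 : fam (wl [2,4,1,3,2,1,1,2,2,4]) 5464 4946 = true := by decide +kernel
theorem x154_17 : fam (wl [1,1,4,1,3,2,1,1,2,2,3,1]) 871 955 = true := by decide +kernel
theorem x154_18 : fam (wl [4,4,3,6,2,8]) 5793 2738 = true := by decide +kernel
theorem x154_19 : fam (wl [2,3,11,5,1,1,1,4]) 1954 1682 = true := by decide +kernel
theorem x154_20 : fam (wl [1,1,3,11,5,1,1,1,3,1]) 4383 4995 = true := by decide +kernel
theorem x154_21 : fam (wl [1,3,4,3,6,2,7,1]) 544 833 = true := by decide +kernel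
theorem x154_22 : fam (wl [21,3,1,1,42]) 5300 498 = true := by decide +kernel
theorem x154_23 : fam (wl [1,20,3,1,1,41,1]) 1041 1987 = true := by decide +kernel
theorem x154_24 : fam (wl [18,1,3,1,1,37]) 1521 162 = true := by decide +kernel
theorem x154_25 : fam (wl [1,25,1,1,3,1,12,2]) 1048 2018 = true := by decide +kernel
theorem x154_26 : fam (wl [26,1,1,3,1,12,1,1]) 5297 399 = true := by decide +kernel
theorem x154_27 : fam (wl [1,17,1,3,1,1,36,1]) 4824 9137 = true := by decide +kernel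
/-- words with first entry from 6313 to 6351 -/
def L154 : List (List ℕ × ℕ × ℕ) := [([2,1,3,2,1,2,5,1,1,5],967,698), ([1,5,13,6,1,1,2,2],1351,2258), ([6,13,6,1,1,2,1,1],4960,1633), ([1,1,1,3,2,1,2,5,1,1,4,1],5344,6833), ([3,1,2,6,1,2,1,2,7],2294,1246), ([1,11,2,2,2,2,1,5,2],477,878), ([12,2,2,2,2,1,5,1,1],5840,941), ([1,2,1,2,6,1,2,1,2,6,1],4023,5863), ([9,1,3,1,2,1,1,19],4336,886), ([1,8,1,3,1,2,1,1,18,1],1985,3567), ([1,1,1,1,2,3,1,7,1,3,3],4744,5826), ([2,1,1,2,3,1,7,1,3,2,1],1583,1223), ([2,6,2,2,1,4,3,4],6055,5618), ([1,1,6,2,2,1,4,3,3,1],272,293), ([1,1,3,1,2,1,1,3,1,2,1,1,3],5634,6302), ([2,3,1,2,1,1,3,1,2,1,1,2,1],701,619), ([2,4,1,3,2,1,1,2,2,4],5464,4946), ([1,1,4,1,3,2,1,1,2,2,3,1],871,955), ([4,4,3,6,2,8],5793,2738), ([2,3,11,5,1,1,1,4],1954,1682), ([1,1,3,11,5,1,1,1,3,1],4383,4995), ([1,3,4,3,6,2,7,1],544,833), ([21,3,1,1,42],5300,498), ([1,20,3,1,1,41,1],1041,1987), ([18,1,3,1,1,37],1521,162), ([1,25,1,1,3,1,12,2],1048,2018), ([26,1,1,3,1,12,1,1],5297,399),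 ([1,17,1,3,1,1,36,1],4824,9137)]
theorem r154 : rgV L154 6313 20 = true := by decide +kernel
theorem f154 : ∀ p ∈ L154, fam (wl p.1) p.2.1 p.2.2 = true := by
  intro p hp
  simp only [L154, List.mem_cons, List.not_mem_nil, or_false] at hp
  rcases hp with rfl | rfl | rfl | rfl | rfl | rfl | rfl | rfl | rfl | rfl | rfl | rfl | rfl | rfl | rfl | rfl | rfl | rfl | rfl | rfl | rfl | rfl | rfl | rfl | rfl | rfl | rfl | rfl
  · exact x154_0
  · exact x154_1
  · exact x154_2
  · exact x154_3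
  · exact x154_4
  · exact x154_5
  · exact x154_6
  · exact x154_7
  · exact x154_8
  · exact x154_9
  · exact x154_10
  · exact x154_11
  · exact x154_12
  · exact x154_13
  · exact x154_14
  · exact x154_15
  · exact x154_16
  · exact x154_17
  · exact x154_18
  · exact x154_19
  · exact x154_20
  · exact x154_21
  · exact x154_22
  · exact x154_23
  · exact x154_24
  · exact x154_25
  · exact x154_26
  · exact x154_27

end Pool.Agent.V5helper47.EV
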