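import Pool.Agent.V5helper47.EV.S2

/-! Search, part of the half words. -/

set_option maxRecDepth 1000000

namespace Pool.Agent.V5helper47.EV

open H419R2 Pool.Agent.N911 Pool.Agent.V5helper47.CN

theorem x155_0 : fam (wl [1,1,1,1,5,2,2,1,2,3,3]) 2652 3218 = true := by decide +kernel
theorem x155_1 : fam (wl [2,1,1,5,2,2,1,2,3,2,1]) 3699 2911 = true := by decide +kernel
theorem x155_2 : fam (wl [2,4,6,12,2,4]) 1821 1626 = true := by decide +kernel
theorem x155_3 : fam (wl [1,1,4,6,12,2,3,1]) 4530 5017 = true := by decide +kernel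
theorem x155_4 : fam (wl [2,14,1,1,3,7,4]) 2629 2542 = true := by decide +kernel
theorem x155_5 : fam (wl [1,1,14,1,1,3,7,3,1]) 3728 3853 = true := by decide +kernel
theorem x155_6 : fam (wl [10,7,1,3,20]) 2988 590 = true := by decide +kernel
theorem x155_7 : fam (wl [1,9,7,1,3,19,1]) 3371 6079 = true := by decide +kernel
theorem x155_8 : fam (wl [1,6,1,2,2,4,1,2,3,2]) 1784 3106 = true := by decide +kernel
theorem x155_9 : fam (wl [7,1,2,2,4,1,2,3,1,1]) 4575 1187 = true := by decide +kernel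
theorem x155_10 : fam (wl [1,18,2,1,5,9,2]) 2989 5670 = true := by decide +kernel
theorem x155_11 : fam (wl [19,2,1,5,9,1,1]) 3376 349 = true := by decide +kernel
theorem x155_12 : fam (wl [7,1,9,4,1,15]) 1446 366 = true := by decide +kernel
theorem x155_13 : fam (wl [4,4,1,1,2,3,2,8]) 1396 662 = true := by decide +kernel
theorem x155_14 : fam (wl [1,1,5,1,2,1,2,1,2,2,1,3]) 5630 6082 = true := by decide +kernel
theorem x155_15 : fam (wl [1,9,2,1,1,3,2,1,4,2]) 2103 3802 = true := by decide +kernel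
theorem x155_16 : fam (wl [10,2,1,1,3,2,1,4,1,1]) 4264 821 = true := by decide +kernel
theorem x155_17 : fam (wl [2,5,1,2,1,2,1,2,2,1,2,1]) 737 679 = true := by decide +kernel
theorem x155_18 : fam (wl [1,3,4,1,1,2,3,2,7,1]) 4971 7587 = true := by decide +kernel
theorem x155_19 : fam (wl [1,6,1,9,4,1,14,1]) 4921 8599 = true := by decide +kernel
theorem x155_20 : fam (wl [3,5,4,1,1,1,1,2,6]) 6163 3862 = true := by decide +kernel
theorem x155_21 : fam (wl [1,1,5,4,1,9,2,1,3]) 3727 4054 = true := by decide +kernel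
theorem x155_22 : fam (wl [2,5,4,1,9,2,1,2,1]) 2648 2417 = true := by decide +kernel
theorem x155_23 : fam (wl [1,2,5,4,1,1,1,1,2,5,1]) 212 293 = true := by decide +kernel
theorem x155_24 : fam (wl [2,7,5,2,1,1,3,4]) 5829 5450 = true := by decide +kernel
theorem x155_25 : fam (wl [1,1,7,5,2,1,1,3,3,1]) 548 585 = true := by decide +kernel
theorem x155_26 : fam (wl [13,1,2,2,2,27]) 3961 578 = true := by decide +kernel
theorem x155_27 : fam (wl [1,2,1,5,3,1,1,1,2,2,1,2]) 412 610 = true := by decide +kernel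
theorem x155_28 : fam (wl [3,1,5,3,1,1,1,2,2,1,1,1]) 5973 3111 = true := by decide +kernel
theorem x155_29 : fam (wl [1,12,1,2,2,2,26,1]) 2424 4497 = true := by decide +kernel
/-- words with first entry from 6353 to 6391 -/
def L155 : List (List ℕ × ℕ × ℕ) := [([1,1,1,1,5,2,2,1,2,3,3],2652,3218), ([2,1,1,5,2,2,1,2,3,2,1],3699,2911), ([2,4,6,12,2,4],1821,1626), ([1,1,4,6,12,2,3,1],4530,5017), ([2,14,1,1,3,7,4],2629,2542), ([1,1,14,1,1,3,7,3,1],3728,3853), ([10,7,1,3,20],2988,590), ([1,9,7,1,3,19,1],3371,6079), ([1,6,1,2,2,4,1,2,3,2],1784,3106), ([7,1,2,2,4,1,2,3,1,1],4575,1187), ([1,18,2,1,5,9,2],2989,5670), ([19,2,1,5,9,1,1],3376,349), ([7,1,9,4,1,15],1446,366), ([4,4,1,1,2,3,2,8],1396,662), ([1,1,5,1,2,1,2,1,2,2,1,3],5630,6082), ([1,9,2,1,1,3,2,1,4,2],2103,3802), ([10,2,1,1,3,2,1,4,1,1],4264,821), ([2,5,1,2,1,2,1,2,2,1,2,1],737,679), ([1,3,4,1,1,2,3,2,7,1],4971,7587), ([1,6,1,9,4,1,14,1],4921,8599), ([3,5,4,1,1,1,1,2,6],6163,3862), ([1,1,5,4,1,9,2,1,3],3727,4054),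 ([2,5,4,1,9,2,1,2,1],2648,2417), ([1,2,5,4,1,1,1,1,2,5,1],212,293), ([2,7,5,2,1,1,3,4],5829,5450), ([1,1,7,5,2,1,1,3,3,1],548,585), ([13,1,2,2,2,27],3961,578), ([1,2,1,5,3,1,1,1,2,2,1,2],412,610), ([3,1,5,3,1,1,1,2,2,1,1,1],5973,3111), ([1,12,1,2,2,2,26,1],2424,4497)]
theorem r155 : rgV L155 6353 20 = true := by decide +kernel
theorem f155 : ∀ p ∈ L155, fam (wl p.1) p.2.1 p.2.2 = true := by
  intro p hp
  simp only [L155, List.mem_cons, List.not_mem_nil, or_false] at hp
  rcases hp with rfl | rfl | rfl | rfl | rfl | rfl | rfl | rfl | rfl | rfl | rfl | rfl | rfl | rfl | rfl | rfl | rfl | rfl | rfl | rfl | rfl | rfl | rfl | rfl | rfl | rfl | rfl | rfl | rfl | rfl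
  · exact x155_0
  · exact x155_1
  · exact x155_2
  · exact x155_3
  · exact x155_4
  · exact x155_5
  · exact x155_6
  · exact x155_7
  · exact x155_8
  · exact x155_9
  · exact x155_10
  · exact x155_11
  · exact x155_12
  · exact x155_13
  · exact x155_14
  · exact x155_15
  · exact x155_16
  · exact x155_17
  · exact x155_18
  · exact x155_19
  · exact x155_20
  · exact x155_21
  · exact x155_22
  · exact x155_23
  · exact x155_24
  · exact x155_25
  · exact x155_26
  · exact x155_27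
  · exact x155_28
  · exact x155_29

end Pool.Agent.V5helper47.EV
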