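import Pool.Agent.V5helper47.EV.S2

/-! Search, part of the half words. -/

set_option maxRecDepth 1000000

namespace Pool.Agent.V5helper47.EV

open H419R2 Pool.Agent.N911 Pool.Agent.V5helper47.CN

theorem x156_0 : fam (wl [2,2,1,2,1,2,1,2,1,2,1,4]) 4261 3602 = true := by decide +kernel
theorem x156_1 : fam (wl [1,10,5,10,5,2]) 710 1294 = true := by decide +kernel
theorem x156_2 : fam (wl [11,5,10,5,1,1]) 5681 1015 = true := by decide +kernel
theorem x156_3 : fam (wl [1,1,2,1,2,1,2,1,2,1,2,1,3,1]) 2130 2461 = true := by decide +kernel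
theorem x156_4 : fam (wl [32,1,2,65]) 294 18 = true := by decide +kernel
theorem x156_5 : fam (wl [1,1,3,1,8,4,2,1,1,3]) 3291 3666 = true := by decide +kernel
theorem x156_6 : fam (wl [2,3,1,8,4,2,1,1,2,1]) 3110 2757 = true := by decide +kernel
theorem x156_7 : fam (wl [1,31,1,2,64,1]) 6107 11843 = true := by decide +kernel
theorem x156_8 : fam (wl [1,1,8,1,2,5,1,3,1,3]) 5616 5922 = true := by decide +kernel
theorem x156_9 : fam (wl [1,4,6,2,1,12,2,2]) 3643 5874 = true := by decide +kernel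
theorem x156_10 : fam (wl [5,6,2,1,12,2,1,1]) 2766 1073 = true := by decide +kernel
theorem x156_11 : fam (wl [2,8,1,2,5,1,3,1,2,1]) 793 751 = true := by decide +kernel
theorem x156_12 : fam (wl [1,2,5,2,1,2,1,10,1,2]) 552 758 = true := by decide +kernel
theorem x156_13 : fam (wl [3,5,2,1,2,1,10,1,1,1]) 5873 3687 = true := by decide +kernel
theorem x156_14 : fam (wl [8,9,1,4,16]) 6279 1550 = true := by decide +kernel
theorem x156_15 : fam (wl [1,2,3,1,1,1,1,4,7,1,2]) 2865 3982 = true := by decide +kernel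
theorem x156_16 : fam (wl [3,3,1,1,1,1,4,7,1,1,1]) 3566 2177 = true := by decide +kernel
theorem x156_17 : fam (wl [1,7,9,1,4,15,1]) 152 269 = true := by decide +kernel
theorem x156_18 : fam (wl [1,2,2,2,2,1,5,1,4,1,2]) 1707 2414 = true := by decide +kernel
theorem x156_19 : fam (wl [1,6,1,1,4,1,1,1,3,3,2]) 6389 11086 = true := by decide +kernel
theorem x156_20 : fam (wl [7,1,1,4,1,1,1,3,3,1,1]) 48 13 = true := by decide +kernel
theorem x156_21 : fam (wl [3,2,2,2,1,5,1,4,1,1,1]) 4730 2773 = true := by decide +kernel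
theorem x156_22 : fam (wl [9,1,7,3,1,19]) 4317 874 = true := by decide +kernel
theorem x156_23 : fam (wl [3,4,1,4,2,2,2,6]) 5084 3170 = true := by decide +kernel
theorem x156_24 : fam (wl [1,3,3,4,8,1,1,1,1,2]) 738 1134 = true := by decide +kernel
theorem x156_25 : fam (wl [1,45,2,1,22,2]) 1505 2946 = true := by decide +kernel
theorem x156_26 : fam (wl [46,2,1,22,1,1]) 4934 213 = true := by decide +kernel
theorem x156_27 : fam (wl [4,3,4,8,1,1,1,1,1,1]) 5701 2647 = true := by decide +kernel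
theorem x156_28 : fam (wl [1,2,4,1,4,2,2,2,5,1]) 1355 1867 = true := by decide +kernel
theorem x156_29 : fam (wl [1,8,1,7,3,1,18,1]) 2122 3817 = true := by decide +kernel
/-- words with first entry from 6393 to 6441 -/
def L156 : List (List ℕ × ℕ × ℕ) := [([2,2,1,2,1,2,1,2,1,2,1,4],4261,3602), ([1,10,5,10,5,2],710,1294), ([11,5,10,5,1,1],5681,1015), ([1,1,2,1,2,1,2,1,2,1,2,1,3,1],2130,2461), ([32,1,2,65],294,18), ([1,1,3,1,8,4,2,1,1,3],3291,3666), ([2,3,1,8,4,2,1,1,2,1],3110,2757), ([1,31,1,2,64,1],6107,11843), ([1,1,8,1,2,5,1,3,1,3],5616,5922), ([1,4,6,2,1,12,2,2],3643,5874), ([5,6,2,1,12,2,1,1],2766,1073), ([2,8,1,2,5,1,3,1,2,1],793,751), ([1,2,5,2,1,2,1,10,1,2],552,758), ([3,5,2,1,2,1,10,1,1,1],5873,3687), ([8,9,1,4,16],6279,1550), ([1,2,3,1,1,1,1,4,7,1,2],2865,3982), ([3,3,1,1,1,1,4,7,1,1,1],3566,2177), ([1,7,9,1,4,15,1],152,269), ([1,2,2,2,2,1,5,1,4,1,2],1707,2414), ([1,6,1,1,4,1,1,1,3,3,2],6389,11086), ([7,1,1,4,1,1,1,3,3,1,1],48,13), ([3,2,2,2,1,5,1,4,1,1,1],4730,2773),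 ([9,1,7,3,1,19],4317,874), ([3,4,1,4,2,2,2,6],5084,3170), ([1,3,3,4,8,1,1,1,1,2],738,1134), ([1,45,2,1,22,2],1505,2946), ([46,2,1,22,1,1],4934,213), ([4,3,4,8,1,1,1,1,1,1],5701,2647), ([1,2,4,1,4,2,2,2,5,1],1355,1867), ([1,8,1,7,3,1,18,1],2122,3817)]
theorem r156 : rgV L156 6393 25 = true := by decide +kernel
theorem f156 : ∀ p ∈ L156, fam (wl p.1) p.2.1 p.2.2 = true := by
  intro p hp
  simp only [L156, List.mem_cons, List.not_mem_nil, or_false] at hp
  rcases hp with rfl | rfl | rfl | rfl | rfl | rfl | rfl | rfl | rfl | rfl | rfl | rfl | rfl | rfl | rfl | rfl | rfl | rfl | rfl | rfl | rfl | rfl | rfl | rfl | rfl | rfl | rfl | rfl | rfl | rfl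
  · exact x156_0
  · exact x156_1
  · exact x156_2
  · exact x156_3
  · exact x156_4
  · exact x156_5
  · exact x156_6
  · exact x156_7
  · exact x156_8
  · exact x156_9
  · exact x156_10
  · exact x156_11
  · exact x156_12
  · exact x156_13
  · exact x156_14
  · exact x156_15
  · exact x156_16
  · exact x156_17
  · exact x156_18
  · exact x156_19
  · exact x156_20
  · exact x156_21
  · exact x156_22
  · exact x156_23
  · exact x156_24
  · exact x156_25
  · exact x156_26
  · exact x156_27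
  · exact x156_28
  · exact x156_29

end Pool.Agent.V5helper47.EV
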