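import Pool.Agent.V5helper47.EV.S2

/-! Search, part of the half words. -/

set_option maxRecDepth 1000000

namespace Pool.Agent.V5helper47.EV

open H419R2 Pool.Agent.N911 Pool.Agent.V5helper47.CN

theorem x157_0 : fam (wl [2,22,1,2,11,4]) 3812 3730 = true := by decide +kernel
theorem x157_1 : fam (wl [1,2,1,1,1,2,2,1,5,3,1,2]) 3678 5330 = true := by decide +kernel
theorem x157_2 : fam (wl [3,1,1,1,2,2,1,5,3,1,1,1]) 2763 1523 = true := by decide +kernel
theorem x157_3 : fam (wl [1,1,22,1,2,11,3,1]) 2629 2687 = true := by decide +kernel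
theorem x157_4 : fam (wl [1,6,7,1,15,3,2]) 4549 7822 = true := by decide +kernel
theorem x157_5 : fam (wl [7,7,1,15,3,1,1]) 1898 533 = true := by decide +kernel
theorem x157_6 : fam (wl [5,1,2,2,2,2,2,11]) 4343 1522 = true := by decide +kernel
theorem x157_7 : fam (wl [1,4,1,2,2,2,2,2,10,1]) 2104 3473 = true := by decide +kernel
theorem x157_8 : fam (wl [4,11,2,1,5,8]) 3904 1910 = true := by decide +kernel
theorem x157_9 : fam (wl [1,3,11,2,1,5,7,1]) 2545 3847 = true := by decide +kernel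
theorem x157_10 : fam (wl [4,6,2,4,3,8]) 3245 1562 = true := by decide +kernel
theorem x157_11 : fam (wl [1,1,1,1,8,1,2,4,3,3]) 1537 1858 = true := by decide +kernel
theorem x157_12 : fam (wl [2,1,1,8,1,2,4,3,2,1]) 4918 3893 = true := by decide +kernel
theorem x157_13 : fam (wl [1,3,6,2,4,3,7,1]) 3210 4877 = true := by decide +kernel
theorem x157_14 : fam (wl [4,1,4,1,1,3,1,1,1,9]) 2704 1122 = true := by decide +kernel
theorem x157_15 : fam (wl [2,5,1,1,1,2,4,1,2,4]) 2319 2130 = true := by decide +kernel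
theorem x157_16 : fam (wl [1,1,5,1,1,1,2,4,1,2,3,1]) 4138 4477 = true := by decide +kernel
theorem x157_17 : fam (wl [1,3,1,4,1,1,3,1,1,1,8,1]) 3753 5951 = true := by decide +kernel
theorem x157_18 : fam (wl [1,1,1,2,3,2,2,1,1,5,3]) 4382 5514 = true := by decide +kernel
theorem x157_19 : fam (wl [1,2,1,1,10,1,4,1,3,1,2]) 4724 6766 = true := by decide +kernel
theorem x157_20 : fam (wl [3,1,1,10,1,4,1,3,1,1,1]) 1737 987 = true := by decide +kernel
theorem x157_21 : fam (wl [2,1,2,3,2,2,1,1,5,2,1]) 2079 1543 = true := by decide +kernel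
theorem x157_22 : fam (wl [2,2,10,1,21,1,4]) 4349 3510 = true := by decide +kernel
theorem x157_23 : fam (wl [1,1,2,10,1,21,1,3,1]) 2122 2533 = true := by decide +kernel
theorem x157_24 : fam (wl [2,3,6,2,1,2,1,1,1,4]) 901 778 = true := by decide +kernel
theorem x157_25 : fam (wl [1,1,3,6,2,1,2,1,1,1,3,1]) 5570 6333 = true := by decide +kernel
theorem x157_26 : fam (wl [1,29,2,2,1,14,2]) 1992 3854 = true := by decide +kernel
theorem x157_27 : fam (wl [30,2,2,1,14,1,1]) 4487 295 = true := by decide +kernel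
theorem x157_28 : fam (wl [1,23,3,1,1,1,11,2]) 885 1698 = true := by decide +kernel
theorem x157_29 : fam (wl [24,3,1,1,1,11,1,1]) 5594 461 = true := by decide +kernel
/-- words with first entry from 6443 to 6481 -/
def L157 : List (List ℕ × ℕ × ℕ) := [([2,22,1,2,11,4],3812,3730), ([1,2,1,1,1,2,2,1,5,3,1,2],3678,5330), ([3,1,1,1,2,2,1,5,3,1,1,1],2763,1523), ([1,1,22,1,2,11,3,1],2629,2687), ([1,6,7,1,15,3,2],4549,7822), ([7,7,1,15,3,1,1],1898,533), ([5,1,2,2,2,2,2,11],4343,1522), ([1,4,1,2,2,2,2,2,10,1],2104,3473), ([4,11,2,1,5,8],3904,1910), ([1,3,11,2,1,5,7,1],2545,3847), ([4,6,2,4,3,8],3245,1562), ([1,1,1,1,8,1,2,4,3,3],1537,1858), ([2,1,1,8,1,2,4,3,2,1],4918,3893), ([1,3,6,2,4,3,7,1],3210,4877), ([4,1,4,1,1,3,1,1,1,9],2704,1122), ([2,5,1,1,1,2,4,1,2,4],2319,2130), ([1,1,5,1,1,1,2,4,1,2,3,1],4138,4477), ([1,3,1,4,1,1,3,1,1,1,8,1],3753,5951), ([1,1,1,2,3,2,2,1,1,5,3],4382,5514), ([1,2,1,1,10,1,4,1,3,1,2],4724,6766), ([3,1,1,10,1,4,1,3,1,1,1],1737,987),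 ([2,1,2,3,2,2,1,1,5,2,1],2079,1543), ([2,2,10,1,21,1,4],4349,3510), ([1,1,2,10,1,21,1,3,1],2122,2533), ([2,3,6,2,1,2,1,1,1,4],901,778), ([1,1,3,6,2,1,2,1,1,1,3,1],5570,6333), ([1,29,2,2,1,14,2],1992,3854), ([30,2,2,1,14,1,1],4487,295), ([1,23,3,1,1,1,11,2],885,1698), ([24,3,1,1,1,11,1,1],5594,461)]
theorem r157 : rgV L157 6443 20 = true := by decide +kernel
theorem f157 : ∀ p ∈ L157, fam (wl p.1) p.2.1 p.2.2 = true := by
  intro p hp
  simp only [L157, List.mem_cons, List.not_mem_nil, or_false] at hp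
  rcases hp with rfl | rfl | rfl | rfl | rfl | rfl | rfl | rfl | rfl | rfl | rfl | rfl | rfl | rfl | rfl | rfl | rfl | rfl | rfl | rfl | rfl | rfl | rfl | rfl | rfl | rfl | rfl | rfl | rfl | rfl
  · exact x157_0
  · exact x157_1
  · exact x157_2
  · exact x157_3
  · exact x157_4
  · exact x157_5
  · exact x157_6
  · exact x157_7
  · exact x157_8
  · exact x157_9
  · exact x157_10
  · exact x157_11
  · exact x157_12
  · exact x157_13
  · exact x157_14
  · exact x157_15
  · exact x157_16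
  · exact x157_17
  · exact x157_18
  · exact x157_19
  · exact x157_20
  · exact x157_21
  · exact x157_22
  · exact x157_23
  · exact x157_24
  · exact x157_25
  · exact x157_26
  · exact x157_27
  · exact x157_28
  · exact x157_29

end Pool.Agent.V5helper47.EV
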