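import Pool.Agent.V5helper47.EV.S2

/-! Search, part of the half words. -/

set_option maxRecDepth 1000000

namespace Pool.Agent.V5helper47.EV

open H419R2 Pool.Agent.N911 Pool.Agent.V5helper47.CN

theorem x158_0 : fam (wl [2,5,7,3,1,1,2,4]) 2122 1934 = true := by decide +kernel
theorem x158_1 : fam (wl [1,7,5,1,2,2,1,1,3,2]) 5080 8918 = true := by decide +kernel
theorem x158_2 : fam (wl [8,5,1,2,2,1,1,3,1,1]) 1401 343 = true := by decide +kernel
theorem x158_3 : fam (wl [1,1,5,7,3,1,1,2,3,1]) 4359 4747 = true := by decide +kernel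
theorem x158_4 : fam (wl [2,1,1,1,1,1,2,5,4,5]) 1857 1418 = true := by decide +kernel
theorem x158_5 : fam (wl [1,1,1,1,1,1,1,2,5,4,4,1]) 4632 5729 = true := by decide +kernel
theorem x158_6 : fam (wl [56,1,113]) 6440 226 = true := by decide +kernel
theorem x158_7 : fam (wl [13,1,4,1,1,1,27]) 2502 362 = true := by decide +kernel
theorem x158_8 : fam (wl [1,12,1,4,1,1,1,26,1]) 3993 7411 = true := by decide +kernel
theorem x158_9 : fam (wl [1,55,1,112,1]) 55 111 = true := by decide +kernel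
theorem x158_10 : fam (wl [3,1,2,1,3,7,2,7]) 1303 698 = true := by decide +kernel
theorem x158_11 : fam (wl [1,3,1,2,1,1,1,3,6,1,1,2]) 5544 8742 = true := by decide +kernel
theorem x158_12 : fam (wl [4,1,2,1,1,1,3,6,1,1,1,1]) 951 403 = true := by decide +kernel
theorem x158_13 : fam (wl [1,2,1,2,1,3,7,2,6,1]) 5192 7605 = true := by decide +kernel
theorem x158_14 : fam (wl [57,114]) 57 2 = true := by decide +kernel
theorem x158_15 : fam (wl [1,2,2,1,1,1,2,1,3,5,1,2]) 1035 1458 = true := by decide +kernel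
theorem x158_16 : fam (wl [3,2,1,1,1,2,1,3,5,1,1,1]) 5462 3233 = true := by decide +kernel
theorem x158_17 : fam (wl [1,56,113,1]) 6440 12657 = true := by decide +kernel
theorem x158_18 : fam (wl [1,1,6,1,2,1,6,1,2,1,3]) 4645 4966 = true := by decide +kernel
theorem x158_19 : fam (wl [1,8,2,3,1,1,4,4,2]) 1193 2134 = true := by decide +kernel
theorem x158_20 : fam (wl [9,2,3,1,1,4,4,1,1]) 5308 1125 = true := by decide +kernel
theorem x158_21 : fam (wl [2,6,1,2,1,6,1,2,1,2,1]) 1856 1729 = true := by decide +kernel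
theorem x158_22 : fam (wl [3,3,4,2,1,1,1,1,1,6]) 5643 3410 = true := by decide +kernel
theorem x158_23 : fam (wl [1,7,1,1,4,2,3,1,3,2]) 961 1698 = true := by decide +kernel
theorem x158_24 : fam (wl [8,1,1,4,2,3,1,3,1,1]) 5544 1297 = true := by decide +kernel
theorem x158_25 : fam (wl [1,2,3,4,2,1,1,1,1,1,5,1]) 862 1205 = true := by decide +kernel
theorem x158_26 : fam (wl [5,15,1,7,10]) 2982 1178 = true := by decide +kernel
theorem x158_27 : fam (wl [2,1,1,3,1,2,2,8,5]) 5894 4606 = true := by decide +kernel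
theorem x158_28 : fam (wl [1,1,1,1,3,1,2,2,8,4,1]) 615 751 = true := by decide +kernel
theorem x158_29 : fam (wl [1,4,15,1,7,9,1]) 3527 5663 = true := by decide +kernel
/-- words with first entry from 6483 to 6519 -/
def L158 : List (List ℕ × ℕ × ℕ) := [([2,5,7,3,1,1,2,4],2122,1934), ([1,7,5,1,2,2,1,1,3,2],5080,8918), ([8,5,1,2,2,1,1,3,1,1],1401,343), ([1,1,5,7,3,1,1,2,3,1],4359,4747), ([2,1,1,1,1,1,2,5,4,5],1857,1418), ([1,1,1,1,1,1,1,2,5,4,4,1],4632,5729), ([56,1,113],6440,226), ([13,1,4,1,1,1,27],2502,362), ([1,12,1,4,1,1,1,26,1],3993,7411), ([1,55,1,112,1],55,111), ([3,1,2,1,3,7,2,7],1303,698), ([1,3,1,2,1,1,1,3,6,1,1,2],5544,8742), ([4,1,2,1,1,1,3,6,1,1,1,1],951,403), ([1,2,1,2,1,3,7,2,6,1],5192,7605), ([57,114],57,2), ([1,2,2,1,1,1,2,1,3,5,1,2],1035,1458), ([3,2,1,1,1,2,1,3,5,1,1,1],5462,3233), ([1,56,113,1],6440,12657), ([1,1,6,1,2,1,6,1,2,1,3],4645,4966), ([1,8,2,3,1,1,4,4,2],1193,2134), ([9,2,3,1,1,4,4,1,1],5308,1125), ([2,6,1,2,1,6,1,2,1,2,1],1856,1729),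 ([3,3,4,2,1,1,1,1,1,6],5643,3410), ([1,7,1,1,4,2,3,1,3,2],961,1698), ([8,1,1,4,2,3,1,3,1,1],5544,1297), ([1,2,3,4,2,1,1,1,1,1,5,1],862,1205), ([5,15,1,7,10],2982,1178), ([2,1,1,3,1,2,2,8,5],5894,4606), ([1,1,1,1,3,1,2,2,8,4,1],615,751), ([1,4,15,1,7,9,1],3527,5663)]
theorem r158 : rgV L158 6483 19 = true := by decide +kernel
theorem f158 : ∀ p ∈ L158, fam (wl p.1) p.2.1 p.2.2 = true := by
  intro p hp
  simp only [L158, List.mem_cons, List.not_mem_nil, or_false] at hp
  rcases hp with rfl | rfl | rfl | rfl | rfl | rfl | rfl | rfl | rfl | rfl | rfl | rfl | rfl | rfl | rfl | rfl | rfl | rfl | rfl | rfl | rfl | rfl | rfl | rfl | rfl | rfl | rfl | rfl | rfl | rfl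
  · exact x158_0
  · exact x158_1
  · exact x158_2
  · exact x158_3
  · exact x158_4
  · exact x158_5
  · exact x158_6
  · exact x158_7
  · exact x158_8
  · exact x158_9
  · exact x158_10
  · exact x158_11
  · exact x158_12
  · exact x158_13
  · exact x158_14
  · exact x158_15
  · exact x158_16
  · exact x158_17
  · exact x158_18
  · exact x158_19
  · exact x158_20
  · exact x158_21
  · exact x158_22
  · exact x158_23
  · exact x158_24
  · exact x158_25
  · exact x158_26
  · exact x158_27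
  · exact x158_28
  · exact x158_29

end Pool.Agent.V5helper47.EV
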