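import Pool.Agent.V5helper47.EV.S2

/-! Search, part of the half words. -/

set_option maxRecDepth 1000000

namespace Pool.Agent.V5helper47.EV

open H419R2 Pool.Agent.N911 Pool.Agent.V5helper47.CN

theorem x159_0 : fam (wl [1,3,4,1,1,1,4,1,1,1,1,1,2]) 3365 5134 = true := by decide +kernel
theorem x159_1 : fam (wl [4,4,1,1,1,4,1,1,1,1,1,1,1]) 3154 1497 = true := by decide +kernel
theorem x159_2 : fam (wl [1,4,1,1,3,1,2,1,1,3,2,2]) 1703 2794 = true := by decide +kernel
theorem x159_3 : fam (wl [5,1,1,3,1,2,1,1,3,2,1,1]) 4816 1733 = true := by decide +kernel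
theorem x159_4 : fam (wl [2,2,11,22,1,4]) 835 674 = true := by decide +kernel
theorem x159_5 : fam (wl [1,18,1,1,2,3,9,2]) 3476 6598 = true := by decide +kernel
theorem x159_6 : fam (wl [19,1,1,2,3,9,1,1]) 3045 311 = true := by decide +kernel
theorem x159_7 : fam (wl [1,1,2,11,22,1,3,1]) 5686 6785 = true := by decide +kernel
theorem x159_8 : fam (wl [4,19,1,9,8]) 2831 1398 = true := by decide +kernel
theorem x159_9 : fam (wl [1,3,19,1,9,7,1]) 3696 5569 = true := by decide +kernel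
theorem x159_10 : fam (wl [1,1,2,1,1,6,3,3,2,3]) 2069 2410 = true := by decide +kernel
theorem x159_11 : fam (wl [2,2,1,1,6,3,3,2,2,1]) 4458 3725 = true := by decide +kernel
theorem x159_12 : fam (wl [1,1,1,10,2,1,21,3]) 3620 4754 = true := by decide +kernel
theorem x159_13 : fam (wl [1,2,10,1,2,21,1,2]) 3642 4930 = true := by decide +kernel
theorem x159_14 : fam (wl [3,10,1,2,21,1,1,1]) 2893 1871 = true := by decide +kernel
theorem x159_15 : fam (wl [2,1,10,2,1,21,2,1]) 2915 2003 = true := by decide +kernel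
theorem x159_16 : fam (wl [1,6,8,16,3,2]) 4733 8138 = true := by decide +kernel
theorem x159_17 : fam (wl [7,8,16,3,1,1]) 1812 509 = true := by decide +kernel
theorem x159_18 : fam (wl [2,1,1,2,5,1,2,5,5]) 713 550 = true := by decide +kernel
theorem x159_19 : fam (wl [1,1,1,1,2,5,1,2,5,4,1]) 5836 7173 = true := by decide +kernel
theorem x159_20 : fam (wl [2,39,1,19,4]) 4712 4654 = true := by decide +kernel
theorem x159_21 : fam (wl [1,1,39,1,19,3,1]) 1839 1863 = true := by decide +kernel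
theorem x159_22 : fam (wl [1,2,4,3,2,1,1,8,1,2]) 5002 6910 = true := by decide +kernel
theorem x159_23 : fam (wl [3,4,3,2,1,1,8,1,1,1]) 1549 959 = true := by decide +kernel
theorem x159_24 : fam (wl [6,2,3,1,7,1,12]) 5702 1770 = true := by decide +kernel
theorem x159_25 : fam (wl [1,79,1,39,2]) 1659 3278 = true := by decide +kernel
theorem x159_26 : fam (wl [80,1,39,1,1]) 4898 121 = true := by decide +kernel
theorem x159_27 : fam (wl [1,5,2,3,1,7,1,11,1]) 855 1447 = true := by decide +kernel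
theorem x159_28 : fam (wl [1,1,2,3,3,6,1,1,2,3]) 3752 4422 = true := by decide +kernel
theorem x159_29 : fam (wl [2,2,3,3,6,1,1,2,2,1]) 2807 2307 = true := by decide +kernel
/-- words with first entry from 6521 to 6561 -/
def L159 : List (List ℕ × ℕ × ℕ) := [([1,3,4,1,1,1,4,1,1,1,1,1,2],3365,5134), ([4,4,1,1,1,4,1,1,1,1,1,1,1],3154,1497), ([1,4,1,1,3,1,2,1,1,3,2,2],1703,2794), ([5,1,1,3,1,2,1,1,3,2,1,1],4816,1733), ([2,2,11,22,1,4],835,674), ([1,18,1,1,2,3,9,2],3476,6598), ([19,1,1,2,3,9,1,1],3045,311), ([1,1,2,11,22,1,3,1],5686,6785), ([4,19,1,9,8],2831,1398), ([1,3,19,1,9,7,1],3696,5569), ([1,1,2,1,1,6,3,3,2,3],2069,2410), ([2,2,1,1,6,3,3,2,2,1],4458,3725), ([1,1,1,10,2,1,21,3],3620,4754), ([1,2,10,1,2,21,1,2],3642,4930), ([3,10,1,2,21,1,1,1],2893,1871), ([2,1,10,2,1,21,2,1],2915,2003), ([1,6,8,16,3,2],4733,8138), ([7,8,16,3,1,1],1812,509), ([2,1,1,2,5,1,2,5,5],713,550), ([1,1,1,1,2,5,1,2,5,4,1],5836,7173), ([2,39,1,19,4],4712,4654), ([1,1,39,1,19,3,1],1839,1863),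 ([1,2,4,3,2,1,1,8,1,2],5002,6910), ([3,4,3,2,1,1,8,1,1,1],1549,959), ([6,2,3,1,7,1,12],5702,1770), ([1,79,1,39,2],1659,3278), ([80,1,39,1,1],4898,121), ([1,5,2,3,1,7,1,11,1],855,1447), ([1,1,2,3,3,6,1,1,2,3],3752,4422), ([2,2,3,3,6,1,1,2,2,1],2807,2307)]
theorem r159 : rgV L159 6521 21 = true := by decide +kernel
theorem f159 : ∀ p ∈ L159, fam (wl p.1) p.2.1 p.2.2 = true := by
  intro p hp
  simp only [L159, List.mem_cons, List.not_mem_nil, or_false] at hp
  rcases hp with rfl | rfl | rfl | rfl | rfl | rfl | rfl | rfl | rfl | rfl | rfl | rfl | rfl | rfl | rfl | rfl | rfl | rfl | rfl | rfl | rfl | rfl | rfl | rfl | rfl | rfl | rfl | rfl | rfl | rfl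
  · exact x159_0
  · exact x159_1
  · exact x159_2
  · exact x159_3
  · exact x159_4
  · exact x159_5
  · exact x159_6
  · exact x159_7
  · exact x159_8
  · exact x159_9
  · exact x159_10
  · exact x159_11
  · exact x159_12
  · exact x159_13
  · exact x159_14
  · exact x159_15
  · exact x159_16
  · exact x159_17
  · exact x159_18
  · exact x159_19
  · exact x159_20
  · exact x159_21
  · exact x159_22
  · exact x159_23
  · exact x159_24
  · exact x159_25
  · exact x159_26
  · exact x159_27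
  · exact x159_28
  · exact x159_29

end Pool.Agent.V5helper47.EV
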