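import Pool.Agent.V5helper47.EV.S2

/-! Search, part of the half words. -/

set_option maxRecDepth 1000000

namespace Pool.Agent.V5helper47.EV

open H419R2 Pool.Agent.N911 Pool.Agent.V5helper47.CN

theorem x160_0 : fam (wl [1,80,40,2]) 4901 9682 = true := by decide +kernel
theorem x160_1 : fam (wl [81,40,1,1]) 1660 41 = true := by decide +kernel
theorem x160_2 : fam (wl [3,1,2,2,2,2,2,2,7]) 5023 2710 = true := by decide +kernel
theorem x160_3 : fam (wl [1,2,1,2,2,2,2,2,2,6,1]) 1544 2257 = true := by decide +kernel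
theorem x160_4 : fam (wl [2,40,20,4]) 5129 5066 = true := by decide +kernel
theorem x160_5 : fam (wl [1,1,40,20,3,1]) 1438 1457 = true := by decide +kernel
theorem x160_6 : fam (wl [4,1,1,1,2,1,2,1,3,9]) 3341 1442 = true := by decide +kernel
theorem x160_7 : fam (wl [1,3,1,1,1,2,1,2,1,3,8,1]) 3228 5065 = true := by decide +kernel
theorem x160_8 : fam (wl [1,1,1,1,2,1,3,1,1,2,1,3,3]) 2757 3374 = true := by decide +kernel
theorem x160_9 : fam (wl [2,1,1,2,1,3,1,1,2,1,3,2,1]) 3818 2965 = true := by decide +kernel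
theorem x160_10 : fam (wl [2,1,1,3,4,2,7,5]) 1250 974 = true := by decide +kernel
theorem x160_11 : fam (wl [1,1,1,1,3,4,2,7,4,1]) 5325 6503 = true := by decide +kernel
theorem x160_12 : fam (wl [13,6,3,26]) 4750 722 = true := by decide +kernel
theorem x160_13 : fam (wl [1,1,11,1,2,1,2,5,1,3]) 5643 5874 = true := by decide +kernel
theorem x160_14 : fam (wl [1,3,2,2,1,1,3,2,2,1,1,2]) 4486 6942 = true := by decide +kernel
theorem x160_15 : fam (wl [1,3,1,1,2,2,4,1,3,1,1,2]) 1198 1874 = true := by decide +kernel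
theorem x160_16 : fam (wl [4,1,1,2,2,4,1,3,1,1,1,1]) 5379 2347 = true := by decide +kernel
theorem x160_17 : fam (wl [4,2,2,1,1,3,2,2,1,1,1,1]) 2091 947 = true := by decide +kernel
theorem x160_18 : fam (wl [2,11,1,2,1,2,5,1,2,1]) 934 897 = true := by decide +kernel
theorem x160_19 : fam (wl [1,12,6,3,25,1]) 1827 3379 = true := by decide +kernel
theorem x160_20 : fam (wl [4,20,10,8]) 5382 2658 = true := by decide +kernel
theorem x160_21 : fam (wl [1,3,2,2,3,1,1,2,2,1,1,2]) 213 330 = true := by decide +kernel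
theorem x160_22 : fam (wl [4,2,2,3,1,1,2,2,1,1,1,1]) 6378 2893 = true := by decide +kernel
theorem x160_23 : fam (wl [1,3,20,10,7,1]) 1209 1823 = true := by decide +kernel
theorem x160_24 : fam (wl [4,7,2,2,1,3,8]) 4362 2110 = true := by decide +kernel
theorem x160_25 : fam (wl [1,3,7,2,2,1,3,7,1]) 2235 3391 = true := by decide +kernel
/-- words with first entry from 6563 to 6599 -/
def L160 : List (List ℕ × ℕ × ℕ) := [([1,80,40,2],4901,9682), ([81,40,1,1],1660,41), ([3,1,2,2,2,2,2,2,7],5023,2710), ([1,2,1,2,2,2,2,2,2,6,1],1544,2257), ([2,40,20,4],5129,5066), ([1,1,40,20,3,1],1438,1457), ([4,1,1,1,2,1,2,1,3,9],3341,1442), ([1,3,1,1,1,2,1,2,1,3,8,1],3228,5065), ([1,1,1,1,2,1,3,1,1,2,1,3,3],2757,3374), ([2,1,1,2,1,3,1,1,2,1,3,2,1],3818,2965), ([2,1,1,3,4,2,7,5],1250,974), ([1,1,1,1,3,4,2,7,4,1],5325,6503), ([13,6,3,26],4750,722), ([1,1,11,1,2,1,2,5,1,3],5643,5874), ([1,3,2,2,1,1,3,2,2,1,1,2],4486,6942), ([1,3,1,1,2,2,4,1,3,1,1,2],1198,1874), ([4,1,1,2,2,4,1,3,1,1,1,1],5379,2347),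 ([4,2,2,1,1,3,2,2,1,1,1,1],2091,947), ([2,11,1,2,1,2,5,1,2,1],934,897), ([1,12,6,3,25,1],1827,3379), ([4,20,10,8],5382,2658), ([1,3,2,2,3,1,1,2,2,1,1,2],213,330), ([4,2,2,3,1,1,2,2,1,1,1,1],6378,2893), ([1,3,20,10,7,1],1209,1823), ([4,7,2,2,1,3,8],4362,2110), ([1,3,7,2,2,1,3,7,1],2235,3391)]
theorem r160 : rgV L160 6563 19 = true := by decide +kernel
theorem f160 : ∀ p ∈ L160, fam (wl p.1) p.2.1 p.2.2 = true := by
  intro p hp
  simp only [L160, List.mem_cons, List.not_mem_nil, or_false] at hp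
  rcases hp with rfl | rfl | rfl | rfl | rfl | rfl | rfl | rfl | rfl | rfl | rfl | rfl | rfl | rfl | rfl | rfl | rfl | rfl | rfl | rfl | rfl | rfl | rfl | rfl | rfl | rfl
  · exact x160_0
  · exact x160_1
  · exact x160_2
  · exact x160_3
  · exact x160_4
  · exact x160_5
  · exact x160_6
  · exact x160_7
  · exact x160_8
  · exact x160_9
  · exact x160_10
  · exact x160_11
  · exact x160_12
  · exact x160_13
  · exact x160_14
  · exact x160_15
  · exact x160_16
  · exact x160_17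
  · exact x160_18
  · exact x160_19
  · exact x160_20
  · exact x160_21
  · exact x160_22
  · exact x160_23
  · exact x160_24
  · exact x160_25

end Pool.Agent.V5helper47.EV
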