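import Pool.Agent.V5helper47.EV.S2

/-! Search, part of the half words. -/

set_option maxRecDepth 1000000

namespace Pool.Agent.V5helper47.EV

open H419R2 Pool.Agent.N911 Pool.Agent.V5helper47.CN

theorem x161_0 : fam (wl [21,1,2,2,43]) 5537 510 = true := by decide +kernel
theorem x161_1 : fam (wl [2,1,9,1,1,3,4,1,5]) 4692 3230 = true := by decide +kernel
theorem x161_2 : fam (wl [1,1,9,2,1,5,4,1,3]) 4566 4798 = true := by decide +kernel
theorem x161_3 : fam (wl [1,10,1,5,1,2,2,5,2]) 1593 2918 = true := by decide +kernel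
theorem x161_4 : fam (wl [11,1,5,1,2,2,5,1,1]) 5006 845 = true := by decide +kernel
theorem x161_5 : fam (wl [2,9,2,1,5,4,1,2,1]) 2033 1931 = true := by decide +kernel
theorem x161_6 : fam (wl [1,1,1,9,1,1,3,4,1,4,1]) 1907 2503 = true := by decide +kernel
theorem x161_7 : fam (wl [1,20,1,2,2,42,1]) 1062 2029 = true := by decide +kernel
theorem x161_8 : fam (wl [2,1,3,4,1,9,1,1,5]) 4085 2958 = true := by decide +kernel
theorem x161_9 : fam (wl [1,1,1,3,4,1,9,1,1,4,1]) 2520 3217 = true := by decide +kernel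
theorem x161_10 : fam (wl [7,1,1,1,1,2,4,15]) 4911 1290 = true := by decide +kernel
theorem x161_11 : fam (wl [1,1,6,1,1,2,1,3,1,2,1,3]) 3166 3390 = true := by decide +kernel
theorem x161_12 : fam (wl [2,6,1,1,2,1,3,1,2,1,2,1]) 3441 3199 = true := by decide +kernel
theorem x161_13 : fam (wl [1,6,1,1,1,1,2,4,14,1]) 1696 2949 = true := by decide +kernel
theorem x161_14 : fam (wl [5,16,8,10]) 4905 1938 = true := by decide +kernel
theorem x161_15 : fam (wl [1,1,3,1,1,2,2,2,3,1,1,3]) 643 722 = true := by decide +kernel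
theorem x161_16 : fam (wl [2,3,1,1,2,2,2,3,1,1,2,1]) 5966 5237 = true := by decide +kernel
theorem x161_17 : fam (wl [1,4,16,8,9,1]) 1704 2737 = true := by decide +kernel
theorem x161_18 : fam (wl [1,1,5,5,10,2,1,3]) 1546 1682 = true := by decide +kernel
theorem x161_19 : fam (wl [2,5,5,10,2,1,2,1]) 5071 4627 = true := by decide +kernel
theorem x161_20 : fam (wl [17,2,1,2,1,34]) 2101 242 = true := by decide +kernel
theorem x161_21 : fam (wl [3,15,2,1,7,6]) 3865 2522 = true := by decide +kernel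
theorem x161_22 : fam (wl [1,3,1,1,1,5,2,1,4,1,1,2]) 4896 7686 = true := by decide +kernel
theorem x161_23 : fam (wl [1,17,1,2,5,1,8,2]) 6604 12502 = true := by decide +kernel
theorem x161_24 : fam (wl [18,1,2,5,1,8,1,1]) 27 3 = true := by decide +kernel
theorem x161_25 : fam (wl [4,1,1,1,5,2,1,4,1,1,1,1]) 1735 747 = true := by decide +kernel
theorem x161_26 : fam (wl [1,2,15,2,1,7,5,1]) 2766 3729 = true := by decide +kernel
theorem x161_27 : fam (wl [1,16,2,1,2,1,33,1]) 4530 8541 = true := by decide +kernel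
/-- words with first entry from 6601 to 6645 -/
def L161 : List (List ℕ × ℕ × ℕ) := [([21,1,2,2,43],5537,510), ([2,1,9,1,1,3,4,1,5],4692,3230), ([1,1,9,2,1,5,4,1,3],4566,4798), ([1,10,1,5,1,2,2,5,2],1593,2918), ([11,1,5,1,2,2,5,1,1],5006,845), ([2,9,2,1,5,4,1,2,1],2033,1931), ([1,1,1,9,1,1,3,4,1,4,1],1907,2503), ([1,20,1,2,2,42,1],1062,2029), ([2,1,3,4,1,9,1,1,5],4085,2958), ([1,1,1,3,4,1,9,1,1,4,1],2520,3217), ([7,1,1,1,1,2,4,15],4911,1290), ([1,1,6,1,1,2,1,3,1,2,1,3],3166,3390), ([2,6,1,1,2,1,3,1,2,1,2,1],3441,3199), ([1,6,1,1,1,1,2,4,14,1],1696,2949), ([5,16,8,10],4905,1938), ([1,1,3,1,1,2,2,2,3,1,1,3],643,722), ([2,3,1,1,2,2,2,3,1,1,2,1],5966,5237), ([1,4,16,8,9,1],1704,2737), ([1,1,5,5,10,2,1,3],1546,1682), ([2,5,5,10,2,1,2,1],5071,4627), ([17,2,1,2,1,34],2101,242), ([3,15,2,1,7,6],3865,2522), ([1,3,1,1,1,5,2,1,4,1,1,2],4896,7686), ([1,17,1,2,5,1,8,2],6604,12502), ([18,1,2,5,1,8,1,1],27,3), ([4,1,1,1,5,2,1,4,1,1,1,1],1735,747), ([1,2,15,2,1,7,5,1],2766,3729),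 ([1,16,2,1,2,1,33,1],4530,8541)]
theorem r161 : rgV L161 6601 23 = true := by decide +kernel
theorem f161 : ∀ p ∈ L161, fam (wl p.1) p.2.1 p.2.2 = true := by
  intro p hp
  simp only [L161, List.mem_cons, List.not_mem_nil, or_false] at hp
  rcases hp with rfl | rfl | rfl | rfl | rfl | rfl | rfl | rfl | rfl | rfl | rfl | rfl | rfl | rfl | rfl | rfl | rfl | rfl | rfl | rfl | rfl | rfl | rfl | rfl | rfl | rfl | rfl | rfl
  · exact x161_0
  · exact x161_1
  · exact x161_2
  · exact x161_3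
  · exact x161_4
  · exact x161_5
  · exact x161_6
  · exact x161_7
  · exact x161_8
  · exact x161_9
  · exact x161_10
  · exact x161_11
  · exact x161_12
  · exact x161_13
  · exact x161_14
  · exact x161_15
  · exact x161_16
  · exact x161_17
  · exact x161_18
  · exact x161_19
  · exact x161_20
  · exact x161_21
  · exact x161_22
  · exact x161_23
  · exact x161_24
  · exact x161_25
  · exact x161_26
  · exact x161_27

end Pool.Agent.V5helper47.EV
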