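import Pool.Agent.V5helper47.EV.S2

/-! Search, part of the half words. -/

set_option maxRecDepth 1000000

namespace Pool.Agent.V5helper47.EV

open H419R2 Pool.Agent.N911 Pool.Agent.V5helper47.CN

theorem x162_0 : fam (wl [4,2,5,1,11,1,8]) 1878 842 = true := by decide +kernel
theorem x162_1 : fam (wl [1,4,1,1,6,1,2,1,3,2,2]) 345 566 = true := by decide +kernel
theorem x162_2 : fam (wl [5,1,1,6,1,2,1,3,2,1,1]) 6300 2277 = true := by decide +kernel
theorem x162_3 : fam (wl [1,3,2,5,1,11,1,7,1]) 4767 7399 = true := by decide +kernel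
theorem x162_4 : fam (wl [19,4,2,38]) 1557 162 = true := by decide +kernel
theorem x162_5 : fam (wl [1,5,7,1,2,3,1,1,2,2]) 3533 5914 = true := by decide +kernel
theorem x162_6 : fam (wl [6,7,1,2,3,1,1,2,1,1]) 3116 1017 = true := by decide +kernel
theorem x162_7 : fam (wl [1,18,4,2,37,1]) 5092 9657 = true := by decide +kernel
theorem x162_8 : fam (wl [1,2,1,1,11,5,1,3,1,2]) 839 1202 = true := by decide +kernel
theorem x162_9 : fam (wl [3,1,1,11,5,1,3,1,1,1]) 5818 3305 = true := by decide +kernel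
theorem x162_10 : fam (wl [33,2,1,66]) 300 18 = true := by decide +kernel
theorem x162_11 : fam (wl [1,1,1,1,2,4,8,1,3,3]) 6284 7718 = true := by decide +kernel
theorem x162_12 : fam (wl [2,1,1,2,4,8,1,3,2,1]) 381 295 = true := by decide +kernel
theorem x162_13 : fam (wl [1,32,2,1,65,1]) 6365 12351 = true := by decide +kernel
theorem x162_14 : fam (wl [2,1,3,1,1,2,2,3,1,1,5]) 3569 2566 = true := by decide +kernel
theorem x162_15 : fam (wl [1,3,1,1,1,1,1,1,4,4,1,1,2]) 1331 2086 = true := by decide +kernel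
theorem x162_16 : fam (wl [4,1,1,1,1,1,1,4,4,1,1,1,1]) 5338 2313 = true := by decide +kernel
theorem x162_17 : fam (wl [1,1,1,3,1,1,2,2,3,1,1,4,1]) 3100 3973 = true := by decide +kernel
theorem x162_18 : fam (wl [8,2,2,1,5,1,16]) 1407 334 = true := by decide +kernel
theorem x162_19 : fam (wl [1,7,2,2,1,5,1,15,1]) 5264 9281 = true := by decide +kernel
theorem x162_20 : fam (wl [1,3,6,1,1,3,1,2,1,1,1,2]) 6342 9630 = true := by decide +kernel
theorem x162_21 : fam (wl [4,6,1,1,3,1,2,1,1,1,1,1]) 329 159 = true := by decide +kernel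
theorem x162_22 : fam (wl [1,1,3,7,1,15,1,1,3]) 3232 3678 = true := by decide +kernel
theorem x162_23 : fam (wl [2,3,7,1,15,1,1,2,1]) 3445 2971 = true := by decide +kernel
/-- words with first entry from 6647 to 6679 -/
def L162 : List (List ℕ × ℕ × ℕ) := [([4,2,5,1,11,1,8],1878,842), ([1,4,1,1,6,1,2,1,3,2,2],345,566), ([5,1,1,6,1,2,1,3,2,1,1],6300,2277), ([1,3,2,5,1,11,1,7,1],4767,7399), ([19,4,2,38],1557,162), ([1,5,7,1,2,3,1,1,2,2],3533,5914), ([6,7,1,2,3,1,1,2,1,1],3116,1017), ([1,18,4,2,37,1],5092,9657), ([1,2,1,1,11,5,1,3,1,2],839,1202), ([3,1,1,11,5,1,3,1,1,1],5818,3305), ([33,2,1,66],300,18), ([1,1,1,1,2,4,8,1,3,3],6284,7718), ([2,1,1,2,4,8,1,3,2,1],381,295), ([1,32,2,1,65,1],6365,12351), ([2,1,3,1,1,2,2,3,1,1,5],3569,2566), ([1,3,1,1,1,1,1,1,4,4,1,1,2],1331,2086), ([4,1,1,1,1,1,1,4,4,1,1,1,1],5338,2313), ([1,1,1,3,1,1,2,2,3,1,1,4,1],3100,3973), ([8,2,2,1,5,1,16],1407,334), ([1,7,2,2,1,5,1,15,1],5264,9281), ([1,3,6,1,1,3,1,2,1,1,1,2],6342,9630),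 ([4,6,1,1,3,1,2,1,1,1,1,1],329,159), ([1,1,3,7,1,15,1,1,3],3232,3678), ([2,3,7,1,15,1,1,2,1],3445,2971)]
theorem r162 : rgV L162 6647 17 = true := by decide +kernel
theorem f162 : ∀ p ∈ L162, fam (wl p.1) p.2.1 p.2.2 = true := by
  intro p hp
  simp only [L162, List.mem_cons, List.not_mem_nil, or_false] at hp
  rcases hp with rfl | rfl | rfl | rfl | rfl | rfl | rfl | rfl | rfl | rfl | rfl | rfl | rfl | rfl | rfl | rfl | rfl | rfl | rfl | rfl | rfl | rfl | rfl | rfl
  · exact x162_0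
  · exact x162_1
  · exact x162_2
  · exact x162_3
  · exact x162_4
  · exact x162_5
  · exact x162_6
  · exact x162_7
  · exact x162_8
  · exact x162_9
  · exact x162_10
  · exact x162_11
  · exact x162_12
  · exact x162_13
  · exact x162_14
  · exact x162_15
  · exact x162_16
  · exact x162_17
  · exact x162_18
  · exact x162_19
  · exact x162_20
  · exact x162_21
  · exact x162_22
  · exact x162_23

end Pool.Agent.V5helper47.EV
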