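import Pool.Agent.V5helper47.EV.S2

/-! Search, part of the half words. -/

set_option maxRecDepth 1000000

namespace Pool.Agent.V5helper47.EV

open H419R2 Pool.Agent.N911 Pool.Agent.V5helper47.CN

theorem x163_0 : fam (wl [8,1,4,2,1,1,1,17]) 2935 666 = true := by decide +kernel
theorem x163_1 : fam (wl [5,4,1,2,1,2,2,10]) 5352 2054 = true := by decide +kernel
theorem x163_2 : fam (wl [2,9,2,2,2,1,4,4]) 5040 4786 = true := by decide +kernel
theorem x163_3 : fam (wl [1,3,1,1,4,1,2,2,3,1,1,2]) 6646 10370 = true := by decide +kernel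
theorem x163_4 : fam (wl [4,1,1,4,1,2,2,3,1,1,1,1]) 33 15 = true := by decide +kernel
theorem x163_5 : fam (wl [1,1,9,2,2,2,1,4,3,1]) 1639 1723 = true := by decide +kernel
theorem x163_6 : fam (wl [1,4,4,1,2,1,2,2,9,1]) 1327 2147 = true := by decide +kernel
theorem x163_7 : fam (wl [1,7,1,4,2,1,1,1,16,1]) 3744 6641 = true := by decide +kernel
theorem x163_8 : fam (wl [3,2,4,2,1,8,1,6]) 4969 2882 = true := by decide +kernel
theorem x163_9 : fam (wl [1,4,1,3,3,1,1,1,1,2,2,2]) 3577 5914 = true := by decide +kernel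
theorem x163_10 : fam (wl [5,1,3,3,1,1,1,1,2,2,1,1]) 3104 1077 = true := by decide +kernel
theorem x163_11 : fam (wl [1,2,2,4,2,1,8,1,5,1]) 1712 2433 = true := by decide +kernel
theorem x163_12 : fam (wl [1,2,3,7,1,3,6,1,2]) 3098 4330 = true := by decide +kernel
theorem x163_13 : fam (wl [3,3,7,1,3,6,1,1,1]) 3589 2163 = true := by decide +kernel
theorem x163_14 : fam (wl [8,10,5,16]) 996 246 = true := by decide +kernel
theorem x163_15 : fam (wl [1,7,10,5,15,1]) 5691 9979 = true := by decide +kernel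
theorem x163_16 : fam (wl [1,2,1,3,5,2,1,1,1,2,1,2]) 5417 7954 = true := by decide +kernel
theorem x163_17 : fam (wl [3,1,3,5,2,1,1,1,2,1,1,1]) 1272 677 = true := by decide +kernel
theorem x163_18 : fam (wl [2,1,1,10,1,22,5]) 3432 2722 = true := by decide +kernel
theorem x163_19 : fam (wl [1,1,1,1,10,1,22,4,1]) 3269 3947 = true := by decide +kernel
theorem x163_20 : fam (wl [1,2,1,2,2,1,2,5,1,2,1,2]) 1612 2354 = true := by decide +kernel
theorem x163_21 : fam (wl [1,5,1,1,1,1,1,3,4,1,2,2]) 6524 11078 = true := by decide +kernel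
theorem x163_22 : fam (wl [6,1,1,1,1,1,3,4,1,2,1,1]) 181 55 = true := by decide +kernel
theorem x163_23 : fam (wl [3,1,2,2,1,2,5,1,2,1,1,1]) 5093 2751 = true := by decide +kernel
theorem x163_24 : fam (wl [6,1,3,1,1,3,1,1,13]) 4143 1222 = true := by decide +kernel
theorem x163_25 : fam (wl [5,3,4,1,1,1,1,1,10]) 5348 2014 = true := by decide +kernel
theorem x163_26 : fam (wl [1,4,3,4,1,1,1,1,1,9,1]) 1363 2215 = true := by decide +kernel
theorem x163_27 : fam (wl [1,5,1,3,1,1,3,1,1,12,1]) 2568 4381 = true := by decide +kernel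
theorem x163_28 : fam (wl [1,2,18,1,37,1,2]) 1988 2674 = true := by decide +kernel
theorem x163_29 : fam (wl [3,18,1,37,1,1,1]) 4729 3099 = true := by decide +kernel
/-- words with first entry from 6681 to 6721 -/
def L163 : List (List ℕ × ℕ × ℕ) := [([8,1,4,2,1,1,1,17],2935,666), ([5,4,1,2,1,2,2,10],5352,2054), ([2,9,2,2,2,1,4,4],5040,4786), ([1,3,1,1,4,1,2,2,3,1,1,2],6646,10370), ([4,1,1,4,1,2,2,3,1,1,1,1],33,15), ([1,1,9,2,2,2,1,4,3,1],1639,1723), ([1,4,4,1,2,1,2,2,9,1],1327,2147), ([1,7,1,4,2,1,1,1,16,1],3744,6641), ([3,2,4,2,1,8,1,6],4969,2882), ([1,4,1,3,3,1,1,1,1,2,2,2],3577,5914), ([5,1,3,3,1,1,1,1,2,2,1,1],3104,1077), ([1,2,2,4,2,1,8,1,5,1],1712,2433), ([1,2,3,7,1,3,6,1,2],3098,4330), ([3,3,7,1,3,6,1,1,1],3589,2163), ([8,10,5,16],996,246), ([1,7,10,5,15,1],5691,9979), ([1,2,1,3,5,2,1,1,1,2,1,2],5417,7954), ([3,1,3,5,2,1,1,1,2,1,1,1],1272,677), ([2,1,1,10,1,22,5],3432,2722), ([1,1,1,1,10,1,22,4,1],3269,3947), ([1,2,1,2,2,1,2,5,1,2,1,2],1612,2354),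 ([1,5,1,1,1,1,1,3,4,1,2,2],6524,11078), ([6,1,1,1,1,1,3,4,1,2,1,1],181,55), ([3,1,2,2,1,2,5,1,2,1,1,1],5093,2751), ([6,1,3,1,1,3,1,1,13],4143,1222), ([5,3,4,1,1,1,1,1,10],5348,2014), ([1,4,3,4,1,1,1,1,1,9,1],1363,2215), ([1,5,1,3,1,1,3,1,1,12,1],2568,4381), ([1,2,18,1,37,1,2],1988,2674), ([3,18,1,37,1,1,1],4729,3099)]
theorem r163 : rgV L163 6681 21 = true := by decide +kernel
theorem f163 : ∀ p ∈ L163, fam (wl p.1) p.2.1 p.2.2 = true := by
  intro p hp
  simp only [L163, List.mem_cons, List.not_mem_nil, or_false] at hp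
  rcases hp with rfl | rfl | rfl | rfl | rfl | rfl | rfl | rfl | rfl | rfl | rfl | rfl | rfl | rfl | rfl | rfl | rfl | rfl | rfl | rfl | rfl | rfl | rfl | rfl | rfl | rfl | rfl | rfl | rfl | rfl
  · exact x163_0
  · exact x163_1
  · exact x163_2
  · exact x163_3
  · exact x163_4
  · exact x163_5
  · exact x163_6
  · exact x163_7
  · exact x163_8
  · exact x163_9
  · exact x163_10
  · exact x163_11
  · exact x163_12
  · exact x163_13
  · exact x163_14
  · exact x163_15
  · exact x163_16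
  · exact x163_17
  · exact x163_18
  · exact x163_19
  · exact x163_20
  · exact x163_21
  · exact x163_22
  · exact x163_23
  · exact x163_24
  · exact x163_25
  · exact x163_26
  · exact x163_27
  · exact x163_28
  · exact x163_29

end Pool.Agent.V5helper47.EV
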