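import Pool.Agent.V5helper47.EV.S2

/-! Search, part of the half words. -/

set_option maxRecDepth 1000000

namespace Pool.Agent.V5helper47.EV

open H419R2 Pool.Agent.N911 Pool.Agent.V5helper47.CN

theorem x164_0 : fam (wl [3,4,2,2,1,4,2,6]) 416 258 = true := by decide +kernel
theorem x164_1 : fam (wl [1,1,2,1,1,3,2,1,1,3,2,3]) 4245 4938 = true := by decide +kernel
theorem x164_2 : fam (wl [2,2,1,1,3,2,1,1,3,2,2,1]) 2476 2073 = true := by decide +kernel
theorem x164_3 : fam (wl [1,2,4,2,2,1,4,2,5,1]) 6305 8703 = true := by decide +kernel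
theorem x164_4 : fam (wl [57,1,115]) 6669 230 = true := by decide +kernel
theorem x164_5 : fam (wl [1,1,4,8,1,3,1,1,1,1,3]) 5137 5694 = true := by decide +kernel
theorem x164_6 : fam (wl [2,4,8,1,3,1,1,1,1,2,1]) 1588 1417 = true := by decide +kernel
theorem x164_7 : fam (wl [1,56,1,114,1]) 56 113 = true := by decide +kernel
theorem x164_8 : fam (wl [58,116]) 58 2 = true := by decide +kernel
theorem x164_9 : fam (wl [1,1,1,5,1,3,1,1,12,3]) 5175 6722 = true := by decide +kernel
theorem x164_10 : fam (wl [2,1,5,1,3,1,1,12,2,1]) 1552 1089 = true := by decide +kernel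
theorem x164_11 : fam (wl [1,57,115,1]) 6669 13111 = true := by decide +kernel
theorem x164_12 : fam (wl [1,13,1,2,1,6,1,6,2]) 5225 9742 = true := by decide +kernel
theorem x164_13 : fam (wl [14,1,2,1,6,1,6,1,1]) 1510 205 = true := by decide +kernel
theorem x164_14 : fam (wl [1,2,19,38,1,2]) 251 338 = true := by decide +kernel
theorem x164_15 : fam (wl [3,19,38,1,1,1]) 6484 4249 = true := by decide +kernel
theorem x164_16 : fam (wl [2,1,1,11,23,5]) 1944 1542 = true := by decide +kernel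
theorem x164_17 : fam (wl [1,14,1,4,2,2,7,2]) 5558 10414 = true := by decide +kernel
theorem x164_18 : fam (wl [15,1,4,2,2,7,1,1]) 1193 151 = true := by decide +kernel
theorem x164_19 : fam (wl [1,1,1,1,11,23,4,1]) 4807 5803 = true := by decide +kernel
theorem x164_20 : fam (wl [1,1,1,2,9,1,4,5,3]) 1990 2494 = true := by decide +kernel
theorem x164_21 : fam (wl [2,1,2,9,1,4,5,2,1]) 4769 3563 = true := by decide +kernel
theorem x164_22 : fam (wl [10,8,4,20]) 4261 842 = true := by decide +kernel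
theorem x164_23 : fam (wl [1,9,8,4,19,1]) 2498 4505 = true := by decide +kernel
theorem x164_24 : fam (wl [1,1,2,3,1,1,2,3,1,1,2,3]) 1354 1598 = true := by decide +kernel
theorem x164_25 : fam (wl [2,2,3,1,1,2,3,1,1,2,2,1]) 5407 4435 = true := by decide +kernel
theorem x164_26 : fam (wl [3,2,2,1,2,2,5,1,6]) 5246 3066 = true := by decide +kernel
theorem x164_27 : fam (wl [1,5,1,2,3,1,1,5,1,2,2]) 2627 4470 = true := by decide +kernel
theorem x164_28 : fam (wl [6,1,2,3,1,1,5,1,2,1,1]) 4140 1237 = true := by decide +kernel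
theorem x164_29 : fam (wl [1,2,2,2,1,2,2,5,1,5,1]) 1521 2155 = true := by decide +kernel
/-- words with first entry from 6723 to 6775 -/
def L164 : List (List ℕ × ℕ × ℕ) := [([3,4,2,2,1,4,2,6],416,258), ([1,1,2,1,1,3,2,1,1,3,2,3],4245,4938), ([2,2,1,1,3,2,1,1,3,2,2,1],2476,2073), ([1,2,4,2,2,1,4,2,5,1],6305,8703), ([57,1,115],6669,230), ([1,1,4,8,1,3,1,1,1,1,3],5137,5694), ([2,4,8,1,3,1,1,1,1,2,1],1588,1417), ([1,56,1,114,1],56,113), ([58,116],58,2), ([1,1,1,5,1,3,1,1,12,3],5175,6722), ([2,1,5,1,3,1,1,12,2,1],1552,1089), ([1,57,115,1],6669,13111), ([1,13,1,2,1,6,1,6,2],5225,9742), ([14,1,2,1,6,1,6,1,1],1510,205), ([1,2,19,38,1,2],251,338), ([3,19,38,1,1,1],6484,4249), ([2,1,1,11,23,5],1944,1542), ([1,14,1,4,2,2,7,2],5558,10414), ([15,1,4,2,2,7,1,1],1193,151), ([1,1,1,1,11,23,4,1],4807,5803), ([1,1,1,2,9,1,4,5,3],1990,2494), ([2,1,2,9,1,4,5,2,1],4769,3563), ([10,8,4,20],4261,842), ([1,9,8,4,19,1],2498,4505), ([1,1,2,3,1,1,2,3,1,1,2,3],1354,1598), ([2,2,3,1,1,2,3,1,1,2,2,1],5407,4435),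 ([3,2,2,1,2,2,5,1,6],5246,3066), ([1,5,1,2,3,1,1,5,1,2,2],2627,4470), ([6,1,2,3,1,1,5,1,2,1,1],4140,1237), ([1,2,2,2,1,2,2,5,1,5,1],1521,2155)]
theorem r164 : rgV L164 6723 27 = true := by decide +kernel
theorem f164 : ∀ p ∈ L164, fam (wl p.1) p.2.1 p.2.2 = true := by
  intro p hp
  simp only [L164, List.mem_cons, List.not_mem_nil, or_false] at hp
  rcases hp with rfl | rfl | rfl | rfl | rfl | rfl | rfl | rfl | rfl | rfl | rfl | rfl | rfl | rfl | rfl | rfl | rfl | rfl | rfl | rfl | rfl | rfl | rfl | rfl | rfl | rfl | rfl | rfl | rfl | rfl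
  · exact x164_0
  · exact x164_1
  · exact x164_2
  · exact x164_3
  · exact x164_4
  · exact x164_5
  · exact x164_6
  · exact x164_7
  · exact x164_8
  · exact x164_9
  · exact x164_10
  · exact x164_11
  · exact x164_12
  · exact x164_13
  · exact x164_14
  · exact x164_15
  · exact x164_16
  · exact x164_17
  · exact x164_18
  · exact x164_19
  · exact x164_20
  · exact x164_21
  · exact x164_22
  · exact x164_23
  · exact x164_24
  · exact x164_25
  · exact x164_26
  · exact x164_27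
  · exact x164_28
  · exact x164_29

end Pool.Agent.V5helper47.EV
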