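import Pool.Agent.V5helper47.EV.T7
import Pool.Agent.V5helper47.EV.W124
import Pool.Agent.V5helper47.EV.W125
import Pool.Agent.V5helper47.EV.W126
import Pool.Agent.V5helper47.EV.W127
import Pool.Agent.V5helper47.EV.W128
import Pool.Agent.V5helper47.EV.W129
import Pool.Agent.V5helper47.EV.W130
import Pool.Agent.V5helper47.EV.W131
import Pool.Agent.V5helper47.EV.W132
import Pool.Agent.V5helper47.EV.W133
import Pool.Agent.V5helper47.EV.W134
import Pool.Agent.V5helper47.EV.W135
import Pool.Agent.V5helper47.EV.W136
import Pool.Agent.V5helper47.EV.W137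
import Pool.Agent.V5helper47.EV.W138
import Pool.Agent.V5helper47.EV.W139
import Pool.Agent.V5helper47.EV.W140
import Pool.Agent.V5helper47.EV.W141
import Pool.Agent.V5helper47.EV.W142
import Pool.Agent.V5helper47.EV.W143
import Pool.Agent.V5helper47.EV.W144
import Pool.Agent.V5helper47.EV.W145
import Pool.Agent.V5helper47.EV.W146
import Pool.Agent.V5helper47.EV.W147
import Pool.Agent.V5helper47.EV.W148
import Pool.Agent.V5helper47.EV.W149
import Pool.Agent.V5helper47.EV.W150
import Pool.Agent.V5helper47.EV.W151
import Pool.Agent.V5helper47.EV.W152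
import Pool.Agent.V5helper47.EV.W153
import Pool.Agent.V5helper47.EV.W154
import Pool.Agent.V5helper47.EV.W155
import Pool.Agent.V5helper47.EV.W156
import Pool.Agent.V5helper47.EV.W157
import Pool.Agent.V5helper47.EV.W158
import Pool.Agent.V5helper47.EV.W159
import Pool.Agent.V5helper47.EV.W160
import Pool.Agent.V5helper47.EV.W161
import Pool.Agent.V5helper47.EV.W162
import Pool.Agent.V5helper47.EV.W163
import Pool.Agent.V5helper47.EV.W164

/-! Half words, part of the range. -/

set_option maxRecDepth 1000000

namespace Pool.Agent.V5helper47.EV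

open H419R2 Pool.Agent.N911 Pool.Agent.V5helper47.CN

theorem full_4 {w : WL} (hw : w.Pos) (h0 : 5059 ≤ (mat w).1) (hB : (mat w).1 ≤ 6776)
    (hodd : (mat w).1 % 2 = 1)
    (hval : ∃ b m, b * (mat w).1 + 2 * (mat w).2.1 = m * (mat w).1 + (mat w).2.2.1) :
    ∃ b0 P0, fam w b0 P0 = true := by
  by_cases g0 : (mat w).1 ≤ 5096
  · exact fam_of_range r124 f124 hw (by norm_num) (by norm_num) (by omega) (by omega) hodd hval
  by_cases g1 : (mat w).1 ≤ 5146
  · exact fam_of_range r125 f125 hw (by norm_num) (by norm_num) (by omega) (by omega) hodd hval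
  by_cases g2 : (mat w).1 ≤ 5192
  · exact fam_of_range r126 f126 hw (by norm_num) (by norm_num) (by omega) (by omega) hodd hval
  by_cases g3 : (mat w).1 ≤ 5230
  · exact fam_of_range r127 f127 hw (by norm_num) (by norm_num) (by omega) (by omega) hodd hval
  by_cases g4 : (mat w).1 ≤ 5280
  · exact fam_of_range r128 f128 hw (by norm_num) (by norm_num) (by omega) (by omega) hodd hval
  by_cases g5 : (mat w).1 ≤ 5320
  · exact fam_of_range r129 f129 hw (by norm_num) (by norm_num) (by omega) (by omega) hodd hval
  by_cases g6 : (mat w).1 ≤ 5346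
  · exact fam_of_range r130 f130 hw (by norm_num) (by norm_num) (by omega) (by omega) hodd hval
  by_cases g7 : (mat w).1 ≤ 5382
  · exact fam_of_range r131 f131 hw (by norm_num) (by norm_num) (by omega) (by omega) hodd hval
  by_cases g8 : (mat w).1 ≤ 5418
  · exact fam_of_range r132 f132 hw (by norm_num) (by norm_num) (by omega) (by omega) hodd hval
  by_cases g9 : (mat w).1 ≤ 5470
  · exact fam_of_range r133 f133 hw (by norm_num) (by norm_num) (by omega) (by omega) hodd hval
  by_cases g10 : (mat w).1 ≤ 5528
  · exact fam_of_range r134 f134 hw (by norm_num) (by norm_num) (by omega) (by omega) hodd hval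
  by_cases g11 : (mat w).1 ≤ 5562
  · exact fam_of_range r135 f135 hw (by norm_num) (by norm_num) (by omega) (by omega) hodd hval
  by_cases g12 : (mat w).1 ≤ 5616
  · exact fam_of_range r136 f136 hw (by norm_num) (by norm_num) (by omega) (by omega) hodd hval
  by_cases g13 : (mat w).1 ≤ 5642
  · exact fam_of_range r137 f137 hw (by norm_num) (by norm_num) (by omega) (by omega) hodd hval
  by_cases g14 : (mat w).1 ≤ 5688
  · exact fam_of_range r138 f138 hw (by norm_num) (by norm_num) (by omega) (by omega) hodd hval
  by_cases g15 : (mat w).1 ≤ 5730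
  · exact fam_of_range r139 f139 hw (by norm_num) (by norm_num) (by omega) (by omega) hodd hval
  by_cases g16 : (mat w).1 ≤ 5766
  · exact fam_of_range r140 f140 hw (by norm_num) (by norm_num) (by omega) (by omega) hodd hval
  by_cases g17 : (mat w).1 ≤ 5830
  · exact fam_of_range r141 f141 hw (by norm_num) (by norm_num) (by omega) (by omega) hodd hval
  by_cases g18 : (mat w).1 ≤ 5866
  · exact fam_of_range r142 f142 hw (by norm_num) (by norm_num) (by omega) (by omega) hodd hval
  by_cases g19 : (mat w).1 ≤ 5906
  · exact fam_of_range r143 f143 hw (by norm_num) (by norm_num) (by omega) (by omega) hodd hval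
  by_cases g20 : (mat w).1 ≤ 5936
  · exact fam_of_range r144 f144 hw (by norm_num) (by norm_num) (by omega) (by omega) hodd hval
  by_cases g21 : (mat w).1 ≤ 5978
  · exact fam_of_range r145 f145 hw (by norm_num) (by norm_num) (by omega) (by omega) hodd hval
  by_cases g22 : (mat w).1 ≤ 6016
  · exact fam_of_range r146 f146 hw (by norm_num) (by norm_num) (by omega) (by omega) hodd hval
  by_cases g23 : (mat w).1 ≤ 6058
  · exact fam_of_range r147 f147 hw (by norm_num) (by norm_num) (by omega) (by omega) hodd hval
  by_cases g24 : (mat w).1 ≤ 6102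
  · exact fam_of_range r148 f148 hw (by norm_num) (by norm_num) (by omega) (by omega) hodd hval
  by_cases g25 : (mat w).1 ≤ 6162
  · exact fam_of_range r149 f149 hw (by norm_num) (by norm_num) (by omega) (by omega) hodd hval
  by_cases g26 : (mat w).1 ≤ 6208
  · exact fam_of_range r150 f150 hw (by norm_num) (by norm_num) (by omega) (by omega) hodd hval
  by_cases g27 : (mat w).1 ≤ 6242
  · exact fam_of_range r151 f151 hw (by norm_num) (by norm_num) (by omega) (by omega) hodd hval
  by_cases g28 : (mat w).1 ≤ 6272
  · exact fam_of_range r152 f152 hw (by norm_num) (by norm_num) (by omega) (by omega) hodd hval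
  by_cases g29 : (mat w).1 ≤ 6312
  · exact fam_of_range r153 f153 hw (by norm_num) (by norm_num) (by omega) (by omega) hodd hval
  by_cases g30 : (mat w).1 ≤ 6352
  · exact fam_of_range r154 f154 hw (by norm_num) (by norm_num) (by omega) (by omega) hodd hval
  by_cases g31 : (mat w).1 ≤ 6392
  · exact fam_of_range r155 f155 hw (by norm_num) (by norm_num) (by omega) (by omega) hodd hval
  by_cases g32 : (mat w).1 ≤ 6442
  · exact fam_of_range r156 f156 hw (by norm_num) (by norm_num) (by omega) (by omega) hodd hval
  by_cases g33 : (mat w).1 ≤ 6482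
  · exact fam_of_range r157 f157 hw (by norm_num) (by norm_num) (by omega) (by omega) hodd hval
  by_cases g34 : (mat w).1 ≤ 6520
  · exact fam_of_range r158 f158 hw (by norm_num) (by norm_num) (by omega) (by omega) hodd hval
  by_cases g35 : (mat w).1 ≤ 6562
  · exact fam_of_range r159 f159 hw (by norm_num) (by norm_num) (by omega) (by omega) hodd hval
  by_cases g36 : (mat w).1 ≤ 6600
  · exact fam_of_range r160 f160 hw (by norm_num) (by norm_num) (by omega) (by omega) hodd hval
  by_cases g37 : (mat w).1 ≤ 6646
  · exact fam_of_range r161 f161 hw (by norm_num) (by norm_num) (by omega) (by omega) hodd hval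
  by_cases g38 : (mat w).1 ≤ 6680
  · exact fam_of_range r162 f162 hw (by norm_num) (by norm_num) (by omega) (by omega) hodd hval
  by_cases g39 : (mat w).1 ≤ 6722
  · exact fam_of_range r163 f163 hw (by norm_num) (by norm_num) (by omega) (by omega) hodd hval
  exact fam_of_range r164 f164 hw (by norm_num) (by norm_num) (by omega) (by omega) hodd hval

end Pool.Agent.V5helper47.EV
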