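import Pool.Agent.V5helper47.EV.S2

/-! Search, part of the half words. -/

set_option maxRecDepth 1000000

namespace Pool.Agent.V5helper47.EV

open H419R2 Pool.Agent.N911 Pool.Agent.V5helper47.CN

theorem x165_0 : fam (wl [1,1,3,8,16,1,1,3]) 592 674 = true := by decide +kernel
theorem x165_1 : fam (wl [1,6,2,2,1,2,1,4,3,2]) 4115 7122 = true := by decide +kernel
theorem x165_2 : fam (wl [7,2,2,1,2,1,4,3,1,1]) 2660 717 = true := by decide +kernel
theorem x165_3 : fam (wl [2,3,8,16,1,1,2,1]) 6183 5331 = true := by decide +kernel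
theorem x165_4 : fam (wl [1,26,2,4,13,2]) 1138 2194 = true := by decide +kernel
theorem x165_5 : fam (wl [27,2,4,13,1,1]) 5639 411 = true := by decide +kernel
theorem x165_6 : fam (wl [1,1,1,2,2,1,2,1,2,1,5,3]) 2198 2770 = true := by decide +kernel
theorem x165_7 : fam (wl [1,4,1,2,3,6,1,2,2,2]) 549 906 = true := by decide +kernel
theorem x165_8 : fam (wl [5,1,2,3,6,1,2,2,1,1]) 6236 2189 = true := by decide +kernel
theorem x165_9 : fam (wl [2,1,2,2,1,2,1,2,1,5,2,1]) 4587 3395 = true := by decide +kernel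
theorem x165_10 : fam (wl [6,1,10,1,4,1,13]) 5885 1702 = true := by decide +kernel
theorem x165_11 : fam (wl [1,5,1,10,1,4,1,12,1]) 904 1549 = true := by decide +kernel
theorem x165_12 : fam (wl [6,1,1,3,1,8,13]) 6629 2022 = true := by decide +kernel
theorem x165_13 : fam (wl [1,5,1,1,3,1,8,12,1]) 162 277 = true := by decide +kernel
theorem x165_14 : fam (wl [7,1,2,1,1,3,2,15]) 4701 1218 = true := by decide +kernel
theorem x165_15 : fam (wl [1,6,1,2,1,1,3,2,14,1]) 2090 3641 = true := by decide +kernel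
theorem x165_16 : fam (wl [33,1,2,67]) 303 18 = true := by decide +kernel
theorem x165_17 : fam (wl [1,2,3,2,2,4,1,6,1,2]) 1058 1474 = true := by decide +kernel
theorem x165_18 : fam (wl [3,3,2,2,4,1,6,1,1,1]) 5741 3487 = true := by decide +kernel
theorem x165_19 : fam (wl [1,32,1,2,66,1]) 6496 12609 = true := by decide +kernel
theorem x165_20 : fam (wl [3,1,2,7,3,1,2,7]) 622 338 = true := by decide +kernel
theorem x165_21 : fam (wl [1,2,1,2,7,3,1,2,6,1]) 6179 9003 = true := by decide +kernel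
theorem x165_22 : fam (wl [4,2,6,12,1,8]) 1102 494 = true := by decide +kernel
theorem x165_23 : fam (wl [2,2,6,2,1,12,1,4]) 5885 4778 = true := by decide +kernel
theorem x165_24 : fam (wl [1,1,2,6,2,1,12,1,3,1]) 922 1097 = true := by decide +kernel
theorem x165_25 : fam (wl [1,3,2,6,12,1,7,1]) 5705 8855 = true := by decide +kernel
/-- words with first entry from 6777 to 6815 -/
def L165 : List (List ℕ × ℕ × ℕ) := [([1,1,3,8,16,1,1,3],592,674), ([1,6,2,2,1,2,1,4,3,2],4115,7122), ([7,2,2,1,2,1,4,3,1,1],2660,717), ([2,3,8,16,1,1,2,1],6183,5331), ([1,26,2,4,13,2],1138,2194), ([27,2,4,13,1,1],5639,411), ([1,1,1,2,2,1,2,1,2,1,5,3],2198,2770), ([1,4,1,2,3,6,1,2,2,2],549,906), ([5,1,2,3,6,1,2,2,1,1],6236,2189), ([2,1,2,2,1,2,1,2,1,5,2,1],4587,3395), ([6,1,10,1,4,1,13],5885,1702), ([1,5,1,10,1,4,1,12,1],904,1549), ([6,1,1,3,1,8,13],6629,2022), ([1,5,1,1,3,1,8,12,1],162,277), ([7,1,2,1,1,3,2,15],4701,1218), ([1,6,1,2,1,1,3,2,14,1],2090,3641), ([33,1,2,67],303,18), ([1,2,3,2,2,4,1,6,1,2],1058,1474),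 ([3,3,2,2,4,1,6,1,1,1],5741,3487), ([1,32,1,2,66,1],6496,12609), ([3,1,2,7,3,1,2,7],622,338), ([1,2,1,2,7,3,1,2,6,1],6179,9003), ([4,2,6,12,1,8],1102,494), ([2,2,6,2,1,12,1,4],5885,4778), ([1,1,2,6,2,1,12,1,3,1],922,1097), ([1,3,2,6,12,1,7,1],5705,8855)]
theorem r165 : rgV L165 6777 20 = true := by decide +kernel
theorem f165 : ∀ p ∈ L165, fam (wl p.1) p.2.1 p.2.2 = true := by
  intro p hp
  simp only [L165, List.mem_cons, List.not_mem_nil, or_false] at hp
  rcases hp with rfl | rfl | rfl | rfl | rfl | rfl | rfl | rfl | rfl | rfl | rfl | rfl | rfl | rfl | rfl | rfl | rfl | rfl | rfl | rfl | rfl | rfl | rfl | rfl | rfl | rfl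
  · exact x165_0
  · exact x165_1
  · exact x165_2
  · exact x165_3
  · exact x165_4
  · exact x165_5
  · exact x165_6
  · exact x165_7
  · exact x165_8
  · exact x165_9
  · exact x165_10
  · exact x165_11
  · exact x165_12
  · exact x165_13
  · exact x165_14
  · exact x165_15
  · exact x165_16
  · exact x165_17
  · exact x165_18
  · exact x165_19
  · exact x165_20
  · exact x165_21
  · exact x165_22
  · exact x165_23
  · exact x165_24
  · exact x165_25

end Pool.Agent.V5helper47.EV
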