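import Pool.Agent.V5helper47.EV.S2

/-! Search, part of the half words. -/

set_option maxRecDepth 1000000

namespace Pool.Agent.V5helper47.EV

open H419R2 Pool.Agent.N911 Pool.Agent.V5helper47.CN

theorem x166_0 : fam (wl [5,1,12,1,5,1,11]) 5578 1882 = true := by decide +kernel
theorem x166_1 : fam (wl [1,1,1,3,2,1,1,3,1,7,3]) 5035 6438 = true := by decide +kernel
theorem x166_2 : fam (wl [2,1,3,2,1,1,3,1,7,2,1]) 1780 1285 = true := by decide +kernel
theorem x166_3 : fam (wl [1,4,1,12,1,5,1,10,1]) 1237 2059 = true := by decide +kernel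
theorem x166_4 : fam (wl [1,6,4,1,2,9,3,2]) 1431 2466 = true := by decide +kernel
theorem x166_5 : fam (wl [1,46,1,2,23,2]) 1596 3126 = true := by decide +kernel
theorem x166_6 : fam (wl [47,1,2,23,1,1]) 5219 219 = true := by decide +kernel
theorem x166_7 : fam (wl [7,4,1,2,9,3,1,1]) 5384 1493 = true := by decide +kernel
theorem x166_8 : fam (wl [5,1,1,1,4,2,3,11]) 3257 1154 = true := by decide +kernel
theorem x166_9 : fam (wl [2,23,2,1,11,4]) 6592 6454 = true := by decide +kernel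
theorem x166_10 : fam (wl [1,1,23,2,1,11,3,1]) 225 231 = true := by decide +kernel
theorem x166_11 : fam (wl [1,4,1,1,1,4,2,3,10,1]) 3560 5861 = true := by decide +kernel
theorem x166_12 : fam (wl [1,2,2,1,2,2,2,2,5,1,2]) 5749 8086 = true := by decide +kernel
theorem x166_13 : fam (wl [3,2,1,2,2,2,2,5,1,1,1]) 1072 637 = true := by decide +kernel
theorem x166_14 : fam (wl [1,3,11,1,2,5,1,1,1,2]) 1521 2298 = true := by decide +kernel
theorem x166_15 : fam (wl [4,11,1,2,5,1,1,1,1,1]) 5304 2597 = true := by decide +kernel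
theorem x166_16 : fam (wl [14,5,1,2,28]) 2736 386 = true := by decide +kernel
theorem x166_17 : fam (wl [1,13,5,1,2,27,1]) 4095 7615 = true := by decide +kernel
theorem x166_18 : fam (wl [5,9,2,1,4,10]) 5643 2210 = true := by decide +kernel
theorem x166_19 : fam (wl [1,4,9,2,1,4,9,1]) 1188 1913 = true := by decide +kernel
theorem x166_20 : fam (wl [3,6,2,1,5,3,6]) 4676 2962 = true := by decide +kernel
theorem x166_21 : fam (wl [1,1,1,1,15,1,7,3,3]) 1326 1598 = true := by decide +kernel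
theorem x166_22 : fam (wl [2,1,1,15,1,7,3,2,1]) 5511 4383 = true := by decide +kernel
theorem x166_23 : fam (wl [1,2,6,2,1,5,3,5,1]) 2161 2955 = true := by decide +kernel
theorem x166_24 : fam (wl [1,2,1,2,4,1,9,1,2,1,2]) 5802 8458 = true := by decide +kernel
theorem x166_25 : fam (wl [3,1,2,4,1,9,1,2,1,1,1]) 1037 563 = true := by decide +kernel
theorem x166_26 : fam (wl [2,1,2,1,2,2,1,5,2,5]) 483 354 = true := by decide +kernel
theorem x166_27 : fam (wl [1,1,1,2,1,2,2,1,5,2,4,1]) 6356 8057 = true := by decide +kernel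
/-- words with first entry from 6817 to 6841 -/
def L166 : List (List ℕ × ℕ × ℕ) := [([5,1,12,1,5,1,11],5578,1882), ([1,1,1,3,2,1,1,3,1,7,3],5035,6438), ([2,1,3,2,1,1,3,1,7,2,1],1780,1285), ([1,4,1,12,1,5,1,10,1],1237,2059), ([1,6,4,1,2,9,3,2],1431,2466), ([1,46,1,2,23,2],1596,3126), ([47,1,2,23,1,1],5219,219), ([7,4,1,2,9,3,1,1],5384,1493), ([5,1,1,1,4,2,3,11],3257,1154), ([2,23,2,1,11,4],6592,6454), ([1,1,23,2,1,11,3,1],225,231), ([1,4,1,1,1,4,2,3,10,1],3560,5861), ([1,2,2,1,2,2,2,2,5,1,2],5749,8086), ([3,2,1,2,2,2,2,5,1,1,1],1072,637), ([1,3,11,1,2,5,1,1,1,2],1521,2298), ([4,11,1,2,5,1,1,1,1,1],5304,2597), ([14,5,1,2,28],2736,386), ([1,13,5,1,2,27,1],4095,7615), ([5,9,2,1,4,10],5643,2210), ([1,4,9,2,1,4,9,1],1188,1913), ([3,6,2,1,5,3,6],4676,2962), ([1,1,1,1,15,1,7,3,3],1326,1598), ([2,1,1,15,1,7,3,2,1],5511,4383), ([1,2,6,2,1,5,3,5,1],2161,2955), ([1,2,1,2,4,1,9,1,2,1,2],5802,8458), ([3,1,2,4,1,9,1,2,1,1,1],1037,563), ([2,1,2,1,2,2,1,5,2,5],483,354),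 ([1,1,1,2,1,2,2,1,5,2,4,1],6356,8057)]
theorem r166 : rgV L166 6817 13 = true := by decide +kernel
theorem f166 : ∀ p ∈ L166, fam (wl p.1) p.2.1 p.2.2 = true := by
  intro p hp
  simp only [L166, List.mem_cons, List.not_mem_nil, or_false] at hp
  rcases hp with rfl | rfl | rfl | rfl | rfl | rfl | rfl | rfl | rfl | rfl | rfl | rfl | rfl | rfl | rfl | rfl | rfl | rfl | rfl | rfl | rfl | rfl | rfl | rfl | rfl | rfl | rfl | rfl
  · exact x166_0
  · exact x166_1
  · exact x166_2
  · exact x166_3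
  · exact x166_4
  · exact x166_5
  · exact x166_6
  · exact x166_7
  · exact x166_8
  · exact x166_9
  · exact x166_10
  · exact x166_11
  · exact x166_12
  · exact x166_13
  · exact x166_14
  · exact x166_15
  · exact x166_16
  · exact x166_17
  · exact x166_18
  · exact x166_19
  · exact x166_20
  · exact x166_21
  · exact x166_22
  · exact x166_23
  · exact x166_24
  · exact x166_25
  · exact x166_26
  · exact x166_27

end Pool.Agent.V5helper47.EV
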