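import Pool.Agent.V5helper47.EV.S2

/-! Search, part of the half words. -/

set_option maxRecDepth 1000000

namespace Pool.Agent.V5helper47.EV

open H419R2 Pool.Agent.N911 Pool.Agent.V5helper47.CN

theorem x167_0 : fam (wl [17,1,1,1,3,35]) 2134 242 = true := by decide +kernel
theorem x167_1 : fam (wl [1,1,1,1,3,2,2,2,1,1,3,3]) 1667 2034 = true := by decide +kernel
theorem x167_2 : fam (wl [2,1,1,3,2,2,2,1,1,3,2,1]) 5174 4037 = true := by decide +kernel
theorem x167_3 : fam (wl [1,16,1,1,1,3,34,1]) 4707 8883 = true := by decide +kernel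
theorem x167_4 : fam (wl [2,1,2,1,1,3,1,1,3,2,5]) 5925 4358 = true := by decide +kernel
theorem x167_5 : fam (wl [1,3,7,1,1,3,3,1,1,1,2]) 3497 5302 = true := by decide +kernel
theorem x167_6 : fam (wl [4,7,1,1,3,3,1,1,1,1,1]) 3348 1621 = true := by decide +kernel
theorem x167_7 : fam (wl [1,1,1,2,1,1,3,1,1,3,2,4,1]) 920 1165 = true := by decide +kernel
theorem x167_8 : fam (wl [7,6,1,2,3,14]) 4697 1314 = true := by decide +kernel
theorem x167_9 : fam (wl [2,1,3,5,10,1,1,5]) 1991 1442 = true := by decide +kernel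
theorem x167_10 : fam (wl [1,1,1,3,5,10,1,1,4,1]) 4856 6197 = true := by decide +kernel
theorem x167_11 : fam (wl [1,6,6,1,2,3,13,1]) 2150 3701 = true := by decide +kernel
theorem x167_12 : fam (wl [1,2,1,19,1,9,2,1,2]) 3562 5322 = true := by decide +kernel
theorem x167_13 : fam (wl [3,1,19,1,9,2,1,1,1]) 3293 1667 = true := by decide +kernel
theorem x167_14 : fam (wl [1,11,1,1,1,2,4,1,5,2]) 2733 5034 = true := by decide +kernel
theorem x167_15 : fam (wl [12,1,1,1,2,4,1,5,1,1]) 4122 653 = true := by decide +kernel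
theorem x167_16 : fam (wl [2,1,1,1,5,2,1,2,3,5]) 2227 1682 = true := by decide +kernel
theorem x167_17 : fam (wl [1,1,1,1,1,5,2,1,2,3,4,1]) 4630 5765 = true := by decide +kernel
theorem x167_18 : fam (wl [1,1,1,6,1,2,2,14,3]) 2073 2702 = true := by decide +kernel
theorem x167_19 : fam (wl [2,1,6,1,2,2,14,2,1]) 4788 3337 = true := by decide +kernel
theorem x167_20 : fam (wl [2,1,26,1,12,1,5]) 317 214 = true := by decide +kernel
theorem x167_21 : fam (wl [1,1,1,26,1,12,1,4,1]) 6552 8685 = true := by decide +kernel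
theorem x167_22 : fam (wl [4,1,1,5,1,12,9]) 4153 1830 = true := by decide +kernel
theorem x167_23 : fam (wl [1,1,40,1,19,1,3]) 642 650 = true := by decide +kernel
theorem x167_24 : fam (wl [2,40,1,19,1,2,1]) 6237 6163 = true := by decide +kernel
theorem x167_25 : fam (wl [1,3,1,1,5,1,12,8,1]) 2726 4253 = true := by decide +kernel
theorem x167_26 : fam (wl [10,4,1,2,2,20]) 4238 830 = true := by decide +kernel
theorem x167_27 : fam (wl [1,9,4,1,2,2,19,1]) 2643 4771 = true := by decide +kernel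
/-- words with first entry from 6843 to 6885 -/
def L167 : List (List ℕ × ℕ × ℕ) := [([17,1,1,1,3,35],2134,242), ([1,1,1,1,3,2,2,2,1,1,3,3],1667,2034), ([2,1,1,3,2,2,2,1,1,3,2,1],5174,4037), ([1,16,1,1,1,3,34,1],4707,8883), ([2,1,2,1,1,3,1,1,3,2,5],5925,4358), ([1,3,7,1,1,3,3,1,1,1,2],3497,5302), ([4,7,1,1,3,3,1,1,1,1,1],3348,1621), ([1,1,1,2,1,1,3,1,1,3,2,4,1],920,1165), ([7,6,1,2,3,14],4697,1314), ([2,1,3,5,10,1,1,5],1991,1442), ([1,1,1,3,5,10,1,1,4,1],4856,6197), ([1,6,6,1,2,3,13,1],2150,3701), ([1,2,1,19,1,9,2,1,2],3562,5322), ([3,1,19,1,9,2,1,1,1],3293,1667), ([1,11,1,1,1,2,4,1,5,2],2733,5034), ([12,1,1,1,2,4,1,5,1,1],4122,653), ([2,1,1,1,5,2,1,2,3,5],2227,1682), ([1,1,1,1,1,5,2,1,2,3,4,1],4630,5765), ([1,1,1,6,1,2,2,14,3],2073,2702), ([2,1,6,1,2,2,14,2,1],4788,3337), ([2,1,26,1,12,1,5],317,214), ([1,1,1,26,1,12,1,4,1],6552,8685), ([4,1,1,5,1,12,9],4153,1830), ([1,1,40,1,19,1,3],642,650), ([2,40,1,19,1,2,1],6237,6163), ([1,3,1,1,5,1,12,8,1],2726,4253),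 ([10,4,1,2,2,20],4238,830), ([1,9,4,1,2,2,19,1],2643,4771)]
theorem r167 : rgV L167 6843 22 = true := by decide +kernel
theorem f167 : ∀ p ∈ L167, fam (wl p.1) p.2.1 p.2.2 = true := by
  intro p hp
  simp only [L167, List.mem_cons, List.not_mem_nil, or_false] at hp
  rcases hp with rfl | rfl | rfl | rfl | rfl | rfl | rfl | rfl | rfl | rfl | rfl | rfl | rfl | rfl | rfl | rfl | rfl | rfl | rfl | rfl | rfl | rfl | rfl | rfl | rfl | rfl | rfl | rfl
  · exact x167_0
  · exact x167_1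
  · exact x167_2
  · exact x167_3
  · exact x167_4
  · exact x167_5
  · exact x167_6
  · exact x167_7
  · exact x167_8
  · exact x167_9
  · exact x167_10
  · exact x167_11
  · exact x167_12
  · exact x167_13
  · exact x167_14
  · exact x167_15
  · exact x167_16
  · exact x167_17
  · exact x167_18
  · exact x167_19
  · exact x167_20
  · exact x167_21
  · exact x167_22
  · exact x167_23
  · exact x167_24
  · exact x167_25
  · exact x167_26
  · exact x167_27

end Pool.Agent.V5helper47.EV
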