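import Pool.Agent.V5helper47.EV.S2

/-! Search, part of the half words. -/

set_option maxRecDepth 1000000

namespace Pool.Agent.V5helper47.EV

open H419R2 Pool.Agent.N911 Pool.Agent.V5helper47.CN

theorem x168_0 : fam (wl [1,5,1,1,5,1,2,3,1,2,2]) 2782 4714 = true := by decide +kernel
theorem x168_1 : fam (wl [1,81,1,40,2]) 5185 10246 = true := by decide +kernel
theorem x168_2 : fam (wl [82,1,40,1,1]) 1700 41 = true := by decide +kernel
theorem x168_3 : fam (wl [6,1,1,5,1,2,3,1,2,1,1]) 4103 1255 = true := by decide +kernel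
theorem x168_4 : fam (wl [3,1,1,2,4,2,5,7]) 1160 646 = true := by decide +kernel
theorem x168_5 : fam (wl [1,2,1,1,2,4,2,5,6,1]) 5727 8267 = true := by decide +kernel
theorem x168_6 : fam (wl [2,1,8,1,1,3,1,3,1,5]) 6720 4642 = true := by decide +kernel
theorem x168_7 : fam (wl [1,82,41,2]) 1701 3362 = true := by decide +kernel
theorem x168_8 : fam (wl [83,41,1,1]) 5188 125 = true := by decide +kernel
theorem x168_9 : fam (wl [1,1,1,8,1,1,3,1,3,1,4,1]) 169 223 = true := by decide +kernel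
theorem x168_10 : fam (wl [6,2,4,8,1,12]) 3023 938 = true := by decide +kernel
theorem x168_11 : fam (wl [6,4,2,4,2,12]) 1027 330 = true := by decide +kernel
theorem x168_12 : fam (wl [1,1,41,20,1,3]) 2804 2838 = true := by decide +kernel
theorem x168_13 : fam (wl [1,4,1,1,1,1,2,1,3,3,2,2]) 6854 11266 = true := by decide +kernel
theorem x168_14 : fam (wl [5,1,1,1,1,2,1,3,3,2,1,1]) 41 15 = true := by decide +kernel
theorem x168_15 : fam (wl [2,41,20,1,2,1]) 4091 4043 = true := by decide +kernel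
theorem x168_16 : fam (wl [1,5,4,2,4,2,11,1]) 5868 9853 = true := by decide +kernel
theorem x168_17 : fam (wl [1,5,2,4,8,1,11,1]) 3872 6545 = true := by decide +kernel
theorem x168_18 : fam (wl [1,2,4,6,3,8,1,2]) 435 602 = true := by decide +kernel
theorem x168_19 : fam (wl [3,4,6,3,8,1,1,1]) 6462 3989 = true := by decide +kernel
theorem x168_20 : fam (wl [2,1,27,13,1,5]) 1983 1338 = true := by decide +kernel
theorem x168_21 : fam (wl [1,1,1,27,13,1,4,1]) 4922 6525 = true := by decide +kernel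
theorem x168_22 : fam (wl [8,1,1,2,1,6,17]) 1792 418 = true := by decide +kernel
theorem x168_23 : fam (wl [1,7,1,1,2,1,6,16,1]) 5117 9043 = true := by decide +kernel
theorem x168_24 : fam (wl [3,2,7,1,15,1,6]) 4494 2590 = true := by decide +kernel
theorem x168_25 : fam (wl [1,6,1,1,1,1,1,4,3,3,2]) 4515 7846 = true := by decide +kernel
theorem x168_26 : fam (wl [7,1,1,1,1,1,4,3,3,1,1]) 2396 629 = true := by decide +kernel
theorem x168_27 : fam (wl [1,2,2,7,1,15,1,5,1]) 2417 3443 = true := by decide +kernel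
/-- words with first entry from 6887 to 6919 -/
def L168 : List (List ℕ × ℕ × ℕ) := [([1,5,1,1,5,1,2,3,1,2,2],2782,4714), ([1,81,1,40,2],5185,10246), ([82,1,40,1,1],1700,41), ([6,1,1,5,1,2,3,1,2,1,1],4103,1255), ([3,1,1,2,4,2,5,7],1160,646), ([1,2,1,1,2,4,2,5,6,1],5727,8267), ([2,1,8,1,1,3,1,3,1,5],6720,4642), ([1,82,41,2],1701,3362), ([83,41,1,1],5188,125), ([1,1,1,8,1,1,3,1,3,1,4,1],169,223), ([6,2,4,8,1,12],3023,938), ([6,4,2,4,2,12],1027,330), ([1,1,41,20,1,3],2804,2838), ([1,4,1,1,1,1,2,1,3,3,2,2],6854,11266), ([5,1,1,1,1,2,1,3,3,2,1,1],41,15), ([2,41,20,1,2,1],4091,4043), ([1,5,4,2,4,2,11,1],5868,9853), ([1,5,2,4,8,1,11,1],3872,6545), ([1,2,4,6,3,8,1,2],435,602), ([3,4,6,3,8,1,1,1],6462,3989), ([2,1,27,13,1,5],1983,1338), ([1,1,1,27,13,1,4,1],4922,6525), ([8,1,1,2,1,6,17],1792,418), ([1,7,1,1,2,1,6,16,1],5117,9043), ([3,2,7,1,15,1,6],4494,2590), ([1,6,1,1,1,1,1,4,3,3,2],4515,7846), ([7,1,1,1,1,1,4,3,3,1,1],2396,629), ([1,2,2,7,1,15,1,5,1],2417,3443)]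
theorem r168 : rgV L168 6887 17 = true := by decide +kernel
theorem f168 : ∀ p ∈ L168, fam (wl p.1) p.2.1 p.2.2 = true := by
  intro p hp
  simp only [L168, List.mem_cons, List.not_mem_nil, or_false] at hp
  rcases hp with rfl | rfl | rfl | rfl | rfl | rfl | rfl | rfl | rfl | rfl | rfl | rfl | rfl | rfl | rfl | rfl | rfl | rfl | rfl | rfl | rfl | rfl | rfl | rfl | rfl | rfl | rfl | rfl
  · exact x168_0
  · exact x168_1
  · exact x168_2
  · exact x168_3
  · exact x168_4
  · exact x168_5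
  · exact x168_6
  · exact x168_7
  · exact x168_8
  · exact x168_9
  · exact x168_10
  · exact x168_11
  · exact x168_12
  · exact x168_13
  · exact x168_14
  · exact x168_15
  · exact x168_16
  · exact x168_17
  · exact x168_18
  · exact x168_19
  · exact x168_20
  · exact x168_21
  · exact x168_22
  · exact x168_23
  · exact x168_24
  · exact x168_25
  · exact x168_26
  · exact x168_27

end Pool.Agent.V5helper47.EV
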