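import Pool.Agent.V5helper47.EV.S2

/-! Search, part of the half words. -/

set_option maxRecDepth 1000000

namespace Pool.Agent.V5helper47.EV

open H419R2 Pool.Agent.N911 Pool.Agent.V5helper47.CN

theorem x169_0 : fam (wl [1,1,9,1,1,2,3,4,1,3]) 398 418 = true := by decide +kernel
theorem x169_1 : fam (wl [1,2,1,20,10,2,1,2]) 1594 2382 = true := by decide +kernel
theorem x169_2 : fam (wl [3,1,20,10,2,1,1,1]) 5325 2695 = true := by decide +kernel
theorem x169_3 : fam (wl [2,9,1,1,2,3,4,1,2,1]) 6521 6199 = true := by decide +kernel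
theorem x169_4 : fam (wl [1,3,1,10,1,22,1,1,2]) 2386 3802 = true := by decide +kernel
theorem x169_5 : fam (wl [1,11,6,1,2,1,1,5,2]) 4974 9130 = true := by decide +kernel
theorem x169_6 : fam (wl [12,6,1,2,1,1,5,1,1]) 1961 323 = true := by decide +kernel
theorem x169_7 : fam (wl [4,1,10,1,22,1,1,1,1]) 4549 1851 = true := by decide +kernel
theorem x169_8 : fam (wl [1,1,1,1,16,8,3,3]) 1429 1722 = true := by decide +kernel
theorem x169_9 : fam (wl [1,1,1,10,1,2,22,3]) 4614 6062 = true := by decide +kernel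
theorem x169_10 : fam (wl [2,1,10,1,2,22,2,1]) 2323 1595 = true := by decide +kernel
theorem x169_11 : fam (wl [2,1,1,16,8,3,2,1]) 5508 4381 = true := by decide +kernel
theorem x169_12 : fam (wl [14,3,2,1,1,28]) 4131 578 = true := by decide +kernel
theorem x169_13 : fam (wl [1,13,3,2,1,1,27,1]) 2814 5237 = true := by decide +kernel
theorem x169_14 : fam (wl [22,3,1,1,44]) 5861 526 = true := by decide +kernel
theorem x169_15 : fam (wl [1,1,1,18,1,38,3]) 6697 8854 = true := by decide +kernel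
theorem x169_16 : fam (wl [2,1,18,1,38,2,1]) 254 173 = true := by decide +kernel
theorem x169_17 : fam (wl [1,21,3,1,1,43,1]) 1090 2085 = true := by decide +kernel
theorem x169_18 : fam (wl [1,1,6,1,3,7,1,2,1,3]) 2449 2618 = true := by decide +kernel
theorem x169_19 : fam (wl [1,1,1,3,1,5,2,1,8,3]) 76 98 = true := by decide +kernel
theorem x169_20 : fam (wl [2,1,3,1,5,2,1,8,2,1]) 6875 4923 = true := by decide +kernel
theorem x169_21 : fam (wl [2,6,1,3,7,1,2,1,2,1]) 4502 4193 = true := by decide +kernel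
theorem x169_22 : fam (wl [2,1,2,3,1,1,3,1,1,2,5]) 962 714 = true := by decide +kernel
theorem x169_23 : fam (wl [1,1,1,2,3,1,1,3,1,1,2,4,1]) 5995 7543 = true := by decide +kernel
theorem x169_24 : fam (wl [58,1,117]) 6902 234 = true := by decide +kernel
theorem x169_25 : fam (wl [1,57,1,116,1]) 57 115 = true := by decide +kernel
theorem x169_26 : fam (wl [5,1,13,6,1,11]) 2425 818 = true := by decide +kernel
theorem x169_27 : fam (wl [1,4,1,13,6,1,10,1]) 4534 7541 = true := by decide +kernel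
/-- words with first entry from 6921 to 6961 -/
def L169 : List (List ℕ × ℕ × ℕ) := [([1,1,9,1,1,2,3,4,1,3],398,418), ([1,2,1,20,10,2,1,2],1594,2382), ([3,1,20,10,2,1,1,1],5325,2695), ([2,9,1,1,2,3,4,1,2,1],6521,6199), ([1,3,1,10,1,22,1,1,2],2386,3802), ([1,11,6,1,2,1,1,5,2],4974,9130), ([12,6,1,2,1,1,5,1,1],1961,323), ([4,1,10,1,22,1,1,1,1],4549,1851), ([1,1,1,1,16,8,3,3],1429,1722), ([1,1,1,10,1,2,22,3],4614,6062), ([2,1,10,1,2,22,2,1],2323,1595), ([2,1,1,16,8,3,2,1],5508,4381), ([14,3,2,1,1,28],4131,578), ([1,13,3,2,1,1,27,1],2814,5237), ([22,3,1,1,44],5861,526), ([1,1,1,18,1,38,3],6697,8854), ([2,1,18,1,38,2,1],254,173), ([1,21,3,1,1,43,1],1090,2085), ([1,1,6,1,3,7,1,2,1,3],2449,2618), ([1,1,1,3,1,5,2,1,8,3],76,98), ([2,1,3,1,5,2,1,8,2,1],6875,4923), ([2,6,1,3,7,1,2,1,2,1],4502,4193), ([2,1,2,3,1,1,3,1,1,2,5],962,714), ([1,1,1,2,3,1,1,3,1,1,2,4,1],5995,7543), ([58,1,117],6902,234), ([1,57,1,116,1],57,115), ([5,1,13,6,1,11],2425,818), ([1,4,1,13,6,1,10,1],4534,7541)]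
theorem r169 : rgV L169 6921 21 = true := by decide +kernel
theorem f169 : ∀ p ∈ L169, fam (wl p.1) p.2.1 p.2.2 = true := by
  intro p hp
  simp only [L169, List.mem_cons, List.not_mem_nil, or_false] at hp
  rcases hp with rfl | rfl | rfl | rfl | rfl | rfl | rfl | rfl | rfl | rfl | rfl | rfl | rfl | rfl | rfl | rfl | rfl | rfl | rfl | rfl | rfl | rfl | rfl | rfl | rfl | rfl | rfl | rfl
  · exact x169_0
  · exact x169_1
  · exact x169_2
  · exact x169_3
  · exact x169_4
  · exact x169_5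
  · exact x169_6
  · exact x169_7
  · exact x169_8
  · exact x169_9
  · exact x169_10
  · exact x169_11
  · exact x169_12
  · exact x169_13
  · exact x169_14
  · exact x169_15
  · exact x169_16
  · exact x169_17
  · exact x169_18
  · exact x169_19
  · exact x169_20
  · exact x169_21
  · exact x169_22
  · exact x169_23
  · exact x169_24
  · exact x169_25
  · exact x169_26
  · exact x169_27

end Pool.Agent.V5helper47.EV
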