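import Pool.Agent.V5helper47.EV.S2

/-! Search, part of the half words. -/

set_option maxRecDepth 1000000

namespace Pool.Agent.V5helper47.EV

open H419R2 Pool.Agent.N911 Pool.Agent.V5helper47.CN

theorem x170_0 : fam (wl [59,118]) 59 2 = true := by decide +kernel
theorem x170_1 : fam (wl [4,2,3,2,1,6,1,8]) 6648 2998 = true := by decide +kernel
theorem x170_2 : fam (wl [1,2,6,4,2,12,1,2]) 832 1138 = true := by decide +kernel
theorem x170_3 : fam (wl [1,8,3,1,2,7,4,2]) 458 818 = true := by decide +kernel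
theorem x170_4 : fam (wl [9,3,1,2,7,4,1,1]) 6503 1403 = true := by decide +kernel
theorem x170_5 : fam (wl [3,6,4,2,12,1,1,1]) 6129 3879 = true := by decide +kernel
theorem x170_6 : fam (wl [1,3,2,3,2,1,6,1,7,1]) 313 487 = true := by decide +kernel
theorem x170_7 : fam (wl [1,58,117,1]) 6902 13573 = true := by decide +kernel
theorem x170_8 : fam (wl [5,1,4,2,2,1,1,1,11]) 1006 346 = true := by decide +kernel
theorem x170_9 : fam (wl [1,4,1,4,2,2,1,1,1,10,1]) 5959 9871 = true := by decide +kernel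
theorem x170_10 : fam (wl [1,1,1,19,39,3]) 2579 3410 = true := by decide +kernel
theorem x170_11 : fam (wl [2,1,19,39,2,1]) 4390 2977 = true := by decide +kernel
theorem x170_12 : fam (wl [1,30,1,1,3,15,2]) 2130 4126 = true := by decide +kernel
theorem x170_13 : fam (wl [31,1,1,3,15,1,1]) 4845 307 = true := by decide +kernel
theorem x170_14 : fam (wl [2,1,7,1,2,1,2,3,1,5]) 4227 2930 = true := by decide +kernel
theorem x170_15 : fam (wl [1,1,1,7,1,2,1,2,3,1,4,1]) 2748 3593 = true := by decide +kernel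
theorem x170_16 : fam (wl [1,1,1,2,1,6,1,2,1,6,3]) 3222 4094 = true := by decide +kernel
theorem x170_17 : fam (wl [2,1,2,1,6,1,2,1,6,2,1]) 3759 2743 = true := by decide +kernel
theorem x170_18 : fam (wl [7,1,2,3,1,1,2,15]) 5825 1514 = true := by decide +kernel
theorem x170_19 : fam (wl [6,1,11,5,1,13]) 1930 558 = true := by decide +kernel
theorem x170_20 : fam (wl [1,3,1,11,23,1,1,2]) 390 622 = true := by decide +kernel
theorem x170_21 : fam (wl [1,4,3,2,1,2,1,6,2,2]) 3482 5650 = true := by decide +kernel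
theorem x170_22 : fam (wl [5,3,2,1,2,1,6,2,1,1]) 3503 1323 = true := by decide +kernel
theorem x170_23 : fam (wl [4,1,11,23,1,1,1,1]) 6595 2683 = true := by decide +kernel
theorem x170_24 : fam (wl [1,5,1,11,5,1,12,1]) 5055 8651 = true := by decide +kernel
theorem x170_25 : fam (wl [1,6,1,2,3,1,1,2,14,1]) 1160 2021 = true := by decide +kernel
theorem x170_26 : fam (wl [1,1,8,4,1,1,1,1,3,1,3]) 5173 5470 = true := by decide +kernel
theorem x170_27 : fam (wl [2,8,4,1,1,1,1,3,1,2,1]) 1816 1713 = true := by decide +kernel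
/-- words with first entry from 6963 to 6999 -/
def L170 : List (List ℕ × ℕ × ℕ) := [([59,118],59,2), ([4,2,3,2,1,6,1,8],6648,2998), ([1,2,6,4,2,12,1,2],832,1138), ([1,8,3,1,2,7,4,2],458,818), ([9,3,1,2,7,4,1,1],6503,1403), ([3,6,4,2,12,1,1,1],6129,3879), ([1,3,2,3,2,1,6,1,7,1],313,487), ([1,58,117,1],6902,13573), ([5,1,4,2,2,1,1,1,11],1006,346), ([1,4,1,4,2,2,1,1,1,10,1],5959,9871), ([1,1,1,19,39,3],2579,3410), ([2,1,19,39,2,1],4390,2977), ([1,30,1,1,3,15,2],2130,4126), ([31,1,1,3,15,1,1],4845,307), ([2,1,7,1,2,1,2,3,1,5],4227,2930), ([1,1,1,7,1,2,1,2,3,1,4,1],2748,3593), ([1,1,1,2,1,6,1,2,1,6,3],3222,4094), ([2,1,2,1,6,1,2,1,6,2,1],3759,2743), ([7,1,2,3,1,1,2,15],5825,1514), ([6,1,11,5,1,13],1930,558), ([1,3,1,11,23,1,1,2],390,622), ([1,4,3,2,1,2,1,6,2,2],3482,5650), ([5,3,2,1,2,1,6,2,1,1],3503,1323), ([4,1,11,23,1,1,1,1],6595,2683), ([1,5,1,11,5,1,12,1],5055,8651), ([1,6,1,2,3,1,1,2,14,1],1160,2021), ([1,1,8,4,1,1,1,1,3,1,3],5173,5470), ([2,8,4,1,1,1,1,3,1,2,1],1816,1713)]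
theorem r170 : rgV L170 6963 19 = true := by decide +kernel
theorem f170 : ∀ p ∈ L170, fam (wl p.1) p.2.1 p.2.2 = true := by
  intro p hp
  simp only [L170, List.mem_cons, List.not_mem_nil, or_false] at hp
  rcases hp with rfl | rfl | rfl | rfl | rfl | rfl | rfl | rfl | rfl | rfl | rfl | rfl | rfl | rfl | rfl | rfl | rfl | rfl | rfl | rfl | rfl | rfl | rfl | rfl | rfl | rfl | rfl | rfl
  · exact x170_0
  · exact x170_1
  · exact x170_2
  · exact x170_3
  · exact x170_4
  · exact x170_5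
  · exact x170_6
  · exact x170_7
  · exact x170_8
  · exact x170_9
  · exact x170_10
  · exact x170_11
  · exact x170_12
  · exact x170_13
  · exact x170_14
  · exact x170_15
  · exact x170_16
  · exact x170_17
  · exact x170_18
  · exact x170_19
  · exact x170_20
  · exact x170_21
  · exact x170_22
  · exact x170_23
  · exact x170_24
  · exact x170_25
  · exact x170_26
  · exact x170_27

end Pool.Agent.V5helper47.EV
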