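import Pool.Agent.V5helper47.EV.S2

/-! Search, part of the half words. -/

set_option maxRecDepth 1000000

namespace Pool.Agent.V5helper47.EV

open H419R2 Pool.Agent.N911 Pool.Agent.V5helper47.CN

theorem x171_0 : fam (wl [2,9,1,1,1,4,1,4,4]) 6965 6622 = true := by decide +kernel
theorem x171_1 : fam (wl [1,1,9,1,1,1,4,1,4,3,1]) 34 37 = true := by decide +kernel
theorem x171_2 : fam (wl [1,1,13,2,4,6,1,3]) 1164 1206 = true := by decide +kernel
theorem x171_3 : fam (wl [2,13,2,4,6,1,2,1]) 5835 5627 = true := by decide +kernel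
theorem x171_4 : fam (wl [1,7,2,2,2,2,2,1,3,2]) 5666 9986 = true := by decide +kernel
theorem x171_5 : fam (wl [1,47,2,1,23,2]) 5147 10082 = true := by decide +kernel
theorem x171_6 : fam (wl [48,2,1,23,1,1]) 1860 77 = true := by decide +kernel
theorem x171_7 : fam (wl [8,2,2,2,2,2,1,3,1,1]) 1341 319 = true := by decide +kernel
theorem x171_8 : fam (wl [3,2,8,16,1,6]) 6459 3722 = true := by decide +kernel
theorem x171_9 : fam (wl [1,1,23,1,2,11,1,3]) 6805 6946 = true := by decide +kernel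
theorem x171_10 : fam (wl [1,2,2,3,1,1,3,1,1,4,1,2]) 943 1338 = true := by decide +kernel
theorem x171_11 : fam (wl [1,13,1,1,2,1,3,1,6,2]) 1289 2402 = true := by decide +kernel
theorem x171_12 : fam (wl [14,1,1,2,1,3,1,6,1,1]) 5720 785 = true := by decide +kernel
theorem x171_13 : fam (wl [3,2,3,1,1,3,1,1,4,1,1,1]) 6066 3529 = true := by decide +kernel
theorem x171_14 : fam (wl [2,23,1,2,11,1,2,1]) 204 201 = true := by decide +kernel
theorem x171_15 : fam (wl [1,2,2,8,16,1,5,1]) 550 785 = true := by decide +kernel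
theorem x171_16 : fam (wl [1,1,1,2,10,5,5,3]) 2319 2906 = true := by decide +kernel
theorem x171_17 : fam (wl [1,2,2,2,3,6,1,4,1,2]) 3917 5538 = true := by decide +kernel
theorem x171_18 : fam (wl [3,2,2,3,6,1,4,1,1,1]) 3098 1817 = true := by decide +kernel
theorem x171_19 : fam (wl [2,1,2,10,5,5,2,1]) 4696 3509 = true := by decide +kernel
theorem x171_20 : fam (wl [1,2,1,11,2,1,5,2,1,2]) 683 1018 = true := by decide +kernel
theorem x171_21 : fam (wl [3,1,11,2,1,5,2,1,1,1]) 6334 3233 = true := by decide +kernel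
theorem x171_22 : fam (wl [11,2,2,4,1,22]) 1289 226 = true := by decide +kernel
theorem x171_23 : fam (wl [1,10,2,2,4,1,21,1]) 5736 10469 = true := by decide +kernel
theorem x171_24 : fam (wl [2,3,1,1,1,2,2,4,1,1,4]) 5595 4918 = true := by decide +kernel
theorem x171_25 : fam (wl [1,1,1,1,1,1,3,1,8,4,3]) 5187 6398 = true := by decide +kernel
theorem x171_26 : fam (wl [2,1,1,1,1,3,1,8,4,2,1]) 1842 1413 = true := by decide +kernel
theorem x171_27 : fam (wl [1,1,3,1,1,1,2,2,4,1,1,3,1]) 1434 1609 = true := by decide +kernel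
theorem x171_28 : fam (wl [1,4,4,3,1,1,8,2,2]) 3707 5998 = true := by decide +kernel
theorem x171_29 : fam (wl [5,4,3,1,1,8,2,1,1]) 3330 1273 = true := by decide +kernel
/-- words with first entry from 7001 to 7039 -/
def L171 : List (List ℕ × ℕ × ℕ) := [([2,9,1,1,1,4,1,4,4],6965,6622), ([1,1,9,1,1,1,4,1,4,3,1],34,37), ([1,1,13,2,4,6,1,3],1164,1206), ([2,13,2,4,6,1,2,1],5835,5627), ([1,7,2,2,2,2,2,1,3,2],5666,9986), ([1,47,2,1,23,2],5147,10082), ([48,2,1,23,1,1],1860,77), ([8,2,2,2,2,2,1,3,1,1],1341,319), ([3,2,8,16,1,6],6459,3722), ([1,1,23,1,2,11,1,3],6805,6946), ([1,2,2,3,1,1,3,1,1,4,1,2],943,1338), ([1,13,1,1,2,1,3,1,6,2],1289,2402), ([14,1,1,2,1,3,1,6,1,1],5720,785), ([3,2,3,1,1,3,1,1,4,1,1,1],6066,3529), ([2,23,1,2,11,1,2,1],204,201), ([1,2,2,8,16,1,5,1],550,785), ([1,1,1,2,10,5,5,3],2319,2906), ([1,2,2,2,3,6,1,4,1,2],3917,5538), ([3,2,2,3,6,1,4,1,1,1],3098,1817), ([2,1,2,10,5,5,2,1],4696,3509), ([1,2,1,11,2,1,5,2,1,2],683,1018), ([3,1,11,2,1,5,2,1,1,1],6334,3233),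 ([11,2,2,4,1,22],1289,226), ([1,10,2,2,4,1,21,1],5736,10469), ([2,3,1,1,1,2,2,4,1,1,4],5595,4918), ([1,1,1,1,1,1,3,1,8,4,3],5187,6398), ([2,1,1,1,1,3,1,8,4,2,1],1842,1413), ([1,1,3,1,1,1,2,2,4,1,1,3,1],1434,1609), ([1,4,4,3,1,1,8,2,2],3707,5998), ([5,4,3,1,1,8,2,1,1],3330,1273)]
theorem r171 : rgV L171 7001 20 = true := by decide +kernel
theorem f171 : ∀ p ∈ L171, fam (wl p.1) p.2.1 p.2.2 = true := by
  intro p hp
  simp only [L171, List.mem_cons, List.not_mem_nil, or_false] at hp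
  rcases hp with rfl | rfl | rfl | rfl | rfl | rfl | rfl | rfl | rfl | rfl | rfl | rfl | rfl | rfl | rfl | rfl | rfl | rfl | rfl | rfl | rfl | rfl | rfl | rfl | rfl | rfl | rfl | rfl | rfl | rfl
  · exact x171_0
  · exact x171_1
  · exact x171_2
  · exact x171_3
  · exact x171_4
  · exact x171_5
  · exact x171_6
  · exact x171_7
  · exact x171_8
  · exact x171_9
  · exact x171_10
  · exact x171_11
  · exact x171_12
  · exact x171_13
  · exact x171_14
  · exact x171_15
  · exact x171_16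
  · exact x171_17
  · exact x171_18
  · exact x171_19
  · exact x171_20
  · exact x171_21
  · exact x171_22
  · exact x171_23
  · exact x171_24
  · exact x171_25
  · exact x171_26
  · exact x171_27
  · exact x171_28
  · exact x171_29

end Pool.Agent.V5helper47.EV
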