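import Pool.Agent.V5helper47.EV.S2

/-! Search, part of the half words. -/

set_option maxRecDepth 1000000

namespace Pool.Agent.V5helper47.EV

open H419R2 Pool.Agent.N911 Pool.Agent.V5helper47.CN

theorem x172_0 : fam (wl [19,1,3,1,1,39]) 1602 162 = true := by decide +kernel
theorem x172_1 : fam (wl [1,2,1,1,6,2,1,2,1,3,1,2]) 3166 4542 = true := by decide +kernel
theorem x172_2 : fam (wl [3,1,1,6,2,1,2,1,3,1,1,1]) 3873 2191 = true := by decide +kernel
theorem x172_3 : fam (wl [1,18,1,3,1,1,38,1]) 5437 10327 = true := by decide +kernel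
theorem x172_4 : fam (wl [4,1,1,6,13,9]) 5922 2610 = true := by decide +kernel
theorem x172_5 : fam (wl [1,3,1,1,6,13,8,1]) 1119 1747 = true := by decide +kernel
theorem x172_6 : fam (wl [2,1,2,5,1,2,2,1,2,5]) 416 310 = true := by decide +kernel
theorem x172_7 : fam (wl [1,1,4,9,4,1,1,1,1,3]) 882 978 = true := by decide +kernel
theorem x172_8 : fam (wl [2,4,9,4,1,1,1,1,2,1]) 6167 5499 = true := by decide +kernel
theorem x172_9 : fam (wl [1,1,1,2,5,1,2,2,1,2,4,1]) 6633 8327 = true := by decide +kernel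
theorem x172_10 : fam (wl [2,3,2,4,1,1,1,2,1,1,4]) 286 250 = true := by decide +kernel
theorem x172_11 : fam (wl [1,1,3,2,4,1,1,1,2,1,1,3,1]) 6769 7627 = true := by decide +kernel
theorem x172_12 : fam (wl [1,2,5,1,1,1,3,11,1,2]) 5307 7274 = true := by decide +kernel
theorem x172_13 : fam (wl [3,5,1,1,1,3,11,1,1,1]) 1748 1101 = true := by decide +kernel
theorem x172_14 : fam (wl [12,2,1,1,3,1,24]) 508 82 = true := by decide +kernel
theorem x172_15 : fam (wl [1,3,2,8,1,3,1,2,1,1,2]) 3383 5254 = true := by decide +kernel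
theorem x172_16 : fam (wl [4,2,8,1,3,1,2,1,1,1,1]) 3678 1645 = true := by decide +kernel
theorem x172_17 : fam (wl [1,11,2,1,1,3,1,23,1]) 6553 12051 = true := by decide +kernel
theorem x172_18 : fam (wl [34,2,1,68]) 309 18 = true := by decide +kernel
theorem x172_19 : fam (wl [1,15,5,2,1,1,7,2]) 2354 4418 = true := by decide +kernel
theorem x172_20 : fam (wl [16,5,2,1,1,7,1,1]) 4717 583 = true := by decide +kernel
theorem x172_21 : fam (wl [1,33,2,1,67,1]) 6762 13133 = true := by decide +kernel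
theorem x172_22 : fam (wl [5,2,4,1,9,1,10]) 638 234 = true := by decide +kernel
theorem x172_23 : fam (wl [1,4,2,4,1,9,1,9,1]) 6439 10519 = true := by decide +kernel
/-- words with first entry from 7041 to 7079 -/
def L172 : List (List ℕ × ℕ × ℕ) := [([19,1,3,1,1,39],1602,162), ([1,2,1,1,6,2,1,2,1,3,1,2],3166,4542), ([3,1,1,6,2,1,2,1,3,1,1,1],3873,2191), ([1,18,1,3,1,1,38,1],5437,10327), ([4,1,1,6,13,9],5922,2610), ([1,3,1,1,6,13,8,1],1119,1747), ([2,1,2,5,1,2,2,1,2,5],416,310), ([1,1,4,9,4,1,1,1,1,3],882,978), ([2,4,9,4,1,1,1,1,2,1],6167,5499), ([1,1,1,2,5,1,2,2,1,2,4,1],6633,8327), ([2,3,2,4,1,1,1,2,1,1,4],286,250), ([1,1,3,2,4,1,1,1,2,1,1,3,1],6769,7627), ([1,2,5,1,1,1,3,11,1,2],5307,7274), ([3,5,1,1,1,3,11,1,1,1],1748,1101), ([12,2,1,1,3,1,24],508,82), ([1,3,2,8,1,3,1,2,1,1,2],3383,5254), ([4,2,8,1,3,1,2,1,1,1,1],3678,1645), ([1,11,2,1,1,3,1,23,1],6553,12051), ([34,2,1,68],309,18), ([1,15,5,2,1,1,7,2],2354,4418), ([16,5,2,1,1,7,1,1],4717,583), ([1,33,2,1,67,1],6762,13133),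 ([5,2,4,1,9,1,10],638,234), ([1,4,2,4,1,9,1,9,1],6439,10519)]
theorem r172 : rgV L172 7041 20 = true := by decide +kernel
theorem f172 : ∀ p ∈ L172, fam (wl p.1) p.2.1 p.2.2 = true := by
  intro p hp
  simp only [L172, List.mem_cons, List.not_mem_nil, or_false] at hp
  rcases hp with rfl | rfl | rfl | rfl | rfl | rfl | rfl | rfl | rfl | rfl | rfl | rfl | rfl | rfl | rfl | rfl | rfl | rfl | rfl | rfl | rfl | rfl | rfl | rfl
  · exact x172_0
  · exact x172_1
  · exact x172_2
  · exact x172_3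
  · exact x172_4
  · exact x172_5
  · exact x172_6
  · exact x172_7
  · exact x172_8
  · exact x172_9
  · exact x172_10
  · exact x172_11
  · exact x172_12
  · exact x172_13
  · exact x172_14
  · exact x172_15
  · exact x172_16
  · exact x172_17
  · exact x172_18
  · exact x172_19
  · exact x172_20
  · exact x172_21
  · exact x172_22
  · exact x172_23

end Pool.Agent.V5helper47.EV
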