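import Pool.Agent.V5helper47.EV.S2

/-! Search, part of the half words. -/

set_option maxRecDepth 1000000

namespace Pool.Agent.V5helper47.EV

open H419R2 Pool.Agent.N911 Pool.Agent.V5helper47.CN

theorem x173_0 : fam (wl [9,3,2,2,1,1,18]) 5622 1210 = true := by decide +kernel
theorem x173_1 : fam (wl [1,2,1,4,2,1,5,2,2,1,2]) 1267 1870 = true := by decide +kernel
theorem x173_2 : fam (wl [3,1,4,2,1,5,2,2,1,1,1]) 5812 3049 = true := by decide +kernel
theorem x173_3 : fam (wl [1,8,3,2,2,1,1,17,1]) 1457 2603 = true := by decide +kernel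
theorem x173_4 : fam (wl [4,1,4,3,1,1,1,1,1,9]) 6393 2658 = true := by decide +kernel
theorem x173_5 : fam (wl [1,4,6,1,2,13,2,2]) 2041 3290 = true := by decide +kernel
theorem x173_6 : fam (wl [5,6,1,2,13,2,1,1]) 5038 1957 = true := by decide +kernel
theorem x173_7 : fam (wl [1,3,1,4,3,1,1,1,1,1,8,1]) 686 1089 = true := by decide +kernel
theorem x173_8 : fam (wl [1,2,1,2,5,10,1,2,1,2]) 3006 4382 = true := by decide +kernel
theorem x173_9 : fam (wl [1,19,2,2,2,1,9,2]) 295 562 = true := by decide +kernel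
theorem x173_10 : fam (wl [20,2,2,2,1,9,1,1]) 6786 665 = true := by decide +kernel
theorem x173_11 : fam (wl [3,1,2,5,10,1,2,1,1,1]) 4075 2211 = true := by decide +kernel
theorem x173_12 : fam (wl [3,1,1,4,2,1,9,7]) 3967 2234 = true := by decide +kernel
theorem x173_13 : fam (wl [1,1,1,2,1,3,1,2,1,1,6,3]) 5095 6466 = true := by decide +kernel
theorem x173_14 : fam (wl [1,2,3,8,4,6,1,2]) 5931 8290 = true := by decide +kernel
theorem x173_15 : fam (wl [1,18,3,6,9,2]) 28 54 = true := by decide +kernel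
theorem x173_16 : fam (wl [19,3,6,9,1,1]) 7059 731 = true := by decide +kernel
theorem x173_17 : fam (wl [3,3,8,4,6,1,1,1]) 1156 697 = true := by decide +kernel
theorem x173_18 : fam (wl [2,1,2,1,3,1,2,1,1,6,2,1]) 1992 1457 = true := by decide +kernel
theorem x173_19 : fam (wl [1,2,1,1,4,2,1,9,6,1]) 3120 4485 = true := by decide +kernel
theorem x173_20 : fam (wl [4,1,5,1,1,3,2,1,9]) 3020 1246 = true := by decide +kernel
theorem x173_21 : fam (wl [2,1,1,1,9,1,4,3,5]) 2207 1662 = true := by decide +kernel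
theorem x173_22 : fam (wl [1,1,1,1,1,9,1,4,3,4,1]) 4888 6097 = true := by decide +kernel
theorem x173_23 : fam (wl [1,3,1,5,1,1,3,2,1,8,1]) 4075 6471 = true := by decide +kernel
theorem x173_24 : fam (wl [2,15,2,2,1,7,4]) 2046 1982 = true := by decide +kernel
theorem x173_25 : fam (wl [1,1,15,2,2,1,7,3,1]) 5055 5215 = true := by decide +kernel
theorem x173_26 : fam (wl [5,2,2,1,2,5,1,10]) 1133 418 = true := by decide +kernel
theorem x173_27 : fam (wl [2,13,1,1,3,1,6,4]) 2818 2718 = true := by decide +kernel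
theorem x173_28 : fam (wl [1,1,13,1,1,3,1,6,3,1]) 4293 4447 = true := by decide +kernel
theorem x173_29 : fam (wl [1,4,2,2,1,2,5,1,9,1]) 5978 9753 = true := by decide +kernel
/-- words with first entry from 7081 to 7119 -/
def L173 : List (List ℕ × ℕ × ℕ) := [([9,3,2,2,1,1,18],5622,1210), ([1,2,1,4,2,1,5,2,2,1,2],1267,1870), ([3,1,4,2,1,5,2,2,1,1,1],5812,3049), ([1,8,3,2,2,1,1,17,1],1457,2603), ([4,1,4,3,1,1,1,1,1,9],6393,2658), ([1,4,6,1,2,13,2,2],2041,3290), ([5,6,1,2,13,2,1,1],5038,1957), ([1,3,1,4,3,1,1,1,1,1,8,1],686,1089), ([1,2,1,2,5,10,1,2,1,2],3006,4382), ([1,19,2,2,2,1,9,2],295,562), ([20,2,2,2,1,9,1,1],6786,665), ([3,1,2,5,10,1,2,1,1,1],4075,2211), ([3,1,1,4,2,1,9,7],3967,2234), ([1,1,1,2,1,3,1,2,1,1,6,3],5095,6466), ([1,2,3,8,4,6,1,2],5931,8290), ([1,18,3,6,9,2],28,54), ([19,3,6,9,1,1],7059,731), ([3,3,8,4,6,1,1,1],1156,697), ([2,1,2,1,3,1,2,1,1,6,2,1],1992,1457), ([1,2,1,1,4,2,1,9,6,1],3120,4485), ([4,1,5,1,1,3,2,1,9],3020,1246),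 ([2,1,1,1,9,1,4,3,5],2207,1662), ([1,1,1,1,1,9,1,4,3,4,1],4888,6097), ([1,3,1,5,1,1,3,2,1,8,1],4075,6471), ([2,15,2,2,1,7,4],2046,1982), ([1,1,15,2,2,1,7,3,1],5055,5215), ([5,2,2,1,2,5,1,10],1133,418), ([2,13,1,1,3,1,6,4],2818,2718), ([1,1,13,1,1,3,1,6,3,1],4293,4447), ([1,4,2,2,1,2,5,1,9,1],5978,9753)]
theorem r173 : rgV L173 7081 20 = true := by decide +kernel
theorem f173 : ∀ p ∈ L173, fam (wl p.1) p.2.1 p.2.2 = true := by
  intro p hp
  simp only [L173, List.mem_cons, List.not_mem_nil, or_false] at hp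
  rcases hp with rfl | rfl | rfl | rfl | rfl | rfl | rfl | rfl | rfl | rfl | rfl | rfl | rfl | rfl | rfl | rfl | rfl | rfl | rfl | rfl | rfl | rfl | rfl | rfl | rfl | rfl | rfl | rfl | rfl | rfl
  · exact x173_0
  · exact x173_1
  · exact x173_2
  · exact x173_3
  · exact x173_4
  · exact x173_5
  · exact x173_6
  · exact x173_7
  · exact x173_8
  · exact x173_9
  · exact x173_10
  · exact x173_11
  · exact x173_12
  · exact x173_13
  · exact x173_14
  · exact x173_15
  · exact x173_16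
  · exact x173_17
  · exact x173_18
  · exact x173_19
  · exact x173_20
  · exact x173_21
  · exact x173_22
  · exact x173_23
  · exact x173_24
  · exact x173_25
  · exact x173_26
  · exact x173_27
  · exact x173_28
  · exact x173_29

end Pool.Agent.V5helper47.EV
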