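import Pool.Agent.V5helper47.EV.S2

/-! Search, part of the half words. -/

set_option maxRecDepth 1000000

namespace Pool.Agent.V5helper47.EV

open H419R2 Pool.Agent.N911 Pool.Agent.V5helper47.CN

theorem x174_0 : fam (wl [2,4,2,3,1,1,4,2,4]) 3202 2878 = true := by decide +kernel
theorem x174_1 : fam (wl [1,1,4,2,3,1,1,4,2,3,1]) 3917 4315 = true := by decide +kernel
theorem x174_2 : fam (wl [2,1,1,2,3,2,1,1,5,5]) 3783 2922 = true := by decide +kernel
theorem x174_3 : fam (wl [1,1,1,1,2,3,2,1,1,5,4,1]) 3336 4097 = true := by decide +kernel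
theorem x174_4 : fam (wl [1,2,1,1,3,2,4,1,1,3,1,2]) 6340 9122 = true := by decide +kernel
theorem x174_5 : fam (wl [1,4,3,1,3,1,1,7,2,2]) 3887 6298 = true := by decide +kernel
theorem x174_6 : fam (wl [5,3,1,3,1,1,7,2,1,1]) 3234 1229 = true := by decide +kernel
theorem x174_7 : fam (wl [3,1,1,3,2,4,1,1,3,1,1,1]) 781 439 = true := by decide +kernel
theorem x174_8 : fam (wl [7,11,1,5,14]) 7049 1990 = true := by decide +kernel
theorem x174_9 : fam (wl [1,6,11,1,5,13,1]) 76 133 = true := by decide +kernel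
theorem x174_10 : fam (wl [1,3,1,3,1,2,2,8,1,1,2]) 3487 5518 = true := by decide +kernel
theorem x174_11 : fam (wl [4,1,3,1,2,2,8,1,1,1,1]) 3640 1521 = true := by decide +kernel
theorem x174_12 : fam (wl [1,3,3,2,2,1,4,1,1,1,1,2]) 1482 2274 = true := by decide +kernel
theorem x174_13 : fam (wl [4,3,2,2,1,4,1,1,1,1,1,1]) 5645 2631 = true := by decide +kernel
theorem x174_14 : fam (wl [6,1,1,4,9,13]) 2366 722 = true := by decide +kernel
theorem x174_15 : fam (wl [1,4,1,1,7,3,1,3,2,2]) 1573 2578 = true := by decide +kernel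
theorem x174_16 : fam (wl [5,1,1,7,3,1,3,2,1,1]) 5556 2009 = true := by decide +kernel
theorem x174_17 : fam (wl [1,5,1,1,4,9,12,1]) 4763 8075 = true := by decide +kernel
theorem x174_18 : fam (wl [2,1,3,1,2,1,2,1,2,1,1,5]) 2122 1522 = true := by decide +kernel
theorem x174_19 : fam (wl [1,3,3,1,4,2,2,1,1,1,1,2]) 1412 2162 = true := by decide +kernel
theorem x174_20 : fam (wl [4,3,1,4,2,2,1,1,1,1,1,1]) 5725 2687 = true := by decide +kernel
theorem x174_21 : fam (wl [1,1,1,3,1,2,1,2,1,2,1,1,4,1]) 5015 6435 = true := by decide +kernel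
theorem x174_22 : fam (wl [3,1,1,7,1,16,7]) 2460 1394 = true := by decide +kernel
theorem x174_23 : fam (wl [1,2,1,1,7,1,16,6,1]) 4689 6723 = true := by decide +kernel
theorem x174_24 : fam (wl [6,13,1,6,12]) 91 30 = true := by decide +kernel
theorem x174_25 : fam (wl [1,2,2,1,1,2,1,6,5,1,2]) 5114 7210 = true := by decide +kernel
theorem x174_26 : fam (wl [3,2,1,1,2,1,6,5,1,1,1]) 2037 1203 = true := by decide +kernel
theorem x174_27 : fam (wl [1,5,13,1,6,11,1]) 7060 11797 = true := by decide +kernel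
theorem x174_28 : fam (wl [2,3,2,1,1,1,4,2,1,1,4]) 971 846 = true := by decide +kernel
theorem x174_29 : fam (wl [1,1,3,2,1,1,1,4,2,1,1,3,1]) 6186 6985 = true := by decide +kernel
/-- words with first entry from 7121 to 7167 -/
def L174 : List (List ℕ × ℕ × ℕ) := [([2,4,2,3,1,1,4,2,4],3202,2878), ([1,1,4,2,3,1,1,4,2,3,1],3917,4315), ([2,1,1,2,3,2,1,1,5,5],3783,2922), ([1,1,1,1,2,3,2,1,1,5,4,1],3336,4097), ([1,2,1,1,3,2,4,1,1,3,1,2],6340,9122), ([1,4,3,1,3,1,1,7,2,2],3887,6298), ([5,3,1,3,1,1,7,2,1,1],3234,1229), ([3,1,1,3,2,4,1,1,3,1,1,1],781,439), ([7,11,1,5,14],7049,1990), ([1,6,11,1,5,13,1],76,133), ([1,3,1,3,1,2,2,8,1,1,2],3487,5518), ([4,1,3,1,2,2,8,1,1,1,1],3640,1521), ([1,3,3,2,2,1,4,1,1,1,1,2],1482,2274), ([4,3,2,2,1,4,1,1,1,1,1,1],5645,2631), ([6,1,1,4,9,13],2366,722), ([1,4,1,1,7,3,1,3,2,2],1573,2578), ([5,1,1,7,3,1,3,2,1,1],5556,2009), ([1,5,1,1,4,9,12,1],4763,8075), ([2,1,3,1,2,1,2,1,2,1,1,5],2122,1522), ([1,3,3,1,4,2,2,1,1,1,1,2],1412,2162),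 ([4,3,1,4,2,2,1,1,1,1,1,1],5725,2687), ([1,1,1,3,1,2,1,2,1,2,1,1,4,1],5015,6435), ([3,1,1,7,1,16,7],2460,1394), ([1,2,1,1,7,1,16,6,1],4689,6723), ([6,13,1,6,12],91,30), ([1,2,2,1,1,2,1,6,5,1,2],5114,7210), ([3,2,1,1,2,1,6,5,1,1,1],2037,1203), ([1,5,13,1,6,11,1],7060,11797), ([2,3,2,1,1,1,4,2,1,1,4],971,846), ([1,1,3,2,1,1,1,4,2,1,1,3,1],6186,6985)]
theorem r174 : rgV L174 7121 24 = true := by decide +kernel
theorem f174 : ∀ p ∈ L174, fam (wl p.1) p.2.1 p.2.2 = true := by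
  intro p hp
  simp only [L174, List.mem_cons, List.not_mem_nil, or_false] at hp
  rcases hp with rfl | rfl | rfl | rfl | rfl | rfl | rfl | rfl | rfl | rfl | rfl | rfl | rfl | rfl | rfl | rfl | rfl | rfl | rfl | rfl | rfl | rfl | rfl | rfl | rfl | rfl | rfl | rfl | rfl | rfl
  · exact x174_0
  · exact x174_1
  · exact x174_2
  · exact x174_3
  · exact x174_4
  · exact x174_5
  · exact x174_6
  · exact x174_7
  · exact x174_8
  · exact x174_9
  · exact x174_10
  · exact x174_11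
  · exact x174_12
  · exact x174_13
  · exact x174_14
  · exact x174_15
  · exact x174_16
  · exact x174_17
  · exact x174_18
  · exact x174_19
  · exact x174_20
  · exact x174_21
  · exact x174_22
  · exact x174_23
  · exact x174_24
  · exact x174_25
  · exact x174_26
  · exact x174_27
  · exact x174_28
  · exact x174_29

end Pool.Agent.V5helper47.EV
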