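import Pool.Agent.V5helper47.EV.S2

/-! Search, part of the half words. -/

set_option maxRecDepth 1000000

namespace Pool.Agent.V5helper47.EV

open H419R2 Pool.Agent.N911 Pool.Agent.V5helper47.CN

theorem x175_0 : fam (wl [5,3,1,2,5,1,1,10]) 1692 642 = true := by decide +kernel
theorem x175_1 : fam (wl [1,4,1,2,1,1,2,3,1,2,2,2]) 1295 2138 = true := by decide +kernel
theorem x175_2 : fam (wl [5,1,2,1,1,2,3,1,2,2,1,1]) 5872 2053 = true := by decide +kernel
theorem x175_3 : fam (wl [1,4,3,1,2,5,1,1,9,1]) 5475 8875 = true := by decide +kernel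
theorem x175_4 : fam (wl [1,1,1,4,5,1,2,9,3]) 2813 3622 = true := by decide +kernel
theorem x175_5 : fam (wl [2,1,4,5,1,2,9,2,1]) 4362 3109 = true := by decide +kernel
theorem x175_6 : fam (wl [1,10,1,6,3,2,5,2]) 4845 8874 = true := by decide +kernel
theorem x175_7 : fam (wl [11,1,6,3,2,5,1,1]) 2330 393 = true := by decide +kernel
theorem x175_8 : fam (wl [1,1,12,3,1,1,1,5,1,3]) 5256 5462 = true := by decide +kernel
theorem x175_9 : fam (wl [1,4,2,1,2,2,2,5,2,2]) 1124 1830 = true := by decide +kernel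
theorem x175_10 : fam (wl [5,2,1,2,2,2,5,2,1,1]) 6053 2255 = true := by decide +kernel
theorem x175_11 : fam (wl [2,12,3,1,1,1,5,1,2,1]) 1921 1847 = true := by decide +kernel
theorem x175_12 : fam (wl [1,13,1,3,7,1,6,2]) 4965 9258 = true := by decide +kernel
theorem x175_13 : fam (wl [14,1,3,7,1,6,1,1]) 2220 301 = true := by decide +kernel
theorem x175_14 : fam (wl [1,3,20,1,9,1,1,1,2]) 2612 3934 = true := by decide +kernel
theorem x175_15 : fam (wl [4,20,1,9,1,1,1,1,1]) 4579 2263 = true := by decide +kernel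
theorem x175_16 : fam (wl [9,2,1,2,1,2,1,18]) 1358 290 = true := by decide +kernel
theorem x175_17 : fam (wl [1,8,2,1,2,1,2,1,17,1]) 5833 10423 = true := by decide +kernel
theorem x175_18 : fam (wl [59,1,119]) 7139 238 = true := by decide +kernel
theorem x175_19 : fam (wl [6,2,1,3,1,1,2,1,12]) 19 6 = true := by decide +kernel
theorem x175_20 : fam (wl [1,5,2,1,3,1,1,2,1,11,1]) 7178 12101 = true := by decide +kernel
theorem x175_21 : fam (wl [1,58,1,118,1]) 58 117 = true := by decide +kernel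
theorem x175_22 : fam (wl [60,120]) 60 2 = true := by decide +kernel
theorem x175_23 : fam (wl [1,1,1,5,2,1,2,1,11,3]) 2852 3698 = true := by decide +kernel
theorem x175_24 : fam (wl [2,1,5,2,1,2,1,11,2,1]) 4347 3059 = true := by decide +kernel
theorem x175_25 : fam (wl [1,59,119,1]) 7139 14043 = true := by decide +kernel
theorem x175_26 : fam (wl [3,27,1,13,6]) 4338 2858 = true := by decide +kernel
theorem x175_27 : fam (wl [1,2,27,1,13,5,1]) 2867 3847 = true := by decide +kernel
/-- words with first entry from 7169 to 7207 -/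
def L175 : List (List ℕ × ℕ × ℕ) := [([5,3,1,2,5,1,1,10],1692,642), ([1,4,1,2,1,1,2,3,1,2,2,2],1295,2138), ([5,1,2,1,1,2,3,1,2,2,1,1],5872,2053), ([1,4,3,1,2,5,1,1,9,1],5475,8875), ([1,1,1,4,5,1,2,9,3],2813,3622), ([2,1,4,5,1,2,9,2,1],4362,3109), ([1,10,1,6,3,2,5,2],4845,8874), ([11,1,6,3,2,5,1,1],2330,393), ([1,1,12,3,1,1,1,5,1,3],5256,5462), ([1,4,2,1,2,2,2,5,2,2],1124,1830), ([5,2,1,2,2,2,5,2,1,1],6053,2255), ([2,12,3,1,1,1,5,1,2,1],1921,1847), ([1,13,1,3,7,1,6,2],4965,9258), ([14,1,3,7,1,6,1,1],2220,301), ([1,3,20,1,9,1,1,1,2],2612,3934), ([4,20,1,9,1,1,1,1,1],4579,2263), ([9,2,1,2,1,2,1,18],1358,290), ([1,8,2,1,2,1,2,1,17,1],5833,10423), ([59,1,119],7139,238), ([6,2,1,3,1,1,2,1,12],19,6), ([1,5,2,1,3,1,1,2,1,11,1],7178,12101), ([1,58,1,118,1],58,117), ([60,120],60,2), ([1,1,1,5,2,1,2,1,11,3],2852,3698), ([2,1,5,2,1,2,1,11,2,1],4347,3059), ([1,59,119,1],7139,14043), ([3,27,1,13,6],4338,2858), ([1,2,27,1,13,5,1],2867,3847)]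
theorem r175 : rgV L175 7169 20 = true := by decide +kernel
theorem f175 : ∀ p ∈ L175, fam (wl p.1) p.2.1 p.2.2 = true := by
  intro p hp
  simp only [L175, List.mem_cons, List.not_mem_nil, or_false] at hp
  rcases hp with rfl | rfl | rfl | rfl | rfl | rfl | rfl | rfl | rfl | rfl | rfl | rfl | rfl | rfl | rfl | rfl | rfl | rfl | rfl | rfl | rfl | rfl | rfl | rfl | rfl | rfl | rfl | rfl
  · exact x175_0
  · exact x175_1
  · exact x175_2
  · exact x175_3
  · exact x175_4
  · exact x175_5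
  · exact x175_6
  · exact x175_7
  · exact x175_8
  · exact x175_9
  · exact x175_10
  · exact x175_11
  · exact x175_12
  · exact x175_13
  · exact x175_14
  · exact x175_15
  · exact x175_16
  · exact x175_17
  · exact x175_18
  · exact x175_19
  · exact x175_20
  · exact x175_21
  · exact x175_22
  · exact x175_23
  · exact x175_24
  · exact x175_25
  · exact x175_26
  · exact x175_27

end Pool.Agent.V5helper47.EV
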