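import Pool.Agent.V5helper47.EV.S2

/-! Search, part of the half words. -/

set_option maxRecDepth 1000000

namespace Pool.Agent.V5helper47.EV

open H419R2 Pool.Agent.N911 Pool.Agent.V5helper47.CN

theorem x176_0 : fam (wl [4,2,1,1,3,1,1,3,1,8]) 2138 974 = true := by decide +kernel
theorem x176_1 : fam (wl [2,1,15,1,2,7,1,5]) 6612 4498 = true := by decide +kernel
theorem x176_2 : fam (wl [1,1,1,15,1,2,7,1,4,1]) 595 787 = true := by decide +kernel
theorem x176_3 : fam (wl [1,3,2,1,1,3,1,1,3,1,7,1]) 5069 7831 = true := by decide +kernel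
theorem x176_4 : fam (wl [34,1,2,69]) 312 18 = true := by decide +kernel
theorem x176_5 : fam (wl [1,33,1,2,68,1]) 6897 13399 = true := by decide +kernel
theorem x176_6 : fam (wl [2,41,1,20,4]) 2483 2454 = true := by decide +kernel
theorem x176_7 : fam (wl [1,14,3,1,7,7,2]) 5469 10222 = true := by decide +kernel
theorem x176_8 : fam (wl [15,3,1,7,7,1,1]) 1746 229 = true := by decide +kernel
theorem x176_9 : fam (wl [1,1,41,1,20,3,1]) 4732 4789 = true := by decide +kernel
theorem x176_10 : fam (wl [2,1,1,6,2,1,13,5]) 4213 3322 = true := by decide +kernel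
theorem x176_11 : fam (wl [1,1,1,1,6,2,1,13,4,1]) 3004 3641 = true := by decide +kernel
theorem x176_12 : fam (wl [22,1,2,2,45]) 6110 538 = true := by decide +kernel
theorem x176_13 : fam (wl [1,83,1,41,2]) 1826 3610 = true := by decide +kernel
theorem x176_14 : fam (wl [84,1,41,1,1]) 5395 127 = true := by decide +kernel
theorem x176_15 : fam (wl [1,21,1,2,2,44,1]) 1111 2127 = true := by decide +kernel
theorem x176_16 : fam (wl [2,1,1,2,6,3,5,5]) 3660 2822 = true := by decide +kernel
theorem x176_17 : fam (wl [1,1,3,4,1,2,9,1,1,3]) 6467 7338 = true := by decide +kernel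
theorem x176_18 : fam (wl [1,4,1,7,2,1,3,2,2,2]) 6247 10370 = true := by decide +kernel
theorem x176_19 : fam (wl [1,84,42,2]) 5398 10670 = true := by decide +kernel
theorem x176_20 : fam (wl [85,42,1,1]) 1827 43 = true := by decide +kernel
theorem x176_21 : fam (wl [5,1,7,2,1,3,2,2,1,1]) 978 333 = true := by decide +kernel
theorem x176_22 : fam (wl [2,3,4,1,2,9,1,1,2,1]) 758 657 = true := by decide +kernel
theorem x176_23 : fam (wl [1,1,1,1,2,6,3,5,4,1]) 3565 4383 = true := by decide +kernel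
theorem x176_24 : fam (wl [4,2,1,5,1,2,2,1,8]) 361 166 = true := by decide +kernel
theorem x176_25 : fam (wl [1,1,15,1,1,3,7,1,3]) 1984 2046 = true := by decide +kernel
theorem x176_26 : fam (wl [2,15,1,1,3,7,1,2,1]) 5245 5083 = true := by decide +kernel
theorem x176_27 : fam (wl [1,3,2,1,5,1,2,2,1,7,1]) 6868 10581 = true := by decide +kernel
/-- words with first entry from 7209 to 7231 -/
def L176 : List (List ℕ × ℕ × ℕ) := [([4,2,1,1,3,1,1,3,1,8],2138,974), ([2,1,15,1,2,7,1,5],6612,4498), ([1,1,1,15,1,2,7,1,4,1],595,787), ([1,3,2,1,1,3,1,1,3,1,7,1],5069,7831), ([34,1,2,69],312,18), ([1,33,1,2,68,1],6897,13399), ([2,41,1,20,4],2483,2454), ([1,14,3,1,7,7,2],5469,10222), ([15,3,1,7,7,1,1],1746,229), ([1,1,41,1,20,3,1],4732,4789), ([2,1,1,6,2,1,13,5],4213,3322), ([1,1,1,1,6,2,1,13,4,1],3004,3641), ([22,1,2,2,45],6110,538), ([1,83,1,41,2],1826,3610), ([84,1,41,1,1],5395,127), ([1,21,1,2,2,44,1],1111,2127), ([2,1,1,2,6,3,5,5],3660,2822), ([1,1,3,4,1,2,9,1,1,3],6467,7338),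 ([1,4,1,7,2,1,3,2,2,2],6247,10370), ([1,84,42,2],5398,10670), ([85,42,1,1],1827,43), ([5,1,7,2,1,3,2,2,1,1],978,333), ([2,3,4,1,2,9,1,1,2,1],758,657), ([1,1,1,1,2,6,3,5,4,1],3565,4383), ([4,2,1,5,1,2,2,1,8],361,166), ([1,1,15,1,1,3,7,1,3],1984,2046), ([2,15,1,1,3,7,1,2,1],5245,5083), ([1,3,2,1,5,1,2,2,1,7,1],6868,10581)]
theorem r176 : rgV L176 7209 12 = true := by decide +kernel
theorem f176 : ∀ p ∈ L176, fam (wl p.1) p.2.1 p.2.2 = true := by
  intro p hp
  simp only [L176, List.mem_cons, List.not_mem_nil, or_false] at hp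
  rcases hp with rfl | rfl | rfl | rfl | rfl | rfl | rfl | rfl | rfl | rfl | rfl | rfl | rfl | rfl | rfl | rfl | rfl | rfl | rfl | rfl | rfl | rfl | rfl | rfl | rfl | rfl | rfl | rfl
  · exact x176_0
  · exact x176_1
  · exact x176_2
  · exact x176_3
  · exact x176_4
  · exact x176_5
  · exact x176_6
  · exact x176_7
  · exact x176_8
  · exact x176_9
  · exact x176_10
  · exact x176_11
  · exact x176_12
  · exact x176_13
  · exact x176_14
  · exact x176_15
  · exact x176_16
  · exact x176_17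
  · exact x176_18
  · exact x176_19
  · exact x176_20
  · exact x176_21
  · exact x176_22
  · exact x176_23
  · exact x176_24
  · exact x176_25
  · exact x176_26
  · exact x176_27

end Pool.Agent.V5helper47.EV
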