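import Pool.Agent.V5helper47.EV.S2

/-! Search, part of the half words. -/

set_option maxRecDepth 1000000

namespace Pool.Agent.V5helper47.EV

open H419R2 Pool.Agent.N911 Pool.Agent.V5helper47.CN

theorem x177_0 : fam (wl [2,42,21,4]) 1127 1114 = true := by decide +kernel
theorem x177_1 : fam (wl [1,5,4,1,1,3,1,1,1,1,2,2]) 5301 8898 = true := by decide +kernel
theorem x177_2 : fam (wl [6,4,1,1,3,1,1,1,1,2,1,1]) 1930 621 = true := by decide +kernel
theorem x177_3 : fam (wl [1,1,42,21,3,1]) 6104 6177 = true := by decide +kernel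
theorem x177_4 : fam (wl [3,28,14,6]) 5297 3490 = true := by decide +kernel
theorem x177_5 : fam (wl [1,2,28,14,5,1]) 1944 2609 = true := by decide +kernel
theorem x177_6 : fam (wl [1,19,1,1,1,4,1,9,2]) 6926 13182 = true := by decide +kernel
theorem x177_7 : fam (wl [20,1,1,1,4,1,9,1,1]) 319 31 = true := by decide +kernel
theorem x177_8 : fam (wl [3,1,4,2,2,2,1,1,1,7]) 4582 2402 = true := by decide +kernel
theorem x177_9 : fam (wl [3,1,1,8,17,7]) 1648 934 = true := by decide +kernel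
theorem x177_10 : fam (wl [1,2,1,1,8,17,6,1]) 5599 8027 = true := by decide +kernel
theorem x177_11 : fam (wl [1,2,1,4,2,2,2,1,1,1,6,1]) 2665 3935 = true := by decide +kernel
theorem x177_12 : fam (wl [8,2,3,6,1,16]) 177 42 = true := by decide +kernel
theorem x177_13 : fam (wl [1,1,4,1,2,2,1,5,1,1,1,3]) 3045 3338 = true := by decide +kernel
theorem x177_14 : fam (wl [2,4,1,2,2,1,5,1,1,1,2,1]) 4204 3801 = true := by decide +kernel
theorem x177_15 : fam (wl [1,7,2,3,6,1,15,1]) 7072 12469 = true := by decide +kernel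
theorem x177_16 : fam (wl [11,1,1,2,5,23]) 1194 206 = true := by decide +kernel
theorem x177_17 : fam (wl [9,5,2,1,2,18]) 2471 538 = true := by decide +kernel
theorem x177_18 : fam (wl [1,1,3,1,4,1,2,2,2,1,1,3]) 6398 7138 = true := by decide +kernel
theorem x177_19 : fam (wl [1,3,21,10,1,1,1,2]) 2806 4226 = true := by decide +kernel
theorem x177_20 : fam (wl [4,21,10,1,1,1,1,1]) 4449 2199 = true := by decide +kernel
theorem x177_21 : fam (wl [2,3,1,4,1,2,2,2,1,1,2,1]) 857 759 = true := by decide +kernel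
theorem x177_22 : fam (wl [1,8,5,2,1,2,17,1]) 4784 8529 = true := by decide +kernel
theorem x177_23 : fam (wl [1,10,1,1,2,5,22,1]) 6061 11079 = true := by decide +kernel
theorem x177_24 : fam (wl [1,3,2,1,3,1,8,2,1,1,2]) 1618 2494 = true := by decide +kernel
theorem x177_25 : fam (wl [1,16,1,3,1,1,2,8,2]) 4169 7870 = true := by decide +kernel
theorem x177_26 : fam (wl [17,1,3,1,1,2,8,1,1]) 3102 349 = true := by decide +kernel
theorem x177_27 : fam (wl [4,2,1,3,1,8,2,1,1,1,1]) 5653 2595 = true := by decide +kernel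
/-- words with first entry from 7233 to 7279 -/
def L177 : List (List ℕ × ℕ × ℕ) := [([2,42,21,4],1127,1114), ([1,5,4,1,1,3,1,1,1,1,2,2],5301,8898), ([6,4,1,1,3,1,1,1,1,2,1,1],1930,621), ([1,1,42,21,3,1],6104,6177), ([3,28,14,6],5297,3490), ([1,2,28,14,5,1],1944,2609), ([1,19,1,1,1,4,1,9,2],6926,13182), ([20,1,1,1,4,1,9,1,1],319,31), ([3,1,4,2,2,2,1,1,1,7],4582,2402), ([3,1,1,8,17,7],1648,934), ([1,2,1,1,8,17,6,1],5599,8027), ([1,2,1,4,2,2,2,1,1,1,6,1],2665,3935), ([8,2,3,6,1,16],177,42), ([1,1,4,1,2,2,1,5,1,1,1,3],3045,3338), ([2,4,1,2,2,1,5,1,1,1,2,1],4204,3801), ([1,7,2,3,6,1,15,1],7072,12469), ([11,1,1,2,5,23],1194,206), ([9,5,2,1,2,18],2471,538), ([1,1,3,1,4,1,2,2,2,1,1,3],6398,7138), ([1,3,21,10,1,1,1,2],2806,4226), ([4,21,10,1,1,1,1,1],4449,2199), ([2,3,1,4,1,2,2,2,1,1,2,1],857,759), ([1,8,5,2,1,2,17,1],4784,8529), ([1,10,1,1,2,5,22,1],6061,11079), ([1,3,2,1,3,1,8,2,1,1,2],1618,2494), ([1,16,1,3,1,1,2,8,2],4169,7870), ([17,1,3,1,1,2,8,1,1],3102,349),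 ([4,2,1,3,1,8,2,1,1,1,1],5653,2595)]
theorem r177 : rgV L177 7233 24 = true := by decide +kernel
theorem f177 : ∀ p ∈ L177, fam (wl p.1) p.2.1 p.2.2 = true := by
  intro p hp
  simp only [L177, List.mem_cons, List.not_mem_nil, or_false] at hp
  rcases hp with rfl | rfl | rfl | rfl | rfl | rfl | rfl | rfl | rfl | rfl | rfl | rfl | rfl | rfl | rfl | rfl | rfl | rfl | rfl | rfl | rfl | rfl | rfl | rfl | rfl | rfl | rfl | rfl
  · exact x177_0
  · exact x177_1
  · exact x177_2
  · exact x177_3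
  · exact x177_4
  · exact x177_5
  · exact x177_6
  · exact x177_7
  · exact x177_8
  · exact x177_9
  · exact x177_10
  · exact x177_11
  · exact x177_12
  · exact x177_13
  · exact x177_14
  · exact x177_15
  · exact x177_16
  · exact x177_17
  · exact x177_18
  · exact x177_19
  · exact x177_20
  · exact x177_21
  · exact x177_22
  · exact x177_23
  · exact x177_24
  · exact x177_25
  · exact x177_26
  · exact x177_27

end Pool.Agent.V5helper47.EV
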