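import Pool.Agent.V5helper47.EV.S2

/-! Search, part of the half words. -/

set_option maxRecDepth 1000000

namespace Pool.Agent.V5helper47.EV

open H419R2 Pool.Agent.N911 Pool.Agent.V5helper47.CN

theorem x179_0 : fam (wl [10,1,6,1,2,1,21]) 4207 774 = true := by decide +kernel
theorem x179_1 : fam (wl [4,1,3,2,1,5,1,1,9]) 911 382 = true := by decide +kernel
theorem x179_2 : fam (wl [1,3,1,3,2,1,5,1,1,8,1]) 6414 10141 = true := by decide +kernel
theorem x179_3 : fam (wl [1,9,1,6,1,2,1,20,1]) 3118 5665 = true := by decide +kernel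
theorem x179_4 : fam (wl [3,6,1,1,2,3,3,6]) 3949 2506 = true := by decide +kernel
theorem x179_5 : fam (wl [1,2,6,1,1,2,3,3,5,1]) 3380 4617 = true := by decide +kernel
theorem x179_6 : fam (wl [1,6,1,1,5,2,1,3,3,2]) 3480 6038 = true := by decide +kernel
theorem x179_7 : fam (wl [1,27,1,1,3,1,13,2]) 4925 9506 = true := by decide +kernel
theorem x179_8 : fam (wl [28,1,1,3,1,13,1,1]) 2412 169 = true := by decide +kernel
theorem x179_9 : fam (wl [7,1,1,5,2,1,3,3,1,1]) 3857 1023 = true := by decide +kernel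
theorem x179_10 : fam (wl [2,1,1,1,3,2,2,1,1,3,5]) 1243 942 = true := by decide +kernel
theorem x179_11 : fam (wl [1,3,4,4,1,1,1,1,1,1,1,1,2]) 2802 4282 = true := by decide +kernel
theorem x179_12 : fam (wl [4,4,4,1,1,1,1,1,1,1,1,1,1]) 4539 2143 = true := by decide +kernel
theorem x179_13 : fam (wl [1,1,1,1,1,3,2,2,1,1,3,4,1]) 6098 7577 = true := by decide +kernel
theorem x179_14 : fam (wl [1,4,1,4,1,1,3,2,2,2,2]) 520 862 = true := by decide +kernel
theorem x179_15 : fam (wl [5,1,4,1,1,3,2,2,2,1,1]) 6829 2347 = true := by decide +kernel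
theorem x179_16 : fam (wl [14,1,2,2,2,29]) 4250 578 = true := by decide +kernel
theorem x179_17 : fam (wl [2,1,1,1,10,5,3,5]) 470 354 = true := by decide +kernel
theorem x179_18 : fam (wl [1,2,11,2,1,22,1,2]) 2462 3330 = true := by decide +kernel
theorem x179_19 : fam (wl [1,7,3,2,4,1,1,1,3,2]) 169 298 = true := by decide +kernel
theorem x179_20 : fam (wl [8,3,2,4,1,1,1,3,1,1]) 7182 1733 = true := by decide +kernel
theorem x179_21 : fam (wl [3,11,2,1,22,1,1,1]) 4889 3167 = true := by decide +kernel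
theorem x179_22 : fam (wl [1,1,1,1,1,10,5,3,4,1]) 6881 8583 = true := by decide +kernel
theorem x179_23 : fam (wl [1,13,1,2,2,2,28,1]) 3101 5783 = true := by decide +kernel
/-- words with first entry from 7327 to 7359 -/
def L179 : List (List ℕ × ℕ × ℕ) := [([10,1,6,1,2,1,21],4207,774), ([4,1,3,2,1,5,1,1,9],911,382), ([1,3,1,3,2,1,5,1,1,8,1],6414,10141), ([1,9,1,6,1,2,1,20,1],3118,5665), ([3,6,1,1,2,3,3,6],3949,2506), ([1,2,6,1,1,2,3,3,5,1],3380,4617), ([1,6,1,1,5,2,1,3,3,2],3480,6038), ([1,27,1,1,3,1,13,2],4925,9506), ([28,1,1,3,1,13,1,1],2412,169), ([7,1,1,5,2,1,3,3,1,1],3857,1023), ([2,1,1,1,3,2,2,1,1,3,5],1243,942), ([1,3,4,4,1,1,1,1,1,1,1,1,2],2802,4282), ([4,4,4,1,1,1,1,1,1,1,1,1,1],4539,2143), ([1,1,1,1,1,3,2,2,1,1,3,4,1],6098,7577), ([1,4,1,4,1,1,3,2,2,2,2],520,862), ([5,1,4,1,1,3,2,2,2,1,1],6829,2347), ([14,1,2,2,2,29],4250,578), ([2,1,1,1,10,5,3,5],470,354), ([1,2,11,2,1,22,1,2],2462,3330), ([1,7,3,2,4,1,1,1,3,2],169,298), ([8,3,2,4,1,1,1,3,1,1],7182,1733),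 ([3,11,2,1,22,1,1,1],4889,3167), ([1,1,1,1,1,10,5,3,4,1],6881,8583), ([1,13,1,2,2,2,28,1],3101,5783)]
theorem r179 : rgV L179 7327 17 = true := by decide +kernel
theorem f179 : ∀ p ∈ L179, fam (wl p.1) p.2.1 p.2.2 = true := by
  intro p hp
  simp only [L179, List.mem_cons, List.not_mem_nil, or_false] at hp
  rcases hp with rfl | rfl | rfl | rfl | rfl | rfl | rfl | rfl | rfl | rfl | rfl | rfl | rfl | rfl | rfl | rfl | rfl | rfl | rfl | rfl | rfl | rfl | rfl | rfl
  · exact x179_0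
  · exact x179_1
  · exact x179_2
  · exact x179_3
  · exact x179_4
  · exact x179_5
  · exact x179_6
  · exact x179_7
  · exact x179_8
  · exact x179_9
  · exact x179_10
  · exact x179_11
  · exact x179_12
  · exact x179_13
  · exact x179_14
  · exact x179_15
  · exact x179_16
  · exact x179_17
  · exact x179_18
  · exact x179_19
  · exact x179_20
  · exact x179_21
  · exact x179_22
  · exact x179_23

end Pool.Agent.V5helper47.EV
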