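import Pool.Agent.V5helper47.EV.S2

/-! Search, part of the half words. -/

set_option maxRecDepth 1000000

namespace Pool.Agent.V5helper47.EV

open H419R2 Pool.Agent.N911 Pool.Agent.V5helper47.CN

theorem x180_0 : fam (wl [2,3,1,5,1,12,1,1,4]) 3251 2878 = true := by decide +kernel
theorem x180_1 : fam (wl [1,31,2,2,1,15,2]) 5917 11470 = true := by decide +kernel
theorem x180_2 : fam (wl [32,2,2,1,15,1,1]) 1442 89 = true := by decide +kernel
theorem x180_3 : fam (wl [1,1,3,1,5,1,12,1,1,3,1]) 4108 4581 = true := by decide +kernel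
theorem x180_4 : fam (wl [20,4,2,40]) 1638 162 = true := by decide +kernel
theorem x180_5 : fam (wl [3,3,2,1,1,3,2,1,1,6]) 3252 1974 = true := by decide +kernel
theorem x180_6 : fam (wl [1,2,3,2,1,1,3,2,1,1,5,1]) 4107 5723 = true := by decide +kernel
theorem x180_7 : fam (wl [1,19,4,2,39,1]) 5721 10879 = true := by decide +kernel
theorem x180_8 : fam (wl [3,2,1,7,1,3,2,1,6]) 6221 3718 = true := by decide +kernel
theorem x180_9 : fam (wl [1,2,2,1,7,1,3,2,1,5,1]) 1146 1609 = true := by decide +kernel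
theorem x180_10 : fam (wl [1,1,1,1,1,1,4,9,4,3]) 7033 8674 = true := by decide +kernel
theorem x180_11 : fam (wl [2,1,1,1,1,4,9,4,2,1]) 334 257 = true := by decide +kernel
theorem x180_12 : fam (wl [4,1,1,3,2,1,7,9]) 2853 1250 = true := by decide +kernel
theorem x180_13 : fam (wl [2,4,3,1,2,7,2,4]) 2884 2582 = true := by decide +kernel
theorem x180_14 : fam (wl [1,1,4,3,1,2,7,2,3,1]) 4491 4963 = true := by decide +kernel
theorem x180_15 : fam (wl [1,3,1,1,3,2,1,7,8,1]) 4522 7065 = true := by decide +kernel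
theorem x180_16 : fam (wl [3,1,5,1,2,1,2,2,1,7]) 2407 1250 = true := by decide +kernel
theorem x180_17 : fam (wl [1,3,2,9,4,1,2,1,1,2]) 4668 7250 = true := by decide +kernel
theorem x180_18 : fam (wl [4,2,9,4,1,2,1,1,1,1]) 2717 1215 = true := by decide +kernel
theorem x180_19 : fam (wl [1,2,1,5,1,2,1,2,2,1,6,1]) 4978 7373 = true := by decide +kernel
theorem x180_20 : fam (wl [1,1,2,1,7,1,16,2,3]) 6293 7222 = true := by decide +kernel
theorem x180_21 : fam (wl [2,2,1,7,1,16,2,2,1]) 1098 937 = true := by decide +kernel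
theorem x180_22 : fam (wl [1,2,2,3,3,1,1,1,1,4,1,2]) 746 1058 = true := by decide +kernel
theorem x180_23 : fam (wl [3,2,3,3,1,1,1,1,4,1,1,1]) 6645 3871 = true := by decide +kernel
theorem x180_24 : fam (wl [3,1,1,2,1,2,2,6,7]) 4533 2534 = true := by decide +kernel
theorem x180_25 : fam (wl [1,4,1,1,1,2,1,6,3,2,2]) 4341 7142 = true := by decide +kernel
theorem x180_26 : fam (wl [5,1,1,1,2,1,6,3,2,1,1]) 3056 1085 = true := by decide +kernel
theorem x180_27 : fam (wl [1,2,1,1,2,1,2,2,6,6,1]) 2864 4129 = true := by decide +kernel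
/-- words with first entry from 7361 to 7399 -/
def L180 : List (List ℕ × ℕ × ℕ) := [([2,3,1,5,1,12,1,1,4],3251,2878), ([1,31,2,2,1,15,2],5917,11470), ([32,2,2,1,15,1,1],1442,89), ([1,1,3,1,5,1,12,1,1,3,1],4108,4581), ([20,4,2,40],1638,162), ([3,3,2,1,1,3,2,1,1,6],3252,1974), ([1,2,3,2,1,1,3,2,1,1,5,1],4107,5723), ([1,19,4,2,39,1],5721,10879), ([3,2,1,7,1,3,2,1,6],6221,3718), ([1,2,2,1,7,1,3,2,1,5,1],1146,1609), ([1,1,1,1,1,1,4,9,4,3],7033,8674), ([2,1,1,1,1,4,9,4,2,1],334,257), ([4,1,1,3,2,1,7,9],2853,1250), ([2,4,3,1,2,7,2,4],2884,2582), ([1,1,4,3,1,2,7,2,3,1],4491,4963), ([1,3,1,1,3,2,1,7,8,1],4522,7065), ([3,1,5,1,2,1,2,2,1,7],2407,1250), ([1,3,2,9,4,1,2,1,1,2],4668,7250), ([4,2,9,4,1,2,1,1,1,1],2717,1215), ([1,2,1,5,1,2,1,2,2,1,6,1],4978,7373), ([1,1,2,1,7,1,16,2,3],6293,7222), ([2,2,1,7,1,16,2,2,1],1098,937), ([1,2,2,3,3,1,1,1,1,4,1,2],746,1058), ([3,2,3,3,1,1,1,1,4,1,1,1],6645,3871), ([3,1,1,2,1,2,2,6,7],4533,2534), ([1,4,1,1,1,2,1,6,3,2,2],4341,7142),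 ([5,1,1,1,2,1,6,3,2,1,1],3056,1085), ([1,2,1,1,2,1,2,2,6,6,1],2864,4129)]
theorem r180 : rgV L180 7361 20 = true := by decide +kernel
theorem f180 : ∀ p ∈ L180, fam (wl p.1) p.2.1 p.2.2 = true := by
  intro p hp
  simp only [L180, List.mem_cons, List.not_mem_nil, or_false] at hp
  rcases hp with rfl | rfl | rfl | rfl | rfl | rfl | rfl | rfl | rfl | rfl | rfl | rfl | rfl | rfl | rfl | rfl | rfl | rfl | rfl | rfl | rfl | rfl | rfl | rfl | rfl | rfl | rfl | rfl
  · exact x180_0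
  · exact x180_1
  · exact x180_2
  · exact x180_3
  · exact x180_4
  · exact x180_5
  · exact x180_6
  · exact x180_7
  · exact x180_8
  · exact x180_9
  · exact x180_10
  · exact x180_11
  · exact x180_12
  · exact x180_13
  · exact x180_14
  · exact x180_15
  · exact x180_16
  · exact x180_17
  · exact x180_18
  · exact x180_19
  · exact x180_20
  · exact x180_21
  · exact x180_22
  · exact x180_23
  · exact x180_24
  · exact x180_25
  · exact x180_26
  · exact x180_27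

end Pool.Agent.V5helper47.EV
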