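import Pool.Agent.V5helper47.EV.S2

/-! Search, part of the half words. -/

set_option maxRecDepth 1000000

namespace Pool.Agent.V5helper47.EV

open H419R2 Pool.Agent.N911 Pool.Agent.V5helper47.CN

theorem x181_0 : fam (wl [3,5,5,2,1,1,2,6]) 6261 3922 = true := by decide +kernel
theorem x181_1 : fam (wl [1,48,1,2,24,2]) 5438 10658 = true := by decide +kernel
theorem x181_2 : fam (wl [49,1,2,24,1,1]) 1961 79 = true := by decide +kernel
theorem x181_3 : fam (wl [1,2,5,5,2,1,1,2,5,1]) 1138 1565 = true := by decide +kernel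
theorem x181_4 : fam (wl [1,1,24,2,1,11,1,3]) 4409 4498 = true := by decide +kernel
theorem x181_5 : fam (wl [1,3,4,1,2,5,1,1,1,1,1,2]) 56 86 = true := by decide +kernel
theorem x181_6 : fam (wl [4,4,1,2,5,1,1,1,1,1,1,1]) 7345 3487 = true := by decide +kernel
theorem x181_7 : fam (wl [2,24,2,1,11,1,2,1]) 2992 2933 = true := by decide +kernel
theorem x181_8 : fam (wl [5,1,2,1,1,1,4,2,11]) 979 342 = true := by decide +kernel
theorem x181_9 : fam (wl [1,1,3,1,1,4,1,1,1,3,1,1,3]) 4872 5474 = true := by decide +kernel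
theorem x181_10 : fam (wl [2,3,1,1,4,1,1,1,3,1,1,2,1]) 2535 2223 = true := by decide +kernel
theorem x181_11 : fam (wl [1,4,1,2,1,1,1,4,2,10,1]) 6428 10613 = true := by decide +kernel
theorem x181_12 : fam (wl [3,1,11,1,2,5,1,7]) 5415 2762 = true := by decide +kernel
theorem x181_13 : fam (wl [1,2,1,11,1,2,5,1,6,1]) 1994 2973 = true := by decide +kernel
theorem x181_14 : fam (wl [1,4,11,1,23,2,2]) 6407 10294 = true := by decide +kernel
theorem x181_15 : fam (wl [5,11,1,23,2,1,1]) 1008 397 = true := by decide +kernel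
theorem x181_16 : fam (wl [1,1,1,1,9,2,1,4,3,3]) 4584 5538 = true := by decide +kernel
theorem x181_17 : fam (wl [2,1,1,9,2,1,4,3,2,1]) 2831 2243 = true := by decide +kernel
theorem x181_18 : fam (wl [18,2,1,2,1,36]) 2222 242 = true := by decide +kernel
theorem x181_19 : fam (wl [1,2,1,1,2,2,2,2,2,3,1,2]) 3870 5582 = true := by decide +kernel
theorem x181_20 : fam (wl [3,1,1,2,2,2,2,2,3,1,1,1]) 3547 1979 = true := by decide +kernel
theorem x181_21 : fam (wl [1,17,2,1,2,1,35,1]) 5195 9827 = true := by decide +kernel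
theorem x181_22 : fam (wl [1,2,19,1,39,1,2]) 5503 7398 = true := by decide +kernel
theorem x181_23 : fam (wl [3,19,1,39,1,1,1]) 1928 1265 = true := by decide +kernel
theorem x181_24 : fam (wl [1,2,2,6,1,2,3,4,1,2]) 687 978 = true := by decide +kernel
theorem x181_25 : fam (wl [3,2,6,1,2,3,4,1,1,1]) 6744 3893 = true := by decide +kernel
theorem x181_26 : fam (wl [60,1,121]) 7380 242 = true := by decide +kernel
theorem x181_27 : fam (wl [1,6,1,9,1,4,2,3,2]) 90 158 = true := by decide +kernel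
theorem x181_28 : fam (wl [7,1,9,1,4,2,3,1,1]) 7349 1859 = true := by decide +kernel
theorem x181_29 : fam (wl [1,59,1,120,1]) 59 119 = true := by decide +kernel
/-- words with first entry from 7401 to 7441 -/
def L181 : List (List ℕ × ℕ × ℕ) := [([3,5,5,2,1,1,2,6],6261,3922), ([1,48,1,2,24,2],5438,10658), ([49,1,2,24,1,1],1961,79), ([1,2,5,5,2,1,1,2,5,1],1138,1565), ([1,1,24,2,1,11,1,3],4409,4498), ([1,3,4,1,2,5,1,1,1,1,1,2],56,86), ([4,4,1,2,5,1,1,1,1,1,1,1],7345,3487), ([2,24,2,1,11,1,2,1],2992,2933), ([5,1,2,1,1,1,4,2,11],979,342), ([1,1,3,1,1,4,1,1,1,3,1,1,3],4872,5474), ([2,3,1,1,4,1,1,1,3,1,1,2,1],2535,2223), ([1,4,1,2,1,1,1,4,2,10,1],6428,10613), ([3,1,11,1,2,5,1,7],5415,2762), ([1,2,1,11,1,2,5,1,6,1],1994,2973), ([1,4,11,1,23,2,2],6407,10294), ([5,11,1,23,2,1,1],1008,397), ([1,1,1,1,9,2,1,4,3,3],4584,5538), ([2,1,1,9,2,1,4,3,2,1],2831,2243), ([18,2,1,2,1,36],2222,242), ([1,2,1,1,2,2,2,2,2,3,1,2],3870,5582), ([3,1,1,2,2,2,2,2,3,1,1,1],3547,1979),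 ([1,17,2,1,2,1,35,1],5195,9827), ([1,2,19,1,39,1,2],5503,7398), ([3,19,1,39,1,1,1],1928,1265), ([1,2,2,6,1,2,3,4,1,2],687,978), ([3,2,6,1,2,3,4,1,1,1],6744,3893), ([60,1,121],7380,242), ([1,6,1,9,1,4,2,3,2],90,158), ([7,1,9,1,4,2,3,1,1],7349,1859), ([1,59,1,120,1],59,119)]
theorem r181 : rgV L181 7401 21 = true := by decide +kernel
theorem f181 : ∀ p ∈ L181, fam (wl p.1) p.2.1 p.2.2 = true := by
  intro p hp
  simp only [L181, List.mem_cons, List.not_mem_nil, or_false] at hp
  rcases hp with rfl | rfl | rfl | rfl | rfl | rfl | rfl | rfl | rfl | rfl | rfl | rfl | rfl | rfl | rfl | rfl | rfl | rfl | rfl | rfl | rfl | rfl | rfl | rfl | rfl | rfl | rfl | rfl | rfl | rfl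
  · exact x181_0
  · exact x181_1
  · exact x181_2
  · exact x181_3
  · exact x181_4
  · exact x181_5
  · exact x181_6
  · exact x181_7
  · exact x181_8
  · exact x181_9
  · exact x181_10
  · exact x181_11
  · exact x181_12
  · exact x181_13
  · exact x181_14
  · exact x181_15
  · exact x181_16
  · exact x181_17
  · exact x181_18
  · exact x181_19
  · exact x181_20
  · exact x181_21
  · exact x181_22
  · exact x181_23
  · exact x181_24
  · exact x181_25
  · exact x181_26
  · exact x181_27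
  · exact x181_28
  · exact x181_29

end Pool.Agent.V5helper47.EV
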