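import Pool.Agent.V5helper47.EV.S2

/-! Search, part of the half words. -/

set_option maxRecDepth 1000000

namespace Pool.Agent.V5helper47.EV

open H419R2 Pool.Agent.N911 Pool.Agent.V5helper47.CN

theorem x182_0 : fam (wl [61,122]) 61 2 = true := by decide +kernel
theorem x182_1 : fam (wl [1,6,1,5,2,1,2,2,3,2]) 6646 11598 = true := by decide +kernel
theorem x182_2 : fam (wl [7,1,5,2,1,2,2,3,1,1]) 795 203 = true := by decide +kernel
theorem x182_3 : fam (wl [1,60,121,1]) 7380 14521 = true := by decide +kernel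
theorem x182_4 : fam (wl [1,2,20,40,1,2]) 4417 5938 = true := by decide +kernel
theorem x182_5 : fam (wl [3,20,40,1,1,1]) 3032 1989 = true := by decide +kernel
theorem x182_6 : fam (wl [1,4,1,1,2,2,2,2,3,2,2]) 3331 5470 = true := by decide +kernel
theorem x182_7 : fam (wl [5,1,1,2,2,2,2,3,2,1,1]) 4124 1477 = true := by decide +kernel
theorem x182_8 : fam (wl [1,2,1,6,2,4,3,2,1,2]) 3573 5298 = true := by decide +kernel
theorem x182_9 : fam (wl [3,1,6,2,4,3,2,1,1,1]) 3882 2009 = true := by decide +kernel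
theorem x182_10 : fam (wl [5,5,1,1,3,1,2,10]) 3113 1202 = true := by decide +kernel
theorem x182_11 : fam (wl [1,4,5,1,1,3,1,2,9,1]) 4344 7013 = true := by decide +kernel
theorem x182_12 : fam (wl [3,2,1,2,1,1,3,1,2,1,6]) 1155 686 = true := by decide +kernel
theorem x182_13 : fam (wl [1,1,7,3,1,7,3,1,3]) 5364 5710 = true := by decide +kernel
theorem x182_14 : fam (wl [2,7,3,1,7,3,1,2,1]) 2097 1963 = true := by decide +kernel
theorem x182_15 : fam (wl [1,2,2,1,2,1,1,3,1,2,1,5,1]) 6306 8869 = true := by decide +kernel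
theorem x182_16 : fam (wl [1,1,7,1,4,2,2,3,1,3]) 145 154 = true := by decide +kernel
theorem x182_17 : fam (wl [1,1,1,2,1,7,3,1,6,3]) 5378 6834 = true := by decide +kernel
theorem x182_18 : fam (wl [1,2,3,4,1,2,2,6,1,2]) 6236 8706 = true := by decide +kernel
theorem x182_19 : fam (wl [1,4,12,24,2,2]) 4002 6430 = true := by decide +kernel
theorem x182_20 : fam (wl [5,12,24,2,1,1]) 3463 1363 = true := by decide +kernel
theorem x182_21 : fam (wl [3,3,4,1,2,2,6,1,1,1]) 1229 743 = true := by decide +kernel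
theorem x182_22 : fam (wl [2,1,2,1,7,3,1,6,2,1]) 2087 1523 = true := by decide +kernel
theorem x182_23 : fam (wl [2,7,1,4,2,2,3,1,2,1]) 7320 6881 = true := by decide +kernel
theorem x182_24 : fam (wl [14,1,4,1,1,1,29]) 3187 430 = true := by decide +kernel
theorem x182_25 : fam (wl [1,2,2,11,1,5,4,1,2]) 582 830 = true := by decide +kernel
theorem x182_26 : fam (wl [3,2,11,1,5,4,1,1,1]) 6887 3959 = true := by decide +kernel
theorem x182_27 : fam (wl [1,13,1,4,1,1,1,28,1]) 4282 7989 = true := by decide +kernel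
/-- words with first entry from 7443 to 7479 -/
def L182 : List (List ℕ × ℕ × ℕ) := [([61,122],61,2), ([1,6,1,5,2,1,2,2,3,2],6646,11598), ([7,1,5,2,1,2,2,3,1,1],795,203), ([1,60,121,1],7380,14521), ([1,2,20,40,1,2],4417,5938), ([3,20,40,1,1,1],3032,1989), ([1,4,1,1,2,2,2,2,3,2,2],3331,5470), ([5,1,1,2,2,2,2,3,2,1,1],4124,1477), ([1,2,1,6,2,4,3,2,1,2],3573,5298), ([3,1,6,2,4,3,2,1,1,1],3882,2009), ([5,5,1,1,3,1,2,10],3113,1202), ([1,4,5,1,1,3,1,2,9,1],4344,7013), ([3,2,1,2,1,1,3,1,2,1,6],1155,686), ([1,1,7,3,1,7,3,1,3],5364,5710), ([2,7,3,1,7,3,1,2,1],2097,1963), ([1,2,2,1,2,1,1,3,1,2,1,5,1],6306,8869), ([1,1,7,1,4,2,2,3,1,3],145,154), ([1,1,1,2,1,7,3,1,6,3],5378,6834), ([1,2,3,4,1,2,2,6,1,2],6236,8706), ([1,4,12,24,2,2],4002,6430), ([5,12,24,2,1,1],3463,1363), ([3,3,4,1,2,2,6,1,1,1],1229,743), ([2,1,2,1,7,3,1,6,2,1],2087,1523), ([2,7,1,4,2,2,3,1,2,1],7320,6881), ([14,1,4,1,1,1,29],3187,430), ([1,2,2,11,1,5,4,1,2],582,830), ([3,2,11,1,5,4,1,1,1],6887,3959),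 ([1,13,1,4,1,1,1,28,1],4282,7989)]
theorem r182 : rgV L182 7443 19 = true := by decide +kernel
theorem f182 : ∀ p ∈ L182, fam (wl p.1) p.2.1 p.2.2 = true := by
  intro p hp
  simp only [L182, List.mem_cons, List.not_mem_nil, or_false] at hp
  rcases hp with rfl | rfl | rfl | rfl | rfl | rfl | rfl | rfl | rfl | rfl | rfl | rfl | rfl | rfl | rfl | rfl | rfl | rfl | rfl | rfl | rfl | rfl | rfl | rfl | rfl | rfl | rfl | rfl
  · exact x182_0
  · exact x182_1
  · exact x182_2
  · exact x182_3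
  · exact x182_4
  · exact x182_5
  · exact x182_6
  · exact x182_7
  · exact x182_8
  · exact x182_9
  · exact x182_10
  · exact x182_11
  · exact x182_12
  · exact x182_13
  · exact x182_14
  · exact x182_15
  · exact x182_16
  · exact x182_17
  · exact x182_18
  · exact x182_19
  · exact x182_20
  · exact x182_21
  · exact x182_22
  · exact x182_23
  · exact x182_24
  · exact x182_25
  · exact x182_26
  · exact x182_27

end Pool.Agent.V5helper47.EV
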