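import Pool.Agent.V5helper47.EV.S2

/-! Search, part of the half words. -/

set_option maxRecDepth 1000000

namespace Pool.Agent.V5helper47.EV

open H419R2 Pool.Agent.N911 Pool.Agent.V5helper47.CN

theorem x183_0 : fam (wl [1,1,4,1,1,3,1,1,3,1,1,1,3]) 6496 7138 = true := by decide +kernel
theorem x183_1 : fam (wl [2,4,1,1,3,1,1,3,1,1,1,2,1]) 983 887 = true := by decide +kernel
theorem x183_2 : fam (wl [2,5,4,2,1,1,1,1,2,4]) 5616 5126 = true := by decide +kernel
theorem x183_3 : fam (wl [1,1,5,4,2,1,1,1,1,2,3,1]) 1863 2027 = true := by decide +kernel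
theorem x183_4 : fam (wl [1,2,1,7,2,2,1,3,2,1,2]) 1965 2918 = true := by decide +kernel
theorem x183_5 : fam (wl [3,1,7,2,2,1,3,2,1,1,1]) 5520 2845 = true := by decide +kernel
theorem x183_6 : fam (wl [3,10,1,1,3,5,6]) 6186 3998 = true := by decide +kernel
theorem x183_7 : fam (wl [1,2,10,1,1,3,5,5,1]) 1301 1763 = true := by decide +kernel
theorem x183_8 : fam (wl [8,1,1,3,7,17]) 7309 1706 = true := by decide +kernel
theorem x183_9 : fam (wl [1,7,1,1,3,7,16,1]) 178 317 = true := by decide +kernel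
theorem x183_10 : fam (wl [35,2,1,70]) 318 18 = true := by decide +kernel
theorem x183_11 : fam (wl [1,1,2,1,8,17,2,3]) 5394 6190 = true := by decide +kernel
theorem x183_12 : fam (wl [1,2,3,1,1,2,5,7,1,2]) 4479 6226 = true := by decide +kernel
theorem x183_13 : fam (wl [1,3,6,3,1,1,1,2,1,1,1,2]) 5425 8242 = true := by decide +kernel
theorem x183_14 : fam (wl [4,6,3,1,1,1,2,1,1,1,1,1]) 2064 993 = true := by decide +kernel
theorem x183_15 : fam (wl [3,3,1,1,2,5,7,1,1,1]) 3010 1837 = true := by decide +kernel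
theorem x183_16 : fam (wl [2,2,1,8,17,2,2,1]) 2095 1787 = true := by decide +kernel
theorem x183_17 : fam (wl [1,34,2,1,69,1]) 7171 13939 = true := by decide +kernel
theorem x183_18 : fam (wl [2,2,6,1,2,13,1,4]) 1082 878 = true := by decide +kernel
theorem x183_19 : fam (wl [1,1,2,6,1,2,13,1,3,1]) 6415 7627 = true := by decide +kernel
theorem x183_20 : fam (wl [1,1,2,1,4,2,1,9,2,3]) 4881 5618 = true := by decide +kernel
theorem x183_21 : fam (wl [2,2,1,4,2,1,9,2,2,1]) 2624 2229 = true := by decide +kernel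
theorem x183_22 : fam (wl [1,1,6,3,1,2,1,1,1,2,1,3]) 5641 6058 = true := by decide +kernel
theorem x183_23 : fam (wl [1,11,7,3,1,1,5,2]) 1498 2750 = true := by decide +kernel
theorem x183_24 : fam (wl [12,7,3,1,1,5,1,1]) 6013 991 = true := by decide +kernel
theorem x183_25 : fam (wl [2,6,3,1,2,1,1,1,2,1,2,1]) 1870 1733 = true := by decide +kernel
theorem x183_26 : fam (wl [3,3,1,3,1,8,1,1,6]) 6889 4222 = true := by decide +kernel
theorem x183_27 : fam (wl [1,1,2,16,1,7,1,2,3]) 4917 5878 = true := by decide +kernel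
theorem x183_28 : fam (wl [2,2,16,1,7,1,2,2,1]) 2600 2093 = true := by decide +kernel
theorem x183_29 : fam (wl [1,2,3,1,3,1,8,1,1,5,1]) 628 873 = true := by decide +kernel
/-- words with first entry from 7481 to 7521 -/
def L183 : List (List ℕ × ℕ × ℕ) := [([1,1,4,1,1,3,1,1,3,1,1,1,3],6496,7138), ([2,4,1,1,3,1,1,3,1,1,1,2,1],983,887), ([2,5,4,2,1,1,1,1,2,4],5616,5126), ([1,1,5,4,2,1,1,1,1,2,3,1],1863,2027), ([1,2,1,7,2,2,1,3,2,1,2],1965,2918), ([3,1,7,2,2,1,3,2,1,1,1],5520,2845), ([3,10,1,1,3,5,6],6186,3998), ([1,2,10,1,1,3,5,5,1],1301,1763), ([8,1,1,3,7,17],7309,1706), ([1,7,1,1,3,7,16,1],178,317), ([35,2,1,70],318,18), ([1,1,2,1,8,17,2,3],5394,6190), ([1,2,3,1,1,2,5,7,1,2],4479,6226), ([1,3,6,3,1,1,1,2,1,1,1,2],5425,8242), ([4,6,3,1,1,1,2,1,1,1,1,1],2064,993), ([3,3,1,1,2,5,7,1,1,1],3010,1837), ([2,2,1,8,17,2,2,1],2095,1787), ([1,34,2,1,69,1],7171,13939), ([2,2,6,1,2,13,1,4],1082,878), ([1,1,2,6,1,2,13,1,3,1],6415,7627), ([1,1,2,1,4,2,1,9,2,3],4881,5618),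 ([2,2,1,4,2,1,9,2,2,1],2624,2229), ([1,1,6,3,1,2,1,1,1,2,1,3],5641,6058), ([1,11,7,3,1,1,5,2],1498,2750), ([12,7,3,1,1,5,1,1],6013,991), ([2,6,3,1,2,1,1,1,2,1,2,1],1870,1733), ([3,3,1,3,1,8,1,1,6],6889,4222), ([1,1,2,16,1,7,1,2,3],4917,5878), ([2,2,16,1,7,1,2,2,1],2600,2093), ([1,2,3,1,3,1,8,1,1,5,1],628,873)]
theorem r183 : rgV L183 7481 21 = true := by decide +kernel
theorem f183 : ∀ p ∈ L183, fam (wl p.1) p.2.1 p.2.2 = true := by
  intro p hp
  simp only [L183, List.mem_cons, List.not_mem_nil, or_false] at hp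
  rcases hp with rfl | rfl | rfl | rfl | rfl | rfl | rfl | rfl | rfl | rfl | rfl | rfl | rfl | rfl | rfl | rfl | rfl | rfl | rfl | rfl | rfl | rfl | rfl | rfl | rfl | rfl | rfl | rfl | rfl | rfl
  · exact x183_0
  · exact x183_1
  · exact x183_2
  · exact x183_3
  · exact x183_4
  · exact x183_5
  · exact x183_6
  · exact x183_7
  · exact x183_8
  · exact x183_9
  · exact x183_10
  · exact x183_11
  · exact x183_12
  · exact x183_13
  · exact x183_14
  · exact x183_15
  · exact x183_16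
  · exact x183_17
  · exact x183_18
  · exact x183_19
  · exact x183_20
  · exact x183_21
  · exact x183_22
  · exact x183_23
  · exact x183_24
  · exact x183_25
  · exact x183_26
  · exact x183_27
  · exact x183_28
  · exact x183_29

end Pool.Agent.V5helper47.EV
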