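import Pool.Agent.V5helper47.EV.S2

/-! Search, part of the half words. -/

set_option maxRecDepth 1000000

namespace Pool.Agent.V5helper47.EV

open H419R2 Pool.Agent.N911 Pool.Agent.V5helper47.CN

theorem x184_0 : fam (wl [2,3,1,6,13,1,1,4]) 856 758 = true := by decide +kernel
theorem x184_1 : fam (wl [1,1,3,1,6,13,1,1,3,1]) 6665 7431 = true := by decide +kernel
theorem x184_2 : fam (wl [1,3,1,2,5,1,2,5,1,1,2]) 395 622 = true := by decide +kernel
theorem x184_3 : fam (wl [4,1,2,5,1,2,5,1,1,1,1]) 7132 3045 = true := by decide +kernel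
theorem x184_4 : fam (wl [1,6,2,1,3,1,1,5,3,2]) 3977 6874 = true := by decide +kernel
theorem x184_5 : fam (wl [7,2,1,3,1,1,5,3,1,1]) 3550 965 = true := by decide +kernel
theorem x184_6 : fam (wl [5,1,1,2,1,2,6,11]) 6365 2282 = true := by decide +kernel
theorem x184_7 : fam (wl [1,1,1,4,3,2,1,1,9,3]) 3745 4826 = true := by decide +kernel
theorem x184_8 : fam (wl [2,1,4,3,2,1,1,9,2,1]) 3784 2693 = true := by decide +kernel
theorem x184_9 : fam (wl [1,4,1,1,2,1,2,6,10,1]) 1164 1913 = true := by decide +kernel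
theorem x184_10 : fam (wl [3,1,20,1,9,1,7]) 3974 2010 = true := by decide +kernel
theorem x184_11 : fam (wl [1,2,1,20,1,9,1,6,1]) 3561 5323 = true := by decide +kernel
theorem x184_12 : fam (wl [1,2,1,1,1,1,4,2,3,3,1,2]) 4749 6866 = true := by decide +kernel
theorem x184_13 : fam (wl [3,1,1,1,1,4,2,3,3,1,1,1]) 2786 1545 = true := by decide +kernel
theorem x184_14 : fam (wl [1,1,1,1,2,2,2,1,4,1,3,3]) 621 762 = true := by decide +kernel
theorem x184_15 : fam (wl [2,1,1,2,2,2,1,4,1,3,2,1]) 6924 5357 = true := by decide +kernel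
theorem x184_16 : fam (wl [3,1,3,1,3,1,1,2,1,1,7]) 2354 1242 = true := by decide +kernel
theorem x184_17 : fam (wl [1,2,1,3,1,3,1,1,2,1,1,6,1]) 5203 7663 = true := by decide +kernel
theorem x184_18 : fam (wl [1,1,42,1,20,1,3]) 3541 3582 = true := by decide +kernel
theorem x184_19 : fam (wl [2,42,1,20,1,2,1]) 4018 3973 = true := by decide +kernel
theorem x184_20 : fam (wl [3,6,3,6,3,6]) 3 2 = true := by decide +kernel
theorem x184_21 : fam (wl [1,2,6,3,6,3,5,1]) 7556 10329 = true := by decide +kernel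
theorem x184_22 : fam (wl [5,1,1,5,11,11]) 693 250 = true := by decide +kernel
theorem x184_23 : fam (wl [1,5,1,1,6,3,3,1,2,2]) 7415 12562 = true := by decide +kernel
theorem x184_24 : fam (wl [6,1,1,6,3,3,1,2,1,1]) 146 45 = true := by decide +kernel
theorem x184_25 : fam (wl [1,4,1,1,5,11,10,1]) 6868 11261 = true := by decide +kernel
/-- words with first entry from 7523 to 7565 -/
def L184 : List (List ℕ × ℕ × ℕ) := [([2,3,1,6,13,1,1,4],856,758), ([1,1,3,1,6,13,1,1,3,1],6665,7431), ([1,3,1,2,5,1,2,5,1,1,2],395,622), ([4,1,2,5,1,2,5,1,1,1,1],7132,3045), ([1,6,2,1,3,1,1,5,3,2],3977,6874), ([7,2,1,3,1,1,5,3,1,1],3550,965), ([5,1,1,2,1,2,6,11],6365,2282), ([1,1,1,4,3,2,1,1,9,3],3745,4826), ([2,1,4,3,2,1,1,9,2,1],3784,2693), ([1,4,1,1,2,1,2,6,10,1],1164,1913), ([3,1,20,1,9,1,7],3974,2010), ([1,2,1,20,1,9,1,6,1],3561,5323), ([1,2,1,1,1,1,4,2,3,3,1,2],4749,6866), ([3,1,1,1,1,4,2,3,3,1,1,1],2786,1545), ([1,1,1,1,2,2,2,1,4,1,3,3],621,762), ([2,1,1,2,2,2,1,4,1,3,2,1],6924,5357),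 ([3,1,3,1,3,1,1,2,1,1,7],2354,1242), ([1,2,1,3,1,3,1,1,2,1,1,6,1],5203,7663), ([1,1,42,1,20,1,3],3541,3582), ([2,42,1,20,1,2,1],4018,3973), ([3,6,3,6,3,6],3,2), ([1,2,6,3,6,3,5,1],7556,10329), ([5,1,1,5,11,11],693,250), ([1,5,1,1,6,3,3,1,2,2],7415,12562), ([6,1,1,6,3,3,1,2,1,1],146,45), ([1,4,1,1,5,11,10,1],6868,11261)]
theorem r184 : rgV L184 7523 22 = true := by decide +kernel
theorem f184 : ∀ p ∈ L184, fam (wl p.1) p.2.1 p.2.2 = true := by
  intro p hp
  simp only [L184, List.mem_cons, List.not_mem_nil, or_false] at hp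
  rcases hp with rfl | rfl | rfl | rfl | rfl | rfl | rfl | rfl | rfl | rfl | rfl | rfl | rfl | rfl | rfl | rfl | rfl | rfl | rfl | rfl | rfl | rfl | rfl | rfl | rfl | rfl
  · exact x184_0
  · exact x184_1
  · exact x184_2
  · exact x184_3
  · exact x184_4
  · exact x184_5
  · exact x184_6
  · exact x184_7
  · exact x184_8
  · exact x184_9
  · exact x184_10
  · exact x184_11
  · exact x184_12
  · exact x184_13
  · exact x184_14
  · exact x184_15
  · exact x184_16
  · exact x184_17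
  · exact x184_18
  · exact x184_19
  · exact x184_20
  · exact x184_21
  · exact x184_22
  · exact x184_23
  · exact x184_24
  · exact x184_25

end Pool.Agent.V5helper47.EV
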