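import Pool.Agent.V5helper47.EV.S2

/-! Search, part of the half words. -/

set_option maxRecDepth 1000000

namespace Pool.Agent.V5helper47.EV

open H419R2 Pool.Agent.N911 Pool.Agent.V5helper47.CN

theorem x185_0 : fam (wl [1,1,1,3,1,1,1,1,4,8,3]) 3894 4990 = true := by decide +kernel
theorem x185_1 : fam (wl [1,2,1,1,1,4,1,10,3,1,2]) 5730 8318 = true := by decide +kernel
theorem x185_2 : fam (wl [1,12,1,1,2,2,3,6,2]) 33 62 = true := by decide +kernel
theorem x185_3 : fam (wl [1,85,1,42,2]) 5696 11262 = true := by decide +kernel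
theorem x185_4 : fam (wl [86,1,42,1,1]) 1869 43 = true := by decide +kernel
theorem x185_5 : fam (wl [13,1,1,2,2,3,6,1,1]) 7532 1109 = true := by decide +kernel
theorem x185_6 : fam (wl [3,1,1,1,4,1,10,3,1,1,1]) 1835 1007 = true := by decide +kernel
theorem x185_7 : fam (wl [2,1,3,1,1,1,1,4,8,2,1]) 3671 2639 = true := by decide +kernel
theorem x185_8 : fam (wl [1,1,3,2,2,1,2,1,4,1,1,3]) 633 714 = true := by decide +kernel
theorem x185_9 : fam (wl [1,86,43,2]) 1870 3698 = true := by decide +kernel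
theorem x185_10 : fam (wl [87,43,1,1]) 5699 131 = true := by decide +kernel
theorem x185_11 : fam (wl [2,3,2,2,1,2,1,4,1,1,2,1]) 6936 6053 = true := by decide +kernel
theorem x185_12 : fam (wl [1,5,3,2,1,5,1,1,1,2,2]) 2509 4222 = true := by decide +kernel
theorem x185_13 : fam (wl [6,3,2,1,5,1,1,1,2,1,1]) 5066 1609 = true := by decide +kernel
theorem x185_14 : fam (wl [1,1,43,21,1,3]) 239 242 = true := by decide +kernel
theorem x185_15 : fam (wl [2,43,21,1,2,1]) 7336 7253 = true := by decide +kernel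
theorem x185_16 : fam (wl [1,1,5,1,5,1,2,2,2,1,3]) 4099 4422 = true := by decide +kernel
theorem x185_17 : fam (wl [2,5,1,5,1,2,2,2,1,2,1]) 3482 3209 = true := by decide +kernel
theorem x185_18 : fam (wl [1,1,3,1,2,2,4,1,2,1,1,3]) 7517 8410 = true := by decide +kernel
theorem x185_19 : fam (wl [1,2,2,2,1,1,2,3,1,4,1,2]) 6039 8546 = true := by decide +kernel
theorem x185_20 : fam (wl [3,2,2,1,1,2,3,1,4,1,1,1]) 1546 905 = true := by decide +kernel
theorem x185_21 : fam (wl [2,3,1,2,2,4,1,2,1,1,2,1]) 68 61 = true := by decide +kernel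
theorem x185_22 : fam (wl [23,3,1,1,46]) 6450 554 = true := by decide +kernel
theorem x185_23 : fam (wl [1,22,3,1,1,45,1]) 1139 2183 = true := by decide +kernel
theorem x185_24 : fam (wl [3,2,1,1,2,2,2,3,1,6]) 6587 3890 = true := by decide +kernel
theorem x185_25 : fam (wl [1,25,3,1,1,1,12,2]) 4899 9426 = true := by decide +kernel
theorem x185_26 : fam (wl [26,3,1,1,1,12,1,1]) 2692 205 = true := by decide +kernel
theorem x185_27 : fam (wl [1,2,2,1,1,2,2,2,3,1,5,1]) 1004 1417 = true := by decide +kernel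
/-- words with first entry from 7567 to 7599 -/
def L185 : List (List ℕ × ℕ × ℕ) := [([1,1,1,3,1,1,1,1,4,8,3],3894,4990), ([1,2,1,1,1,4,1,10,3,1,2],5730,8318), ([1,12,1,1,2,2,3,6,2],33,62), ([1,85,1,42,2],5696,11262), ([86,1,42,1,1],1869,43), ([13,1,1,2,2,3,6,1,1],7532,1109), ([3,1,1,1,4,1,10,3,1,1,1],1835,1007), ([2,1,3,1,1,1,1,4,8,2,1],3671,2639), ([1,1,3,2,2,1,2,1,4,1,1,3],633,714), ([1,86,43,2],1870,3698), ([87,43,1,1],5699,131), ([2,3,2,2,1,2,1,4,1,1,2,1],6936,6053), ([1,5,3,2,1,5,1,1,1,2,2],2509,4222), ([6,3,2,1,5,1,1,1,2,1,1],5066,1609), ([1,1,43,21,1,3],239,242), ([2,43,21,1,2,1],7336,7253), ([1,1,5,1,5,1,2,2,2,1,3],4099,4422), ([2,5,1,5,1,2,2,2,1,2,1],3482,3209), ([1,1,3,1,2,2,4,1,2,1,1,3],7517,8410), ([1,2,2,2,1,1,2,3,1,4,1,2],6039,8546), ([3,2,2,1,1,2,3,1,4,1,1,1],1546,905), ([2,3,1,2,2,4,1,2,1,1,2,1],68,61), ([23,3,1,1,46],6450,554), ([1,22,3,1,1,45,1],1139,2183), ([3,2,1,1,2,2,2,3,1,6],6587,3890), ([1,25,3,1,1,1,12,2],4899,9426), ([26,3,1,1,1,12,1,1],2692,205),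 ([1,2,2,1,1,2,2,2,3,1,5,1],1004,1417)]
theorem r185 : rgV L185 7567 17 = true := by decide +kernel
theorem f185 : ∀ p ∈ L185, fam (wl p.1) p.2.1 p.2.2 = true := by
  intro p hp
  simp only [L185, List.mem_cons, List.not_mem_nil, or_false] at hp
  rcases hp with rfl | rfl | rfl | rfl | rfl | rfl | rfl | rfl | rfl | rfl | rfl | rfl | rfl | rfl | rfl | rfl | rfl | rfl | rfl | rfl | rfl | rfl | rfl | rfl | rfl | rfl | rfl | rfl
  · exact x185_0
  · exact x185_1
  · exact x185_2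
  · exact x185_3
  · exact x185_4
  · exact x185_5
  · exact x185_6
  · exact x185_7
  · exact x185_8
  · exact x185_9
  · exact x185_10
  · exact x185_11
  · exact x185_12
  · exact x185_13
  · exact x185_14
  · exact x185_15
  · exact x185_16
  · exact x185_17
  · exact x185_18
  · exact x185_19
  · exact x185_20
  · exact x185_21
  · exact x185_22
  · exact x185_23
  · exact x185_24
  · exact x185_25
  · exact x185_26
  · exact x185_27

end Pool.Agent.V5helper47.EV
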