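import Pool.Agent.V5helper47.EV.S2

/-! Search, part of the half words. -/

set_option maxRecDepth 1000000

namespace Pool.Agent.V5helper47.EV

open H419R2 Pool.Agent.N911 Pool.Agent.V5helper47.CN

theorem x186_0 : fam (wl [3,1,21,10,1,7]) 5493 2778 = true := by decide +kernel
theorem x186_1 : fam (wl [1,49,2,1,24,2]) 1786 3502 = true := by decide +kernel
theorem x186_2 : fam (wl [50,2,1,24,1,1]) 5813 231 = true := by decide +kernel
theorem x186_3 : fam (wl [1,2,1,21,10,1,6,1]) 2106 3149 = true := by decide +kernel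
theorem x186_4 : fam (wl [2,24,1,2,12,4]) 5450 5342 = true := by decide +kernel
theorem x186_5 : fam (wl [1,1,24,1,2,12,3,1]) 2151 2195 = true := by decide +kernel
theorem x186_6 : fam (wl [1,7,1,5,1,12,1,3,2]) 3714 6590 = true := by decide +kernel
theorem x186_7 : fam (wl [8,1,5,1,12,1,3,1,1]) 3891 879 = true := by decide +kernel
theorem x186_8 : fam (wl [7,4,1,1,3,2,14]) 7183 1990 = true := by decide +kernel
theorem x186_9 : fam (wl [2,3,4,2,2,1,1,1,1,1,4]) 5084 4402 = true := by decide +kernel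
theorem x186_10 : fam (wl [1,1,3,4,2,2,1,1,1,1,1,3,1]) 2523 2863 = true := by decide +kernel
theorem x186_11 : fam (wl [1,6,4,1,1,3,2,13,1]) 424 733 = true := by decide +kernel
theorem x186_12 : fam (wl [9,1,1,1,2,1,3,19]) 973 202 = true := by decide +kernel
theorem x186_13 : fam (wl [1,1,2,1,2,4,2,5,2,3]) 1025 1186 = true := by decide +kernel
theorem x186_14 : fam (wl [1,3,12,2,1,5,1,1,1,2]) 5739 8666 = true := by decide +kernel
theorem x186_15 : fam (wl [1,3,2,1,4,9,2,1,1,2]) 1818 2802 = true := by decide +kernel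
theorem x186_16 : fam (wl [4,2,1,4,9,2,1,1,1,1]) 5791 2659 = true := by decide +kernel
theorem x186_17 : fam (wl [4,12,2,1,5,1,1,1,1,1]) 1870 917 = true := by decide +kernel
theorem x186_18 : fam (wl [2,2,1,2,4,2,5,2,2,1]) 6584 5553 = true := by decide +kernel
theorem x186_19 : fam (wl [1,8,1,1,1,2,1,3,18,1]) 6636 11897 = true := by decide +kernel
theorem x186_20 : fam (wl [14,6,3,28]) 5111 722 = true := by decide +kernel
theorem x186_21 : fam (wl [1,1,2,9,1,2,4,1,2,3]) 1659 1978 = true := by decide +kernel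
theorem x186_22 : fam (wl [2,2,9,1,2,4,1,2,2,1]) 5956 4813 = true := by decide +kernel
theorem x186_23 : fam (wl [1,13,6,3,27,1]) 2504 4657 = true := by decide +kernel
theorem x186_24 : fam (wl [1,1,2,17,8,1,2,3]) 5683 6794 = true := by decide +kernel
theorem x186_25 : fam (wl [1,10,1,1,3,1,1,3,5,2]) 132 242 = true := by decide +kernel
theorem x186_26 : fam (wl [11,1,1,3,1,1,3,5,1,1]) 7485 1295 = true := by decide +kernel
theorem x186_27 : fam (wl [2,2,17,8,1,2,2,1]) 1934 1557 = true := by decide +kernel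
/-- words with first entry from 7601 to 7631 -/
def L186 : List (List ℕ × ℕ × ℕ) := [([3,1,21,10,1,7],5493,2778), ([1,49,2,1,24,2],1786,3502), ([50,2,1,24,1,1],5813,231), ([1,2,1,21,10,1,6,1],2106,3149), ([2,24,1,2,12,4],5450,5342), ([1,1,24,1,2,12,3,1],2151,2195), ([1,7,1,5,1,12,1,3,2],3714,6590), ([8,1,5,1,12,1,3,1,1],3891,879), ([7,4,1,1,3,2,14],7183,1990), ([2,3,4,2,2,1,1,1,1,1,4],5084,4402), ([1,1,3,4,2,2,1,1,1,1,1,3,1],2523,2863), ([1,6,4,1,1,3,2,13,1],424,733), ([9,1,1,1,2,1,3,19],973,202), ([1,1,2,1,2,4,2,5,2,3],1025,1186), ([1,3,12,2,1,5,1,1,1,2],5739,8666), ([1,3,2,1,4,9,2,1,1,2],1818,2802), ([4,2,1,4,9,2,1,1,1,1],5791,2659), ([4,12,2,1,5,1,1,1,1,1],1870,917), ([2,2,1,2,4,2,5,2,2,1],6584,5553), ([1,8,1,1,1,2,1,3,18,1],6636,11897), ([14,6,3,28],5111,722), ([1,1,2,9,1,2,4,1,2,3],1659,1978), ([2,2,9,1,2,4,1,2,2,1],5956,4813), ([1,13,6,3,27,1],2504,4657), ([1,1,2,17,8,1,2,3],5683,6794), ([1,10,1,1,3,1,1,3,5,2],132,242), ([11,1,1,3,1,1,3,5,1,1],7485,1295),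 ([2,2,17,8,1,2,2,1],1934,1557)]
theorem r186 : rgV L186 7601 16 = true := by decide +kernel
theorem f186 : ∀ p ∈ L186, fam (wl p.1) p.2.1 p.2.2 = true := by
  intro p hp
  simp only [L186, List.mem_cons, List.not_mem_nil, or_false] at hp
  rcases hp with rfl | rfl | rfl | rfl | rfl | rfl | rfl | rfl | rfl | rfl | rfl | rfl | rfl | rfl | rfl | rfl | rfl | rfl | rfl | rfl | rfl | rfl | rfl | rfl | rfl | rfl | rfl | rfl
  · exact x186_0
  · exact x186_1
  · exact x186_2
  · exact x186_3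
  · exact x186_4
  · exact x186_5
  · exact x186_6
  · exact x186_7
  · exact x186_8
  · exact x186_9
  · exact x186_10
  · exact x186_11
  · exact x186_12
  · exact x186_13
  · exact x186_14
  · exact x186_15
  · exact x186_16
  · exact x186_17
  · exact x186_18
  · exact x186_19
  · exact x186_20
  · exact x186_21
  · exact x186_22
  · exact x186_23
  · exact x186_24
  · exact x186_25
  · exact x186_26
  · exact x186_27

end Pool.Agent.V5helper47.EV
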