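import Pool.Agent.V5helper47.EV.S2

/-! Search, part of the half words. -/

set_option maxRecDepth 1000000

namespace Pool.Agent.V5helper47.EV

open H419R2 Pool.Agent.N911 Pool.Agent.V5helper47.CN

theorem x187_0 : fam (wl [1,1,2,2,6,1,2,1,2,2,3]) 2483 2902 = true := by decide +kernel
theorem x187_1 : fam (wl [1,17,4,1,1,1,1,8,2]) 500 946 = true := by decide +kernel
theorem x187_2 : fam (wl [18,4,1,1,1,1,8,1,1]) 7131 783 = true := by decide +kernel
theorem x187_3 : fam (wl [2,2,2,6,1,2,1,2,2,2,1]) 5148 4281 = true := by decide +kernel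
theorem x187_4 : fam (wl [35,1,2,71]) 321 18 = true := by decide +kernel
theorem x187_5 : fam (wl [6,1,6,2,1,2,1,13]) 6871 2002 = true := by decide +kernel
theorem x187_6 : fam (wl [1,5,1,6,2,1,2,1,12,1]) 760 1301 = true := by decide +kernel
theorem x187_7 : fam (wl [1,34,1,2,70,1]) 7310 14213 = true := by decide +kernel
theorem x187_8 : fam (wl [1,5,1,7,1,16,1,2,2]) 712 1218 = true := by decide +kernel
theorem x187_9 : fam (wl [6,1,7,1,16,1,2,1,1]) 6925 2011 = true := by decide +kernel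
theorem x187_10 : fam (wl [18,1,1,1,3,37]) 2255 242 = true := by decide +kernel
theorem x187_11 : fam (wl [1,3,1,6,2,1,13,1,1,2]) 4948 7862 = true := by decide +kernel
theorem x187_12 : fam (wl [4,1,6,2,1,13,1,1,1,1]) 2691 1107 = true := by decide +kernel
theorem x187_13 : fam (wl [1,17,1,1,1,3,36,1]) 5384 10193 = true := by decide +kernel
theorem x187_14 : fam (wl [1,1,1,1,1,5,1,2,2,1,4,3]) 7519 9362 = true := by decide +kernel
theorem x187_15 : fam (wl [2,1,1,1,5,1,2,2,1,4,2,1]) 122 93 = true := by decide +kernel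
theorem x187_16 : fam (wl [1,1,2,2,1,2,1,6,2,2,3]) 5338 6270 = true := by decide +kernel
theorem x187_17 : fam (wl [2,2,2,1,2,1,6,2,2,2,1]) 2309 1907 = true := by decide +kernel
theorem x187_18 : fam (wl [3,2,4,1,2,9,1,6]) 3814 2210 = true := by decide +kernel
theorem x187_19 : fam (wl [1,2,2,4,1,2,9,1,5,1]) 3833 5447 = true := by decide +kernel
theorem x187_20 : fam (wl [2,2,11,1,23,1,4]) 3003 2422 = true := by decide +kernel
theorem x187_21 : fam (wl [1,1,1,1,3,1,1,1,4,1,1,3,3]) 3037 3702 = true := by decide +kernel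
theorem x187_22 : fam (wl [2,1,1,3,1,1,1,4,1,1,3,2,1]) 4624 3613 = true := by decide +kernel
theorem x187_23 : fam (wl [1,1,2,11,1,23,1,3,1]) 4658 5561 = true := by decide +kernel
/-- words with first entry from 7633 to 7665 -/
def L187 : List (List ℕ × ℕ × ℕ) := [([1,1,2,2,6,1,2,1,2,2,3],2483,2902), ([1,17,4,1,1,1,1,8,2],500,946), ([18,4,1,1,1,1,8,1,1],7131,783), ([2,2,2,6,1,2,1,2,2,2,1],5148,4281), ([35,1,2,71],321,18), ([6,1,6,2,1,2,1,13],6871,2002), ([1,5,1,6,2,1,2,1,12,1],760,1301), ([1,34,1,2,70,1],7310,14213), ([1,5,1,7,1,16,1,2,2],712,1218), ([6,1,7,1,16,1,2,1,1],6925,2011), ([18,1,1,1,3,37],2255,242), ([1,3,1,6,2,1,13,1,1,2],4948,7862), ([4,1,6,2,1,13,1,1,1,1],2691,1107), ([1,17,1,1,1,3,36,1],5384,10193), ([1,1,1,1,1,5,1,2,2,1,4,3],7519,9362), ([2,1,1,1,5,1,2,2,1,4,2,1],122,93), ([1,1,2,2,1,2,1,6,2,2,3],5338,6270), ([2,2,2,1,2,1,6,2,2,2,1],2309,1907), ([3,2,4,1,2,9,1,6],3814,2210), ([1,2,2,4,1,2,9,1,5,1],3833,5447), ([2,2,11,1,23,1,4],3003,2422),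 ([1,1,1,1,3,1,1,1,4,1,1,3,3],3037,3702), ([2,1,1,3,1,1,1,4,1,1,3,2,1],4624,3613), ([1,1,2,11,1,23,1,3,1],4658,5561)]
theorem r187 : rgV L187 7633 17 = true := by decide +kernel
theorem f187 : ∀ p ∈ L187, fam (wl p.1) p.2.1 p.2.2 = true := by
  intro p hp
  simp only [L187, List.mem_cons, List.not_mem_nil, or_false] at hp
  rcases hp with rfl | rfl | rfl | rfl | rfl | rfl | rfl | rfl | rfl | rfl | rfl | rfl | rfl | rfl | rfl | rfl | rfl | rfl | rfl | rfl | rfl | rfl | rfl | rfl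
  · exact x187_0
  · exact x187_1
  · exact x187_2
  · exact x187_3
  · exact x187_4
  · exact x187_5
  · exact x187_6
  · exact x187_7
  · exact x187_8
  · exact x187_9
  · exact x187_10
  · exact x187_11
  · exact x187_12
  · exact x187_13
  · exact x187_14
  · exact x187_15
  · exact x187_16
  · exact x187_17
  · exact x187_18
  · exact x187_19
  · exact x187_20
  · exact x187_21
  · exact x187_22
  · exact x187_23

end Pool.Agent.V5helper47.EV
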