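import Pool.Agent.V5helper47.EV.S2

/-! Search, part of the half words. -/

set_option maxRecDepth 1000000

namespace Pool.Agent.V5helper47.EV

open H419R2 Pool.Agent.N911 Pool.Agent.V5helper47.CN

theorem x188_0 : fam (wl [2,1,6,2,2,2,1,2,1,5]) 3819 2666 = true := by decide +kernel
theorem x188_1 : fam (wl [1,2,2,1,4,2,1,1,1,5,1,2]) 78 110 = true := by decide +kernel
theorem x188_2 : fam (wl [1,2,2,12,6,4,1,2]) 5973 8514 = true := by decide +kernel
theorem x188_3 : fam (wl [1,14,4,8,7,2]) 5433 10154 = true := by decide +kernel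
theorem x188_4 : fam (wl [15,4,8,7,1,1]) 2232 293 = true := by decide +kernel
theorem x188_5 : fam (wl [3,2,12,6,4,1,1,1]) 1692 973 = true := by decide +kernel
theorem x188_6 : fam (wl [3,2,1,4,2,1,1,1,5,1,1,1]) 7587 4523 = true := by decide +kernel
theorem x188_7 : fam (wl [1,1,1,6,2,2,2,1,2,1,4,1]) 3846 5009 = true := by decide +kernel
theorem x188_8 : fam (wl [1,7,1,1,1,2,2,4,1,3,2]) 1790 3166 = true := by decide +kernel
theorem x188_9 : fam (wl [8,1,1,1,2,2,4,1,3,1,1]) 5881 1363 = true := by decide +kernel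
theorem x188_10 : fam (wl [1,9,1,2,2,1,5,1,4,2]) 1417 2570 = true := by decide +kernel
theorem x188_11 : fam (wl [10,1,2,2,1,5,1,4,1,1]) 6254 1169 = true := by decide +kernel
theorem x188_12 : fam (wl [11,7,1,3,22]) 4663 838 = true := by decide +kernel
theorem x188_13 : fam (wl [1,1,1,19,1,40,3]) 6543 8654 = true := by decide +kernel
theorem x188_14 : fam (wl [2,1,19,1,40,2,1]) 1134 769 = true := by decide +kernel
theorem x188_15 : fam (wl [1,10,7,1,3,21,1]) 3014 5489 = true := by decide +kernel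
theorem x188_16 : fam (wl [2,2,4,3,1,1,8,1,4]) 482 394 = true := by decide +kernel
theorem x188_17 : fam (wl [1,1,2,4,3,1,1,8,1,3,1]) 7197 8515 = true := by decide +kernel
theorem x188_18 : fam (wl [10,1,3,1,2,1,1,21]) 4067 754 = true := by decide +kernel
theorem x188_19 : fam (wl [1,9,1,3,1,2,1,1,20,1]) 3612 6557 = true := by decide +kernel
theorem x188_20 : fam (wl [61,1,123]) 7625 246 = true := by decide +kernel
theorem x188_21 : fam (wl [1,60,1,122,1]) 60 121 = true := by decide +kernel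
theorem x188_22 : fam (wl [62,124]) 62 2 = true := by decide +kernel
theorem x188_23 : fam (wl [3,1,6,1,1,3,1,2,1,7]) 1721 890 = true := by decide +kernel
theorem x188_24 : fam (wl [1,1,1,6,4,2,13,3]) 1646 2142 = true := by decide +kernel
theorem x188_25 : fam (wl [1,12,2,1,2,5,6,2]) 3429 6346 = true := by decide +kernel
theorem x188_26 : fam (wl [13,2,1,2,5,6,1,1]) 4258 637 = true := by decide +kernel
theorem x188_27 : fam (wl [2,1,6,4,2,13,2,1]) 6041 4223 = true := by decide +kernel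
theorem x188_28 : fam (wl [1,2,1,6,1,1,3,1,2,1,6,1]) 5966 8849 = true := by decide +kernel
theorem x188_29 : fam (wl [1,61,123,1]) 7625 15007 = true := by decide +kernel
/-- words with first entry from 7667 to 7689 -/
def L188 : List (List ℕ × ℕ × ℕ) := [([2,1,6,2,2,2,1,2,1,5],3819,2666), ([1,2,2,1,4,2,1,1,1,5,1,2],78,110), ([1,2,2,12,6,4,1,2],5973,8514), ([1,14,4,8,7,2],5433,10154), ([15,4,8,7,1,1],2232,293), ([3,2,12,6,4,1,1,1],1692,973), ([3,2,1,4,2,1,1,1,5,1,1,1],7587,4523), ([1,1,1,6,2,2,2,1,2,1,4,1],3846,5009), ([1,7,1,1,1,2,2,4,1,3,2],1790,3166), ([8,1,1,1,2,2,4,1,3,1,1],5881,1363), ([1,9,1,2,2,1,5,1,4,2],1417,2570), ([10,1,2,2,1,5,1,4,1,1],6254,1169), ([11,7,1,3,22],4663,838), ([1,1,1,19,1,40,3],6543,8654), ([2,1,19,1,40,2,1],1134,769), ([1,10,7,1,3,21,1],3014,5489), ([2,2,4,3,1,1,8,1,4],482,394), ([1,1,2,4,3,1,1,8,1,3,1],7197,8515), ([10,1,3,1,2,1,1,21],4067,754), ([1,9,1,3,1,2,1,1,20,1],3612,6557), ([61,1,123],7625,246), ([1,60,1,122,1],60,121), ([62,124],62,2),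 ([3,1,6,1,1,3,1,2,1,7],1721,890), ([1,1,1,6,4,2,13,3],1646,2142), ([1,12,2,1,2,5,6,2],3429,6346), ([13,2,1,2,5,6,1,1],4258,637), ([2,1,6,4,2,13,2,1],6041,4223), ([1,2,1,6,1,1,3,1,2,1,6,1],5966,8849), ([1,61,123,1],7625,15007)]
theorem r188 : rgV L188 7667 12 = true := by decide +kernel
theorem f188 : ∀ p ∈ L188, fam (wl p.1) p.2.1 p.2.2 = true := by
  intro p hp
  simp only [L188, List.mem_cons, List.not_mem_nil, or_false] at hp
  rcases hp with rfl | rfl | rfl | rfl | rfl | rfl | rfl | rfl | rfl | rfl | rfl | rfl | rfl | rfl | rfl | rfl | rfl | rfl | rfl | rfl | rfl | rfl | rfl | rfl | rfl | rfl | rfl | rfl | rfl | rfl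
  · exact x188_0
  · exact x188_1
  · exact x188_2
  · exact x188_3
  · exact x188_4
  · exact x188_5
  · exact x188_6
  · exact x188_7
  · exact x188_8
  · exact x188_9
  · exact x188_10
  · exact x188_11
  · exact x188_12
  · exact x188_13
  · exact x188_14
  · exact x188_15
  · exact x188_16
  · exact x188_17
  · exact x188_18
  · exact x188_19
  · exact x188_20
  · exact x188_21
  · exact x188_22
  · exact x188_23
  · exact x188_24
  · exact x188_25
  · exact x188_26
  · exact x188_27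
  · exact x188_28
  · exact x188_29

end Pool.Agent.V5helper47.EV
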