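import Pool.Agent.V5helper47.EV.S2

/-! Search, part of the half words. -/

set_option maxRecDepth 1000000

namespace Pool.Agent.V5helper47.EV

open H419R2 Pool.Agent.N911 Pool.Agent.V5helper47.CN

theorem x189_0 : fam (wl [1,1,2,5,2,4,2,1,2,3]) 2102 2494 = true := by decide +kernel
theorem x189_1 : fam (wl [2,2,5,2,4,2,1,2,2,1]) 5587 4547 = true := by decide +kernel
theorem x189_2 : fam (wl [1,1,1,20,41,3]) 3703 4898 = true := by decide +kernel
theorem x189_3 : fam (wl [1,6,1,10,5,2,3,2]) 6640 11602 = true := by decide +kernel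
theorem x189_4 : fam (wl [7,1,10,5,2,3,1,1]) 1055 267 = true := by decide +kernel
theorem x189_5 : fam (wl [2,1,20,41,2,1]) 3992 2705 = true := by decide +kernel
theorem x189_6 : fam (wl [2,12,1,2,1,2,6,4]) 2546 2450 = true := by decide +kernel
theorem x189_7 : fam (wl [1,1,12,1,2,1,2,6,3,1]) 5151 5347 = true := by decide +kernel
theorem x189_8 : fam (wl [5,1,2,4,1,1,1,2,11]) 4170 1466 = true := by decide +kernel
theorem x189_9 : fam (wl [1,4,1,2,4,1,1,1,2,10,1]) 3531 5823 = true := by decide +kernel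
theorem x189_10 : fam (wl [2,2,12,24,1,4]) 3147 2538 = true := by decide +kernel
theorem x189_11 : fam (wl [1,5,1,1,3,2,1,1,3,1,2,2]) 3337 5658 = true := by decide +kernel
theorem x189_12 : fam (wl [6,1,1,3,2,1,1,3,1,2,1,1]) 4374 1333 = true := by decide +kernel
theorem x189_13 : fam (wl [1,1,2,12,24,1,3,1]) 4564 5449 = true := by decide +kernel
theorem x189_14 : fam (wl [1,4,2,2,1,1,3,1,4,2,2]) 2971 4846 = true := by decide +kernel
theorem x189_15 : fam (wl [1,8,1,7,1,3,2,4,2]) 1912 3438 = true := by decide +kernel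
theorem x189_16 : fam (wl [9,1,7,1,3,2,4,1,1]) 5807 1175 = true := by decide +kernel
theorem x189_17 : fam (wl [5,2,2,1,1,3,1,4,2,1,1]) 4748 1753 = true := by decide +kernel
theorem x189_18 : fam (wl [4,2,1,1,1,1,3,3,1,8]) 7175 3274 = true := by decide +kernel
theorem x189_19 : fam (wl [1,3,2,1,1,1,1,3,3,1,7,1]) 546 845 = true := by decide +kernel
theorem x189_20 : fam (wl [9,1,2,2,2,2,19]) 6863 1414 = true := by decide +kernel
theorem x189_21 : fam (wl [1,8,1,2,2,2,2,18,1]) 862 1549 = true := by decide +kernel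
theorem x189_22 : fam (wl [4,3,1,1,2,1,3,1,1,8]) 5037 2354 = true := by decide +kernel
theorem x189_23 : fam (wl [1,3,1,1,1,1,2,5,4,1,1,2]) 4505 7058 = true := by decide +kernel
theorem x189_24 : fam (wl [4,1,1,1,1,2,5,4,1,1,1,1]) 3222 1397 = true := by decide +kernel
theorem x189_25 : fam (wl [1,3,3,1,1,2,1,3,1,1,7,1]) 2690 4125 = true := by decide +kernel
theorem x189_26 : fam (wl [1,2,2,1,1,3,7,5,1,2]) 838 1182 = true := by decide +kernel
theorem x189_27 : fam (wl [1,12,1,2,1,2,1,2,6,2]) 3892 7218 = true := by decide +kernel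
theorem x189_28 : fam (wl [13,1,2,1,2,1,2,6,1,1]) 3837 559 = true := by decide +kernel
theorem x189_29 : fam (wl [3,2,1,1,3,7,5,1,1,1]) 6891 4067 = true := by decide +kernel
/-- words with first entry from 7691 to 7735 -/
def L189 : List (List ℕ × ℕ × ℕ) := [([1,1,2,5,2,4,2,1,2,3],2102,2494), ([2,2,5,2,4,2,1,2,2,1],5587,4547), ([1,1,1,20,41,3],3703,4898), ([1,6,1,10,5,2,3,2],6640,11602), ([7,1,10,5,2,3,1,1],1055,267), ([2,1,20,41,2,1],3992,2705), ([2,12,1,2,1,2,6,4],2546,2450), ([1,1,12,1,2,1,2,6,3,1],5151,5347), ([5,1,2,4,1,1,1,2,11],4170,1466), ([1,4,1,2,4,1,1,1,2,10,1],3531,5823), ([2,2,12,24,1,4],3147,2538), ([1,5,1,1,3,2,1,1,3,1,2,2],3337,5658), ([6,1,1,3,2,1,1,3,1,2,1,1],4374,1333), ([1,1,2,12,24,1,3,1],4564,5449), ([1,4,2,2,1,1,3,1,4,2,2],2971,4846), ([1,8,1,7,1,3,2,4,2],1912,3438), ([9,1,7,1,3,2,4,1,1],5807,1175), ([5,2,2,1,1,3,1,4,2,1,1],4748,1753), ([4,2,1,1,1,1,3,3,1,8],7175,3274), ([1,3,2,1,1,1,1,3,3,1,7,1],546,845), ([9,1,2,2,2,2,19],6863,1414),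 ([1,8,1,2,2,2,2,18,1],862,1549), ([4,3,1,1,2,1,3,1,1,8],5037,2354), ([1,3,1,1,1,1,2,5,4,1,1,2],4505,7058), ([4,1,1,1,1,2,5,4,1,1,1,1],3222,1397), ([1,3,3,1,1,2,1,3,1,1,7,1],2690,4125), ([1,2,2,1,1,3,7,5,1,2],838,1182), ([1,12,1,2,1,2,1,2,6,2],3892,7218), ([13,1,2,1,2,1,2,6,1,1],3837,559), ([3,2,1,1,3,7,5,1,1,1],6891,4067)]
theorem r189 : rgV L189 7691 23 = true := by decide +kernel
theorem f189 : ∀ p ∈ L189, fam (wl p.1) p.2.1 p.2.2 = true := by
  intro p hp
  simp only [L189, List.mem_cons, List.not_mem_nil, or_false] at hp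
  rcases hp with rfl | rfl | rfl | rfl | rfl | rfl | rfl | rfl | rfl | rfl | rfl | rfl | rfl | rfl | rfl | rfl | rfl | rfl | rfl | rfl | rfl | rfl | rfl | rfl | rfl | rfl | rfl | rfl | rfl | rfl
  · exact x189_0
  · exact x189_1
  · exact x189_2
  · exact x189_3
  · exact x189_4
  · exact x189_5
  · exact x189_6
  · exact x189_7
  · exact x189_8
  · exact x189_9
  · exact x189_10
  · exact x189_11
  · exact x189_12
  · exact x189_13
  · exact x189_14
  · exact x189_15
  · exact x189_16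
  · exact x189_17
  · exact x189_18
  · exact x189_19
  · exact x189_20
  · exact x189_21
  · exact x189_22
  · exact x189_23
  · exact x189_24
  · exact x189_25
  · exact x189_26
  · exact x189_27
  · exact x189_28
  · exact x189_29

end Pool.Agent.V5helper47.EV
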