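import Pool.Agent.V5helper47.EV.S2

/-! Search, part of the half words. -/

set_option maxRecDepth 1000000

namespace Pool.Agent.V5helper47.EV

open H419R2 Pool.Agent.N911 Pool.Agent.V5helper47.CN

theorem x190_0 : fam (wl [5,3,5,2,1,1,1,10]) 6892 2594 = true := by decide +kernel
theorem x190_1 : fam (wl [1,5,1,8,17,1,2,2]) 2593 4434 = true := by decide +kernel
theorem x190_2 : fam (wl [6,1,8,17,1,2,1,1]) 5142 1493 = true := by decide +kernel
theorem x190_3 : fam (wl [1,4,3,5,2,1,1,1,9,1]) 843 1371 = true := by decide +kernel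
theorem x190_4 : fam (wl [3,1,7,1,1,3,3,1,7]) 7048 3630 = true := by decide +kernel
theorem x190_5 : fam (wl [1,20,2,1,5,10,2]) 7355 14022 = true := by decide +kernel
theorem x190_6 : fam (wl [21,2,1,5,10,1,1]) 394 37 = true := by decide +kernel
theorem x190_7 : fam (wl [1,2,1,7,1,1,3,3,1,6,1]) 701 1043 = true := by decide +kernel
theorem x190_8 : fam (wl [2,1,10,2,2,1,4,1,5]) 4220 2898 = true := by decide +kernel
theorem x190_9 : fam (wl [1,1,1,10,2,2,1,4,1,4,1]) 3531 4639 = true := by decide +kernel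
theorem x190_10 : fam (wl [1,2,1,4,1,1,2,3,2,2,1,2]) 66 98 = true := by decide +kernel
theorem x190_11 : fam (wl [3,1,4,1,1,2,3,2,2,1,1,1]) 7685 4023 = true := by decide +kernel
theorem x190_12 : fam (wl [8,1,8,1,3,1,17]) 1913 430 = true := by decide +kernel
theorem x190_13 : fam (wl [1,7,1,8,1,3,1,16,1]) 5844 10377 = true := by decide +kernel
theorem x190_14 : fam (wl [2,5,1,3,1,8,1,2,4]) 4586 4222 = true := by decide +kernel
theorem x190_15 : fam (wl [1,4,2,1,4,1,1,1,5,2,2]) 3134 5098 = true := by decide +kernel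
theorem x190_16 : fam (wl [5,2,1,4,1,1,1,5,2,1,1]) 4633 1731 = true := by decide +kernel
theorem x190_17 : fam (wl [1,1,5,1,3,1,8,1,2,3,1]) 3181 3435 = true := by decide +kernel
theorem x190_18 : fam (wl [3,2,1,8,4,2,1,6]) 6648 3974 = true := by decide +kernel
theorem x190_19 : fam (wl [1,7,1,6,13,1,3,2]) 7427 13178 = true := by decide +kernel
theorem x190_20 : fam (wl [8,1,6,13,1,3,1,1]) 340 77 = true := by decide +kernel
theorem x190_21 : fam (wl [1,2,2,1,8,4,2,1,5,1]) 1119 1571 = true := by decide +kernel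
theorem x190_22 : fam (wl [20,1,3,1,1,41]) 1683 162 = true := by decide +kernel
theorem x190_23 : fam (wl [1,2,4,1,2,2,2,9,1,2]) 5054 6962 = true := by decide +kernel
theorem x190_24 : fam (wl [3,4,1,2,2,2,9,1,1,1]) 2715 1691 = true := by decide +kernel
theorem x190_25 : fam (wl [1,19,1,3,1,1,40,1]) 6086 11589 = true := by decide +kernel
theorem x190_26 : fam (wl [1,1,1,11,2,1,23,3]) 4309 5666 = true := by decide +kernel
theorem x190_27 : fam (wl [1,2,11,1,2,23,1,2]) 4333 5858 = true := by decide +kernel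
theorem x190_28 : fam (wl [3,11,1,2,23,1,1,1]) 3444 2233 = true := by decide +kernel
theorem x190_29 : fam (wl [2,1,11,2,1,23,2,1]) 3468 2377 = true := by decide +kernel
/-- words with first entry from 7737 to 7791 -/
def L190 : List (List ℕ × ℕ × ℕ) := [([5,3,5,2,1,1,1,10],6892,2594), ([1,5,1,8,17,1,2,2],2593,4434), ([6,1,8,17,1,2,1,1],5142,1493), ([1,4,3,5,2,1,1,1,9,1],843,1371), ([3,1,7,1,1,3,3,1,7],7048,3630), ([1,20,2,1,5,10,2],7355,14022), ([21,2,1,5,10,1,1],394,37), ([1,2,1,7,1,1,3,3,1,6,1],701,1043), ([2,1,10,2,2,1,4,1,5],4220,2898), ([1,1,1,10,2,2,1,4,1,4,1],3531,4639), ([1,2,1,4,1,1,2,3,2,2,1,2],66,98), ([3,1,4,1,1,2,3,2,2,1,1,1],7685,4023), ([8,1,8,1,3,1,17],1913,430), ([1,7,1,8,1,3,1,16,1],5844,10377), ([2,5,1,3,1,8,1,2,4],4586,4222), ([1,4,2,1,4,1,1,1,5,2,2],3134,5098), ([5,2,1,4,1,1,1,5,2,1,1],4633,1731), ([1,1,5,1,3,1,8,1,2,3,1],3181,3435), ([3,2,1,8,4,2,1,6],6648,3974), ([1,7,1,6,13,1,3,2],7427,13178), ([8,1,6,13,1,3,1,1],340,77),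 ([1,2,2,1,8,4,2,1,5,1],1119,1571), ([20,1,3,1,1,41],1683,162), ([1,2,4,1,2,2,2,9,1,2],5054,6962), ([3,4,1,2,2,2,9,1,1,1],2715,1691), ([1,19,1,3,1,1,40,1],6086,11589), ([1,1,1,11,2,1,23,3],4309,5666), ([1,2,11,1,2,23,1,2],4333,5858), ([3,11,1,2,23,1,1,1],3444,2233), ([2,1,11,2,1,23,2,1],3468,2377)]
theorem r190 : rgV L190 7737 28 = true := by decide +kernel
theorem f190 : ∀ p ∈ L190, fam (wl p.1) p.2.1 p.2.2 = true := by
  intro p hp
  simp only [L190, List.mem_cons, List.not_mem_nil, or_false] at hp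
  rcases hp with rfl | rfl | rfl | rfl | rfl | rfl | rfl | rfl | rfl | rfl | rfl | rfl | rfl | rfl | rfl | rfl | rfl | rfl | rfl | rfl | rfl | rfl | rfl | rfl | rfl | rfl | rfl | rfl | rfl | rfl
  · exact x190_0
  · exact x190_1
  · exact x190_2
  · exact x190_3
  · exact x190_4
  · exact x190_5
  · exact x190_6
  · exact x190_7
  · exact x190_8
  · exact x190_9
  · exact x190_10
  · exact x190_11
  · exact x190_12
  · exact x190_13
  · exact x190_14
  · exact x190_15
  · exact x190_16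
  · exact x190_17
  · exact x190_18
  · exact x190_19
  · exact x190_20
  · exact x190_21
  · exact x190_22
  · exact x190_23
  · exact x190_24
  · exact x190_25
  · exact x190_26
  · exact x190_27
  · exact x190_28
  · exact x190_29

end Pool.Agent.V5helper47.EV
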