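import Pool.Agent.V5helper47.EV.S2

/-! Search, part of the half words. -/

set_option maxRecDepth 1000000

namespace Pool.Agent.V5helper47.EV

open H419R2 Pool.Agent.N911 Pool.Agent.V5helper47.CN

theorem x191_0 : fam (wl [1,7,10,1,4,1,1,3,2]) 3321 5822 = true := by decide +kernel
theorem x191_1 : fam (wl [8,10,1,4,1,1,3,1,1]) 4470 1105 = true := by decide +kernel
theorem x191_2 : fam (wl [2,2,3,2,1,2,1,6,1,4]) 6938 5698 = true := by decide +kernel
theorem x191_3 : fam (wl [1,1,2,3,2,1,2,1,6,1,3,1]) 853 1007 = true := by decide +kernel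
theorem x191_4 : fam (wl [1,2,1,4,3,6,2,2,1,2]) 245 362 = true := by decide +kernel
theorem x191_5 : fam (wl [1,28,2,4,14,2]) 5255 10154 = true := by decide +kernel
theorem x191_6 : fam (wl [29,2,4,14,1,1]) 2546 173 = true := by decide +kernel
theorem x191_7 : fam (wl [3,1,4,3,6,2,2,1,1,1]) 7556 3965 = true := by decide +kernel
theorem x191_8 : fam (wl [3,16,1,2,8,6]) 1080 706 = true := by decide +kernel
theorem x191_9 : fam (wl [2,1,16,2,1,7,1,5]) 4993 3394 = true := by decide +kernel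
theorem x191_10 : fam (wl [1,1,1,1,4,1,2,1,2,2,3,3]) 5519 6706 = true := by decide +kernel
theorem x191_11 : fam (wl [1,2,1,1,1,5,11,3,1,2]) 4024 5842 = true := by decide +kernel
theorem x191_12 : fam (wl [3,1,1,1,5,11,3,1,1,1]) 3783 2075 = true := by decide +kernel
theorem x191_13 : fam (wl [2,1,1,4,1,2,1,2,2,3,2,1]) 2288 1797 = true := by decide +kernel
theorem x191_14 : fam (wl [1,1,1,16,2,1,7,1,4,1]) 2814 3717 = true := by decide +kernel
theorem x191_15 : fam (wl [1,2,16,1,2,8,5,1]) 6727 9059 = true := by decide +kernel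
theorem x191_16 : fam (wl [10,1,7,3,1,21]) 4036 742 = true := by decide +kernel
theorem x191_17 : fam (wl [1,5,4,3,1,1,1,1,1,1,2,2]) 5382 9038 = true := by decide +kernel
theorem x191_18 : fam (wl [6,4,3,1,1,1,1,1,1,2,1,1]) 2427 779 = true := by decide +kernel
theorem x191_19 : fam (wl [1,9,1,7,3,1,20,1]) 3773 6855 = true := by decide +kernel
theorem x191_20 : fam (wl [2,1,2,1,4,1,10,2,5]) 6965 5086 = true := by decide +kernel
theorem x191_21 : fam (wl [1,1,1,2,1,4,1,10,2,4,1]) 850 1081 = true := by decide +kernel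
theorem x191_22 : fam (wl [8,3,1,1,3,1,1,16]) 3453 834 = true := by decide +kernel
theorem x191_23 : fam (wl [1,7,3,1,1,3,1,1,15,1]) 4362 7673 = true := by decide +kernel
theorem x191_24 : fam (wl [2,2,1,11,1,5,2,1,4]) 6209 5302 = true := by decide +kernel
theorem x191_25 : fam (wl [1,1,2,1,11,1,5,2,1,3,1]) 1612 1849 = true := by decide +kernel
theorem x191_26 : fam (wl [5,1,7,1,2,3,1,11]) 4702 1598 = true := by decide +kernel
theorem x191_27 : fam (wl [1,5,8,2,1,3,1,1,2,2]) 5571 9322 = true := by decide +kernel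
theorem x191_28 : fam (wl [6,8,2,1,3,1,1,2,1,1]) 2254 737 = true := by decide +kernel
theorem x191_29 : fam (wl [1,4,1,7,1,2,3,1,10,1]) 3123 5187 = true := by decide +kernel
/-- words with first entry from 7793 to 7829 -/
def L191 : List (List ℕ × ℕ × ℕ) := [([1,7,10,1,4,1,1,3,2],3321,5822), ([8,10,1,4,1,1,3,1,1],4470,1105), ([2,2,3,2,1,2,1,6,1,4],6938,5698), ([1,1,2,3,2,1,2,1,6,1,3,1],853,1007), ([1,2,1,4,3,6,2,2,1,2],245,362), ([1,28,2,4,14,2],5255,10154), ([29,2,4,14,1,1],2546,173), ([3,1,4,3,6,2,2,1,1,1],7556,3965), ([3,16,1,2,8,6],1080,706), ([2,1,16,2,1,7,1,5],4993,3394), ([1,1,1,1,4,1,2,1,2,2,3,3],5519,6706), ([1,2,1,1,1,5,11,3,1,2],4024,5842), ([3,1,1,1,5,11,3,1,1,1],3783,2075), ([2,1,1,4,1,2,1,2,2,3,2,1],2288,1797), ([1,1,1,16,2,1,7,1,4,1],2814,3717), ([1,2,16,1,2,8,5,1],6727,9059), ([10,1,7,3,1,21],4036,742), ([1,5,4,3,1,1,1,1,1,1,2,2],5382,9038), ([6,4,3,1,1,1,1,1,1,2,1,1],2427,779), ([1,9,1,7,3,1,20,1],3773,6855), ([2,1,2,1,4,1,10,2,5],6965,5086),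 ([1,1,1,2,1,4,1,10,2,4,1],850,1081), ([8,3,1,1,3,1,1,16],3453,834), ([1,7,3,1,1,3,1,1,15,1],4362,7673), ([2,2,1,11,1,5,2,1,4],6209,5302), ([1,1,2,1,11,1,5,2,1,3,1],1612,1849), ([5,1,7,1,2,3,1,11],4702,1598), ([1,5,8,2,1,3,1,1,2,2],5571,9322), ([6,8,2,1,3,1,1,2,1,1],2254,737), ([1,4,1,7,1,2,3,1,10,1],3123,5187)]
theorem r191 : rgV L191 7793 19 = true := by decide +kernel
theorem f191 : ∀ p ∈ L191, fam (wl p.1) p.2.1 p.2.2 = true := by
  intro p hp
  simp only [L191, List.mem_cons, List.not_mem_nil, or_false] at hp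
  rcases hp with rfl | rfl | rfl | rfl | rfl | rfl | rfl | rfl | rfl | rfl | rfl | rfl | rfl | rfl | rfl | rfl | rfl | rfl | rfl | rfl | rfl | rfl | rfl | rfl | rfl | rfl | rfl | rfl | rfl | rfl
  · exact x191_0
  · exact x191_1
  · exact x191_2
  · exact x191_3
  · exact x191_4
  · exact x191_5
  · exact x191_6
  · exact x191_7
  · exact x191_8
  · exact x191_9
  · exact x191_10
  · exact x191_11
  · exact x191_12
  · exact x191_13
  · exact x191_14
  · exact x191_15
  · exact x191_16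
  · exact x191_17
  · exact x191_18
  · exact x191_19
  · exact x191_20
  · exact x191_21
  · exact x191_22
  · exact x191_23
  · exact x191_24
  · exact x191_25
  · exact x191_26
  · exact x191_27
  · exact x191_28
  · exact x191_29

end Pool.Agent.V5helper47.EV
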