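import Pool.Agent.V5helper47.EV.S2

/-! Search, part of the half words. -/

set_option maxRecDepth 1000000

namespace Pool.Agent.V5helper47.EV

open H419R2 Pool.Agent.N911 Pool.Agent.V5helper47.CN

theorem x192_0 : fam (wl [15,5,1,2,30]) 3445 454 = true := by decide +kernel
theorem x192_1 : fam (wl [2,2,1,2,2,1,5,1,2,1,4]) 7544 6366 = true := by decide +kernel
theorem x192_2 : fam (wl [1,1,2,1,2,2,1,5,1,2,1,3,1]) 285 331 = true := by decide +kernel
theorem x192_3 : fam (wl [1,14,5,1,2,29,1]) 4384 8193 = true := by decide +kernel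
theorem x192_4 : fam (wl [1,1,6,2,2,2,2,1,2,1,3]) 6869 7366 = true := by decide +kernel
theorem x192_5 : fam (wl [2,6,2,2,2,2,1,2,1,2,1]) 970 901 = true := by decide +kernel
theorem x192_6 : fam (wl [6,3,2,2,2,1,1,12]) 6790 2158 = true := by decide +kernel
theorem x192_7 : fam (wl [1,5,3,2,2,2,1,1,11,1]) 1049 1767 = true := by decide +kernel
theorem x192_8 : fam (wl [6,1,1,1,3,1,1,3,13]) 2344 706 = true := by decide +kernel
theorem x192_9 : fam (wl [1,4,1,13,1,6,2,2,2]) 1153 1918 = true := by decide +kernel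
theorem x192_10 : fam (wl [5,1,13,1,6,2,2,1,1]) 6694 2257 = true := by decide +kernel
theorem x192_11 : fam (wl [1,5,1,1,1,3,1,1,3,12,1]) 5503 9351 = true := by decide +kernel
theorem x192_12 : fam (wl [3,1,2,1,1,1,2,4,2,7]) 7795 4186 = true := by decide +kernel
theorem x192_13 : fam (wl [1,14,2,2,1,4,7,2]) 1688 3158 = true := by decide +kernel
theorem x192_14 : fam (wl [15,2,2,1,4,7,1,1]) 6161 799 = true := by decide +kernel
theorem x192_15 : fam (wl [1,2,1,2,1,1,1,2,4,2,6,1]) 54 81 = true := by decide +kernel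
theorem x192_16 : fam (wl [3,3,1,4,9,1,1,6]) 4284 2626 = true := by decide +kernel
theorem x192_17 : fam (wl [2,2,3,1,3,1,1,7,1,4]) 7493 6138 = true := by decide +kernel
theorem x192_18 : fam (wl [1,1,2,3,1,3,1,1,7,1,3,1]) 362 429 = true := by decide +kernel
theorem x192_19 : fam (wl [1,2,3,1,4,9,1,1,5,1]) 3571 4955 = true := by decide +kernel
theorem x192_20 : fam (wl [1,1,1,5,1,1,1,3,12,3]) 5742 7454 = true := by decide +kernel
theorem x192_21 : fam (wl [2,1,5,1,1,1,3,12,2,1]) 2123 1491 = true := by decide +kernel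
theorem x192_22 : fam (wl [4,1,16,1,7,1,9]) 5651 2286 = true := by decide +kernel
theorem x192_23 : fam (wl [1,1,1,1,1,3,1,1,3,1,1,4,3]) 1157 1438 = true := by decide +kernel
theorem x192_24 : fam (wl [2,1,1,1,3,1,1,3,1,1,4,2,1]) 6712 5085 = true := by decide +kernel
theorem x192_25 : fam (wl [1,3,1,16,1,7,1,8,1]) 2218 3541 = true := by decide +kernel
theorem x192_26 : fam (wl [23,1,2,2,47]) 6711 566 = true := by decide +kernel
theorem x192_27 : fam (wl [1,22,1,2,2,46,1]) 1160 2225 = true := by decide +kernel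
theorem x192_28 : fam (wl [1,1,1,1,2,1,4,2,2,1,3,3]) 4134 5058 = true := by decide +kernel
theorem x192_29 : fam (wl [2,1,1,2,1,4,2,2,1,3,2,1]) 3737 2903 = true := by decide +kernel
/-- words with first entry from 7831 to 7877 -/
def L192 : List (List ℕ × ℕ × ℕ) := [([15,5,1,2,30],3445,454), ([2,2,1,2,2,1,5,1,2,1,4],7544,6366), ([1,1,2,1,2,2,1,5,1,2,1,3,1],285,331), ([1,14,5,1,2,29,1],4384,8193), ([1,1,6,2,2,2,2,1,2,1,3],6869,7366), ([2,6,2,2,2,2,1,2,1,2,1],970,901), ([6,3,2,2,2,1,1,12],6790,2158), ([1,5,3,2,2,2,1,1,11,1],1049,1767), ([6,1,1,1,3,1,1,3,13],2344,706), ([1,4,1,13,1,6,2,2,2],1153,1918), ([5,1,13,1,6,2,2,1,1],6694,2257), ([1,5,1,1,1,3,1,1,3,12,1],5503,9351), ([3,1,2,1,1,1,2,4,2,7],7795,4186), ([1,14,2,2,1,4,7,2],1688,3158), ([15,2,2,1,4,7,1,1],6161,799), ([1,2,1,2,1,1,1,2,4,2,6,1],54,81), ([3,3,1,4,9,1,1,6],4284,2626), ([2,2,3,1,3,1,1,7,1,4],7493,6138), ([1,1,2,3,1,3,1,1,7,1,3,1],362,429), ([1,2,3,1,4,9,1,1,5,1],3571,4955),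 ([1,1,1,5,1,1,1,3,12,3],5742,7454), ([2,1,5,1,1,1,3,12,2,1],2123,1491), ([4,1,16,1,7,1,9],5651,2286), ([1,1,1,1,1,3,1,1,3,1,1,4,3],1157,1438), ([2,1,1,1,3,1,1,3,1,1,4,2,1],6712,5085), ([1,3,1,16,1,7,1,8,1],2218,3541), ([23,1,2,2,47],6711,566), ([1,22,1,2,2,46,1],1160,2225), ([1,1,1,1,2,1,4,2,2,1,3,3],4134,5058), ([2,1,1,2,1,4,2,2,1,3,2,1],3737,2903)]
theorem r192 : rgV L192 7831 24 = true := by decide +kernel
theorem f192 : ∀ p ∈ L192, fam (wl p.1) p.2.1 p.2.2 = true := by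
  intro p hp
  simp only [L192, List.mem_cons, List.not_mem_nil, or_false] at hp
  rcases hp with rfl | rfl | rfl | rfl | rfl | rfl | rfl | rfl | rfl | rfl | rfl | rfl | rfl | rfl | rfl | rfl | rfl | rfl | rfl | rfl | rfl | rfl | rfl | rfl | rfl | rfl | rfl | rfl | rfl | rfl
  · exact x192_0
  · exact x192_1
  · exact x192_2
  · exact x192_3
  · exact x192_4
  · exact x192_5
  · exact x192_6
  · exact x192_7
  · exact x192_8
  · exact x192_9
  · exact x192_10
  · exact x192_11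
  · exact x192_12
  · exact x192_13
  · exact x192_14
  · exact x192_15
  · exact x192_16
  · exact x192_17
  · exact x192_18
  · exact x192_19
  · exact x192_20
  · exact x192_21
  · exact x192_22
  · exact x192_23
  · exact x192_24
  · exact x192_25
  · exact x192_26
  · exact x192_27
  · exact x192_28
  · exact x192_29

end Pool.Agent.V5helper47.EV
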