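import Pool.Agent.V5helper47.EV.S2

/-! Search, part of the half words. -/

set_option maxRecDepth 1000000

namespace Pool.Agent.V5helper47.EV

open H419R2 Pool.Agent.N911 Pool.Agent.V5helper47.CN

theorem x194_0 : fam (wl [3,1,4,1,1,1,4,1,1,1,7]) 4400 2302 = true := by decide +kernel
theorem x194_1 : fam (wl [1,2,1,4,1,1,1,4,1,1,1,6,1]) 3519 5199 = true := by decide +kernel
theorem x194_2 : fam (wl [36,2,1,72]) 327 18 = true := by decide +kernel
theorem x194_3 : fam (wl [1,35,2,1,71,1]) 7592 14769 = true := by decide +kernel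
theorem x194_4 : fam (wl [3,9,1,1,3,1,4,6]) 1518 978 = true := by decide +kernel
theorem x194_5 : fam (wl [2,1,1,1,2,1,2,1,2,1,3,5]) 3100 2354 = true := by decide +kernel
theorem x194_6 : fam (wl [1,20,1,1,2,3,10,2]) 420 802 = true := by decide +kernel
theorem x194_7 : fam (wl [1,88,44,2]) 5919 11706 = true := by decide +kernel
theorem x194_8 : fam (wl [89,44,1,1]) 2002 45 = true := by decide +kernel
theorem x194_9 : fam (wl [21,1,1,2,3,10,1,1]) 7501 695 = true := by decide +kernel
theorem x194_10 : fam (wl [1,1,1,1,1,2,1,2,1,2,1,3,4,1]) 4821 5983 = true := by decide +kernel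
theorem x194_11 : fam (wl [1,2,9,1,1,3,1,4,5,1]) 6403 8683 = true := by decide +kernel
theorem x194_12 : fam (wl [2,8,1,3,1,1,2,4,4]) 1545 1462 = true := by decide +kernel
theorem x194_13 : fam (wl [1,1,8,1,3,1,1,2,4,3,1]) 6380 6725 = true := by decide +kernel
theorem x194_14 : fam (wl [2,1,1,6,1,2,14,5]) 5579 4402 = true := by decide +kernel
theorem x194_15 : fam (wl [2,44,22,4]) 4209 4162 = true := by decide +kernel
theorem x194_16 : fam (wl [1,1,44,22,3,1]) 3718 3761 = true := by decide +kernel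
theorem x194_17 : fam (wl [1,1,1,1,6,1,2,14,4,1]) 2348 2845 = true := by decide +kernel
theorem x194_18 : fam (wl [62,1,125]) 7874 250 = true := by decide +kernel
theorem x194_19 : fam (wl [1,61,1,124,1]) 61 123 = true := by decide +kernel
theorem x194_20 : fam (wl [1,5,1,4,2,1,9,1,2,2]) 3770 6434 = true := by decide +kernel
theorem x194_21 : fam (wl [6,1,4,2,1,9,1,2,1,1]) 4165 1223 = true := by decide +kernel
theorem x194_22 : fam (wl [63,126]) 63 2 = true := by decide +kernel
theorem x194_23 : fam (wl [2,1,29,14,1,5]) 74 50 = true := by decide +kernel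
theorem x194_24 : fam (wl [1,1,1,29,14,1,4,1]) 7863 10427 = true := by decide +kernel
theorem x194_25 : fam (wl [1,62,125,1]) 7874 15501 = true := by decide +kernel
theorem x194_26 : fam (wl [4,1,1,1,1,3,1,1,4,9]) 2254 978 = true := by decide +kernel
theorem x194_27 : fam (wl [1,8,2,4,2,4,4,2]) 3141 5618 = true := by decide +kernel
theorem x194_28 : fam (wl [9,2,4,2,4,4,1,1]) 4804 1017 = true := by decide +kernel
theorem x194_29 : fam (wl [1,3,1,1,1,1,3,1,1,4,8,1]) 5691 8915 = true := by decide +kernel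
/-- words with first entry from 7921 to 7949 -/
def L194 : List (List ℕ × ℕ × ℕ) := [([3,1,4,1,1,1,4,1,1,1,7],4400,2302), ([1,2,1,4,1,1,1,4,1,1,1,6,1],3519,5199), ([36,2,1,72],327,18), ([1,35,2,1,71,1],7592,14769), ([3,9,1,1,3,1,4,6],1518,978), ([2,1,1,1,2,1,2,1,2,1,3,5],3100,2354), ([1,20,1,1,2,3,10,2],420,802), ([1,88,44,2],5919,11706), ([89,44,1,1],2002,45), ([21,1,1,2,3,10,1,1],7501,695), ([1,1,1,1,1,2,1,2,1,2,1,3,4,1],4821,5983), ([1,2,9,1,1,3,1,4,5,1],6403,8683), ([2,8,1,3,1,1,2,4,4],1545,1462), ([1,1,8,1,3,1,1,2,4,3,1],6380,6725), ([2,1,1,6,1,2,14,5],5579,4402), ([2,44,22,4],4209,4162), ([1,1,44,22,3,1],3718,3761), ([1,1,1,1,6,1,2,14,4,1],2348,2845), ([62,1,125],7874,250), ([1,61,1,124,1],61,123), ([1,5,1,4,2,1,9,1,2,2],3770,6434), ([6,1,4,2,1,9,1,2,1,1],4165,1223), ([63,126],63,2), ([2,1,29,14,1,5],74,50), ([1,1,1,29,14,1,4,1],7863,10427), ([1,62,125,1],7874,15501), ([4,1,1,1,1,3,1,1,4,9],2254,978), ([1,8,2,4,2,4,4,2],3141,5618), ([9,2,4,2,4,4,1,1],4804,1017),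 ([1,3,1,1,1,1,3,1,1,4,8,1],5691,8915)]
theorem r194 : rgV L194 7921 15 = true := by decide +kernel
theorem f194 : ∀ p ∈ L194, fam (wl p.1) p.2.1 p.2.2 = true := by
  intro p hp
  simp only [L194, List.mem_cons, List.not_mem_nil, or_false] at hp
  rcases hp with rfl | rfl | rfl | rfl | rfl | rfl | rfl | rfl | rfl | rfl | rfl | rfl | rfl | rfl | rfl | rfl | rfl | rfl | rfl | rfl | rfl | rfl | rfl | rfl | rfl | rfl | rfl | rfl | rfl | rfl
  · exact x194_0
  · exact x194_1
  · exact x194_2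
  · exact x194_3
  · exact x194_4
  · exact x194_5
  · exact x194_6
  · exact x194_7
  · exact x194_8
  · exact x194_9
  · exact x194_10
  · exact x194_11
  · exact x194_12
  · exact x194_13
  · exact x194_14
  · exact x194_15
  · exact x194_16
  · exact x194_17
  · exact x194_18
  · exact x194_19
  · exact x194_20
  · exact x194_21
  · exact x194_22
  · exact x194_23
  · exact x194_24
  · exact x194_25
  · exact x194_26
  · exact x194_27
  · exact x194_28
  · exact x194_29

end Pool.Agent.V5helper47.EV
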