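import Pool.Agent.V5helper47.EV.S2

/-! Search, part of the half words. -/

set_option maxRecDepth 1000000

namespace Pool.Agent.V5helper47.EV

open H419R2 Pool.Agent.N911 Pool.Agent.V5helper47.CN

theorem x195_0 : fam (wl [5,2,1,1,2,2,3,1,10]) 2257 838 = true := by decide +kernel
theorem x195_1 : fam (wl [1,4,2,1,1,2,2,3,1,9,1]) 5692 9273 = true := by decide +kernel
theorem x195_2 : fam (wl [15,3,2,1,1,30]) 4420 578 = true := by decide +kernel
theorem x195_3 : fam (wl [4,22,11,8]) 279 138 = true := by decide +kernel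
theorem x195_4 : fam (wl [1,2,1,2,1,2,1,2,1,2,1,2,1,2]) 1 2 = true := by decide +kernel
theorem x195_5 : fam (wl [1,10,1,1,1,1,3,3,5,2]) 3813 6970 = true := by decide +kernel
theorem x195_6 : fam (wl [11,1,1,1,1,3,3,5,1,1]) 4138 713 = true := by decide +kernel
theorem x195_7 : fam (wl [3,1,2,1,2,1,2,1,2,1,2,1,1,1]) 7950 4261 = true := by decide +kernel
theorem x195_8 : fam (wl [1,3,22,11,7,1]) 7672 11553 = true := by decide +kernel
theorem x195_9 : fam (wl [1,14,3,2,1,1,29,1]) 3531 6603 = true := by decide +kernel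
theorem x195_10 : fam (wl [1,1,1,4,6,3,9,3]) 5408 6962 = true := by decide +kernel
theorem x195_11 : fam (wl [1,2,1,1,1,2,1,2,6,3,1,2]) 6058 8782 = true := by decide +kernel
theorem x195_12 : fam (wl [3,1,1,1,2,1,2,6,3,1,1,1]) 1901 1047 = true := by decide +kernel
theorem x195_13 : fam (wl [2,1,4,6,3,9,2,1]) 2551 1819 = true := by decide +kernel
theorem x195_14 : fam (wl [2,1,1,12,25,5]) 3248 2578 = true := by decide +kernel
theorem x195_15 : fam (wl [1,1,1,1,12,25,4,1]) 4713 5687 = true := by decide +kernel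
theorem x195_16 : fam (wl [3,1,3,3,1,7,1,1,7]) 5448 2894 = true := by decide +kernel
theorem x195_17 : fam (wl [1,1,1,7,3,1,1,15,3]) 1518 1982 = true := by decide +kernel
theorem x195_18 : fam (wl [2,1,7,3,1,1,15,2,1]) 6447 4479 = true := by decide +kernel
theorem x195_19 : fam (wl [1,2,1,3,3,1,7,1,1,6,1]) 2517 3699 = true := by decide +kernel
theorem x195_20 : fam (wl [4,1,17,8,1,9]) 3842 1554 = true := by decide +kernel
theorem x195_21 : fam (wl [1,6,1,1,1,2,5,3,3,2]) 2070 3598 = true := by decide +kernel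
theorem x195_22 : fam (wl [7,1,1,1,2,5,3,3,1,1]) 5899 1547 = true := by decide +kernel
theorem x195_23 : fam (wl [1,3,1,17,8,1,8,1]) 4127 6587 = true := by decide +kernel
theorem x195_24 : fam (wl [6,2,2,2,1,4,1,12]) 4495 1402 = true := by decide +kernel
theorem x195_25 : fam (wl [1,4,1,1,1,3,7,3,2,2]) 949 1562 = true := by decide +kernel
theorem x195_26 : fam (wl [5,1,1,1,3,7,3,2,1,1]) 7026 2493 = true := by decide +kernel
theorem x195_27 : fam (wl [1,5,2,2,2,1,4,1,11,1]) 3480 5877 = true := by decide +kernel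
/-- words with first entry from 7951 to 7991 -/
def L195 : List (List ℕ × ℕ × ℕ) := [([5,2,1,1,2,2,3,1,10],2257,838), ([1,4,2,1,1,2,2,3,1,9,1],5692,9273), ([15,3,2,1,1,30],4420,578), ([4,22,11,8],279,138), ([1,2,1,2,1,2,1,2,1,2,1,2,1,2],1,2), ([1,10,1,1,1,1,3,3,5,2],3813,6970), ([11,1,1,1,1,3,3,5,1,1],4138,713), ([3,1,2,1,2,1,2,1,2,1,2,1,1,1],7950,4261), ([1,3,22,11,7,1],7672,11553), ([1,14,3,2,1,1,29,1],3531,6603), ([1,1,1,4,6,3,9,3],5408,6962), ([1,2,1,1,1,2,1,2,6,3,1,2],6058,8782), ([3,1,1,1,2,1,2,6,3,1,1,1],1901,1047), ([2,1,4,6,3,9,2,1],2551,1819), ([2,1,1,12,25,5],3248,2578), ([1,1,1,1,12,25,4,1],4713,5687), ([3,1,3,3,1,7,1,1,7],5448,2894), ([1,1,1,7,3,1,1,15,3],1518,1982), ([2,1,7,3,1,1,15,2,1],6447,4479), ([1,2,1,3,3,1,7,1,1,6,1],2517,3699), ([4,1,17,8,1,9],3842,1554), ([1,6,1,1,1,2,5,3,3,2],2070,3598), ([7,1,1,1,2,5,3,3,1,1],5899,1547), ([1,3,1,17,8,1,8,1],4127,6587), ([6,2,2,2,1,4,1,12],4495,1402), ([1,4,1,1,1,3,7,3,2,2],949,1562), ([5,1,1,1,3,7,3,2,1,1],7026,2493),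 ([1,5,2,2,2,1,4,1,11,1],3480,5877)]
theorem r195 : rgV L195 7951 21 = true := by decide +kernel
theorem f195 : ∀ p ∈ L195, fam (wl p.1) p.2.1 p.2.2 = true := by
  intro p hp
  simp only [L195, List.mem_cons, List.not_mem_nil, or_false] at hp
  rcases hp with rfl | rfl | rfl | rfl | rfl | rfl | rfl | rfl | rfl | rfl | rfl | rfl | rfl | rfl | rfl | rfl | rfl | rfl | rfl | rfl | rfl | rfl | rfl | rfl | rfl | rfl | rfl | rfl
  · exact x195_0
  · exact x195_1
  · exact x195_2
  · exact x195_3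
  · exact x195_4
  · exact x195_5
  · exact x195_6
  · exact x195_7
  · exact x195_8
  · exact x195_9
  · exact x195_10
  · exact x195_11
  · exact x195_12
  · exact x195_13
  · exact x195_14
  · exact x195_15
  · exact x195_16
  · exact x195_17
  · exact x195_18
  · exact x195_19
  · exact x195_20
  · exact x195_21
  · exact x195_22
  · exact x195_23
  · exact x195_24
  · exact x195_25
  · exact x195_26
  · exact x195_27

end Pool.Agent.V5helper47.EV
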