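import Pool.Agent.V5helper47.EV.S2

/-! Search, part of the half words. -/

set_option maxRecDepth 1000000

namespace Pool.Agent.V5helper47.EV

open H419R2 Pool.Agent.N911 Pool.Agent.V5helper47.CN

theorem x196_0 : fam (wl [2,2,1,1,6,1,2,1,3,1,4]) 3685 3078 = true := by decide +kernel
theorem x196_1 : fam (wl [1,1,2,1,1,6,1,2,1,3,1,3,1]) 4306 5017 = true := by decide +kernel
theorem x196_2 : fam (wl [1,4,1,14,7,2,2,2]) 5485 9122 = true := by decide +kernel
theorem x196_3 : fam (wl [5,1,14,7,2,2,1,1]) 2506 845 = true := by decide +kernel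
theorem x196_4 : fam (wl [2,10,2,1,5,5,4]) 5952 5678 = true := by decide +kernel
theorem x196_5 : fam (wl [1,1,10,2,1,5,5,3,1]) 2055 2151 = true := by decide +kernel
theorem x196_6 : fam (wl [1,50,1,2,25,2]) 1885 3698 = true := by decide +kernel
theorem x196_7 : fam (wl [51,1,2,25,1,1]) 6122 237 = true := by decide +kernel
theorem x196_8 : fam (wl [2,25,2,1,12,4]) 736 722 = true := by decide +kernel
theorem x196_9 : fam (wl [1,1,25,2,1,12,3,1]) 7273 7415 = true := by decide +kernel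
theorem x196_10 : fam (wl [5,6,1,1,3,3,10]) 2777 1078 = true := by decide +kernel
theorem x196_11 : fam (wl [1,4,6,1,1,3,3,9,1]) 5238 8445 = true := by decide +kernel
theorem x196_12 : fam (wl [8,2,1,1,2,3,1,16]) 3195 762 = true := by decide +kernel
theorem x196_13 : fam (wl [1,7,2,1,1,2,3,1,15,1]) 4820 8493 = true := by decide +kernel
theorem x196_14 : fam (wl [4,12,1,2,6,8]) 4352 2134 = true := by decide +kernel
theorem x196_15 : fam (wl [2,2,1,12,6,2,1,4]) 508 434 = true := by decide +kernel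
theorem x196_16 : fam (wl [1,1,2,1,12,6,2,1,3,1]) 7509 8607 = true := by decide +kernel
theorem x196_17 : fam (wl [1,3,12,1,2,6,7,1]) 3665 5535 = true := by decide +kernel
theorem x196_18 : fam (wl [1,1,16,2,2,1,7,1,3]) 3207 3302 = true := by decide +kernel
theorem x196_19 : fam (wl [1,11,1,3,1,8,1,5,2]) 5674 10462 = true := by decide +kernel
theorem x196_20 : fam (wl [12,1,3,1,8,1,5,1,1]) 2347 367 = true := by decide +kernel
theorem x196_21 : fam (wl [2,16,2,2,1,7,1,2,1]) 4814 4673 = true := by decide +kernel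
theorem x196_22 : fam (wl [1,1,1,3,7,1,3,7,3]) 4573 5830 = true := by decide +kernel
theorem x196_23 : fam (wl [2,1,3,7,1,3,7,2,1]) 3464 2513 = true := by decide +kernel
/-- words with first entry from 7993 to 8039 -/
def L196 : List (List ℕ × ℕ × ℕ) := [([2,2,1,1,6,1,2,1,3,1,4],3685,3078), ([1,1,2,1,1,6,1,2,1,3,1,3,1],4306,5017), ([1,4,1,14,7,2,2,2],5485,9122), ([5,1,14,7,2,2,1,1],2506,845), ([2,10,2,1,5,5,4],5952,5678), ([1,1,10,2,1,5,5,3,1],2055,2151), ([1,50,1,2,25,2],1885,3698), ([51,1,2,25,1,1],6122,237), ([2,25,2,1,12,4],736,722), ([1,1,25,2,1,12,3,1],7273,7415), ([5,6,1,1,3,3,10],2777,1078), ([1,4,6,1,1,3,3,9,1],5238,8445), ([8,2,1,1,2,3,1,16],3195,762), ([1,7,2,1,1,2,3,1,15,1],4820,8493), ([4,12,1,2,6,8],4352,2134), ([2,2,1,12,6,2,1,4],508,434), ([1,1,2,1,12,6,2,1,3,1],7509,8607), ([1,3,12,1,2,6,7,1],3665,5535), ([1,1,16,2,2,1,7,1,3],3207,3302), ([1,11,1,3,1,8,1,5,2],5674,10462), ([12,1,3,1,8,1,5,1,1],2347,367), ([2,16,2,2,1,7,1,2,1],4814,4673), ([1,1,1,3,7,1,3,7,3],4573,5830),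 ([2,1,3,7,1,3,7,2,1],3464,2513)]
theorem r196 : rgV L196 7993 24 = true := by decide +kernel
theorem f196 : ∀ p ∈ L196, fam (wl p.1) p.2.1 p.2.2 = true := by
  intro p hp
  simp only [L196, List.mem_cons, List.not_mem_nil, or_false] at hp
  rcases hp with rfl | rfl | rfl | rfl | rfl | rfl | rfl | rfl | rfl | rfl | rfl | rfl | rfl | rfl | rfl | rfl | rfl | rfl | rfl | rfl | rfl | rfl | rfl | rfl
  · exact x196_0
  · exact x196_1
  · exact x196_2
  · exact x196_3
  · exact x196_4
  · exact x196_5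
  · exact x196_6
  · exact x196_7
  · exact x196_8
  · exact x196_9
  · exact x196_10
  · exact x196_11
  · exact x196_12
  · exact x196_13
  · exact x196_14
  · exact x196_15
  · exact x196_16
  · exact x196_17
  · exact x196_18
  · exact x196_19
  · exact x196_20
  · exact x196_21
  · exact x196_22
  · exact x196_23

end Pool.Agent.V5helper47.EV
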