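import Pool.Agent.V5helper47.EV.S2

/-! Search, part of the half words. -/

set_option maxRecDepth 1000000

namespace Pool.Agent.V5helper47.EV

open H419R2 Pool.Agent.N911 Pool.Agent.V5helper47.CN

theorem x197_0 : fam (wl [2,2,1,6,1,2,3,2,1,4]) 1693 1442 = true := by decide +kernel
theorem x197_1 : fam (wl [2,5,2,3,1,1,2,1,2,4]) 50 46 = true := by decide +kernel
theorem x197_2 : fam (wl [2,14,2,4,7,4]) 7211 6970 = true := by decide +kernel
theorem x197_3 : fam (wl [1,1,1,2,1,1,1,2,1,3,6,3]) 7126 9022 = true := by decide +kernel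
theorem x197_4 : fam (wl [2,1,2,1,1,1,2,1,3,6,2,1]) 913 671 = true := by decide +kernel
theorem x197_5 : fam (wl [1,1,14,2,4,7,3,1]) 828 857 = true := by decide +kernel
theorem x197_6 : fam (wl [1,1,5,2,3,1,1,2,1,2,3,1]) 7989 8663 = true := by decide +kernel
theorem x197_7 : fam (wl [1,1,2,1,6,1,2,3,2,1,3,1]) 6346 7289 = true := by decide +kernel
theorem x197_8 : fam (wl [4,1,3,3,6,1,1,9]) 4506 1890 = true := by decide +kernel
theorem x197_9 : fam (wl [1,7,11,5,1,1,3,2]) 3611 6330 = true := by decide +kernel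
theorem x197_10 : fam (wl [8,11,5,1,1,3,1,1]) 4436 1097 = true := by decide +kernel
theorem x197_11 : fam (wl [1,3,1,3,3,6,1,1,8,1]) 3541 5599 = true := by decide +kernel
theorem x197_12 : fam (wl [2,2,1,3,1,1,3,1,1,2,1,4]) 1635 1386 = true := by decide +kernel
theorem x197_13 : fam (wl [1,7,6,2,1,2,1,1,3,2]) 4359 7650 = true := by decide +kernel
theorem x197_14 : fam (wl [8,6,2,1,2,1,1,3,1,1]) 3690 905 = true := by decide +kernel
theorem x197_15 : fam (wl [1,1,2,1,3,1,1,3,1,1,2,1,3,1]) 6414 7393 = true := by decide +kernel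
theorem x197_16 : fam (wl [1,1,2,1,2,1,2,2,6,2,3]) 2298 2654 = true := by decide +kernel
theorem x197_17 : fam (wl [1,6,3,3,1,1,6,3,2]) 7395 12766 = true := by decide +kernel
theorem x197_18 : fam (wl [7,3,3,1,1,6,3,1,1]) 660 181 = true := by decide +kernel
theorem x197_19 : fam (wl [2,2,1,2,1,2,2,6,2,2,1]) 5757 4867 = true := by decide +kernel
theorem x197_20 : fam (wl [2,1,2,1,5,11,2,5]) 145 106 = true := by decide +kernel
theorem x197_21 : fam (wl [1,1,1,2,1,5,11,2,4,1]) 7912 10049 = true := by decide +kernel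
theorem x197_22 : fam (wl [36,1,2,73]) 330 18 = true := by decide +kernel
theorem x197_23 : fam (wl [1,1,1,3,2,2,4,1,7,3]) 1462 1870 = true := by decide +kernel
theorem x197_24 : fam (wl [2,1,3,2,2,4,1,7,2,1]) 6603 4763 = true := by decide +kernel
theorem x197_25 : fam (wl [1,35,1,2,72,1]) 7735 15051 = true := by decide +kernel
theorem x197_26 : fam (wl [1,1,4,1,4,1,10,1,1,1,3]) 7652 8370 = true := by decide +kernel
theorem x197_27 : fam (wl [1,7,2,4,1,1,1,2,1,3,2]) 747 1318 = true := by decide +kernel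
theorem x197_28 : fam (wl [8,2,4,1,1,1,2,1,3,1,1]) 7322 1733 = true := by decide +kernel
theorem x197_29 : fam (wl [2,4,1,4,1,10,1,1,1,2,1]) 417 379 = true := by decide +kernel
/-- words with first entry from 8041 to 8079 -/
def L197 : List (List ℕ × ℕ × ℕ) := [([2,2,1,6,1,2,3,2,1,4],1693,1442), ([2,5,2,3,1,1,2,1,2,4],50,46), ([2,14,2,4,7,4],7211,6970), ([1,1,1,2,1,1,1,2,1,3,6,3],7126,9022), ([2,1,2,1,1,1,2,1,3,6,2,1],913,671), ([1,1,14,2,4,7,3,1],828,857), ([1,1,5,2,3,1,1,2,1,2,3,1],7989,8663), ([1,1,2,1,6,1,2,3,2,1,3,1],6346,7289), ([4,1,3,3,6,1,1,9],4506,1890), ([1,7,11,5,1,1,3,2],3611,6330), ([8,11,5,1,1,3,1,1],4436,1097), ([1,3,1,3,3,6,1,1,8,1],3541,5599), ([2,2,1,3,1,1,3,1,1,2,1,4],1635,1386), ([1,7,6,2,1,2,1,1,3,2],4359,7650), ([8,6,2,1,2,1,1,3,1,1],3690,905), ([1,1,2,1,3,1,1,3,1,1,2,1,3,1],6414,7393), ([1,1,2,1,2,1,2,2,6,2,3],2298,2654), ([1,6,3,3,1,1,6,3,2],7395,12766), ([7,3,3,1,1,6,3,1,1],660,181), ([2,2,1,2,1,2,2,6,2,2,1],5757,4867),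 ([2,1,2,1,5,11,2,5],145,106), ([1,1,1,2,1,5,11,2,4,1],7912,10049), ([36,1,2,73],330,18), ([1,1,1,3,2,2,4,1,7,3],1462,1870), ([2,1,3,2,2,4,1,7,2,1],6603,4763), ([1,35,1,2,72,1],7735,15051), ([1,1,4,1,4,1,10,1,1,1,3],7652,8370), ([1,7,2,4,1,1,1,2,1,3,2],747,1318), ([8,2,4,1,1,1,2,1,3,1,1],7322,1733), ([2,4,1,4,1,10,1,1,1,2,1],417,379)]
theorem r197 : rgV L197 8041 20 = true := by decide +kernel
theorem f197 : ∀ p ∈ L197, fam (wl p.1) p.2.1 p.2.2 = true := by
  intro p hp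
  simp only [L197, List.mem_cons, List.not_mem_nil, or_false] at hp
  rcases hp with rfl | rfl | rfl | rfl | rfl | rfl | rfl | rfl | rfl | rfl | rfl | rfl | rfl | rfl | rfl | rfl | rfl | rfl | rfl | rfl | rfl | rfl | rfl | rfl | rfl | rfl | rfl | rfl | rfl | rfl
  · exact x197_0
  · exact x197_1
  · exact x197_2
  · exact x197_3
  · exact x197_4
  · exact x197_5
  · exact x197_6
  · exact x197_7
  · exact x197_8
  · exact x197_9
  · exact x197_10
  · exact x197_11
  · exact x197_12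
  · exact x197_13
  · exact x197_14
  · exact x197_15
  · exact x197_16
  · exact x197_17
  · exact x197_18
  · exact x197_19
  · exact x197_20
  · exact x197_21
  · exact x197_22
  · exact x197_23
  · exact x197_24
  · exact x197_25
  · exact x197_26
  · exact x197_27
  · exact x197_28
  · exact x197_29

end Pool.Agent.V5helper47.EV
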