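import Pool.Agent.V5helper47.EV.S2

/-! Search, part of the half words. -/

set_option maxRecDepth 1000000

namespace Pool.Agent.V5helper47.EV

open H419R2 Pool.Agent.N911 Pool.Agent.V5helper47.CN

theorem x198_0 : fam (wl [1,9,8,1,3,1,1,4,2]) 5678 10234 = true := by decide +kernel
theorem x198_1 : fam (wl [10,8,1,3,1,1,4,1,1]) 2401 475 = true := by decide +kernel
theorem x198_2 : fam (wl [2,3,2,5,2,1,2,1,1,4]) 3207 2802 = true := by decide +kernel
theorem x198_3 : fam (wl [1,1,3,2,5,2,1,2,1,1,3,1]) 4872 5489 = true := by decide +kernel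
theorem x198_4 : fam (wl [8,1,9,4,1,17]) 6988 1570 = true := by decide +kernel
theorem x198_5 : fam (wl [3,1,1,4,1,2,10,7]) 1884 1062 = true := by decide +kernel
theorem x198_6 : fam (wl [1,2,1,1,4,1,2,10,6,1]) 6197 8903 = true := by decide +kernel
theorem x198_7 : fam (wl [1,7,1,9,4,1,16,1]) 1093 1943 = true := by decide +kernel
theorem x198_8 : fam (wl [1,1,3,1,1,1,1,1,4,3,1,1,3]) 5702 6394 = true := by decide +kernel
theorem x198_9 : fam (wl [2,3,1,1,1,1,1,4,3,1,1,2,1]) 2383 2095 = true := by decide +kernel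
theorem x198_10 : fam (wl [1,1,1,2,2,2,1,5,1,5,3]) 4653 5870 = true := by decide +kernel
theorem x198_11 : fam (wl [2,1,2,2,2,1,5,1,5,2,1]) 3434 2537 = true := by decide +kernel
theorem x198_12 : fam (wl [3,1,2,4,2,1,1,1,2,7]) 1952 1058 = true := by decide +kernel
theorem x198_13 : fam (wl [1,2,1,2,4,2,1,1,1,2,6,1]) 6135 8947 = true := by decide +kernel
theorem x198_14 : fam (wl [1,1,10,2,2,2,1,4,1,3]) 3486 3646 = true := by decide +kernel
theorem x198_15 : fam (wl [1,4,3,1,1,1,3,7,2,2]) 3710 6014 = true := by decide +kernel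
theorem x198_16 : fam (wl [5,3,1,1,1,3,7,2,1,1]) 4385 1663 = true := by decide +kernel
theorem x198_17 : fam (wl [2,10,2,2,2,1,4,1,2,1]) 4609 4399 = true := by decide +kernel
theorem x198_18 : fam (wl [21,4,2,42]) 1719 162 = true := by decide +kernel
theorem x198_19 : fam (wl [2,5,1,4,9,1,2,4]) 5815 5354 = true := by decide +kernel
theorem x198_20 : fam (wl [1,1,5,1,4,9,1,2,3,1]) 2290 2473 = true := by decide +kernel
theorem x198_21 : fam (wl [1,20,4,2,41,1]) 6386 12173 = true := by decide +kernel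
theorem x198_22 : fam (wl [1,8,6,1,13,4,2]) 3259 5806 = true := by decide +kernel
theorem x198_23 : fam (wl [9,6,1,13,4,1,1]) 4850 1061 = true := by decide +kernel
theorem x198_24 : fam (wl [9,9,1,4,18]) 2503 550 = true := by decide +kernel
theorem x198_25 : fam (wl [1,1,2,2,2,2,2,2,2,2,3]) 8117 9510 = true := by decide +kernel
theorem x198_26 : fam (wl [2,2,2,2,2,2,2,2,2,2,1]) 8119 6727 = true := by decide +kernel
theorem x198_27 : fam (wl [1,8,9,1,4,17,1]) 5614 9997 = true := by decide +kernel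
/-- words with first entry from 8081 to 8119 -/
def L198 : List (List ℕ × ℕ × ℕ) := [([1,9,8,1,3,1,1,4,2],5678,10234), ([10,8,1,3,1,1,4,1,1],2401,475), ([2,3,2,5,2,1,2,1,1,4],3207,2802), ([1,1,3,2,5,2,1,2,1,1,3,1],4872,5489), ([8,1,9,4,1,17],6988,1570), ([3,1,1,4,1,2,10,7],1884,1062), ([1,2,1,1,4,1,2,10,6,1],6197,8903), ([1,7,1,9,4,1,16,1],1093,1943), ([1,1,3,1,1,1,1,1,4,3,1,1,3],5702,6394), ([2,3,1,1,1,1,1,4,3,1,1,2,1],2383,2095), ([1,1,1,2,2,2,1,5,1,5,3],4653,5870), ([2,1,2,2,2,1,5,1,5,2,1],3434,2537), ([3,1,2,4,2,1,1,1,2,7],1952,1058), ([1,2,1,2,4,2,1,1,1,2,6,1],6135,8947), ([1,1,10,2,2,2,1,4,1,3],3486,3646), ([1,4,3,1,1,1,3,7,2,2],3710,6014), ([5,3,1,1,1,3,7,2,1,1],4385,1663), ([2,10,2,2,2,1,4,1,2,1],4609,4399), ([21,4,2,42],1719,162), ([2,5,1,4,9,1,2,4],5815,5354), ([1,1,5,1,4,9,1,2,3,1],2290,2473), ([1,20,4,2,41,1],6386,12173), ([1,8,6,1,13,4,2],3259,5806), ([9,6,1,13,4,1,1],4850,1061), ([9,9,1,4,18],2503,550), ([1,1,2,2,2,2,2,2,2,2,3],8117,9510),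 ([2,2,2,2,2,2,2,2,2,2,1],8119,6727), ([1,8,9,1,4,17,1],5614,9997)]
theorem r198 : rgV L198 8081 20 = true := by decide +kernel
theorem f198 : ∀ p ∈ L198, fam (wl p.1) p.2.1 p.2.2 = true := by
  intro p hp
  simp only [L198, List.mem_cons, List.not_mem_nil, or_false] at hp
  rcases hp with rfl | rfl | rfl | rfl | rfl | rfl | rfl | rfl | rfl | rfl | rfl | rfl | rfl | rfl | rfl | rfl | rfl | rfl | rfl | rfl | rfl | rfl | rfl | rfl | rfl | rfl | rfl | rfl
  · exact x198_0
  · exact x198_1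
  · exact x198_2
  · exact x198_3
  · exact x198_4
  · exact x198_5
  · exact x198_6
  · exact x198_7
  · exact x198_8
  · exact x198_9
  · exact x198_10
  · exact x198_11
  · exact x198_12
  · exact x198_13
  · exact x198_14
  · exact x198_15
  · exact x198_16
  · exact x198_17
  · exact x198_18
  · exact x198_19
  · exact x198_20
  · exact x198_21
  · exact x198_22
  · exact x198_23
  · exact x198_24
  · exact x198_25
  · exact x198_26
  · exact x198_27

end Pool.Agent.V5helper47.EV
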