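import Pool.Agent.V5helper47.EV.S2

/-! Search, part of the half words. -/

set_option maxRecDepth 1000000

namespace Pool.Agent.V5helper47.EV

open H419R2 Pool.Agent.N911 Pool.Agent.V5helper47.CN

theorem x199_0 : fam (wl [4,3,3,1,2,1,1,1,1,8]) 3492 1622 = true := by decide +kernel
theorem x199_1 : fam (wl [1,8,1,8,4,2,4,2]) 5296 9522 = true := by decide +kernel
theorem x199_2 : fam (wl [9,1,8,4,2,4,1,1]) 2823 571 = true := by decide +kernel
theorem x199_3 : fam (wl [1,3,3,3,1,2,1,1,1,1,7,1]) 4627 7107 = true := by decide +kernel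
theorem x199_4 : fam (wl [2,6,2,1,2,5,3,4]) 3013 2794 = true := by decide +kernel
theorem x199_5 : fam (wl [1,1,6,2,1,2,5,3,3,1]) 5108 5481 = true := by decide +kernel
theorem x199_6 : fam (wl [3,8,1,2,1,2,4,6]) 2152 1382 = true := by decide +kernel
theorem x199_7 : fam (wl [1,19,1,2,5,1,9,2]) 4229 8050 = true := by decide +kernel
theorem x199_8 : fam (wl [20,1,2,5,1,9,1,1]) 3898 377 = true := by decide +kernel
theorem x199_9 : fam (wl [1,2,8,1,2,1,2,4,5,1]) 5975 8115 = true := by decide +kernel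
theorem x199_10 : fam (wl [1,1,4,3,1,1,3,1,1,1,1,1,3]) 2464 2722 = true := by decide +kernel
theorem x199_11 : fam (wl [1,2,4,1,4,1,1,1,9,1,2]) 7368 10142 = true := by decide +kernel
theorem x199_12 : fam (wl [3,4,1,4,1,1,1,9,1,1,1]) 767 479 = true := by decide +kernel
theorem x199_13 : fam (wl [2,4,3,1,1,3,1,1,1,1,1,2,1]) 5671 5079 = true := by decide +kernel
theorem x199_14 : fam (wl [8,3,3,1,1,1,1,16]) 4493 1082 = true := by decide +kernel
theorem x199_15 : fam (wl [1,3,1,2,3,2,1,1,5,1,1,2]) 875 1378 = true := by decide +kernel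
theorem x199_16 : fam (wl [4,1,2,3,2,1,1,5,1,1,1,1]) 7262 3093 = true := by decide +kernel
theorem x199_17 : fam (wl [1,7,3,3,1,1,1,1,15,1]) 3644 6413 = true := by decide +kernel
theorem x199_18 : fam (wl [1,6,8,1,17,3,2]) 7406 12730 = true := by decide +kernel
theorem x199_19 : fam (wl [1,9,1,1,3,1,1,3,1,4,2]) 3891 7046 = true := by decide +kernel
theorem x199_20 : fam (wl [10,1,1,3,1,1,3,1,4,1,1]) 4250 805 = true := by decide +kernel
theorem x199_21 : fam (wl [7,8,1,17,3,1,1]) 735 207 = true := by decide +kernel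
theorem x199_22 : fam (wl [1,1,8,5,2,1,1,3,1,3]) 1159 1226 = true := by decide +kernel
theorem x199_23 : fam (wl [2,8,5,2,1,1,3,1,2,1]) 6986 6585 = true := by decide +kernel
theorem x199_24 : fam (wl [2,1,2,10,1,4,1,2,5]) 5784 4322 = true := by decide +kernel
theorem x199_25 : fam (wl [1,1,2,6,2,2,1,2,1,2,3]) 4226 5022 = true := by decide +kernel
theorem x199_26 : fam (wl [2,2,6,2,2,1,2,1,2,2,1]) 3925 3187 = true := by decide +kernel
theorem x199_27 : fam (wl [1,1,1,2,10,1,4,1,2,4,1]) 2367 2967 = true := by decide +kernel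
/-- words with first entry from 8121 to 8157 -/
def L199 : List (List ℕ × ℕ × ℕ) := [([4,3,3,1,2,1,1,1,1,8],3492,1622), ([1,8,1,8,4,2,4,2],5296,9522), ([9,1,8,4,2,4,1,1],2823,571), ([1,3,3,3,1,2,1,1,1,1,7,1],4627,7107), ([2,6,2,1,2,5,3,4],3013,2794), ([1,1,6,2,1,2,5,3,3,1],5108,5481), ([3,8,1,2,1,2,4,6],2152,1382), ([1,19,1,2,5,1,9,2],4229,8050), ([20,1,2,5,1,9,1,1],3898,377), ([1,2,8,1,2,1,2,4,5,1],5975,8115), ([1,1,4,3,1,1,3,1,1,1,1,1,3],2464,2722), ([1,2,4,1,4,1,1,1,9,1,2],7368,10142), ([3,4,1,4,1,1,1,9,1,1,1],767,479), ([2,4,3,1,1,3,1,1,1,1,1,2,1],5671,5079), ([8,3,3,1,1,1,1,16],4493,1082), ([1,3,1,2,3,2,1,1,5,1,1,2],875,1378), ([4,1,2,3,2,1,1,5,1,1,1,1],7262,3093), ([1,7,3,3,1,1,1,1,15,1],3644,6413), ([1,6,8,1,17,3,2],7406,12730), ([1,9,1,1,3,1,1,3,1,4,2],3891,7046), ([10,1,1,3,1,1,3,1,4,1,1],4250,805), ([7,8,1,17,3,1,1],735,207), ([1,1,8,5,2,1,1,3,1,3],1159,1226), ([2,8,5,2,1,1,3,1,2,1],6986,6585), ([2,1,2,10,1,4,1,2,5],5784,4322),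 ([1,1,2,6,2,2,1,2,1,2,3],4226,5022), ([2,2,6,2,2,1,2,1,2,2,1],3925,3187), ([1,1,1,2,10,1,4,1,2,4,1],2367,2967)]
theorem r199 : rgV L199 8121 19 = true := by decide +kernel
theorem f199 : ∀ p ∈ L199, fam (wl p.1) p.2.1 p.2.2 = true := by
  intro p hp
  simp only [L199, List.mem_cons, List.not_mem_nil, or_false] at hp
  rcases hp with rfl | rfl | rfl | rfl | rfl | rfl | rfl | rfl | rfl | rfl | rfl | rfl | rfl | rfl | rfl | rfl | rfl | rfl | rfl | rfl | rfl | rfl | rfl | rfl | rfl | rfl | rfl | rfl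
  · exact x199_0
  · exact x199_1
  · exact x199_2
  · exact x199_3
  · exact x199_4
  · exact x199_5
  · exact x199_6
  · exact x199_7
  · exact x199_8
  · exact x199_9
  · exact x199_10
  · exact x199_11
  · exact x199_12
  · exact x199_13
  · exact x199_14
  · exact x199_15
  · exact x199_16
  · exact x199_17
  · exact x199_18
  · exact x199_19
  · exact x199_20
  · exact x199_21
  · exact x199_22
  · exact x199_23
  · exact x199_24
  · exact x199_25
  · exact x199_26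
  · exact x199_27

end Pool.Agent.V5helper47.EV
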