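import Pool.Agent.V5helper47.EV.S2

/-! Search, part of the half words. -/

set_option maxRecDepth 1000000

namespace Pool.Agent.V5helper47.EV

open H419R2 Pool.Agent.N911 Pool.Agent.V5helper47.CN

theorem x200_0 : fam (wl [2,16,1,1,3,8,4]) 6426 6238 = true := by decide +kernel
theorem x200_1 : fam (wl [1,2,7,1,2,2,15,1,2]) 2373 3230 = true := by decide +kernel
theorem x200_2 : fam (wl [3,7,1,2,2,15,1,1,1]) 5784 3697 = true := by decide +kernel
theorem x200_3 : fam (wl [1,1,16,1,1,3,8,3,1]) 1731 1783 = true := by decide +kernel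
theorem x200_4 : fam (wl [2,1,4,1,2,1,6,1,1,1,5]) 4767 3374 = true := by decide +kernel
theorem x200_5 : fam (wl [1,1,1,4,1,2,1,6,1,1,1,4,1]) 3392 4385 = true := by decide +kernel
theorem x200_6 : fam (wl [1,1,14,1,1,3,1,6,1,3]) 2371 2450 = true := by decide +kernel
theorem x200_7 : fam (wl [2,14,1,1,3,1,6,1,2,1]) 5788 5597 = true := by decide +kernel
theorem x200_8 : fam (wl [11,8,4,22]) 3948 710 = true := by decide +kernel
theorem x200_9 : fam (wl [2,1,4,1,1,2,1,3,1,1,1,5]) 7641 5418 = true := by decide +kernel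
theorem x200_10 : fam (wl [1,1,1,4,1,1,2,1,3,1,1,1,4,1]) 520 673 = true := by decide +kernel
theorem x200_11 : fam (wl [1,10,8,4,21,1]) 4213 7671 = true := by decide +kernel
theorem x200_12 : fam (wl [1,3,1,11,1,24,1,1,2]) 7056 11246 = true := by decide +kernel
theorem x200_13 : fam (wl [4,1,11,1,24,1,1,1,1]) 1109 451 = true := by decide +kernel
theorem x200_14 : fam (wl [6,1,3,2,4,1,1,13]) 4641 1370 = true := by decide +kernel
theorem x200_15 : fam (wl [1,5,1,3,2,4,1,1,12,1]) 3528 6017 = true := by decide +kernel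
theorem x200_16 : fam (wl [2,3,1,1,2,1,2,1,3,1,1,4]) 5090 4466 = true := by decide +kernel
theorem x200_17 : fam (wl [1,1,3,1,1,2,1,2,1,3,1,1,3,1]) 3087 3467 = true := by decide +kernel
theorem x200_18 : fam (wl [2,1,6,1,1,1,4,1,2,1,5]) 3199 2230 = true := by decide +kernel
theorem x200_19 : fam (wl [1,2,20,1,41,1,2]) 4240 5698 = true := by decide +kernel
theorem x200_20 : fam (wl [3,20,1,41,1,1,1]) 3941 2587 = true := by decide +kernel
theorem x200_21 : fam (wl [1,1,1,6,1,1,1,4,1,2,1,4,1]) 4982 6493 = true := by decide +kernel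
theorem x200_22 : fam (wl [4,1,3,1,1,2,3,1,1,9]) 5858 2450 = true := by decide +kernel
theorem x200_23 : fam (wl [2,5,2,1,1,3,2,1,2,4]) 509 466 = true := by decide +kernel
theorem x200_24 : fam (wl [1,1,5,2,1,1,3,2,1,2,3,1]) 7676 8329 = true := by decide +kernel
theorem x200_25 : fam (wl [1,3,1,3,1,1,2,3,1,1,8,1]) 2327 3683 = true := by decide +kernel
theorem x200_26 : fam (wl [63,1,127]) 8127 254 = true := by decide +kernel
theorem x200_27 : fam (wl [1,62,1,126,1]) 62 125 = true := by decide +kernel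
/-- words with first entry from 8159 to 8191 -/
def L200 : List (List ℕ × ℕ × ℕ) := [([2,16,1,1,3,8,4],6426,6238), ([1,2,7,1,2,2,15,1,2],2373,3230), ([3,7,1,2,2,15,1,1,1],5784,3697), ([1,1,16,1,1,3,8,3,1],1731,1783), ([2,1,4,1,2,1,6,1,1,1,5],4767,3374), ([1,1,1,4,1,2,1,6,1,1,1,4,1],3392,4385), ([1,1,14,1,1,3,1,6,1,3],2371,2450), ([2,14,1,1,3,1,6,1,2,1],5788,5597), ([11,8,4,22],3948,710), ([2,1,4,1,1,2,1,3,1,1,1,5],7641,5418), ([1,1,1,4,1,1,2,1,3,1,1,1,4,1],520,673), ([1,10,8,4,21,1],4213,7671), ([1,3,1,11,1,24,1,1,2],7056,11246), ([4,1,11,1,24,1,1,1,1],1109,451), ([6,1,3,2,4,1,1,13],4641,1370), ([1,5,1,3,2,4,1,1,12,1],3528,6017), ([2,3,1,1,2,1,2,1,3,1,1,4],5090,4466), ([1,1,3,1,1,2,1,2,1,3,1,1,3,1],3087,3467), ([2,1,6,1,1,1,4,1,2,1,5],3199,2230), ([1,2,20,1,41,1,2],4240,5698), ([3,20,1,41,1,1,1],3941,2587), ([1,1,1,6,1,1,1,4,1,2,1,4,1],4982,6493), ([4,1,3,1,1,2,3,1,1,9],5858,2450), ([2,5,2,1,1,3,2,1,2,4],509,466), ([1,1,5,2,1,1,3,2,1,2,3,1],7676,8329),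 ([1,3,1,3,1,1,2,3,1,1,8,1],2327,3683), ([63,1,127],8127,254), ([1,62,1,126,1],62,125)]
theorem r200 : rgV L200 8159 17 = true := by decide +kernel
theorem f200 : ∀ p ∈ L200, fam (wl p.1) p.2.1 p.2.2 = true := by
  intro p hp
  simp only [L200, List.mem_cons, List.not_mem_nil, or_false] at hp
  rcases hp with rfl | rfl | rfl | rfl | rfl | rfl | rfl | rfl | rfl | rfl | rfl | rfl | rfl | rfl | rfl | rfl | rfl | rfl | rfl | rfl | rfl | rfl | rfl | rfl | rfl | rfl | rfl | rfl
  · exact x200_0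
  · exact x200_1
  · exact x200_2
  · exact x200_3
  · exact x200_4
  · exact x200_5
  · exact x200_6
  · exact x200_7
  · exact x200_8
  · exact x200_9
  · exact x200_10
  · exact x200_11
  · exact x200_12
  · exact x200_13
  · exact x200_14
  · exact x200_15
  · exact x200_16
  · exact x200_17
  · exact x200_18
  · exact x200_19
  · exact x200_20
  · exact x200_21
  · exact x200_22
  · exact x200_23
  · exact x200_24
  · exact x200_25
  · exact x200_26
  · exact x200_27

end Pool.Agent.V5helper47.EV
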