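import Pool.Agent.V5helper47.EV.S2

/-! Search, part of the half words. -/

set_option maxRecDepth 1000000

namespace Pool.Agent.V5helper47.EV

open H419R2 Pool.Agent.N911 Pool.Agent.V5helper47.CN

theorem x201_0 : fam (wl [64,128]) 64 2 = true := by decide +kernel
theorem x201_1 : fam (wl [1,2,6,1,3,1,1,13,1,2]) 4615 6298 = true := by decide +kernel
theorem x201_2 : fam (wl [3,6,1,3,1,1,13,1,1,1]) 3576 2273 = true := by decide +kernel
theorem x201_3 : fam (wl [1,63,127,1]) 8127 16003 = true := by decide +kernel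
theorem x201_4 : fam (wl [2,2,2,1,2,2,2,5,1,4]) 2463 2034 = true := by decide +kernel
theorem x201_5 : fam (wl [1,2,21,42,1,2]) 6684 8982 = true := by decide +kernel
theorem x201_6 : fam (wl [3,21,42,1,1,1]) 1515 995 = true := by decide +kernel
theorem x201_7 : fam (wl [1,1,2,2,1,2,2,2,5,1,3,1]) 5736 6737 = true := by decide +kernel
theorem x201_8 : fam (wl [1,5,14,1,6,1,1,2,2]) 3600 6014 = true := by decide +kernel
theorem x201_9 : fam (wl [6,14,1,6,1,1,2,1,1]) 4607 1519 = true := by decide +kernel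
theorem x201_10 : fam (wl [1,1,2,2,7,3,1,2,2,3]) 2117 2474 = true := by decide +kernel
theorem x201_11 : fam (wl [2,2,2,7,3,1,2,2,2,1]) 6090 5065 = true := by decide +kernel
theorem x201_12 : fam (wl [2,3,2,1,2,5,2,1,1,4]) 4958 4318 = true := by decide +kernel
theorem x201_13 : fam (wl [1,1,1,11,1,2,24,3]) 2726 3586 = true := by decide +kernel
theorem x201_14 : fam (wl [1,3,1,12,25,1,1,2]) 4403 7018 = true := by decide +kernel
theorem x201_15 : fam (wl [1,51,2,1,25,2]) 6044 11858 = true := by decide +kernel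
theorem x201_16 : fam (wl [52,2,1,25,1,1]) 2171 83 = true := by decide +kernel
theorem x201_17 : fam (wl [4,1,12,25,1,1,1,1]) 3812 1549 = true := by decide +kernel
theorem x201_18 : fam (wl [2,1,11,1,2,24,2,1]) 5489 3759 = true := by decide +kernel
theorem x201_19 : fam (wl [1,1,3,2,1,2,5,2,1,1,3,1]) 3257 3679 = true := by decide +kernel
theorem x201_20 : fam (wl [1,1,25,1,2,12,1,3]) 6949 7082 = true := by decide +kernel
theorem x201_21 : fam (wl [2,25,1,2,12,1,2,1]) 1268 1245 = true := by decide +kernel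
theorem x201_22 : fam (wl [3,1,12,2,1,5,1,7]) 98 50 = true := by decide +kernel
theorem x201_23 : fam (wl [1,1,2,2,1,3,7,2,2,3]) 5872 6898 = true := by decide +kernel
theorem x201_24 : fam (wl [2,2,2,1,3,7,2,2,2,1]) 2353 1943 = true := by decide +kernel
theorem x201_25 : fam (wl [1,2,1,12,2,1,5,1,6,1]) 8127 12115 = true := by decide +kernel
theorem x201_26 : fam (wl [5,17,1,8,10]) 642 254 = true := by decide +kernel
theorem x201_27 : fam (wl [1,4,17,1,8,9,1]) 7587 12175 = true := by decide +kernel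
/-- words with first entry from 8193 to 8231 -/
def L201 : List (List ℕ × ℕ × ℕ) := [([64,128],64,2), ([1,2,6,1,3,1,1,13,1,2],4615,6298), ([3,6,1,3,1,1,13,1,1,1],3576,2273), ([1,63,127,1],8127,16003), ([2,2,2,1,2,2,2,5,1,4],2463,2034), ([1,2,21,42,1,2],6684,8982), ([3,21,42,1,1,1],1515,995), ([1,1,2,2,1,2,2,2,5,1,3,1],5736,6737), ([1,5,14,1,6,1,1,2,2],3600,6014), ([6,14,1,6,1,1,2,1,1],4607,1519), ([1,1,2,2,7,3,1,2,2,3],2117,2474), ([2,2,2,7,3,1,2,2,2,1],6090,5065), ([2,3,2,1,2,5,2,1,1,4],4958,4318), ([1,1,1,11,1,2,24,3],2726,3586), ([1,3,1,12,25,1,1,2],4403,7018), ([1,51,2,1,25,2],6044,11858), ([52,2,1,25,1,1],2171,83), ([4,1,12,25,1,1,1,1],3812,1549), ([2,1,11,1,2,24,2,1],5489,3759), ([1,1,3,2,1,2,5,2,1,1,3,1],3257,3679), ([1,1,25,1,2,12,1,3],6949,7082), ([2,25,1,2,12,1,2,1],1268,1245), ([3,1,12,2,1,5,1,7],98,50), ([1,1,2,2,1,3,7,2,2,3],5872,6898), ([2,2,2,1,3,7,2,2,2,1],2353,1943), ([1,2,1,12,2,1,5,1,6,1],8127,12115), ([5,17,1,8,10],642,254), ([1,4,17,1,8,9,1],7587,12175)]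
theorem r201 : rgV L201 8193 20 = true := by decide +kernel
theorem f201 : ∀ p ∈ L201, fam (wl p.1) p.2.1 p.2.2 = true := by
  intro p hp
  simp only [L201, List.mem_cons, List.not_mem_nil, or_false] at hp
  rcases hp with rfl | rfl | rfl | rfl | rfl | rfl | rfl | rfl | rfl | rfl | rfl | rfl | rfl | rfl | rfl | rfl | rfl | rfl | rfl | rfl | rfl | rfl | rfl | rfl | rfl | rfl | rfl | rfl
  · exact x201_0
  · exact x201_1
  · exact x201_2
  · exact x201_3
  · exact x201_4
  · exact x201_5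
  · exact x201_6
  · exact x201_7
  · exact x201_8
  · exact x201_9
  · exact x201_10
  · exact x201_11
  · exact x201_12
  · exact x201_13
  · exact x201_14
  · exact x201_15
  · exact x201_16
  · exact x201_17
  · exact x201_18
  · exact x201_19
  · exact x201_20
  · exact x201_21
  · exact x201_22
  · exact x201_23
  · exact x201_24
  · exact x201_25
  · exact x201_26
  · exact x201_27

end Pool.Agent.V5helper47.EV
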