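import Pool.Agent.V5helper47.EV.S2

/-! Search, part of the half words. -/

set_option maxRecDepth 1000000

namespace Pool.Agent.V5helper47.EV

open H419R2 Pool.Agent.N911 Pool.Agent.V5helper47.CN

theorem x202_0 : fam (wl [2,6,1,1,2,2,3,3,4]) 3574 3322 = true := by decide +kernel
theorem x202_1 : fam (wl [1,1,6,1,1,2,2,3,3,3,1]) 4657 4987 = true := by decide +kernel
theorem x202_2 : fam (wl [4,1,9,1,2,4,1,9]) 3508 1430 = true := by decide +kernel
theorem x202_3 : fam (wl [1,3,1,9,1,2,4,1,8,1]) 4723 7523 = true := by decide +kernel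
theorem x202_4 : fam (wl [5,5,3,1,1,1,2,10]) 6108 2354 = true := by decide +kernel
theorem x202_5 : fam (wl [4,2,3,1,2,7,1,8]) 4409 1986 = true := by decide +kernel
theorem x202_6 : fam (wl [2,3,1,3,2,1,7,1,1,4]) 2000 1766 = true := by decide +kernel
theorem x202_7 : fam (wl [1,6,9,18,3,2]) 4276 7350 = true := by decide +kernel
theorem x202_8 : fam (wl [7,9,18,3,1,1]) 3963 1115 = true := by decide +kernel
theorem x202_9 : fam (wl [1,1,3,1,3,2,1,7,1,1,3,1]) 6239 6971 = true := by decide +kernel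
theorem x202_10 : fam (wl [1,3,2,3,1,2,7,1,7,1]) 3830 5937 = true := by decide +kernel
theorem x202_11 : fam (wl [1,4,5,3,1,1,1,2,9,1]) 2131 3443 = true := by decide +kernel
theorem x202_12 : fam (wl [5,1,3,1,2,1,2,1,1,11]) 5146 1778 = true := by decide +kernel
theorem x202_13 : fam (wl [1,4,1,3,1,2,1,2,1,1,10,1]) 3095 5123 = true := by decide +kernel
theorem x202_14 : fam (wl [13,2,1,1,3,1,26]) 1165 174 = true := by decide +kernel
theorem x202_15 : fam (wl [1,2,1,21,1,10,2,1,2]) 4543 6790 = true := by decide +kernel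
theorem x202_16 : fam (wl [3,1,21,1,10,2,1,1,1]) 3704 1873 = true := by decide +kernel
theorem x202_17 : fam (wl [1,12,2,1,1,3,1,25,1]) 7082 13109 = true := by decide +kernel
theorem x202_18 : fam (wl [19,2,1,2,1,38]) 2343 242 = true := by decide +kernel
theorem x202_19 : fam (wl [7,7,2,1,3,14]) 5573 1562 = true := by decide +kernel
theorem x202_20 : fam (wl [1,6,7,2,1,3,13,1]) 2674 4601 = true := by decide +kernel
theorem x202_21 : fam (wl [1,18,2,1,2,1,37,1]) 5904 11201 = true := by decide +kernel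
theorem x202_22 : fam (wl [24,3,1,1,48]) 7067 582 = true := by decide +kernel
theorem x202_23 : fam (wl [4,1,1,1,5,1,2,3,9]) 3789 1630 = true := by decide +kernel
theorem x202_24 : fam (wl [1,3,1,1,1,5,1,2,3,8,1]) 4466 7013 = true := by decide +kernel
theorem x202_25 : fam (wl [1,23,3,1,1,47,1]) 1188 2281 = true := by decide +kernel
theorem x202_26 : fam (wl [7,1,5,1,2,2,1,15]) 2206 562 = true := by decide +kernel
theorem x202_27 : fam (wl [1,1,5,1,6,3,2,2,1,3]) 6970 7518 = true := by decide +kernel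
theorem x202_28 : fam (wl [2,5,1,6,3,2,2,1,2,1]) 1287 1187 = true := by decide +kernel
theorem x202_29 : fam (wl [1,6,1,5,1,2,2,1,14,1]) 6051 10563 = true := by decide +kernel
/-- words with first entry from 8233 to 8261 -/
def L202 : List (List ℕ × ℕ × ℕ) := [([2,6,1,1,2,2,3,3,4],3574,3322), ([1,1,6,1,1,2,2,3,3,3,1],4657,4987), ([4,1,9,1,2,4,1,9],3508,1430), ([1,3,1,9,1,2,4,1,8,1],4723,7523), ([5,5,3,1,1,1,2,10],6108,2354), ([4,2,3,1,2,7,1,8],4409,1986), ([2,3,1,3,2,1,7,1,1,4],2000,1766), ([1,6,9,18,3,2],4276,7350), ([7,9,18,3,1,1],3963,1115), ([1,1,3,1,3,2,1,7,1,1,3,1],6239,6971), ([1,3,2,3,1,2,7,1,7,1],3830,5937), ([1,4,5,3,1,1,1,2,9,1],2131,3443), ([5,1,3,1,2,1,2,1,1,11],5146,1778), ([1,4,1,3,1,2,1,2,1,1,10,1],3095,5123), ([13,2,1,1,3,1,26],1165,174), ([1,2,1,21,1,10,2,1,2],4543,6790), ([3,1,21,1,10,2,1,1,1],3704,1873), ([1,12,2,1,1,3,1,25,1],7082,13109), ([19,2,1,2,1,38],2343,242), ([7,7,2,1,3,14],5573,1562), ([1,6,7,2,1,3,13,1],2674,4601), ([1,18,2,1,2,1,37,1],5904,11201),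 ([24,3,1,1,48],7067,582), ([4,1,1,1,5,1,2,3,9],3789,1630), ([1,3,1,1,1,5,1,2,3,8,1],4466,7013), ([1,23,3,1,1,47,1],1188,2281), ([7,1,5,1,2,2,1,15],2206,562), ([1,1,5,1,6,3,2,2,1,3],6970,7518), ([2,5,1,6,3,2,2,1,2,1],1287,1187), ([1,6,1,5,1,2,2,1,14,1],6051,10563)]
theorem r202 : rgV L202 8233 15 = true := by decide +kernel
theorem f202 : ∀ p ∈ L202, fam (wl p.1) p.2.1 p.2.2 = true := by
  intro p hp
  simp only [L202, List.mem_cons, List.not_mem_nil, or_false] at hp
  rcases hp with rfl | rfl | rfl | rfl | rfl | rfl | rfl | rfl | rfl | rfl | rfl | rfl | rfl | rfl | rfl | rfl | rfl | rfl | rfl | rfl | rfl | rfl | rfl | rfl | rfl | rfl | rfl | rfl | rfl | rfl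
  · exact x202_0
  · exact x202_1
  · exact x202_2
  · exact x202_3
  · exact x202_4
  · exact x202_5
  · exact x202_6
  · exact x202_7
  · exact x202_8
  · exact x202_9
  · exact x202_10
  · exact x202_11
  · exact x202_12
  · exact x202_13
  · exact x202_14
  · exact x202_15
  · exact x202_16
  · exact x202_17
  · exact x202_18
  · exact x202_19
  · exact x202_20
  · exact x202_21
  · exact x202_22
  · exact x202_23
  · exact x202_24
  · exact x202_25
  · exact x202_26
  · exact x202_27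
  · exact x202_28
  · exact x202_29

end Pool.Agent.V5helper47.EV
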