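import Pool.Agent.V5helper47.EV.S2

/-! Search, part of the half words. -/

set_option maxRecDepth 1000000

namespace Pool.Agent.V5helper47.EV

open H419R2 Pool.Agent.N911 Pool.Agent.V5helper47.CN

theorem x203_0 : fam (wl [3,29,1,14,6]) 8187 5398 = true := by decide +kernel
theorem x203_1 : fam (wl [1,2,29,1,14,5,1]) 74 101 = true := by decide +kernel
theorem x203_2 : fam (wl [1,1,44,1,21,1,3]) 6977 7054 = true := by decide +kernel
theorem x203_3 : fam (wl [2,44,1,21,1,2,1]) 1294 1281 = true := by decide +kernel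
theorem x203_4 : fam (wl [1,8,7,14,4,2]) 351 626 = true := by decide +kernel
theorem x203_5 : fam (wl [9,7,14,4,1,1]) 7920 1733 = true := by decide +kernel
theorem x203_6 : fam (wl [1,6,1,3,2,2,1,1,2,3,2]) 5429 9462 = true := by decide +kernel
theorem x203_7 : fam (wl [1,89,1,44,2]) 6231 12326 = true := by decide +kernel
theorem x203_8 : fam (wl [90,1,44,1,1]) 2046 45 = true := by decide +kernel
theorem x203_9 : fam (wl [7,1,3,2,2,1,1,2,3,1,1]) 2848 733 = true := by decide +kernel
theorem x203_10 : fam (wl [9,1,4,2,1,1,1,19]) 1580 322 = true := by decide +kernel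
theorem x203_11 : fam (wl [2,1,9,2,4,4,1,5]) 4394 3026 = true := by decide +kernel
theorem x203_12 : fam (wl [1,1,3,2,1,3,1,1,5,1,1,3]) 260 294 = true := by decide +kernel
theorem x203_13 : fam (wl [1,90,45,2]) 2047 4050 = true := by decide +kernel
theorem x203_14 : fam (wl [91,45,1,1]) 6234 137 = true := by decide +kernel
theorem x203_15 : fam (wl [2,3,2,1,3,1,1,5,1,1,2,1]) 8021 6983 = true := by decide +kernel
theorem x203_16 : fam (wl [1,1,1,9,2,4,4,1,4,1]) 3887 5099 = true := by decide +kernel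
theorem x203_17 : fam (wl [1,8,1,4,2,1,1,1,18,1]) 6701 12039 = true := by decide +kernel
theorem x203_18 : fam (wl [1,5,5,1,1,3,2,1,1,2,2]) 237 398 = true := by decide +kernel
theorem x203_19 : fam (wl [6,5,1,1,3,2,1,1,2,1,1]) 8048 2605 = true := by decide +kernel
theorem x203_20 : fam (wl [1,1,45,22,1,3]) 5442 5502 = true := by decide +kernel
theorem x203_21 : fam (wl [1,1,7,2,2,1,4,3,1,3]) 1834 1950 = true := by decide +kernel
theorem x203_22 : fam (wl [2,7,2,2,1,4,3,1,2,1]) 6453 6047 = true := by decide +kernel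
theorem x203_23 : fam (wl [2,45,22,1,2,1]) 2845 2815 = true := by decide +kernel
theorem x203_24 : fam (wl [2,1,2,1,1,4,2,3,2,5]) 1552 1142 = true := by decide +kernel
theorem x203_25 : fam (wl [1,1,1,2,1,1,4,2,3,2,4,1]) 6737 8519 = true := by decide +kernel
theorem x203_26 : fam (wl [1,33,2,2,1,16,2]) 2495 4846 = true := by decide +kernel
theorem x203_27 : fam (wl [34,2,2,1,16,1,1]) 5800 337 = true := by decide +kernel
theorem x203_28 : fam (wl [11,4,1,2,2,22]) 3913 698 = true := by decide +kernel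
theorem x203_29 : fam (wl [1,10,4,1,2,2,21,1]) 4382 7985 = true := by decide +kernel
/-- words with first entry from 8263 to 8297 -/
def L203 : List (List ℕ × ℕ × ℕ) := [([3,29,1,14,6],8187,5398), ([1,2,29,1,14,5,1],74,101), ([1,1,44,1,21,1,3],6977,7054), ([2,44,1,21,1,2,1],1294,1281), ([1,8,7,14,4,2],351,626), ([9,7,14,4,1,1],7920,1733), ([1,6,1,3,2,2,1,1,2,3,2],5429,9462), ([1,89,1,44,2],6231,12326), ([90,1,44,1,1],2046,45), ([7,1,3,2,2,1,1,2,3,1,1],2848,733), ([9,1,4,2,1,1,1,19],1580,322), ([2,1,9,2,4,4,1,5],4394,3026), ([1,1,3,2,1,3,1,1,5,1,1,3],260,294), ([1,90,45,2],2047,4050), ([91,45,1,1],6234,137), ([2,3,2,1,3,1,1,5,1,1,2,1],8021,6983), ([1,1,1,9,2,4,4,1,4,1],3887,5099), ([1,8,1,4,2,1,1,1,18,1],6701,12039), ([1,5,5,1,1,3,2,1,1,2,2],237,398), ([6,5,1,1,3,2,1,1,2,1,1],8048,2605), ([1,1,45,22,1,3],5442,5502), ([1,1,7,2,2,1,4,3,1,3],1834,1950), ([2,7,2,2,1,4,3,1,2,1],6453,6047), ([2,45,22,1,2,1],2845,2815), ([2,1,2,1,1,4,2,3,2,5],1552,1142), ([1,1,1,2,1,1,4,2,3,2,4,1],6737,8519),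 ([1,33,2,2,1,16,2],2495,4846), ([34,2,2,1,16,1,1],5800,337), ([11,4,1,2,2,22],3913,698), ([1,10,4,1,2,2,21,1],4382,7985)]
theorem r203 : rgV L203 8263 18 = true := by decide +kernel
theorem f203 : ∀ p ∈ L203, fam (wl p.1) p.2.1 p.2.2 = true := by
  intro p hp
  simp only [L203, List.mem_cons, List.not_mem_nil, or_false] at hp
  rcases hp with rfl | rfl | rfl | rfl | rfl | rfl | rfl | rfl | rfl | rfl | rfl | rfl | rfl | rfl | rfl | rfl | rfl | rfl | rfl | rfl | rfl | rfl | rfl | rfl | rfl | rfl | rfl | rfl | rfl | rfl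
  · exact x203_0
  · exact x203_1
  · exact x203_2
  · exact x203_3
  · exact x203_4
  · exact x203_5
  · exact x203_6
  · exact x203_7
  · exact x203_8
  · exact x203_9
  · exact x203_10
  · exact x203_11
  · exact x203_12
  · exact x203_13
  · exact x203_14
  · exact x203_15
  · exact x203_16
  · exact x203_17
  · exact x203_18
  · exact x203_19
  · exact x203_20
  · exact x203_21
  · exact x203_22
  · exact x203_23
  · exact x203_24
  · exact x203_25
  · exact x203_26
  · exact x203_27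
  · exact x203_28
  · exact x203_29

end Pool.Agent.V5helper47.EV
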