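import Pool.Agent.V5helper47.EV.S2

/-! Search, part of the half words. -/

set_option maxRecDepth 1000000

namespace Pool.Agent.V5helper47.EV

open H419R2 Pool.Agent.N911 Pool.Agent.V5helper47.CN

theorem x204_0 : fam (wl [3,30,15,6]) 2842 1874 = true := by decide +kernel
theorem x204_1 : fam (wl [1,5,3,3,6,1,1,1,2,2]) 3802 6398 = true := by decide +kernel
theorem x204_2 : fam (wl [6,3,3,6,1,1,1,2,1,1]) 4495 1427 = true := by decide +kernel
theorem x204_3 : fam (wl [1,2,30,15,5,1]) 5455 7315 = true := by decide +kernel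
theorem x204_4 : fam (wl [1,1,6,6,1,2,1,1,2,1,3]) 1419 1526 = true := by decide +kernel
theorem x204_5 : fam (wl [2,6,6,1,2,1,1,2,1,2,1]) 6890 6373 = true := by decide +kernel
theorem x204_6 : fam (wl [12,2,2,4,1,24]) 732 118 = true := by decide +kernel
theorem x204_7 : fam (wl [1,1,4,1,5,11,1,1,1,3]) 7232 7910 = true := by decide +kernel
theorem x204_8 : fam (wl [1,2,1,22,11,2,1,2]) 1655 2474 = true := by decide +kernel
theorem x204_9 : fam (wl [1,3,1,2,6,3,5,1,1,2]) 156 246 = true := by decide +kernel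
theorem x204_10 : fam (wl [4,1,2,6,3,5,1,1,1,1]) 8155 3483 = true := by decide +kernel
theorem x204_11 : fam (wl [3,1,22,11,2,1,1,1]) 6656 3365 = true := by decide +kernel
theorem x204_12 : fam (wl [2,4,1,5,11,1,1,1,2,1]) 1079 979 = true := by decide +kernel
theorem x204_13 : fam (wl [1,11,2,2,4,1,23,1]) 7579 13939 = true := by decide +kernel
theorem x204_14 : fam (wl [1,9,1,4,1,10,1,4,2]) 7402 13438 = true := by decide +kernel
theorem x204_15 : fam (wl [10,1,4,1,10,1,4,1,1]) 925 171 = true := by decide +kernel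
theorem x204_16 : fam (wl [4,2,1,3,2,1,1,2,1,8]) 920 422 = true := by decide +kernel
theorem x204_17 : fam (wl [1,3,2,1,3,2,1,1,2,1,7,1]) 7407 11419 = true := by decide +kernel
theorem x204_18 : fam (wl [5,18,9,10]) 1016 402 = true := by decide +kernel
theorem x204_19 : fam (wl [1,6,2,1,1,1,3,5,3,2]) 4718 8158 = true := by decide +kernel
theorem x204_20 : fam (wl [7,2,1,1,1,3,5,3,1,1]) 3611 979 = true := by decide +kernel
theorem x204_21 : fam (wl [1,4,18,9,9,1]) 7313 11735 = true := by decide +kernel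
theorem x204_22 : fam (wl [2,13,3,1,1,1,6,4]) 3808 3670 = true := by decide +kernel
theorem x204_23 : fam (wl [1,13,3,1,2,1,1,1,6,2]) 263 490 = true := by decide +kernel
theorem x204_24 : fam (wl [14,3,1,2,1,1,1,6,1,1]) 8082 1133 = true := by decide +kernel
theorem x204_25 : fam (wl [1,1,13,3,1,1,1,6,3,1]) 4537 4703 = true := by decide +kernel
theorem x204_26 : fam (wl [9,2,2,1,5,1,18]) 4232 898 = true := by decide +kernel
theorem x204_27 : fam (wl [2,1,1,4,3,1,1,9,5]) 3550 2782 = true := by decide +kernel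
theorem x204_28 : fam (wl [1,1,1,1,4,3,1,1,9,4,1]) 4799 5839 = true := by decide +kernel
theorem x204_29 : fam (wl [1,8,2,2,1,5,1,17,1]) 4117 7363 = true := by decide +kernel
/-- words with first entry from 8299 to 8351 -/
def L204 : List (List ℕ × ℕ × ℕ) := [([3,30,15,6],2842,1874), ([1,5,3,3,6,1,1,1,2,2],3802,6398), ([6,3,3,6,1,1,1,2,1,1],4495,1427), ([1,2,30,15,5,1],5455,7315), ([1,1,6,6,1,2,1,1,2,1,3],1419,1526), ([2,6,6,1,2,1,1,2,1,2,1],6890,6373), ([12,2,2,4,1,24],732,118), ([1,1,4,1,5,11,1,1,1,3],7232,7910), ([1,2,1,22,11,2,1,2],1655,2474), ([1,3,1,2,6,3,5,1,1,2],156,246), ([4,1,2,6,3,5,1,1,1,1],8155,3483), ([3,1,22,11,2,1,1,1],6656,3365), ([2,4,1,5,11,1,1,1,2,1],1079,979), ([1,11,2,2,4,1,23,1],7579,13939), ([1,9,1,4,1,10,1,4,2],7402,13438), ([10,1,4,1,10,1,4,1,1],925,171), ([4,2,1,3,2,1,1,2,1,8],920,422), ([1,3,2,1,3,2,1,1,2,1,7,1],7407,11419), ([5,18,9,10],1016,402), ([1,6,2,1,1,1,3,5,3,2],4718,8158), ([7,2,1,1,1,3,5,3,1,1],3611,979), ([1,4,18,9,9,1],7313,11735),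 ([2,13,3,1,1,1,6,4],3808,3670), ([1,13,3,1,2,1,1,1,6,2],263,490), ([14,3,1,2,1,1,1,6,1,1],8082,1133), ([1,1,13,3,1,1,1,6,3,1],4537,4703), ([9,2,2,1,5,1,18],4232,898), ([2,1,1,4,3,1,1,9,5],3550,2782), ([1,1,1,1,4,3,1,1,9,4,1],4799,5839), ([1,8,2,2,1,5,1,17,1],4117,7363)]
theorem r204 : rgV L204 8299 27 = true := by decide +kernel
theorem f204 : ∀ p ∈ L204, fam (wl p.1) p.2.1 p.2.2 = true := by
  intro p hp
  simp only [L204, List.mem_cons, List.not_mem_nil, or_false] at hp
  rcases hp with rfl | rfl | rfl | rfl | rfl | rfl | rfl | rfl | rfl | rfl | rfl | rfl | rfl | rfl | rfl | rfl | rfl | rfl | rfl | rfl | rfl | rfl | rfl | rfl | rfl | rfl | rfl | rfl | rfl | rfl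
  · exact x204_0
  · exact x204_1
  · exact x204_2
  · exact x204_3
  · exact x204_4
  · exact x204_5
  · exact x204_6
  · exact x204_7
  · exact x204_8
  · exact x204_9
  · exact x204_10
  · exact x204_11
  · exact x204_12
  · exact x204_13
  · exact x204_14
  · exact x204_15
  · exact x204_16
  · exact x204_17
  · exact x204_18
  · exact x204_19
  · exact x204_20
  · exact x204_21
  · exact x204_22
  · exact x204_23
  · exact x204_24
  · exact x204_25
  · exact x204_26
  · exact x204_27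
  · exact x204_28
  · exact x204_29

end Pool.Agent.V5helper47.EV
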