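import Pool.Agent.V5helper47.EV.S2

/-! Search, part of the half words. -/

set_option maxRecDepth 1000000

namespace Pool.Agent.V5helper47.EV

open H419R2 Pool.Agent.N911 Pool.Agent.V5helper47.CN

theorem x205_0 : fam (wl [1,7,2,1,1,1,4,2,1,3,2]) 6689 11782 = true := by decide +kernel
theorem x205_1 : fam (wl [8,2,1,1,1,4,2,1,3,1,1]) 1662 397 = true := by decide +kernel
theorem x205_2 : fam (wl [1,5,15,7,1,1,2,2]) 3296 5506 = true := by decide +kernel
theorem x205_3 : fam (wl [6,15,7,1,1,2,1,1]) 5055 1667 = true := by decide +kernel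
theorem x205_4 : fam (wl [2,10,1,1,2,3,5,4]) 4241 4050 = true := by decide +kernel
theorem x205_5 : fam (wl [1,11,1,4,9,1,5,2]) 6305 11626 = true := by decide +kernel
theorem x205_6 : fam (wl [12,1,4,9,1,5,1,1]) 2054 321 = true := by decide +kernel
theorem x205_7 : fam (wl [1,1,10,1,1,2,3,5,3,1]) 4118 4305 = true := by decide +kernel
theorem x205_8 : fam (wl [37,2,1,74]) 336 18 = true := by decide +kernel
theorem x205_9 : fam (wl [1,36,2,1,73,1]) 8025 15623 = true := by decide +kernel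
theorem x205_10 : fam (wl [2,4,6,1,13,2,4]) 1423 1270 = true := by decide +kernel
theorem x205_11 : fam (wl [1,1,4,6,1,13,2,3,1]) 6944 7693 = true := by decide +kernel
theorem x205_12 : fam (wl [1,5,1,2,4,2,5,1,2,2]) 2190 3726 = true := by decide +kernel
theorem x205_13 : fam (wl [6,1,2,4,2,5,1,2,1,1]) 6177 1847 = true := by decide +kernel
theorem x205_14 : fam (wl [14,1,5,2,1,29]) 5358 722 = true := by decide +kernel
theorem x205_15 : fam (wl [1,3,1,6,1,2,14,1,1,2]) 1068 1698 = true := by decide +kernel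
theorem x205_16 : fam (wl [4,1,6,1,2,14,1,1,1,1]) 7301 2999 = true := by decide +kernel
theorem x205_17 : fam (wl [1,13,1,5,2,1,28,1]) 3011 5619 = true := by decide +kernel
theorem x205_18 : fam (wl [1,1,1,1,3,4,1,1,1,1,1,3,3]) 4352 5314 = true := by decide +kernel
theorem x205_19 : fam (wl [2,1,1,3,4,1,1,1,1,1,3,2,1]) 4023 3135 = true := by decide +kernel
theorem x205_20 : fam (wl [1,1,5,1,1,3,1,1,3,2,1,3]) 445 482 = true := by decide +kernel
theorem x205_21 : fam (wl [2,5,1,1,3,1,1,3,2,1,2,1]) 7930 7277 = true := by decide +kernel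
theorem x205_22 : fam (wl [15,1,2,2,2,31]) 4539 578 = true := by decide +kernel
theorem x205_23 : fam (wl [1,14,1,2,2,2,30,1]) 3846 7205 = true := by decide +kernel
theorem x205_24 : fam (wl [1,1,3,8,1,17,1,1,3]) 5437 6190 = true := by decide +kernel
theorem x205_25 : fam (wl [1,1,1,2,1,2,2,2,2,6,3]) 3741 4742 = true := by decide +kernel
theorem x205_26 : fam (wl [2,1,2,1,2,2,2,2,6,2,1]) 4658 3413 = true := by decide +kernel
theorem x205_27 : fam (wl [2,3,8,1,17,1,1,2,1]) 2962 2553 = true := by decide +kernel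
/-- words with first entry from 8353 to 8401 -/
def L205 : List (List ℕ × ℕ × ℕ) := [([1,7,2,1,1,1,4,2,1,3,2],6689,11782), ([8,2,1,1,1,4,2,1,3,1,1],1662,397), ([1,5,15,7,1,1,2,2],3296,5506), ([6,15,7,1,1,2,1,1],5055,1667), ([2,10,1,1,2,3,5,4],4241,4050), ([1,11,1,4,9,1,5,2],6305,11626), ([12,1,4,9,1,5,1,1],2054,321), ([1,1,10,1,1,2,3,5,3,1],4118,4305), ([37,2,1,74],336,18), ([1,36,2,1,73,1],8025,15623), ([2,4,6,1,13,2,4],1423,1270), ([1,1,4,6,1,13,2,3,1],6944,7693), ([1,5,1,2,4,2,5,1,2,2],2190,3726), ([6,1,2,4,2,5,1,2,1,1],6177,1847), ([14,1,5,2,1,29],5358,722), ([1,3,1,6,1,2,14,1,1,2],1068,1698), ([4,1,6,1,2,14,1,1,1,1],7301,2999), ([1,13,1,5,2,1,28,1],3011,5619), ([1,1,1,1,3,4,1,1,1,1,1,3,3],4352,5314), ([2,1,1,3,4,1,1,1,1,1,3,2,1],4023,3135), ([1,1,5,1,1,3,1,1,3,2,1,3],445,482), ([2,5,1,1,3,1,1,3,2,1,2,1],7930,7277), ([15,1,2,2,2,31],4539,578), ([1,14,1,2,2,2,30,1],3846,7205), ([1,1,3,8,1,17,1,1,3],5437,6190), ([1,1,1,2,1,2,2,2,2,6,3],3741,4742),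 ([2,1,2,1,2,2,2,2,6,2,1],4658,3413), ([2,3,8,1,17,1,1,2,1],2962,2553)]
theorem r205 : rgV L205 8353 25 = true := by decide +kernel
theorem f205 : ∀ p ∈ L205, fam (wl p.1) p.2.1 p.2.2 = true := by
  intro p hp
  simp only [L205, List.mem_cons, List.not_mem_nil, or_false] at hp
  rcases hp with rfl | rfl | rfl | rfl | rfl | rfl | rfl | rfl | rfl | rfl | rfl | rfl | rfl | rfl | rfl | rfl | rfl | rfl | rfl | rfl | rfl | rfl | rfl | rfl | rfl | rfl | rfl | rfl
  · exact x205_0
  · exact x205_1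
  · exact x205_2
  · exact x205_3
  · exact x205_4
  · exact x205_5
  · exact x205_6
  · exact x205_7
  · exact x205_8
  · exact x205_9
  · exact x205_10
  · exact x205_11
  · exact x205_12
  · exact x205_13
  · exact x205_14
  · exact x205_15
  · exact x205_16
  · exact x205_17
  · exact x205_18
  · exact x205_19
  · exact x205_20
  · exact x205_21
  · exact x205_22
  · exact x205_23
  · exact x205_24
  · exact x205_25
  · exact x205_26
  · exact x205_27

end Pool.Agent.V5helper47.EV
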