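import Pool.Agent.V5helper47.EV.T7
import Pool.Agent.V5helper47.EV.W165
import Pool.Agent.V5helper47.EV.W166
import Pool.Agent.V5helper47.EV.W167
import Pool.Agent.V5helper47.EV.W168
import Pool.Agent.V5helper47.EV.W169
import Pool.Agent.V5helper47.EV.W170
import Pool.Agent.V5helper47.EV.W171
import Pool.Agent.V5helper47.EV.W172
import Pool.Agent.V5helper47.EV.W173
import Pool.Agent.V5helper47.EV.W174
import Pool.Agent.V5helper47.EV.W175
import Pool.Agent.V5helper47.EV.W176
import Pool.Agent.V5helper47.EV.W177
import Pool.Agent.V5helper47.EV.W178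
import Pool.Agent.V5helper47.EV.W179
import Pool.Agent.V5helper47.EV.W180
import Pool.Agent.V5helper47.EV.W181
import Pool.Agent.V5helper47.EV.W182
import Pool.Agent.V5helper47.EV.W183
import Pool.Agent.V5helper47.EV.W184
import Pool.Agent.V5helper47.EV.W185
import Pool.Agent.V5helper47.EV.W186
import Pool.Agent.V5helper47.EV.W187
import Pool.Agent.V5helper47.EV.W188
import Pool.Agent.V5helper47.EV.W189
import Pool.Agent.V5helper47.EV.W190
import Pool.Agent.V5helper47.EV.W191
import Pool.Agent.V5helper47.EV.W192
import Pool.Agent.V5helper47.EV.W193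
import Pool.Agent.V5helper47.EV.W194
import Pool.Agent.V5helper47.EV.W195
import Pool.Agent.V5helper47.EV.W196
import Pool.Agent.V5helper47.EV.W197
import Pool.Agent.V5helper47.EV.W198
import Pool.Agent.V5helper47.EV.W199
import Pool.Agent.V5helper47.EV.W200
import Pool.Agent.V5helper47.EV.W201
import Pool.Agent.V5helper47.EV.W202
import Pool.Agent.V5helper47.EV.W203
import Pool.Agent.V5helper47.EV.W204
import Pool.Agent.V5helper47.EV.W205

/-! Half words, part of the range. -/

set_option maxRecDepth 1000000

namespace Pool.Agent.V5helper47.EV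

open H419R2 Pool.Agent.N911 Pool.Agent.V5helper47.CN

theorem full_5 {w : WL} (hw : w.Pos) (h0 : 6777 ≤ (mat w).1) (hB : (mat w).1 ≤ 8402)
    (hodd : (mat w).1 % 2 = 1)
    (hval : ∃ b m, b * (mat w).1 + 2 * (mat w).2.1 = m * (mat w).1 + (mat w).2.2.1) :
    ∃ b0 P0, fam w b0 P0 = true := by
  by_cases g0 : (mat w).1 ≤ 6816
  · exact fam_of_range r165 f165 hw (by norm_num) (by norm_num) (by omega) (by omega) hodd hval
  by_cases g1 : (mat w).1 ≤ 6842
  · exact fam_of_range r166 f166 hw (by norm_num) (by norm_num) (by omega) (by omega) hodd hval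
  by_cases g2 : (mat w).1 ≤ 6886
  · exact fam_of_range r167 f167 hw (by norm_num) (by norm_num) (by omega) (by omega) hodd hval
  by_cases g3 : (mat w).1 ≤ 6920
  · exact fam_of_range r168 f168 hw (by norm_num) (by norm_num) (by omega) (by omega) hodd hval
  by_cases g4 : (mat w).1 ≤ 6962
  · exact fam_of_range r169 f169 hw (by norm_num) (by norm_num) (by omega) (by omega) hodd hval
  by_cases g5 : (mat w).1 ≤ 7000
  · exact fam_of_range r170 f170 hw (by norm_num) (by norm_num) (by omega) (by omega) hodd hval
  by_cases g6 : (mat w).1 ≤ 7040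
  · exact fam_of_range r171 f171 hw (by norm_num) (by norm_num) (by omega) (by omega) hodd hval
  by_cases g7 : (mat w).1 ≤ 7080
  · exact fam_of_range r172 f172 hw (by norm_num) (by norm_num) (by omega) (by omega) hodd hval
  by_cases g8 : (mat w).1 ≤ 7120
  · exact fam_of_range r173 f173 hw (by norm_num) (by norm_num) (by omega) (by omega) hodd hval
  by_cases g9 : (mat w).1 ≤ 7168
  · exact fam_of_range r174 f174 hw (by norm_num) (by norm_num) (by omega) (by omega) hodd hval
  by_cases g10 : (mat w).1 ≤ 7208
  · exact fam_of_range r175 f175 hw (by norm_num) (by norm_num) (by omega) (by omega) hodd hval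
  by_cases g11 : (mat w).1 ≤ 7232
  · exact fam_of_range r176 f176 hw (by norm_num) (by norm_num) (by omega) (by omega) hodd hval
  by_cases g12 : (mat w).1 ≤ 7280
  · exact fam_of_range r177 f177 hw (by norm_num) (by norm_num) (by omega) (by omega) hodd hval
  by_cases g13 : (mat w).1 ≤ 7326
  · exact fam_of_range r178 f178 hw (by norm_num) (by norm_num) (by omega) (by omega) hodd hval
  by_cases g14 : (mat w).1 ≤ 7360
  · exact fam_of_range r179 f179 hw (by norm_num) (by norm_num) (by omega) (by omega) hodd hval
  by_cases g15 : (mat w).1 ≤ 7400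
  · exact fam_of_range r180 f180 hw (by norm_num) (by norm_num) (by omega) (by omega) hodd hval
  by_cases g16 : (mat w).1 ≤ 7442
  · exact fam_of_range r181 f181 hw (by norm_num) (by norm_num) (by omega) (by omega) hodd hval
  by_cases g17 : (mat w).1 ≤ 7480
  · exact fam_of_range r182 f182 hw (by norm_num) (by norm_num) (by omega) (by omega) hodd hval
  by_cases g18 : (mat w).1 ≤ 7522
  · exact fam_of_range r183 f183 hw (by norm_num) (by norm_num) (by omega) (by omega) hodd hval
  by_cases g19 : (mat w).1 ≤ 7566
  · exact fam_of_range r184 f184 hw (by norm_num) (by norm_num) (by omega) (by omega) hodd hval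
  by_cases g20 : (mat w).1 ≤ 7600
  · exact fam_of_range r185 f185 hw (by norm_num) (by norm_num) (by omega) (by omega) hodd hval
  by_cases g21 : (mat w).1 ≤ 7632
  · exact fam_of_range r186 f186 hw (by norm_num) (by norm_num) (by omega) (by omega) hodd hval
  by_cases g22 : (mat w).1 ≤ 7666
  · exact fam_of_range r187 f187 hw (by norm_num) (by norm_num) (by omega) (by omega) hodd hval
  by_cases g23 : (mat w).1 ≤ 7690
  · exact fam_of_range r188 f188 hw (by norm_num) (by norm_num) (by omega) (by omega) hodd hval
  by_cases g24 : (mat w).1 ≤ 7736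
  · exact fam_of_range r189 f189 hw (by norm_num) (by norm_num) (by omega) (by omega) hodd hval
  by_cases g25 : (mat w).1 ≤ 7792
  · exact fam_of_range r190 f190 hw (by norm_num) (by norm_num) (by omega) (by omega) hodd hval
  by_cases g26 : (mat w).1 ≤ 7830
  · exact fam_of_range r191 f191 hw (by norm_num) (by norm_num) (by omega) (by omega) hodd hval
  by_cases g27 : (mat w).1 ≤ 7878
  · exact fam_of_range r192 f192 hw (by norm_num) (by norm_num) (by omega) (by omega) hodd hval
  by_cases g28 : (mat w).1 ≤ 7920
  · exact fam_of_range r193 f193 hw (by norm_num) (by norm_num) (by omega) (by omega) hodd hval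
  by_cases g29 : (mat w).1 ≤ 7950
  · exact fam_of_range r194 f194 hw (by norm_num) (by norm_num) (by omega) (by omega) hodd hval
  by_cases g30 : (mat w).1 ≤ 7992
  · exact fam_of_range r195 f195 hw (by norm_num) (by norm_num) (by omega) (by omega) hodd hval
  by_cases g31 : (mat w).1 ≤ 8040
  · exact fam_of_range r196 f196 hw (by norm_num) (by norm_num) (by omega) (by omega) hodd hval
  by_cases g32 : (mat w).1 ≤ 8080
  · exact fam_of_range r197 f197 hw (by norm_num) (by norm_num) (by omega) (by omega) hodd hval
  by_cases g33 : (mat w).1 ≤ 8120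
  · exact fam_of_range r198 f198 hw (by norm_num) (by norm_num) (by omega) (by omega) hodd hval
  by_cases g34 : (mat w).1 ≤ 8158
  · exact fam_of_range r199 f199 hw (by norm_num) (by norm_num) (by omega) (by omega) hodd hval
  by_cases g35 : (mat w).1 ≤ 8192
  · exact fam_of_range r200 f200 hw (by norm_num) (by norm_num) (by omega) (by omega) hodd hval
  by_cases g36 : (mat w).1 ≤ 8232
  · exact fam_of_range r201 f201 hw (by norm_num) (by norm_num) (by omega) (by omega) hodd hval
  by_cases g37 : (mat w).1 ≤ 8262
  · exact fam_of_range r202 f202 hw (by norm_num) (by norm_num) (by omega) (by omega) hodd hval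
  by_cases g38 : (mat w).1 ≤ 8298
  · exact fam_of_range r203 f203 hw (by norm_num) (by norm_num) (by omega) (by omega) hodd hval
  by_cases g39 : (mat w).1 ≤ 8352
  · exact fam_of_range r204 f204 hw (by norm_num) (by norm_num) (by omega) (by omega) hodd hval
  exact fam_of_range r205 f205 hw (by norm_num) (by norm_num) (by omega) (by omega) hodd hval

end Pool.Agent.V5helper47.EV
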