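import Pool.Agent.V5helper47.EV.S2

/-! Search, part of the half words. -/

set_option maxRecDepth 1000000

namespace Pool.Agent.V5helper47.EV

open H419R2 Pool.Agent.N911 Pool.Agent.V5helper47.CN

theorem x206_0 : fam (wl [2,1,2,1,2,1,2,6,2,5]) 385 282 = true := by decide +kernel
theorem x206_1 : fam (wl [1,29,1,1,3,1,14,2]) 1481 2866 = true := by decide +kernel
theorem x206_2 : fam (wl [30,1,1,3,1,14,1,1]) 6920 453 = true := by decide +kernel
theorem x206_3 : fam (wl [1,1,1,2,1,2,1,2,6,2,4,1]) 8016 10165 = true := by decide +kernel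
theorem x206_4 : fam (wl [1,4,2,7,1,3,4,2,2]) 784 1282 = true := by decide +kernel
theorem x206_5 : fam (wl [1,8,1,2,1,1,3,1,2,4,2]) 4533 8134 = true := by decide +kernel
theorem x206_6 : fam (wl [9,1,2,1,1,3,1,2,4,1,1]) 3872 797 = true := by decide +kernel
theorem x206_7 : fam (wl [5,2,7,1,3,4,2,1,1]) 7621 2787 = true := by decide +kernel
theorem x206_8 : fam (wl [3,2,2,2,1,2,1,4,1,6]) 7484 4386 = true := by decide +kernel
theorem x206_9 : fam (wl [2,1,2,11,5,1,2,5]) 5596 4182 = true := by decide +kernel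
theorem x206_10 : fam (wl [1,1,1,2,11,5,1,2,4,1]) 2811 3523 = true := by decide +kernel
theorem x206_11 : fam (wl [1,2,2,2,2,1,2,1,4,1,5,1]) 923 1307 = true := by decide +kernel
theorem x206_12 : fam (wl [3,1,3,4,8,1,1,7]) 3783 2010 = true := by decide +kernel
theorem x206_13 : fam (wl [2,1,2,3,2,4,1,1,2,5]) 3200 2374 = true := by decide +kernel
theorem x206_14 : fam (wl [1,1,1,2,3,2,4,1,1,2,4,1]) 5215 6563 = true := by decide +kernel
theorem x206_15 : fam (wl [1,2,1,3,4,8,1,1,6,1]) 4632 6805 = true := by decide +kernel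
theorem x206_16 : fam (wl [6,1,1,2,2,1,5,13]) 3050 926 = true := by decide +kernel
theorem x206_17 : fam (wl [1,5,1,1,2,2,1,5,12,1]) 5367 9107 = true := by decide +kernel
theorem x206_18 : fam (wl [2,7,1,2,1,6,1,3,4]) 7075 6646 = true := by decide +kernel
theorem x206_19 : fam (wl [1,1,7,1,2,1,6,1,3,3,1]) 1346 1429 = true := by decide +kernel
theorem x206_20 : fam (wl [1,3,8,2,2,1,3,1,1,1,2]) 7732 11710 = true := by decide +kernel
theorem x206_21 : fam (wl [4,8,2,2,1,3,1,1,1,1,1]) 697 339 = true := by decide +kernel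
theorem x206_22 : fam (wl [3,17,2,1,8,6]) 6320 4134 = true := by decide +kernel
theorem x206_23 : fam (wl [1,1,3,1,1,5,2,1,3,1,1,3]) 7630 8574 = true := by decide +kernel
theorem x206_24 : fam (wl [2,3,1,1,5,2,1,3,1,1,2,1]) 801 703 = true := by decide +kernel
theorem x206_25 : fam (wl [1,2,17,2,1,8,5,1]) 2111 2843 = true := by decide +kernel
theorem x206_26 : fam (wl [4,2,2,3,1,1,4,1,8]) 3356 1522 = true := by decide +kernel
theorem x206_27 : fam (wl [1,1,1,20,1,42,3]) 627 830 = true := by decide +kernel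
theorem x206_28 : fam (wl [2,1,20,1,42,2,1]) 7812 5289 = true := by decide +kernel
theorem x206_29 : fam (wl [1,3,2,2,3,1,1,4,1,7,1]) 5083 7863 = true := by decide +kernel
/-- words with first entry from 8403 to 8441 -/
def L206 : List (List ℕ × ℕ × ℕ) := [([2,1,2,1,2,1,2,6,2,5],385,282), ([1,29,1,1,3,1,14,2],1481,2866), ([30,1,1,3,1,14,1,1],6920,453), ([1,1,1,2,1,2,1,2,6,2,4,1],8016,10165), ([1,4,2,7,1,3,4,2,2],784,1282), ([1,8,1,2,1,1,3,1,2,4,2],4533,8134), ([9,1,2,1,1,3,1,2,4,1,1],3872,797), ([5,2,7,1,3,4,2,1,1],7621,2787), ([3,2,2,2,1,2,1,4,1,6],7484,4386), ([2,1,2,11,5,1,2,5],5596,4182), ([1,1,1,2,11,5,1,2,4,1],2811,3523), ([1,2,2,2,2,1,2,1,4,1,5,1],923,1307), ([3,1,3,4,8,1,1,7],3783,2010), ([2,1,2,3,2,4,1,1,2,5],3200,2374), ([1,1,1,2,3,2,4,1,1,2,4,1],5215,6563), ([1,2,1,3,4,8,1,1,6,1],4632,6805), ([6,1,1,2,2,1,5,13],3050,926), ([1,5,1,1,2,2,1,5,12,1],5367,9107), ([2,7,1,2,1,6,1,3,4],7075,6646), ([1,1,7,1,2,1,6,1,3,3,1],1346,1429),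 ([1,3,8,2,2,1,3,1,1,1,2],7732,11710), ([4,8,2,2,1,3,1,1,1,1,1],697,339), ([3,17,2,1,8,6],6320,4134), ([1,1,3,1,1,5,2,1,3,1,1,3],7630,8574), ([2,3,1,1,5,2,1,3,1,1,2,1],801,703), ([1,2,17,2,1,8,5,1],2111,2843), ([4,2,2,3,1,1,4,1,8],3356,1522), ([1,1,1,20,1,42,3],627,830), ([2,1,20,1,42,2,1],7812,5289), ([1,3,2,2,3,1,1,4,1,7,1],5083,7863)]
theorem r206 : rgV L206 8403 20 = true := by decide +kernel
theorem f206 : ∀ p ∈ L206, fam (wl p.1) p.2.1 p.2.2 = true := by
  intro p hp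
  simp only [L206, List.mem_cons, List.not_mem_nil, or_false] at hp
  rcases hp with rfl | rfl | rfl | rfl | rfl | rfl | rfl | rfl | rfl | rfl | rfl | rfl | rfl | rfl | rfl | rfl | rfl | rfl | rfl | rfl | rfl | rfl | rfl | rfl | rfl | rfl | rfl | rfl | rfl | rfl
  · exact x206_0
  · exact x206_1
  · exact x206_2
  · exact x206_3
  · exact x206_4
  · exact x206_5
  · exact x206_6
  · exact x206_7
  · exact x206_8
  · exact x206_9
  · exact x206_10
  · exact x206_11
  · exact x206_12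
  · exact x206_13
  · exact x206_14
  · exact x206_15
  · exact x206_16
  · exact x206_17
  · exact x206_18
  · exact x206_19
  · exact x206_20
  · exact x206_21
  · exact x206_22
  · exact x206_23
  · exact x206_24
  · exact x206_25
  · exact x206_26
  · exact x206_27
  · exact x206_28
  · exact x206_29

end Pool.Agent.V5helper47.EV
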