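import Pool.Agent.V5helper47.EV.S2

/-! Search, part of the half words. -/

set_option maxRecDepth 1000000

namespace Pool.Agent.V5helper47.EV

open H419R2 Pool.Agent.N911 Pool.Agent.V5helper47.CN

theorem x207_0 : fam (wl [9,10,5,18]) 6778 1490 = true := by decide +kernel
theorem x207_1 : fam (wl [1,8,10,5,17,1]) 1663 2963 = true := by decide +kernel
theorem x207_2 : fam (wl [3,2,1,1,4,1,1,1,3,1,6]) 7670 4522 = true := by decide +kernel
theorem x207_3 : fam (wl [1,2,2,1,1,4,1,1,1,3,1,5,1]) 775 1095 = true := by decide +kernel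
theorem x207_4 : fam (wl [64,1,129]) 8384 258 = true := by decide +kernel
theorem x207_5 : fam (wl [3,3,8,1,3,1,1,1,6]) 2866 1726 = true := by decide +kernel
theorem x207_6 : fam (wl [1,1,10,1,1,1,4,1,4,1,3]) 6927 7238 = true := by decide +kernel
theorem x207_7 : fam (wl [1,4,4,1,2,2,9,2,2]) 1409 2278 = true := by decide +kernel
theorem x207_8 : fam (wl [5,4,1,2,2,9,2,1,1]) 7038 2701 = true := by decide +kernel
theorem x207_9 : fam (wl [2,10,1,1,1,4,1,4,1,2,1]) 1520 1453 = true := by decide +kernel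
theorem x207_10 : fam (wl [1,2,3,8,1,3,1,1,1,5,1]) 5581 7803 = true := by decide +kernel
theorem x207_11 : fam (wl [1,63,1,128,1]) 63 127 = true := by decide +kernel
theorem x207_12 : fam (wl [65,130]) 65 2 = true := by decide +kernel
theorem x207_13 : fam (wl [6,8,1,2,4,12]) 2024 662 = true := by decide +kernel
theorem x207_14 : fam (wl [1,5,8,1,2,4,11,1]) 6425 10751 = true := by decide +kernel
theorem x207_15 : fam (wl [1,64,129,1]) 8384 16513 = true := by decide +kernel
theorem x207_16 : fam (wl [2,1,2,2,2,2,2,2,2,5]) 4832 3570 = true := by decide +kernel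
theorem x207_17 : fam (wl [1,26,1,2,1,2,13,2]) 5503 10610 = true := by decide +kernel
theorem x207_18 : fam (wl [27,1,2,1,2,13,1,1]) 2952 213 = true := by decide +kernel
theorem x207_19 : fam (wl [1,1,1,2,2,2,2,2,2,2,4,1]) 3623 4571 = true := by decide +kernel
theorem x207_20 : fam (wl [8,1,1,1,1,2,4,17]) 2610 606 = true := by decide +kernel
theorem x207_21 : fam (wl [1,1,1,21,43,3]) 2190 2898 = true := by decide +kernel
theorem x207_22 : fam (wl [2,1,21,43,2,1]) 6267 4243 = true := by decide +kernel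
theorem x207_23 : fam (wl [1,7,1,1,1,1,2,4,16,1]) 5847 10339 = true := by decide +kernel
theorem x207_24 : fam (wl [5,1,2,1,2,5,2,11]) 2194 766 = true := by decide +kernel
theorem x207_25 : fam (wl [1,4,1,2,1,2,5,2,10,1]) 6271 10355 = true := by decide +kernel
/-- words with first entry from 8443 to 8479 -/
def L207 : List (List ℕ × ℕ × ℕ) := [([9,10,5,18],6778,1490), ([1,8,10,5,17,1],1663,2963), ([3,2,1,1,4,1,1,1,3,1,6],7670,4522), ([1,2,2,1,1,4,1,1,1,3,1,5,1],775,1095), ([64,1,129],8384,258), ([3,3,8,1,3,1,1,1,6],2866,1726), ([1,1,10,1,1,1,4,1,4,1,3],6927,7238), ([1,4,4,1,2,2,9,2,2],1409,2278), ([5,4,1,2,2,9,2,1,1],7038,2701), ([2,10,1,1,1,4,1,4,1,2,1],1520,1453), ([1,2,3,8,1,3,1,1,1,5,1],5581,7803), ([1,63,1,128,1],63,127), ([65,130],65,2), ([6,8,1,2,4,12],2024,662), ([1,5,8,1,2,4,11,1],6425,10751), ([1,64,129,1],8384,16513), ([2,1,2,2,2,2,2,2,2,5],4832,3570), ([1,26,1,2,1,2,13,2],5503,10610), ([27,1,2,1,2,13,1,1],2952,213), ([1,1,1,2,2,2,2,2,2,2,4,1],3623,4571), ([8,1,1,1,1,2,4,17],2610,606),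 ([1,1,1,21,43,3],2190,2898), ([2,1,21,43,2,1],6267,4243), ([1,7,1,1,1,1,2,4,16,1],5847,10339), ([5,1,2,1,2,5,2,11],2194,766), ([1,4,1,2,1,2,5,2,10,1],6271,10355)]
theorem r207 : rgV L207 8443 19 = true := by decide +kernel
theorem f207 : ∀ p ∈ L207, fam (wl p.1) p.2.1 p.2.2 = true := by
  intro p hp
  simp only [L207, List.mem_cons, List.not_mem_nil, or_false] at hp
  rcases hp with rfl | rfl | rfl | rfl | rfl | rfl | rfl | rfl | rfl | rfl | rfl | rfl | rfl | rfl | rfl | rfl | rfl | rfl | rfl | rfl | rfl | rfl | rfl | rfl | rfl | rfl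
  · exact x207_0
  · exact x207_1
  · exact x207_2
  · exact x207_3
  · exact x207_4
  · exact x207_5
  · exact x207_6
  · exact x207_7
  · exact x207_8
  · exact x207_9
  · exact x207_10
  · exact x207_11
  · exact x207_12
  · exact x207_13
  · exact x207_14
  · exact x207_15
  · exact x207_16
  · exact x207_17
  · exact x207_18
  · exact x207_19
  · exact x207_20
  · exact x207_21
  · exact x207_22
  · exact x207_23
  · exact x207_24
  · exact x207_25

end Pool.Agent.V5helper47.EV
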