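import Pool.Agent.V5helper47.EV.S2

/-! Search, part of the half words. -/

set_option maxRecDepth 1000000

namespace Pool.Agent.V5helper47.EV

open H419R2 Pool.Agent.N911 Pool.Agent.V5helper47.CN

theorem x208_0 : fam (wl [4,3,1,3,7,1,1,8]) 2615 1226 = true := by decide +kernel
theorem x208_1 : fam (wl [1,1,4,5,1,2,2,1,1,1,1,3]) 4074 4510 = true := by decide +kernel
theorem x208_2 : fam (wl [1,3,1,1,5,2,1,2,3,1,1,2]) 5348 8342 = true := by decide +kernel
theorem x208_3 : fam (wl [1,9,9,4,1,1,4,2]) 1672 3014 = true := by decide +kernel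
theorem x208_4 : fam (wl [10,9,4,1,1,4,1,1]) 6807 1347 = true := by decide +kernel
theorem x208_5 : fam (wl [4,1,1,5,2,1,2,3,1,1,1,1]) 3131 1379 = true := by decide +kernel
theorem x208_6 : fam (wl [2,4,5,1,2,2,1,1,1,1,2,1]) 4405 3935 = true := by decide +kernel
theorem x208_7 : fam (wl [1,3,3,1,3,7,1,1,7,1]) 5864 8981 = true := by decide +kernel
theorem x208_8 : fam (wl [19,1,1,1,3,39]) 2376 242 = true := by decide +kernel
theorem x208_9 : fam (wl [2,2,1,1,1,1,2,1,3,3,1,4]) 6312 5298 = true := by decide +kernel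
theorem x208_10 : fam (wl [1,1,2,1,1,1,1,2,1,3,3,1,3,1]) 2169 2519 = true := by decide +kernel
theorem x208_11 : fam (wl [1,18,1,1,1,3,38,1]) 6105 11591 = true := by decide +kernel
theorem x208_12 : fam (wl [1,1,3,9,18,1,1,3]) 7854 8942 = true := by decide +kernel
theorem x208_13 : fam (wl [1,3,4,5,2,1,1,1,1,1,1,2]) 7254 11086 = true := by decide +kernel
theorem x208_14 : fam (wl [4,4,5,2,1,1,1,1,1,1,1,1]) 1243 587 = true := by decide +kernel
theorem x208_15 : fam (wl [2,3,9,18,1,1,2,1]) 643 555 = true := by decide +kernel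
theorem x208_16 : fam (wl [15,1,4,1,1,1,31]) 3940 498 = true := by decide +kernel
theorem x208_17 : fam (wl [1,14,1,4,1,1,1,30,1]) 4571 8567 = true := by decide +kernel
theorem x208_18 : fam (wl [37,1,2,75]) 339 18 = true := by decide +kernel
theorem x208_19 : fam (wl [1,36,1,2,74,1]) 8172 15913 = true := by decide +kernel
theorem x208_20 : fam (wl [13,1,1,1,1,4,27]) 1320 194 = true := by decide +kernel
theorem x208_21 : fam (wl [1,13,2,2,2,2,1,6,2]) 3927 7310 = true := by decide +kernel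
theorem x208_22 : fam (wl [14,2,2,2,2,1,6,1,1]) 4590 637 = true := by decide +kernel
theorem x208_23 : fam (wl [1,12,1,1,1,1,4,26,1]) 7197 13339 = true := by decide +kernel
theorem x208_24 : fam (wl [1,1,1,1,1,10,1,4,1,4,3]) 2708 3378 = true := by decide +kernel
theorem x208_25 : fam (wl [2,1,1,1,10,1,4,1,4,2,1]) 5811 4375 = true := by decide +kernel
theorem x208_26 : fam (wl [1,4,7,2,1,14,2,2]) 4501 7250 = true := by decide +kernel
theorem x208_27 : fam (wl [5,7,2,1,14,2,1,1]) 4018 1565 = true := by decide +kernel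
/-- words with first entry from 8481 to 8521 -/
def L208 : List (List ℕ × ℕ × ℕ) := [([4,3,1,3,7,1,1,8],2615,1226), ([1,1,4,5,1,2,2,1,1,1,1,3],4074,4510), ([1,3,1,1,5,2,1,2,3,1,1,2],5348,8342), ([1,9,9,4,1,1,4,2],1672,3014), ([10,9,4,1,1,4,1,1],6807,1347), ([4,1,1,5,2,1,2,3,1,1,1,1],3131,1379), ([2,4,5,1,2,2,1,1,1,1,2,1],4405,3935), ([1,3,3,1,3,7,1,1,7,1],5864,8981), ([19,1,1,1,3,39],2376,242), ([2,2,1,1,1,1,2,1,3,3,1,4],6312,5298), ([1,1,2,1,1,1,1,2,1,3,3,1,3,1],2169,2519), ([1,18,1,1,1,3,38,1],6105,11591), ([1,1,3,9,18,1,1,3],7854,8942), ([1,3,4,5,2,1,1,1,1,1,1,2],7254,11086), ([4,4,5,2,1,1,1,1,1,1,1,1],1243,587), ([2,3,9,18,1,1,2,1],643,555), ([15,1,4,1,1,1,31],3940,498), ([1,14,1,4,1,1,1,30,1],4571,8567), ([37,1,2,75],339,18), ([1,36,1,2,74,1],8172,15913), ([13,1,1,1,1,4,27],1320,194), ([1,13,2,2,2,2,1,6,2],3927,7310), ([14,2,2,2,2,1,6,1,1],4590,637), ([1,12,1,1,1,1,4,26,1],7197,13339), ([1,1,1,1,1,10,1,4,1,4,3],2708,3378), ([2,1,1,1,10,1,4,1,4,2,1],5811,4375),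 ([1,4,7,2,1,14,2,2],4501,7250), ([5,7,2,1,14,2,1,1],4018,1565)]
theorem r208 : rgV L208 8481 21 = true := by decide +kernel
theorem f208 : ∀ p ∈ L208, fam (wl p.1) p.2.1 p.2.2 = true := by
  intro p hp
  simp only [L208, List.mem_cons, List.not_mem_nil, or_false] at hp
  rcases hp with rfl | rfl | rfl | rfl | rfl | rfl | rfl | rfl | rfl | rfl | rfl | rfl | rfl | rfl | rfl | rfl | rfl | rfl | rfl | rfl | rfl | rfl | rfl | rfl | rfl | rfl | rfl | rfl
  · exact x208_0
  · exact x208_1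
  · exact x208_2
  · exact x208_3
  · exact x208_4
  · exact x208_5
  · exact x208_6
  · exact x208_7
  · exact x208_8
  · exact x208_9
  · exact x208_10
  · exact x208_11
  · exact x208_12
  · exact x208_13
  · exact x208_14
  · exact x208_15
  · exact x208_16
  · exact x208_17
  · exact x208_18
  · exact x208_19
  · exact x208_20
  · exact x208_21
  · exact x208_22
  · exact x208_23
  · exact x208_24
  · exact x208_25
  · exact x208_26
  · exact x208_27

end Pool.Agent.V5helper47.EV
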