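import Pool.Agent.V5helper47.EV.S2

/-! Search, part of the half words. -/

set_option maxRecDepth 1000000

namespace Pool.Agent.V5helper47.EV

open H419R2 Pool.Agent.N911 Pool.Agent.V5helper47.CN

theorem x209_0 : fam (wl [1,1,1,3,8,4,7,3]) 5223 6658 = true := by decide +kernel
theorem x209_1 : fam (wl [1,11,4,2,1,1,1,1,5,2]) 4982 9150 = true := by decide +kernel
theorem x209_2 : fam (wl [12,4,2,1,1,1,1,5,1,1]) 3539 579 = true := by decide +kernel
theorem x209_3 : fam (wl [2,1,3,8,4,7,2,1]) 3298 2393 = true := by decide +kernel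
theorem x209_4 : fam (wl [1,1,1,1,1,1,1,3,1,1,3,4,3]) 5188 6418 = true := by decide +kernel
theorem x209_5 : fam (wl [2,1,1,1,1,1,3,1,1,3,4,2,1]) 3337 2547 = true := by decide +kernel
theorem x209_6 : fam (wl [1,1,2,1,4,1,2,10,2,3]) 6938 7982 = true := by decide +kernel
theorem x209_7 : fam (wl [1,3,7,2,4,3,1,1,1,2]) 642 974 = true := by decide +kernel
theorem x209_8 : fam (wl [4,7,2,4,3,1,1,1,1,1]) 7885 3815 = true := by decide +kernel
theorem x209_9 : fam (wl [2,2,1,4,1,2,10,2,2,1]) 1589 1351 = true := by decide +kernel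
theorem x209_10 : fam (wl [2,4,7,14,2,4]) 3288 2934 = true := by decide +kernel
theorem x209_11 : fam (wl [1,1,1,1,5,1,1,3,1,2,3,3]) 6778 8222 = true := by decide +kernel
theorem x209_12 : fam (wl [2,1,1,5,1,1,3,1,2,3,2,1]) 1751 1379 = true := by decide +kernel
theorem x209_13 : fam (wl [1,1,4,7,14,2,3,1]) 5241 5807 = true := by decide +kernel
theorem x209_14 : fam (wl [1,3,5,2,1,5,2,1,1,1,2]) 7077 10774 = true := by decide +kernel
theorem x209_15 : fam (wl [4,5,2,1,5,2,1,1,1,1,1]) 1458 697 = true := by decide +kernel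
theorem x209_16 : fam (wl [21,1,3,1,1,43]) 1764 162 = true := by decide +kernel
theorem x209_17 : fam (wl [1,20,1,3,1,1,42,1]) 6771 12923 = true := by decide +kernel
theorem x209_18 : fam (wl [1,21,2,2,2,1,10,2]) 4784 9142 = true := by decide +kernel
theorem x209_19 : fam (wl [22,2,2,2,1,10,1,1]) 3753 335 = true := by decide +kernel
theorem x209_20 : fam (wl [1,12,4,1,9,6,2]) 5789 10702 = true := by decide +kernel
theorem x209_21 : fam (wl [13,4,1,9,6,1,1]) 2752 417 = true := by decide +kernel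
theorem x209_22 : fam (wl [24,1,2,2,49]) 7340 594 = true := by decide +kernel
theorem x209_23 : fam (wl [2,3,12,1,5,1,1,1,4]) 7572 6514 = true := by decide +kernel
theorem x209_24 : fam (wl [1,1,3,12,1,5,1,1,1,3,1]) 977 1115 = true := by decide +kernel
theorem x209_25 : fam (wl [1,23,1,2,2,48,1]) 1209 2323 = true := by decide +kernel
theorem x209_26 : fam (wl [2,2,1,2,3,6,1,2,1,4]) 4364 3682 = true := by decide +kernel
theorem x209_27 : fam (wl [1,10,3,2,1,6,5,2]) 2287 4170 = true := by decide +kernel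
theorem x209_28 : fam (wl [11,3,2,1,6,5,1,1]) 6264 1109 = true := by decide +kernel
theorem x209_29 : fam (wl [1,1,2,1,2,3,6,1,2,1,3,1]) 4187 4843 = true := by decide +kernel
/-- words with first entry from 8523 to 8559 -/
def L209 : List (List ℕ × ℕ × ℕ) := [([1,1,1,3,8,4,7,3],5223,6658), ([1,11,4,2,1,1,1,1,5,2],4982,9150), ([12,4,2,1,1,1,1,5,1,1],3539,579), ([2,1,3,8,4,7,2,1],3298,2393), ([1,1,1,1,1,1,1,3,1,1,3,4,3],5188,6418), ([2,1,1,1,1,1,3,1,1,3,4,2,1],3337,2547), ([1,1,2,1,4,1,2,10,2,3],6938,7982), ([1,3,7,2,4,3,1,1,1,2],642,974), ([4,7,2,4,3,1,1,1,1,1],7885,3815), ([2,2,1,4,1,2,10,2,2,1],1589,1351), ([2,4,7,14,2,4],3288,2934), ([1,1,1,1,5,1,1,3,1,2,3,3],6778,8222), ([2,1,1,5,1,1,3,1,2,3,2,1],1751,1379), ([1,1,4,7,14,2,3,1],5241,5807), ([1,3,5,2,1,5,2,1,1,1,2],7077,10774), ([4,5,2,1,5,2,1,1,1,1,1],1458,697), ([21,1,3,1,1,43],1764,162), ([1,20,1,3,1,1,42,1],6771,12923), ([1,21,2,2,2,1,10,2],4784,9142), ([22,2,2,2,1,10,1,1],3753,335), ([1,12,4,1,9,6,2],5789,10702),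 ([13,4,1,9,6,1,1],2752,417), ([24,1,2,2,49],7340,594), ([2,3,12,1,5,1,1,1,4],7572,6514), ([1,1,3,12,1,5,1,1,1,3,1],977,1115), ([1,23,1,2,2,48,1],1209,2323), ([2,2,1,2,3,6,1,2,1,4],4364,3682), ([1,10,3,2,1,6,5,2],2287,4170), ([11,3,2,1,6,5,1,1],6264,1109), ([1,1,2,1,2,3,6,1,2,1,3,1],4187,4843)]
theorem r209 : rgV L209 8523 19 = true := by decide +kernel
theorem f209 : ∀ p ∈ L209, fam (wl p.1) p.2.1 p.2.2 = true := by
  intro p hp
  simp only [L209, List.mem_cons, List.not_mem_nil, or_false] at hp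
  rcases hp with rfl | rfl | rfl | rfl | rfl | rfl | rfl | rfl | rfl | rfl | rfl | rfl | rfl | rfl | rfl | rfl | rfl | rfl | rfl | rfl | rfl | rfl | rfl | rfl | rfl | rfl | rfl | rfl | rfl | rfl
  · exact x209_0
  · exact x209_1
  · exact x209_2
  · exact x209_3
  · exact x209_4
  · exact x209_5
  · exact x209_6
  · exact x209_7
  · exact x209_8
  · exact x209_9
  · exact x209_10
  · exact x209_11
  · exact x209_12
  · exact x209_13
  · exact x209_14
  · exact x209_15
  · exact x209_16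
  · exact x209_17
  · exact x209_18
  · exact x209_19
  · exact x209_20
  · exact x209_21
  · exact x209_22
  · exact x209_23
  · exact x209_24
  · exact x209_25
  · exact x209_26
  · exact x209_27
  · exact x209_28
  · exact x209_29

end Pool.Agent.V5helper47.EV
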