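import Pool.Agent.V5helper47.EV.S2

/-! Search, part of the half words. -/

set_option maxRecDepth 1000000

namespace Pool.Agent.V5helper47.EV

open H419R2 Pool.Agent.N911 Pool.Agent.V5helper47.CN

theorem x210_0 : fam (wl [1,2,2,4,1,1,3,2,4,1,2]) 2927 4158 = true := by decide +kernel
theorem x210_1 : fam (wl [1,2,1,1,4,2,2,1,1,1,3,1,2]) 4759 6838 = true := by decide +kernel
theorem x210_2 : fam (wl [3,1,1,4,2,2,1,1,1,3,1,1,1]) 3800 2141 = true := by decide +kernel
theorem x210_3 : fam (wl [3,2,4,1,1,3,2,4,1,1,1]) 5632 3265 = true := by decide +kernel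
theorem x210_4 : fam (wl [12,1,1,2,5,25]) 617 98 = true := by decide +kernel
theorem x210_5 : fam (wl [1,11,1,1,2,5,24,1]) 7944 14629 = true := by decide +kernel
theorem x210_6 : fam (wl [4,1,1,1,1,1,1,3,4,9]) 6579 2850 = true := by decide +kernel
theorem x210_7 : fam (wl [3,4,2,1,2,5,2,6]) 5550 3438 = true := by decide +kernel
theorem x210_8 : fam (wl [2,2,1,1,7,3,1,3,1,4]) 8188 6838 = true := by decide +kernel
theorem x210_9 : fam (wl [1,16,1,4,2,2,8,2]) 3179 6002 = true := by decide +kernel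
theorem x210_10 : fam (wl [17,1,4,2,2,8,1,1]) 5388 605 = true := by decide +kernel
theorem x210_11 : fam (wl [1,1,2,1,1,7,3,1,3,1,3,1]) 379 443 = true := by decide +kernel
theorem x210_12 : fam (wl [1,2,4,2,1,2,5,2,5,1]) 3017 4167 = true := by decide +kernel
theorem x210_13 : fam (wl [1,3,1,1,1,1,1,1,3,4,8,1]) 1988 3117 = true := by decide +kernel
theorem x210_14 : fam (wl [4,6,1,2,1,2,3,8]) 87 42 = true := by decide +kernel
theorem x210_15 : fam (wl [1,9,1,5,11,1,4,2]) 4848 8802 = true := by decide +kernel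
theorem x210_16 : fam (wl [10,1,5,11,1,4,1,1]) 3721 687 = true := by decide +kernel
theorem x210_17 : fam (wl [1,3,6,1,2,1,2,3,7,1]) 8482 12877 = true := by decide +kernel
theorem x210_18 : fam (wl [2,2,1,3,3,1,1,1,1,2,1,4]) 7030 5954 = true := by decide +kernel
theorem x210_19 : fam (wl [2,6,1,2,1,2,1,2,3,4]) 1652 1538 = true := by decide +kernel
theorem x210_20 : fam (wl [1,1,6,1,2,1,2,1,2,3,3,1]) 6923 7403 = true := by decide +kernel
theorem x210_21 : fam (wl [1,1,2,1,3,3,1,1,1,1,2,1,3,1]) 1545 1783 = true := by decide +kernel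
theorem x210_22 : fam (wl [1,1,1,1,17,1,8,3,3]) 5279 6358 = true := by decide +kernel
theorem x210_23 : fam (wl [2,1,1,17,1,8,3,2,1]) 3318 2641 = true := by decide +kernel
theorem x210_24 : fam (wl [2,1,5,1,3,1,1,2,2,1,5]) 2376 1666 = true := by decide +kernel
theorem x210_25 : fam (wl [1,1,1,5,1,3,1,1,2,2,1,4,1]) 6231 8095 = true := by decide +kernel
theorem x210_26 : fam (wl [2,7,1,1,2,1,3,1,3,4]) 795 746 = true := by decide +kernel
theorem x210_27 : fam (wl [1,1,7,1,1,2,1,3,1,3,3,1]) 7812 8297 = true := by decide +kernel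
/-- words with first entry from 8561 to 8615 -/
def L210 : List (List ℕ × ℕ × ℕ) := [([1,2,2,4,1,1,3,2,4,1,2],2927,4158), ([1,2,1,1,4,2,2,1,1,1,3,1,2],4759,6838), ([3,1,1,4,2,2,1,1,1,3,1,1,1],3800,2141), ([3,2,4,1,1,3,2,4,1,1,1],5632,3265), ([12,1,1,2,5,25],617,98), ([1,11,1,1,2,5,24,1],7944,14629), ([4,1,1,1,1,1,1,3,4,9],6579,2850), ([3,4,2,1,2,5,2,6],5550,3438), ([2,2,1,1,7,3,1,3,1,4],8188,6838), ([1,16,1,4,2,2,8,2],3179,6002), ([17,1,4,2,2,8,1,1],5388,605), ([1,1,2,1,1,7,3,1,3,1,3,1],379,443), ([1,2,4,2,1,2,5,2,5,1],3017,4167), ([1,3,1,1,1,1,1,1,3,4,8,1],1988,3117), ([4,6,1,2,1,2,3,8],87,42), ([1,9,1,5,11,1,4,2],4848,8802), ([10,1,5,11,1,4,1,1],3721,687), ([1,3,6,1,2,1,2,3,7,1],8482,12877), ([2,2,1,3,3,1,1,1,1,2,1,4],7030,5954), ([2,6,1,2,1,2,1,2,3,4],1652,1538), ([1,1,6,1,2,1,2,1,2,3,3,1],6923,7403), ([1,1,2,1,3,3,1,1,1,1,2,1,3,1],1545,1783), ([1,1,1,1,17,1,8,3,3],5279,6358), ([2,1,1,17,1,8,3,2,1],3318,2641), ([2,1,5,1,3,1,1,2,2,1,5],2376,1666),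 ([1,1,1,5,1,3,1,1,2,2,1,4,1],6231,8095), ([2,7,1,1,2,1,3,1,3,4],795,746), ([1,1,7,1,1,2,1,3,1,3,3,1],7812,8297)]
theorem r210 : rgV L210 8561 28 = true := by decide +kernel
theorem f210 : ∀ p ∈ L210, fam (wl p.1) p.2.1 p.2.2 = true := by
  intro p hp
  simp only [L210, List.mem_cons, List.not_mem_nil, or_false] at hp
  rcases hp with rfl | rfl | rfl | rfl | rfl | rfl | rfl | rfl | rfl | rfl | rfl | rfl | rfl | rfl | rfl | rfl | rfl | rfl | rfl | rfl | rfl | rfl | rfl | rfl | rfl | rfl | rfl | rfl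
  · exact x210_0
  · exact x210_1
  · exact x210_2
  · exact x210_3
  · exact x210_4
  · exact x210_5
  · exact x210_6
  · exact x210_7
  · exact x210_8
  · exact x210_9
  · exact x210_10
  · exact x210_11
  · exact x210_12
  · exact x210_13
  · exact x210_14
  · exact x210_15
  · exact x210_16
  · exact x210_17
  · exact x210_18
  · exact x210_19
  · exact x210_20
  · exact x210_21
  · exact x210_22
  · exact x210_23
  · exact x210_24
  · exact x210_25
  · exact x210_26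
  · exact x210_27

end Pool.Agent.V5helper47.EV
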