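import Pool.Agent.V5helper47.EV.S2

/-! Search, part of the half words. -/

set_option maxRecDepth 1000000

namespace Pool.Agent.V5helper47.EV

open H419R2 Pool.Agent.N911 Pool.Agent.V5helper47.CN

theorem x211_0 : fam (wl [9,1,1,2,1,6,19]) 4701 982 = true := by decide +kernel
theorem x211_1 : fam (wl [1,3,22,1,10,1,1,1,2]) 2860 4306 = true := by decide +kernel
theorem x211_2 : fam (wl [4,22,1,10,1,1,1,1,1]) 5755 2847 = true := by decide +kernel
theorem x211_3 : fam (wl [1,8,1,1,2,1,6,18,1]) 3914 7013 = true := by decide +kernel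
theorem x211_4 : fam (wl [1,2,1,1,2,1,1,1,4,2,3,1,2]) 2188 3154 = true := by decide +kernel
theorem x211_5 : fam (wl [3,1,1,2,1,1,1,4,2,3,1,1,1]) 6433 3595 = true := by decide +kernel
theorem x211_6 : fam (wl [2,1,1,3,1,3,1,1,8,5]) 6818 5330 = true := by decide +kernel
theorem x211_7 : fam (wl [1,1,1,1,3,1,3,1,1,8,4,1]) 1807 2203 = true := by decide +kernel
theorem x211_8 : fam (wl [5,1,1,1,1,2,2,4,11]) 6876 2450 = true := by decide +kernel
theorem x211_9 : fam (wl [2,1,3,1,5,1,2,2,1,1,5]) 282 202 = true := by decide +kernel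
theorem x211_10 : fam (wl [1,1,1,3,1,5,1,2,2,1,1,4,1]) 8349 10723 = true := by decide +kernel
theorem x211_11 : fam (wl [1,4,1,1,1,1,2,2,4,10,1]) 1755 2887 = true := by decide +kernel
theorem x211_12 : fam (wl [1,5,3,1,1,2,3,1,1,1,2,2]) 4573 7690 = true := by decide +kernel
theorem x211_13 : fam (wl [1,20,3,6,10,2]) 4550 8674 = true := by decide +kernel
theorem x211_14 : fam (wl [21,3,6,10,1,1]) 4081 383 = true := by decide +kernel
theorem x211_15 : fam (wl [6,3,1,1,2,3,1,1,1,2,1,1]) 4058 1293 = true := by decide +kernel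
theorem x211_16 : fam (wl [2,45,1,22,4]) 5133 5078 = true := by decide +kernel
theorem x211_17 : fam (wl [1,1,45,1,22,3,1]) 3506 3545 = true := by decide +kernel
theorem x211_18 : fam (wl [1,52,1,2,26,2]) 6359 12482 = true := by decide +kernel
theorem x211_19 : fam (wl [53,1,2,26,1,1]) 2280 85 = true := by decide +kernel
theorem x211_20 : fam (wl [6,2,1,4,2,2,1,12]) 3616 1138 = true := by decide +kernel
theorem x211_21 : fam (wl [3,1,1,1,1,2,2,2,4,7]) 6941 3842 = true := by decide +kernel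
theorem x211_22 : fam (wl [2,1,1,3,2,1,2,1,7,5]) 741 578 = true := by decide +kernel
theorem x211_23 : fam (wl [1,1,26,2,1,12,1,3]) 4066 4142 = true := by decide +kernel
theorem x211_24 : fam (wl [2,26,2,1,12,1,2,1]) 4575 4491 = true := by decide +kernel
theorem x211_25 : fam (wl [1,1,1,1,3,2,1,2,1,7,4,1]) 7900 9641 = true := by decide +kernel
theorem x211_26 : fam (wl [1,2,1,1,1,1,2,2,2,4,6,1]) 1700 2461 = true := by decide +kernel
theorem x211_27 : fam (wl [1,5,2,1,4,2,2,1,11,1]) 5025 8471 = true := by decide +kernel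
theorem x211_28 : fam (wl [1,91,1,45,2]) 2184 4322 = true := by decide +kernel
theorem x211_29 : fam (wl [92,1,45,1,1]) 6461 139 = true := by decide +kernel
/-- words with first entry from 8617 to 8649 -/
def L211 : List (List ℕ × ℕ × ℕ) := [([9,1,1,2,1,6,19],4701,982), ([1,3,22,1,10,1,1,1,2],2860,4306), ([4,22,1,10,1,1,1,1,1],5755,2847), ([1,8,1,1,2,1,6,18,1],3914,7013), ([1,2,1,1,2,1,1,1,4,2,3,1,2],2188,3154), ([3,1,1,2,1,1,1,4,2,3,1,1,1],6433,3595), ([2,1,1,3,1,3,1,1,8,5],6818,5330), ([1,1,1,1,3,1,3,1,1,8,4,1],1807,2203), ([5,1,1,1,1,2,2,4,11],6876,2450), ([2,1,3,1,5,1,2,2,1,1,5],282,202), ([1,1,1,3,1,5,1,2,2,1,1,4,1],8349,10723), ([1,4,1,1,1,1,2,2,4,10,1],1755,2887), ([1,5,3,1,1,2,3,1,1,1,2,2],4573,7690), ([1,20,3,6,10,2],4550,8674), ([21,3,6,10,1,1],4081,383), ([6,3,1,1,2,3,1,1,1,2,1,1],4058,1293), ([2,45,1,22,4],5133,5078), ([1,1,45,1,22,3,1],3506,3545), ([1,52,1,2,26,2],6359,12482), ([53,1,2,26,1,1],2280,85), ([6,2,1,4,2,2,1,12],3616,1138),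 ([3,1,1,1,1,2,2,2,4,7],6941,3842), ([2,1,1,3,2,1,2,1,7,5],741,578), ([1,1,26,2,1,12,1,3],4066,4142), ([2,26,2,1,12,1,2,1],4575,4491), ([1,1,1,1,3,2,1,2,1,7,4,1],7900,9641), ([1,2,1,1,1,1,2,2,2,4,6,1],1700,2461), ([1,5,2,1,4,2,2,1,11,1],5025,8471), ([1,91,1,45,2],2184,4322), ([92,1,45,1,1],6461,139)]
theorem r211 : rgV L211 8617 17 = true := by decide +kernel
theorem f211 : ∀ p ∈ L211, fam (wl p.1) p.2.1 p.2.2 = true := by
  intro p hp
  simp only [L211, List.mem_cons, List.not_mem_nil, or_false] at hp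
  rcases hp with rfl | rfl | rfl | rfl | rfl | rfl | rfl | rfl | rfl | rfl | rfl | rfl | rfl | rfl | rfl | rfl | rfl | rfl | rfl | rfl | rfl | rfl | rfl | rfl | rfl | rfl | rfl | rfl | rfl | rfl
  · exact x211_0
  · exact x211_1
  · exact x211_2
  · exact x211_3
  · exact x211_4
  · exact x211_5
  · exact x211_6
  · exact x211_7
  · exact x211_8
  · exact x211_9
  · exact x211_10
  · exact x211_11
  · exact x211_12
  · exact x211_13
  · exact x211_14
  · exact x211_15
  · exact x211_16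
  · exact x211_17
  · exact x211_18
  · exact x211_19
  · exact x211_20
  · exact x211_21
  · exact x211_22
  · exact x211_23
  · exact x211_24
  · exact x211_25
  · exact x211_26
  · exact x211_27
  · exact x211_28
  · exact x211_29

end Pool.Agent.V5helper47.EV
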