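import Pool.Agent.V5helper47.EV.S2

/-! Search, part of the half words. -/

set_option maxRecDepth 1000000

namespace Pool.Agent.V5helper47.EV

open H419R2 Pool.Agent.N911 Pool.Agent.V5helper47.CN

theorem x212_0 : fam (wl [1,2,1,12,1,2,6,2,1,2]) 4627 6898 = true := by decide +kernel
theorem x212_1 : fam (wl [1,92,46,2]) 6464 12790 = true := by decide +kernel
theorem x212_2 : fam (wl [93,46,1,1]) 2185 47 = true := by decide +kernel
theorem x212_3 : fam (wl [3,1,12,1,2,6,2,1,1,1]) 4022 2049 = true := by decide +kernel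
theorem x212_4 : fam (wl [2,46,23,4]) 7842 7758 = true := by decide +kernel
theorem x212_5 : fam (wl [1,1,2,10,2,1,4,1,2,3]) 7253 8650 = true := by decide +kernel
theorem x212_6 : fam (wl [2,2,10,2,1,4,1,2,2,1]) 1402 1133 = true := by decide +kernel
theorem x212_7 : fam (wl [1,1,46,23,3,1]) 813 823 = true := by decide +kernel
theorem x212_8 : fam (wl [3,2,8,1,17,1,6]) 2803 1614 = true := by decide +kernel
theorem x212_9 : fam (wl [1,2,2,8,1,17,1,5,1]) 5858 8345 = true := by decide +kernel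
theorem x212_10 : fam (wl [8,1,2,1,1,3,2,17]) 2328 534 = true := by decide +kernel
theorem x212_11 : fam (wl [1,2,12,2,1,24,1,2]) 5790 7822 = true := by decide +kernel
theorem x212_12 : fam (wl [3,12,2,1,24,1,1,1]) 2875 1867 = true := by decide +kernel
theorem x212_13 : fam (wl [1,7,1,2,1,1,3,2,16,1]) 6337 11223 = true := by decide +kernel
theorem x212_14 : fam (wl [3,1,1,1,2,1,1,3,1,3,7]) 6171 3398 = true := by decide +kernel
theorem x212_15 : fam (wl [1,2,1,1,1,2,1,1,3,1,3,6,1]) 2508 3637 = true := by decide +kernel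
theorem x212_16 : fam (wl [1,3,23,11,1,1,1,2]) 3628 5462 = true := by decide +kernel
theorem x212_17 : fam (wl [4,23,11,1,1,1,1,1]) 5051 2499 = true := by decide +kernel
theorem x212_18 : fam (wl [3,1,6,3,1,1,1,2,1,7]) 5813 3010 = true := by decide +kernel
theorem x212_19 : fam (wl [2,1,2,6,2,1,2,1,2,5]) 3158 2354 = true := by decide +kernel
theorem x212_20 : fam (wl [1,1,1,2,6,2,1,2,1,2,4,1]) 5523 6931 = true := by decide +kernel
theorem x212_21 : fam (wl [1,2,1,6,3,1,1,1,2,1,6,1]) 2868 4253 = true := by decide +kernel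
theorem x212_22 : fam (wl [10,3,2,2,1,1,20]) 72 14 = true := by decide +kernel
theorem x212_23 : fam (wl [4,3,6,1,2,1,1,1,8]) 151 70 = true := by decide +kernel
theorem x212_24 : fam (wl [2,9,4,1,1,1,1,4,4]) 2764 2622 = true := by decide +kernel
theorem x212_25 : fam (wl [1,4,12,1,25,2,2]) 2987 4798 = true := by decide +kernel
theorem x212_26 : fam (wl [5,12,1,25,2,1,1]) 5698 2245 = true := by decide +kernel
theorem x212_27 : fam (wl [1,1,9,4,1,1,1,1,4,3,1]) 5921 6227 = true := by decide +kernel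
theorem x212_28 : fam (wl [1,3,3,6,1,2,1,1,1,7,1]) 8534 13117 = true := by decide +kernel
theorem x212_29 : fam (wl [1,9,3,2,2,1,1,19,1]) 8613 15555 = true := by decide +kernel
/-- words with first entry from 8651 to 8687 -/
def L212 : List (List ℕ × ℕ × ℕ) := [([1,2,1,12,1,2,6,2,1,2],4627,6898), ([1,92,46,2],6464,12790), ([93,46,1,1],2185,47), ([3,1,12,1,2,6,2,1,1,1],4022,2049), ([2,46,23,4],7842,7758), ([1,1,2,10,2,1,4,1,2,3],7253,8650), ([2,2,10,2,1,4,1,2,2,1],1402,1133), ([1,1,46,23,3,1],813,823), ([3,2,8,1,17,1,6],2803,1614), ([1,2,2,8,1,17,1,5,1],5858,8345), ([8,1,2,1,1,3,2,17],2328,534), ([1,2,12,2,1,24,1,2],5790,7822), ([3,12,2,1,24,1,1,1],2875,1867), ([1,7,1,2,1,1,3,2,16,1],6337,11223), ([3,1,1,1,2,1,1,3,1,3,7],6171,3398), ([1,2,1,1,1,2,1,1,3,1,3,6,1],2508,3637), ([1,3,23,11,1,1,1,2],3628,5462), ([4,23,11,1,1,1,1,1],5051,2499), ([3,1,6,3,1,1,1,2,1,7],5813,3010), ([2,1,2,6,2,1,2,1,2,5],3158,2354), ([1,1,1,2,6,2,1,2,1,2,4,1],5523,6931), ([1,2,1,6,3,1,1,1,2,1,6,1],2868,4253),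 ([10,3,2,2,1,1,20],72,14), ([4,3,6,1,2,1,1,1,8],151,70), ([2,9,4,1,1,1,1,4,4],2764,2622), ([1,4,12,1,25,2,2],2987,4798), ([5,12,1,25,2,1,1],5698,2245), ([1,1,9,4,1,1,1,1,4,3,1],5921,6227), ([1,3,3,6,1,2,1,1,1,7,1],8534,13117), ([1,9,3,2,2,1,1,19,1],8613,15555)]
theorem r212 : rgV L212 8651 19 = true := by decide +kernel
theorem f212 : ∀ p ∈ L212, fam (wl p.1) p.2.1 p.2.2 = true := by
  intro p hp
  simp only [L212, List.mem_cons, List.not_mem_nil, or_false] at hp
  rcases hp with rfl | rfl | rfl | rfl | rfl | rfl | rfl | rfl | rfl | rfl | rfl | rfl | rfl | rfl | rfl | rfl | rfl | rfl | rfl | rfl | rfl | rfl | rfl | rfl | rfl | rfl | rfl | rfl | rfl | rfl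
  · exact x212_0
  · exact x212_1
  · exact x212_2
  · exact x212_3
  · exact x212_4
  · exact x212_5
  · exact x212_6
  · exact x212_7
  · exact x212_8
  · exact x212_9
  · exact x212_10
  · exact x212_11
  · exact x212_12
  · exact x212_13
  · exact x212_14
  · exact x212_15
  · exact x212_16
  · exact x212_17
  · exact x212_18
  · exact x212_19
  · exact x212_20
  · exact x212_21
  · exact x212_22
  · exact x212_23
  · exact x212_24
  · exact x212_25
  · exact x212_26
  · exact x212_27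
  · exact x212_28
  · exact x212_29

end Pool.Agent.V5helper47.EV
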