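import Pool.Agent.V5helper47.EV.S2

/-! Search, part of the half words. -/

set_option maxRecDepth 1000000

namespace Pool.Agent.V5helper47.EV

open H419R2 Pool.Agent.N911 Pool.Agent.V5helper47.CN

theorem x213_0 : fam (wl [1,15,1,2,1,6,1,7,2]) 1849 3478 = true := by decide +kernel
theorem x213_1 : fam (wl [16,1,2,1,6,1,7,1,1]) 6838 817 = true := by decide +kernel
theorem x213_2 : fam (wl [2,3,3,1,2,1,2,1,1,1,1,4]) 1275 1106 = true := by decide +kernel
theorem x213_3 : fam (wl [1,1,3,3,1,2,1,2,1,1,1,1,3,1]) 7412 8397 = true := by decide +kernel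
theorem x213_4 : fam (wl [4,1,1,3,1,2,8,9]) 7975 3498 = true := by decide +kernel
theorem x213_5 : fam (wl [1,7,1,3,2,1,7,1,3,2]) 249 442 = true := by decide +kernel
theorem x213_6 : fam (wl [8,1,3,2,1,7,1,3,1,1]) 8440 1925 = true := by decide +kernel
theorem x213_7 : fam (wl [1,3,1,1,3,1,2,8,8,1]) 714 1117 = true := by decide +kernel
theorem x213_8 : fam (wl [1,1,1,1,18,9,3,3]) 6837 8234 = true := by decide +kernel
theorem x213_9 : fam (wl [2,1,1,18,9,3,2,1]) 1860 1481 = true := by decide +kernel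
theorem x213_10 : fam (wl [3,2,1,4,1,2,2,2,1,6]) 6027 3594 = true := by decide +kernel
theorem x213_11 : fam (wl [1,2,2,1,4,1,2,2,2,1,5,1]) 2678 3761 = true := by decide +kernel
theorem x213_12 : fam (wl [65,1,131]) 8645 262 = true := by decide +kernel
theorem x213_13 : fam (wl [4,8,1,1,3,4,8]) 6846 3326 = true := by decide +kernel
theorem x213_14 : fam (wl [1,3,8,1,1,3,4,7,1]) 1863 2823 = true := by decide +kernel
theorem x213_15 : fam (wl [1,64,1,130,1]) 64 129 = true := by decide +kernel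
theorem x213_16 : fam (wl [3,11,2,2,1,5,6]) 8648 5602 = true := by decide +kernel
theorem x213_17 : fam (wl [1,2,11,2,2,1,5,5,1]) 63 87 = true := by decide +kernel
theorem x213_18 : fam (wl [66,132]) 66 2 = true := by decide +kernel
theorem x213_19 : fam (wl [1,65,131,1]) 8645 17031 = true := by decide +kernel
theorem x213_20 : fam (wl [1,21,1,1,1,4,1,10,2]) 3815 7294 = true := by decide +kernel
theorem x213_21 : fam (wl [22,1,1,1,4,1,10,1,1]) 4902 433 = true := by decide +kernel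
theorem x213_22 : fam (wl [4,5,2,2,2,1,2,8]) 6549 3130 = true := by decide +kernel
theorem x213_23 : fam (wl [2,4,2,4,2,4,2,4]) 2 2 = true := by decide +kernel
theorem x213_24 : fam (wl [1,1,1,1,3,1,2,5,1,1,3,3]) 2230 2718 = true := by decide +kernel
theorem x213_25 : fam (wl [1,4,1,1,4,2,1,1,1,3,2,2]) 4404 7222 = true := by decide +kernel
theorem x213_26 : fam (wl [5,1,1,4,2,1,1,1,3,2,1,1]) 4315 1555 = true := by decide +kernel
theorem x213_27 : fam (wl [2,1,1,3,1,2,5,1,1,3,2,1]) 6489 5071 = true := by decide +kernel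
theorem x213_28 : fam (wl [1,1,4,2,4,2,4,2,3,1]) 8717 9599 = true := by decide +kernel
theorem x213_29 : fam (wl [1,3,5,2,2,2,1,2,7,1]) 2170 3305 = true := by decide +kernel
/-- words with first entry from 8689 to 8729 -/
def L213 : List (List ℕ × ℕ × ℕ) := [([1,15,1,2,1,6,1,7,2],1849,3478), ([16,1,2,1,6,1,7,1,1],6838,817), ([2,3,3,1,2,1,2,1,1,1,1,4],1275,1106), ([1,1,3,3,1,2,1,2,1,1,1,1,3,1],7412,8397), ([4,1,1,3,1,2,8,9],7975,3498), ([1,7,1,3,2,1,7,1,3,2],249,442), ([8,1,3,2,1,7,1,3,1,1],8440,1925), ([1,3,1,1,3,1,2,8,8,1],714,1117), ([1,1,1,1,18,9,3,3],6837,8234), ([2,1,1,18,9,3,2,1],1860,1481), ([3,2,1,4,1,2,2,2,1,6],6027,3594), ([1,2,2,1,4,1,2,2,2,1,5,1],2678,3761), ([65,1,131],8645,262), ([4,8,1,1,3,4,8],6846,3326), ([1,3,8,1,1,3,4,7,1],1863,2823), ([1,64,1,130,1],64,129), ([3,11,2,2,1,5,6],8648,5602), ([1,2,11,2,2,1,5,5,1],63,87), ([66,132],66,2), ([1,65,131,1],8645,17031), ([1,21,1,1,1,4,1,10,2],3815,7294), ([22,1,1,1,4,1,10,1,1],4902,433),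 ([4,5,2,2,2,1,2,8],6549,3130), ([2,4,2,4,2,4,2,4],2,2), ([1,1,1,1,3,1,2,5,1,1,3,3],2230,2718), ([1,4,1,1,4,2,1,1,1,3,2,2],4404,7222), ([5,1,1,4,2,1,1,1,3,2,1,1],4315,1555), ([2,1,1,3,1,2,5,1,1,3,2,1],6489,5071), ([1,1,4,2,4,2,4,2,3,1],8717,9599), ([1,3,5,2,2,2,1,2,7,1],2170,3305)]
theorem r213 : rgV L213 8689 21 = true := by decide +kernel
theorem f213 : ∀ p ∈ L213, fam (wl p.1) p.2.1 p.2.2 = true := by
  intro p hp
  simp only [L213, List.mem_cons, List.not_mem_nil, or_false] at hp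
  rcases hp with rfl | rfl | rfl | rfl | rfl | rfl | rfl | rfl | rfl | rfl | rfl | rfl | rfl | rfl | rfl | rfl | rfl | rfl | rfl | rfl | rfl | rfl | rfl | rfl | rfl | rfl | rfl | rfl | rfl | rfl
  · exact x213_0
  · exact x213_1
  · exact x213_2
  · exact x213_3
  · exact x213_4
  · exact x213_5
  · exact x213_6
  · exact x213_7
  · exact x213_8
  · exact x213_9
  · exact x213_10
  · exact x213_11
  · exact x213_12
  · exact x213_13
  · exact x213_14
  · exact x213_15
  · exact x213_16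
  · exact x213_17
  · exact x213_18
  · exact x213_19
  · exact x213_20
  · exact x213_21
  · exact x213_22
  · exact x213_23
  · exact x213_24
  · exact x213_25
  · exact x213_26
  · exact x213_27
  · exact x213_28
  · exact x213_29

end Pool.Agent.V5helper47.EV
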