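import Pool.Agent.V5helper47.EV.S2

/-! Search, part of the half words. -/

set_option maxRecDepth 1000000

namespace Pool.Agent.V5helper47.EV

open H419R2 Pool.Agent.N911 Pool.Agent.V5helper47.CN

theorem x214_0 : fam (wl [15,6,3,30]) 5472 722 = true := by decide +kernel
theorem x214_1 : fam (wl [1,14,6,3,29,1]) 3257 6087 = true := by decide +kernel
theorem x214_2 : fam (wl [11,1,6,1,2,1,23]) 6066 1022 = true := by decide +kernel
theorem x214_3 : fam (wl [1,10,1,6,1,2,1,22,1]) 2669 4891 = true := by decide +kernel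
theorem x214_4 : fam (wl [1,4,13,26,2,2]) 489 786 = true := by decide +kernel
theorem x214_5 : fam (wl [5,13,26,2,1,1]) 8246 3249 = true := by decide +kernel
theorem x214_6 : fam (wl [2,1,4,1,3,7,1,1,1,5]) 6718 4754 = true := by decide +kernel
theorem x214_7 : fam (wl [1,1,6,1,1,1,2,4,1,2,1,3]) 6012 6434 = true := by decide +kernel
theorem x214_8 : fam (wl [2,6,1,1,1,2,4,1,2,1,2,1]) 2725 2535 = true := by decide +kernel
theorem x214_9 : fam (wl [1,1,1,4,1,3,7,1,1,1,4,1]) 2019 2611 = true := by decide +kernel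
theorem x214_10 : fam (wl [1,1,3,3,3,1,1,6,1,1,3]) 2501 2830 = true := by decide +kernel
theorem x214_11 : fam (wl [1,5,1,2,1,2,2,6,1,2,2]) 8032 13678 = true := by decide +kernel
theorem x214_12 : fam (wl [6,1,2,1,2,2,6,1,2,1,1]) 709 211 = true := by decide +kernel
theorem x214_13 : fam (wl [2,3,3,3,1,1,6,1,1,2,1]) 6240 5421 = true := by decide +kernel
theorem x214_14 : fam (wl [2,3,13,6,1,1,1,4]) 8498 7310 = true := by decide +kernel
theorem x214_15 : fam (wl [1,1,3,13,6,1,1,1,3,1]) 247 283 = true := by decide +kernel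
theorem x214_16 : fam (wl [7,2,3,1,7,1,14]) 6066 1630 = true := by decide +kernel
theorem x214_17 : fam (wl [1,6,2,3,1,7,1,13,1]) 2685 4651 = true := by decide +kernel
theorem x214_18 : fam (wl [1,5,2,3,1,2,1,1,2,1,2,2]) 524 886 = true := by decide +kernel
theorem x214_19 : fam (wl [6,2,3,1,2,1,1,2,1,2,1,1]) 8227 2555 = true := by decide +kernel
theorem x214_20 : fam (wl [1,2,1,1,2,4,1,1,1,2,3,1,2]) 62 90 = true := by decide +kernel
theorem x214_21 : fam (wl [3,1,1,2,4,1,1,1,2,3,1,1,1]) 8697 4843 = true := by decide +kernel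
theorem x214_22 : fam (wl [3,2,9,18,1,6]) 2171 1250 = true := by decide +kernel
theorem x214_23 : fam (wl [1,2,2,9,18,1,5,1]) 6588 9385 = true := by decide +kernel
theorem x214_24 : fam (wl [4,7,1,1,3,1,3,8]) 847 410 = true := by decide +kernel
theorem x214_25 : fam (wl [1,1,1,1,1,11,5,1,4,3]) 2695 3362 = true := by decide +kernel
theorem x214_26 : fam (wl [2,1,1,1,11,5,1,4,2,1]) 6080 4577 = true := by decide +kernel
theorem x214_27 : fam (wl [1,3,7,1,1,3,1,3,7,1]) 7928 12021 = true := by decide +kernel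
theorem x214_28 : fam (wl [4,1,5,2,4,2,1,9]) 2621 1082 = true := by decide +kernel
theorem x214_29 : fam (wl [1,3,1,5,2,4,2,1,8,1]) 6156 9773 = true := by decide +kernel
/-- words with first entry from 8731 to 8781 -/
def L214 : List (List ℕ × ℕ × ℕ) := [([15,6,3,30],5472,722), ([1,14,6,3,29,1],3257,6087), ([11,1,6,1,2,1,23],6066,1022), ([1,10,1,6,1,2,1,22,1],2669,4891), ([1,4,13,26,2,2],489,786), ([5,13,26,2,1,1],8246,3249), ([2,1,4,1,3,7,1,1,1,5],6718,4754), ([1,1,6,1,1,1,2,4,1,2,1,3],6012,6434), ([2,6,1,1,1,2,4,1,2,1,2,1],2725,2535), ([1,1,1,4,1,3,7,1,1,1,4,1],2019,2611), ([1,1,3,3,3,1,1,6,1,1,3],2501,2830), ([1,5,1,2,1,2,2,6,1,2,2],8032,13678), ([6,1,2,1,2,2,6,1,2,1,1],709,211), ([2,3,3,3,1,1,6,1,1,2,1],6240,5421), ([2,3,13,6,1,1,1,4],8498,7310), ([1,1,3,13,6,1,1,1,3,1],247,283), ([7,2,3,1,7,1,14],6066,1630), ([1,6,2,3,1,7,1,13,1],2685,4651), ([1,5,2,3,1,2,1,1,2,1,2,2],524,886), ([6,2,3,1,2,1,1,2,1,2,1,1],8227,2555), ([1,2,1,1,2,4,1,1,1,2,3,1,2],62,90),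 ([3,1,1,2,4,1,1,1,2,3,1,1,1],8697,4843), ([3,2,9,18,1,6],2171,1250), ([1,2,2,9,18,1,5,1],6588,9385), ([4,7,1,1,3,1,3,8],847,410), ([1,1,1,1,1,11,5,1,4,3],2695,3362), ([2,1,1,1,11,5,1,4,2,1],6080,4577), ([1,3,7,1,1,3,1,3,7,1],7928,12021), ([4,1,5,2,4,2,1,9],2621,1082), ([1,3,1,5,2,4,2,1,8,1],6156,9773)]
theorem r214 : rgV L214 8731 26 = true := by decide +kernel
theorem f214 : ∀ p ∈ L214, fam (wl p.1) p.2.1 p.2.2 = true := by
  intro p hp
  simp only [L214, List.mem_cons, List.not_mem_nil, or_false] at hp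
  rcases hp with rfl | rfl | rfl | rfl | rfl | rfl | rfl | rfl | rfl | rfl | rfl | rfl | rfl | rfl | rfl | rfl | rfl | rfl | rfl | rfl | rfl | rfl | rfl | rfl | rfl | rfl | rfl | rfl | rfl | rfl
  · exact x214_0
  · exact x214_1
  · exact x214_2
  · exact x214_3
  · exact x214_4
  · exact x214_5
  · exact x214_6
  · exact x214_7
  · exact x214_8
  · exact x214_9
  · exact x214_10
  · exact x214_11
  · exact x214_12
  · exact x214_13
  · exact x214_14
  · exact x214_15
  · exact x214_16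
  · exact x214_17
  · exact x214_18
  · exact x214_19
  · exact x214_20
  · exact x214_21
  · exact x214_22
  · exact x214_23
  · exact x214_24
  · exact x214_25
  · exact x214_26
  · exact x214_27
  · exact x214_28
  · exact x214_29

end Pool.Agent.V5helper47.EV
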