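import Pool.Agent.V5helper47.EV.S2

/-! Search, part of the half words. -/

set_option maxRecDepth 1000000

namespace Pool.Agent.V5helper47.EV

open H419R2 Pool.Agent.N911 Pool.Agent.V5helper47.CN

theorem x215_0 : fam (wl [3,1,1,1,7,1,3,3,7]) 8560 4686 = true := by decide +kernel
theorem x215_1 : fam (wl [1,2,1,1,1,7,1,3,3,6,1]) 221 323 = true := by decide +kernel
theorem x215_2 : fam (wl [1,4,2,1,5,2,1,5,2,2]) 7992 12998 = true := by decide +kernel
theorem x215_3 : fam (wl [1,27,3,1,1,1,13,2]) 1342 2590 = true := by decide +kernel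
theorem x215_4 : fam (wl [28,3,1,1,1,13,1,1]) 7449 527 = true := by decide +kernel
theorem x215_5 : fam (wl [5,2,1,5,2,1,5,2,1,1]) 799 299 = true := by decide +kernel
theorem x215_6 : fam (wl [1,4,4,4,2,8,2,2]) 3746 6062 = true := by decide +kernel
theorem x215_7 : fam (wl [5,4,4,2,8,2,1,1]) 5055 1931 = true := by decide +kernel
theorem x215_8 : fam (wl [5,4,2,1,5,2,10]) 5350 2046 = true := by decide +kernel
theorem x215_9 : fam (wl [1,4,4,2,1,5,2,9,1]) 3455 5591 = true := by decide +kernel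
theorem x215_10 : fam (wl [4,3,2,2,2,2,1,1,8]) 1438 670 = true := by decide +kernel
theorem x215_11 : fam (wl [2,6,4,1,9,3,4]) 7337 6790 = true := by decide +kernel
theorem x215_12 : fam (wl [1,1,6,4,1,9,3,3,1]) 1470 1581 = true := by decide +kernel
theorem x215_13 : fam (wl [1,3,3,2,2,2,2,1,1,7,1]) 7369 11307 = true := by decide +kernel
theorem x215_14 : fam (wl [10,2,1,2,1,2,1,20]) 8614 1662 = true := by decide +kernel
theorem x215_15 : fam (wl [5,2,1,2,1,2,1,2,1,10]) 2259 842 = true := by decide +kernel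
theorem x215_16 : fam (wl [1,1,5,1,1,1,1,3,3,2,1,3]) 5459 5906 = true := by decide +kernel
theorem x215_17 : fam (wl [1,1,1,2,2,3,6,1,5,3]) 7915 9986 = true := by decide +kernel
theorem x215_18 : fam (wl [2,1,2,2,3,6,1,5,2,1]) 894 661 = true := by decide +kernel
theorem x215_19 : fam (wl [2,5,1,1,1,1,3,3,2,1,2,1]) 3350 3077 = true := by decide +kernel
theorem x215_20 : fam (wl [1,4,2,1,2,1,2,1,2,1,9,1]) 6550 10661 = true := by decide +kernel
theorem x215_21 : fam (wl [1,9,2,1,2,1,2,1,19,1]) 195 355 = true := by decide +kernel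
theorem x215_22 : fam (wl [38,2,1,76]) 345 18 = true := by decide +kernel
theorem x215_23 : fam (wl [1,1,1,3,1,1,2,5,8,3]) 3573 4578 = true := by decide +kernel
theorem x215_24 : fam (wl [2,1,3,1,1,2,5,8,2,1]) 5242 3769 = true := by decide +kernel
theorem x215_25 : fam (wl [1,37,2,1,75,1]) 8470 16501 = true := by decide +kernel
theorem x215_26 : fam (wl [1,11,2,3,1,1,2,1,5,2]) 5329 9802 = true := by decide +kernel
theorem x215_27 : fam (wl [12,2,3,1,1,2,1,5,1,1]) 3488 561 = true := by decide +kernel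
theorem x215_28 : fam (wl [2,2,2,1,4,1,1,1,5,1,4]) 1234 1018 = true := by decide +kernel
theorem x215_29 : fam (wl [1,1,2,2,1,4,1,1,1,5,1,3,1]) 7595 8927 = true := by decide +kernel
/-- words with first entry from 8783 to 8831 -/
def L215 : List (List ℕ × ℕ × ℕ) := [([3,1,1,1,7,1,3,3,7],8560,4686), ([1,2,1,1,1,7,1,3,3,6,1],221,323), ([1,4,2,1,5,2,1,5,2,2],7992,12998), ([1,27,3,1,1,1,13,2],1342,2590), ([28,3,1,1,1,13,1,1],7449,527), ([5,2,1,5,2,1,5,2,1,1],799,299), ([1,4,4,4,2,8,2,2],3746,6062), ([5,4,4,2,8,2,1,1],5055,1931), ([5,4,2,1,5,2,10],5350,2046), ([1,4,4,2,1,5,2,9,1],3455,5591), ([4,3,2,2,2,2,1,1,8],1438,670), ([2,6,4,1,9,3,4],7337,6790), ([1,1,6,4,1,9,3,3,1],1470,1581), ([1,3,3,2,2,2,2,1,1,7,1],7369,11307), ([10,2,1,2,1,2,1,20],8614,1662), ([5,2,1,2,1,2,1,2,1,10],2259,842), ([1,1,5,1,1,1,1,3,3,2,1,3],5459,5906), ([1,1,1,2,2,3,6,1,5,3],7915,9986), ([2,1,2,2,3,6,1,5,2,1],894,661), ([2,5,1,1,1,1,3,3,2,1,2,1],3350,3077), ([1,4,2,1,2,1,2,1,2,1,9,1],6550,10661),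 ([1,9,2,1,2,1,2,1,19,1],195,355), ([38,2,1,76],345,18), ([1,1,1,3,1,1,2,5,8,3],3573,4578), ([2,1,3,1,1,2,5,8,2,1],5242,3769), ([1,37,2,1,75,1],8470,16501), ([1,11,2,3,1,1,2,1,5,2],5329,9802), ([12,2,3,1,1,2,1,5,1,1],3488,561), ([2,2,2,1,4,1,1,1,5,1,4],1234,1018), ([1,1,2,2,1,4,1,1,1,5,1,3,1],7595,8927)]
theorem r215 : rgV L215 8783 25 = true := by decide +kernel
theorem f215 : ∀ p ∈ L215, fam (wl p.1) p.2.1 p.2.2 = true := by
  intro p hp
  simp only [L215, List.mem_cons, List.not_mem_nil, or_false] at hp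
  rcases hp with rfl | rfl | rfl | rfl | rfl | rfl | rfl | rfl | rfl | rfl | rfl | rfl | rfl | rfl | rfl | rfl | rfl | rfl | rfl | rfl | rfl | rfl | rfl | rfl | rfl | rfl | rfl | rfl | rfl | rfl
  · exact x215_0
  · exact x215_1
  · exact x215_2
  · exact x215_3
  · exact x215_4
  · exact x215_5
  · exact x215_6
  · exact x215_7
  · exact x215_8
  · exact x215_9
  · exact x215_10
  · exact x215_11
  · exact x215_12
  · exact x215_13
  · exact x215_14
  · exact x215_15
  · exact x215_16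
  · exact x215_17
  · exact x215_18
  · exact x215_19
  · exact x215_20
  · exact x215_21
  · exact x215_22
  · exact x215_23
  · exact x215_24
  · exact x215_25
  · exact x215_26
  · exact x215_27
  · exact x215_28
  · exact x215_29

end Pool.Agent.V5helper47.EV
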