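import Pool.Agent.V5helper47.EV.S2

/-! Search, part of the half words. -/

set_option maxRecDepth 1000000

namespace Pool.Agent.V5helper47.EV

open H419R2 Pool.Agent.N911 Pool.Agent.V5helper47.CN

theorem x216_0 : fam (wl [1,1,1,4,1,2,2,2,10,3]) 2444 3158 = true := by decide +kernel
theorem x216_1 : fam (wl [1,6,5,2,1,10,3,2]) 7082 12194 = true := by decide +kernel
theorem x216_2 : fam (wl [7,5,2,1,10,3,1,1]) 1749 487 = true := by decide +kernel
theorem x216_3 : fam (wl [2,1,4,1,2,2,2,10,2,1]) 6387 4523 = true := by decide +kernel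
theorem x216_4 : fam (wl [7,1,3,1,1,3,1,1,15]) 2731 702 = true := by decide +kernel
theorem x216_5 : fam (wl [1,6,1,3,1,1,3,1,1,14,1]) 6106 10645 = true := by decide +kernel
theorem x216_6 : fam (wl [1,1,1,7,1,2,2,16,3]) 7583 9910 = true := by decide +kernel
theorem x216_7 : fam (wl [2,1,7,1,2,2,16,2,1]) 1264 877 = true := by decide +kernel
theorem x216_8 : fam (wl [3,3,9,4,1,1,1,6]) 3192 1922 = true := by decide +kernel
theorem x216_9 : fam (wl [1,2,3,9,4,1,1,1,5,1]) 5655 7907 = true := by decide +kernel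
theorem x216_10 : fam (wl [1,10,5,1,11,5,2]) 7432 13534 = true := by decide +kernel
theorem x216_11 : fam (wl [1,34,1,1,3,17,2]) 2649 5150 = true := by decide +kernel
theorem x216_12 : fam (wl [35,1,1,3,17,1,1]) 6206 349 = true := by decide +kernel
theorem x216_13 : fam (wl [11,5,1,11,5,1,1]) 1423 255 = true := by decide +kernel
theorem x216_14 : fam (wl [1,1,4,1,2,1,2,6,1,1,1,3]) 206 226 = true := by decide +kernel
theorem x216_15 : fam (wl [1,53,2,1,26,2]) 2091 4106 = true := by decide +kernel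
theorem x216_16 : fam (wl [54,2,1,26,1,1]) 6764 249 = true := by decide +kernel
theorem x216_17 : fam (wl [2,4,1,2,1,2,6,1,1,1,2,1]) 8649 7823 = true := by decide +kernel
theorem x216_18 : fam (wl [5,1,2,5,2,1,2,11]) 415 146 = true := by decide +kernel
theorem x216_19 : fam (wl [2,26,1,2,13,4]) 7459 7322 = true := by decide +kernel
theorem x216_20 : fam (wl [1,1,26,1,2,13,3,1]) 1398 1425 = true := by decide +kernel
theorem x216_21 : fam (wl [1,4,1,2,5,2,1,2,10,1]) 8442 13917 = true := by decide +kernel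
theorem x216_22 : fam (wl [1,3,1,1,9,1,4,3,1,1,2]) 5996 9342 = true := by decide +kernel
theorem x216_23 : fam (wl [4,1,1,9,1,4,3,1,1,1,1]) 2865 1267 = true := by decide +kernel
theorem x216_24 : fam (wl [4,13,2,1,6,8]) 6752 3314 = true := by decide +kernel
theorem x216_25 : fam (wl [1,3,13,2,1,6,7,1]) 2113 3191 = true := by decide +kernel
theorem x216_26 : fam (wl [5,10,1,2,5,10]) 6973 2738 = true := by decide +kernel
theorem x216_27 : fam (wl [1,1,1,1,1,1,2,2,1,5,4,3]) 8816 10886 = true := by decide +kernel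
theorem x216_28 : fam (wl [2,1,1,1,1,2,2,1,5,4,2,1]) 55 43 = true := by decide +kernel
theorem x216_29 : fam (wl [1,4,10,1,2,5,9,1]) 1898 3053 = true := by decide +kernel
/-- words with first entry from 8833 to 8879 -/
def L216 : List (List ℕ × ℕ × ℕ) := [([1,1,1,4,1,2,2,2,10,3],2444,3158), ([1,6,5,2,1,10,3,2],7082,12194), ([7,5,2,1,10,3,1,1],1749,487), ([2,1,4,1,2,2,2,10,2,1],6387,4523), ([7,1,3,1,1,3,1,1,15],2731,702), ([1,6,1,3,1,1,3,1,1,14,1],6106,10645), ([1,1,1,7,1,2,2,16,3],7583,9910), ([2,1,7,1,2,2,16,2,1],1264,877), ([3,3,9,4,1,1,1,6],3192,1922), ([1,2,3,9,4,1,1,1,5,1],5655,7907), ([1,10,5,1,11,5,2],7432,13534), ([1,34,1,1,3,17,2],2649,5150), ([35,1,1,3,17,1,1],6206,349), ([11,5,1,11,5,1,1],1423,255), ([1,1,4,1,2,1,2,6,1,1,1,3],206,226), ([1,53,2,1,26,2],2091,4106), ([54,2,1,26,1,1],6764,249), ([2,4,1,2,1,2,6,1,1,1,2,1],8649,7823), ([5,1,2,5,2,1,2,11],415,146), ([2,26,1,2,13,4],7459,7322), ([1,1,26,1,2,13,3,1],1398,1425), ([1,4,1,2,5,2,1,2,10,1],8442,13917),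 ([1,3,1,1,9,1,4,3,1,1,2],5996,9342), ([4,1,1,9,1,4,3,1,1,1,1],2865,1267), ([4,13,2,1,6,8],6752,3314), ([1,3,13,2,1,6,7,1],2113,3191), ([5,10,1,2,5,10],6973,2738), ([1,1,1,1,1,1,2,2,1,5,4,3],8816,10886), ([2,1,1,1,1,2,2,1,5,4,2,1],55,43), ([1,4,10,1,2,5,9,1],1898,3053)]
theorem r216 : rgV L216 8833 24 = true := by decide +kernel
theorem f216 : ∀ p ∈ L216, fam (wl p.1) p.2.1 p.2.2 = true := by
  intro p hp
  simp only [L216, List.mem_cons, List.not_mem_nil, or_false] at hp
  rcases hp with rfl | rfl | rfl | rfl | rfl | rfl | rfl | rfl | rfl | rfl | rfl | rfl | rfl | rfl | rfl | rfl | rfl | rfl | rfl | rfl | rfl | rfl | rfl | rfl | rfl | rfl | rfl | rfl | rfl | rfl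
  · exact x216_0
  · exact x216_1
  · exact x216_2
  · exact x216_3
  · exact x216_4
  · exact x216_5
  · exact x216_6
  · exact x216_7
  · exact x216_8
  · exact x216_9
  · exact x216_10
  · exact x216_11
  · exact x216_12
  · exact x216_13
  · exact x216_14
  · exact x216_15
  · exact x216_16
  · exact x216_17
  · exact x216_18
  · exact x216_19
  · exact x216_20
  · exact x216_21
  · exact x216_22
  · exact x216_23
  · exact x216_24
  · exact x216_25
  · exact x216_26
  · exact x216_27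
  · exact x216_28
  · exact x216_29

end Pool.Agent.V5helper47.EV
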