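import Pool.Agent.V5helper47.EV.S2

/-! Search, part of the half words. -/

set_option maxRecDepth 1000000

namespace Pool.Agent.V5helper47.EV

open H419R2 Pool.Agent.N911 Pool.Agent.V5helper47.CN

theorem x217_0 : fam (wl [1,2,6,2,1,2,1,12,1,2]) 1734 2370 = true := by decide +kernel
theorem x217_1 : fam (wl [1,12,5,10,6,2]) 6960 12866 = true := by decide +kernel
theorem x217_2 : fam (wl [13,5,10,6,1,1]) 1919 291 = true := by decide +kernel
theorem x217_3 : fam (wl [3,6,2,1,2,1,12,1,1,1]) 7145 4527 = true := by decide +kernel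
theorem x217_4 : fam (wl [1,1,1,2,1,1,2,1,6,6,3]) 1124 1422 = true := by decide +kernel
theorem x217_5 : fam (wl [2,1,2,1,1,2,1,6,6,2,1]) 7761 5707 = true := by decide +kernel
theorem x217_6 : fam (wl [22,4,2,44]) 1800 162 = true := by decide +kernel
theorem x217_7 : fam (wl [1,2,2,7,2,1,3,4,1,2]) 8713 12402 = true := by decide +kernel
theorem x217_8 : fam (wl [3,2,7,2,1,3,4,1,1,1]) 174 101 = true := by decide +kernel
theorem x217_9 : fam (wl [1,21,4,2,43,1]) 7087 13539 = true := by decide +kernel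
theorem x217_10 : fam (wl [2,10,3,6,5,4]) 589 562 = true := by decide +kernel
theorem x217_11 : fam (wl [1,4,2,8,4,4,2,2]) 1594 2606 = true := by decide +kernel
theorem x217_12 : fam (wl [5,2,8,4,4,2,1,1]) 7295 2667 = true := by decide +kernel
theorem x217_13 : fam (wl [1,1,10,3,6,5,3,1]) 8300 8685 = true := by decide +kernel
theorem x217_14 : fam (wl [16,5,1,2,32]) 4222 522 = true := by decide +kernel
theorem x217_15 : fam (wl [7,1,10,1,4,1,15]) 4583 1158 = true := by decide +kernel
theorem x217_16 : fam (wl [6,3,1,1,1,4,1,1,12]) 8853 2822 = true := by decide +kernel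
theorem x217_17 : fam (wl [4,2,6,1,13,1,8]) 317 142 = true := by decide +kernel
theorem x217_18 : fam (wl [1,3,2,6,1,13,1,7,1]) 8578 13317 = true := by decide +kernel
theorem x217_19 : fam (wl [1,5,3,1,1,1,4,1,1,11,1]) 42 73 = true := by decide +kernel
theorem x217_20 : fam (wl [1,6,1,10,1,4,1,14,1]) 4312 7537 = true := by decide +kernel
theorem x217_21 : fam (wl [1,15,5,1,2,31,1]) 4673 8771 = true := by decide +kernel
theorem x217_22 : fam (wl [8,6,1,2,3,16]) 986 242 = true := by decide +kernel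
theorem x217_23 : fam (wl [1,30,2,4,15,2]) 1587 3074 = true := by decide +kernel
theorem x217_24 : fam (wl [31,2,4,15,1,1]) 7310 465 = true := by decide +kernel
theorem x217_25 : fam (wl [1,7,6,1,2,3,15,1]) 7911 13883 = true := by decide +kernel
theorem x217_26 : fam (wl [6,1,2,2,2,2,2,13]) 3387 1010 = true := by decide +kernel
theorem x217_27 : fam (wl [1,1,13,1,2,1,2,6,1,3]) 6509 6738 = true := by decide +kernel
theorem x217_28 : fam (wl [2,13,1,2,1,2,6,1,2,1]) 2396 2313 = true := by decide +kernel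
theorem x217_29 : fam (wl [1,5,1,2,2,2,2,2,12,1]) 5518 9393 = true := by decide +kernel
/-- words with first entry from 8881 to 8911 -/
def L217 : List (List ℕ × ℕ × ℕ) := [([1,2,6,2,1,2,1,12,1,2],1734,2370), ([1,12,5,10,6,2],6960,12866), ([13,5,10,6,1,1],1919,291), ([3,6,2,1,2,1,12,1,1,1],7145,4527), ([1,1,1,2,1,1,2,1,6,6,3],1124,1422), ([2,1,2,1,1,2,1,6,6,2,1],7761,5707), ([22,4,2,44],1800,162), ([1,2,2,7,2,1,3,4,1,2],8713,12402), ([3,2,7,2,1,3,4,1,1,1],174,101), ([1,21,4,2,43,1],7087,13539), ([2,10,3,6,5,4],589,562), ([1,4,2,8,4,4,2,2],1594,2606), ([5,2,8,4,4,2,1,1],7295,2667), ([1,1,10,3,6,5,3,1],8300,8685), ([16,5,1,2,32],4222,522), ([7,1,10,1,4,1,15],4583,1158), ([6,3,1,1,1,4,1,1,12],8853,2822), ([4,2,6,1,13,1,8],317,142), ([1,3,2,6,1,13,1,7,1],8578,13317), ([1,5,3,1,1,1,4,1,1,11,1],42,73), ([1,6,1,10,1,4,1,14,1],4312,7537), ([1,15,5,1,2,31,1],4673,8771), ([8,6,1,2,3,16],986,242), ([1,30,2,4,15,2],1587,3074), ([31,2,4,15,1,1],7310,465), ([1,7,6,1,2,3,15,1],7911,13883),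 ([6,1,2,2,2,2,2,13],3387,1010), ([1,1,13,1,2,1,2,6,1,3],6509,6738), ([2,13,1,2,1,2,6,1,2,1],2396,2313), ([1,5,1,2,2,2,2,2,12,1],5518,9393)]
theorem r217 : rgV L217 8881 16 = true := by decide +kernel
theorem f217 : ∀ p ∈ L217, fam (wl p.1) p.2.1 p.2.2 = true := by
  intro p hp
  simp only [L217, List.mem_cons, List.not_mem_nil, or_false] at hp
  rcases hp with rfl | rfl | rfl | rfl | rfl | rfl | rfl | rfl | rfl | rfl | rfl | rfl | rfl | rfl | rfl | rfl | rfl | rfl | rfl | rfl | rfl | rfl | rfl | rfl | rfl | rfl | rfl | rfl | rfl | rfl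
  · exact x217_0
  · exact x217_1
  · exact x217_2
  · exact x217_3
  · exact x217_4
  · exact x217_5
  · exact x217_6
  · exact x217_7
  · exact x217_8
  · exact x217_9
  · exact x217_10
  · exact x217_11
  · exact x217_12
  · exact x217_13
  · exact x217_14
  · exact x217_15
  · exact x217_16
  · exact x217_17
  · exact x217_18
  · exact x217_19
  · exact x217_20
  · exact x217_21
  · exact x217_22
  · exact x217_23
  · exact x217_24
  · exact x217_25
  · exact x217_26
  · exact x217_27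
  · exact x217_28
  · exact x217_29

end Pool.Agent.V5helper47.EV
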