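import Pool.Agent.V5helper47.EV.S2

/-! Search, part of the half words. -/

set_option maxRecDepth 1000000

namespace Pool.Agent.V5helper47.EV

open H419R2 Pool.Agent.N911 Pool.Agent.V5helper47.CN

theorem x218_0 : fam (wl [1,1,1,2,3,1,1,3,1,1,5,3]) 3887 4890 = true := by decide +kernel
theorem x218_1 : fam (wl [1,2,2,1,1,1,1,2,4,5,1,2]) 6015 8474 = true := by decide +kernel
theorem x218_2 : fam (wl [3,2,1,1,1,1,2,4,5,1,1,1]) 2896 1713 = true := by decide +kernel
theorem x218_3 : fam (wl [2,1,2,3,1,1,3,1,1,5,2,1]) 5024 3729 = true := by decide +kernel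
theorem x218_4 : fam (wl [8,1,2,3,1,1,2,17]) 3504 806 = true := by decide +kernel
theorem x218_5 : fam (wl [3,2,1,2,2,4,1,2,1,6]) 2914 1730 = true := by decide +kernel
theorem x218_6 : fam (wl [1,2,2,1,2,2,4,1,2,1,5,1]) 6005 8447 = true := by decide +kernel
theorem x218_7 : fam (wl [1,7,1,2,3,1,1,2,16,1]) 5415 9587 = true := by decide +kernel
theorem x218_8 : fam (wl [10,5,2,1,2,20]) 988 194 = true := by decide +kernel
theorem x218_9 : fam (wl [1,9,5,2,1,2,19,1]) 7933 14311 = true := by decide +kernel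
theorem x218_10 : fam (wl [3,4,1,1,2,2,3,2,6]) 312 194 = true := by decide +kernel
theorem x218_11 : fam (wl [1,2,1,1,12,1,5,1,3,1,2]) 4248 6082 = true := by decide +kernel
theorem x218_12 : fam (wl [3,1,1,12,1,5,1,3,1,1,1]) 4677 2659 = true := by decide +kernel
theorem x218_13 : fam (wl [1,2,4,1,1,2,2,3,2,5,1]) 8613 11875 = true := by decide +kernel
theorem x218_14 : fam (wl [3,1,1,8,1,18,7]) 885 502 = true := by decide +kernel
theorem x218_15 : fam (wl [1,2,1,1,8,1,18,6,1]) 8042 11525 = true := by decide +kernel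
theorem x218_16 : fam (wl [1,17,5,2,1,1,8,2]) 7846 14830 = true := by decide +kernel
theorem x218_17 : fam (wl [18,5,2,1,1,8,1,1]) 1081 119 = true := by decide +kernel
theorem x218_18 : fam (wl [1,1,1,3,4,1,2,2,7,3]) 2509 3202 = true := by decide +kernel
theorem x218_19 : fam (wl [1,5,2,1,1,2,1,3,2,1,2,2]) 6071 10242 = true := by decide +kernel
theorem x218_20 : fam (wl [6,2,1,1,2,1,3,2,1,2,1,1]) 2864 897 = true := by decide +kernel
theorem x218_21 : fam (wl [2,1,3,4,1,2,2,7,2,1]) 6426 4653 = true := by decide +kernel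
theorem x218_22 : fam (wl [25,3,1,1,50]) 7712 610 = true := by decide +kernel
theorem x218_23 : fam (wl [1,24,3,1,1,49,1]) 1237 2379 = true := by decide +kernel
theorem x218_24 : fam (wl [5,1,14,1,6,1,11]) 2725 918 = true := by decide +kernel
theorem x218_25 : fam (wl [2,2,12,1,25,1,4]) 4583 3694 = true := by decide +kernel
theorem x218_26 : fam (wl [1,1,2,12,1,25,1,3,1]) 4368 5217 = true := by decide +kernel
theorem x218_27 : fam (wl [1,4,1,14,1,6,1,10,1]) 6226 10357 = true := by decide +kernel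
/-- words with first entry from 8913 to 8957 -/
def L218 : List (List ℕ × ℕ × ℕ) := [([1,1,1,2,3,1,1,3,1,1,5,3],3887,4890), ([1,2,2,1,1,1,1,2,4,5,1,2],6015,8474), ([3,2,1,1,1,1,2,4,5,1,1,1],2896,1713), ([2,1,2,3,1,1,3,1,1,5,2,1],5024,3729), ([8,1,2,3,1,1,2,17],3504,806), ([3,2,1,2,2,4,1,2,1,6],2914,1730), ([1,2,2,1,2,2,4,1,2,1,5,1],6005,8447), ([1,7,1,2,3,1,1,2,16,1],5415,9587), ([10,5,2,1,2,20],988,194), ([1,9,5,2,1,2,19,1],7933,14311), ([3,4,1,1,2,2,3,2,6],312,194), ([1,2,1,1,12,1,5,1,3,1,2],4248,6082), ([3,1,1,12,1,5,1,3,1,1,1],4677,2659), ([1,2,4,1,1,2,2,3,2,5,1],8613,11875), ([3,1,1,8,1,18,7],885,502), ([1,2,1,1,8,1,18,6,1],8042,11525), ([1,17,5,2,1,1,8,2],7846,14830), ([18,5,2,1,1,8,1,1],1081,119), ([1,1,1,3,4,1,2,2,7,3],2509,3202), ([1,5,2,1,1,2,1,3,2,1,2,2],6071,10242), ([6,2,1,1,2,1,3,2,1,2,1,1],2864,897), ([2,1,3,4,1,2,2,7,2,1],6426,4653), ([25,3,1,1,50],7712,610), ([1,24,3,1,1,49,1],1237,2379), ([5,1,14,1,6,1,11],2725,918), ([2,2,12,1,25,1,4],4583,3694),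 ([1,1,2,12,1,25,1,3,1],4368,5217), ([1,4,1,14,1,6,1,10,1],6226,10357)]
theorem r218 : rgV L218 8913 23 = true := by decide +kernel
theorem f218 : ∀ p ∈ L218, fam (wl p.1) p.2.1 p.2.2 = true := by
  intro p hp
  simp only [L218, List.mem_cons, List.not_mem_nil, or_false] at hp
  rcases hp with rfl | rfl | rfl | rfl | rfl | rfl | rfl | rfl | rfl | rfl | rfl | rfl | rfl | rfl | rfl | rfl | rfl | rfl | rfl | rfl | rfl | rfl | rfl | rfl | rfl | rfl | rfl | rfl
  · exact x218_0
  · exact x218_1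
  · exact x218_2
  · exact x218_3
  · exact x218_4
  · exact x218_5
  · exact x218_6
  · exact x218_7
  · exact x218_8
  · exact x218_9
  · exact x218_10
  · exact x218_11
  · exact x218_12
  · exact x218_13
  · exact x218_14
  · exact x218_15
  · exact x218_16
  · exact x218_17
  · exact x218_18
  · exact x218_19
  · exact x218_20
  · exact x218_21
  · exact x218_22
  · exact x218_23
  · exact x218_24
  · exact x218_25
  · exact x218_26
  · exact x218_27

end Pool.Agent.V5helper47.EV
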