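import Pool.Agent.V5helper47.EV.S2

/-! Search, part of the half words. -/

set_option maxRecDepth 1000000

namespace Pool.Agent.V5helper47.EV

open H419R2 Pool.Agent.N911 Pool.Agent.V5helper47.CN

theorem x220_0 : fam (wl [2,1,4,3,1,2,1,1,1,1,1,5]) 2144 1526 = true := by decide +kernel
theorem x220_1 : fam (wl [1,1,6,7,3,1,1,2,1,3]) 1921 2066 = true := by decide +kernel
theorem x220_2 : fam (wl [1,2,22,44,1,2]) 6326 8498 = true := by decide +kernel
theorem x220_3 : fam (wl [1,5,1,4,1,2,10,1,2,2]) 6103 10418 = true := by decide +kernel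
theorem x220_4 : fam (wl [6,1,4,1,2,10,1,2,1,1]) 2882 845 = true := by decide +kernel
theorem x220_5 : fam (wl [3,22,44,1,1,1]) 2659 1747 = true := by decide +kernel
theorem x220_6 : fam (wl [2,6,7,3,1,1,2,1,2,1]) 7064 6533 = true := by decide +kernel
theorem x220_7 : fam (wl [1,1,1,4,3,1,2,1,1,1,1,1,4,1]) 6841 8815 = true := by decide +kernel
theorem x220_8 : fam (wl [3,1,22,1,10,1,7]) 6709 3390 = true := by decide +kernel
theorem x220_9 : fam (wl [1,1,1,1,6,1,1,3,3,3,3]) 6273 7598 = true := by decide +kernel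
theorem x220_10 : fam (wl [2,1,1,6,1,1,3,3,3,2,1]) 2718 2145 = true := by decide +kernel
theorem x220_11 : fam (wl [1,2,1,22,1,10,1,6,1]) 2282 3413 = true := by decide +kernel
theorem x220_12 : fam (wl [2,17,2,2,1,8,4]) 5960 5794 = true := by decide +kernel
theorem x220_13 : fam (wl [1,1,17,2,2,1,8,3,1]) 3037 3123 = true := by decide +kernel
theorem x220_14 : fam (wl [1,18,1,3,1,1,2,9,2]) 365 694 = true := by decide +kernel
theorem x220_15 : fam (wl [19,1,3,1,1,2,9,1,1]) 8634 873 = true := by decide +kernel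
theorem x220_16 : fam (wl [2,7,1,3,7,1,3,4]) 1969 1850 = true := by decide +kernel
theorem x220_17 : fam (wl [1,1,7,1,3,7,1,3,3,1]) 7030 7457 = true := by decide +kernel
theorem x220_18 : fam (wl [3,1,3,1,4,2,2,1,1,7]) 2408 1270 = true := by decide +kernel
theorem x220_19 : fam (wl [2,2,13,26,1,4]) 2593 2090 = true := by decide +kernel
theorem x220_20 : fam (wl [1,1,2,13,26,1,3,1]) 6408 7653 = true := by decide +kernel
theorem x220_21 : fam (wl [1,2,1,3,1,4,2,2,1,1,6,1]) 6593 9711 = true := by decide +kernel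
theorem x220_22 : fam (wl [2,1,30,1,14,1,5]) 8422 5674 = true := by decide +kernel
theorem x220_23 : fam (wl [1,1,1,30,1,14,1,4,1]) 583 775 = true := by decide +kernel
theorem x220_24 : fam (wl [1,1,5,3,2,1,6,2,1,3]) 8103 8802 = true := by decide +kernel
theorem x220_25 : fam (wl [2,5,3,2,1,6,2,1,2,1]) 906 829 = true := by decide +kernel
theorem x220_26 : fam (wl [1,1,46,1,22,1,3]) 1969 1990 = true := by decide +kernel
theorem x220_27 : fam (wl [1,12,1,5,1,2,2,6,2]) 5394 10010 = true := by decide +kernel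
theorem x220_28 : fam (wl [13,1,5,1,2,2,6,1,1]) 3621 523 = true := by decide +kernel
theorem x220_29 : fam (wl [2,46,1,22,1,2,1]) 7046 6973 = true := by decide +kernel
/-- words with first entry from 8987 to 9021 -/
def L220 : List (List ℕ × ℕ × ℕ) := [([2,1,4,3,1,2,1,1,1,1,1,5],2144,1526), ([1,1,6,7,3,1,1,2,1,3],1921,2066), ([1,2,22,44,1,2],6326,8498), ([1,5,1,4,1,2,10,1,2,2],6103,10418), ([6,1,4,1,2,10,1,2,1,1],2882,845), ([3,22,44,1,1,1],2659,1747), ([2,6,7,3,1,1,2,1,2,1],7064,6533), ([1,1,1,4,3,1,2,1,1,1,1,1,4,1],6841,8815), ([3,1,22,1,10,1,7],6709,3390), ([1,1,1,1,6,1,1,3,3,3,3],6273,7598), ([2,1,1,6,1,1,3,3,3,2,1],2718,2145), ([1,2,1,22,1,10,1,6,1],2282,3413), ([2,17,2,2,1,8,4],5960,5794), ([1,1,17,2,2,1,8,3,1],3037,3123), ([1,18,1,3,1,1,2,9,2],365,694), ([19,1,3,1,1,2,9,1,1],8634,873), ([2,7,1,3,7,1,3,4],1969,1850), ([1,1,7,1,3,7,1,3,3,1],7030,7457), ([3,1,3,1,4,2,2,1,1,7],2408,1270), ([2,2,13,26,1,4],2593,2090), ([1,1,2,13,26,1,3,1],6408,7653),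 ([1,2,1,3,1,4,2,2,1,1,6,1],6593,9711), ([2,1,30,1,14,1,5],8422,5674), ([1,1,1,30,1,14,1,4,1],583,775), ([1,1,5,3,2,1,6,2,1,3],8103,8802), ([2,5,3,2,1,6,2,1,2,1],906,829), ([1,1,46,1,22,1,3],1969,1990), ([1,12,1,5,1,2,2,6,2],5394,10010), ([13,1,5,1,2,2,6,1,1],3621,523), ([2,46,1,22,1,2,1],7046,6973)]
theorem r220 : rgV L220 8987 18 = true := by decide +kernel
theorem f220 : ∀ p ∈ L220, fam (wl p.1) p.2.1 p.2.2 = true := by
  intro p hp
  simp only [L220, List.mem_cons, List.not_mem_nil, or_false] at hp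
  rcases hp with rfl | rfl | rfl | rfl | rfl | rfl | rfl | rfl | rfl | rfl | rfl | rfl | rfl | rfl | rfl | rfl | rfl | rfl | rfl | rfl | rfl | rfl | rfl | rfl | rfl | rfl | rfl | rfl | rfl | rfl
  · exact x220_0
  · exact x220_1
  · exact x220_2
  · exact x220_3
  · exact x220_4
  · exact x220_5
  · exact x220_6
  · exact x220_7
  · exact x220_8
  · exact x220_9
  · exact x220_10
  · exact x220_11
  · exact x220_12
  · exact x220_13
  · exact x220_14
  · exact x220_15
  · exact x220_16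
  · exact x220_17
  · exact x220_18
  · exact x220_19
  · exact x220_20
  · exact x220_21
  · exact x220_22
  · exact x220_23
  · exact x220_24
  · exact x220_25
  · exact x220_26
  · exact x220_27
  · exact x220_28
  · exact x220_29

end Pool.Agent.V5helper47.EV
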