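import Pool.Agent.V5helper47.EV.S2

/-! Search, part of the half words. -/

set_option maxRecDepth 1000000

namespace Pool.Agent.V5helper47.EV

open H419R2 Pool.Agent.N911 Pool.Agent.V5helper47.CN

theorem x221_0 : fam (wl [7,1,1,3,1,8,15]) 6975 1846 = true := by decide +kernel
theorem x221_1 : fam (wl [1,93,1,46,2]) 6790 13438 = true := by decide +kernel
theorem x221_2 : fam (wl [94,1,46,1,1]) 2231 47 = true := by decide +kernel
theorem x221_3 : fam (wl [1,6,1,1,3,1,8,14,1]) 2046 3553 = true := by decide +kernel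
theorem x221_4 : fam (wl [16,3,2,1,1,32]) 4709 578 = true := by decide +kernel
theorem x221_5 : fam (wl [3,1,1,9,19,7]) 4263 2418 = true := by decide +kernel
theorem x221_6 : fam (wl [1,3,3,2,1,2,5,1,1,1,1,2]) 2678 4110 = true := by decide +kernel
theorem x221_7 : fam (wl [1,94,47,2]) 2232 4418 = true := by decide +kernel
theorem x221_8 : fam (wl [95,47,1,1]) 6793 143 = true := by decide +kernel
theorem x221_9 : fam (wl [4,3,2,1,2,5,1,1,1,1,1,1]) 6347 2955 = true := by decide +kernel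
theorem x221_10 : fam (wl [1,2,1,1,9,19,6,1]) 4762 6825 = true := by decide +kernel
theorem x221_11 : fam (wl [1,15,3,2,1,1,31,1]) 4316 8105 = true := by decide +kernel
theorem x221_12 : fam (wl [1,1,47,23,1,3]) 2543 2570 = true := by decide +kernel
theorem x221_13 : fam (wl [1,4,1,4,2,4,2,2,2,2]) 2474 4098 = true := by decide +kernel
theorem x221_14 : fam (wl [5,1,4,2,4,2,2,2,1,1]) 6557 2255 = true := by decide +kernel
theorem x221_15 : fam (wl [2,47,23,1,2,1]) 6488 6421 = true := by decide +kernel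
theorem x221_16 : fam (wl [1,8,2,1,2,2,5,4,2]) 9026 16126 = true := by decide +kernel
theorem x221_17 : fam (wl [9,2,1,2,2,5,4,1,1]) 13 3 = true := by decide +kernel
theorem x221_18 : fam (wl [4,1,1,1,6,3,3,9]) 4246 1826 = true := by decide +kernel
theorem x221_19 : fam (wl [1,3,1,1,1,6,3,3,8,1]) 4793 7527 = true := by decide +kernel
theorem x221_20 : fam (wl [2,1,31,15,1,5]) 3601 2426 = true := by decide +kernel
theorem x221_21 : fam (wl [1,1,1,31,15,1,4,1]) 5440 7217 = true := by decide +kernel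
theorem x221_22 : fam (wl [1,3,1,4,3,1,1,9,1,1,2]) 5149 8158 = true := by decide +kernel
theorem x221_23 : fam (wl [4,1,4,3,1,1,9,1,1,1,1]) 3898 1621 = true := by decide +kernel
theorem x221_24 : fam (wl [1,7,1,1,2,1,2,1,3,1,3,2]) 6016 10630 = true := by decide +kernel
theorem x221_25 : fam (wl [8,1,1,2,1,2,1,3,1,3,1,1]) 3031 707 = true := by decide +kernel
theorem x221_26 : fam (wl [3,1,23,11,1,7]) 4564 2306 = true := by decide +kernel
theorem x221_27 : fam (wl [1,11,2,1,1,3,2,1,5,2]) 538 990 = true := by decide +kernel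
theorem x221_28 : fam (wl [12,2,1,1,3,2,1,5,1,1]) 8517 1375 = true := by decide +kernel
theorem x221_29 : fam (wl [1,2,1,23,11,1,6,1]) 4491 6715 = true := by decide +kernel
/-- words with first entry from 9023 to 9057 -/
def L221 : List (List ℕ × ℕ × ℕ) := [([7,1,1,3,1,8,15],6975,1846), ([1,93,1,46,2],6790,13438), ([94,1,46,1,1],2231,47), ([1,6,1,1,3,1,8,14,1],2046,3553), ([16,3,2,1,1,32],4709,578), ([3,1,1,9,19,7],4263,2418), ([1,3,3,2,1,2,5,1,1,1,1,2],2678,4110), ([1,94,47,2],2232,4418), ([95,47,1,1],6793,143), ([4,3,2,1,2,5,1,1,1,1,1,1],6347,2955), ([1,2,1,1,9,19,6,1],4762,6825), ([1,15,3,2,1,1,31,1],4316,8105), ([1,1,47,23,1,3],2543,2570), ([1,4,1,4,2,4,2,2,2,2],2474,4098), ([5,1,4,2,4,2,2,2,1,1],6557,2255), ([2,47,23,1,2,1],6488,6421), ([1,8,2,1,2,2,5,4,2],9026,16126), ([9,2,1,2,2,5,4,1,1],13,3), ([4,1,1,1,6,3,3,9],4246,1826), ([1,3,1,1,1,6,3,3,8,1],4793,7527), ([2,1,31,15,1,5],3601,2426), ([1,1,1,31,15,1,4,1],5440,7217), ([1,3,1,4,3,1,1,9,1,1,2],5149,8158),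 ([4,1,4,3,1,1,9,1,1,1,1],3898,1621), ([1,7,1,1,2,1,2,1,3,1,3,2],6016,10630), ([8,1,1,2,1,2,1,3,1,3,1,1],3031,707), ([3,1,23,11,1,7],4564,2306), ([1,11,2,1,1,3,2,1,5,2],538,990), ([12,2,1,1,3,2,1,5,1,1],8517,1375), ([1,2,1,23,11,1,6,1],4491,6715)]
theorem r221 : rgV L221 9023 18 = true := by decide +kernel
theorem f221 : ∀ p ∈ L221, fam (wl p.1) p.2.1 p.2.2 = true := by
  intro p hp
  simp only [L221, List.mem_cons, List.not_mem_nil, or_false] at hp
  rcases hp with rfl | rfl | rfl | rfl | rfl | rfl | rfl | rfl | rfl | rfl | rfl | rfl | rfl | rfl | rfl | rfl | rfl | rfl | rfl | rfl | rfl | rfl | rfl | rfl | rfl | rfl | rfl | rfl | rfl | rfl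
  · exact x221_0
  · exact x221_1
  · exact x221_2
  · exact x221_3
  · exact x221_4
  · exact x221_5
  · exact x221_6
  · exact x221_7
  · exact x221_8
  · exact x221_9
  · exact x221_10
  · exact x221_11
  · exact x221_12
  · exact x221_13
  · exact x221_14
  · exact x221_15
  · exact x221_16
  · exact x221_17
  · exact x221_18
  · exact x221_19
  · exact x221_20
  · exact x221_21
  · exact x221_22
  · exact x221_23
  · exact x221_24
  · exact x221_25
  · exact x221_26
  · exact x221_27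
  · exact x221_28
  · exact x221_29

end Pool.Agent.V5helper47.EV
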