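import Pool.Agent.V5helper47.EV.S2

/-! Search, part of the half words. -/

set_option maxRecDepth 1000000

namespace Pool.Agent.V5helper47.EV

open H419R2 Pool.Agent.N911 Pool.Agent.V5helper47.CN

theorem x222_0 : fam (wl [4,2,7,14,1,8]) 3703 1658 = true := by decide +kernel
theorem x222_1 : fam (wl [1,3,2,7,14,1,7,1]) 5354 8313 = true := by decide +kernel
theorem x222_2 : fam (wl [1,15,1,1,2,1,3,1,7,2]) 6820 12818 = true := by decide +kernel
theorem x222_3 : fam (wl [16,1,1,2,1,3,1,7,1,1]) 2245 271 = true := by decide +kernel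
theorem x222_4 : fam (wl [1,4,2,1,1,1,1,4,5,2,2]) 7124 11602 = true := by decide +kernel
theorem x222_5 : fam (wl [1,5,2,6,1,2,1,2,1,2,2]) 1276 2158 = true := by decide +kernel
theorem x222_6 : fam (wl [6,2,6,1,2,1,2,1,2,1,1]) 7793 2411 = true := by decide +kernel
theorem x222_7 : fam (wl [5,2,1,1,1,1,4,5,2,1,1]) 1945 723 = true := by decide +kernel
theorem x222_8 : fam (wl [9,2,3,6,1,18]) 6385 1354 = true := by decide +kernel
theorem x222_9 : fam (wl [3,2,2,1,3,1,1,5,1,6]) 4687 2738 = true := by decide +kernel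
theorem x222_10 : fam (wl [1,2,2,2,1,3,1,1,5,1,5,1]) 4384 6209 = true := by decide +kernel
theorem x222_11 : fam (wl [1,8,2,3,6,1,17,1]) 2686 4805 = true := by decide +kernel
theorem x222_12 : fam (wl [3,1,4,4,1,1,1,1,1,1,7]) 8222 4318 = true := by decide +kernel
theorem x222_13 : fam (wl [3,4,4,1,9,2,6]) 1227 758 = true := by decide +kernel
theorem x222_14 : fam (wl [1,2,4,4,1,9,2,5,1]) 7850 10853 = true := by decide +kernel
theorem x222_15 : fam (wl [1,2,1,4,4,1,1,1,1,1,1,6,1]) 855 1263 = true := by decide +kernel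
theorem x222_16 : fam (wl [2,1,17,1,2,8,1,5]) 6815 4626 = true := by decide +kernel
theorem x222_17 : fam (wl [1,1,4,1,1,4,2,3,1,1,1,3]) 6189 6802 = true := by decide +kernel
theorem x222_18 : fam (wl [2,4,1,1,4,2,3,1,1,1,2,1]) 2890 2605 = true := by decide +kernel
theorem x222_19 : fam (wl [1,1,1,17,1,2,8,1,4,1]) 2264 2993 = true := by decide +kernel
theorem x222_20 : fam (wl [2,2,1,2,1,1,2,3,1,2,1,4]) 2559 2162 = true := by decide +kernel
theorem x222_21 : fam (wl [1,1,2,1,2,1,1,2,3,1,2,1,3,1]) 6530 7545 = true := by decide +kernel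
theorem x222_22 : fam (wl [5,1,15,7,1,11]) 7844 2642 = true := by decide +kernel
theorem x222_23 : fam (wl [1,8,1,1,2,2,2,3,4,2]) 1528 2738 = true := by decide +kernel
theorem x222_24 : fam (wl [9,1,1,2,2,2,3,4,1,1]) 7567 1579 = true := by decide +kernel
theorem x222_25 : fam (wl [1,4,1,15,7,1,10,1]) 1251 2083 = true := by decide +kernel
theorem x222_26 : fam (wl [5,1,8,2,1,3,1,11]) 1043 354 = true := by decide +kernel
theorem x222_27 : fam (wl [1,10,6,12,5,2]) 5598 10194 = true := by decide +kernel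
theorem x222_28 : fam (wl [11,6,12,5,1,1]) 3499 627 = true := by decide +kernel
theorem x222_29 : fam (wl [1,4,1,8,2,1,3,1,10,1]) 8054 13377 = true := by decide +kernel
/-- words with first entry from 9059 to 9101 -/
def L222 : List (List ℕ × ℕ × ℕ) := [([4,2,7,14,1,8],3703,1658), ([1,3,2,7,14,1,7,1],5354,8313), ([1,15,1,1,2,1,3,1,7,2],6820,12818), ([16,1,1,2,1,3,1,7,1,1],2245,271), ([1,4,2,1,1,1,1,4,5,2,2],7124,11602), ([1,5,2,6,1,2,1,2,1,2,2],1276,2158), ([6,2,6,1,2,1,2,1,2,1,1],7793,2411), ([5,2,1,1,1,1,4,5,2,1,1],1945,723), ([9,2,3,6,1,18],6385,1354), ([3,2,2,1,3,1,1,5,1,6],4687,2738), ([1,2,2,2,1,3,1,1,5,1,5,1],4384,6209), ([1,8,2,3,6,1,17,1],2686,4805), ([3,1,4,4,1,1,1,1,1,1,7],8222,4318), ([3,4,4,1,9,2,6],1227,758), ([1,2,4,4,1,9,2,5,1],7850,10853), ([1,2,1,4,4,1,1,1,1,1,1,6,1],855,1263), ([2,1,17,1,2,8,1,5],6815,4626), ([1,1,4,1,1,4,2,3,1,1,1,3],6189,6802), ([2,4,1,1,4,2,3,1,1,1,2,1],2890,2605), ([1,1,1,17,1,2,8,1,4,1],2264,2993),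 ([2,2,1,2,1,1,2,3,1,2,1,4],2559,2162), ([1,1,2,1,2,1,1,2,3,1,2,1,3,1],6530,7545), ([5,1,15,7,1,11],7844,2642), ([1,8,1,1,2,2,2,3,4,2],1528,2738), ([9,1,1,2,2,2,3,4,1,1],7567,1579), ([1,4,1,15,7,1,10,1],1251,2083), ([5,1,8,2,1,3,1,11],1043,354), ([1,10,6,12,5,2],5598,10194), ([11,6,12,5,1,1],3499,627), ([1,4,1,8,2,1,3,1,10,1],8054,13377)]
theorem r222 : rgV L222 9059 22 = true := by decide +kernel
theorem f222 : ∀ p ∈ L222, fam (wl p.1) p.2.1 p.2.2 = true := by
  intro p hp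
  simp only [L222, List.mem_cons, List.not_mem_nil, or_false] at hp
  rcases hp with rfl | rfl | rfl | rfl | rfl | rfl | rfl | rfl | rfl | rfl | rfl | rfl | rfl | rfl | rfl | rfl | rfl | rfl | rfl | rfl | rfl | rfl | rfl | rfl | rfl | rfl | rfl | rfl | rfl | rfl
  · exact x222_0
  · exact x222_1
  · exact x222_2
  · exact x222_3
  · exact x222_4
  · exact x222_5
  · exact x222_6
  · exact x222_7
  · exact x222_8
  · exact x222_9
  · exact x222_10
  · exact x222_11
  · exact x222_12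
  · exact x222_13
  · exact x222_14
  · exact x222_15
  · exact x222_16
  · exact x222_17
  · exact x222_18
  · exact x222_19
  · exact x222_20
  · exact x222_21
  · exact x222_22
  · exact x222_23
  · exact x222_24
  · exact x222_25
  · exact x222_26
  · exact x222_27
  · exact x222_28
  · exact x222_29

end Pool.Agent.V5helper47.EV
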