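import Pool.Agent.V5helper47.EV.S2

/-! Search, part of the half words. -/

set_option maxRecDepth 1000000

namespace Pool.Agent.V5helper47.EV

open H419R2 Pool.Agent.N911 Pool.Agent.V5helper47.CN

theorem x223_0 : fam (wl [2,2,1,1,2,2,2,2,3,1,4]) 5611 4702 = true := by decide +kernel
theorem x223_1 : fam (wl [1,1,2,1,1,2,2,2,2,3,1,3,1]) 3490 4057 = true := by decide +kernel
theorem x223_2 : fam (wl [12,7,1,3,24]) 6586 1086 = true := by decide +kernel
theorem x223_3 : fam (wl [1,3,2,3,1,1,3,1,1,2,1,1,2]) 7560 11714 = true := by decide +kernel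
theorem x223_4 : fam (wl [4,2,3,1,1,3,1,1,2,1,1,1,1]) 1559 703 = true := by decide +kernel
theorem x223_5 : fam (wl [1,11,7,1,3,23,1]) 2533 4651 = true := by decide +kernel
theorem x223_6 : fam (wl [20,2,1,2,1,40]) 2464 242 = true := by decide +kernel
theorem x223_7 : fam (wl [1,2,1,1,13,6,1,3,1,2]) 3477 4978 = true := by decide +kernel
theorem x223_8 : fam (wl [3,1,1,13,6,1,3,1,1,1]) 5644 3209 = true := by decide +kernel
theorem x223_9 : fam (wl [1,19,2,1,2,1,39,1]) 6657 12663 = true := by decide +kernel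
theorem x223_10 : fam (wl [1,1,5,5,1,11,2,1,3]) 4203 4574 = true := by decide +kernel
theorem x223_11 : fam (wl [2,5,5,1,11,2,1,2,1]) 4922 4489 = true := by decide +kernel
theorem x223_12 : fam (wl [1,1,3,1,5,2,1,2,2,1,1,3]) 5400 6022 = true := by decide +kernel
theorem x223_13 : fam (wl [1,1,1,12,2,1,25,3]) 5058 6658 = true := by decide +kernel
theorem x223_14 : fam (wl [1,2,12,1,2,25,1,2]) 5084 6866 = true := by decide +kernel
theorem x223_15 : fam (wl [1,3,2,5,1,2,2,1,2,1,1,2]) 4742 7358 = true := by decide +kernel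
theorem x223_16 : fam (wl [4,2,5,1,2,2,1,2,1,1,1,1]) 4385 1967 = true := by decide +kernel
theorem x223_17 : fam (wl [3,12,1,2,25,1,1,1]) 4043 2627 = true := by decide +kernel
theorem x223_18 : fam (wl [2,1,12,2,1,25,2,1]) 4069 2783 = true := by decide +kernel
theorem x223_19 : fam (wl [2,3,1,5,2,1,2,2,1,1,2,1]) 3727 3299 = true := by decide +kernel
theorem x223_20 : fam (wl [4,1,6,2,2,1,2,1,9]) 1513 622 = true := by decide +kernel
theorem x223_21 : fam (wl [1,3,1,6,2,2,1,2,1,8,1]) 7622 12113 = true := by decide +kernel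
theorem x223_22 : fam (wl [3,9,3,1,1,1,4,6]) 898 578 = true := by decide +kernel
theorem x223_23 : fam (wl [1,2,9,3,1,1,1,4,5,1]) 8237 11175 = true := by decide +kernel
theorem x223_24 : fam (wl [4,1,1,2,3,1,1,5,9]) 3300 1438 = true := by decide +kernel
theorem x223_25 : fam (wl [1,1,17,1,1,3,8,1,3]) 8230 8458 = true := by decide +kernel
theorem x223_26 : fam (wl [2,17,1,1,3,8,1,2,1]) 911 887 = true := by decide +kernel
theorem x223_27 : fam (wl [1,3,1,1,2,3,1,1,5,8,1]) 5841 9139 = true := by decide +kernel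
/-- words with first entry from 9103 to 9145 -/
def L223 : List (List ℕ × ℕ × ℕ) := [([2,2,1,1,2,2,2,2,3,1,4],5611,4702), ([1,1,2,1,1,2,2,2,2,3,1,3,1],3490,4057), ([12,7,1,3,24],6586,1086), ([1,3,2,3,1,1,3,1,1,2,1,1,2],7560,11714), ([4,2,3,1,1,3,1,1,2,1,1,1,1],1559,703), ([1,11,7,1,3,23,1],2533,4651), ([20,2,1,2,1,40],2464,242), ([1,2,1,1,13,6,1,3,1,2],3477,4978), ([3,1,1,13,6,1,3,1,1,1],5644,3209), ([1,19,2,1,2,1,39,1],6657,12663), ([1,1,5,5,1,11,2,1,3],4203,4574), ([2,5,5,1,11,2,1,2,1],4922,4489), ([1,1,3,1,5,2,1,2,2,1,1,3],5400,6022), ([1,1,1,12,2,1,25,3],5058,6658), ([1,2,12,1,2,25,1,2],5084,6866), ([1,3,2,5,1,2,2,1,2,1,1,2],4742,7358), ([4,2,5,1,2,2,1,2,1,1,1,1],4385,1967), ([3,12,1,2,25,1,1,1],4043,2627), ([2,1,12,2,1,25,2,1],4069,2783), ([2,3,1,5,2,1,2,2,1,1,2,1],3727,3299), ([4,1,6,2,2,1,2,1,9],1513,622), ([1,3,1,6,2,2,1,2,1,8,1],7622,12113), ([3,9,3,1,1,1,4,6],898,578), ([1,2,9,3,1,1,1,4,5,1],8237,11175), ([4,1,1,2,3,1,1,5,9],3300,1438),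 ([1,1,17,1,1,3,8,1,3],8230,8458), ([2,17,1,1,3,8,1,2,1],911,887), ([1,3,1,1,2,3,1,1,5,8,1],5841,9139)]
theorem r223 : rgV L223 9103 22 = true := by decide +kernel
theorem f223 : ∀ p ∈ L223, fam (wl p.1) p.2.1 p.2.2 = true := by
  intro p hp
  simp only [L223, List.mem_cons, List.not_mem_nil, or_false] at hp
  rcases hp with rfl | rfl | rfl | rfl | rfl | rfl | rfl | rfl | rfl | rfl | rfl | rfl | rfl | rfl | rfl | rfl | rfl | rfl | rfl | rfl | rfl | rfl | rfl | rfl | rfl | rfl | rfl | rfl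
  · exact x223_0
  · exact x223_1
  · exact x223_2
  · exact x223_3
  · exact x223_4
  · exact x223_5
  · exact x223_6
  · exact x223_7
  · exact x223_8
  · exact x223_9
  · exact x223_10
  · exact x223_11
  · exact x223_12
  · exact x223_13
  · exact x223_14
  · exact x223_15
  · exact x223_16
  · exact x223_17
  · exact x223_18
  · exact x223_19
  · exact x223_20
  · exact x223_21
  · exact x223_22
  · exact x223_23
  · exact x223_24
  · exact x223_25
  · exact x223_26
  · exact x223_27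

end Pool.Agent.V5helper47.EV
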