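import Pool.Agent.V5helper47.EV.S2

/-! Search, part of the half words. -/

set_option maxRecDepth 1000000

namespace Pool.Agent.V5helper47.EV

open H419R2 Pool.Agent.N911 Pool.Agent.V5helper47.CN

theorem x224_0 : fam (wl [2,6,5,10,3,4]) 4342 4018 = true := by decide +kernel
theorem x224_1 : fam (wl [1,6,1,2,1,2,1,2,1,2,3,2]) 2771 4826 = true := by decide +kernel
theorem x224_2 : fam (wl [7,1,2,1,2,1,2,1,2,3,1,1]) 6374 1649 = true := by decide +kernel
theorem x224_3 : fam (wl [1,1,6,5,10,3,3,1]) 4803 5163 = true := by decide +kernel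
theorem x224_4 : fam (wl [2,2,4,1,2,2,9,1,4]) 7530 6142 = true := by decide +kernel
theorem x224_5 : fam (wl [1,1,2,4,1,2,2,9,1,3,1]) 1619 1919 = true := by decide +kernel
theorem x224_6 : fam (wl [7,1,11,5,1,15]) 5582 1410 = true := by decide +kernel
theorem x224_7 : fam (wl [1,1,15,2,4,7,1,3]) 7231 7458 = true := by decide +kernel
theorem x224_8 : fam (wl [2,15,2,4,7,1,2,1]) 1920 1861 = true := by decide +kernel
theorem x224_9 : fam (wl [1,6,1,11,5,1,14,1]) 3569 6239 = true := by decide +kernel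
theorem x224_10 : fam (wl [2,2,1,1,1,2,1,6,3,1,4]) 45 38 = true := by decide +kernel
theorem x224_11 : fam (wl [1,1,2,1,1,1,2,1,6,3,1,3,1]) 9114 10569 = true := by decide +kernel
theorem x224_12 : fam (wl [1,2,4,1,5,2,1,9,1,2]) 2582 3554 = true := by decide +kernel
theorem x224_13 : fam (wl [3,4,1,5,2,1,9,1,1,1]) 6577 4103 = true := by decide +kernel
theorem x224_14 : fam (wl [4,1,1,6,1,14,9]) 3722 1642 = true := by decide +kernel
theorem x224_15 : fam (wl [2,4,1,7,1,3,2,2,4]) 1241 1126 = true := by decide +kernel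
theorem x224_16 : fam (wl [1,1,4,1,7,1,3,2,2,3,1]) 7924 8661 = true := by decide +kernel
theorem x224_17 : fam (wl [1,3,1,1,6,1,14,8,1]) 5443 8487 = true := by decide +kernel
theorem x224_18 : fam (wl [11,1,3,1,2,1,1,23]) 3666 622 = true := by decide +kernel
theorem x224_19 : fam (wl [2,1,3,1,1,3,1,1,3,1,1,5]) 5731 4122 = true := by decide +kernel
theorem x224_20 : fam (wl [1,1,1,3,1,1,3,1,1,3,1,1,4,1]) 3438 4405 = true := by decide +kernel
theorem x224_21 : fam (wl [1,10,1,3,1,2,1,1,22,1]) 5503 10075 = true := by decide +kernel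
theorem x224_22 : fam (wl [3,7,2,2,2,1,3,6]) 4442 2834 = true := by decide +kernel
theorem x224_23 : fam (wl [1,4,2,2,2,4,1,4,2,2]) 7345 11978 = true := by decide +kernel
theorem x224_24 : fam (wl [5,2,2,2,4,1,4,2,1,1]) 1832 677 = true := by decide +kernel
theorem x224_25 : fam (wl [1,2,7,2,2,2,1,3,5,1]) 4735 6451 = true := by decide +kernel
theorem x224_26 : fam (wl [1,3,1,1,10,5,3,1,1,2]) 3991 6218 = true := by decide +kernel
theorem x224_27 : fam (wl [4,1,1,10,5,3,1,1,1,1]) 5194 2297 = true := by decide +kernel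
theorem x224_28 : fam (wl [1,1,2,1,8,1,18,2,3]) 1072 1230 = true := by decide +kernel
theorem x224_29 : fam (wl [2,2,1,8,1,18,2,2,1]) 8125 6931 = true := by decide +kernel
/-- words with first entry from 9147 to 9199 -/
def L224 : List (List ℕ × ℕ × ℕ) := [([2,6,5,10,3,4],4342,4018), ([1,6,1,2,1,2,1,2,1,2,3,2],2771,4826), ([7,1,2,1,2,1,2,1,2,3,1,1],6374,1649), ([1,1,6,5,10,3,3,1],4803,5163), ([2,2,4,1,2,2,9,1,4],7530,6142), ([1,1,2,4,1,2,2,9,1,3,1],1619,1919), ([7,1,11,5,1,15],5582,1410), ([1,1,15,2,4,7,1,3],7231,7458), ([2,15,2,4,7,1,2,1],1920,1861), ([1,6,1,11,5,1,14,1],3569,6239), ([2,2,1,1,1,2,1,6,3,1,4],45,38), ([1,1,2,1,1,1,2,1,6,3,1,3,1],9114,10569), ([1,2,4,1,5,2,1,9,1,2],2582,3554), ([3,4,1,5,2,1,9,1,1,1],6577,4103), ([4,1,1,6,1,14,9],3722,1642), ([2,4,1,7,1,3,2,2,4],1241,1126), ([1,1,4,1,7,1,3,2,2,3,1],7924,8661), ([1,3,1,1,6,1,14,8,1],5443,8487), ([11,1,3,1,2,1,1,23],3666,622), ([2,1,3,1,1,3,1,1,3,1,1,5],5731,4122), ([1,1,1,3,1,1,3,1,1,3,1,1,4,1],3438,4405),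 ([1,10,1,3,1,2,1,1,22,1],5503,10075), ([3,7,2,2,2,1,3,6],4442,2834), ([1,4,2,2,2,4,1,4,2,2],7345,11978), ([5,2,2,2,4,1,4,2,1,1],1832,677), ([1,2,7,2,2,2,1,3,5,1],4735,6451), ([1,3,1,1,10,5,3,1,1,2],3991,6218), ([4,1,1,10,5,3,1,1,1,1],5194,2297), ([1,1,2,1,8,1,18,2,3],1072,1230), ([2,2,1,8,1,18,2,2,1],8125,6931)]
theorem r224 : rgV L224 9147 27 = true := by decide +kernel
theorem f224 : ∀ p ∈ L224, fam (wl p.1) p.2.1 p.2.2 = true := by
  intro p hp
  simp only [L224, List.mem_cons, List.not_mem_nil, or_false] at hp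
  rcases hp with rfl | rfl | rfl | rfl | rfl | rfl | rfl | rfl | rfl | rfl | rfl | rfl | rfl | rfl | rfl | rfl | rfl | rfl | rfl | rfl | rfl | rfl | rfl | rfl | rfl | rfl | rfl | rfl | rfl | rfl
  · exact x224_0
  · exact x224_1
  · exact x224_2
  · exact x224_3
  · exact x224_4
  · exact x224_5
  · exact x224_6
  · exact x224_7
  · exact x224_8
  · exact x224_9
  · exact x224_10
  · exact x224_11
  · exact x224_12
  · exact x224_13
  · exact x224_14
  · exact x224_15
  · exact x224_16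
  · exact x224_17
  · exact x224_18
  · exact x224_19
  · exact x224_20
  · exact x224_21
  · exact x224_22
  · exact x224_23
  · exact x224_24
  · exact x224_25
  · exact x224_26
  · exact x224_27
  · exact x224_28
  · exact x224_29

end Pool.Agent.V5helper47.EV
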