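import Pool.Agent.V5helper47.EV.S2

/-! Search, part of the half words. -/

set_option maxRecDepth 1000000

namespace Pool.Agent.V5helper47.EV

open H419R2 Pool.Agent.N911 Pool.Agent.V5helper47.CN

theorem x225_0 : fam (wl [3,1,3,2,2,1,4,1,1,7]) 7295 3866 = true := by decide +kernel
theorem x225_1 : fam (wl [1,13,1,1,1,2,4,1,6,2]) 138 258 = true := by decide +kernel
theorem x225_2 : fam (wl [14,1,1,1,2,4,1,6,1,1]) 9061 1239 = true := by decide +kernel
theorem x225_3 : fam (wl [1,2,1,3,2,2,1,4,1,1,6,1]) 1904 2801 = true := by decide +kernel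
theorem x225_4 : fam (wl [7,2,4,8,1,14]) 5279 1418 = true := by decide +kernel
theorem x225_5 : fam (wl [1,6,2,4,8,1,13,1]) 3922 6793 = true := by decide +kernel
theorem x225_6 : fam (wl [1,2,2,1,8,1,3,1,5,1,2]) 6982 9790 = true := by decide +kernel
theorem x225_7 : fam (wl [3,2,1,8,1,3,1,5,1,1,1]) 2225 1331 = true := by decide +kernel
theorem x225_8 : fam (wl [1,1,3,2,1,1,1,3,5,1,1,3]) 207 234 = true := by decide +kernel
theorem x225_9 : fam (wl [2,3,2,1,1,1,3,5,1,1,2,1]) 9000 7841 = true := by decide +kernel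
theorem x225_10 : fam (wl [2,1,1,12,1,26,5]) 6198 4922 = true := by decide +kernel
theorem x225_11 : fam (wl [1,1,1,4,1,4,1,1,1,10,3]) 1542 1994 = true := by decide +kernel
theorem x225_12 : fam (wl [2,1,4,1,4,1,1,1,10,2,1]) 7679 5431 = true := by decide +kernel
theorem x225_13 : fam (wl [1,1,1,1,12,1,26,4,1]) 3023 3647 = true := by decide +kernel
theorem x225_14 : fam (wl [1,7,2,5,2,1,2,1,3,2]) 4029 7106 = true := by decide +kernel
theorem x225_15 : fam (wl [8,2,5,2,1,2,1,3,1,1]) 5196 1229 = true := by decide +kernel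
theorem x225_16 : fam (wl [1,3,2,1,1,3,1,1,3,2,1,1,2]) 234 362 = true := by decide +kernel
theorem x225_17 : fam (wl [1,16,3,1,7,8,2]) 1837 3462 = true := by decide +kernel
theorem x225_18 : fam (wl [17,3,1,7,8,1,1]) 7394 857 = true := by decide +kernel
theorem x225_19 : fam (wl [4,2,1,1,3,1,1,3,2,1,1,1,1]) 8997 4099 = true := by decide +kernel
theorem x225_20 : fam (wl [1,1,1,21,1,44,3]) 5819 7702 = true := by decide +kernel
theorem x225_21 : fam (wl [2,1,21,1,44,2,1]) 3418 2313 = true := by decide +kernel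
theorem x225_22 : fam (wl [1,2,4,2,1,1,3,1,8,1,2]) 4171 5758 = true := by decide +kernel
theorem x225_23 : fam (wl [3,4,2,1,1,3,1,8,1,1,1]) 5068 3141 = true := by decide +kernel
theorem x225_24 : fam (wl [2,1,6,1,2,5,1,2,1,5]) 6833 4762 = true := by decide +kernel
theorem x225_25 : fam (wl [1,1,1,6,1,2,5,1,2,1,4,1]) 2406 3137 = true := by decide +kernel
theorem x225_26 : fam (wl [67,1,135]) 9179 270 = true := by decide +kernel
theorem x225_27 : fam (wl [1,1,3,1,9,1,4,2,1,1,3]) 1011 1126 = true := by decide +kernel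
theorem x225_28 : fam (wl [2,3,1,9,1,4,2,1,1,2,1]) 8234 7301 = true := by decide +kernel
theorem x225_29 : fam (wl [1,66,1,134,1]) 66 133 = true := by decide +kernel
/-- words with first entry from 9201 to 9247 -/
def L225 : List (List ℕ × ℕ × ℕ) := [([3,1,3,2,2,1,4,1,1,7],7295,3866), ([1,13,1,1,1,2,4,1,6,2],138,258), ([14,1,1,1,2,4,1,6,1,1],9061,1239), ([1,2,1,3,2,2,1,4,1,1,6,1],1904,2801), ([7,2,4,8,1,14],5279,1418), ([1,6,2,4,8,1,13,1],3922,6793), ([1,2,2,1,8,1,3,1,5,1,2],6982,9790), ([3,2,1,8,1,3,1,5,1,1,1],2225,1331), ([1,1,3,2,1,1,1,3,5,1,1,3],207,234), ([2,3,2,1,1,1,3,5,1,1,2,1],9000,7841), ([2,1,1,12,1,26,5],6198,4922), ([1,1,1,4,1,4,1,1,1,10,3],1542,1994), ([2,1,4,1,4,1,1,1,10,2,1],7679,5431), ([1,1,1,1,12,1,26,4,1],3023,3647), ([1,7,2,5,2,1,2,1,3,2],4029,7106), ([8,2,5,2,1,2,1,3,1,1],5196,1229), ([1,3,2,1,1,3,1,1,3,2,1,1,2],234,362), ([1,16,3,1,7,8,2],1837,3462), ([17,3,1,7,8,1,1],7394,857), ([4,2,1,1,3,1,1,3,2,1,1,1,1],8997,4099),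 ([1,1,1,21,1,44,3],5819,7702), ([2,1,21,1,44,2,1],3418,2313), ([1,2,4,2,1,1,3,1,8,1,2],4171,5758), ([3,4,2,1,1,3,1,8,1,1,1],5068,3141), ([2,1,6,1,2,5,1,2,1,5],6833,4762), ([1,1,1,6,1,2,5,1,2,1,4,1],2406,3137), ([67,1,135],9179,270), ([1,1,3,1,9,1,4,2,1,1,3],1011,1126), ([2,3,1,9,1,4,2,1,1,2,1],8234,7301), ([1,66,1,134,1],66,133)]
theorem r225 : rgV L225 9201 24 = true := by decide +kernel
theorem f225 : ∀ p ∈ L225, fam (wl p.1) p.2.1 p.2.2 = true := by
  intro p hp
  simp only [L225, List.mem_cons, List.not_mem_nil, or_false] at hp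
  rcases hp with rfl | rfl | rfl | rfl | rfl | rfl | rfl | rfl | rfl | rfl | rfl | rfl | rfl | rfl | rfl | rfl | rfl | rfl | rfl | rfl | rfl | rfl | rfl | rfl | rfl | rfl | rfl | rfl | rfl | rfl
  · exact x225_0
  · exact x225_1
  · exact x225_2
  · exact x225_3
  · exact x225_4
  · exact x225_5
  · exact x225_6
  · exact x225_7
  · exact x225_8
  · exact x225_9
  · exact x225_10
  · exact x225_11
  · exact x225_12
  · exact x225_13
  · exact x225_14
  · exact x225_15
  · exact x225_16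
  · exact x225_17
  · exact x225_18
  · exact x225_19
  · exact x225_20
  · exact x225_21
  · exact x225_22
  · exact x225_23
  · exact x225_24
  · exact x225_25
  · exact x225_26
  · exact x225_27
  · exact x225_28
  · exact x225_29

end Pool.Agent.V5helper47.EV
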