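import Pool.Agent.V5helper47.EV.S2

/-! Search, part of the half words. -/

set_option maxRecDepth 1000000

namespace Pool.Agent.V5helper47.EV

open H419R2 Pool.Agent.N911 Pool.Agent.V5helper47.CN

theorem x226_0 : fam (wl [68,136]) 68 2 = true := by decide +kernel
theorem x226_1 : fam (wl [1,2,7,4,2,14,1,2]) 4178 5694 = true := by decide +kernel
theorem x226_2 : fam (wl [3,7,4,2,14,1,1,1]) 5069 3231 = true := by decide +kernel
theorem x226_3 : fam (wl [1,67,135,1]) 9179 18091 = true := by decide +kernel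
theorem x226_4 : fam (wl [25,1,2,2,51]) 7997 622 = true := by decide +kernel
theorem x226_5 : fam (wl [1,24,1,2,2,50,1]) 1258 2421 = true := by decide +kernel
theorem x226_6 : fam (wl [1,1,1,22,45,3]) 6511 8618 = true := by decide +kernel
theorem x226_7 : fam (wl [2,1,22,45,2,1]) 2744 1857 = true := by decide +kernel
theorem x226_8 : fam (wl [3,1,1,1,8,4,3,7]) 4447 2434 = true := by decide +kernel
theorem x226_9 : fam (wl [1,15,1,3,7,1,7,2]) 2387 4490 = true := by decide +kernel
theorem x226_10 : fam (wl [16,1,3,7,1,7,1,1]) 6878 821 = true := by decide +kernel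
theorem x226_11 : fam (wl [1,2,1,1,1,8,4,3,6,1]) 4818 7001 = true := by decide +kernel
theorem x226_12 : fam (wl [1,7,4,2,2,1,1,1,1,3,2]) 8468 14878 = true := by decide +kernel
theorem x226_13 : fam (wl [1,22,2,1,5,11,2]) 4004 7666 = true := by decide +kernel
theorem x226_14 : fam (wl [23,2,1,5,11,1,1]) 5265 451 = true := by decide +kernel
theorem x226_15 : fam (wl [8,4,2,2,1,1,1,1,3,1,1]) 801 195 = true := by decide +kernel
theorem x226_16 : fam (wl [10,1,1,1,2,1,3,21]) 8603 1618 = true := by decide +kernel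
theorem x226_17 : fam (wl [3,1,2,2,3,1,1,2,2,7]) 3965 2138 = true := by decide +kernel
theorem x226_18 : fam (wl [2,1,1,13,27,5]) 1186 942 = true := by decide +kernel
theorem x226_19 : fam (wl [1,3,5,1,1,2,3,2,1,1,1,2]) 4481 6818 = true := by decide +kernel
theorem x226_20 : fam (wl [4,5,1,1,2,3,2,1,1,1,1,1]) 4790 2293 = true := by decide +kernel
theorem x226_21 : fam (wl [1,1,1,1,13,27,4,1]) 8085 9751 = true := by decide +kernel
theorem x226_22 : fam (wl [1,2,1,2,2,3,1,1,2,2,6,1]) 5306 7753 = true := by decide +kernel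
theorem x226_23 : fam (wl [1,9,1,1,1,2,1,3,20,1]) 668 1213 = true := by decide +kernel
theorem x226_24 : fam (wl [8,11,1,5,16]) 5651 1398 = true := by decide +kernel
theorem x226_25 : fam (wl [1,7,11,1,5,15,1]) 3628 6361 = true := by decide +kernel
theorem x226_26 : fam (wl [2,15,1,1,3,1,7,4]) 7169 6946 = true := by decide +kernel
theorem x226_27 : fam (wl [1,1,15,1,1,3,1,7,3,1]) 2110 2177 = true := by decide +kernel
theorem x226_28 : fam (wl [39,2,1,78]) 354 18 = true := by decide +kernel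
theorem x226_29 : fam (wl [1,38,2,1,77,1]) 8927 17403 = true := by decide +kernel
/-- words with first entry from 9249 to 9287 -/
def L226 : List (List ℕ × ℕ × ℕ) := [([68,136],68,2), ([1,2,7,4,2,14,1,2],4178,5694), ([3,7,4,2,14,1,1,1],5069,3231), ([1,67,135,1],9179,18091), ([25,1,2,2,51],7997,622), ([1,24,1,2,2,50,1],1258,2421), ([1,1,1,22,45,3],6511,8618), ([2,1,22,45,2,1],2744,1857), ([3,1,1,1,8,4,3,7],4447,2434), ([1,15,1,3,7,1,7,2],2387,4490), ([16,1,3,7,1,7,1,1],6878,821), ([1,2,1,1,1,8,4,3,6,1],4818,7001), ([1,7,4,2,2,1,1,1,1,3,2],8468,14878), ([1,22,2,1,5,11,2],4004,7666), ([23,2,1,5,11,1,1],5265,451), ([8,4,2,2,1,1,1,1,3,1,1],801,195), ([10,1,1,1,2,1,3,21],8603,1618), ([3,1,2,2,3,1,1,2,2,7],3965,2138), ([2,1,1,13,27,5],1186,942), ([1,3,5,1,1,2,3,2,1,1,1,2],4481,6818), ([4,5,1,1,2,3,2,1,1,1,1,1],4790,2293), ([1,1,1,1,13,27,4,1],8085,9751), ([1,2,1,2,2,3,1,1,2,2,6,1],5306,7753), ([1,9,1,1,1,2,1,3,20,1],668,1213), ([8,11,1,5,16],5651,1398), ([1,7,11,1,5,15,1],3628,6361),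 ([2,15,1,1,3,1,7,4],7169,6946), ([1,1,15,1,1,3,1,7,3,1],2110,2177), ([39,2,1,78],354,18), ([1,38,2,1,77,1],8927,17403)]
theorem r226 : rgV L226 9249 20 = true := by decide +kernel
theorem f226 : ∀ p ∈ L226, fam (wl p.1) p.2.1 p.2.2 = true := by
  intro p hp
  simp only [L226, List.mem_cons, List.not_mem_nil, or_false] at hp
  rcases hp with rfl | rfl | rfl | rfl | rfl | rfl | rfl | rfl | rfl | rfl | rfl | rfl | rfl | rfl | rfl | rfl | rfl | rfl | rfl | rfl | rfl | rfl | rfl | rfl | rfl | rfl | rfl | rfl | rfl | rfl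
  · exact x226_0
  · exact x226_1
  · exact x226_2
  · exact x226_3
  · exact x226_4
  · exact x226_5
  · exact x226_6
  · exact x226_7
  · exact x226_8
  · exact x226_9
  · exact x226_10
  · exact x226_11
  · exact x226_12
  · exact x226_13
  · exact x226_14
  · exact x226_15
  · exact x226_16
  · exact x226_17
  · exact x226_18
  · exact x226_19
  · exact x226_20
  · exact x226_21
  · exact x226_22
  · exact x226_23
  · exact x226_24
  · exact x226_25
  · exact x226_26
  · exact x226_27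
  · exact x226_28
  · exact x226_29

end Pool.Agent.V5helper47.EV
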