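import Pool.Agent.V5helper47.EV.S2

/-! Search, part of the half words. -/

set_option maxRecDepth 1000000

namespace Pool.Agent.V5helper47.EV

open H419R2 Pool.Agent.N911 Pool.Agent.V5helper47.CN

theorem x227_0 : fam (wl [1,2,5,5,1,2,10,1,2]) 5327 7318 = true := by decide +kernel
theorem x227_1 : fam (wl [1,35,2,2,1,17,2]) 7412 14418 = true := by decide +kernel
theorem x227_2 : fam (wl [36,2,2,1,17,1,1]) 1875 103 = true := by decide +kernel
theorem x227_3 : fam (wl [3,5,5,1,2,10,1,1,1]) 3960 2481 = true := by decide +kernel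
theorem x227_4 : fam (wl [7,4,2,4,2,14]) 1481 410 = true := by decide +kernel
theorem x227_5 : fam (wl [3,1,1,2,2,1,2,1,5,7]) 2945 1642 = true := by decide +kernel
theorem x227_6 : fam (wl [2,1,1,2,1,2,2,2,6,5]) 5313 4122 = true := by decide +kernel
theorem x227_7 : fam (wl [1,4,7,1,2,15,2,2]) 448 722 = true := by decide +kernel
theorem x227_8 : fam (wl [5,7,1,2,15,2,1,1]) 8841 3447 = true := by decide +kernel
theorem x227_9 : fam (wl [1,1,1,1,2,1,2,2,2,6,4,1]) 3976 4869 = true := by decide +kernel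
theorem x227_10 : fam (wl [1,2,1,1,2,2,1,2,1,5,6,1]) 6344 9153 = true := by decide +kernel
theorem x227_11 : fam (wl [1,6,4,2,4,2,13,1]) 7808 13457 = true := by decide +kernel
theorem x227_12 : fam (wl [1,1,2,1,9,19,2,3]) 4228 4850 = true := by decide +kernel
theorem x227_13 : fam (wl [1,54,1,2,27,2]) 2198 4318 = true := by decide +kernel
theorem x227_14 : fam (wl [55,1,2,27,1,1]) 7097 255 = true := by decide +kernel
theorem x227_15 : fam (wl [2,2,1,9,19,2,2,1]) 5067 4323 = true := by decide +kernel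
theorem x227_16 : fam (wl [2,27,2,1,13,4]) 2018 1982 = true := by decide +kernel
theorem x227_17 : fam (wl [1,1,3,5,2,1,10,1,1,3]) 5285 6002 = true := by decide +kernel
theorem x227_18 : fam (wl [2,3,5,2,1,10,1,1,2,1]) 4012 3469 = true := by decide +kernel
theorem x227_19 : fam (wl [1,1,27,2,1,13,3,1]) 7279 7411 = true := by decide +kernel
theorem x227_20 : fam (wl [3,1,2,2,1,1,3,2,2,7]) 6969 3762 = true := by decide +kernel
theorem x227_21 : fam (wl [1,3,13,1,2,6,1,1,1,2]) 2946 4446 = true := by decide +kernel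
theorem x227_22 : fam (wl [4,13,1,2,6,1,1,1,1,1]) 6359 3123 = true := by decide +kernel
theorem x227_23 : fam (wl [1,2,1,2,2,1,1,3,2,2,6,1]) 2336 3413 = true := by decide +kernel
theorem x227_24 : fam (wl [6,1,12,1,5,1,13]) 9304 2686 = true := by decide +kernel
theorem x227_25 : fam (wl [1,5,1,12,1,5,1,12,1]) 5 11 = true := by decide +kernel
theorem x227_26 : fam (wl [11,1,7,3,1,23]) 3623 610 = true := by decide +kernel
theorem x227_27 : fam (wl [4,1,10,2,1,4,1,9]) 6017 2450 = true := by decide +kernel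
theorem x227_28 : fam (wl [1,3,1,10,2,1,4,1,8,1]) 3294 5249 = true := by decide +kernel
theorem x227_29 : fam (wl [1,10,1,7,3,1,22,1]) 5688 10421 = true := by decide +kernel
/-- words with first entry from 9289 to 9317 -/
def L227 : List (List ℕ × ℕ × ℕ) := [([1,2,5,5,1,2,10,1,2],5327,7318), ([1,35,2,2,1,17,2],7412,14418), ([36,2,2,1,17,1,1],1875,103), ([3,5,5,1,2,10,1,1,1],3960,2481), ([7,4,2,4,2,14],1481,410), ([3,1,1,2,2,1,2,1,5,7],2945,1642), ([2,1,1,2,1,2,2,2,6,5],5313,4122), ([1,4,7,1,2,15,2,2],448,722), ([5,7,1,2,15,2,1,1],8841,3447), ([1,1,1,1,2,1,2,2,2,6,4,1],3976,4869), ([1,2,1,1,2,2,1,2,1,5,6,1],6344,9153), ([1,6,4,2,4,2,13,1],7808,13457), ([1,1,2,1,9,19,2,3],4228,4850), ([1,54,1,2,27,2],2198,4318), ([55,1,2,27,1,1],7097,255), ([2,2,1,9,19,2,2,1],5067,4323), ([2,27,2,1,13,4],2018,1982), ([1,1,3,5,2,1,10,1,1,3],5285,6002), ([2,3,5,2,1,10,1,1,2,1],4012,3469), ([1,1,27,2,1,13,3,1],7279,7411), ([3,1,2,2,1,1,3,2,2,7],6969,3762), ([1,3,13,1,2,6,1,1,1,2],2946,4446),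 ([4,13,1,2,6,1,1,1,1,1],6359,3123), ([1,2,1,2,2,1,1,3,2,2,6,1],2336,3413), ([6,1,12,1,5,1,13],9304,2686), ([1,5,1,12,1,5,1,12,1],5,11), ([11,1,7,3,1,23],3623,610), ([4,1,10,2,1,4,1,9],6017,2450), ([1,3,1,10,2,1,4,1,8,1],3294,5249), ([1,10,1,7,3,1,22,1],5688,10421)]
theorem r227 : rgV L227 9289 15 = true := by decide +kernel
theorem f227 : ∀ p ∈ L227, fam (wl p.1) p.2.1 p.2.2 = true := by
  intro p hp
  simp only [L227, List.mem_cons, List.not_mem_nil, or_false] at hp
  rcases hp with rfl | rfl | rfl | rfl | rfl | rfl | rfl | rfl | rfl | rfl | rfl | rfl | rfl | rfl | rfl | rfl | rfl | rfl | rfl | rfl | rfl | rfl | rfl | rfl | rfl | rfl | rfl | rfl | rfl | rfl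
  · exact x227_0
  · exact x227_1
  · exact x227_2
  · exact x227_3
  · exact x227_4
  · exact x227_5
  · exact x227_6
  · exact x227_7
  · exact x227_8
  · exact x227_9
  · exact x227_10
  · exact x227_11
  · exact x227_12
  · exact x227_13
  · exact x227_14
  · exact x227_15
  · exact x227_16
  · exact x227_17
  · exact x227_18
  · exact x227_19
  · exact x227_20
  · exact x227_21
  · exact x227_22
  · exact x227_23
  · exact x227_24
  · exact x227_25
  · exact x227_26
  · exact x227_27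
  · exact x227_28
  · exact x227_29

end Pool.Agent.V5helper47.EV
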