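import Pool.Agent.V5helper47.EV.S2

/-! Search, part of the half words. -/

set_option maxRecDepth 1000000

namespace Pool.Agent.V5helper47.EV

open H419R2 Pool.Agent.N911 Pool.Agent.V5helper47.CN

theorem x228_0 : fam (wl [4,4,1,3,1,1,2,2,8]) 7067 3358 = true := by decide +kernel
theorem x228_1 : fam (wl [1,3,4,1,3,1,1,2,2,7,1]) 2250 3433 = true := by decide +kernel
theorem x228_2 : fam (wl [1,9,1,2,1,2,6,1,4,2]) 8040 14582 = true := by decide +kernel
theorem x228_3 : fam (wl [10,1,2,1,2,6,1,4,1,1]) 1281 239 = true := by decide +kernel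
theorem x228_4 : fam (wl [4,1,1,7,15,9]) 358 158 = true := by decide +kernel
theorem x228_5 : fam (wl [2,3,7,1,2,3,1,1,1,4]) 8343 7194 = true := by decide +kernel
theorem x228_6 : fam (wl [1,1,3,7,1,2,3,1,1,1,3,1]) 984 1121 = true := by decide +kernel
theorem x228_7 : fam (wl [1,3,1,1,7,15,8,1]) 8969 13983 = true := by decide +kernel
theorem x228_8 : fam (wl [6,15,1,7,12]) 4917 1622 = true := by decide +kernel
theorem x228_9 : fam (wl [1,5,15,1,7,11,1]) 4418 7381 = true := by decide +kernel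
theorem x228_10 : fam (wl [1,1,3,1,1,1,2,5,3,1,1,3]) 1632 1830 = true := by decide +kernel
theorem x228_11 : fam (wl [2,3,1,1,1,2,5,3,1,1,2,1]) 7703 6771 = true := by decide +kernel
theorem x228_12 : fam (wl [22,1,3,1,1,45]) 1845 162 = true := by decide +kernel
theorem x228_13 : fam (wl [9,1,1,3,7,19]) 6210 1298 = true := by decide +kernel
theorem x228_14 : fam (wl [1,1,1,1,1,6,2,1,2,1,4,3]) 8531 10626 = true := by decide +kernel
theorem x228_15 : fam (wl [1,3,2,1,2,2,1,5,2,1,1,2]) 7247 11178 = true := by decide +kernel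
theorem x228_16 : fam (wl [4,2,1,2,2,1,5,2,1,1,1,1]) 2090 957 = true := by decide +kernel
theorem x228_17 : fam (wl [2,1,1,1,6,2,1,2,1,4,2,1]) 806 609 = true := by decide +kernel
theorem x228_18 : fam (wl [1,8,1,1,3,7,18,1]) 3127 5603 = true := by decide +kernel
theorem x228_19 : fam (wl [1,21,1,3,1,1,44,1]) 7492 14329 = true := by decide +kernel
theorem x228_20 : fam (wl [1,2,1,1,1,1,1,2,2,4,3,1,2]) 4591 6646 = true := by decide +kernel
theorem x228_21 : fam (wl [3,1,1,1,1,1,2,2,4,3,1,1,1]) 4750 2625 = true := by decide +kernel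
theorem x228_22 : fam (wl [3,2,1,1,1,1,1,4,3,1,6]) 4886 2890 = true := by decide +kernel
theorem x228_23 : fam (wl [1,3,3,4,1,9,1,1,1,1,2]) 3852 5918 = true := by decide +kernel
theorem x228_24 : fam (wl [4,3,4,1,9,1,1,1,1,1,1]) 5499 2551 = true := by decide +kernel
theorem x228_25 : fam (wl [1,2,2,1,1,1,1,1,4,3,1,5,1]) 4465 6291 = true := by decide +kernel
theorem x228_26 : fam (wl [1,1,2,18,1,8,1,2,3]) 7805 9334 = true := by decide +kernel
theorem x228_27 : fam (wl [1,2,8,3,1,1,16,1,2]) 6885 9358 = true := by decide +kernel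
theorem x228_28 : fam (wl [3,8,3,1,1,16,1,1,1]) 2472 1585 = true := by decide +kernel
theorem x228_29 : fam (wl [2,2,18,1,8,1,2,2,1]) 1552 1249 = true := by decide +kernel
/-- words with first entry from 9319 to 9361 -/
def L228 : List (List ℕ × ℕ × ℕ) := [([4,4,1,3,1,1,2,2,8],7067,3358), ([1,3,4,1,3,1,1,2,2,7,1],2250,3433), ([1,9,1,2,1,2,6,1,4,2],8040,14582), ([10,1,2,1,2,6,1,4,1,1],1281,239), ([4,1,1,7,15,9],358,158), ([2,3,7,1,2,3,1,1,1,4],8343,7194), ([1,1,3,7,1,2,3,1,1,1,3,1],984,1121), ([1,3,1,1,7,15,8,1],8969,13983), ([6,15,1,7,12],4917,1622), ([1,5,15,1,7,11,1],4418,7381), ([1,1,3,1,1,1,2,5,3,1,1,3],1632,1830), ([2,3,1,1,1,2,5,3,1,1,2,1],7703,6771), ([22,1,3,1,1,45],1845,162), ([9,1,1,3,7,19],6210,1298), ([1,1,1,1,1,6,2,1,2,1,4,3],8531,10626), ([1,3,2,1,2,2,1,5,2,1,1,2],7247,11178), ([4,2,1,2,2,1,5,2,1,1,1,1],2090,957), ([2,1,1,1,6,2,1,2,1,4,2,1],806,609), ([1,8,1,1,3,7,18,1],3127,5603), ([1,21,1,3,1,1,44,1],7492,14329), ([1,2,1,1,1,1,1,2,2,4,3,1,2],4591,6646),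 ([3,1,1,1,1,1,2,2,4,3,1,1,1],4750,2625), ([3,2,1,1,1,1,1,4,3,1,6],4886,2890), ([1,3,3,4,1,9,1,1,1,1,2],3852,5918), ([4,3,4,1,9,1,1,1,1,1,1],5499,2551), ([1,2,2,1,1,1,1,1,4,3,1,5,1],4465,6291), ([1,1,2,18,1,8,1,2,3],7805,9334), ([1,2,8,3,1,1,16,1,2],6885,9358), ([3,8,3,1,1,16,1,1,1],2472,1585), ([2,2,18,1,8,1,2,2,1],1552,1249)]
theorem r228 : rgV L228 9319 22 = true := by decide +kernel
theorem f228 : ∀ p ∈ L228, fam (wl p.1) p.2.1 p.2.2 = true := by
  intro p hp
  simp only [L228, List.mem_cons, List.not_mem_nil, or_false] at hp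
  rcases hp with rfl | rfl | rfl | rfl | rfl | rfl | rfl | rfl | rfl | rfl | rfl | rfl | rfl | rfl | rfl | rfl | rfl | rfl | rfl | rfl | rfl | rfl | rfl | rfl | rfl | rfl | rfl | rfl | rfl | rfl
  · exact x228_0
  · exact x228_1
  · exact x228_2
  · exact x228_3
  · exact x228_4
  · exact x228_5
  · exact x228_6
  · exact x228_7
  · exact x228_8
  · exact x228_9
  · exact x228_10
  · exact x228_11
  · exact x228_12
  · exact x228_13
  · exact x228_14
  · exact x228_15
  · exact x228_16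
  · exact x228_17
  · exact x228_18
  · exact x228_19
  · exact x228_20
  · exact x228_21
  · exact x228_22
  · exact x228_23
  · exact x228_24
  · exact x228_25
  · exact x228_26
  · exact x228_27
  · exact x228_28
  · exact x228_29

end Pool.Agent.V5helper47.EV
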