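import Pool.Agent.V5helper47.EV.S2

/-! Search, part of the half words. -/

set_option maxRecDepth 1000000

namespace Pool.Agent.V5helper47.EV

open H419R2 Pool.Agent.N911 Pool.Agent.V5helper47.CN

theorem x229_0 : fam (wl [4,3,7,3,1,1,1,8]) 557 258 = true := by decide +kernel
theorem x229_1 : fam (wl [1,8,1,4,1,2,2,2,4,2]) 2637 4738 = true := by decide +kernel
theorem x229_2 : fam (wl [9,1,4,1,2,2,2,4,1,1]) 6724 1369 = true := by decide +kernel
theorem x229_3 : fam (wl [1,3,3,7,3,1,1,1,7,1]) 8804 13533 = true := by decide +kernel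
theorem x229_4 : fam (wl [20,1,1,1,3,41]) 2497 242 = true := by decide +kernel
theorem x229_5 : fam (wl [1,1,5,6,12,2,1,3]) 3350 3646 = true := by decide +kernel
theorem x229_6 : fam (wl [2,5,6,12,2,1,2,1]) 6017 5487 = true := by decide +kernel
theorem x229_7 : fam (wl [1,19,1,1,1,3,40,1]) 6870 13077 = true := by decide +kernel
theorem x229_8 : fam (wl [2,8,1,4,2,2,4,4]) 1625 1538 = true := by decide +kernel
theorem x229_9 : fam (wl [1,1,8,1,4,2,2,4,3,1]) 7744 8161 = true := by decide +kernel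
theorem x229_10 : fam (wl [4,23,1,11,8]) 4652 2302 = true := by decide +kernel
theorem x229_11 : fam (wl [1,3,23,1,11,7,1]) 4723 7111 = true := by decide +kernel
theorem x229_12 : fam (wl [1,1,1,2,1,4,2,1,1,1,6,3]) 4841 6146 = true := by decide +kernel
theorem x229_13 : fam (wl [2,1,2,1,4,2,1,1,1,6,2,1]) 4534 3313 = true := by decide +kernel
theorem x229_14 : fam (wl [1,1,1,2,3,3,1,1,1,1,5,3]) 2671 3362 = true := by decide +kernel
theorem x229_15 : fam (wl [1,4,1,1,1,1,1,2,4,3,2,2]) 5037 8282 = true := by decide +kernel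
theorem x229_16 : fam (wl [5,1,1,1,1,1,2,4,3,2,1,1]) 4340 1545 = true := by decide +kernel
theorem x229_17 : fam (wl [2,1,2,3,3,1,1,1,1,5,2,1]) 6706 4973 = true := by decide +kernel
theorem x229_18 : fam (wl [3,31,1,15,6]) 6696 4418 = true := by decide +kernel
theorem x229_19 : fam (wl [1,2,31,1,15,5,1]) 2693 3611 = true := by decide +kernel
theorem x229_20 : fam (wl [10,1,2,2,2,2,21]) 803 150 = true := by decide +kernel
theorem x229_21 : fam (wl [2,1,3,5,1,11,1,1,5]) 2161 1566 = true := by decide +kernel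
theorem x229_22 : fam (wl [2,47,1,23,4]) 2059 2038 = true := by decide +kernel
theorem x229_23 : fam (wl [1,19,4,1,1,1,1,9,2]) 5023 9550 = true := by decide +kernel
theorem x229_24 : fam (wl [20,4,1,1,1,1,9,1,1]) 4376 433 = true := by decide +kernel
theorem x229_25 : fam (wl [1,1,47,1,23,3,1]) 7340 7417 = true := by decide +kernel
theorem x229_26 : fam (wl [1,1,1,3,5,1,11,1,1,4,1]) 7238 9233 = true := by decide +kernel
theorem x229_27 : fam (wl [1,9,1,2,2,2,2,20,1]) 8596 15589 = true := by decide +kernel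
theorem x229_28 : fam (wl [4,1,2,1,1,2,1,3,2,9]) 3290 1394 = true := by decide +kernel
theorem x229_29 : fam (wl [1,3,1,2,1,1,2,1,3,2,8,1]) 6111 9635 = true := by decide +kernel
/-- words with first entry from 9363 to 9405 -/
def L229 : List (List ℕ × ℕ × ℕ) := [([4,3,7,3,1,1,1,8],557,258), ([1,8,1,4,1,2,2,2,4,2],2637,4738), ([9,1,4,1,2,2,2,4,1,1],6724,1369), ([1,3,3,7,3,1,1,1,7,1],8804,13533), ([20,1,1,1,3,41],2497,242), ([1,1,5,6,12,2,1,3],3350,3646), ([2,5,6,12,2,1,2,1],6017,5487), ([1,19,1,1,1,3,40,1],6870,13077), ([2,8,1,4,2,2,4,4],1625,1538), ([1,1,8,1,4,2,2,4,3,1],7744,8161), ([4,23,1,11,8],4652,2302), ([1,3,23,1,11,7,1],4723,7111), ([1,1,1,2,1,4,2,1,1,1,6,3],4841,6146), ([2,1,2,1,4,2,1,1,1,6,2,1],4534,3313), ([1,1,1,2,3,3,1,1,1,1,5,3],2671,3362), ([1,4,1,1,1,1,1,2,4,3,2,2],5037,8282), ([5,1,1,1,1,1,2,4,3,2,1,1],4340,1545), ([2,1,2,3,3,1,1,1,1,5,2,1],6706,4973), ([3,31,1,15,6],6696,4418), ([1,2,31,1,15,5,1],2693,3611), ([10,1,2,2,2,2,21],803,150),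 ([2,1,3,5,1,11,1,1,5],2161,1566), ([2,47,1,23,4],2059,2038), ([1,19,4,1,1,1,1,9,2],5023,9550), ([20,4,1,1,1,1,9,1,1],4376,433), ([1,1,47,1,23,3,1],7340,7417), ([1,1,1,3,5,1,11,1,1,4,1],7238,9233), ([1,9,1,2,2,2,2,20,1],8596,15589), ([4,1,2,1,1,2,1,3,2,9],3290,1394), ([1,3,1,2,1,1,2,1,3,2,8,1],6111,9635)]
theorem r229 : rgV L229 9363 22 = true := by decide +kernel
theorem f229 : ∀ p ∈ L229, fam (wl p.1) p.2.1 p.2.2 = true := by
  intro p hp
  simp only [L229, List.mem_cons, List.not_mem_nil, or_false] at hp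
  rcases hp with rfl | rfl | rfl | rfl | rfl | rfl | rfl | rfl | rfl | rfl | rfl | rfl | rfl | rfl | rfl | rfl | rfl | rfl | rfl | rfl | rfl | rfl | rfl | rfl | rfl | rfl | rfl | rfl | rfl | rfl
  · exact x229_0
  · exact x229_1
  · exact x229_2
  · exact x229_3
  · exact x229_4
  · exact x229_5
  · exact x229_6
  · exact x229_7
  · exact x229_8
  · exact x229_9
  · exact x229_10
  · exact x229_11
  · exact x229_12
  · exact x229_13
  · exact x229_14
  · exact x229_15
  · exact x229_16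
  · exact x229_17
  · exact x229_18
  · exact x229_19
  · exact x229_20
  · exact x229_21
  · exact x229_22
  · exact x229_23
  · exact x229_24
  · exact x229_25
  · exact x229_26
  · exact x229_27
  · exact x229_28
  · exact x229_29

end Pool.Agent.V5helper47.EV
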