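import Pool.Agent.V5helper47.EV.S2

/-! Search, part of the half words. -/

set_option maxRecDepth 1000000

namespace Pool.Agent.V5helper47.EV

open H419R2 Pool.Agent.N911 Pool.Agent.V5helper47.CN

theorem x230_0 : fam (wl [1,9,3,1,1,3,1,1,1,4,2]) 8599 15526 = true := by decide +kernel
theorem x230_1 : fam (wl [1,95,1,47,2]) 2375 4702 = true := by decide +kernel
theorem x230_2 : fam (wl [96,1,47,1,1]) 7030 145 = true := by decide +kernel
theorem x230_3 : fam (wl [10,3,1,1,3,1,1,1,4,1,1]) 806 157 = true := by decide +kernel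
theorem x230_4 : fam (wl [1,13,6,1,2,1,1,6,2]) 756 1406 = true := by decide +kernel
theorem x230_5 : fam (wl [14,6,1,2,1,1,6,1,1]) 8651 1223 = true := by decide +kernel
theorem x230_6 : fam (wl [2,1,1,1,1,3,1,2,1,1,4,5]) 3885 2978 = true := by decide +kernel
theorem x230_7 : fam (wl [1,1,1,1,1,1,3,1,2,1,1,4,4,1]) 5522 6813 = true := by decide +kernel
theorem x230_8 : fam (wl [3,10,2,4,5,6]) 2851 1842 = true := by decide +kernel
theorem x230_9 : fam (wl [1,96,48,2]) 7033 13922 = true := by decide +kernel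
theorem x230_10 : fam (wl [97,48,1,1]) 2376 49 = true := by decide +kernel
theorem x230_11 : fam (wl [1,2,10,2,4,5,5,1]) 6558 8881 = true := by decide +kernel
theorem x230_12 : fam (wl [5,1,4,1,1,3,1,1,1,11]) 8864 3046 = true := by decide +kernel
theorem x230_13 : fam (wl [3,4,5,10,2,6]) 3073 1898 = true := by decide +kernel
theorem x230_14 : fam (wl [2,1,3,1,6,3,2,1,1,5]) 8436 6038 = true := by decide +kernel
theorem x230_15 : fam (wl [2,48,24,4]) 2645 2618 = true := by decide +kernel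
theorem x230_16 : fam (wl [1,1,48,24,3,1]) 6770 6841 = true := by decide +kernel
theorem x230_17 : fam (wl [1,1,1,3,1,6,3,2,1,1,4,1]) 979 1259 = true := by decide +kernel
theorem x230_18 : fam (wl [1,2,4,5,10,2,5,1]) 6342 8769 = true := by decide +kernel
theorem x230_19 : fam (wl [1,4,1,4,1,1,3,1,1,1,10,1]) 551 915 = true := by decide +kernel
theorem x230_20 : fam (wl [1,3,5,3,6,2,1,1,1,2]) 6543 9962 = true := by decide +kernel
theorem x230_21 : fam (wl [4,5,3,6,2,1,1,1,1,1]) 2874 1373 = true := by decide +kernel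
theorem x230_22 : fam (wl [4,1,1,1,3,2,1,1,3,9]) 5683 2450 = true := by decide +kernel
theorem x230_23 : fam (wl [3,32,16,6]) 5847 3858 = true := by decide +kernel
theorem x230_24 : fam (wl [1,2,32,16,5,1]) 3578 4797 = true := by decide +kernel
theorem x230_25 : fam (wl [1,3,1,1,1,3,2,1,1,3,8,1]) 3742 5873 = true := by decide +kernel
theorem x230_26 : fam (wl [3,1,8,2,2,1,3,1,7]) 619 318 = true := by decide +kernel
theorem x230_27 : fam (wl [1,2,1,8,2,2,1,3,1,6,1]) 8810 13097 = true := by decide +kernel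
/-- words with first entry from 9407 to 9431 -/
def L230 : List (List ℕ × ℕ × ℕ) := [([1,9,3,1,1,3,1,1,1,4,2],8599,15526), ([1,95,1,47,2],2375,4702), ([96,1,47,1,1],7030,145), ([10,3,1,1,3,1,1,1,4,1,1],806,157), ([1,13,6,1,2,1,1,6,2],756,1406), ([14,6,1,2,1,1,6,1,1],8651,1223), ([2,1,1,1,1,3,1,2,1,1,4,5],3885,2978), ([1,1,1,1,1,1,3,1,2,1,1,4,4,1],5522,6813), ([3,10,2,4,5,6],2851,1842), ([1,96,48,2],7033,13922), ([97,48,1,1],2376,49), ([1,2,10,2,4,5,5,1],6558,8881), ([5,1,4,1,1,3,1,1,1,11],8864,3046), ([3,4,5,10,2,6],3073,1898), ([2,1,3,1,6,3,2,1,1,5],8436,6038), ([2,48,24,4],2645,2618), ([1,1,48,24,3,1],6770,6841), ([1,1,1,3,1,6,3,2,1,1,4,1],979,1259), ([1,2,4,5,10,2,5,1],6342,8769), ([1,4,1,4,1,1,3,1,1,1,10,1],551,915), ([1,3,5,3,6,2,1,1,1,2],6543,9962), ([4,5,3,6,2,1,1,1,1,1],2874,1373), ([4,1,1,1,3,2,1,1,3,9],5683,2450), ([3,32,16,6],5847,3858), ([1,2,32,16,5,1],3578,4797), ([1,3,1,1,1,3,2,1,1,3,8,1],3742,5873), ([3,1,8,2,2,1,3,1,7],619,318), ([1,2,1,8,2,2,1,3,1,6,1],8810,13097)]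
theorem r230 : rgV L230 9407 13 = true := by decide +kernel
theorem f230 : ∀ p ∈ L230, fam (wl p.1) p.2.1 p.2.2 = true := by
  intro p hp
  simp only [L230, List.mem_cons, List.not_mem_nil, or_false] at hp
  rcases hp with rfl | rfl | rfl | rfl | rfl | rfl | rfl | rfl | rfl | rfl | rfl | rfl | rfl | rfl | rfl | rfl | rfl | rfl | rfl | rfl | rfl | rfl | rfl | rfl | rfl | rfl | rfl | rfl
  · exact x230_0
  · exact x230_1
  · exact x230_2
  · exact x230_3
  · exact x230_4
  · exact x230_5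
  · exact x230_6
  · exact x230_7
  · exact x230_8
  · exact x230_9
  · exact x230_10
  · exact x230_11
  · exact x230_12
  · exact x230_13
  · exact x230_14
  · exact x230_15
  · exact x230_16
  · exact x230_17
  · exact x230_18
  · exact x230_19
  · exact x230_20
  · exact x230_21
  · exact x230_22
  · exact x230_23
  · exact x230_24
  · exact x230_25
  · exact x230_26
  · exact x230_27

end Pool.Agent.V5helper47.EV
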