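import Pool.Agent.V5helper47.EV.S2

/-! Search, part of the half words. -/

set_option maxRecDepth 1000000

namespace Pool.Agent.V5helper47.EV

open H419R2 Pool.Agent.N911 Pool.Agent.V5helper47.CN

theorem x231_0 : fam (wl [2,1,11,1,1,3,5,1,5]) 3040 2082 = true := by decide +kernel
theorem x231_1 : fam (wl [1,1,1,11,1,1,3,5,1,4,1]) 6391 8407 = true := by decide +kernel
theorem x231_2 : fam (wl [1,3,1,3,1,3,1,1,8,1,1,2]) 2852 4514 = true := by decide +kernel
theorem x231_3 : fam (wl [4,1,3,1,3,1,1,8,1,1,1,1]) 6579 2747 = true := by decide +kernel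
theorem x231_4 : fam (wl [1,5,2,1,2,1,6,2,1,2,2]) 8512 14350 = true := by decide +kernel
theorem x231_5 : fam (wl [6,2,1,2,1,6,2,1,2,1,1]) 925 291 = true := by decide +kernel
theorem x231_6 : fam (wl [39,1,2,79]) 357 18 = true := by decide +kernel
theorem x231_7 : fam (wl [4,24,12,8]) 7117 3522 = true := by decide +kernel
theorem x231_8 : fam (wl [1,3,24,12,7,1]) 2322 3497 = true := by decide +kernel
theorem x231_9 : fam (wl [1,38,1,2,78,1]) 9082 17709 = true := by decide +kernel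
theorem x231_10 : fam (wl [6,1,1,1,4,2,3,13]) 485 146 = true := by decide +kernel
theorem x231_11 : fam (wl [2,1,1,7,2,1,15,5]) 5137 4058 = true := by decide +kernel
theorem x231_12 : fam (wl [1,1,1,1,7,2,1,15,4,1]) 4310 5217 = true := by decide +kernel
theorem x231_13 : fam (wl [1,5,1,1,1,4,2,3,12,1]) 8962 15229 = true := by decide +kernel
theorem x231_14 : fam (wl [4,5,1,1,1,4,1,2,8]) 5309 2542 = true := by decide +kernel
theorem x231_15 : fam (wl [3,2,3,3,1,1,6,1,6]) 5786 3370 = true := by decide +kernel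
theorem x231_16 : fam (wl [1,2,2,3,3,1,1,6,1,5,1]) 3669 5203 = true := by decide +kernel
theorem x231_17 : fam (wl [1,3,5,1,1,1,4,1,2,7,1]) 4146 6309 = true := by decide +kernel
theorem x231_18 : fam (wl [1,1,2,19,9,1,2,3]) 5353 6402 = true := by decide +kernel
theorem x231_19 : fam (wl [1,22,1,1,2,3,11,2]) 5389 10322 = true := by decide +kernel
theorem x231_20 : fam (wl [23,1,1,2,3,11,1,1]) 4068 345 = true := by decide +kernel
theorem x231_21 : fam (wl [2,2,19,9,1,2,2,1]) 4104 3301 = true := by decide +kernel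
theorem x231_22 : fam (wl [2,1,1,1,1,6,1,2,1,4,5]) 2290 1758 = true := by decide +kernel
theorem x231_23 : fam (wl [1,1,1,1,1,1,6,1,2,1,4,4,1]) 7171 8839 = true := by decide +kernel
theorem x231_24 : fam (wl [3,4,1,2,1,2,1,2,2,6]) 4409 2746 = true := by decide +kernel
theorem x231_25 : fam (wl [1,2,4,1,2,1,2,1,2,2,5,1]) 5056 6965 = true := by decide +kernel
theorem x231_26 : fam (wl [1,5,1,8,1,18,1,2,2]) 4363 7462 = true := by decide +kernel
theorem x231_27 : fam (wl [6,1,8,1,18,1,2,1,1]) 5108 1481 = true := by decide +kernel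
theorem x231_28 : fam (wl [7,1,1,4,9,15]) 4676 1238 = true := by decide +kernel
theorem x231_29 : fam (wl [1,6,1,1,4,9,14,1]) 4795 8323 = true := by decide +kernel
/-- words with first entry from 9433 to 9477 -/
def L231 : List (List ℕ × ℕ × ℕ) := [([2,1,11,1,1,3,5,1,5],3040,2082), ([1,1,1,11,1,1,3,5,1,4,1],6391,8407), ([1,3,1,3,1,3,1,1,8,1,1,2],2852,4514), ([4,1,3,1,3,1,1,8,1,1,1,1],6579,2747), ([1,5,2,1,2,1,6,2,1,2,2],8512,14350), ([6,2,1,2,1,6,2,1,2,1,1],925,291), ([39,1,2,79],357,18), ([4,24,12,8],7117,3522), ([1,3,24,12,7,1],2322,3497), ([1,38,1,2,78,1],9082,17709), ([6,1,1,1,4,2,3,13],485,146), ([2,1,1,7,2,1,15,5],5137,4058), ([1,1,1,1,7,2,1,15,4,1],4310,5217), ([1,5,1,1,1,4,2,3,12,1],8962,15229), ([4,5,1,1,1,4,1,2,8],5309,2542), ([3,2,3,3,1,1,6,1,6],5786,3370), ([1,2,2,3,3,1,1,6,1,5,1],3669,5203), ([1,3,5,1,1,1,4,1,2,7,1],4146,6309), ([1,1,2,19,9,1,2,3],5353,6402), ([1,22,1,1,2,3,11,2],5389,10322), ([23,1,1,2,3,11,1,1],4068,345), ([2,2,19,9,1,2,2,1],4104,3301),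 ([2,1,1,1,1,6,1,2,1,4,5],2290,1758), ([1,1,1,1,1,1,6,1,2,1,4,4,1],7171,8839), ([3,4,1,2,1,2,1,2,2,6],4409,2746), ([1,2,4,1,2,1,2,1,2,2,5,1],5056,6965), ([1,5,1,8,1,18,1,2,2],4363,7462), ([6,1,8,1,18,1,2,1,1],5108,1481), ([7,1,1,4,9,15],4676,1238), ([1,6,1,1,4,9,14,1],4795,8323)]
theorem r231 : rgV L231 9433 23 = true := by decide +kernel
theorem f231 : ∀ p ∈ L231, fam (wl p.1) p.2.1 p.2.2 = true := by
  intro p hp
  simp only [L231, List.mem_cons, List.not_mem_nil, or_false] at hp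
  rcases hp with rfl | rfl | rfl | rfl | rfl | rfl | rfl | rfl | rfl | rfl | rfl | rfl | rfl | rfl | rfl | rfl | rfl | rfl | rfl | rfl | rfl | rfl | rfl | rfl | rfl | rfl | rfl | rfl | rfl | rfl
  · exact x231_0
  · exact x231_1
  · exact x231_2
  · exact x231_3
  · exact x231_4
  · exact x231_5
  · exact x231_6
  · exact x231_7
  · exact x231_8
  · exact x231_9
  · exact x231_10
  · exact x231_11
  · exact x231_12
  · exact x231_13
  · exact x231_14
  · exact x231_15
  · exact x231_16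
  · exact x231_17
  · exact x231_18
  · exact x231_19
  · exact x231_20
  · exact x231_21
  · exact x231_22
  · exact x231_23
  · exact x231_24
  · exact x231_25
  · exact x231_26
  · exact x231_27
  · exact x231_28
  · exact x231_29

end Pool.Agent.V5helper47.EV
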