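import Pool.Agent.V5helper47.EV.S2

/-! Search, part of the half words. -/

set_option maxRecDepth 1000000

namespace Pool.Agent.V5helper47.EV

open H419R2 Pool.Agent.N911 Pool.Agent.V5helper47.CN

theorem x232_0 : fam (wl [6,3,4,1,1,1,1,1,12]) 5421 1718 = true := by decide +kernel
theorem x232_1 : fam (wl [1,5,3,4,1,1,1,1,1,11,1]) 4056 6829 = true := by decide +kernel
theorem x232_2 : fam (wl [6,16,8,12]) 6068 2002 = true := by decide +kernel
theorem x232_3 : fam (wl [2,1,3,3,2,1,6,1,1,5]) 7956 5750 = true := by decide +kernel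
theorem x232_4 : fam (wl [1,1,1,3,3,2,1,6,1,1,4,1]) 1523 1947 = true := by decide +kernel
theorem x232_5 : fam (wl [1,5,16,8,11,1]) 3411 5699 = true := by decide +kernel
theorem x232_6 : fam (wl [16,1,2,2,2,33]) 4828 578 = true := by decide +kernel
theorem x232_7 : fam (wl [1,1,1,1,5,3,1,1,1,2,3,3]) 443 538 = true := by decide +kernel
theorem x232_8 : fam (wl [2,1,1,5,3,1,1,1,2,3,2,1]) 9044 7113 = true := by decide +kernel
theorem x232_9 : fam (wl [1,15,1,2,2,2,32,1]) 4659 8763 = true := by decide +kernel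
theorem x232_10 : fam (wl [6,4,1,2,1,2,2,12]) 8553 2754 = true := by decide +kernel
theorem x232_11 : fam (wl [1,5,4,1,2,1,2,2,11,1]) 936 1573 = true := by decide +kernel
theorem x232_12 : fam (wl [1,3,1,12,1,26,1,1,2]) 5546 8842 = true := by decide +kernel
theorem x232_13 : fam (wl [4,1,12,1,26,1,1,1,1]) 3949 1603 = true := by decide +kernel
theorem x232_14 : fam (wl [1,1,1,1,2,2,1,2,5,1,3,3]) 1175 1442 = true := by decide +kernel
theorem x232_15 : fam (wl [2,1,1,2,2,1,2,5,1,3,2,1]) 8320 6433 = true := by decide +kernel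
theorem x232_16 : fam (wl [6,1,13,6,1,13]) 1365 394 = true := by decide +kernel
theorem x232_17 : fam (wl [1,1,10,1,2,5,1,4,1,3]) 7085 7402 = true := by decide +kernel
theorem x232_18 : fam (wl [2,10,1,2,5,1,4,1,2,1]) 2420 2313 = true := by decide +kernel
theorem x232_19 : fam (wl [1,5,1,13,6,1,12,1]) 8140 13933 = true := by decide +kernel
theorem x232_20 : fam (wl [2,8,3,1,7,4,4]) 7956 7502 = true := by decide +kernel
theorem x232_21 : fam (wl [1,1,8,3,1,7,4,3,1]) 1553 1643 = true := by decide +kernel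
theorem x232_22 : fam (wl [68,1,137]) 9452 274 = true := by decide +kernel
theorem x232_23 : fam (wl [1,67,1,136,1]) 67 135 = true := by decide +kernel
theorem x232_24 : fam (wl [1,55,2,1,27,2]) 7013 13778 = true := by decide +kernel
theorem x232_25 : fam (wl [56,2,1,27,1,1]) 2506 89 = true := by decide +kernel
theorem x232_26 : fam (wl [69,138]) 69 2 = true := by decide +kernel
theorem x232_27 : fam (wl [1,1,27,1,2,13,1,3]) 6860 6982 = true := by decide +kernel
theorem x232_28 : fam (wl [2,27,1,2,13,1,2,1]) 2661 2615 = true := by decide +kernel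
theorem x232_29 : fam (wl [1,68,137,1]) 9452 18633 = true := by decide +kernel
/-- words with first entry from 9479 to 9525 -/
def L232 : List (List ℕ × ℕ × ℕ) := [([6,3,4,1,1,1,1,1,12],5421,1718), ([1,5,3,4,1,1,1,1,1,11,1],4056,6829), ([6,16,8,12],6068,2002), ([2,1,3,3,2,1,6,1,1,5],7956,5750), ([1,1,1,3,3,2,1,6,1,1,4,1],1523,1947), ([1,5,16,8,11,1],3411,5699), ([16,1,2,2,2,33],4828,578), ([1,1,1,1,5,3,1,1,1,2,3,3],443,538), ([2,1,1,5,3,1,1,1,2,3,2,1],9044,7113), ([1,15,1,2,2,2,32,1],4659,8763), ([6,4,1,2,1,2,2,12],8553,2754), ([1,5,4,1,2,1,2,2,11,1],936,1573), ([1,3,1,12,1,26,1,1,2],5546,8842), ([4,1,12,1,26,1,1,1,1],3949,1603), ([1,1,1,1,2,2,1,2,5,1,3,3],1175,1442), ([2,1,1,2,2,1,2,5,1,3,2,1],8320,6433), ([6,1,13,6,1,13],1365,394), ([1,1,10,1,2,5,1,4,1,3],7085,7402), ([2,10,1,2,5,1,4,1,2,1],2420,2313), ([1,5,1,13,6,1,12,1],8140,13933), ([2,8,3,1,7,4,4],7956,7502), ([1,1,8,3,1,7,4,3,1],1553,1643), ([68,1,137],9452,274), ([1,67,1,136,1],67,135), ([1,55,2,1,27,2],7013,13778),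 ([56,2,1,27,1,1],2506,89), ([69,138],69,2), ([1,1,27,1,2,13,1,3],6860,6982), ([2,27,1,2,13,1,2,1],2661,2615), ([1,68,137,1],9452,18633)]
theorem r232 : rgV L232 9479 24 = true := by decide +kernel
theorem f232 : ∀ p ∈ L232, fam (wl p.1) p.2.1 p.2.2 = true := by
  intro p hp
  simp only [L232, List.mem_cons, List.not_mem_nil, or_false] at hp
  rcases hp with rfl | rfl | rfl | rfl | rfl | rfl | rfl | rfl | rfl | rfl | rfl | rfl | rfl | rfl | rfl | rfl | rfl | rfl | rfl | rfl | rfl | rfl | rfl | rfl | rfl | rfl | rfl | rfl | rfl | rfl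
  · exact x232_0
  · exact x232_1
  · exact x232_2
  · exact x232_3
  · exact x232_4
  · exact x232_5
  · exact x232_6
  · exact x232_7
  · exact x232_8
  · exact x232_9
  · exact x232_10
  · exact x232_11
  · exact x232_12
  · exact x232_13
  · exact x232_14
  · exact x232_15
  · exact x232_16
  · exact x232_17
  · exact x232_18
  · exact x232_19
  · exact x232_20
  · exact x232_21
  · exact x232_22
  · exact x232_23
  · exact x232_24
  · exact x232_25
  · exact x232_26
  · exact x232_27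
  · exact x232_28
  · exact x232_29

end Pool.Agent.V5helper47.EV
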