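import Pool.Agent.V5helper47.EV.S2

/-! Search, part of the half words. -/

set_option maxRecDepth 1000000

namespace Pool.Agent.V5helper47.EV

open H419R2 Pool.Agent.N911 Pool.Agent.V5helper47.CN

theorem x233_0 : fam (wl [14,2,1,1,3,1,28]) 1914 266 = true := by decide +kernel
theorem x233_1 : fam (wl [2,1,4,2,2,2,2,1,1,1,5]) 2497 1774 = true := by decide +kernel
theorem x233_2 : fam (wl [1,1,1,4,2,2,2,2,1,1,1,4,1]) 7028 9065 = true := by decide +kernel
theorem x233_3 : fam (wl [1,13,2,1,1,3,1,27,1]) 7611 14167 = true := by decide +kernel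
theorem x233_4 : fam (wl [2,3,1,1,1,3,1,1,4,1,1,4]) 4233 3722 = true := by decide +kernel
theorem x233_5 : fam (wl [1,2,1,13,2,1,6,2,1,2]) 4800 7158 = true := by decide +kernel
theorem x233_6 : fam (wl [3,1,13,2,1,6,2,1,1,1]) 4729 2407 = true := by decide +kernel
theorem x233_7 : fam (wl [1,1,3,1,1,1,3,1,1,4,1,1,3,1]) 5296 5937 = true := by decide +kernel
theorem x233_8 : fam (wl [15,1,5,2,1,31]) 5719 722 = true := by decide +kernel
theorem x233_9 : fam (wl [8,12,6,16]) 4922 1218 = true := by decide +kernel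
theorem x233_10 : fam (wl [1,1,1,1,10,1,2,5,3,3]) 1698 2050 = true := by decide +kernel
theorem x233_11 : fam (wl [1,3,1,3,2,1,2,1,7,1,1,2]) 2802 4430 = true := by decide +kernel
theorem x233_12 : fam (wl [4,1,3,2,1,2,1,7,1,1,1,1]) 6733 2823 = true := by decide +kernel
theorem x233_13 : fam (wl [2,1,1,10,1,2,5,3,2,1]) 7837 6215 = true := by decide +kernel
theorem x233_14 : fam (wl [1,7,12,6,15,1]) 4613 8087 = true := by decide +kernel
theorem x233_15 : fam (wl [1,14,1,5,2,1,30,1]) 3816 7153 = true := by decide +kernel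
theorem x233_16 : fam (wl [1,31,1,1,3,1,15,2]) 6494 12590 = true := by decide +kernel
theorem x233_17 : fam (wl [32,1,1,3,1,15,1,1]) 3043 187 = true := by decide +kernel
theorem x233_18 : fam (wl [1,3,1,13,27,1,1,2]) 7789 12418 = true := by decide +kernel
theorem x233_19 : fam (wl [4,1,13,27,1,1,1,1]) 1756 713 = true := by decide +kernel
theorem x233_20 : fam (wl [1,10,2,3,1,1,4,5,2]) 3299 6022 = true := by decide +kernel
theorem x233_21 : fam (wl [11,2,3,1,1,4,5,1,1]) 6250 1093 = true := by decide +kernel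
theorem x233_22 : fam (wl [3,1,1,1,1,4,1,1,1,4,7]) 1295 718 = true := by decide +kernel
theorem x233_23 : fam (wl [1,1,11,2,1,5,5,1,3]) 681 710 = true := by decide +kernel
theorem x233_24 : fam (wl [2,11,2,1,5,5,1,2,1]) 8870 8497 = true := by decide +kernel
theorem x233_25 : fam (wl [1,2,1,1,1,1,4,1,1,1,4,6,1]) 8256 11937 = true := by decide +kernel
theorem x233_26 : fam (wl [2,2,1,7,2,1,3,2,1,4]) 6593 5618 = true := by decide +kernel
theorem x233_27 : fam (wl [1,1,1,1,1,3,2,4,1,1,4,3]) 3865 4802 = true := by decide +kernel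
theorem x233_28 : fam (wl [2,1,1,1,3,2,4,1,1,4,2,1]) 5686 4309 = true := by decide +kernel
theorem x233_29 : fam (wl [1,1,2,1,7,2,1,3,2,1,3,1]) 2958 3397 = true := by decide +kernel
/-- words with first entry from 9527 to 9559 -/
def L233 : List (List ℕ × ℕ × ℕ) := [([14,2,1,1,3,1,28],1914,266), ([2,1,4,2,2,2,2,1,1,1,5],2497,1774), ([1,1,1,4,2,2,2,2,1,1,1,4,1],7028,9065), ([1,13,2,1,1,3,1,27,1],7611,14167), ([2,3,1,1,1,3,1,1,4,1,1,4],4233,3722), ([1,2,1,13,2,1,6,2,1,2],4800,7158), ([3,1,13,2,1,6,2,1,1,1],4729,2407), ([1,1,3,1,1,1,3,1,1,4,1,1,3,1],5296,5937), ([15,1,5,2,1,31],5719,722), ([8,12,6,16],4922,1218), ([1,1,1,1,10,1,2,5,3,3],1698,2050), ([1,3,1,3,2,1,2,1,7,1,1,2],2802,4430), ([4,1,3,2,1,2,1,7,1,1,1,1],6733,2823), ([2,1,1,10,1,2,5,3,2,1],7837,6215), ([1,7,12,6,15,1],4613,8087), ([1,14,1,5,2,1,30,1],3816,7153), ([1,31,1,1,3,1,15,2],6494,12590), ([32,1,1,3,1,15,1,1],3043,187), ([1,3,1,13,27,1,1,2],7789,12418), ([4,1,13,27,1,1,1,1],1756,713),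 ([1,10,2,3,1,1,4,5,2],3299,6022), ([11,2,3,1,1,4,5,1,1],6250,1093), ([3,1,1,1,1,4,1,1,1,4,7],1295,718), ([1,1,11,2,1,5,5,1,3],681,710), ([2,11,2,1,5,5,1,2,1],8870,8497), ([1,2,1,1,1,1,4,1,1,1,4,6,1],8256,11937), ([2,2,1,7,2,1,3,2,1,4],6593,5618), ([1,1,1,1,1,3,2,4,1,1,4,3],3865,4802), ([2,1,1,1,3,2,4,1,1,4,2,1],5686,4309), ([1,1,2,1,7,2,1,3,2,1,3,1],2958,3397)]
theorem r233 : rgV L233 9527 17 = true := by decide +kernel
theorem f233 : ∀ p ∈ L233, fam (wl p.1) p.2.1 p.2.2 = true := by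
  intro p hp
  simp only [L233, List.mem_cons, List.not_mem_nil, or_false] at hp
  rcases hp with rfl | rfl | rfl | rfl | rfl | rfl | rfl | rfl | rfl | rfl | rfl | rfl | rfl | rfl | rfl | rfl | rfl | rfl | rfl | rfl | rfl | rfl | rfl | rfl | rfl | rfl | rfl | rfl | rfl | rfl
  · exact x233_0
  · exact x233_1
  · exact x233_2
  · exact x233_3
  · exact x233_4
  · exact x233_5
  · exact x233_6
  · exact x233_7
  · exact x233_8
  · exact x233_9
  · exact x233_10
  · exact x233_11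
  · exact x233_12
  · exact x233_13
  · exact x233_14
  · exact x233_15
  · exact x233_16
  · exact x233_17
  · exact x233_18
  · exact x233_19
  · exact x233_20
  · exact x233_21
  · exact x233_22
  · exact x233_23
  · exact x233_24
  · exact x233_25
  · exact x233_26
  · exact x233_27
  · exact x233_28
  · exact x233_29

end Pool.Agent.V5helper47.EV
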