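import Pool.Agent.V5helper47.EV.S2

/-! Search, part of the half words. -/

set_option maxRecDepth 1000000

namespace Pool.Agent.V5helper47.EV

open H419R2 Pool.Agent.N911 Pool.Agent.V5helper47.CN

theorem x235_0 : fam (wl [1,1,1,2,1,1,3,7,6,3]) 3335 4218 = true := by decide +kernel
theorem x235_1 : fam (wl [1,2,2,1,9,4,1,5,1,2]) 5205 7298 = true := by decide +kernel
theorem x235_2 : fam (wl [3,2,1,9,4,1,5,1,1,1]) 4402 2633 = true := by decide +kernel
theorem x235_3 : fam (wl [2,1,2,1,1,3,7,6,2,1]) 6272 4613 = true := by decide +kernel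
theorem x235_4 : fam (wl [2,2,4,4,2,8,1,4]) 707 578 = true := by decide +kernel
theorem x235_5 : fam (wl [1,3,1,1,2,1,2,1,2,1,3,1,1,2]) 6547 10234 = true := by decide +kernel
theorem x235_6 : fam (wl [4,1,1,2,1,2,1,2,1,3,1,1,1,1]) 3068 1341 = true := by decide +kernel
theorem x235_7 : fam (wl [1,1,2,4,4,2,8,1,3,1]) 8908 10537 = true := by decide +kernel
theorem x235_8 : fam (wl [1,2,6,1,1,1,3,13,1,2]) 8287 11314 = true := by decide +kernel
theorem x235_9 : fam (wl [3,6,1,1,1,3,13,1,1,1]) 1330 845 = true := by decide +kernel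
theorem x235_10 : fam (wl [16,1,4,1,1,1,33]) 4761 566 = true := by decide +kernel
theorem x235_11 : fam (wl [1,15,1,4,1,1,1,32,1]) 4860 9145 = true := by decide +kernel
theorem x235_12 : fam (wl [2,3,1,3,1,2,8,1,1,4]) 3525 3114 = true := by decide +kernel
theorem x235_13 : fam (wl [1,8,4,2,1,8,4,2]) 1822 3250 = true := by decide +kernel
theorem x235_14 : fam (wl [9,4,2,1,8,4,1,1]) 7803 1691 = true := by decide +kernel
theorem x235_15 : fam (wl [1,1,3,1,3,1,2,8,1,1,3,1]) 6100 6813 = true := by decide +kernel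
theorem x235_16 : fam (wl [1,1,1,1,2,4,1,9,1,3,3]) 9043 11110 = true := by decide +kernel
theorem x235_17 : fam (wl [2,1,1,2,4,1,9,1,3,2,1]) 586 453 = true := by decide +kernel
theorem x235_18 : fam (wl [7,2,1,3,1,1,2,1,14]) 9192 2498 = true := by decide +kernel
theorem x235_19 : fam (wl [2,1,1,1,2,2,1,5,1,3,5]) 4652 3538 = true := by decide +kernel
theorem x235_20 : fam (wl [1,1,1,1,1,2,2,1,5,1,3,4,1]) 4987 6183 = true := by decide +kernel
theorem x235_21 : fam (wl [1,6,2,1,3,1,1,2,1,13,1]) 447 775 = true := by decide +kernel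
theorem x235_22 : fam (wl [2,1,3,6,12,1,1,5]) 6549 4746 = true := by decide +kernel
theorem x235_23 : fam (wl [1,1,1,3,6,12,1,1,4,1]) 3092 3945 = true := by decide +kernel
theorem x235_24 : fam (wl [1,3,3,1,1,2,2,3,1,1,1,1,2]) 5213 7990 = true := by decide +kernel
theorem x235_25 : fam (wl [4,3,1,1,2,2,3,1,1,1,1,1,1]) 4434 2073 = true := by decide +kernel
theorem x235_26 : fam (wl [2,11,2,2,2,1,5,4]) 1292 1238 = true := by decide +kernel
theorem x235_27 : fam (wl [1,1,11,2,2,2,1,5,3,1]) 8355 8707 = true := by decide +kernel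
/-- words with first entry from 9609 to 9649 -/
def L235 : List (List ℕ × ℕ × ℕ) := [([1,1,1,2,1,1,3,7,6,3],3335,4218), ([1,2,2,1,9,4,1,5,1,2],5205,7298), ([3,2,1,9,4,1,5,1,1,1],4402,2633), ([2,1,2,1,1,3,7,6,2,1],6272,4613), ([2,2,4,4,2,8,1,4],707,578), ([1,3,1,1,2,1,2,1,2,1,3,1,1,2],6547,10234), ([4,1,1,2,1,2,1,2,1,3,1,1,1,1],3068,1341), ([1,1,2,4,4,2,8,1,3,1],8908,10537), ([1,2,6,1,1,1,3,13,1,2],8287,11314), ([3,6,1,1,1,3,13,1,1,1],1330,845), ([16,1,4,1,1,1,33],4761,566), ([1,15,1,4,1,1,1,32,1],4860,9145), ([2,3,1,3,1,2,8,1,1,4],3525,3114), ([1,8,4,2,1,8,4,2],1822,3250), ([9,4,2,1,8,4,1,1],7803,1691), ([1,1,3,1,3,1,2,8,1,1,3,1],6100,6813), ([1,1,1,1,2,4,1,9,1,3,3],9043,11110), ([2,1,1,2,4,1,9,1,3,2,1],586,453), ([7,2,1,3,1,1,2,1,14],9192,2498), ([2,1,1,1,2,2,1,5,1,3,5],4652,3538), ([1,1,1,1,1,2,2,1,5,1,3,4,1],4987,6183), ([1,6,2,1,3,1,1,2,1,13,1],447,775), ([2,1,3,6,12,1,1,5],6549,4746), ([1,1,1,3,6,12,1,1,4,1],3092,3945), ([1,3,3,1,1,2,2,3,1,1,1,1,2],5213,7990),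 ([4,3,1,1,2,2,3,1,1,1,1,1,1],4434,2073), ([2,11,2,2,2,1,5,4],1292,1238), ([1,1,11,2,2,2,1,5,3,1],8355,8707)]
theorem r235 : rgV L235 9609 21 = true := by decide +kernel
theorem f235 : ∀ p ∈ L235, fam (wl p.1) p.2.1 p.2.2 = true := by
  intro p hp
  simp only [L235, List.mem_cons, List.not_mem_nil, or_false] at hp
  rcases hp with rfl | rfl | rfl | rfl | rfl | rfl | rfl | rfl | rfl | rfl | rfl | rfl | rfl | rfl | rfl | rfl | rfl | rfl | rfl | rfl | rfl | rfl | rfl | rfl | rfl | rfl | rfl | rfl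
  · exact x235_0
  · exact x235_1
  · exact x235_2
  · exact x235_3
  · exact x235_4
  · exact x235_5
  · exact x235_6
  · exact x235_7
  · exact x235_8
  · exact x235_9
  · exact x235_10
  · exact x235_11
  · exact x235_12
  · exact x235_13
  · exact x235_14
  · exact x235_15
  · exact x235_16
  · exact x235_17
  · exact x235_18
  · exact x235_19
  · exact x235_20
  · exact x235_21
  · exact x235_22
  · exact x235_23
  · exact x235_24
  · exact x235_25
  · exact x235_26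
  · exact x235_27

end Pool.Agent.V5helper47.EV
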