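import Pool.Agent.V5helper47.EV.S2

/-! Search, part of the half words. -/

set_option maxRecDepth 1000000

namespace Pool.Agent.V5helper47.EV

open H419R2 Pool.Agent.N911 Pool.Agent.V5helper47.CN

theorem x236_0 : fam (wl [4,1,2,3,1,2,1,1,2,9]) 3159 1346 = true := by decide +kernel
theorem x236_1 : fam (wl [2,4,1,8,4,2,2,4]) 2202 1998 = true := by decide +kernel
theorem x236_2 : fam (wl [1,1,4,1,8,4,2,2,3,1]) 7447 8139 = true := by decide +kernel
theorem x236_3 : fam (wl [1,3,1,2,3,1,2,1,1,2,8,1]) 6490 10217 = true := by decide +kernel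
theorem x236_4 : fam (wl [26,3,1,1,52]) 8385 638 = true := by decide +kernel
theorem x236_5 : fam (wl [1,1,1,2,11,1,5,5,3]) 9422 11802 = true := by decide +kernel
theorem x236_6 : fam (wl [2,1,2,11,1,5,5,2,1]) 249 187 = true := by decide +kernel
theorem x236_7 : fam (wl [1,25,3,1,1,51,1]) 1286 2477 = true := by decide +kernel
theorem x236_8 : fam (wl [3,1,7,2,4,3,1,7]) 3373 1738 = true := by decide +kernel
theorem x236_9 : fam (wl [1,1,1,1,3,5,2,1,1,1,3,3]) 4109 5018 = true := by decide +kernel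
theorem x236_10 : fam (wl [2,1,1,3,5,2,1,1,1,3,2,1]) 5562 4333 = true := by decide +kernel
theorem x236_11 : fam (wl [1,2,1,7,2,4,3,1,6,1]) 6298 9353 = true := by decide +kernel
theorem x236_12 : fam (wl [1,2,1,2,5,1,11,1,2,1,2]) 1250 1822 = true := by decide +kernel
theorem x236_13 : fam (wl [3,1,2,5,1,11,1,2,1,1,1]) 8427 4575 = true := by decide +kernel
theorem x236_14 : fam (wl [1,4,3,5,1,2,6,2,2]) 8564 13906 = true := by decide +kernel
theorem x236_15 : fam (wl [5,3,5,1,2,6,2,1,1]) 1123 423 = true := by decide +kernel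
theorem x236_16 : fam (wl [5,4,3,6,2,10]) 8878 3394 = true := by decide +kernel
theorem x236_17 : fam (wl [1,4,4,3,6,2,9,1]) 809 1311 = true := by decide +kernel
theorem x236_18 : fam (wl [1,2,5,3,2,1,1,10,1,2]) 5205 7146 = true := by decide +kernel
theorem x236_19 : fam (wl [1,3,3,5,10,1,1,1,1,2]) 480 738 = true := by decide +kernel
theorem x236_20 : fam (wl [4,3,5,10,1,1,1,1,1,1]) 9209 4271 = true := by decide +kernel
theorem x236_21 : fam (wl [3,5,3,2,1,1,10,1,1,1]) 4484 2813 = true := by decide +kernel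
theorem x236_22 : fam (wl [2,4,1,2,1,1,3,1,2,2,4]) 9553 8638 = true := by decide +kernel
theorem x236_23 : fam (wl [1,1,4,1,2,1,1,3,1,2,2,3,1]) 142 157 = true := by decide +kernel
theorem x236_24 : fam (wl [12,8,4,24]) 3503 578 = true := by decide +kernel
theorem x236_25 : fam (wl [1,11,8,4,23,1]) 6192 11365 = true := by decide +kernel
theorem x236_26 : fam (wl [7,13,1,6,14]) 1379 390 = true := by decide +kernel
theorem x236_27 : fam (wl [1,2,3,3,2,2,1,1,6,1,2]) 5072 7074 = true := by decide +kernel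
theorem x236_28 : fam (wl [3,3,3,2,2,1,1,6,1,1,1]) 4629 2803 = true := by decide +kernel
theorem x236_29 : fam (wl [1,6,13,1,6,13,1]) 8322 14293 = true := by decide +kernel
/-- words with first entry from 9651 to 9705 -/
def L236 : List (List ℕ × ℕ × ℕ) := [([4,1,2,3,1,2,1,1,2,9],3159,1346), ([2,4,1,8,4,2,2,4],2202,1998), ([1,1,4,1,8,4,2,2,3,1],7447,8139), ([1,3,1,2,3,1,2,1,1,2,8,1],6490,10217), ([26,3,1,1,52],8385,638), ([1,1,1,2,11,1,5,5,3],9422,11802), ([2,1,2,11,1,5,5,2,1],249,187), ([1,25,3,1,1,51,1],1286,2477), ([3,1,7,2,4,3,1,7],3373,1738), ([1,1,1,1,3,5,2,1,1,1,3,3],4109,5018), ([2,1,1,3,5,2,1,1,1,3,2,1],5562,4333), ([1,2,1,7,2,4,3,1,6,1],6298,9353), ([1,2,1,2,5,1,11,1,2,1,2],1250,1822), ([3,1,2,5,1,11,1,2,1,1,1],8427,4575), ([1,4,3,5,1,2,6,2,2],8564,13906), ([5,3,5,1,2,6,2,1,1],1123,423), ([5,4,3,6,2,10],8878,3394), ([1,4,4,3,6,2,9,1],809,1311), ([1,2,5,3,2,1,1,10,1,2],5205,7146), ([1,3,3,5,10,1,1,1,1,2],480,738), ([4,3,5,10,1,1,1,1,1,1],9209,4271),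 ([3,5,3,2,1,1,10,1,1,1],4484,2813), ([2,4,1,2,1,1,3,1,2,2,4],9553,8638), ([1,1,4,1,2,1,1,3,1,2,2,3,1],142,157), ([12,8,4,24],3503,578), ([1,11,8,4,23,1],6192,11365), ([7,13,1,6,14],1379,390), ([1,2,3,3,2,2,1,1,6,1,2],5072,7074), ([3,3,3,2,2,1,1,6,1,1,1],4629,2803), ([1,6,13,1,6,13,1],8322,14293)]
theorem r236 : rgV L236 9651 28 = true := by decide +kernel
theorem f236 : ∀ p ∈ L236, fam (wl p.1) p.2.1 p.2.2 = true := by
  intro p hp
  simp only [L236, List.mem_cons, List.not_mem_nil, or_false] at hp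
  rcases hp with rfl | rfl | rfl | rfl | rfl | rfl | rfl | rfl | rfl | rfl | rfl | rfl | rfl | rfl | rfl | rfl | rfl | rfl | rfl | rfl | rfl | rfl | rfl | rfl | rfl | rfl | rfl | rfl | rfl | rfl
  · exact x236_0
  · exact x236_1
  · exact x236_2
  · exact x236_3
  · exact x236_4
  · exact x236_5
  · exact x236_6
  · exact x236_7
  · exact x236_8
  · exact x236_9
  · exact x236_10
  · exact x236_11
  · exact x236_12
  · exact x236_13
  · exact x236_14
  · exact x236_15
  · exact x236_16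
  · exact x236_17
  · exact x236_18
  · exact x236_19
  · exact x236_20
  · exact x236_21
  · exact x236_22
  · exact x236_23
  · exact x236_24
  · exact x236_25
  · exact x236_26
  · exact x236_27
  · exact x236_28
  · exact x236_29

end Pool.Agent.V5helper47.EV
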