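import Pool.Agent.V5helper47.EV.S2

/-! Search, part of the half words. -/

set_option maxRecDepth 1000000

namespace Pool.Agent.V5helper47.EV

open H419R2 Pool.Agent.N911 Pool.Agent.V5helper47.CN

theorem x237_0 : fam (wl [23,4,2,46]) 1881 162 = true := by decide +kernel
theorem x237_1 : fam (wl [13,2,2,4,1,26]) 67 10 = true := by decide +kernel
theorem x237_2 : fam (wl [1,12,2,2,4,1,25,1]) 9638 17841 = true := by decide +kernel
theorem x237_3 : fam (wl [1,22,4,2,45,1]) 7824 14977 = true := by decide +kernel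
theorem x237_4 : fam (wl [5,1,1,1,2,1,2,1,3,11]) 5617 1994 = true := by decide +kernel
theorem x237_5 : fam (wl [2,1,3,1,1,1,1,3,3,1,1,5]) 6259 4498 = true := by decide +kernel
theorem x237_6 : fam (wl [1,1,1,3,1,1,1,1,3,3,1,1,4,1]) 3452 4425 = true := by decide +kernel
theorem x237_7 : fam (wl [1,4,1,1,1,2,1,2,1,3,10,1]) 4094 6737 = true := by decide +kernel
theorem x237_8 : fam (wl [2,3,1,6,1,14,1,1,4]) 9572 8478 = true := by decide +kernel
theorem x237_9 : fam (wl [1,1,3,1,6,1,14,1,1,3,1]) 145 163 = true := by decide +kernel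
theorem x237_10 : fam (wl [4,1,2,1,2,1,6,2,9]) 724 306 = true := by decide +kernel
theorem x237_11 : fam (wl [1,3,1,2,1,2,1,6,2,8,1]) 8995 14191 = true := by decide +kernel
theorem x237_12 : fam (wl [1,28,1,2,1,2,14,2]) 1530 2958 = true := by decide +kernel
theorem x237_13 : fam (wl [29,1,2,1,2,14,1,1]) 8189 551 = true := by decide +kernel
theorem x237_14 : fam (wl [1,1,9,1,3,1,1,2,4,1,3]) 4827 5062 = true := by decide +kernel
theorem x237_15 : fam (wl [1,2,1,8,1,1,3,4,2,1,2]) 3768 5602 = true := by decide +kernel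
theorem x237_16 : fam (wl [3,1,8,1,1,3,4,2,1,1,1]) 5957 3059 = true := by decide +kernel
theorem x237_17 : fam (wl [2,9,1,3,1,1,2,4,1,2,1]) 4898 4661 = true := by decide +kernel
theorem x237_18 : fam (wl [1,2,2,1,2,3,1,1,2,5,1,2]) 1892 2662 = true := by decide +kernel
theorem x237_19 : fam (wl [3,2,1,2,3,1,1,2,5,1,1,1]) 7845 4655 = true := by decide +kernel
theorem x237_20 : fam (wl [3,7,1,1,1,4,1,3,6]) 6108 3902 = true := by decide +kernel
theorem x237_21 : fam (wl [1,2,7,1,1,1,4,1,3,5,1]) 3633 4947 = true := by decide +kernel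
theorem x237_22 : fam (wl [5,4,1,1,2,3,2,10]) 1487 570 = true := by decide +kernel
theorem x237_23 : fam (wl [1,5,2,7,3,1,2,1,2,2]) 2376 4018 = true := by decide +kernel
theorem x237_24 : fam (wl [6,2,7,3,1,2,1,2,1,1]) 7369 2279 = true := by decide +kernel
theorem x237_25 : fam (wl [1,4,4,1,1,2,3,2,9,1]) 8258 13353 = true := by decide +kernel
theorem x237_26 : fam (wl [4,1,18,1,8,1,9]) 8756 3538 = true := by decide +kernel
theorem x237_27 : fam (wl [1,2,1,2,1,5,1,2,2,1,2,1,2]) 3285 4814 = true := by decide +kernel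
theorem x237_28 : fam (wl [3,1,2,1,5,1,2,2,1,2,1,1,1]) 6464 3457 = true := by decide +kernel
theorem x237_29 : fam (wl [1,3,1,18,1,8,1,8,1]) 993 1587 = true := by decide +kernel
/-- words with first entry from 9707 to 9751 -/
def L237 : List (List ℕ × ℕ × ℕ) := [([23,4,2,46],1881,162), ([13,2,2,4,1,26],67,10), ([1,12,2,2,4,1,25,1],9638,17841), ([1,22,4,2,45,1],7824,14977), ([5,1,1,1,2,1,2,1,3,11],5617,1994), ([2,1,3,1,1,1,1,3,3,1,1,5],6259,4498), ([1,1,1,3,1,1,1,1,3,3,1,1,4,1],3452,4425), ([1,4,1,1,1,2,1,2,1,3,10,1],4094,6737), ([2,3,1,6,1,14,1,1,4],9572,8478), ([1,1,3,1,6,1,14,1,1,3,1],145,163), ([4,1,2,1,2,1,6,2,9],724,306), ([1,3,1,2,1,2,1,6,2,8,1],8995,14191), ([1,28,1,2,1,2,14,2],1530,2958), ([29,1,2,1,2,14,1,1],8189,551), ([1,1,9,1,3,1,1,2,4,1,3],4827,5062), ([1,2,1,8,1,1,3,4,2,1,2],3768,5602), ([3,1,8,1,1,3,4,2,1,1,1],5957,3059), ([2,9,1,3,1,1,2,4,1,2,1],4898,4661), ([1,2,2,1,2,3,1,1,2,5,1,2],1892,2662), ([3,2,1,2,3,1,1,2,5,1,1,1],7845,4655),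 ([3,7,1,1,1,4,1,3,6],6108,3902), ([1,2,7,1,1,1,4,1,3,5,1],3633,4947), ([5,4,1,1,2,3,2,10],1487,570), ([1,5,2,7,3,1,2,1,2,2],2376,4018), ([6,2,7,3,1,2,1,2,1,1],7369,2279), ([1,4,4,1,1,2,3,2,9,1],8258,13353), ([4,1,18,1,8,1,9],8756,3538), ([1,2,1,2,1,5,1,2,2,1,2,1,2],3285,4814), ([3,1,2,1,5,1,2,2,1,2,1,1,1],6464,3457), ([1,3,1,18,1,8,1,8,1],993,1587)]
theorem r237 : rgV L237 9707 23 = true := by decide +kernel
theorem f237 : ∀ p ∈ L237, fam (wl p.1) p.2.1 p.2.2 = true := by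
  intro p hp
  simp only [L237, List.mem_cons, List.not_mem_nil, or_false] at hp
  rcases hp with rfl | rfl | rfl | rfl | rfl | rfl | rfl | rfl | rfl | rfl | rfl | rfl | rfl | rfl | rfl | rfl | rfl | rfl | rfl | rfl | rfl | rfl | rfl | rfl | rfl | rfl | rfl | rfl | rfl | rfl
  · exact x237_0
  · exact x237_1
  · exact x237_2
  · exact x237_3
  · exact x237_4
  · exact x237_5
  · exact x237_6
  · exact x237_7
  · exact x237_8
  · exact x237_9
  · exact x237_10
  · exact x237_11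
  · exact x237_12
  · exact x237_13
  · exact x237_14
  · exact x237_15
  · exact x237_16
  · exact x237_17
  · exact x237_18
  · exact x237_19
  · exact x237_20
  · exact x237_21
  · exact x237_22
  · exact x237_23
  · exact x237_24
  · exact x237_25
  · exact x237_26
  · exact x237_27
  · exact x237_28
  · exact x237_29

end Pool.Agent.V5helper47.EV
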