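import Pool.Agent.V5helper47.EV.S2

/-! Search, part of the half words. -/

set_option maxRecDepth 1000000

namespace Pool.Agent.V5helper47.EV

open H419R2 Pool.Agent.N911 Pool.Agent.V5helper47.CN

theorem x238_0 : fam (wl [3,18,1,2,9,6]) 6226 4078 = true := by decide +kernel
theorem x238_1 : fam (wl [2,1,18,2,1,8,1,5]) 1359 922 = true := by decide +kernel
theorem x238_2 : fam (wl [1,1,1,18,2,1,8,1,4,1]) 8392 11093 = true := by decide +kernel
theorem x238_3 : fam (wl [1,2,18,1,2,9,5,1]) 3525 4743 = true := by decide +kernel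
theorem x238_4 : fam (wl [40,2,1,80]) 363 18 = true := by decide +kernel
theorem x238_5 : fam (wl [1,1,2,1,1,1,2,2,2,4,2,3]) 7555 8762 = true := by decide +kernel
theorem x238_6 : fam (wl [2,2,1,1,1,2,2,2,4,2,2,1]) 2204 1853 = true := by decide +kernel
theorem x238_7 : fam (wl [1,39,2,1,79,1]) 9396 18329 = true := by decide +kernel
theorem x238_8 : fam (wl [2,4,2,1,2,2,5,2,4]) 4754 4266 = true := by decide +kernel
theorem x238_9 : fam (wl [1,1,4,2,1,2,2,5,2,3,1]) 5011 5527 = true := by decide +kernel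
theorem x238_10 : fam (wl [1,2,1,23,1,11,2,1,2]) 801 1198 = true := by decide +kernel
theorem x238_11 : fam (wl [3,1,23,1,11,2,1,1,1]) 8966 4529 = true := by decide +kernel
theorem x238_12 : fam (wl [2,2,7,1,2,15,1,4]) 1800 1458 = true := by decide +kernel
theorem x238_13 : fam (wl [1,1,2,7,1,2,15,1,3,1]) 7967 9483 = true := by decide +kernel
theorem x238_14 : fam (wl [6,9,2,1,4,12]) 7090 2322 = true := by decide +kernel
theorem x238_15 : fam (wl [1,4,1,8,1,2,4,2,2,2]) 8175 13578 = true := by decide +kernel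
theorem x238_16 : fam (wl [5,1,8,1,2,4,2,2,1,1]) 1594 541 = true := by decide +kernel
theorem x238_17 : fam (wl [1,5,9,2,1,4,11,1]) 2679 4483 = true := by decide +kernel
theorem x238_18 : fam (wl [3,2,5,2,1,10,1,6]) 1483 858 = true := by decide +kernel
theorem x238_19 : fam (wl [1,21,1,2,5,1,10,2]) 396 758 = true := by decide +kernel
theorem x238_20 : fam (wl [22,1,2,5,1,10,1,1]) 9379 827 = true := by decide +kernel
theorem x238_21 : fam (wl [1,2,2,5,2,1,10,1,5,1]) 8292 11789 = true := by decide +kernel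
theorem x238_22 : fam (wl [1,1,1,6,2,1,2,1,13,3]) 6067 7898 = true := by decide +kernel
theorem x238_23 : fam (wl [2,1,6,2,1,2,1,13,2,1]) 3718 2597 = true := by decide +kernel
theorem x238_24 : fam (wl [1,2,22,1,45,1,2]) 722 970 = true := by decide +kernel
theorem x238_25 : fam (wl [3,22,1,45,1,1,1]) 9067 5959 = true := by decide +kernel
theorem x238_26 : fam (wl [2,1,5,3,1,7,2,1,5]) 1383 974 = true := by decide +kernel
theorem x238_27 : fam (wl [1,1,48,1,23,1,3]) 5811 5870 = true := by decide +kernel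
theorem x238_28 : fam (wl [2,48,1,23,1,2,1]) 3980 3941 = true := by decide +kernel
theorem x238_29 : fam (wl [1,1,1,5,3,1,7,2,1,4,1]) 8408 10897 = true := by decide +kernel
/-- words with first entry from 9753 to 9797 -/
def L238 : List (List ℕ × ℕ × ℕ) := [([3,18,1,2,9,6],6226,4078), ([2,1,18,2,1,8,1,5],1359,922), ([1,1,1,18,2,1,8,1,4,1],8392,11093), ([1,2,18,1,2,9,5,1],3525,4743), ([40,2,1,80],363,18), ([1,1,2,1,1,1,2,2,2,4,2,3],7555,8762), ([2,2,1,1,1,2,2,2,4,2,2,1],2204,1853), ([1,39,2,1,79,1],9396,18329), ([2,4,2,1,2,2,5,2,4],4754,4266), ([1,1,4,2,1,2,2,5,2,3,1],5011,5527), ([1,2,1,23,1,11,2,1,2],801,1198), ([3,1,23,1,11,2,1,1,1],8966,4529), ([2,2,7,1,2,15,1,4],1800,1458), ([1,1,2,7,1,2,15,1,3,1],7967,9483), ([6,9,2,1,4,12],7090,2322), ([1,4,1,8,1,2,4,2,2,2],8175,13578), ([5,1,8,1,2,4,2,2,1,1],1594,541), ([1,5,9,2,1,4,11,1],2679,4483), ([3,2,5,2,1,10,1,6],1483,858), ([1,21,1,2,5,1,10,2],396,758), ([22,1,2,5,1,10,1,1],9379,827), ([1,2,2,5,2,1,10,1,5,1],8292,11789),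 ([1,1,1,6,2,1,2,1,13,3],6067,7898), ([2,1,6,2,1,2,1,13,2,1],3718,2597), ([1,2,22,1,45,1,2],722,970), ([3,22,1,45,1,1,1],9067,5959), ([2,1,5,3,1,7,2,1,5],1383,974), ([1,1,48,1,23,1,3],5811,5870), ([2,48,1,23,1,2,1],3980,3941), ([1,1,1,5,3,1,7,2,1,4,1],8408,10897)]
theorem r238 : rgV L238 9753 23 = true := by decide +kernel
theorem f238 : ∀ p ∈ L238, fam (wl p.1) p.2.1 p.2.2 = true := by
  intro p hp
  simp only [L238, List.mem_cons, List.not_mem_nil, or_false] at hp
  rcases hp with rfl | rfl | rfl | rfl | rfl | rfl | rfl | rfl | rfl | rfl | rfl | rfl | rfl | rfl | rfl | rfl | rfl | rfl | rfl | rfl | rfl | rfl | rfl | rfl | rfl | rfl | rfl | rfl | rfl | rfl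
  · exact x238_0
  · exact x238_1
  · exact x238_2
  · exact x238_3
  · exact x238_4
  · exact x238_5
  · exact x238_6
  · exact x238_7
  · exact x238_8
  · exact x238_9
  · exact x238_10
  · exact x238_11
  · exact x238_12
  · exact x238_13
  · exact x238_14
  · exact x238_15
  · exact x238_16
  · exact x238_17
  · exact x238_18
  · exact x238_19
  · exact x238_20
  · exact x238_21
  · exact x238_22
  · exact x238_23
  · exact x238_24
  · exact x238_25
  · exact x238_26
  · exact x238_27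
  · exact x238_28
  · exact x238_29

end Pool.Agent.V5helper47.EV
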