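import Pool.Agent.V5helper47.EV.S2

/-! Search, part of the half words. -/

set_option maxRecDepth 1000000

namespace Pool.Agent.V5helper47.EV

open H419R2 Pool.Agent.N911 Pool.Agent.V5helper47.CN

theorem x239_0 : fam (wl [69,1,139]) 9729 278 = true := by decide +kernel
theorem x239_1 : fam (wl [1,97,1,48,2]) 7373 14598 = true := by decide +kernel
theorem x239_2 : fam (wl [98,1,48,1,1]) 2424 49 = true := by decide +kernel
theorem x239_3 : fam (wl [1,68,1,138,1]) 68 137 = true := by decide +kernel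
theorem x239_4 : fam (wl [70,140]) 70 2 = true := by decide +kernel
theorem x239_5 : fam (wl [1,12,1,6,3,2,6,2]) 3236 6006 = true := by decide +kernel
theorem x239_6 : fam (wl [13,1,6,3,2,6,1,1]) 6563 947 = true := by decide +kernel
theorem x239_7 : fam (wl [1,69,139,1]) 9729 19183 = true := by decide +kernel
theorem x239_8 : fam (wl [1,98,49,2]) 2425 4802 = true := by decide +kernel
theorem x239_9 : fam (wl [99,49,1,1]) 7376 149 = true := by decide +kernel
theorem x239_10 : fam (wl [2,1,6,4,1,1,1,1,2,1,5]) 3259 2278 = true := by decide +kernel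
theorem x239_11 : fam (wl [2,1,4,6,1,2,1,1,1,1,5]) 9604 6846 = true := by decide +kernel
theorem x239_12 : fam (wl [1,1,1,4,6,1,2,1,1,1,1,4,1]) 203 263 = true := by decide +kernel
theorem x239_13 : fam (wl [1,1,1,6,4,1,1,1,1,2,1,4,1]) 6548 8521 = true := by decide +kernel
theorem x239_14 : fam (wl [1,1,49,24,1,3]) 8892 8982 = true := by decide +kernel
theorem x239_15 : fam (wl [1,2,23,46,1,2]) 2545 3418 = true := by decide +kernel
theorem x239_16 : fam (wl [3,23,46,1,1,1]) 7262 4773 = true := by decide +kernel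
theorem x239_17 : fam (wl [2,49,24,1,2,1]) 915 907 = true := by decide +kernel
theorem x239_18 : fam (wl [1,16,4,8,8,2]) 2663 5018 = true := by decide +kernel
theorem x239_19 : fam (wl [17,4,8,8,1,1]) 7146 829 = true := by decide +kernel
theorem x239_20 : fam (wl [14,1,1,1,1,4,29]) 2089 286 = true := by decide +kernel
theorem x239_21 : fam (wl [1,13,1,1,1,1,4,28,1]) 7726 14397 = true := by decide +kernel
theorem x239_22 : fam (wl [3,3,1,2,2,1,5,1,1,6]) 1769 1082 = true := by decide +kernel
theorem x239_23 : fam (wl [1,2,3,1,2,2,1,5,1,1,5,1]) 8046 11173 = true := by decide +kernel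
theorem x239_24 : fam (wl [9,3,1,1,3,1,1,18]) 696 150 = true := by decide +kernel
theorem x239_25 : fam (wl [1,1,4,3,2,4,1,1,1,1,1,3]) 3120 3446 = true := by decide +kernel
theorem x239_26 : fam (wl [2,4,3,2,4,1,1,1,1,1,2,1]) 6697 5999 = true := by decide +kernel
theorem x239_27 : fam (wl [1,8,3,1,1,3,1,1,17,1]) 9121 16279 = true := by decide +kernel
/-- words with first entry from 9799 to 9831 -/
def L239 : List (List ℕ × ℕ × ℕ) := [([69,1,139],9729,278), ([1,97,1,48,2],7373,14598), ([98,1,48,1,1],2424,49), ([1,68,1,138,1],68,137), ([70,140],70,2), ([1,12,1,6,3,2,6,2],3236,6006), ([13,1,6,3,2,6,1,1],6563,947), ([1,69,139,1],9729,19183), ([1,98,49,2],2425,4802), ([99,49,1,1],7376,149), ([2,1,6,4,1,1,1,1,2,1,5],3259,2278), ([2,1,4,6,1,2,1,1,1,1,5],9604,6846), ([1,1,1,4,6,1,2,1,1,1,1,4,1],203,263), ([1,1,1,6,4,1,1,1,1,2,1,4,1],6548,8521), ([1,1,49,24,1,3],8892,8982), ([1,2,23,46,1,2],2545,3418), ([3,23,46,1,1,1],7262,4773), ([2,49,24,1,2,1],915,907), ([1,16,4,8,8,2],2663,5018), ([17,4,8,8,1,1],7146,829),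 ([14,1,1,1,1,4,29],2089,286), ([1,13,1,1,1,1,4,28,1],7726,14397), ([3,3,1,2,2,1,5,1,1,6],1769,1082), ([1,2,3,1,2,2,1,5,1,1,5,1],8046,11173), ([9,3,1,1,3,1,1,18],696,150), ([1,1,4,3,2,4,1,1,1,1,1,3],3120,3446), ([2,4,3,2,4,1,1,1,1,1,2,1],6697,5999), ([1,8,3,1,1,3,1,1,17,1],9121,16279)]
theorem r239 : rgV L239 9799 17 = true := by decide +kernel
theorem f239 : ∀ p ∈ L239, fam (wl p.1) p.2.1 p.2.2 = true := by
  intro p hp
  simp only [L239, List.mem_cons, List.not_mem_nil, or_false] at hp
  rcases hp with rfl | rfl | rfl | rfl | rfl | rfl | rfl | rfl | rfl | rfl | rfl | rfl | rfl | rfl | rfl | rfl | rfl | rfl | rfl | rfl | rfl | rfl | rfl | rfl | rfl | rfl | rfl | rfl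
  · exact x239_0
  · exact x239_1
  · exact x239_2
  · exact x239_3
  · exact x239_4
  · exact x239_5
  · exact x239_6
  · exact x239_7
  · exact x239_8
  · exact x239_9
  · exact x239_10
  · exact x239_11
  · exact x239_12
  · exact x239_13
  · exact x239_14
  · exact x239_15
  · exact x239_16
  · exact x239_17
  · exact x239_18
  · exact x239_19
  · exact x239_20
  · exact x239_21
  · exact x239_22
  · exact x239_23
  · exact x239_24
  · exact x239_25
  · exact x239_26
  · exact x239_27

end Pool.Agent.V5helper47.EV
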