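import Pool.Agent.V5helper47.EV.S2

/-! Search, part of the half words. -/

set_option maxRecDepth 1000000

namespace Pool.Agent.V5helper47.EV

open H419R2 Pool.Agent.N911 Pool.Agent.V5helper47.CN

theorem x240_0 : fam (wl [1,5,2,2,2,2,2,2,1,2,2]) 5557 9382 = true := by decide +kernel
theorem x240_1 : fam (wl [6,2,2,2,2,2,2,1,2,1,1]) 4274 1333 = true := by decide +kernel
theorem x240_2 : fam (wl [1,2,1,24,12,2,1,2]) 6567 9818 = true := by decide +kernel
theorem x240_3 : fam (wl [3,1,24,12,2,1,1,1]) 3264 1649 = true := by decide +kernel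
theorem x240_4 : fam (wl [2,1,7,2,1,5,3,1,5]) 573 398 = true := by decide +kernel
theorem x240_5 : fam (wl [1,1,1,7,2,1,5,3,1,4,1]) 9264 12097 = true := by decide +kernel
theorem x240_6 : fam (wl [12,4,1,2,2,24]) 3456 566 = true := by decide +kernel
theorem x240_7 : fam (wl [1,1,2,2,4,2,1,1,1,2,2,3]) 918 1074 = true := by decide +kernel
theorem x240_8 : fam (wl [1,1,2,4,2,2,2,1,1,1,2,3]) 7289 8626 = true := by decide +kernel
theorem x240_9 : fam (wl [1,2,1,6,1,2,1,2,3,2,1,2]) 8021 11898 = true := by decide +kernel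
theorem x240_10 : fam (wl [3,1,6,1,2,1,2,3,2,1,1,1]) 1820 941 = true := by decide +kernel
theorem x240_11 : fam (wl [2,2,4,2,2,2,1,1,1,2,2,1]) 2552 2085 = true := by decide +kernel
theorem x240_12 : fam (wl [2,2,2,4,2,1,1,1,2,2,2,1]) 8923 7411 = true := by decide +kernel
theorem x240_13 : fam (wl [1,11,4,1,2,2,23,1]) 6385 11727 = true := by decide +kernel
theorem x240_14 : fam (wl [4,1,19,9,1,9]) 2975 1202 = true := by decide +kernel
theorem x240_15 : fam (wl [1,3,1,19,9,1,8,1]) 6874 10973 = true := by decide +kernel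
theorem x240_16 : fam (wl [3,1,2,1,3,1,8,2,7]) 7529 4030 = true := by decide +kernel
theorem x240_17 : fam (wl [1,2,1,2,1,3,1,8,2,6,1]) 2326 3409 = true := by decide +kernel
theorem x240_18 : fam (wl [1,1,2,2,1,1,1,2,4,2,2,3]) 8795 10322 = true := by decide +kernel
theorem x240_19 : fam (wl [2,2,2,1,1,1,2,4,2,2,2,1]) 1060 877 = true := by decide +kernel
theorem x240_20 : fam (wl [1,6,2,6,3,4,3,2]) 8093 14018 = true := by decide +kernel
theorem x240_21 : fam (wl [7,2,6,3,4,3,1,1]) 1764 473 = true := by decide +kernel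
theorem x240_22 : fam (wl [8,4,1,1,3,2,16]) 5515 1342 = true := by decide +kernel
theorem x240_23 : fam (wl [1,2,3,1,6,1,2,1,7,1,2]) 281 390 = true := by decide +kernel
theorem x240_24 : fam (wl [3,3,1,6,1,2,1,7,1,1,1]) 9580 5881 = true := by decide +kernel
theorem x240_25 : fam (wl [1,7,4,1,1,3,2,15,1]) 4346 7637 = true := by decide +kernel
theorem x240_26 : fam (wl [1,4,1,5,2,2,1,2,2,2,2]) 6045 10022 = true := by decide +kernel
theorem x240_27 : fam (wl [5,1,5,2,2,1,2,2,2,1,1]) 3824 1309 = true := by decide +kernel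
/-- words with first entry from 9833 to 9871 -/
def L240 : List (List ℕ × ℕ × ℕ) := [([1,5,2,2,2,2,2,2,1,2,2],5557,9382), ([6,2,2,2,2,2,2,1,2,1,1],4274,1333), ([1,2,1,24,12,2,1,2],6567,9818), ([3,1,24,12,2,1,1,1],3264,1649), ([2,1,7,2,1,5,3,1,5],573,398), ([1,1,1,7,2,1,5,3,1,4,1],9264,12097), ([12,4,1,2,2,24],3456,566), ([1,1,2,2,4,2,1,1,1,2,2,3],918,1074), ([1,1,2,4,2,2,2,1,1,1,2,3],7289,8626), ([1,2,1,6,1,2,1,2,3,2,1,2],8021,11898), ([3,1,6,1,2,1,2,3,2,1,1,1],1820,941), ([2,2,4,2,2,2,1,1,1,2,2,1],2552,2085), ([2,2,2,4,2,1,1,1,2,2,2,1],8923,7411), ([1,11,4,1,2,2,23,1],6385,11727), ([4,1,19,9,1,9],2975,1202), ([1,3,1,19,9,1,8,1],6874,10973), ([3,1,2,1,3,1,8,2,7],7529,4030), ([1,2,1,2,1,3,1,8,2,6,1],2326,3409), ([1,1,2,2,1,1,1,2,4,2,2,3],8795,10322), ([2,2,2,1,1,1,2,4,2,2,2,1],1060,877), ([1,6,2,6,3,4,3,2],8093,14018), ([7,2,6,3,4,3,1,1],1764,473), ([8,4,1,1,3,2,16],5515,1342), ([1,2,3,1,6,1,2,1,7,1,2],281,390), ([3,3,1,6,1,2,1,7,1,1,1],9580,5881),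 ([1,7,4,1,1,3,2,15,1],4346,7637), ([1,4,1,5,2,2,1,2,2,2,2],6045,10022), ([5,1,5,2,2,1,2,2,2,1,1],3824,1309)]
theorem r240 : rgV L240 9833 20 = true := by decide +kernel
theorem f240 : ∀ p ∈ L240, fam (wl p.1) p.2.1 p.2.2 = true := by
  intro p hp
  simp only [L240, List.mem_cons, List.not_mem_nil, or_false] at hp
  rcases hp with rfl | rfl | rfl | rfl | rfl | rfl | rfl | rfl | rfl | rfl | rfl | rfl | rfl | rfl | rfl | rfl | rfl | rfl | rfl | rfl | rfl | rfl | rfl | rfl | rfl | rfl | rfl | rfl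
  · exact x240_0
  · exact x240_1
  · exact x240_2
  · exact x240_3
  · exact x240_4
  · exact x240_5
  · exact x240_6
  · exact x240_7
  · exact x240_8
  · exact x240_9
  · exact x240_10
  · exact x240_11
  · exact x240_12
  · exact x240_13
  · exact x240_14
  · exact x240_15
  · exact x240_16
  · exact x240_17
  · exact x240_18
  · exact x240_19
  · exact x240_20
  · exact x240_21
  · exact x240_22
  · exact x240_23
  · exact x240_24
  · exact x240_25
  · exact x240_26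
  · exact x240_27

end Pool.Agent.V5helper47.EV
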