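import Pool.Agent.V5helper47.EV.S2

/-! Search, part of the half words. -/

set_option maxRecDepth 1000000

namespace Pool.Agent.V5helper47.EV

open H419R2 Pool.Agent.N911 Pool.Agent.V5helper47.CN

theorem x241_0 : fam (wl [2,1,1,3,1,1,1,3,8,5]) 453 354 = true := by decide +kernel
theorem x241_1 : fam (wl [1,2,1,1,2,1,2,5,2,3,1,2]) 3812 5494 = true := by decide +kernel
theorem x241_2 : fam (wl [3,1,1,2,1,2,5,2,3,1,1,1]) 6059 3387 = true := by decide +kernel
theorem x241_3 : fam (wl [1,1,1,1,3,1,1,1,3,8,4,1]) 9418 11481 = true := by decide +kernel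
theorem x241_4 : fam (wl [2,1,1,4,1,2,2,10,5]) 6571 5158 = true := by decide +kernel
theorem x241_5 : fam (wl [1,36,1,1,3,18,2]) 7870 15322 = true := by decide +kernel
theorem x241_6 : fam (wl [37,1,1,3,18,1,1]) 2009 107 = true := by decide +kernel
theorem x241_7 : fam (wl [1,1,1,1,4,1,2,2,10,4,1]) 3308 4021 = true := by decide +kernel
theorem x241_8 : fam (wl [2,3,1,7,15,1,1,4]) 5638 4994 = true := by decide +kernel
theorem x241_9 : fam (wl [1,2,1,3,1,1,2,1,3,1,1,2,1,2]) 659 970 = true := by decide +kernel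
theorem x241_10 : fam (wl [3,1,3,1,1,2,1,3,1,1,2,1,1,1]) 9220 4877 = true := by decide +kernel
theorem x241_11 : fam (wl [1,1,3,1,7,15,1,1,3,1]) 4241 4727 = true := by decide +kernel
theorem x241_12 : fam (wl [2,2,1,1,1,3,7,3,1,4]) 4632 3894 = true := by decide +kernel
theorem x241_13 : fam (wl [1,1,2,1,1,1,3,7,3,1,3,1]) 5249 6087 = true := by decide +kernel
theorem x241_14 : fam (wl [2,1,2,2,4,1,1,1,2,2,5]) 8323 6142 = true := by decide +kernel
theorem x241_15 : fam (wl [1,1,1,2,2,4,1,1,1,2,2,4,1]) 1562 1973 = true := by decide +kernel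
theorem x241_16 : fam (wl [2,7,3,1,2,1,1,1,3,4]) 3204 2998 = true := by decide +kernel
theorem x241_17 : fam (wl [1,6,2,3,2,1,1,4,3,2]) 2293 3970 = true := by decide +kernel
theorem x241_18 : fam (wl [7,2,3,2,1,1,4,3,1,1]) 7602 2045 = true := by decide +kernel
theorem x241_19 : fam (wl [1,1,7,3,1,2,1,1,1,3,3,1]) 6691 7123 = true := by decide +kernel
theorem x241_20 : fam (wl [7,14,7,14]) 7 2 = true := by decide +kernel
theorem x241_21 : fam (wl [3,1,1,2,1,3,1,1,6,7]) 1062 594 = true := by decide +kernel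
theorem x241_22 : fam (wl [1,2,1,1,2,1,3,1,1,6,6,1]) 8835 12731 = true := by decide +kernel
theorem x241_23 : fam (wl [1,6,14,7,13,1]) 9890 16985 = true := by decide +kernel
theorem x241_24 : fam (wl [1,9,1,1,4,2,3,1,4,2]) 1397 2530 = true := by decide +kernel
theorem x241_25 : fam (wl [10,1,1,4,2,3,1,4,1,1]) 8508 1613 = true := by decide +kernel
theorem x241_26 : fam (wl [6,2,4,1,9,1,12]) 7738 2398 = true := by decide +kernel
theorem x241_27 : fam (wl [2,2,2,7,1,3,4,1,4]) 8150 6778 = true := by decide +kernel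
theorem x241_28 : fam (wl [1,1,2,2,7,1,3,4,1,3,1]) 1761 2059 = true := by decide +kernel
theorem x241_29 : fam (wl [1,5,2,4,1,9,1,11,1]) 2173 3675 = true := by decide +kernel
/-- words with first entry from 9873 to 9919 -/
def L241 : List (List ℕ × ℕ × ℕ) := [([2,1,1,3,1,1,1,3,8,5],453,354), ([1,2,1,1,2,1,2,5,2,3,1,2],3812,5494), ([3,1,1,2,1,2,5,2,3,1,1,1],6059,3387), ([1,1,1,1,3,1,1,1,3,8,4,1],9418,11481), ([2,1,1,4,1,2,2,10,5],6571,5158), ([1,36,1,1,3,18,2],7870,15322), ([37,1,1,3,18,1,1],2009,107), ([1,1,1,1,4,1,2,2,10,4,1],3308,4021), ([2,3,1,7,15,1,1,4],5638,4994), ([1,2,1,3,1,1,2,1,3,1,1,2,1,2],659,970), ([3,1,3,1,1,2,1,3,1,1,2,1,1,1],9220,4877), ([1,1,3,1,7,15,1,1,3,1],4241,4727), ([2,2,1,1,1,3,7,3,1,4],4632,3894), ([1,1,2,1,1,1,3,7,3,1,3,1],5249,6087), ([2,1,2,2,4,1,1,1,2,2,5],8323,6142), ([1,1,1,2,2,4,1,1,1,2,2,4,1],1562,1973), ([2,7,3,1,2,1,1,1,3,4],3204,2998), ([1,6,2,3,2,1,1,4,3,2],2293,3970), ([7,2,3,2,1,1,4,3,1,1],7602,2045),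 ([1,1,7,3,1,2,1,1,1,3,3,1],6691,7123), ([7,14,7,14],7,2), ([3,1,1,2,1,3,1,1,6,7],1062,594), ([1,2,1,1,2,1,3,1,1,6,6,1],8835,12731), ([1,6,14,7,13,1],9890,16985), ([1,9,1,1,4,2,3,1,4,2],1397,2530), ([10,1,1,4,2,3,1,4,1,1],8508,1613), ([6,2,4,1,9,1,12],7738,2398), ([2,2,2,7,1,3,4,1,4],8150,6778), ([1,1,2,2,7,1,3,4,1,3,1],1761,2059), ([1,5,2,4,1,9,1,11,1],2173,3675)]
theorem r241 : rgV L241 9873 24 = true := by decide +kernel
theorem f241 : ∀ p ∈ L241, fam (wl p.1) p.2.1 p.2.2 = true := by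
  intro p hp
  simp only [L241, List.mem_cons, List.not_mem_nil, or_false] at hp
  rcases hp with rfl | rfl | rfl | rfl | rfl | rfl | rfl | rfl | rfl | rfl | rfl | rfl | rfl | rfl | rfl | rfl | rfl | rfl | rfl | rfl | rfl | rfl | rfl | rfl | rfl | rfl | rfl | rfl | rfl | rfl
  · exact x241_0
  · exact x241_1
  · exact x241_2
  · exact x241_3
  · exact x241_4
  · exact x241_5
  · exact x241_6
  · exact x241_7
  · exact x241_8
  · exact x241_9
  · exact x241_10
  · exact x241_11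
  · exact x241_12
  · exact x241_13
  · exact x241_14
  · exact x241_15
  · exact x241_16
  · exact x241_17
  · exact x241_18
  · exact x241_19
  · exact x241_20
  · exact x241_21
  · exact x241_22
  · exact x241_23
  · exact x241_24
  · exact x241_25
  · exact x241_26
  · exact x241_27
  · exact x241_28
  · exact x241_29

end Pool.Agent.V5helper47.EV
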