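import Pool.Agent.V5helper47.EV.S2

/-! Search, part of the half words. -/

set_option maxRecDepth 1000000

namespace Pool.Agent.V5helper47.EV

open H419R2 Pool.Agent.N911 Pool.Agent.V5helper47.CN

theorem x242_0 : fam (wl [16,6,3,32]) 5833 722 = true := by decide +kernel
theorem x242_1 : fam (wl [1,2,1,2,6,12,1,2,1,2]) 1423 2074 = true := by decide +kernel
theorem x242_2 : fam (wl [3,1,2,6,12,1,2,1,1,1]) 8496 4613 = true := by decide +kernel
theorem x242_3 : fam (wl [1,15,6,3,31,1]) 4086 7669 = true := by decide +kernel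
theorem x242_4 : fam (wl [40,1,2,81]) 366 18 = true := by decide +kernel
theorem x242_5 : fam (wl [1,39,1,2,80,1]) 9555 18643 = true := by decide +kernel
theorem x242_6 : fam (wl [2,1,2,2,1,1,1,4,2,2,5]) 4410 3262 = true := by decide +kernel
theorem x242_7 : fam (wl [1,1,1,2,2,1,1,1,4,2,2,4,1]) 5517 6955 = true := by decide +kernel
theorem x242_8 : fam (wl [1,1,1,2,12,6,5,3]) 6462 8094 = true := by decide +kernel
theorem x242_9 : fam (wl [2,1,2,12,6,5,2,1]) 3465 2591 = true := by decide +kernel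
theorem x242_10 : fam (wl [1,3,1,7,2,1,15,1,1,2]) 8815 14018 = true := by decide +kernel
theorem x242_11 : fam (wl [4,1,7,2,1,15,1,1,1,1]) 1114 457 = true := by decide +kernel
theorem x242_12 : fam (wl [1,1,11,1,1,2,3,5,1,3]) 6739 7018 = true := by decide +kernel
theorem x242_13 : fam (wl [1,2,1,7,1,1,3,1,3,2,1,2]) 8179 12146 = true := by decide +kernel
theorem x242_14 : fam (wl [3,1,7,1,1,3,1,3,2,1,1,1]) 1756 905 = true := by decide +kernel
theorem x242_15 : fam (wl [2,11,1,1,2,3,5,1,2,1]) 3196 3065 = true := by decide +kernel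
theorem x242_16 : fam (wl [5,6,2,4,3,10]) 1366 530 = true := by decide +kernel
theorem x242_17 : fam (wl [1,6,5,1,2,11,3,2]) 261 450 = true := by decide +kernel
theorem x242_18 : fam (wl [7,5,1,2,11,3,1,1]) 9676 2697 = true := by decide +kernel
theorem x242_19 : fam (wl [1,4,6,2,4,3,9,1]) 8571 13819 = true := by decide +kernel
theorem x242_20 : fam (wl [2,5,8,1,3,1,1,2,4]) 7480 6814 = true := by decide +kernel
theorem x242_21 : fam (wl [1,14,1,1,2,2,3,7,2]) 4059 7598 = true := by decide +kernel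
theorem x242_22 : fam (wl [15,1,1,2,2,3,7,1,1]) 5898 757 = true := by decide +kernel
theorem x242_23 : fam (wl [1,1,5,8,1,3,1,1,2,3,1]) 2477 2699 = true := by decide +kernel
theorem x242_24 : fam (wl [5,2,5,1,11,1,10]) 7072 2590 = true := by decide +kernel
theorem x242_25 : fam (wl [2,1,1,2,1,4,1,1,1,6,5]) 1872 1454 = true := by decide +kernel
theorem x242_26 : fam (wl [1,1,1,1,2,1,4,1,1,1,6,4,1]) 8087 9895 = true := by decide +kernel
theorem x242_27 : fam (wl [1,4,2,5,1,11,1,9,1]) 2887 4719 = true := by decide +kernel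
/-- words with first entry from 9921 to 9961 -/
def L242 : List (List ℕ × ℕ × ℕ) := [([16,6,3,32],5833,722), ([1,2,1,2,6,12,1,2,1,2],1423,2074), ([3,1,2,6,12,1,2,1,1,1],8496,4613), ([1,15,6,3,31,1],4086,7669), ([40,1,2,81],366,18), ([1,39,1,2,80,1],9555,18643), ([2,1,2,2,1,1,1,4,2,2,5],4410,3262), ([1,1,1,2,2,1,1,1,4,2,2,4,1],5517,6955), ([1,1,1,2,12,6,5,3],6462,8094), ([2,1,2,12,6,5,2,1],3465,2591), ([1,3,1,7,2,1,15,1,1,2],8815,14018), ([4,1,7,2,1,15,1,1,1,1],1114,457), ([1,1,11,1,1,2,3,5,1,3],6739,7018), ([1,2,1,7,1,1,3,1,3,2,1,2],8179,12146), ([3,1,7,1,1,3,1,3,2,1,1,1],1756,905), ([2,11,1,1,2,3,5,1,2,1],3196,3065), ([5,6,2,4,3,10],1366,530), ([1,6,5,1,2,11,3,2],261,450), ([7,5,1,2,11,3,1,1],9676,2697), ([1,4,6,2,4,3,9,1],8571,13819), ([2,5,8,1,3,1,1,2,4],7480,6814), ([1,14,1,1,2,2,3,7,2],4059,7598), ([15,1,1,2,2,3,7,1,1],5898,757), ([1,1,5,8,1,3,1,1,2,3,1],2477,2699), ([5,2,5,1,11,1,10],7072,2590), ([2,1,1,2,1,4,1,1,1,6,5],1872,1454), ([1,1,1,1,2,1,4,1,1,1,6,4,1],8087,9895),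 ([1,4,2,5,1,11,1,9,1],2887,4719)]
theorem r242 : rgV L242 9921 21 = true := by decide +kernel
theorem f242 : ∀ p ∈ L242, fam (wl p.1) p.2.1 p.2.2 = true := by
  intro p hp
  simp only [L242, List.mem_cons, List.not_mem_nil, or_false] at hp
  rcases hp with rfl | rfl | rfl | rfl | rfl | rfl | rfl | rfl | rfl | rfl | rfl | rfl | rfl | rfl | rfl | rfl | rfl | rfl | rfl | rfl | rfl | rfl | rfl | rfl | rfl | rfl | rfl | rfl
  · exact x242_0
  · exact x242_1
  · exact x242_2
  · exact x242_3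
  · exact x242_4
  · exact x242_5
  · exact x242_6
  · exact x242_7
  · exact x242_8
  · exact x242_9
  · exact x242_10
  · exact x242_11
  · exact x242_12
  · exact x242_13
  · exact x242_14
  · exact x242_15
  · exact x242_16
  · exact x242_17
  · exact x242_18
  · exact x242_19
  · exact x242_20
  · exact x242_21
  · exact x242_22
  · exact x242_23
  · exact x242_24
  · exact x242_25
  · exact x242_26
  · exact x242_27

end Pool.Agent.V5helper47.EV
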