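import Pool.Agent.V5helper47.EV.S2

/-! Search, part of the half words. -/

set_option maxRecDepth 1000000

namespace Pool.Agent.V5helper47.EV

open H419R2 Pool.Agent.N911 Pool.Agent.V5helper47.CN

theorem x243_0 : fam (wl [4,7,3,1,1,1,3,8]) 1659 802 = true := by decide +kernel
theorem x243_1 : fam (wl [1,2,1,2,3,2,1,6,1,2,1,2]) 9476 13826 = true := by decide +kernel
theorem x243_2 : fam (wl [3,1,2,3,2,1,6,1,2,1,1,1]) 485 263 = true := by decide +kernel
theorem x243_3 : fam (wl [1,3,7,3,1,1,1,3,7,1]) 8302 12593 = true := by decide +kernel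
theorem x243_4 : fam (wl [3,3,1,1,3,1,1,3,1,1,6]) 4360 2658 = true := by decide +kernel
theorem x243_5 : fam (wl [1,2,3,1,1,3,1,1,3,1,1,5,1]) 5605 7795 = true := by decide +kernel
theorem x243_6 : fam (wl [1,1,1,1,2,5,10,1,3,3]) 7509 9226 = true := by decide +kernel
theorem x243_7 : fam (wl [1,2,1,1,3,1,2,1,2,1,1,3,1,2]) 4674 6722 = true := by decide +kernel
theorem x243_8 : fam (wl [3,1,1,3,1,2,1,2,1,1,3,1,1,1]) 5293 2975 = true := by decide +kernel
theorem x243_9 : fam (wl [2,1,1,2,5,10,1,3,2,1]) 2458 1897 = true := by decide +kernel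
theorem x243_10 : fam (wl [13,1,1,2,5,27]) 9909 1458 = true := by decide +kernel
theorem x243_11 : fam (wl [1,56,1,2,28,2]) 7352 14450 = true := by decide +kernel
theorem x243_12 : fam (wl [57,1,2,28,1,1]) 2623 91 = true := by decide +kernel
theorem x243_13 : fam (wl [1,12,1,1,2,5,26,1]) 66 125 = true := by decide +kernel
theorem x243_14 : fam (wl [6,2,2,1,2,5,1,12]) 4206 1310 = true := by decide +kernel
theorem x243_15 : fam (wl [1,1,28,2,1,13,1,3]) 3446 3506 = true := by decide +kernel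
theorem x243_16 : fam (wl [2,28,2,1,13,1,2,1]) 6531 6419 = true := by decide +kernel
theorem x243_17 : fam (wl [1,5,2,2,1,2,5,1,11,1]) 5771 9747 = true := by decide +kernel
theorem x243_18 : fam (wl [3,1,13,1,2,6,1,7]) 743 378 = true := by decide +kernel
theorem x243_19 : fam (wl [2,2,2,1,5,2,1,5,1,4]) 366 302 = true := by decide +kernel
theorem x243_20 : fam (wl [1,1,2,2,1,5,2,1,5,1,3,1]) 9619 11307 = true := by decide +kernel
theorem x243_21 : fam (wl [1,2,1,13,1,2,6,1,6,1]) 9242 13785 = true := by decide +kernel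
theorem x243_22 : fam (wl [26,1,2,2,53]) 8682 650 = true := by decide +kernel
theorem x243_23 : fam (wl [1,1,2,1,1,2,1,1,3,1,3,2,3]) 8220 9554 = true := by decide +kernel
theorem x243_24 : fam (wl [2,2,1,1,2,1,1,3,1,3,2,2,1]) 1769 1483 = true := by decide +kernel
theorem x243_25 : fam (wl [1,25,1,2,2,52,1]) 1307 2519 = true := by decide +kernel
theorem x243_26 : fam (wl [5,11,2,1,5,10]) 9652 3794 = true := by decide +kernel
theorem x243_27 : fam (wl [1,6,3,4,2,6,3,2]) 8541 14746 = true := by decide +kernel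
theorem x243_28 : fam (wl [7,3,4,2,6,3,1,1]) 1450 397 = true := by decide +kernel
theorem x243_29 : fam (wl [1,4,11,2,1,5,9,1]) 339 547 = true := by decide +kernel
/-- words with first entry from 9963 to 9999 -/
def L243 : List (List ℕ × ℕ × ℕ) := [([4,7,3,1,1,1,3,8],1659,802), ([1,2,1,2,3,2,1,6,1,2,1,2],9476,13826), ([3,1,2,3,2,1,6,1,2,1,1,1],485,263), ([1,3,7,3,1,1,1,3,7,1],8302,12593), ([3,3,1,1,3,1,1,3,1,1,6],4360,2658), ([1,2,3,1,1,3,1,1,3,1,1,5,1],5605,7795), ([1,1,1,1,2,5,10,1,3,3],7509,9226), ([1,2,1,1,3,1,2,1,2,1,1,3,1,2],4674,6722), ([3,1,1,3,1,2,1,2,1,1,3,1,1,1],5293,2975), ([2,1,1,2,5,10,1,3,2,1],2458,1897), ([13,1,1,2,5,27],9909,1458), ([1,56,1,2,28,2],7352,14450), ([57,1,2,28,1,1],2623,91), ([1,12,1,1,2,5,26,1],66,125), ([6,2,2,1,2,5,1,12],4206,1310), ([1,1,28,2,1,13,1,3],3446,3506), ([2,28,2,1,13,1,2,1],6531,6419), ([1,5,2,2,1,2,5,1,11,1],5771,9747), ([3,1,13,1,2,6,1,7],743,378), ([2,2,2,1,5,2,1,5,1,4],366,302), ([1,1,2,2,1,5,2,1,5,1,3,1],9619,11307),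 ([1,2,1,13,1,2,6,1,6,1],9242,13785), ([26,1,2,2,53],8682,650), ([1,1,2,1,1,2,1,1,3,1,3,2,3],8220,9554), ([2,2,1,1,2,1,1,3,1,3,2,2,1],1769,1483), ([1,25,1,2,2,52,1],1307,2519), ([5,11,2,1,5,10],9652,3794), ([1,6,3,4,2,6,3,2],8541,14746), ([7,3,4,2,6,3,1,1],1450,397), ([1,4,11,2,1,5,9,1],339,547)]
theorem r243 : rgV L243 9963 19 = true := by decide +kernel
theorem f243 : ∀ p ∈ L243, fam (wl p.1) p.2.1 p.2.2 = true := by
  intro p hp
  simp only [L243, List.mem_cons, List.not_mem_nil, or_false] at hp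
  rcases hp with rfl | rfl | rfl | rfl | rfl | rfl | rfl | rfl | rfl | rfl | rfl | rfl | rfl | rfl | rfl | rfl | rfl | rfl | rfl | rfl | rfl | rfl | rfl | rfl | rfl | rfl | rfl | rfl | rfl | rfl
  · exact x243_0
  · exact x243_1
  · exact x243_2
  · exact x243_3
  · exact x243_4
  · exact x243_5
  · exact x243_6
  · exact x243_7
  · exact x243_8
  · exact x243_9
  · exact x243_10
  · exact x243_11
  · exact x243_12
  · exact x243_13
  · exact x243_14
  · exact x243_15
  · exact x243_16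
  · exact x243_17
  · exact x243_18
  · exact x243_19
  · exact x243_20
  · exact x243_21
  · exact x243_22
  · exact x243_23
  · exact x243_24
  · exact x243_25
  · exact x243_26
  · exact x243_27
  · exact x243_28
  · exact x243_29

end Pool.Agent.V5helper47.EV
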