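import Pool.Agent.V5helper47.EV.T7
import Pool.Agent.V5helper47.EV.W206
import Pool.Agent.V5helper47.EV.W207
import Pool.Agent.V5helper47.EV.W208
import Pool.Agent.V5helper47.EV.W209
import Pool.Agent.V5helper47.EV.W210
import Pool.Agent.V5helper47.EV.W211
import Pool.Agent.V5helper47.EV.W212
import Pool.Agent.V5helper47.EV.W213
import Pool.Agent.V5helper47.EV.W214
import Pool.Agent.V5helper47.EV.W215
import Pool.Agent.V5helper47.EV.W216
import Pool.Agent.V5helper47.EV.W217
import Pool.Agent.V5helper47.EV.W218
import Pool.Agent.V5helper47.EV.W219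
import Pool.Agent.V5helper47.EV.W220
import Pool.Agent.V5helper47.EV.W221
import Pool.Agent.V5helper47.EV.W222
import Pool.Agent.V5helper47.EV.W223
import Pool.Agent.V5helper47.EV.W224
import Pool.Agent.V5helper47.EV.W225
import Pool.Agent.V5helper47.EV.W226
import Pool.Agent.V5helper47.EV.W227
import Pool.Agent.V5helper47.EV.W228
import Pool.Agent.V5helper47.EV.W229
import Pool.Agent.V5helper47.EV.W230
import Pool.Agent.V5helper47.EV.W231
import Pool.Agent.V5helper47.EV.W232
import Pool.Agent.V5helper47.EV.W233
import Pool.Agent.V5helper47.EV.W234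
import Pool.Agent.V5helper47.EV.W235
import Pool.Agent.V5helper47.EV.W236
import Pool.Agent.V5helper47.EV.W237
import Pool.Agent.V5helper47.EV.W238
import Pool.Agent.V5helper47.EV.W239
import Pool.Agent.V5helper47.EV.W240
import Pool.Agent.V5helper47.EV.W241
import Pool.Agent.V5helper47.EV.W242
import Pool.Agent.V5helper47.EV.W243

/-! Half words, part of the range. -/

set_option maxRecDepth 1000000

namespace Pool.Agent.V5helper47.EV

open H419R2 Pool.Agent.N911 Pool.Agent.V5helper47.CN

theorem full_6 {w : WL} (hw : w.Pos) (h0 : 8403 ≤ (mat w).1) (hB : (mat w).1 ≤ 10000)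
    (hodd : (mat w).1 % 2 = 1)
    (hval : ∃ b m, b * (mat w).1 + 2 * (mat w).2.1 = m * (mat w).1 + (mat w).2.2.1) :
    ∃ b0 P0, fam w b0 P0 = true := by
  by_cases g0 : (mat w).1 ≤ 8442
  · exact fam_of_range r206 f206 hw (by norm_num) (by norm_num) (by omega) (by omega) hodd hval
  by_cases g1 : (mat w).1 ≤ 8480
  · exact fam_of_range r207 f207 hw (by norm_num) (by norm_num) (by omega) (by omega) hodd hval
  by_cases g2 : (mat w).1 ≤ 8522
  · exact fam_of_range r208 f208 hw (by norm_num) (by norm_num) (by omega) (by omega) hodd hval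
  by_cases g3 : (mat w).1 ≤ 8560
  · exact fam_of_range r209 f209 hw (by norm_num) (by norm_num) (by omega) (by omega) hodd hval
  by_cases g4 : (mat w).1 ≤ 8616
  · exact fam_of_range r210 f210 hw (by norm_num) (by norm_num) (by omega) (by omega) hodd hval
  by_cases g5 : (mat w).1 ≤ 8650
  · exact fam_of_range r211 f211 hw (by norm_num) (by norm_num) (by omega) (by omega) hodd hval
  by_cases g6 : (mat w).1 ≤ 8688
  · exact fam_of_range r212 f212 hw (by norm_num) (by norm_num) (by omega) (by omega) hodd hval
  by_cases g7 : (mat w).1 ≤ 8730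
  · exact fam_of_range r213 f213 hw (by norm_num) (by norm_num) (by omega) (by omega) hodd hval
  by_cases g8 : (mat w).1 ≤ 8782
  · exact fam_of_range r214 f214 hw (by norm_num) (by norm_num) (by omega) (by omega) hodd hval
  by_cases g9 : (mat w).1 ≤ 8832
  · exact fam_of_range r215 f215 hw (by norm_num) (by norm_num) (by omega) (by omega) hodd hval
  by_cases g10 : (mat w).1 ≤ 8880
  · exact fam_of_range r216 f216 hw (by norm_num) (by norm_num) (by omega) (by omega) hodd hval
  by_cases g11 : (mat w).1 ≤ 8912
  · exact fam_of_range r217 f217 hw (by norm_num) (by norm_num) (by omega) (by omega) hodd hval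
  by_cases g12 : (mat w).1 ≤ 8958
  · exact fam_of_range r218 f218 hw (by norm_num) (by norm_num) (by omega) (by omega) hodd hval
  by_cases g13 : (mat w).1 ≤ 8986
  · exact fam_of_range r219 f219 hw (by norm_num) (by norm_num) (by omega) (by omega) hodd hval
  by_cases g14 : (mat w).1 ≤ 9022
  · exact fam_of_range r220 f220 hw (by norm_num) (by norm_num) (by omega) (by omega) hodd hval
  by_cases g15 : (mat w).1 ≤ 9058
  · exact fam_of_range r221 f221 hw (by norm_num) (by norm_num) (by omega) (by omega) hodd hval
  by_cases g16 : (mat w).1 ≤ 9102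
  · exact fam_of_range r222 f222 hw (by norm_num) (by norm_num) (by omega) (by omega) hodd hval
  by_cases g17 : (mat w).1 ≤ 9146
  · exact fam_of_range r223 f223 hw (by norm_num) (by norm_num) (by omega) (by omega) hodd hval
  by_cases g18 : (mat w).1 ≤ 9200
  · exact fam_of_range r224 f224 hw (by norm_num) (by norm_num) (by omega) (by omega) hodd hval
  by_cases g19 : (mat w).1 ≤ 9248
  · exact fam_of_range r225 f225 hw (by norm_num) (by norm_num) (by omega) (by omega) hodd hval
  by_cases g20 : (mat w).1 ≤ 9288
  · exact fam_of_range r226 f226 hw (by norm_num) (by norm_num) (by omega) (by omega) hodd hval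
  by_cases g21 : (mat w).1 ≤ 9318
  · exact fam_of_range r227 f227 hw (by norm_num) (by norm_num) (by omega) (by omega) hodd hval
  by_cases g22 : (mat w).1 ≤ 9362
  · exact fam_of_range r228 f228 hw (by norm_num) (by norm_num) (by omega) (by omega) hodd hval
  by_cases g23 : (mat w).1 ≤ 9406
  · exact fam_of_range r229 f229 hw (by norm_num) (by norm_num) (by omega) (by omega) hodd hval
  by_cases g24 : (mat w).1 ≤ 9432
  · exact fam_of_range r230 f230 hw (by norm_num) (by norm_num) (by omega) (by omega) hodd hval
  by_cases g25 : (mat w).1 ≤ 9478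
  · exact fam_of_range r231 f231 hw (by norm_num) (by norm_num) (by omega) (by omega) hodd hval
  by_cases g26 : (mat w).1 ≤ 9526
  · exact fam_of_range r232 f232 hw (by norm_num) (by norm_num) (by omega) (by omega) hodd hval
  by_cases g27 : (mat w).1 ≤ 9560
  · exact fam_of_range r233 f233 hw (by norm_num) (by norm_num) (by omega) (by omega) hodd hval
  by_cases g28 : (mat w).1 ≤ 9608
  · exact fam_of_range r234 f234 hw (by norm_num) (by norm_num) (by omega) (by omega) hodd hval
  by_cases g29 : (mat w).1 ≤ 9650
  · exact fam_of_range r235 f235 hw (by norm_num) (by norm_num) (by omega) (by omega) hodd hval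
  by_cases g30 : (mat w).1 ≤ 9706
  · exact fam_of_range r236 f236 hw (by norm_num) (by norm_num) (by omega) (by omega) hodd hval
  by_cases g31 : (mat w).1 ≤ 9752
  · exact fam_of_range r237 f237 hw (by norm_num) (by norm_num) (by omega) (by omega) hodd hval
  by_cases g32 : (mat w).1 ≤ 9798
  · exact fam_of_range r238 f238 hw (by norm_num) (by norm_num) (by omega) (by omega) hodd hval
  by_cases g33 : (mat w).1 ≤ 9832
  · exact fam_of_range r239 f239 hw (by norm_num) (by norm_num) (by omega) (by omega) hodd hval
  by_cases g34 : (mat w).1 ≤ 9872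
  · exact fam_of_range r240 f240 hw (by norm_num) (by norm_num) (by omega) (by omega) hodd hval
  by_cases g35 : (mat w).1 ≤ 9920
  · exact fam_of_range r241 f241 hw (by norm_num) (by norm_num) (by omega) (by omega) hodd hval
  by_cases g36 : (mat w).1 ≤ 9962
  · exact fam_of_range r242 f242 hw (by norm_num) (by norm_num) (by omega) (by omega) hodd hval
  exact fam_of_range r243 f243 hw (by norm_num) (by norm_num) (by omega) (by omega) hodd hval

end Pool.Agent.V5helper47.EV
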