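import Pool.Agent.V5helper47.EV.F1
import Pool.Agent.V5helper47.EV.F2
import Pool.Agent.V5helper47.EV.F3
import Pool.Agent.V5helper47.EV.F4
import Pool.Agent.V5helper47.EV.F5
import Pool.Agent.V5helper47.EV.F6

/-! All half words with first entry at most `10000`. -/

set_option maxRecDepth 1000000

namespace Pool.Agent.V5helper47.EV

open H419R2 Pool.Agent.N911 Pool.Agent.V5helper47.CN

theorem x_nil : fam WL.nil 1 2 = true := by decide +kernel
theorem x_one : fam (.cons 1 .nil) 1 3 = true := by decide +kernel

theorem full : Full 10000 := by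
  intro w hw hB hodd hval
  by_cases h1 : (mat w).1 = 1
  · rcases V_one hw h1 with rfl | rfl
    · exact ⟨_, _, x_nil⟩
    · exact ⟨_, _, x_one⟩
  by_cases h2 : (mat w).1 ≤ 1690
  · exact full_1 hw (by omega) (by omega) hodd hval
  by_cases h3 : (mat w).1 ≤ 3390
  · exact full_2 hw (by omega) (by omega) hodd hval
  by_cases h4 : (mat w).1 ≤ 5058
  · exact full_3 hw (by omega) (by omega) hodd hval
  by_cases h5 : (mat w).1 ≤ 6776
  · exact full_4 hw (by omega) (by omega) hodd hval
  by_cases h6 : (mat w).1 ≤ 8402
  · exact full_5 hw (by omega) (by omega) hodd hval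
  exact full_6 hw (by omega) (by omega) hodd hval

end Pool.Agent.V5helper47.EV
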