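import Pool.Agent.V5helper47.EV.S2

/-! Search, part of the half words. -/

set_option maxRecDepth 1000000

namespace Pool.Agent.V5helper47.EV

open H419R2 Pool.Agent.N911 Pool.Agent.V5helper47.CN

theorem x001_0 : fam (wl [1,2]) 1 2 = true := by decide +kernel
theorem x001_1 : fam (wl [2,1]) 3 3 = true := by decide +kernel
theorem x001_2 : fam (wl [1,1,3]) 5 6 = true := by decide +kernel
theorem x001_3 : fam (wl [2,2,1]) 7 7 = true := by decide +kernel
theorem x001_4 : fam (wl [2,4]) 2 2 = true := by decide +kernel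
theorem x001_5 : fam (wl [1,1,3,1]) 5 7 = true := by decide +kernel
theorem x001_6 : fam (wl [1,2,1,2]) 1 2 = true := by decide +kernel
theorem x001_7 : fam (wl [3,1,1,1]) 8 5 = true := by decide +kernel
theorem x001_8 : fam (wl [2,1,5]) 14 10 = true := by decide +kernel
theorem x001_9 : fam (wl [1,1,1,4,1]) 1 3 = true := by decide +kernel
theorem x001_10 : fam (wl [1,1,2,3]) 15 18 = true := by decide +kernel
theorem x001_11 : fam (wl [2,2,2,1]) 17 15 = true := by decide +kernel
theorem x001_12 : fam (wl [3,6]) 3 2 = true := by decide +kernel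
theorem x001_13 : fam (wl [1,2,5,1]) 14 21 = true := by decide +kernel
theorem x001_14 : fam (wl [1,3,1,1,2]) 6 10 = true := by decide +kernel
theorem x001_15 : fam (wl [4,1,1,1,1]) 15 7 = true := by decide +kernel
theorem x001_16 : fam (wl [1,4,2,2]) 18 30 = true := by decide +kernel
theorem x001_17 : fam (wl [5,2,1,1]) 7 3 = true := by decide +kernel
theorem x001_18 : fam (wl [3,1,7]) 27 14 = true := by decide +kernel
theorem x001_19 : fam (wl [1,2,1,6,1]) 2 5 = true := by decide +kernel
theorem x001_20 : fam (wl [4,8]) 4 2 = true := by decide +kernel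
theorem x001_21 : fam (wl [2,2,1,4]) 21 18 = true := by decide +kernel
theorem x001_22 : fam (wl [1,1,2,1,3,1]) 10 13 = true := by decide +kernel
theorem x001_23 : fam (wl [1,3,7,1]) 27 43 = true := by decide +kernel
theorem x001_24 : fam (wl [1,1,2,2,3]) 39 46 = true := by decide +kernel
theorem x001_25 : fam (wl [2,2,2,2,1]) 41 35 = true := by decide +kernel
theorem x001_26 : fam (wl [1,2,1,2,1,2]) 1 2 = true := by decide +kernel
theorem x001_27 : fam (wl [3,1,2,1,1,1]) 38 21 = true := by decide +kernel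
theorem x001_28 : fam (wl [2,1,2,5]) 24 18 = true := by decide +kernel
theorem x001_29 : fam (wl [1,1,1,2,4,1]) 17 23 = true := by decide +kernel
/-- words with first entry from 3 to 45 -/
def L001 : List (List ℕ × ℕ × ℕ) := [([1,2],1,2), ([2,1],3,3), ([1,1,3],5,6), ([2,2,1],7,7), ([2,4],2,2), ([1,1,3,1],5,7), ([1,2,1,2],1,2), ([3,1,1,1],8,5), ([2,1,5],14,10), ([1,1,1,4,1],1,3), ([1,1,2,3],15,18), ([2,2,2,1],17,15), ([3,6],3,2), ([1,2,5,1],14,21), ([1,3,1,1,2],6,10), ([4,1,1,1,1],15,7), ([1,4,2,2],18,30), ([5,2,1,1],7,3), ([3,1,7],27,14), ([1,2,1,6,1],2,5), ([4,8],4,2), ([2,2,1,4],21,18), ([1,1,2,1,3,1],10,13), ([1,3,7,1],27,43), ([1,1,2,2,3],39,46), ([2,2,2,2,1],41,35), ([1,2,1,2,1,2],1,2), ([3,1,2,1,1,1],38,21), ([2,1,2,5],24,18), ([1,1,1,2,4,1],17,23)]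
theorem r001 : rgV L001 3 22 = true := by decide +kernel
theorem f001 : ∀ p ∈ L001, fam (wl p.1) p.2.1 p.2.2 = true := by
  intro p hp
  simp only [L001, List.mem_cons, List.not_mem_nil, or_false] at hp
  rcases hp with rfl | rfl | rfl | rfl | rfl | rfl | rfl | rfl | rfl | rfl | rfl | rfl | rfl | rfl | rfl | rfl | rfl | rfl | rfl | rfl | rfl | rfl | rfl | rfl | rfl | rfl | rfl | rfl | rfl | rfl
  · exact x001_0
  · exact x001_1
  · exact x001_2
  · exact x001_3
  · exact x001_4
  · exact x001_5
  · exact x001_6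
  · exact x001_7
  · exact x001_8
  · exact x001_9
  · exact x001_10
  · exact x001_11
  · exact x001_12
  · exact x001_13
  · exact x001_14
  · exact x001_15
  · exact x001_16
  · exact x001_17
  · exact x001_18
  · exact x001_19
  · exact x001_20
  · exact x001_21
  · exact x001_22
  · exact x001_23
  · exact x001_24
  · exact x001_25
  · exact x001_26
  · exact x001_27
  · exact x001_28
  · exact x001_29

end Pool.Agent.V5helper47.EV
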