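import Pool.Agent.V5helper47.EV.S2

/-! Search, part of the half words. -/

set_option maxRecDepth 1000000

namespace Pool.Agent.V5helper47.EV

open H419R2 Pool.Agent.N911 Pool.Agent.V5helper47.CN

theorem x002_0 : fam (wl [1,5,1,2,2]) 36 62 = true := by decide +kernel
theorem x002_1 : fam (wl [6,1,2,1,1]) 9 3 = true := by decide +kernel
theorem x002_2 : fam (wl [4,1,9]) 44 18 = true := by decide +kernel
theorem x002_3 : fam (wl [1,3,1,8,1]) 3 7 = true := by decide +kernel
theorem x002_4 : fam (wl [5,10]) 5 2 = true := by decide +kernel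
theorem x002_5 : fam (wl [1,6,3,2]) 10 18 = true := by decide +kernel
theorem x002_6 : fam (wl [7,3,1,1]) 39 11 = true := by decide +kernel
theorem x002_7 : fam (wl [1,4,9,1]) 44 73 = true := by decide +kernel
theorem x002_8 : fam (wl [1,1,3,1,1,3]) 30 34 = true := by decide +kernel
theorem x002_9 : fam (wl [1,3,2,1,1,2]) 32 50 = true := by decide +kernel
theorem x002_10 : fam (wl [4,2,1,1,1,1]) 23 11 = true := by decide +kernel
theorem x002_11 : fam (wl [2,3,1,1,2,1]) 25 23 = true := by decide +kernel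
theorem x002_12 : fam (wl [1,1,1,1,3,3]) 21 26 = true := by decide +kernel
theorem x002_13 : fam (wl [2,1,1,3,2,1]) 36 29 = true := by decide +kernel
theorem x002_14 : fam (wl [3,2,1,6]) 30 18 = true := by decide +kernel
theorem x002_15 : fam (wl [1,2,2,1,5,1]) 35 51 = true := by decide +kernel
theorem x002_16 : fam (wl [5,1,11]) 65 22 = true := by decide +kernel
theorem x002_17 : fam (wl [1,4,1,10,1]) 4 9 = true := by decide +kernel
theorem x002_18 : fam (wl [2,3,1,1,4]) 34 30 = true := by decide +kernel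
theorem x002_19 : fam (wl [1,1,3,1,1,3,1]) 37 43 = true := by decide +kernel
theorem x002_20 : fam (wl [6,12]) 6 2 = true := by decide +kernel
theorem x002_21 : fam (wl [1,5,11,1]) 65 111 = true := by decide +kernel
theorem x002_22 : fam (wl [1,7,1,3,2]) 21 38 = true := by decide +kernel
theorem x002_23 : fam (wl [8,1,3,1,1]) 56 13 = true := by decide +kernel
theorem x002_24 : fam (wl [3,1,2,7]) 33 18 = true := by decide +kernel
theorem x002_25 : fam (wl [1,2,1,2,6,1]) 46 69 = true := by decide +kernel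
theorem x002_26 : fam (wl [1,8,4,2]) 59 106 = true := by decide +kernel
theorem x002_27 : fam (wl [9,4,1,1]) 22 5 = true := by decide +kernel
/-- words with first entry from 47 to 87 -/
def L002 : List (List ℕ × ℕ × ℕ) := [([1,5,1,2,2],36,62), ([6,1,2,1,1],9,3), ([4,1,9],44,18), ([1,3,1,8,1],3,7), ([5,10],5,2), ([1,6,3,2],10,18), ([7,3,1,1],39,11), ([1,4,9,1],44,73), ([1,1,3,1,1,3],30,34), ([1,3,2,1,1,2],32,50), ([4,2,1,1,1,1],23,11), ([2,3,1,1,2,1],25,23), ([1,1,1,1,3,3],21,26), ([2,1,1,3,2,1],36,29), ([3,2,1,6],30,18), ([1,2,2,1,5,1],35,51), ([5,1,11],65,22), ([1,4,1,10,1],4,9), ([2,3,1,1,4],34,30), ([1,1,3,1,1,3,1],37,43), ([6,12],6,2), ([1,5,11,1],65,111), ([1,7,1,3,2],21,38), ([8,1,3,1,1],56,13), ([3,1,2,7],33,18), ([1,2,1,2,6,1],46,69), ([1,8,4,2],59,106), ([9,4,1,1],22,5)]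
theorem r002 : rgV L002 47 21 = true := by decide +kernel
theorem f002 : ∀ p ∈ L002, fam (wl p.1) p.2.1 p.2.2 = true := by
  intro p hp
  simp only [L002, List.mem_cons, List.not_mem_nil, or_false] at hp
  rcases hp with rfl | rfl | rfl | rfl | rfl | rfl | rfl | rfl | rfl | rfl | rfl | rfl | rfl | rfl | rfl | rfl | rfl | rfl | rfl | rfl | rfl | rfl | rfl | rfl | rfl | rfl | rfl | rfl
  · exact x002_0
  · exact x002_1
  · exact x002_2
  · exact x002_3
  · exact x002_4
  · exact x002_5
  · exact x002_6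
  · exact x002_7
  · exact x002_8
  · exact x002_9
  · exact x002_10
  · exact x002_11
  · exact x002_12
  · exact x002_13
  · exact x002_14
  · exact x002_15
  · exact x002_16
  · exact x002_17
  · exact x002_18
  · exact x002_19
  · exact x002_20
  · exact x002_21
  · exact x002_22
  · exact x002_23
  · exact x002_24
  · exact x002_25
  · exact x002_26
  · exact x002_27

end Pool.Agent.V5helper47.EV
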