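import Pool.Agent.V5helper47.EV.S2

/-! Search, part of the half words. -/

set_option maxRecDepth 1000000

namespace Pool.Agent.V5helper47.EV

open H419R2 Pool.Agent.N911 Pool.Agent.V5helper47.CN

theorem x003_0 : fam (wl [1,2,1,1,3,1,2]) 65 94 = true := by decide +kernel
theorem x003_1 : fam (wl [3,1,1,3,1,1,1]) 22 13 = true := by decide +kernel
theorem x003_2 : fam (wl [2,4,2,4]) 2 2 = true := by decide +kernel
theorem x003_3 : fam (wl [1,1,4,2,3,1]) 85 95 = true := by decide +kernel
theorem x003_4 : fam (wl [6,1,13]) 90 26 = true := by decide +kernel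
theorem x003_5 : fam (wl [1,5,1,12,1]) 5 11 = true := by decide +kernel
theorem x003_6 : fam (wl [1,4,1,2,2,2]) 59 98 = true := by decide +kernel
theorem x003_7 : fam (wl [5,1,2,2,1,1]) 36 13 = true := by decide +kernel
theorem x003_8 : fam (wl [7,14]) 7 2 = true := by decide +kernel
theorem x003_9 : fam (wl [1,1,2,2,2,3]) 97 114 = true := by decide +kernel
theorem x003_10 : fam (wl [2,2,2,2,2,1]) 99 83 = true := by decide +kernel
theorem x003_11 : fam (wl [1,6,13,1]) 90 157 = true := by decide +kernel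
theorem x003_12 : fam (wl [2,1,2,2,5]) 73 54 = true := by decide +kernel
theorem x003_13 : fam (wl [1,1,1,2,2,4,1]) 28 37 = true := by decide +kernel
theorem x003_14 : fam (wl [1,2,2,4,1,2]) 63 90 = true := by decide +kernel
theorem x003_15 : fam (wl [3,2,4,1,1,1]) 42 25 = true := by decide +kernel
theorem x003_16 : fam (wl [1,1,4,1,1,1,3]) 38 42 = true := by decide +kernel
theorem x003_17 : fam (wl [2,4,1,1,1,2,1]) 73 67 = true := by decide +kernel
theorem x003_18 : fam (wl [4,2,1,8]) 39 18 = true := by decide +kernel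
theorem x003_19 : fam (wl [1,3,2,1,7,1]) 72 113 = true := by decide +kernel
theorem x003_20 : fam (wl [1,1,1,1,1,4,3]) 101 126 = true := by decide +kernel
theorem x003_21 : fam (wl [1,9,1,4,2]) 91 166 = true := by decide +kernel
theorem x003_22 : fam (wl [10,1,4,1,1]) 26 5 = true := by decide +kernel
theorem x003_23 : fam (wl [2,1,1,1,4,2,1]) 16 13 = true := by decide +kernel
theorem x003_24 : fam (wl [1,5,2,1,2,2]) 15 26 = true := by decide +kernel
theorem x003_25 : fam (wl [6,2,1,2,1,1]) 104 33 = true := by decide +kernel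
theorem x003_26 : fam (wl [2,2,1,2,1,4]) 40 34 = true := by decide +kernel
theorem x003_27 : fam (wl [1,10,5,2]) 27 50 = true := by decide +kernel
theorem x003_28 : fam (wl [11,5,1,1]) 94 17 = true := by decide +kernel
theorem x003_29 : fam (wl [1,1,2,1,2,1,3,1]) 81 95 = true := by decide +kernel
/-- words with first entry from 89 to 125 -/
def L003 : List (List ℕ × ℕ × ℕ) := [([1,2,1,1,3,1,2],65,94), ([3,1,1,3,1,1,1],22,13), ([2,4,2,4],2,2), ([1,1,4,2,3,1],85,95), ([6,1,13],90,26), ([1,5,1,12,1],5,11), ([1,4,1,2,2,2],59,98), ([5,1,2,2,1,1],36,13), ([7,14],7,2), ([1,1,2,2,2,3],97,114), ([2,2,2,2,2,1],99,83), ([1,6,13,1],90,157), ([2,1,2,2,5],73,54), ([1,1,1,2,2,4,1],28,37), ([1,2,2,4,1,2],63,90), ([3,2,4,1,1,1],42,25), ([1,1,4,1,1,1,3],38,42), ([2,4,1,1,1,2,1],73,67), ([4,2,1,8],39,18), ([1,3,2,1,7,1],72,113), ([1,1,1,1,1,4,3],101,126), ([1,9,1,4,2],91,166), ([10,1,4,1,1],26,5), ([2,1,1,1,4,2,1],16,13), ([1,5,2,1,2,2],15,26), ([6,2,1,2,1,1],104,33), ([2,2,1,2,1,4],40,34), ([1,10,5,2],27,50),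 ([11,5,1,1],94,17), ([1,1,2,1,2,1,3,1],81,95)]
theorem r003 : rgV L003 89 19 = true := by decide +kernel
theorem f003 : ∀ p ∈ L003, fam (wl p.1) p.2.1 p.2.2 = true := by
  intro p hp
  simp only [L003, List.mem_cons, List.not_mem_nil, or_false] at hp
  rcases hp with rfl | rfl | rfl | rfl | rfl | rfl | rfl | rfl | rfl | rfl | rfl | rfl | rfl | rfl | rfl | rfl | rfl | rfl | rfl | rfl | rfl | rfl | rfl | rfl | rfl | rfl | rfl | rfl | rfl | rfl
  · exact x003_0
  · exact x003_1
  · exact x003_2
  · exact x003_3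
  · exact x003_4
  · exact x003_5
  · exact x003_6
  · exact x003_7
  · exact x003_8
  · exact x003_9
  · exact x003_10
  · exact x003_11
  · exact x003_12
  · exact x003_13
  · exact x003_14
  · exact x003_15
  · exact x003_16
  · exact x003_17
  · exact x003_18
  · exact x003_19
  · exact x003_20
  · exact x003_21
  · exact x003_22
  · exact x003_23
  · exact x003_24
  · exact x003_25
  · exact x003_26
  · exact x003_27
  · exact x003_28
  · exact x003_29

end Pool.Agent.V5helper47.EV
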