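import Pool.Agent.V5helper47.EV.S2

/-! Search, part of the half words. -/

set_option maxRecDepth 1000000

namespace Pool.Agent.V5helper47.EV

open H419R2 Pool.Agent.N911 Pool.Agent.V5helper47.CN

theorem x004_0 : fam (wl [7,1,15]) 119 30 = true := by decide +kernel
theorem x004_1 : fam (wl [1,6,1,14,1]) 6 13 = true := by decide +kernel
theorem x004_2 : fam (wl [8,16]) 8 2 = true := by decide +kernel
theorem x004_3 : fam (wl [1,1,5,2,1,3]) 20 22 = true := by decide +kernel
theorem x004_4 : fam (wl [2,5,2,1,2,1]) 107 99 = true := by decide +kernel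
theorem x004_5 : fam (wl [1,7,15,1]) 119 211 = true := by decide +kernel
theorem x004_6 : fam (wl [4,1,2,9]) 42 18 = true := by decide +kernel
theorem x004_7 : fam (wl [1,3,1,2,8,1]) 87 139 = true := by decide +kernel
theorem x004_8 : fam (wl [1,3,2,2,1,1,2]) 19 30 = true := by decide +kernel
theorem x004_9 : fam (wl [4,2,2,1,1,1,1]) 116 53 = true := by decide +kernel
theorem x004_10 : fam (wl [1,1,1,2,5,3]) 65 82 = true := by decide +kernel
theorem x004_11 : fam (wl [2,1,2,5,2,1]) 70 53 = true := by decide +kernel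
theorem x004_12 : fam (wl [2,1,3,1,1,5]) 86 62 = true := by decide +kernel
theorem x004_13 : fam (wl [1,1,1,3,1,1,4,1]) 51 67 = true := by decide +kernel
theorem x004_14 : fam (wl [3,3,1,1,6]) 141 86 = true := by decide +kernel
theorem x004_15 : fam (wl [1,2,3,1,1,5,1]) 8 13 = true := by decide +kernel
theorem x004_16 : fam (wl [2,1,1,1,3,5]) 13 10 = true := by decide +kernel
theorem x004_17 : fam (wl [1,2,1,2,1,2,1,2]) 1 2 = true := by decide +kernel
theorem x004_18 : fam (wl [3,1,2,1,2,1,1,1]) 150 81 = true := by decide +kernel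
theorem x004_19 : fam (wl [1,1,1,1,1,3,4,1]) 138 173 = true := by decide +kernel
theorem x004_20 : fam (wl [8,1,17]) 152 34 = true := by decide +kernel
theorem x004_21 : fam (wl [2,5,1,2,4]) 15 14 = true := by decide +kernel
theorem x004_22 : fam (wl [1,1,5,1,2,3,1]) 144 157 = true := by decide +kernel
theorem x004_23 : fam (wl [1,7,1,16,1]) 7 15 = true := by decide +kernel
theorem x004_24 : fam (wl [9,18]) 9 2 = true := by decide +kernel
theorem x004_25 : fam (wl [1,8,17,1]) 152 273 = true := by decide +kernel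
theorem x004_26 : fam (wl [1,11,1,5,2]) 44 82 = true := by decide +kernel
theorem x004_27 : fam (wl [12,1,5,1,1]) 121 19 = true := by decide +kernel
/-- words with first entry from 127 to 169 -/
def L004 : List (List ℕ × ℕ × ℕ) := [([7,1,15],119,30), ([1,6,1,14,1],6,13), ([8,16],8,2), ([1,1,5,2,1,3],20,22), ([2,5,2,1,2,1],107,99), ([1,7,15,1],119,211), ([4,1,2,9],42,18), ([1,3,1,2,8,1],87,139), ([1,3,2,2,1,1,2],19,30), ([4,2,2,1,1,1,1],116,53), ([1,1,1,2,5,3],65,82), ([2,1,2,5,2,1],70,53), ([2,1,3,1,1,5],86,62), ([1,1,1,3,1,1,4,1],51,67), ([3,3,1,1,6],141,86), ([1,2,3,1,1,5,1],8,13), ([2,1,1,1,3,5],13,10), ([1,2,1,2,1,2,1,2],1,2), ([3,1,2,1,2,1,1,1],150,81), ([1,1,1,1,1,3,4,1],138,173), ([8,1,17],152,34), ([2,5,1,2,4],15,14), ([1,1,5,1,2,3,1],144,157), ([1,7,1,16,1],7,15), ([9,18],9,2), ([1,8,17,1],152,273), ([1,11,1,5,2],44,82), ([12,1,5,1,1],121,19)]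
theorem r004 : rgV L004 127 22 = true := by decide +kernel
theorem f004 : ∀ p ∈ L004, fam (wl p.1) p.2.1 p.2.2 = true := by
  intro p hp
  simp only [L004, List.mem_cons, List.not_mem_nil, or_false] at hp
  rcases hp with rfl | rfl | rfl | rfl | rfl | rfl | rfl | rfl | rfl | rfl | rfl | rfl | rfl | rfl | rfl | rfl | rfl | rfl | rfl | rfl | rfl | rfl | rfl | rfl | rfl | rfl | rfl | rfl
  · exact x004_0
  · exact x004_1
  · exact x004_2
  · exact x004_3
  · exact x004_4
  · exact x004_5
  · exact x004_6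
  · exact x004_7
  · exact x004_8
  · exact x004_9
  · exact x004_10
  · exact x004_11
  · exact x004_12
  · exact x004_13
  · exact x004_14
  · exact x004_15
  · exact x004_16
  · exact x004_17
  · exact x004_18
  · exact x004_19
  · exact x004_20
  · exact x004_21
  · exact x004_22
  · exact x004_23
  · exact x004_24
  · exact x004_25
  · exact x004_26
  · exact x004_27

end Pool.Agent.V5helper47.EV
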