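import Pool.Agent.V5helper47.EV.S2

/-! Search, part of the half words. -/

set_option maxRecDepth 1000000

namespace Pool.Agent.V5helper47.EV

open H419R2 Pool.Agent.N911 Pool.Agent.V5helper47.CN

theorem x005_0 : fam (wl [5,2,1,10]) 48 18 = true := by decide +kernel
theorem x005_1 : fam (wl [1,12,6,2]) 124 230 = true := by decide +kernel
theorem x005_2 : fam (wl [13,6,1,1]) 45 7 = true := by decide +kernel
theorem x005_3 : fam (wl [1,4,2,1,9,1]) 121 199 = true := by decide +kernel
theorem x005_4 : fam (wl [2,6,3,4]) 71 66 = true := by decide +kernel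
theorem x005_5 : fam (wl [1,6,1,2,3,2]) 26 46 = true := by decide +kernel
theorem x005_6 : fam (wl [7,1,2,3,1,1]) 149 39 = true := by decide +kernel
theorem x005_7 : fam (wl [1,1,6,3,3,1]) 104 113 = true := by decide +kernel
theorem x005_8 : fam (wl [2,3,2,1,1,4]) 126 110 = true := by decide +kernel
theorem x005_9 : fam (wl [1,1,3,2,1,1,3,1]) 51 59 = true := by decide +kernel
theorem x005_10 : fam (wl [3,4,2,6]) 74 46 = true := by decide +kernel
theorem x005_11 : fam (wl [1,3,1,1,3,1,1,2]) 47 74 = true := by decide +kernel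
theorem x005_12 : fam (wl [4,1,1,3,1,1,1,1]) 138 61 = true := by decide +kernel
theorem x005_13 : fam (wl [1,2,4,2,5,1]) 111 155 = true := by decide +kernel
theorem x005_14 : fam (wl [1,2,2,1,5,1,2]) 98 138 = true := by decide +kernel
theorem x005_15 : fam (wl [3,2,1,5,1,1,1]) 91 55 = true := by decide +kernel
theorem x005_16 : fam (wl [3,1,2,2,7]) 11 6 = true := by decide +kernel
theorem x005_17 : fam (wl [1,2,1,2,2,6,1]) 180 265 = true := by decide +kernel
theorem x005_18 : fam (wl [5,1,2,11]) 51 18 = true := by decide +kernel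
theorem x005_19 : fam (wl [1,4,1,2,10,1]) 140 233 = true := by decide +kernel
theorem x005_20 : fam (wl [9,1,19]) 189 38 = true := by decide +kernel
theorem x005_21 : fam (wl [1,8,1,18,1]) 8 17 = true := by decide +kernel
theorem x005_22 : fam (wl [10,20]) 10 2 = true := by decide +kernel
theorem x005_23 : fam (wl [1,3,3,1,1,1,1,2]) 121 186 = true := by decide +kernel
theorem x005_24 : fam (wl [4,3,1,1,1,1,1,1]) 78 37 = true := by decide +kernel
theorem x005_25 : fam (wl [1,9,19,1]) 189 343 = true := by decide +kernel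
theorem x005_26 : fam (wl [1,2,3,6,1,2]) 170 238 = true := by decide +kernel
theorem x005_27 : fam (wl [1,7,2,1,3,2]) 137 242 = true := by decide +kernel
theorem x005_28 : fam (wl [8,2,1,3,1,1]) 70 17 = true := by decide +kernel
theorem x005_29 : fam (wl [3,3,6,1,1,1]) 37 23 = true := by decide +kernel
/-- words with first entry from 171 to 209 -/
def L005 : List (List ℕ × ℕ × ℕ) := [([5,2,1,10],48,18), ([1,12,6,2],124,230), ([13,6,1,1],45,7), ([1,4,2,1,9,1],121,199), ([2,6,3,4],71,66), ([1,6,1,2,3,2],26,46), ([7,1,2,3,1,1],149,39), ([1,1,6,3,3,1],104,113), ([2,3,2,1,1,4],126,110), ([1,1,3,2,1,1,3,1],51,59), ([3,4,2,6],74,46), ([1,3,1,1,3,1,1,2],47,74), ([4,1,1,3,1,1,1,1],138,61), ([1,2,4,2,5,1],111,155), ([1,2,2,1,5,1,2],98,138), ([3,2,1,5,1,1,1],91,55), ([3,1,2,2,7],11,6), ([1,2,1,2,2,6,1],180,265), ([5,1,2,11],51,18), ([1,4,1,2,10,1],140,233), ([9,1,19],189,38), ([1,8,1,18,1],8,17), ([10,20],10,2), ([1,3,3,1,1,1,1,2],121,186), ([4,3,1,1,1,1,1,1],78,37), ([1,9,19,1],189,343), ([1,2,3,6,1,2],170,238),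 ([1,7,2,1,3,2],137,242), ([8,2,1,3,1,1],70,17), ([3,3,6,1,1,1],37,23)]
theorem r005 : rgV L005 171 20 = true := by decide +kernel
theorem f005 : ∀ p ∈ L005, fam (wl p.1) p.2.1 p.2.2 = true := by
  intro p hp
  simp only [L005, List.mem_cons, List.not_mem_nil, or_false] at hp
  rcases hp with rfl | rfl | rfl | rfl | rfl | rfl | rfl | rfl | rfl | rfl | rfl | rfl | rfl | rfl | rfl | rfl | rfl | rfl | rfl | rfl | rfl | rfl | rfl | rfl | rfl | rfl | rfl | rfl | rfl | rfl
  · exact x005_0
  · exact x005_1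
  · exact x005_2
  · exact x005_3
  · exact x005_4
  · exact x005_5
  · exact x005_6
  · exact x005_7
  · exact x005_8
  · exact x005_9
  · exact x005_10
  · exact x005_11
  · exact x005_12
  · exact x005_13
  · exact x005_14
  · exact x005_15
  · exact x005_16
  · exact x005_17
  · exact x005_18
  · exact x005_19
  · exact x005_20
  · exact x005_21
  · exact x005_22
  · exact x005_23
  · exact x005_24
  · exact x005_25
  · exact x005_26
  · exact x005_27
  · exact x005_28
  · exact x005_29

end Pool.Agent.V5helper47.EV
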