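import Pool.Agent.V5helper47.EV.S2

/-! Search, part of the half words. -/

set_option maxRecDepth 1000000

namespace Pool.Agent.V5helper47.EV

open H419R2 Pool.Agent.N911 Pool.Agent.V5helper47.CN

theorem x006_0 : fam (wl [1,1,3,1,2,1,1,3]) 48 54 = true := by decide +kernel
theorem x006_1 : fam (wl [2,3,1,2,1,1,2,1]) 161 143 = true := by decide +kernel
theorem x006_2 : fam (wl [1,1,6,1,2,1,3]) 155 166 = true := by decide +kernel
theorem x006_3 : fam (wl [1,4,1,1,3,2,2]) 13 22 = true := by decide +kernel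
theorem x006_4 : fam (wl [5,1,1,3,2,1,1]) 202 73 = true := by decide +kernel
theorem x006_5 : fam (wl [2,6,1,2,1,2,1]) 60 57 = true := by decide +kernel
theorem x006_6 : fam (wl [1,1,1,1,2,1,3,3]) 119 146 = true := by decide +kernel
theorem x006_7 : fam (wl [1,2,1,1,2,3,1,2]) 123 178 = true := by decide +kernel
theorem x006_8 : fam (wl [3,1,1,2,3,1,1,1]) 94 53 = true := by decide +kernel
theorem x006_9 : fam (wl [2,1,1,2,1,3,2,1]) 98 77 = true := by decide +kernel
theorem x006_10 : fam (wl [1,13,1,6,2]) 170 318 = true := by decide +kernel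
theorem x006_11 : fam (wl [14,1,6,1,1]) 51 7 = true := by decide +kernel
theorem x006_12 : fam (wl [1,14,7,2]) 52 98 = true := by decide +kernel
theorem x006_13 : fam (wl [15,7,1,1]) 173 23 = true := by decide +kernel
theorem x006_14 : fam (wl [1,1,1,2,1,6,3]) 17 22 = true := by decide +kernel
theorem x006_15 : fam (wl [2,1,2,1,6,2,1]) 214 157 = true := by decide +kernel
theorem x006_16 : fam (wl [1,1,7,3,1,3]) 182 194 = true := by decide +kernel
theorem x006_17 : fam (wl [2,7,3,1,2,1]) 49 47 = true := by decide +kernel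
theorem x006_18 : fam (wl [1,1,2,2,2,2,3]) 237 278 = true := by decide +kernel
theorem x006_19 : fam (wl [2,2,2,2,2,2,1]) 239 199 = true := by decide +kernel
theorem x006_20 : fam (wl [10,1,21]) 230 42 = true := by decide +kernel
theorem x006_21 : fam (wl [1,9,1,20,1]) 9 19 = true := by decide +kernel
theorem x006_22 : fam (wl [6,2,1,12]) 57 18 = true := by decide +kernel
theorem x006_23 : fam (wl [1,5,2,1,11,1]) 182 309 = true := by decide +kernel
theorem x006_24 : fam (wl [11,22]) 11 2 = true := by decide +kernel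
theorem x006_25 : fam (wl [1,10,21,1]) 230 421 = true := by decide +kernel
theorem x006_26 : fam (wl [3,2,1,2,1,6]) 158 94 = true := by decide +kernel
theorem x006_27 : fam (wl [2,1,2,2,2,5]) 35 26 = true := by decide +kernel
theorem x006_28 : fam (wl [1,1,1,2,2,2,4,1]) 212 269 = true := by decide +kernel
theorem x006_29 : fam (wl [1,2,2,1,2,1,5,1]) 89 127 = true := by decide +kernel
/-- words with first entry from 211 to 249 -/
def L006 : List (List ℕ × ℕ × ℕ) := [([1,1,3,1,2,1,1,3],48,54), ([2,3,1,2,1,1,2,1],161,143), ([1,1,6,1,2,1,3],155,166), ([1,4,1,1,3,2,2],13,22), ([5,1,1,3,2,1,1],202,73), ([2,6,1,2,1,2,1],60,57), ([1,1,1,1,2,1,3,3],119,146), ([1,2,1,1,2,3,1,2],123,178), ([3,1,1,2,3,1,1,1],94,53), ([2,1,1,2,1,3,2,1],98,77), ([1,13,1,6,2],170,318), ([14,1,6,1,1],51,7), ([1,14,7,2],52,98), ([15,7,1,1],173,23), ([1,1,1,2,1,6,3],17,22), ([2,1,2,1,6,2,1],214,157), ([1,1,7,3,1,3],182,194), ([2,7,3,1,2,1],49,47), ([1,1,2,2,2,2,3],237,278), ([2,2,2,2,2,2,1],239,199), ([10,1,21],230,42),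 ([1,9,1,20,1],9,19), ([6,2,1,12],57,18), ([1,5,2,1,11,1],182,309), ([11,22],11,2), ([1,10,21,1],230,421), ([3,2,1,2,1,6],158,94), ([2,1,2,2,2,5],35,26), ([1,1,1,2,2,2,4,1],212,269), ([1,2,2,1,2,1,5,1],89,127)]
theorem r006 : rgV L006 211 20 = true := by decide +kernel
theorem f006 : ∀ p ∈ L006, fam (wl p.1) p.2.1 p.2.2 = true := by
  intro p hp
  simp only [L006, List.mem_cons, List.not_mem_nil, or_false] at hp
  rcases hp with rfl | rfl | rfl | rfl | rfl | rfl | rfl | rfl | rfl | rfl | rfl | rfl | rfl | rfl | rfl | rfl | rfl | rfl | rfl | rfl | rfl | rfl | rfl | rfl | rfl | rfl | rfl | rfl | rfl | rfl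
  · exact x006_0
  · exact x006_1
  · exact x006_2
  · exact x006_3
  · exact x006_4
  · exact x006_5
  · exact x006_6
  · exact x006_7
  · exact x006_8
  · exact x006_9
  · exact x006_10
  · exact x006_11
  · exact x006_12
  · exact x006_13
  · exact x006_14
  · exact x006_15
  · exact x006_16
  · exact x006_17
  · exact x006_18
  · exact x006_19
  · exact x006_20
  · exact x006_21
  · exact x006_22
  · exact x006_23
  · exact x006_24
  · exact x006_25
  · exact x006_26
  · exact x006_27
  · exact x006_28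
  · exact x006_29

end Pool.Agent.V5helper47.EV
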