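import Pool.Agent.V5helper47.EV.S2

/-! Search, part of the half words. -/

set_option maxRecDepth 1000000

namespace Pool.Agent.V5helper47.EV

open H419R2 Pool.Agent.N911 Pool.Agent.V5helper47.CN

theorem x007_0 : fam (wl [1,1,1,3,7,3]) 64 82 = true := by decide +kernel
theorem x007_1 : fam (wl [2,1,3,7,2,1]) 185 135 = true := by decide +kernel
theorem x007_2 : fam (wl [4,3,1,1,8]) 47 22 = true := by decide +kernel
theorem x007_3 : fam (wl [1,3,3,1,1,7,1]) 208 321 = true := by decide +kernel
theorem x007_4 : fam (wl [3,1,3,1,1,7]) 49 26 = true := by decide +kernel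
theorem x007_5 : fam (wl [1,2,1,3,1,1,6,1]) 206 305 = true := by decide +kernel
theorem x007_6 : fam (wl [2,2,1,1,3,1,4]) 50 42 = true := by decide +kernel
theorem x007_7 : fam (wl [1,1,2,1,1,3,1,3,1]) 211 247 = true := by decide +kernel
theorem x007_8 : fam (wl [6,1,2,13]) 60 18 = true := by decide +kernel
theorem x007_9 : fam (wl [1,4,2,4,2,2]) 89 146 = true := by decide +kernel
theorem x007_10 : fam (wl [5,2,4,2,1,1]) 176 65 = true := by decide +kernel
theorem x007_11 : fam (wl [1,5,1,2,12,1]) 205 351 = true := by decide +kernel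
theorem x007_12 : fam (wl [2,1,4,1,1,1,5]) 268 190 = true := by decide +kernel
theorem x007_13 : fam (wl [1,1,1,4,1,1,1,4,1]) 1 3 = true := by decide +kernel
theorem x007_14 : fam (wl [2,7,1,3,4]) 202 190 = true := by decide +kernel
theorem x007_15 : fam (wl [1,1,7,1,3,3,1]) 77 83 = true := by decide +kernel
theorem x007_16 : fam (wl [1,8,1,2,4,2]) 188 338 = true := by decide +kernel
theorem x007_17 : fam (wl [9,1,2,4,1,1]) 91 19 = true := by decide +kernel
theorem x007_18 : fam (wl [1,1,4,2,1,1,1,3]) 241 266 = true := by decide +kernel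
theorem x007_19 : fam (wl [2,4,2,1,1,1,2,1]) 40 37 = true := by decide +kernel
theorem x007_20 : fam (wl [11,1,23]) 275 46 = true := by decide +kernel
theorem x007_21 : fam (wl [1,15,1,7,2]) 75 142 = true := by decide +kernel
theorem x007_22 : fam (wl [16,1,7,1,1]) 210 25 = true := by decide +kernel
theorem x007_23 : fam (wl [1,10,1,22,1]) 10 21 = true := by decide +kernel
theorem x007_24 : fam (wl [1,5,2,2,1,2,2]) 150 254 = true := by decide +kernel
theorem x007_25 : fam (wl [6,2,2,1,2,1,1]) 137 43 = true := by decide +kernel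
theorem x007_26 : fam (wl [12,24]) 12 2 = true := by decide +kernel
theorem x007_27 : fam (wl [1,11,23,1]) 275 507 = true := by decide +kernel
/-- words with first entry from 251 to 289 -/
def L007 : List (List ℕ × ℕ × ℕ) := [([1,1,1,3,7,3],64,82), ([2,1,3,7,2,1],185,135), ([4,3,1,1,8],47,22), ([1,3,3,1,1,7,1],208,321), ([3,1,3,1,1,7],49,26), ([1,2,1,3,1,1,6,1],206,305), ([2,2,1,1,3,1,4],50,42), ([1,1,2,1,1,3,1,3,1],211,247), ([6,1,2,13],60,18), ([1,4,2,4,2,2],89,146), ([5,2,4,2,1,1],176,65), ([1,5,1,2,12,1],205,351), ([2,1,4,1,1,1,5],268,190), ([1,1,1,4,1,1,1,4,1],1,3), ([2,7,1,3,4],202,190), ([1,1,7,1,3,3,1],77,83), ([1,8,1,2,4,2],188,338), ([9,1,2,4,1,1],91,19), ([1,1,4,2,1,1,1,3],241,266), ([2,4,2,1,1,1,2,1],40,37), ([11,1,23],275,46), ([1,15,1,7,2],75,142), ([16,1,7,1,1],210,25), ([1,10,1,22,1],10,21), ([1,5,2,2,1,2,2],150,254), ([6,2,2,1,2,1,1],137,43), ([12,24],12,2), ([1,11,23,1],275,507)]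
theorem r007 : rgV L007 251 20 = true := by decide +kernel
theorem f007 : ∀ p ∈ L007, fam (wl p.1) p.2.1 p.2.2 = true := by
  intro p hp
  simp only [L007, List.mem_cons, List.not_mem_nil, or_false] at hp
  rcases hp with rfl | rfl | rfl | rfl | rfl | rfl | rfl | rfl | rfl | rfl | rfl | rfl | rfl | rfl | rfl | rfl | rfl | rfl | rfl | rfl | rfl | rfl | rfl | rfl | rfl | rfl | rfl | rfl
  · exact x007_0
  · exact x007_1
  · exact x007_2
  · exact x007_3
  · exact x007_4
  · exact x007_5
  · exact x007_6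
  · exact x007_7
  · exact x007_8
  · exact x007_9
  · exact x007_10
  · exact x007_11
  · exact x007_12
  · exact x007_13
  · exact x007_14
  · exact x007_15
  · exact x007_16
  · exact x007_17
  · exact x007_18
  · exact x007_19
  · exact x007_20
  · exact x007_21
  · exact x007_22
  · exact x007_23
  · exact x007_24
  · exact x007_25
  · exact x007_26
  · exact x007_27

end Pool.Agent.V5helper47.EV
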