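import Pool.Agent.V5helper47.EV.S2

/-! Search, part of the half words. -/

set_option maxRecDepth 1000000

namespace Pool.Agent.V5helper47.EV

open H419R2 Pool.Agent.N911 Pool.Agent.V5helper47.CN

theorem x008_0 : fam (wl [3,1,1,1,3,7]) 149 82 = true := by decide +kernel
theorem x008_1 : fam (wl [1,16,8,2]) 213 402 = true := by decide +kernel
theorem x008_2 : fam (wl [17,8,1,1]) 76 9 = true := by decide +kernel
theorem x008_3 : fam (wl [1,2,1,1,1,3,6,1]) 140 205 = true := by decide +kernel
theorem x008_4 : fam (wl [2,8,4,4]) 231 218 = true := by decide +kernel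
theorem x008_5 : fam (wl [1,1,1,1,1,2,4,3]) 195 242 = true := by decide +kernel
theorem x008_6 : fam (wl [2,1,1,1,2,4,2,1]) 100 77 = true := by decide +kernel
theorem x008_7 : fam (wl [1,1,8,4,3,1]) 64 69 = true := by decide +kernel
theorem x008_8 : fam (wl [2,1,5,2,1,5]) 105 74 = true := by decide +kernel
theorem x008_9 : fam (wl [1,1,1,5,2,1,4,1]) 200 261 = true := by decide +kernel
theorem x008_10 : fam (wl [4,1,2,2,9]) 80 34 = true := by decide +kernel
theorem x008_11 : fam (wl [1,3,1,2,2,8,1]) 229 363 = true := by decide +kernel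
theorem x008_12 : fam (wl [2,1,1,1,1,4,5]) 185 142 = true := by decide +kernel
theorem x008_13 : fam (wl [1,1,1,1,1,1,4,4,1]) 126 157 = true := by decide +kernel
theorem x008_14 : fam (wl [2,2,2,4,1,4]) 190 158 = true := by decide +kernel
theorem x008_15 : fam (wl [1,1,2,2,4,1,3,1]) 121 143 = true := by decide +kernel
theorem x008_16 : fam (wl [4,4,2,8]) 21 10 = true := by decide +kernel
theorem x008_17 : fam (wl [1,9,2,1,4,2]) 56 102 = true := by decide +kernel
theorem x008_18 : fam (wl [10,2,1,4,1,1]) 263 51 = true := by decide +kernel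
theorem x008_19 : fam (wl [1,3,4,2,7,1]) 298 457 = true := by decide +kernel
theorem x008_20 : fam (wl [7,2,1,14]) 66 18 = true := by decide +kernel
theorem x008_21 : fam (wl [2,4,1,2,2,4]) 148 134 = true := by decide +kernel
theorem x008_22 : fam (wl [1,1,4,1,2,2,3,1]) 173 191 = true := by decide +kernel
theorem x008_23 : fam (wl [1,6,2,1,13,1]) 255 443 = true := by decide +kernel
theorem x008_24 : fam (wl [1,2,3,1,7,1,2]) 206 286 = true := by decide +kernel
theorem x008_25 : fam (wl [1,2,1,3,1,1,2,1,2]) 88 130 = true := by decide +kernel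
theorem x008_26 : fam (wl [3,1,3,1,1,2,1,1,1]) 239 127 = true := by decide +kernel
theorem x008_27 : fam (wl [3,3,1,7,1,1,1]) 121 75 = true := by decide +kernel
theorem x008_28 : fam (wl [1,3,2,2,2,1,1,2]) 94 146 = true := by decide +kernel
theorem x008_29 : fam (wl [4,2,2,2,1,1,1,1]) 235 107 = true := by decide +kernel
/-- words with first entry from 291 to 335 -/
def L008 : List (List ℕ × ℕ × ℕ) := [([3,1,1,1,3,7],149,82), ([1,16,8,2],213,402), ([17,8,1,1],76,9), ([1,2,1,1,1,3,6,1],140,205), ([2,8,4,4],231,218), ([1,1,1,1,1,2,4,3],195,242), ([2,1,1,1,2,4,2,1],100,77), ([1,1,8,4,3,1],64,69), ([2,1,5,2,1,5],105,74), ([1,1,1,5,2,1,4,1],200,261), ([4,1,2,2,9],80,34), ([1,3,1,2,2,8,1],229,363), ([2,1,1,1,1,4,5],185,142), ([1,1,1,1,1,1,4,4,1],126,157), ([2,2,2,4,1,4],190,158), ([1,1,2,2,4,1,3,1],121,143), ([4,4,2,8],21,10), ([1,9,2,1,4,2],56,102), ([10,2,1,4,1,1],263,51), ([1,3,4,2,7,1],298,457), ([7,2,1,14],66,18), ([2,4,1,2,2,4],148,134), ([1,1,4,1,2,2,3,1],173,191), ([1,6,2,1,13,1],255,443),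 ([1,2,3,1,7,1,2],206,286), ([1,2,1,3,1,1,2,1,2],88,130), ([3,1,3,1,1,2,1,1,1],239,127), ([3,3,1,7,1,1,1],121,75), ([1,3,2,2,2,1,1,2],94,146), ([4,2,2,2,1,1,1,1],235,107)]
theorem r008 : rgV L008 291 23 = true := by decide +kernel
theorem f008 : ∀ p ∈ L008, fam (wl p.1) p.2.1 p.2.2 = true := by
  intro p hp
  simp only [L008, List.mem_cons, List.not_mem_nil, or_false] at hp
  rcases hp with rfl | rfl | rfl | rfl | rfl | rfl | rfl | rfl | rfl | rfl | rfl | rfl | rfl | rfl | rfl | rfl | rfl | rfl | rfl | rfl | rfl | rfl | rfl | rfl | rfl | rfl | rfl | rfl | rfl | rfl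
  · exact x008_0
  · exact x008_1
  · exact x008_2
  · exact x008_3
  · exact x008_4
  · exact x008_5
  · exact x008_6
  · exact x008_7
  · exact x008_8
  · exact x008_9
  · exact x008_10
  · exact x008_11
  · exact x008_12
  · exact x008_13
  · exact x008_14
  · exact x008_15
  · exact x008_16
  · exact x008_17
  · exact x008_18
  · exact x008_19
  · exact x008_20
  · exact x008_21
  · exact x008_22
  · exact x008_23
  · exact x008_24
  · exact x008_25
  · exact x008_26
  · exact x008_27
  · exact x008_28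
  · exact x008_29

end Pool.Agent.V5helper47.EV
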