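import Pool.Agent.V5helper47.EV.S2

/-! Search, part of the half words. -/

set_option maxRecDepth 1000000

namespace Pool.Agent.V5helper47.EV

open H419R2 Pool.Agent.N911 Pool.Agent.V5helper47.CN

theorem x009_0 : fam (wl [12,1,25]) 324 50 = true := by decide +kernel
theorem x009_1 : fam (wl [1,11,1,24,1]) 11 23 = true := by decide +kernel
theorem x009_2 : fam (wl [1,1,2,1,1,3,2,3]) 194 226 = true := by decide +kernel
theorem x009_3 : fam (wl [2,2,1,1,3,2,2,1]) 141 119 = true := by decide +kernel
theorem x009_4 : fam (wl [13,26]) 13 2 = true := by decide +kernel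
theorem x009_5 : fam (wl [1,1,2,3,1,1,2,3]) 137 162 = true := by decide +kernel
theorem x009_6 : fam (wl [2,2,3,1,1,2,2,1]) 200 165 = true := by decide +kernel
theorem x009_7 : fam (wl [1,12,25,1]) 324 601 = true := by decide +kernel
theorem x009_8 : fam (wl [3,5,1,2,6]) 111 70 = true := by decide +kernel
theorem x009_9 : fam (wl [1,2,5,1,2,5,1]) 230 317 = true := by decide +kernel
theorem x009_10 : fam (wl [1,2,4,8,1,2]) 244 338 = true := by decide +kernel
theorem x009_11 : fam (wl [3,4,8,1,1,1]) 101 63 = true := by decide +kernel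
theorem x009_12 : fam (wl [1,1,8,1,3,1,3]) 32 34 = true := by decide +kernel
theorem x009_13 : fam (wl [2,8,1,3,1,2,1]) 319 303 = true := by decide +kernel
theorem x009_14 : fam (wl [7,1,2,15]) 69 18 = true := by decide +kernel
theorem x009_15 : fam (wl [1,6,1,2,14,1]) 282 493 = true := by decide +kernel
theorem x009_16 : fam (wl [1,17,1,8,2]) 273 518 = true := by decide +kernel
theorem x009_17 : fam (wl [18,1,8,1,1]) 84 9 = true := by decide +kernel
theorem x009_18 : fam (wl [1,4,1,2,1,2,2,2]) 277 458 = true := by decide +kernel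
theorem x009_19 : fam (wl [5,1,2,1,2,2,1,1]) 82 29 = true := by decide +kernel
theorem x009_20 : fam (wl [2,1,1,2,5,5]) 75 58 = true := by decide +kernel
theorem x009_21 : fam (wl [1,18,9,2]) 85 162 = true := by decide +kernel
theorem x009_22 : fam (wl [19,9,1,1]) 276 29 = true := by decide +kernel
theorem x009_23 : fam (wl [1,1,1,1,2,5,4,1]) 286 353 = true := by decide +kernel
theorem x009_24 : fam (wl [1,3,1,1,1,4,1,1,2]) 243 382 = true := by decide +kernel
theorem x009_25 : fam (wl [4,1,1,1,4,1,1,1,1]) 122 53 = true := by decide +kernel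
theorem x009_26 : fam (wl [3,3,2,1,1,6]) 214 130 = true := by decide +kernel
theorem x009_27 : fam (wl [1,1,9,4,1,3]) 150 158 = true := by decide +kernel
theorem x009_28 : fam (wl [2,9,4,1,2,1]) 217 207 = true := by decide +kernel
theorem x009_29 : fam (wl [1,2,3,2,1,1,5,1]) 153 215 = true := by decide +kernel
/-- words with first entry from 337 to 377 -/
def L009 : List (List ℕ × ℕ × ℕ) := [([12,1,25],324,50), ([1,11,1,24,1],11,23), ([1,1,2,1,1,3,2,3],194,226), ([2,2,1,1,3,2,2,1],141,119), ([13,26],13,2), ([1,1,2,3,1,1,2,3],137,162), ([2,2,3,1,1,2,2,1],200,165), ([1,12,25,1],324,601), ([3,5,1,2,6],111,70), ([1,2,5,1,2,5,1],230,317), ([1,2,4,8,1,2],244,338), ([3,4,8,1,1,1],101,63), ([1,1,8,1,3,1,3],32,34), ([2,8,1,3,1,2,1],319,303), ([7,1,2,15],69,18), ([1,6,1,2,14,1],282,493), ([1,17,1,8,2],273,518), ([18,1,8,1,1],84,9), ([1,4,1,2,1,2,2,2],277,458), ([5,1,2,1,2,2,1,1],82,29), ([2,1,1,2,5,5],75,58), ([1,18,9,2],85,162), ([19,9,1,1],276,29), ([1,1,1,1,2,5,4,1],286,353), ([1,3,1,1,1,4,1,1,2],243,382),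 ([4,1,1,1,4,1,1,1,1],122,53), ([3,3,2,1,1,6],214,130), ([1,1,9,4,1,3],150,158), ([2,9,4,1,2,1],217,207), ([1,2,3,2,1,1,5,1],153,215)]
theorem r009 : rgV L009 337 21 = true := by decide +kernel
theorem f009 : ∀ p ∈ L009, fam (wl p.1) p.2.1 p.2.2 = true := by
  intro p hp
  simp only [L009, List.mem_cons, List.not_mem_nil, or_false] at hp
  rcases hp with rfl | rfl | rfl | rfl | rfl | rfl | rfl | rfl | rfl | rfl | rfl | rfl | rfl | rfl | rfl | rfl | rfl | rfl | rfl | rfl | rfl | rfl | rfl | rfl | rfl | rfl | rfl | rfl | rfl | rfl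
  · exact x009_0
  · exact x009_1
  · exact x009_2
  · exact x009_3
  · exact x009_4
  · exact x009_5
  · exact x009_6
  · exact x009_7
  · exact x009_8
  · exact x009_9
  · exact x009_10
  · exact x009_11
  · exact x009_12
  · exact x009_13
  · exact x009_14
  · exact x009_15
  · exact x009_16
  · exact x009_17
  · exact x009_18
  · exact x009_19
  · exact x009_20
  · exact x009_21
  · exact x009_22
  · exact x009_23
  · exact x009_24
  · exact x009_25
  · exact x009_26
  · exact x009_27
  · exact x009_28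
  · exact x009_29

end Pool.Agent.V5helper47.EV
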