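import Pool.Agent.V5helper47.EV.S2

/-! Search, part of the half words. -/

set_option maxRecDepth 1000000

namespace Pool.Agent.V5helper47.EV

open H419R2 Pool.Agent.N911 Pool.Agent.V5helper47.CN

theorem x010_0 : fam (wl [3,6,3,6]) 3 2 = true := by decide +kernel
theorem x010_1 : fam (wl [1,2,6,3,5,1]) 374 513 = true := by decide +kernel
theorem x010_2 : fam (wl [1,1,1,3,1,8,3]) 241 310 = true := by decide +kernel
theorem x010_3 : fam (wl [2,1,3,1,8,2,1]) 140 101 = true := by decide +kernel
theorem x010_4 : fam (wl [1,2,2,2,1,4,1,2]) 131 186 = true := by decide +kernel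
theorem x010_5 : fam (wl [1,5,1,1,3,1,2,2]) 350 594 = true := by decide +kernel
theorem x010_6 : fam (wl [6,1,1,3,1,2,1,1]) 35 11 = true := by decide +kernel
theorem x010_7 : fam (wl [3,2,2,1,4,1,1,1]) 254 149 = true := by decide +kernel
theorem x010_8 : fam (wl [13,1,27]) 377 54 = true := by decide +kernel
theorem x010_9 : fam (wl [5,3,1,1,10]) 132 50 = true := by decide +kernel
theorem x010_10 : fam (wl [1,4,3,1,1,9,1]) 257 419 = true := by decide +kernel
theorem x010_11 : fam (wl [1,12,1,26,1]) 12 25 = true := by decide +kernel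
theorem x010_12 : fam (wl [14,28]) 14 2 = true := by decide +kernel
theorem x010_13 : fam (wl [1,2,1,4,2,2,1,2]) 188 278 = true := by decide +kernel
theorem x010_14 : fam (wl [3,1,4,2,2,1,1,1]) 203 107 = true := by decide +kernel
theorem x010_15 : fam (wl [1,13,27,1]) 377 703 = true := by decide +kernel
theorem x010_16 : fam (wl [1,6,1,1,3,3,2]) 192 334 = true := by decide +kernel
theorem x010_17 : fam (wl [7,1,1,3,3,1,1]) 207 55 = true := by decide +kernel
theorem x010_18 : fam (wl [1,1,1,4,9,3]) 281 362 = true := by decide +kernel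
theorem x010_19 : fam (wl [2,1,4,9,2,1]) 118 85 = true := by decide +kernel
theorem x010_20 : fam (wl [1,3,4,1,1,1,1,1,2]) 250 382 = true := by decide +kernel
theorem x010_21 : fam (wl [4,4,1,1,1,1,1,1,1]) 157 75 = true := by decide +kernel
theorem x010_22 : fam (wl [1,10,1,2,5,2]) 75 138 = true := by decide +kernel
theorem x010_23 : fam (wl [11,1,2,5,1,1]) 332 57 = true := by decide +kernel
theorem x010_24 : fam (wl [4,1,3,1,1,9]) 387 162 = true := by decide +kernel
theorem x010_25 : fam (wl [2,5,2,1,2,4]) 343 314 = true := by decide +kernel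
theorem x010_26 : fam (wl [1,1,5,2,1,2,3,1]) 66 73 = true := by decide +kernel
theorem x010_27 : fam (wl [1,3,1,3,1,1,8,1]) 22 37 = true := by decide +kernel
/-- words with first entry from 379 to 415 -/
def L010 : List (List ℕ × ℕ × ℕ) := [([3,6,3,6],3,2), ([1,2,6,3,5,1],374,513), ([1,1,1,3,1,8,3],241,310), ([2,1,3,1,8,2,1],140,101), ([1,2,2,2,1,4,1,2],131,186), ([1,5,1,1,3,1,2,2],350,594), ([6,1,1,3,1,2,1,1],35,11), ([3,2,2,1,4,1,1,1],254,149), ([13,1,27],377,54), ([5,3,1,1,10],132,50), ([1,4,3,1,1,9,1],257,419), ([1,12,1,26,1],12,25), ([14,28],14,2), ([1,2,1,4,2,2,1,2],188,278), ([3,1,4,2,2,1,1,1],203,107), ([1,13,27,1],377,703), ([1,6,1,1,3,3,2],192,334), ([7,1,1,3,3,1,1],207,55), ([1,1,1,4,9,3],281,362), ([2,1,4,9,2,1],118,85), ([1,3,4,1,1,1,1,1,2],250,382), ([4,4,1,1,1,1,1,1,1],157,75), ([1,10,1,2,5,2],75,138), ([11,1,2,5,1,1],332,57), ([4,1,3,1,1,9],387,162), ([2,5,2,1,2,4],343,314), ([1,1,5,2,1,2,3,1],66,73), ([1,3,1,3,1,1,8,1],22,37)]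
theorem r010 : rgV L010 379 19 = true := by decide +kernel
theorem f010 : ∀ p ∈ L010, fam (wl p.1) p.2.1 p.2.2 = true := by
  intro p hp
  simp only [L010, List.mem_cons, List.not_mem_nil, or_false] at hp
  rcases hp with rfl | rfl | rfl | rfl | rfl | rfl | rfl | rfl | rfl | rfl | rfl | rfl | rfl | rfl | rfl | rfl | rfl | rfl | rfl | rfl | rfl | rfl | rfl | rfl | rfl | rfl | rfl | rfl
  · exact x010_0
  · exact x010_1
  · exact x010_2
  · exact x010_3
  · exact x010_4
  · exact x010_5
  · exact x010_6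
  · exact x010_7
  · exact x010_8
  · exact x010_9
  · exact x010_10
  · exact x010_11
  · exact x010_12
  · exact x010_13
  · exact x010_14
  · exact x010_15
  · exact x010_16
  · exact x010_17
  · exact x010_18
  · exact x010_19
  · exact x010_20
  · exact x010_21
  · exact x010_22
  · exact x010_23
  · exact x010_24
  · exact x010_25
  · exact x010_26
  · exact x010_27

end Pool.Agent.V5helper47.EV
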