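import Pool.Agent.V5helper47.EV.S2

/-! Search, part of the half words. -/

set_option maxRecDepth 1000000

namespace Pool.Agent.V5helper47.EV

open H419R2 Pool.Agent.N911 Pool.Agent.V5helper47.CN

theorem x011_0 : fam (wl [8,2,1,16]) 75 18 = true := by decide +kernel
theorem x011_1 : fam (wl [1,3,1,2,5,1,1,2]) 306 482 = true := by decide +kernel
theorem x011_2 : fam (wl [4,1,2,5,1,1,1,1]) 109 47 = true := by decide +kernel
theorem x011_3 : fam (wl [1,7,2,1,15,1]) 340 601 = true := by decide +kernel
theorem x011_4 : fam (wl [4,2,1,2,1,8]) 109 50 = true := by decide +kernel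
theorem x011_5 : fam (wl [1,3,2,1,2,1,7,1]) 308 477 = true := by decide +kernel
theorem x011_6 : fam (wl [2,3,2,2,1,1,4]) 25 22 = true := by decide +kernel
theorem x011_7 : fam (wl [1,1,3,2,2,1,1,3,1]) 404 457 = true := by decide +kernel
theorem x011_8 : fam (wl [2,9,1,4,4]) 149 142 = true := by decide +kernel
theorem x011_9 : fam (wl [1,1,9,1,4,3,1]) 282 297 = true := by decide +kernel
theorem x011_10 : fam (wl [1,5,3,1,1,1,2,2]) 134 226 = true := by decide +kernel
theorem x011_11 : fam (wl [6,3,1,1,1,2,1,1]) 297 95 = true := by decide +kernel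
theorem x011_12 : fam (wl [1,19,1,9,2]) 114 218 = true := by decide +kernel
theorem x011_13 : fam (wl [20,1,9,1,1]) 323 31 = true := by decide +kernel
theorem x011_14 : fam (wl [1,20,10,2]) 326 622 = true := by decide +kernel
theorem x011_15 : fam (wl [21,10,1,1]) 115 11 = true := by decide +kernel
theorem x011_16 : fam (wl [14,1,29]) 434 58 = true := by decide +kernel
theorem x011_17 : fam (wl [1,13,1,28,1]) 13 27 = true := by decide +kernel
theorem x011_18 : fam (wl [2,10,5,4]) 69 66 = true := by decide +kernel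
theorem x011_19 : fam (wl [1,1,10,5,3,1]) 378 397 = true := by decide +kernel
theorem x011_20 : fam (wl [15,30]) 15 2 = true := by decide +kernel
theorem x011_21 : fam (wl [8,1,2,17]) 78 18 = true := by decide +kernel
theorem x011_22 : fam (wl [1,7,1,2,16,1]) 371 659 = true := by decide +kernel
theorem x011_23 : fam (wl [1,14,29,1]) 434 813 = true := by decide +kernel
theorem x011_24 : fam (wl [5,1,2,2,11]) 177 62 = true := by decide +kernel
theorem x011_25 : fam (wl [1,4,1,2,2,10,1]) 278 461 = true := by decide +kernel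
theorem x011_26 : fam (wl [1,11,2,1,5,2]) 314 578 = true := by decide +kernel
theorem x011_27 : fam (wl [12,2,1,5,1,1]) 141 23 = true := by decide +kernel
/-- words with first entry from 417 to 457 -/
def L011 : List (List ℕ × ℕ × ℕ) := [([8,2,1,16],75,18), ([1,3,1,2,5,1,1,2],306,482), ([4,1,2,5,1,1,1,1],109,47), ([1,7,2,1,15,1],340,601), ([4,2,1,2,1,8],109,50), ([1,3,2,1,2,1,7,1],308,477), ([2,3,2,2,1,1,4],25,22), ([1,1,3,2,2,1,1,3,1],404,457), ([2,9,1,4,4],149,142), ([1,1,9,1,4,3,1],282,297), ([1,5,3,1,1,1,2,2],134,226), ([6,3,1,1,1,2,1,1],297,95), ([1,19,1,9,2],114,218), ([20,1,9,1,1],323,31), ([1,20,10,2],326,622), ([21,10,1,1],115,11), ([14,1,29],434,58), ([1,13,1,28,1],13,27), ([2,10,5,4],69,66), ([1,1,10,5,3,1],378,397), ([15,30],15,2), ([8,1,2,17],78,18), ([1,7,1,2,16,1],371,659), ([1,14,29,1],434,813), ([5,1,2,2,11],177,62), ([1,4,1,2,2,10,1],278,461), ([1,11,2,1,5,2],314,578), ([12,2,1,5,1,1],141,23)]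
theorem r011 : rgV L011 417 21 = true := by decide +kernel
theorem f011 : ∀ p ∈ L011, fam (wl p.1) p.2.1 p.2.2 = true := by
  intro p hp
  simp only [L011, List.mem_cons, List.not_mem_nil, or_false] at hp
  rcases hp with rfl | rfl | rfl | rfl | rfl | rfl | rfl | rfl | rfl | rfl | rfl | rfl | rfl | rfl | rfl | rfl | rfl | rfl | rfl | rfl | rfl | rfl | rfl | rfl | rfl | rfl | rfl | rfl
  · exact x011_0
  · exact x011_1
  · exact x011_2
  · exact x011_3
  · exact x011_4
  · exact x011_5
  · exact x011_6
  · exact x011_7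
  · exact x011_8
  · exact x011_9
  · exact x011_10
  · exact x011_11
  · exact x011_12
  · exact x011_13
  · exact x011_14
  · exact x011_15
  · exact x011_16
  · exact x011_17
  · exact x011_18
  · exact x011_19
  · exact x011_20
  · exact x011_21
  · exact x011_22
  · exact x011_23
  · exact x011_24
  · exact x011_25
  · exact x011_26
  · exact x011_27

end Pool.Agent.V5helper47.EV
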