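import Pool.Agent.V5helper47.EV.S2

/-! Search, part of the half words. -/

set_option maxRecDepth 1000000

namespace Pool.Agent.V5helper47.EV

open H419R2 Pool.Agent.N911 Pool.Agent.V5helper47.CN

theorem x012_0 : fam (wl [2,2,1,2,1,2,1,4]) 305 258 = true := by decide +kernel
theorem x012_1 : fam (wl [1,1,5,1,2,2,1,3]) 46 50 = true := by decide +kernel
theorem x012_2 : fam (wl [2,5,1,2,2,1,2,1]) 411 379 = true := by decide +kernel
theorem x012_3 : fam (wl [1,1,2,1,2,1,2,1,3,1]) 152 177 = true := by decide +kernel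
theorem x012_4 : fam (wl [1,1,3,1,1,3,1,1,3]) 233 262 = true := by decide +kernel
theorem x012_5 : fam (wl [2,3,1,1,3,1,1,2,1]) 228 201 = true := by decide +kernel
theorem x012_6 : fam (wl [3,1,2,2,2,7]) 137 74 = true := by decide +kernel
theorem x012_7 : fam (wl [1,2,1,2,2,2,6,1]) 328 481 = true := by decide +kernel
theorem x012_8 : fam (wl [4,1,1,1,3,9]) 88 38 = true := by decide +kernel
theorem x012_9 : fam (wl [1,3,5,2,1,1,1,2]) 64 98 = true := by decide +kernel
theorem x012_10 : fam (wl [4,5,2,1,1,1,1,1]) 407 195 = true := by decide +kernel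
theorem x012_11 : fam (wl [1,3,1,1,1,3,8,1]) 383 603 = true := by decide +kernel
theorem x012_12 : fam (wl [1,1,1,1,3,1,1,3,3]) 418 510 = true := by decide +kernel
theorem x012_13 : fam (wl [2,1,1,3,1,1,3,2,1]) 59 47 = true := by decide +kernel
theorem x012_14 : fam (wl [1,4,2,1,5,2,2]) 264 430 = true := by decide +kernel
theorem x012_15 : fam (wl [5,2,1,5,2,1,1]) 221 83 = true := by decide +kernel
theorem x012_16 : fam (wl [1,1,1,2,2,1,5,3]) 268 338 = true := by decide +kernel
theorem x012_17 : fam (wl [1,2,2,1,2,5,1,2]) 274 386 = true := by decide +kernel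
theorem x012_18 : fam (wl [3,2,1,2,5,1,1,1]) 213 127 = true := by decide +kernel
theorem x012_19 : fam (wl [2,1,2,2,1,5,2,1]) 219 163 = true := by decide +kernel
theorem x012_20 : fam (wl [5,4,2,10]) 423 162 = true := by decide +kernel
theorem x012_21 : fam (wl [1,4,4,2,9,1]) 66 109 = true := by decide +kernel
theorem x012_22 : fam (wl [3,1,4,1,1,1,7]) 386 202 = true := by decide +kernel
theorem x012_23 : fam (wl [1,7,2,2,1,3,2]) 475 838 = true := by decide +kernel
theorem x012_24 : fam (wl [8,2,2,1,3,1,1]) 20 5 = true := by decide +kernel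
theorem x012_25 : fam (wl [1,2,1,4,1,1,1,6,1]) 109 163 = true := by decide +kernel
theorem x012_26 : fam (wl [1,6,2,4,3,2]) 472 818 = true := by decide +kernel
theorem x012_27 : fam (wl [7,2,4,3,1,1]) 25 7 = true := by decide +kernel
theorem x012_28 : fam (wl [1,2,4,1,9,1,2]) 36 50 = true := by decide +kernel
theorem x012_29 : fam (wl [3,4,1,9,1,1,1]) 465 291 = true := by decide +kernel
/-- words with first entry from 459 to 509 -/
def L012 : List (List ℕ × ℕ × ℕ) := [([2,2,1,2,1,2,1,4],305,258), ([1,1,5,1,2,2,1,3],46,50), ([2,5,1,2,2,1,2,1],411,379), ([1,1,2,1,2,1,2,1,3,1],152,177), ([1,1,3,1,1,3,1,1,3],233,262), ([2,3,1,1,3,1,1,2,1],228,201), ([3,1,2,2,2,7],137,74), ([1,2,1,2,2,2,6,1],328,481), ([4,1,1,1,3,9],88,38), ([1,3,5,2,1,1,1,2],64,98), ([4,5,2,1,1,1,1,1],407,195), ([1,3,1,1,1,3,8,1],383,603), ([1,1,1,1,3,1,1,3,3],418,510), ([2,1,1,3,1,1,3,2,1],59,47), ([1,4,2,1,5,2,2],264,430), ([5,2,1,5,2,1,1],221,83), ([1,1,1,2,2,1,5,3],268,338), ([1,2,2,1,2,5,1,2],274,386),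 ([3,2,1,2,5,1,1,1],213,127), ([2,1,2,2,1,5,2,1],219,163), ([5,4,2,10],423,162), ([1,4,4,2,9,1],66,109), ([3,1,4,1,1,1,7],386,202), ([1,7,2,2,1,3,2],475,838), ([8,2,2,1,3,1,1],20,5), ([1,2,1,4,1,1,1,6,1],109,163), ([1,6,2,4,3,2],472,818), ([7,2,4,3,1,1],25,7), ([1,2,4,1,9,1,2],36,50), ([3,4,1,9,1,1,1],465,291)]
theorem r012 : rgV L012 459 26 = true := by decide +kernel
theorem f012 : ∀ p ∈ L012, fam (wl p.1) p.2.1 p.2.2 = true := by
  intro p hp
  simp only [L012, List.mem_cons, List.not_mem_nil, or_false] at hp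
  rcases hp with rfl | rfl | rfl | rfl | rfl | rfl | rfl | rfl | rfl | rfl | rfl | rfl | rfl | rfl | rfl | rfl | rfl | rfl | rfl | rfl | rfl | rfl | rfl | rfl | rfl | rfl | rfl | rfl | rfl | rfl
  · exact x012_0
  · exact x012_1
  · exact x012_2
  · exact x012_3
  · exact x012_4
  · exact x012_5
  · exact x012_6
  · exact x012_7
  · exact x012_8
  · exact x012_9
  · exact x012_10
  · exact x012_11
  · exact x012_12
  · exact x012_13
  · exact x012_14
  · exact x012_15
  · exact x012_16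
  · exact x012_17
  · exact x012_18
  · exact x012_19
  · exact x012_20
  · exact x012_21
  · exact x012_22
  · exact x012_23
  · exact x012_24
  · exact x012_25
  · exact x012_26
  · exact x012_27
  · exact x012_28
  · exact x012_29

end Pool.Agent.V5helper47.EV
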