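import Pool.Agent.V5helper47.EV.S2

/-! Search, part of the half words. -/

set_option maxRecDepth 1000000

namespace Pool.Agent.V5helper47.EV

open H419R2 Pool.Agent.N911 Pool.Agent.V5helper47.CN

theorem x013_0 : fam (wl [15,1,31]) 495 62 = true := by decide +kernel
theorem x013_1 : fam (wl [2,1,6,1,2,1,5]) 307 214 = true := by decide +kernel
theorem x013_2 : fam (wl [1,1,1,6,1,2,1,4,1]) 202 265 = true := by decide +kernel
theorem x013_3 : fam (wl [1,14,1,30,1]) 14 29 = true := by decide +kernel
theorem x013_4 : fam (wl [16,32]) 16 2 = true := by decide +kernel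
theorem x013_5 : fam (wl [2,1,3,1,2,1,1,5]) 471 338 = true := by decide +kernel
theorem x013_6 : fam (wl [1,1,1,3,1,2,1,1,4,1]) 40 53 = true := by decide +kernel
theorem x013_7 : fam (wl [1,15,31,1]) 495 931 = true := by decide +kernel
theorem x013_8 : fam (wl [1,1,10,1,4,1,3]) 243 254 = true := by decide +kernel
theorem x013_9 : fam (wl [2,10,1,4,1,2,1]) 276 265 = true := by decide +kernel
theorem x013_10 : fam (wl [1,2,5,10,1,2]) 135 186 = true := by decide +kernel
theorem x013_11 : fam (wl [3,5,10,1,1,1]) 384 241 = true := by decide +kernel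
theorem x013_12 : fam (wl [9,2,1,18]) 84 18 = true := by decide +kernel
theorem x013_13 : fam (wl [1,8,2,1,17,1]) 437 783 = true := by decide +kernel
theorem x013_14 : fam (wl [1,2,1,1,2,2,3,1,2]) 320 462 = true := by decide +kernel
theorem x013_15 : fam (wl [1,21,1,10,2]) 400 766 = true := by decide +kernel
theorem x013_16 : fam (wl [22,1,10,1,1]) 125 11 = true := by decide +kernel
theorem x013_17 : fam (wl [3,1,1,2,2,3,1,1,1]) 205 115 = true := by decide +kernel
theorem x013_18 : fam (wl [3,2,1,1,3,1,6]) 322 190 = true := by decide +kernel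
theorem x013_19 : fam (wl [1,2,2,1,1,3,1,5,1]) 205 291 = true := by decide +kernel
theorem x013_20 : fam (wl [1,4,1,1,2,3,2,2]) 259 426 = true := by decide +kernel
theorem x013_21 : fam (wl [1,22,11,2]) 126 242 = true := by decide +kernel
theorem x013_22 : fam (wl [23,11,1,1]) 403 35 = true := by decide +kernel
theorem x013_23 : fam (wl [5,1,1,2,3,2,1,1]) 270 97 = true := by decide +kernel
theorem x013_24 : fam (wl [1,1,11,5,1,3]) 17 18 = true := by decide +kernel
theorem x013_25 : fam (wl [1,4,3,6,2,2]) 459 746 = true := by decide +kernel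
theorem x013_26 : fam (wl [5,3,6,2,1,1]) 76 29 = true := by decide +kernel
theorem x013_27 : fam (wl [2,11,5,1,2,1]) 518 497 = true := by decide +kernel
theorem x013_28 : fam (wl [2,1,7,3,1,5]) 400 278 = true := by decide +kernel
theorem x013_29 : fam (wl [1,1,1,7,3,1,4,1]) 145 191 = true := by decide +kernel
/-- words with first entry from 511 to 551 -/
def L013 : List (List ℕ × ℕ × ℕ) := [([15,1,31],495,62), ([2,1,6,1,2,1,5],307,214), ([1,1,1,6,1,2,1,4,1],202,265), ([1,14,1,30,1],14,29), ([16,32],16,2), ([2,1,3,1,2,1,1,5],471,338), ([1,1,1,3,1,2,1,1,4,1],40,53), ([1,15,31,1],495,931), ([1,1,10,1,4,1,3],243,254), ([2,10,1,4,1,2,1],276,265), ([1,2,5,10,1,2],135,186), ([3,5,10,1,1,1],384,241), ([9,2,1,18],84,18), ([1,8,2,1,17,1],437,783), ([1,2,1,1,2,2,3,1,2],320,462), ([1,21,1,10,2],400,766), ([22,1,10,1,1],125,11), ([3,1,1,2,2,3,1,1,1],205,115), ([3,2,1,1,3,1,6],322,190), ([1,2,2,1,1,3,1,5,1],205,291), ([1,4,1,1,2,3,2,2],259,426), ([1,22,11,2],126,242), ([23,11,1,1],403,35), ([5,1,1,2,3,2,1,1],270,97),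 ([1,1,11,5,1,3],17,18), ([1,4,3,6,2,2],459,746), ([5,3,6,2,1,1],76,29), ([2,11,5,1,2,1],518,497), ([2,1,7,3,1,5],400,278), ([1,1,1,7,3,1,4,1],145,191)]
theorem r013 : rgV L013 511 21 = true := by decide +kernel
theorem f013 : ∀ p ∈ L013, fam (wl p.1) p.2.1 p.2.2 = true := by
  intro p hp
  simp only [L013, List.mem_cons, List.not_mem_nil, or_false] at hp
  rcases hp with rfl | rfl | rfl | rfl | rfl | rfl | rfl | rfl | rfl | rfl | rfl | rfl | rfl | rfl | rfl | rfl | rfl | rfl | rfl | rfl | rfl | rfl | rfl | rfl | rfl | rfl | rfl | rfl | rfl | rfl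
  · exact x013_0
  · exact x013_1
  · exact x013_2
  · exact x013_3
  · exact x013_4
  · exact x013_5
  · exact x013_6
  · exact x013_7
  · exact x013_8
  · exact x013_9
  · exact x013_10
  · exact x013_11
  · exact x013_12
  · exact x013_13
  · exact x013_14
  · exact x013_15
  · exact x013_16
  · exact x013_17
  · exact x013_18
  · exact x013_19
  · exact x013_20
  · exact x013_21
  · exact x013_22
  · exact x013_23
  · exact x013_24
  · exact x013_25
  · exact x013_26
  · exact x013_27
  · exact x013_28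
  · exact x013_29

end Pool.Agent.V5helper47.EV
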