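import Pool.Agent.V5helper47.EV.S2

/-! Search, part of the half words. -/

set_option maxRecDepth 1000000

namespace Pool.Agent.V5helper47.EV

open H419R2 Pool.Agent.N911 Pool.Agent.V5helper47.CN

theorem x015_0 : fam (wl [4,5,1,2,8]) 572 274 = true := by decide +kernel
theorem x015_1 : fam (wl [1,3,5,1,2,7,1]) 19 31 = true := by decide +kernel
theorem x015_2 : fam (wl [2,3,1,1,3,1,1,4]) 294 258 = true := by decide +kernel
theorem x015_3 : fam (wl [1,1,3,1,1,3,1,1,3,1]) 297 335 = true := by decide +kernel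
theorem x015_4 : fam (wl [3,1,1,1,1,4,7]) 487 270 = true := by decide +kernel
theorem x015_5 : fam (wl [1,2,1,1,1,1,4,6,1]) 110 161 = true := by decide +kernel
theorem x015_6 : fam (wl [2,1,2,2,2,2,5]) 257 190 = true := by decide +kernel
theorem x015_7 : fam (wl [1,1,1,2,2,2,2,4,1]) 342 433 = true := by decide +kernel
theorem x015_8 : fam (wl [5,1,3,1,1,11]) 468 162 = true := by decide +kernel
theorem x015_9 : fam (wl [1,4,1,3,1,1,10,1]) 131 219 = true := by decide +kernel
theorem x015_10 : fam (wl [2,2,3,6,1,4]) 294 242 = true := by decide +kernel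
theorem x015_11 : fam (wl [1,1,1,2,1,2,6,3]) 197 250 = true := by decide +kernel
theorem x015_12 : fam (wl [2,1,2,1,2,6,2,1]) 404 297 = true := by decide +kernel
theorem x015_13 : fam (wl [1,1,2,3,6,1,3,1]) 307 363 = true := by decide +kernel
theorem x015_14 : fam (wl [3,7,1,3,6]) 28 18 = true := by decide +kernel
theorem x015_15 : fam (wl [1,2,7,1,3,5,1]) 577 787 = true := by decide +kernel
theorem x015_16 : fam (wl [2,11,1,5,4]) 598 574 = true := by decide +kernel
theorem x015_17 : fam (wl [1,1,11,1,5,3,1]) 17 19 = true := by decide +kernel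
theorem x015_18 : fam (wl [1,13,2,1,6,2]) 121 226 = true := by decide +kernel
theorem x015_19 : fam (wl [14,2,1,6,1,1]) 494 69 = true := by decide +kernel
theorem x015_20 : fam (wl [2,6,1,2,3,4]) 363 338 = true := by decide +kernel
theorem x015_21 : fam (wl [1,1,6,1,2,3,3,1]) 254 273 = true := by decide +kernel
theorem x015_22 : fam (wl [2,1,1,2,1,6,5]) 543 422 = true := by decide +kernel
theorem x015_23 : fam (wl [1,23,1,11,2]) 161 310 = true := by decide +kernel
theorem x015_24 : fam (wl [24,1,11,1,1]) 460 37 = true := by decide +kernel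
theorem x015_25 : fam (wl [1,1,1,1,2,1,6,4,1]) 78 97 = true := by decide +kernel
/-- words with first entry from 593 to 625 -/
def L015 : List (List ℕ × ℕ × ℕ) := [([4,5,1,2,8],572,274), ([1,3,5,1,2,7,1],19,31), ([2,3,1,1,3,1,1,4],294,258), ([1,1,3,1,1,3,1,1,3,1],297,335), ([3,1,1,1,1,4,7],487,270), ([1,2,1,1,1,1,4,6,1],110,161), ([2,1,2,2,2,2,5],257,190), ([1,1,1,2,2,2,2,4,1],342,433), ([5,1,3,1,1,11],468,162), ([1,4,1,3,1,1,10,1],131,219), ([2,2,3,6,1,4],294,242), ([1,1,1,2,1,2,6,3],197,250), ([2,1,2,1,2,6,2,1],404,297), ([1,1,2,3,6,1,3,1],307,363), ([3,7,1,3,6],28,18), ([1,2,7,1,3,5,1],577,787), ([2,11,1,5,4],598,574), ([1,1,11,1,5,3,1],17,19), ([1,13,2,1,6,2],121,226), ([14,2,1,6,1,1],494,69), ([2,6,1,2,3,4],363,338), ([1,1,6,1,2,3,3,1],254,273), ([2,1,1,2,1,6,5],543,422), ([1,23,1,11,2],161,310), ([24,1,11,1,1],460,37), ([1,1,1,1,2,1,6,4,1],78,97)]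
theorem r015 : rgV L015 593 17 = true := by decide +kernel
theorem f015 : ∀ p ∈ L015, fam (wl p.1) p.2.1 p.2.2 = true := by
  intro p hp
  simp only [L015, List.mem_cons, List.not_mem_nil, or_false] at hp
  rcases hp with rfl | rfl | rfl | rfl | rfl | rfl | rfl | rfl | rfl | rfl | rfl | rfl | rfl | rfl | rfl | rfl | rfl | rfl | rfl | rfl | rfl | rfl | rfl | rfl | rfl | rfl
  · exact x015_0
  · exact x015_1
  · exact x015_2
  · exact x015_3
  · exact x015_4
  · exact x015_5
  · exact x015_6
  · exact x015_7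
  · exact x015_8
  · exact x015_9
  · exact x015_10
  · exact x015_11
  · exact x015_12
  · exact x015_13
  · exact x015_14
  · exact x015_15
  · exact x015_16
  · exact x015_17
  · exact x015_18
  · exact x015_19
  · exact x015_20
  · exact x015_21
  · exact x015_22
  · exact x015_23
  · exact x015_24
  · exact x015_25

end Pool.Agent.V5helper47.EV
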