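import Pool.Agent.V5helper47.EV.S2

/-! Search, part of the half words. -/

set_option maxRecDepth 1000000

namespace Pool.Agent.V5helper47.EV

open H419R2 Pool.Agent.N911 Pool.Agent.V5helper47.CN

theorem x016_0 : fam (wl [4,3,2,1,1,8]) 614 286 = true := by decide +kernel
theorem x016_1 : fam (wl [3,2,2,4,1,6]) 603 354 = true := by decide +kernel
theorem x016_2 : fam (wl [2,3,3,1,1,1,1,4]) 500 434 = true := by decide +kernel
theorem x016_3 : fam (wl [1,24,12,2]) 463 890 = true := by decide +kernel
theorem x016_4 : fam (wl [25,12,1,1]) 162 13 = true := by decide +kernel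
theorem x016_5 : fam (wl [1,1,3,3,1,1,1,1,3,1]) 125 143 = true := by decide +kernel
theorem x016_6 : fam (wl [1,2,2,2,4,1,5,1]) 22 33 = true := by decide +kernel
theorem x016_7 : fam (wl [1,3,3,2,1,1,7,1]) 11 19 = true := by decide +kernel
theorem x016_8 : fam (wl [6,1,2,2,13]) 302 90 = true := by decide +kernel
theorem x016_9 : fam (wl [1,5,1,2,2,12,1]) 327 559 = true := by decide +kernel
theorem x016_10 : fam (wl [5,2,1,2,1,10]) 16 6 = true := by decide +kernel
theorem x016_11 : fam (wl [2,12,6,4]) 335 322 = true := by decide +kernel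
theorem x016_12 : fam (wl [1,1,12,6,3,1]) 296 309 = true := by decide +kernel
theorem x016_13 : fam (wl [1,4,2,1,2,1,9,1]) 615 1003 = true := by decide +kernel
theorem x016_14 : fam (wl [1,8,1,1,3,4,2]) 597 1070 = true := by decide +kernel
theorem x016_15 : fam (wl [9,1,1,3,4,1,1]) 42 9 = true := by decide +kernel
theorem x016_16 : fam (wl [10,2,1,20]) 93 18 = true := by decide +kernel
theorem x016_17 : fam (wl [1,9,2,1,19,1]) 546 989 = true := by decide +kernel
theorem x016_18 : fam (wl [3,8,4,6]) 184 118 = true := by decide +kernel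
theorem x016_19 : fam (wl [1,2,8,4,5,1]) 457 623 = true := by decide +kernel
theorem x016_20 : fam (wl [17,1,35]) 629 70 = true := by decide +kernel
theorem x016_21 : fam (wl [1,16,1,34,1]) 16 33 = true := by decide +kernel
theorem x016_22 : fam (wl [18,36]) 18 2 = true := by decide +kernel
theorem x016_23 : fam (wl [2,2,1,1,2,3,1,4]) 613 514 = true := by decide +kernel
theorem x016_24 : fam (wl [1,1,2,1,1,2,3,1,3,1]) 34 41 = true := by decide +kernel
theorem x016_25 : fam (wl [1,17,35,1]) 629 1191 = true := by decide +kernel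
theorem x016_26 : fam (wl [4,6,3,8]) 187 90 = true := by decide +kernel
theorem x016_27 : fam (wl [1,6,1,2,1,2,3,2]) 258 450 = true := by decide +kernel
theorem x016_28 : fam (wl [7,1,2,1,2,3,1,1]) 397 103 = true := by decide +kernel
theorem x016_29 : fam (wl [1,3,6,3,7,1]) 468 713 = true := by decide +kernel
/-- words with first entry from 627 to 657 -/
def L016 : List (List ℕ × ℕ × ℕ) := [([4,3,2,1,1,8],614,286), ([3,2,2,4,1,6],603,354), ([2,3,3,1,1,1,1,4],500,434), ([1,24,12,2],463,890), ([25,12,1,1],162,13), ([1,1,3,3,1,1,1,1,3,1],125,143), ([1,2,2,2,4,1,5,1],22,33), ([1,3,3,2,1,1,7,1],11,19), ([6,1,2,2,13],302,90), ([1,5,1,2,2,12,1],327,559), ([5,2,1,2,1,10],16,6), ([2,12,6,4],335,322), ([1,1,12,6,3,1],296,309), ([1,4,2,1,2,1,9,1],615,1003), ([1,8,1,1,3,4,2],597,1070), ([9,1,1,3,4,1,1],42,9), ([10,2,1,20],93,18), ([1,9,2,1,19,1],546,989), ([3,8,4,6],184,118), ([1,2,8,4,5,1],457,623), ([17,1,35],629,70), ([1,16,1,34,1],16,33), ([18,36],18,2), ([2,2,1,1,2,3,1,4],613,514), ([1,1,2,1,1,2,3,1,3,1],34,41),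 ([1,17,35,1],629,1191), ([4,6,3,8],187,90), ([1,6,1,2,1,2,3,2],258,450), ([7,1,2,1,2,3,1,1],397,103), ([1,3,6,3,7,1],468,713)]
theorem r016 : rgV L016 627 16 = true := by decide +kernel
theorem f016 : ∀ p ∈ L016, fam (wl p.1) p.2.1 p.2.2 = true := by
  intro p hp
  simp only [L016, List.mem_cons, List.not_mem_nil, or_false] at hp
  rcases hp with rfl | rfl | rfl | rfl | rfl | rfl | rfl | rfl | rfl | rfl | rfl | rfl | rfl | rfl | rfl | rfl | rfl | rfl | rfl | rfl | rfl | rfl | rfl | rfl | rfl | rfl | rfl | rfl | rfl | rfl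
  · exact x016_0
  · exact x016_1
  · exact x016_2
  · exact x016_3
  · exact x016_4
  · exact x016_5
  · exact x016_6
  · exact x016_7
  · exact x016_8
  · exact x016_9
  · exact x016_10
  · exact x016_11
  · exact x016_12
  · exact x016_13
  · exact x016_14
  · exact x016_15
  · exact x016_16
  · exact x016_17
  · exact x016_18
  · exact x016_19
  · exact x016_20
  · exact x016_21
  · exact x016_22
  · exact x016_23
  · exact x016_24
  · exact x016_25
  · exact x016_26
  · exact x016_27
  · exact x016_28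
  · exact x016_29

end Pool.Agent.V5helper47.EV
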