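import Pool.Agent.V5helper47.EV.S2

/-! Search, part of the half words. -/

set_option maxRecDepth 1000000

namespace Pool.Agent.V5helper47.EV

open H419R2 Pool.Agent.N911 Pool.Agent.V5helper47.CN

theorem x017_0 : fam (wl [1,7,1,1,3,1,3,2]) 320 566 = true := by decide +kernel
theorem x017_1 : fam (wl [8,1,1,3,1,3,1,1]) 337 79 = true := by decide +kernel
theorem x017_2 : fam (wl [1,1,2,1,1,1,4,2,3]) 174 202 = true := by decide +kernel
theorem x017_3 : fam (wl [2,2,1,1,1,4,2,2,1]) 497 419 = true := by decide +kernel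
theorem x017_4 : fam (wl [2,1,1,3,7,5]) 624 486 = true := by decide +kernel
theorem x017_5 : fam (wl [1,1,1,1,3,7,4,1]) 47 59 = true := by decide +kernel
theorem x017_6 : fam (wl [1,1,4,2,2,1,1,1,3]) 430 474 = true := by decide +kernel
theorem x017_7 : fam (wl [1,1,2,4,1,1,1,2,3]) 525 622 = true := by decide +kernel
theorem x017_8 : fam (wl [2,2,4,1,1,1,2,2,1]) 152 125 = true := by decide +kernel
theorem x017_9 : fam (wl [2,4,2,2,1,1,1,2,1]) 247 223 = true := by decide +kernel
theorem x017_10 : fam (wl [3,4,1,2,2,6]) 93 58 = true := by decide +kernel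
theorem x017_11 : fam (wl [2,1,4,2,1,1,1,5]) 436 310 = true := by decide +kernel
theorem x017_12 : fam (wl [1,1,1,4,2,1,1,1,4,1]) 243 315 = true := by decide +kernel
theorem x017_13 : fam (wl [1,2,4,1,2,2,5,1]) 586 809 = true := by decide +kernel
theorem x017_14 : fam (wl [10,1,2,21]) 96 18 = true := by decide +kernel
theorem x017_15 : fam (wl [1,9,1,2,20,1]) 585 1063 = true := by decide +kernel
theorem x017_16 : fam (wl [1,3,1,1,2,1,3,1,1,2]) 308 482 = true := by decide +kernel
theorem x017_17 : fam (wl [4,1,1,2,1,3,1,1,1,1]) 381 167 = true := by decide +kernel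
theorem x017_18 : fam (wl [1,2,1,5,1,2,2,1,2]) 209 310 = true := by decide +kernel
theorem x017_19 : fam (wl [1,3,1,2,1,6,1,1,2]) 267 422 = true := by decide +kernel
theorem x017_20 : fam (wl [4,1,2,1,6,1,1,1,1]) 428 181 = true := by decide +kernel
theorem x017_21 : fam (wl [3,1,5,1,2,2,1,1,1]) 486 253 = true := by decide +kernel
theorem x017_22 : fam (wl [6,4,2,12]) 504 162 = true := by decide +kernel
theorem x017_23 : fam (wl [3,1,1,2,5,7]) 528 294 = true := by decide +kernel
theorem x017_24 : fam (wl [1,2,1,1,2,5,6,1]) 167 243 = true := by decide +kernel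
theorem x017_25 : fam (wl [1,5,4,2,11,1]) 191 323 = true := by decide +kernel
theorem x017_26 : fam (wl [5,1,1,1,3,11]) 682 242 = true := by decide +kernel
theorem x017_27 : fam (wl [1,5,2,2,2,1,2,2]) 60 102 = true := by decide +kernel
theorem x017_28 : fam (wl [6,2,2,2,1,2,1,1]) 637 199 = true := by decide +kernel
theorem x017_29 : fam (wl [1,4,1,1,1,3,10,1]) 15 27 = true := by decide +kernel
/-- words with first entry from 659 to 711 -/
def L017 : List (List ℕ × ℕ × ℕ) := [([1,7,1,1,3,1,3,2],320,566), ([8,1,1,3,1,3,1,1],337,79), ([1,1,2,1,1,1,4,2,3],174,202), ([2,2,1,1,1,4,2,2,1],497,419), ([2,1,1,3,7,5],624,486), ([1,1,1,1,3,7,4,1],47,59), ([1,1,4,2,2,1,1,1,3],430,474), ([1,1,2,4,1,1,1,2,3],525,622), ([2,2,4,1,1,1,2,2,1],152,125), ([2,4,2,2,1,1,1,2,1],247,223), ([3,4,1,2,2,6],93,58), ([2,1,4,2,1,1,1,5],436,310), ([1,1,1,4,2,1,1,1,4,1],243,315), ([1,2,4,1,2,2,5,1],586,809), ([10,1,2,21],96,18), ([1,9,1,2,20,1],585,1063), ([1,3,1,1,2,1,3,1,1,2],308,482), ([4,1,1,2,1,3,1,1,1,1],381,167),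 ([1,2,1,5,1,2,2,1,2],209,310), ([1,3,1,2,1,6,1,1,2],267,422), ([4,1,2,1,6,1,1,1,1],428,181), ([3,1,5,1,2,2,1,1,1],486,253), ([6,4,2,12],504,162), ([3,1,1,2,5,7],528,294), ([1,2,1,1,2,5,6,1],167,243), ([1,5,4,2,11,1],191,323), ([5,1,1,1,3,11],682,242), ([1,5,2,2,2,1,2,2],60,102), ([6,2,2,2,1,2,1,1],637,199), ([1,4,1,1,1,3,10,1],15,27)]
theorem r017 : rgV L017 659 27 = true := by decide +kernel
theorem f017 : ∀ p ∈ L017, fam (wl p.1) p.2.1 p.2.2 = true := by
  intro p hp
  simp only [L017, List.mem_cons, List.not_mem_nil, or_false] at hp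
  rcases hp with rfl | rfl | rfl | rfl | rfl | rfl | rfl | rfl | rfl | rfl | rfl | rfl | rfl | rfl | rfl | rfl | rfl | rfl | rfl | rfl | rfl | rfl | rfl | rfl | rfl | rfl | rfl | rfl | rfl | rfl
  · exact x017_0
  · exact x017_1
  · exact x017_2
  · exact x017_3
  · exact x017_4
  · exact x017_5
  · exact x017_6
  · exact x017_7
  · exact x017_8
  · exact x017_9
  · exact x017_10
  · exact x017_11
  · exact x017_12
  · exact x017_13
  · exact x017_14
  · exact x017_15
  · exact x017_16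
  · exact x017_17
  · exact x017_18
  · exact x017_19
  · exact x017_20
  · exact x017_21
  · exact x017_22
  · exact x017_23
  · exact x017_24
  · exact x017_25
  · exact x017_26
  · exact x017_27
  · exact x017_28
  · exact x017_29

end Pool.Agent.V5helper47.EV
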