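import Pool.Agent.V5helper47.EV.S2

/-! Search, part of the half words. -/

set_option maxRecDepth 1000000

namespace Pool.Agent.V5helper47.EV

open H419R2 Pool.Agent.N911 Pool.Agent.V5helper47.CN

theorem x018_0 : fam (wl [1,1,1,1,1,2,2,4,3]) 382 474 = true := by decide +kernel
theorem x018_1 : fam (wl [1,2,5,1,11,1,2]) 606 830 = true := by decide +kernel
theorem x018_2 : fam (wl [3,5,1,11,1,1,1]) 105 67 = true := by decide +kernel
theorem x018_3 : fam (wl [2,1,1,1,2,2,4,2,1]) 329 251 = true := by decide +kernel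
theorem x018_4 : fam (wl [2,4,1,1,3,2,4]) 397 358 = true := by decide +kernel
theorem x018_5 : fam (wl [1,1,4,1,1,3,2,3,1]) 320 353 = true := by decide +kernel
theorem x018_6 : fam (wl [18,1,37]) 702 74 = true := by decide +kernel
theorem x018_7 : fam (wl [1,1,12,1,5,1,3]) 607 630 = true := by decide +kernel
theorem x018_8 : fam (wl [2,12,1,5,1,2,1]) 112 109 = true := by decide +kernel
theorem x018_9 : fam (wl [1,17,1,36,1]) 17 35 = true := by decide +kernel
theorem x018_10 : fam (wl [19,38]) 19 2 = true := by decide +kernel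
theorem x018_11 : fam (wl [1,2,1,1,3,1,1,3,1,2]) 179 258 = true := by decide +kernel
theorem x018_12 : fam (wl [3,1,1,3,1,1,3,1,1,1]) 542 305 = true := by decide +kernel
theorem x018_13 : fam (wl [1,18,37,1]) 702 1333 = true := by decide +kernel
theorem x018_14 : fam (wl [1,25,1,12,2]) 551 1062 = true := by decide +kernel
theorem x018_15 : fam (wl [26,1,12,1,1]) 174 13 = true := by decide +kernel
theorem x018_16 : fam (wl [1,2,3,2,1,6,1,2]) 489 682 = true := by decide +kernel
theorem x018_17 : fam (wl [3,3,2,1,6,1,1,1]) 238 145 = true := by decide +kernel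
theorem x018_18 : fam (wl [1,2,6,12,1,2]) 352 482 = true := by decide +kernel
theorem x018_19 : fam (wl [1,26,13,2]) 175 338 = true := by decide +kernel
theorem x018_20 : fam (wl [27,13,1,1]) 554 41 = true := by decide +kernel
theorem x018_21 : fam (wl [3,6,12,1,1,1]) 377 239 = true := by decide +kernel
theorem x018_22 : fam (wl [1,1,13,6,1,3]) 484 502 = true := by decide +kernel
theorem x018_23 : fam (wl [1,14,1,2,7,2]) 148 278 = true := by decide +kernel
theorem x018_24 : fam (wl [15,1,2,7,1,1]) 587 75 = true := by decide +kernel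
theorem x018_25 : fam (wl [2,13,6,1,2,1]) 251 243 = true := by decide +kernel
theorem x018_26 : fam (wl [2,7,2,1,3,4]) 711 666 = true := by decide +kernel
theorem x018_27 : fam (wl [1,1,7,2,1,3,3,1]) 26 29 = true := by decide +kernel
theorem x018_28 : fam (wl [7,3,1,1,14]) 386 106 = true := by decide +kernel
theorem x018_29 : fam (wl [1,6,3,1,1,13,1]) 355 615 = true := by decide +kernel
/-- words with first entry from 713 to 745 -/
def L018 : List (List ℕ × ℕ × ℕ) := [([1,1,1,1,1,2,2,4,3],382,474), ([1,2,5,1,11,1,2],606,830), ([3,5,1,11,1,1,1],105,67), ([2,1,1,1,2,2,4,2,1],329,251), ([2,4,1,1,3,2,4],397,358), ([1,1,4,1,1,3,2,3,1],320,353), ([18,1,37],702,74), ([1,1,12,1,5,1,3],607,630), ([2,12,1,5,1,2,1],112,109), ([1,17,1,36,1],17,35), ([19,38],19,2), ([1,2,1,1,3,1,1,3,1,2],179,258), ([3,1,1,3,1,1,3,1,1,1],542,305), ([1,18,37,1],702,1333), ([1,25,1,12,2],551,1062), ([26,1,12,1,1],174,13), ([1,2,3,2,1,6,1,2],489,682), ([3,3,2,1,6,1,1,1],238,145), ([1,2,6,12,1,2],352,482), ([1,26,13,2],175,338), ([27,13,1,1],554,41),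 ([3,6,12,1,1,1],377,239), ([1,1,13,6,1,3],484,502), ([1,14,1,2,7,2],148,278), ([15,1,2,7,1,1],587,75), ([2,13,6,1,2,1],251,243), ([2,7,2,1,3,4],711,666), ([1,1,7,2,1,3,3,1],26,29), ([7,3,1,1,14],386,106), ([1,6,3,1,1,13,1],355,615)]
theorem r018 : rgV L018 713 17 = true := by decide +kernel
theorem f018 : ∀ p ∈ L018, fam (wl p.1) p.2.1 p.2.2 = true := by
  intro p hp
  simp only [L018, List.mem_cons, List.not_mem_nil, or_false] at hp
  rcases hp with rfl | rfl | rfl | rfl | rfl | rfl | rfl | rfl | rfl | rfl | rfl | rfl | rfl | rfl | rfl | rfl | rfl | rfl | rfl | rfl | rfl | rfl | rfl | rfl | rfl | rfl | rfl | rfl | rfl | rfl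
  · exact x018_0
  · exact x018_1
  · exact x018_2
  · exact x018_3
  · exact x018_4
  · exact x018_5
  · exact x018_6
  · exact x018_7
  · exact x018_8
  · exact x018_9
  · exact x018_10
  · exact x018_11
  · exact x018_12
  · exact x018_13
  · exact x018_14
  · exact x018_15
  · exact x018_16
  · exact x018_17
  · exact x018_18
  · exact x018_19
  · exact x018_20
  · exact x018_21
  · exact x018_22
  · exact x018_23
  · exact x018_24
  · exact x018_25
  · exact x018_26
  · exact x018_27
  · exact x018_28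
  · exact x018_29

end Pool.Agent.V5helper47.EV
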