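import Pool.Agent.V5helper47.EV.S2

/-! Search, part of the half words. -/

set_option maxRecDepth 1000000

namespace Pool.Agent.V5helper47.EV

open H419R2 Pool.Agent.N911 Pool.Agent.V5helper47.CN

theorem x019_0 : fam (wl [1,3,3,1,2,1,1,1,1,2]) 633 970 = true := by decide +kernel
theorem x019_1 : fam (wl [1,3,1,3,7,1,1,2]) 11 18 = true := by decide +kernel
theorem x019_2 : fam (wl [4,1,3,7,1,1,1,1]) 734 309 = true := by decide +kernel
theorem x019_3 : fam (wl [4,3,1,2,1,1,1,1,1,1]) 112 53 = true := by decide +kernel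
theorem x019_4 : fam (wl [1,5,1,1,1,4,1,2,2]) 667 1134 = true := by decide +kernel
theorem x019_5 : fam (wl [6,1,1,1,4,1,2,1,1]) 82 25 = true := by decide +kernel
theorem x019_6 : fam (wl [4,1,2,2,2,9]) 607 258 = true := by decide +kernel
theorem x019_7 : fam (wl [1,7,3,1,1,1,3,2]) 690 1214 = true := by decide +kernel
theorem x019_8 : fam (wl [8,3,1,1,1,3,1,1]) 61 15 = true := by decide +kernel
theorem x019_9 : fam (wl [1,3,1,2,2,2,8,1]) 144 229 = true := by decide +kernel
theorem x019_10 : fam (wl [1,9,2,2,1,4,2]) 317 574 = true := by decide +kernel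
theorem x019_11 : fam (wl [10,2,2,1,4,1,1]) 442 85 = true := by decide +kernel
theorem x019_12 : fam (wl [1,2,1,6,3,2,1,2]) 341 506 = true := by decide +kernel
theorem x019_13 : fam (wl [3,1,6,3,2,1,1,1]) 418 217 = true := by decide +kernel
theorem x019_14 : fam (wl [1,4,1,3,1,1,2,2,2]) 187 310 = true := by decide +kernel
theorem x019_15 : fam (wl [5,1,3,1,1,2,2,1,1]) 580 201 = true := by decide +kernel
theorem x019_16 : fam (wl [1,2,1,1,1,1,3,3,1,2]) 510 738 = true := by decide +kernel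
theorem x019_17 : fam (wl [3,1,1,1,1,3,3,1,1,1]) 257 143 = true := by decide +kernel
theorem x019_18 : fam (wl [11,2,1,22]) 102 18 = true := by decide +kernel
theorem x019_19 : fam (wl [1,1,2,1,2,5,2,3]) 240 278 = true := by decide +kernel
theorem x019_20 : fam (wl [2,2,1,2,5,2,2,1]) 529 447 = true := by decide +kernel
theorem x019_21 : fam (wl [1,10,2,1,21,1]) 667 1219 = true := by decide +kernel
theorem x019_22 : fam (wl [2,1,1,1,1,2,4,5]) 703 538 = true := by decide +kernel
theorem x019_23 : fam (wl [1,1,2,5,2,1,2,3]) 487 578 = true := by decide +kernel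
theorem x019_24 : fam (wl [2,2,5,2,1,2,2,1]) 290 237 = true := by decide +kernel
theorem x019_25 : fam (wl [1,1,1,1,1,1,2,4,4,1]) 74 93 = true := by decide +kernel
theorem x019_26 : fam (wl [1,1,3,1,2,1,2,1,1,3]) 302 338 = true := by decide +kernel
theorem x019_27 : fam (wl [2,3,1,2,1,2,1,1,2,1]) 483 427 = true := by decide +kernel
/-- words with first entry from 747 to 789 -/
def L019 : List (List ℕ × ℕ × ℕ) := [([1,3,3,1,2,1,1,1,1,2],633,970), ([1,3,1,3,7,1,1,2],11,18), ([4,1,3,7,1,1,1,1],734,309), ([4,3,1,2,1,1,1,1,1,1],112,53), ([1,5,1,1,1,4,1,2,2],667,1134), ([6,1,1,1,4,1,2,1,1],82,25), ([4,1,2,2,2,9],607,258), ([1,7,3,1,1,1,3,2],690,1214), ([8,3,1,1,1,3,1,1],61,15), ([1,3,1,2,2,2,8,1],144,229), ([1,9,2,2,1,4,2],317,574), ([10,2,2,1,4,1,1],442,85), ([1,2,1,6,3,2,1,2],341,506), ([3,1,6,3,2,1,1,1],418,217), ([1,4,1,3,1,1,2,2,2],187,310), ([5,1,3,1,1,2,2,1,1],580,201), ([1,2,1,1,1,1,3,3,1,2],510,738), ([3,1,1,1,1,3,3,1,1,1],257,143), ([11,2,1,22],102,18),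 ([1,1,2,1,2,5,2,3],240,278), ([2,2,1,2,5,2,2,1],529,447), ([1,10,2,1,21,1],667,1219), ([2,1,1,1,1,2,4,5],703,538), ([1,1,2,5,2,1,2,3],487,578), ([2,2,5,2,1,2,2,1],290,237), ([1,1,1,1,1,1,2,4,4,1],74,93), ([1,1,3,1,2,1,2,1,1,3],302,338), ([2,3,1,2,1,2,1,1,2,1],483,427)]
theorem r019 : rgV L019 747 22 = true := by decide +kernel
theorem f019 : ∀ p ∈ L019, fam (wl p.1) p.2.1 p.2.2 = true := by
  intro p hp
  simp only [L019, List.mem_cons, List.not_mem_nil, or_false] at hp
  rcases hp with rfl | rfl | rfl | rfl | rfl | rfl | rfl | rfl | rfl | rfl | rfl | rfl | rfl | rfl | rfl | rfl | rfl | rfl | rfl | rfl | rfl | rfl | rfl | rfl | rfl | rfl | rfl | rfl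
  · exact x019_0
  · exact x019_1
  · exact x019_2
  · exact x019_3
  · exact x019_4
  · exact x019_5
  · exact x019_6
  · exact x019_7
  · exact x019_8
  · exact x019_9
  · exact x019_10
  · exact x019_11
  · exact x019_12
  · exact x019_13
  · exact x019_14
  · exact x019_15
  · exact x019_16
  · exact x019_17
  · exact x019_18
  · exact x019_19
  · exact x019_20
  · exact x019_21
  · exact x019_22
  · exact x019_23
  · exact x019_24
  · exact x019_25
  · exact x019_26
  · exact x019_27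

end Pool.Agent.V5helper47.EV
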