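import Pool.Agent.V5helper47.EV.S2

/-! Search, part of the half words. -/

set_option maxRecDepth 1000000

namespace Pool.Agent.V5helper47.EV

open H419R2 Pool.Agent.N911 Pool.Agent.V5helper47.CN

theorem x020_0 : fam (wl [4,1,4,1,1,1,9]) 188 78 = true := by decide +kernel
theorem x020_1 : fam (wl [1,1,1,5,1,12,3]) 586 762 = true := by decide +kernel
theorem x020_2 : fam (wl [2,1,5,1,12,2,1]) 203 143 = true := by decide +kernel
theorem x020_3 : fam (wl [1,3,1,4,1,1,1,8,1]) 601 955 = true := by decide +kernel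
theorem x020_4 : fam (wl [19,1,39]) 779 78 = true := by decide +kernel
theorem x020_5 : fam (wl [1,3,2,2,2,2,1,1,2]) 456 706 = true := by decide +kernel
theorem x020_6 : fam (wl [4,2,2,2,2,1,1,1,1]) 341 155 = true := by decide +kernel
theorem x020_7 : fam (wl [1,18,1,38,1]) 18 37 = true := by decide +kernel
theorem x020_8 : fam (wl [20,40]) 20 2 = true := by decide +kernel
theorem x020_9 : fam (wl [1,15,2,1,7,2]) 563 1058 = true := by decide +kernel
theorem x020_10 : fam (wl [16,2,1,7,1,1]) 236 29 = true := by decide +kernel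
theorem x020_11 : fam (wl [1,19,39,1]) 779 1483 = true := by decide +kernel
theorem x020_12 : fam (wl [1,1,7,1,2,3,1,3]) 782 830 = true := by decide +kernel
theorem x020_13 : fam (wl [1,8,2,4,4,2]) 410 734 = true := by decide +kernel
theorem x020_14 : fam (wl [9,2,4,4,1,1]) 391 83 = true := by decide +kernel
theorem x020_15 : fam (wl [2,7,1,2,3,1,2,1]) 19 19 = true := by decide +kernel
theorem x020_16 : fam (wl [1,3,6,1,2,1,1,1,2]) 470 714 = true := by decide +kernel
theorem x020_17 : fam (wl [4,6,1,2,1,1,1,1,1]) 337 163 = true := by decide +kernel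
theorem x020_18 : fam (wl [1,1,1,6,13,3]) 478 622 = true := by decide +kernel
theorem x020_19 : fam (wl [2,1,6,13,2,1]) 329 231 = true := by decide +kernel
theorem x020_20 : fam (wl [1,2,1,3,2,1,1,2,1,2]) 382 562 = true := by decide +kernel
theorem x020_21 : fam (wl [3,1,3,2,1,1,2,1,1,1]) 427 227 = true := by decide +kernel
theorem x020_22 : fam (wl [11,1,2,23]) 105 18 = true := by decide +kernel
theorem x020_23 : fam (wl [1,1,1,1,2,1,2,1,3,3]) 668 818 = true := by decide +kernel
theorem x020_24 : fam (wl [2,1,1,2,1,2,1,3,2,1]) 147 115 = true := by decide +kernel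
theorem x020_25 : fam (wl [1,10,1,2,22,1]) 710 1301 = true := by decide +kernel
theorem x020_26 : fam (wl [2,1,8,1,3,1,5]) 449 310 = true := by decide +kernel
theorem x020_27 : fam (wl [1,1,1,8,1,3,1,4,1]) 372 489 = true := by decide +kernel
theorem x020_28 : fam (wl [6,1,3,1,1,13]) 549 162 = true := by decide +kernel
theorem x020_29 : fam (wl [1,5,1,3,1,1,12,1]) 276 473 = true := by decide +kernel
/-- words with first entry from 791 to 831 -/
def L020 : List (List ℕ × ℕ × ℕ) := [([4,1,4,1,1,1,9],188,78), ([1,1,1,5,1,12,3],586,762), ([2,1,5,1,12,2,1],203,143), ([1,3,1,4,1,1,1,8,1],601,955), ([19,1,39],779,78), ([1,3,2,2,2,2,1,1,2],456,706), ([4,2,2,2,2,1,1,1,1],341,155), ([1,18,1,38,1],18,37), ([20,40],20,2), ([1,15,2,1,7,2],563,1058), ([16,2,1,7,1,1],236,29), ([1,19,39,1],779,1483), ([1,1,7,1,2,3,1,3],782,830), ([1,8,2,4,4,2],410,734), ([9,2,4,4,1,1],391,83), ([2,7,1,2,3,1,2,1],19,19), ([1,3,6,1,2,1,1,1,2],470,714), ([4,6,1,2,1,1,1,1,1],337,163), ([1,1,1,6,13,3],478,622), ([2,1,6,13,2,1],329,231),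 ([1,2,1,3,2,1,1,2,1,2],382,562), ([3,1,3,2,1,1,2,1,1,1],427,227), ([11,1,2,23],105,18), ([1,1,1,1,2,1,2,1,3,3],668,818), ([2,1,1,2,1,2,1,3,2,1],147,115), ([1,10,1,2,22,1],710,1301), ([2,1,8,1,3,1,5],449,310), ([1,1,1,8,1,3,1,4,1],372,489), ([6,1,3,1,1,13],549,162), ([1,5,1,3,1,1,12,1],276,473)]
theorem r020 : rgV L020 791 21 = true := by decide +kernel
theorem f020 : ∀ p ∈ L020, fam (wl p.1) p.2.1 p.2.2 = true := by
  intro p hp
  simp only [L020, List.mem_cons, List.not_mem_nil, or_false] at hp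
  rcases hp with rfl | rfl | rfl | rfl | rfl | rfl | rfl | rfl | rfl | rfl | rfl | rfl | rfl | rfl | rfl | rfl | rfl | rfl | rfl | rfl | rfl | rfl | rfl | rfl | rfl | rfl | rfl | rfl | rfl | rfl
  · exact x020_0
  · exact x020_1
  · exact x020_2
  · exact x020_3
  · exact x020_4
  · exact x020_5
  · exact x020_6
  · exact x020_7
  · exact x020_8
  · exact x020_9
  · exact x020_10
  · exact x020_11
  · exact x020_12
  · exact x020_13
  · exact x020_14
  · exact x020_15
  · exact x020_16
  · exact x020_17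
  · exact x020_18
  · exact x020_19
  · exact x020_20
  · exact x020_21
  · exact x020_22
  · exact x020_23
  · exact x020_24
  · exact x020_25
  · exact x020_26
  · exact x020_27
  · exact x020_28
  · exact x020_29

end Pool.Agent.V5helper47.EV
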