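import Pool.Agent.V5helper47.EV.S2

/-! Search, part of the half words. -/

set_option maxRecDepth 1000000

namespace Pool.Agent.V5helper47.EV

open H419R2 Pool.Agent.N911 Pool.Agent.V5helper47.CN

theorem x021_0 : fam (wl [7,1,2,2,15]) 455 118 = true := by decide +kernel
theorem x021_1 : fam (wl [2,13,1,6,4]) 495 478 = true := by decide +kernel
theorem x021_2 : fam (wl [1,1,13,1,6,3,1]) 336 349 = true := by decide +kernel
theorem x021_3 : fam (wl [1,6,1,2,2,14,1]) 376 657 = true := by decide +kernel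
theorem x021_4 : fam (wl [1,27,1,13,2]) 216 418 = true := by decide +kernel
theorem x021_5 : fam (wl [28,1,13,1,1]) 621 43 = true := by decide +kernel
theorem x021_6 : fam (wl [2,1,2,1,1,3,2,5]) 405 298 = true := by decide +kernel
theorem x021_7 : fam (wl [1,28,14,2]) 624 1206 = true := by decide +kernel
theorem x021_8 : fam (wl [29,14,1,1]) 217 15 = true := by decide +kernel
theorem x021_9 : fam (wl [1,1,1,2,1,1,3,2,4,1]) 436 553 = true := by decide +kernel
theorem x021_10 : fam (wl [2,14,7,4]) 768 742 = true := by decide +kernel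
theorem x021_11 : fam (wl [1,5,1,2,5,1,2,2]) 457 778 = true := by decide +kernel
theorem x021_12 : fam (wl [6,1,2,5,1,2,1,1]) 390 117 = true := by decide +kernel
theorem x021_13 : fam (wl [1,1,14,7,3,1]) 79 83 = true := by decide +kernel
theorem x021_14 : fam (wl [1,4,3,1,7,2,2]) 191 310 = true := by decide +kernel
theorem x021_15 : fam (wl [5,3,1,7,2,1,1]) 664 253 = true := by decide +kernel
theorem x021_16 : fam (wl [2,1,2,3,1,1,2,5]) 811 602 = true := by decide +kernel
theorem x021_17 : fam (wl [1,1,1,2,3,1,1,2,4,1]) 44 57 = true := by decide +kernel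
theorem x021_18 : fam (wl [2,1,9,4,1,5]) 676 466 = true := by decide +kernel
theorem x021_19 : fam (wl [1,1,1,9,4,1,4,1]) 181 239 = true := by decide +kernel
theorem x021_20 : fam (wl [1,2,2,3,1,1,4,1,2]) 49 70 = true := by decide +kernel
theorem x021_21 : fam (wl [3,2,3,1,1,4,1,1,1]) 812 473 = true := by decide +kernel
theorem x021_22 : fam (wl [1,1,1,3,2,1,7,3]) 477 610 = true := by decide +kernel
theorem x021_23 : fam (wl [1,2,3,1,2,7,1,2]) 485 674 = true := by decide +kernel
theorem x021_24 : fam (wl [3,3,1,2,7,1,1,1]) 380 233 = true := by decide +kernel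
theorem x021_25 : fam (wl [2,1,3,2,1,7,2,1]) 388 281 = true := by decide +kernel
theorem x021_26 : fam (wl [3,5,2,1,2,6]) 653 410 = true := by decide +kernel
theorem x021_27 : fam (wl [1,3,7,3,1,1,1,2]) 146 222 = true := by decide +kernel
theorem x021_28 : fam (wl [4,7,3,1,1,1,1,1]) 725 351 = true := by decide +kernel
theorem x021_29 : fam (wl [1,2,5,2,1,2,5,1]) 218 301 = true := by decide +kernel
/-- words with first entry from 833 to 879 -/
def L021 : List (List ℕ × ℕ × ℕ) := [([7,1,2,2,15],455,118), ([2,13,1,6,4],495,478), ([1,1,13,1,6,3,1],336,349), ([1,6,1,2,2,14,1],376,657), ([1,27,1,13,2],216,418), ([28,1,13,1,1],621,43), ([2,1,2,1,1,3,2,5],405,298), ([1,28,14,2],624,1206), ([29,14,1,1],217,15), ([1,1,1,2,1,1,3,2,4,1],436,553), ([2,14,7,4],768,742), ([1,5,1,2,5,1,2,2],457,778), ([6,1,2,5,1,2,1,1],390,117), ([1,1,14,7,3,1],79,83), ([1,4,3,1,7,2,2],191,310), ([5,3,1,7,2,1,1],664,253), ([2,1,2,3,1,1,2,5],811,602), ([1,1,1,2,3,1,1,2,4,1],44,57), ([2,1,9,4,1,5],676,466), ([1,1,1,9,4,1,4,1],181,239),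 ([1,2,2,3,1,1,4,1,2],49,70), ([3,2,3,1,1,4,1,1,1],812,473), ([1,1,1,3,2,1,7,3],477,610), ([1,2,3,1,2,7,1,2],485,674), ([3,3,1,2,7,1,1,1],380,233), ([2,1,3,2,1,7,2,1],388,281), ([3,5,2,1,2,6],653,410), ([1,3,7,3,1,1,1,2],146,222), ([4,7,3,1,1,1,1,1],725,351), ([1,2,5,2,1,2,5,1],218,301)]
theorem r021 : rgV L021 833 24 = true := by decide +kernel
theorem f021 : ∀ p ∈ L021, fam (wl p.1) p.2.1 p.2.2 = true := by
  intro p hp
  simp only [L021, List.mem_cons, List.not_mem_nil, or_false] at hp
  rcases hp with rfl | rfl | rfl | rfl | rfl | rfl | rfl | rfl | rfl | rfl | rfl | rfl | rfl | rfl | rfl | rfl | rfl | rfl | rfl | rfl | rfl | rfl | rfl | rfl | rfl | rfl | rfl | rfl | rfl | rfl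
  · exact x021_0
  · exact x021_1
  · exact x021_2
  · exact x021_3
  · exact x021_4
  · exact x021_5
  · exact x021_6
  · exact x021_7
  · exact x021_8
  · exact x021_9
  · exact x021_10
  · exact x021_11
  · exact x021_12
  · exact x021_13
  · exact x021_14
  · exact x021_15
  · exact x021_16
  · exact x021_17
  · exact x021_18
  · exact x021_19
  · exact x021_20
  · exact x021_21
  · exact x021_22
  · exact x021_23
  · exact x021_24
  · exact x021_25
  · exact x021_26
  · exact x021_27
  · exact x021_28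
  · exact x021_29

end Pool.Agent.V5helper47.EV
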