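import Pool.Agent.V5helper47.EV.S2

/-! Search, part of the half words. -/

set_option maxRecDepth 1000000

namespace Pool.Agent.V5helper47.EV

open H419R2 Pool.Agent.N911 Pool.Agent.V5helper47.CN

theorem x022_0 : fam (wl [20,1,41]) 860 82 = true := by decide +kernel
theorem x022_1 : fam (wl [1,19,1,40,1]) 19 39 = true := by decide +kernel
theorem x022_2 : fam (wl [2,4,2,4,2,4]) 2 2 = true := by decide +kernel
theorem x022_3 : fam (wl [1,1,4,2,4,2,3,1]) 877 967 = true := by decide +kernel
theorem x022_4 : fam (wl [21,42]) 21 2 = true := by decide +kernel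
theorem x022_5 : fam (wl [1,20,41,1]) 860 1641 = true := by decide +kernel
theorem x022_6 : fam (wl [4,2,1,1,3,1,8]) 338 154 = true := by decide +kernel
theorem x022_7 : fam (wl [1,3,2,1,1,3,1,7,1]) 547 847 = true := by decide +kernel
theorem x022_8 : fam (wl [3,3,2,2,1,1,6]) 688 418 = true := by decide +kernel
theorem x022_9 : fam (wl [1,5,4,1,1,1,1,2,2]) 599 1006 = true := by decide +kernel
theorem x022_10 : fam (wl [6,4,1,1,1,1,2,1,1]) 288 93 = true := by decide +kernel
theorem x022_11 : fam (wl [1,2,3,2,2,1,1,5,1]) 199 279 = true := by decide +kernel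
theorem x022_12 : fam (wl [6,2,1,2,1,12]) 770 242 = true := by decide +kernel
theorem x022_13 : fam (wl [4,1,5,2,1,9]) 857 354 = true := by decide +kernel
theorem x022_14 : fam (wl [1,3,1,5,2,1,8,1]) 32 53 = true := by decide +kernel
theorem x022_15 : fam (wl [1,5,2,1,2,1,11,1]) 119 203 = true := by decide +kernel
theorem x022_16 : fam (wl [1,4,4,8,2,2]) 159 258 = true := by decide +kernel
theorem x022_17 : fam (wl [5,4,8,2,1,1]) 746 285 = true := by decide +kernel
theorem x022_18 : fam (wl [5,5,1,2,10]) 326 126 = true := by decide +kernel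
theorem x022_19 : fam (wl [1,4,5,1,2,9,1]) 583 943 = true := by decide +kernel
theorem x022_20 : fam (wl [12,2,1,24]) 111 18 = true := by decide +kernel
theorem x022_21 : fam (wl [1,4,1,4,2,2,2,2]) 537 890 = true := by decide +kernel
theorem x022_22 : fam (wl [5,1,4,2,2,2,1,1]) 374 129 = true := by decide +kernel
theorem x022_23 : fam (wl [1,11,2,1,23,1]) 800 1473 = true := by decide +kernel
theorem x022_24 : fam (wl [1,6,2,1,5,3,2]) 760 1314 = true := by decide +kernel
theorem x022_25 : fam (wl [7,2,1,5,3,1,1]) 157 43 = true := by decide +kernel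
theorem x022_26 : fam (wl [1,1,4,1,1,3,1,1,1,3]) 169 186 = true := by decide +kernel
theorem x022_27 : fam (wl [1,3,1,1,1,2,4,1,1,2]) 853 1338 = true := by decide +kernel
theorem x022_28 : fam (wl [4,1,1,1,2,4,1,1,1,1]) 66 29 = true := by decide +kernel
theorem x022_29 : fam (wl [2,4,1,1,3,1,1,1,2,1]) 750 677 = true := by decide +kernel
/-- words with first entry from 881 to 927 -/
def L022 : List (List ℕ × ℕ × ℕ) := [([20,1,41],860,82), ([1,19,1,40,1],19,39), ([2,4,2,4,2,4],2,2), ([1,1,4,2,4,2,3,1],877,967), ([21,42],21,2), ([1,20,41,1],860,1641), ([4,2,1,1,3,1,8],338,154), ([1,3,2,1,1,3,1,7,1],547,847), ([3,3,2,2,1,1,6],688,418), ([1,5,4,1,1,1,1,2,2],599,1006), ([6,4,1,1,1,1,2,1,1],288,93), ([1,2,3,2,2,1,1,5,1],199,279), ([6,2,1,2,1,12],770,242), ([4,1,5,2,1,9],857,354), ([1,3,1,5,2,1,8,1],32,53), ([1,5,2,1,2,1,11,1],119,203), ([1,4,4,8,2,2],159,258), ([5,4,8,2,1,1],746,285), ([5,5,1,2,10],326,126), ([1,4,5,1,2,9,1],583,943), ([12,2,1,24],111,18), ([1,4,1,4,2,2,2,2],537,890),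 ([5,1,4,2,2,2,1,1],374,129), ([1,11,2,1,23,1],800,1473), ([1,6,2,1,5,3,2],760,1314), ([7,2,1,5,3,1,1],157,43), ([1,1,4,1,1,3,1,1,1,3],169,186), ([1,3,1,1,1,2,4,1,1,2],853,1338), ([4,1,1,1,2,4,1,1,1,1],66,29), ([2,4,1,1,3,1,1,1,2,1],750,677)]
theorem r022 : rgV L022 881 24 = true := by decide +kernel
theorem f022 : ∀ p ∈ L022, fam (wl p.1) p.2.1 p.2.2 = true := by
  intro p hp
  simp only [L022, List.mem_cons, List.not_mem_nil, or_false] at hp
  rcases hp with rfl | rfl | rfl | rfl | rfl | rfl | rfl | rfl | rfl | rfl | rfl | rfl | rfl | rfl | rfl | rfl | rfl | rfl | rfl | rfl | rfl | rfl | rfl | rfl | rfl | rfl | rfl | rfl | rfl | rfl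
  · exact x022_0
  · exact x022_1
  · exact x022_2
  · exact x022_3
  · exact x022_4
  · exact x022_5
  · exact x022_6
  · exact x022_7
  · exact x022_8
  · exact x022_9
  · exact x022_10
  · exact x022_11
  · exact x022_12
  · exact x022_13
  · exact x022_14
  · exact x022_15
  · exact x022_16
  · exact x022_17
  · exact x022_18
  · exact x022_19
  · exact x022_20
  · exact x022_21
  · exact x022_22
  · exact x022_23
  · exact x022_24
  · exact x022_25
  · exact x022_26
  · exact x022_27
  · exact x022_28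
  · exact x022_29

end Pool.Agent.V5helper47.EV
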