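import Pool.Agent.V5helper47.EV.S2

/-! Search, part of the half words. -/

set_option maxRecDepth 1000000

namespace Pool.Agent.V5helper47.EV

open H419R2 Pool.Agent.N911 Pool.Agent.V5helper47.CN

theorem x023_0 : fam (wl [3,1,6,1,2,1,7]) 925 478 = true := by decide +kernel
theorem x023_1 : fam (wl [1,2,1,6,1,2,1,6,1]) 2 5 = true := by decide +kernel
theorem x023_2 : fam (wl [3,2,1,2,1,2,1,6]) 84 50 = true := by decide +kernel
theorem x023_3 : fam (wl [1,2,2,1,2,1,2,1,5,1]) 843 1187 = true := by decide +kernel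
theorem x023_4 : fam (wl [1,10,1,1,3,5,2]) 375 686 = true := by decide +kernel
theorem x023_5 : fam (wl [11,1,1,3,5,1,1]) 560 97 = true := by decide +kernel
theorem x023_6 : fam (wl [1,16,1,2,8,2]) 662 1250 = true := by decide +kernel
theorem x023_7 : fam (wl [17,1,2,8,1,1]) 273 31 = true := by decide +kernel
theorem x023_8 : fam (wl [7,4,2,14]) 585 162 = true := by decide +kernel
theorem x023_9 : fam (wl [1,1,8,2,1,3,1,3]) 562 594 = true := by decide +kernel
theorem x023_10 : fam (wl [2,8,2,1,3,1,2,1]) 375 355 = true := by decide +kernel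
theorem x023_11 : fam (wl [1,6,4,2,13,1]) 352 609 = true := by decide +kernel
theorem x023_12 : fam (wl [3,9,1,4,6]) 96 62 = true := by decide +kernel
theorem x023_13 : fam (wl [2,2,3,1,7,1,4]) 784 642 = true := by decide +kernel
theorem x023_14 : fam (wl [1,1,2,3,1,7,1,3,1]) 157 187 = true := by decide +kernel
theorem x023_15 : fam (wl [1,2,9,1,4,5,1]) 845 1147 = true := by decide +kernel
theorem x023_16 : fam (wl [3,1,3,1,2,1,1,7]) 337 178 = true := by decide +kernel
theorem x023_17 : fam (wl [1,2,1,3,1,2,1,1,6,1]) 608 897 = true := by decide +kernel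
theorem x023_18 : fam (wl [1,1,14,1,6,1,3]) 207 214 = true := by decide +kernel
theorem x023_19 : fam (wl [2,14,1,6,1,2,1]) 744 721 = true := by decide +kernel
theorem x023_20 : fam (wl [5,3,2,1,1,10]) 577 218 = true := by decide +kernel
theorem x023_21 : fam (wl [1,4,3,2,1,1,9,1]) 374 609 = true := by decide +kernel
theorem x023_22 : fam (wl [1,2,6,1,13,1,2]) 922 1258 = true := by decide +kernel
theorem x023_23 : fam (wl [1,29,1,14,2]) 726 1406 = true := by decide +kernel
theorem x023_24 : fam (wl [30,1,14,1,1]) 231 15 = true := by decide +kernel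
theorem x023_25 : fam (wl [3,6,1,13,1,1,1]) 35 23 = true := by decide +kernel
theorem x023_26 : fam (wl [8,3,1,1,16]) 555 134 = true := by decide +kernel
theorem x023_27 : fam (wl [1,7,3,1,1,15,1]) 404 713 = true := by decide +kernel
/-- words with first entry from 929 to 961 -/
def L023 : List (List ℕ × ℕ × ℕ) := [([3,1,6,1,2,1,7],925,478), ([1,2,1,6,1,2,1,6,1],2,5), ([3,2,1,2,1,2,1,6],84,50), ([1,2,2,1,2,1,2,1,5,1],843,1187), ([1,10,1,1,3,5,2],375,686), ([11,1,1,3,5,1,1],560,97), ([1,16,1,2,8,2],662,1250), ([17,1,2,8,1,1],273,31), ([7,4,2,14],585,162), ([1,1,8,2,1,3,1,3],562,594), ([2,8,2,1,3,1,2,1],375,355), ([1,6,4,2,13,1],352,609), ([3,9,1,4,6],96,62), ([2,2,3,1,7,1,4],784,642), ([1,1,2,3,1,7,1,3,1],157,187), ([1,2,9,1,4,5,1],845,1147), ([3,1,3,1,2,1,1,7],337,178), ([1,2,1,3,1,2,1,1,6,1],608,897), ([1,1,14,1,6,1,3],207,214), ([2,14,1,6,1,2,1],744,721), ([5,3,2,1,1,10],577,218), ([1,4,3,2,1,1,9,1],374,609), ([1,2,6,1,13,1,2],922,1258), ([1,29,1,14,2],726,1406), ([30,1,14,1,1],231,15),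 ([3,6,1,13,1,1,1],35,23), ([8,3,1,1,16],555,134), ([1,7,3,1,1,15,1],404,713)]
theorem r023 : rgV L023 929 17 = true := by decide +kernel
theorem f023 : ∀ p ∈ L023, fam (wl p.1) p.2.1 p.2.2 = true := by
  intro p hp
  simp only [L023, List.mem_cons, List.not_mem_nil, or_false] at hp
  rcases hp with rfl | rfl | rfl | rfl | rfl | rfl | rfl | rfl | rfl | rfl | rfl | rfl | rfl | rfl | rfl | rfl | rfl | rfl | rfl | rfl | rfl | rfl | rfl | rfl | rfl | rfl | rfl | rfl
  · exact x023_0
  · exact x023_1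
  · exact x023_2
  · exact x023_3
  · exact x023_4
  · exact x023_5
  · exact x023_6
  · exact x023_7
  · exact x023_8
  · exact x023_9
  · exact x023_10
  · exact x023_11
  · exact x023_12
  · exact x023_13
  · exact x023_14
  · exact x023_15
  · exact x023_16
  · exact x023_17
  · exact x023_18
  · exact x023_19
  · exact x023_20
  · exact x023_21
  · exact x023_22
  · exact x023_23
  · exact x023_24
  · exact x023_25
  · exact x023_26
  · exact x023_27

end Pool.Agent.V5helper47.EV
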