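import Pool.Agent.V5helper47.EV.S2

/-! Search, part of the half words. -/

set_option maxRecDepth 1000000

namespace Pool.Agent.V5helper47.EV

open H419R2 Pool.Agent.N911 Pool.Agent.V5helper47.CN

theorem x024_0 : fam (wl [12,1,2,25]) 114 18 = true := by decide +kernel
theorem x024_1 : fam (wl [1,30,15,2]) 232 450 = true := by decide +kernel
theorem x024_2 : fam (wl [31,15,1,1]) 729 47 = true := by decide +kernel
theorem x024_3 : fam (wl [1,11,1,2,24,1]) 847 1563 = true := by decide +kernel
theorem x024_4 : fam (wl [21,1,43]) 945 86 = true := by decide +kernel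
theorem x024_5 : fam (wl [1,20,1,42,1]) 20 41 = true := by decide +kernel
theorem x024_6 : fam (wl [22,44]) 22 2 = true := by decide +kernel
theorem x024_7 : fam (wl [6,1,1,1,3,13]) 803 242 = true := by decide +kernel
theorem x024_8 : fam (wl [1,1,15,7,1,3]) 273 282 = true := by decide +kernel
theorem x024_9 : fam (wl [1,1,1,1,1,3,1,1,4,3]) 85 106 = true := by decide +kernel
theorem x024_10 : fam (wl [2,1,1,1,3,1,1,4,2,1]) 882 669 = true := by decide +kernel
theorem x024_11 : fam (wl [2,15,7,1,2,1]) 694 673 = true := by decide +kernel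
theorem x024_12 : fam (wl [1,5,1,1,1,3,12,1]) 164 281 = true := by decide +kernel
theorem x024_13 : fam (wl [1,21,43,1]) 945 1807 = true := by decide +kernel
theorem x024_14 : fam (wl [1,4,2,2,1,4,2,2]) 707 1154 = true := by decide +kernel
theorem x024_15 : fam (wl [5,2,2,1,4,2,1,1]) 262 97 = true := by decide +kernel
theorem x024_16 : fam (wl [4,1,1,1,1,4,9]) 493 214 = true := by decide +kernel
theorem x024_17 : fam (wl [1,3,1,1,1,1,4,8,1]) 482 757 = true := by decide +kernel
theorem x024_18 : fam (wl [1,2,7,14,1,2]) 362 494 = true := by decide +kernel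
theorem x024_19 : fam (wl [3,7,14,1,1,1]) 613 391 = true := by decide +kernel
theorem x024_20 : fam (wl [3,10,5,6]) 226 146 = true := by decide +kernel
theorem x024_21 : fam (wl [1,6,1,1,2,3,3,2]) 185 322 = true := by decide +kernel
theorem x024_22 : fam (wl [7,1,1,2,3,3,1,1]) 792 209 = true := by decide +kernel
theorem x024_23 : fam (wl [1,2,10,5,5,1]) 751 1019 = true := by decide +kernel
theorem x024_24 : fam (wl [2,5,2,2,1,2,4]) 417 382 = true := by decide +kernel
theorem x024_25 : fam (wl [1,1,5,2,2,1,2,3,1]) 564 613 = true := by decide +kernel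
theorem x024_26 : fam (wl [2,2,1,3,1,1,2,1,4]) 139 118 = true := by decide +kernel
theorem x024_27 : fam (wl [1,1,2,1,3,1,1,2,1,3,1]) 850 981 = true := by decide +kernel
/-- words with first entry from 963 to 991 -/
def L024 : List (List ℕ × ℕ × ℕ) := [([12,1,2,25],114,18), ([1,30,15,2],232,450), ([31,15,1,1],729,47), ([1,11,1,2,24,1],847,1563), ([21,1,43],945,86), ([1,20,1,42,1],20,41), ([22,44],22,2), ([6,1,1,1,3,13],803,242), ([1,1,15,7,1,3],273,282), ([1,1,1,1,1,3,1,1,4,3],85,106), ([2,1,1,1,3,1,1,4,2,1],882,669), ([2,15,7,1,2,1],694,673), ([1,5,1,1,1,3,12,1],164,281), ([1,21,43,1],945,1807), ([1,4,2,2,1,4,2,2],707,1154), ([5,2,2,1,4,2,1,1],262,97), ([4,1,1,1,1,4,9],493,214), ([1,3,1,1,1,1,4,8,1],482,757), ([1,2,7,14,1,2],362,494), ([3,7,14,1,1,1],613,391), ([3,10,5,6],226,146), ([1,6,1,1,2,3,3,2],185,322), ([7,1,1,2,3,3,1,1],792,209), ([1,2,10,5,5,1],751,1019), ([2,5,2,2,1,2,4],417,382), ([1,1,5,2,2,1,2,3,1],564,613), ([2,2,1,3,1,1,2,1,4],139,118), ([1,1,2,1,3,1,1,2,1,3,1],850,981)]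
theorem r024 : rgV L024 963 15 = true := by decide +kernel
theorem f024 : ∀ p ∈ L024, fam (wl p.1) p.2.1 p.2.2 = true := by
  intro p hp
  simp only [L024, List.mem_cons, List.not_mem_nil, or_false] at hp
  rcases hp with rfl | rfl | rfl | rfl | rfl | rfl | rfl | rfl | rfl | rfl | rfl | rfl | rfl | rfl | rfl | rfl | rfl | rfl | rfl | rfl | rfl | rfl | rfl | rfl | rfl | rfl | rfl | rfl
  · exact x024_0
  · exact x024_1
  · exact x024_2
  · exact x024_3
  · exact x024_4
  · exact x024_5
  · exact x024_6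
  · exact x024_7
  · exact x024_8
  · exact x024_9
  · exact x024_10
  · exact x024_11
  · exact x024_12
  · exact x024_13
  · exact x024_14
  · exact x024_15
  · exact x024_16
  · exact x024_17
  · exact x024_18
  · exact x024_19
  · exact x024_20
  · exact x024_21
  · exact x024_22
  · exact x024_23
  · exact x024_24
  · exact x024_25
  · exact x024_26
  · exact x024_27

end Pool.Agent.V5helper47.EV
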