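import Pool.Agent.V5helper47.EV.S2

/-! Search, part of the half words. -/

set_option maxRecDepth 1000000

namespace Pool.Agent.V5helper47.EV

open H419R2 Pool.Agent.N911 Pool.Agent.V5helper47.CN

theorem x025_0 : fam (wl [3,1,7,3,1,7]) 252 130 = true := by decide +kernel
theorem x025_1 : fam (wl [2,2,4,8,1,4]) 961 786 = true := by decide +kernel
theorem x025_2 : fam (wl [1,1,2,4,8,1,3,1]) 30 37 = true := by decide +kernel
theorem x025_3 : fam (wl [1,2,1,7,3,1,6,1]) 739 1099 = true := by decide +kernel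
theorem x025_4 : fam (wl [1,1,4,3,1,1,1,1,1,3]) 255 282 = true := by decide +kernel
theorem x025_5 : fam (wl [1,9,1,1,3,1,4,2]) 36 66 = true := by decide +kernel
theorem x025_6 : fam (wl [10,1,1,3,1,4,1,1]) 965 183 = true := by decide +kernel
theorem x025_7 : fam (wl [2,4,3,1,1,1,1,1,2,1]) 746 669 = true := by decide +kernel
theorem x025_8 : fam (wl [1,1,3,2,1,5,1,1,3]) 529 598 = true := by decide +kernel
theorem x025_9 : fam (wl [2,3,2,1,5,1,1,2,1]) 478 417 = true := by decide +kernel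
theorem x025_10 : fam (wl [1,17,2,1,8,2]) 210 398 = true := by decide +kernel
theorem x025_11 : fam (wl [18,2,1,8,1,1]) 797 87 = true := by decide +kernel
theorem x025_12 : fam (wl [5,6,3,10]) 851 330 = true := by decide +kernel
theorem x025_13 : fam (wl [2,8,1,2,4,4]) 721 682 = true := by decide +kernel
theorem x025_14 : fam (wl [1,1,8,1,2,4,3,1]) 288 305 = true := by decide +kernel
theorem x025_15 : fam (wl [1,4,6,3,9,1]) 158 257 = true := by decide +kernel
theorem x025_16 : fam (wl [1,1,1,3,1,2,8,3]) 1012 1298 = true := by decide +kernel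
theorem x025_17 : fam (wl [1,6,3,6,3,2]) 610 1054 = true := by decide +kernel
theorem x025_18 : fam (wl [7,3,6,3,1,1]) 405 111 = true := by decide +kernel
theorem x025_19 : fam (wl [2,1,3,1,2,8,2,1]) 3 3 = true := by decide +kernel
theorem x025_20 : fam (wl [1,3,4,2,1,1,1,1,1,2]) 386 590 = true := by decide +kernel
theorem x025_21 : fam (wl [4,4,2,1,1,1,1,1,1,1]) 631 299 = true := by decide +kernel
theorem x025_22 : fam (wl [1,1,5,1,1,3,2,1,3]) 142 154 = true := by decide +kernel
theorem x025_23 : fam (wl [2,5,1,1,3,2,1,2,1]) 887 815 = true := by decide +kernel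
theorem x025_24 : fam (wl [2,1,1,3,1,8,5]) 570 446 = true := by decide +kernel
theorem x025_25 : fam (wl [1,1,1,1,3,1,8,4,1]) 461 563 = true := by decide +kernel
theorem x025_26 : fam (wl [1,5,5,2,1,1,2,2]) 163 274 = true := by decide +kernel
theorem x025_27 : fam (wl [6,5,2,1,1,2,1,1]) 868 281 = true := by decide +kernel
theorem x025_28 : fam (wl [1,1,1,1,5,1,2,3,3]) 97 118 = true := by decide +kernel
theorem x025_29 : fam (wl [2,1,1,5,1,2,3,2,1]) 940 741 = true := by decide +kernel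
/-- words with first entry from 993 to 1039 -/
def L025 : List (List ℕ × ℕ × ℕ) := [([3,1,7,3,1,7],252,130), ([2,2,4,8,1,4],961,786), ([1,1,2,4,8,1,3,1],30,37), ([1,2,1,7,3,1,6,1],739,1099), ([1,1,4,3,1,1,1,1,1,3],255,282), ([1,9,1,1,3,1,4,2],36,66), ([10,1,1,3,1,4,1,1],965,183), ([2,4,3,1,1,1,1,1,2,1],746,669), ([1,1,3,2,1,5,1,1,3],529,598), ([2,3,2,1,5,1,1,2,1],478,417), ([1,17,2,1,8,2],210,398), ([18,2,1,8,1,1],797,87), ([5,6,3,10],851,330), ([2,8,1,2,4,4],721,682), ([1,1,8,1,2,4,3,1],288,305), ([1,4,6,3,9,1],158,257), ([1,1,1,3,1,2,8,3],1012,1298), ([1,6,3,6,3,2],610,1054), ([7,3,6,3,1,1],405,111), ([2,1,3,1,2,8,2,1],3,3), ([1,3,4,2,1,1,1,1,1,2],386,590), ([4,4,2,1,1,1,1,1,1,1],631,299), ([1,1,5,1,1,3,2,1,3],142,154), ([2,5,1,1,3,2,1,2,1],887,815), ([2,1,1,3,1,8,5],570,446), ([1,1,1,1,3,1,8,4,1],461,563), ([1,5,5,2,1,1,2,2],163,274), ([6,5,2,1,1,2,1,1],868,281), ([1,1,1,1,5,1,2,3,3],97,118), ([2,1,1,5,1,2,3,2,1],940,741)]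
theorem r025 : rgV L025 993 24 = true := by decide +kernel
theorem f025 : ∀ p ∈ L025, fam (wl p.1) p.2.1 p.2.2 = true := by
  intro p hp
  simp only [L025, List.mem_cons, List.not_mem_nil, or_false] at hp
  rcases hp with rfl | rfl | rfl | rfl | rfl | rfl | rfl | rfl | rfl | rfl | rfl | rfl | rfl | rfl | rfl | rfl | rfl | rfl | rfl | rfl | rfl | rfl | rfl | rfl | rfl | rfl | rfl | rfl | rfl | rfl
  · exact x025_0
  · exact x025_1
  · exact x025_2
  · exact x025_3
  · exact x025_4
  · exact x025_5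
  · exact x025_6
  · exact x025_7
  · exact x025_8
  · exact x025_9
  · exact x025_10
  · exact x025_11
  · exact x025_12
  · exact x025_13
  · exact x025_14
  · exact x025_15
  · exact x025_16
  · exact x025_17
  · exact x025_18
  · exact x025_19
  · exact x025_20
  · exact x025_21
  · exact x025_22
  · exact x025_23
  · exact x025_24
  · exact x025_25
  · exact x025_26
  · exact x025_27
  · exact x025_28
  · exact x025_29

end Pool.Agent.V5helper47.EV
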