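import Pool.Agent.V5helper47.EV.S2

/-! Search, part of the half words. -/

set_option maxRecDepth 1000000

namespace Pool.Agent.V5helper47.EV

open H419R2 Pool.Agent.N911 Pool.Agent.V5helper47.CN

theorem x026_0 : fam (wl [2,3,2,2,2,1,1,4]) 612 534 = true := by decide +kernel
theorem x026_1 : fam (wl [1,8,1,2,1,2,4,2]) 1006 1806 = true := by decide +kernel
theorem x026_2 : fam (wl [9,1,2,1,2,4,1,1]) 33 7 = true := by decide +kernel
theorem x026_3 : fam (wl [1,1,3,2,2,2,1,1,3,1]) 427 483 = true := by decide +kernel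
theorem x026_4 : fam (wl [1,1,1,6,1,14,3]) 311 406 = true := by decide +kernel
theorem x026_5 : fam (wl [2,1,6,1,14,2,1]) 736 513 = true := by decide +kernel
theorem x026_6 : fam (wl [4,2,2,4,1,8]) 66 30 = true := by decide +kernel
theorem x026_7 : fam (wl [1,3,2,2,4,1,7,1]) 981 1519 = true := by decide +kernel
theorem x026_8 : fam (wl [1,1,1,1,1,1,1,3,4,3]) 163 202 = true := by decide +kernel
theorem x026_9 : fam (wl [2,1,1,1,1,1,3,4,2,1]) 886 677 = true := by decide +kernel
theorem x026_10 : fam (wl [22,1,45]) 1034 90 = true := by decide +kernel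
theorem x026_11 : fam (wl [4,7,1,3,8]) 260 126 = true := by decide +kernel
theorem x026_12 : fam (wl [1,3,7,1,3,7,1]) 795 1207 = true := by decide +kernel
theorem x026_13 : fam (wl [1,21,1,44,1]) 21 43 = true := by decide +kernel
theorem x026_14 : fam (wl [23,46]) 23 2 = true := by decide +kernel
theorem x026_15 : fam (wl [1,2,2,4,2,4,1,2]) 846 1202 = true := by decide +kernel
theorem x026_16 : fam (wl [3,2,4,2,4,1,1,1]) 211 123 = true := by decide +kernel
theorem x026_17 : fam (wl [1,22,45,1]) 1034 1981 = true := by decide +kernel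
theorem x026_18 : fam (wl [8,1,2,2,17]) 636 146 = true := by decide +kernel
theorem x026_19 : fam (wl [1,7,1,2,2,16,1]) 425 755 = true := by decide +kernel
theorem x026_20 : fam (wl [13,2,1,26]) 120 18 = true := by decide +kernel
theorem x026_21 : fam (wl [1,1,1,7,15,3]) 38 50 = true := by decide +kernel
theorem x026_22 : fam (wl [2,1,7,15,2,1]) 1027 715 = true := by decide +kernel
theorem x026_23 : fam (wl [1,12,2,1,25,1]) 945 1751 = true := by decide +kernel
theorem x026_24 : fam (wl [2,15,1,7,4]) 237 230 = true := by decide +kernel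
theorem x026_25 : fam (wl [1,11,2,2,1,5,2]) 962 1770 = true := by decide +kernel
theorem x026_26 : fam (wl [12,2,2,1,5,1,1]) 117 19 = true := by decide +kernel
theorem x026_27 : fam (wl [1,1,15,1,7,3,1]) 842 869 = true := by decide +kernel
/-- words with first entry from 1041 to 1081 -/
def L026 : List (List ℕ × ℕ × ℕ) := [([2,3,2,2,2,1,1,4],612,534), ([1,8,1,2,1,2,4,2],1006,1806), ([9,1,2,1,2,4,1,1],33,7), ([1,1,3,2,2,2,1,1,3,1],427,483), ([1,1,1,6,1,14,3],311,406), ([2,1,6,1,14,2,1],736,513), ([4,2,2,4,1,8],66,30), ([1,3,2,2,4,1,7,1],981,1519), ([1,1,1,1,1,1,1,3,4,3],163,202), ([2,1,1,1,1,1,3,4,2,1],886,677), ([22,1,45],1034,90), ([4,7,1,3,8],260,126), ([1,3,7,1,3,7,1],795,1207), ([1,21,1,44,1],21,43), ([23,46],23,2), ([1,2,2,4,2,4,1,2],846,1202), ([3,2,4,2,4,1,1,1],211,123), ([1,22,45,1],1034,1981), ([8,1,2,2,17],636,146), ([1,7,1,2,2,16,1],425,755), ([13,2,1,26],120,18), ([1,1,1,7,15,3],38,50), ([2,1,7,15,2,1],1027,715), ([1,12,2,1,25,1],945,1751), ([2,15,1,7,4],237,230), ([1,11,2,2,1,5,2],962,1770),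 ([12,2,2,1,5,1,1],117,19), ([1,1,15,1,7,3,1],842,869)]
theorem r026 : rgV L026 1041 21 = true := by decide +kernel
theorem f026 : ∀ p ∈ L026, fam (wl p.1) p.2.1 p.2.2 = true := by
  intro p hp
  simp only [L026, List.mem_cons, List.not_mem_nil, or_false] at hp
  rcases hp with rfl | rfl | rfl | rfl | rfl | rfl | rfl | rfl | rfl | rfl | rfl | rfl | rfl | rfl | rfl | rfl | rfl | rfl | rfl | rfl | rfl | rfl | rfl | rfl | rfl | rfl | rfl | rfl
  · exact x026_0
  · exact x026_1
  · exact x026_2
  · exact x026_3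
  · exact x026_4
  · exact x026_5
  · exact x026_6
  · exact x026_7
  · exact x026_8
  · exact x026_9
  · exact x026_10
  · exact x026_11
  · exact x026_12
  · exact x026_13
  · exact x026_14
  · exact x026_15
  · exact x026_16
  · exact x026_17
  · exact x026_18
  · exact x026_19
  · exact x026_20
  · exact x026_21
  · exact x026_22
  · exact x026_23
  · exact x026_24
  · exact x026_25
  · exact x026_26
  · exact x026_27

end Pool.Agent.V5helper47.EV
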