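import Pool.Agent.V5helper47.EV.S2

/-! Search, part of the half words. -/

set_option maxRecDepth 1000000

namespace Pool.Agent.V5helper47.EV

open H419R2 Pool.Agent.N911 Pool.Agent.V5helper47.CN

theorem x027_0 : fam (wl [3,1,1,1,2,1,3,7]) 694 382 = true := by decide +kernel
theorem x027_1 : fam (wl [2,1,1,4,9,5]) 268 210 = true := by decide +kernel
theorem x027_2 : fam (wl [1,1,1,1,4,9,4,1]) 813 991 = true := by decide +kernel
theorem x027_3 : fam (wl [1,2,1,1,1,2,1,3,6,1]) 387 563 = true := by decide +kernel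
theorem x027_4 : fam (wl [1,31,1,15,2]) 279 542 = true := by decide +kernel
theorem x027_5 : fam (wl [32,1,15,1,1]) 806 49 = true := by decide +kernel
theorem x027_6 : fam (wl [7,1,3,1,1,15]) 630 162 = true := by decide +kernel
theorem x027_7 : fam (wl [2,1,5,1,2,2,1,5]) 818 574 = true := by decide +kernel
theorem x027_8 : fam (wl [1,1,1,5,1,2,2,1,4,1]) 269 351 = true := by decide +kernel
theorem x027_9 : fam (wl [1,6,1,3,1,1,14,1]) 457 799 = true := by decide +kernel
theorem x027_10 : fam (wl [1,32,16,2]) 809 1570 = true := by decide +kernel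
theorem x027_11 : fam (wl [33,16,1,1]) 280 17 = true := by decide +kernel
theorem x027_12 : fam (wl [1,1,1,2,3,1,1,5,3]) 828 1042 = true := by decide +kernel
theorem x027_13 : fam (wl [2,1,2,3,1,1,5,2,1]) 267 199 = true := by decide +kernel
theorem x027_14 : fam (wl [2,16,8,4]) 307 298 = true := by decide +kernel
theorem x027_15 : fam (wl [1,1,16,8,3,1]) 788 813 = true := by decide +kernel
theorem x027_16 : fam (wl [3,2,2,1,5,1,6]) 154 90 = true := by decide +kernel
theorem x027_17 : fam (wl [1,2,2,2,1,5,1,5,1]) 947 1343 = true := by decide +kernel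
theorem x027_18 : fam (wl [5,1,2,2,2,11]) 542 190 = true := by decide +kernel
theorem x027_19 : fam (wl [1,1,3,3,6,1,1,3]) 51 58 = true := by decide +kernel
theorem x027_20 : fam (wl [2,3,3,6,1,1,2,1]) 1054 917 = true := by decide +kernel
theorem x027_21 : fam (wl [1,4,1,2,2,2,10,1]) 563 931 = true := by decide +kernel
theorem x027_22 : fam (wl [13,1,2,27]) 123 18 = true := by decide +kernel
theorem x027_23 : fam (wl [4,8,4,8]) 4 2 = true := by decide +kernel
theorem x027_24 : fam (wl [1,3,8,4,7,1]) 1115 1691 = true := by decide +kernel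
theorem x027_25 : fam (wl [1,12,1,2,26,1]) 996 1849 = true := by decide +kernel
theorem x027_26 : fam (wl [1,3,2,3,1,1,2,1,1,2]) 605 938 = true := by decide +kernel
theorem x027_27 : fam (wl [4,2,3,1,1,2,1,1,1,1]) 516 233 = true := by decide +kernel
/-- words with first entry from 1083 to 1125 -/
def L027 : List (List ℕ × ℕ × ℕ) := [([3,1,1,1,2,1,3,7],694,382), ([2,1,1,4,9,5],268,210), ([1,1,1,1,4,9,4,1],813,991), ([1,2,1,1,1,2,1,3,6,1],387,563), ([1,31,1,15,2],279,542), ([32,1,15,1,1],806,49), ([7,1,3,1,1,15],630,162), ([2,1,5,1,2,2,1,5],818,574), ([1,1,1,5,1,2,2,1,4,1],269,351), ([1,6,1,3,1,1,14,1],457,799), ([1,32,16,2],809,1570), ([33,16,1,1],280,17), ([1,1,1,2,3,1,1,5,3],828,1042), ([2,1,2,3,1,1,5,2,1],267,199), ([2,16,8,4],307,298), ([1,1,16,8,3,1],788,813), ([3,2,2,1,5,1,6],154,90), ([1,2,2,2,1,5,1,5,1],947,1343), ([5,1,2,2,2,11],542,190), ([1,1,3,3,6,1,1,3],51,58), ([2,3,3,6,1,1,2,1],1054,917), ([1,4,1,2,2,2,10,1],563,931), ([13,1,2,27],123,18), ([4,8,4,8],4,2), ([1,3,8,4,7,1],1115,1691),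 ([1,12,1,2,26,1],996,1849), ([1,3,2,3,1,1,2,1,1,2],605,938), ([4,2,3,1,1,2,1,1,1,1],516,233)]
theorem r027 : rgV L027 1083 22 = true := by decide +kernel
theorem f027 : ∀ p ∈ L027, fam (wl p.1) p.2.1 p.2.2 = true := by
  intro p hp
  simp only [L027, List.mem_cons, List.not_mem_nil, or_false] at hp
  rcases hp with rfl | rfl | rfl | rfl | rfl | rfl | rfl | rfl | rfl | rfl | rfl | rfl | rfl | rfl | rfl | rfl | rfl | rfl | rfl | rfl | rfl | rfl | rfl | rfl | rfl | rfl | rfl | rfl
  · exact x027_0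
  · exact x027_1
  · exact x027_2
  · exact x027_3
  · exact x027_4
  · exact x027_5
  · exact x027_6
  · exact x027_7
  · exact x027_8
  · exact x027_9
  · exact x027_10
  · exact x027_11
  · exact x027_12
  · exact x027_13
  · exact x027_14
  · exact x027_15
  · exact x027_16
  · exact x027_17
  · exact x027_18
  · exact x027_19
  · exact x027_20
  · exact x027_21
  · exact x027_22
  · exact x027_23
  · exact x027_24
  · exact x027_25
  · exact x027_26
  · exact x027_27

end Pool.Agent.V5helper47.EV
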