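import Pool.Agent.V5helper47.EV.S2

/-! Search, part of the half words. -/

set_option maxRecDepth 1000000

namespace Pool.Agent.V5helper47.EV

open H419R2 Pool.Agent.N911 Pool.Agent.V5helper47.CN

theorem x028_0 : fam (wl [3,1,2,2,2,2,7]) 530 286 = true := by decide +kernel
theorem x028_1 : fam (wl [1,3,1,3,1,8,1,1,2]) 342 542 = true := by decide +kernel
theorem x028_2 : fam (wl [4,1,3,1,8,1,1,1,1]) 783 327 = true := by decide +kernel
theorem x028_3 : fam (wl [1,2,1,2,2,2,2,6,1]) 595 871 = true := by decide +kernel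
theorem x028_4 : fam (wl [2,1,3,1,1,3,1,1,5]) 987 710 = true := by decide +kernel
theorem x028_5 : fam (wl [1,1,1,3,1,1,3,1,1,4,1]) 140 181 = true := by decide +kernel
theorem x028_6 : fam (wl [2,2,2,2,1,4,1,4]) 118 98 = true := by decide +kernel
theorem x028_7 : fam (wl [1,1,2,2,2,1,4,1,3,1]) 1009 1183 = true := by decide +kernel
theorem x028_8 : fam (wl [1,1,3,1,1,2,3,1,1,3]) 251 282 = true := by decide +kernel
theorem x028_9 : fam (wl [1,3,2,1,1,3,2,1,1,2]) 1011 1562 = true := by decide +kernel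
theorem x028_10 : fam (wl [4,2,1,1,3,2,1,1,1,1]) 124 57 = true := by decide +kernel
theorem x028_11 : fam (wl [2,3,1,1,2,3,1,1,2,1]) 884 777 = true := by decide +kernel
theorem x028_12 : fam (wl [4,1,1,2,5,9]) 1070 466 = true := by decide +kernel
theorem x028_13 : fam (wl [1,1,1,1,6,3,3,3]) 348 422 = true := by decide +kernel
theorem x028_14 : fam (wl [2,1,1,6,3,3,2,1]) 789 623 = true := by decide +kernel
theorem x028_15 : fam (wl [1,3,1,1,2,5,8,1]) 67 107 = true := by decide +kernel
theorem x028_16 : fam (wl [23,1,47]) 1127 94 = true := by decide +kernel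
theorem x028_17 : fam (wl [1,22,1,46,1]) 22 45 = true := by decide +kernel
theorem x028_18 : fam (wl [5,1,4,1,1,1,11]) 623 214 = true := by decide +kernel
theorem x028_19 : fam (wl [1,4,1,4,1,1,1,10,1]) 528 877 = true := by decide +kernel
theorem x028_20 : fam (wl [24,48]) 24 2 = true := by decide +kernel
theorem x028_21 : fam (wl [1,23,47,1]) 1127 2163 = true := by decide +kernel
theorem x028_22 : fam (wl [1,9,3,1,1,1,4,2]) 559 1010 = true := by decide +kernel
theorem x028_23 : fam (wl [1,18,1,2,9,2]) 245 466 = true := by decide +kernel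
theorem x028_24 : fam (wl [19,1,2,9,1,1]) 914 93 = true := by decide +kernel
theorem x028_25 : fam (wl [10,3,1,1,1,4,1,1]) 600 117 = true := by decide +kernel
theorem x028_26 : fam (wl [2,9,2,1,4,4]) 103 98 = true := by decide +kernel
theorem x028_27 : fam (wl [1,1,9,2,1,4,3,1]) 1058 1113 = true := by decide +kernel
/-- words with first entry from 1127 to 1167 -/
def L028 : List (List ℕ × ℕ × ℕ) := [([3,1,2,2,2,2,7],530,286), ([1,3,1,3,1,8,1,1,2],342,542), ([4,1,3,1,8,1,1,1,1],783,327), ([1,2,1,2,2,2,2,6,1],595,871), ([2,1,3,1,1,3,1,1,5],987,710), ([1,1,1,3,1,1,3,1,1,4,1],140,181), ([2,2,2,2,1,4,1,4],118,98), ([1,1,2,2,2,1,4,1,3,1],1009,1183), ([1,1,3,1,1,2,3,1,1,3],251,282), ([1,3,2,1,1,3,2,1,1,2],1011,1562), ([4,2,1,1,3,2,1,1,1,1],124,57), ([2,3,1,1,2,3,1,1,2,1],884,777), ([4,1,1,2,5,9],1070,466), ([1,1,1,1,6,3,3,3],348,422), ([2,1,1,6,3,3,2,1],789,623), ([1,3,1,1,2,5,8,1],67,107), ([23,1,47],1127,94), ([1,22,1,46,1],22,45), ([5,1,4,1,1,1,11],623,214), ([1,4,1,4,1,1,1,10,1],528,877),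 ([24,48],24,2), ([1,23,47,1],1127,2163), ([1,9,3,1,1,1,4,2],559,1010), ([1,18,1,2,9,2],245,466), ([19,1,2,9,1,1],914,93), ([10,3,1,1,1,4,1,1],600,117), ([2,9,2,1,4,4],103,98), ([1,1,9,2,1,4,3,1],1058,1113)]
theorem r028 : rgV L028 1127 21 = true := by decide +kernel
theorem f028 : ∀ p ∈ L028, fam (wl p.1) p.2.1 p.2.2 = true := by
  intro p hp
  simp only [L028, List.mem_cons, List.not_mem_nil, or_false] at hp
  rcases hp with rfl | rfl | rfl | rfl | rfl | rfl | rfl | rfl | rfl | rfl | rfl | rfl | rfl | rfl | rfl | rfl | rfl | rfl | rfl | rfl | rfl | rfl | rfl | rfl | rfl | rfl | rfl | rfl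
  · exact x028_0
  · exact x028_1
  · exact x028_2
  · exact x028_3
  · exact x028_4
  · exact x028_5
  · exact x028_6
  · exact x028_7
  · exact x028_8
  · exact x028_9
  · exact x028_10
  · exact x028_11
  · exact x028_12
  · exact x028_13
  · exact x028_14
  · exact x028_15
  · exact x028_16
  · exact x028_17
  · exact x028_18
  · exact x028_19
  · exact x028_20
  · exact x028_21
  · exact x028_22
  · exact x028_23
  · exact x028_24
  · exact x028_25
  · exact x028_26
  · exact x028_27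

end Pool.Agent.V5helper47.EV
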