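import Pool.Agent.V5helper47.EV.S2

/-! Search, part of the half words. -/

set_option maxRecDepth 1000000

namespace Pool.Agent.V5helper47.EV

open H419R2 Pool.Agent.N911 Pool.Agent.V5helper47.CN

theorem x030_0 : fam (wl [9,3,1,1,18]) 752 162 = true := by decide +kernel
theorem x030_1 : fam (wl [2,1,10,1,4,1,5]) 994 682 = true := by decide +kernel
theorem x030_2 : fam (wl [1,1,1,10,1,4,1,4,1]) 211 279 = true := by decide +kernel
theorem x030_3 : fam (wl [1,8,3,1,1,17,1]) 453 811 = true := by decide +kernel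
theorem x030_4 : fam (wl [1,1,16,1,7,1,3]) 721 742 = true := by decide +kernel
theorem x030_5 : fam (wl [2,16,1,7,1,2,1]) 494 481 = true := by decide +kernel
theorem x030_6 : fam (wl [8,4,2,16]) 666 162 = true := by decide +kernel
theorem x030_7 : fam (wl [1,7,4,2,15,1]) 549 967 = true := by decide +kernel
theorem x030_8 : fam (wl [1,33,1,16,2]) 925 1798 = true := by decide +kernel
theorem x030_9 : fam (wl [34,1,16,1,1]) 296 17 = true := by decide +kernel
theorem x030_10 : fam (wl [3,3,1,1,3,1,1,6]) 843 514 = true := by decide +kernel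
theorem x030_11 : fam (wl [1,34,17,2]) 297 578 = true := by decide +kernel
theorem x030_12 : fam (wl [35,17,1,1]) 928 53 = true := by decide +kernel
theorem x030_13 : fam (wl [1,2,3,1,1,3,1,1,5,1]) 382 533 = true := by decide +kernel
theorem x030_14 : fam (wl [1,2,1,2,1,1,3,1,2,1,2]) 901 1318 = true := by decide +kernel
theorem x030_15 : fam (wl [3,1,2,1,1,3,1,2,1,1,1]) 328 177 = true := by decide +kernel
theorem x030_16 : fam (wl [14,2,1,28]) 129 18 = true := by decide +kernel
theorem x030_17 : fam (wl [1,1,17,8,1,3]) 1118 1150 = true := by decide +kernel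
theorem x030_18 : fam (wl [2,17,8,1,2,1]) 113 111 = true := by decide +kernel
theorem x030_19 : fam (wl [1,13,2,1,27,1]) 1102 2053 = true := by decide +kernel
theorem x030_20 : fam (wl [2,1,1,1,3,1,1,3,5]) 182 138 = true := by decide +kernel
theorem x030_21 : fam (wl [1,2,7,1,15,1,2]) 504 686 = true := by decide +kernel
theorem x030_22 : fam (wl [3,7,1,15,1,1,1]) 735 471 = true := by decide +kernel
theorem x030_23 : fam (wl [1,1,1,1,1,3,1,1,3,4,1]) 1057 1315 = true := by decide +kernel
theorem x030_24 : fam (wl [1,4,2,1,2,5,2,2]) 308 502 = true := by decide +kernel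
theorem x030_25 : fam (wl [1,19,2,1,9,2]) 884 1682 = true := by decide +kernel
theorem x030_26 : fam (wl [20,2,1,9,1,1]) 355 35 = true := by decide +kernel
theorem x030_27 : fam (wl [5,2,1,2,5,2,1,1]) 931 347 = true := by decide +kernel
/-- words with first entry from 1207 to 1241 -/
def L030 : List (List ℕ × ℕ × ℕ) := [([9,3,1,1,18],752,162), ([2,1,10,1,4,1,5],994,682), ([1,1,1,10,1,4,1,4,1],211,279), ([1,8,3,1,1,17,1],453,811), ([1,1,16,1,7,1,3],721,742), ([2,16,1,7,1,2,1],494,481), ([8,4,2,16],666,162), ([1,7,4,2,15,1],549,967), ([1,33,1,16,2],925,1798), ([34,1,16,1,1],296,17), ([3,3,1,1,3,1,1,6],843,514), ([1,34,17,2],297,578), ([35,17,1,1],928,53), ([1,2,3,1,1,3,1,1,5,1],382,533), ([1,2,1,2,1,1,3,1,2,1,2],901,1318), ([3,1,2,1,1,3,1,2,1,1,1],328,177), ([14,2,1,28],129,18), ([1,1,17,8,1,3],1118,1150), ([2,17,8,1,2,1],113,111), ([1,13,2,1,27,1],1102,2053), ([2,1,1,1,3,1,1,3,5],182,138), ([1,2,7,1,15,1,2],504,686), ([3,7,1,15,1,1,1],735,471), ([1,1,1,1,1,3,1,1,3,4,1],1057,1315), ([1,4,2,1,2,5,2,2],308,502),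 ([1,19,2,1,9,2],884,1682), ([20,2,1,9,1,1],355,35), ([5,2,1,2,5,2,1,1],931,347)]
theorem r030 : rgV L030 1207 18 = true := by decide +kernel
theorem f030 : ∀ p ∈ L030, fam (wl p.1) p.2.1 p.2.2 = true := by
  intro p hp
  simp only [L030, List.mem_cons, List.not_mem_nil, or_false] at hp
  rcases hp with rfl | rfl | rfl | rfl | rfl | rfl | rfl | rfl | rfl | rfl | rfl | rfl | rfl | rfl | rfl | rfl | rfl | rfl | rfl | rfl | rfl | rfl | rfl | rfl | rfl | rfl | rfl | rfl
  · exact x030_0
  · exact x030_1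
  · exact x030_2
  · exact x030_3
  · exact x030_4
  · exact x030_5
  · exact x030_6
  · exact x030_7
  · exact x030_8
  · exact x030_9
  · exact x030_10
  · exact x030_11
  · exact x030_12
  · exact x030_13
  · exact x030_14
  · exact x030_15
  · exact x030_16
  · exact x030_17
  · exact x030_18
  · exact x030_19
  · exact x030_20
  · exact x030_21
  · exact x030_22
  · exact x030_23
  · exact x030_24
  · exact x030_25
  · exact x030_26
  · exact x030_27

end Pool.Agent.V5helper47.EV
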