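import Pool.Agent.V5helper47.EV.S2

/-! Search, part of the half words. -/

set_option maxRecDepth 1000000

namespace Pool.Agent.V5helper47.EV

open H419R2 Pool.Agent.N911 Pool.Agent.V5helper47.CN

theorem x031_0 : fam (wl [2,1,11,5,1,5]) 633 434 = true := by decide +kernel
theorem x031_1 : fam (wl [1,1,9,1,2,4,1,3]) 1054 1106 = true := by decide +kernel
theorem x031_2 : fam (wl [2,9,1,2,4,1,2,1]) 187 179 = true := by decide +kernel
theorem x031_3 : fam (wl [1,1,1,11,5,1,4,1]) 608 801 = true := by decide +kernel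
theorem x031_4 : fam (wl [24,1,49]) 1224 98 = true := by decide +kernel
theorem x031_5 : fam (wl [1,23,1,48,1]) 23 47 = true := by decide +kernel
theorem x031_6 : fam (wl [1,1,2,1,1,2,1,3,2,3]) 404 470 = true := by decide +kernel
theorem x031_7 : fam (wl [2,2,1,1,2,1,3,2,2,1]) 843 707 = true := by decide +kernel
theorem x031_8 : fam (wl [25,50]) 25 2 = true := by decide +kernel
theorem x031_9 : fam (wl [3,1,4,2,1,1,1,7]) 797 418 = true := by decide +kernel
theorem x031_10 : fam (wl [1,2,1,4,2,1,1,1,6,1]) 452 669 = true := by decide +kernel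
theorem x031_11 : fam (wl [1,24,49,1]) 1224 2353 = true := by decide +kernel
theorem x031_12 : fam (wl [1,1,2,3,1,2,1,1,2,3]) 801 946 = true := by decide +kernel
theorem x031_13 : fam (wl [1,2,1,8,4,2,1,2]) 1153 1714 = true := by decide +kernel
theorem x031_14 : fam (wl [3,1,8,4,2,1,1,1]) 102 53 = true := by decide +kernel
theorem x031_15 : fam (wl [2,2,3,1,2,1,1,2,2,1]) 454 373 = true := by decide +kernel
theorem x031_16 : fam (wl [1,2,8,16,1,2]) 1166 1586 = true := by decide +kernel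
theorem x031_17 : fam (wl [3,8,16,1,1,1]) 91 59 = true := by decide +kernel
theorem x031_18 : fam (wl [2,3,4,1,1,1,1,1,4]) 321 278 = true := by decide +kernel
theorem x031_19 : fam (wl [1,7,1,1,1,4,1,3,2]) 306 542 = true := by decide +kernel
theorem x031_20 : fam (wl [8,1,1,1,4,1,3,1,1]) 963 223 = true := by decide +kernel
theorem x031_21 : fam (wl [1,1,3,4,1,1,1,1,1,3,1]) 948 1077 = true := by decide +kernel
theorem x031_22 : fam (wl [1,1,5,2,4,2,1,3]) 865 938 = true := by decide +kernel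
theorem x031_23 : fam (wl [1,2,1,1,2,2,2,3,1,2]) 442 638 = true := by decide +kernel
theorem x031_24 : fam (wl [3,1,1,2,2,2,3,1,1,1]) 829 463 = true := by decide +kernel
theorem x031_25 : fam (wl [2,5,2,4,2,1,2,1]) 406 373 = true := by decide +kernel
theorem x031_26 : fam (wl [1,4,1,1,2,2,3,2,2]) 108 178 = true := by decide +kernel
theorem x031_27 : fam (wl [5,1,1,2,2,3,2,1,1]) 1169 419 = true := by decide +kernel
theorem x031_28 : fam (wl [7,1,1,1,3,15]) 924 242 = true := by decide +kernel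
theorem x031_29 : fam (wl [1,6,1,1,1,3,14,1]) 357 623 = true := by decide +kernel
/-- words with first entry from 1243 to 1287 -/
def L031 : List (List ℕ × ℕ × ℕ) := [([2,1,11,5,1,5],633,434), ([1,1,9,1,2,4,1,3],1054,1106), ([2,9,1,2,4,1,2,1],187,179), ([1,1,1,11,5,1,4,1],608,801), ([24,1,49],1224,98), ([1,23,1,48,1],23,47), ([1,1,2,1,1,2,1,3,2,3],404,470), ([2,2,1,1,2,1,3,2,2,1],843,707), ([25,50],25,2), ([3,1,4,2,1,1,1,7],797,418), ([1,2,1,4,2,1,1,1,6,1],452,669), ([1,24,49,1],1224,2353), ([1,1,2,3,1,2,1,1,2,3],801,946), ([1,2,1,8,4,2,1,2],1153,1714), ([3,1,8,4,2,1,1,1],102,53), ([2,2,3,1,2,1,1,2,2,1],454,373), ([1,2,8,16,1,2],1166,1586), ([3,8,16,1,1,1],91,59), ([2,3,4,1,1,1,1,1,4],321,278), ([1,7,1,1,1,4,1,3,2],306,542), ([8,1,1,1,4,1,3,1,1],963,223), ([1,1,3,4,1,1,1,1,1,3,1],948,1077), ([1,1,5,2,4,2,1,3],865,938), ([1,2,1,1,2,2,2,3,1,2],442,638), ([3,1,1,2,2,2,3,1,1,1],829,463), ([2,5,2,4,2,1,2,1],406,373), ([1,4,1,1,2,2,3,2,2],108,178), ([5,1,1,2,2,3,2,1,1],1169,419),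 ([7,1,1,1,3,15],924,242), ([1,6,1,1,1,3,14,1],357,623)]
theorem r031 : rgV L031 1243 23 = true := by decide +kernel
theorem f031 : ∀ p ∈ L031, fam (wl p.1) p.2.1 p.2.2 = true := by
  intro p hp
  simp only [L031, List.mem_cons, List.not_mem_nil, or_false] at hp
  rcases hp with rfl | rfl | rfl | rfl | rfl | rfl | rfl | rfl | rfl | rfl | rfl | rfl | rfl | rfl | rfl | rfl | rfl | rfl | rfl | rfl | rfl | rfl | rfl | rfl | rfl | rfl | rfl | rfl | rfl | rfl
  · exact x031_0
  · exact x031_1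
  · exact x031_2
  · exact x031_3
  · exact x031_4
  · exact x031_5
  · exact x031_6
  · exact x031_7
  · exact x031_8
  · exact x031_9
  · exact x031_10
  · exact x031_11
  · exact x031_12
  · exact x031_13
  · exact x031_14
  · exact x031_15
  · exact x031_16
  · exact x031_17
  · exact x031_18
  · exact x031_19
  · exact x031_20
  · exact x031_21
  · exact x031_22
  · exact x031_23
  · exact x031_24
  · exact x031_25
  · exact x031_26
  · exact x031_27
  · exact x031_28
  · exact x031_29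

end Pool.Agent.V5helper47.EV
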