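import Pool.Agent.V5helper47.EV.S2

/-! Search, part of the half words. -/

set_option maxRecDepth 1000000

namespace Pool.Agent.V5helper47.EV

open H419R2 Pool.Agent.N911 Pool.Agent.V5helper47.CN

theorem x032_0 : fam (wl [1,12,1,1,3,6,2]) 1132 2098 = true := by decide +kernel
theorem x032_1 : fam (wl [13,1,1,3,6,1,1]) 155 23 = true := by decide +kernel
theorem x032_2 : fam (wl [3,3,3,1,1,1,1,6]) 1193 722 = true := by decide +kernel
theorem x032_3 : fam (wl [1,2,3,3,1,1,1,1,5,1]) 94 133 = true := by decide +kernel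
theorem x032_4 : fam (wl [14,1,2,29]) 132 18 = true := by decide +kernel
theorem x032_5 : fam (wl [1,13,1,2,28,1]) 1157 2159 = true := by decide +kernel
theorem x032_6 : fam (wl [6,5,1,2,12]) 809 262 = true := by decide +kernel
theorem x032_7 : fam (wl [1,5,5,1,2,11,1]) 486 817 = true := by decide +kernel
theorem x032_8 : fam (wl [5,1,5,2,1,11]) 812 278 = true := by decide +kernel
theorem x032_9 : fam (wl [1,4,1,5,2,1,10,1]) 483 803 = true := by decide +kernel
theorem x032_10 : fam (wl [3,1,1,3,7,7]) 189 106 = true := by decide +kernel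
theorem x032_11 : fam (wl [2,1,1,2,2,1,5,5]) 965 746 = true := by decide +kernel
theorem x032_12 : fam (wl [1,1,1,1,2,2,1,5,4,1]) 332 409 = true := by decide +kernel
theorem x032_13 : fam (wl [1,2,1,1,3,7,6,1]) 1108 1597 = true := by decide +kernel
theorem x032_14 : fam (wl [1,1,2,1,2,1,6,2,3]) 497 574 = true := by decide +kernel
theorem x032_15 : fam (wl [2,2,1,2,1,6,2,2,1]) 804 681 = true := by decide +kernel
theorem x032_16 : fam (wl [3,2,1,1,2,3,1,6]) 545 322 = true := by decide +kernel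
theorem x032_17 : fam (wl [1,2,2,1,1,2,3,1,5,1]) 760 1073 = true := by decide +kernel
theorem x032_18 : fam (wl [1,1,2,6,1,2,1,2,3]) 994 1182 = true := by decide +kernel
theorem x032_19 : fam (wl [2,2,6,1,2,1,2,2,1]) 323 263 = true := by decide +kernel
theorem x032_20 : fam (wl [9,1,2,2,19]) 845 174 = true := by decide +kernel
theorem x032_21 : fam (wl [1,8,1,2,2,18,1]) 474 853 = true := by decide +kernel
theorem x032_22 : fam (wl [2,5,1,1,3,1,2,4]) 1166 1070 = true := by decide +kernel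
theorem x032_23 : fam (wl [1,1,5,1,1,3,1,2,3,1]) 153 167 = true := by decide +kernel
theorem x032_24 : fam (wl [1,4,4,1,9,2,2]) 137 222 = true := by decide +kernel
theorem x032_25 : fam (wl [5,4,1,9,2,1,1]) 1188 457 = true := by decide +kernel
theorem x032_26 : fam (wl [3,6,1,2,3,6]) 847 538 = true := by decide +kernel
theorem x032_27 : fam (wl [2,1,6,2,1,2,1,5]) 186 130 = true := by decide +kernel
theorem x032_28 : fam (wl [1,1,1,6,2,1,2,1,4,1]) 1141 1487 = true := by decide +kernel
theorem x032_29 : fam (wl [1,2,6,1,2,3,5,1]) 480 657 = true := by decide +kernel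
/-- words with first entry from 1289 to 1329 -/
def L032 : List (List ℕ × ℕ × ℕ) := [([1,12,1,1,3,6,2],1132,2098), ([13,1,1,3,6,1,1],155,23), ([3,3,3,1,1,1,1,6],1193,722), ([1,2,3,3,1,1,1,1,5,1],94,133), ([14,1,2,29],132,18), ([1,13,1,2,28,1],1157,2159), ([6,5,1,2,12],809,262), ([1,5,5,1,2,11,1],486,817), ([5,1,5,2,1,11],812,278), ([1,4,1,5,2,1,10,1],483,803), ([3,1,1,3,7,7],189,106), ([2,1,1,2,2,1,5,5],965,746), ([1,1,1,1,2,2,1,5,4,1],332,409), ([1,2,1,1,3,7,6,1],1108,1597), ([1,1,2,1,2,1,6,2,3],497,574), ([2,2,1,2,1,6,2,2,1],804,681), ([3,2,1,1,2,3,1,6],545,322), ([1,2,2,1,1,2,3,1,5,1],760,1073), ([1,1,2,6,1,2,1,2,3],994,1182), ([2,2,6,1,2,1,2,2,1],323,263), ([9,1,2,2,19],845,174), ([1,8,1,2,2,18,1],474,853), ([2,5,1,1,3,1,2,4],1166,1070), ([1,1,5,1,1,3,1,2,3,1],153,167), ([1,4,4,1,9,2,2],137,222), ([5,4,1,9,2,1,1],1188,457), ([3,6,1,2,3,6],847,538), ([2,1,6,2,1,2,1,5],186,130), ([1,1,1,6,2,1,2,1,4,1],1141,1487), ([1,2,6,1,2,3,5,1],480,657)]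
theorem r032 : rgV L032 1289 21 = true := by decide +kernel
theorem f032 : ∀ p ∈ L032, fam (wl p.1) p.2.1 p.2.2 = true := by
  intro p hp
  simp only [L032, List.mem_cons, List.not_mem_nil, or_false] at hp
  rcases hp with rfl | rfl | rfl | rfl | rfl | rfl | rfl | rfl | rfl | rfl | rfl | rfl | rfl | rfl | rfl | rfl | rfl | rfl | rfl | rfl | rfl | rfl | rfl | rfl | rfl | rfl | rfl | rfl | rfl | rfl
  · exact x032_0
  · exact x032_1
  · exact x032_2
  · exact x032_3
  · exact x032_4
  · exact x032_5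
  · exact x032_6
  · exact x032_7
  · exact x032_8
  · exact x032_9
  · exact x032_10
  · exact x032_11
  · exact x032_12
  · exact x032_13
  · exact x032_14
  · exact x032_15
  · exact x032_16
  · exact x032_17
  · exact x032_18
  · exact x032_19
  · exact x032_20
  · exact x032_21
  · exact x032_22
  · exact x032_23
  · exact x032_24
  · exact x032_25
  · exact x032_26
  · exact x032_27
  · exact x032_28
  · exact x032_29

end Pool.Agent.V5helper47.EV
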