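import Pool.Agent.V5helper47.EV.S2

/-! Search, part of the half words. -/

set_option maxRecDepth 1000000

namespace Pool.Agent.V5helper47.EV

open H419R2 Pool.Agent.N911 Pool.Agent.V5helper47.CN

theorem x033_0 : fam (wl [2,3,1,2,5,1,1,4]) 529 466 = true := by decide +kernel
theorem x033_1 : fam (wl [1,1,3,1,2,5,1,1,3,1]) 800 897 = true := by decide +kernel
theorem x033_2 : fam (wl [5,2,1,1,3,1,10]) 1159 430 = true := by decide +kernel
theorem x033_3 : fam (wl [1,3,8,1,3,1,1,1,2]) 67 102 = true := by decide +kernel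
theorem x033_4 : fam (wl [4,8,1,3,1,1,1,1,1]) 1268 617 = true := by decide +kernel
theorem x033_5 : fam (wl [1,4,2,1,1,3,1,9,1]) 176 289 = true := by decide +kernel
theorem x033_6 : fam (wl [1,1,6,2,2,1,2,1,3]) 356 382 = true := by decide +kernel
theorem x033_7 : fam (wl [1,1,1,7,1,16,3]) 249 326 = true := by decide +kernel
theorem x033_8 : fam (wl [2,1,7,1,16,2,1]) 1092 757 = true := by decide +kernel
theorem x033_9 : fam (wl [2,6,2,2,1,2,1,2,1]) 985 915 = true := by decide +kernel
theorem x033_10 : fam (wl [6,3,2,1,1,12]) 472 150 = true := by decide +kernel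
theorem x033_11 : fam (wl [1,4,1,2,1,2,1,2,2,2]) 621 1026 = true := by decide +kernel
theorem x033_12 : fam (wl [5,1,2,1,2,1,2,2,1,1]) 724 253 = true := by decide +kernel
theorem x033_13 : fam (wl [1,5,3,2,1,1,11,1]) 873 1471 = true := by decide +kernel
theorem x033_14 : fam (wl [25,1,51]) 1325 102 = true := by decide +kernel
theorem x033_15 : fam (wl [3,11,1,5,6]) 663 430 = true := by decide +kernel
theorem x033_16 : fam (wl [1,2,11,1,5,5,1]) 686 929 = true := by decide +kernel
theorem x033_17 : fam (wl [1,24,1,50,1]) 24 49 = true := by decide +kernel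
theorem x033_18 : fam (wl [26,52]) 26 2 = true := by decide +kernel
theorem x033_19 : fam (wl [1,1,1,2,4,2,5,3]) 1176 1478 = true := by decide +kernel
theorem x033_20 : fam (wl [1,1,1,4,2,1,9,3]) 746 962 = true := by decide +kernel
theorem x033_21 : fam (wl [1,2,4,1,2,9,1,2]) 756 1042 = true := by decide +kernel
theorem x033_22 : fam (wl [3,4,1,2,9,1,1,1]) 595 371 = true := by decide +kernel
theorem x033_23 : fam (wl [2,1,4,2,1,9,2,1]) 605 431 = true := by decide +kernel
theorem x033_24 : fam (wl [2,1,2,4,2,5,2,1]) 175 131 = true := by decide +kernel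
theorem x033_25 : fam (wl [1,25,51,1]) 1325 2551 = true := by decide +kernel
theorem x033_26 : fam (wl [2,17,1,8,4]) 1149 1118 = true := by decide +kernel
theorem x033_27 : fam (wl [1,1,17,1,8,3,1]) 210 217 = true := by decide +kernel
theorem x033_28 : fam (wl [1,1,1,8,17,3]) 200 262 = true := by decide +kernel
theorem x033_29 : fam (wl [2,1,8,17,2,1]) 1159 803 = true := by decide +kernel
/-- words with first entry from 1331 to 1365 -/
def L033 : List (List ℕ × ℕ × ℕ) := [([2,3,1,2,5,1,1,4],529,466), ([1,1,3,1,2,5,1,1,3,1],800,897), ([5,2,1,1,3,1,10],1159,430), ([1,3,8,1,3,1,1,1,2],67,102), ([4,8,1,3,1,1,1,1,1],1268,617), ([1,4,2,1,1,3,1,9,1],176,289), ([1,1,6,2,2,1,2,1,3],356,382), ([1,1,1,7,1,16,3],249,326), ([2,1,7,1,16,2,1],1092,757), ([2,6,2,2,1,2,1,2,1],985,915), ([6,3,2,1,1,12],472,150), ([1,4,1,2,1,2,1,2,2,2],621,1026), ([5,1,2,1,2,1,2,2,1,1],724,253), ([1,5,3,2,1,1,11,1],873,1471), ([25,1,51],1325,102), ([3,11,1,5,6],663,430), ([1,2,11,1,5,5,1],686,929), ([1,24,1,50,1],24,49),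 ([26,52],26,2), ([1,1,1,2,4,2,5,3],1176,1478), ([1,1,1,4,2,1,9,3],746,962), ([1,2,4,1,2,9,1,2],756,1042), ([3,4,1,2,9,1,1,1],595,371), ([2,1,4,2,1,9,2,1],605,431), ([2,1,2,4,2,5,2,1],175,131), ([1,25,51,1],1325,2551), ([2,17,1,8,4],1149,1118), ([1,1,17,1,8,3,1],210,217), ([1,1,1,8,17,3],200,262), ([2,1,8,17,2,1],1159,803)]
theorem r033 : rgV L033 1331 18 = true := by decide +kernel
theorem f033 : ∀ p ∈ L033, fam (wl p.1) p.2.1 p.2.2 = true := by
  intro p hp
  simp only [L033, List.mem_cons, List.not_mem_nil, or_false] at hp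
  rcases hp with rfl | rfl | rfl | rfl | rfl | rfl | rfl | rfl | rfl | rfl | rfl | rfl | rfl | rfl | rfl | rfl | rfl | rfl | rfl | rfl | rfl | rfl | rfl | rfl | rfl | rfl | rfl | rfl | rfl | rfl
  · exact x033_0
  · exact x033_1
  · exact x033_2
  · exact x033_3
  · exact x033_4
  · exact x033_5
  · exact x033_6
  · exact x033_7
  · exact x033_8
  · exact x033_9
  · exact x033_10
  · exact x033_11
  · exact x033_12
  · exact x033_13
  · exact x033_14
  · exact x033_15
  · exact x033_16
  · exact x033_17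
  · exact x033_18
  · exact x033_19
  · exact x033_20
  · exact x033_21
  · exact x033_22
  · exact x033_23
  · exact x033_24
  · exact x033_25
  · exact x033_26
  · exact x033_27
  · exact x033_28
  · exact x033_29

end Pool.Agent.V5helper47.EV
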