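import Pool.Agent.V5helper47.EV.S2

/-! Search, part of the half words. -/

set_option maxRecDepth 1000000

namespace Pool.Agent.V5helper47.EV

open H419R2 Pool.Agent.N911 Pool.Agent.V5helper47.CN

theorem x034_0 : fam (wl [1,35,1,17,2]) 350 682 = true := by decide +kernel
theorem x034_1 : fam (wl [36,1,17,1,1]) 1015 55 = true := by decide +kernel
theorem x034_2 : fam (wl [2,1,3,2,4,1,1,5]) 47 34 = true := by decide +kernel
theorem x034_3 : fam (wl [1,36,18,2]) 1018 1982 = true := by decide +kernel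
theorem x034_4 : fam (wl [37,18,1,1]) 351 19 = true := by decide +kernel
theorem x034_5 : fam (wl [1,1,1,3,2,4,1,1,4,1]) 1322 1693 = true := by decide +kernel
theorem x034_6 : fam (wl [2,18,9,4]) 902 878 = true := by decide +kernel
theorem x034_7 : fam (wl [1,4,5,10,2,2]) 407 658 = true := by decide +kernel
theorem x034_8 : fam (wl [5,5,10,2,1,1]) 968 373 = true := by decide +kernel
theorem x034_9 : fam (wl [1,1,18,9,3,1]) 473 487 = true := by decide +kernel
theorem x034_10 : fam (wl [8,1,3,1,1,17]) 711 162 = true := by decide +kernel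
theorem x034_11 : fam (wl [3,12,6,6]) 1168 758 = true := by decide +kernel
theorem x034_12 : fam (wl [1,2,12,6,5,1]) 217 295 = true := by decide +kernel
theorem x034_13 : fam (wl [1,7,1,3,1,1,16,1]) 674 1197 = true := by decide +kernel
theorem x034_14 : fam (wl [1,1,2,2,2,2,2,2,3]) 1391 1630 = true := by decide +kernel
theorem x034_15 : fam (wl [1,6,1,3,1,1,2,3,2]) 680 1186 = true := by decide +kernel
theorem x034_16 : fam (wl [7,1,3,1,1,2,3,1,1]) 711 183 = true := by decide +kernel
theorem x034_17 : fam (wl [2,2,2,2,2,2,2,2,1]) 1393 1155 = true := by decide +kernel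
theorem x034_18 : fam (wl [2,6,1,1,3,3,4]) 1289 1198 = true := by decide +kernel
theorem x034_19 : fam (wl [1,1,6,1,1,3,3,3,1]) 108 117 = true := by decide +kernel
theorem x034_20 : fam (wl [1,1,2,1,3,7,2,3]) 265 306 = true := by decide +kernel
theorem x034_21 : fam (wl [1,3,9,4,1,1,1,2]) 979 1482 = true := by decide +kernel
theorem x034_22 : fam (wl [4,9,4,1,1,1,1,1]) 420 205 = true := by decide +kernel
theorem x034_23 : fam (wl [2,2,1,3,7,2,2,1]) 1134 961 = true := by decide +kernel
theorem x034_24 : fam (wl [1,5,1,2,1,6,1,2,2]) 562 958 = true := by decide +kernel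
theorem x034_25 : fam (wl [6,1,2,1,6,1,2,1,1]) 845 251 = true := by decide +kernel
theorem x034_26 : fam (wl [1,20,1,2,10,2]) 1007 1922 = true := by decide +kernel
theorem x034_27 : fam (wl [21,1,2,10,1,1]) 400 37 = true := by decide +kernel
/-- words with first entry from 1367 to 1409 -/
def L034 : List (List ℕ × ℕ × ℕ) := [([1,35,1,17,2],350,682), ([36,1,17,1,1],1015,55), ([2,1,3,2,4,1,1,5],47,34), ([1,36,18,2],1018,1982), ([37,18,1,1],351,19), ([1,1,1,3,2,4,1,1,4,1],1322,1693), ([2,18,9,4],902,878), ([1,4,5,10,2,2],407,658), ([5,5,10,2,1,1],968,373), ([1,1,18,9,3,1],473,487), ([8,1,3,1,1,17],711,162), ([3,12,6,6],1168,758), ([1,2,12,6,5,1],217,295), ([1,7,1,3,1,1,16,1],674,1197), ([1,1,2,2,2,2,2,2,3],1391,1630), ([1,6,1,3,1,1,2,3,2],680,1186), ([7,1,3,1,1,2,3,1,1],711,183), ([2,2,2,2,2,2,2,2,1],1393,1155), ([2,6,1,1,3,3,4],1289,1198), ([1,1,6,1,1,3,3,3,1],108,117), ([1,1,2,1,3,7,2,3],265,306), ([1,3,9,4,1,1,1,2],979,1482), ([4,9,4,1,1,1,1,1],420,205), ([2,2,1,3,7,2,2,1],1134,961),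 ([1,5,1,2,1,6,1,2,2],562,958), ([6,1,2,1,6,1,2,1,1],845,251), ([1,20,1,2,10,2],1007,1922), ([21,1,2,10,1,1],400,37)]
theorem r034 : rgV L034 1367 22 = true := by decide +kernel
theorem f034 : ∀ p ∈ L034, fam (wl p.1) p.2.1 p.2.2 = true := by
  intro p hp
  simp only [L034, List.mem_cons, List.not_mem_nil, or_false] at hp
  rcases hp with rfl | rfl | rfl | rfl | rfl | rfl | rfl | rfl | rfl | rfl | rfl | rfl | rfl | rfl | rfl | rfl | rfl | rfl | rfl | rfl | rfl | rfl | rfl | rfl | rfl | rfl | rfl | rfl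
  · exact x034_0
  · exact x034_1
  · exact x034_2
  · exact x034_3
  · exact x034_4
  · exact x034_5
  · exact x034_6
  · exact x034_7
  · exact x034_8
  · exact x034_9
  · exact x034_10
  · exact x034_11
  · exact x034_12
  · exact x034_13
  · exact x034_14
  · exact x034_15
  · exact x034_16
  · exact x034_17
  · exact x034_18
  · exact x034_19
  · exact x034_20
  · exact x034_21
  · exact x034_22
  · exact x034_23
  · exact x034_24
  · exact x034_25
  · exact x034_26
  · exact x034_27

end Pool.Agent.V5helper47.EV
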