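import Pool.Agent.V5helper47.EV.S2

/-! Search, part of the half words. -/

set_option maxRecDepth 1000000

namespace Pool.Agent.V5helper47.EV

open H419R2 Pool.Agent.N911 Pool.Agent.V5helper47.CN

theorem x035_0 : fam (wl [15,2,1,30]) 138 18 = true := by decide +kernel
theorem x035_1 : fam (wl [1,1,10,2,1,4,1,3]) 667 698 = true := by decide +kernel
theorem x035_2 : fam (wl [2,10,2,1,4,1,2,1]) 742 709 = true := by decide +kernel
theorem x035_3 : fam (wl [1,14,2,1,29,1]) 1271 2379 = true := by decide +kernel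
theorem x035_4 : fam (wl [2,2,2,1,2,5,1,4]) 1397 1154 = true := by decide +kernel
theorem x035_5 : fam (wl [1,1,2,7,3,1,2,3]) 916 1090 = true := by decide +kernel
theorem x035_6 : fam (wl [1,2,1,4,1,2,2,2,1,2]) 1290 1906 = true := by decide +kernel
theorem x035_7 : fam (wl [1,11,1,1,3,1,5,2]) 809 1490 = true := by decide +kernel
theorem x035_8 : fam (wl [12,1,1,3,1,5,1,1]) 608 97 = true := by decide +kernel
theorem x035_9 : fam (wl [3,1,4,1,2,2,2,1,1,1]) 127 67 = true := by decide +kernel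
theorem x035_10 : fam (wl [2,2,7,3,1,2,2,1]) 501 407 = true := by decide +kernel
theorem x035_11 : fam (wl [1,1,2,2,1,2,5,1,3,1]) 20 25 = true := by decide +kernel
theorem x035_12 : fam (wl [1,2,1,1,4,1,1,1,3,1,2]) 299 430 = true := by decide +kernel
theorem x035_13 : fam (wl [3,1,1,4,1,1,1,3,1,1,1]) 1122 633 = true := by decide +kernel
theorem x035_14 : fam (wl [1,5,1,1,2,1,3,1,2,2]) 706 1198 = true := by decide +kernel
theorem x035_15 : fam (wl [6,1,1,2,1,3,1,2,1,1]) 719 219 = true := by decide +kernel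
theorem x035_16 : fam (wl [2,2,4,1,9,1,4]) 1077 878 = true := by decide +kernel
theorem x035_17 : fam (wl [1,1,2,4,1,9,1,3,1]) 354 421 = true := by decide +kernel
theorem x035_18 : fam (wl [1,7,1,2,5,1,3,2]) 290 514 = true := by decide +kernel
theorem x035_19 : fam (wl [8,1,2,5,1,3,1,1]) 1141 263 = true := by decide +kernel
theorem x035_20 : fam (wl [1,1,1,2,1,2,2,6,3]) 604 766 = true := by decide +kernel
theorem x035_21 : fam (wl [2,1,2,1,2,2,6,2,1]) 833 611 = true := by decide +kernel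
theorem x035_22 : fam (wl [6,6,3,12]) 782 254 = true := by decide +kernel
theorem x035_23 : fam (wl [1,2,2,2,1,2,1,4,1,2]) 1103 1562 = true := by decide +kernel
theorem x035_24 : fam (wl [3,2,2,1,2,1,4,1,1,1]) 336 197 = true := by decide +kernel
theorem x035_25 : fam (wl [1,5,6,3,11,1]) 657 1103 = true := by decide +kernel
theorem x035_26 : fam (wl [5,1,1,1,1,4,11]) 1374 490 = true := by decide +kernel
theorem x035_27 : fam (wl [1,4,1,1,1,1,4,10,1]) 71 119 = true := by decide +kernel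
theorem x035_28 : fam (wl [2,1,2,2,2,2,2,5]) 414 306 = true := by decide +kernel
theorem x035_29 : fam (wl [1,1,1,2,2,2,2,2,4,1]) 1035 1307 = true := by decide +kernel
/-- words with first entry from 1411 to 1455 -/
def L035 : List (List ℕ × ℕ × ℕ) := [([15,2,1,30],138,18), ([1,1,10,2,1,4,1,3],667,698), ([2,10,2,1,4,1,2,1],742,709), ([1,14,2,1,29,1],1271,2379), ([2,2,2,1,2,5,1,4],1397,1154), ([1,1,2,7,3,1,2,3],916,1090), ([1,2,1,4,1,2,2,2,1,2],1290,1906), ([1,11,1,1,3,1,5,2],809,1490), ([12,1,1,3,1,5,1,1],608,97), ([3,1,4,1,2,2,2,1,1,1],127,67), ([2,2,7,3,1,2,2,1],501,407), ([1,1,2,2,1,2,5,1,3,1],20,25), ([1,2,1,1,4,1,1,1,3,1,2],299,430), ([3,1,1,4,1,1,1,3,1,1,1],1122,633), ([1,5,1,1,2,1,3,1,2,2],706,1198), ([6,1,1,2,1,3,1,2,1,1],719,219), ([2,2,4,1,9,1,4],1077,878), ([1,1,2,4,1,9,1,3,1],354,421), ([1,7,1,2,5,1,3,2],290,514), ([8,1,2,5,1,3,1,1],1141,263), ([1,1,1,2,1,2,2,6,3],604,766), ([2,1,2,1,2,2,6,2,1],833,611), ([6,6,3,12],782,254), ([1,2,2,2,1,2,1,4,1,2],1103,1562),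 ([3,2,2,1,2,1,4,1,1,1],336,197), ([1,5,6,3,11,1],657,1103), ([5,1,1,1,1,4,11],1374,490), ([1,4,1,1,1,1,4,10,1],71,119), ([2,1,2,2,2,2,2,5],414,306), ([1,1,1,2,2,2,2,2,4,1],1035,1307)]
theorem r035 : rgV L035 1411 23 = true := by decide +kernel
theorem f035 : ∀ p ∈ L035, fam (wl p.1) p.2.1 p.2.2 = true := by
  intro p hp
  simp only [L035, List.mem_cons, List.not_mem_nil, or_false] at hp
  rcases hp with rfl | rfl | rfl | rfl | rfl | rfl | rfl | rfl | rfl | rfl | rfl | rfl | rfl | rfl | rfl | rfl | rfl | rfl | rfl | rfl | rfl | rfl | rfl | rfl | rfl | rfl | rfl | rfl | rfl | rfl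
  · exact x035_0
  · exact x035_1
  · exact x035_2
  · exact x035_3
  · exact x035_4
  · exact x035_5
  · exact x035_6
  · exact x035_7
  · exact x035_8
  · exact x035_9
  · exact x035_10
  · exact x035_11
  · exact x035_12
  · exact x035_13
  · exact x035_14
  · exact x035_15
  · exact x035_16
  · exact x035_17
  · exact x035_18
  · exact x035_19
  · exact x035_20
  · exact x035_21
  · exact x035_22
  · exact x035_23
  · exact x035_24
  · exact x035_25
  · exact x035_26
  · exact x035_27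
  · exact x035_28
  · exact x035_29

end Pool.Agent.V5helper47.EV
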