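import Pool.Agent.V5helper47.EV.S2

/-! Search, part of the half words. -/

set_option maxRecDepth 1000000

namespace Pool.Agent.V5helper47.EV

open H419R2 Pool.Agent.N911 Pool.Agent.V5helper47.CN

theorem x036_0 : fam (wl [26,1,53]) 1430 106 = true := by decide +kernel
theorem x036_1 : fam (wl [1,13,2,2,1,6,2]) 540 1006 = true := by decide +kernel
theorem x036_2 : fam (wl [14,2,2,1,6,1,1]) 915 127 = true := by decide +kernel
theorem x036_3 : fam (wl [1,25,1,52,1]) 25 51 = true := by decide +kernel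
theorem x036_4 : fam (wl [27,54]) 27 2 = true := by decide +kernel
theorem x036_5 : fam (wl [1,26,53,1]) 1430 2757 = true := by decide +kernel
theorem x036_6 : fam (wl [2,3,5,2,1,1,1,4]) 886 766 = true := by decide +kernel
theorem x036_7 : fam (wl [2,5,3,1,1,1,2,4]) 1377 1258 = true := by decide +kernel
theorem x036_8 : fam (wl [1,1,5,3,1,1,1,2,3,1]) 88 97 = true := by decide +kernel
theorem x036_9 : fam (wl [1,1,3,5,2,1,1,1,3,1]) 579 659 = true := by decide +kernel
theorem x036_10 : fam (wl [4,1,6,1,2,1,9]) 1203 494 = true := by decide +kernel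
theorem x036_11 : fam (wl [1,3,1,6,1,2,1,8,1]) 266 425 = true := by decide +kernel
theorem x036_12 : fam (wl [15,1,2,31]) 141 18 = true := by decide +kernel
theorem x036_13 : fam (wl [1,2,1,2,2,4,1,2,1,2]) 795 1162 = true := by decide +kernel
theorem x036_14 : fam (wl [3,1,2,2,4,1,2,1,1,1]) 676 365 = true := by decide +kernel
theorem x036_15 : fam (wl [1,14,1,2,30,1]) 1330 2493 = true := by decide +kernel
theorem x036_16 : fam (wl [10,3,1,1,20]) 977 190 = true := by decide +kernel
theorem x036_17 : fam (wl [1,9,3,1,1,19,1]) 502 909 = true := by decide +kernel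
theorem x036_18 : fam (wl [1,3,1,2,2,1,5,1,1,2]) 1017 1602 = true := by decide +kernel
theorem x036_19 : fam (wl [4,1,2,2,1,5,1,1,1,1]) 462 197 = true := by decide +kernel
theorem x036_20 : fam (wl [2,2,5,10,1,4]) 71 58 = true := by decide +kernel
theorem x036_21 : fam (wl [1,1,2,5,10,1,3,1]) 1410 1673 = true := by decide +kernel
theorem x036_22 : fam (wl [1,8,2,1,5,4,2]) 303 542 = true := by decide +kernel
theorem x036_23 : fam (wl [9,2,1,5,4,1,1]) 1182 253 = true := by decide +kernel
theorem x036_24 : fam (wl [3,1,8,1,3,1,7]) 1064 546 = true := by decide +kernel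
theorem x036_25 : fam (wl [1,2,1,8,1,3,1,6,1]) 423 631 = true := by decide +kernel
theorem x036_26 : fam (wl [3,1,1,1,1,2,4,7]) 1319 730 = true := by decide +kernel
theorem x036_27 : fam (wl [1,2,1,1,1,1,2,4,6,1]) 168 245 = true := by decide +kernel
/-- words with first entry from 1457 to 1495 -/
def L036 : List (List ℕ × ℕ × ℕ) := [([26,1,53],1430,106), ([1,13,2,2,1,6,2],540,1006), ([14,2,2,1,6,1,1],915,127), ([1,25,1,52,1],25,51), ([27,54],27,2), ([1,26,53,1],1430,2757), ([2,3,5,2,1,1,1,4],886,766), ([2,5,3,1,1,1,2,4],1377,1258), ([1,1,5,3,1,1,1,2,3,1],88,97), ([1,1,3,5,2,1,1,1,3,1],579,659), ([4,1,6,1,2,1,9],1203,494), ([1,3,1,6,1,2,1,8,1],266,425), ([15,1,2,31],141,18), ([1,2,1,2,2,4,1,2,1,2],795,1162), ([3,1,2,2,4,1,2,1,1,1],676,365), ([1,14,1,2,30,1],1330,2493), ([10,3,1,1,20],977,190), ([1,9,3,1,1,19,1],502,909), ([1,3,1,2,2,1,5,1,1,2],1017,1602), ([4,1,2,2,1,5,1,1,1,1],462,197), ([2,2,5,10,1,4],71,58), ([1,1,2,5,10,1,3,1],1410,1673), ([1,8,2,1,5,4,2],303,542), ([9,2,1,5,4,1,1],1182,253),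 ([3,1,8,1,3,1,7],1064,546), ([1,2,1,8,1,3,1,6,1],423,631), ([3,1,1,1,1,2,4,7],1319,730), ([1,2,1,1,1,1,2,4,6,1],168,245)]
theorem r036 : rgV L036 1457 20 = true := by decide +kernel
theorem f036 : ∀ p ∈ L036, fam (wl p.1) p.2.1 p.2.2 = true := by
  intro p hp
  simp only [L036, List.mem_cons, List.not_mem_nil, or_false] at hp
  rcases hp with rfl | rfl | rfl | rfl | rfl | rfl | rfl | rfl | rfl | rfl | rfl | rfl | rfl | rfl | rfl | rfl | rfl | rfl | rfl | rfl | rfl | rfl | rfl | rfl | rfl | rfl | rfl | rfl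
  · exact x036_0
  · exact x036_1
  · exact x036_2
  · exact x036_3
  · exact x036_4
  · exact x036_5
  · exact x036_6
  · exact x036_7
  · exact x036_8
  · exact x036_9
  · exact x036_10
  · exact x036_11
  · exact x036_12
  · exact x036_13
  · exact x036_14
  · exact x036_15
  · exact x036_16
  · exact x036_17
  · exact x036_18
  · exact x036_19
  · exact x036_20
  · exact x036_21
  · exact x036_22
  · exact x036_23
  · exact x036_24
  · exact x036_25
  · exact x036_26
  · exact x036_27

end Pool.Agent.V5helper47.EV
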