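import Pool.Agent.V5helper47.EV.S2

/-! Search, part of the half words. -/

set_option maxRecDepth 1000000

namespace Pool.Agent.V5helper47.EV

open H419R2 Pool.Agent.N911 Pool.Agent.V5helper47.CN

theorem x037_0 : fam (wl [2,1,1,1,4,2,3,5]) 341 258 = true := by decide +kernel
theorem x037_1 : fam (wl [1,21,2,1,10,2]) 323 618 = true := by decide +kernel
theorem x037_2 : fam (wl [22,2,1,10,1,1]) 1172 105 = true := by decide +kernel
theorem x037_3 : fam (wl [1,1,1,1,1,4,2,3,4,1]) 1154 1437 = true := by decide +kernel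
theorem x037_4 : fam (wl [2,10,1,2,5,4]) 1258 1202 = true := by decide +kernel
theorem x037_5 : fam (wl [1,1,10,1,2,5,3,1]) 239 251 = true := by decide +kernel
theorem x037_6 : fam (wl [4,5,2,1,2,8]) 205 98 = true := by decide +kernel
theorem x037_7 : fam (wl [1,5,1,3,7,1,2,2]) 43 74 = true := by decide +kernel
theorem x037_8 : fam (wl [6,1,3,7,1,2,1,1]) 1462 433 = true := by decide +kernel
theorem x037_9 : fam (wl [1,3,5,2,1,2,7,1]) 1300 1981 = true := by decide +kernel
theorem x037_10 : fam (wl [4,3,2,2,1,1,8]) 339 158 = true := by decide +kernel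
theorem x037_11 : fam (wl [1,3,3,2,2,1,1,7,1]) 1170 1797 = true := by decide +kernel
theorem x037_12 : fam (wl [3,4,1,1,3,2,6]) 1001 622 = true := by decide +kernel
theorem x037_13 : fam (wl [1,1,18,1,8,1,3]) 1464 1502 = true := by decide +kernel
theorem x037_14 : fam (wl [2,18,1,8,1,2,1]) 47 47 = true := by decide +kernel
theorem x037_15 : fam (wl [1,2,4,1,1,3,2,5,1]) 510 705 = true := by decide +kernel
theorem x037_16 : fam (wl [4,1,3,1,2,1,1,9]) 675 282 = true := by decide +kernel
theorem x037_17 : fam (wl [1,10,1,2,1,2,5,2]) 779 1426 = true := by decide +kernel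
theorem x037_18 : fam (wl [11,1,2,1,2,5,1,1]) 732 125 = true := by decide +kernel
theorem x037_19 : fam (wl [1,3,1,3,1,2,1,1,8,1]) 836 1325 = true := by decide +kernel
theorem x037_20 : fam (wl [1,3,1,1,3,1,1,3,1,1,2]) 380 594 = true := by decide +kernel
theorem x037_21 : fam (wl [1,37,1,18,2]) 1148 2238 = true := by decide +kernel
theorem x037_22 : fam (wl [38,1,18,1,1]) 369 19 = true := by decide +kernel
theorem x037_23 : fam (wl [4,1,1,3,1,1,3,1,1,1,1]) 1137 499 = true := by decide +kernel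
theorem x037_24 : fam (wl [1,38,19,2]) 370 722 = true := by decide +kernel
theorem x037_25 : fam (wl [39,19,1,1]) 1151 59 = true := by decide +kernel
theorem x037_26 : fam (wl [6,1,2,2,2,13]) 409 122 = true := by decide +kernel
theorem x037_27 : fam (wl [1,1,19,9,1,3]) 813 834 = true := by decide +kernel
theorem x037_28 : fam (wl [2,19,9,1,2,1]) 714 697 = true := by decide +kernel
theorem x037_29 : fam (wl [1,5,1,2,2,2,12,1]) 1118 1905 = true := by decide +kernel
/-- words with first entry from 1497 to 1529 -/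
def L037 : List (List ℕ × ℕ × ℕ) := [([2,1,1,1,4,2,3,5],341,258), ([1,21,2,1,10,2],323,618), ([22,2,1,10,1,1],1172,105), ([1,1,1,1,1,4,2,3,4,1],1154,1437), ([2,10,1,2,5,4],1258,1202), ([1,1,10,1,2,5,3,1],239,251), ([4,5,2,1,2,8],205,98), ([1,5,1,3,7,1,2,2],43,74), ([6,1,3,7,1,2,1,1],1462,433), ([1,3,5,2,1,2,7,1],1300,1981), ([4,3,2,2,1,1,8],339,158), ([1,3,3,2,2,1,1,7,1],1170,1797), ([3,4,1,1,3,2,6],1001,622), ([1,1,18,1,8,1,3],1464,1502), ([2,18,1,8,1,2,1],47,47), ([1,2,4,1,1,3,2,5,1],510,705), ([4,1,3,1,2,1,1,9],675,282), ([1,10,1,2,1,2,5,2],779,1426), ([11,1,2,1,2,5,1,1],732,125), ([1,3,1,3,1,2,1,1,8,1],836,1325), ([1,3,1,1,3,1,1,3,1,1,2],380,594), ([1,37,1,18,2],1148,2238), ([38,1,18,1,1],369,19), ([4,1,1,3,1,1,3,1,1,1,1],1137,499), ([1,38,19,2],370,722), ([39,19,1,1],1151,59), ([6,1,2,2,2,13],409,122), ([1,1,19,9,1,3],813,834), ([2,19,9,1,2,1],714,697), ([1,5,1,2,2,2,12,1],1118,1905)]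
theorem r037 : rgV L037 1497 17 = true := by decide +kernel
theorem f037 : ∀ p ∈ L037, fam (wl p.1) p.2.1 p.2.2 = true := by
  intro p hp
  simp only [L037, List.mem_cons, List.not_mem_nil, or_false] at hp
  rcases hp with rfl | rfl | rfl | rfl | rfl | rfl | rfl | rfl | rfl | rfl | rfl | rfl | rfl | rfl | rfl | rfl | rfl | rfl | rfl | rfl | rfl | rfl | rfl | rfl | rfl | rfl | rfl | rfl | rfl | rfl
  · exact x037_0
  · exact x037_1
  · exact x037_2
  · exact x037_3
  · exact x037_4
  · exact x037_5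
  · exact x037_6
  · exact x037_7
  · exact x037_8
  · exact x037_9
  · exact x037_10
  · exact x037_11
  · exact x037_12
  · exact x037_13
  · exact x037_14
  · exact x037_15
  · exact x037_16
  · exact x037_17
  · exact x037_18
  · exact x037_19
  · exact x037_20
  · exact x037_21
  · exact x037_22
  · exact x037_23
  · exact x037_24
  · exact x037_25
  · exact x037_26
  · exact x037_27
  · exact x037_28
  · exact x037_29

end Pool.Agent.V5helper47.EV
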