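import Pool.Agent.V5helper47.EV.S2

/-! Search, part of the half words. -/

set_option maxRecDepth 1000000

namespace Pool.Agent.V5helper47.EV

open H419R2 Pool.Agent.N911 Pool.Agent.V5helper47.CN

theorem x038_0 : fam (wl [9,4,2,18]) 747 162 = true := by decide +kernel
theorem x038_1 : fam (wl [1,8,4,2,17,1]) 782 1397 = true := by decide +kernel
theorem x038_2 : fam (wl [8,2,1,2,1,16]) 1012 242 = true := by decide +kernel
theorem x038_3 : fam (wl [1,1,1,4,1,2,10,3]) 1020 1318 = true := by decide +kernel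
theorem x038_4 : fam (wl [2,1,4,1,2,10,2,1]) 517 367 = true := by decide +kernel
theorem x038_5 : fam (wl [1,7,2,1,2,1,15,1]) 525 927 = true := by decide +kernel
theorem x038_6 : fam (wl [2,1,1,4,1,10,5]) 975 766 = true := by decide +kernel
theorem x038_7 : fam (wl [1,1,1,1,4,1,10,4,1]) 566 689 = true := by decide +kernel
theorem x038_8 : fam (wl [1,7,4,1,1,1,1,3,2]) 1474 2590 = true := by decide +kernel
theorem x038_9 : fam (wl [8,4,1,1,1,1,3,1,1]) 77 19 = true := by decide +kernel
theorem x038_10 : fam (wl [3,1,9,4,1,7]) 831 426 = true := by decide +kernel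
theorem x038_11 : fam (wl [1,2,1,9,4,1,6,1]) 720 1073 = true := by decide +kernel
theorem x038_12 : fam (wl [1,2,8,1,17,1,2]) 287 390 = true := by decide +kernel
theorem x038_13 : fam (wl [3,8,1,17,1,1,1]) 1270 817 = true := by decide +kernel
theorem x038_14 : fam (wl [2,2,1,1,2,2,3,1,4]) 470 394 = true := by decide +kernel
theorem x038_15 : fam (wl [1,2,1,1,1,1,1,4,3,1,2]) 1504 2178 = true := by decide +kernel
theorem x038_16 : fam (wl [3,1,1,1,1,1,4,3,1,1,1]) 55 31 = true := by decide +kernel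
theorem x038_17 : fam (wl [1,1,2,1,1,2,2,3,1,3,1]) 1089 1267 = true := by decide +kernel
theorem x038_18 : fam (wl [4,2,1,2,1,2,1,8]) 1087 498 = true := by decide +kernel
theorem x038_19 : fam (wl [1,8,1,1,2,3,4,2]) 1260 2258 = true := by decide +kernel
theorem x038_20 : fam (wl [9,1,1,2,3,4,1,1]) 301 63 = true := by decide +kernel
theorem x038_21 : fam (wl [1,3,2,1,2,1,2,1,7,1]) 474 733 = true := by decide +kernel
theorem x038_22 : fam (wl [27,1,55]) 1539 110 = true := by decide +kernel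
theorem x038_23 : fam (wl [1,26,1,54,1]) 26 53 = true := by decide +kernel
theorem x038_24 : fam (wl [28,56]) 28 2 = true := by decide +kernel
theorem x038_25 : fam (wl [1,2,2,1,3,1,1,5,1,2]) 1422 1998 = true := by decide +kernel
theorem x038_26 : fam (wl [3,2,1,3,1,1,5,1,1,1]) 145 87 = true := by decide +kernel
theorem x038_27 : fam (wl [1,27,55,1]) 1539 2971 = true := by decide +kernel
theorem x038_28 : fam (wl [4,1,7,3,1,9]) 600 246 = true := by decide +kernel
theorem x038_29 : fam (wl [1,3,1,7,3,1,8,1]) 969 1543 = true := by decide +kernel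
/-- words with first entry from 1531 to 1575 -/
def L038 : List (List ℕ × ℕ × ℕ) := [([9,4,2,18],747,162), ([1,8,4,2,17,1],782,1397), ([8,2,1,2,1,16],1012,242), ([1,1,1,4,1,2,10,3],1020,1318), ([2,1,4,1,2,10,2,1],517,367), ([1,7,2,1,2,1,15,1],525,927), ([2,1,1,4,1,10,5],975,766), ([1,1,1,1,4,1,10,4,1],566,689), ([1,7,4,1,1,1,1,3,2],1474,2590), ([8,4,1,1,1,1,3,1,1],77,19), ([3,1,9,4,1,7],831,426), ([1,2,1,9,4,1,6,1],720,1073), ([1,2,8,1,17,1,2],287,390), ([3,8,1,17,1,1,1],1270,817), ([2,2,1,1,2,2,3,1,4],470,394), ([1,2,1,1,1,1,1,4,3,1,2],1504,2178), ([3,1,1,1,1,1,4,3,1,1,1],55,31), ([1,1,2,1,1,2,2,3,1,3,1],1089,1267), ([4,2,1,2,1,2,1,8],1087,498), ([1,8,1,1,2,3,4,2],1260,2258), ([9,1,1,2,3,4,1,1],301,63), ([1,3,2,1,2,1,2,1,7,1],474,733), ([27,1,55],1539,110), ([1,26,1,54,1],26,53), ([28,56],28,2), ([1,2,2,1,3,1,1,5,1,2],1422,1998), ([3,2,1,3,1,1,5,1,1,1],145,87), ([1,27,55,1],1539,2971), ([4,1,7,3,1,9],600,246), ([1,3,1,7,3,1,8,1],969,1543)]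
theorem r038 : rgV L038 1531 23 = true := by decide +kernel
theorem f038 : ∀ p ∈ L038, fam (wl p.1) p.2.1 p.2.2 = true := by
  intro p hp
  simp only [L038, List.mem_cons, List.not_mem_nil, or_false] at hp
  rcases hp with rfl | rfl | rfl | rfl | rfl | rfl | rfl | rfl | rfl | rfl | rfl | rfl | rfl | rfl | rfl | rfl | rfl | rfl | rfl | rfl | rfl | rfl | rfl | rfl | rfl | rfl | rfl | rfl | rfl | rfl
  · exact x038_0
  · exact x038_1
  · exact x038_2
  · exact x038_3
  · exact x038_4
  · exact x038_5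
  · exact x038_6
  · exact x038_7
  · exact x038_8
  · exact x038_9
  · exact x038_10
  · exact x038_11
  · exact x038_12
  · exact x038_13
  · exact x038_14
  · exact x038_15
  · exact x038_16
  · exact x038_17
  · exact x038_18
  · exact x038_19
  · exact x038_20
  · exact x038_21
  · exact x038_22
  · exact x038_23
  · exact x038_24
  · exact x038_25
  · exact x038_26
  · exact x038_27
  · exact x038_28
  · exact x038_29

end Pool.Agent.V5helper47.EV
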