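import Pool.Agent.V5helper47.EV.S2

/-! Search, part of the half words. -/

set_option maxRecDepth 1000000

namespace Pool.Agent.V5helper47.EV

open H419R2 Pool.Agent.N911 Pool.Agent.V5helper47.CN

theorem x039_0 : fam (wl [3,1,2,1,1,3,2,7]) 1045 562 = true := by decide +kernel
theorem x039_1 : fam (wl [1,2,9,18,1,2]) 234 318 = true := by decide +kernel
theorem x039_2 : fam (wl [3,9,18,1,1,1]) 1341 863 = true := by decide +kernel
theorem x039_3 : fam (wl [1,2,1,2,1,1,3,2,6,1]) 530 777 = true := by decide +kernel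
theorem x039_4 : fam (wl [5,2,2,4,1,10]) 784 290 = true := by decide +kernel
theorem x039_5 : fam (wl [1,4,2,2,4,1,9,1]) 793 1295 = true := by decide +kernel
theorem x039_6 : fam (wl [6,1,4,1,1,1,13]) 1194 350 = true := by decide +kernel
theorem x039_7 : fam (wl [1,5,1,4,1,1,1,12,1]) 387 663 = true := by decide +kernel
theorem x039_8 : fam (wl [3,7,2,1,3,6]) 1458 930 = true := by decide +kernel
theorem x039_9 : fam (wl [2,1,1,5,11,5]) 267 210 = true := by decide +kernel
theorem x039_10 : fam (wl [1,1,1,1,5,11,4,1]) 1324 1609 = true := by decide +kernel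
theorem x039_11 : fam (wl [1,2,7,2,1,3,5,1]) 133 183 = true := by decide +kernel
theorem x039_12 : fam (wl [2,4,2,1,5,2,4]) 1438 1290 = true := by decide +kernel
theorem x039_13 : fam (wl [1,1,4,2,1,5,2,3,1]) 161 179 = true := by decide +kernel
theorem x039_14 : fam (wl [16,2,1,32]) 147 18 = true := by decide +kernel
theorem x039_15 : fam (wl [1,15,2,1,31,1]) 1452 2729 = true := by decide +kernel
theorem x039_16 : fam (wl [10,1,2,2,21]) 1082 202 = true := by decide +kernel
theorem x039_17 : fam (wl [1,9,1,2,2,20,1]) 523 951 = true := by decide +kernel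
theorem x039_18 : fam (wl [1,4,1,5,1,2,2,2,2]) 1219 2022 = true := by decide +kernel
theorem x039_19 : fam (wl [5,1,5,1,2,2,2,1,1]) 388 133 = true := by decide +kernel
theorem x039_20 : fam (wl [2,1,1,2,1,2,6,5]) 745 578 = true := by decide +kernel
theorem x039_21 : fam (wl [1,1,1,1,2,1,2,6,4,1]) 862 1057 = true := by decide +kernel
theorem x039_22 : fam (wl [3,1,2,3,1,1,2,7]) 1585 858 = true := by decide +kernel
theorem x039_23 : fam (wl [1,5,3,1,2,1,1,1,2,2]) 184 310 = true := by decide +kernel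
theorem x039_24 : fam (wl [6,3,1,2,1,1,1,2,1,1]) 1425 455 = true := by decide +kernel
theorem x039_25 : fam (wl [1,2,1,2,3,1,1,2,6,1]) 24 37 = true := by decide +kernel
theorem x039_26 : fam (wl [1,2,1,1,5,2,1,3,1,2]) 1046 1502 = true := by decide +kernel
theorem x039_27 : fam (wl [3,1,1,5,2,1,3,1,1,1]) 571 323 = true := by decide +kernel
theorem x039_28 : fam (wl [1,12,2,4,6,2]) 947 1754 = true := by decide +kernel
theorem x039_29 : fam (wl [13,2,4,6,1,1]) 678 101 = true := by decide +kernel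
/-- words with first entry from 1577 to 1629 -/
def L039 : List (List ℕ × ℕ × ℕ) := [([3,1,2,1,1,3,2,7],1045,562), ([1,2,9,18,1,2],234,318), ([3,9,18,1,1,1],1341,863), ([1,2,1,2,1,1,3,2,6,1],530,777), ([5,2,2,4,1,10],784,290), ([1,4,2,2,4,1,9,1],793,1295), ([6,1,4,1,1,1,13],1194,350), ([1,5,1,4,1,1,1,12,1],387,663), ([3,7,2,1,3,6],1458,930), ([2,1,1,5,11,5],267,210), ([1,1,1,1,5,11,4,1],1324,1609), ([1,2,7,2,1,3,5,1],133,183), ([2,4,2,1,5,2,4],1438,1290), ([1,1,4,2,1,5,2,3,1],161,179), ([16,2,1,32],147,18), ([1,15,2,1,31,1],1452,2729), ([10,1,2,2,21],1082,202), ([1,9,1,2,2,20,1],523,951), ([1,4,1,5,1,2,2,2,2],1219,2022), ([5,1,5,1,2,2,2,1,1],388,133), ([2,1,1,2,1,2,6,5],745,578), ([1,1,1,1,2,1,2,6,4,1],862,1057), ([3,1,2,3,1,1,2,7],1585,858), ([1,5,3,1,2,1,1,1,2,2],184,310), ([6,3,1,2,1,1,1,2,1,1],1425,455), ([1,2,1,2,3,1,1,2,6,1],24,37), ([1,2,1,1,5,2,1,3,1,2],1046,1502), ([3,1,1,5,2,1,3,1,1,1],571,323), ([1,12,2,4,6,2],947,1754), ([13,2,4,6,1,1],678,101)]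
theorem r039 : rgV L039 1577 27 = true := by decide +kernel
theorem f039 : ∀ p ∈ L039, fam (wl p.1) p.2.1 p.2.2 = true := by
  intro p hp
  simp only [L039, List.mem_cons, List.not_mem_nil, or_false] at hp
  rcases hp with rfl | rfl | rfl | rfl | rfl | rfl | rfl | rfl | rfl | rfl | rfl | rfl | rfl | rfl | rfl | rfl | rfl | rfl | rfl | rfl | rfl | rfl | rfl | rfl | rfl | rfl | rfl | rfl | rfl | rfl
  · exact x039_0
  · exact x039_1
  · exact x039_2
  · exact x039_3
  · exact x039_4
  · exact x039_5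
  · exact x039_6
  · exact x039_7
  · exact x039_8
  · exact x039_9
  · exact x039_10
  · exact x039_11
  · exact x039_12
  · exact x039_13
  · exact x039_14
  · exact x039_15
  · exact x039_16
  · exact x039_17
  · exact x039_18
  · exact x039_19
  · exact x039_20
  · exact x039_21
  · exact x039_22
  · exact x039_23
  · exact x039_24
  · exact x039_25
  · exact x039_26
  · exact x039_27
  · exact x039_28
  · exact x039_29

end Pool.Agent.V5helper47.EV
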