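import Pool.Agent.V5helper47.EV.S2

/-! Search, part of the half words. -/

set_option maxRecDepth 1000000

namespace Pool.Agent.V5helper47.EV

open H419R2 Pool.Agent.N911 Pool.Agent.V5helper47.CN

theorem x040_0 : fam (wl [5,7,1,3,10]) 1595 622 = true := by decide +kernel
theorem x040_1 : fam (wl [1,3,3,1,1,3,1,1,1,1,2]) 729 1118 = true := by decide +kernel
theorem x040_2 : fam (wl [4,3,1,1,3,1,1,1,1,1,1]) 900 421 = true := by decide +kernel
theorem x040_3 : fam (wl [1,4,7,1,3,9,1]) 34 57 = true := by decide +kernel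
theorem x040_4 : fam (wl [2,1,4,2,2,1,1,1,5]) 1157 822 = true := by decide +kernel
theorem x040_5 : fam (wl [1,6,3,1,7,3,2]) 518 894 = true := by decide +kernel
theorem x040_6 : fam (wl [7,3,1,7,3,1,1]) 1113 307 = true := by decide +kernel
theorem x040_7 : fam (wl [1,1,1,4,2,2,1,1,1,4,1]) 474 613 = true := by decide +kernel
theorem x040_8 : fam (wl [8,1,1,1,3,17]) 1045 242 = true := by decide +kernel
theorem x040_9 : fam (wl [1,1,4,2,2,2,1,1,1,3]) 960 1058 = true := by decide +kernel
theorem x040_10 : fam (wl [2,4,2,2,2,1,1,1,2,1]) 679 611 = true := by decide +kernel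
theorem x040_11 : fam (wl [1,7,1,1,1,3,16,1]) 594 1053 = true := by decide +kernel
theorem x040_12 : fam (wl [4,9,1,4,8]) 45 22 = true := by decide +kernel
theorem x040_13 : fam (wl [1,2,3,3,1,1,6,1,2]) 285 398 = true := by decide +kernel
theorem x040_14 : fam (wl [3,3,3,1,1,6,1,1,1]) 1362 825 = true := by decide +kernel
theorem x040_15 : fam (wl [1,3,9,1,4,7,1]) 1602 2425 = true := by decide +kernel
theorem x040_16 : fam (wl [1,6,1,4,2,2,3,2]) 636 1110 = true := by decide +kernel
theorem x040_17 : fam (wl [1,8,3,6,4,2]) 395 706 = true := by decide +kernel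
theorem x040_18 : fam (wl [9,3,6,4,1,1]) 1252 269 = true := by decide +kernel
theorem x040_19 : fam (wl [7,1,4,2,2,3,1,1]) 1011 259 = true := by decide +kernel
theorem x040_20 : fam (wl [1,3,1,4,1,10,1,1,2]) 702 1114 = true := by decide +kernel
theorem x040_21 : fam (wl [4,1,4,1,10,1,1,1,1]) 953 395 = true := by decide +kernel
theorem x040_22 : fam (wl [1,11,3,1,1,1,5,2]) 42 78 = true := by decide +kernel
theorem x040_23 : fam (wl [12,3,1,1,1,5,1,1]) 1613 263 = true := by decide +kernel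
theorem x040_24 : fam (wl [2,1,12,1,5,1,5]) 723 494 = true := by decide +kernel
theorem x040_25 : fam (wl [1,1,1,12,1,5,1,4,1]) 938 1237 = true := by decide +kernel
theorem x040_26 : fam (wl [16,1,2,33]) 150 18 = true := by decide +kernel
theorem x040_27 : fam (wl [1,15,1,2,32,1]) 1515 2851 = true := by decide +kernel
/-- words with first entry from 1631 to 1671 -/
def L040 : List (List ℕ × ℕ × ℕ) := [([5,7,1,3,10],1595,622), ([1,3,3,1,1,3,1,1,1,1,2],729,1118), ([4,3,1,1,3,1,1,1,1,1,1],900,421), ([1,4,7,1,3,9,1],34,57), ([2,1,4,2,2,1,1,1,5],1157,822), ([1,6,3,1,7,3,2],518,894), ([7,3,1,7,3,1,1],1113,307), ([1,1,1,4,2,2,1,1,1,4,1],474,613), ([8,1,1,1,3,17],1045,242), ([1,1,4,2,2,2,1,1,1,3],960,1058), ([2,4,2,2,2,1,1,1,2,1],679,611), ([1,7,1,1,1,3,16,1],594,1053), ([4,9,1,4,8],45,22), ([1,2,3,3,1,1,6,1,2],285,398), ([3,3,3,1,1,6,1,1,1],1362,825), ([1,3,9,1,4,7,1],1602,2425), ([1,6,1,4,2,2,3,2],636,1110), ([1,8,3,6,4,2],395,706), ([9,3,6,4,1,1],1252,269), ([7,1,4,2,2,3,1,1],1011,259),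 ([1,3,1,4,1,10,1,1,2],702,1114), ([4,1,4,1,10,1,1,1,1],953,395), ([1,11,3,1,1,1,5,2],42,78), ([12,3,1,1,1,5,1,1],1613,263), ([2,1,12,1,5,1,5],723,494), ([1,1,1,12,1,5,1,4,1],938,1237), ([16,1,2,33],150,18), ([1,15,1,2,32,1],1515,2851)]
theorem r040 : rgV L040 1631 21 = true := by decide +kernel
theorem f040 : ∀ p ∈ L040, fam (wl p.1) p.2.1 p.2.2 = true := by
  intro p hp
  simp only [L040, List.mem_cons, List.not_mem_nil, or_false] at hp
  rcases hp with rfl | rfl | rfl | rfl | rfl | rfl | rfl | rfl | rfl | rfl | rfl | rfl | rfl | rfl | rfl | rfl | rfl | rfl | rfl | rfl | rfl | rfl | rfl | rfl | rfl | rfl | rfl | rfl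
  · exact x040_0
  · exact x040_1
  · exact x040_2
  · exact x040_3
  · exact x040_4
  · exact x040_5
  · exact x040_6
  · exact x040_7
  · exact x040_8
  · exact x040_9
  · exact x040_10
  · exact x040_11
  · exact x040_12
  · exact x040_13
  · exact x040_14
  · exact x040_15
  · exact x040_16
  · exact x040_17
  · exact x040_18
  · exact x040_19
  · exact x040_20
  · exact x040_21
  · exact x040_22
  · exact x040_23
  · exact x040_24
  · exact x040_25
  · exact x040_26
  · exact x040_27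

end Pool.Agent.V5helper47.EV
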