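import Pool.Agent.V5helper47.EV.S2

/-! Search, part of the half words. -/

set_option maxRecDepth 1000000

namespace Pool.Agent.V5helper47.EV

open H419R2 Pool.Agent.N911 Pool.Agent.V5helper47.CN

theorem x041_0 : fam (wl [2,19,1,9,4]) 785 766 = true := by decide +kernel
theorem x041_1 : fam (wl [1,1,1,8,1,18,3]) 682 894 = true := by decide +kernel
theorem x041_2 : fam (wl [2,1,8,1,18,2,1]) 989 683 = true := by decide +kernel
theorem x041_3 : fam (wl [1,1,19,1,9,3,1]) 886 909 = true := by decide +kernel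
theorem x041_4 : fam (wl [2,1,2,1,1,1,4,2,5]) 455 334 = true := by decide +kernel
theorem x041_5 : fam (wl [1,39,1,19,2]) 429 838 = true := by decide +kernel
theorem x041_6 : fam (wl [40,1,19,1,1]) 1248 61 = true := by decide +kernel
theorem x041_7 : fam (wl [1,1,1,2,1,1,1,4,2,4,1]) 1222 1549 = true := by decide +kernel
theorem x041_8 : fam (wl [28,1,57]) 1652 114 = true := by decide +kernel
theorem x041_9 : fam (wl [1,27,1,56,1]) 27 55 = true := by decide +kernel
theorem x041_10 : fam (wl [1,22,1,2,11,2]) 366 702 = true := by decide +kernel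
theorem x041_11 : fam (wl [23,1,2,11,1,1]) 1313 111 = true := by decide +kernel
theorem x041_12 : fam (wl [29,58]) 29 2 = true := by decide +kernel
theorem x041_13 : fam (wl [2,11,2,1,5,4]) 361 346 = true := by decide +kernel
theorem x041_14 : fam (wl [1,1,2,1,1,1,2,4,2,3]) 98 114 = true := by decide +kernel
theorem x041_15 : fam (wl [1,40,20,2]) 1251 2442 = true := by decide +kernel
theorem x041_16 : fam (wl [41,20,1,1]) 430 21 = true := by decide +kernel
theorem x041_17 : fam (wl [2,2,1,1,1,2,4,2,2,1]) 1583 1331 = true := by decide +kernel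
theorem x041_18 : fam (wl [1,1,11,2,1,5,3,1]) 1320 1377 = true := by decide +kernel
theorem x041_19 : fam (wl [1,28,57,1]) 1652 3193 = true := by decide +kernel
theorem x041_20 : fam (wl [1,1,3,1,3,1,1,2,1,1,3]) 965 1078 = true := by decide +kernel
theorem x041_21 : fam (wl [1,5,2,2,2,2,1,2,2]) 586 990 = true := by decide +kernel
theorem x041_22 : fam (wl [6,2,2,2,2,1,2,1,1]) 1099 343 = true := by decide +kernel
theorem x041_23 : fam (wl [2,3,1,3,1,1,2,1,1,2,1]) 720 637 = true := by decide +kernel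
theorem x041_24 : fam (wl [5,1,1,2,5,11]) 699 250 = true := by decide +kernel
theorem x041_25 : fam (wl [2,20,10,4]) 51 50 = true := by decide +kernel
theorem x041_26 : fam (wl [1,1,20,10,3,1]) 1636 1677 = true := by decide +kernel
theorem x041_27 : fam (wl [1,4,1,1,2,5,10,1]) 988 1625 = true := by decide +kernel
/-- words with first entry from 1673 to 1689 -/
def L041 : List (List ℕ × ℕ × ℕ) := [([2,19,1,9,4],785,766), ([1,1,1,8,1,18,3],682,894), ([2,1,8,1,18,2,1],989,683), ([1,1,19,1,9,3,1],886,909), ([2,1,2,1,1,1,4,2,5],455,334), ([1,39,1,19,2],429,838), ([40,1,19,1,1],1248,61), ([1,1,1,2,1,1,1,4,2,4,1],1222,1549), ([28,1,57],1652,114), ([1,27,1,56,1],27,55), ([1,22,1,2,11,2],366,702), ([23,1,2,11,1,1],1313,111), ([29,58],29,2), ([2,11,2,1,5,4],361,346), ([1,1,2,1,1,1,2,4,2,3],98,114), ([1,40,20,2],1251,2442), ([41,20,1,1],430,21), ([2,2,1,1,1,2,4,2,2,1],1583,1331), ([1,1,11,2,1,5,3,1],1320,1377), ([1,28,57,1],1652,3193), ([1,1,3,1,3,1,1,2,1,1,3],965,1078), ([1,5,2,2,2,2,1,2,2],586,990),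 ([6,2,2,2,2,1,2,1,1],1099,343), ([2,3,1,3,1,1,2,1,1,2,1],720,637), ([5,1,1,2,5,11],699,250), ([2,20,10,4],51,50), ([1,1,20,10,3,1],1636,1677), ([1,4,1,1,2,5,10,1],988,1625)]
theorem r041 : rgV L041 1673 9 = true := by decide +kernel
theorem f041 : ∀ p ∈ L041, fam (wl p.1) p.2.1 p.2.2 = true := by
  intro p hp
  simp only [L041, List.mem_cons, List.not_mem_nil, or_false] at hp
  rcases hp with rfl | rfl | rfl | rfl | rfl | rfl | rfl | rfl | rfl | rfl | rfl | rfl | rfl | rfl | rfl | rfl | rfl | rfl | rfl | rfl | rfl | rfl | rfl | rfl | rfl | rfl | rfl | rfl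
  · exact x041_0
  · exact x041_1
  · exact x041_2
  · exact x041_3
  · exact x041_4
  · exact x041_5
  · exact x041_6
  · exact x041_7
  · exact x041_8
  · exact x041_9
  · exact x041_10
  · exact x041_11
  · exact x041_12
  · exact x041_13
  · exact x041_14
  · exact x041_15
  · exact x041_16
  · exact x041_17
  · exact x041_18
  · exact x041_19
  · exact x041_20
  · exact x041_21
  · exact x041_22
  · exact x041_23
  · exact x041_24
  · exact x041_25
  · exact x041_26
  · exact x041_27

end Pool.Agent.V5helper47.EV
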