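import Pool.Agent.V5helper47.EV.T7
import Pool.Agent.V5helper47.EV.W001
import Pool.Agent.V5helper47.EV.W002
import Pool.Agent.V5helper47.EV.W003
import Pool.Agent.V5helper47.EV.W004
import Pool.Agent.V5helper47.EV.W005
import Pool.Agent.V5helper47.EV.W006
import Pool.Agent.V5helper47.EV.W007
import Pool.Agent.V5helper47.EV.W008
import Pool.Agent.V5helper47.EV.W009
import Pool.Agent.V5helper47.EV.W010
import Pool.Agent.V5helper47.EV.W011
import Pool.Agent.V5helper47.EV.W012
import Pool.Agent.V5helper47.EV.W013
import Pool.Agent.V5helper47.EV.W014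
import Pool.Agent.V5helper47.EV.W015
import Pool.Agent.V5helper47.EV.W016
import Pool.Agent.V5helper47.EV.W017
import Pool.Agent.V5helper47.EV.W018
import Pool.Agent.V5helper47.EV.W019
import Pool.Agent.V5helper47.EV.W020
import Pool.Agent.V5helper47.EV.W021
import Pool.Agent.V5helper47.EV.W022
import Pool.Agent.V5helper47.EV.W023
import Pool.Agent.V5helper47.EV.W024
import Pool.Agent.V5helper47.EV.W025
import Pool.Agent.V5helper47.EV.W026
import Pool.Agent.V5helper47.EV.W027
import Pool.Agent.V5helper47.EV.W028
import Pool.Agent.V5helper47.EV.W029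
import Pool.Agent.V5helper47.EV.W030
import Pool.Agent.V5helper47.EV.W031
import Pool.Agent.V5helper47.EV.W032
import Pool.Agent.V5helper47.EV.W033
import Pool.Agent.V5helper47.EV.W034
import Pool.Agent.V5helper47.EV.W035
import Pool.Agent.V5helper47.EV.W036
import Pool.Agent.V5helper47.EV.W037
import Pool.Agent.V5helper47.EV.W038
import Pool.Agent.V5helper47.EV.W039
import Pool.Agent.V5helper47.EV.W040
import Pool.Agent.V5helper47.EV.W041

/-! Half words, part of the range. -/

set_option maxRecDepth 1000000

namespace Pool.Agent.V5helper47.EV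

open H419R2 Pool.Agent.N911 Pool.Agent.V5helper47.CN

theorem full_1 {w : WL} (hw : w.Pos) (h0 : 3 ≤ (mat w).1) (hB : (mat w).1 ≤ 1690)
    (hodd : (mat w).1 % 2 = 1)
    (hval : ∃ b m, b * (mat w).1 + 2 * (mat w).2.1 = m * (mat w).1 + (mat w).2.2.1) :
    ∃ b0 P0, fam w b0 P0 = true := by
  by_cases g0 : (mat w).1 ≤ 46
  · exact fam_of_range r001 f001 hw (by norm_num) (by norm_num) (by omega) (by omega) hodd hval
  by_cases g1 : (mat w).1 ≤ 88
  · exact fam_of_range r002 f002 hw (by norm_num) (by norm_num) (by omega) (by omega) hodd hval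
  by_cases g2 : (mat w).1 ≤ 126
  · exact fam_of_range r003 f003 hw (by norm_num) (by norm_num) (by omega) (by omega) hodd hval
  by_cases g3 : (mat w).1 ≤ 170
  · exact fam_of_range r004 f004 hw (by norm_num) (by norm_num) (by omega) (by omega) hodd hval
  by_cases g4 : (mat w).1 ≤ 210
  · exact fam_of_range r005 f005 hw (by norm_num) (by norm_num) (by omega) (by omega) hodd hval
  by_cases g5 : (mat w).1 ≤ 250
  · exact fam_of_range r006 f006 hw (by norm_num) (by norm_num) (by omega) (by omega) hodd hval
  by_cases g6 : (mat w).1 ≤ 290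
  · exact fam_of_range r007 f007 hw (by norm_num) (by norm_num) (by omega) (by omega) hodd hval
  by_cases g7 : (mat w).1 ≤ 336
  · exact fam_of_range r008 f008 hw (by norm_num) (by norm_num) (by omega) (by omega) hodd hval
  by_cases g8 : (mat w).1 ≤ 378
  · exact fam_of_range r009 f009 hw (by norm_num) (by norm_num) (by omega) (by omega) hodd hval
  by_cases g9 : (mat w).1 ≤ 416
  · exact fam_of_range r010 f010 hw (by norm_num) (by norm_num) (by omega) (by omega) hodd hval
  by_cases g10 : (mat w).1 ≤ 458
  · exact fam_of_range r011 f011 hw (by norm_num) (by norm_num) (by omega) (by omega) hodd hval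
  by_cases g11 : (mat w).1 ≤ 510
  · exact fam_of_range r012 f012 hw (by norm_num) (by norm_num) (by omega) (by omega) hodd hval
  by_cases g12 : (mat w).1 ≤ 552
  · exact fam_of_range r013 f013 hw (by norm_num) (by norm_num) (by omega) (by omega) hodd hval
  by_cases g13 : (mat w).1 ≤ 592
  · exact fam_of_range r014 f014 hw (by norm_num) (by norm_num) (by omega) (by omega) hodd hval
  by_cases g14 : (mat w).1 ≤ 626
  · exact fam_of_range r015 f015 hw (by norm_num) (by norm_num) (by omega) (by omega) hodd hval
  by_cases g15 : (mat w).1 ≤ 658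
  · exact fam_of_range r016 f016 hw (by norm_num) (by norm_num) (by omega) (by omega) hodd hval
  by_cases g16 : (mat w).1 ≤ 712
  · exact fam_of_range r017 f017 hw (by norm_num) (by norm_num) (by omega) (by omega) hodd hval
  by_cases g17 : (mat w).1 ≤ 746
  · exact fam_of_range r018 f018 hw (by norm_num) (by norm_num) (by omega) (by omega) hodd hval
  by_cases g18 : (mat w).1 ≤ 790
  · exact fam_of_range r019 f019 hw (by norm_num) (by norm_num) (by omega) (by omega) hodd hval
  by_cases g19 : (mat w).1 ≤ 832
  · exact fam_of_range r020 f020 hw (by norm_num) (by norm_num) (by omega) (by omega) hodd hval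
  by_cases g20 : (mat w).1 ≤ 880
  · exact fam_of_range r021 f021 hw (by norm_num) (by norm_num) (by omega) (by omega) hodd hval
  by_cases g21 : (mat w).1 ≤ 928
  · exact fam_of_range r022 f022 hw (by norm_num) (by norm_num) (by omega) (by omega) hodd hval
  by_cases g22 : (mat w).1 ≤ 962
  · exact fam_of_range r023 f023 hw (by norm_num) (by norm_num) (by omega) (by omega) hodd hval
  by_cases g23 : (mat w).1 ≤ 992
  · exact fam_of_range r024 f024 hw (by norm_num) (by norm_num) (by omega) (by omega) hodd hval
  by_cases g24 : (mat w).1 ≤ 1040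
  · exact fam_of_range r025 f025 hw (by norm_num) (by norm_num) (by omega) (by omega) hodd hval
  by_cases g25 : (mat w).1 ≤ 1082
  · exact fam_of_range r026 f026 hw (by norm_num) (by norm_num) (by omega) (by omega) hodd hval
  by_cases g26 : (mat w).1 ≤ 1126
  · exact fam_of_range r027 f027 hw (by norm_num) (by norm_num) (by omega) (by omega) hodd hval
  by_cases g27 : (mat w).1 ≤ 1168
  · exact fam_of_range r028 f028 hw (by norm_num) (by norm_num) (by omega) (by omega) hodd hval
  by_cases g28 : (mat w).1 ≤ 1206
  · exact fam_of_range r029 f029 hw (by norm_num) (by norm_num) (by omega) (by omega) hodd hval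
  by_cases g29 : (mat w).1 ≤ 1242
  · exact fam_of_range r030 f030 hw (by norm_num) (by norm_num) (by omega) (by omega) hodd hval
  by_cases g30 : (mat w).1 ≤ 1288
  · exact fam_of_range r031 f031 hw (by norm_num) (by norm_num) (by omega) (by omega) hodd hval
  by_cases g31 : (mat w).1 ≤ 1330
  · exact fam_of_range r032 f032 hw (by norm_num) (by norm_num) (by omega) (by omega) hodd hval
  by_cases g32 : (mat w).1 ≤ 1366
  · exact fam_of_range r033 f033 hw (by norm_num) (by norm_num) (by omega) (by omega) hodd hval
  by_cases g33 : (mat w).1 ≤ 1410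
  · exact fam_of_range r034 f034 hw (by norm_num) (by norm_num) (by omega) (by omega) hodd hval
  by_cases g34 : (mat w).1 ≤ 1456
  · exact fam_of_range r035 f035 hw (by norm_num) (by norm_num) (by omega) (by omega) hodd hval
  by_cases g35 : (mat w).1 ≤ 1496
  · exact fam_of_range r036 f036 hw (by norm_num) (by norm_num) (by omega) (by omega) hodd hval
  by_cases g36 : (mat w).1 ≤ 1530
  · exact fam_of_range r037 f037 hw (by norm_num) (by norm_num) (by omega) (by omega) hodd hval
  by_cases g37 : (mat w).1 ≤ 1576
  · exact fam_of_range r038 f038 hw (by norm_num) (by norm_num) (by omega) (by omega) hodd hval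
  by_cases g38 : (mat w).1 ≤ 1630
  · exact fam_of_range r039 f039 hw (by norm_num) (by norm_num) (by omega) (by omega) hodd hval
  by_cases g39 : (mat w).1 ≤ 1672
  · exact fam_of_range r040 f040 hw (by norm_num) (by norm_num) (by omega) (by omega) hodd hval
  exact fam_of_range r041 f041 hw (by norm_num) (by norm_num) (by omega) (by omega) hodd hval

end Pool.Agent.V5helper47.EV
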