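import Pool.Agent.V5helper47.CN.S2
import Pool.Agent.V5helper47.EV.D1
import Pool.Agent.V5helper47.EV.D2

/-! Search functions for the words of the even discriminants with centre norm `2`.

A family is given by the half word `w`, the first centre letter `b0`, the first norm `P0` and
`e = 0, 1`: `b = b0 + V s`, `t = 2 (b + e)`, `P = P0 + 2 Y s`. -/

set_option maxRecDepth 100000

namespace Pool.Agent.V5helper47.EV

open H419R2 Pool.Agent.N911 Pool.Agent.V5helper47.CN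

/-- one parameter -/
noncomputable def sv1 (l I Q V Y2 e b0 P0 : ℕ) (w : WL) (s : ℕ) (S : ST) (k : ST → Bool) : Bool :=
  force (Nat.mod (Nat.add b0 (Nat.mul V s)) l) (fun b =>
  force (Nat.mod (Nat.mul 2 (Nat.add b e)) l) (fun t =>
  force (Nat.mod (Nat.add P0 (Nat.mul Y2 s)) l) (fun P =>
    @Bool.rec (fun _ => Bool) (snK w b (fun v => mkT l I v 1 t P (fun T => k (ST.cons t b 0 T S))))
      (k S) (skP l Q t P))))

/-- all states -/
noncomputable def sv2 (l I Q V Y2 e b0 P0 : ℕ) (w : WL) (n : ℕ) : ST → (ST → Bool) → Bool :=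
  @Nat.rec (fun _ => ST → (ST → Bool) → Bool) (fun S k => k S)
    (fun s ih S k => sv1 l I Q V Y2 e b0 P0 w s S (fun S => ih S k)) n

/-- all states modulo `l` -/
noncomputable def stv (l I Q V Y2 e b0 P0 : ℕ) (w : WL) (k : ST → Bool) : Bool :=
  sv2 l I Q V Y2 e b0 P0 w l ST.nil k

/-- all residues of the parameter modulo `p`: one of the tests fails -/
noncomputable def avn (p Q V Y2 e b0 P0 : ℕ) (g : ℕ → ℕ → Bool) : Bool :=
  allN p (fun s => force (Nat.mod (Nat.add b0 (Nat.mul V s)) p) (fun b =>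
    force (Nat.mod (Nat.mul 2 (Nat.add b e)) p) (fun t => imp (g t b)
      (force (Nat.mod (Nat.add P0 (Nat.mul Y2 s)) p) (fun P => skP p Q t P)))))

/-- last stage modulo 73 -/
noncomputable def v73 (V Y2 e b0 P0 : ℕ) (w : WL) (T37 T7 T19 T13 : TL) : Bool :=
  co2 (x247 c247_73_0) (e247 c247_73_0) w T13 T19 (fun K1 c1 d1 =>
  co2 (x133_73 c133_73) (e133_73 c133_73) w T7 T19 (fun K c d =>
  co2 (x247 c247_73_1) (e247 c247_73_1) w T13 T19 (fun K2 c2 d2 =>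
  co2 (x259_73 c259_73) (e259_73 c259_73) w T7 T37 (fun K3 c3 d3 =>
    avn 73 Q73 V Y2 e b0 P0 (fun t b => cj (l3 73 K1 c1 d1 t b) (cj (l3 73 K c d t b)
      (cj (l3 73 K2 c2 d2 t b) (l3 73 K3 c3 d3 t b))))))))

/-- last stage modulo 43 -/
noncomputable def v43 (V Y2 e b0 P0 : ℕ) (w : WL) (t3 b3 t7 b7 : ℕ) (T37 : TL) : Bool :=
  stv 9 I9 Q9 V Y2 e b0 P0 w (fun S9 => S9.all (fun t9 b9 _ T9 =>
    imp (cj (Nat.beq (Nat.mod t9 3) t3) (Nat.beq (Nat.mod b9 3) b3))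
      (imp (cx2 7 (x333 c333_7) (e333 c333_7) w T9 T37 t7 b7) (co2 (x333 c333_43) (e333 c333_43) w T9 T37 (fun K c d =>
        avn 43 Q43 V Y2 e b0 P0 (fun t b => l3 43 K c d t b))))))

/-- last stages modulo 11 and 31 -/
noncomputable def v11 (V Y2 e b0 P0 : ℕ) (w : WL) (t3 b3 t7 b7 t19 b19 : ℕ) (T37 T13 : TL) :
    Bool :=
  stv 11 I11 Q11 V Y2 e b0 P0 w (fun S11 => S11.all (fun _ _ _ T11 =>
    imp (cx2 7 (x143 c143_7_0) (e143 c143_7_0) w T11 T13 t7 b7)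
    (imp (cx2 19 (x407 c407_19_0) (e407 c407_19_0) w T11 T37 t19 b19)
      (stv 9 I9 Q9 V Y2 e b0 P0 w (fun S9 => S9.all (fun t9 b9 _ T9 =>
        imp (cj (Nat.beq (Nat.mod t9 3) t3) (Nat.beq (Nat.mod b9 3) b3))
          (imp (cx2 7 (x333 c333_7) (e333 c333_7) w T9 T37 t7 b7)
            (co2 (x99 c99) (e99 c99) w T9 T11 (fun K c d =>
              avn 31 Q31 V Y2 e b0 P0 (fun t b => l3 31 K c d t b))))))))))

/-- one of the last stages succeeds -/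
noncomputable def vL (V Y2 e b0 P0 : ℕ) (w : WL) (t3 b3 t7 b7 t19 b19 : ℕ)
    (T37 T7 T19 T13 : TL) : Bool :=
  @Bool.rec (fun _ => Bool) (@Bool.rec (fun _ => Bool) (v11 V Y2 e b0 P0 w t3 b3 t7 b7 t19 b19 T37 T13)
    true (v43 V Y2 e b0 P0 w t3 b3 t7 b7 T37)) true (v73 V Y2 e b0 P0 w T37 T7 T19 T13)

/-- stages modulo 5 and 13 -/
noncomputable def v5 (V Y2 e b0 P0 : ℕ) (w : WL) (t37 b37 t3 b3 t7 b7 t19 b19 : ℕ)
    (T37 T7 T19 T3 : TL) : Bool :=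
  stv 5 I5 Q5 V Y2 e b0 P0 w (fun S5 => S5.all (fun _ _ _ T5 =>
    co2 x95 e95 w T19 T5 (fun K c d => co3 x105 e105 w T7 T3 T5 (fun K1 c1 d1 =>
    co2 x185 e185 w T37 T5 (fun K2 c2 d2 => co2 x133_13 e133_13 w T7 T19 (fun K3 c3 d3 =>
    stv 13 I13 Q13 V Y2 e b0 P0 w (fun S13 => S13.all (fun t b _ T13 =>
      imp (l3 13 K c d t b) (imp (l3 13 K1 c1 d1 t b) (imp (l3 13 K2 c2 d2 t b)
      (imp (l3 13 K3 c3 d3 t b) (imp (cx2 37 x91 e91 w T7 T13 t37 b37)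
        (vL V Y2 e b0 P0 w t3 b3 t7 b7 t19 b19 T37 T7 T19 T13)))))))))))))

/-- stage modulo 3 -/
noncomputable def v3 (V Y2 e b0 P0 : ℕ) (w : WL) (t37 b37 t7 b7 t19 b19 : ℕ)
    (T37 T7 T19 : TL) : Bool :=
  stv 3 I3 Q3 V Y2 e b0 P0 w (fun S3 => S3.all (fun t3 b3 _ T3 =>
    imp (cx2 19 x111_0 e111_0 w T37 T3 t19 b19) (imp (cx2 19 x111_1 e111_1 w T37 T3 t19 b19)
      (v5 V Y2 e b0 P0 w t37 b37 t3 b3 t7 b7 t19 b19 T37 T7 T19 T3))))

/-- the whole search -/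
noncomputable def vR (V Y2 e b0 P0 : ℕ) (w : WL) : Bool :=
  stv 7 I7 Q7 V Y2 e b0 P0 w (fun S7 => stv 19 I19 Q19 V Y2 e b0 P0 w (fun S19 =>
  stv 37 I37 Q37 V Y2 e b0 P0 w (fun S37 => S37.all (fun t37 b37 _ T37 =>
    mapT (sl 7 X259_2) (sl 49 E259_2) T37 (fun A2 =>
    S7.all (fun t7 b7 _ T7 => imp (ck0e 19 (WL.cons 0 w) A2 T7)
      (co2 x259_0 e259_0 w T37 T7 (fun K c d =>
      co2 x259_1 e259_1 w T37 T7 (fun K1 c1 d1 =>
        S19.all (fun t19 b19 _ T19 => imp (l3 19 K c d t19 b19) (imp (l3 19 K1 c1 d1 t19 b19)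
          (imp (cx2 37 x133_37 e133_37 w T7 T19 t37 b37)
            (v3 V Y2 e b0 P0 w t37 b37 t7 b7 t19 b19 T37 T7 T19)))))))))))))

/-- check of the data of a family -/
noncomputable def dtV (w : WL) (b0 P0 : ℕ) (k : ℕ → ℕ → ℕ → Bool) : Bool :=
  maK w (fun V X Y Z => force (@Bool.rec (fun _ => ℕ) 1 0 (Nat.beq Y (Nat.mul 2 X))) (fun e =>
    cj (Nat.beq (Nat.add Y (Nat.mul e V)) (Nat.mul 2 X)) (cj (Nat.beq (Nat.mod V 2) 1)
    (cj (Nat.ble b0 V) (cj (Nat.beq (Nat.add (Nat.mul (Nat.mul P0 V) V) (Nat.mul 2 (Nat.mul X Y)))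
      (Nat.add (Nat.mul Y Y) (Nat.add (Nat.mul (Nat.mul (Nat.mul 2 (Nat.add b0 e)) Y) V)
        (Nat.mul 2 (Nat.mul V Z))))) (k V Y e))))))

/-- the final list -/
def LV : List ℕ := [3, 6, 7, 11, 14, 19, 22, 23, 31, 38, 43, 46, 47, 59, 62, 67, 71, 83, 86, 94, 103, 107, 118, 127,
  131, 134, 139, 151, 158, 163, 166, 167, 179, 191, 199, 206, 227, 239, 251, 262, 263, 278, 283,
  302, 307, 311, 347, 367, 383, 398, 419, 422, 431, 446, 467, 479, 502, 503, 542, 563, 566, 587,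
  622, 647, 662, 683, 734, 743, 758, 787, 827, 838, 863, 878, 887, 947, 983, 998, 1142, 1151,
  1163, 1187, 1238, 1262, 1286, 1307, 1319, 1382, 1427, 1487, 1502, 1718, 1931, 2063, 2078,
  2243, 2351, 3167, 3947]

/-- membership in the final list -/
def inV (d : ℕ) : Bool := anyL LV (fun x => Nat.beq x d)

/-- divisible by the square of a small prime -/
def sqV (d : ℕ) : Bool := or (Nat.beq (Nat.mod d 9) 0) (or (Nat.beq (Nat.mod d 25) 0)
  (or (Nat.beq (Nat.mod d 49) 0) (or (Nat.beq (Nat.mod d 121) 0) (Nat.beq (Nat.mod d 169) 0))))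

/-- small primes -/
def PWV : List ℕ := [3,5,7,11,13,17,19,23,29,31,37,41,43]

/-- check of one member of a family -/
noncomputable def ckV (w : WL) (V b t P : ℕ) : Bool :=
  force (Nat.add (Nat.mul t t) (Nat.mul 4 P)) (fun D =>
  force (Nat.div D 4) (fun d =>
    or (Nat.ble (Nat.mod d 4) 1) (or (inV d) (or (or (and (Nat.ble 2 V) (or (Nat.beq P 2)
      (Nat.beq (Nat.succ P) t))) (and (Nat.ble 4 V) (or (Nat.beq d 114) (Nat.beq d 178))))
      (or (sqV d) (snK w b (fun v => anyL PWV (fun l => witU1 v t P D l))))))))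

/-- members with a small parameter -/
noncomputable def smV (ck : ℕ → ℕ → ℕ → Bool) (V Y2 e T : ℕ) (fuel : ℕ) : ℕ → ℕ → Bool :=
  @Nat.rec (fun _ => ℕ → ℕ → Bool) (fun _ _ => false)
    (fun _ ih b P => force (Nat.mul 2 (Nat.add b e)) (fun t =>
      @Bool.rec (fun _ => Bool) (cj (ck b t P) (force (Nat.add b V) (fun b' =>
        force (Nat.add P Y2) (fun P' => ih b' P')))) true (Nat.ble T t))) fuel

/-- largest letter -/
noncomputable def mxK (w : WL) : ℕ → ℕ :=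
  @WL.rec (fun _ => ℕ → ℕ) (fun m => m) (fun a _ ih m =>
    @Bool.rec (fun _ => ℕ) (ih a) (ih m) (Nat.ble a m)) w

/-- check of a family -/
noncomputable def fam (w : WL) (b0 P0 : ℕ) : Bool :=
  dtV w b0 P0 (fun V Y e => force (Nat.mul 2 Y) (fun Y2 =>
    cj (force (Nat.mul 73 (Nat.add (mxK w 0) 2)) (fun T =>
      smV (fun b t P => ckV w V b t P) V Y2 e T T b0 P0))
    (vR V Y2 e b0 P0 w)))

end Pool.Agent.V5helper47.EV
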