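import Pool.Agent.V5helper47.EV.S1
import Pool.Agent.V5helper47.CN.S3

/-! Completeness of lists of half words. -/

set_option maxRecDepth 100000

namespace Pool.Agent.V5helper47.EV

open H419R2 Pool.Agent.N911 Pool.Agent.V5helper47.CN

/-- all letters are positive -/
noncomputable def psW (w : WL) : Bool :=
  @WL.rec (fun _ => Bool) true (fun a _ ih => cj (Nat.ble 1 a) ih) w

/-- a matrix belongs to a word of the list -/
noncomputable def inM (L : List (List ℕ × ℕ × ℕ)) (V X Y Z : ℕ) : Bool :=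
  anyL L (fun p => maK (wl p.1) (fun v x y z => cj (Nat.beq v V) (cj (Nat.beq x X)
    (cj (Nat.beq y Y) (cj (Nat.beq z Z) (psW (wl p.1)))))))

/-- the word of sign `-1` -/
noncomputable def hM (L : List (List ℕ × ℕ × ℕ)) (V X : ℕ) : Bool :=
  force (Nat.mod (Nat.mul 2 X) V) (fun Y => inM L V X Y (Nat.div (Nat.sub (Nat.mul X Y) 1) V))

/-- the word of sign `1` -/
noncomputable def hP (L : List (List ℕ × ℕ × ℕ)) (V X : ℕ) : Bool :=
  force (Nat.mod (Nat.mul 2 X) V) (fun Y => inM L V X Y (Nat.div (Nat.succ (Nat.mul X Y)) V))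

/-- one pair of entries and its complement -/
noncomputable def ckX (L : List (List ℕ × ℕ × ℕ)) (V X : ℕ) : Bool :=
  force (Nat.mod (Nat.mul (Nat.mul 2 X) X) V) (fun R =>
    cj (imp (Nat.beq R 1) (cj (hM L V X) (hM L V (Nat.sub V X))))
      (imp (Nat.beq (Nat.succ R) V) (cj (hP L V X) (hP L V (Nat.sub V X)))))

/-- a range of first entries -/
noncomputable def rgV (L : List (List ℕ × ℕ × ℕ)) (lo n : ℕ) : Bool :=
  allN n (fun j => force (Nat.add lo (Nat.mul 2 j)) (fun V =>
    or (Nat.beq (Nat.mod V 5) 0) (or (Nat.beq (Nat.mod V 13) 0)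
      (allN (Nat.succ (Nat.div V 2)) (fun X => ckX L V X)))))

end Pool.Agent.V5helper47.EV
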