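import Pool.Agent.V5helper47.EV.S1
import Pool.Agent.V5helper47.EV.E4
import Pool.Agent.V5helper47.CN.T9

/-! Soundness of the enumeration of states. -/

set_option maxRecDepth 100000

namespace Pool.Agent.V5helper47.EV

open H419R2 Pool.Agent.N911 Finset Pool.Agent.V5helper47.CN

/-- what is used about a half word, a centre letter and parameters -/
structure SysV (w : WL) (b : ℕ) (t P : ℤ) (d : ℕ) : Prop where
  dt : Dt w b t P (4 * d)
  good : GoodV (snoc w b) t P d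
  inr : ∀ l : ℕ, l.Prime → l ≠ 2 → l ≤ 73 → ¬ IsSquare ((((4 * d : ℕ) : ℤ)) : ZMod l)

section rel

variable {w : WL} {b : ℕ} {t P : ℤ} {d : ℕ} (S : SysV w b t P d)

include S

theorem SysV.inp {l : ℕ} (hl : l.Prime) (hd : l ∣ Mall) (h2 : l ≠ 2) (h73 : l ≤ 73) :
    In l (4 * d) := ⟨hl, hd, h2, S.inr l hl h2 h73⟩

theorem SysV.rel {c : CD} (hc : c.OK) (h1 : Nat.Coprime c.q (4 * d))
    (h2 : Nat.Coprime c.p (4 * d)) [NeZero c.q] :
    RelE (chi c.q c.p c.T) (snoc w b) t P = 0 := by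
  have h3 : ¬ (c.p : ℤ) ∣ ((4 * d : ℕ) : ℤ) := by
    intro h
    have h4 : c.p ∣ 4 * d := by exact_mod_cast h
    have h5 : c.p ∣ 1 := by
      rw [← h2]
      exact Nat.dvd_gcd dvd_rfl h4
    exact hc.pp.one_lt.ne' (Nat.dvd_one.mp h5)
  exact S.good.rel_mod hc.pp hc.p2 h3 h1 _ (chi_mul hc.mul)
    (chi_neg hc.q1 hc.mul hc.oth) (chi_sum hc.oth)

theorem SysV.rel2 {c : CD} (hc : c.OK) {l1 l2 p : ℕ} (H1 : Gd l1 (4 * d)) (H2 : Gd l2 (4 * d))
    (Hp : Gd p (4 * d)) (hl : l1 * l2 = c.q) (hp : c.p = p) [NeZero c.q] :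
    RelE (chi c.q c.p c.T) (snoc w b) t P = 0 := by
  apply S.rel hc
  · rw [← hl]; exact Nat.Coprime.mul_left H1.cD H2.cD
  · rw [hp]; exact Hp.cD

theorem SysV.rel3 {c : CD} (hc : c.OK) {l1 l2 l3 p : ℕ} (H1 : Gd l1 (4 * d)) (H2 : Gd l2 (4 * d))
    (H3 : Gd l3 (4 * d)) (Hp : Gd p (4 * d))
    (hl : l1 * l2 * l3 = c.q) (hp : c.p = p) [NeZero c.q] :
    RelE (chi c.q c.p c.T) (snoc w b) t P = 0 := by
  apply S.rel hc
  · rw [← hl]; exact Nat.Coprime.mul_left (Nat.Coprime.mul_left H1.cD H2.cD) H3.cD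
  · rw [hp]; exact Hp.cD

end rel

/-- the family -/
structure FamV (V Y2 e b0 P0 b : ℕ) (t P : ℤ) (s : ℕ) : Prop where
  hb : b = b0 + V * s
  ht : t = 2 * (b + e)
  hP : P = P0 + Y2 * s

/-- membership of the actual state -/
def SMv (w : WL) (b : ℕ) (t P : ℤ) (l : ℕ) (S : ST) : Prop :=
  ST.Mem (res t l) (res (b : ℤ) l) 0 (tr l (snoc w b) (f0 t P)) S

theorem sv1_eq (l I Q V Y2 e b0 P0 : ℕ) (w : WL) (s : ℕ) (S : ST) :
    ∃ S', (∀ k, sv1 l I Q V Y2 e b0 P0 w s S k = k S') ∧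
      (∀ t b a T, ST.Mem t b a T S → ST.Mem t b a T S') ∧
      (∀ b t P, b = (b0 + V * s) % l → t = (2 * (b + e)) % l → P = (P0 + Y2 * s) % l →
        skP l Q t P = false → ∀ T, (∀ g, mkT l I (snoc w b) 1 t P g = g T) →
        ST.Mem t b 0 T S') := by
  have e0 : ∀ k, sv1 l I Q V Y2 e b0 P0 w s S k = @Bool.rec (fun _ => Bool)
      (snK w ((b0 + V * s) % l) (fun v => mkT l I v 1 ((2 * ((b0 + V * s) % l + e)) % l)
        ((P0 + Y2 * s) % l) (fun T => k (ST.cons ((2 * ((b0 + V * s) % l + e)) % l)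
          ((b0 + V * s) % l) 0 T S))))
      (k S) (skP l Q ((2 * ((b0 + V * s) % l + e)) % l) ((P0 + Y2 * s) % l)) := by
    intro k
    unfold sv1
    rw [force_eq, force_eq, force_eq]
    rfl
  cases hs : skP l Q ((2 * ((b0 + V * s) % l + e)) % l) ((P0 + Y2 * s) % l) with
  | true =>
    refine ⟨S, ?_, fun _ _ _ _ h => h, ?_⟩
    · intro k
      rw [e0, hs]
    · rintro b t P rfl rfl rfl h
      rw [hs] at h
      exact absurd h (by simp)
  | false =>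
    obtain ⟨r, hr⟩ := mkT_ex l I (snoc w ((b0 + V * s) % l)) 1
      ((2 * ((b0 + V * s) % l + e)) % l) ((P0 + Y2 * s) % l)
    refine ⟨ST.cons ((2 * ((b0 + V * s) % l + e)) % l) ((b0 + V * s) % l) 0 r S, ?_,
      fun _ _ _ _ h => Or.inr h, ?_⟩
    · intro k
      rw [e0, hs, snK_eq, hr]
    · rintro b t P rfl rfl rfl _ T hT
      have : T = r := tl_eq (fun g => by rw [← hT g, hr g])
      rw [this]
      exact Or.inl ⟨rfl, rfl, rfl, rfl⟩

theorem sv2_eq (l I Q V Y2 e b0 P0 : ℕ) (w : WL) (n : ℕ) : ∀ S : ST,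
    ∃ S', (∀ k, sv2 l I Q V Y2 e b0 P0 w n S k = k S') ∧
      (∀ t b a T, ST.Mem t b a T S → ST.Mem t b a T S') ∧
      (∀ s < n, ∀ b t P, b = (b0 + V * s) % l → t = (2 * (b + e)) % l → P = (P0 + Y2 * s) % l →
        skP l Q t P = false → ∀ T, (∀ g, mkT l I (snoc w b) 1 t P g = g T) →
        ST.Mem t b 0 T S') := by
  induction n with
  | zero => exact fun S => ⟨S, fun k => rfl, fun _ _ _ _ h => h, fun s hs => absurd hs (by omega)⟩
  | succ n ih =>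
    intro S
    obtain ⟨S1, h1, m1, a1⟩ := sv1_eq l I Q V Y2 e b0 P0 w n S
    obtain ⟨S2, h2, m2, a2⟩ := ih S1
    refine ⟨S2, ?_, fun _ _ _ _ h => m2 _ _ _ _ (m1 _ _ _ _ h), ?_⟩
    · intro k
      have e0 : sv2 l I Q V Y2 e b0 P0 w (n + 1) S k =
        sv1 l I Q V Y2 e b0 P0 w n S (fun S => sv2 l I Q V Y2 e b0 P0 w n S k) := rfl
      rw [e0, h1, h2]
    · intro s hs b t P hb ht hP hsk T hT
      rcases Nat.lt_succ_iff_lt_or_eq.mp hs with h | h
      · exact a2 s h b t P hb ht hP hsk T hT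
      · subst h
        exact m2 _ _ _ _ (a1 b t P hb ht hP hsk T hT)

section

variable {w : WL} {b : ℕ} {t P : ℤ} {D : ℕ} (H : Dt w b t P D) {V Y2 e b0 P0 s : ℕ}
  (F : FamV V Y2 e b0 P0 b t P s)

include F

theorem fam_b {l : ℕ} (hl : 0 < l) : (b0 + V * (s % l)) % l = res (b : ℤ) l := by
  apply res_unique (Nat.mod_lt _ hl)
  rw [ZMod.natCast_mod, F.hb]
  push_cast
  rw [ZMod.natCast_mod]

theorem fam_t {l : ℕ} (hl : 0 < l) : (2 * (res (b : ℤ) l + e)) % l = res t l := by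
  apply res_unique (Nat.mod_lt _ hl)
  have cb := res_cast' (b : ℤ) hl
  rw [ZMod.natCast_mod, F.ht]
  push_cast at cb ⊢
  rw [cb]

theorem fam_P {l : ℕ} (hl : 0 < l) : (P0 + Y2 * (s % l)) % l = res P l := by
  apply res_unique (Nat.mod_lt _ hl)
  rw [ZMod.natCast_mod, F.hP]
  push_cast
  rw [ZMod.natCast_mod]

include H

theorem stv_ex (l I Q : ℕ) (hl : 0 < l) :
    ∃ S, (∀ k, stv l I Q V Y2 e b0 P0 w k = k S) ∧
      (Gd l D → chkI l I = true → skP l Q (res t l) (res P l) = false → SMv w b t P l S) := by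
  obtain ⟨S, hS, _, hm⟩ := sv2_eq l I Q V Y2 e b0 P0 w l ST.nil
  refine ⟨S, hS, ?_⟩
  intro G hI hsk
  have hT := hm (s % l) (Nat.mod_lt _ hl) (res (b : ℤ) l) (res t l) (res P l)
    (fam_b F hl).symm (fam_t F hl).symm (fam_P F hl).symm hsk
    (tr l (snoc w (res (b : ℤ) l)) (f0 t P)) (fun g => mkT_f0 G hI H.hD _ g)
  rw [tr_snoc_congr hl (b' := b) (by rw [res_cast' (b : ℤ) hl]; simp)] at hT
  exact hT

theorem stv_In {l I Q : ℕ} (hI : chkI l I = true) (hQ : chkIq l Q = true) (hin : In l D) :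
    ∃ S, (∀ k, stv l I Q V Y2 e b0 P0 w k = k S) ∧ SMv w b t P l S := by
  have hl := hin.pr.pos
  obtain ⟨S, h1, h2⟩ := stv_ex H F l I Q hl
  exact ⟨S, h1, h2 hin.gd hI (skP_false H hl hin.ns hQ)⟩

theorem avn_false {p Q : ℕ} {g : ℕ → ℕ → Bool} (hp : 0 < p)
    (hns : ¬ IsSquare ((D : ℤ) : ZMod p)) (hQ : chkIq p Q = true)
    (hg : g (res t p) (res (b : ℤ) p) = true)
    (h : avn p Q V Y2 e b0 P0 g = true) : False := by
  unfold avn at h
  rw [allN_iff] at h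
  have h := h (s % p) (Nat.mod_lt _ hp)
  rw [force_eq, force_eq, force_eq] at h
  have eb : Nat.mod (Nat.add b0 (Nat.mul V (s % p))) p = res (b : ℤ) p := fam_b F hp
  rw [eb] at h
  have et : Nat.mod (Nat.mul 2 (Nat.add (res (b : ℤ) p) e)) p = res t p := fam_t F hp
  have eP : Nat.mod (Nat.add P0 (Nat.mul Y2 (s % p))) p = res P p := fam_P F hp
  rw [et, eP] at h
  have h := imp_true h hg
  rw [skP_false H hp hns hQ] at h
  exact absurd h (by simp)

end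

theorem sm_all {w : WL} {b : ℕ} {t P : ℤ} {l : ℕ} {S : ST} {f : ℕ → ℕ → ℕ → TL → Bool}
    (h : S.all f = true) (m : SMv w b t P l S) :
    f (res t l) (res (b : ℤ) l) 0 (tr l (snoc w b) (f0 t P)) = true := ST.all_mem h m

end Pool.Agent.V5helper47.EV
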