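import Pool.Agent.V5helper47.EV.T1
import Pool.Agent.V5helper47.CN.T6

/-! Soundness of the search. -/

set_option maxRecDepth 100000

namespace Pool.Agent.V5helper47.EV

open H419R2 Pool.Agent.N911 Finset Pool.Agent.V5helper47.CN

theorem gd_nine {D : ℕ} (h3 : In 3 D) : Gd 9 D := by
  have G := h3.gd
  have hcop : ∀ f : Fm, f.disc = D → IsCoprime f.A ((9 : ℕ) : ℤ) := by
    intro f hf
    have h := G.cop f hf
    have : ((9 : ℕ) : ℤ) = ((3 : ℕ) : ℤ) * ((3 : ℕ) : ℤ) := by norm_num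
    rw [this]
    exact h.mul_right h
  refine ⟨by decide +kernel, by norm_num, ?_, hcop, ?_⟩
  · have : (9 : ℕ) = 3 * 3 := by norm_num
    rw [this]
    exact Nat.Coprime.mul_left G.cD G.cD
  · intro f hf
    have h := G.val f hf
    unfold V at h ⊢
    rw [if_neg (by norm_num)] at h ⊢
    exact not_sq9 h

theorem he_333v {D : ℕ} (H9 : Gd 9 D) (H37 : Gd 37 D) [NeZero c333_43.q] : HE c333_43 D
    (fun f => x333 c333_43 (7 * res f.A 9) (7 * res f.A 37))
    (fun f => e333 c333_43 (ix 9 f) (ix 37 f)) :=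
  he_ev c333_43_ok (by decide +kernel) H9 H37 (by decide +kernel) (by decide +kernel)

theorem he_333w {D : ℕ} (H9 : Gd 9 D) (H37 : Gd 37 D) [NeZero c333_7.q] : HE c333_7 D
    (fun f => x333 c333_7 (7 * res f.A 9) (7 * res f.A 37))
    (fun f => e333 c333_7 (ix 9 f) (ix 37 f)) :=
  he_ev c333_7_ok (by decide +kernel) H9 H37 (by decide +kernel) (by decide +kernel)

theorem he_99 {D : ℕ} (H9 : Gd 9 D) (H11 : Gd 11 D) [NeZero c99.q] : HE c99 D
    (fun f => x99 c99 (7 * res f.A 9) (7 * res f.A 11))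
    (fun f => e99 c99 (ix 9 f) (ix 11 f)) :=
  he_ev c99_ok (by decide +kernel) H9 H11 (by decide +kernel) (by decide +kernel)

theorem iq31 : chkIq 31 Q31 = true := by decide +kernel

section

variable {w : WL} {b : ℕ} {t P : ℤ} {d : ℕ} (S : SysV w b t P d) {V Y2 e b0 P0 s : ℕ}
  (F : FamV V Y2 e b0 P0 b t P s)

include S

theorem SysV.i3 : In 3 (4 * d) := S.inp (by norm_num) (by decide +kernel) (by norm_num) (by norm_num)
theorem SysV.i5 : In 5 (4 * d) := S.inp (by norm_num) (by decide +kernel) (by norm_num) (by norm_num)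
theorem SysV.i7 : In 7 (4 * d) := S.inp (by norm_num) (by decide +kernel) (by norm_num) (by norm_num)
theorem SysV.i11 : In 11 (4 * d) := S.inp (by norm_num) (by decide +kernel) (by norm_num) (by norm_num)
theorem SysV.i13 : In 13 (4 * d) := S.inp (by norm_num) (by decide +kernel) (by norm_num) (by norm_num)
theorem SysV.i19 : In 19 (4 * d) := S.inp (by norm_num) (by decide +kernel) (by norm_num) (by norm_num)
theorem SysV.i37 : In 37 (4 * d) := S.inp (by norm_num) (by decide +kernel) (by norm_num) (by norm_num)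
theorem SysV.i43 : In 43 (4 * d) := S.inp (by norm_num) (by decide +kernel) (by norm_num) (by norm_num)
theorem SysV.i73 : In 73 (4 * d) := S.inp (by norm_num) (by decide +kernel) (by norm_num) (by norm_num)

theorem cb_res {l : ℕ} (hl : 0 < l) : ((res (b : ℤ) l : ℕ) : ZMod l) = b := by
  rw [res_cast' (b : ℤ) hl]; simp

include F

theorem v73_sound (h : v73 V Y2 e b0 P0 w (tr 37 (snoc w b) (f0 t P)) (tr 7 (snoc w b) (f0 t P))
    (tr 19 (snoc w b) (f0 t P)) (tr 13 (snoc w b) (f0 t P)) = true) : False := by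
  have i1 : NeZero c247_73_0.q := ⟨by decide +kernel⟩
  have i2 : NeZero c133_73.q := ⟨by decide +kernel⟩
  have i3 : NeZero c247_73_1.q := ⟨by decide +kernel⟩
  have i4 : NeZero c259_73.q := ⟨by decide +kernel⟩
  have hD := S.dt.hD
  unfold v73 at h
  obtain ⟨K1, c1, d1, e1, h⟩ := co2_sound hD (S.rel2 c247_73_0_ok S.i13.gd S.i19.gd S.i73.gd
    (by decide +kernel) rfl) (he_247_0 S.i13.gd S.i19.gd) h
  obtain ⟨K, c, d0, e0, h⟩ := co2_sound hD (S.rel2 c133_73_ok S.i7.gd S.i19.gd S.i73.gd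
    (by decide +kernel) rfl) (he_133_73 S.i7.gd S.i19.gd) h
  obtain ⟨K2, c2, d2, e2, h⟩ := co2_sound hD (S.rel2 c247_73_1_ok S.i13.gd S.i19.gd S.i73.gd
    (by decide +kernel) rfl) (he_247_1 S.i13.gd S.i19.gd) h
  obtain ⟨K3, c3, d3, e3, h⟩ := co2_sound hD (S.rel2 c259_73_ok S.i7.gd S.i37.gd S.i73.gd
    (by decide +kernel) rfl) (he_259_73 S.i7.gd S.i37.gd) h
  have ct := res_cast' t (show 0 < 73 by norm_num)
  have cb := cb_res S (l := 73) (by norm_num)
  refine avn_false S.dt F (by norm_num) S.i73.ns iq73 ?_ h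
  rw [cj_true, cj_true, cj_true]
  exact ⟨l3_sound e1 ct cb, l3_sound e0 ct cb, l3_sound e2 ct cb, l3_sound e3 ct cb⟩

theorem v43_sound (h : v43 V Y2 e b0 P0 w (res t 3) (res (b : ℤ) 3) (res t 7) (res (b : ℤ) 7)
    (tr 37 (snoc w b) (f0 t P)) = true) : False := by
  have i1 : NeZero c333_43.q := ⟨by decide +kernel⟩
  have i2 : NeZero c333_7.q := ⟨by decide +kernel⟩
  have hD := S.dt.hD
  unfold v43 at h
  have G9 := gd_nine S.i3
  obtain ⟨S9, h9, m9⟩ := stv_ex S.dt F 9 I9 Q9 (by norm_num)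
  have m9 := m9 G9 ci9 (skP_false S.dt (by norm_num) (not_sq9 S.i3.ns) iq9)
  rw [h9] at h
  have h := sm_all h m9
  have e1 : Nat.mod (res t 9) 3 = res t 3 := res_mod t (by norm_num) (by norm_num) (by norm_num)
  have e2 : Nat.mod (res (b : ℤ) 9) 3 = res (b : ℤ) 3 :=
    res_mod (b : ℤ) (by norm_num) (by norm_num) (by norm_num)
  have h := imp_true h (by
    rw [cj_true, e1, e2]
    exact ⟨Nat.beq_refl _, Nat.beq_refl _⟩)
  have h := imp_true h (cx2_sound hD (S.rel2 c333_7_ok G9 S.i37.gd S.i7.gd rfl rfl)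
    (he_333w G9 S.i37.gd) rfl (res_cast' t (by norm_num)) (cb_res S (l := 7) (by norm_num)))
  obtain ⟨K, c, d0, e0, h⟩ := co2_sound hD (S.rel2 c333_43_ok G9 S.i37.gd S.i43.gd
    (by decide +kernel) rfl) (he_333v G9 S.i37.gd) h
  exact avn_false S.dt F (by norm_num) S.i43.ns iq43
    (l3_sound e0 (res_cast' t (by norm_num)) (cb_res S (l := 43) (by norm_num))) h

theorem v11_sound (h : v11 V Y2 e b0 P0 w (res t 3) (res (b : ℤ) 3) (res t 7) (res (b : ℤ) 7)
    (res t 19) (res (b : ℤ) 19)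
    (tr 37 (snoc w b) (f0 t P)) (tr 13 (snoc w b) (f0 t P)) = true) : False := by
  have i1 : NeZero c143_7_0.q := ⟨by decide +kernel⟩
  have i2 : NeZero c407_19_0.q := ⟨by decide +kernel⟩
  have i3 : NeZero c333_7.q := ⟨by decide +kernel⟩
  have i4 : NeZero c99.q := ⟨by decide +kernel⟩
  have hD := S.dt.hD
  unfold v11 at h
  obtain ⟨S11, h11, m11⟩ := stv_In S.dt F ci11 iq11 S.i11
  rw [h11] at h
  have h := sm_all h m11
  have h := imp_true h (cx2_sound hD (S.rel2 c143_7_0_ok S.i11.gd S.i13.gd S.i7.gd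
    (by decide +kernel) rfl) (he_143 S.i11.gd S.i13.gd) rfl (res_cast' t (by norm_num))
      (cb_res S (l := 7) (by norm_num)))
  have h := imp_true h (cx2_sound hD (S.rel2 c407_19_0_ok S.i11.gd S.i37.gd S.i19.gd
    (by decide +kernel) rfl) (he_407 S.i11.gd S.i37.gd) rfl (res_cast' t (by norm_num))
      (cb_res S (l := 19) (by norm_num)))
  have G9 := gd_nine S.i3
  obtain ⟨S9, h9, m9⟩ := stv_ex S.dt F 9 I9 Q9 (by norm_num)
  have m9 := m9 G9 ci9 (skP_false S.dt (by norm_num) (not_sq9 S.i3.ns) iq9)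
  rw [h9] at h
  have h := sm_all h m9
  have e1 : Nat.mod (res t 9) 3 = res t 3 := res_mod t (by norm_num) (by norm_num) (by norm_num)
  have e2 : Nat.mod (res (b : ℤ) 9) 3 = res (b : ℤ) 3 :=
    res_mod (b : ℤ) (by norm_num) (by norm_num) (by norm_num)
  have h := imp_true h (by
    rw [cj_true, e1, e2]
    exact ⟨Nat.beq_refl _, Nat.beq_refl _⟩)
  have h := imp_true h (cx2_sound hD (S.rel2 c333_7_ok G9 S.i37.gd S.i7.gd rfl rfl)
    (he_333w G9 S.i37.gd) rfl (res_cast' t (by norm_num)) (cb_res S (l := 7) (by norm_num)))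
  have hns : ¬ IsSquare ((((4 * d : ℕ) : ℤ)) : ZMod 31) :=
    S.inr 31 (by norm_num) (by norm_num) (by norm_num)
  have hcop : Nat.Coprime c99.p (4 * d) := by
    change Nat.Coprime 31 (4 * d)
    rw [Nat.Prime.coprime_iff_not_dvd (by norm_num)]
    intro hdv
    apply hns
    have : ((((4 * d : ℕ) : ℤ)) : ZMod 31) = 0 := by
      rw [Int.cast_natCast]
      exact (ZMod.natCast_eq_zero_iff _ _).mpr hdv
    rw [this]
    exact ⟨0, by ring⟩
  obtain ⟨K, c, d0, e0, h⟩ := co2_sound hD (S.rel c99_ok (by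
      have : c99.q = 9 * 11 := rfl
      rw [this]
      exact Nat.Coprime.mul_left G9.cD S.i11.gd.cD) hcop) (he_99 G9 S.i11.gd) h
  exact avn_false S.dt F (by norm_num) hns iq31
    (l3_sound e0 (res_cast' t (by norm_num)) (cb_res S (l := 31) (by norm_num))) h

theorem vL_sound (h : vL V Y2 e b0 P0 w (res t 3) (res (b : ℤ) 3) (res t 7) (res (b : ℤ) 7)
    (res t 19) (res (b : ℤ) 19) (tr 37 (snoc w b) (f0 t P)) (tr 7 (snoc w b) (f0 t P))
    (tr 19 (snoc w b) (f0 t P)) (tr 13 (snoc w b) (f0 t P)) = true) : False := by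
  unfold vL at h
  cases h1 : v73 V Y2 e b0 P0 w (tr 37 (snoc w b) (f0 t P)) (tr 7 (snoc w b) (f0 t P))
    (tr 19 (snoc w b) (f0 t P)) (tr 13 (snoc w b) (f0 t P)) with
  | true => exact v73_sound S F h1
  | false =>
    rw [h1] at h
    cases h2 : v43 V Y2 e b0 P0 w (res t 3) (res (b : ℤ) 3) (res t 7) (res (b : ℤ) 7) (tr 37 (snoc w b) (f0 t P)) with
    | true => exact v43_sound S F h2
    | false =>
      rw [h2] at h
      exact v11_sound S F h

theorem v5_sound (h : v5 V Y2 e b0 P0 w (res t 37) (res (b : ℤ) 37) (res t 3) (res (b : ℤ) 3)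
    (res t 7) (res (b : ℤ) 7) (res t 19) (res (b : ℤ) 19) (tr 37 (snoc w b) (f0 t P))
    (tr 7 (snoc w b) (f0 t P)) (tr 19 (snoc w b) (f0 t P)) (tr 3 (snoc w b) (f0 t P)) = true) :
    False := by
  have i1 : NeZero c95_13.q := ⟨by decide +kernel⟩
  have i2 : NeZero c105_13.q := ⟨by decide +kernel⟩
  have i3 : NeZero c185_13.q := ⟨by decide +kernel⟩
  have i4 : NeZero c133_13.q := ⟨by decide +kernel⟩
  have i5 : NeZero c91_37.q := ⟨by decide +kernel⟩
  have hD := S.dt.hD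
  unfold v5 at h
  obtain ⟨S5, h5, m5⟩ := stv_In S.dt F ci5 iq5 S.i5
  rw [h5] at h
  have h := sm_all h m5
  obtain ⟨K, c, d0, e0, h⟩ := co2_sound hD (S.rel2 c95_13_ok S.i19.gd S.i5.gd S.i13.gd rfl rfl)
    (he_95 S.i19.gd S.i5.gd) h
  obtain ⟨K1, c1, d1, e1, h⟩ := co3_sound hD (S.rel3 c105_13_ok S.i7.gd S.i3.gd S.i5.gd S.i13.gd
    rfl rfl) (he_105 S.i7.gd S.i3.gd S.i5.gd) h
  obtain ⟨K2, c2, d2, e2, h⟩ := co2_sound hD (S.rel2 c185_13_ok S.i37.gd S.i5.gd S.i13.gd rfl rfl)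
    (he_185 S.i37.gd S.i5.gd) h
  obtain ⟨K3, c3, d3, e3, h⟩ := co2_sound hD (S.rel2 c133_13_ok S.i7.gd S.i19.gd S.i13.gd rfl rfl)
    (he_133_13 S.i7.gd S.i19.gd) h
  obtain ⟨S13, h13, m13⟩ := stv_In S.dt F ci13 iq13 S.i13
  rw [h13] at h
  have h := sm_all h m13
  have ct := res_cast' t (show 0 < 13 by norm_num)
  have cb := cb_res S (l := 13) (by norm_num)
  have h := imp_true (imp_true (imp_true (imp_true h (l3_sound e0 ct cb)) (l3_sound e1 ct cb))
    (l3_sound e2 ct cb)) (l3_sound e3 ct cb)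
  have h := imp_true h (cx2_sound hD (S.rel2 c91_37_ok S.i7.gd S.i13.gd S.i37.gd rfl rfl)
    (he_91 S.i7.gd S.i13.gd) rfl (res_cast' t (by norm_num)) (cb_res S (l := 37) (by norm_num)))
  exact vL_sound S F h

theorem v3_sound (h : v3 V Y2 e b0 P0 w (res t 37) (res (b : ℤ) 37)
    (res t 7) (res (b : ℤ) 7) (res t 19) (res (b : ℤ) 19) (tr 37 (snoc w b) (f0 t P))
    (tr 7 (snoc w b) (f0 t P)) (tr 19 (snoc w b) (f0 t P)) = true) : False := by
  have i1 : NeZero c111_19_0.q := ⟨by decide +kernel⟩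
  have i2 : NeZero c111_19_1.q := ⟨by decide +kernel⟩
  have hD := S.dt.hD
  unfold v3 at h
  obtain ⟨S3, h3, m3⟩ := stv_In S.dt F ci3 iq3 S.i3
  rw [h3] at h
  have h := sm_all h m3
  have h := imp_true h (cx2_sound hD (S.rel2 c111_19_0_ok S.i37.gd S.i3.gd S.i19.gd rfl rfl)
    (he_111_0 S.i37.gd S.i3.gd) rfl (res_cast' t (by norm_num)) (cb_res S (l := 19) (by norm_num)))
  have h := imp_true h (cx2_sound hD (S.rel2 c111_19_1_ok S.i37.gd S.i3.gd S.i19.gd rfl rfl)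
    (he_111_1 S.i37.gd S.i3.gd) rfl (res_cast' t (by norm_num)) (cb_res S (l := 19) (by norm_num)))
  exact v5_sound S F h

theorem vR_sound (h : vR V Y2 e b0 P0 w = true) : False := by
  have i1 : NeZero c259_19_0.q := ⟨by decide +kernel⟩
  have i2 : NeZero c259_19_1.q := ⟨by decide +kernel⟩
  have i3 : NeZero c259_19_2.q := ⟨by decide +kernel⟩
  have i4 : NeZero c133_37.q := ⟨by decide +kernel⟩
  have hD := S.dt.hD
  unfold vR at h
  obtain ⟨S7, h7, m7⟩ := stv_In S.dt F ci7 iq7 S.i7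
  obtain ⟨S19, h19, m19⟩ := stv_In S.dt F ci19 iq19 S.i19
  obtain ⟨S37, h37, m37⟩ := stv_In S.dt F ci37 iq37 S.i37
  rw [h7, h19, h37] at h
  have h := sm_all h m37
  rw [mapT_eq] at h
  have h := sm_all h m7
  have h := imp_true h (ck0_sound hD (S.rel2 c259_19_2_ok S.i37.gd S.i7.gd S.i19.gd rfl rfl)
      (he_259_2 S.i37.gd S.i7.gd) rfl)
  obtain ⟨K, c, d0, e0, h⟩ := co2_sound hD (S.rel2 c259_19_0_ok S.i37.gd S.i7.gd S.i19.gd rfl rfl)
    (he_259_0 S.i37.gd S.i7.gd) h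
  obtain ⟨K1, c1, d1, e1, h⟩ := co2_sound hD (S.rel2 c259_19_1_ok S.i37.gd S.i7.gd S.i19.gd rfl
    rfl) (he_259_1 S.i37.gd S.i7.gd) h
  have h := sm_all h m19
  have ct := res_cast' t (show 0 < 19 by norm_num)
  have cb := cb_res S (l := 19) (by norm_num)
  have h := imp_true (imp_true h (l3_sound e0 ct cb)) (l3_sound e1 ct cb)
  have h := imp_true h (cx2_sound hD (S.rel2 c133_37_ok S.i7.gd S.i19.gd S.i37.gd rfl rfl)
    (he_133_37 S.i7.gd S.i19.gd) rfl (res_cast' t (by norm_num)) (cb_res S (l := 37) (by norm_num)))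
  exact v3_sound S F h

end

end Pool.Agent.V5helper47.EV
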