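import Pool.Agent.V5helper47.EV.T2
import Pool.Agent.V5helper47.CN.T11
import Pool.Agent.N911.U11

/-! The parameters of a family and the checks of its small members. -/

set_option maxRecDepth 100000

namespace Pool.Agent.V5helper47.EV

open H419R2 Pool.Agent.N911 Finset Pool.Agent.V5helper47.CN

/-- the discriminant and the norm of the centre -/
theorem la_disc : ∀ {l : WL} {a : ℕ} {f : Fm}, lamE (.cons a l) f = 0 →
    ∃ c A : ℤ, f.disc = (la (.cons a l) f) ^ 2 * c ^ 2 + 4 * la (.cons a l) f * A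
  | .nil, a, f, h => by
    unfold lamE at h
    rw [trE_one] at h
    push_cast at h
    rw [la_cons]
    change ∃ c A : ℤ, f.disc = f.C ^ 2 * c ^ 2 + 4 * f.C * A
    refine ⟨a, f.A, ?_⟩
    unfold Fm.disc
    have : f.B = f.C * a := by linarith
    rw [this]; ring
  | .cons b l, a, f, h => by
    rw [la_cons, ← Fm.disc_step a f]
    exact la_disc (by rw [lamE_step, h, neg_zero])

/-- the parameters of a word with centre norm `2` -/
theorem famV_of {w : WL} {b : ℕ} {t P : ℤ} {D : ℕ} (hw : w.Pos) (hb : 0 < b)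
    (H : Dt w b t P D) (h2 : la (snoc w b) (f0 t P) = 2) {b0 P0 e : ℕ}
    (c1 : (mat w).2.2.1 + e * (mat w).1 = 2 * (mat w).2.1) (c2 : (mat w).1 % 2 = 1)
    (c3 : b0 ≤ (mat w).1)
    (c4 : P0 * (mat w).1 * (mat w).1 + 2 * ((mat w).2.1 * (mat w).2.2.1) =
      (mat w).2.2.1 * (mat w).2.2.1 + (2 * (b0 + e) * (mat w).2.2.1 * (mat w).1 +
        2 * ((mat w).1 * (mat w).2.2.2))) :
    ∃ s, FamV (mat w).1 (2 * (mat w).2.2.1) e b0 P0 b t P s := by
  have hla := H.la_lin
  rw [h2] at hla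
  have hdet := mat_det w
  have hs := sg_sq w
  have hV := mat_pos hw
  have hlin := H.lin
  rw [trE_snoc] at hlin
  simp only at hlin
  generalize (mat w).1 = V at *
  generalize (mat w).2.1 = X at *
  generalize (mat w).2.2.1 = Y at *
  generalize (mat w).2.2.2 = Z at *
  have hVz : (1 : ℤ) ≤ V := by exact_mod_cast hV
  have c1z : (Y : ℤ) + e * V = 2 * X := by exact_mod_cast c1
  have ht : t = 2 * (b + e) := by
    have h1 : (t - 2 * (b + e)) * (V : ℤ) = 0 := by
      linear_combination -hla - 2 * c1z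
    rcases mul_eq_zero.mp h1 with h | h
    · linarith
    · exfalso
      rw [h] at hVz
      norm_num at hVz
  -- the second parameter
  have hn : (0 : ℤ) < b * V + 2 * X := by
    have h1 : (0 : ℤ) < b := by exact_mod_cast hb
    have : (0 : ℤ) < b * V := mul_pos h1 (by linarith)
    have h3 : (0 : ℤ) ≤ X := by positivity
    linarith
  have hP : P * V ^ 2 = Y ^ 2 + t * Y * V + 2 * sg w := by
    have h1 : (P * V ^ 2 - (Y ^ 2 + t * Y * V + 2 * sg w)) * (b * V + 2 * X) = 0 := by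
      push_cast at hlin
      linear_combination (V : ℤ) * hlin + (t * V + 2 * Y) * hdet - sg w * hla
    rcases mul_eq_zero.mp h1 with h | h
    · linarith
    · exfalso
      linarith
  have c4z : (P0 : ℤ) * V * V + 2 * (X * Y) = Y * Y + (2 * (b0 + e) * Y * V + 2 * (V * Z)) := by
    exact_mod_cast c4
  have hdiff : (P - P0) * V = 2 * (b - b0) * Y := by
    have h1 : ((P - P0) * V - 2 * (b - b0) * Y) * (V : ℤ) = 0 := by
      rw [ht] at hP
      linear_combination hP - c4z - 2 * hdet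
    rcases mul_eq_zero.mp h1 with h | h
    · linarith
    · exfalso
      linarith
  have cY : IsCoprime (V : ℤ) (Y : ℤ) :=
    ⟨sg w * Z, -(sg w * X), by linear_combination sg w * hdet + hs⟩
  have c2' : IsCoprime (V : ℤ) (2 : ℤ) := by
    refine ⟨1, -(V / 2 : ℕ), ?_⟩
    have : (V : ℤ) = 2 * (V / 2 : ℕ) + 1 := by
      have : V = 2 * (V / 2) + 1 := by omega
      exact_mod_cast this
    linarith
  have hdv : (V : ℤ) ∣ (b : ℤ) - b0 := by
    have h1 : (V : ℤ) ∣ 2 * ((b - b0) * Y) := ⟨P - P0, by linear_combination -hdiff⟩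
    exact cY.dvd_of_dvd_mul_right (c2'.dvd_of_dvd_mul_left h1)
  obtain ⟨s', hs'⟩ := hdv
  have hs0 : 0 ≤ s' := by
    by_contra hc
    push Not at hc
    have h4 : (V : ℤ) * s' ≤ -V := by nlinarith
    have h5 : (b0 : ℤ) ≤ V := by exact_mod_cast c3
    have h6 : (0 : ℤ) < b := by exact_mod_cast hb
    linarith
  obtain ⟨s, rfl⟩ := Int.eq_ofNat_of_zero_le hs0
  refine ⟨s, ?_, ht, ?_⟩
  · have : (b : ℤ) = ((b0 + V * s : ℕ) : ℤ) := by push_cast; linarith
    exact_mod_cast this
  · have h1 : (P - (P0 + (2 * Y : ℕ) * s)) * (V : ℤ) = 0 := by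
      push_cast
      linear_combination hdiff + 2 * (Y : ℤ) * hs'
    rcases mul_eq_zero.mp h1 with h | h
    · linarith
    · exfalso
      linarith

/-- check of the data -/
theorem dtV_sound {w : WL} {b0 P0 : ℕ} {k : ℕ → ℕ → ℕ → Bool} (h : dtV w b0 P0 k = true) :
    ∃ e, (mat w).2.2.1 + e * (mat w).1 = 2 * (mat w).2.1 ∧ (mat w).1 % 2 = 1 ∧ b0 ≤ (mat w).1 ∧
    (P0 * (mat w).1 * (mat w).1 + 2 * ((mat w).2.1 * (mat w).2.2.1) =
      (mat w).2.2.1 * (mat w).2.2.1 + (2 * (b0 + e) * (mat w).2.2.1 * (mat w).1 +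
        2 * ((mat w).1 * (mat w).2.2.2))) ∧ k (mat w).1 (mat w).2.2.1 e = true := by
  unfold dtV at h
  rw [maK_eq, force_eq, cj_true, cj_true, cj_true, cj_true] at h
  exact ⟨_, Nat.eq_of_beq_eq_true h.1, Nat.eq_of_beq_eq_true h.2.1, Nat.le_of_ble_eq_true h.2.2.1,
    Nat.eq_of_beq_eq_true h.2.2.2.1, h.2.2.2.2⟩

/-- small members -/
theorem smV_sound {ck : ℕ → ℕ → ℕ → Bool} {V Y2 e T : ℕ} {fuel : ℕ} : ∀ {b P : ℕ},
    smV ck V Y2 e T fuel b P = true → ∀ s : ℕ, 2 * (b + V * s + e) < T → s < fuel →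
    ck (b + V * s) (2 * (b + V * s + e)) (P + Y2 * s) = true := by
  induction fuel with
  | zero => intro b P _ s _ hs; omega
  | succ n ih =>
    intro b P h s hT hs
    have e0 : smV ck V Y2 e T (n + 1) b P = force (Nat.mul 2 (Nat.add b e)) (fun t =>
      @Bool.rec (fun _ => Bool) (cj (ck b t P) (force (Nat.add b V) (fun b' =>
        force (Nat.add P Y2) (fun P' => smV ck V Y2 e T n b' P')))) true (Nat.ble T t)) := rfl
    rw [e0, force_eq] at h
    have hb : Nat.ble T (Nat.mul 2 (Nat.add b e)) = false := by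
      rw [Bool.eq_false_iff]
      intro hc
      have h1 : T ≤ 2 * (b + e) := Nat.le_of_ble_eq_true hc
      have : 2 * (b + e) ≤ 2 * (b + V * s + e) := by
        have : 0 ≤ V * s := Nat.zero_le _
        omega
      omega
    rw [hb] at h
    change cj (ck b (2 * (b + e)) P) (force (Nat.add b V) (fun b' =>
        force (Nat.add P Y2) (fun P' => smV ck V Y2 e T n b' P'))) = true at h
    rw [cj_true, force_eq, force_eq] at h
    cases s with
    | zero =>
      rw [mul_zero, add_zero, mul_zero, add_zero]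
      exact h.1
    | succ s =>
      have e1 : b + V * (s + 1) = (b + V) + V * s := by ring
      have e2 : P + Y2 * (s + 1) = (P + Y2) + Y2 * s := by ring
      rw [e1] at hT ⊢
      rw [e2]
      exact ih h.2 s hT (by omega)

/-- largest letter -/
theorem mxK_lm : ∀ (w : WL) (m : ℕ), m ≤ mxK w m ∧ lm (mxK w m) w
  | .nil, m => ⟨le_rfl, trivial⟩
  | .cons a l, m => by
    have e : mxK (.cons a l) m = @Bool.rec (fun _ => ℕ) (mxK l a) (mxK l m) (Nat.ble a m) := rfl
    cases h : Nat.ble a m with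
    | true =>
      rw [h] at e
      have ha := Nat.le_of_ble_eq_true h
      obtain ⟨h1, h2⟩ := mxK_lm l m
      rw [e]
      exact ⟨h1, ha.trans h1, h2⟩
    | false =>
      rw [h] at e
      have ha : m < a := by
        by_contra hc
        push Not at hc
        rw [Nat.ble_eq_true_of_le hc] at h
        exact absurd h (by simp)
      obtain ⟨h1, h2⟩ := mxK_lm l a
      rw [e]
      exact ⟨ha.le.trans h1, h1, h2⟩

theorem inV_sound {d : ℕ} (h : inV d = true) : d ∈ LV := by
  unfold inV at h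
  rw [anyL_iff] at h
  obtain ⟨x, hx, h1⟩ := h
  rw [← Nat.eq_of_beq_eq_true h1]; exact hx

theorem PWV_prime {l : ℕ} (h : l ∈ PWV) : l.Prime ∧ l ≠ 2 := by
  unfold PWV at h
  simp only [List.mem_cons, List.not_mem_nil, or_false] at h
  rcases h with rfl | rfl | rfl | rfl | rfl | rfl | rfl | rfl | rfl | rfl | rfl | rfl | rfl <;>
    norm_num

theorem sqV_false {d : ℕ} (hsf : Squarefree d) : sqV d = false := by
  have key : ∀ p : ℕ, p.Prime → Nat.beq (Nat.mod d (p * p)) 0 = false := by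
    intro p hp
    rw [Bool.eq_false_iff]
    intro hc
    have h1 : d % (p * p) = 0 := Nat.eq_of_beq_eq_true hc
    have h2 : p * p ∣ d := Nat.dvd_of_mod_eq_zero h1
    exact hp.one_lt.ne' (Nat.isUnit_iff.mp (hsf _ h2))
  unfold sqV
  have h3 := key 3 (by norm_num)
  have h5 := key 5 (by norm_num)
  have h7 := key 7 (by norm_num)
  have h11 := key 11 (by norm_num)
  have h13 := key 13 (by norm_num)
  norm_num at h3 h5 h7 h11 h13
  rw [h3, h5, h7, h11, h13]
  rfl

/-- the check of a family, split -/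
theorem fam_split {w : WL} {b0 P0 : ℕ} (h : fam w b0 P0 = true) :
    ∃ e, (mat w).2.2.1 + e * (mat w).1 = 2 * (mat w).2.1 ∧ (mat w).1 % 2 = 1 ∧ b0 ≤ (mat w).1 ∧
    (P0 * (mat w).1 * (mat w).1 + 2 * ((mat w).2.1 * (mat w).2.2.1) =
      (mat w).2.2.1 * (mat w).2.2.1 + (2 * (b0 + e) * (mat w).2.2.1 * (mat w).1 +
        2 * ((mat w).1 * (mat w).2.2.2))) ∧
    smV (fun b t P => ckV w (mat w).1 b t P) (mat w).1 (2 * (mat w).2.2.1) e
      (73 * (mxK w 0 + 2)) (73 * (mxK w 0 + 2)) b0 P0 = true ∧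
    vR (mat w).1 (2 * (mat w).2.2.1) e b0 P0 w = true := by
  unfold fam at h
  obtain ⟨e, h1, h2, h3, h4, h5⟩ := dtV_sound h
  rw [force_eq, cj_true, force_eq] at h5
  exact ⟨e, h1, h2, h3, h4, h5.1, h5.2⟩

end Pool.Agent.V5helper47.EV
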