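import Pool.Agent.V5helper47.EV.T3

/-! One half word. -/

set_option maxRecDepth 100000

namespace Pool.Agent.V5helper47.EV

open H419R2 Pool.Agent.N911 Finset Pool.Agent.V5helper47.CN

theorem word_even {w : WL} {b : ℕ} (hw : (snoc w b).Pos) {t P d : ℕ}
    (hlin : P * (trE (snoc w b)).1 = t * (trE (snoc w b)).2.1 + (trE (snoc w b)).2.2)
    (ht : 0 < t) (hD : 4 * d = t * t + 4 * P) (hd4 : d % 4 = 2 ∨ d % 4 = 3) (hsf : Squarefree d)
    {K : Type*} [Field K] [NumberField K] (hK : Module.finrank ℚ K = 2) {z : K}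
    (hz : z ^ 2 = (d : K)) (hcl : NumberField.classNumber K = 1)
    (ha : la (snoc w b) (f0 t P) = 2)
    (hnot : 2 ≤ (mat w).1 → P ≠ 2 ∧ P + 1 ≠ t)
    (hnot2 : 4 ≤ (mat w).1 → d ≠ 114 ∧ d ≠ 178)
    {b0 P0 : ℕ} (hfam : fam w b0 P0 = true) : d ∈ LV := by
  have hd1 : 1 < d := by omega
  have hDz : (((4 * d : ℕ)) : ℤ) = (t : ℤ) ^ 2 + 4 * (P : ℤ) := by rw [hD]; push_cast; ring
  have hteven : t % 2 = 0 := by
    rcases Nat.mod_two_eq_zero_or_one t with h | h
    · exact h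
    · exfalso
      obtain ⟨k, rfl⟩ : ∃ k, t = 2 * k + 1 := ⟨t / 2, by omega⟩
      have : (2 * k + 1) * (2 * k + 1) = 4 * (k * k + k) + 1 := by ring
      omega
  obtain ⟨n, rfl⟩ : ∃ n, t = 2 * n := ⟨t / 2, by omega⟩
  have hdn : (d : ℤ) = (n : ℤ) ^ 2 + P := by
    push_cast at hDz
    linarith
  obtain ⟨hwp, hb⟩ := snoc_pos hw
  have hdt : Dt w b ((2 * n : ℕ) : ℤ) P (4 * d) := ⟨hDz, by exact_mod_cast hlin⟩
  have hlam : lamE (snoc w b) (f0 ((2 * n : ℕ) : ℤ) P) = 0 := by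
    unfold lamE f0
    have : (P : ℤ) * (trE (snoc w b)).1 = ((2 * n : ℕ) : ℤ) * (trE (snoc w b)).2.1 +
      (trE (snoc w b)).2.2 := by exact_mod_cast hlin
    simp only
    linarith
  obtain ⟨a', l', e'⟩ := snoc_cons w b
  have hlen : (snoc w b).len = w.len + 1 := snoc_len w b
  have h0 : 0 < (snoc w b).len := by rw [hlen]; omega
  have hsym : bs (snoc w b) (2 * n) (P : ℤ) (snoc w b).len =
      bs (snoc w b) (2 * n) (P : ℤ) ((snoc w b).len - 1) := by
    rw [e'] at hlam ⊢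
    exact end_symE l' a' (f0 ((2 * n : ℕ) : ℤ) P) hlam
  have hsfz : Squarefree (d : ℤ) := Int.squarefree_natCast.mpr hsf
  have hd1z : (1 : ℤ) < d := by exact_mod_cast hd1
  have hns := not_sq_of_squarefree hsfz hd1z
  have i1' : IsDomain (QA (P : ℤ) (2 * (n : ℤ))) := Ev.isDomain_even hdn hns
  have i2' : IsPrincipalIdealRing (QA (P : ℤ) (2 * (n : ℤ))) :=
    Ev.pid_even hdn hsfz (by omega) hd1z hK (x := z) (by rw [hz]; push_cast; rfl) hcl
  have e2n : (2 * (n : ℤ)) = ((2 * n : ℕ) : ℤ) := by push_cast; ring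
  rw [e2n] at i1' i2'
  have htz : (0 : ℤ) < ((2 * n : ℕ) : ℤ) := by exact_mod_cast ht
  have hpos : ∀ k ≤ (snoc w b).len, 0 < (fs (snoc w b) (f0 ((2 * n : ℕ) : ℤ) P) k).A := by
    intro k hk
    rw [e'] at hw hlam hk ⊢
    exact (posW hw (f := f0 ((2 * n : ℕ) : ℤ) P) (by change (0 : ℤ) < 1; norm_num)
      (by exact htz) hlam k hk).1
  have hlaA : la (snoc w b) (f0 ((2 * n : ℕ) : ℤ) P) =
    (fs (snoc w b) (f0 ((2 * n : ℕ) : ℤ) P) (w.len + 1)).A := la_eq_fs w b _
  have hV := mat_pos hwp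
  have mkS : (∀ k, 1 ≤ k → k ≤ (snoc w b).len →
      (2 : ℤ) ≤ (fs (snoc w b) (f0 ((2 * n : ℕ) : ℤ) P) k).A) →
      SplitE (snoc w b) ((2 * n : ℕ) : ℤ) P (4 * d) := by
    intro h
    exact splitE_of_word hw h0 ht hsym hpos
      (fun k hk1 hk2 h3 => by
        have := h k hk1 hk2
        unfold qs at h3
        omega) hDz i1' i2'
  obtain ⟨e, c1, c2, c3, c4, hsm, hvr⟩ := fam_split hfam
  obtain ⟨s, F⟩ := famV_of hwp hb hdt ha c1 c2 c3 c4
  have Fb := F.hb
  have Ft : 2 * n = 2 * (b + e) := by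
    have := F.ht
    exact_mod_cast this
  have FP : P = P0 + 2 * (mat w).2.2.1 * s := by
    have := F.hP
    exact_mod_cast this
  rcases Nat.lt_or_ge (2 * n) (73 * (mxK w 0 + 2)) with hlt | hge
  · -- small parameters
    have hs2 : s < 73 * (mxK w 0 + 2) := by
      have h1 : 1 * s ≤ (mat w).1 * s := Nat.mul_le_mul_right _ hV
      omega
    have hc := smV_sound hsm s (by rw [← Fb, ← Ft]; exact hlt) hs2
    rw [← Fb, ← Ft, ← FP] at hc
    unfold ckV at hc
    rw [force_eq, force_eq] at hc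
    have eD : Nat.add (Nat.mul (2 * n) (2 * n)) (Nat.mul 4 P) = 4 * d := hD.symm
    have ed : Nat.div (4 * d) 4 = d := Nat.mul_div_cancel_left d (by norm_num)
    rw [eD, ed] at hc
    simp only [Bool.or_eq_true] at hc
    rcases hc with hc | hc | hc | hc | hc
    · exfalso
      have h1 : d % 4 ≤ 1 := Nat.le_of_ble_eq_true hc
      omega
    · exact inV_sound hc
    · exfalso
      rw [Bool.and_eq_true, Bool.and_eq_true] at hc
      rcases hc with ⟨h1, h2⟩ | ⟨h1, h2⟩
      · have h1 : 2 ≤ (mat w).1 := Nat.le_of_ble_eq_true h1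
        obtain ⟨h3, h4⟩ := hnot h1
        rw [Bool.or_eq_true] at h2
        rcases h2 with h2 | h2
        · exact h3 (Nat.eq_of_beq_eq_true h2)
        · exact h4 (Nat.eq_of_beq_eq_true h2)
      · have h1 : 4 ≤ (mat w).1 := Nat.le_of_ble_eq_true h1
        obtain ⟨h3, h4⟩ := hnot2 h1
        rw [Bool.or_eq_true] at h2
        rcases h2 with h2 | h2
        · exact h3 (Nat.eq_of_beq_eq_true h2)
        · exact h4 (Nat.eq_of_beq_eq_true h2)
    · exfalso
      rw [sqV_false hsf] at hc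
      exact absurd hc (by simp)
    · exfalso
      rw [snK_eq, anyL_iff] at hc
      obtain ⟨p, hl, h1⟩ := hc
      obtain ⟨hp, hp2⟩ := PWV_prime hl
      unfold witU1 at h1
      rw [cj_true, cj_true] at h1
      obtain ⟨h2, h3, h4⟩ := h1
      have h2' : 4 * (p * p) ≤ 4 * d := Nat.le_of_ble_eq_true h2
      have hq := qW_sound h3
      have G := mkS (by
        intro k hk1 hk2
        obtain ⟨q, h5, h6⟩ := hq k hk1 hk2
        rw [cj_true] at h5
        rw [f0_nat, h6]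
        exact_mod_cast Nat.le_of_ble_eq_true h5.1)
      obtain ⟨r, _, h5⟩ := anyU_true h4
      have h6' : (r * r + (2 * n) * r) % p = P % p := Nat.eq_of_beq_eq_true h5
      have h7 : (p : ℤ) ∣ (r : ℤ) ^ 2 + ((2 * n : ℕ) : ℤ) * r - P := by
        have h8 : (r * r + (2 * n) * r) ≡ P [MOD p] := h6'
        have h9 := (Nat.modEq_iff_dvd.mp h8)
        push_cast at h9 ⊢
        have : (r : ℤ) ^ 2 + 2 * n * r - P = -((P : ℤ) - (r * r + 2 * n * r)) := by ring
        rw [this]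
        exact (dvd_neg).mpr h9
      obtain ⟨k, hk1, hk2, hA⟩ := G.split p hp (by
        have : (4 * (p * p) : ℤ) ≤ ((4 * d : ℕ) : ℤ) := by exact_mod_cast h2'
        linarith) ⟨r, h7⟩
      obtain ⟨q, h8, h9⟩ := hq k hk1 hk2
      rw [cj_true] at h8
      rw [f0_nat, h9] at hA
      have : q = p := by exact_mod_cast hA
      subst this
      simp at h8
  · -- large parameters
    exfalso
    have hgez : (73 * ((mxK w 0 : ℕ) + 2) : ℤ) ≤ ((2 * n : ℕ) : ℤ) := by exact_mod_cast hge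
    have hPpos : (0 : ℤ) < P := by
      have h1 := hpos 1 (by rw [hlen]; omega)
      have : (fs (snoc w b) (f0 ((2 * n : ℕ) : ℤ) P) 1).A = P := rfl
      rw [this] at h1
      exact h1
    have hbig : ∀ k, 1 ≤ k → k ≤ w.len →
        (74 : ℤ) ≤ (fs (snoc w b) (f0 ((2 * n : ℕ) : ℤ) P) k).A := by
      intro k hk1 hk2
      have h1 := bnd (f := f0 ((2 * n : ℕ) : ℤ) P) hw (by change (0 : ℤ) < 1; norm_num)
        (by exact htz) hlam
        (by change (1 : ℤ) < P + ((2 * n : ℕ) : ℤ); linarith) (mxK_lm w 0).2 k hk1 hk2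
      rw [disc_f0 hDz] at h1
      have h2 := hpos k (by rw [hlen]; omega)
      by_contra hc
      push Not at hc
      have h3 : (fs (snoc w b) (f0 ((2 * n : ℕ) : ℤ) P) k).A * ((mxK w 0 : ℕ) + 2) ≤
          73 * ((mxK w 0 : ℕ) + 2) :=
        mul_le_mul_of_nonneg_right (by linarith) (by positivity)
      have h4 : ((fs (snoc w b) (f0 ((2 * n : ℕ) : ℤ) P) k).A * ((mxK w 0 : ℕ) + 2)) ^ 2 ≤
          (((2 * n : ℕ) : ℤ)) ^ 2 :=
        pow_le_pow_left₀ (by positivity) (h3.trans hgez) 2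
      linarith
    have h2 : ∀ k, 1 ≤ k → k ≤ (snoc w b).len →
        (2 : ℤ) ≤ (fs (snoc w b) (f0 ((2 * n : ℕ) : ℤ) P) k).A := by
      intro k hk1 hk2
      rw [hlen] at hk2
      rcases Nat.lt_or_ge k (w.len + 1) with h | h
      · have := hbig k hk1 (by omega)
        linarith
      · have : k = w.len + 1 := by omega
        rw [this, ← hlaA, ha]
    have S := mkS h2
    have ht146 : (146 : ℤ) ≤ ((2 * n : ℕ) : ℤ) := by
      have : (0 : ℤ) ≤ ((mxK w 0 : ℕ) : ℤ) := by positivity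
      linarith
    have hno : ∀ l : ℕ, l.Prime → l ≤ 73 → l ≠ 2 →
        ¬ ∃ w0 : ℤ, (l : ℤ) ∣ w0 ^ 2 + ((2 * n : ℕ) : ℤ) * w0 - P := by
      intro l hl hl73 hla hex
      have hl' : (l : ℤ) ≤ 73 := by exact_mod_cast hl73
      obtain ⟨k, hk1, hk2, hA⟩ := S.split l hl (by
        rw [hDz]
        have h3 : (0 : ℤ) ≤ l := by positivity
        nlinarith) hex
      rw [hlen] at hk2
      rcases Nat.lt_or_ge k (w.len + 1) with h | h
      · have := hbig k hk1 (by omega)
        rw [hA] at this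
        linarith
      · have : k = w.len + 1 := by omega
        rw [this, ← hlaA, ha] at hA
        apply hla
        exact_mod_cast hA.symm
    have G := goodV_of_word hw h0 ht hsym hpos
      (fun k hk1 hk2 h3 => by
        have := h2 k hk1 hk2
        unfold qs at h3
        omega) hd4 hDz i1' i2'
    refine vR_sound ⟨hdt, G, ?_⟩ F hvr
    intro l hl hl2 hl73 hsq
    exact hno l hl hl73 hl2 (root_of_square hl hl2 hDz hsq)

end Pool.Agent.V5helper47.EV
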