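import Pool.Agent.V5helper47.EV.T4
import Pool.Agent.V5helper47.CN.T14

/-! From a solution of `x² - d y² = ± 2` to a word. -/

set_option maxRecDepth 100000

namespace Pool.Agent.V5helper47.EV

open H419R2 Pool.Agent.N911 Finset Pool.Agent.V5helper47.CN

/-- solutions -/
def Sv (d x y : ℕ) : Prop := 0 < x ∧ 0 < y ∧ (x ^ 2 = d * y ^ 2 + 2 ∨ x ^ 2 + 2 = d * y ^ 2)

/-- the square part of twice a squarefree number -/
theorem sq_two {d k : ℕ} (hsf : Squarefree d) (h : k ^ 2 ∣ 2 * d) : k = 1 ∨ k = 2 := by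
  rcases Nat.even_or_odd' k with ⟨j, rfl | rfl⟩
  · right
    have h1 : 2 * (2 * j ^ 2) ∣ 2 * d := by
      have : 2 * (2 * j ^ 2) = (2 * j) ^ 2 := by ring
      rw [this]; exact h
    have h2 : 2 * j ^ 2 ∣ d := Nat.dvd_of_mul_dvd_mul_left (by norm_num) h1
    have h3 : j * j ∣ d := by
      have : j * j ∣ 2 * j ^ 2 := ⟨2, by ring⟩
      exact this.trans h2
    have := Nat.isUnit_iff.mp (hsf j h3)
    omega
  · left
    have hc : Nat.Coprime ((2 * j + 1) ^ 2) 2 := by
      apply Nat.Coprime.pow_left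
      exact Nat.coprime_two_right.mpr ⟨j, rfl⟩
    have h2 : (2 * j + 1) ^ 2 ∣ d := hc.dvd_of_dvd_mul_left h
    have h3 : (2 * j + 1) * (2 * j + 1) ∣ d := by rw [← sq]; exact h2
    exact Nat.isUnit_iff.mp (hsf _ h3)

/-- a word for a solution -/
theorem word_of_solV {d x y : ℕ} (hsf : Squarefree d) (hd4 : d % 4 = 2 ∨ d % 4 = 3) (hd19 : 19 ≤ d)
    (h : Sv d x y) :
    ∃ (w : WL) (b t P : ℕ), (snoc w b).Pos ∧
      P * (trE (snoc w b)).1 = t * (trE (snoc w b)).2.1 + (trE (snoc w b)).2.2 ∧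
      0 < t ∧ 4 * d = t * t + 4 * P ∧
      la (snoc w b) (f0 t P) = 2 ∧ (mat w).1 = y := by
  obtain ⟨hx, hy, he⟩ := h
  -- `T`
  obtain ⟨T, s, hs, hT1, hT2⟩ : ∃ T : ℕ, ∃ s : ℤ, (s = 1 ∨ s = -1) ∧
      (2 * x ^ 2 : ℤ) = T + 2 * s ∧ (2 * d * y ^ 2 : ℤ) = T - 2 * s := by
    rcases he with e | e
    · refine ⟨2 * d * y ^ 2 + 2, 1, Or.inl rfl, ?_, ?_⟩
      · have : (x ^ 2 : ℤ) = d * y ^ 2 + 2 := by exact_mod_cast e
        push_cast; linarith
      · push_cast; ring
    · refine ⟨2 * x ^ 2 + 2, -1, Or.inr rfl, ?_, ?_⟩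
      · push_cast; ring
      · have : (x ^ 2 + 2 : ℤ) = d * y ^ 2 := by exact_mod_cast e
        push_cast; linarith
  have hss : s * s = 1 := by rcases hs with rfl | rfl <;> norm_num
  have hU : 0 < x * y := Nat.mul_pos hx hy
  have hTT : T * T = (4 * d) * ((x * y) * (x * y)) + 4 := by
    have h1 : (T : ℤ) * T = (4 * d) * ((x * y) * (x * y)) + 4 := by
      have h2 : (2 * x ^ 2 : ℤ) * (2 * d * y ^ 2) = (T + 2 * s) * (T - 2 * s) := by rw [hT1, hT2]
      linear_combination -h2 + 4 * hss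
    exact_mod_cast h1
  obtain ⟨x1, y1, t, P, hx1, hdet, ht, hD, hlin⟩ := exists_parE hTT hU (by omega)
    (Or.inl (by omega))
  obtain ⟨v, hv, hvn, htr⟩ := exists_wordE (x * y) x1 y1 hU hdet hx1
  obtain ⟨w, b, rfl⟩ := exists_snoc hvn
  obtain ⟨hwp, hb⟩ := snoc_pos hv
  refine ⟨w, b, t, P, hv, by rw [htr]; exact hlin, ht, hD, ?_⟩
  have hDz : ((4 * d : ℕ) : ℤ) = (t : ℤ) ^ 2 + 4 * (P : ℤ) := by rw [hD]; push_cast; ring
  have hdt : Dt w b t P (4 * d) := ⟨hDz, by rw [htr]; exact_mod_cast hlin⟩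
  have hdet' := mat_det w
  have hsg := sg_sq w
  have hV := mat_pos hwp
  have hla := hdt.la_lin
  rw [trE_snoc, Prod.mk.injEq, Prod.mk.injEq] at htr
  obtain ⟨hU1, hx1', hy1'⟩ := htr
  -- `T` again
  have hTz : (T : ℤ) = t * (x * y : ℕ) + 2 * x1 := by
    have h1 : ((t * (x * y : ℕ) + 2 * x1 : ℕ) : ℤ) * ((t * (x * y : ℕ) + 2 * x1 : ℕ) : ℤ) =
        (T : ℤ) * T := by
      have h2 : (T : ℤ) * T = ((4 * d : ℕ) : ℤ) * ((x * y : ℕ) * (x * y : ℕ)) + 4 := by
        exact_mod_cast hTT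
      have h3 : ((x * y : ℕ) : ℤ) * y1 + 1 = x1 ^ 2 := by exact_mod_cast hdet
      have h4 : (P : ℤ) * (x * y : ℕ) = t * x1 + y1 := by exact_mod_cast hlin
      rw [h2, hDz]
      push_cast at h3 h4 ⊢
      linear_combination -4 * h3 - 4 * (x * y : ℤ) * h4
    have h2 : (t * (x * y : ℕ) + 2 * x1) * (t * (x * y : ℕ) + 2 * x1) = T * T := by
      exact_mod_cast h1
    have h3 : t * (x * y) + 2 * x1 = T := Nat.mul_self_inj.mp h2
    rw [← h3]
    push_cast; ring
  have hn0 : 0 < b * (mat w).1 + 2 * (mat w).2.1 := by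
    have : 0 < b * (mat w).1 := Nat.mul_pos hb hV
    omega
  have hVn : (mat w).1 ≤ b * (mat w).1 + 2 * (mat w).2.1 := by
    have : 1 * (mat w).1 ≤ b * (mat w).1 := Nat.mul_le_mul_right _ hb
    omega
  -- the centre divides
  have hlam : lamE (snoc w b) (f0 t P) = 0 := by
    unfold lamE f0
    have h4 : (P : ℤ) * (x * y : ℕ) = t * x1 + y1 := by exact_mod_cast hlin
    rw [trE_snoc]
    simp only
    rw [hU1, hx1', hy1']
    linarith
  have hladvd : la (snoc w b) (f0 t P) ∣ ((4 * d : ℕ) : ℤ) := by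
    have h1 := disc_f0 hDz
    rw [← h1]
    obtain ⟨a', l', e'⟩ := snoc_cons w b
    rw [e'] at hlam ⊢
    exact la_dvd hlam
  have hladisc : ∃ c A : ℤ, ((4 * d : ℕ) : ℤ) = (la (snoc w b) (f0 t P)) ^ 2 * c ^ 2 +
      4 * la (snoc w b) (f0 t P) * A := by
    have h1 := disc_f0 hDz
    rw [← h1]
    obtain ⟨a', l', e'⟩ := snoc_cons w b
    rw [e'] at hlam ⊢
    exact la_disc hlam
  generalize hl : la (snoc w b) (f0 t P) = la0 at *
  generalize hVe : (mat w).1 = v at *
  generalize (mat w).2.1 = X at *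
  generalize (mat w).2.2.1 = Y at *
  generalize (mat w).2.2.2 = Z at *
  generalize sg w = sw at *
  generalize hne : b * v + 2 * X = n at *
  have hnz : ((b : ℤ) * v + 2 * X) = n := by rw [← hne]; push_cast; ring
  rw [hnz] at hla
  have hUz : ((x * y : ℕ) : ℤ) = v * n := by rw [← hU1]; push_cast; ring
  have hn0z : (0 : ℤ) < n := by exact_mod_cast hn0
  have hv0z : (0 : ℤ) < v := by exact_mod_cast hV
  -- norm times square
  have hx1n : (x1 : ℤ) = Y * n + sw := by
    rw [← hx1', ← hnz, ← hdet']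
    push_cast; ring
  have k1 : la0 * n ^ 2 = T - 2 * sw := by
    rw [hTz, hUz, hx1n]
    linear_combination (n : ℤ) * hla
  have hla0 : 0 < la0 := by
    have h1 : 0 < la0 * n := by
      rw [hla]
      have : (0 : ℤ) < t := by exact_mod_cast ht
      positivity
    exact pos_of_mul_pos_left_of_pos h1 hn0z
  obtain ⟨m, hm⟩ := Int.eq_ofNat_of_zero_le hla0.le
  subst hm
  have hmD : m ∣ 4 * d := by exact_mod_cast hladvd
  have hswv : sw = 1 ∨ sw = -1 := by
    have : (sw - 1) * (sw + 1) = 0 := by linear_combination hsg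
    rcases mul_eq_zero.mp this with h | h
    · left; linarith
    · right; linarith
  have hcase : (m : ℤ) * n ^ 2 = 2 * x ^ 2 ∨ (m : ℤ) * n ^ 2 = 2 * d * y ^ 2 := by
    rw [k1, hT1, hT2]
    rcases hs with rfl | rfl <;> rcases hswv with rfl | rfl
    · right; ring
    · left; ring
    · left; ring
    · right; ring
  have hxy : x * y = v * n := by exact_mod_cast hUz
  rcases hcase with h1 | h1
  · have h2 : m * n ^ 2 = 2 * x ^ 2 := by exact_mod_cast h1
    obtain ⟨g, n', x', hg, hcop, e1, e2⟩ := Nat.exists_coprime' (m := n) (n := x)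
      (Nat.gcd_pos_of_pos_left _ hn0)
    have hx'0 : 0 < x' := by
      rcases Nat.eq_zero_or_pos x' with h | h
      · subst h; omega
      · exact h
    have h3 : m * n' ^ 2 = 2 * x' ^ 2 := by
      have : (m * n' ^ 2) * g ^ 2 = (2 * x' ^ 2) * g ^ 2 := by
        rw [e1, e2, mul_pow, mul_pow] at h2
        linarith
      exact Nat.eq_of_mul_eq_mul_right (by positivity) this
    have h4 : n' ^ 2 ∣ 2 := by
      have : n' ^ 2 ∣ 2 * x' ^ 2 := ⟨m, by rw [← h3]; ring⟩
      exact (Nat.Coprime.pow 2 2 hcop).dvd_of_dvd_mul_right this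
    have h5 : n' = 1 := by
      have h6 := Nat.le_of_dvd (by norm_num) h4
      have h7 : n' ≤ 1 := by
        by_contra hc
        push Not at hc
        have : 2 ^ 2 ≤ n' ^ 2 := Nat.pow_le_pow_left hc 2
        omega
      have h8 : n' ≠ 0 := by
        rintro rfl
        omega
      omega
    subst h5
    have h3' : m = 2 * x' ^ 2 := by rw [← h3]; ring
    have h6 : x' ^ 2 ∣ 2 * d := by
      have h7 : 2 * x' ^ 2 ∣ 2 * (2 * d) := by
        rw [← h3']
        have : 2 * (2 * d) = 4 * d := by ring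
        rw [this]; exact hmD
      exact Nat.dvd_of_mul_dvd_mul_left (by norm_num) h7
    rcases sq_two hsf h6 with h7 | h7
    · subst h7
      have hm2 : m = 2 := by rw [h3']; norm_num
      have hnx : n = x := by rw [e1, e2]
      refine ⟨by rw [hm2]; rfl, ?_⟩
      rw [hnx] at hxy
      have : x * y = x * v := by rw [hxy]; ring
      exact (Nat.eq_of_mul_eq_mul_left hx this).symm
    · exfalso
      subst h7
      have hm8 : m = 8 := by rw [h3']; norm_num
      subst hm8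
      obtain ⟨c, A, hcA⟩ := hladisc
      push_cast at hcA
      have : (d : ℤ) = 8 * (2 * c ^ 2 + A) := by linarith
      omega
  · exfalso
    have h2 : m * n ^ 2 = 2 * d * y ^ 2 := by exact_mod_cast h1
    obtain ⟨g, n', y', hg, hcop, e1, e2⟩ := Nat.exists_coprime' (m := n) (n := y)
      (Nat.gcd_pos_of_pos_left _ hn0)
    have hy'0 : 0 < y' := by
      rcases Nat.eq_zero_or_pos y' with h | h
      · subst h; omega
      · exact h
    have h3 : m * n' ^ 2 = 2 * d * y' ^ 2 := by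
      have : (m * n' ^ 2) * g ^ 2 = (2 * d * y' ^ 2) * g ^ 2 := by
        rw [e1, e2, mul_pow, mul_pow] at h2
        linarith
      exact Nat.eq_of_mul_eq_mul_right (by positivity) this
    have h4 : n' ^ 2 ∣ 2 * d := by
      have : n' ^ 2 ∣ 2 * d * y' ^ 2 := ⟨m, by rw [← h3]; ring⟩
      exact (Nat.Coprime.pow 2 2 hcop).dvd_of_dvd_mul_right this
    have h5 : n' ≤ 2 := by rcases sq_two hsf h4 with h | h <;> omega
    -- `x ≤ 4 y`
    have h6 : x * y' = v * n' := by
      have : (x * y') * g = (v * n') * g := by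
        rw [e1, e2] at hxy
        linarith
      exact Nat.eq_of_mul_eq_mul_right hg this
    have h7 : x ≤ 4 * y := by
      have a1 : x * 1 ≤ x * y' := Nat.mul_le_mul_left _ hy'0
      have a2 : v * n' ≤ n * n' := Nat.mul_le_mul_right _ hVn
      have a3 : n * n' ≤ n * 2 := Nat.mul_le_mul_left _ h5
      have a4 : n' * g ≤ 2 * g := Nat.mul_le_mul_right _ h5
      have a5 : 1 * g ≤ y' * g := Nat.mul_le_mul_right _ hy'0
      rw [e1] at a2 a3
      rw [e2]
      omega
    have h8 : x ^ 2 ≤ 16 * y ^ 2 := by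
      calc x ^ 2 ≤ (4 * y) ^ 2 := Nat.pow_le_pow_left h7 2
        _ = 16 * y ^ 2 := by ring
    have h9 : 19 * y ^ 2 ≤ d * y ^ 2 := Nat.mul_le_mul_right _ hd19
    have h10 : 1 ≤ y ^ 2 := Nat.one_le_pow _ _ hy
    omega

end Pool.Agent.V5helper47.EV
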