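import Pool.Agent.V5helper47.EV.T5
import Pool.Agent.V5helper47.EV.S2

/-! A word is determined by its matrix; completeness of the lists. -/

set_option maxRecDepth 100000

namespace Pool.Agent.V5helper47.EV

open H419R2 Pool.Agent.N911 Finset Pool.Agent.V5helper47.CN

theorem nil_of_Y {l : WL} (hl : l.Pos) (h : (mat l).2.2.1 = 0) : l = .nil := by
  cases l with
  | nil => rfl
  | cons a l =>
    exfalso
    have h1 := mat_pos hl.2
    rw [mat_cons] at h
    simp only at h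
    omega

theorem no_l {l : WL} (hl : l.Pos) (hV : (mat l).1 = 1) (hX : (mat l).2.1 = 0)
    (hY : (mat l).2.2.1 = 1) : False := by
  cases l with
  | nil =>
    rw [mat_nil] at hY
    simp at hY
  | cons c m =>
    have vm := mat_pos hl.2
    have hc : 1 ≤ c := hl.1
    rw [mat_cons] at hV hX
    simp only at hV hX
    have q1 : 1 * (mat m).1 ≤ c * (mat m).1 := Nat.mul_le_mul_right _ hc
    have em := nil_of_Y hl.2 (by omega)
    subst em
    rw [mat_nil] at hV hX
    simp at hV hX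

theorem inj_aux {l r : WL} (hl : l.Pos) (hr : r.Pos) {a k : ℕ}
    (h1 : a * (mat l).1 + (mat l).2.2.1 = (a + 1 + k) * (mat r).1 + (mat r).2.2.1)
    (h3 : (mat l).1 = (mat r).1) (h4 : (mat l).2.1 = (mat r).2.1) : False := by
  have vl := mat_pos hl
  have yl := mat_Y_le hl
  have e1 : (a + 1 + k) * (mat r).1 = a * (mat r).1 + (mat r).1 + k * (mat r).1 := by ring
  rw [e1, h3] at h1
  rw [h3] at yl vl
  have hr0 : (mat r).2.2.1 = 0 := by omega
  have er := nil_of_Y hr hr0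
  subst er
  rw [mat_nil] at h1 h3 h4 yl
  simp only at h1 h3 h4 yl
  exact no_l hl h3 h4 (by omega)

theorem mat_inj : ∀ {w u : WL}, w.Pos → u.Pos → mat w = mat u → w = u
  | .nil, .nil, _, _, _ => rfl
  | .nil, .cons a l, _, hu, h => by
    exfalso
    have h1 := mat_pos hu.2
    rw [mat_nil, mat_cons, Prod.mk.injEq, Prod.mk.injEq, Prod.mk.injEq] at h
    omega
  | .cons a l, .nil, hw, _, h => by
    exfalso
    have h1 := mat_pos hw.2
    rw [mat_nil, mat_cons, Prod.mk.injEq, Prod.mk.injEq, Prod.mk.injEq] at h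
    omega
  | .cons a l, .cons b r, hw, hu, h => by
    have hl := hw.2
    have hr := hu.2
    rw [mat_cons, mat_cons, Prod.mk.injEq, Prod.mk.injEq, Prod.mk.injEq] at h
    obtain ⟨h1, h2, h3, h4⟩ := h
    rcases Nat.lt_trichotomy a b with hab | hab | hab
    · exfalso
      obtain ⟨k, rfl⟩ : ∃ k, b = a + 1 + k := ⟨b - a - 1, by omega⟩
      exact inj_aux hl hr h1 h3 h4
    · subst hab
      have e : mat l = mat r := by
        refine Prod.ext h3 (Prod.ext h4 (Prod.ext ?_ ?_))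
        · rw [h3] at h1; omega
        · rw [h4] at h2; omega
      rw [mat_inj hl hr e]
    · exfalso
      obtain ⟨k, rfl⟩ : ∃ k, a = b + 1 + k := ⟨a - b - 1, by omega⟩
      exact inj_aux hr hl h1.symm h3.symm h4.symm

theorem mat_XZ : ∀ {w : WL}, w.Pos → (mat w).2.1 ≤ (mat w).1 ∧
    (w ≠ .nil → (mat w).2.2.2 ≤ (mat w).2.2.1)
  | .nil, _ => ⟨by rw [mat_nil]; simp, fun h => absurd rfl h⟩
  | .cons a .nil, hp => by
    rw [mat_cons, mat_nil]
    have : 1 ≤ a := hp.1
    simp only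
    exact ⟨by omega, fun _ => by omega⟩
  | .cons a (.cons c l), hp => by
    obtain ⟨h1, h2⟩ := mat_XZ (w := .cons c l) hp.2
    have h3 := h2 (by simp)
    rw [mat_cons a]
    simp only
    have h4 := Nat.mul_le_mul_left a h1
    exact ⟨by omega, fun _ => h1⟩

theorem psW_pos : ∀ {w : WL}, psW w = true → w.Pos
  | .nil, _ => trivial
  | .cons a l, h => by
    have e : psW (.cons a l) = cj (Nat.ble 1 a) (psW l) := rfl
    rw [e, cj_true] at h
    exact ⟨Nat.le_of_ble_eq_true h.1, psW_pos h.2⟩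

theorem inM_sound {L : List (List ℕ × ℕ × ℕ)} {V X Y Z : ℕ} (h : inM L V X Y Z = true) {w : WL}
    (hw : w.Pos) (hm : mat w = (V, X, Y, Z)) : ∃ p ∈ L, w = wl p.1 := by
  unfold inM at h
  rw [anyL_iff] at h
  obtain ⟨p, hp, h⟩ := h
  rw [maK_eq, cj_true, cj_true, cj_true, cj_true] at h
  obtain ⟨h1, h2, h3, h4, h5⟩ := h
  refine ⟨p, hp, mat_inj hw (psW_pos h5) ?_⟩
  rw [hm]
  refine Prod.ext (Nat.eq_of_beq_eq_true h1).symm (Prod.ext (Nat.eq_of_beq_eq_true h2).symm
    (Prod.ext (Nat.eq_of_beq_eq_true h3).symm (Nat.eq_of_beq_eq_true h4).symm))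

theorem hM_sound {L : List (List ℕ × ℕ × ℕ)} {w : WL} (hw : w.Pos) (h : hM L (mat w).1
    (mat w).2.1 = true) (hV : 0 < (mat w).1) (e2 : (2 * (mat w).2.1) % (mat w).1 = (mat w).2.2.1)
    (h3 : (mat w).2.1 * (mat w).2.2.1 = (mat w).1 * (mat w).2.2.2 + 1) : ∃ p ∈ L, w = wl p.1 := by
  unfold hM at h
  have e2' : Nat.mod (Nat.mul 2 (mat w).2.1) (mat w).1 = (mat w).2.2.1 := e2
  rw [force_eq, e2'] at h
  have h5 : Nat.div (Nat.sub (Nat.mul (mat w).2.1 (mat w).2.2.1) 1) (mat w).1 =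
      (mat w).2.2.2 := by
    change ((mat w).2.1 * (mat w).2.2.1 - 1) / (mat w).1 = _
    rw [h3, Nat.add_sub_cancel, Nat.mul_div_cancel_left _ hV]
  rw [h5] at h
  exact inM_sound h hw rfl

theorem hP_sound {L : List (List ℕ × ℕ × ℕ)} {w : WL} (hw : w.Pos) (h : hP L (mat w).1
    (mat w).2.1 = true) (hV : 0 < (mat w).1) (e2 : (2 * (mat w).2.1) % (mat w).1 = (mat w).2.2.1)
    (h3 : (mat w).1 * (mat w).2.2.2 = (mat w).2.1 * (mat w).2.2.1 + 1) : ∃ p ∈ L, w = wl p.1 := by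
  unfold hP at h
  have e2' : Nat.mod (Nat.mul 2 (mat w).2.1) (mat w).1 = (mat w).2.2.1 := e2
  rw [force_eq, e2'] at h
  have h5 : Nat.div (Nat.succ (Nat.mul (mat w).2.1 (mat w).2.2.1)) (mat w).1 = (mat w).2.2.2 := by
    change ((mat w).2.1 * (mat w).2.2.1 + 1) / (mat w).1 = _
    rw [← h3, Nat.mul_div_cancel_left _ hV]
  rw [h5] at h
  exact inM_sound h hw rfl

theorem sq_compl {V X : ℕ} (h : X ≤ V) : (2 * (V - X) * (V - X)) % V = (2 * X * X) % V := by
  obtain ⟨k, rfl⟩ : ∃ k, V = X + k := ⟨V - X, by omega⟩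
  have e1 : X + k - X = k := by omega
  rw [e1]
  have : (2 * k * k) ≡ (2 * X * X) [MOD (X + k)] := by
    rw [Nat.modEq_iff_dvd]
    refine ⟨2 * (X - k), ?_⟩
    push_cast
    ring
  exact this

theorem not_res {p : ℕ} (hp : p ≠ 0) (h : ∀ x < p, (2 * x * x) % p ≠ 1 ∧ (2 * x * x) % p ≠ p - 1)
    (hp1 : 1 < p) {V X R : ℕ} (hV : p ∣ V) (hR : (2 * X * X) % V = R) (hR1 : R = 1 ∨ R + 1 = V) :
    False := by
  have h1 : (2 * X * X) % p = R % p := by
    rw [← hR, Nat.mod_mod_of_dvd _ hV]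
  have h2 : (2 * X * X) % p = (2 * (X % p) * (X % p)) % p := by
    rw [Nat.mul_mod, Nat.mul_mod 2 X, Nat.mul_mod (2 * (X % p)), Nat.mul_mod 2 (X % p)]
    simp
  obtain ⟨h3, h4⟩ := h (X % p) (Nat.mod_lt _ (by omega))
  rw [← h2, h1] at h3 h4
  rcases hR1 with h5 | h5
  · rw [h5] at h3
    exact h3 (Nat.mod_eq_of_lt hp1)
  · apply h4
    obtain ⟨k, hk⟩ := hV
    have hk0 : k ≠ 0 := by
      rintro rfl
      omega
    obtain ⟨j, rfl⟩ : ∃ j, k = j + 1 := ⟨k - 1, by omega⟩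
    have h6 : R = p * j + (p - 1) := by
      have : p * (j + 1) = p * j + p := by ring
      omega
    rw [h6, Nat.mul_add_mod, Nat.mod_eq_of_lt (by omega)]

theorem rgV_sound {L : List (List ℕ × ℕ × ℕ)} {lo n : ℕ} (h : rgV L lo n = true) {w : WL}
    (hw : w.Pos) {j : ℕ} (hj : j < n) (hV : (mat w).1 = lo + 2 * j) (hlo : 3 ≤ lo)
    {b m : ℕ} (hval : b * (mat w).1 + 2 * (mat w).2.1 = m * (mat w).1 + (mat w).2.2.1) :
    ∃ p ∈ L, w = wl p.1 := by
  unfold rgV at h
  rw [allN_iff] at h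
  have h := h j hj
  rw [force_eq, Bool.or_eq_true, Bool.or_eq_true, allN_iff] at h
  change ((lo + 2 * j) % 5).beq 0 = true ∨ ((lo + 2 * j) % 13).beq 0 = true ∨
    ∀ X < (lo + 2 * j) / 2 + 1, ckX L (lo + 2 * j) X = true at h
  rw [← hV] at h
  have hdet := mat_det w
  have hs := sg_sq w
  have hY := mat_Y_le hw
  have hV3 : 3 ≤ (mat w).1 := by omega
  have hsw : sg w = 1 ∨ sg w = -1 := by
    have : (sg w - 1) * (sg w + 1) = 0 := by linear_combination hs
    rcases mul_eq_zero.mp this with h | h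
    · left; linarith
    · right; linarith
  -- `Y < V`
  have hYV : (mat w).2.2.1 < (mat w).1 := by
    rcases Nat.lt_or_ge (mat w).2.2.1 (mat w).1 with h1 | h1
    · exact h1
    · exfalso
      have e : (mat w).2.2.1 = (mat w).1 := le_antisymm hY h1
      rw [e] at hdet
      have hd : ((mat w).1 : ℤ) ∣ sg w := ⟨(mat w).2.2.2 - (mat w).2.1, by rw [← hdet]; ring⟩
      have hd1 : ((mat w).1 : ℤ) ∣ 1 := by
        have := hd.mul_right (sg w)
        rwa [hs] at this
      have := Int.le_of_dvd one_pos hd1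
      omega
  have hXV : (mat w).2.1 < (mat w).1 := by
    rcases Nat.lt_or_ge (mat w).2.1 (mat w).1 with h1 | h1
    · exact h1
    · exfalso
      have e : (mat w).2.1 = (mat w).1 := le_antisymm (mat_XZ hw).1 h1
      rw [e] at hdet
      have hd : ((mat w).1 : ℤ) ∣ sg w := ⟨(mat w).2.2.2 - (mat w).2.2.1, by rw [← hdet]; ring⟩
      have hd1 : ((mat w).1 : ℤ) ∣ 1 := by
        have := hd.mul_right (sg w)
        rwa [hs] at this
      have := Int.le_of_dvd one_pos hd1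
      omega
  have e2 : (2 * (mat w).2.1) % (mat w).1 = (mat w).2.2.1 := by
    have h1 : (b * (mat w).1 + 2 * (mat w).2.1) % (mat w).1 =
      (m * (mat w).1 + (mat w).2.2.1) % (mat w).1 := by rw [hval]
    rw [Nat.mul_add_mod', Nat.mul_add_mod', Nat.mod_eq_of_lt hYV] at h1
    exact h1
  have e3 : (2 * (mat w).2.1 * (mat w).2.1) % (mat w).1 =
      ((mat w).2.1 * (mat w).2.2.1) % (mat w).1 := by
    have e2' : (2 * (mat w).2.1) % (mat w).1 = (mat w).2.2.1 % (mat w).1 := by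
      rw [Nat.mod_eq_of_lt hYV]; exact e2
    rw [Nat.mul_mod, e2', ← Nat.mul_mod, Nat.mul_comm]
  -- the residue
  obtain ⟨hM1, hP1⟩ : (sg w = -1 → (2 * (mat w).2.1 * (mat w).2.1) % (mat w).1 = 1 ∧
      (mat w).2.1 * (mat w).2.2.1 = (mat w).1 * (mat w).2.2.2 + 1) ∧
      (sg w = 1 → (2 * (mat w).2.1 * (mat w).2.1) % (mat w).1 + 1 = (mat w).1 ∧
      (mat w).1 * (mat w).2.2.2 = (mat w).2.1 * (mat w).2.2.1 + 1) := by
    constructor
    · intro h1
      have h3 : (mat w).2.1 * (mat w).2.2.1 = (mat w).1 * (mat w).2.2.2 + 1 := by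
        rw [h1] at hdet
        have : ((mat w).2.1 * (mat w).2.2.1 : ℤ) = (mat w).1 * (mat w).2.2.2 + 1 := by linarith
        exact_mod_cast this
      refine ⟨?_, h3⟩
      rw [e3, h3, Nat.mul_add_mod, Nat.mod_eq_of_lt (by omega)]
    · intro h1
      have h3 : (mat w).1 * (mat w).2.2.2 = (mat w).2.1 * (mat w).2.2.1 + 1 := by
        rw [h1] at hdet
        have : ((mat w).1 * (mat w).2.2.2 : ℤ) = (mat w).2.1 * (mat w).2.2.1 + 1 := by linarith
        exact_mod_cast this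
      refine ⟨?_, h3⟩
      have hZ : (mat w).2.2.2 ≠ 0 := by
        intro h0
        rw [h0] at h3
        omega
      obtain ⟨z, hz⟩ : ∃ z, (mat w).2.2.2 = z + 1 := ⟨(mat w).2.2.2 - 1, by omega⟩
      have h5 : (mat w).2.1 * (mat w).2.2.1 = (mat w).1 * z + ((mat w).1 - 1) := by
        rw [hz, Nat.mul_add, Nat.mul_one] at h3
        omega
      have h6 : ((mat w).2.1 * (mat w).2.2.1) % (mat w).1 = (mat w).1 - 1 := by
        rw [h5, Nat.mul_add_mod, Nat.mod_eq_of_lt (by omega)]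
      rw [e3, h6]
      omega
  have hR1 : (2 * (mat w).2.1 * (mat w).2.1) % (mat w).1 = 1 ∨
      (2 * (mat w).2.1 * (mat w).2.1) % (mat w).1 + 1 = (mat w).1 :=
    hsw.elim (fun h => Or.inr (hP1 h).1) (fun h => Or.inl (hM1 h).1)
  rcases h with h | h | h
  · exfalso
    exact not_res (p := 5) (by norm_num) (by decide) (by norm_num)
      (Nat.dvd_of_mod_eq_zero (Nat.eq_of_beq_eq_true h)) rfl hR1
  · exfalso
    exact not_res (p := 13) (by norm_num) (by decide) (by norm_num)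
      (Nat.dvd_of_mod_eq_zero (Nat.eq_of_beq_eq_true h)) rfl hR1
  have key : ∃ X, X < (mat w).1 / 2 + 1 ∧ (X = (mat w).2.1 ∨ (mat w).1 - X = (mat w).2.1) ∧
      (2 * X * X) % (mat w).1 = (2 * (mat w).2.1 * (mat w).2.1) % (mat w).1 := by
    rcases Nat.lt_or_ge (mat w).2.1 ((mat w).1 / 2 + 1) with h1 | h1
    · exact ⟨_, h1, Or.inl rfl, rfl⟩
    · exact ⟨(mat w).1 - (mat w).2.1, by omega, Or.inr (by omega), sq_compl hXV.le⟩
  obtain ⟨X, hX1, hX2, hX3⟩ := key
  have h := h X hX1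
  unfold ckX at h
  have e5 : Nat.mod (Nat.mul (Nat.mul 2 X) X) (mat w).1 =
    (2 * (mat w).2.1 * (mat w).2.1) % (mat w).1 := hX3
  rw [force_eq, e5, cj_true] at h
  rcases hsw with h1 | h1
  · obtain ⟨h3, h4⟩ := hP1 h1
    have h5 := imp_true h.2 (by
      change Nat.beq ((2 * (mat w).2.1 * (mat w).2.1) % (mat w).1 + 1) _ = true
      rw [h3]
      exact Nat.beq_refl _)
    rw [cj_true] at h5
    rcases hX2 with rfl | h6
    · exact hP_sound hw h5.1 (by omega) e2 h4
    · have h7 := h5.2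
      have e6 : Nat.sub (mat w).1 X = (mat w).2.1 := h6
      rw [e6] at h7
      exact hP_sound hw h7 (by omega) e2 h4
  · obtain ⟨h3, h4⟩ := hM1 h1
    have h5 := imp_true h.1 (by
      rw [h3]
      rfl)
    rw [cj_true] at h5
    rcases hX2 with rfl | h6
    · exact hM_sound hw h5.1 (by omega) e2 h4
    · have h7 := h5.2
      have e6 : Nat.sub (mat w).1 X = (mat w).2.1 := h6
      rw [e6] at h7
      exact hM_sound hw h7 (by omega) e2 h4

theorem V_one {w : WL} (hw : w.Pos) (h : (mat w).1 = 1) : w = .nil ∨ w = .cons 1 .nil := by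
  cases w with
  | nil => exact Or.inl rfl
  | cons a l =>
    right
    have h1 := mat_pos hw.2
    have ha : 1 ≤ a := hw.1
    rw [mat_cons] at h
    simp only at h
    have h2 : 1 * (mat l).1 ≤ a * (mat l).1 := Nat.mul_le_mul_right _ ha
    have hl := nil_of_Y hw.2 (by omega)
    subst hl
    rw [mat_nil] at h
    simp only at h
    have : a = 1 := by omega
    rw [this]

end Pool.Agent.V5helper47.EV
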