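import Pool.Agent.V5helper47.EV.T6

/-! The smallest solution and the unit. -/

set_option maxRecDepth 100000

namespace Pool.Agent.V5helper47.EV

open H419R2 Pool.Agent.N911 Finset Pool.Agent.V5helper47.CN

theorem not_two_sq (X : ℤ) : X ^ 2 ≠ 2 := by
  intro h
  have h1 : X.natAbs ^ 2 = 2 := by
    zify
    rw [sq_abs]
    exact h
  have h2 : X.natAbs < 2 := by
    by_contra hc
    push Not at hc
    have := Nat.pow_le_pow_left hc 2
    omega
  interval_cases X.natAbs <;> omega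

/-- dividing by a small unit makes a solution smaller -/
theorem descend {d : ℕ} (hd : 3 ≤ d) {x y u v : ℕ} (h : Sv d x y) (hv : 0 < v)
    (hu : u ^ 2 = d * v ^ 2 + 1) (hlt : v < x * y) : ∃ x' y', Sv d x' y' ∧ y' < y := by
  obtain ⟨hx, hy, he⟩ := h
  have hdz : (3 : ℤ) ≤ d := by exact_mod_cast hd
  have huz : (u : ℤ) ^ 2 = d * v ^ 2 + 1 := by exact_mod_cast hu
  have hvz : (0 : ℤ) < v := by exact_mod_cast hv
  have hyz : (0 : ℤ) < y := by exact_mod_cast hy
  have hxz : (0 : ℤ) < x := by exact_mod_cast hx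
  have hltz : (v : ℤ) < x * y := by exact_mod_cast hlt
  obtain ⟨s, hs, hs2⟩ : ∃ s : ℤ, (s = 2 ∨ s = -2) ∧ (x : ℤ) ^ 2 - d * y ^ 2 = s := by
    rcases he with e | e
    · refine ⟨2, Or.inl rfl, ?_⟩
      have : (x : ℤ) ^ 2 = d * y ^ 2 + 2 := by exact_mod_cast e
      linarith
    · refine ⟨-2, Or.inr rfl, ?_⟩
      have : (x : ℤ) ^ 2 + 2 = d * y ^ 2 := by exact_mod_cast e
      linarith
  have hss : s ^ 2 = 4 := by rcases hs with rfl | rfl <;> norm_num
  set X : ℤ := x * u - d * y * v with hX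
  set Y : ℤ := y * u - x * v with hY
  have hN : X ^ 2 - d * Y ^ 2 = s := by
    rw [hX, hY, ← hs2]
    linear_combination ((x : ℤ) ^ 2 - d * y ^ 2) * huz
  have hkey : (v : ℤ) * (x ^ 2 + d * y ^ 2) < 2 * x * y * u := by
    have h1 : ((v : ℤ) * (x ^ 2 + d * y ^ 2)) ^ 2 < (2 * x * y * u) ^ 2 := by
      have h2 : (2 * x * y * u : ℤ) ^ 2 - ((v : ℤ) * (x ^ 2 + d * y ^ 2)) ^ 2 =
          4 * ((x * y) ^ 2 - v ^ 2) := by
        linear_combination (4 * x ^ 2 * y ^ 2 : ℤ) * huz - (v : ℤ) ^ 2 * hss +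
          (v : ℤ) ^ 2 * (-((x : ℤ) ^ 2 - d * y ^ 2) - s) * hs2
      have h3 : (v : ℤ) ^ 2 < (x * y) ^ 2 := pow_lt_pow_left₀ hltz hvz.le (by norm_num)
      linarith
    exact lt_of_pow_lt_pow_left₀ 2 (by positivity) h1
  have hYy : Y ^ 2 < (y : ℤ) ^ 2 := by
    have h1 : Y ^ 2 - (y : ℤ) ^ 2 = v * (v * (x ^ 2 + d * y ^ 2) - 2 * x * y * u) := by
      rw [hY]
      linear_combination (y : ℤ) ^ 2 * huz
    have h2 : (v : ℤ) * (v * (x ^ 2 + d * y ^ 2) - 2 * x * y * u) < 0 :=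
      mul_neg_of_pos_of_neg hvz (by linarith)
    linarith
  have hY0 : Y ≠ 0 := by
    intro h0
    rw [h0] at hN
    rcases hs with rfl | rfl
    · exact not_two_sq X (by linarith)
    · nlinarith [sq_nonneg X]
  have hX0 : X ≠ 0 := by
    intro h0
    rw [h0] at hN
    have h1 : 1 ≤ Y ^ 2 := by
      have := sq_pos_of_ne_zero hY0
      omega
    rcases hs with rfl | rfl
    · nlinarith
    · nlinarith
  refine ⟨X.natAbs, Y.natAbs, ⟨Int.natAbs_pos.mpr hX0, Int.natAbs_pos.mpr hY0, ?_⟩, ?_⟩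
  · rcases hs with rfl | rfl
    · left
      zify
      rw [sq_abs, sq_abs]
      linarith
    · right
      zify
      rw [sq_abs, sq_abs]
      linarith
  · have : Y.natAbs ^ 2 < y ^ 2 := by
      zify
      rw [sq_abs]
      exact hYy
    exact lt_of_pow_lt_pow_left₀ 2 (by positivity) this

section

variable {K : Type*} [Field K] [NumberField K]

open QuadraticAlgebra in
/-- class number one gives an element of norm `± 2` -/
theorem exists_sol {d : ℕ} (hsf : Squarefree d) (hd4 : d % 4 = 2 ∨ d % 4 = 3) (hd : 3 ≤ d)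
    (hK : Module.finrank ℚ K = 2) {z : K} (hz : z ^ 2 = (d : K))
    (hcl : NumberField.classNumber K = 1) : ∃ x y, Sv d x y := by
  have hsfz : Squarefree (d : ℤ) := Int.squarefree_natCast.mpr hsf
  have hd1z : (1 : ℤ) < d := by exact_mod_cast (by omega : 1 < d)
  have hns := not_sq_of_squarefree hsfz hd1z
  have hdn : (d : ℤ) = (0 : ℤ) ^ 2 + d := by ring
  have i1 : IsDomain (QA (d : ℤ) (2 * 0)) := Ev.isDomain_even hdn hns
  have i2 : IsPrincipalIdealRing (QA (d : ℤ) (2 * 0)) :=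
    Ev.pid_even hdn hsfz (by omega) hd1z hK (x := z) (by rw [hz]; push_cast; rfl) hcl
  obtain ⟨p, hp⟩ := exists_norm_prime (R := (d : ℤ)) (m := 2 * 0) Nat.prime_two (w0 := (d : ℤ))
    (by
      push_cast
      have : (d : ℤ) ^ 2 + 0 * d - d = d * (d - 1) := by ring
      rw [this]
      exact (Int.even_mul_pred_self _).two_dvd)
  rw [norm_eq] at hp
  have hp2 : p.re ^ 2 - d * p.im ^ 2 = 2 ∨ p.re ^ 2 - d * p.im ^ 2 = -2 := by
    have e : p.re ^ 2 + 2 * 0 * p.re * p.im - d * p.im ^ 2 = p.re ^ 2 - d * p.im ^ 2 := by ring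
    rw [e] at hp
    omega
  have hdz : (3 : ℤ) ≤ d := by exact_mod_cast hd
  have him : p.im ≠ 0 := by
    intro h0
    rw [h0] at hp2
    rcases hp2 with h | h
    · exact not_two_sq p.re (by linarith)
    · nlinarith [sq_nonneg p.re]
  have hre : p.re ≠ 0 := by
    intro h0
    rw [h0] at hp2
    have h1 : 1 ≤ p.im ^ 2 := by
      have := sq_pos_of_ne_zero him
      omega
    rcases hp2 with h | h
    · nlinarith
    · nlinarith
  refine ⟨p.re.natAbs, p.im.natAbs, Int.natAbs_pos.mpr hre, Int.natAbs_pos.mpr him, ?_⟩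
  rcases hp2 with h | h
  · left
    zify
    rw [sq_abs, sq_abs]
    linarith
  · right
    zify
    rw [sq_abs, sq_abs]
    linarith

end

theorem mod_five {x : ℕ} : x ^ 2 % 5 = 0 ∨ x ^ 2 % 5 = 1 ∨ x ^ 2 % 5 = 4 := by
  have h : x % 5 < 5 := Nat.mod_lt _ (by norm_num)
  rw [Nat.pow_mod]
  interval_cases x % 5 <;> simp

theorem small_d {d x y : ℕ} (hsf : Squarefree d) (hd4 : d % 4 = 2 ∨ d % 4 = 3) (hd : 3 ≤ d)
    (hd19 : d < 19) (h : Sv d x y) : d ∈ LV := by
  obtain ⟨_, _, h⟩ := h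
  have h5 := mod_five (x := x)
  have h5' := mod_five (x := y)
  interval_cases d <;> first | omega | (unfold LV; decide) | skip
  · exfalso
    have := hsf 3 ⟨2, by norm_num⟩
    rw [Nat.isUnit_iff] at this
    omega

/-- completeness of the families -/
def Full (B : ℕ) : Prop := ∀ w : WL, w.Pos → (mat w).1 ≤ B → (mat w).1 % 2 = 1 →
  (∃ b m, b * (mat w).1 + 2 * (mat w).2.1 = m * (mat w).1 + (mat w).2.2.1) →
  ∃ b0 P0, fam w b0 P0 = true

theorem main_min {B : ℕ} (hF : Full B) {d x y : ℕ} (hsf : Squarefree d)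
    (hd4 : d % 4 = 2 ∨ d % 4 = 3) (hd : 3 ≤ d) (h : Sv d x y)
    (hmin : ∀ x' y', Sv d x' y' → y ≤ y') (hB : y ≤ B)
    {K : Type*} [Field K] [NumberField K] (hK : Module.finrank ℚ K = 2) {z : K}
    (hz : z ^ 2 = (d : K)) (hcl : NumberField.classNumber K = 1) : d ∈ LV := by
  rcases Nat.lt_or_ge d 19 with hd19 | hd19
  · exact small_d hsf hd4 hd hd19 h
  obtain ⟨w, b, t, P, hp, hlin, ht, hD, hla, hV⟩ := word_of_solV hsf hd4 hd19 h
  obtain ⟨hwp, hb⟩ := snoc_pos hp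
  -- `t` is even
  have hteven : t % 2 = 0 := by
    rcases Nat.mod_two_eq_zero_or_one t with h | h
    · exact h
    · exfalso
      obtain ⟨k, rfl⟩ : ∃ k, t = 2 * k + 1 := ⟨t / 2, by omega⟩
      have : (2 * k + 1) * (2 * k + 1) = 4 * (k * k + k) + 1 := by ring
      omega
  obtain ⟨n, rfl⟩ : ∃ n, t = 2 * n := ⟨t / 2, by omega⟩
  have hDz : (((4 * d : ℕ)) : ℤ) = ((2 * n : ℕ) : ℤ) ^ 2 + 4 * (P : ℤ) := by
    rw [hD]; push_cast; ring
  have hdt : Dt w b ((2 * n : ℕ) : ℤ) P (4 * d) := ⟨hDz, by exact_mod_cast hlin⟩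
  have hl := hdt.la_lin
  rw [hla] at hl
  have hval : b * (mat w).1 + 2 * (mat w).2.1 = n * (mat w).1 + (mat w).2.2.1 := by
    have : (2 * (b * (mat w).1 + 2 * (mat w).2.1) : ℤ) =
      2 * (n * (mat w).1 + (mat w).2.2.1) := by
      rw [hl]; push_cast; ring
    have h2 : 2 * (b * (mat w).1 + 2 * (mat w).2.1) = 2 * (n * (mat w).1 + (mat w).2.2.1) := by
      exact_mod_cast this
    omega
  have hodd : (mat w).1 % 2 = 1 := by
    by_contra hc
    have hV2 : (mat w).1 % 2 = 0 := by omega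
    obtain ⟨k, hk⟩ : ∃ k, (mat w).1 = 2 * k := ⟨(mat w).1 / 2, by omega⟩
    have hdet := mat_det w
    rw [hk] at hval hdet
    have hYe : (mat w).2.2.1 % 2 = 0 := by
      have e1 : b * (2 * k) = 2 * (b * k) := by ring
      have e2 : n * (2 * k) = 2 * (n * k) := by ring
      omega
    obtain ⟨j, hj⟩ : ∃ j, (mat w).2.2.1 = 2 * j := ⟨(mat w).2.2.1 / 2, by omega⟩
    rw [hj] at hdet
    have hsg := sg_sq w
    have h2 : (2 : ℤ) ∣ sg w := ⟨k * (mat w).2.2.2 - (mat w).2.1 * j, by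
      rw [← hdet]; push_cast; ring⟩
    have h3 : (2 : ℤ) ∣ 1 := by
      have := h2.mul_right (sg w)
      rwa [hsg] at this
    omega
  obtain ⟨b0, P0, hfam⟩ := hF w hwp (by omega) hodd ⟨b, n, hval⟩
  have hn : 0 < n := by omega
  refine word_even hp hlin ht hD hd4 hsf hK hz hcl hla ?_ ?_ hfam
  swap
  · intro hV4
    constructor
    · rintro rfl
      have := hmin _ _ (show Sv 114 32 3 from ⟨by norm_num, by norm_num, Or.inr (by norm_num)⟩)
      omega
    · rintro rfl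
      have := hmin _ _ (show Sv 178 40 3 from ⟨by norm_num, by norm_num, Or.inr (by norm_num)⟩)
      omega
  intro hV2
  constructor
  · rintro rfl
    have : Sv d n 1 := by
      refine ⟨hn, one_pos, Or.inr ?_⟩
      have e : 2 * n * (2 * n) = 4 * n ^ 2 := by ring
      omega
    have := hmin _ _ this
    omega
  · intro hP
    have : Sv d (n + 1) 1 := by
      refine ⟨by omega, one_pos, Or.inl ?_⟩
      have e : 2 * n * (2 * n) = 4 * n ^ 2 := by ring
      have e2 : (n + 1) ^ 2 = n ^ 2 + 2 * n + 1 := by ring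
      omega
    have := hmin _ _ this
    omega

/-- the theorem in terms of a unit -/
theorem main_unit {B : ℕ} (hF : Full B) {d u v : ℕ} (hsf : Squarefree d)
    (hd4 : d % 4 = 2 ∨ d % 4 = 3) (hd : 3 ≤ d) (hv : 0 < v) (hu : u ^ 2 = d * v ^ 2 + 1)
    (huB : u ≤ B ^ 2 * d)
    {K : Type*} [Field K] [NumberField K] (hK : Module.finrank ℚ K = 2) {z : K}
    (hz : z ^ 2 = (d : K)) (hcl : NumberField.classNumber K = 1) : d ∈ LV := by
  classical
  obtain ⟨x0, y0, h0⟩ := exists_sol hsf hd4 hd hK hz hcl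
  have hex : ∃ y, ∃ x, Sv d x y := ⟨y0, x0, h0⟩
  obtain ⟨x, hx⟩ := Nat.find_spec hex
  have hmin : ∀ x' y', Sv d x' y' → Nat.find hex ≤ y' := fun x' y' h' => Nat.find_min' hex ⟨x', h'⟩
  generalize Nat.find hex = y at hx hmin
  refine main_min hF hsf hd4 hd hx hmin ?_ hK hz hcl
  have hge : x * y ≤ v := by
    by_contra hc
    push Not at hc
    obtain ⟨x', y', h1, h2⟩ := descend hd hx hv hu hc
    have := hmin _ _ h1
    omega
  -- `d y ^ 2 ≤ u + 1`
  have h1 : d * y ^ 2 ≤ u + 1 := by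
    obtain ⟨hx0, hy0, he⟩ := hx
    have h2 : (x * y) ^ 2 ≤ v ^ 2 := Nat.pow_le_pow_left hge 2
    have h3 : d * (x * y) ^ 2 ≤ d * v ^ 2 := Nat.mul_le_mul_left _ h2
    rcases he with e | e
    · have h4 : (d * y ^ 2 + 1) ^ 2 = d * (x * y) ^ 2 + 1 := by
        rw [mul_pow, e]; ring
      have h5 : (d * y ^ 2 + 1) ^ 2 ≤ u ^ 2 := by omega
      have := lt_of_pow_lt_pow_left₀ 2 (by positivity) (lt_of_le_of_lt h5
        (Nat.pow_lt_pow_left (Nat.lt_succ_self u) (by norm_num)))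
      omega
    · obtain ⟨k, hk⟩ : ∃ k, d * y ^ 2 = k + 1 := ⟨d * y ^ 2 - 1, by omega⟩
      have hx2 : x ^ 2 + 1 = k := by omega
      have h4 : k ^ 2 = d * (x * y) ^ 2 + 1 := by
        have e5 : d * (x * y) ^ 2 = x ^ 2 * (d * y ^ 2) := by ring
        rw [e5, hk, ← hx2]; ring
      have h5 : k ^ 2 ≤ u ^ 2 := by omega
      have := lt_of_pow_lt_pow_left₀ 2 (by positivity) (lt_of_le_of_lt h5
        (Nat.pow_lt_pow_left (Nat.lt_succ_self u) (by norm_num)))
      omega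
  by_contra hc
  push Not at hc
  have h2 : (B + 1) ^ 2 ≤ y ^ 2 := Nat.pow_le_pow_left hc 2
  have h3 : d * (B + 1) ^ 2 ≤ d * y ^ 2 := Nat.mul_le_mul_left _ h2
  have e : d * (B + 1) ^ 2 = B ^ 2 * d + 2 * (B * d) + d := by ring
  omega

/-- families from a range of first entries -/
theorem fam_of_range {L : List (List ℕ × ℕ × ℕ)} {lo n : ℕ} (hr : rgV L lo n = true)
    (hf : ∀ p ∈ L, fam (wl p.1) p.2.1 p.2.2 = true) {w : WL} (hw : w.Pos) (hlo : 3 ≤ lo)
    (hlo2 : lo % 2 = 1) (h1 : lo ≤ (mat w).1) (h2 : (mat w).1 < lo + 2 * n)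
    (hodd : (mat w).1 % 2 = 1)
    (hval : ∃ b m, b * (mat w).1 + 2 * (mat w).2.1 = m * (mat w).1 + (mat w).2.2.1) :
    ∃ b0 P0, fam w b0 P0 = true := by
  obtain ⟨b, m, hval⟩ := hval
  obtain ⟨p, hp, rfl⟩ := rgV_sound hr hw (j := ((mat w).1 - lo) / 2) (by omega) (by omega) hlo hval
  exact ⟨_, _, hf p hp⟩

end Pool.Agent.V5helper47.EV
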