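import Pool.Agent.V5helper47.EV.S2

/-! Search, part of the half words. -/

set_option maxRecDepth 1000000

namespace Pool.Agent.V5helper47.EV

open H419R2 Pool.Agent.N911 Pool.Agent.V5helper47.CN

theorem x014_0 : fam (wl [6,3,1,1,12]) 245 78 = true := by decide +kernel
theorem x014_1 : fam (wl [2,2,2,1,5,1,4]) 172 142 = true := by decide +kernel
theorem x014_2 : fam (wl [1,1,2,2,1,5,1,3,1]) 379 447 = true := by decide +kernel
theorem x014_3 : fam (wl [1,5,3,1,1,11,1]) 306 517 = true := by decide +kernel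
theorem x014_4 : fam (wl [9,1,2,19]) 87 18 = true := by decide +kernel
theorem x014_5 : fam (wl [3,1,5,2,1,7]) 265 138 = true := by decide +kernel
theorem x014_6 : fam (wl [1,1,3,2,4,1,1,3]) 37 42 = true := by decide +kernel
theorem x014_7 : fam (wl [1,12,1,2,6,2]) 389 722 = true := by decide +kernel
theorem x014_8 : fam (wl [13,1,2,6,1,1]) 170 25 = true := by decide +kernel
theorem x014_9 : fam (wl [2,3,2,4,1,1,2,1]) 522 457 = true := by decide +kernel
theorem x014_10 : fam (wl [1,2,1,5,2,1,6,1]) 294 437 = true := by decide +kernel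
theorem x014_11 : fam (wl [1,8,1,2,18,1]) 472 849 = true := by decide +kernel
theorem x014_12 : fam (wl [1,1,6,2,1,2,1,3]) 408 438 = true := by decide +kernel
theorem x014_13 : fam (wl [2,6,2,1,2,1,2,1]) 153 143 = true := by decide +kernel
theorem x014_14 : fam (wl [1,1,1,4,1,10,3]) 295 382 = true := by decide +kernel
theorem x014_15 : fam (wl [2,1,4,1,10,2,1]) 272 193 = true := by decide +kernel
theorem x014_16 : fam (wl [2,1,1,1,2,1,3,5]) 445 338 = true := by decide +kernel
theorem x014_17 : fam (wl [1,1,1,1,1,2,1,3,4,1]) 122 153 = true := by decide +kernel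
theorem x014_18 : fam (wl [1,2,1,2,1,2,1,2,1,2]) 1 2 = true := by decide +kernel
theorem x014_19 : fam (wl [3,1,2,1,2,1,2,1,1,1]) 568 305 = true := by decide +kernel
theorem x014_20 : fam (wl [16,1,33]) 560 66 = true := by decide +kernel
theorem x014_21 : fam (wl [1,15,1,32,1]) 15 31 = true := by decide +kernel
theorem x014_22 : fam (wl [1,1,2,2,2,2,2,3]) 575 674 = true := by decide +kernel
theorem x014_23 : fam (wl [2,2,2,2,2,2,2,1]) 577 479 = true := by decide +kernel
theorem x014_24 : fam (wl [17,34]) 17 2 = true := by decide +kernel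
theorem x014_25 : fam (wl [1,1,1,1,4,2,3,3]) 304 370 = true := by decide +kernel
theorem x014_26 : fam (wl [2,1,1,4,2,3,2,1]) 273 215 = true := by decide +kernel
theorem x014_27 : fam (wl [1,16,33,1]) 560 1057 = true := by decide +kernel
theorem x014_28 : fam (wl [1,1,1,5,11,3]) 477 618 = true := by decide +kernel
theorem x014_29 : fam (wl [2,1,5,11,2,1]) 108 77 = true := by decide +kernel
/-- words with first entry from 553 to 591 -/
def L014 : List (List ℕ × ℕ × ℕ) := [([6,3,1,1,12],245,78), ([2,2,2,1,5,1,4],172,142), ([1,1,2,2,1,5,1,3,1],379,447), ([1,5,3,1,1,11,1],306,517), ([9,1,2,19],87,18), ([3,1,5,2,1,7],265,138), ([1,1,3,2,4,1,1,3],37,42), ([1,12,1,2,6,2],389,722), ([13,1,2,6,1,1],170,25), ([2,3,2,4,1,1,2,1],522,457), ([1,2,1,5,2,1,6,1],294,437), ([1,8,1,2,18,1],472,849), ([1,1,6,2,1,2,1,3],408,438), ([2,6,2,1,2,1,2,1],153,143), ([1,1,1,4,1,10,3],295,382), ([2,1,4,1,10,2,1],272,193), ([2,1,1,1,2,1,3,5],445,338), ([1,1,1,1,1,2,1,3,4,1],122,153), ([1,2,1,2,1,2,1,2,1,2],1,2), ([3,1,2,1,2,1,2,1,1,1],568,305),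 ([16,1,33],560,66), ([1,15,1,32,1],15,31), ([1,1,2,2,2,2,2,3],575,674), ([2,2,2,2,2,2,2,1],577,479), ([17,34],17,2), ([1,1,1,1,4,2,3,3],304,370), ([2,1,1,4,2,3,2,1],273,215), ([1,16,33,1],560,1057), ([1,1,1,5,11,3],477,618), ([2,1,5,11,2,1],108,77)]
theorem r014 : rgV L014 553 20 = true := by decide +kernel
theorem f014 : ∀ p ∈ L014, fam (wl p.1) p.2.1 p.2.2 = true := by
  intro p hp
  simp only [L014, List.mem_cons, List.not_mem_nil, or_false] at hp
  rcases hp with rfl | rfl | rfl | rfl | rfl | rfl | rfl | rfl | rfl | rfl | rfl | rfl | rfl | rfl | rfl | rfl | rfl | rfl | rfl | rfl | rfl | rfl | rfl | rfl | rfl | rfl | rfl | rfl | rfl | rfl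
  · exact x014_0
  · exact x014_1
  · exact x014_2
  · exact x014_3
  · exact x014_4
  · exact x014_5
  · exact x014_6
  · exact x014_7
  · exact x014_8
  · exact x014_9
  · exact x014_10
  · exact x014_11
  · exact x014_12
  · exact x014_13
  · exact x014_14
  · exact x014_15
  · exact x014_16
  · exact x014_17
  · exact x014_18
  · exact x014_19
  · exact x014_20
  · exact x014_21
  · exact x014_22
  · exact x014_23
  · exact x014_24
  · exact x014_25
  · exact x014_26
  · exact x014_27
  · exact x014_28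
  · exact x014_29

end Pool.Agent.V5helper47.EV
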