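import Pool.Agent.V5helper47.EV.S2

/-! Search, part of the half words. -/

set_option maxRecDepth 1000000

namespace Pool.Agent.V5helper47.EV

open H419R2 Pool.Agent.N911 Pool.Agent.V5helper47.CN

theorem x029_0 : fam (wl [2,3,1,1,1,4,1,1,4]) 184 162 = true := by decide +kernel
theorem x029_1 : fam (wl [1,2,2,1,2,2,5,1,2]) 459 646 = true := by decide +kernel
theorem x029_2 : fam (wl [3,2,1,2,2,5,1,1,1]) 708 421 = true := by decide +kernel
theorem x029_3 : fam (wl [1,1,3,1,1,1,4,1,1,3,1]) 983 1103 = true := by decide +kernel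
theorem x029_4 : fam (wl [4,4,1,2,2,8]) 1074 510 = true := by decide +kernel
theorem x029_5 : fam (wl [1,3,4,1,2,2,7,1]) 95 147 = true := by decide +kernel
theorem x029_6 : fam (wl [1,1,1,1,3,2,1,1,3,3]) 939 1146 = true := by decide +kernel
theorem x029_7 : fam (wl [1,3,1,4,9,1,1,2]) 112 178 = true := by decide +kernel
theorem x029_8 : fam (wl [4,1,4,9,1,1,1,1]) 1063 443 = true := by decide +kernel
theorem x029_9 : fam (wl [2,1,1,3,2,1,1,3,2,1]) 236 185 = true := by decide +kernel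
theorem x029_10 : fam (wl [1,2,4,2,1,8,1,2]) 4 6 = true := by decide +kernel
theorem x029_11 : fam (wl [1,10,2,4,5,2]) 62 114 = true := by decide +kernel
theorem x029_12 : fam (wl [11,2,4,5,1,1]) 1115 195 = true := by decide +kernel
theorem x029_13 : fam (wl [3,4,2,1,8,1,1,1]) 1173 727 = true := by decide +kernel
theorem x029_14 : fam (wl [2,2,1,4,2,2,1,4]) 850 722 = true := by decide +kernel
theorem x029_15 : fam (wl [1,1,2,1,4,2,2,1,3,1]) 335 387 = true := by decide +kernel
theorem x029_16 : fam (wl [1,2,1,7,1,3,2,1,2]) 992 1474 = true := by decide +kernel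
theorem x029_17 : fam (wl [3,1,7,1,3,2,1,1,1]) 199 103 = true := by decide +kernel
theorem x029_18 : fam (wl [7,2,1,2,1,14]) 891 242 = true := by decide +kernel
theorem x029_19 : fam (wl [1,6,2,1,2,1,13,1]) 300 521 = true := by decide +kernel
theorem x029_20 : fam (wl [3,1,1,2,1,6,7]) 511 286 = true := by decide +kernel
theorem x029_21 : fam (wl [1,2,1,1,2,1,6,6,1]) 688 993 = true := by decide +kernel
theorem x029_22 : fam (wl [3,2,3,6,1,6]) 518 302 = true := by decide +kernel
theorem x029_23 : fam (wl [1,2,2,3,6,1,5,1]) 681 967 = true := by decide +kernel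
theorem x029_24 : fam (wl [2,4,1,2,1,2,2,4]) 975 882 = true := by decide +kernel
theorem x029_25 : fam (wl [1,7,2,2,2,1,3,2]) 895 1578 = true := by decide +kernel
theorem x029_26 : fam (wl [8,2,2,2,1,3,1,1]) 306 73 = true := by decide +kernel
theorem x029_27 : fam (wl [1,1,4,1,2,1,2,2,3,1]) 226 249 = true := by decide +kernel
/-- words with first entry from 1169 to 1205 -/
def L029 : List (List ℕ × ℕ × ℕ) := [([2,3,1,1,1,4,1,1,4],184,162), ([1,2,2,1,2,2,5,1,2],459,646), ([3,2,1,2,2,5,1,1,1],708,421), ([1,1,3,1,1,1,4,1,1,3,1],983,1103), ([4,4,1,2,2,8],1074,510), ([1,3,4,1,2,2,7,1],95,147), ([1,1,1,1,3,2,1,1,3,3],939,1146), ([1,3,1,4,9,1,1,2],112,178), ([4,1,4,9,1,1,1,1],1063,443), ([2,1,1,3,2,1,1,3,2,1],236,185), ([1,2,4,2,1,8,1,2],4,6), ([1,10,2,4,5,2],62,114), ([11,2,4,5,1,1],1115,195), ([3,4,2,1,8,1,1,1],1173,727), ([2,2,1,4,2,2,1,4],850,722), ([1,1,2,1,4,2,2,1,3,1],335,387), ([1,2,1,7,1,3,2,1,2],992,1474), ([3,1,7,1,3,2,1,1,1],199,103), ([7,2,1,2,1,14],891,242),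 ([1,6,2,1,2,1,13,1],300,521), ([3,1,1,2,1,6,7],511,286), ([1,2,1,1,2,1,6,6,1],688,993), ([3,2,3,6,1,6],518,302), ([1,2,2,3,6,1,5,1],681,967), ([2,4,1,2,1,2,2,4],975,882), ([1,7,2,2,2,1,3,2],895,1578), ([8,2,2,2,1,3,1,1],306,73), ([1,1,4,1,2,1,2,2,3,1],226,249)]
theorem r029 : rgV L029 1169 19 = true := by decide +kernel
theorem f029 : ∀ p ∈ L029, fam (wl p.1) p.2.1 p.2.2 = true := by
  intro p hp
  simp only [L029, List.mem_cons, List.not_mem_nil, or_false] at hp
  rcases hp with rfl | rfl | rfl | rfl | rfl | rfl | rfl | rfl | rfl | rfl | rfl | rfl | rfl | rfl | rfl | rfl | rfl | rfl | rfl | rfl | rfl | rfl | rfl | rfl | rfl | rfl | rfl | rfl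
  · exact x029_0
  · exact x029_1
  · exact x029_2
  · exact x029_3
  · exact x029_4
  · exact x029_5
  · exact x029_6
  · exact x029_7
  · exact x029_8
  · exact x029_9
  · exact x029_10
  · exact x029_11
  · exact x029_12
  · exact x029_13
  · exact x029_14
  · exact x029_15
  · exact x029_16
  · exact x029_17
  · exact x029_18
  · exact x029_19
  · exact x029_20
  · exact x029_21
  · exact x029_22
  · exact x029_23
  · exact x029_24
  · exact x029_25
  · exact x029_26
  · exact x029_27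

end Pool.Agent.V5helper47.EV
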