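import Pool.Agent.V5helper47.EV.S2

/-! Search, part of the half words. -/

set_option maxRecDepth 1000000

namespace Pool.Agent.V5helper47.EV

open H419R2 Pool.Agent.N911 Pool.Agent.V5helper47.CN

theorem x055_0 : fam (wl [2,1,15,7,1,5]) 2124 1446 = true := by decide +kernel
theorem x055_1 : fam (wl [1,1,2,1,4,9,2,3]) 467 538 = true := by decide +kernel
theorem x055_2 : fam (wl [2,2,1,4,9,2,2,1]) 1758 1493 = true := by decide +kernel
theorem x055_3 : fam (wl [1,1,1,15,7,1,4,1]) 101 135 = true := by decide +kernel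
theorem x055_4 : fam (wl [2,3,1,2,1,6,1,1,4]) 324 286 = true := by decide +kernel
theorem x055_5 : fam (wl [1,1,8,2,2,1,3,1,3]) 1994 2106 = true := by decide +kernel
theorem x055_6 : fam (wl [2,8,2,2,1,3,1,2,1]) 235 223 = true := by decide +kernel
theorem x055_7 : fam (wl [1,1,3,1,2,1,6,1,1,3,1]) 1905 2131 = true := by decide +kernel
theorem x055_8 : fam (wl [1,3,2,4,1,1,1,2,1,1,2]) 215 334 = true := by decide +kernel
theorem x055_9 : fam (wl [4,2,4,1,1,1,2,1,1,1,1]) 2022 909 = true := by decide +kernel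
theorem x055_10 : fam (wl [3,1,11,5,1,7]) 709 362 = true := by decide +kernel
theorem x055_11 : fam (wl [1,13,3,1,1,1,6,2]) 1248 2322 = true := by decide +kernel
theorem x055_12 : fam (wl [14,3,1,1,1,6,1,1]) 991 139 = true := by decide +kernel
theorem x055_13 : fam (wl [1,2,1,11,5,1,6,1]) 1530 2281 = true := by decide +kernel
theorem x055_14 : fam (wl [19,2,1,38]) 174 18 = true := by decide +kernel
theorem x055_15 : fam (wl [1,18,2,1,37,1]) 2067 3923 = true := by decide +kernel
theorem x055_16 : fam (wl [1,4,3,1,2,7,2,2]) 919 1490 = true := by decide +kernel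
theorem x055_17 : fam (wl [5,3,1,2,7,2,1,1]) 1330 505 = true := by decide +kernel
theorem x055_18 : fam (wl [3,2,2,2,1,4,1,6]) 481 282 = true := by decide +kernel
theorem x055_19 : fam (wl [1,1,2,9,4,1,2,3]) 1052 1254 = true := by decide +kernel
theorem x055_20 : fam (wl [2,2,9,4,1,2,2,1]) 1205 975 = true := by decide +kernel
theorem x055_21 : fam (wl [1,2,2,2,2,1,4,1,5,1]) 1776 2513 = true := by decide +kernel
theorem x055_22 : fam (wl [12,1,2,2,25]) 1640 258 = true := by decide +kernel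
theorem x055_23 : fam (wl [1,5,1,3,1,8,1,2,2]) 118 202 = true := by decide +kernel
theorem x055_24 : fam (wl [6,1,3,1,8,1,2,1,1]) 2143 631 = true := by decide +kernel
theorem x055_25 : fam (wl [1,11,1,2,2,24,1]) 621 1147 = true := by decide +kernel
theorem x055_26 : fam (wl [11,4,2,22]) 909 162 = true := by decide +kernel
theorem x055_27 : fam (wl [1,10,4,2,21,1]) 1356 2473 = true := by decide +kernel
/-- words with first entry from 2227 to 2271 -/
def L055 : List (List ℕ × ℕ × ℕ) := [([2,1,15,7,1,5],2124,1446), ([1,1,2,1,4,9,2,3],467,538), ([2,2,1,4,9,2,2,1],1758,1493), ([1,1,1,15,7,1,4,1],101,135), ([2,3,1,2,1,6,1,1,4],324,286), ([1,1,8,2,2,1,3,1,3],1994,2106), ([2,8,2,2,1,3,1,2,1],235,223), ([1,1,3,1,2,1,6,1,1,3,1],1905,2131), ([1,3,2,4,1,1,1,2,1,1,2],215,334), ([4,2,4,1,1,1,2,1,1,1,1],2022,909), ([3,1,11,5,1,7],709,362), ([1,13,3,1,1,1,6,2],1248,2322), ([14,3,1,1,1,6,1,1],991,139), ([1,2,1,11,5,1,6,1],1530,2281), ([19,2,1,38],174,18), ([1,18,2,1,37,1],2067,3923),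 ([1,4,3,1,2,7,2,2],919,1490), ([5,3,1,2,7,2,1,1],1330,505), ([3,2,2,2,1,4,1,6],481,282), ([1,1,2,9,4,1,2,3],1052,1254), ([2,2,9,4,1,2,2,1],1205,975), ([1,2,2,2,2,1,4,1,5,1],1776,2513), ([12,1,2,2,25],1640,258), ([1,5,1,3,1,8,1,2,2],118,202), ([6,1,3,1,8,1,2,1,1],2143,631), ([1,11,1,2,2,24,1],621,1147), ([11,4,2,22],909,162), ([1,10,4,2,21,1],1356,2473)]
theorem r055 : rgV L055 2227 23 = true := by decide +kernel
theorem f055 : ∀ p ∈ L055, fam (wl p.1) p.2.1 p.2.2 = true := by
  intro p hp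
  simp only [L055, List.mem_cons, List.not_mem_nil, or_false] at hp
  rcases hp with rfl | rfl | rfl | rfl | rfl | rfl | rfl | rfl | rfl | rfl | rfl | rfl | rfl | rfl | rfl | rfl | rfl | rfl | rfl | rfl | rfl | rfl | rfl | rfl | rfl | rfl | rfl | rfl
  · exact x055_0
  · exact x055_1
  · exact x055_2
  · exact x055_3
  · exact x055_4
  · exact x055_5
  · exact x055_6
  · exact x055_7
  · exact x055_8
  · exact x055_9
  · exact x055_10
  · exact x055_11
  · exact x055_12
  · exact x055_13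
  · exact x055_14
  · exact x055_15
  · exact x055_16
  · exact x055_17
  · exact x055_18
  · exact x055_19
  · exact x055_20
  · exact x055_21
  · exact x055_22
  · exact x055_23
  · exact x055_24
  · exact x055_25
  · exact x055_26
  · exact x055_27

end Pool.Agent.V5helper47.EV
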