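import Pool.Agent.V5helper47.EV.S2

/-! Search, part of the half words. -/

set_option maxRecDepth 1000000

namespace Pool.Agent.V5helper47.EV

open H419R2 Pool.Agent.N911 Pool.Agent.V5helper47.CN

theorem x070_0 : fam (wl [3,1,1,1,4,2,3,7]) 1928 1058 = true := by decide +kernel
theorem x070_1 : fam (wl [1,2,1,1,1,4,2,3,6,1]) 913 1327 = true := by decide +kernel
theorem x070_2 : fam (wl [1,2,1,3,3,1,1,1,1,2,1,2]) 1161 1706 = true := by decide +kernel
theorem x070_3 : fam (wl [3,1,3,3,1,1,1,1,2,1,1,1]) 1688 897 = true := by decide +kernel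
theorem x070_4 : fam (wl [14,3,1,1,28]) 2157 302 = true := by decide +kernel
theorem x070_5 : fam (wl [1,13,3,1,1,27,1]) 698 1301 = true := by decide +kernel
theorem x070_6 : fam (wl [1,2,1,1,1,1,2,1,3,3,1,2]) 261 378 = true := by decide +kernel
theorem x070_7 : fam (wl [3,1,1,1,1,2,1,3,3,1,1,1]) 2594 1437 = true := by decide +kernel
theorem x070_8 : fam (wl [1,1,1,1,10,5,3,3]) 760 918 = true := by decide +kernel
theorem x070_9 : fam (wl [1,2,1,2,3,6,1,2,1,2]) 1780 2598 = true := by decide +kernel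
theorem x070_10 : fam (wl [3,1,2,3,6,1,2,1,1,1]) 1077 583 = true := by decide +kernel
theorem x070_11 : fam (wl [2,1,1,10,5,3,2,1]) 2097 1663 = true := by decide +kernel
theorem x070_12 : fam (wl [9,5,1,2,18]) 211 46 = true := by decide +kernel
theorem x070_13 : fam (wl [2,1,1,6,1,14,5]) 2840 2242 = true := by decide +kernel
theorem x070_14 : fam (wl [1,1,1,1,6,1,14,4,1]) 21 27 = true := by decide +kernel
theorem x070_15 : fam (wl [1,8,5,1,2,17,1]) 2650 4725 = true := by decide +kernel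
theorem x070_16 : fam (wl [1,1,1,11,1,24,3]) 214 282 = true := by decide +kernel
theorem x070_17 : fam (wl [2,1,11,1,24,2,1]) 2663 1823 = true := by decide +kernel
theorem x070_18 : fam (wl [2,8,2,4,4,4]) 2205 2082 = true := by decide +kernel
theorem x070_19 : fam (wl [1,4,1,8,4,2,2,2]) 656 1090 = true := by decide +kernel
theorem x070_20 : fam (wl [5,1,8,4,2,2,1,1]) 2223 755 = true := by decide +kernel
theorem x070_21 : fam (wl [1,1,8,2,4,4,3,1]) 674 713 = true := by decide +kernel
theorem x070_22 : fam (wl [37,1,75]) 2849 150 = true := by decide +kernel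
theorem x070_23 : fam (wl [1,36,1,74,1]) 36 73 = true := by decide +kernel
theorem x070_24 : fam (wl [38,76]) 38 2 = true := by decide +kernel
theorem x070_25 : fam (wl [2,1,9,1,2,4,1,5]) 1206 830 = true := by decide +kernel
theorem x070_26 : fam (wl [1,1,1,9,1,2,4,1,4,1]) 1681 2207 = true := by decide +kernel
theorem x070_27 : fam (wl [1,37,75,1]) 2849 5551 = true := by decide +kernel
/-- words with first entry from 2843 to 2895 -/
def L070 : List (List ℕ × ℕ × ℕ) := [([3,1,1,1,4,2,3,7],1928,1058), ([1,2,1,1,1,4,2,3,6,1],913,1327), ([1,2,1,3,3,1,1,1,1,2,1,2],1161,1706), ([3,1,3,3,1,1,1,1,2,1,1,1],1688,897), ([14,3,1,1,28],2157,302), ([1,13,3,1,1,27,1],698,1301), ([1,2,1,1,1,1,2,1,3,3,1,2],261,378), ([3,1,1,1,1,2,1,3,3,1,1,1],2594,1437), ([1,1,1,1,10,5,3,3],760,918), ([1,2,1,2,3,6,1,2,1,2],1780,2598), ([3,1,2,3,6,1,2,1,1,1],1077,583), ([2,1,1,10,5,3,2,1],2097,1663), ([9,5,1,2,18],211,46), ([2,1,1,6,1,14,5],2840,2242), ([1,1,1,1,6,1,14,4,1],21,27), ([1,8,5,1,2,17,1],2650,4725),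 ([1,1,1,11,1,24,3],214,282), ([2,1,11,1,24,2,1],2663,1823), ([2,8,2,4,4,4],2205,2082), ([1,4,1,8,4,2,2,2],656,1090), ([5,1,8,4,2,2,1,1],2223,755), ([1,1,8,2,4,4,3,1],674,713), ([37,1,75],2849,150), ([1,36,1,74,1],36,73), ([38,76],38,2), ([2,1,9,1,2,4,1,5],1206,830), ([1,1,1,9,1,2,4,1,4,1],1681,2207), ([1,37,75,1],2849,5551)]
theorem r070 : rgV L070 2843 27 = true := by decide +kernel
theorem f070 : ∀ p ∈ L070, fam (wl p.1) p.2.1 p.2.2 = true := by
  intro p hp
  simp only [L070, List.mem_cons, List.not_mem_nil, or_false] at hp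
  rcases hp with rfl | rfl | rfl | rfl | rfl | rfl | rfl | rfl | rfl | rfl | rfl | rfl | rfl | rfl | rfl | rfl | rfl | rfl | rfl | rfl | rfl | rfl | rfl | rfl | rfl | rfl | rfl | rfl
  · exact x070_0
  · exact x070_1
  · exact x070_2
  · exact x070_3
  · exact x070_4
  · exact x070_5
  · exact x070_6
  · exact x070_7
  · exact x070_8
  · exact x070_9
  · exact x070_10
  · exact x070_11
  · exact x070_12
  · exact x070_13
  · exact x070_14
  · exact x070_15
  · exact x070_16
  · exact x070_17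
  · exact x070_18
  · exact x070_19
  · exact x070_20
  · exact x070_21
  · exact x070_22
  · exact x070_23
  · exact x070_24
  · exact x070_25
  · exact x070_26
  · exact x070_27

end Pool.Agent.V5helper47.EV
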