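import Pool.Agent.V5helper47.EV.S2

/-! Search, part of the half words. -/

set_option maxRecDepth 1000000

namespace Pool.Agent.V5helper47.EV

open H419R2 Pool.Agent.N911 Pool.Agent.V5helper47.CN

theorem x096_0 : fam (wl [1,1,6,1,2,5,1,2,1,3]) 39 42 = true := by decide +kernel
theorem x096_1 : fam (wl [2,6,1,2,5,1,2,1,2,1]) 3882 3613 = true := by decide +kernel
theorem x096_2 : fam (wl [1,10,3,1,7,5,2]) 3686 6718 = true := by decide +kernel
theorem x096_3 : fam (wl [11,3,1,7,5,1,1]) 241 43 = true := by decide +kernel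
theorem x096_4 : fam (wl [13,2,1,2,1,26]) 1617 242 = true := by decide +kernel
theorem x096_5 : fam (wl [1,12,2,1,2,1,25,1]) 2310 4277 = true := by decide +kernel
theorem x096_6 : fam (wl [14,1,3,1,1,29]) 1197 162 = true := by decide +kernel
theorem x096_7 : fam (wl [1,13,1,3,1,1,28,1]) 2732 5097 = true := by decide +kernel
theorem x096_8 : fam (wl [3,1,14,1,6,1,7]) 3429 1742 = true := by decide +kernel
theorem x096_9 : fam (wl [1,1,2,2,4,1,1,1,2,2,3]) 966 1130 = true := by decide +kernel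
theorem x096_10 : fam (wl [2,2,2,4,1,1,1,2,2,2,1]) 2969 2467 = true := by decide +kernel
theorem x096_11 : fam (wl [1,2,1,14,1,6,1,6,1]) 506 757 = true := by decide +kernel
theorem x096_12 : fam (wl [1,1,2,2,1,1,1,4,2,2,3]) 2997 3518 = true := by decide +kernel
theorem x096_13 : fam (wl [2,2,2,1,1,1,4,2,2,2,1]) 944 781 = true := by decide +kernel
theorem x096_14 : fam (wl [2,1,4,2,2,2,1,1,1,5]) 881 626 = true := by decide +kernel
theorem x096_15 : fam (wl [1,1,1,4,2,2,2,1,1,1,4,1]) 3064 3953 = true := by decide +kernel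
theorem x096_16 : fam (wl [25,1,2,51]) 231 18 = true := by decide +kernel
theorem x096_17 : fam (wl [1,7,1,4,9,1,3,2]) 1192 2114 = true := by decide +kernel
theorem x096_18 : fam (wl [8,1,4,9,1,3,1,1]) 2759 627 = true := by decide +kernel
theorem x096_19 : fam (wl [1,24,1,2,50,1]) 3720 7153 = true := by decide +kernel
theorem x096_20 : fam (wl [1,1,30,1,14,1,3]) 864 878 = true := by decide +kernel
theorem x096_21 : fam (wl [1,1,4,2,2,2,2,1,1,1,3]) 1835 2022 = true := by decide +kernel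
theorem x096_22 : fam (wl [2,4,2,2,2,2,1,1,1,2,1]) 2124 1909 = true := by decide +kernel
theorem x096_23 : fam (wl [2,30,1,14,1,2,1]) 3095 3047 = true := by decide +kernel
theorem x096_24 : fam (wl [1,3,1,4,2,1,9,1,1,2]) 1455 2306 = true := by decide +kernel
theorem x096_25 : fam (wl [1,35,2,1,17,2]) 2888 5618 = true := by decide +kernel
theorem x096_26 : fam (wl [36,2,1,17,1,1]) 1071 59 = true := by decide +kernel
theorem x096_27 : fam (wl [4,1,4,2,1,9,1,1,1,1]) 2504 1041 = true := by decide +kernel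
/-- words with first entry from 3923 to 3961 -/
def L096 : List (List ℕ × ℕ × ℕ) := [([1,1,6,1,2,5,1,2,1,3],39,42), ([2,6,1,2,5,1,2,1,2,1],3882,3613), ([1,10,3,1,7,5,2],3686,6718), ([11,3,1,7,5,1,1],241,43), ([13,2,1,2,1,26],1617,242), ([1,12,2,1,2,1,25,1],2310,4277), ([14,1,3,1,1,29],1197,162), ([1,13,1,3,1,1,28,1],2732,5097), ([3,1,14,1,6,1,7],3429,1742), ([1,1,2,2,4,1,1,1,2,2,3],966,1130), ([2,2,2,4,1,1,1,2,2,2,1],2969,2467), ([1,2,1,14,1,6,1,6,1],506,757), ([1,1,2,2,1,1,1,4,2,2,3],2997,3518), ([2,2,2,1,1,1,4,2,2,2,1],944,781), ([2,1,4,2,2,2,1,1,1,5],881,626), ([1,1,1,4,2,2,2,1,1,1,4,1],3064,3953), ([25,1,2,51],231,18), ([1,7,1,4,9,1,3,2],1192,2114), ([8,1,4,9,1,3,1,1],2759,627), ([1,24,1,2,50,1],3720,7153), ([1,1,30,1,14,1,3],864,878), ([1,1,4,2,2,2,2,1,1,1,3],1835,2022), ([2,4,2,2,2,2,1,1,1,2,1],2124,1909), ([2,30,1,14,1,2,1],3095,3047), ([1,3,1,4,2,1,9,1,1,2],1455,2306), ([1,35,2,1,17,2],2888,5618), ([36,2,1,17,1,1],1071,59), ([4,1,4,2,1,9,1,1,1,1],2504,1041)]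
theorem r096 : rgV L096 3923 20 = true := by decide +kernel
theorem f096 : ∀ p ∈ L096, fam (wl p.1) p.2.1 p.2.2 = true := by
  intro p hp
  simp only [L096, List.mem_cons, List.not_mem_nil, or_false] at hp
  rcases hp with rfl | rfl | rfl | rfl | rfl | rfl | rfl | rfl | rfl | rfl | rfl | rfl | rfl | rfl | rfl | rfl | rfl | rfl | rfl | rfl | rfl | rfl | rfl | rfl | rfl | rfl | rfl | rfl
  · exact x096_0
  · exact x096_1
  · exact x096_2
  · exact x096_3
  · exact x096_4
  · exact x096_5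
  · exact x096_6
  · exact x096_7
  · exact x096_8
  · exact x096_9
  · exact x096_10
  · exact x096_11
  · exact x096_12
  · exact x096_13
  · exact x096_14
  · exact x096_15
  · exact x096_16
  · exact x096_17
  · exact x096_18
  · exact x096_19
  · exact x096_20
  · exact x096_21
  · exact x096_22
  · exact x096_23
  · exact x096_24
  · exact x096_25
  · exact x096_26
  · exact x096_27

end Pool.Agent.V5helper47.EV
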