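import Pool.Agent.V5helper47.EV.S2

/-! Search, part of the half words. -/

set_option maxRecDepth 1000000

namespace Pool.Agent.V5helper47.EV

open H419R2 Pool.Agent.N911 Pool.Agent.V5helper47.CN

theorem x111_0 : fam (wl [2,1,1,1,1,2,2,2,4,5]) 1492 1142 = true := by decide +kernel
theorem x111_1 : fam (wl [1,1,2,2,1,2,5,2,2,3]) 2945 3458 = true := by decide +kernel
theorem x111_2 : fam (wl [1,2,1,16,8,2,1,2]) 3584 5350 = true := by decide +kernel
theorem x111_3 : fam (wl [1,19,3,1,1,1,9,2]) 516 982 = true := by decide +kernel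
theorem x111_4 : fam (wl [20,3,1,1,1,9,1,1]) 4003 395 = true := by decide +kernel
theorem x111_5 : fam (wl [3,1,16,8,2,1,1,1]) 935 475 = true := by decide +kernel
theorem x111_6 : fam (wl [2,2,2,1,2,5,2,2,2,1]) 1574 1301 = true := by decide +kernel
theorem x111_7 : fam (wl [1,1,1,1,1,1,2,2,2,4,4,1]) 3027 3739 = true := by decide +kernel
theorem x111_8 : fam (wl [1,1,4,1,1,1,2,4,1,1,1,3]) 3843 4218 = true := by decide +kernel
theorem x111_9 : fam (wl [2,4,1,1,1,2,4,1,1,1,2,1]) 678 613 = true := by decide +kernel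
theorem x111_10 : fam (wl [1,1,3,2,3,1,1,4,1,1,3]) 1943 2190 = true := by decide +kernel
theorem x111_11 : fam (wl [1,5,1,1,1,2,2,4,1,2,2]) 2867 4870 = true := by decide +kernel
theorem x111_12 : fam (wl [6,1,1,1,2,2,4,1,2,1,1]) 1660 501 = true := by decide +kernel
theorem x111_13 : fam (wl [2,3,2,3,1,1,4,1,1,2,1]) 2584 2257 = true := by decide +kernel
theorem x111_14 : fam (wl [14,2,1,2,1,28]) 1738 242 = true := by decide +kernel
theorem x111_15 : fam (wl [3,3,1,1,2,1,3,1,1,6]) 764 466 = true := by decide +kernel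
theorem x111_16 : fam (wl [2,1,3,4,8,1,1,5]) 3270 2366 = true := by decide +kernel
theorem x111_17 : fam (wl [1,1,2,13,6,1,2,3]) 2296 2742 = true := by decide +kernel
theorem x111_18 : fam (wl [2,2,13,6,1,2,2,1]) 2241 1807 = true := by decide +kernel
theorem x111_19 : fam (wl [1,1,1,3,4,8,1,1,4,1]) 1267 1619 = true := by decide +kernel
theorem x111_20 : fam (wl [1,2,3,1,1,2,1,3,1,1,5,1]) 3773 5247 = true := by decide +kernel
theorem x111_21 : fam (wl [1,13,2,1,2,1,27,1]) 2799 5211 = true := by decide +kernel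
theorem x111_22 : fam (wl [2,2,2,1,3,1,1,5,1,4]) 3793 3130 = true := by decide +kernel
theorem x111_23 : fam (wl [1,1,2,2,1,3,1,1,5,1,3,1]) 752 885 = true := by decide +kernel
theorem x111_24 : fam (wl [2,1,1,1,2,1,1,3,1,3,5]) 2303 1750 = true := by decide +kernel
theorem x111_25 : fam (wl [1,5,1,5,1,12,1,2,2]) 3588 6130 = true := by decide +kernel
theorem x111_26 : fam (wl [6,1,5,1,12,1,2,1,1]) 969 283 = true := by decide +kernel
theorem x111_27 : fam (wl [1,1,1,1,1,2,1,1,3,1,3,4,1]) 2254 2797 = true := by decide +kernel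
/-- words with first entry from 4521 to 4559 -/
def L111 : List (List ℕ × ℕ × ℕ) := [([2,1,1,1,1,2,2,2,4,5],1492,1142), ([1,1,2,2,1,2,5,2,2,3],2945,3458), ([1,2,1,16,8,2,1,2],3584,5350), ([1,19,3,1,1,1,9,2],516,982), ([20,3,1,1,1,9,1,1],4003,395), ([3,1,16,8,2,1,1,1],935,475), ([2,2,2,1,2,5,2,2,2,1],1574,1301), ([1,1,1,1,1,1,2,2,2,4,4,1],3027,3739), ([1,1,4,1,1,1,2,4,1,1,1,3],3843,4218), ([2,4,1,1,1,2,4,1,1,1,2,1],678,613), ([1,1,3,2,3,1,1,4,1,1,3],1943,2190), ([1,5,1,1,1,2,2,4,1,2,2],2867,4870), ([6,1,1,1,2,2,4,1,2,1,1],1660,501), ([2,3,2,3,1,1,4,1,1,2,1],2584,2257), ([14,2,1,2,1,28],1738,242), ([3,3,1,1,2,1,3,1,1,6],764,466), ([2,1,3,4,8,1,1,5],3270,2366), ([1,1,2,13,6,1,2,3],2296,2742), ([2,2,13,6,1,2,2,1],2241,1807), ([1,1,1,3,4,8,1,1,4,1],1267,1619), ([1,2,3,1,1,2,1,3,1,1,5,1],3773,5247), ([1,13,2,1,2,1,27,1],2799,5211), ([2,2,2,1,3,1,1,5,1,4],3793,3130), ([1,1,2,2,1,3,1,1,5,1,3,1],752,885), ([2,1,1,1,2,1,1,3,1,3,5],2303,1750),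 ([1,5,1,5,1,12,1,2,2],3588,6130), ([6,1,5,1,12,1,2,1,1],969,283), ([1,1,1,1,1,2,1,1,3,1,3,4,1],2254,2797)]
theorem r111 : rgV L111 4521 20 = true := by decide +kernel
theorem f111 : ∀ p ∈ L111, fam (wl p.1) p.2.1 p.2.2 = true := by
  intro p hp
  simp only [L111, List.mem_cons, List.not_mem_nil, or_false] at hp
  rcases hp with rfl | rfl | rfl | rfl | rfl | rfl | rfl | rfl | rfl | rfl | rfl | rfl | rfl | rfl | rfl | rfl | rfl | rfl | rfl | rfl | rfl | rfl | rfl | rfl | rfl | rfl | rfl | rfl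
  · exact x111_0
  · exact x111_1
  · exact x111_2
  · exact x111_3
  · exact x111_4
  · exact x111_5
  · exact x111_6
  · exact x111_7
  · exact x111_8
  · exact x111_9
  · exact x111_10
  · exact x111_11
  · exact x111_12
  · exact x111_13
  · exact x111_14
  · exact x111_15
  · exact x111_16
  · exact x111_17
  · exact x111_18
  · exact x111_19
  · exact x111_20
  · exact x111_21
  · exact x111_22
  · exact x111_23
  · exact x111_24
  · exact x111_25
  · exact x111_26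
  · exact x111_27

end Pool.Agent.V5helper47.EV
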