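import Pool.Agent.V5helper47.EV.S2

/-! Search, part of the half words. -/

set_option maxRecDepth 1000000

namespace Pool.Agent.V5helper47.EV

open H419R2 Pool.Agent.N911 Pool.Agent.V5helper47.CN

theorem x137_0 : fam (wl [52,1,105]) 5564 210 = true := by decide +kernel
theorem x137_1 : fam (wl [1,1,36,1,17,1,3]) 1928 1954 = true := by decide +kernel
theorem x137_2 : fam (wl [2,36,1,17,1,2,1]) 3687 3639 = true := by decide +kernel
theorem x137_3 : fam (wl [1,51,1,104,1]) 51 103 = true := by decide +kernel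
theorem x137_4 : fam (wl [12,6,3,24]) 4389 722 = true := by decide +kernel
theorem x137_5 : fam (wl [2,8,1,1,2,3,4,4]) 713 674 = true := by decide +kernel
theorem x137_6 : fam (wl [1,1,8,1,1,2,3,4,3,1]) 4902 5173 = true := by decide +kernel
theorem x137_7 : fam (wl [1,11,6,3,23,1]) 1226 2253 = true := by decide +kernel
theorem x137_8 : fam (wl [53,106]) 53 2 = true := by decide +kernel
theorem x137_9 : fam (wl [1,1,1,5,4,2,11,3]) 4941 6402 = true := by decide +kernel
theorem x137_10 : fam (wl [2,1,5,4,2,11,2,1]) 676 477 = true := by decide +kernel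
theorem x137_11 : fam (wl [1,52,105,1]) 5564 10921 = true := by decide +kernel
theorem x137_12 : fam (wl [1,73,1,36,2]) 4235 8358 = true := by decide +kernel
theorem x137_13 : fam (wl [74,1,36,1,1]) 1386 37 = true := by decide +kernel
theorem x137_14 : fam (wl [1,1,1,17,35,3]) 831 1098 = true := by decide +kernel
theorem x137_15 : fam (wl [1,74,37,2]) 1387 2738 = true := by decide +kernel
theorem x137_16 : fam (wl [75,37,1,1]) 4238 113 = true := by decide +kernel
theorem x137_17 : fam (wl [2,1,17,35,2,1]) 4794 3257 = true := by decide +kernel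
theorem x137_18 : fam (wl [7,2,3,6,1,14]) 2430 654 = true := by decide +kernel
theorem x137_19 : fam (wl [1,1,37,18,1,3]) 882 894 = true := by decide +kernel
theorem x137_20 : fam (wl [2,37,18,1,2,1]) 4749 4687 = true := by decide +kernel
theorem x137_21 : fam (wl [1,6,2,3,6,1,13,1]) 3201 5543 = true := by decide +kernel
theorem x137_22 : fam (wl [8,3,2,2,1,1,16]) 2977 718 = true := by decide +kernel
theorem x137_23 : fam (wl [1,7,3,2,2,1,1,15,1]) 2660 4681 = true := by decide +kernel
theorem x137_24 : fam (wl [2,2,2,5,1,2,4,1,4]) 4618 3838 = true := by decide +kernel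
theorem x137_25 : fam (wl [1,1,2,2,5,1,2,4,1,3,1]) 1021 1195 = true := by decide +kernel
theorem x137_26 : fam (wl [4,1,3,1,2,1,2,1,1,9]) 4755 1986 = true := by decide +kernel
theorem x137_27 : fam (wl [1,3,1,3,1,2,1,2,1,1,8,1]) 884 1401 = true := by decide +kernel
/-- words with first entry from 5617 to 5641 -/
def L137 : List (List ℕ × ℕ × ℕ) := [([52,1,105],5564,210), ([1,1,36,1,17,1,3],1928,1954), ([2,36,1,17,1,2,1],3687,3639), ([1,51,1,104,1],51,103), ([12,6,3,24],4389,722), ([2,8,1,1,2,3,4,4],713,674), ([1,1,8,1,1,2,3,4,3,1],4902,5173), ([1,11,6,3,23,1],1226,2253), ([53,106],53,2), ([1,1,1,5,4,2,11,3],4941,6402), ([2,1,5,4,2,11,2,1],676,477), ([1,52,105,1],5564,10921), ([1,73,1,36,2],4235,8358), ([74,1,36,1,1],1386,37), ([1,1,1,17,35,3],831,1098), ([1,74,37,2],1387,2738), ([75,37,1,1],4238,113), ([2,1,17,35,2,1],4794,3257), ([7,2,3,6,1,14],2430,654), ([1,1,37,18,1,3],882,894), ([2,37,18,1,2,1],4749,4687), ([1,6,2,3,6,1,13,1],3201,5543), ([8,3,2,2,1,1,16],2977,718), ([1,7,3,2,2,1,1,15,1],2660,4681),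 ([2,2,2,5,1,2,4,1,4],4618,3838), ([1,1,2,2,5,1,2,4,1,3,1],1021,1195), ([4,1,3,1,2,1,2,1,1,9],4755,1986), ([1,3,1,3,1,2,1,2,1,1,8,1],884,1401)]
theorem r137 : rgV L137 5617 13 = true := by decide +kernel
theorem f137 : ∀ p ∈ L137, fam (wl p.1) p.2.1 p.2.2 = true := by
  intro p hp
  simp only [L137, List.mem_cons, List.not_mem_nil, or_false] at hp
  rcases hp with rfl | rfl | rfl | rfl | rfl | rfl | rfl | rfl | rfl | rfl | rfl | rfl | rfl | rfl | rfl | rfl | rfl | rfl | rfl | rfl | rfl | rfl | rfl | rfl | rfl | rfl | rfl | rfl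
  · exact x137_0
  · exact x137_1
  · exact x137_2
  · exact x137_3
  · exact x137_4
  · exact x137_5
  · exact x137_6
  · exact x137_7
  · exact x137_8
  · exact x137_9
  · exact x137_10
  · exact x137_11
  · exact x137_12
  · exact x137_13
  · exact x137_14
  · exact x137_15
  · exact x137_16
  · exact x137_17
  · exact x137_18
  · exact x137_19
  · exact x137_20
  · exact x137_21
  · exact x137_22
  · exact x137_23
  · exact x137_24
  · exact x137_25
  · exact x137_26
  · exact x137_27

end Pool.Agent.V5helper47.EV
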