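import Pool.Agent.V5helper47.EV.S2

/-! Search, part of the half words. -/

set_option maxRecDepth 1000000

namespace Pool.Agent.V5helper47.EV

open H419R2 Pool.Agent.N911 Pool.Agent.V5helper47.CN

theorem x152_0 : fam (wl [3,8,2,4,4,6]) 2928 1878 = true := by decide +kernel
theorem x152_1 : fam (wl [1,78,39,2]) 1540 3042 = true := by decide +kernel
theorem x152_2 : fam (wl [79,39,1,1]) 4701 119 = true := by decide +kernel
theorem x152_3 : fam (wl [1,2,8,2,4,4,5,1]) 3313 4503 = true := by decide +kernel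
theorem x152_4 : fam (wl [1,4,10,1,21,2,2]) 3647 5862 = true := by decide +kernel
theorem x152_5 : fam (wl [5,10,1,21,2,1,1]) 2598 1021 = true := by decide +kernel
theorem x152_6 : fam (wl [1,1,39,19,1,3]) 4884 4946 = true := by decide +kernel
theorem x152_7 : fam (wl [1,4,1,3,1,1,3,1,1,2,2,2]) 4141 6850 = true := by decide +kernel
theorem x152_8 : fam (wl [5,1,3,1,1,3,1,1,2,2,1,1]) 2106 729 = true := by decide +kernel
theorem x152_9 : fam (wl [2,39,19,1,2,1]) 1363 1347 = true := by decide +kernel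
theorem x152_10 : fam (wl [1,2,6,1,2,2,13,1,2]) 5291 7222 = true := by decide +kernel
theorem x152_11 : fam (wl [3,6,1,2,2,13,1,1,1]) 964 613 = true := by decide +kernel
theorem x152_12 : fam (wl [1,44,1,2,22,2]) 4589 8978 = true := by decide +kernel
theorem x152_13 : fam (wl [45,1,2,22,1,1]) 1666 73 = true := by decide +kernel
theorem x152_14 : fam (wl [3,26,13,6]) 4925 3242 = true := by decide +kernel
theorem x152_15 : fam (wl [1,1,22,2,1,10,1,3]) 4511 4610 = true := by decide +kernel
theorem x152_16 : fam (wl [2,22,2,1,10,1,2,1]) 1746 1709 = true := by decide +kernel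
theorem x152_17 : fam (wl [1,2,26,13,5,1]) 1332 1789 = true := by decide +kernel
theorem x152_18 : fam (wl [1,1,1,17,1,36,3]) 2553 3374 = true := by decide +kernel
theorem x152_19 : fam (wl [2,1,17,1,36,2,1]) 3708 2517 = true := by decide +kernel
theorem x152_20 : fam (wl [12,1,5,2,1,25]) 4636 722 = true := by decide +kernel
theorem x152_21 : fam (wl [1,2,1,10,1,2,5,2,1,2]) 3939 5866 = true := by decide +kernel
theorem x152_22 : fam (wl [3,1,10,1,2,5,2,1,1,1]) 2326 1189 = true := by decide +kernel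
theorem x152_23 : fam (wl [1,11,1,5,2,1,24,1]) 1629 3007 = true := by decide +kernel
theorem x152_24 : fam (wl [55,1,111]) 6215 222 = true := by decide +kernel
theorem x152_25 : fam (wl [1,54,1,110,1]) 54 109 = true := by decide +kernel
/-- words with first entry from 6243 to 6271 -/
def L152 : List (List ℕ × ℕ × ℕ) := [([3,8,2,4,4,6],2928,1878), ([1,78,39,2],1540,3042), ([79,39,1,1],4701,119), ([1,2,8,2,4,4,5,1],3313,4503), ([1,4,10,1,21,2,2],3647,5862), ([5,10,1,21,2,1,1],2598,1021), ([1,1,39,19,1,3],4884,4946), ([1,4,1,3,1,1,3,1,1,2,2,2],4141,6850), ([5,1,3,1,1,3,1,1,2,2,1,1],2106,729), ([2,39,19,1,2,1],1363,1347), ([1,2,6,1,2,2,13,1,2],5291,7222), ([3,6,1,2,2,13,1,1,1],964,613), ([1,44,1,2,22,2],4589,8978), ([45,1,2,22,1,1],1666,73), ([3,26,13,6],4925,3242), ([1,1,22,2,1,10,1,3],4511,4610), ([2,22,2,1,10,1,2,1],1746,1709), ([1,2,26,13,5,1],1332,1789), ([1,1,1,17,1,36,3],2553,3374), ([2,1,17,1,36,2,1],3708,2517), ([12,1,5,2,1,25],4636,722), ([1,2,1,10,1,2,5,2,1,2],3939,5866), ([3,1,10,1,2,5,2,1,1,1],2326,1189),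 ([1,11,1,5,2,1,24,1],1629,3007), ([55,1,111],6215,222), ([1,54,1,110,1],54,109)]
theorem r152 : rgV L152 6243 15 = true := by decide +kernel
theorem f152 : ∀ p ∈ L152, fam (wl p.1) p.2.1 p.2.2 = true := by
  intro p hp
  simp only [L152, List.mem_cons, List.not_mem_nil, or_false] at hp
  rcases hp with rfl | rfl | rfl | rfl | rfl | rfl | rfl | rfl | rfl | rfl | rfl | rfl | rfl | rfl | rfl | rfl | rfl | rfl | rfl | rfl | rfl | rfl | rfl | rfl | rfl | rfl
  · exact x152_0
  · exact x152_1
  · exact x152_2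
  · exact x152_3
  · exact x152_4
  · exact x152_5
  · exact x152_6
  · exact x152_7
  · exact x152_8
  · exact x152_9
  · exact x152_10
  · exact x152_11
  · exact x152_12
  · exact x152_13
  · exact x152_14
  · exact x152_15
  · exact x152_16
  · exact x152_17
  · exact x152_18
  · exact x152_19
  · exact x152_20
  · exact x152_21
  · exact x152_22
  · exact x152_23
  · exact x152_24
  · exact x152_25

end Pool.Agent.V5helper47.EV
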