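import Pool.Agent.V5helper47.EV.S2

/-! Search, part of the half words. -/

set_option maxRecDepth 1000000

namespace Pool.Agent.V5helper47.EV

open H419R2 Pool.Agent.N911 Pool.Agent.V5helper47.CN

theorem x178_0 : fam (wl [13,1,5,2,1,27]) 4997 722 = true := by decide +kernel
theorem x178_1 : fam (wl [1,24,1,2,1,2,12,2]) 1041 2002 = true := by decide +kernel
theorem x178_2 : fam (wl [25,1,2,1,2,12,1,1]) 6238 485 = true := by decide +kernel
theorem x178_3 : fam (wl [1,12,1,5,2,1,26,1]) 2282 4237 = true := by decide +kernel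
theorem x178_4 : fam (wl [1,3,1,3,4,2,7,1,1,2]) 6570 10382 = true := by decide +kernel
theorem x178_5 : fam (wl [4,1,3,4,2,7,1,1,1,1]) 711 299 = true := by decide +kernel
theorem x178_6 : fam (wl [1,2,1,2,1,1,2,2,3,1,2,1,2]) 4790 7006 = true := by decide +kernel
theorem x178_7 : fam (wl [3,1,2,1,1,2,2,3,1,2,1,1,1]) 2505 1347 = true := by decide +kernel
theorem x178_8 : fam (wl [6,14,7,12]) 1123 370 = true := by decide +kernel
theorem x178_9 : fam (wl [1,5,14,7,11,1]) 6172 10313 = true := by decide +kernel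
theorem x178_10 : fam (wl [3,3,2,3,1,1,2,1,1,6]) 1484 902 = true := by decide +kernel
theorem x178_11 : fam (wl [1,1,2,2,3,1,2,1,1,2,2,3]) 2480 2902 = true := by decide +kernel
theorem x178_12 : fam (wl [2,2,2,3,1,2,1,1,2,2,2,1]) 4817 3999 = true := by decide +kernel
theorem x178_13 : fam (wl [1,2,3,2,3,1,1,2,1,1,5,1]) 5813 8095 = true := by decide +kernel
theorem x178_14 : fam (wl [1,1,2,2,1,1,2,1,3,2,2,3]) 4775 5602 = true := by decide +kernel
theorem x178_15 : fam (wl [2,2,2,1,1,2,1,3,2,2,2,1]) 2530 2093 = true := by decide +kernel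
theorem x178_16 : fam (wl [12,1,1,1,1,4,25]) 643 102 = true := by decide +kernel
theorem x178_17 : fam (wl [1,2,7,3,1,1,14,1,2]) 7000 9538 = true := by decide +kernel
theorem x178_18 : fam (wl [3,7,3,1,1,14,1,1,1]) 311 199 = true := by decide +kernel
theorem x178_19 : fam (wl [1,11,1,1,1,1,4,24,1]) 6668 12281 = true := by decide +kernel
theorem x178_20 : fam (wl [5,1,1,4,1,10,11]) 1991 718 = true := by decide +kernel
theorem x178_21 : fam (wl [1,4,1,1,4,1,10,10,1]) 5328 8737 = true := by decide +kernel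
theorem x178_22 : fam (wl [5,2,5,10,1,10]) 2002 734 = true := by decide +kernel
theorem x178_23 : fam (wl [1,4,2,5,10,1,9,1]) 5317 8687 = true := by decide +kernel
theorem x178_24 : fam (wl [7,12,6,14]) 1126 318 = true := by decide +kernel
theorem x178_25 : fam (wl [1,1,9,3,6,4,1,3]) 4569 4802 = true := by decide +kernel
theorem x178_26 : fam (wl [2,9,3,6,4,1,2,1]) 2752 2613 = true := by decide +kernel
theorem x178_27 : fam (wl [1,6,12,6,13,1]) 6195 10643 = true := by decide +kernel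
/-- words with first entry from 7281 to 7325 -/
def L178 : List (List ℕ × ℕ × ℕ) := [([13,1,5,2,1,27],4997,722), ([1,24,1,2,1,2,12,2],1041,2002), ([25,1,2,1,2,12,1,1],6238,485), ([1,12,1,5,2,1,26,1],2282,4237), ([1,3,1,3,4,2,7,1,1,2],6570,10382), ([4,1,3,4,2,7,1,1,1,1],711,299), ([1,2,1,2,1,1,2,2,3,1,2,1,2],4790,7006), ([3,1,2,1,1,2,2,3,1,2,1,1,1],2505,1347), ([6,14,7,12],1123,370), ([1,5,14,7,11,1],6172,10313), ([3,3,2,3,1,1,2,1,1,6],1484,902), ([1,1,2,2,3,1,2,1,1,2,2,3],2480,2902), ([2,2,2,3,1,2,1,1,2,2,2,1],4817,3999), ([1,2,3,2,3,1,1,2,1,1,5,1],5813,8095), ([1,1,2,2,1,1,2,1,3,2,2,3],4775,5602), ([2,2,2,1,1,2,1,3,2,2,2,1],2530,2093), ([12,1,1,1,1,4,25],643,102), ([1,2,7,3,1,1,14,1,2],7000,9538), ([3,7,3,1,1,14,1,1,1],311,199), ([1,11,1,1,1,1,4,24,1],6668,12281), ([5,1,1,4,1,10,11],1991,718), ([1,4,1,1,4,1,10,10,1],5328,8737), ([5,2,5,10,1,10],2002,734), ([1,4,2,5,10,1,9,1],5317,8687), ([7,12,6,14],1126,318), ([1,1,9,3,6,4,1,3],4569,4802), ([2,9,3,6,4,1,2,1],2752,2613),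 ([1,6,12,6,13,1],6195,10643)]
theorem r178 : rgV L178 7281 23 = true := by decide +kernel
theorem f178 : ∀ p ∈ L178, fam (wl p.1) p.2.1 p.2.2 = true := by
  intro p hp
  simp only [L178, List.mem_cons, List.not_mem_nil, or_false] at hp
  rcases hp with rfl | rfl | rfl | rfl | rfl | rfl | rfl | rfl | rfl | rfl | rfl | rfl | rfl | rfl | rfl | rfl | rfl | rfl | rfl | rfl | rfl | rfl | rfl | rfl | rfl | rfl | rfl | rfl
  · exact x178_0
  · exact x178_1
  · exact x178_2
  · exact x178_3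
  · exact x178_4
  · exact x178_5
  · exact x178_6
  · exact x178_7
  · exact x178_8
  · exact x178_9
  · exact x178_10
  · exact x178_11
  · exact x178_12
  · exact x178_13
  · exact x178_14
  · exact x178_15
  · exact x178_16
  · exact x178_17
  · exact x178_18
  · exact x178_19
  · exact x178_20
  · exact x178_21
  · exact x178_22
  · exact x178_23
  · exact x178_24
  · exact x178_25
  · exact x178_26
  · exact x178_27

end Pool.Agent.V5helper47.EV
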