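import Pool.Agent.V5helper47.EV.S2

/-! Search, part of the half words. -/

set_option maxRecDepth 1000000

namespace Pool.Agent.V5helper47.EV

open H419R2 Pool.Agent.N911 Pool.Agent.V5helper47.CN

theorem x193_0 : fam (wl [6,5,2,2,1,2,12]) 5300 1714 = true := by decide +kernel
theorem x193_1 : fam (wl [1,5,5,2,2,1,2,11,1]) 2577 4323 = true := by decide +kernel
theorem x193_2 : fam (wl [2,9,1,2,5,1,4,4]) 6421 6106 = true := by decide +kernel
theorem x193_3 : fam (wl [1,1,9,1,2,5,1,4,3,1]) 1460 1533 = true := by decide +kernel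
theorem x193_4 : fam (wl [4,21,1,10,8]) 1695 838 = true := by decide +kernel
theorem x193_5 : fam (wl [1,32,1,1,3,16,2]) 6327 12278 = true := by decide +kernel
theorem x193_6 : fam (wl [33,1,1,3,16,1,1]) 1560 93 = true := by decide +kernel
theorem x193_7 : fam (wl [1,3,21,1,10,7,1]) 6192 9325 = true := by decide +kernel
theorem x193_8 : fam (wl [2,2,1,1,3,1,2,1,1,3,1,4]) 4076 3410 = true := by decide +kernel
theorem x193_9 : fam (wl [1,10,1,3,2,1,1,2,5,2]) 311 570 = true := by decide +kernel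
theorem x193_10 : fam (wl [11,1,3,2,1,1,2,5,1,1]) 7586 1289 = true := by decide +kernel
theorem x193_11 : fam (wl [1,1,2,1,1,3,1,2,1,1,3,1,3,1]) 3821 4447 = true := by decide +kernel
theorem x193_12 : fam (wl [4,3,1,2,1,6,1,1,8]) 4536 2126 = true := by decide +kernel
theorem x193_13 : fam (wl [2,1,28,1,13,1,5]) 2560 1726 = true := by decide +kernel
theorem x193_14 : fam (wl [1,1,1,28,1,13,1,4,1]) 5341 7083 = true := by decide +kernel
theorem x193_15 : fam (wl [1,3,3,1,2,1,6,1,1,7,1]) 3365 5155 = true := by decide +kernel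
theorem x193_16 : fam (wl [4,2,1,6,3,2,1,8]) 213 98 = true := by decide +kernel
theorem x193_17 : fam (wl [1,3,2,1,6,3,2,1,7,1]) 7692 11849 = true := by decide +kernel
theorem x193_18 : fam (wl [2,1,1,11,1,24,5]) 3102 2462 = true := by decide +kernel
theorem x193_19 : fam (wl [2,43,1,21,4]) 7668 7582 = true := by decide +kernel
theorem x193_20 : fam (wl [1,1,43,1,21,3,1]) 243 247 = true := by decide +kernel
theorem x193_21 : fam (wl [1,1,1,1,11,1,24,4,1]) 4809 5803 = true := by decide +kernel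
theorem x193_22 : fam (wl [2,1,8,3,1,1,1,3,1,5]) 6111 4226 = true := by decide +kernel
theorem x193_23 : fam (wl [1,1,7,4,8,3,1,3]) 2752 2930 = true := by decide +kernel
theorem x193_24 : fam (wl [2,7,4,8,3,1,2,1]) 5159 4827 = true := by decide +kernel
theorem x193_25 : fam (wl [1,1,1,8,3,1,1,1,3,1,4,1]) 1800 2357 = true := by decide +kernel
theorem x193_26 : fam (wl [1,87,1,43,2]) 2001 3958 = true := by decide +kernel
theorem x193_27 : fam (wl [88,1,43,1,1]) 5916 133 = true := by decide +kernel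
/-- words with first entry from 7879 to 7919 -/
def L193 : List (List ℕ × ℕ × ℕ) := [([6,5,2,2,1,2,12],5300,1714), ([1,5,5,2,2,1,2,11,1],2577,4323), ([2,9,1,2,5,1,4,4],6421,6106), ([1,1,9,1,2,5,1,4,3,1],1460,1533), ([4,21,1,10,8],1695,838), ([1,32,1,1,3,16,2],6327,12278), ([33,1,1,3,16,1,1],1560,93), ([1,3,21,1,10,7,1],6192,9325), ([2,2,1,1,3,1,2,1,1,3,1,4],4076,3410), ([1,10,1,3,2,1,1,2,5,2],311,570), ([11,1,3,2,1,1,2,5,1,1],7586,1289), ([1,1,2,1,1,3,1,2,1,1,3,1,3,1],3821,4447), ([4,3,1,2,1,6,1,1,8],4536,2126), ([2,1,28,1,13,1,5],2560,1726), ([1,1,1,28,1,13,1,4,1],5341,7083), ([1,3,3,1,2,1,6,1,1,7,1],3365,5155), ([4,2,1,6,3,2,1,8],213,98), ([1,3,2,1,6,3,2,1,7,1],7692,11849), ([2,1,1,11,1,24,5],3102,2462), ([2,43,1,21,4],7668,7582), ([1,1,43,1,21,3,1],243,247), ([1,1,1,1,11,1,24,4,1],4809,5803), ([2,1,8,3,1,1,1,3,1,5],6111,4226), ([1,1,7,4,8,3,1,3],2752,2930), ([2,7,4,8,3,1,2,1],5159,4827), ([1,1,1,8,3,1,1,1,3,1,4,1],1800,2357), ([1,87,1,43,2],2001,3958), ([88,1,43,1,1],5916,133)]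
theorem r193 : rgV L193 7879 21 = true := by decide +kernel
theorem f193 : ∀ p ∈ L193, fam (wl p.1) p.2.1 p.2.2 = true := by
  intro p hp
  simp only [L193, List.mem_cons, List.not_mem_nil, or_false] at hp
  rcases hp with rfl | rfl | rfl | rfl | rfl | rfl | rfl | rfl | rfl | rfl | rfl | rfl | rfl | rfl | rfl | rfl | rfl | rfl | rfl | rfl | rfl | rfl | rfl | rfl | rfl | rfl | rfl | rfl
  · exact x193_0
  · exact x193_1
  · exact x193_2
  · exact x193_3
  · exact x193_4
  · exact x193_5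
  · exact x193_6
  · exact x193_7
  · exact x193_8
  · exact x193_9
  · exact x193_10
  · exact x193_11
  · exact x193_12
  · exact x193_13
  · exact x193_14
  · exact x193_15
  · exact x193_16
  · exact x193_17
  · exact x193_18
  · exact x193_19
  · exact x193_20
  · exact x193_21
  · exact x193_22
  · exact x193_23
  · exact x193_24
  · exact x193_25
  · exact x193_26
  · exact x193_27

end Pool.Agent.V5helper47.EV
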