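import Pool.Agent.V5helper47.EV.S2

/-! Search, part of the half words. -/

set_option maxRecDepth 1000000

namespace Pool.Agent.V5helper47.EV

open H419R2 Pool.Agent.N911 Pool.Agent.V5helper47.CN

theorem x219_0 : fam (wl [2,2,2,2,1,1,3,1,4,1,4]) 6176 5118 = true := by decide +kernel
theorem x219_1 : fam (wl [1,6,2,5,1,2,4,3,2]) 5784 10018 = true := by decide +kernel
theorem x219_2 : fam (wl [7,2,5,1,2,4,3,1,1]) 3173 851 = true := by decide +kernel
theorem x219_3 : fam (wl [1,1,2,2,2,1,1,3,1,4,1,3,1]) 2781 3259 = true := by decide +kernel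
theorem x219_4 : fam (wl [2,2,3,1,1,1,3,7,1,4]) 2959 2426 = true := by decide +kernel
theorem x219_5 : fam (wl [1,1,2,3,1,1,1,3,7,1,3,1]) 6002 7085 = true := by decide +kernel
theorem x219_6 : fam (wl [1,2,21,1,43,1,2]) 5644 7582 = true := by decide +kernel
theorem x219_7 : fam (wl [3,21,1,43,1,1,1]) 3323 2183 = true := by decide +kernel
theorem x219_8 : fam (wl [1,1,5,1,3,2,1,1,2,2,1,3]) 7159 7730 = true := by decide +kernel
theorem x219_9 : fam (wl [2,5,1,3,2,1,1,2,2,1,2,1]) 1808 1665 = true := by decide +kernel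
theorem x219_10 : fam (wl [38,1,2,77]) 348 18 = true := by decide +kernel
theorem x219_11 : fam (wl [1,37,1,2,76,1]) 8621 16799 = true := by decide +kernel
theorem x219_12 : fam (wl [66,1,133]) 8910 266 = true := by decide +kernel
theorem x219_13 : fam (wl [1,3,1,1,3,2,2,1,1,3,1,1,2]) 3228 5042 = true := by decide +kernel
theorem x219_14 : fam (wl [4,1,1,3,2,2,1,1,3,1,1,1,1]) 5747 2519 = true := by decide +kernel
theorem x219_15 : fam (wl [1,65,1,132,1]) 65 131 = true := by decide +kernel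
theorem x219_16 : fam (wl [67,134]) 67 2 = true := by decide +kernel
theorem x219_17 : fam (wl [3,1,4,1,2,5,1,1,1,7]) 1258 658 = true := by decide +kernel
theorem x219_18 : fam (wl [2,2,7,2,1,14,1,4]) 2732 2214 = true := by decide +kernel
theorem x219_19 : fam (wl [1,1,1,6,1,3,1,1,14,3]) 3923 5114 = true := by decide +kernel
theorem x219_20 : fam (wl [2,1,6,1,3,1,1,14,2,1]) 5054 3521 = true := by decide +kernel
theorem x219_21 : fam (wl [1,1,2,7,2,1,14,1,3,1]) 6245 7431 = true := by decide +kernel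
theorem x219_22 : fam (wl [1,2,1,4,1,2,5,1,1,1,6,1]) 7719 11403 = true := by decide +kernel
theorem x219_23 : fam (wl [1,66,133,1]) 8910 17557 = true := by decide +kernel
/-- words with first entry from 8959 to 8985 -/
def L219 : List (List ℕ × ℕ × ℕ) := [([2,2,2,2,1,1,3,1,4,1,4],6176,5118), ([1,6,2,5,1,2,4,3,2],5784,10018), ([7,2,5,1,2,4,3,1,1],3173,851), ([1,1,2,2,2,1,1,3,1,4,1,3,1],2781,3259), ([2,2,3,1,1,1,3,7,1,4],2959,2426), ([1,1,2,3,1,1,1,3,7,1,3,1],6002,7085), ([1,2,21,1,43,1,2],5644,7582), ([3,21,1,43,1,1,1],3323,2183), ([1,1,5,1,3,2,1,1,2,2,1,3],7159,7730), ([2,5,1,3,2,1,1,2,2,1,2,1],1808,1665), ([38,1,2,77],348,18), ([1,37,1,2,76,1],8621,16799), ([66,1,133],8910,266), ([1,3,1,1,3,2,2,1,1,3,1,1,2],3228,5042), ([4,1,1,3,2,2,1,1,3,1,1,1,1],5747,2519), ([1,65,1,132,1],65,131), ([67,134],67,2), ([3,1,4,1,2,5,1,1,1,7],1258,658), ([2,2,7,2,1,14,1,4],2732,2214), ([1,1,1,6,1,3,1,1,14,3],3923,5114), ([2,1,6,1,3,1,1,14,2,1],5054,3521), ([1,1,2,7,2,1,14,1,3,1],6245,7431),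 ([1,2,1,4,1,2,5,1,1,1,6,1],7719,11403), ([1,66,133,1],8910,17557)]
theorem r219 : rgV L219 8959 14 = true := by decide +kernel
theorem f219 : ∀ p ∈ L219, fam (wl p.1) p.2.1 p.2.2 = true := by
  intro p hp
  simp only [L219, List.mem_cons, List.not_mem_nil, or_false] at hp
  rcases hp with rfl | rfl | rfl | rfl | rfl | rfl | rfl | rfl | rfl | rfl | rfl | rfl | rfl | rfl | rfl | rfl | rfl | rfl | rfl | rfl | rfl | rfl | rfl | rfl
  · exact x219_0
  · exact x219_1
  · exact x219_2
  · exact x219_3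
  · exact x219_4
  · exact x219_5
  · exact x219_6
  · exact x219_7
  · exact x219_8
  · exact x219_9
  · exact x219_10
  · exact x219_11
  · exact x219_12
  · exact x219_13
  · exact x219_14
  · exact x219_15
  · exact x219_16
  · exact x219_17
  · exact x219_18
  · exact x219_19
  · exact x219_20
  · exact x219_21
  · exact x219_22
  · exact x219_23

end Pool.Agent.V5helper47.EV
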