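import Pool.Agent.V5helper47.EV.S2

/-! Search, part of the half words. -/

set_option maxRecDepth 1000000

namespace Pool.Agent.V5helper47.EV

open H419R2 Pool.Agent.N911 Pool.Agent.V5helper47.CN

theorem x234_0 : fam (wl [1,1,1,2,2,1,1,2,3,1,5,3]) 4209 5306 = true := by decide +kernel
theorem x234_1 : fam (wl [1,2,2,1,2,1,1,3,2,5,1,2]) 6413 9018 = true := by decide +kernel
theorem x234_2 : fam (wl [3,2,1,2,1,1,3,2,5,1,1,1]) 3146 1869 = true := by decide +kernel
theorem x234_3 : fam (wl [2,1,2,2,1,1,2,3,1,5,2,1]) 5350 3957 = true := by decide +kernel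
theorem x234_4 : fam (wl [1,1,4,2,2,2,2,2,1,1,1,3]) 6297 6938 = true := by decide +kernel
theorem x234_5 : fam (wl [1,1,1,2,6,1,2,3,5,3]) 8512 10678 = true := by decide +kernel
theorem x234_6 : fam (wl [2,1,2,6,1,2,3,5,2,1]) 1049 783 = true := by decide +kernel
theorem x234_7 : fam (wl [2,4,2,2,2,2,2,1,1,1,2,1]) 3264 2933 = true := by decide +kernel
theorem x234_8 : fam (wl [6,1,4,2,2,1,1,1,13]) 4246 1246 = true := by decide +kernel
theorem x234_9 : fam (wl [2,2,1,4,1,1,3,2,2,1,4]) 7080 6014 = true := by decide +kernel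
theorem x234_10 : fam (wl [1,1,2,1,4,1,1,3,2,2,1,3,1]) 2487 2863 = true := by decide +kernel
theorem x234_11 : fam (wl [1,5,1,4,2,2,1,1,1,12,1]) 5321 9083 = true := by decide +kernel
theorem x234_12 : fam (wl [1,1,3,1,10,5,2,1,1,3]) 7460 8306 = true := by decide +kernel
theorem x234_13 : fam (wl [1,5,1,9,19,1,2,2]) 9263 15842 = true := by decide +kernel
theorem x234_14 : fam (wl [6,1,9,19,1,2,1,1]) 306 89 = true := by decide +kernel
theorem x234_15 : fam (wl [2,3,1,10,5,2,1,1,2,1]) 2109 1871 = true := by decide +kernel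
theorem x234_16 : fam (wl [1,2,3,5,2,1,2,6,1,2]) 8534 11918 = true := by decide +kernel
theorem x234_17 : fam (wl [3,3,5,2,1,2,6,1,1,1]) 1051 635 = true := by decide +kernel
theorem x234_18 : fam (wl [9,1,8,1,3,1,19]) 5038 1018 = true := by decide +kernel
theorem x234_19 : fam (wl [1,8,1,8,1,3,1,18,1]) 4561 8203 = true := by decide +kernel
theorem x234_20 : fam (wl [1,4,2,4,1,2,2,4,2,2]) 9014 14722 = true := by decide +kernel
theorem x234_21 : fam (wl [5,2,4,1,2,2,4,2,1,1]) 585 215 = true := by decide +kernel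
theorem x234_22 : fam (wl [3,2,1,1,5,2,1,3,1,6]) 4272 2518 = true := by decide +kernel
theorem x234_23 : fam (wl [1,1,14,3,1,1,1,6,1,3]) 5813 6010 = true := by decide +kernel
theorem x234_24 : fam (wl [1,1,1,12,1,2,26,3]) 9589 12626 = true := by decide +kernel
theorem x234_25 : fam (wl [1,7,2,1,2,5,2,1,3,2]) 1527 2690 = true := by decide +kernel
theorem x234_26 : fam (wl [8,2,1,2,5,2,1,3,1,1]) 8074 1929 = true := by decide +kernel
theorem x234_27 : fam (wl [2,1,12,1,2,26,2,1]) 12 9 = true := by decide +kernel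
theorem x234_28 : fam (wl [2,14,3,1,1,1,6,1,2,1]) 3788 3661 = true := by decide +kernel
theorem x234_29 : fam (wl [1,2,2,1,1,5,2,1,3,1,5,1]) 5329 7519 = true := by decide +kernel
/-- words with first entry from 9561 to 9607 -/
def L234 : List (List ℕ × ℕ × ℕ) := [([1,1,1,2,2,1,1,2,3,1,5,3],4209,5306), ([1,2,2,1,2,1,1,3,2,5,1,2],6413,9018), ([3,2,1,2,1,1,3,2,5,1,1,1],3146,1869), ([2,1,2,2,1,1,2,3,1,5,2,1],5350,3957), ([1,1,4,2,2,2,2,2,1,1,1,3],6297,6938), ([1,1,1,2,6,1,2,3,5,3],8512,10678), ([2,1,2,6,1,2,3,5,2,1],1049,783), ([2,4,2,2,2,2,2,1,1,1,2,1],3264,2933), ([6,1,4,2,2,1,1,1,13],4246,1246), ([2,2,1,4,1,1,3,2,2,1,4],7080,6014), ([1,1,2,1,4,1,1,3,2,2,1,3,1],2487,2863), ([1,5,1,4,2,2,1,1,1,12,1],5321,9083), ([1,1,3,1,10,5,2,1,1,3],7460,8306), ([1,5,1,9,19,1,2,2],9263,15842), ([6,1,9,19,1,2,1,1],306,89), ([2,3,1,10,5,2,1,1,2,1],2109,1871), ([1,2,3,5,2,1,2,6,1,2],8534,11918), ([3,3,5,2,1,2,6,1,1,1],1051,635), ([9,1,8,1,3,1,19],5038,1018),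 ([1,8,1,8,1,3,1,18,1],4561,8203), ([1,4,2,4,1,2,2,4,2,2],9014,14722), ([5,2,4,1,2,2,4,2,1,1],585,215), ([3,2,1,1,5,2,1,3,1,6],4272,2518), ([1,1,14,3,1,1,1,6,1,3],5813,6010), ([1,1,1,12,1,2,26,3],9589,12626), ([1,7,2,1,2,5,2,1,3,2],1527,2690), ([8,2,1,2,5,2,1,3,1,1],8074,1929), ([2,1,12,1,2,26,2,1],12,9), ([2,14,3,1,1,1,6,1,2,1],3788,3661), ([1,2,2,1,1,5,2,1,3,1,5,1],5329,7519)]
theorem r234 : rgV L234 9561 24 = true := by decide +kernel
theorem f234 : ∀ p ∈ L234, fam (wl p.1) p.2.1 p.2.2 = true := by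
  intro p hp
  simp only [L234, List.mem_cons, List.not_mem_nil, or_false] at hp
  rcases hp with rfl | rfl | rfl | rfl | rfl | rfl | rfl | rfl | rfl | rfl | rfl | rfl | rfl | rfl | rfl | rfl | rfl | rfl | rfl | rfl | rfl | rfl | rfl | rfl | rfl | rfl | rfl | rfl | rfl | rfl
  · exact x234_0
  · exact x234_1
  · exact x234_2
  · exact x234_3
  · exact x234_4
  · exact x234_5
  · exact x234_6
  · exact x234_7
  · exact x234_8
  · exact x234_9
  · exact x234_10
  · exact x234_11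
  · exact x234_12
  · exact x234_13
  · exact x234_14
  · exact x234_15
  · exact x234_16
  · exact x234_17
  · exact x234_18
  · exact x234_19
  · exact x234_20
  · exact x234_21
  · exact x234_22
  · exact x234_23
  · exact x234_24
  · exact x234_25
  · exact x234_26
  · exact x234_27
  · exact x234_28
  · exact x234_29

end Pool.Agent.V5helper47.EV
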